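import Mathlib
import Pool.Agent.Lib.MP_9177b7_ag.CM.Defs

/-!
Joinings on `S`-arithmetic quotients of `SL₂`: definitions and the statements of the pieces.
-/

open MeasureTheory ProbabilityTheory Filter Topology Set
open scoped MatrixGroups ENNReal NNReal UpperHalfPlane

noncomputable section

namespace Pool.Agent.Lib.MP_9177b7_ag.J

/-! ### The groups -/

instance slMeas (F : Type) [CommRing F] [TopologicalSpace F] : MeasurableSpace SL(2, F) := borel _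

instance slBorel (F : Type) [CommRing F] [TopologicalSpace F] : BorelSpace SL(2, F) := ⟨rfl⟩

instance padicMeas (p : ℕ) [Fact p.Prime] : MeasurableSpace ℚ_[p] := borel _

instance padicBorel (p : ℕ) [Fact p.Prime] : BorelSpace ℚ_[p] := ⟨rfl⟩

instance slPolish (F : Type) [NormedField F] [ProperSpace F] : PolishSpace SL(2, F) :=
  haveI : PolishSpace (Matrix (Fin 2) (Fin 2) F) :=
    inferInstanceAs (PolishSpace (Fin 2 → Fin 2 → F))
  Matrix.SpecialLinearGroup.isClosedEmbedding_val.polishSpace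

instance slLC (F : Type) [NormedField F] [ProperSpace F] : LocallyCompactSpace SL(2, F) :=
  haveI : LocallyCompactSpace (Matrix (Fin 2) (Fin 2) F) :=
    inferInstanceAs (LocallyCompactSpace (Fin 2 → Fin 2 → F))
  Matrix.SpecialLinearGroup.isClosedEmbedding_val.locallyCompactSpace

section alg

variable {F : Type} [Field F]

/-- Upper unipotent element. -/
def up (s : F) : SL(2, F) := ⟨!![1, s; 0, 1], by simp [Matrix.det_fin_two]⟩

/-- Lower unipotent element. -/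
def lo (s : F) : SL(2, F) := ⟨!![1, 0; s, 1], by simp [Matrix.det_fin_two]⟩

/-- Diagonal element. -/
def dg (t : Fˣ) : SL(2, F) := ⟨!![(t : F), 0; 0, (t : F)⁻¹], by simp [Matrix.det_fin_two]⟩

/-- Conjugation by the diagonal matrix with entries `c, 1`. -/
def sg (c : Fˣ) : SL(2, F) →* SL(2, F) where
  toFun h := ⟨!![h 0 0, (c : F) * h 0 1; (c : F)⁻¹ * h 1 0, h 1 1], by
    have := h.det_coe
    rw [Matrix.det_fin_two] at this
    rw [Matrix.det_fin_two_of]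
    have hc : (c : F) * (c : F)⁻¹ = 1 := mul_inv_cancel₀ c.ne_zero
    linear_combination this - h 0 1 * h 1 0 * hc⟩
  map_one' := by
    ext i j
    fin_cases i <;> fin_cases j <;> simp
  map_mul' g h := by
    ext i j
    fin_cases i <;> fin_cases j <;>
      simp [Matrix.mul_apply, Fin.sum_univ_two] <;> field_simp

end alg

/-- The group `SL₂(ℚ_l)`. -/
abbrev HH (l : ℕ) [Fact l.Prime] : Type := SL(2, ℚ_[l])

/-- The compact open subgroup `SL₂(ℤ_l)`, as a set. -/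
def Kint (l : ℕ) [Fact l.Prime] : Set (HH l) := {h | ∀ i j, ‖h i j‖ ≤ 1}

/-! ### Abstract homogeneous spaces of `SL₂(ℚ_l) × C` -/

/-- A homogeneous space `X` of `SL₂(ℚ_l) × C` whose base point has a rational stabiliser. -/
structure Sp (l : ℕ) [Fact l.Prime] where
  C : Type
  X : Type
  [gC : Group C]
  [tC : TopologicalSpace C]
  [tgC : IsTopologicalGroup C]
  [pC : PolishSpace C]
  [lC : LocallyCompactSpace C]
  [mC : MeasurableSpace C]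
  [bC : BorelSpace C]
  [tX : TopologicalSpace X]
  [pX : PolishSpace X]
  [lX : LocallyCompactSpace X]
  [mX : MeasurableSpace X]
  [bX : BorelSpace X]
  [ac : MulAction (HH l × C) X]
  [cs : ContinuousSMul (HH l × C) X]
  o : X
  surj : ∀ x : X, ∃ g : HH l × C, g • o = x
  opn : IsOpenMap fun g : HH l × C => g • o
  rat : ∀ g : HH l × C, g • o = o →
    ∃ γ : SL(2, ℚ), g.1 = Matrix.SpecialLinearGroup.map (algebraMap ℚ ℚ_[l]) γ

attribute [instance] Sp.gC Sp.tC Sp.tgC Sp.pC Sp.lC Sp.mC Sp.bC Sp.tX Sp.pX Sp.lX Sp.mX Sp.bX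
  Sp.ac Sp.cs

namespace Sp

variable {l : ℕ} [Fact l.Prime] (S : Sp l)

/-- The acting group. -/
abbrev G : Type := HH l × S.C

/-- The action of `SL₂(ℚ_l)` on `X`. -/
def hs (h : HH l) (x : S.X) : S.X := ((h, 1) : S.G) • x

/-- The action of `C` on `X`. -/
def cc (c : S.C) (x : S.X) : S.X := ((1, c) : S.G) • x

/-- The action of `SL₂(ℚ_l) × SL₂(ℚ_l)` on `X × X`. -/
def h2 (v : HH l × HH l) (z : S.X × S.X) : S.X × S.X := (S.hs v.1 z.1, S.hs v.2 z.2)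

/-- The action of `G × G` on `X × X`. -/
def g2 (η : S.G × S.G) (z : S.X × S.X) : S.X × S.X := (η.1 • z.1, η.2 • z.2)

/-- `μ` is dominated by a right invariant Radon measure on the group. -/
def Bound (μ : Measure S.X) : Prop :=
  ∃ m : Measure S.G, IsFiniteMeasureOnCompacts m ∧ m.IsMulRightInvariant ∧
    ∀ U : Set S.G, IsOpen U → μ ((fun g : S.G => g • S.o) '' U) ≤ m U

/-- Ergodicity of the upper unipotent group, in terms of measures below `μ`. -/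
def ErgU (μ : Measure S.X) : Prop :=
  ∀ lam : Measure S.X, lam ≤ μ → (∀ s, lam.map (S.hs (up s)) = lam) → lam = lam univ • μ

/-- An equivariant decomposition of `ν` into joinings of `μ` with itself. -/
structure Dec (μ : Measure S.X) (ν : Measure (S.X × S.X)) (Θ : Kernel (S.X × S.X) (S.X × S.X))
    (Z : Set (S.X × S.X)) : Prop where
  markov : IsMarkovKernel Θ
  meas : MeasurableSet Z
  bind : ν.bind Θ = ν
  equi : ∀ v z, z ∈ Z → S.h2 v z ∈ Z → Θ (S.h2 v z) = (Θ z).map (S.h2 v)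
  full : ∀ᵐ z ∂ν, z ∈ Z
  typ : ∀ᵐ z ∂ν, ∀ᵐ w ∂Θ z, Θ w = Θ z ∧ w ∈ Z
  m1 : ∀ᵐ z ∂ν, (Θ z).map Prod.fst = μ
  m2 : ∀ᵐ z ∂ν, (Θ z).map Prod.snd = μ
  lusin : ∀ ε : ℝ≥0∞, 0 < ε → ∃ Q : Set (S.X × S.X), IsCompact Q ∧ Q ⊆ Z ∧ ν Qᶜ < ε ∧
    ∀ φ : S.X × S.X → ℝ, Continuous φ → HasCompactSupport φ →
      ContinuousOn (fun z => ∫ w, φ w ∂Θ z) Q

/-- A compact piece of a Hecke correspondence twisted by the diagonal torus. -/
def Gr (B : Matrix (Fin 2) (Fin 2) ℚ) (Ω : Set S.G) : Set (S.X × S.X) :=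
  {z | ∃ g₁ ∈ Ω, ∃ g₂ ∈ Ω, z = (g₁ • S.o, g₂ • S.o) ∧ ∃ d₁ d₂ : ℚ_[l],
    (g₂.1 : Matrix (Fin 2) (Fin 2) ℚ_[l]) * B.map (algebraMap ℚ ℚ_[l]) =
      !![d₁, 0; 0, d₂] * (g₁.1 : Matrix (Fin 2) (Fin 2) ℚ_[l])}

/-- Pairs of points in the same tube. -/
def Col (Ω : Set S.C) (r : ℝ) : Set (S.X × S.X) :=
  {p | ∃ g : S.G, g.1 ∈ Kint l ∧ ‖g.1 0 1‖ ≤ r ∧ g.2 ∈ Ω ∧ p.2 = g • p.1}

end Sp

/-- Ergodic decomposition along an element of `C`. -/
def DecStmt : Prop :=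
  ∀ (l : ℕ) [Fact l.Prime] (S : Sp l) (μ : Measure S.X) (ν : Measure (S.X × S.X)) (b : S.C),
    IsProbabilityMeasure ν → ν.map Prod.fst = μ → ν.map Prod.snd = μ →
    ν.map (Prod.map (S.cc b) (S.cc b)) = ν → Ergodic (S.cc b) μ →
    ∃ Θ Z, S.Dec μ ν Θ Z

/-- The covering argument: almost every component is invariant under a line of unipotents. -/
def LineStmt : Prop :=
  ∀ (l : ℕ) [Fact l.Prime] (S : Sp l) (μ : Measure S.X) (ν : Measure (S.X × S.X))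
    (Θ : Kernel (S.X × S.X) (S.X × S.X)) (Z : Set (S.X × S.X)) (t : ℚ_[l]ˣ),
    1 < ‖(t : ℚ_[l])‖ → S.Bound μ → IsProbabilityMeasure ν → S.Dec μ ν Θ Z →
    ν.map (S.h2 (dg t, dg t)) = ν →
    ∀ᵐ z ∂ν, ∃ x y : ℚ_[l], (x ≠ 0 ∨ y ≠ 0) ∧
      ∀ s : ℚ_[l], (Θ z).map (S.h2 (up (s * x), up (s * y))) = Θ z

/-- Goursat type statements in `SL₂ × SL₂`. -/
def GroupStmt : Prop :=
  ∀ (F : Type) [Field F] [CharZero F] (T : Subgroup (SL(2, F) × SL(2, F))),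
    ((∃ x y : F, (x ≠ 0 ∨ y ≠ 0) ∧ ∀ s, (up (s * x), up (s * y)) ∈ T) →
      (∃ x y : F, (x ≠ 0 ∨ y ≠ 0) ∧ ∀ s, (lo (s * x), lo (s * y)) ∈ T) →
      (∀ s, (1, up s) ∈ T) ∨ (∀ s, (up s, 1) ∈ T) ∨ ∃ c : Fˣ, ∀ h, (h, sg c h) ∈ T) ∧
    (∀ c : Fˣ, (∀ h, (h, sg c h) ∈ T) → ∀ q : F, q ≠ 0 → (1, up q) ∈ T → ∀ s, (1, up s) ∈ T)

/-- A joining invariant under the unipotent group of one factor is the product. -/
def ProdStmt : Prop :=
  ∀ (l : ℕ) [Fact l.Prime] (S : Sp l) (μ : Measure S.X) (θ : Measure (S.X × S.X)),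
    IsProbabilityMeasure μ → S.ErgU μ → θ.map Prod.fst = μ → θ.map Prod.snd = μ →
    ((∀ s, θ.map (S.h2 (1, up s)) = θ) ∨ ∀ s, θ.map (S.h2 (up s, 1)) = θ) → θ = μ.prod μ

/-- Polynomial divergence: either a new unipotent invariance or local rigidity. -/
def DivStmt : Prop :=
  ∀ (l : ℕ) [Fact l.Prime], l ≠ 2 → ∀ (S : Sp l) (θ : Measure (S.X × S.X)) (W : Set (S.X × S.X))
    (c : ℚ_[l]ˣ), IsProbabilityMeasure θ → (∀ᵐ w ∂θ, w ∈ W) →
    (∀ w ∈ W, ∀ v, S.h2 v w ∈ W → θ.map (S.h2 v) = θ) →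
    (∀ h, θ.map (S.h2 (h, sg c h)) = θ) → (∀ q, θ.map (S.h2 (1, up q)) = θ → q = 0) →
    ∃ Q : Set (S.X × S.X), IsCompact Q ∧ 0 < θ Q ∧ ∃ O ∈ 𝓝 (1 : S.G × S.G),
      ∀ w ∈ Q, ∀ η ∈ O, S.g2 η w ∈ Q → η.2.1 = sg c η.1.1

/-- Local rigidity and recurrence give a rational correspondence. -/
def RecStmt : Prop :=
  ∀ (l : ℕ) [Fact l.Prime], l ≠ 2 → ∀ (S : Sp l) (θ : Measure (S.X × S.X)) (c : ℚ_[l]ˣ)
    (Q : Set (S.X × S.X)) (O : Set (S.G × S.G)), IsProbabilityMeasure θ →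
    (∀ h, θ.map (S.h2 (h, sg c h)) = θ) → IsCompact Q → 0 < θ Q → O ∈ 𝓝 (1 : S.G × S.G) →
    (∀ w ∈ Q, ∀ η ∈ O, S.g2 η w ∈ Q → η.2.1 = sg c η.1.1) →
    ∃ (B : Matrix (Fin 2) (Fin 2) ℚ) (Ω : Set S.G), B.det ≠ 0 ∧ IsCompact Ω ∧ 0 < θ (S.Gr B Ω)

/-- The joining theorem. -/
def JoinStmt : Prop :=
  ∀ (l : ℕ) [Fact l.Prime], l ≠ 2 → ∀ (S : Sp l) (μ : Measure S.X) (ν : Measure (S.X × S.X))
    (b : S.C) (t : ℚ_[l]ˣ), 1 < ‖(t : ℚ_[l])‖ → IsProbabilityMeasure μ → S.Bound μ → S.ErgU μ →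
    Ergodic (S.cc b) μ → IsProbabilityMeasure ν → ν.map Prod.fst = μ → ν.map Prod.snd = μ →
    ν.map (Prod.map (S.cc b) (S.cc b)) = ν → ν.map (S.h2 (dg t, dg t)) = ν →
    (∀ (B : Matrix (Fin 2) (Fin 2) ℚ) (Ω : Set S.G), B.det ≠ 0 → IsCompact Ω →
      ν (S.Gr B Ω) = 0) →
    ν = μ.prod μ

/-- Maximal entropy: few collisions force invariance under the expanded unipotent group. -/
def MargStmt : Prop :=
  ∀ (l : ℕ) [Fact l.Prime] (S : Sp l) (t : ℚ_[l]ˣ) (νs : ℕ → ProbabilityMeasure S.X)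
    (ν : ProbabilityMeasure S.X), 1 < ‖(t : ℚ_[l])‖ → Tendsto νs atTop (𝓝 ν) →
    (∀ n, (νs n : Measure S.X).map (S.hs (dg t)) = νs n) →
    (∀ Ω : Set S.C, IsCompact Ω → ∀ ε : ℝ, 0 < ε → ∀ k₀ : ℕ, ∀ᶠ n in atTop, ∃ k : ℕ, k₀ ≤ k ∧
      ((νs n : Measure S.X).prod (νs n)) (S.Col Ω ((‖(t : ℚ_[l])‖ ^ (2 * k))⁻¹)) ≤
        ENNReal.ofReal (‖(t : ℚ_[l])‖ ^ (-(2 * (1 - ε) * k) : ℝ))) →
    ∀ s, (ν : Measure S.X).map (S.hs (up s)) = ν

/-! ### General facts on quotients by discrete subgroups -/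

/-- The quotient of a locally compact Polish group by a discrete subgroup is Polish. -/
def PolStmt : Prop :=
  ∀ (G : Type) [Group G] [TopologicalSpace G] [IsTopologicalGroup G] [PolishSpace G]
    [LocallyCompactSpace G] (Γ : Subgroup G) [DiscreteTopology Γ], PolishSpace (G ⧸ Γ)

/-- Mautner's phenomenon for measures below an invariant probability measure. -/
def MautStmt : Prop :=
  ∀ (G X : Type) [Group G] [TopologicalSpace G] [IsTopologicalGroup G] [FirstCountableTopology G]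
    [TopologicalSpace X] [PolishSpace X] [LocallyCompactSpace X] [MeasurableSpace X] [BorelSpace X]
    [MulAction G X] [ContinuousSMul G X] (μ lam : Measure X), IsFiniteMeasure μ →
    (∀ g : G, μ.map (g • ·) = μ) → lam ≤ μ →
    (∀ b u : G, lam.map (b • ·) = lam → Tendsto (fun n : ℕ => b ^ n * u * (b ^ n)⁻¹) atTop (𝓝 1) →
      lam.map (u • ·) = lam) ∧
    (∀ (l : ℕ) [Fact l.Prime] (φ : HH l →* G), Continuous φ →
      (∀ s, lam.map (φ (up s) • ·) = lam) → ∀ h, lam.map (φ h • ·) = lam)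

/-- A finite measure on `G ⧸ Γ` invariant under a unimodular factor `H` with `H Γ` dense lifts to
a Haar measure. -/
def UniqStmt : Prop :=
  ∀ (G H C : Type) [Group G] [TopologicalSpace G] [IsTopologicalGroup G] [PolishSpace G]
    [LocallyCompactSpace G] [MeasurableSpace G] [BorelSpace G]
    [Group H] [TopologicalSpace H] [IsTopologicalGroup H] [PolishSpace H]
    [LocallyCompactSpace H] [MeasurableSpace H] [BorelSpace H]
    [Group C] [TopologicalSpace C] [IsTopologicalGroup C] [PolishSpace C]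
    [LocallyCompactSpace C] [MeasurableSpace C] [BorelSpace C]
    (e : H × C ≃ₜ* G) (Γ : Subgroup G) [DiscreteTopology Γ] [PolishSpace (G ⧸ Γ)]
    (mH : Measure H) [mH.IsHaarMeasure] [mH.IsMulRightInvariant]
    (mG : Measure G) [mG.IsHaarMeasure] [mG.IsMulRightInvariant],
    Dense {g : G | ∃ h : H, ∃ γ ∈ Γ, g = e (h, 1) * γ} →
    (∀ lam : Measure (G ⧸ Γ), IsFiniteMeasure lam → (∀ h : H, lam.map (e (h, 1) • ·) = lam) →
      ∃ c : ℝ≥0, ∀ f : G → ℝ≥0∞, Measurable f →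
        ∫⁻ x, ∑' γ : Γ, f (x.out * γ) ∂lam = c * ∫⁻ g, f g ∂mG) ∧
    (∀ μ lam : Measure (G ⧸ Γ), IsProbabilityMeasure μ → IsFiniteMeasure lam →
      (∀ h : H, μ.map (e (h, 1) • ·) = μ) → (∀ h : H, lam.map (e (h, 1) • ·) = lam) →
      lam = lam univ • μ ∧ ∀ g : G, μ.map (g • ·) = μ)

/-! ### The `S`-arithmetic space -/

/-- The rational numbers whose denominator divides a power of `M`. -/
def RM (M : ℕ) : Subring ℚ where
  carrier := {x | ∃ (k : ℕ) (z : ℤ), x * (M : ℚ) ^ k = z}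
  mul_mem' := by
    rintro x y ⟨k, z, h⟩ ⟨k', z', h'⟩
    exact ⟨k + k', z * z', by push_cast; rw [← h, ← h']; ring⟩
  one_mem' := ⟨0, 1, by simp⟩
  add_mem' := by
    rintro x y ⟨k, z, h⟩ ⟨k', z', h'⟩
    exact ⟨k + k', z * M ^ k' + z' * M ^ k, by push_cast; rw [← h, ← h']; ring⟩
  zero_mem' := ⟨0, 0, by simp⟩
  neg_mem' := by
    rintro x ⟨k, z, h⟩
    exact ⟨k, -z, by push_cast; rw [← h]; ring⟩

section conc

variable (l₁ l₂ : ℕ) [Fact l₁.Prime] [Fact l₂.Prime]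

/-- The complementary group `SL₂(ℚ_{l₂}) × SL₂(ℝ)`. -/
abbrev CC : Type := HH l₂ × SL(2, ℝ)

/-- The group `SL₂(ℚ_{l₁}) × SL₂(ℚ_{l₂}) × SL₂(ℝ)`. -/
abbrev GG : Type := HH l₁ × CC l₂

/-- The diagonal embedding of `SL₂(ℚ)`. -/
def diag : SL(2, ℚ) →* GG l₁ l₂ :=
  (Matrix.SpecialLinearGroup.map (algebraMap ℚ ℚ_[l₁])).prod
    ((Matrix.SpecialLinearGroup.map (algebraMap ℚ ℚ_[l₂])).prod
      (Matrix.SpecialLinearGroup.map (algebraMap ℚ ℝ)))

/-- The lattice `SL₂(ℤ[1 / (l₁ l₂)])`. -/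
def Gam : Subgroup (GG l₁ l₂) :=
  ((diag l₁ l₂).comp (Matrix.SpecialLinearGroup.map (RM (l₁ * l₂)).subtype)).range

/-- The `S`-arithmetic quotient. -/
abbrev XX : Type := GG l₁ l₂ ⧸ Gam l₁ l₂

/-- The `S`-arithmetic quotient as an abstract space. -/
def sp [PolishSpace (XX l₁ l₂)] : Sp l₁ where
  C := CC l₂
  X := XX l₁ l₂
  o := QuotientGroup.mk 1
  surj x := by
    obtain ⟨g, rfl⟩ := QuotientGroup.mk_surjective x
    exact ⟨g, by simp [MulAction.Quotient.smul_mk]⟩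
  opn := by
    have : (fun g : HH l₁ × CC l₂ => g • (QuotientGroup.mk 1 : XX l₁ l₂)) = QuotientGroup.mk := by
      funext g
      simp [MulAction.Quotient.smul_mk]
    rw [this]
    exact QuotientGroup.isOpenMap_coe
  rat g hg := by
    have h1 : (QuotientGroup.mk g : XX l₁ l₂) = QuotientGroup.mk 1 := by
      simpa [MulAction.Quotient.smul_mk] using hg
    have h2 : g ∈ Gam l₁ l₂ := by simpa using QuotientGroup.eq.1 h1.symm
    obtain ⟨γ, rfl⟩ := h2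
    exact ⟨_, rfl⟩

end conc

/-- Discreteness, class number one, strong approximation, unimodularity. -/
def DiscStmt : Prop :=
  ∀ (l₁ l₂ : ℕ) [Fact l₁.Prime] [Fact l₂.Prime], l₁ ≠ l₂ →
    DiscreteTopology (Gam l₁ l₂) ∧
    (∀ g : GG l₁ l₂, ∃ γ ∈ Gam l₁ l₂, (g * γ).1 ∈ Kint l₁ ∧ (g * γ).2.1 ∈ Kint l₂) ∧
    (∀ γ ∈ Gam l₁ l₂, γ.1 ∈ Kint l₁ → γ.2.1 ∈ Kint l₂ →
      ∃ δ : SL(2, ℤ), γ = diag l₁ l₂ (Matrix.SpecialLinearGroup.map (Int.castRingHom ℚ) δ)) ∧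
    Dense {g : GG l₁ l₂ | ∃ h : HH l₁, ∃ γ ∈ Gam l₁ l₂, g = (h, 1) * γ} ∧
    Dense {g : GG l₁ l₂ | ∃ h : HH l₂, ∃ γ ∈ Gam l₁ l₂, g = (1, h, 1) * γ} ∧
    (∀ (m : Measure (HH l₁)) [m.IsHaarMeasure], m.IsMulRightInvariant) ∧
    (∀ (m : Measure (HH l₂)) [m.IsHaarMeasure], m.IsMulRightInvariant) ∧
    (∀ (m : Measure (GG l₁ l₂)) [m.IsHaarMeasure], m.IsMulRightInvariant)

/-- The normalised hyperbolic measure of the modular curve, in the coordinate `j`. -/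
def muJ : Measure ℂ :=
  (((volume : Measure ℍ) ModularGroup.fd)⁻¹ • (volume : Measure ℍ).restrict ModularGroup.fd).map
    CM.jH

/-- The projection to the modular curve. -/
def ProjStmt : Prop :=
  ∀ (l₁ l₂ : ℕ) [Fact l₁.Prime] [Fact l₂.Prime] [PolishSpace (XX l₁ l₂)], l₁ ≠ l₂ →
    ∃ jX : XX l₁ l₂ → ℂ, Continuous jX ∧
      (∀ g : GG l₁ l₂, g.1 ∈ Kint l₁ → g.2.1 ∈ Kint l₂ →
        jX (QuotientGroup.mk g) = CM.jH (g.2.2⁻¹ • UpperHalfPlane.I)) ∧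
      ∀ μ : Measure (XX l₁ l₂), IsProbabilityMeasure μ →
        (∀ g : GG l₁ l₂, μ.map (g • ·) = μ) → μ.map jX = muJ

/-- The invariant probability measure of the `S`-arithmetic quotient. -/
def HomStmt : Prop :=
  ∀ (l₁ l₂ : ℕ) [Fact l₁.Prime] [Fact l₂.Prime] [PolishSpace (XX l₁ l₂)], l₁ ≠ l₂ →
    ∀ μ : Measure (XX l₁ l₂), IsProbabilityMeasure μ →
      (∀ h : HH l₁, μ.map ((sp l₁ l₂).hs h) = μ) →
      (∀ g : GG l₁ l₂, μ.map (g • ·) = μ) ∧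
      (∀ μ' : Measure (XX l₁ l₂), IsProbabilityMeasure μ' →
        (∀ h : HH l₁, μ'.map ((sp l₁ l₂).hs h) = μ') → μ' = μ) ∧
      (sp l₁ l₂).Bound μ ∧ (sp l₁ l₂).ErgU μ ∧
      ∀ (t : ℚ_[l₂]ˣ) (r : SL(2, ℝ)), 1 < ‖(t : ℚ_[l₂])‖ → Ergodic ((sp l₁ l₂).cc (dg t, r)) μ

end Pool.Agent.Lib.MP_9177b7_ag.J
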