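import Mathlib
import Pool.Agent.Lib.MP_9177b7_ag.J.DefsE

/-!
Discreteness, class number one, strong approximation and unimodularity for `SL₂(ℤ[1/(l₁ l₂)])`.
-/

open MeasureTheory Filter Topology Set
open scoped MatrixGroups ENNReal NNReal

noncomputable section

namespace Pool.Agent.Lib.MP_9177b7_ag.J

namespace Disc

section alg

variable {F : Type} [Field F]

lemma up_coe (s : F) : (up s).1 = !![1, s; 0, 1] := rfl

lemma lo_coe (s : F) : (lo s).1 = !![1, 0; s, 1] := rfl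

lemma dg_coe (t : Fˣ) : (dg t).1 = !![(t : F), 0; 0, (t : F)⁻¹] := rfl

lemma up_zero : up (0 : F) = 1 := by
  ext i j
  fin_cases i <;> fin_cases j <;> simp [up]

lemma lo_zero : lo (0 : F) = 1 := by
  ext i j
  fin_cases i <;> fin_cases j <;> simp [lo]

lemma up_mul (s t : F) : up s * up t = up (s + t) := by
  ext i j
  fin_cases i <;> fin_cases j <;> simp [up_coe, add_comm]

lemma lo_mul (s t : F) : lo s * lo t = lo (s + t) := by
  ext i j
  fin_cases i <;> fin_cases j <;> simp [lo_coe]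

lemma dg_up (t : Fˣ) (s : F) : dg t * up s = up ((t : F) ^ 2 * s) * dg t := by
  have ht := t.ne_zero
  ext i j
  fin_cases i <;> fin_cases j <;> simp [up_coe, dg_coe]
  field_simp

lemma lo_dg (t : Fˣ) (s : F) : lo s * dg t = dg t * lo ((t : F) ^ 2 * s) := by
  have ht := t.ne_zero
  ext i j
  fin_cases i <;> fin_cases j <;> simp [lo_coe, dg_coe]
  field_simp

lemma eq_prod (g : SL(2, F)) (hc : g 1 0 ≠ 0) :
    g = up ((g 0 0 - 1) / g 1 0) * lo (g 1 0) * up ((g 1 1 - 1) / g 1 0) := by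
  have hd := g.det_coe
  rw [Matrix.det_fin_two] at hd
  ext i j
  fin_cases i <;> fin_cases j <;> simp [up_coe, lo_coe]
  · field_simp
    ring
  · field_simp
    linear_combination -hd
  · field_simp
    ring

/-- The elementary matrices generate `SL₂` of a field. -/
lemma gen (T : Subgroup SL(2, F)) (hu : ∀ s, up s ∈ T) (hl : ∀ s, lo s ∈ T) (g : SL(2, F)) :
    g ∈ T := by
  have key : ∀ g : SL(2, F), g 1 0 ≠ 0 → g ∈ T := fun g hc => by
    rw [eq_prod g hc]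
    exact T.mul_mem (T.mul_mem (hu _) (hl _)) (hu _)
  by_cases hc : g 1 0 = 0
  · have hd := g.det_coe
    rw [Matrix.det_fin_two, hc, mul_zero, sub_zero] at hd
    have h1 : (lo (1 : F) * g) 1 0 ≠ 0 := by
      have : (lo (1 : F) * g) 1 0 = g 0 0 := by
        simp [lo_coe, Matrix.mul_apply, Fin.sum_univ_two, hc]
      rw [this]
      exact left_ne_zero_of_mul_eq_one hd
    exact (T.mul_mem_cancel_left (hl 1)).1 (key _ h1)
  · exact key g hc

lemma hom_ne_zero {G : Type} [Group G] (χ : G →* ℝ≥0) (g : G) : χ g ≠ 0 :=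
  left_ne_zero_of_mul_eq_one (b := χ g⁻¹) (by rw [← map_mul, mul_inv_cancel, map_one])

/-- Characters of `SL₂` with values in the positive reals are trivial. -/
lemma hom_triv [CharZero F] (χ : SL(2, F) →* ℝ≥0) (g : SL(2, F)) : χ g = 1 := by
  let t : Fˣ := Units.mk0 2 two_ne_zero
  have e : ∀ s : F, (t : F) ^ 2 * (s / 3) = s + s / 3 := fun s => by
    simp only [t, Units.val_mk0]
    ring
  refine MonoidHom.mem_ker.1 (gen χ.ker (fun s => ?_) (fun s => ?_) g)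
  · have h := congrArg χ (dg_up t (s / 3))
    rw [e, ← up_mul, map_mul, map_mul, map_mul, mul_comm (χ (dg t)), mul_assoc] at h
    have h0 := mul_ne_zero (hom_ne_zero χ (up (s / 3))) (hom_ne_zero χ (dg t))
    exact MonoidHom.mem_ker.2 ((mul_eq_right₀ h0).1 h.symm)
  · have h := congrArg χ (lo_dg t (s / 3))
    rw [e, ← lo_mul, map_mul, map_mul, map_mul, mul_comm (χ (dg t)), mul_assoc] at h
    have h0 := mul_ne_zero (hom_ne_zero χ (lo (s / 3))) (hom_ne_zero χ (dg t))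
    exact MonoidHom.mem_ker.2 ((mul_eq_right₀ h0).1 h.symm)

lemma gen2 {F' : Type} [Field F'] (T : Subgroup (SL(2, F) × SL(2, F')))
    (hu : ∀ s s', (up s, up s') ∈ T) (hl : ∀ s s', (lo s, lo s') ∈ T)
    (g : SL(2, F) × SL(2, F')) : g ∈ T := by
  have h1 : g.1 ∈ T.comap (MonoidHom.inl _ _) := gen _
    (fun s => by simpa [up_zero] using hu s 0) (fun s => by simpa [lo_zero] using hl s 0) _
  have h2 : g.2 ∈ T.comap (MonoidHom.inr _ _) := gen _
    (fun s => by simpa [up_zero] using hu 0 s) (fun s => by simpa [lo_zero] using hl 0 s) _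
  simpa using T.mul_mem h1 h2

end alg

section top

variable {F F' R : Type} [NormedField F] [NormedField F'] [CommRing R]

lemma continuous_up : Continuous (up : F → SL(2, F)) := by
  refine Continuous.subtype_mk (continuous_matrix fun i j => ?_) _
  fin_cases i <;> fin_cases j <;> simp <;> fun_prop

lemma continuous_lo : Continuous (lo : F → SL(2, F)) := by
  refine Continuous.subtype_mk (continuous_matrix fun i j => ?_) _
  fin_cases i <;> fin_cases j <;> simp <;> fun_prop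

lemma continuous_entry (i j : Fin 2) : Continuous fun g : SL(2, F) => g i j :=
  (continuous_apply_apply i j).comp continuous_subtype_val

/-- Strong approximation for `SL₂` from strong approximation for the additive group. -/
lemma dense_sl (i : R →+* F) (j : R →+* F') (h : DenseRange fun r => (i r, j r)) :
    DenseRange fun γ : SL(2, R) =>
      (Matrix.SpecialLinearGroup.map i γ, Matrix.SpecialLinearGroup.map j γ) := by
  let φ : SL(2, R) →* SL(2, F) × SL(2, F') :=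
    (Matrix.SpecialLinearGroup.map i).prod (Matrix.SpecialLinearGroup.map j)
  have hc : IsClosed (φ.range.topologicalClosure : Set (SL(2, F) × SL(2, F'))) :=
    φ.range.isClosed_topologicalClosure
  intro g
  refine gen2 φ.range.topologicalClosure (fun s s' => ?_) (fun s s' => ?_) g
  · refine h.induction_on (p := fun q : F × F' => (up q.1, up q.2) ∈ φ.range.topologicalClosure)
      (s, s') (hc.preimage ((continuous_up.comp continuous_fst).prodMk
        (continuous_up.comp continuous_snd))) fun r => ?_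
    let u : SL(2, R) := ⟨!![1, r; 0, 1], by simp [Matrix.det_fin_two]⟩
    have hu : u.1 = !![1, r; 0, 1] := rfl
    refine φ.range.le_topologicalClosure ⟨u, Prod.ext ?_ ?_⟩
    all_goals
      ext a b
      fin_cases a <;> fin_cases b <;> simp [φ, up_coe, hu]
  · refine h.induction_on (p := fun q : F × F' => (lo q.1, lo q.2) ∈ φ.range.topologicalClosure)
      (s, s') (hc.preimage ((continuous_lo.comp continuous_fst).prodMk
        (continuous_lo.comp continuous_snd))) fun r => ?_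
    let u : SL(2, R) := ⟨!![1, 0; r, 1], by simp [Matrix.det_fin_two]⟩
    have hu : u.1 = !![1, 0; r, 1] := rfl
    refine φ.range.le_topologicalClosure ⟨u, Prod.ext ?_ ?_⟩
    all_goals
      ext a b
      fin_cases a <;> fin_cases b <;> simp [φ, lo_coe, hu]

lemma dense_pair (i : R →+* F) (j : R →+* F')
    (h1 : ∀ x, ∀ ε : ℝ, 0 < ε → ∃ r, ‖i r - x‖ < ε)
    (h2 : ∀ y, ∀ ε : ℝ, 0 < ε → ∃ r, ‖i r‖ < ε ∧ ‖j r - y‖ < ε) :
    DenseRange fun r => (i r, j r) := by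
  rw [Metric.denseRange_iff]
  rintro ⟨x, y⟩ ε hε
  obtain ⟨r₁, e1⟩ := h1 x (ε / 2) (by linarith)
  obtain ⟨r₂, e2, e3⟩ := h2 (y - j r₁) (ε / 2) (by linarith)
  refine ⟨r₁ + r₂, ?_⟩
  rw [Prod.dist_eq, max_lt_iff, dist_comm x, dist_comm y, dist_eq_norm, dist_eq_norm]
  constructor
  · have : i (r₁ + r₂) - x = i r₁ - x + i r₂ := by rw [map_add]; ring
    rw [this]
    exact (norm_add_le _ _).trans_lt (by linarith)
  · have : j (r₁ + r₂) - y = j r₂ - (y - j r₁) := by rw [map_add]; ring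
    rw [this]
    linarith

end top

section arith

lemma div_mem {M q : ℕ} (hq : q ≠ 0) (h : q ∣ M) (z : ℤ) (k : ℕ) :
    (z : ℚ) / (q : ℚ) ^ k ∈ RM M := by
  obtain ⟨c, rfl⟩ := h
  refine ⟨k, z * c ^ k, ?_⟩
  have : (q : ℚ) ≠ 0 := by exact_mod_cast hq
  push_cast
  rw [mul_pow]
  field_simp

lemma small_pow (p : ℕ) [Fact p.Prime] {ε : ℝ} (hε : 0 < ε) :
    ∃ a : ℕ, ‖(p : ℚ_[p]) ^ a‖ < ε := by
  obtain ⟨a, ha⟩ := exists_pow_lt_of_lt_one hε (Padic.norm_p_lt_one (p := p))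
  exact ⟨a, by rwa [norm_pow]⟩

/-- Fractions with denominator a power of `q` are dense in `ℚ_q`. -/
lemma approx_padic (q : ℕ) [Fact q.Prime] (x : ℚ_[q]) {ε : ℝ} (hε : 0 < ε) :
    ∃ (z : ℤ) (k : ℕ), ‖(z : ℚ_[q]) / (q : ℚ_[q]) ^ k - x‖ < ε := by
  obtain ⟨k, hk⟩ := small_pow q (ε := (‖x‖ + 1)⁻¹) (by positivity)
  have hq : (q : ℚ_[q]) ^ k ≠ 0 := pow_ne_zero _ (by exact_mod_cast (Fact.out : q.Prime).ne_zero)
  have hn : 0 < ‖(q : ℚ_[q]) ^ k‖ := norm_pos_iff.2 hq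
  have h1 : ‖(q : ℚ_[q]) ^ k * x‖ ≤ 1 := by
    rw [norm_mul]
    have h0 : 0 < ‖x‖ + 1 := by positivity
    calc ‖(q : ℚ_[q]) ^ k‖ * ‖x‖ ≤ (‖x‖ + 1)⁻¹ * (‖x‖ + 1) :=
          mul_le_mul hk.le (by linarith) (norm_nonneg _) (by positivity)
      _ = 1 := inv_mul_cancel₀ h0.ne'
  let w : ℤ_[q] := ⟨_, h1⟩
  have hw : (w : ℚ_[q]) = (q : ℚ_[q]) ^ k * x := rfl
  obtain ⟨z, hz⟩ := (PadicInt.denseRange_intCast (p := q)).exists_dist_lt w (mul_pos hε hn)
  refine ⟨z, k, ?_⟩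
  have h2 : ‖(z : ℚ_[q]) - (q : ℚ_[q]) ^ k * x‖ < ε * ‖(q : ℚ_[q]) ^ k‖ := by
    rwa [dist_comm, dist_eq_norm, PadicInt.norm_def, PadicInt.coe_sub, hw,
      PadicInt.coe_intCast] at hz
  have : (z : ℚ_[q]) / (q : ℚ_[q]) ^ k - x =
      ((z : ℚ_[q]) - (q : ℚ_[q]) ^ k * x) / (q : ℚ_[q]) ^ k := by
    field_simp
  rw [this, norm_div, div_lt_iff₀ hn]
  exact h2

lemma norm_prime_ne {p q : ℕ} [Fact p.Prime] [Fact q.Prime] (h : p ≠ q) : ‖(q : ℚ_[p])‖ = 1 :=
  Padic.norm_natCast_eq_one_iff.2 ((Nat.coprime_primes Fact.out Fact.out).2 h)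

/-- The inclusion of `RM M` in a field of characteristic zero. -/
def io (M : ℕ) (F : Type) [Field F] [Algebra ℚ F] : RM M →+* F :=
  (algebraMap ℚ F).comp (RM M).subtype

lemma io_mk {M : ℕ} {F : Type} [Field F] [CharZero F] (z : ℤ) (q k : ℕ)
    (h : (z : ℚ) / (q : ℚ) ^ k ∈ RM M) : io M F ⟨_, h⟩ = (z : F) / (q : F) ^ k := by
  simp [io]

lemma dense_one {M : ℕ} (p : ℕ) [Fact p.Prime] (hp : p ∣ M) (x : ℚ_[p]) (ε : ℝ) (hε : 0 < ε) :
    ∃ r, ‖io M ℚ_[p] r - x‖ < ε := by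
  obtain ⟨z, k, h⟩ := approx_padic p x hε
  exact ⟨⟨_, div_mem (Fact.out : p.Prime).ne_zero hp z k⟩, by rwa [io_mk]⟩

lemma norm_small {p q : ℕ} [Fact p.Prime] [Fact q.Prime] (h : p ≠ q) (a k : ℕ) (z : ℤ) :
    ‖(((p : ℤ) ^ a * z : ℤ) : ℚ_[p]) / (q : ℚ_[p]) ^ k‖ ≤ ‖(p : ℚ_[p]) ^ a‖ := by
  push_cast
  rw [norm_div, norm_mul, norm_pow (q : ℚ_[p]), norm_prime_ne h, one_pow, div_one]
  exact mul_le_of_le_one_right (norm_nonneg _) (Padic.norm_int_le_one z)

lemma dense_pp {M : ℕ} (p q : ℕ) [Fact p.Prime] [Fact q.Prime] (h : p ≠ q) (hp : p ∣ M)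
    (hq : q ∣ M) : DenseRange fun r => (io M ℚ_[p] r, io M ℚ_[q] r) := by
  refine dense_pair _ _ (dense_one p hp) fun y ε hε => ?_
  obtain ⟨a, ha⟩ := small_pow p hε
  obtain ⟨z, k, hz⟩ := approx_padic q (y / (p : ℚ_[q]) ^ a) hε
  refine ⟨⟨_, div_mem (Fact.out : q.Prime).ne_zero hq ((p : ℤ) ^ a * z) k⟩, ?_, ?_⟩
  · rw [io_mk]
    exact (norm_small h a k z).trans_lt ha
  · have h1 : ‖(p : ℚ_[q]) ^ a‖ = 1 := by rw [norm_pow, norm_prime_ne h.symm, one_pow]
    have h0 : (p : ℚ_[q]) ^ a ≠ 0 := by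
      rw [← norm_ne_zero_iff, h1]
      exact one_ne_zero
    have : (((p : ℤ) ^ a * z : ℤ) : ℚ_[q]) / (q : ℚ_[q]) ^ k - y =
        (p : ℚ_[q]) ^ a * ((z : ℚ_[q]) / (q : ℚ_[q]) ^ k - y / (p : ℚ_[q]) ^ a) := by
      push_cast
      field_simp
    rw [io_mk, this, norm_mul, h1, one_mul]
    exact hz

lemma dense_pr {M : ℕ} (p q : ℕ) [Fact p.Prime] [Fact q.Prime] (h : p ≠ q) (hp : p ∣ M)
    (hq : q ∣ M) : DenseRange fun r => (io M ℚ_[p] r, io M ℝ r) := by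
  refine dense_pair _ _ (dense_one p hp) fun y ε hε => ?_
  obtain ⟨a, ha⟩ := small_pow p hε
  have hp0 : (0 : ℝ) < (p : ℝ) ^ a := pow_pos (by exact_mod_cast (Fact.out : p.Prime).pos) a
  have hq1 : (1 : ℝ) < q := by exact_mod_cast (Fact.out : q.Prime).one_lt
  obtain ⟨k, hk⟩ := pow_unbounded_of_one_lt ((p : ℝ) ^ a / ε) hq1
  have hq0 : (0 : ℝ) < (q : ℝ) ^ k := by positivity
  refine ⟨⟨_, div_mem (Fact.out : q.Prime).ne_zero hq
    ((p : ℤ) ^ a * ⌊y * (q : ℝ) ^ k / (p : ℝ) ^ a⌋) k⟩, ?_, ?_⟩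
  · rw [io_mk]
    exact (norm_small h a k _).trans_lt ha
  · rw [io_mk]
    have : (((p : ℤ) ^ a * ⌊y * (q : ℝ) ^ k / (p : ℝ) ^ a⌋ : ℤ) : ℝ) / (q : ℝ) ^ k - y =
        -((p : ℝ) ^ a / (q : ℝ) ^ k * Int.fract (y * (q : ℝ) ^ k / (p : ℝ) ^ a)) := by
      rw [Int.fract]
      push_cast
      field_simp
      ring
    rw [this, norm_neg, Real.norm_of_nonneg (mul_nonneg (by positivity) (Int.fract_nonneg _))]
    have h1 : (p : ℝ) ^ a / (q : ℝ) ^ k < ε := by
      rw [div_lt_iff₀ hε] at hk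
      rw [div_lt_iff₀ hq0]
      linarith
    exact (mul_le_of_le_one_right (by positivity) (Int.fract_lt_one _).le).trans_lt h1

lemma not_dvd_den (p : ℕ) [Fact p.Prime] (x : ℚ) (h : ‖(x : ℚ_[p])‖ ≤ 1) : ¬ p ∣ x.den := by
  intro hd
  have h1 : ‖((x.den : ℤ) : ℚ_[p])‖ < 1 :=
    Padic.norm_intCast_lt_one_iff.2 (Int.natCast_dvd_natCast.2 hd)
  have h2 : ((x.num : ℤ) : ℚ_[p]) = (x : ℚ_[p]) * ((x.den : ℤ) : ℚ_[p]) := by
    rw [Int.cast_natCast, ← Rat.cast_natCast, ← Rat.cast_mul, Rat.mul_den_eq_num,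
      Rat.cast_intCast]
  have h3 : ‖((x.num : ℤ) : ℚ_[p])‖ < 1 := by
    rw [h2, norm_mul]
    exact (mul_le_of_le_one_left (norm_nonneg _) h).trans_lt h1
  have h4 : p ∣ x.num.natAbs := Int.natCast_dvd.1 (Padic.norm_intCast_lt_one_iff.1 h3)
  exact (Fact.out : p.Prime).ne_one (Nat.eq_one_of_dvd_coprimes x.reduced h4 hd)

lemma exists_int {p q : ℕ} [Fact p.Prime] [Fact q.Prime] {x : ℚ} (hx : x ∈ RM (p * q))
    (h1 : ‖(x : ℚ_[p])‖ ≤ 1) (h2 : ‖(x : ℚ_[q])‖ ≤ 1) : ∃ z : ℤ, (z : ℚ) = x := by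
  obtain ⟨k, z, hz⟩ := hx
  have hp : p.Prime := Fact.out
  have hq : q.Prime := Fact.out
  have hM : (((p * q) ^ k : ℕ) : ℚ) ≠ 0 := by
    exact_mod_cast pow_ne_zero k (mul_ne_zero hp.ne_zero hq.ne_zero)
  have hd : x.den ∣ (p * q) ^ k := by
    have e : x = (z : ℚ) / (((p * q) ^ k : ℕ) : ℤ) := by
      rw [Int.cast_natCast, eq_div_iff hM, ← hz]
      push_cast
      ring
    have := Rat.den_dvd z (((p * q) ^ k : ℕ) : ℤ)
    rw [Rat.divInt_eq_div, ← e] at this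
    exact Int.natCast_dvd_natCast.1 this
  have hc : Nat.Coprime x.den ((p * q) ^ k) :=
    Nat.Coprime.pow_right k (Nat.Coprime.mul_right
      ((hp.coprime_iff_not_dvd.2 (not_dvd_den p x h1)).symm)
      ((hq.coprime_iff_not_dvd.2 (not_dvd_den q x h2)).symm))
  exact ⟨x.num, Rat.coe_int_num_of_den_eq_one (hc.eq_one_of_dvd hd)⟩

end arith

lemma isOpen_Kint (l : ℕ) [Fact l.Prime] : IsOpen (Kint l) := by
  have : Kint l = ⋂ i, ⋂ j, (fun g : HH l => g i j) ⁻¹' Metric.closedBall 0 1 := by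
    ext g
    simp [Kint]
  rw [this]
  exact isOpen_iInter_of_finite fun i => isOpen_iInter_of_finite fun j =>
    (IsUltrametricDist.isOpen_closedBall 0 one_ne_zero).preimage (continuous_entry i j)

lemma one_mem_Kint (l : ℕ) [Fact l.Prime] : (1 : HH l) ∈ Kint l := by
  intro i j
  fin_cases i <;> fin_cases j <;> simp

/-- A group without positive characters is unimodular. -/
lemma unimod {G : Type} [Group G] [TopologicalSpace G] [IsTopologicalGroup G] [PolishSpace G]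
    [LocallyCompactSpace G] [MeasurableSpace G] [BorelSpace G] (h : ∀ χ : G →* ℝ≥0, ∀ g, χ g = 1)
    (m : Measure G) [m.IsHaarMeasure] : m.IsMulRightInvariant := by
  refine ⟨fun g => ?_⟩
  rw [Measure.map_right_mul_eq_modularCharacterFun_smul m g]
  have : Measure.modularCharacterFun g = 1 := h Measure.modularCharacter g
  rw [this, one_smul]

lemma hom_prod {G H : Type} [Group G] [Group H] (hG : ∀ χ : G →* ℝ≥0, ∀ g, χ g = 1)
    (hH : ∀ χ : H →* ℝ≥0, ∀ g, χ g = 1) (χ : G × H →* ℝ≥0) (g : G × H) : χ g = 1 := by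
  have h1 : χ (g.1, 1) = 1 := hG (χ.comp (MonoidHom.inl G H)) g.1
  have h2 : χ (1, g.2) = 1 := hH (χ.comp (MonoidHom.inr G H)) g.2
  rw [← Prod.fst_mul_snd g, map_mul, h1, h2, one_mul]

section conc

variable (l₁ l₂ : ℕ) [Fact l₁.Prime] [Fact l₂.Prime]

/-- The element of `Gam` attached to a matrix. -/
def gm (γ : SL(2, RM (l₁ * l₂))) : GG l₁ l₂ :=
  (Matrix.SpecialLinearGroup.map (io (l₁ * l₂) ℚ_[l₁]) γ,
    Matrix.SpecialLinearGroup.map (io (l₁ * l₂) ℚ_[l₂]) γ,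
    Matrix.SpecialLinearGroup.map (io (l₁ * l₂) ℝ) γ)

lemma gm_eq (γ : SL(2, RM (l₁ * l₂))) :
    diag l₁ l₂ (Matrix.SpecialLinearGroup.map (RM (l₁ * l₂)).subtype γ) = gm l₁ l₂ γ := by
  refine Prod.ext ?_ (Prod.ext ?_ ?_) <;> ext i j <;> simp [diag, gm, io]

lemma gm_mem (γ : SL(2, RM (l₁ * l₂))) : gm l₁ l₂ γ ∈ Gam l₁ l₂ := ⟨γ, gm_eq l₁ l₂ γ⟩

lemma integral (γ : GG l₁ l₂) (hγ : γ ∈ Gam l₁ l₂) (h1 : γ.1 ∈ Kint l₁) (h2 : γ.2.1 ∈ Kint l₂) :
    ∃ δ : SL(2, ℤ), γ = diag l₁ l₂ (Matrix.SpecialLinearGroup.map (Int.castRingHom ℚ) δ) := by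
  obtain ⟨γ, rfl⟩ := hγ
  have h : ∀ i j, ∃ z : ℤ, (z : ℚ) = (γ i j : ℚ) := fun i j =>
    exists_int (γ i j).2 (by simpa [diag] using h1 i j) (by simpa [diag] using h2 i j)
  choose z hz using h
  have hd : (Matrix.of z).det = 1 := by
    have := congrArg (fun y : RM (l₁ * l₂) => (y : ℚ)) γ.det_coe
    simp only [Matrix.det_fin_two] at this ⊢
    push_cast at this
    rw [← hz, ← hz, ← hz, ← hz] at this
    simp only [Matrix.of_apply]
    exact_mod_cast this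
  let δ : SL(2, ℤ) := ⟨Matrix.of z, hd⟩
  have hδ : δ.1 = Matrix.of z := rfl
  refine ⟨δ, ?_⟩
  rw [MonoidHom.comp_apply]
  congr 1
  ext i j
  simp [hz, hδ]

lemma discrete : DiscreteTopology (Gam l₁ l₂) := by
  refine discreteTopology_of_isOpen_singleton_one ?_
  let U : Set (GG l₁ l₂) := {g | g.1 ∈ Kint l₁ ∧ g.2.1 ∈ Kint l₂ ∧
    ∀ i j, |g.2.2 i j - (1 : SL(2, ℝ)) i j| < 1}
  have hU : IsOpen U := by
    refine ((isOpen_Kint l₁).preimage continuous_fst).inter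
      (((isOpen_Kint l₂).preimage (continuous_fst.comp continuous_snd)).inter ?_)
    have : {g : GG l₁ l₂ | ∀ i j, |g.2.2 i j - (1 : SL(2, ℝ)) i j| < 1} =
        ⋂ i, ⋂ j, {g : GG l₁ l₂ | |g.2.2 i j - (1 : SL(2, ℝ)) i j| < 1} := by
      ext g
      simp
    change IsOpen {g : GG l₁ l₂ | ∀ i j, |g.2.2 i j - (1 : SL(2, ℝ)) i j| < 1}
    rw [this]
    refine isOpen_iInter_of_finite fun i => isOpen_iInter_of_finite fun j => isOpen_lt ?_
      continuous_const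
    exact (((continuous_entry i j).comp (continuous_snd.comp continuous_snd)).sub
      continuous_const).abs
  have : ({1} : Set (Gam l₁ l₂)) = Subtype.val ⁻¹' U := by
    ext γ
    constructor
    · rintro rfl
      exact ⟨one_mem_Kint l₁, one_mem_Kint l₂, fun i j => by simp⟩
    · rintro ⟨h1, h2, h3⟩
      obtain ⟨δ, hδ⟩ := integral l₁ l₂ γ.1 γ.2 h1 h2
      have e : δ = 1 := by
        ext i j
        have h4 := h3 i j
        have h5 : γ.1.2.2 i j = (δ i j : ℝ) := by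
          rw [hδ]
          simp [diag]
        have h6 : (1 : SL(2, ℝ)) i j = (((1 : SL(2, ℤ)) i j : ℤ) : ℝ) := by
          fin_cases i <;> fin_cases j <;> simp
        rw [h5, h6] at h4
        have h7 : |δ i j - (1 : SL(2, ℤ)) i j| < 1 := by exact_mod_cast h4
        exact sub_eq_zero.1 (Int.abs_lt_one_iff.1 h7)
      refine Subtype.ext ?_
      rw [hδ, e, map_one, map_one]
      rfl
  rw [this]
  exact hU.preimage continuous_subtype_val

end conc

end Disc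

open Disc in
theorem disc : DiscStmt := by
  intro l₁ l₂ _ _ hne
  have d1 : l₁ ∣ l₁ * l₂ := dvd_mul_right _ _
  have d2 : l₂ ∣ l₁ * l₂ := dvd_mul_left _ _
  refine ⟨discrete l₁ l₂, fun g => ?_, integral l₁ l₂, ?_, ?_, fun m _ => unimod hom_triv m,
    fun m _ => unimod hom_triv m,
    fun m _ => unimod (hom_prod hom_triv (hom_prod hom_triv hom_triv)) m⟩
  · have hd := dense_sl _ _ (dense_pp l₁ l₂ hne d1 d2)
    have hU : IsOpen {q : HH l₁ × HH l₂ | g.1 * q.1 ∈ Kint l₁ ∧ g.2.1 * q.2 ∈ Kint l₂} :=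
      ((isOpen_Kint l₁).preimage (continuous_const.mul continuous_fst)).inter
        ((isOpen_Kint l₂).preimage (continuous_const.mul continuous_snd))
    obtain ⟨γ, hγ⟩ := hd.exists_mem_open hU
      ⟨(g.1⁻¹, g.2.1⁻¹), by simpa using one_mem_Kint l₁, by simpa using one_mem_Kint l₂⟩
    exact ⟨gm l₁ l₂ γ, gm_mem l₁ l₂ γ, hγ.1, hγ.2⟩
  · have hd := dense_sl _ _ (dense_pr l₂ l₁ hne.symm d2 d1)
    refine Dense.mono ?_ (Dense.preimage hd (isOpenMap_snd (X := HH l₁) (Y := CC l₂)))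
    rintro g ⟨γ, hγ⟩
    refine ⟨g.1 * (gm l₁ l₂ γ).1⁻¹, gm l₁ l₂ γ, gm_mem l₁ l₂ γ, Prod.ext (by simp) ?_⟩
    simpa [gm] using hγ.symm
  · have hd := dense_sl _ _ (dense_pr l₁ l₂ hne d1 d2)
    have ho : IsOpenMap (Prod.map id Prod.snd : GG l₁ l₂ → HH l₁ × SL(2, ℝ)) :=
      IsOpenMap.id.prodMap isOpenMap_snd
    refine Dense.mono ?_ (Dense.preimage hd ho)
    rintro g ⟨γ, hγ⟩
    have e1 := congrArg Prod.fst hγ
    have e2 := congrArg Prod.snd hγ
    refine ⟨g.2.1 * (gm l₁ l₂ γ).2.1⁻¹, gm l₁ l₂ γ, gm_mem l₁ l₂ γ,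
      Prod.ext ?_ (Prod.ext (by simp) ?_)⟩
    · simpa [gm] using e1.symm
    · simpa [gm] using e2.symm

end Pool.Agent.Lib.MP_9177b7_ag.J
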