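import Pool.Agent.Lib.MP_9177b7_ag.J.DefsE

/-!
Quotients by discrete subgroups are Polish; the Mautner phenomenon.
-/

open MeasureTheory Filter Topology Set
open scoped MatrixGroups ENNReal

namespace Pool.Agent.Lib.MP_9177b7_ag.J

namespace Pol

/-- A locally compact second countable Hausdorff space is Polish. -/
theorem polish_of_lc (X : Type) [TopologicalSpace X] [LocallyCompactSpace X] [T2Space X]
    [SecondCountableTopology X] : PolishSpace X := by
  let : MetricSpace X := TopologicalSpace.metrizableSpaceMetric X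
  have he := UniformSpace.Completion.isDenseEmbedding_coe (α := X)
  have ho : IsOpen (range ((↑) : X → UniformSpace.Completion X)) := by
    rw [isOpen_iff_mem_nhds]
    rintro _ ⟨x, rfl⟩
    obtain ⟨K, hK, hx⟩ := exists_compact_mem_nhds x
    have h1 := he.isDenseInducing.closure_image_mem_nhds hx
    rw [(hK.image he.continuous).isClosed.closure_eq] at h1
    exact mem_of_superset h1 (image_subset_range _ _)
  have := ho.polishSpace
  exact he.isEmbedding.toHomeomorph.isClosedEmbedding.polishSpace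

/-- The displacement function of the density. -/
theorem exists_p {G X : Type} [Group G] [TopologicalSpace G] [TopologicalSpace X] [PolishSpace X]
    [MeasurableSpace X] [BorelSpace X] [MulAction G X] [ContinuousSMul G X] (μ lam : Measure X)
    [IsFiniteMeasure μ] (hμ : ∀ g : G, μ.map (g • ·) = μ) (hle : lam ≤ μ) :
    ∃ p : G → ℝ, Continuous p ∧ (∀ g, p g = 0 ↔ lam.map (g • ·) = lam) ∧
      ∀ s g s', p s = 0 → p s' = 0 → p (s * g * s') = p g := by
  borelize G
  have : IsFiniteMeasure lam := isFiniteMeasure_of_le μ hle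
  have : SMulInvariantMeasure G X μ := ⟨fun c s hs => by
    rw [← Measure.map_apply (measurable_const_smul c) hs, hμ]⟩
  have : Fact ((1 : ℝ≥0∞) ≠ ∞) := ⟨ENNReal.one_ne_top⟩
  have hac : lam ≪ μ := Measure.absolutelyContinuous_of_le hle
  have hm : MemLp (fun x => (lam.rnDeriv μ x).toReal) 1 μ :=
    memLp_one_iff_integrable.mpr Measure.integrable_toReal_rnDeriv
  refine ⟨fun g => dist (DomMulAct.mk g • hm.toLp _) (hm.toLp _), ?_, fun g => ?_, ?_⟩
  · exact (DomMulAct.continuous_mk.smul continuous_const).dist continuous_const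
  · have hp := measurePreserving_smul g μ
    rw [dist_eq_zero, DomMulAct.mk_smul_toLp, MemLp.toLp_eq_toLp_iff]
    constructor
    · intro h
      have h1 : (fun x => lam.rnDeriv μ (g • x)) =ᵐ[μ] lam.rnDeriv μ := by
        filter_upwards [h, Measure.rnDeriv_ne_top lam μ,
          hp.quasiMeasurePreserving.ae (Measure.rnDeriv_ne_top lam μ)] with x a b c
        exact (ENNReal.toReal_eq_toReal_iff' c b).mp a
      ext s hs
      rw [Measure.map_apply hp.measurable hs, ← Measure.setLIntegral_rnDeriv hac,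
        ← Measure.setLIntegral_rnDeriv hac s,
        ← hp.setLIntegral_comp_preimage hs (Measure.measurable_rnDeriv _ _)]
      exact lintegral_congr_ae (ae_restrict_of_ae h1.symm)
    · intro h
      have h1 := (measurableEmbedding_const_smul g).rnDeriv_map lam μ
      rw [h, hμ] at h1
      filter_upwards [h1] with x a
      exact congrArg ENNReal.toReal a
  · intro s g s' h1 h2
    rw [dist_eq_zero] at h1 h2
    simp only [DomMulAct.mk_mul, mul_smul]
    rw [h1]
    conv_lhs => rw [← h2]
    rw [DomMulAct.dist_smul_Lp, h2]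

theorem contract {G : Type} [Group G] [TopologicalSpace G] {p : G → ℝ} (hc : Continuous p)
    (h1 : p 1 = 0) (hi : ∀ s g s', p s = 0 → p s' = 0 → p (s * g * s') = p g) {b u : G}
    (hb : p b = 0) (h : Tendsto (fun n : ℕ => b ^ n * u * (b ^ n)⁻¹) atTop (𝓝 1)) : p u = 0 := by
  have hn : ∀ n : ℕ, p (b ^ n) = 0 := fun n => by
    induction n with
    | zero => rwa [pow_zero]
    | succ n ih => rw [pow_succ, ← one_mul (b ^ n), hi _ _ _ h1 hb, ih]
  have hn' : ∀ n : ℕ, p (b ^ n)⁻¹ = 0 := fun n => by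
    rw [← hi _ (b ^ n)⁻¹ _ (hn n) h1, mul_inv_cancel, mul_one, h1]
  have h2 := (hc.tendsto 1).comp h
  have e : (p ∘ fun n : ℕ => b ^ n * u * (b ^ n)⁻¹) = fun _ => p u :=
    funext fun n => hi _ _ _ (hn n) (hn' n)
  rw [e, h1] at h2
  exact tendsto_const_nhds_iff.mp h2

section alg
variable {F : Type} [Field F]

theorem lo_zero : lo (0 : F) = 1 := by
  ext i j
  fin_cases i <;> fin_cases j <;> simp [lo]

theorem up_lo_up (x : Fˣ) {y : F} (hy : y ≠ 0) :
    up (((x : F) - 1) / y) * lo y * up (((x : F)⁻¹ - 1) / y) = lo (y * (x : F)⁻¹) * dg x := by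
  have hx := x.ne_zero
  ext i j
  fin_cases i <;> fin_cases j <;>
    simp [up, lo, dg, Matrix.mul_apply, Fin.sum_univ_two] <;> field_simp <;> ring

theorem dg_lo (t : Fˣ) (s : F) : dg t * lo s * (dg t)⁻¹ = lo ((t : F)⁻¹ ^ 2 * s) := by
  have ht := t.ne_zero
  rw [mul_inv_eq_iff_eq_mul]
  ext i j
  fin_cases i <;> fin_cases j <;> simp [lo, dg, Matrix.mul_apply, Fin.sum_univ_two]
  field_simp

theorem dg_pow_lo (t : Fˣ) (s : F) (n : ℕ) :
    dg t ^ n * lo s * (dg t ^ n)⁻¹ = lo (((t : F)⁻¹ ^ 2) ^ n * s) := by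
  induction n with
  | zero => simp
  | succ n ih =>
    rw [pow_succ' (_ ^ 2), mul_assoc (_ ^ 2), ← dg_lo, ← ih, pow_succ', mul_inv_rev]
    simp only [mul_assoc]

theorem gen (P : SL(2, F) → Prop) (hu : ∀ s, P (up s)) (hl : ∀ s, P (lo s))
    (hm : ∀ a b, P a → P b → P (a * b)) (a : SL(2, F)) : P a := by
  refine Matrix.SL2.transvection_induction P (fun i j hij c => ?_) hm a
  fin_cases i <;> fin_cases j
  · exact absurd rfl hij
  · convert hu c using 1
    ext a b
    fin_cases a <;> fin_cases b <;> simp [up, Matrix.SpecialLinearGroup.transvection_coe]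
  · convert hl c using 1
    ext a b
    fin_cases a <;> fin_cases b <;> simp [lo, Matrix.SpecialLinearGroup.transvection_coe]
  · exact absurd rfl hij

end alg

theorem continuous_lo {F : Type} [NormedField F] : Continuous (lo : F → SL(2, F)) := by
  refine Continuous.subtype_mk (continuous_matrix fun i j => ?_) _
  fin_cases i <;> fin_cases j <;> simp <;> fun_prop

end Pol

theorem pol : PolStmt := fun G _ _ _ _ _ Γ _ => Pol.polish_of_lc (G ⧸ Γ)

theorem maut : MautStmt := by
  intro G X _ _ _ _ _ _ _ _ _ _ _ μ lam _ hμ hle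
  obtain ⟨p, hc, hz, hi⟩ := Pol.exists_p μ lam hμ hle
  have h1 : p 1 = 0 := (hz 1).mpr (by simp)
  refine ⟨fun b u hb h => (hz u).mp (Pol.contract hc h1 hi ((hz b).mpr hb) h), ?_⟩
  intro l _ φ hφ hu h
  have hu' : ∀ s, p (φ (up s)) = 0 := fun s => (hz _).mpr (hu s)
  have hc' : Continuous fun y : ℚ_[l] => p (φ (lo y)) := hc.comp (hφ.comp Pol.continuous_lo)
  have hd : ∀ x : ℚ_[l]ˣ, p (φ (dg x)) = 0 := fun x => by
    have h2 : Continuous fun y : ℚ_[l] => p (φ (lo (y * (x : ℚ_[l])⁻¹) * dg x)) :=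
      hc.comp (hφ.comp ((Pol.continuous_lo.comp (continuous_mul_const _)).mul continuous_const))
    have h3 := Continuous.ext_on (dense_compl_singleton (0 : ℚ_[l])) h2 hc' fun y hy => by
      simp only [← Pol.up_lo_up x hy, map_mul]
      exact hi _ _ _ (hu' _) (hu' _)
    have h4 := congrFun h3 0
    simp only [zero_mul, Pol.lo_zero, one_mul, map_one] at h4
    exact h4.trans h1
  have hl0 : (l : ℚ_[l]) ≠ 0 := Nat.cast_ne_zero.mpr (Fact.out : l.Prime).ne_zero
  have hl' : ∀ s, p (φ (lo s)) = 0 := fun s => by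
    refine Pol.contract hc h1 hi (hd (Units.mk0 _ hl0)⁻¹) ?_
    simp only [← map_pow, ← map_inv, ← map_mul, Pol.dg_pow_lo]
    rw [← map_one φ, ← Pol.lo_zero, ← zero_mul s]
    refine ((hφ.comp Pol.continuous_lo).tendsto _).comp (Tendsto.mul_const s ?_)
    refine tendsto_pow_atTop_nhds_zero_of_norm_lt_one ?_
    rw [Units.val_inv_eq_inv_val, inv_inv, Units.val_mk0, norm_pow]
    exact pow_lt_one₀ (norm_nonneg _) Padic.norm_p_lt_one two_ne_zero
  refine (hz _).mp (Pol.gen (fun h => p (φ h) = 0) hu' hl' (fun a b ha hb => ?_) h)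
  rw [map_mul, ← mul_one (φ a), hi _ _ _ ha hb, h1]

end Pool.Agent.Lib.MP_9177b7_ag.J
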