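import Pool.Agent.Lib.MP_9177b7_ag.J.DefsE

/-!
Lifting finite measures from `G ⧸ Γ` to `G`, and uniqueness of invariant measures.
-/

open MeasureTheory Filter Topology Set
open scoped ENNReal NNReal

noncomputable section

namespace Pool.Agent.Lib.MP_9177b7_ag.J

namespace Uniq

variable {G : Type} [Group G] (Γ : Subgroup G)

/-- The sum of a function over the fibres of `G → G ⧸ Γ`. -/
def P (f : G → ℝ≥0∞) (x : G ⧸ Γ) : ℝ≥0∞ := ∑' γ : Γ, f (x.out * γ)

theorem P_mk (f : G → ℝ≥0∞) (g : G) : P Γ f (QuotientGroup.mk g) = ∑' γ : Γ, f (g * γ) := by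
  obtain ⟨γ₀, h⟩ := QuotientGroup.mk_out_eq_mul Γ g
  rw [P, h, ← (Equiv.mulLeft γ₀).tsum_eq fun γ : Γ => f (g * γ)]
  simp [mul_assoc]

theorem P_smul (f : G → ℝ≥0∞) (a : G) (x : G ⧸ Γ) :
    P Γ f (a • x) = P Γ (fun g => f (a * g)) x := by
  obtain ⟨g, rfl⟩ := QuotientGroup.mk_surjective x
  rw [MulAction.Quotient.smul_mk, P_mk, P_mk]
  simp [mul_assoc]

theorem P_right (f : G → ℝ≥0∞) (γ₀ : Γ) : P Γ (fun g => f (g * γ₀)) = P Γ f := by
  funext x
  rw [P, P, ← (Equiv.mulRight γ₀).tsum_eq fun γ : Γ => f (x.out * γ)]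
  simp [mul_assoc]

theorem P_mul (f : G → ℝ≥0∞) (φ : G ⧸ Γ → ℝ≥0∞) (x : G ⧸ Γ) :
    P Γ (fun g => φ (QuotientGroup.mk g) * f g) x = φ x * P Γ f x := by
  simp only [P, QuotientGroup.mk_mul_of_mem _ (SetLike.coe_mem _), QuotientGroup.out_eq',
    ENNReal.tsum_mul_left]

theorem P_le_one {U : Set G} (hU : ∀ x ∈ U, ∀ y ∈ U, x⁻¹ * y ∈ Γ → x = y) (x : G ⧸ Γ) :
    P Γ (U.indicator 1) x ≤ 1 := by
  by_cases h : ∃ γ : Γ, x.out * γ ∈ U
  · obtain ⟨γ₀, h₀⟩ := h
    rw [P, tsum_eq_single γ₀, indicator_of_mem h₀]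
    · exact le_rfl
    · intro γ hγ
      refine indicator_of_notMem (fun h => hγ ?_) _
      have := hU _ h _ h₀ (by simpa [mul_assoc] using Γ.mul_mem (Γ.inv_mem γ.2) γ₀.2)
      exact Subtype.ext (mul_left_cancel this)
  · push Not at h
    simp [P, indicator_of_notMem (h _)]

variable [TopologicalSpace G] [IsTopologicalGroup G]

theorem exists_open [DiscreteTopology Γ] (g : G) :
    ∃ U : Set G, IsOpen U ∧ g ∈ U ∧ ∀ x ∈ U, ∀ y ∈ U, x⁻¹ * y ∈ Γ → x = y := by
  obtain ⟨W, hW, hW1⟩ := isOpen_induced_iff.1 (isOpen_discrete ({1} : Set Γ))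
  have h1 : (1 : G) ∈ W := by
    have : (1 : Γ) ∈ Subtype.val ⁻¹' W := by rw [hW1]; rfl
    exact this
  have ho : IsOpen {p : G × G | p.1⁻¹ * p.2 ∈ W} := hW.preimage (by fun_prop)
  obtain ⟨u, v, hu, hv, gu, gv, h⟩ := isOpen_prod_iff.1 ho g g (by simpa using h1)
  refine ⟨u ∩ v, hu.inter hv, ⟨gu, gv⟩, fun x hx y hy hxy => ?_⟩
  have h2 : (⟨x⁻¹ * y, hxy⟩ : Γ) ∈ Subtype.val ⁻¹' W := h (mk_mem_prod hx.1 hy.2)
  rw [hW1] at h2
  exact inv_mul_eq_one.1 (congrArg Subtype.val h2)

variable [PolishSpace G] [MeasurableSpace G] [BorelSpace G] [DiscreteTopology Γ]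

theorem measurable_P {f : G → ℝ≥0∞} (hf : Measurable f) : Measurable (P Γ f) := by
  have : Countable Γ := TopologicalSpace.separableSpace_iff_countable.1 inferInstance
  refine QuotientGroup.measurable_from_quotient.2 ?_
  have : P Γ f ∘ (QuotientGroup.mk : G → G ⧸ Γ) = fun g => ∑' γ : Γ, f (g * γ) :=
    funext fun g => P_mk Γ f g
  rw [this]
  exact Measurable.tsum fun γ => hf.comp (measurable_mul_const _)

theorem exists_weight : ∃ w : G → ℝ≥0∞, Measurable w ∧ ∀ x, P Γ w x = 1 := by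
  choose U hU hg hinj using exists_open Γ
  obtain ⟨s, hs, hcov⟩ :=
    TopologicalSpace.countable_cover_nhds (f := U) fun g => (hU g).mem_nhds (hg g)
  have := hs.to_subtype
  obtain ⟨ε, hε, hsum⟩ := ENNReal.exists_pos_sum_of_countable' one_ne_zero s
  let u : G → ℝ≥0∞ := fun g => ∑' i : s, ε i * (U i).indicator 1 g
  have hu : Measurable u := Measurable.tsum fun i =>
    (measurable_one.indicator (hU i).measurableSet).const_mul _
  have h1 : ∀ x, P Γ u x ≠ ∞ := fun x => by
    refine ne_top_of_le_ne_top (ne_top_of_lt hsum) ?_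
    simp only [P, u]
    rw [ENNReal.tsum_comm]
    refine ENNReal.tsum_le_tsum fun i => ?_
    rw [ENNReal.tsum_mul_left]
    exact mul_le_of_le_one_right' (P_le_one Γ (hinj i) x)
  have h0 : ∀ x, P Γ u x ≠ 0 := fun x h => by
    have h2 := ENNReal.tsum_eq_zero.1 h 1
    have h3 : x.out * (1 : Γ) ∈ ⋃ i ∈ s, U i := by rw [hcov]; trivial
    obtain ⟨i, hi, h4⟩ := mem_iUnion₂.1 h3
    have h5 := ENNReal.tsum_eq_zero.1 h2 ⟨i, hi⟩
    rw [indicator_of_mem h4, Pi.one_apply, mul_one] at h5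
    exact (hε _).ne' h5
  refine ⟨fun g => (P Γ u (QuotientGroup.mk g))⁻¹ * u g,
    (((measurable_P Γ hu).comp QuotientGroup.measurable_coe).inv).mul hu, fun x => ?_⟩
  rw [P_mul Γ u fun x => (P Γ u x)⁻¹]
  exact ENNReal.inv_mul_cancel (h0 x) (h1 x)

theorem ext_P {ν₁ ν₂ : Measure (G ⧸ Γ)}
    (h : ∀ f : G → ℝ≥0∞, Measurable f → ∫⁻ x, P Γ f x ∂ν₁ = ∫⁻ x, P Γ f x ∂ν₂) : ν₁ = ν₂ := by
  obtain ⟨w, hw, h1⟩ := exists_weight Γ
  refine Measure.ext_of_lintegral _ fun φ hφ => ?_
  have := h (fun g => φ (QuotientGroup.mk g) * w g)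
    ((hφ.comp QuotientGroup.measurable_coe).mul hw)
  simpa only [P_mul, h1, mul_one] using this

theorem exists_lift (lam : Measure (G ⧸ Γ)) [IsFiniteMeasure lam] :
    ∃ m : Measure G, IsLocallyFiniteMeasure m ∧
      ∀ f : G → ℝ≥0∞, Measurable f → ∫⁻ g, f g ∂m = ∫⁻ x, P Γ f x ∂lam := by
  have : Countable Γ := TopologicalSpace.separableSpace_iff_countable.1 inferInstance
  let κ : G ⧸ Γ → Measure G := fun x => Measure.sum fun γ : Γ => Measure.dirac (x.out * γ)
  have h1 : ∀ f : G → ℝ≥0∞, Measurable f → ∀ x, ∫⁻ g, f g ∂κ x = P Γ f x := fun f hf x => by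
    simp only [κ, lintegral_sum_measure, lintegral_dirac' _ hf, P]
  have hκ : Measurable κ := Measure.measurable_of_measurable_coe _ fun s hs => by
    have : (fun x => κ x s) = P Γ (s.indicator 1) := funext fun x => by
      rw [← h1 _ (measurable_one.indicator hs), lintegral_indicator_one hs]
    rw [this]
    exact measurable_P Γ (measurable_one.indicator hs)
  have h2 : ∀ f : G → ℝ≥0∞, Measurable f → ∫⁻ g, f g ∂lam.bind κ = ∫⁻ x, P Γ f x ∂lam :=
    fun f hf => by
      rw [Measure.lintegral_bind hκ.aemeasurable hf.aemeasurable]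
      simp only [h1 f hf]
  refine ⟨lam.bind κ, ⟨fun g => ?_⟩, h2⟩
  obtain ⟨U, hU, hg, hinj⟩ := exists_open Γ g
  refine ⟨U, hU.mem_nhds hg, ?_⟩
  rw [← lintegral_indicator_one hU.measurableSet, h2 _ (measurable_one.indicator hU.measurableSet)]
  refine (lintegral_mono (P_le_one Γ hinj)).trans_lt ?_
  simp

omit [DiscreteTopology Γ]

theorem right_of_dense (m : Measure G) [IsLocallyFiniteMeasure m] {D : Set G} (hD : Dense D)
    (h : ∀ d ∈ D, m.map (· * d) = m) : m.IsMulRightInvariant := by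
  have key : ∀ (g : G) (U : Set G), IsOpen U → m ((· * g) ⁻¹' U) ≤ m U := by
    intro g U hU
    obtain ⟨d, hd, hlim⟩ := mem_closure_iff_seq_limit.1 (hD g)
    have hsub : (· * g) ⁻¹' U ⊆ ⋃ N : ℕ, ⋂ n ≥ N, (· * d n) ⁻¹' U := fun x hx => by
      obtain ⟨N, hN⟩ := eventually_atTop.1 ((hlim.const_mul x).eventually (hU.mem_nhds hx))
      exact mem_iUnion.2 ⟨N, mem_iInter₂.2 hN⟩
    refine (measure_mono hsub).trans ?_
    rw [Monotone.measure_iUnion fun N N' hN => biInter_subset_biInter_left fun n hn => hN.trans hn]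
    refine iSup_le fun N => (measure_mono (biInter_subset_of_mem (le_refl N))).trans_eq ?_
    rw [← Measure.map_apply (measurable_mul_const _) hU.measurableSet, h _ (hd N)]
  refine ⟨fun g => ?_⟩
  have : (m.map (· * g)).OuterRegular := Measure.OuterRegular.map (Homeomorph.mulRight g) m
  refine Measure.OuterRegular.ext_isOpen fun U hU => ?_
  rw [Measure.map_apply (measurable_mul_const _) hU.measurableSet]
  refine le_antisymm (key g U hU) ?_
  have := key g⁻¹ _ (hU.preimage (continuous_mul_const g))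
  simpa [preimage_preimage] using this

theorem eq_smul [LocallyCompactSpace G] (m mG : Measure G) [IsLocallyFiniteMeasure m] [m.IsMulRightInvariant]
    [mG.IsHaarMeasure] [mG.IsMulRightInvariant] : ∃ c : ℝ≥0, m = c • mG := by
  have : mG.inv.IsHaarMeasure := {}
  refine ⟨m.inv.haarScalarFactor mG.inv, ?_⟩
  have h := congrArg Measure.inv (Measure.isMulLeftInvariant_eq_smul m.inv mG.inv)
  rw [Measure.inv_inv] at h
  refine h.trans ?_
  rw [Measure.inv_def, Measure.map_smul, ← Measure.inv_def, Measure.inv_inv]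

theorem right_of_left {H : Type} [Group H] [TopologicalSpace H] [IsTopologicalGroup H]
    [PolishSpace H] [LocallyCompactSpace H] [MeasurableSpace H] [BorelSpace H]
    (mH : Measure H) [mH.IsHaarMeasure] [mH.IsMulRightInvariant] (a : H →* G) (π : G →* H)
    (ha : Continuous a) (hπ : Continuous π) (hπa : ∀ h, π (a h) = h)
    (hc : ∀ x h, x * a h = a (π x * h * (π x)⁻¹) * x) (m : Measure G) [IsLocallyFiniteMeasure m]
    (hm : ∀ h, m.map (a h * ·) = m) (h₀ : H) : m.map (· * a h₀) = m := by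
  obtain ⟨K, hK, hK1⟩ := exists_compact_mem_nhds (1 : H)
  have hKm := hK.measurableSet
  have hφ : Measurable (K.indicator (1 : H → ℝ≥0∞)) := measurable_one.indicator hKm
  have key : ∀ f : G → ℝ≥0∞, Measurable f → mH K * ∫⁻ x, f x ∂m =
      ∫⁻ x, K.indicator 1 (π x) * ∫⁻ k, f (a k⁻¹ * x) ∂mH ∂m := by
    intro f hf
    have hf' : Measurable fun p : G × H => f (a p.2⁻¹ * p.1) :=
      hf.comp (Continuous.measurable (by fun_prop))
    calc mH K * ∫⁻ x, f x ∂m = ∫⁻ x, ∫⁻ k, K.indicator 1 (k * π x) * f x ∂mH ∂m := by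
          rw [← lintegral_const_mul _ hf]
          refine lintegral_congr fun x => ?_
          rw [lintegral_mul_const _ (hφ.fun_comp (measurable_mul_const _)),
            lintegral_mul_right_eq_self (K.indicator (1 : H → ℝ≥0∞)), lintegral_indicator_one hKm]
      _ = ∫⁻ k, ∫⁻ x, K.indicator 1 (k * π x) * f x ∂m ∂mH :=
          lintegral_lintegral_swap (((hφ.comp (Continuous.measurable (by fun_prop))).mul
            (hf.comp measurable_fst)).aemeasurable)
      _ = ∫⁻ k, ∫⁻ x, K.indicator 1 (π x) * f (a k⁻¹ * x) ∂m ∂mH := by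
          refine lintegral_congr fun k => ?_
          conv_rhs => rw [← hm k]
          rw [lintegral_map ((hφ.fun_comp hπ.measurable).fun_mul (hf.fun_comp (measurable_const_mul _)))
            (measurable_const_mul _)]
          simp [hπa]
      _ = ∫⁻ x, ∫⁻ k, K.indicator 1 (π x) * f (a k⁻¹ * x) ∂mH ∂m :=
          (lintegral_lintegral_swap
            (((hφ.comp (hπ.measurable.comp measurable_fst)).mul hf').aemeasurable)).symm
      _ = _ := lintegral_congr fun x =>
          lintegral_const_mul _ (hf.comp (Continuous.measurable (by fun_prop)))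
  refine Measure.ext_of_lintegral _ fun f hf => ?_
  rw [lintegral_map hf (measurable_mul_const _)]
  refine (ENNReal.mul_right_inj (Measure.measure_pos_of_mem_nhds mH hK1).ne' hK.measure_ne_top).1 ?_
  rw [key f hf, key _ (hf.fun_comp (measurable_mul_const _))]
  refine lintegral_congr fun x => congrArg _ ?_
  rw [← lintegral_mul_left_eq_self (fun k => f (a k⁻¹ * x)) (π x * h₀ * (π x)⁻¹)⁻¹]
  refine lintegral_congr fun k => ?_
  rw [mul_assoc, hc, mul_inv_rev, inv_inv, map_mul a k⁻¹, mul_assoc (a k⁻¹)]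

end Uniq

open Uniq in
theorem uniq : UniqStmt := by
  intro G H C _ _ _ _ _ _ _ _ _ _ _ _ _ _ _ _ _ _ _ _ _ e Γ _ _ mH _ _ mG _ _ hD
  have hs : ∀ g : G, Measurable fun x : G ⧸ Γ => g • x := fun g =>
    (continuous_const_smul g).measurable
  have part : ∀ lam : Measure (G ⧸ Γ), IsFiniteMeasure lam →
      (∀ h : H, lam.map (e (h, 1) • ·) = lam) → ∃ c : ℝ≥0, ∀ f : G → ℝ≥0∞, Measurable f →
        ∫⁻ x, P Γ f x ∂lam = c * ∫⁻ g, f g ∂mG := by
    intro lam _ hl
    obtain ⟨m, _, hm⟩ := exists_lift Γ lam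
    let a : H →* G := e.toMulEquiv.toMonoidHom.comp (MonoidHom.inl H C)
    let π : G →* H := (MonoidHom.fst H C).comp e.symm.toMulEquiv.toMonoidHom
    have h1 : ∀ h, m.map (· * a h) = m := right_of_left mH a π
      (e.continuous.comp (by fun_prop : Continuous fun h : H => (h, (1 : C))))
      (continuous_fst.comp e.symm.continuous) (fun h => congrArg Prod.fst (e.symm_apply_apply (h, 1)))
      (fun x h => by
        obtain ⟨⟨x₁, x₂⟩, rfl⟩ := e.surjective x
        change e (x₁, x₂) * e (h, 1) =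
          e ((e.symm (e (x₁, x₂))).1 * h * ((e.symm (e (x₁, x₂))).1)⁻¹, 1) * e (x₁, x₂)
        rw [e.symm_apply_apply, ← map_mul, ← map_mul]
        simp) m
      (fun h => Measure.ext_of_lintegral _ fun f hf => by
        rw [lintegral_map hf (measurable_const_mul _), hm _ (hf.fun_comp (measurable_const_mul _)),
          hm f hf]
        conv_rhs => rw [← hl h]
        rw [lintegral_map (measurable_P Γ hf) (hs _)]
        simp only [P_smul]
        rfl)
    have h2 : ∀ γ : Γ, m.map (· * (γ : G)) = m := fun γ =>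
      Measure.ext_of_lintegral _ fun f hf => by
        rw [lintegral_map hf (measurable_mul_const _), hm _ (hf.fun_comp (measurable_mul_const _)),
          hm f hf, P_right Γ f γ]
    have := right_of_dense m hD (by
      rintro d ⟨h, γ, hγ, rfl⟩
      have : (fun x : G => x * (e (h, 1) * γ)) = (· * γ) ∘ (· * a h) :=
        funext fun x => (mul_assoc _ _ _).symm
      rw [this, ← Measure.map_map (measurable_mul_const _) (measurable_mul_const _), h1]
      exact h2 ⟨γ, hγ⟩)
    obtain ⟨c, hc⟩ := eq_smul m mG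
    refine ⟨c, fun f hf => ?_⟩
    rw [← hm f hf, hc, lintegral_smul_measure]
    rfl
  refine ⟨part, fun μ lam _ _ hμ hl => ?_⟩
  obtain ⟨c, hc⟩ := part lam inferInstance hl
  obtain ⟨c', hc'⟩ := part μ inferInstance hμ
  obtain ⟨w, hw, h1⟩ := exists_weight Γ
  have e1 := hc w hw
  have e2 := hc' w hw
  simp only [h1, lintegral_one, measure_univ] at e1 e2
  refine ⟨ext_P Γ fun f hf => ?_, fun g => ext_P Γ fun f hf => ?_⟩
  · rw [lintegral_smul_measure, hc f hf, hc' f hf, e1, smul_eq_mul, ← mul_assoc, mul_assoc (c : ℝ≥0∞),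
      mul_comm _ (c' : ℝ≥0∞), ← e2, mul_one]
  · rw [lintegral_map (measurable_P Γ hf) (hs g)]
    simp only [P_smul]
    rw [hc' f hf, hc' _ (hf.fun_comp (measurable_const_mul g)), lintegral_mul_left_eq_self f g]

end Pool.Agent.Lib.MP_9177b7_ag.J
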