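import Pool.Agent.Lib.MP_9177b7_ag.J.DefsA

/-! Densities of periodic functions on the plane, and the bound for one pattern. -/

noncomputable section

namespace Pool.Agent.Lib.MP_9177b7_ag.J.Shiu

open Finset

/-- periodic functions -/
def Per {β : Type} (M : ℕ) (h : ℤ × ℤ → β) : Prop := ∀ u v, Cg M u v → h u = h v

lemma mem_box {a : ℤ × ℤ} {A B : ℕ} {u : ℤ × ℤ} :
    u ∈ box a A B ↔ (a.1 ≤ u.1 ∧ u.1 < a.1 + A) ∧ a.2 ≤ u.2 ∧ u.2 < a.2 + B := by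
  simp [box]

lemma card_box (a : ℤ × ℤ) (A B : ℕ) : (box a A B).card = A * B := by
  simp [box]

lemma Cg.of_dvd {M N : ℕ} (h : M ∣ N) {u v : ℤ × ℤ} (huv : Cg N u v) : Cg M u v :=
  ⟨(Int.natCast_dvd_natCast.2 h).trans huv.1, (Int.natCast_dvd_natCast.2 h).trans huv.2⟩

lemma Cg.symm {M : ℕ} {u v : ℤ × ℤ} (h : Cg M u v) : Cg M v u :=
  ⟨dvd_sub_comm.1 h.1, dvd_sub_comm.1 h.2⟩

lemma Per.of_dvd {β : Type} {M N : ℕ} {h : ℤ × ℤ → β} (hp : Per M h) (hd : M ∣ N) : Per N h :=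
  fun u v huv => hp u v (Cg.of_dvd hd huv)

/-- the point `u₀ + M u` -/
def af (M : ℕ) (u₀ u : ℤ × ℤ) : ℤ × ℤ := (u₀.1 + M * u.1, u₀.2 + M * u.2)

lemma cg_af (M : ℕ) (u₀ u : ℤ × ℤ) : Cg M (af M u₀ u) u₀ := by
  constructor <;> simp [af]

lemma cg_af' {N : ℕ} (M : ℕ) (u₀ : ℤ × ℤ) {u v : ℤ × ℤ} (h : Cg N u v) :
    Cg N (af M u₀ u) (af M u₀ v) := by
  refine ⟨?_, ?_⟩
  · have : (af M u₀ u).1 - (af M u₀ v).1 = M * (u.1 - v.1) := by simp [af]; ring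
    rw [this]; exact h.1.mul_left _
  · have : (af M u₀ u).2 - (af M u₀ v).2 = M * (u.2 - v.2) := by simp [af]; ring
    rw [this]; exact h.2.mul_left _

lemma den_nonneg (M : ℕ) {h : ℤ × ℤ → ℝ} (h0 : ∀ u, 0 ≤ h u) : 0 ≤ den M h :=
  div_nonneg (sum_nonneg fun u _ => h0 u) (by positivity)

lemma den_one : den 1 (fun _ => (1 : ℝ)) = 1 := by
  simp [den, card_box]

lemma eq_of_cg {N : ℕ} {u v : ℤ × ℤ} (hu : u ∈ box 0 N N) (hv : v ∈ box 0 N N) (h : Cg N u v) :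
    u = v := by
  rw [mem_box] at hu hv
  simp only [Prod.fst_zero, Prod.snd_zero, zero_add] at hu hv
  have k : ∀ x y : ℤ, 0 ≤ x → x < N → 0 ≤ y → y < N → (N : ℤ) ∣ x - y → x = y := by
    intro x y h1 h2 h3 h4 h5
    have := Int.eq_zero_of_abs_lt_dvd h5 (by rw [abs_lt]; constructor <;> linarith)
    linarith
  exact Prod.ext (k _ _ hu.1.1 hu.1.2 hv.1.1 hv.1.2 h.1) (k _ _ hu.2.1 hu.2.2 hv.2.1 hv.2.2 h.2)

lemma sum_af {M N : ℕ} (hN : 0 < N) (hMN : M.Coprime N) {h : ℤ × ℤ → ℝ} (hp : Per N h)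
    (u₀ : ℤ × ℤ) : ∑ u ∈ box 0 N N, h (af M u₀ u) = ∑ u ∈ box 0 N N, h u := by
  have hN' : (0 : ℤ) < N := by exact_mod_cast hN
  let r : ℤ × ℤ → ℤ × ℤ := fun u => ((af M u₀ u).1 % N, (af M u₀ u).2 % N)
  have hr : ∀ u, Cg N (af M u₀ u) (r u) := fun u =>
    ⟨Int.dvd_self_sub_emod, Int.dvd_self_sub_emod⟩
  have hmem : ∀ u, r u ∈ box 0 N N := fun u => by
    rw [mem_box]
    simp only [Prod.fst_zero, Prod.snd_zero, zero_add, r]
    exact ⟨⟨Int.emod_nonneg _ hN'.ne', Int.emod_lt_of_pos _ hN'⟩,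
      Int.emod_nonneg _ hN'.ne', Int.emod_lt_of_pos _ hN'⟩
  have hc : IsCoprime (N : ℤ) (M : ℤ) := Nat.isCoprime_iff_coprime.2 hMN.symm
  have hinj : ∀ u ∈ box 0 N N, ∀ v ∈ box 0 N N, r u = r v → u = v := by
    intro u hu v hv huv
    have h1 := hr u
    have h2 := hr v
    rw [huv] at h1
    refine eq_of_cg hu hv ⟨hc.dvd_of_dvd_mul_left ?_, hc.dvd_of_dvd_mul_left ?_⟩
    · have := dvd_sub h1.1 h2.1
      convert this using 1
      simp [af]; ring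
    · have := dvd_sub h1.2 h2.2
      convert this using 1
      simp [af]; ring
  refine sum_bij (fun u _ => r u) (fun u _ => hmem u) (fun u hu v hv => hinj u hu v hv) ?_
    (fun u _ => hp _ _ (hr u))
  intro b hb
  obtain ⟨u, hu, rfl⟩ := surj_on_of_inj_on_of_card_le (fun u _ => r u) (fun u _ => hmem u)
    (fun u v hu hv => hinj u hu v hv) le_rfl b hb
  exact ⟨u, hu, rfl⟩

lemma den_af {M N : ℕ} (hN : 0 < N) (hMN : M.Coprime N) {h : ℤ × ℤ → ℝ} (hp : Per N h)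
    (u₀ : ℤ × ℤ) : den N (fun u => h (af M u₀ u)) = den N h := by
  simp only [den, sum_af hN hMN hp]

lemma af_divmod {M : ℕ} (u : ℤ × ℤ) :
    af M (u.1 % M, u.2 % M) (u.1 / M, u.2 / M) = u := by
  simp [af, Int.emod_add_mul_ediv]

lemma mod_mem {M : ℕ} (hM : 0 < M) (u : ℤ × ℤ) : (u.1 % M, u.2 % M) ∈ box 0 M M := by
  have hM' : (0 : ℤ) < M := by exact_mod_cast hM
  rw [mem_box]
  simp only [Prod.fst_zero, Prod.snd_zero, zero_add]
  exact ⟨⟨Int.emod_nonneg _ hM'.ne', Int.emod_lt_of_pos _ hM'⟩,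
    Int.emod_nonneg _ hM'.ne', Int.emod_lt_of_pos _ hM'⟩

lemma sum_split {M : ℕ} (hM : 0 < M) (S T : Finset (ℤ × ℤ))
    (hST : ∀ u ∈ S, (u.1 / M, u.2 / M) ∈ T) {F : ℤ × ℤ → ℝ} (hF : ∀ u, 0 ≤ F u) :
    ∑ u ∈ S, F u ≤ ∑ u₀ ∈ box 0 M M, ∑ u ∈ T, F (af M u₀ u) := by
  rw [← sum_product']
  let r : ℤ × ℤ → (ℤ × ℤ) × (ℤ × ℤ) := fun u => ((u.1 % M, u.2 % M), (u.1 / M, u.2 / M))
  have hinj : Set.InjOn r S := fun u _ v _ h => by
    rw [← af_divmod (M := M) u, ← af_divmod (M := M) v]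
    have h1 := congrArg Prod.fst h
    have h2 := congrArg Prod.snd h
    simp only [r] at h1 h2
    rw [h1, h2]
  calc ∑ u ∈ S, F u = ∑ x ∈ S.image r, F (af M x.1 x.2) := by
        rw [sum_image hinj]
        exact sum_congr rfl fun u _ => by simp only [r, af_divmod]
    _ ≤ _ := by
        refine sum_le_sum_of_subset_of_nonneg ?_ fun _ _ _ => hF _
        intro x hx
        obtain ⟨u, hu, rfl⟩ := mem_image.1 hx
        exact mem_product.2 ⟨mod_mem hM u, hST u hu⟩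

lemma sum_split_eq {M N : ℕ} (hM : 0 < M) (F : ℤ × ℤ → ℝ) :
    ∑ u ∈ box 0 (M * N) (M * N), F u = ∑ u₀ ∈ box 0 M M, ∑ u ∈ box 0 N N, F (af M u₀ u) := by
  have hM' : (0 : ℤ) < M := by exact_mod_cast hM
  rw [← sum_product']
  refine sum_nbij' (fun u => ((u.1 % M, u.2 % M), (u.1 / M, u.2 / M))) (fun x => af M x.1 x.2)
    ?_ ?_ (fun u _ => af_divmod u) ?_ (fun u _ => by rw [af_divmod])
  · intro u hu
    refine mem_product.2 ⟨mod_mem hM u, ?_⟩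
    rw [mem_box] at hu ⊢
    simp only [Prod.fst_zero, Prod.snd_zero, zero_add, Nat.cast_mul] at hu ⊢
    exact ⟨⟨Int.ediv_nonneg hu.1.1 hM'.le, Int.ediv_lt_of_lt_mul hM' (by linarith [hu.1.2])⟩,
      Int.ediv_nonneg hu.2.1 hM'.le, Int.ediv_lt_of_lt_mul hM' (by linarith [hu.2.2])⟩
  · intro x hx
    obtain ⟨h1, h2⟩ := mem_product.1 hx
    rw [mem_box] at h1 h2 ⊢
    simp only [Prod.fst_zero, Prod.snd_zero, zero_add, Nat.cast_mul, af] at h1 h2 ⊢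
    refine ⟨⟨by nlinarith [h1.1.1, h2.1.1], ?_⟩, by nlinarith [h1.2.1, h2.2.1], ?_⟩
    · have : (M : ℤ) * (x.2.1 + 1) ≤ M * N := by gcongr; linarith [h2.1.2]
      linarith [h1.1.2]
    · have : (M : ℤ) * (x.2.2 + 1) ≤ M * N := by gcongr; linarith [h2.2.2]
      linarith [h1.2.2]
  · intro x hx
    obtain ⟨h1, -⟩ := mem_product.1 hx
    rw [mem_box] at h1
    simp only [Prod.fst_zero, Prod.snd_zero, zero_add] at h1
    have k : ∀ s t : ℤ, 0 ≤ s → s < M → (s + M * t) % M = s ∧ (s + M * t) / M = t := by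
      intro s t h0 h1
      refine ⟨by rw [Int.add_mul_emod_self_left, Int.emod_eq_of_lt h0 h1], ?_⟩
      rw [Int.add_mul_ediv_left _ _ hM'.ne', Int.ediv_eq_zero_of_lt h0 h1, zero_add]
    simp only [af, (k _ _ h1.1.1 h1.1.2).1, (k _ _ h1.1.1 h1.1.2).2, (k _ _ h1.2.1 h1.2.2).1,
      (k _ _ h1.2.1 h1.2.2).2]

lemma den_mul {M N : ℕ} (hM : 0 < M) (hN : 0 < N) (hMN : M.Coprime N) {h h' : ℤ × ℤ → ℝ}
    (hp : Per M h) (hp' : Per N h') : den (M * N) (fun u => h u * h' u) = den M h * den N h' := by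
  simp only [den]
  rw [sum_split_eq hM]
  have : ∀ u₀ ∈ box 0 M M, ∑ u ∈ box 0 N N, h (af M u₀ u) * h' (af M u₀ u) =
      h u₀ * ∑ u ∈ box 0 N N, h' u := fun u₀ _ => by
    rw [← sum_af hN hMN hp' u₀, mul_sum]
    exact sum_congr rfl fun u _ => by rw [hp _ _ (cg_af M u₀ u)]
  rw [sum_congr rfl this, ← sum_mul]
  push_cast
  field_simp

lemma den_prod {ι : Type} [DecidableEq ι] (s : Finset ι) (n : ι → ℕ) (hn : ∀ i, 0 < n i)
    (hc : ∀ i j, i ≠ j → (n i).Coprime (n j)) (h : ι → ℤ × ℤ → ℝ) (hp : ∀ i, Per (n i) (h i)) :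
    den (∏ i ∈ s, n i) (fun u => ∏ i ∈ s, h i u) = ∏ i ∈ s, den (n i) (h i) := by
  induction s using Finset.induction_on with
  | empty => simpa using den_one
  | insert a s ha ih =>
    simp only [prod_insert ha]
    rw [den_mul (hn a) (prod_pos fun i _ => hn i)
      (Nat.Coprime.prod_right fun i hi => hc _ _ fun e => ha (e ▸ hi)) (hp a), ih]
    intro u v huv
    exact prod_congr rfl fun i hi => (hp i).of_dvd (dvd_prod_of_mem _ hi) u v huv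

lemma div_mem {M : ℕ} (hM : 0 < M) {a : ℤ} {A : ℕ} {x : ℤ} (h1 : a ≤ x) (h2 : x < a + A) :
    a / M ≤ x / M ∧ x / M < a / M + ((A / M + 2 : ℕ) : ℤ) := by
  have hM' : (0 : ℤ) < M := by exact_mod_cast hM
  refine ⟨Int.ediv_le_ediv hM' h1, Int.ediv_lt_of_lt_mul hM' ?_⟩
  have e1 := Int.lt_ediv_add_one_mul_self a hM'
  have e2 := Int.lt_ediv_add_one_mul_self (A : ℤ) hM'
  push_cast
  linarith

open Classical in
/-- the sieve bound which is assumed -/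
def Sv (κ δ C : ℝ) : Prop :=
  ∀ (y : ℝ) (a : ℤ × ℤ) (A B : ℕ) (P : Finset ℕ)
    (Ω : ℕ → ℤ × ℤ → Prop), 1 ≤ y → y ≤ A → y ≤ B → (∀ q ∈ P, q.Prime ∧ (q : ℝ) ≤ y ^ δ) →
    (∀ q ∈ P, ∀ u v, Cg q u v → Ω q u → Ω q v) →
    (∀ q ∈ P, den q (fun u => if Ω q u then 1 else 0) ≤ κ / q) →
    (((box a A B).filter fun u => ∀ q ∈ P, ¬ Ω q u).card : ℝ) ≤
      C * A * B * Real.exp (-∑ q ∈ P, den q fun u => if Ω q u then 1 else 0)

open Classical in
lemma per_ind {q : ℕ} {Ω : ℤ × ℤ → Prop} (h : ∀ u v, Cg q u v → Ω u → Ω v) :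
    Per q fun u => if Ω u then (1 : ℝ) else 0 := fun u v huv => by
  have : Ω u ↔ Ω v := ⟨h u v huv, h v u (Cg.symm huv)⟩
  simp only [this]

open Classical in
/-- the bound for a periodic weight and a sieve condition -/
lemma pb {κ δ C : ℝ} (hC : 0 < C) (hs : Sv κ δ C) {y : ℝ} (hy : 1 ≤ y) (a : ℤ × ℤ) {A B : ℕ}
    (hA : y ≤ A) (hB : y ≤ B) {M : ℕ} (hM : 0 < M) (hMy : (M : ℝ) ≤ √y) {H : ℤ × ℤ → ℝ}
    (H0 : ∀ u, 0 ≤ H u) (Hp : Per M H) (W : Finset ℕ) (Ω : ℕ → ℤ × ℤ → Prop)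
    (hW : ∀ q ∈ W, q.Prime ∧ (q : ℝ) ≤ √y ^ δ ∧ M.Coprime q)
    (hΩ : ∀ q ∈ W, ∀ u v, Cg q u v → Ω q u → Ω q v)
    (hd : ∀ q ∈ W, den q (fun u => if Ω q u then 1 else 0) ≤ κ / q) :
    ∑ u ∈ box a A B, H u * (if ∀ q ∈ W, ¬ Ω q u then 1 else 0) ≤
      9 * C * A * B * den M H * Real.exp (-∑ q ∈ W, den q fun u => if Ω q u then 1 else 0) := by
  have hM' : (0 : ℝ) < M := by exact_mod_cast hM
  have hs1 : 1 ≤ √y := Real.one_le_sqrt.2 hy
  have hss : √y * √y = y := Real.mul_self_sqrt (by linarith)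
  have side : ∀ A : ℕ, y ≤ A → √y ≤ ((A / M + 2 : ℕ) : ℝ) ∧ ((A / M + 2 : ℕ) : ℝ) ≤ 3 * A / M := by
    intro A hA
    have h1 : ((A / M : ℕ) : ℝ) ≤ A / M := Nat.cast_div_le
    have h2 : (A : ℝ) / M < (A / M : ℕ) + 1 := by
      rw [div_lt_iff₀ hM']
      exact_mod_cast Nat.lt_div_mul_add hM |>.trans_le (by rw [add_mul, one_mul])
    have h3 : √y ≤ A / M := by
      rw [le_div_iff₀ hM']
      nlinarith
    push_cast
    constructor
    · linarith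
    · rw [mul_div_assoc]; linarith
  set E := Real.exp (-∑ q ∈ W, den q fun u => if Ω q u then 1 else 0) with hE
  have hE0 : 0 < E := Real.exp_pos _
  refine (sum_split hM _ (box (a.1 / M, a.2 / M) (A / M + 2) (B / M + 2)) ?_ ?_).trans ?_
  · intro u hu
    rw [mem_box] at hu ⊢
    exact ⟨div_mem hM hu.1.1 hu.1.2, div_mem hM hu.2.1 hu.2.2⟩
  · intro u
    exact mul_nonneg (H0 u) (by split_ifs <;> norm_num)
  have key : ∀ u₀ ∈ box 0 M M, ∑ u ∈ box (a.1 / M, a.2 / M) (A / M + 2) (B / M + 2),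
      H (af M u₀ u) * (if ∀ q ∈ W, ¬ Ω q (af M u₀ u) then 1 else 0) ≤
      H u₀ * (C * (3 * A / M) * (3 * B / M) * E) := by
    intro u₀ _
    have hden : ∀ q ∈ W, den q (fun u => if Ω q (af M u₀ u) then 1 else 0) =
        den q fun u => if Ω q u then 1 else 0 := fun q hq =>
      den_af (h := fun u => if Ω q u then 1 else 0) (hW q hq).1.pos (hW q hq).2.2
        (per_ind (hΩ q hq)) u₀
    have := hs √y (a.1 / M, a.2 / M) (A / M + 2) (B / M + 2) W (fun q u => Ω q (af M u₀ u)) hs1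
      (side A hA).1 (side B hB).1 (fun q hq => ⟨(hW q hq).1, (hW q hq).2.1⟩)
      (fun q hq u v huv => hΩ q hq _ _ (cg_af' M u₀ huv))
      (fun q hq => (hden q hq).trans_le (hd q hq))
    rw [sum_congr rfl hden] at this
    simp only [Hp _ _ (cg_af M u₀ _)]
    rw [← mul_sum, sum_boole]
    refine mul_le_mul_of_nonneg_left ((le_of_eq ?_).trans (this.trans ?_)) (H0 u₀)
    · congr
    · gcongr
      · exact (side A hA).2
      · exact (side B hB).2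
  refine (sum_le_sum key).trans (le_of_eq ?_)
  rw [← sum_mul, den]
  field_simp
  ring

end Pool.Agent.Lib.MP_9177b7_ag.J.Shiu
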