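import Pool.Agent.Lib.MP_9177b7_ag.J.Shiu4

/-! The Shiu type bound follows from the upper bound sieve. -/

noncomputable section

namespace Pool.Agent.Lib.MP_9177b7_ag.J

open Finset

namespace Shiu

open Classical in
lemma pat {ι : Type} [Fintype ι] (p : ι → ℝ) (p1 : ∀ i, 1 ≤ p i) (l : ι → ℕ) {z Y lo hi σ : ℝ}
    (hz : ∀ i, p i ≤ z) (z1 : 1 ≤ z) (Y1 : 1 ≤ Y)
    (hpow : ∏ i, p i ^ (if 2 ≤ l i then l i else 0) ≤ Y)
    (hlo : ∏ i, (if l i = 1 ∧ p i ≤ lo then p i else 1) ≤ Y)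
    (hhi : σ = 0 ∧ z ≤ lo ∧ z ≤ hi ∨
      lo ≤ hi ∧ 0 ≤ σ ∧ Y < ∏ i, (if l i = 1 ∧ p i ≤ hi then p i else 1)) :
    ∃ π : ι → ℕ, (∀ i, π i = l i ∨ π i = 0 ∧ l i = 1 ∧ lo < p i) ∧ ∏ i, p i ^ π i ≤ z * Y * Y ∧
      Y ^ σ ≤ (∏ i, if π i = 1 then p i else 1) ^ σ ∧ ∀ i, π i = 1 → p i ≤ hi := by
  have p0 : ∀ i, 0 ≤ p i := fun i => by linarith [p1 i]
  have key : ∀ π : ι → ℕ, (∀ i, π i = l i ∨ π i = 0 ∧ l i = 1 ∧ lo < p i) →
      (∏ i, if π i = 1 then p i else 1) ≤ z * Y → ∏ i, p i ^ π i ≤ z * Y * Y := by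
    intro π h1 h2
    have : ∏ i, p i ^ π i = (∏ i, if π i = 1 then p i else 1) *
        ∏ i, p i ^ (if 2 ≤ l i then l i else 0) := by
      rw [← prod_mul_distrib]
      refine prod_congr rfl fun i _ => ?_
      rcases h1 i with h | h
      · rw [h]
        rcases l i with _ | _ | k <;> simp
      · simp [h.1, h.2.1]
    rw [this]
    exact mul_le_mul h2 hpow (prod_nonneg fun i _ => pow_nonneg (p0 i) _) (by positivity)
  rcases hhi with ⟨rfl, h1, h2⟩ | ⟨h1, h2, h3⟩
  · refine ⟨l, fun i => Or.inl rfl, key l (fun i => Or.inl rfl) ?_, by simp,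
      fun i _ => (hz i).trans h2⟩
    refine le_trans (le_of_eq (prod_congr rfl fun i _ => ?_)) (hlo.trans (by nlinarith))
    simp [(hz i).trans h1]
  · obtain ⟨π, a1, a2, a3⟩ := inter (fun i j => if j = 1 then p i else 1)
      (fun i j => by split_ifs; exacts [p0 i, zero_le_one])
      (fun i j => (j = l i ∨ j = 0 ∧ l i = 1 ∧ lo < p i) ∧ (j = 1 → p i ≤ hi))
      (fun i => if l i = 1 ∧ lo < p i then 0 else l i) (Y := Y) (Z := z) (by linarith)
      (fun i j hj hne => by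
        by_cases hc : l i = 1 ∧ lo < p i
        · rw [if_pos hc] at hne
          have : j = 1 := by rcases hj.1 with h | h <;> omega
          exact ⟨0, by omega, ⟨Or.inr ⟨rfl, hc⟩, by simp⟩, by simpa [this] using hz i⟩
        · rw [if_neg hc] at hne
          exact (hj.1.elim hne fun h => hc h.2).elim)
      (le_trans (le_of_eq (prod_congr rfl fun i _ => by
        by_cases ha : l i = 1 <;> by_cases hb : p i ≤ lo <;> simp [ha, hb, lt_iff_not_ge])) hlo)
      (fun i => if l i = 1 ∧ hi < p i then 0 else l i)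
      (fun i => by
        split_ifs with hc
        · exact ⟨Or.inr ⟨rfl, hc.1, h1.trans_lt hc.2⟩, by simp⟩
        · exact ⟨Or.inl rfl, fun h => not_lt.1 fun h' => hc ⟨h, h'⟩⟩)
      (h3.trans_le (le_of_eq (prod_congr rfl fun i _ => by
        by_cases ha : l i = 1 <;> by_cases hb : p i ≤ hi <;> simp [ha, hb, lt_iff_not_ge])))
    exact ⟨π, fun i => (a1 i).1, key π (fun i => (a1 i).1) a3,
      Real.rpow_le_rpow (by linarith) a2.le h2, fun i => (a1 i).2⟩

lemma expo {G E κ δ η L : ℝ} (hκ : 1 ≤ κ) (hδ : 0 < δ) (hη : 0 < η) (hL : 0 < L)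
    (hG : G = |E| * Real.log κ / δ + 3 * κ + 1) (n : ℕ) :
    Real.exp (L * E * (Real.log κ / (δ / 2 ^ n * L))) *
      Real.exp (L * η * -(if n = 0 then 0 else 2 * G * δ / η / (δ / 2 ^ (n - 1) * L))) *
      Real.exp (3 * κ * (δ * L / (δ / 2 ^ n * L))) ≤ Real.exp G * (1 / 2) ^ n := by
  have lk := Real.log_nonneg hκ
  have G0 : 0 ≤ G := by rw [hG]; positivity
  have h1 : L * E * (Real.log κ / (δ / 2 ^ n * L)) + 3 * κ * (δ * L / (δ / 2 ^ n * L)) ≤
      (G - 1) * 2 ^ n := by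
    calc _ = (E * Real.log κ / δ + 3 * κ) * 2 ^ n := by field_simp
      _ ≤ (|E| * Real.log κ / δ + 3 * κ) * 2 ^ n := by gcongr; exact le_abs_self E
      _ = _ := by rw [hG]; ring
  rw [← Real.exp_add, ← Real.exp_add]
  rcases n with _ | n
  · simp only [if_true, pow_zero, mul_one, neg_zero, mul_zero, add_zero] at h1 ⊢
    exact Real.exp_le_exp.2 (by linarith)
  · rw [if_neg n.succ_ne_zero, Nat.add_sub_cancel]
    have h2 : L * η * -(2 * G * δ / η / (δ / 2 ^ n * L)) = -(G * 2 ^ (n + 1)) := by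
      field_simp
      ring
    calc _ ≤ Real.exp (-2 ^ (n + 1)) := Real.exp_le_exp.2 (by linarith)
      _ ≤ (1 / 2) ^ (n + 1) := by
          rw [Real.exp_neg, one_div, inv_pow]
          exact inv_anti₀ (by positivity) (by linarith [Real.add_one_le_exp ((2 : ℝ) ^ (n + 1))])
      _ ≤ _ := le_mul_of_one_le_left (by positivity) (Real.one_le_exp G0)

end Shiu

open Shiu

theorem shiu : SieveStmt → ShiuStmt := by
  classical
  intro hS κ E θ c hκ hθ hc
  obtain ⟨δs, C, hδs, hC, hs⟩ := hS κ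
  replace hs : Sv κ δs C := hs
  have c1 : (1 : ℝ) ≤ c := by exact_mod_cast hc
  obtain ⟨η, η0, η1, η2⟩ : ∃ η : ℝ, 0 < η ∧ η ≤ δs / 2 ∧ η * c ≤ 1 / 12 :=
    ⟨min (δs / 2) (1 / 12 / c), by positivity, min_le_left _ _,
      (le_div_iff₀ (by positivity)).1 (min_le_right _ _)⟩
  refine ⟨η, η * θ / 4, η0, by positivity, fun δ δ0 δ1 => ?_⟩
  have lk := Real.log_nonneg hκ
  obtain ⟨G, hG⟩ : ∃ G, G = |E| * Real.log κ / δ + 3 * κ + 1 := ⟨_, rfl⟩
  have G0 : 0 ≤ G := by rw [hG]; positivity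
  obtain ⟨K₁, K₁0, hbad⟩ := bad (by linarith : 0 ≤ κ) hθ hC hs
  obtain ⟨K₂, K₂0, hcls⟩ := cls (T := 2 * G * δ / η) hκ (by positivity) hC hs
  refine ⟨1 + K₁ + K₂ * Real.exp G * 2, ?_⟩
  intro y a A B P Q U Lv g lev e₁ e₂ hy hA hB hU hP hQ hQz hmono hp1 hpj hpg g0 g1 gκ hd1 hdj he₁ he
    he₂ hlev hQ2 hE hbig hε
  have e20 : ∀ q ∈ P, 0 ≤ e₂ q := fun q hq => by simpa using he₂ q hq 0
  set M := Real.exp (∑ q ∈ (P \ Q).filter (fun q : ℕ => (q : ℝ) ≤ y ^ δ),
    (e₁ q + e₂ q - den q fun u => if Lv q 1 u then 1 else 0)) * ∏ q ∈ Q, e₂ q with hM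
  have M0 : 0 ≤ M := mul_nonneg (Real.exp_pos _).le (prod_nonneg fun q hq => e20 q (hQ hq))
  have y0 : 0 < y := by linarith
  have f0 : ∀ u, 0 ≤ ∏ q ∈ P, g q (lev u q) u := fun u => prod_nonneg fun q hq => g0 q hq _ _
  have AB : (0 : ℝ) ≤ A * B := by positivity
  rcases hy.eq_or_lt with rfl | y1
  · have h1 := sum_le_card_nsmul _ _ _ hε
    have h2 : (U.card : ℝ) ≤ A * B := by exact_mod_cast (card_le_card hU).trans_eq (card_box a A B)
    simp only [Real.one_rpow, nsmul_eq_mul, mul_one] at h1 ⊢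
    have : 0 ≤ K₂ * Real.exp G * 2 := by positivity
    calc _ ≤ 1 * (A * B) * (1 : ℝ) := by linarith
      _ ≤ (1 + K₁ + K₂ * Real.exp G * 2) * (A * B) * (M + 1) := by gcongr <;> linarith
      _ = _ := by ring
  have L0 : 0 < Real.log y := Real.log_pos y1
  set P' := P.filter fun q : ℕ => (q : ℝ) ≤ y ^ δ with hP'
  have m1 : ∀ i : P', i.1 ∈ P := fun i => (mem_filter.1 i.2).1
  have m2 : ∀ i : P', (i.1 : ℝ) ≤ y ^ δ := fun i => (mem_filter.1 i.2).2
  have sq : √y = y ^ (1 / 2 : ℝ) := Real.sqrt_eq_rpow y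
  have m3 : ∀ i : P', (i.1 : ℝ) ≤ √y ^ δs := fun i => (m2 i).trans (by
    rw [sq, ← Real.rpow_mul y0.le]
    exact Real.rpow_le_rpow_of_exponent_le hy (by linarith))
  have z1 : 1 ≤ y ^ δ := Real.one_le_rpow hy δ0.le
  have Y1 : 1 ≤ y ^ η := Real.one_le_rpow hy η0.le
  have zY : y ^ δ ≤ y ^ η := Real.rpow_le_rpow_of_exponent_le hy δ1
  have hX : (y ^ δ * y ^ η * y ^ η) ^ (2 * c) ≤ √y := by
    rw [sq, ← Real.rpow_add y0, ← Real.rpow_add y0, ← Real.rpow_mul_natCast y0.le]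
    refine Real.rpow_le_rpow_of_exponent_le hy ?_
    push_cast
    nlinarith
  have hX' : ((y ^ δ) ^ 2 * y ^ η) ^ c ≤ √y := by
    refine le_trans ?_ hX
    rw [pow_mul]
    gcongr
    have : 1 ≤ y ^ η * y ^ η * y ^ η := one_le_mul_of_one_le_of_one_le
      (one_le_mul_of_one_le_of_one_le Y1 Y1) Y1
    calc _ ≤ (y ^ δ) ^ 2 * y ^ η * (y ^ η * y ^ η * y ^ η) :=
          le_mul_of_one_le_right (by positivity) this
      _ = _ := by ring
  have down : ∀ q ∈ P, ∀ u k j, j ≤ k → Lv q k u → Lv q j u := fun q hq u k j hjk h => by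
    induction hjk with
    | refl => exact h
    | step _ ih => exact ih (hmono q hq _ _ h)
  have q1 : ∀ q ∈ P, (1 : ℝ) ≤ q := fun q hq => by exact_mod_cast (hP q hq).one_le
  -- the points with a large powerful part
  have b1 := hbad a (fun i : P' => i.1) c (y ^ δ) (y ^ η) (fun i => Lv i.1) (fun u i => lev u i.1)
    (U.filter fun u => y ^ η < ∏ i : P', (i.1 : ℝ) ^ (if 2 ≤ lev u i.1 then lev u i.1 else 0))
    hy hA hB Subtype.val_injective (fun i => hP _ (m1 i)) m3 m2 Y1 hX' (fun i => hpj _ (m1 i))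
    (fun i => hdj _ (m1 i)) ((filter_subset _ _).trans hU)
    (fun u hu i j h2 hj => down _ (m1 i) u _ _ hj
      ((hlev u (mem_filter.1 hu).1 _ (m1 i)).1.resolve_left (by omega)))
    (fun u hu => (mem_filter.1 hu).2)
  rw [← sum_filter_add_sum_filter_not U fun u =>
    y ^ η < ∏ i : P', (i.1 : ℝ) ^ (if 2 ≤ lev u i.1 then lev u i.1 else 0)]
  have b2 := sum_le_card_nsmul (U.filter fun u =>
    y ^ η < ∏ i : P', (i.1 : ℝ) ^ (if 2 ≤ lev u i.1 then lev u i.1 else 0)) _ _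
    fun u hu => hε u (mem_filter.1 hu).1
  have b3 : K₁ * A * B * (y ^ η) ^ (-(θ / 2)) * y ^ (η * θ / 4) = K₁ * A * B * y ^ (-(η * θ / 4)) := by
    rw [mul_assoc, ← Real.rpow_mul y0.le, ← Real.rpow_add y0]
    congr 2
    ring
  rw [nsmul_eq_mul] at b2
  have b4 := (b2.trans (mul_le_mul_of_nonneg_right b1 (by positivity))).trans_eq b3
  -- the classes
  set V := U.filter fun u =>
    ¬ y ^ η < ∏ i : P', (i.1 : ℝ) ^ (if 2 ≤ lev u i.1 then lev u i.1 else 0) with hV
  let lo : ℕ → ℝ := fun n => y ^ (δ / 2 ^ n)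
  have lg : ∀ n, Real.log (lo n) = δ / 2 ^ n * Real.log y := fun n => Real.log_rpow y0 _
  have lo1 : ∀ n, 1 < lo n := fun n => Real.one_lt_rpow y1 (by positivity)
  have loz : ∀ m n, m ≤ n → lo n ≤ lo m := fun m n h =>
    Real.rpow_le_rpow_of_exponent_le hy (by gcongr; norm_num)
  have lo0 : lo 0 = y ^ δ := by simp [lo]
  have ex : ∀ u, ∃ n, ∏ i : P', (if lev u i.1 = 1 ∧ (i.1 : ℝ) ≤ lo n then (i.1 : ℝ) else 1) ≤
      y ^ η := fun u => by
    obtain ⟨n, hn⟩ := pow_unbounded_of_one_lt (δ * Real.log y / Real.log 2) one_lt_two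
    have l2 : 0 < Real.log 2 := Real.log_pos one_lt_two
    have : lo n < 2 := by
      rw [← Real.log_lt_log_iff (by linarith [lo1 n]) two_pos, lg, div_mul_eq_mul_div,
        div_lt_iff₀ (by positivity)]
      rw [div_lt_iff₀ l2] at hn
      linarith
    refine ⟨n, le_trans (le_of_eq (prod_eq_one fun i _ => if_neg fun h => ?_)) Y1⟩
    have : (2 : ℝ) ≤ i.1 := by exact_mod_cast (hP _ (m1 i)).two_le
    linarith [h.2]
  have one : ∀ n, ∑ u ∈ V with Nat.find (ex u) = n, ∏ q ∈ P, g q (lev u q) u ≤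
      K₂ * Real.exp G * A * B * M * (1 / 2) ^ n := by
    intro n
    have σ0 : 0 ≤ if n = 0 then 0 else 2 * G * δ / η / (δ / 2 ^ (n - 1) * Real.log y) := by
      split_ifs <;> positivity
    have := hcls a (fun i : P' => i.1) c (U.sup fun u => univ.sup fun i : P' => lev u i.1) (y ^ δ)
      (y ^ δ * y ^ η * y ^ η) (y ^ η) (lo n) (lo (n - 1))
      (if n = 0 then 0 else 2 * G * δ / η / (δ / 2 ^ (n - 1) * Real.log y))
      ((y ^ E) ^ (Real.log κ / Real.log (lo n))) (fun i => i.1 ∈ Q) (fun q => Lv q 1)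
      (fun i j u => if Lv i.1 j u ∧ ¬ Lv i.1 (j + 1) u then g i.1 j u else 0) (fun i => e₁ i.1)
      (fun i => e₂ i.1) (V.filter fun u => Nat.find (ex u) = n)
      (fun u => ∏ q ∈ P, g q (lev u q) u) hy hA hB Subtype.val_injective (fun i => hP _ (m1 i))
      m3 m2 z1 (lo1 n) (lo1 _).le σ0
      (by
        rw [lg]
        split_ifs
        · rw [zero_mul]; positivity
        · exact le_of_eq (div_mul_cancel₀ _ (by positivity)))
      (by positivity) (by positivity) hX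
      (fun i j u => by split_ifs; exacts [g0 _ (m1 i) _ _, le_rfl])
      (fun i j u v huv => by
        have h1 := Cg.of_dvd (pow_dvd_pow i.1 (Nat.mul_le_mul_left c j.le_succ)) huv
        have h2 : Lv i.1 j u ↔ Lv i.1 j v :=
          ⟨hpj _ (m1 i) _ _ _ h1, hpj _ (m1 i) _ _ _ (Cg.symm h1)⟩
        have h3 : Lv i.1 (j + 1) u ↔ Lv i.1 (j + 1) v :=
          ⟨hpj _ (m1 i) _ _ _ huv, hpj _ (m1 i) _ _ _ (Cg.symm huv)⟩
        simp only [h2, h3, hpg _ (m1 i) _ _ _ huv])
      (fun i => hp1 _ (m1 i)) (fun i => hd1 _ (m1 i)) (fun i => he₁ _ (m1 i))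
      (fun i => he _ (m1 i)) (fun i => he₂ _ (m1 i) _)
      ((filter_subset _ _).trans ((filter_subset _ _).trans hU)) ?_
    · refine this.trans ?_
      have e1 : ∑ i : P' with ¬ i.1 ∈ Q,
          (e₁ i.1 + e₂ i.1 - den i.1 fun u => if Lv i.1 1 u then 1 else 0) =
          ∑ q ∈ (P \ Q).filter (fun q : ℕ => (q : ℝ) ≤ y ^ δ),
            (e₁ q + e₂ q - den q fun u => if Lv q 1 u then 1 else 0) := by
        rw [sum_filter, sum_coe_sort P' fun q => if ¬ q ∈ Q then
          (e₁ q + e₂ q - den q fun u => if Lv q 1 u then 1 else 0) else 0, ← sum_filter]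
        congr 1
        ext q
        simp only [hP', mem_filter, mem_sdiff]
        tauto
      have e2 : ∏ i : P' with i.1 ∈ Q, e₂ i.1 = ∏ q ∈ Q, e₂ q := by
        rw [prod_filter, prod_coe_sort P' fun q => if q ∈ Q then e₂ q else 1, ← prod_filter]
        congr 1
        ext q
        simp only [hP', mem_filter]
        exact ⟨fun h => h.2, fun h => ⟨⟨hQ h, hQz q h⟩, h⟩⟩
      have e3 := expo (E := E) hκ δ0 η0 L0 hG n
      rw [← Real.rpow_mul y0.le, ← Real.rpow_mul y0.le, Real.rpow_def_of_pos y0,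
        Real.rpow_def_of_pos y0 (η * _), lg, Real.log_rpow y0, ← mul_assoc (Real.log y),
        ← mul_assoc (Real.log y)]
      calc _ ≤ K₂ * A * B * (Real.exp G * (1 / 2) ^ n) * M := by
            refine mul_le_mul (by gcongr) (le_of_eq ?_) (mul_nonneg (Real.exp_pos _).le
              (prod_nonneg fun i _ => e20 _ (m1 i))) (by positivity)
            rw [hM, ← e1, ← e2]
            congr
        _ = _ := by ring
    intro u hu₀
    obtain ⟨hu₁, rfl⟩ := mem_filter.1 hu₀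
    obtain ⟨hu, hu'⟩ := mem_filter.1 hu₁
    obtain ⟨π, a1, a2, a3, a4⟩ := pat (fun i : P' => (i.1 : ℝ)) (fun i => q1 _ (m1 i))
      (fun i => lev u i.1) (hi := lo (Nat.find (ex u) - 1)) (σ := if Nat.find (ex u) = 0 then 0 else
        2 * G * δ / η / (δ / 2 ^ (Nat.find (ex u) - 1) * Real.log y)) m2 z1 Y1 (not_lt.1 hu')
      (Nat.find_spec (ex u)) (by
        by_cases h : Nat.find (ex u) = 0
        · exact Or.inl ⟨if_pos h, by rw [h, lo0], by rw [h, Nat.zero_sub, lo0]⟩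
        · exact Or.inr ⟨loz _ _ (Nat.sub_le _ _), σ0, not_le.1 (Nat.find_min (ex u) (by omega))⟩)
    set n := Nat.find (ex u)
    refine ⟨π, fun i => ?_, a2, a3, fun i hi => ?_, a4, fun i h0 hi => ?_, ?_⟩
    · refine le_trans ?_ (le_sup2 (fun u (i : P') => lev u i.1) hu i)
      rcases a1 i with h | h <;> omega
    · have := hQ2 u hu _ hi
      rcases a1 i with h | h <;> omega
    · rcases a1 i with h | h
      · have := (hlev u hu _ (m1 i)).2
        rwa [← h, h0] at this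
      · linarith [h.2.2]
    · have τ0 : 0 ≤ Real.log κ / Real.log (lo n) := div_nonneg lk (Real.log_pos (lo1 n)).le
      have k1 : ∀ (q : ℝ) (l : ℕ), lo n ≤ q → κ ^ l ≤ (q ^ l) ^ (Real.log κ / Real.log (lo n)) := by
        intro q l hq
        have l0 : 0 < lo n := by linarith [lo1 n]
        rw [← Real.rpow_pow_comm (by linarith)]
        gcongr
        refine le_trans (le_of_eq ?_) (Real.rpow_le_rpow l0.le hq τ0)
        rw [Real.rpow_def_of_pos l0, mul_div_cancel₀ _ (Real.log_pos (lo1 n)).ne',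
          Real.exp_log (by linarith)]
      refine le_trans ?_ (mul_le_mul_of_nonneg_right (Real.rpow_le_rpow
        (prod_nonneg fun q _ => by positivity) (hE u hu) τ0) (prod_nonneg fun i _ => by
          split_ifs; exacts [zero_le_one, g0 _ (m1 i) _ _, le_rfl]))
      rw [← Real.finsetProd_rpow _ _ fun q _ => by positivity,
        ← prod_filter_mul_prod_filter_not P fun q : ℕ => (q : ℝ) ≤ y ^ δ,
        ← prod_filter_mul_prod_filter_not P (fun q : ℕ => (q : ℝ) ≤ y ^ δ), mul_right_comm,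
        ← hP', ← prod_coe_sort P', ← prod_coe_sort P', ← prod_mul_distrib]
      refine mul_le_mul (prod_le_prod (fun i _ => g0 _ (m1 i) _ _) fun i _ => ?_)
        (prod_le_prod (fun q hq => g0 _ (mem_filter.1 hq).1 _ _) fun q hq => ?_)
        (prod_nonneg fun q hq => g0 _ (mem_filter.1 hq).1 _ _)
        (prod_nonneg fun i _ => mul_nonneg (by positivity) (by
          split_ifs; exacts [zero_le_one, g0 _ (m1 i) _ _, le_rfl]))
      · by_cases h0 : π i = 0
        · rw [if_pos h0, mul_one]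
          rcases a1 i with h | h
          · rw [← h, h0, pow_zero, Real.one_rpow]
            exact g1 _ (m1 i) u
          · refine le_trans ?_ (k1 _ _ h.2.2.le)
            rw [h.2.1, pow_one]
            exact gκ _ (m1 i) u
        · have h : π i = lev u i.1 := (a1 i).resolve_right fun h => h0 h.1
          have := hlev u hu _ (m1 i)
          rw [if_neg h0, h, if_pos ⟨this.1.resolve_left (h ▸ h0), this.2⟩]
          exact le_mul_of_one_le_left (g0 _ (m1 i) _ _)
            (Real.one_le_rpow (one_le_pow₀ (q1 _ (m1 i))) τ0)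
      · obtain ⟨h1, h2⟩ := mem_filter.1 hq
        exact (hbig u hu q h1 (not_le.1 h2)).trans
          (k1 _ _ ((loz 0 n n.zero_le).trans (lo0.le.trans (not_le.1 h2).le)))
  have all : ∑ u ∈ V, ∏ q ∈ P, g q (lev u q) u ≤ K₂ * Real.exp G * A * B * M * 2 := by
    rw [← sum_fiberwise_of_maps_to (g := fun u => Nat.find (ex u))
      fun u hu => mem_image_of_mem _ hu]
    refine (sum_le_sum fun n _ => one n).trans ?_
    rw [← mul_sum]
    gcongr
    exact (summable_geometric_two.sum_le_tsum _ fun n _ => by positivity).trans_eq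
      tsum_geometric_two
  have r0 : 0 ≤ y ^ (-(η * θ / 4)) := by positivity
  have r1 := mul_nonneg AB M0
  have r2 := mul_nonneg AB r0
  have r3 := mul_nonneg K₁0 r1
  have r4 := mul_nonneg (show 0 ≤ K₂ * Real.exp G by positivity) r2
  nlinarith

end Pool.Agent.Lib.MP_9177b7_ag.J
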