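import Pool.Agent.Lib.MP_9177b7_ag.J.DefsA
import Pool.Agent.Lib.MP_164d34_nt.Mean1

/-! One sided Mertens estimate for the quadratic character of an imaginary quadratic field. -/

open Finset ArithmeticFunction

noncomputable section

namespace Pool.Agent.Lib.MP_9177b7_ag.J

namespace Char

open ArithmeticFunction.vonMangoldt Complex in
lemma lam_le : ∃ C : ℝ, ∀ x ∈ Set.Ioc (1 : ℝ) 2, Summable (fun n : ℕ => vonMangoldt n / (n : ℝ) ^ x) ∧
    ∑' n : ℕ, vonMangoldt n / (n : ℝ) ^ x ≤ 1 / (x - 1) + C := by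
  have ha : IsUnit (1 : ZMod 1) := isUnit_one
  have hr : ∀ n, residueClass (1 : ZMod 1) n = vonMangoldt n := fun n => by
    simp [residueClass, Set.indicator_apply, Subsingleton.elim (n : ZMod 1) 1]
  have H {x : ℝ} (hx : 1 < x) : ∑' n, residueClass (1 : ZMod 1) n / (n : ℝ) ^ x =
      (LFunctionResidueClassAux (1 : ZMod 1) x).re + ((1 : ℕ).totient : ℝ)⁻¹ / (x - 1) := by
    refine ofReal_injective ?_
    simp only [ofReal_tsum, ofReal_div, ofReal_cpow (Nat.cast_nonneg _), ofReal_natCast,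
      ofReal_add, ofReal_inv, ofReal_sub, ofReal_one]
    simp_rw [← LFunctionResidueClassAux_real ha hx,
      eqOn_LFunctionResidueClassAux ha <| Set.mem_ofPred.mpr (ofReal_re x ▸ hx), sub_add_cancel,
      LSeries, LSeries.term]
    refine tsum_congr fun n ↦ ?_
    split_ifs with hn
    · simp only [hn, residueClass_apply_zero, ofReal_zero, zero_div]
    · rfl
  have : ContinuousOn (fun x : ℝ ↦ (LFunctionResidueClassAux (1 : ZMod 1) x).re) (Set.Icc 1 2) :=
    continuous_re.continuousOn.comp (t := Set.univ) (continuousOn_LFunctionResidueClassAux _)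
      (fun ⦃x⦄ a ↦ trivial) |>.comp continuous_ofReal.continuousOn fun x hx ↦ by
        simpa only [Set.mem_ofPred_eq, ofReal_re] using hx.1
  obtain ⟨C, hC⟩ := bddAbove_def.mp <| IsCompact.bddAbove_image isCompact_Icc this
  refine ⟨C, fun x hx => ⟨?_, ?_⟩⟩
  · simpa only [hr] using LSeries.summable_real_of_abscissaOfAbsConv_lt <|
      (abscissaOfAbsConv_residueClass_le_one (1 : ZMod 1)).trans_lt <| mod_cast hx.1
  · have h1 := H hx.1
    have h2 := hC _ (Set.mem_image_of_mem _ (Set.mem_Icc_of_Ioc hx))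
    simp only [hr, Nat.totient_one, Nat.cast_one, inv_one] at h1
    linarith

lemma euler_le {N : ℕ} [NeZero N] (χ : DirichletCharacter ℂ N) (hχ : χ ≠ 1) (x : ℕ → ℝ)
    (hx : ∀ n : ℕ, χ n = x n) : ∃ C : ℝ, ∀ s ∈ Set.Ioc (1 : ℝ) 2,
      Summable (fun p : Nat.Primes => x p * ((p : ℕ) : ℝ) ^ (-s)) ∧
      ∑' p : Nat.Primes, x p * ((p : ℕ) : ℝ) ^ (-s) ≤ C := by
  have hc : Continuous fun s : ℝ => ‖χ.LFunction s‖ :=
    ((DirichletCharacter.differentiable_LFunction hχ).continuous.comp Complex.continuous_ofReal).norm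
  obtain ⟨C, hC⟩ := bddAbove_def.mp <| IsCompact.bddAbove_image (isCompact_Icc (a := (1 : ℝ))
    (b := 2)) hc.continuousOn
  have h1 : ∀ n, |x n| ≤ 1 := fun n => by
    have := χ.norm_le_one (n : ZMod N)
    rwa [hx, Complex.norm_real, Real.norm_eq_abs] at this
  refine ⟨C, fun s hs => ?_⟩
  have hs' : 1 < (s : ℂ).re := by simpa using hs.1
  have h2 : ∀ p : Nat.Primes, |x p * ((p : ℕ) : ℝ) ^ (-s)| ≤ ((p : ℕ) : ℝ) ^ (-s) := fun p => by
    rw [abs_mul, abs_of_nonneg (by positivity : 0 ≤ ((p : ℕ) : ℝ) ^ (-s))]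
    exact mul_le_of_le_one_left (by positivity) (h1 _)
  have h3 : ∀ p : Nat.Primes, 0 < 1 - x p * ((p : ℕ) : ℝ) ^ (-s) := fun p => by
    have := Real.rpow_lt_one_of_one_lt_of_neg (x := ((p : ℕ) : ℝ)) (z := -s)
      (mod_cast p.prop.one_lt) (by linarith [hs.1])
    linarith [(abs_le.1 (h2 p)).2]
  have h4 : Summable (fun p : Nat.Primes => x p * ((p : ℕ) : ℝ) ^ (-s)) :=
    Summable.of_norm_bounded (Nat.Primes.summable_rpow.2 (by linarith [hs.1])) h2
  have h5 : Summable (fun p : Nat.Primes => -Real.log (1 - x p * ((p : ℕ) : ℝ) ^ (-s))) := by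
    simpa only [sub_eq_add_neg] using (Real.summable_log_one_add_of_summable h4.neg).neg
  have h6 := χ.LSeries_eulerProduct_exp_log hs'
  have h7 : ∀ p : Nat.Primes, -Complex.log (1 - χ p * (p : ℂ) ^ (-(s : ℂ))) =
      ((-Real.log (1 - x p * ((p : ℕ) : ℝ) ^ (-s)) : ℝ) : ℂ) := fun p => by
    rw [Complex.ofReal_neg, Complex.ofReal_log (h3 p).le, hx]
    push_cast [Complex.ofReal_cpow (Nat.cast_nonneg _)]
    rfl
  rw [tsum_congr h7, ← Complex.ofReal_tsum, ← χ.LFunction_eq_LSeries hs'] at h6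
  have h8 := hC _ (Set.mem_image_of_mem _ (Set.mem_Icc_of_Ioc hs))
  simp only [← h6, Complex.norm_exp_ofReal] at h8
  refine ⟨h4, (h4.tsum_le_tsum (fun p => ?_) h5).trans
    (le_trans (le_add_of_nonneg_right zero_le_one) ((Real.add_one_le_exp _).trans h8))⟩
  linarith [Real.log_le_sub_one_of_pos (h3 p)]

lemma mertens_le {N : ℕ} [NeZero N] (χ : DirichletCharacter ℂ N) (hχ : χ ≠ 1) (x : ℕ → ℝ)
    (hx : ∀ n : ℕ, χ n = x n) :
    ∃ C : ℝ, ∀ z : ℕ, ∑ p ∈ (range z).filter Nat.Prime, x p / p ≤ C := by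
  obtain ⟨C1, h1⟩ := euler_le χ hχ x hx
  obtain ⟨C2, h2⟩ := lam_le
  have hb : ∀ n, |x n| ≤ 1 := fun n => by
    have := χ.norm_le_one (n : ZMod N)
    rwa [hx, Complex.norm_real, Real.norm_eq_abs] at this
  refine ⟨max 3 (C1 + 1 + |C2| + 7), fun z => ?_⟩
  rcases lt_or_ge z 3 with hz | hz
  · refine le_trans ?_ (le_max_left _ _)
    calc _ ≤ ∑ p ∈ (range z).filter Nat.Prime, (1 : ℝ) := sum_le_sum fun p hp => by
          have : (1 : ℝ) ≤ p := mod_cast (mem_filter.1 hp).2.one_le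
          rw [div_le_one (by linarith)]; linarith [(abs_le.1 (hb p)).2]
      _ ≤ 3 := by
          have := card_filter_le (range z) Nat.Prime
          rw [card_range] at this
          simp only [sum_const, nsmul_eq_mul, mul_one]; exact_mod_cast this.trans hz.le
  refine le_trans ?_ (le_max_right _ _)
  have hz' : (3 : ℝ) ≤ z := mod_cast hz
  have hL : 1 ≤ Real.log z := by
    rw [Real.le_log_iff_exp_le (by linarith)]; linarith [Real.exp_one_lt_d9]
  set L := Real.log z with hLdef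
  have hL0 : 0 < L := by linarith
  have hs : 1 + 1 / L ∈ Set.Ioc (1 : ℝ) 2 :=
    ⟨by have := one_div_pos.2 hL0; linarith, by have := (div_le_one hL0).2 hL; linarith⟩
  obtain ⟨a1, a2⟩ := h1 _ hs
  obtain ⟨b1, b2⟩ := h2 _ hs
  set s := 1 + 1 / L with hsdef
  let a : ℕ → ℝ := Set.indicator {p | p.Prime} fun n => x n * (n : ℝ) ^ (-s)
  have a3 : Summable a := summable_subtype_iff_indicator.1 a1
  have a4 : ∑' n, a n ≤ C1 := by rw [← _root_.tsum_subtype]; exact a2
  have b0 : ∀ n : ℕ, 0 ≤ 1 / L * (vonMangoldt n / (n : ℝ) ^ s) := fun n =>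
    mul_nonneg (by positivity) (div_nonneg vonMangoldt_nonneg (by positivity))
  have c1 : ∑ n ∈ range z, (a n + 1 / L * (vonMangoldt n / (n : ℝ) ^ s)) ≤ C1 + 1 + |C2| := by
    refine ((a3.add (b1.mul_left _)).sum_le_tsum _ fun n hn => ?_).trans ?_
    · have hn' : (z : ℝ) ≤ n := by simpa using hn
      by_cases hp : n.Prime
      · have e1 : a n = x n * (n : ℝ) ^ (-s) := Set.indicator_of_mem hp _
        have e2 : L ≤ Real.log n := Real.log_le_log (by linarith) hn'
        have e3 : 0 < (n : ℝ) ^ s := Real.rpow_pos_of_pos (by linarith) _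
        rw [e1, vonMangoldt_apply_prime hp, Real.rpow_neg (by linarith)]
        have e4 : x n * ((n : ℝ) ^ s)⁻¹ + 1 / L * (Real.log n / (n : ℝ) ^ s) =
          (x n * L + Real.log n) / (L * (n : ℝ) ^ s) := by field_simp
        rw [e4]
        exact div_nonneg (by nlinarith [(abs_le.1 (hb n)).1]) (by positivity)
      · have e1 : a n = 0 := Set.indicator_of_notMem hp _
        rw [e1, zero_add]; exact b0 n
    · rw [a3.tsum_add (b1.mul_left _), tsum_mul_left]
      have e1 : 1 / (s - 1) = L := by rw [hsdef]; simp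
      have e2 : 1 / L * ∑' n : ℕ, vonMangoldt n / (n : ℝ) ^ s ≤ 1 / L * (L + |C2| * L) :=
        mul_le_mul_of_nonneg_left (by nlinarith [le_abs_self C2, abs_nonneg C2]) (by positivity)
      have e3 : 1 / L * (L + |C2| * L) = 1 + |C2| := by field_simp
      linarith
  have c2 : 1 / L * ∑ n ∈ range z, vonMangoldt n / (n : ℝ) ≤ 7 := by
    have e1 : ∑ n ∈ range z, vonMangoldt n / (n : ℝ) ≤ ∑ n ∈ Ioc 0 z, vonMangoldt n / (n : ℝ) := by
      rw [← sum_filter_of_ne (p := fun n => n ≠ 0) (by rintro n - h rfl; simp at h)]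
      refine sum_le_sum_of_subset_of_nonneg (fun n hn => ?_) fun n _ _ =>
        div_nonneg vonMangoldt_nonneg (by positivity)
      simp only [mem_filter, mem_range, mem_Ioc] at hn ⊢; omega
    have e2 := (Pool.Agent.Lib.MP_164d34_nt.mn_mertens z).2
    rw [one_div, inv_mul_le_iff₀ hL0]; linarith
  rw [mul_sum] at c2
  refine le_trans ?_ (add_le_add c1 c2)
  rw [← sum_add_distrib, sum_filter]
  refine sum_le_sum fun n _ => ?_
  split_ifs with hp
  · have e1 : a n = x n * (n : ℝ) ^ (-s) := Set.indicator_of_mem hp _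
    have hn : (0 : ℝ) < n := mod_cast hp.pos
    have e2 : (n : ℝ) ^ (-s) = Real.exp (-(1 / L * Real.log n)) / n := by
      rw [Real.rpow_def_of_pos hn, hsdef, eq_div_iff hn.ne']
      nth_rw 2 [← Real.exp_log hn]
      rw [← Real.exp_add]; congr 1; ring
    have e3 := Real.add_one_le_exp (-(1 / L * Real.log n))
    have e4 : Real.exp (-(1 / L * Real.log n)) ≤ 1 := Real.exp_le_one_iff.2 (neg_nonpos.2
      (mul_nonneg (by positivity) (Real.log_natCast_nonneg n)))
    have e5 : x n / n ≤ x n * (n : ℝ) ^ (-s) + 1 / L * (Real.log n / n) := by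
      rw [e2, ← mul_div_assoc, ← mul_div_assoc, ← add_div]
      exact div_le_div_of_nonneg_right (by nlinarith [(abs_le.1 (hb n)).2]) hn.le
    rw [e1, vonMangoldt_apply_prime hp]
    have := b0 n
    rw [vonMangoldt_apply_prime hp] at this
    linarith
  · have e1 : a n = 0 := Set.indicator_of_notMem hp _
    have := b0 n
    have : 0 ≤ 1 / L * (vonMangoldt n / (n : ℝ)) :=
      mul_nonneg (by positivity) (div_nonneg vonMangoldt_nonneg (by positivity))
    rw [e1]; linarith

open NumberTheorySymbols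

lemma odd_val {D : ℤ} [NeZero (4 * D.natAbs)] {a : ZMod (4 * D.natAbs)} (h : IsUnit a) :
    Odd a.val := by
  have h1 := ZMod.val_coe_unit_coprime h.unit
  rw [IsUnit.unit_spec] at h1
  exact Nat.Coprime.odd_of_right (h1.coprime_dvd_right (Dvd.dvd.mul_right (by norm_num) _))

open Classical in
/-- the Jacobi symbol as a function of its lower argument -/
def kr (D : ℤ) [NeZero (4 * D.natAbs)] : DirichletCharacter ℂ (4 * D.natAbs) where
  toFun a := if IsUnit a then (J(D | a.val) : ℂ) else 0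
  map_one' := by
    have : Fact (1 < 4 * D.natAbs) := ⟨by have := NeZero.ne (4 * D.natAbs); omega⟩
    simp [ZMod.val_one]
  map_mul' a b := by
    by_cases ha : IsUnit a
    · by_cases hb : IsUnit b
      · have h1 := odd_val ha
        have h2 := odd_val hb
        rw [if_pos ha, if_pos hb, if_pos (ha.mul hb), ZMod.val_mul,
          ← jacobiSym.mod_right D (h1.mul h2), jacobiSym.mul_right' D h1.pos.ne' h2.pos.ne']
        push_cast; rfl
      · rw [if_neg hb, if_neg fun h => hb (isUnit_of_mul_isUnit_right h), mul_zero]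
    · rw [if_neg ha, if_neg fun h => ha (isUnit_of_mul_isUnit_left h), zero_mul]
  map_nonunit' a ha := if_neg ha

lemma kr_ne {D : ℤ} (hD : D < 0) [NeZero (4 * D.natAbs)] : kr D ≠ 1 := by
  intro h
  have h1 : kr D (-1) = 1 := by rw [h]; exact MulChar.one_apply isUnit_one.neg
  obtain ⟨b, hb⟩ : ∃ b, 4 * D.natAbs = b + 1 := Nat.exists_eq_succ_of_ne_zero (NeZero.ne _)
  have h2 : (-1 : ZMod (4 * D.natAbs)).val = b := by
    have : ((b : ℕ) : ZMod (4 * D.natAbs)) = -1 := by
      rw [eq_neg_iff_add_eq_zero, ← Nat.cast_succ, Nat.succ_eq_add_one, ← hb, ZMod.natCast_self]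
    rw [← this, ZMod.val_cast_of_lt (by omega)]
  have h3 : J(D | b) = 1 := by
    have : (J(D | (-1 : ZMod (4 * D.natAbs)).val) : ℂ) = 1 := (if_pos isUnit_one.neg).symm.trans h1
    rw [h2] at this; exact_mod_cast this
  have h4 : Odd b := Nat.odd_iff.2 (by omega)
  have h5 : J(2 ^ 2 * D | b) = J(-1 | b) := by
    refine jacobiSym.mod_left' (Int.emod_emod_of_dvd _ dvd_rfl ▸ ?_)
    rw [Int.emod_emod_of_dvd _ dvd_rfl]
    exact Int.ModEq.symm (Int.modEq_iff_dvd.2 ⟨-1, by omega⟩)
  rw [jacobiSym.mul_left, h3, jacobiSym.sq_one' (by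
    rw [Int.gcd_eq_natAbs]; simpa using h4), jacobiSym.at_neg_one h4,
    ZMod.χ₄_nat_three_mod_four (by omega)] at h5
  omega

lemma chi_eq (k : Fld) {q : ℕ} (hq : q.Prime) (h2 : q ≠ 2) : k.chi q = J(k.D | q) := by
  have : Fact q.Prime := ⟨hq⟩
  have h3 : (2 : ZMod q) ≠ 0 := by
    have : ((2 : ℕ) : ZMod q) ≠ 0 := by
      rw [Ne, ZMod.natCast_eq_zero_iff, Nat.prime_dvd_prime_iff_eq hq Nat.prime_two]; exact h2
    simpa using this
  have h4 := legendreSym.card_sqrts q h2 k.D
  rw [← jacobiSym.legendreSym.to_jacobiSym, Fld.chi, sub_eq_iff_eq_add, ← h4, Nat.cast_inj]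
  refine card_bij (fun r _ => 2 * (r : ZMod q) - k.t) ?_ ?_ ?_
  · intro r hr
    have := (ZMod.intCast_zmod_eq_zero_iff_dvd _ q).2 (mem_filter.1 hr).2
    push_cast at this
    simp only [Set.mem_toFinset, Set.mem_ofPred_eq, Fld.D]
    push_cast
    linear_combination 4 * this
  · intro r hr r' hr' h
    have h5 : (r : ZMod q) = r' := mul_left_cancel₀ h3 (by linear_combination h)
    rwa [ZMod.natCast_eq_natCast_iff', Nat.mod_eq_of_lt (by simpa using (mem_filter.1 hr).1),
      Nat.mod_eq_of_lt (by simpa using (mem_filter.1 hr').1)] at h5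
  · intro y hy
    simp only [Set.mem_toFinset, Set.mem_ofPred_eq, Fld.D] at hy
    push_cast at hy
    have h5 : 2 * ((((y + k.t) / 2).val : ℕ) : ZMod q) - k.t = y := by
      rw [ZMod.natCast_zmod_val]; field_simp; ring
    refine ⟨((y + k.t) / 2).val, mem_filter.2 ⟨mem_range.2 (ZMod.val_lt _), ?_⟩, h5⟩
    rw [← ZMod.intCast_zmod_eq_zero_iff_dvd]
    push_cast
    refine mul_left_cancel₀ (mul_ne_zero h3 h3) ?_
    rw [← h5] at hy
    linear_combination hy

end Char

open Pool.Agent.Lib.MP_9177b7_ag.J.Char NumberTheorySymbols in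
theorem char_stmt : BasicStmt → RepStmt → CharStmt := by
  intro _ _ k
  have hD : k.D < 0 := k.neg
  have : NeZero (4 * k.D.natAbs) := ⟨by omega⟩
  classical
  obtain ⟨C, hC⟩ := mertens_le (kr k.D) (kr_ne hD) (fun n : ℕ =>
    if IsUnit (n : ZMod (4 * k.D.natAbs)) then (J(k.D | (n : ZMod (4 * k.D.natAbs)).val) : ℝ) else 0)
    (fun n => by
      show (if _ then _ else _) = _
      split_ifs <;> simp)
  refine ⟨C + 1, fun z => le_trans ?_ (add_le_add (hC z) (?_ :
    ∑ q ∈ (range z).filter Nat.Prime, (if q = 2 then (1 : ℝ) else 0) ≤ 1))⟩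
  · rw [← sum_add_distrib]
    refine sum_le_sum fun q hq => ?_
    have hp := (mem_filter.1 hq).2
    simp only [ZMod.isUnit_prime_iff_not_dvd hp]
    by_cases h2 : q = 2
    · subst h2
      rw [if_neg (by omega), if_pos rfl]
      have h1 : k.chi 2 ≤ 1 := by
        have := card_filter_le (range 2) fun r : ℕ => ((2 : ℕ) : ℤ) ∣ (r : ℤ) ^ 2 - k.t * r + k.n
        rw [card_range] at this
        unfold Fld.chi; omega
      have h3 : (k.chi 2 : ℝ) ≤ 1 := mod_cast h1
      push_cast; linarith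
    rw [if_neg h2, add_zero, chi_eq k hp h2, ZMod.val_natCast,
      ← jacobiSym.mod_right _ (hp.odd_of_ne_two h2)]
    split_ifs with h3
    · have h4 : q ∣ k.D.natAbs := ((Nat.Prime.dvd_mul hp).1 h3).resolve_left fun h =>
        h2 ((Nat.prime_dvd_prime_iff_eq hp Nat.prime_two).1
          (hp.dvd_of_dvd_pow (show q ∣ 2 ^ 2 from h)))
      have : NeZero q := ⟨hp.ne_zero⟩
      rw [jacobiSym.eq_zero_iff_not_coprime.2 (by
        rw [Int.gcd_eq_natAbs, Int.natAbs_natCast, Nat.gcd_eq_right h4]; exact hp.ne_one)]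
      simp
    · exact le_rfl
  · rw [sum_ite_eq']; split_ifs <;> norm_num

end Pool.Agent.Lib.MP_9177b7_ag.J
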