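import Pool.Agent.Lib.MP_9177b7_ag.J.Coll1

/-!
The collision estimate.
-/

noncomputable section

namespace Pool.Agent.Lib.MP_9177b7_ag.J

namespace Coll

open QuadraticAlgebra Fld

variable {k : Fld} {F : ℕ+}

lemma card_pos' : (0 : ℝ) < Fintype.card (k.SF F) := by exact_mod_cast Fintype.card_pos

lemma avg_mono {φ ψ : k.SF F → ℝ} (h : ∀ s, φ s ≤ ψ s) : k.avg F φ ≤ k.avg F ψ :=
  div_le_div_of_nonneg_right (Finset.sum_le_sum fun s _ => h s) card_pos'.le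

lemma avg_add (φ ψ : k.SF F → ℝ) : k.avg F (fun s => φ s + ψ s) = k.avg F φ + k.avg F ψ := by
  simp only [avg, Finset.sum_add_distrib, add_div]

lemma avg_sum {ι : Type} (I : Finset ι) (φ : ι → k.SF F → ℝ) :
    k.avg F (fun s => ∑ i ∈ I, φ i s) = ∑ i ∈ I, k.avg F (φ i) := by
  simp only [avg, ← Finset.sum_div]
  rw [Finset.sum_comm]

lemma avg_mul (φ : k.SF F → ℝ) (a : ℝ) : k.avg F (fun s => φ s * a) = k.avg F φ * a := by
  simp only [avg, ← Finset.sum_mul]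
  ring

lemma avg_const (a : ℝ) : k.avg F (fun _ => a) = a := by
  simp only [avg, Finset.sum_const, Finset.card_univ, nsmul_eq_mul]
  exact mul_div_cancel_left₀ _ card_pos'.ne'

lemma pr_mono {P Q : k.SF F → Prop} (h : ∀ s, P s → Q s) : k.pr F P ≤ k.pr F Q :=
  avg_mono fun s => by
    by_cases hP : P s
    · simp [hP, h s hP]
    · rw [if_neg hP]; positivity

lemma pr_le_one (P : k.SF F → Prop) : k.pr F P ≤ 1 :=
  (avg_mono fun s => by split_ifs <;> simp).trans (avg_const 1).le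

lemma pr_zero {P : k.SF F → Prop} (h : ∀ s, ¬ P s) : k.pr F P ≤ 0 :=
  (avg_mono fun s => by rw [if_neg (h s)]).trans (avg_const 0).le

lemma pr_or (P Q : k.SF F → Prop) : k.pr F (fun s => P s ∨ Q s) ≤ k.pr F P + k.pr F Q := by
  rw [pr, pr, pr, ← avg_add]
  refine avg_mono fun s => ?_
  by_cases hP : P s <;> by_cases hQ : Q s <;> simp [hP, hQ]

lemma pr_exists {ι : Type} (I : Finset ι) (Q : ι → k.SF F → Prop) :
    k.pr F (fun s => ∃ i ∈ I, Q i s) ≤ ∑ i ∈ I, k.pr F (Q i) := by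
  classical
  simp only [pr]
  rw [← avg_sum]
  refine avg_mono fun s => ?_
  split_ifs with h
  · obtain ⟨i, hi, hQ⟩ := h
    refine le_trans ?_ (Finset.single_le_sum (fun j _ => by positivity) hi)
    rw [if_pos hQ]
  · positivity

lemma avg_pr_le {ι : Type} (T : Finset ι) (Q : ι → k.SF F → k.SF F → Prop) {a w : ℝ} (ha : 0 ≤ a)
    (h1 : ∀ p s, k.pr F (Q p s) ≤ a) (h2 : ∀ p ∈ T, k.pr F (fun s => ∃ s', Q p s s') ≤ w) :
    k.avg F (fun s => k.pr F fun s' => ∃ p ∈ T, Q p s s') ≤ T.card * w * a := by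
  classical
  refine (avg_mono (ψ := fun s => ∑ p ∈ T, (if ∃ s', Q p s s' then 1 else 0) * a) fun s =>
    (pr_exists T _).trans (Finset.sum_le_sum fun p _ => ?_)).trans ?_
  · split_ifs with h
    · rw [one_mul]; exact h1 p s
    · rw [zero_mul]; exact pr_zero fun s' hs' => h ⟨s', hs'⟩
  · rw [avg_sum, mul_assoc, ← nsmul_eq_mul]
    refine Finset.sum_le_card_nsmul _ _ _ fun p hp => ?_
    rw [avg_mul]
    refine mul_le_mul_of_nonneg_right (le_trans (le_of_eq ?_) (h2 p hp)) ha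
    rw [pr]
    congr 1
    funext s
    congr

lemma pr_coset (hP : PsiStmt) {c : ℕ} (hc : c ∣ F) {P : k.SF F → Prop}
    (h : ∀ s s₀, P s → P s₀ → ∃ z : ℤ, (Fld.lift s * star (Fld.lift s₀)).im = c * z) :
    k.pr F P ≤ 1 / (Nat.totient c : ℝ) := by
  by_cases h0 : ∃ s₀, P s₀
  · obtain ⟨s₀, hs₀⟩ := h0
    refine (pr_mono fun s hs => h s s₀ hs hs₀).trans ?_
    rw [(hP k).2.1 F c s₀ hc]
    exact one_div_le_one_div_of_le
      (by exact_mod_cast Nat.totient_pos.2 (Nat.pos_of_dvd_of_pos hc F.pos)) ((hP k).2.2.1 c)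
  · exact (pr_zero fun s hs => h0 ⟨s, hs⟩).trans (by positivity)

lemma exists_pairs {X Y : Type} {S : Set Y} (W : Y → Set X) {a b : ℝ} (hS : S.Finite)
    (ha : (S.ncard : ℝ) ≤ a) (hb : 0 ≤ b) (hW : ∀ v ∈ S, (W v).Finite ∧ ((W v).ncard : ℝ) ≤ b) :
    ∃ T : Finset (X × Y), (T.card : ℝ) ≤ a * b ∧ ∀ v ∈ S, ∀ u ∈ W v, (u, v) ∈ T := by
  classical
  refine ⟨hS.toFinset.biUnion fun v =>
    (if h : (W v).Finite then h.toFinset else ∅).image (·, v), ?_, fun v hv u hu => ?_⟩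
  · refine (Nat.cast_le.2 Finset.card_biUnion_le).trans ?_
    rw [Nat.cast_sum]
    refine (Finset.sum_le_card_nsmul _ _ b fun v hv => ?_).trans ?_
    · have h := hW v (hS.mem_toFinset.1 hv)
      refine (Nat.cast_le.2 Finset.card_image_le).trans ?_
      rw [dif_pos h.1, ← Set.ncard_eq_toFinset_card _ h.1]
      exact h.2
    · rw [nsmul_eq_mul, ← Set.ncard_eq_toFinset_card _ hS]
      exact mul_le_mul_of_nonneg_right ha hb
  · refine Finset.mem_biUnion.2 ⟨v, hS.mem_toFinset.2 hv, Finset.mem_image.2 ⟨u, ?_, rfl⟩⟩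
    rw [dif_pos (hW v hv).1]
    exact (hW v hv).1.mem_toFinset.2 hu

lemma cnt_norm (hR : RepStmt) (k : Fld) {ε : ℝ} (hε : 0 < ε) : ∃ C : ℝ, 0 < C ∧
    ∀ (q : ℚ) (Y : ℝ), 1 ≤ Y → (q : ℝ) ≤ Y → {U | U ∈ k.O ∧ norm U = q}.Finite ∧
      ({U | U ∈ k.O ∧ norm U = q}.ncard : ℝ) ≤ C * Y ^ ε := by
  obtain ⟨C, hC⟩ := (hR k).2.1 ε hε
  refine ⟨max C 1, by positivity, fun q Y hY hq => ?_⟩
  have hY1 : 1 ≤ Y ^ ε := Real.one_le_rpow hY hε.le
  rcases Set.eq_empty_or_nonempty {U | U ∈ k.O ∧ norm U = q} with h | ⟨U, hU, hUq⟩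
  · rw [h]
    exact ⟨Set.finite_empty, by rw [Set.ncard_empty, Nat.cast_zero]; positivity⟩
  obtain ⟨j, hj⟩ := (hR k).2.2 k.O 1 lat_O adm_O U hU
  rw [hUq] at hj
  subst hj
  rcases Nat.eq_zero_or_pos j with rfl | hj0
  · have hs : {U | U ∈ k.O ∧ norm U = ((0 : ℕ) : ℚ) * 1} ⊆ {0} := fun V hV =>
      norm_eq_zero_iff_eq_zero.1 (by simpa using hV.2)
    refine ⟨(Set.finite_singleton _).subset hs, ?_⟩
    have := Set.ncard_le_ncard hs
    rw [Set.ncard_singleton] at this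
    exact (Nat.cast_le.2 this).trans (by
      rw [Nat.cast_one]; exact one_le_mul_of_one_le_of_one_le (le_max_right _ _) hY1)
  · obtain ⟨h1, h2⟩ := hC k.O 1 j lat_O adm_O hj0
    refine ⟨h1, h2.trans ((mul_le_mul_of_nonneg_right (le_max_left C 1) (by positivity)).trans
      (mul_le_mul_of_nonneg_left (Real.rpow_le_rpow (by positivity) ?_ hε.le) (by positivity)))⟩
    simpa using hq

/-- `g` generates the ideal of the integers that make both components integral. -/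
def Exact (A : Submodule ℤ k.K) (g : ℕ) (α β : k.K) : Prop :=
  ∀ m : ℤ, (m • (del k * α) ∈ k.O ∧ m • (del k * β) ∈ anti A) ↔ (g : ℤ) ∣ m

lemma exists_exact (A : Submodule ℤ k.K) (α β : k.K) : ∃ g, Exact A g α β := by
  let I : Ideal ℤ := k.O.comap (LinearMap.toSpanSingleton ℤ k.K (del k * α)) ⊓
    (anti A).comap (LinearMap.toSpanSingleton ℤ k.K (del k * β))
  refine ⟨(Submodule.IsPrincipal.generator I).natAbs, fun m => ?_⟩
  rw [Int.natAbs_dvd, ← Submodule.IsPrincipal.mem_iff_generator_dvd]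
  rfl

lemma norm_scale (g : ℕ) (α : k.K) :
    norm ((g : k.K) * del k * α) = (g : ℚ) ^ 2 * (-k.D) * norm α := by
  rw [map_mul, map_mul, QuadraticAlgebra.norm_natCast, norm_del]

lemma sum_div_totient {C φ : ℝ} {f : ℕ}
    (h : ∀ g ∈ f.divisors, (g : ℝ) ≤ C * φ * Nat.totient g) :
    ∑ g ∈ f.divisors, (g : ℝ) ^ 2 * (1 / (Nat.totient g : ℝ)) ≤ (C * φ) ^ 2 * f := by
  conv_rhs => rw [← Nat.sum_totient f, Nat.cast_sum, Finset.mul_sum]
  refine Finset.sum_le_sum fun g hg => ?_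
  have h0 : (0 : ℝ) < Nat.totient g := by
    exact_mod_cast Nat.totient_pos.2 (Nat.pos_of_mem_divisors hg)
  rw [mul_one_div, div_le_iff₀ h0, mul_assoc, ← sq, ← mul_pow]
  exact pow_le_pow_left₀ (Nat.cast_nonneg g) (h g hg) 2

lemma final_ineq {C₁ C₂ C₃ Z d R φ x y f : ℝ} (h1 : 0 ≤ C₁) (h2 : 0 ≤ C₂) (h3 : 0 ≤ C₃)
    (hZ : 0 ≤ Z) (hd : 0 ≤ d * R) (hφ : 1 ≤ φ) (hx : 0 ≤ x) (hy : 0 ≤ y) (hyf : y * f = 1) :
    C₂ * (φ ^ 2 * Z) * 1 * (C₃ * φ * y) +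
      C₁ * (d * R) * x * (2 * (C₂ * (φ ^ 2 * Z))) * (C₃ * φ * y) * ((C₃ * φ) ^ 2 * f) ≤
      C₃ * C₂ * Z * (1 + 2 * C₁ * d * R * C₃ ^ 2) * φ ^ 5 * (x + y) := by
  have hφ0 : 0 ≤ φ := by linarith
  have e1 : φ ^ 3 * y ≤ φ ^ 5 * y :=
    mul_le_mul_of_nonneg_right (pow_le_pow_right₀ hφ (by norm_num)) hy
  have e2 : 0 ≤ φ ^ 5 * x := by positivity
  have e3 : 0 ≤ 2 * C₁ * (d * R) * C₃ ^ 2 * φ ^ 5 * y := by positivity
  calc _ = C₃ * C₂ * Z * (φ ^ 3 * y + 2 * C₁ * d * R * C₃ ^ 2 * φ ^ 5 * x) := by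
        linear_combination (C₃ * C₂ * Z * (2 * C₁ * d * R * C₃ ^ 2 * φ ^ 5 * x)) * hyf
    _ ≤ C₃ * C₂ * Z * ((1 + 2 * C₁ * d * R * C₃ ^ 2) * φ ^ 5 * (x + y)) :=
        mul_le_mul_of_nonneg_left (by linear_combination e1 + e2 + e3) (by positivity)
    _ = _ := by ring

end Coll

open Coll QuadraticAlgebra Fld in
theorem coll : BasicStmt → PsiStmt → RepStmt → CollStmt := by
  intro hB hP hR k l _ r hr _ R ε hε
  obtain ⟨-, -, -, -, -, -, hnf, hact, -, -⟩ := hB k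
  have hε' : 0 < ε / 5 := by positivity
  obtain ⟨C₁, hC₁, hpack⟩ := (hR k).1
  obtain ⟨C₂, hC₂, hcnt⟩ := cnt_norm hR k hε'
  obtain ⟨C₃, htot⟩ := (hP k).2.2.2 (ε / 5) hε'
  have hC₃ : 0 ≤ C₃ := by
    have := htot 1 one_pos
    simp at this
    linarith
  obtain ⟨d, hd⟩ : ∃ d : ℝ, d = ((-k.D : ℚ) : ℝ) := ⟨_, rfl⟩
  have hd1 : 1 ≤ d := by
    have : (1 : ℤ) ≤ -k.D := by have := k.neg; unfold D; omega
    rw [hd]; exact_mod_cast this
  obtain ⟨R₁, hR₁, hR1⟩ : ∃ R₁ : ℝ, R ≤ R₁ ∧ 1 ≤ R₁ := ⟨max R 1, le_max_left _ _, le_max_right _ _⟩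
  obtain ⟨Z, hZ⟩ : ∃ Z : ℝ, Z = (2 * d * R₁) ^ (ε / 5) := ⟨_, rfl⟩
  have hZ0 : 0 ≤ Z := by rw [hZ]; positivity
  refine ⟨C₃ * C₂ * Z * (1 + 2 * C₁ * d * R₁ * C₃ ^ 2), fun F L c f κ _ hL hadm hN hcond => ?_⟩
  obtain ⟨f', hf0, hcond', hA, hlam⟩ := hnf L c hL
  obtain rfl : f' = f :=
    Nat.dvd_antisymm ((hcond' f).1 ((hcond f).2 dvd_rfl)) ((hcond f').1 ((hcond' f').2 dvd_rfl))
  obtain ⟨lam, -, hLm, hgen⟩ := hlam f' hf0
  have hfF : f' ∣ F := (hcond F).1 hadm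
  obtain ⟨-, hact⟩ := hact F L c hL hadm
  have hmem : ∀ s : k.SF F, ∀ x, x ∈ act s L ↔
      ∃ (a : ℤ), ∃ y ∈ k.O * L, x = a * (Fld.lift s * lam) + f' * y := fun s =>
    (hact s).2.2.2.2.2.2.2.2 f' lam hLm hfF
  have hsub : ∀ s : k.SF F, ∀ x ∈ act s L, x ∈ k.O * L := fun s x hx =>
    (hact s).2.2.1 ▸ le_A hx
  have hOA : ∀ u ∈ k.O, ∀ x ∈ k.O * L, u * x ∈ k.O * L := fun u hu x hx => mul_mem_A hu hx
  have hgen1 : ∀ s : k.SF F, Fld.lift s * lam ∈ act s L := fun s =>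
    (hmem s _).2 ⟨1, 0, zero_mem _, by simp⟩
  have hfA : ∀ {α β : k.K} {s s' : k.SF F}, (act s L).map (k.lin α β) = act s' L →
      (∀ y ∈ k.O * L, k.lin α β (f' * y) ∈ k.O * L) ∧ k.lin α β (Fld.lift s * lam) ∈ k.O * L :=
    fun {α β s s'} h => ⟨fun y hy => hsub s' _ (h ▸ Submodule.mem_map_of_mem
      ((hmem s _).2 ⟨0, y, hy, by simp⟩)), hsub s' _ (h ▸ Submodule.mem_map_of_mem (hgen1 s))⟩
  have ha : ∀ M : Submodule ℤ k.K, k.pr F (fun s' => M = act s' L) ≤ 1 / (Nat.totient f' : ℝ) :=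
    fun M => pr_coset hP hfF fun s s₀ hs hs₀ => by
      obtain ⟨a, y, hy, h⟩ := (hmem s₀ _).1 (hs₀ ▸ hs ▸ hgen1 s)
      exact same_gen hA hOA hf0 hgen (lift_mem_O s) (lift_mem_O s₀) hy h
  have hf1 : (1 : ℝ) ≤ f' := by exact_mod_cast hf0
  obtain ⟨φ, hφ⟩ : ∃ φ : ℝ, φ = (f' : ℝ) ^ (ε / 5) := ⟨_, rfl⟩
  have hφ1 : 1 ≤ φ := by rw [hφ]; exact Real.one_le_rpow hf1 hε'.le
  have hφ5 : (f' : ℝ) ^ ε = φ ^ 5 := by
    rw [hφ, ← Real.rpow_natCast, ← Real.rpow_mul (by positivity)]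
    congr 1
    push_cast
    ring
  have hY : ((f' : ℝ) ^ 2 * (2 * d * R₁)) ^ (ε / 5) = φ ^ 2 * Z := by
    rw [Real.mul_rpow (by positivity) (by positivity), hZ, hφ, sq, sq,
      Real.mul_rpow (by positivity) (by positivity)]
  have hdR : 1 ≤ d * R₁ := one_le_mul_of_one_le_of_one_le hd1 hR1
  have hY1 : 1 ≤ (f' : ℝ) ^ 2 * (2 * d * R₁) :=
    one_le_mul_of_one_le_of_one_le (one_le_pow₀ hf1) (by linarith)
  have hl0 : (0 : ℝ) < (l : ℝ) ^ κ := by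
    have : (0 : ℝ) < l := by exact_mod_cast (Fact.out : l.Prime).pos
    positivity
  -- the finite sets of parameters
  obtain ⟨hT₀, hT₀c⟩ := hcnt ((f' : ℚ) ^ 2 * (-k.D)) _ hY1 (by
    rw [Rat.cast_mul, ← hd]
    push_cast
    exact mul_le_mul_of_nonneg_left (by nlinarith) (by positivity))
  have hT : ∀ g : ℕ, ∃ T : Finset (k.K × k.K), g ∈ f'.divisors →
      (T.card : ℝ) ≤ C₁ * (g ^ 2 * d * R₁) / (l : ℝ) ^ κ * (2 * (C₂ * (φ ^ 2 * Z))) ∧
      ∀ V ∈ {V | V ∈ tube r (k.O * L) κ ∧ V ≠ 0 ∧ k.N V ≤ g ^ 2 * d * R₁},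
        ∀ U ∈ {U | U ∈ k.O ∧ norm U = norm V + (g : ℚ) ^ 2 * (-k.D)} ∪
          {U | U ∈ k.O ∧ norm U = norm V - (g : ℚ) ^ 2 * (-k.D)}, (U, V) ∈ T := by
    intro g
    by_cases hg : g ∈ f'.divisors
    swap
    · exact ⟨∅, fun h => absurd h hg⟩
    obtain ⟨h1, h2⟩ := hpack (tube r (k.O * L) κ) _ (g ^ 2 * d * R₁) hl0 (by positivity)
      (tube_min hr hA hN κ)
    have hgf : (g : ℝ) ^ 2 ≤ (f' : ℝ) ^ 2 :=
      pow_le_pow_left₀ (by positivity) (by exact_mod_cast Nat.divisor_le hg) 2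
    have hgd : 0 ≤ (g : ℝ) ^ 2 * d := by positivity
    have hb : (g : ℝ) ^ 2 * d * R₁ + g ^ 2 * d ≤ (f' : ℝ) ^ 2 * (2 * d * R₁) := by
      have := mul_le_mul_of_nonneg_right hgf (show 0 ≤ 2 * d * R₁ by positivity)
      nlinarith
    obtain ⟨T, hT1, hT2⟩ := exists_pairs
      (fun V : k.K => {U : k.K | U ∈ k.O ∧ norm U = norm V + (g : ℚ) ^ 2 * (-k.D)} ∪
        {U : k.K | U ∈ k.O ∧ norm U = norm V - (g : ℚ) ^ 2 * (-k.D)}) h1 h2
      (b := 2 * (C₂ * (φ ^ 2 * Z))) (by positivity) fun V hV => by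
        have h3 : ((norm V : ℚ) : ℝ) ≤ g ^ 2 * d * R₁ := hV.2.2
        obtain ⟨h4, h5⟩ := hcnt (norm V + (g : ℚ) ^ 2 * (-k.D)) _ hY1 (by
          rw [Rat.cast_add, Rat.cast_mul, ← hd]; push_cast; linarith)
        obtain ⟨h6, h7⟩ := hcnt (norm V - (g : ℚ) ^ 2 * (-k.D)) _ hY1 (by
          rw [Rat.cast_sub, Rat.cast_mul, ← hd]; push_cast; linarith)
        refine ⟨h4.union h6, (Nat.cast_le.2 (Set.ncard_union_le _ _)).trans ?_⟩
        rw [hY] at h5 h7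
        push_cast
        linarith
    exact ⟨T, fun _ => ⟨hT1, hT2⟩⟩
  choose T hT using hT
  let Q₀ : k.K → k.SF F → k.SF F → Prop := fun U s s' =>
    (act s L).map (k.lin (U / (f' * del k)) 0) = act s' L
  let Q : ℕ → k.K × k.K → k.SF F → k.SF F → Prop := fun g p s s' =>
    Exact (k.O * L) g (p.1 / (g * del k)) (p.2 / (g * del k)) ∧
      (act s L).map (k.lin (p.1 / (g * del k)) (p.2 / (g * del k))) = act s' L
  have hcanc : ∀ g : ℕ, 0 < g → ∀ x : k.K, (g : k.K) * del k * x / (g * del k) = x := fun g hg x =>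
    mul_div_cancel_left₀ x (mul_ne_zero (Nat.cast_ne_zero.2 hg.ne') del_ne)
  have hcover : ∀ s s' : k.SF F, (∃ α β : k.K, (act s L).map (k.lin α β) = act s' L ∧
      k.N α ≤ R ∧ k.N β ≤ R ∧ ‖k.io r β‖ ≤ ((l : ℝ) ^ κ)⁻¹) →
      (∃ U ∈ hT₀.toFinset, Q₀ U s s') ∨ ∃ g ∈ f'.divisors, ∃ p ∈ T g, Q g p s s' := by
    rintro s s' ⟨α, β, hm, -, hβ, hio⟩
    have hu := lin_unit (hact s).1 (hact s').1 hm
    have hU : f' * del k * α ∈ k.O := mult hA fun x hx => (comp_mem hOA (hfA hm).1 hx).1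
    by_cases h0 : β = 0
    · subst h0
      refine Or.inl ⟨f' * del k * α, hT₀.mem_toFinset.2 ⟨hU, ?_⟩, ?_⟩
      · have := norm_nonneg' α
        rw [QuadraticAlgebra.norm_zero] at hu
        rcases hu with h | h
        · rw [norm_scale, h]; ring
        · linarith
      · simp only [Q₀, hcanc f' hf0]
        exact hm
    · obtain ⟨g, hg⟩ := exists_exact (k.O * L) α β
      have hgf : g ∈ f'.divisors := Nat.mem_divisors.2 ⟨Int.natCast_dvd_natCast.1 ((hg f').1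
        ⟨by simpa [mul_assoc] using hU, fun x hx => by
          simpa [mul_assoc] using (comp_mem hOA (hfA hm).1 hx).2⟩), hf0.ne'⟩
      have hg0 := Nat.pos_of_mem_divisors hgf
      obtain ⟨h1, h2⟩ := (hg g).2 dvd_rfl
      rw [zsmul_eq_mul, Int.cast_natCast, ← mul_assoc] at h1 h2
      refine Or.inr ⟨g, hgf, (g * del k * α, g * del k * β), (hT g hgf).2 _ ⟨⟨h2,
        (io_mul_le hr (mul_mem_O (nat_mem_O g) del_mem_O) β).trans hio⟩, mul_ne_zero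
          (mul_ne_zero (Nat.cast_ne_zero.2 hg0.ne') del_ne) h0, ?_⟩ _ ?_, ?_⟩
      · rw [N, norm_scale, Rat.cast_mul, Rat.cast_mul, ← hd]
        push_cast
        exact mul_le_mul_of_nonneg_left (hβ.trans hR₁) (by positivity)
      · rcases hu with h | h
        · exact Or.inl ⟨h1, by rw [norm_scale, norm_scale, h]; ring⟩
        · exact Or.inr ⟨h1, by rw [norm_scale, norm_scale, h]; ring⟩
      · simp only [Q, hcanc g hg0]
        exact ⟨hg, hm⟩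
  have ha0 : 0 ≤ 1 / (Nat.totient f' : ℝ) := by positivity
  have h₀ := avg_pr_le hT₀.toFinset Q₀ ha0 (fun p s => ha _) fun p _ => pr_le_one _
  have h₁ : ∀ g ∈ f'.divisors, k.avg F (fun s => k.pr F fun s' => ∃ p ∈ T g, Q g p s s') ≤
      (T g).card * (1 / (Nat.totient g : ℝ)) * (1 / (Nat.totient f' : ℝ)) := fun g hg =>
    avg_pr_le (T g) (Q g) ha0 (fun p s => (pr_mono fun s' h => h.2).trans (ha _)) fun p _ =>
      pr_coset hP ((Nat.dvd_of_mem_divisors hg).trans hfF) (by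
        rintro s s₀ ⟨s', hE, hs⟩ ⟨s₀', -, hs₀⟩
        obtain ⟨-, z, hz⟩ := mem_O.1 (mul_mem_O (lift_mem_O s) (star_mem_O (lift_mem_O s₀)))
        have h2 := fun x (hx : x ∈ k.O * L) => two_gen hOA hgen (hfA hs).1 (lift_mem_O s)
          (lift_mem_O s₀) (hfA hs).2 (hfA hs₀).2 hz hx
        obtain ⟨z', rfl⟩ := (hE z).1 ⟨mult hA fun x hx => (h2 x hx).1, fun x hx => (h2 x hx).2⟩
        exact ⟨z', by rw [hz]; push_cast; rfl⟩)
  have htot' : ∀ g ∈ f'.divisors, (g : ℝ) ≤ C₃ * φ * Nat.totient g := fun g hg =>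
    (htot g (Nat.pos_of_mem_divisors hg)).trans (by
      rw [hφ]
      gcongr
      exact_mod_cast Nat.divisor_le hg)
  have hsum := sum_div_totient htot'
  have hφf : (0 : ℝ) < Nat.totient f' := by exact_mod_cast Nat.totient_pos.2 hf0
  have haf : 1 / (Nat.totient f' : ℝ) ≤ C₃ * φ * (f' : ℝ)⁻¹ := by
    rw [← div_eq_mul_inv, div_le_div_iff₀ hφf (by linarith), one_mul]
    exact htot' f' (Nat.mem_divisors_self _ hf0.ne')
  rw [hY, Set.ncard_eq_toFinset_card _ hT₀] at hT₀c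
  obtain ⟨x, hx⟩ : ∃ x : ℝ, x = ((l : ℝ) ^ κ)⁻¹ := ⟨_, rfl⟩
  obtain ⟨y, hy⟩ : ∃ y : ℝ, y = (f' : ℝ)⁻¹ := ⟨_, rfl⟩
  have hx0 : 0 ≤ x := by rw [hx]; positivity
  have hy0 : 0 ≤ y := by rw [hy]; positivity
  have hyf : y * f' = 1 := by rw [hy]; exact inv_mul_cancel₀ (by linarith)
  have hφ0 : 0 ≤ φ := by linarith
  calc _ ≤ k.avg F (fun s => k.pr F (fun s' => ∃ U ∈ hT₀.toFinset, Q₀ U s s') +
          ∑ g ∈ f'.divisors, k.pr F fun s' => ∃ p ∈ T g, Q g p s s') :=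
        avg_mono fun s => (pr_mono (hcover s)).trans ((pr_or _ _).trans
          (add_le_add le_rfl (pr_exists _ _)))
    _ ≤ C₂ * (φ ^ 2 * Z) * 1 * (1 / (Nat.totient f' : ℝ)) + ∑ g ∈ f'.divisors,
          C₁ * (d * R₁) * x * (2 * (C₂ * (φ ^ 2 * Z))) * (1 / (Nat.totient f' : ℝ)) *
            ((g : ℝ) ^ 2 * (1 / (Nat.totient g : ℝ))) := by
        rw [avg_add, avg_sum]
        refine add_le_add (h₀.trans (by gcongr)) (Finset.sum_le_sum fun g hg =>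
          (h₁ g hg).trans ?_)
        refine (mul_le_mul_of_nonneg_right (mul_le_mul_of_nonneg_right (hT g hg).1
          (by positivity)) ha0).trans (le_of_eq ?_)
        rw [hx]
        ring
    _ ≤ C₂ * (φ ^ 2 * Z) * 1 * (C₃ * φ * y) +
          C₁ * (d * R₁) * x * (2 * (C₂ * (φ ^ 2 * Z))) * (C₃ * φ * y) * ((C₃ * φ) ^ 2 * f') := by
        rw [← Finset.mul_sum, hy]
        gcongr
    _ ≤ _ := by
        rw [hφ5, ← hx, ← hy]
        exact final_ineq hC₁.le hC₂.le hC₃ hZ0 (by linarith) hφ1 hx0 hy0 hyf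

end Pool.Agent.Lib.MP_9177b7_ag.J
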