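import Pool.Agent.Lib.MP_9177b7_ag.J.DefsE

/-!
Equivariant ergodic decomposition along a commuting transformation.
-/

open MeasureTheory ProbabilityTheory Filter Topology Set
open scoped ENNReal NNReal

noncomputable section

namespace Pool.Agent.Lib.MP_9177b7_ag.J

namespace Dec

/-- A sequence that is uniformly dense in the compactly supported continuous functions. -/
theorem dense (Y : Type) [TopologicalSpace Y] [PolishSpace Y] [LocallyCompactSpace Y] :
    ∃ φ : ℕ → Y → ℝ, (∀ j, Continuous (φ j) ∧ HasCompactSupport (φ j)) ∧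
      ∀ f : Y → ℝ, Continuous f → HasCompactSupport f → ∀ ε : ℝ, 0 < ε →
        ∃ j, ∀ y, |f y - φ j y| ≤ ε := by
  let K := CompactExhaustion.choice Y
  choose χ h1 _ hc h01 using fun m =>
    exists_continuous_one_zero_of_isCompact (K.isCompact m) isClosed_empty (disjoint_empty _)
  let ψ := TopologicalSpace.denseSeq C(Y, ℝ)
  refine ⟨fun j y => χ j.unpair.1 y * ψ j.unpair.2 y, fun j =>
    ⟨(χ _).continuous.mul (ψ _).continuous, (hc _).mul_right⟩, fun f hf hs ε hε => ?_⟩
  obtain ⟨m, hm⟩ := K.exists_superset_of_isCompact hs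
  have hU := Metric.tendstoUniformlyOn_iff.1
    (ContinuousMap.tendsto_iff_forall_isCompact_tendstoUniformlyOn.1
      (tendsto_id (x := 𝓝 (⟨f, hf⟩ : C(Y, ℝ)))) _ (hc m)) ε hε
  obtain ⟨i, hi⟩ := (TopologicalSpace.denseRange_denseSeq C(Y, ℝ)).mem_nhds hU
  refine ⟨Nat.pair m i, fun y => ?_⟩
  simp only [Nat.unpair_pair]
  have e : f y = χ m y * f y := by
    by_cases h : f y = 0
    · rw [h, mul_zero]
    · rw [h1 m (hm (subset_tsupport _ h)), Pi.one_apply, one_mul]
  rw [e, ← mul_sub, abs_mul]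
  by_cases hy : y ∈ tsupport (χ m)
  · have h2 : |f y - ψ i y| < ε := hi y hy
    have h3 : |χ m y| ≤ 1 := abs_le.2 ⟨by linarith [(h01 m y).1], (h01 m y).2⟩
    exact (mul_le_of_le_one_left (abs_nonneg _) h3).trans h2.le
  · rw [image_eq_zero_of_notMem_tsupport hy, abs_zero, zero_mul]
    exact hε.le

/-- The mean ergodic theorem, with the limit identified. -/
theorem vn {Y : Type} [MeasurableSpace Y] (ν : Measure Y) [IsProbabilityMeasure ν]
    {T : Y → Y} (hT : MeasurePreserving T ν ν) {φ : Y → ℝ} (hφ : Measurable φ) {C : ℝ}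
    (hC : ∀ y, ‖φ y‖ ≤ C) :
    TendstoInMeasure ν (fun N => birkhoffAverage ℝ T φ N) atTop
      (ν[φ | MeasurableSpace.invariants T]) := by
  have hm : MemLp φ 2 ν := .of_bound hφ.aestronglyMeasurable C (.of_forall hC)
  obtain ⟨U, hU⟩ : ∃ U : Lp ℝ 2 ν →L[ℝ] Lp ℝ 2 ν,
      U = (Lp.compMeasurePreservingₗᵢ ℝ T hT).toContinuousLinearMap := ⟨_, rfl⟩
  have hU1 : ‖U‖ ≤ 1 := hU ▸ LinearIsometry.norm_toContinuousLinearMap_le _
  have hU2 : ∀ g, U g = Lp.compMeasurePreserving T hT g := fun g => by rw [hU]; rfl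
  have hU3 : ∀ g : Lp ℝ 2 ν, U g =ᵐ[ν] g ∘ T := fun g => by
    rw [hU2]; exact Lp.coeFn_compMeasurePreserving g hT
  have hx : hm.toLp φ =ᵐ[ν] φ := hm.coeFn_toLp
  generalize hm.toLp φ = x at hx
  have it : ∀ n, U^[n] x =ᵐ[ν] φ ∘ T^[n] := fun n => by
    induction n with
    | zero => exact hx
    | succ n ih =>
      rw [Function.iterate_succ_apply']
      exact (hU3 _).trans (hT.quasiMeasurePreserving.ae_eq_comp ih)
  have sm : ∀ n, (birkhoffSum U _root_.id n x : Lp ℝ 2 ν) =ᵐ[ν] birkhoffSum T φ n := fun n => by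
    induction n with
    | zero => simpa using Lp.coeFn_zero ℝ 2 ν
    | succ n ih =>
      rw [birkhoffSum_succ]
      filter_upwards [Lp.coeFn_add (birkhoffSum U _root_.id n x) (U^[n] x), ih, it n]
        with z h1 h2 h3
      rw [birkhoffSum_succ, id_eq, h1, Pi.add_apply, h2, h3]
      rfl
  have av : ∀ n, (birkhoffAverage ℝ U _root_.id n x : Lp ℝ 2 ν) =ᵐ[ν]
      birkhoffAverage ℝ T φ n := fun n => by
    filter_upwards [Lp.coeFn_smul ((n : ℝ)⁻¹) (birkhoffSum U _root_.id n x), sm n] with z h1 h2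
    rw [birkhoffAverage, birkhoffAverage, h1, Pi.smul_apply, h2]
  have lim := tendstoInMeasure_of_tendsto_Lp
    (U.tendsto_birkhoffAverage_orthogonalProjection hU1 x)
  refine TendstoInMeasure.congr av ?_ lim
  have orth := Submodule.starProjection_inner_eq_zero
    (K := U.eqLocus (1 : Lp ℝ 2 ν →L[ℝ] Lp ℝ 2 ν)) x
  rw [Submodule.starProjection_apply] at orth
  have fix : U _ = _ :=
    ((U.eqLocus (1 : Lp ℝ 2 ν →L[ℝ] Lp ℝ 2 ν)).orthogonalProjectionOnto x).2
  generalize (((U.eqLocus (1 : Lp ℝ 2 ν →L[ℝ] Lp ℝ 2 ν)).orthogonalProjectionOnto x :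
    U.eqLocus (1 : Lp ℝ 2 ν →L[ℝ] Lp ℝ 2 ν)) : Lp ℝ 2 ν) = L at orth fix
  have fix1 : U L = L := fix
  have inv : ∀ n, L ∘ T^[n] =ᵐ[ν] L := fun n => by
    induction n with
    | zero => rfl
    | succ n ih =>
      refine (hT.quasiMeasurePreserving.ae_eq_comp ih).trans ?_
      have := hU3 L
      rw [fix1] at this
      exact this.symm
  have mL : Measurable (L : Y → ℝ) := (Lp.stronglyMeasurable L).measurable
  obtain ⟨g, hg⟩ : ∃ g : Y → ℝ, g = fun z => limsup (fun n => L (T^[n] z)) atTop := ⟨_, rfl⟩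
  have g1 : Measurable g := hg ▸ Measurable.limsup fun n => mL.comp (hT.measurable.iterate n)
  have g2 : g ∘ T = g := by
    rw [hg]
    funext z
    exact limsup_nat_add (fun n => L (T^[n] z)) 1
  have g3 : Measurable[MeasurableSpace.invariants T] g :=
    MeasurableSpace.measurable_invariants_dom.2 ⟨g1, fun s _ => by rw [g2]⟩
  have g4 : (L : Y → ℝ) =ᵐ[ν] g := by
    filter_upwards [ae_all_iff.2 inv] with z hz
    rw [hg]
    simp only [Function.comp_apply] at hz
    simp only [hz, limsup_const]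
  refine ae_eq_condExp_of_forall_setIntegral_eq (MeasurableSpace.invariants_le T)
    (hm.integrable one_le_two)
    (fun s _ _ => ((Lp.memLp L).integrable one_le_two).integrableOn) (fun s hs _ => ?_)
    ⟨g, g3.stronglyMeasurable, g4⟩
  have h1 : U (indicatorConstLp 2 hs.1 (measure_ne_top ν s) (1 : ℝ)) =
      indicatorConstLp 2 hs.1 (measure_ne_top ν s) (1 : ℝ) := by
    rw [hU2, Lp.indicatorConstLp_compMeasurePreserving]
    exact indicatorConstLp_inj _ _ _ _ one_ne_zero |>.2 hs.2.eventuallyEq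
  have h2 := orth _ h1
  rw [real_inner_comm, inner_sub_right, L2.inner_indicatorConstLp_one,
    L2.inner_indicatorConstLp_one, sub_eq_zero] at h2
  rw [← h2]
  exact integral_congr_ae (ae_restrict_of_ae hx)

/-- A common subsequence along which countably many sequences converge almost everywhere. -/
theorem common {Y : Type} [MeasurableSpace Y] (ν : Measure Y) (f : ℕ → ℕ → Y → ℝ)
    (g : ℕ → Y → ℝ) (h : ∀ j, TendstoInMeasure ν (f j) atTop (g j)) :
    ∃ N : ℕ → ℕ, ∀ j, ∀ᵐ z ∂ν, Tendsto (fun k => f j (N k) z) atTop (𝓝 (g j z)) := by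
  have p : ∀ k : ℕ, (0 : ℝ≥0∞) < 2⁻¹ ^ k := fun k => ENNReal.pow_pos (by simp) k
  have : ∀ k : ℕ, ∃ n, ∀ j ∈ Iic k, ν {z | 2⁻¹ ^ k ≤ edist (f j n z) (g j z)} ≤ 2⁻¹ ^ k :=
    fun k => (((finite_Iic k).eventually_all.2 fun j _ =>
      (h j _ (p k)).eventually (Iic_mem_nhds (p k)))).exists
  choose N hN using this
  refine ⟨N, fun j => ?_⟩
  have hs : ∑' k, ν {z | 2⁻¹ ^ (k + j) ≤ edist (f j (N (k + j)) z) (g j z)} ≠ ⊤ := by
    refine ne_top_of_le_ne_top (b := ∑' k : ℕ, 2⁻¹ ^ k) (by simp) (ENNReal.tsum_le_tsum fun k =>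
      (hN (k + j) j (Nat.le_add_left j k)).trans ?_)
    exact pow_le_pow_right_of_le_one' (by simp) (Nat.le_add_right k j)
  filter_upwards [ae_eventually_notMem hs] with z hz
  rw [← tendsto_add_atTop_iff_nat j, tendsto_iff_edist_tendsto_0]
  refine tendsto_of_tendsto_of_tendsto_of_le_of_le' tendsto_const_nhds
    ((tendsto_add_atTop_iff_nat j).2 (ENNReal.tendsto_pow_atTop_nhds_zero_of_lt_one
      (r := 2⁻¹) (by simp))) (.of_forall fun _ => zero_le) (hz.mono fun k hk => ?_)
  exact (not_le.1 hk).le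

section kernel

variable {Y : Type} {m : MeasurableSpace Y} [mY : MeasurableSpace Y] [StandardBorelSpace Y]
  (ν : Measure Y) [IsProbabilityMeasure ν] (hm : m ≤ mY)

/-- The conditional expectation kernel, seen from the ambient sigma-algebra. -/
def Th : Kernel Y Y := (condExpKernel ν m).comap _root_.id (measurable_id'' hm)

instance : IsMarkovKernel (Th ν hm) := by
  unfold Th; infer_instance

theorem Th_apply (z : Y) : Th ν hm z = condExpKernel ν m z := rfl

theorem Th_bind : ν.bind (Th ν hm) = ν := by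
  ext s hs
  rw [Measure.bind_apply hs (Kernel.aemeasurable _)]
  conv_rhs => rw [← condExpKernel_comp_trim (μ := ν) hm,
    Measure.bind_apply hs (Kernel.aemeasurable _), lintegral_trim hm (measurable_condExpKernel hs)]
  rfl

omit [StandardBorelSpace Y] in
include hm in
theorem meas_diag : @Measurable Y (Y × Y) mY (m.prod mY) Function.diag :=
  @Measurable.prodMk Y mY Y Y m mY _ _ (measurable_id'' hm) measurable_id

theorem Th_typ {G : ℕ → Y → ℝ} (hG : ∀ j, Measurable[m] (G j)) :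
    ∀ᵐ z ∂ν, ∀ᵐ w ∂Th ν hm z, ∀ j, G j w = G j z := by
  refine ae_of_ae_trim hm (Measure.ae_ae_of_ae_compProd (κ := condExpKernel ν m)
    (p := fun q => ∀ j, G j q.2 = G j q.1) ?_)
  rw [compProd_trim_condExpKernel hm, ae_all_iff]
  intro j
  refine (@ae_map_iff Y (Y × Y) mY (m.prod mY) ν _
    (@Measurable.aemeasurable Y (Y × Y) mY (m.prod mY) _ ν (meas_diag hm)) _ ?_).2
    (.of_forall fun _ => rfl)
  exact @measurableSet_eq_fun (Y × Y) ℝ (m.prod mY) _ _ _ _
    (((hG j).mono hm le_rfl).comp (@measurable_snd Y Y m mY))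
    ((hG j).comp (@measurable_fst Y Y m mY))

theorem Th_marg {X : Type} [MeasurableSpace X] [MeasurableSpace.CountablyGenerated X]
    (μ : Measure X) [IsProbabilityMeasure μ] {π : Y → X} (hπ : Measurable π)
    (h : ∀ S A, MeasurableSet[m] S → MeasurableSet A → ν (S ∩ π ⁻¹' A) = ν S * μ A) :
    ∀ᵐ z ∂ν, (Th ν hm z).map π = μ := by
  have e : (ν.trim hm) ⊗ₘ ((condExpKernel ν m).map π) =
      (ν.trim hm) ⊗ₘ (@Kernel.const Y X m _ μ) := by
    rw [Measure.compProd_map hπ, compProd_trim_condExpKernel hm, Measure.compProd_const]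
    refine (@Measure.prod_eq Y X m _ _ _ _ _ _ fun S A hS hA => ?_).symm
    have h1 := @Measurable.prodMap Y Y Y X m m mY _ _ _ (@measurable_id Y m) hπ
    have h2 := @MeasurableSet.prod Y X m _ S A hS hA
    rw [Measure.map_apply h1 h2, Measure.map_apply (meas_diag hm) (h1 h2),
      trim_measurableSet_eq hm hS, ← h S A hS hA]
    rfl
  filter_upwards [ae_of_ae_trim hm (Kernel.ae_eq_of_compProd_eq e)] with z hz
  rwa [Kernel.map_apply _ hπ] at hz

end kernel

theorem indep {Y X : Type} [MeasurableSpace Y] [MeasurableSpace X] {ν : Measure Y}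
    [IsProbabilityMeasure ν] {μ : Measure X} [IsProbabilityMeasure μ] {T : Y → Y} {R : X → X}
    {π : Y → X} (hπ : Measurable π) (hT : MeasurePreserving T ν ν) (hR : Ergodic R μ)
    (hc : π ∘ T = R ∘ π) (hμ : ν.map π = μ) {S : Set Y} {A : Set X}
    (hS : MeasurableSet[MeasurableSpace.invariants T] S) (hA : MeasurableSet A) :
    ν (S ∩ π ⁻¹' A) = ν S * μ A := by
  have h1 : MeasurePreserving T (ν.restrict S) (ν.restrict S) := by
    have := hT.restrict_preimage hS.1
    rwa [hS.2] at this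
  have h2 : MeasurePreserving R ((ν.restrict S).map π) ((ν.restrict S).map π) :=
    ⟨hR.measurable, by
      rw [Measure.map_map hR.measurable hπ, ← hc, ← Measure.map_map hπ hT.measurable, h1.map_eq]⟩
  obtain ⟨c, hc⟩ := hR.eq_smul_of_absolutelyContinuous h2
    (hμ ▸ (Measure.absolutelyContinuous_of_le Measure.restrict_le_self).map hπ)
  have h3 : ∀ B, MeasurableSet B → ν (S ∩ π ⁻¹' B) = c * μ B := fun B hB => by
    have := congrArg (fun ρ : Measure X => ρ B) hc
    simp only [Measure.smul_apply, smul_eq_mul] at this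
    rwa [Measure.map_apply hπ hB, Measure.restrict_apply (hπ hB), inter_comm] at this
  have h4 := h3 univ MeasurableSet.univ
  rw [preimage_univ, inter_univ, measure_univ, mul_one] at h4
  rw [h3 A hA, h4]

theorem avg_close {Y : Type} (T : Y → Y) {f g : Y → ℝ} {ε : ℝ} (hε : 0 ≤ ε)
    (h : ∀ y, |f y - g y| ≤ ε) (n : ℕ) (z : Y) :
    |birkhoffAverage ℝ T f n z - birkhoffAverage ℝ T g n z| ≤ ε := by
  rcases n.eq_zero_or_pos with rfl | hn
  · simpa using hε
  have h0 : (0 : ℝ) < n := by exact_mod_cast hn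
  simp only [birkhoffAverage, birkhoffSum, smul_eq_mul]
  rw [← mul_sub, ← Finset.sum_sub_distrib, abs_mul, abs_of_pos (inv_pos.2 h0), inv_mul_le_iff₀ h0]
  refine (Finset.abs_sum_le_sum_abs _ _).trans ((Finset.sum_le_sum fun i _ => h _).trans ?_)
  simp

theorem int_close {Y : Type} [TopologicalSpace Y] [MeasurableSpace Y] [OpensMeasurableSpace Y]
    (θ : Measure Y) [IsProbabilityMeasure θ] {f g : Y → ℝ} (hf : Continuous f)
    (hf' : HasCompactSupport f) (hg : Continuous g) (hg' : HasCompactSupport g) {ε : ℝ}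
    (h : ∀ y, |f y - g y| ≤ ε) : |∫ y, f y ∂θ - ∫ y, g y ∂θ| ≤ ε := by
  have i : ∀ u : Y → ℝ, Continuous u → HasCompactSupport u → Integrable u θ := fun u hu hu' => by
    obtain ⟨C, hC⟩ := hu.bounded_above_of_compact_support hu'
    exact .of_bound hu.measurable.aestronglyMeasurable C (.of_forall hC)
  rw [← integral_sub (i f hf hf') (i g hg hg')]
  simpa using norm_integral_le_of_norm_le_const (μ := θ) (f := fun y => f y - g y) (C := ε)
    (.of_forall h)

theorem gen {Y : Type} [TopologicalSpace Y] [PolishSpace Y] [LocallyCompactSpace Y]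
    [MeasurableSpace Y] [BorelSpace Y] (ν : Measure Y) [IsProbabilityMeasure ν] {T : Y → Y}
    (hTc : Continuous T) (hT : MeasurePreserving T ν ν) {Θ : Kernel Y Y}
    (hΘ : Θ = Th ν (MeasurableSpace.invariants_le T)) :
    ∃ Z : Set Y, MeasurableSet Z ∧
      (∀ V : Y ≃ₜ Y, Function.Semiconj V T T → ∀ z, z ∈ Z → V z ∈ Z → Θ (V z) = (Θ z).map V) ∧
      (∀ᵐ z ∂ν, z ∈ Z) ∧ (∀ᵐ z ∂ν, ∀ᵐ w ∂Θ z, Θ w = Θ z ∧ w ∈ Z) ∧
      ∀ ε : ℝ≥0∞, 0 < ε → ∃ Q : Set Y, IsCompact Q ∧ Q ⊆ Z ∧ ν Qᶜ < ε ∧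
        ∀ φ : Y → ℝ, Continuous φ → HasCompactSupport φ →
          ContinuousOn (fun z => ∫ w, φ w ∂Θ z) Q := by
  have : IsMarkovKernel Θ := hΘ ▸ inferInstance
  obtain ⟨φ, hφ, hd⟩ := dense Y
  obtain ⟨G, hG⟩ : ∃ G : ℕ → Y → ℝ, ∀ j z, G j z = ∫ w, φ j w ∂Θ z := ⟨_, fun _ _ => rfl⟩
  have mG : ∀ j, StronglyMeasurable[MeasurableSpace.invariants T] (G j) := fun j => by
    rw [funext (hG j), hΘ]
    exact (hφ j).1.stronglyMeasurable.integral_condExpKernel
  have mG' : ∀ j, Measurable (G j) := fun j =>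
    (mG j).measurable.mono (MeasurableSpace.invariants_le T) le_rfl
  have cA : ∀ j n, Continuous (birkhoffAverage ℝ T (φ j) n) := fun j n =>
    (continuous_finsetSum (Finset.range n) fun i _ =>
      (hφ j).1.comp (hTc.iterate i)).const_smul ((n : ℝ)⁻¹)
  obtain ⟨N, hN⟩ := common ν (fun j n => birkhoffAverage ℝ T (φ j) n) G fun j => by
    obtain ⟨C, hC⟩ := (hφ j).1.bounded_above_of_compact_support (hφ j).2
    refine TendstoInMeasure.congr (fun _ => .rfl) ?_ (vn ν hT (hφ j).1.measurable hC)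
    rw [funext (hG j), hΘ]
    exact condExp_ae_eq_integral_condExpKernel (MeasurableSpace.invariants_le T)
      (.of_bound (hφ j).1.measurable.aestronglyMeasurable C (.of_forall hC))
  obtain ⟨Z, hZ⟩ : ∃ Z : Set Y, Z = ⋂ j, {z | Tendsto
    (fun k => birkhoffAverage ℝ T (φ j) (N k) z) atTop (𝓝 (G j z))} := ⟨_, rfl⟩
  have mZ : MeasurableSet Z := hZ ▸ MeasurableSet.iInter fun j =>
    measurableSet_tendsto_fun (fun k => (cA j (N k)).measurable) (mG' j)
  have fZ : ∀ᵐ z ∂ν, z ∈ Z := by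
    rw [hZ]
    filter_upwards [ae_all_iff.2 hN] with z hz using mem_iInter.2 hz
  have close : ∀ f : Y → ℝ, Continuous f → HasCompactSupport f → ∀ ε : ℝ, 0 < ε → ∃ j,
      (∀ y, |f y - φ j y| ≤ ε) ∧ ∀ z, |∫ w, f w ∂Θ z - G j z| ≤ ε := fun f hf hf' ε hε => by
    obtain ⟨j, hj⟩ := hd f hf hf' ε hε
    exact ⟨j, hj, fun z => hG j z ▸ int_close (Θ z) hf hf' (hφ j).1 (hφ j).2 hj⟩
  have conv : ∀ z ∈ Z, ∀ f : Y → ℝ, Continuous f → HasCompactSupport f →
      Tendsto (fun k => birkhoffAverage ℝ T f (N k) z) atTop (𝓝 (∫ w, f w ∂Θ z)) := by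
    intro z hz f hf hf'
    refine Metric.tendsto_nhds.2 fun ε hε => ?_
    obtain ⟨j, h1, h2⟩ := close f hf hf' (ε / 3) (by positivity)
    rw [hZ] at hz
    filter_upwards [Metric.tendsto_nhds.1 (mem_iInter.1 hz j) (ε / 3) (by positivity)] with k hk
    have h3 := abs_le.1 (avg_close T (by positivity) h1 (N k) z)
    have h4 := abs_le.1 (h2 z)
    rw [Real.dist_eq, abs_lt] at hk ⊢
    constructor <;> linarith [hk.1, hk.2]
  refine ⟨Z, mZ, fun V hV z hz hz' => ?_, fZ, ?_, fun ε hε => ?_⟩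
  · have := Measure.isProbabilityMeasure_map (μ := Θ z) V.continuous.aemeasurable
    refine Measure.ext_of_integral_eq_on_compactlySupported fun f => ?_
    rw [integral_map V.continuous.aemeasurable (map_continuous f).aestronglyMeasurable]
    refine tendsto_nhds_unique (conv _ hz' f f.continuous f.hasCompactSupport)
      ((conv z hz (f ∘ V) (f.continuous.comp V.continuous)
        (f.hasCompactSupport.comp_homeomorph V)).congr fun k => ?_)
    simp only [birkhoffAverage, birkhoffSum, Function.comp_apply, (hV.iterate_right _).eq]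
  · have h1 := Th_typ ν (MeasurableSpace.invariants_le T) fun j => (mG j).measurable
    have h2 := Measure.ae_ae_of_ae_comp (κ := Θ) (μ := ν) (p := fun w => w ∈ Z)
      (by rw [hΘ, Th_bind]; exact fZ)
    rw [← hΘ] at h1
    filter_upwards [h1, h2] with z h1 h2
    filter_upwards [h1, h2] with w h1 h2
    refine ⟨Measure.ext_of_integral_eq_on_compactlySupported fun f => ?_, h2⟩
    refine eq_of_forall_dist_le fun ε hε => ?_
    obtain ⟨j, -, h3⟩ := close f f.continuous f.hasCompactSupport (ε / 2) (by positivity)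
    have h4 := abs_le.1 (h3 z)
    have h5 := abs_le.1 (h3 w)
    rw [h1 j] at h5
    rw [Real.dist_eq, abs_le]
    constructor <;> linarith [h4.1, h4.2, h5.1, h5.2]
  · obtain ⟨e, e0, e1⟩ := ENNReal.exists_pos_sum_of_countable hε.ne' ℕ
    obtain ⟨r, r0, r1⟩ := ENNReal.lt_iff_exists_add_pos_lt.1 e1
    choose t t1 t2 t3 using fun j => tendstoUniformlyOn_of_ae_tendsto' (μ := ν)
      (f := fun k => birkhoffAverage ℝ T (φ j) (N k)) (g := G j)
      (fun k => (cA j (N k)).stronglyMeasurable) (mG' j).stronglyMeasurable (hN j)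
      (ε := e j) (e0 j)
    obtain ⟨Q, q1, q2, q3⟩ := (mZ.diff (MeasurableSet.iUnion t1)).exists_isCompact_sdiff_lt
      (measure_ne_top ν _) (ENNReal.coe_ne_zero.2 r0.ne')
    refine ⟨Q, q2, fun z hz => (q1 hz).1, ?_, fun f hf hf' => ?_⟩
    · have sub : Qᶜ ⊆ Zᶜ ∪ ((⋃ j, t j) ∪ ((Z \ ⋃ j, t j) \ Q)) := fun z hz => by
        by_cases a : z ∈ Z
        · by_cases b : z ∈ ⋃ j, t j
          · exact .inr (.inl b)
          · exact .inr (.inr ⟨⟨a, b⟩, hz⟩)
        · exact .inl a
      have z0 : ν Zᶜ = 0 := fZ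
      refine ((measure_mono sub).trans ((measure_union_le _ _).trans ?_)).trans_lt r1
      rw [z0, zero_add]
      refine (measure_union_le _ _).trans (add_le_add ((measure_iUnion_le _).trans
        (ENNReal.tsum_le_tsum fun j => ?_)) q3.le)
      simpa using t2 j
    · refine continuousOn_of_uniform_approx_of_continuousOn fun u hu => ?_
      obtain ⟨δ, δ0, hδ⟩ := Metric.mem_uniformity_dist.1 hu
      obtain ⟨j, -, hj⟩ := close f hf hf' (δ / 2) (by positivity)
      refine ⟨G j, ((t3 j).continuousOn (.of_forall fun k => (cA j (N k)).continuousOn)).mono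
        fun z hz hz' => (q1 hz).2 (mem_iUnion.2 ⟨j, hz'⟩), fun z _ => hδ ?_⟩
      exact (hj z).trans_lt (by linarith)

end Dec

theorem dec : DecStmt := by
  intro l _ S μ ν b hν h1 h2 hT hE
  have cc : Continuous (S.cc b) := continuous_const_smul ((1, b) : S.G)
  have hTc : Continuous (Prod.map (S.cc b) (S.cc b)) := cc.prodMap cc
  have hT' : MeasurePreserving (Prod.map (S.cc b) (S.cc b)) ν ν := ⟨hTc.measurable, hT⟩
  have : IsProbabilityMeasure μ := h1 ▸ Measure.isProbabilityMeasure_map measurable_fst.aemeasurable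
  obtain ⟨Z, z1, z2, z3, z4, z5⟩ := Dec.gen ν hTc hT' rfl
  have comm : ∀ (h : HH l) (x : S.X), S.hs h (S.cc b x) = S.cc b (S.hs h x) := fun h x => by
    simp only [Sp.hs, Sp.cc, smul_smul, Prod.mk_mul_mk, mul_one, one_mul]
  exact ⟨_, Z, inferInstance, z1, Dec.Th_bind ν _, fun v => z2
    ((Homeomorph.smul ((v.1, 1) : S.G)).prodCongr (Homeomorph.smul ((v.2, 1) : S.G)))
    fun z => Prod.ext (comm v.1 z.1) (comm v.2 z.2), z3, z4,
    Dec.Th_marg ν _ μ measurable_fst fun _ _ => Dec.indep measurable_fst hT' hE rfl h1,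
    Dec.Th_marg ν _ μ measurable_snd fun _ _ => Dec.indep measurable_snd hT' hE rfl h2, z5⟩

end Pool.Agent.Lib.MP_9177b7_ag.J
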