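import Mathlib
import Pool.Agent.Lib.MP_9177b7_ag.J.DefsE

/-!
Averages over families of measure preserving maps, the ultrametric maximal inequality and the
divergence of a quadratic polynomial.
-/

open MeasureTheory ProbabilityTheory Filter Topology Set
open scoped MatrixGroups ENNReal NNReal

noncomputable section

namespace Pool.Agent.Lib.MP_9177b7_ag.J.Div

section abs

variable {T Y : Type*} [MeasurableSpace T] [MeasurableSpace Y]

theorem meas_av (ν : Measure T) [IsFiniteMeasure ν] {A : T → Y → Y}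
    (hA : Measurable fun p : Y × T => A p.2 p.1) {F : Set Y} (hF : MeasurableSet F) :
    Measurable fun w => ν {t | A t w ∈ F} :=
  measurable_measure_prodMk_left (hA hF)

theorem int_av (ν : Measure T) [IsFiniteMeasure ν] (θ : Measure Y) [IsFiniteMeasure θ]
    {A : T → Y → Y} (hA : Measurable fun p : Y × T => A p.2 p.1) (hθ : ∀ t, θ.map (A t) = θ)
    {F S : Set Y} (hF : MeasurableSet F) (hS : MeasurableSet S)
    (hinv : ∀ᵐ t ∂ν, ∀ w, A t w ∈ S ↔ w ∈ S) :
    ∫⁻ w in S, ν {t | A t w ∈ F} ∂θ = ν univ * θ (S ∩ F) := by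
  have hE : MeasurableSet {p : Y × T | p.1 ∈ S ∧ A p.2 p.1 ∈ F} :=
    (measurable_fst hS).inter (hA hF)
  have h1 := Measure.prod_apply (μ := θ) (ν := ν) hE
  have h2 := Measure.prod_apply_symm (μ := θ) (ν := ν) hE
  have e1 : ∫⁻ w in S, ν {t | A t w ∈ F} ∂θ =
      ∫⁻ w, ν (Prod.mk w ⁻¹' {p : Y × T | p.1 ∈ S ∧ A p.2 p.1 ∈ F}) ∂θ := by
    rw [← lintegral_indicator hS]
    refine lintegral_congr fun w => ?_
    by_cases hw : w ∈ S
    · rw [indicator_of_mem hw]; congr 1; ext t; simp [hw]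
    · rw [indicator_of_notMem hw]
      have : Prod.mk w ⁻¹' {p : Y × T | p.1 ∈ S ∧ A p.2 p.1 ∈ F} = ∅ := by ext t; simp [hw]
      rw [this, measure_empty]
  rw [e1, ← h1, h2, mul_comm, ← lintegral_const]
  refine lintegral_congr_ae ?_
  filter_upwards [hinv] with t ht
  have hAt : Measurable (A t) := hA.comp (measurable_id.prodMk measurable_const)
  conv_rhs => rw [← hθ t, Measure.map_apply hAt (hS.inter hF)]
  congr 1
  ext w
  simp [ht w]

theorem markov_av (ν : Measure T) [IsFiniteMeasure ν] (θ : Measure Y) [IsFiniteMeasure θ]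
    {A : T → Y → Y} (hA : Measurable fun p : Y × T => A p.2 p.1) (hθ : ∀ t, θ.map (A t) = θ)
    {F S : Set Y} (hF : MeasurableSet F) (hS : MeasurableSet S)
    (hinv : ∀ᵐ t ∂ν, ∀ w, A t w ∈ S ↔ w ∈ S) (h0 : ν univ ≠ 0) {τ : ℝ≥0∞}
    (hτ : ∀ w ∈ S, ν univ ≤ τ * ν {t | A t w ∈ F}) : θ S ≤ τ * θ (S ∩ F) := by
  refine (ENNReal.mul_le_mul_iff_right h0 (measure_ne_top ν _)).1 ?_
  rw [mul_left_comm, ← int_av ν θ hA hθ hF hS hinv, ← lintegral_const_mul _ (meas_av ν hA hF),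
    ← setLIntegral_const]
  exact setLIntegral_mono' hS hτ

/-- The maximal inequality for an increasing sequence of subgroups. -/
theorem maximal {E : Type*} [AddGroup E] [MeasurableSpace E] [MeasurableAdd E] (m : Measure E)
    [m.IsAddRightInvariant] (B : ℕ → AddSubgroup E) (hB : Monotone B)
    (hm : ∀ n, MeasurableSet (B n : Set E)) (h0 : ∀ n, m (B n) ≠ 0) (h1 : ∀ n, m (B n) ≠ ⊤)
    (θ : Measure Y) [IsFiniteMeasure θ] {A : E → Y → Y}
    (hA : Measurable fun p : Y × E => A p.2 p.1) (hθ : ∀ t, θ.map (A t) = θ)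
    (hadd : ∀ s t w, A (s + t) w = A s (A t w)) {F : Set Y} (hF : MeasurableSet F) (τ : ℝ≥0∞) :
    MeasurableSet {w | ∃ n, m (B n) < τ * m ({t | A t w ∈ F} ∩ B n)} ∧
      θ {w | ∃ n, m (B n) < τ * m ({t | A t w ∈ F} ∩ B n)} ≤ τ * θ F := by
  have hfin : ∀ n, IsFiniteMeasure (m.restrict (B n)) := fun n =>
    isFiniteMeasure_restrict.2 (h1 n)
  set Bad : ℕ → Set Y := fun n => {w | m (B n) < τ * m ({t | A t w ∈ F} ∩ B n)} with hBad
  have mB : ∀ n, MeasurableSet (Bad n) := fun n => by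
    have := meas_av (m.restrict (B n)) hA hF
    simp only [Measure.restrict_apply' (hm n)] at this
    exact measurableSet_lt measurable_const (this.const_mul τ)
  have iB : ∀ n, ∀ t ∈ B n, ∀ w, A t w ∈ Bad n ↔ w ∈ Bad n := fun n t ht w => by
    have : {s | A s (A t w) ∈ F} ∩ (B n : Set E) =
        (fun s => s + t) ⁻¹' ({s | A s w ∈ F} ∩ B n) := by
      ext s
      simp only [mem_inter_iff, mem_ofPred_eq, mem_preimage, hadd, SetLike.mem_coe,
        (B n).add_mem_cancel_right ht]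
    simp only [hBad, mem_ofPred_eq, this, measure_preimage_add_right]
  have key : ∀ N, ∀ S : Set Y, MeasurableSet S → (∀ t ∈ B N, ∀ w, A t w ∈ S ↔ w ∈ S) →
      θ (S ∩ ⋃ n < N, Bad n) ≤ τ * θ (S ∩ F) := by
    intro N
    induction N with
    | zero => intro S _ _; simp
    | succ N ih =>
      intro S hS hi
      have hi' : ∀ t ∈ B N, ∀ w, A t w ∈ S ↔ w ∈ S := fun t ht => hi t (hB N.le_succ ht)
      have a1 : θ (S ∩ Bad N) ≤ τ * θ ((S ∩ Bad N) ∩ F) := by
        refine markov_av (m.restrict (B N)) θ hA hθ hF (hS.inter (mB N)) ?_ ?_ fun w hw => ?_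
        · refine (ae_restrict_iff' (hm N)).2 (Eventually.of_forall fun t ht w => ?_)
          simp only [mem_inter_iff, hi' t ht w, iB N t ht w]
        · simpa using h0 N
        · rw [Measure.restrict_apply' (hm N), Measure.restrict_apply' (hm N), univ_inter]
          exact le_of_lt hw.2
      have a2 := ih (S \ Bad N) (hS.diff (mB N)) fun t ht w => by
        simp only [Set.mem_sdiff, hi' t ht w, iB N t ht w]
      calc θ (S ∩ ⋃ n < N + 1, Bad n)
          ≤ θ ((S ∩ Bad N) ∪ ((S \ Bad N) ∩ ⋃ n < N, Bad n)) := by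
            refine measure_mono fun w hw => ?_
            by_cases hb : w ∈ Bad N
            · exact Or.inl ⟨hw.1, hb⟩
            · refine Or.inr ⟨⟨hw.1, hb⟩, ?_⟩
              obtain ⟨n, hn, hwn⟩ := mem_iUnion₂.1 hw.2
              refine mem_iUnion₂.2 ⟨n, ?_, hwn⟩
              rcases Nat.lt_succ_iff_lt_or_eq.1 hn with h | rfl
              · exact h
              · exact absurd hwn hb
        _ ≤ τ * θ ((S ∩ Bad N) ∩ F) + τ * θ ((S \ Bad N) ∩ F) :=
            (measure_union_le _ _).trans (add_le_add a1 a2)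
        _ = τ * θ (S ∩ F) := by
            rw [← mul_add, ← measure_inter_add_sdiff (S ∩ F) (mB N), inter_right_comm]
            congr 3
            ext w
            simp only [mem_inter_iff, Set.mem_sdiff]
            tauto
  have e : {w | ∃ n, m (B n) < τ * m ({t | A t w ∈ F} ∩ B n)} = ⋃ N, ⋃ n < N, Bad n := by
    ext w
    simp only [mem_ofPred_eq, mem_iUnion, hBad]
    exact ⟨fun ⟨n, hn⟩ => ⟨n + 1, n, n.lt_succ_self, hn⟩, fun ⟨_, n, _, hn⟩ => ⟨n, hn⟩⟩
  rw [e]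
  refine ⟨MeasurableSet.iUnion fun N => MeasurableSet.iUnion fun n =>
    MeasurableSet.iUnion fun _ => mB n, ?_⟩
  rw [Monotone.measure_iUnion]
  · refine iSup_le fun N => ?_
    simpa using key N univ MeasurableSet.univ fun _ _ _ => by simp
  · intro N N' h w hw
    obtain ⟨n, hn, hwn⟩ := mem_iUnion₂.1 hw
    exact mem_iUnion₂.2 ⟨n, hn.trans_le h, hwn⟩

end abs

variable {l : ℕ} [Fact l.Prime]

/-- The ball of radius `l ^ n`. -/
def bl (l : ℕ) [Fact l.Prime] (n : ℕ) : AddSubgroup ℚ_[l] where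
  carrier := Metric.closedBall 0 ((l : ℝ) ^ n)
  add_mem' {x y} hx hy := by
    rw [mem_closedBall_zero_iff] at *
    exact (Padic.nonarchimedean x y).trans (max_le hx hy)
  zero_mem' := by
    rw [mem_closedBall_zero_iff, norm_zero]; positivity
  neg_mem' {x} hx := by
    rw [mem_closedBall_zero_iff] at *
    rwa [norm_neg]

theorem mem_bl {n : ℕ} {x : ℚ_[l]} : x ∈ bl l n ↔ ‖x‖ ≤ (l : ℝ) ^ n := mem_closedBall_zero_iff

theorem one_lt_l : (1 : ℝ) < l := by exact_mod_cast (Fact.out : l.Prime).one_lt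

theorem bl_mono : Monotone (bl l) := fun _ _ h _ hx =>
  mem_bl.2 ((mem_bl.1 hx).trans (pow_le_pow_right₀ one_lt_l.le h))

theorem bl_meas (n : ℕ) : MeasurableSet (bl l n : Set ℚ_[l]) :=
  Metric.isClosed_closedBall.measurableSet

theorem bl_ne_zero (m : Measure ℚ_[l]) [m.IsAddHaarMeasure] (n : ℕ) : m (bl l n) ≠ 0 :=
  (Metric.measure_closedBall_pos m 0 (pow_pos (zero_lt_one.trans one_lt_l) n)).ne'

theorem bl_ne_top (m : Measure ℚ_[l]) [m.IsAddHaarMeasure] (n : ℕ) : m (bl l n) ≠ ⊤ :=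
  (isCompact_closedBall _ _).measure_lt_top.ne

theorem bl_shift (m : Measure ℚ_[l]) [m.IsAddHaarMeasure] (n : ℕ) (x : ℚ_[l]) :
    m {s | s - x ∈ bl l n} = m (bl l n) := by
  rw [← measure_preimage_add_right m (-x) (bl l n)]
  congr 1
  ext s; simp [sub_eq_add_neg]

theorem bl_three (hl : l ≠ 2) (m : Measure ℚ_[l]) [m.IsAddHaarMeasure] (n : ℕ) :
    3 * m (bl l n) ≤ m (bl l (n + 1)) := by
  set x : ℚ_[l] := ((l : ℚ_[l])⁻¹) ^ (n + 1) with hx
  have nx : ‖x‖ = (l : ℝ) ^ (n + 1) := by rw [hx, norm_pow, norm_inv, Padic.norm_p, inv_inv]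
  have n2 : ‖(2 : ℚ_[l])‖ = 1 := by
    have := (Padic.norm_natCast_eq_one_iff (p := l) (n := 2)).2
      ((Nat.coprime_primes Fact.out Nat.prime_two).2 hl)
    simpa using this
  have hlt : (l : ℝ) ^ n < (l : ℝ) ^ (n + 1) := pow_lt_pow_right₀ one_lt_l n.lt_succ_self
  have x1 : x ∉ bl l n := fun h => by have := mem_bl.1 h; linarith
  have x2 : x + x ∉ bl l n := fun h => by
    have := mem_bl.1 h
    rw [← two_mul, norm_mul, n2, nx] at this; linarith
  have xin : x ∈ bl l (n + 1) := mem_bl.2 nx.le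
  have ms : ∀ y : ℚ_[l], MeasurableSet {s | s - y ∈ bl l n} := fun y =>
    (measurable_id.sub_const y) (bl_meas n)
  have d1 : Disjoint {s | s - 0 ∈ bl l n} {s | s - x ∈ bl l n} := by
    rw [Set.disjoint_left]
    intro s h1 h2
    exact x1 (by simpa using (bl l n).sub_mem h1 h2)
  have d2 : Disjoint ({s | s - 0 ∈ bl l n} ∪ {s | s - x ∈ bl l n}) {s | s - -x ∈ bl l n} := by
    rw [Set.disjoint_left]
    rintro s (h1 | h1) h2
    · exact x1 (by simpa using (bl l n).sub_mem h2 h1)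
    · refine x2 ?_
      have := (bl l n).sub_mem h2 h1
      convert this using 1
      ring
  calc 3 * m (bl l n) = m {s | s - 0 ∈ bl l n} + m {s | s - x ∈ bl l n} +
        m {s | s - -x ∈ bl l n} := by rw [bl_shift, bl_shift, bl_shift]; ring
    _ = m (({s | s - 0 ∈ bl l n} ∪ {s | s - x ∈ bl l n}) ∪ {s | s - -x ∈ bl l n}) := by
        rw [measure_union d2 (ms _), measure_union d1 (ms _)]
    _ ≤ _ := by
        refine measure_mono ?_
        have hle := bl_mono (l := l) n.le_succ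
        rintro s ((h | h) | h)
        · exact hle (by simpa using h)
        · simpa using (bl l (n + 1)).add_mem (hle h) xin
        · simpa using (bl l (n + 1)).sub_mem (hle h) xin

/-- Choice of a good time in a ball. -/
theorem pick (hl : l ≠ 2) (m : Measure ℚ_[l]) [m.IsAddHaarMeasure] (n : ℕ) (s₀ : ℚ_[l])
    {A₁ A₂ : Set ℚ_[l]} (h₁ : 10 * m (A₁ ∩ bl l (n + 1)) ≤ m (bl l (n + 1)))
    (h₂ : 10 * m (A₂ ∩ bl l (n + 1)) ≤ m (bl l (n + 1))) :
    ∃ s, s ∉ A₁ ∧ s ∉ A₂ ∧ (l : ℝ) ^ n < ‖s‖ ∧ ‖s‖ ≤ (l : ℝ) ^ (n + 1) ∧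
      (l : ℝ) ^ n < ‖s - s₀‖ := by
  by_contra hc
  have hsub : (bl l (n + 1) : Set ℚ_[l]) ⊆ ((A₁ ∩ bl l (n + 1)) ∪ (A₂ ∩ bl l (n + 1))) ∪
      ((bl l n : Set ℚ_[l]) ∪ {s | s - s₀ ∈ bl l n}) := by
    intro s hs
    by_contra hn
    simp only [mem_union, mem_inter_iff, not_or, not_and, mem_ofPred_eq, SetLike.mem_coe,
      mem_bl, not_le] at hn
    have hs' := mem_bl.1 hs
    exact hc ⟨s, fun h => absurd hs' (not_le.2 (hn.1.1 h)), fun h => absurd hs' (not_le.2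
      (hn.1.2 h)), hn.2.1, hs', hn.2.2⟩
  have h3 := bl_three hl m n
  have h4 : m (bl l (n + 1)) ≤ (m (A₁ ∩ bl l (n + 1)) + m (A₂ ∩ bl l (n + 1))) +
      (m (bl l n) + m (bl l n)) := by
    refine (measure_mono hsub).trans ((measure_union_le _ _).trans (add_le_add
      (measure_union_le _ _) ((measure_union_le _ _).trans (le_of_eq ?_))))
    rw [bl_shift]
  have h5 : 30 * m (bl l (n + 1)) ≤ 26 * m (bl l (n + 1)) :=
    calc 30 * m (bl l (n + 1)) ≤ 30 * ((m (A₁ ∩ bl l (n + 1)) + m (A₂ ∩ bl l (n + 1))) +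
          (m (bl l n) + m (bl l n))) := mul_le_mul_right h4 _
      _ = 3 * (10 * m (A₁ ∩ bl l (n + 1))) + 3 * (10 * m (A₂ ∩ bl l (n + 1))) +
          20 * (3 * m (bl l n)) := by ring
      _ ≤ 3 * m (bl l (n + 1)) + 3 * m (bl l (n + 1)) + 20 * m (bl l (n + 1)) := by gcongr
      _ = 26 * m (bl l (n + 1)) := by ring
  have := (ENNReal.mul_le_mul_iff_left (bl_ne_zero m (n + 1)) (bl_ne_top m (n + 1))).1 h5
  norm_num at this

/-- Divergence of the quadratic polynomial. -/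
theorem poly {c u r : ℚ_[l]} (hc : c ≠ 0) (hu : ‖u‖ * ‖c‖ < 1) (hr : ‖r‖ * ‖c‖ ^ 2 < 1)
    (h : r ≠ 0 ∨ u ≠ 0) : ∃ (n : ℕ) (s₀ : ℚ_[l]), ∀ s : ℚ_[l], (l : ℝ) ^ n < ‖s‖ →
      ‖s‖ ≤ (l : ℝ) ^ (n + 1) → (l : ℝ) ^ n < ‖s - s₀‖ →
      ((l : ℝ) ^ 2)⁻¹ ≤ ‖c * s * u - (c * s) ^ 2 * r‖ ∧
        ‖c * s * u - (c * s) ^ 2 * r‖ ≤ 2 * (l : ℝ) ^ 2 ∧ ‖c * s * r‖ ^ 2 ≤ ‖r‖ * (l : ℝ) ^ 2 := by
  have hl := one_lt_l (l := l)
  have hl0 : (0 : ℝ) < l := by linarith
  have hc0 : 0 < ‖c‖ := norm_pos_iff.2 hc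
  set α := ‖u‖ * ‖c‖ with hα
  set β := ‖r‖ * ‖c‖ ^ 2 with hβ
  have α0 : 0 ≤ α := by positivity
  have β0 : 0 ≤ β := by positivity
  have hex : ∃ n : ℕ, 1 ≤ α * (l : ℝ) ^ n ∨ 1 ≤ β * ((l : ℝ) ^ n) ^ 2 := by
    rcases h with h | h
    · have hb : 0 < β := by have := norm_pos_iff.2 h; positivity
      obtain ⟨n, hn⟩ := pow_unbounded_of_one_lt β⁻¹ hl
      refine ⟨n, Or.inr ?_⟩
      have h1 : 1 ≤ (l : ℝ) ^ n := one_le_pow₀ hl.le
      have h2 : β * β⁻¹ = 1 := mul_inv_cancel₀ hb.ne'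
      have h3 : 1 ≤ β * (l : ℝ) ^ n := by nlinarith
      nlinarith
    · have hb : 0 < α := by have := norm_pos_iff.2 h; positivity
      obtain ⟨n, hn⟩ := pow_unbounded_of_one_lt α⁻¹ hl
      refine ⟨n, Or.inl ?_⟩
      have h2 : α * α⁻¹ = 1 := mul_inv_cancel₀ hb.ne'
      nlinarith
  classical
  have hN := Nat.find_spec hex
  have hN0 : Nat.find hex ≠ 0 := fun h0 => by
    rw [h0] at hN
    rcases hN with h' | h' <;> simp at h' <;> linarith
  obtain ⟨n, hn⟩ := Nat.exists_eq_succ_of_ne_zero hN0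
  have hmin := Nat.find_min hex (m := n) (by omega)
  rw [hn] at hN
  rw [not_or, not_le, not_le] at hmin
  set L := (l : ℝ) ^ n with hL
  have L0 : 0 < L := pow_pos hl0 n
  have eL : (l : ℝ) ^ n.succ = L * l := pow_succ _ _
  rw [eL] at hN
  refine ⟨n, u / (c * r), fun s h1 h2 h3 => ?_⟩
  rw [eL] at h2
  have s0 : 0 < ‖s‖ := L0.trans h1
  have n1 : ‖c * s * u‖ = α * ‖s‖ := by rw [norm_mul, norm_mul, hα]; ring
  have n2 : ‖(c * s) ^ 2 * r‖ = β * ‖s‖ ^ 2 := by rw [norm_mul, norm_pow, norm_mul, hβ]; ring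
  have b1 : α * ‖s‖ ≤ l := by
    calc α * ‖s‖ ≤ α * (L * l) := by gcongr
      _ = α * L * l := by ring
      _ ≤ 1 * l := by gcongr; exact hmin.1.le
      _ = l := one_mul _
  have b2 : β * ‖s‖ ^ 2 ≤ (l : ℝ) ^ 2 := by
    calc β * ‖s‖ ^ 2 ≤ β * (L * l) ^ 2 := by gcongr
      _ = β * L ^ 2 * (l : ℝ) ^ 2 := by ring
      _ ≤ 1 * (l : ℝ) ^ 2 := by gcongr; exact hmin.2.le
      _ = _ := one_mul _
  refine ⟨?_, ?_, ?_⟩
  · rw [inv_le_iff_one_le_mul₀ (by positivity)]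
    set f := ‖c * s * u - (c * s) ^ 2 * r‖ with hf
    have f0 : 0 ≤ f := norm_nonneg _
    by_cases hr0 : r = 0
    · have e : f = α * ‖s‖ := by rw [hf, hr0, mul_zero, sub_zero, n1]
      have hβ0 : β = 0 := by rw [hβ, hr0]; simp
      rcases hN with h' | h'
      · calc 1 ≤ α * (L * l) := h'
          _ ≤ α * (‖s‖ * (l : ℝ) ^ 2) := by gcongr; nlinarith
          _ = f * (l : ℝ) ^ 2 := by rw [e]; ring
      · rw [hβ0] at h'; norm_num at h'
    · have e : f = β * ‖s‖ * ‖s - u / (c * r)‖ := by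
        have : c * s * u - (c * s) ^ 2 * r = -(r * c ^ 2 * s * (s - u / (c * r))) := by
          field_simp; ring
        rw [hf, this, norm_neg, norm_mul, norm_mul, norm_mul, norm_pow]
      have f1 : β * ‖s‖ * L ≤ f := by rw [e]; gcongr
      have f2 : β * ‖s‖ ^ 2 ≤ f * l := by
        calc β * ‖s‖ ^ 2 = β * ‖s‖ * ‖s‖ := by ring
          _ ≤ β * ‖s‖ * (L * l) := by gcongr
          _ = β * ‖s‖ * L * l := by ring
          _ ≤ f * l := by gcongr
      rcases hN with h' | h'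
      · have f3 : α * ‖s‖ ≤ f * l := by
          have := Padic.nonarchimedean (c * s * u - (c * s) ^ 2 * r) ((c * s) ^ 2 * r)
          rw [sub_add_cancel, n1, n2] at this
          refine this.trans (max_le ?_ f2)
          exact le_mul_of_one_le_right f0 hl.le
        calc 1 ≤ α * (L * l) := h'
          _ ≤ α * (‖s‖ * l) := by gcongr
          _ = α * ‖s‖ * l := by ring
          _ ≤ f * l * l := by gcongr
          _ = f * (l : ℝ) ^ 2 := by ring
      · calc 1 ≤ β * (L * l) ^ 2 := h'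
          _ = β * L * L * (l : ℝ) ^ 2 := by ring
          _ ≤ β * ‖s‖ * L * (l : ℝ) ^ 2 := by gcongr
          _ ≤ f * (l : ℝ) ^ 2 := by gcongr
  · refine (norm_sub_le _ _).trans ?_
    rw [n1, n2]
    nlinarith
  · calc ‖c * s * r‖ ^ 2 = ‖r‖ * (β * ‖s‖ ^ 2) := by rw [norm_mul, norm_mul, hβ]; ring
      _ ≤ _ := by gcongr

end Pool.Agent.Lib.MP_9177b7_ag.J.Div
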