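import Mathlib
import Pool.Agent.Lib.MP_9177b7_ag.J.Div1

/-!
Polynomial divergence for joinings invariant under a twisted diagonal.
-/

open MeasureTheory ProbabilityTheory Filter Topology Set
open scoped MatrixGroups ENNReal NNReal

noncomputable section

namespace Pool.Agent.Lib.MP_9177b7_ag.J

namespace Div

section alg

variable {F : Type} [Field F]

theorem up_add (s t : F) : up (s + t) = up s * up t := by
  ext i j
  fin_cases i <;> fin_cases j <;> simp [up, Matrix.mul_apply, Fin.sum_univ_two, add_comm]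

theorem up_inv (s : F) : (up s)⁻¹ = up (-s) := by
  rw [inv_eq_iff_mul_eq_one, ← up_add]
  ext i j
  fin_cases i <;> fin_cases j <;> simp [up]

theorem lo_inv (s : F) : (lo s)⁻¹ = lo (-s) := by
  rw [inv_eq_iff_mul_eq_one]
  ext i j
  fin_cases i <;> fin_cases j <;> simp [lo, Matrix.mul_apply, Fin.sum_univ_two]

theorem sg_up (c : Fˣ) (s : F) : sg c (up s) = up (c * s) := by
  ext i j
  fin_cases i <;> fin_cases j <;> simp [sg, up]

theorem sg_lo (c : Fˣ) (s : F) : sg c (lo s) = lo ((c : F)⁻¹ * s) := by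
  ext i j
  fin_cases i <;> fin_cases j <;> simp [sg, lo]

theorem conj_up (x : F) (e : SL(2, F)) :
    (up x * e * (up x)⁻¹) 0 0 = e 0 0 + x * e 1 0 ∧
    (up x * e * (up x)⁻¹) 0 1 = e 0 1 + (x * (e 1 1 - e 0 0) - x ^ 2 * e 1 0) ∧
    (up x * e * (up x)⁻¹) 1 0 = e 1 0 ∧ (up x * e * (up x)⁻¹) 1 1 = e 1 1 - x * e 1 0 := by
  rw [up_inv]
  refine ⟨?_, ?_, ?_, ?_⟩ <;> simp [up, Matrix.mul_apply, Fin.sum_univ_two, Matrix.vecMul, dotProduct] <;> ring

/-- The elements whose conjugates by upper unipotents diverge, and the element `-1`. -/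
def Gen (e : SL(2, F)) : Prop := (e 1 0 ≠ 0 ∨ e 1 1 - e 0 0 ≠ 0) ∨ e 0 0 = -1

theorem gen_or {e : SL(2, F)} (he : e ≠ 1) {y : F} (hy : y ≠ 0) :
    Gen e ∨ Gen (lo y * e * (lo y)⁻¹) := by
  by_cases h1 : e 1 0 = 0
  swap
  · exact Or.inl (Or.inl (Or.inl h1))
  by_cases h2 : e 1 1 - e 0 0 = 0
  swap
  · exact Or.inl (Or.inl (Or.inr h2))
  have h2' : e 1 1 = e 0 0 := sub_eq_zero.1 h2
  by_cases h3 : e 0 1 = 0
  · have hd := e.det_coe
    rw [Matrix.det_fin_two, h1, h2', mul_zero, sub_zero, mul_self_eq_one_iff] at hd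
    rcases hd with hd | hd
    · refine absurd ?_ he
      ext i j
      fin_cases i <;> fin_cases j <;> simp [h1, h2', h3, hd]
    · exact Or.inl (Or.inr hd)
  · refine Or.inr (Or.inl (Or.inl ?_))
    have : (lo y * e * (lo y)⁻¹) 1 0 = -(y ^ 2 * e 0 1) := by
      rw [lo_inv]
      simp [lo, Matrix.mul_apply, Fin.sum_univ_two, Matrix.vecMul, dotProduct, h1, h2']
      ring
    rw [this]
    exact neg_ne_zero.2 (mul_ne_zero (pow_ne_zero 2 hy) h3)

end alg

variable {l : ℕ} [Fact l.Prime]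

/-- The integral points as a subgroup. -/
def Ks (l : ℕ) [Fact l.Prime] : Subgroup (HH l) where
  carrier := Kint l
  mul_mem' {g h} hg hh i j := by
    simp only [Matrix.SpecialLinearGroup.coe_mul, Matrix.mul_apply, Fin.sum_univ_two]
    refine (Padic.nonarchimedean _ _).trans (max_le ?_ ?_) <;> rw [norm_mul] <;>
      exact mul_le_one₀ (hg _ _) (norm_nonneg _) (hh _ _)
  one_mem' i j := by fin_cases i <;> fin_cases j <;> simp
  inv_mem' {g} hg i j := by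
    rw [Matrix.SpecialLinearGroup.SL2_inv_expl]
    fin_cases i <;> fin_cases j <;> simp [hg _ _]

theorem lo_one_mem : lo (1 : ℚ_[l]) ∈ Ks l := fun i j => by
  fin_cases i <;> fin_cases j <;> simp [lo]

theorem cont_entry (i j : Fin 2) : Continuous fun g : HH l => g i j :=
  Matrix.SpecialLinearGroup.isClosedEmbedding_val.continuous.matrix_elem i j

theorem K_compact : IsCompact (Ks l : Set (HH l)) := by
  have h : IsCompact (Set.pi univ fun _ : Fin 2 => Set.pi univ fun _ : Fin 2 =>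
      Metric.closedBall (0 : ℚ_[l]) 1) :=
    isCompact_univ_pi fun _ => isCompact_univ_pi fun _ => isCompact_closedBall _ _
  have := (Matrix.SpecialLinearGroup.isClosedEmbedding_val (n := Fin 2)
    (R := ℚ_[l])).isCompact_preimage h
  refine this.of_isClosed_subset ?_ fun g hg i _ j _ => mem_closedBall_zero_iff.2 (hg i j)
  have : (Ks l : Set (HH l)) = ⋂ i, ⋂ j, (fun g : HH l => g i j) ⁻¹' Metric.closedBall 0 1 := by
    ext g
    simp only [mem_iInter, mem_preimage, mem_closedBall_zero_iff]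
    rfl
  rw [this]
  exact isClosed_iInter fun i => isClosed_iInter fun j =>
    Metric.isClosed_closedBall.preimage (cont_entry i j)

theorem K_open : IsOpen (Ks l : Set (HH l)) := by
  have : (Ks l : Set (HH l)) = ⋂ i, ⋂ j, (fun g : HH l => g i j) ⁻¹' Metric.closedBall 0 1 := by
    ext g
    simp only [mem_iInter, mem_preimage, mem_closedBall_zero_iff]
    rfl
  rw [this]
  exact isOpen_iInter_of_finite fun i => isOpen_iInter_of_finite fun j =>
    (IsUltrametricDist.isOpen_closedBall 0 one_ne_zero).preimage (cont_entry i j)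

theorem tendsto_SL {ι : Type*} {𝓕 : Filter ι} {g : ι → HH l} {h : HH l}
    (H : ∀ i j, Tendsto (fun n => g n i j) 𝓕 (𝓝 (h i j))) : Tendsto g 𝓕 (𝓝 h) :=
  Matrix.SpecialLinearGroup.isClosedEmbedding_val.isInducing.tendsto_nhds_iff.2
    (tendsto_pi_nhds.2 fun i => tendsto_pi_nhds.2 fun j => H i j)

theorem cont_sg (c : ℚ_[l]ˣ) : Continuous (sg c : HH l → HH l) := by
  refine continuous_iff_continuousAt.2 fun g => tendsto_SL fun i j => ?_
  fin_cases i <;> fin_cases j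
  · exact (cont_entry 0 0).tendsto g
  · exact ((cont_entry 0 1).const_mul (c : ℚ_[l])).tendsto g
  · exact ((cont_entry 1 0).const_mul (c : ℚ_[l])⁻¹).tendsto g
  · exact (cont_entry 1 1).tendsto g

theorem cont_up : Continuous (up : ℚ_[l] → HH l) := by
  refine continuous_iff_continuousAt.2 fun g => tendsto_SL fun i j => ?_
  fin_cases i <;> fin_cases j
  · exact tendsto_const_nhds
  · exact tendsto_id
  · exact tendsto_const_nhds
  · exact tendsto_const_nhds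

variable (S : Sp l) (c : ℚ_[l]ˣ)

/-- The twisted diagonal action. -/
def D (h : HH l) : S.X × S.X → S.X × S.X := S.h2 (h, sg c h)

theorem D_mul (g h : HH l) (w : S.X × S.X) : D S c (g * h) w = D S c g (D S c h w) := by
  simp only [D, Sp.h2, Sp.hs, smul_smul, Prod.mk_mul_mk, map_mul, mul_one]

theorem cont_g2 : Continuous fun p : (S.G × S.G) × (S.X × S.X) => S.g2 p.1 p.2 := by
  unfold Sp.g2
  fun_prop

theorem cont_D : Continuous fun p : (S.X × S.X) × HH l => D S c p.2 p.1 := by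
  have := cont_sg c
  unfold D Sp.h2 Sp.hs
  fun_prop

theorem D_g2 (g : HH l) (η : S.G × S.G) (w : S.X × S.X) :
    D S c (g * η.1.1⁻¹) (S.g2 η w) = S.g2 ((1, η.1.2),
      (sg c g * ((sg c η.1.1)⁻¹ * η.2.1) * (sg c g)⁻¹, η.2.2)) (D S c g w) := by
  obtain ⟨⟨h1, c1⟩, ⟨h2, c2⟩⟩ := η
  simp only [D, Sp.h2, Sp.hs, Sp.g2, smul_smul, Prod.mk_mul_mk, map_mul, map_inv, mul_one, one_mul,
    mul_assoc, inv_mul_cancel]

/-- Averaging over the compact group. -/
theorem select (θ : Measure (S.X × S.X)) [IsProbabilityMeasure θ]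
    (hθ : ∀ h, θ.map (D S c h) = θ) {B : Set (S.X × S.X)} (hB : MeasurableSet B)
    (hB1 : 10 * θ B ≤ 1) : ∃ Q : Set (S.X × S.X), IsCompact Q ∧ 0 < θ Q ∧
      ∀ w ∈ Q, ∀ w' ∈ Q, ∀ h ∈ Ks l, ∀ e : HH l, e ≠ 1 → ∃ k ∈ Ks l, D S c k w ∉ B ∧
        D S c (k * h⁻¹) w' ∉ B ∧ Gen (sg c k * e * (sg c k)⁻¹) := by
  let K₀ : TopologicalSpace.PositiveCompacts (HH l) :=
    ⟨⟨Ks l, K_compact⟩, by
      change (interior (Ks l : Set (HH l))).Nonempty
      rw [K_open.interior_eq]; exact ⟨1, (Ks l).one_mem⟩⟩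
  let m : Measure (HH l) := Measure.haarMeasure K₀
  have mK : m (Ks l) = 1 := Measure.haarMeasure_self
  have hK : MeasurableSet (Ks l : Set (HH l)) := K_open.measurableSet
  let ν : Measure (HH l) := m.restrict (Ks l)
  have ν1 : ν univ = 1 := by simp [ν, mK]
  have : IsFiniteMeasure ν := ⟨by rw [ν1]; exact ENNReal.one_lt_top⟩
  have mD : ∀ h, Measurable (D S c h) := fun h =>
    ((cont_D S c).comp (continuous_id.prodMk continuous_const)).measurable
  set B₂ := B ∪ D S c (lo 1) ⁻¹' B with hB₂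
  have mB₂ : MeasurableSet B₂ := hB.union (mD _ hB)
  have θB₂ : θ B₂ ≤ θ B + θ B := by
    refine (measure_union_le _ _).trans (le_of_eq ?_)
    rw [← Measure.map_apply (mD _) hB, hθ]
  have hA : Measurable fun p : (S.X × S.X) × HH l => D S c p.2⁻¹ p.1 :=
    ((cont_D S c).comp (continuous_fst.prodMk continuous_snd.inv)).measurable
  have inv : ∀ t ∈ Ks l, ∀ w, ν {k | D S c k⁻¹ (D S c t⁻¹ w) ∈ B₂} = ν {k | D S c k⁻¹ w ∈ B₂} := by
    intro t ht w
    simp only [ν, Measure.restrict_apply' hK]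
    rw [← measure_preimage_mul m t ({k | D S c k⁻¹ w ∈ B₂} ∩ Ks l)]
    congr 1
    ext k
    simp only [mem_inter_iff, mem_ofPred_eq, mem_preimage, mul_inv_rev, D_mul, SetLike.mem_coe,
      (Ks l).mul_mem_cancel_left ht]
  set B₃ := {w | 1 ≤ 3 * ν {k | D S c k⁻¹ w ∈ B₂}} with hB₃
  have mB₃ : MeasurableSet B₃ :=
    measurableSet_le measurable_const ((meas_av ν (A := fun k => D S c k⁻¹) hA mB₂).const_mul 3)
  have θB₃ : θ B₃ ≤ 3 * θ (B₃ ∩ B₂) := by
    refine markov_av ν θ (A := fun k => D S c k⁻¹) hA (fun k => hθ _) mB₂ mB₃ ?_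
      (by rw [ν1]; exact one_ne_zero) fun w hw => by rw [ν1]; exact hw
    refine (ae_restrict_iff' hK).2 (Eventually.of_forall fun t ht w => ?_)
    simp only [hB₃, mem_ofPred_eq, inv t ht w]
  have pos : 0 < θ B₃ᶜ := by
    rw [pos_iff_ne_zero]
    intro h0
    have h1 : θ B₃ = 1 := (prob_compl_eq_zero_iff mB₃).1 h0
    have h2 : (10 : ℝ≥0∞) ≤ 6 :=
      calc (10 : ℝ≥0∞) = 10 * θ B₃ := by rw [h1, mul_one]
        _ ≤ 10 * (3 * (θ B + θ B)) := by
          gcongr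
          exact θB₃.trans (mul_le_mul_right ((measure_mono inter_subset_right).trans θB₂) _)
        _ = 6 * (10 * θ B) := by ring
        _ ≤ 6 * 1 := by gcongr
        _ = 6 := mul_one _
    norm_num at h2
  obtain ⟨Q, hQ, cQ, pQ⟩ := mB₃.compl.exists_lt_isCompact_of_ne_top (measure_ne_top θ _) pos
  refine ⟨Q, cQ, pQ, fun w hw w' hw' h hh e he => ?_⟩
  have a1 : 3 * ν {k | D S c k⁻¹ w ∈ B₂} < 1 := not_le.1 (hQ hw)
  have a2 : 3 * ν {k | D S c k⁻¹ (D S c h⁻¹ w') ∈ B₂} < 1 := by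
    rw [inv h hh]; exact not_le.1 (hQ hw')
  have ex : ∃ k ∈ Ks l, D S c k⁻¹ w ∉ B₂ ∧ D S c k⁻¹ (D S c h⁻¹ w') ∉ B₂ := by
    by_contra hc
    have h1 : ν univ ≤ ν ({k | D S c k⁻¹ w ∈ B₂} ∪ {k | D S c k⁻¹ (D S c h⁻¹ w') ∈ B₂}) := by
      simp only [ν, Measure.restrict_apply' hK]
      refine measure_mono fun k hk => ⟨?_, hk.2⟩
      by_contra hn
      simp only [mem_union, mem_ofPred_eq, not_or] at hn
      exact hc ⟨k, hk.2, hn⟩
    rw [ν1] at h1
    have h2 : (3 : ℝ≥0∞) ≤ 2 :=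
      calc (3 : ℝ≥0∞) = 3 * 1 := (mul_one _).symm
        _ ≤ 3 * (ν {k | D S c k⁻¹ w ∈ B₂} + ν {k | D S c k⁻¹ (D S c h⁻¹ w') ∈ B₂}) :=
          mul_le_mul_right (h1.trans (measure_union_le _ _)) _
        _ ≤ 1 + 1 := by rw [mul_add]; exact add_le_add a1.le a2.le
        _ = 2 := one_add_one_eq_two
    norm_num at h2
  obtain ⟨k, hk, k1, k2⟩ := ex
  simp only [hB₂, mem_union, mem_preimage, not_or, ← D_mul] at k1 k2
  have he' : sg c k⁻¹ * e * (sg c k⁻¹)⁻¹ ≠ 1 := fun h1 => he (by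
    rwa [mul_inv_eq_one, mul_eq_left] at h1)
  rcases gen_or he' (y := (c : ℚ_[l])⁻¹ * 1) (by simp) with hg | hg
  · exact ⟨k⁻¹, (Ks l).inv_mem hk, k1.1, k2.1, hg⟩
  · refine ⟨lo 1 * k⁻¹, (Ks l).mul_mem lo_one_mem ((Ks l).inv_mem hk), k1.2, ?_, ?_⟩
    · rw [mul_assoc]; exact k2.2
    · rw [← sg_lo] at hg
      convert hg using 1
      rw [map_mul, mul_inv_rev]
      simp only [mul_assoc]

end Div

open _root_.Pool.Agent.Lib.MP_9177b7_ag.J.Div in
theorem div : DivStmt := by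
  intro l _ hl S θ W c hP hW hequi hθ hq
  have hθ' : ∀ h, θ.map (D S c h) = θ := hθ
  -- the compact good set
  obtain ⟨Gd, GW, cG, θG⟩ : ∃ Gd : Set (S.X × S.X), Gd ⊆ W ∧ IsCompact Gd ∧ 100 * θ Gdᶜ ≤ 1 := by
    have mZ : MeasurableSet (toMeasurable θ Wᶜ)ᶜ := (measurableSet_toMeasurable θ _).compl
    have Z0 : θ (toMeasurable θ Wᶜ) = 0 := by rw [measure_toMeasurable]; exact hW
    obtain ⟨Gd, h1, h2, h3⟩ := mZ.exists_isCompact_sdiff_lt (measure_ne_top θ _)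
      (ε := 100⁻¹) (by simp)
    refine ⟨Gd, fun w hw => ?_, h2, ?_⟩
    · by_contra hn
      exact h1 hw (subset_toMeasurable θ _ hn)
    · have : θ Gdᶜ ≤ 100⁻¹ :=
        calc θ Gdᶜ ≤ θ (toMeasurable θ Wᶜ ∪ (toMeasurable θ Wᶜ)ᶜ \ Gd) := by
              refine measure_mono fun w hw => ?_
              by_cases hz : w ∈ toMeasurable θ Wᶜ
              · exact Or.inl hz
              · exact Or.inr ⟨hz, hw⟩
          _ ≤ _ := (measure_union_le _ _).trans (by rw [Z0, zero_add]; exact h3.le)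
      calc 100 * θ Gdᶜ ≤ 100 * 100⁻¹ := mul_le_mul_right this _
        _ = 1 := ENNReal.mul_inv_cancel (by simp) (by simp)
  -- the maximal inequality
  let m : Measure ℚ_[l] := Measure.addHaar
  obtain ⟨mB, θB⟩ := maximal m (bl l) bl_mono bl_meas (bl_ne_zero m) (bl_ne_top m) θ
    (A := fun t => D S c (up t))
    ((cont_D S c).comp (continuous_fst.prodMk (cont_up.comp continuous_snd))).measurable
    (fun t => hθ' _) (fun s t w => by rw [up_add, D_mul]) cG.isClosed.isOpen_compl.measurableSet 10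
  set B := {w | ∃ n, m (bl l n) < 10 * m ({t | D S c (up t) w ∈ Gdᶜ} ∩ bl l n)} with hB
  obtain ⟨Q, cQ, pQ, hQ⟩ := select S c θ hθ' mB (B := B) (by
    calc 10 * θ B ≤ 10 * (10 * θ Gdᶜ) := mul_le_mul_right θB _
      _ = 100 * θ Gdᶜ := by ring
      _ ≤ 1 := θG)
  refine ⟨Q, cQ, pQ, ?_⟩
  by_contra hc
  obtain ⟨O, hO⟩ := (𝓝 (1 : S.G × S.G)).exists_antitone_basis
  have hKn : {η : S.G × S.G | η.1.1 ∈ Ks l} ∈ 𝓝 (1 : S.G × S.G) :=
    (K_open.preimage (continuous_fst.comp continuous_fst)).mem_nhds (Ks l).one_mem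
  have ex : ∀ n, ∃ w ∈ Q, ∃ η ∈ O n, η.1.1 ∈ Ks l ∧ S.g2 η w ∈ Q ∧ η.2.1 ≠ sg c η.1.1 := by
    intro n
    by_contra hn
    refine hc ⟨O n ∩ {η | η.1.1 ∈ Ks l}, inter_mem (hO.mem n) hKn, fun w hw η hη h => ?_⟩
    by_contra hne
    exact hn ⟨w, hw, η, hη.1, hη.2, h, hne⟩
  choose w hw η hη hηK hw' hne using ex
  have ηlim : Tendsto η atTop (𝓝 1) := hO.tendsto hη
  set e₀ : ℕ → HH l := fun n => (sg c (η n).1.1)⁻¹ * (η n).2.1 with he₀
  have e₀ne : ∀ n, e₀ n ≠ 1 := fun n h => hne n (inv_mul_eq_one.1 h).symm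
  choose k hk k1 k2 kg using fun n => hQ (w n) (hw n) _ (hw' n) _ (hηK n) (e₀ n) (e₀ne n)
  let 𝒰 : Ultrafilter ℕ := hyperfilter ℕ
  have hU : (𝒰 : Filter ℕ) ≤ atTop := by
    rw [← Nat.cofinite_eq_atTop]; exact hyperfilter_le_cofinite
  have cpt : ∀ {Z : Type} [TopologicalSpace Z] {C : Set Z} {f : ℕ → Z}, IsCompact C →
      (∀ᶠ n in 𝒰, f n ∈ C) → ∃ z ∈ C, Tendsto f 𝒰 (𝓝 z) := fun {Z} _ {C} {f} hC hf =>
    hC.ultrafilter_le_nhds (𝒰.map f) (le_principal_iff.2 hf)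
  obtain ⟨k₀, -, klim⟩ := cpt K_compact (Eventually.of_forall hk)
  have ηl : Tendsto η 𝒰 (𝓝 1) := ηlim.mono_left hU
  have e₀l : Tendsto e₀ 𝒰 (𝓝 1) := by
    have hcont : Continuous fun x : S.G × S.G => (sg c x.1.1)⁻¹ * x.2.1 := by
      have := cont_sg c
      fun_prop
    have := (hcont.tendsto 1).comp ηl
    simp only [Prod.fst_one, Prod.snd_one, map_one, inv_one, mul_one] at this
    exact this
  set e : ℕ → HH l := fun n => sg c (k n) * e₀ n * (sg c (k n))⁻¹ with he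
  have el : Tendsto e 𝒰 (𝓝 1) := by
    have h1 := ((cont_sg c).tendsto k₀).comp klim
    simpa using (h1.mul e₀l).mul h1.inv
  have ent : ∀ i j, Tendsto (fun n => e n i j) 𝒰 (𝓝 ((1 : HH l) i j)) := fun i j =>
    ((cont_entry i j).tendsto 1).comp el
  have e00 : Tendsto (fun n => e n 0 0) 𝒰 (𝓝 1) := by simpa using ent 0 0
  have e01 : Tendsto (fun n => e n 0 1) 𝒰 (𝓝 0) := by simpa using ent 0 1
  have e10 : Tendsto (fun n => e n 1 0) 𝒰 (𝓝 0) := by simpa using ent 1 0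
  have e11 : Tendsto (fun n => e n 1 1) 𝒰 (𝓝 1) := by simpa using ent 1 1
  have v1 : ∀ᶠ n in 𝒰, e n 0 0 ≠ -1 := e00.eventually_ne (by norm_num)
  have v2 : ∀ᶠ n in 𝒰, ‖e n 1 1 - e n 0 0‖ * ‖(c : ℚ_[l])‖ < 1 := by
    have := ((e11.sub e00).norm).mul_const ‖(c : ℚ_[l])‖
    exact this.eventually_lt_const (by simp)
  have v3 : ∀ᶠ n in 𝒰, ‖e n 1 0‖ * ‖(c : ℚ_[l])‖ ^ 2 < 1 := by
    have := (e10.norm).mul_const (‖(c : ℚ_[l])‖ ^ 2)
    exact this.eventually_lt_const (by simp)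
  have v4 : ∀ᶠ n in 𝒰, ∃ s : ℚ_[l], D S c (up s * k n) (w n) ∈ Gd ∧
      D S c (up s * k n * (η n).1.1⁻¹) (S.g2 (η n) (w n)) ∈ Gd ∧
      ((l : ℝ) ^ 2)⁻¹ ≤ ‖c * s * (e n 1 1 - e n 0 0) - (c * s) ^ 2 * e n 1 0‖ ∧
      ‖c * s * (e n 1 1 - e n 0 0) - (c * s) ^ 2 * e n 1 0‖ ≤ 2 * (l : ℝ) ^ 2 ∧
      ‖c * s * e n 1 0‖ ^ 2 ≤ ‖e n 1 0‖ * (l : ℝ) ^ 2 := by
    filter_upwards [v1, v2, v3] with n h1 h2 h3
    obtain ⟨N, s₀, hs⟩ := poly c.ne_zero h2 h3 ((kg n).resolve_right h1)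
    have b1 := k1 n
    have b2 := k2 n
    simp only [hB, mem_ofPred_eq, not_exists, not_lt] at b1 b2
    obtain ⟨s, s1, s2, s3, s4, s5⟩ := pick hl m N s₀ (b1 (N + 1)) (b2 (N + 1))
    simp only [mem_ofPred_eq, mem_compl_iff, not_not, ← D_mul, ← mul_assoc] at s1 s2
    exact ⟨s, s1, s2, hs s s3 s4 s5⟩
  obtain ⟨s, hs⟩ := v4.choice
  obtain ⟨P, hP1, Pl⟩ := cpt cG (hs.mono fun n h => h.1)
  obtain ⟨P', hP2, Pl'⟩ := cpt cG (hs.mono fun n h => h.2.1)
  obtain ⟨q, -, ql⟩ := cpt (isCompact_closedBall (0 : ℚ_[l]) (2 * (l : ℝ) ^ 2))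
    (f := fun n => c * s n * (e n 1 1 - e n 0 0) - (c * s n) ^ 2 * e n 1 0)
    (hs.mono fun n h => mem_closedBall_zero_iff.2 h.2.2.2.1)
  have q0 : q ≠ 0 := by
    have h1 : ((l : ℝ) ^ 2)⁻¹ ≤ ‖q‖ := ge_of_tendsto ql.norm (hs.mono fun n h => h.2.2.1)
    have h2 : (0 : ℝ) < ((l : ℝ) ^ 2)⁻¹ := by
      have := one_lt_l (l := l)
      positivity
    exact norm_pos_iff.1 (h2.trans_le h1)
  have xr : Tendsto (fun n => c * s n * e n 1 0) 𝒰 (𝓝 0) := by
    rw [tendsto_zero_iff_norm_tendsto_zero]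
    have h1 : Tendsto (fun n => √(‖e n 1 0‖ * (l : ℝ) ^ 2)) 𝒰 (𝓝 0) := by
      have := ((e10.norm).mul_const ((l : ℝ) ^ 2)).sqrt
      rwa [norm_zero, zero_mul, Real.sqrt_zero] at this
    exact squeeze_zero' (Eventually.of_forall fun n => norm_nonneg _)
      (hs.mono fun n h => Real.le_sqrt_of_sq_le h.2.2.2.2) h1
  have ul : Tendsto (fun n => up (c * s n) * e n * (up (c * s n))⁻¹) 𝒰 (𝓝 (up q)) := by
    refine tendsto_SL fun i j => ?_
    fin_cases i <;> fin_cases j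
    · have := e00.add xr
      rw [add_zero] at this
      exact this.congr fun n => (conj_up _ _).1.symm
    · have := e01.add ql
      rw [zero_add] at this
      exact this.congr fun n => (conj_up _ _).2.1.symm
    · exact e10.congr fun n => (conj_up _ _).2.2.1.symm
    · have := e11.sub xr
      rw [sub_zero] at this
      exact this.congr fun n => (conj_up _ _).2.2.2.symm
  have c1 : Tendsto (fun n => (η n).1.2) 𝒰 (𝓝 1) :=
    ((continuous_snd.comp continuous_fst).tendsto (1 : S.G × S.G)).comp ηl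
  have c2 : Tendsto (fun n => (η n).2.2) 𝒰 (𝓝 1) :=
    ((continuous_snd.comp continuous_snd).tendsto (1 : S.G × S.G)).comp ηl
  have lim := ((cont_g2 S).tendsto ((((1 : HH l), (1 : S.C)), (up q, (1 : S.C))), P)).comp
    (((tendsto_const_nhds.prodMk_nhds c1).prodMk_nhds (ul.prodMk_nhds c2)).prodMk_nhds Pl)
  have eq : P' = S.h2 (1, up q) P := by
    refine tendsto_nhds_unique Pl' (lim.congr fun n => ?_)
    rw [D_g2, map_mul, sg_up, mul_inv_rev]
    simp only [Function.comp, he, he₀, mul_assoc]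
  exact q0 (hq q (hequi P (GW hP1) _ (eq ▸ GW hP2)))

end Pool.Agent.Lib.MP_9177b7_ag.J
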