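import Pool.Agent.Lib.MP_9177b7_ag.J.DefsA

/-!
Exclusion of graph components: reduction to maps of determinant one.
-/

open Pointwise

namespace Pool.Agent.Lib.MP_9177b7_ag.J

open Fld

namespace Excl

variable {k : Fld}

theorem mem_O {x : k.K} : x ∈ k.O ↔ ∃ a b : ℤ, x.re = a ∧ x.im = b := by
  rw [O, Submodule.mem_span_pair]
  constructor
  · rintro ⟨a, b, rfl⟩
    exact ⟨a, b, by simp [om], by simp [om]⟩
  · rintro ⟨a, b, ha, hb⟩
    exact ⟨a, b, by ext <;> simp [om, ha, hb]⟩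

theorem O_mul {x y : k.K} (hx : x ∈ k.O) (hy : y ∈ k.O) : x * y ∈ k.O := by
  obtain ⟨a, b, ha, hb⟩ := mem_O.mp hx
  obtain ⟨c, d, hc, hd⟩ := mem_O.mp hy
  exact mem_O.mpr ⟨a * c - k.n * b * d, a * d + b * c + k.t * b * d,
    by simp [ha, hb, hc, hd]; ring, by simp [ha, hb, hc, hd]⟩

theorem O_star {x : k.K} (hx : x ∈ k.O) : star x ∈ k.O := by
  obtain ⟨a, b, ha, hb⟩ := mem_O.mp hx
  exact mem_O.mpr ⟨a + k.t * b, -b, by simp [ha, hb], by simp [hb]⟩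

theorem O_om : k.om ∈ k.O := Submodule.subset_span (by simp)

theorem O_one : (1 : k.K) ∈ k.O := Submodule.subset_span (by simp)

theorem nat_mem {L : Submodule ℤ k.K} {x : k.K} (n : ℕ) (hx : x ∈ L) : (n : k.K) * x ∈ L := by
  rw [← nsmul_eq_mul]
  exact nsmul_mem hx n

theorem int_mem {L : Submodule ℤ k.K} {x : k.K} (n : ℤ) (hx : x ∈ L) : (n : k.K) * x ∈ L := by
  rw [← zsmul_eq_mul]
  exact zsmul_mem hx n

theorem mem_of_coprime {L : Submodule ℤ k.K} {x : k.K} {a b : ℕ} (h : Nat.Coprime a b)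
    (ha : (a : k.K) * x ∈ L) (hb : (b : k.K) * x ∈ L) : x ∈ L := by
  obtain ⟨u, v, huv⟩ := Nat.isCoprime_iff_coprime.mpr h
  have e : (u : k.K) * a + v * b = 1 := by exact_mod_cast congrArg (Int.cast : ℤ → k.K) huv
  have e2 : x = u * (a * x) + v * (b * x) := by linear_combination (-x) * e
  rw [e2]
  exact L.add_mem (int_mem u ha) (int_mem v hb)

theorem norm_nonneg' (x : k.K) : 0 ≤ QuadraticAlgebra.norm x := by
  have h1 : ((k.t ^ 2 - 4 * k.n : ℤ) : ℚ) < 0 := by exact_mod_cast k.neg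
  push_cast at h1
  rw [QuadraticAlgebra.norm_def]
  nlinarith [sq_nonneg (2 * x.re + k.t * x.im), sq_nonneg x.im]

theorem N_nonneg (x : k.K) : 0 ≤ k.N x := Rat.cast_nonneg.mpr (norm_nonneg' x)

theorem N_mul (x y : k.K) : k.N (x * y) = k.N x * k.N y := by simp [N]

theorem lat_pos {L : Submodule ℤ k.K} {c : ℚ} (h : k.Lat L c) : 0 < c := by
  obtain ⟨_, _, _, _, h⟩ := h
  exact h

theorem smul_eq_map (a : k.K) (L : Submodule ℤ k.K) : a • L = L.map (k.lin a 0) := by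
  ext x
  simp [Submodule.mem_smul_pointwise_iff_exists, lin]

theorem adm_mul {F : ℕ} (n : ℕ) {L : Submodule ℤ k.K} (h : k.Adm F L) : k.Adm (F * n) L :=
  fun x hx => by
    have := nat_mem n (h x hx)
    push_cast
    convert this using 1
    ring

theorem adm_smul {F : ℕ} (a : k.K) {L : Submodule ℤ k.K} (h : k.Adm F L) : k.Adm F (a • L) := by
  intro x hx
  obtain ⟨y, hy, rfl⟩ := (Submodule.mem_smul_pointwise_iff_exists _ _ _).mp hx
  refine (Submodule.mem_smul_pointwise_iff_exists _ _ _).mpr ⟨_, h y hy, ?_⟩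
  simp only [smul_eq_mul]
  ring

section padic
variable {l : ℕ} [hl : Fact l.Prime] {r : ℚ_[l]}

theorem root_conj (h : k.Root r) : k.Root ((k.t : ℚ_[l]) - r) := by
  unfold Root at h ⊢
  linear_combination h

theorem root_le (h : k.Root r) : ‖r‖ ≤ 1 := by
  by_contra hr
  have h1 : 1 < ‖r‖ := not_le.mp hr
  have h2 : ‖r‖ ^ 2 ≤ max ‖(k.t : ℚ_[l]) * r‖ ‖-(k.n : ℚ_[l])‖ := by
    rw [← norm_pow, h, sub_eq_add_neg]
    exact Padic.nonarchimedean _ _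
  have h3 := Padic.norm_int_le_one (p := l) k.t
  have h4 := Padic.norm_int_le_one (p := l) k.n
  rw [norm_mul, norm_neg] at h2
  rcases le_max_iff.mp h2 with h5 | h5 <;> nlinarith [norm_nonneg (k.t : ℚ_[l])]

theorem norm_nat {u : ℕ} (hu : ¬ l ∣ u) : ‖(u : ℚ_[l])‖ = 1 :=
  le_antisymm (Padic.norm_int_le_one (p := l) (u : ℤ)) (not_lt.mp fun h =>
    hu (Int.natCast_dvd_natCast.mp ((Padic.norm_intCast_lt_one_iff (k := (u : ℤ))).mp h)))

theorem root_sep (h : k.Root r) (hD : ¬ (l : ℤ) ∣ k.D) : ‖(k.t : ℚ_[l]) - r - r‖ = 1 := by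
  have e : ((k.t : ℚ_[l]) - r - r) ^ 2 = (k.D : ℚ_[l]) := by
    unfold Root at h
    simp only [D]
    push_cast
    linear_combination 4 * h
  have h1 : ‖(k.D : ℚ_[l])‖ = 1 := le_antisymm (Padic.norm_int_le_one _)
    (not_lt.mp fun h => hD (Padic.norm_intCast_lt_one_iff.mp h))
  rw [← e, norm_pow] at h1
  exact (pow_eq_one_iff_of_nonneg (norm_nonneg _) two_ne_zero).mp h1

theorem io_le (h : k.Root r) {x : k.K} (hx : x ∈ k.O) : ‖k.io r x‖ ≤ 1 := by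
  obtain ⟨a, b, ha, hb⟩ := mem_O.mp hx
  rw [io, ha, hb, Rat.cast_intCast, Rat.cast_intCast]
  refine (Padic.nonarchimedean _ _).trans (max_le (Padic.norm_int_le_one _) ?_)
  rw [norm_mul]
  exact mul_le_one₀ (Padic.norm_int_le_one _) (norm_nonneg _) (root_le h)

theorem rat_small {q : ℚ} {e : ℕ} (h : ‖(q : ℚ_[l])‖ ≤ ((l : ℝ) ^ e)⁻¹) :
    ∃ w : ℕ, ¬ l ∣ w ∧ ∃ a : ℤ, w * q = l ^ e * a := by
  have hl0 : (l : ℚ) ≠ 0 := Nat.cast_ne_zero.mpr hl.out.ne_zero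
  have hp : (0 : ℝ) < (l : ℝ) ^ e := pow_pos (Nat.cast_pos.mpr hl.out.pos) e
  have h1 : ‖((q / l ^ e : ℚ) : ℚ_[l])‖ ≤ 1 := by
    push_cast
    rw [norm_div, norm_pow, Padic.norm_p, inv_pow, div_le_one (inv_pos.mpr hp)]
    exact h
  set q' := q / l ^ e with hq
  refine ⟨q'.den, fun hd => ?_, q'.num, ?_⟩
  · have h2 : ‖((q'.den : ℤ) : ℚ_[l])‖ < 1 :=
      Padic.norm_intCast_lt_one_iff.mpr (Int.natCast_dvd_natCast.mpr hd)
    have e2 : (q'.num : ℚ_[l]) = ((q'.den : ℤ) : ℚ_[l]) * (q' : ℚ_[l]) := by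
      exact_mod_cast congrArg (Rat.cast : ℚ → ℚ_[l]) (Rat.den_mul_eq_num q').symm
    have h3 : ‖(q'.num : ℚ_[l])‖ < 1 := by
      rw [e2, norm_mul]
      exact mul_lt_one_of_nonneg_of_lt_one_left (norm_nonneg _) h2 h1
    have h4 := Int.natCast_dvd.mp (Padic.norm_intCast_lt_one_iff.mp h3)
    exact hl.out.one_lt.ne' (Nat.eq_one_of_dvd_coprimes q'.reduced h4 hd)
  · rw [← Rat.den_mul_eq_num, hq]
    field_simp

theorem small (h : k.Root r) (hD : ¬ (l : ℤ) ∣ k.D) {β : k.K} {e : ℕ}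
    (h1 : ‖k.io r β‖ ≤ ((l : ℝ) ^ e)⁻¹) (h2 : ‖k.io ((k.t : ℚ_[l]) - r) β‖ ≤ ((l : ℝ) ^ e)⁻¹) :
    ∃ w : ℕ, ¬ l ∣ w ∧ ∃ γ ∈ k.O, (w : k.K) * β = (l : k.K) ^ e * γ := by
  have h3 : ‖(β.im : ℚ_[l])‖ ≤ ((l : ℝ) ^ e)⁻¹ := by
    have e1 : (β.im : ℚ_[l]) * (k.t - r - r) = k.io ((k.t : ℚ_[l]) - r) β + -k.io r β := by
      simp only [io]
      ring
    rw [← mul_one ‖(β.im : ℚ_[l])‖, ← root_sep h hD, ← norm_mul, e1]
    exact (Padic.nonarchimedean _ _).trans (max_le h2 (by rwa [norm_neg]))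
  have h4 : ‖(β.re : ℚ_[l])‖ ≤ ((l : ℝ) ^ e)⁻¹ := by
    have e1 : (β.re : ℚ_[l]) = k.io r β + -(β.im * r) := by
      simp only [io]
      ring
    rw [e1]
    refine (Padic.nonarchimedean _ _).trans (max_le h1 ?_)
    rw [norm_neg, norm_mul]
    exact (mul_le_of_le_one_right (norm_nonneg _) (root_le h)).trans h3
  obtain ⟨w₁, hw₁, a, ha⟩ := rat_small h4
  obtain ⟨w₂, hw₂, b, hb⟩ := rat_small h3
  refine ⟨w₁ * w₂, fun hd => ((Nat.Prime.dvd_mul hl.out).mp hd).elim hw₁ hw₂,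
    ⟨(w₂ * a : ℤ), (w₁ * b : ℤ)⟩, mem_O.mpr ⟨_, _, rfl, rfl⟩, ?_⟩
  rw [← Nat.cast_pow]
  ext
  · simp only [QuadraticAlgebra.re_mul, QuadraticAlgebra.re_natCast, QuadraticAlgebra.im_natCast]
    push_cast
    linear_combination w₂ * ha
  · simp only [QuadraticAlgebra.im_mul, QuadraticAlgebra.re_natCast, QuadraticAlgebra.im_natCast]
    push_cast
    linear_combination w₁ * hb

/-- The image of an almost `K`-linear map is stable under a slightly smaller order. -/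
theorem adm_map (h : k.Root r) (hD : ¬ (l : ℤ) ∣ k.D) {F N' e : ℕ} {A₁ A₂ : Submodule ℤ k.K}
    {α β : k.K} (a1 : k.Adm F A₁) (a2 : k.Adm F A₂) (n1 : k.Nrm l A₁) (n2 : k.Nrm l A₂)
    (hle : A₁.map (k.lin α β) ≤ A₂)
    (hi : ∀ x ∈ A₂, ((l ^ e * N' : ℕ) : k.K) * x ∈ A₁.map (k.lin α β))
    (h1 : ‖k.io r β‖ ≤ ((l : ℝ) ^ e)⁻¹) (h2 : ‖k.io ((k.t : ℚ_[l]) - r) β‖ ≤ ((l : ℝ) ^ e)⁻¹) :
    k.Adm (F * N') (A₁.map (k.lin α β)) := by
  rintro _ ⟨z, hz, rfl⟩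
  obtain ⟨w, hw, γ, hγ, hwγ⟩ := small h hD h1 h2
  obtain ⟨u₁, hu₁, -, b1⟩ := n1
  obtain ⟨u₂, hu₂, b2, -⟩ := n2
  have m1 : k.lin α β (F * k.om * z) ∈ A₁.map (k.lin α β) := Submodule.mem_map_of_mem (a1 z hz)
  have e1 : (F : k.K) * k.om * k.lin α β z - k.lin α β (F * k.om * z)
      = F * (k.om - star k.om) * β * star z := by
    simp only [lin, LinearMap.coe_mk, AddHom.coe_mk, star_mul', star_natCast]
    ring
  have m2 : (F : k.K) * (k.om - star k.om) * β * star z ∈ A₂ :=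
    e1 ▸ A₂.sub_mem (a2 _ (hle (Submodule.mem_map_of_mem hz))) (hle m1)
  have m3 := hi _ (b2 _ (O_mul (nat_mem F (O_mul (k.O.sub_mem O_om (O_star O_om)) hγ))
    (O_star (b1 z hz))))
  have hc : Nat.Coprime (l ^ e) (u₂ * u₁ * w) := Nat.Coprime.pow_left _
    ((Nat.Prime.coprime_iff_not_dvd hl.out).mpr fun hd =>
      ((Nat.Prime.dvd_mul hl.out).mp hd).elim
        (fun hd => ((Nat.Prime.dvd_mul hl.out).mp hd).elim hu₂ hu₁) hw)
  have m4 : (N' : k.K) * (F * (k.om - star k.om) * β * star z) ∈ A₁.map (k.lin α β) := by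
    refine mem_of_coprime hc ?_ ?_
    · convert hi _ m2 using 1
      push_cast
      ring
    · convert m3 using 1
      simp only [star_mul', star_natCast]
      push_cast
      linear_combination (u₂ * u₁ * N' * F * (k.om - star k.om) * star z) * hwγ
  have m5 := Submodule.add_mem _ m4 (nat_mem N' m1)
  rw [← e1] at m5
  convert m5 using 1
  push_cast
  ring

theorem ev_mono {r : ℚ_[l]} {Nn m m' : ℕ} {R : ℝ} {c₁ c₂ : ℚ} {L₁ L₂ : Submodule ℤ k.K}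
    (hm : m ≤ m') (h : k.Ev l r Nn R m' c₁ c₂ L₁ L₂) : k.Ev l r Nn R m c₁ c₂ L₁ L₂ := by
  obtain ⟨α, β, h1, h2, h3, h4, h5, h6, h7⟩ := h
  have hp : (1 : ℝ) ≤ l := Nat.one_le_cast.mpr hl.out.pos
  have : ((l : ℝ) ^ m')⁻¹ ≤ ((l : ℝ) ^ m)⁻¹ :=
    inv_anti₀ (by positivity) (pow_le_pow_right₀ hp hm)
  exact ⟨α, β, h1, h2, h3, h4, h5, h6.trans this, h7.trans this⟩

end padic

theorem pr_mono {F : ℕ+} {P Q : k.SF F → Prop} (h : ∀ s, P s → Q s) : k.pr F P ≤ k.pr F Q := by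
  refine div_le_div_of_nonneg_right (Finset.sum_le_sum fun s _ => ?_) (Nat.cast_nonneg _)
  split_ifs with h1 h2
  · exact le_rfl
  · exact absurd (h s h1) h2
  · exact zero_le_one
  · exact le_rfl

theorem pr_union {F : ℕ+} {ι : Type} (T : Finset ι) {P : k.SF F → Prop} (Q : ι → k.SF F → Prop)
    (h : ∀ s, P s → ∃ i ∈ T, Q i s) : k.pr F P ≤ ∑ i ∈ T, k.pr F (Q i) := by
  classical
  simp only [pr, avg]
  rw [← Finset.sum_div, Finset.sum_comm]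
  refine div_le_div_of_nonneg_right (Finset.sum_le_sum fun s _ => ?_) (Nat.cast_nonneg _)
  have h0 : ∀ i ∈ T, (0 : ℝ) ≤ @ite _ (Q i s) (Classical.propDecidable _) 1 0 := fun i _ => by
    split_ifs
    · exact zero_le_one
    · exact le_rfl
  split_ifs with h1
  · obtain ⟨i, hi, hq⟩ := h s h1
    exact (if_pos hq).ge.trans (Finset.single_le_sum h0 hi)
  · exact Finset.sum_nonneg h0

theorem pr_false {F : ℕ+} {P : k.SF F → Prop} (h : ∀ s, ¬ P s) : k.pr F P = 0 := by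
  simp [pr, avg, h]

/-- The sublattice of index dividing `n` described by a set of residues. -/
def sub (x y : k.K) (n : ℕ) (S : Finset (ℕ × ℕ)) : Submodule ℤ k.K :=
  Submodule.span ℤ ({(n : k.K) * x, (n : k.K) * y} ∪
    (fun p : ℕ × ℕ => (p.1 : k.K) * x + (p.2 : k.K) * y) '' S)

theorem exists_sub {x y : k.K} {n : ℕ} (hn : 0 < n) {L : Submodule ℤ k.K}
    (h1 : L ≤ Submodule.span ℤ {x, y}) (h2 : ∀ v ∈ Submodule.span ℤ {x, y}, (n : k.K) * v ∈ L) :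
    ∃ S ∈ (Finset.range n ×ˢ Finset.range n).powerset, L = sub x y n S := by
  classical
  have hx := h2 x (Submodule.subset_span (by simp))
  have hy := h2 y (Submodule.subset_span (by simp))
  refine ⟨_, Finset.mem_powerset.mpr (Finset.filter_subset
    (fun p : ℕ × ℕ => (p.1 : k.K) * x + (p.2 : k.K) * y ∈ L) _), le_antisymm ?_ ?_⟩
  · intro v hv
    obtain ⟨a, b, rfl⟩ := Submodule.mem_span_pair.mp (h1 hv)
    have hn' : (n : ℤ) ≠ 0 := by exact_mod_cast hn.ne'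
    have hn2 : (0 : ℤ) < n := by exact_mod_cast hn
    obtain ⟨a', ha'⟩ := Int.eq_ofNat_of_zero_le (Int.emod_nonneg a hn')
    obtain ⟨b', hb'⟩ := Int.eq_ofNat_of_zero_le (Int.emod_nonneg b hn')
    have ea : (a : k.K) = n * (a / n : ℤ) + a' := by
      exact_mod_cast congrArg (Int.cast : ℤ → k.K) (ha' ▸ Int.mul_ediv_add_emod a n).symm
    have eb : (b : k.K) = n * (b / n : ℤ) + b' := by
      exact_mod_cast congrArg (Int.cast : ℤ → k.K) (hb' ▸ Int.mul_ediv_add_emod b n).symm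
    have e : a • x + b • y = (a / n : ℤ) * (n * x) + (b / n : ℤ) * (n * y)
        + ((a' : k.K) * x + (b' : k.K) * y) := by
      simp only [zsmul_eq_mul]
      linear_combination x * ea + y * eb
    rw [e] at hv ⊢
    have hm := (Submodule.add_mem_iff_right _ (L.add_mem (int_mem _ hx) (int_mem _ hy))).mp hv
    refine Submodule.add_mem _ (Submodule.add_mem _
      (int_mem _ (Submodule.subset_span (by simp))) (int_mem _ (Submodule.subset_span (by simp))))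
      (Submodule.subset_span (Or.inr ⟨(a', b'), ?_, rfl⟩))
    have h3 := Int.emod_lt_of_pos a hn2
    have h4 := Int.emod_lt_of_pos b hn2
    simp only [Finset.coe_filter, Finset.mem_product, Finset.mem_range, Set.mem_ofPred_eq]
    exact ⟨⟨by omega, by omega⟩, hm⟩
  · refine Submodule.span_le.mpr ?_
    rintro v (hv | ⟨p, hp, rfl⟩)
    · rcases hv with rfl | rfl
      · exact hx
      · exact hy
    · exact (Finset.mem_filter.mp hp).2

/-- The case of determinant one, for a target which is normalised only up to a bounded index. -/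
theorem one (hB : BasicStmt) (hS : SmallStmt) (hL : LargeStmt) (k : Fld) (l : ℕ)
    [hl : Fact l.Prime] (r : ℚ_[l]) (hr : k.Root r) (hD : ¬ (l : ℤ) ∣ k.D) (h2 : l ≠ 2) (e : ℕ)
    (R η₀ : ℝ) (h0 : 0 < η₀) : ∃ m f₀ : ℕ, e ≤ m ∧ ∀ (F : ℕ+) (L₁ L₂ : Submodule ℤ k.K)
      (c₁ c₂ : ℚ) (f u : ℕ), ¬ l ∣ F → k.Lat L₁ c₁ → k.Lat L₂ c₂ → k.Adm F L₁ → k.Adm F L₂ →
      k.Nrm l L₁ → ¬ l ∣ u → ((l ^ e * u : ℕ) : k.K) ∈ L₂ → k.Cond L₁ f → f₀ ≤ f →
      k.pr F (fun s => k.Ev l r 1 R m c₁ c₂ (act s L₁) (act s L₂)) ≤ η₀ := by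
  obtain ⟨η, hη, m₁, f₁, H₁⟩ := hS k l r hr hD h2 R η₀ h0
  obtain ⟨m₂, f₂, H₂⟩ := hL k l r hr hD R η₀ η h0 hη
  obtain ⟨b1, -, b3, -, -, -, -, b8, -, b10⟩ := hB k
  refine ⟨e + max m₁ m₂, max f₁ f₂, Nat.le_add_right _ _, ?_⟩
  intro F L₁ L₂ c₁ c₂ f u hF l1 l2 a1 a2 n1 hu hm hf hf₀
  obtain ⟨a, ha, hn⟩ := b10 L₂ c₂ F l l2 a2 hl.out.pos
    ((Nat.Prime.coprime_iff_not_dvd hl.out).mpr hF).symm
  have n2 := hn l hl.out dvd_rfl
  have l3 : k.Lat (a • L₂) (QuadraticAlgebra.norm a * c₂) := by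
    have := b3 L₂ c₂ a 0 l2 (by
      simpa [N] using mt QuadraticAlgebra.norm_eq_zero_iff_eq_zero.mp ha)
    rwa [← smul_eq_map, QuadraticAlgebra.norm_zero, sub_zero,
      abs_of_nonneg (norm_nonneg' a)] at this
  have a3 := adm_smul a a2
  have hlp : (0 : ℝ) < l := Nat.cast_pos.mpr hl.out.pos
  have hio : ∀ (ρ : ℚ_[l]) (β : k.K), k.Root ρ → ‖k.io ρ β‖ ≤ ((l : ℝ) ^ (e + max m₁ m₂))⁻¹ →
      ‖k.io ρ (a * β)‖ ≤ ((l : ℝ) ^ max m₁ m₂)⁻¹ := fun ρ β hρ hβ => by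
    obtain ⟨v, hv, -, hv2⟩ := n2
    have h3 := io_le hρ (hv2 _ (Submodule.smul_mem_pointwise_smul _ a _ hm))
    have e1 : ∀ n : ℕ, k.io ρ n = n := fun n => by
      simp [io, QuadraticAlgebra.re_natCast, QuadraticAlgebra.im_natCast]
    rw [smul_eq_mul, (b1 _ ρ hρ _ _).1, (b1 _ ρ hρ _ _).1, e1, e1, norm_mul, norm_mul, norm_nat hv,
      one_mul, Nat.cast_mul, norm_mul, norm_nat hu, mul_one, Nat.cast_pow, norm_pow, Padic.norm_p,
      inv_pow, ← div_eq_mul_inv, div_le_one (by positivity)] at h3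
    rw [(b1 _ ρ hρ _ _).1, norm_mul]
    refine (mul_le_mul h3 hβ (norm_nonneg _) (by positivity)).trans_eq ?_
    rw [pow_add]
    field_simp
  have key : ∀ s : k.SF F, k.Ev l r 1 R (e + max m₁ m₂) c₁ c₂ (act s L₁) (act s L₂) →
      k.Ev l r 1 R (max m₁ m₂) c₁ (QuadraticAlgebra.norm a * c₂) (act s L₁) (act s (a • L₂)) := by
    rintro s ⟨α, β, g1, g2, g3, g4, g5, g6, g7⟩
    have hN := N_nonneg a
    have ec : ((QuadraticAlgebra.norm a * c₂ : ℚ) : ℝ) = k.N a * c₂ := Rat.cast_mul _ _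
    refine ⟨a * α, a * β, ?_, ?_, ?_, ?_, mul_ne_zero ha g5, hio _ _ hr g6,
      hio _ _ (root_conj hr) g7⟩
    · rw [((b8 F L₂ c₂ l2 a2).2 s).2.2.2.2.2.2.1]
      rintro _ ⟨z, hz, rfl⟩
      refine (Submodule.mem_smul_pointwise_iff_exists _ _ _).mpr
        ⟨_, g1 (Submodule.mem_map_of_mem hz), ?_⟩
      simp only [lin, LinearMap.coe_mk, AddHom.coe_mk, smul_eq_mul]
      ring
    · rw [N_mul, N_mul, ← mul_sub, abs_mul, abs_of_nonneg hN, ec, mul_assoc, g2]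
      ring
    · rw [N_mul, ec, mul_assoc, mul_left_comm R]
      exact mul_le_mul_of_nonneg_left g3 hN
    · rw [N_mul, ec, mul_assoc, mul_left_comm R]
      exact mul_le_mul_of_nonneg_left g4 hN
  by_cases hc : ∃ α : k.K, α ≠ 0 ∧ α • L₁ ≤ a • L₂ ∧
      k.N α * c₁ ≤ (f : ℝ) ^ η * (QuadraticAlgebra.norm a * c₂ : ℚ)
  · exact (pr_mono fun s hs => ev_mono (le_max_left _ _) (key s hs)).trans
      (H₁ F L₁ _ c₁ _ f hF l1 l3 a1 a3 n1 n2 hf ((le_max_left _ _).trans hf₀) hc)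
  · exact (pr_mono fun s hs => ev_mono (le_max_right _ _) (key s hs)).trans
      (H₂ F L₁ _ c₁ _ f hF l1 l3 a1 a3 n1 n2 hf ((le_max_right _ _).trans hf₀)
        fun α h1 h3 => not_le.mp fun h4 => hc ⟨α, h1, h3, h4⟩)

end Excl

open Excl in
theorem excl : BasicStmt → SmallStmt → LargeStmt → ExclStmt := by
  intro hB hS hL k l hl r hr hD h2 Nn R η₀ hN h0
  obtain ⟨e, N', hN', rfl⟩ := Nat.exists_eq_pow_mul_and_not_dvd hN.ne' l hl.out.ne_one
  set T := (Finset.range (l ^ e * N') ×ˢ Finset.range (l ^ e * N')).powerset with hT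
  have hT0 : (0 : ℝ) < T.card :=
    Nat.cast_pos.mpr (Finset.card_pos.mpr (Finset.powerset_nonempty _))
  obtain ⟨m, f₀, hm, H⟩ := one hB hS hL k l r hr hD h2 e R (η₀ / T.card) (div_pos h0 hT0)
  obtain ⟨-, -, b3, b4, -, -, -, b8, b9, -⟩ := hB k
  refine ⟨m, f₀, ?_⟩
  intro F L₁ L₂ c₁ c₂ f hF l1 l2 a1 a2 n1 n2 hf hf₀
  have hN0 : 0 < N' := Nat.pos_of_mul_pos_left hN
  set F' : ℕ+ := F * ⟨N', hN0⟩ with hF'
  have eF : (F' : ℕ) = F * N' := rfl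
  have hF2 : ¬ l ∣ F' := fun hd => ((Nat.Prime.dvd_mul hl.out).mp hd).elim hF hN'
  have a1' : k.Adm F' L₁ := adm_mul N' a1
  have a2' : k.Adm F' L₂ := adm_mul N' a2
  obtain ⟨p, -, hp1, hp2⟩ := b9 F F' ⟨N', eF⟩
  obtain ⟨x, y, hxy, -, hc2⟩ := id l2
  have hc2' : (0 : ℝ) < c₂ := Rat.cast_pos.mpr hc2
  have hNr : (1 : ℝ) ≤ (l ^ e * N' : ℕ) := Nat.one_le_cast.mpr hN
  have hidx : ∀ {A B : Submodule ℤ k.K}, k.Lat A ((l ^ e * N' : ℕ) * c₂) → k.Lat B c₂ → A ≤ B →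
      ∀ v ∈ B, ((l ^ e * N' : ℕ) : k.K) * v ∈ A := fun hA hB hAB => by
    obtain ⟨j, -, hj, hj2, -⟩ := b4 _ _ _ _ hA hB hAB
    rwa [← Nat.cast_injective (mul_right_cancel₀ hc2.ne' hj)] at hj2
  rw [pr, ← hp1]
  refine (pr_union T (fun S s => (k.Lat (sub x y (l ^ e * N') S) ((l ^ e * N' : ℕ) * c₂) ∧
    k.Adm F' (sub x y (l ^ e * N') S) ∧ sub x y (l ^ e * N') S ≤ L₂) ∧
    k.Ev l r 1 R m c₁ ((l ^ e * N' : ℕ) * c₂) (act s L₁) (act s (sub x y (l ^ e * N') S)))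
    (P := fun s => k.Ev l r (l ^ e * N') R m c₁ c₂ (act (p s) L₁) (act (p s) L₂)) ?_).trans ?_
  · intro s hs
    obtain ⟨-, -, -, -, -, g6, g7⟩ := id (ev_mono hm hs).choose_spec.choose_spec
    obtain ⟨la1, aa1, -, -, na1, -⟩ := (b8 F L₁ c₁ l1 a1).2 (p s)
    obtain ⟨la2, aa2, -, -, na2, -⟩ := (b8 F L₂ c₂ l2 a2).2 (p s)
    clear g6 g7
    obtain ⟨α, β, g1, g2, g3, g4, g5, g6, g7⟩ := hs
    have hne : k.N α ≠ k.N β := fun h => by
      rw [h, sub_self, abs_zero, zero_mul] at g2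
      exact (mul_pos (by linarith) hc2').ne g2
    have lM : k.Lat ((act (p s) L₁).map (k.lin α β)) ((l ^ e * N' : ℕ) * c₂) := by
      have h3 := b3 _ _ α β la1 hne
      have e1 : |QuadraticAlgebra.norm α - QuadraticAlgebra.norm β| * c₁
          = (l ^ e * N' : ℕ) * c₂ := by
        simp only [N] at g2
        exact_mod_cast g2
      rwa [e1] at h3
    have hp : (1 : ℝ) ≤ l := Nat.one_le_cast.mpr hl.out.pos
    have hme : ((l : ℝ) ^ m)⁻¹ ≤ ((l : ℝ) ^ e)⁻¹ :=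
      inv_anti₀ (by positivity) (pow_le_pow_right₀ hp hm)
    have aM : k.Adm F' ((act (p s) L₁).map (k.lin α β)) :=
      adm_map hr hD aa1 aa2 (na1 l hl.out hF n1) (na2 l hl.out hF n2) g1 (hidx lM la2 g1)
        (g6.trans hme) (g7.trans hme)
    obtain ⟨hM1, hM2⟩ := b8 F' _ _ lM aM
    obtain ⟨lM', aM', -, -, -, -, -, mM', -⟩ := hM2 s⁻¹
    have hle : act s⁻¹ ((act (p s) L₁).map (k.lin α β)) ≤ L₂ := by
      refine (mM' _ g1).trans_eq ?_
      rw [← hp2 L₂ a2, ← ((b8 F' L₂ c₂ l2 a2').2 s⁻¹).2.2.2.2.2.1, inv_mul_cancel,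
        (b8 F' L₂ c₂ l2 a2').1]
    obtain ⟨S, hS, eS⟩ := exists_sub hN (hxy ▸ hle) (hxy ▸ hidx lM' l2 hle)
    refine ⟨S, hS, eS ▸ ⟨lM', aM', hle⟩, α, β, ?_, ?_, ?_, ?_, g5, g6, g7⟩
    · rw [← eS, ← (hM2 s).2.2.2.2.2.1, mul_inv_cancel, hM1, hp2 L₁ a1]
    · rw [g2]
      push_cast
      ring
    · have h3 := (mul_nonneg (N_nonneg α) (Rat.cast_pos.mpr (lat_pos l1)).le).trans g3
      rw [Rat.cast_mul, Rat.cast_natCast]
      nlinarith
    · have h3 := (mul_nonneg (N_nonneg α) (Rat.cast_pos.mpr (lat_pos l1)).le).trans g3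
      rw [Rat.cast_mul, Rat.cast_natCast]
      nlinarith
  · refine (Finset.sum_le_card_nsmul T _ (η₀ / T.card) fun S _ => ?_).trans_eq ?_
    · by_cases hS : k.Lat (sub x y (l ^ e * N') S) ((l ^ e * N' : ℕ) * c₂) ∧
          k.Adm F' (sub x y (l ^ e * N') S) ∧ sub x y (l ^ e * N') S ≤ L₂
      · obtain ⟨u, hu, hu2, -⟩ := n2
        refine (pr_mono fun s hs => hs.2).trans (H F' L₁ _ c₁ _ f (N' * u) hF2 l1 hS.1 a1' hS.2.1
          n1 (fun hd => ((Nat.Prime.dvd_mul hl.out).mp hd).elim hN' hu) ?_ hf hf₀)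
        convert hidx hS.1 l2 hS.2.2 _ (hu2 _ O_one) using 1
        push_cast
        ring
      · rw [pr_false fun s hs => hS hs.1]
        exact (div_pos h0 hT0).le
    · rw [nsmul_eq_mul, mul_div_cancel₀ _ hT0.ne']

end Pool.Agent.Lib.MP_9177b7_ag.J
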