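import Pool.Agent.Lib.MP_9177b7_ag.J.DynG
import Pool.Agent.Lib.MP_9177b7_ag.J.Excl

/-!
Joint equidistribution of the orbits.
-/

open MeasureTheory Filter Topology Set Pointwise Matrix
open scoped MatrixGroups ENNReal BoundedContinuousFunction

noncomputable section

namespace Pool.Agent.Lib.MP_9177b7_ag.J

open Fld

namespace Dyn

variable (k : Fld) {l₁ l₂ : ℕ} [Fact l₁.Prime] [Fact l₂.Prime] {w : ℂ} {r₁ : ℚ_[l₁]}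
  {r₂ : ℚ_[l₂]} [PolishSpace (XX l₁ l₂)]

variable (w r₁ r₂) in
/-- The measure attached to a joint orbit. -/
def nu (F : ℕ+) (L₁ L₂ : Submodule ℤ k.K) : ProbabilityMeasure (XX l₁ l₂ × XX l₁ l₂) :=
  ⟨mix l₁ l₂ k F fun s => (pt k w r₁ r₂ (act s L₁), pt k w r₁ r₂ (act s L₂)), inferInstance⟩

theorem mu_tight (hB : BasicStmt) (hT : TightStmt) (hw : k.Root w) (h₁ : Good k r₁)
    (h₂ : Good k r₂) : IsTightMeasureSet {μ | ∃ F L c, Dat k l₁ l₂ F L c ∧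
      μ = (mu k w r₁ r₂ F L : Measure (XX l₁ l₂))} := by
  rw [isTightMeasureSet_iff_exists_isCompact_measure_compl_le]
  intro η hη
  obtain ⟨η', -, h0, h1⟩ := ENNReal.lt_iff_exists_real_btwn.1 hη
  obtain ⟨ε, hε, h⟩ := hT k η' (by simpa using h0)
  refine ⟨_, (isCompact_Om (|(k.D : ℝ)| / (ε * |w.im|))).image QuotientGroup.continuous_mk, ?_⟩
  rintro _ ⟨F, L, c, D, rfl⟩
  refine (mix_le k F _ _ _ fun s m hm hs => ?_).trans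
    ((ENNReal.ofReal_le_ofReal (h F L c D.lat D.adm)).trans h1.le)
  by_contra hn
  have D' := D.act k hB s
  exact hs (pt_mem_Om k hB hw h₁ h₂ D'.lat D'.n₁ D'.n₂ hε hn hm)

omit [PolishSpace (XX l₁ l₂)] in
theorem strict_act (hB : BasicStmt) {F : ℕ+} {L₁ L₂ : Submodule ℤ k.K} {c₁ c₂ : ℚ}
    (D₁ : Dat k l₁ l₂ F L₁ c₁) (D₂ : Dat k l₁ l₂ F L₂ c₂) (s : k.SF F) {α : k.K}
    (h : α • act s L₁ ≤ act s L₂) : α • L₁ ≤ L₂ := by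
  have a1 := (hB k).2.2.2.2.2.2.2.1 F _ _ D₁.lat D₁.adm
  have a2 := (hB k).2.2.2.2.2.2.2.1 F _ _ D₂.lat D₂.adm
  have D' := D₁.act k hB s
  have a3 := (hB k).2.2.2.2.2.2.2.1 F _ _ D'.lat D'.adm
  have h1 : act s⁻¹ (α • act s L₁) ≤ act s⁻¹ (act s L₂) := mul_le_mul' le_rfl h
  rwa [(a3.2 s⁻¹).2.2.2.2.2.2.1, ← (a1.2 s⁻¹).2.2.2.2.2.1, ← (a2.2 s⁻¹).2.2.2.2.2.1,
    inv_mul_cancel, a1.1, a2.1] at h1

theorem gr_zero (hB : BasicStmt) (hE : ExclStmt) (hw : k.Root w) (h₁ : Good k r₁)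
    (h₂ : Good k r₂) (d₁ : ¬ (l₁ : ℤ) ∣ k.D) (h2 : l₁ ≠ 2) {F : ℕ → ℕ+}
    {L₁ L₂ : ℕ → Submodule ℤ k.K} {c₁ c₂ : ℕ → ℚ} (D₁ : ∀ n, Dat k l₁ l₂ (F n) (L₁ n) (c₁ n))
    (D₂ : ∀ n, Dat k l₁ l₂ (F n) (L₂ n) (c₂ n))
    (h : ∀ c : ℕ, 0 < c → ∀ᶠ n in atTop, ¬ k.Adm c (L₁ n))
    (hs : ∀ B : ℝ, ∀ᶠ n in atTop, ∀ α : k.K, α ≠ 0 → α • L₁ n ≤ L₂ n → B * c₂ n < k.N α * c₁ n)
    {ν : ProbabilityMeasure (XX l₁ l₂ × XX l₁ l₂)}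
    (hν : Tendsto (fun n => nu k w r₁ r₂ (F n) (L₁ n) (L₂ n)) atTop (𝓝 ν))
    {B : Matrix (Fin 2) (Fin 2) ℚ} (hB0 : B.det ≠ 0) {Ω : Set (GG l₁ l₂)} (hΩ : IsCompact Ω) :
    (ν : Measure (XX l₁ l₂ × XX l₁ l₂)) ((sp l₁ l₂).Gr B Ω) = 0 := by
  obtain ⟨Nn, R, hN, hU⟩ := excl_link k hw h₁ h₂ hB0 hΩ
  refine le_antisymm (ENNReal.le_of_forall_pos_le_add fun η hη _ => ?_) bot_le
  obtain ⟨m, f₀, hm⟩ := hE k l₁ r₁ h₁.root d₁ h2 Nn R η hN hη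
  obtain ⟨U, hUo, hUs, hU'⟩ := hU m
  refine (measure_mono hUs).trans
    ((ProbabilityMeasure.le_liminf_measure_open_of_tendsto hν hUo).trans ?_)
  refine liminf_le_of_frequently_le' (Eventually.frequently ?_)
  filter_upwards [cond_large k hB (fun n => (D₁ n).lat) h f₀, hs Nn] with n ⟨f, hf, hff⟩ hn
  have := hm (F n) _ _ _ _ f (D₁ n).f₁ (D₁ n).lat (D₂ n).lat (D₁ n).adm (D₂ n).adm (D₁ n).n₁
    (D₂ n).n₁ hf hff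
  refine (mix_le k (F n) _ _ _ fun s m hm hs => ?_).trans
    ((ENNReal.ofReal_le_ofReal this).trans (by simp))
  have E₁ := (D₁ n).act k hB s
  have E₂ := (D₂ n).act k hB s
  exact hU' _ _ _ _ E₁.lat E₂.lat E₁.n₁ E₁.n₂ E₂.n₁ E₂.n₂ m hm hs fun α hα hle =>
    hn α hα (strict_act k hB (D₁ n) (D₂ n) s hle)

theorem dyn_lim (hB : BasicStmt) (hP : PiStmt) (hC : CollStmt) (hE : ExclStmt) (hH : HomStmt)
    (hM : Marg2Stmt) (hJ : JoinStmt) (hw : k.Root w) (hne : l₁ ≠ l₂) (h₁ : Good k r₁)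
    (h₂ : Good k r₂) (d₁ : ¬ (l₁ : ℤ) ∣ k.D) (d₂ : ¬ (l₂ : ℤ) ∣ k.D) (h2 : l₁ ≠ 2) {F : ℕ → ℕ+}
    {L₁ L₂ : ℕ → Submodule ℤ k.K} {c₁ c₂ : ℕ → ℚ} (D₁ : ∀ n, Dat k l₁ l₂ (F n) (L₁ n) (c₁ n))
    (D₂ : ∀ n, Dat k l₁ l₂ (F n) (L₂ n) (c₂ n))
    (h : ∀ c : ℕ, 0 < c → ∀ᶠ n in atTop, ¬ k.Adm c (L₁ n) ∧ ¬ k.Adm c (L₂ n))
    (hs : ∀ B : ℝ, ∀ᶠ n in atTop, ∀ α : k.K, α ≠ 0 → α • L₁ n ≤ L₂ n → B * c₂ n < k.N α * c₁ n)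
    {ν : ProbabilityMeasure (XX l₁ l₂ × XX l₁ l₂)}
    (hν : Tendsto (fun n => nu k w r₁ r₂ (F n) (L₁ n) (L₂ n)) atTop (𝓝 ν)) :
    ∃ μ : Measure (XX l₁ l₂), IsProbabilityMeasure μ ∧ (∀ g : GG l₁ l₂, μ.map (g • ·) = μ) ∧
      (ν : Measure (XX l₁ l₂ × XX l₁ l₂)) = μ.prod μ := by
  obtain ⟨t₁, t₂, e, he, ht₁, ht₂, hT⟩ := exists_tor k hB hP hw hne h₁ h₂ d₁ d₂
  have ht₁' : 1 < ‖(t₁ : ℚ_[l₁])‖ := by
    rw [ht₁]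
    exact one_lt_pow₀ (by exact_mod_cast (Fact.out : l₁.Prime).one_lt) he.ne'
  have tr : ∀ {F L c}, Dat k l₁ l₂ F L c → ∀ {g : GG l₁ l₂} {s₀ : k.SF F},
      (∀ L c, k.Lat L c → k.Adm F L → pt k w r₁ r₂ (act s₀ L) = g • pt k w r₁ r₂ L) →
      ∀ s, pt k w r₁ r₂ (act (s₀ * s) L) = g • pt k w r₁ r₂ (act s L) := by
    intro F L c D g s₀ hs₀ s
    rw [(((hB k).2.2.2.2.2.2.2.1 F _ _ D.lat D.adm).2 s₀).2.2.2.2.2.1]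
    exact hs₀ _ _ (D.act k hB s).lat (D.act k hB s).adm
  have iμ : ∀ {F L c}, Dat k l₁ l₂ F L c → (mu k w r₁ r₂ F L : Measure (XX l₁ l₂)).map
      (((dg t₁, 1) : GG l₁ l₂) • ·) = mu k w r₁ r₂ F L := by
    intro F L c D
    obtain ⟨g, hg, hm, hs₀⟩ := hT _ (Or.inl rfl)
    obtain ⟨s₀, hs₀⟩ := hs₀ F D.f₁ D.f₂
    exact mix_inv k _ hg hm s₀ (tr D hs₀)
  have iν : ∀ a : GG l₁ l₂, a = (dg t₁, 1) ∨ a = (1, dg t₂, 1) →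
      (ν : Measure (XX l₁ l₂ × XX l₁ l₂)).map (a • ·) = ν := by
    intro a ha
    refine lim_map hν hν (continuous_const_smul a) fun n => ?_
    obtain ⟨g, hg, hm, hs₀⟩ := hT a ha
    obtain ⟨s₀, hs₀⟩ := hs₀ (F n) (D₁ n).f₁ (D₁ n).f₂
    exact mix_inv k _ hg hm s₀ fun s => Prod.ext (tr (D₁ n) hs₀ s) (tr (D₂ n) hs₀ s)
  have m₁ := ProbabilityMeasure.tendsto_map_of_tendsto_of_continuous _ ν hν continuous_fst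
  have m₂ := ProbabilityMeasure.tendsto_map_of_tendsto_of_continuous _ ν hν continuous_snd
  rw [show (fun n => (nu k w r₁ r₂ (F n) (L₁ n) (L₂ n)).map continuous_fst.measurable.aemeasurable)
    = fun n => mu k w r₁ r₂ (F n) (L₁ n) from funext fun n => Subtype.ext (mix_fst k _ _ _)] at m₁
  rw [show (fun n => (nu k w r₁ r₂ (F n) (L₁ n) (L₂ n)).map continuous_snd.measurable.aemeasurable)
    = fun n => mu k w r₁ r₂ (F n) (L₂ n) from funext fun n => Subtype.ext (mix_snd k _ _ _)] at m₂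
  have i₁ := marg_lim k hB hC hM hw h₁ h₂ d₁ D₁ (fun c hc => (h c hc).mono fun n hn => hn.1) he ht₁
    (fun n => iμ (D₁ n)) m₁
  have i₂ := marg_lim k hB hC hM hw h₁ h₂ d₁ D₂ (fun c hc => (h c hc).mono fun n hn => hn.2) he ht₁
    (fun n => iμ (D₂ n)) m₂
  obtain ⟨a1, a2, a3, a4, a5⟩ := hH l₁ l₂ hne _ (Subtype.prop _) i₁
  refine ⟨_, Subtype.prop _, a1, ?_⟩
  exact hJ l₁ h2 (sp l₁ l₂) _ (ν : Measure (XX l₁ l₂ × XX l₁ l₂)) (dg t₂, 1) t₁ ht₁' (Subtype.prop _) a3 a4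
    (a5 t₂ 1 ht₂) ν.prop rfl (a2 _ (ν.map continuous_snd.measurable.aemeasurable).prop i₂)
    (iν _ (Or.inr rfl))
    (iν _ (Or.inl rfl)) fun B Ω hB0 hΩ => gr_zero k hB hE hw h₁ h₂ d₁ h2 D₁ D₂
      (fun c hc => (h c hc).mono fun n hn => hn.1) hs hν hB0 hΩ

theorem dyn_nrm (hB : BasicStmt) (hP : PiStmt) (hT : TightStmt) (hC : CollStmt) (hE : ExclStmt)
    (hH : HomStmt) (hPr : ProjStmt) (hM : Marg2Stmt) (hJ : JoinStmt) (hw : k.Root w)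
    (hne : l₁ ≠ l₂) (h₁ : Good k r₁)
    (h₂ : Good k r₂) (d₁ : ¬ (l₁ : ℤ) ∣ k.D) (d₂ : ¬ (l₂ : ℤ) ∣ k.D) (h2 : l₁ ≠ 2) {F : ℕ → ℕ+}
    {L₁ L₂ : ℕ → Submodule ℤ k.K} {c₁ c₂ : ℕ → ℚ} (D₁ : ∀ n, Dat k l₁ l₂ (F n) (L₁ n) (c₁ n))
    (D₂ : ∀ n, Dat k l₁ l₂ (F n) (L₂ n) (c₂ n))
    (h : ∀ c : ℕ, 0 < c → ∀ᶠ n in atTop, ¬ k.Adm c (L₁ n) ∧ ¬ k.Adm c (L₂ n))
    (hs : ∀ B : ℝ, ∀ᶠ n in atTop, ∀ α : k.K, α ≠ 0 → α • L₁ n ≤ L₂ n → B * c₂ n < k.N α * c₁ n)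
    (φ : ℂ × ℂ →ᵇ ℝ) : Tendsto (fun n => k.avg (F n) fun s =>
        φ (CM.jL ((act s (L₁ n)).map (k.ioL w)), CM.jL ((act s (L₂ n)).map (k.ioL w)))) atTop
        (𝓝 (∫ z, φ z ∂(muJ.prod muJ))) := by
  obtain ⟨jX, hjc, hj, hjm⟩ := hPr l₁ l₂ hne
  have hK : IsCompact (closure (range fun n => nu k w r₁ r₂ (F n) (L₁ n) (L₂ n))) := by
    refine isCompact_closure_of_isTightMeasureSet (IsTightMeasureSet.prodMk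
      ((mu_tight k hB hT hw h₁ h₂).subset ?_) ((mu_tight k hB hT hw h₁ h₂).subset ?_))
    · rintro _ ⟨_, ⟨_, ⟨n, rfl⟩, rfl⟩, rfl⟩
      exact ⟨_, _, _, D₁ n, mix_fst k _ _ _⟩
    · rintro _ ⟨_, ⟨_, ⟨n, rfl⟩, rfl⟩, rfl⟩
      exact ⟨_, _, _, D₂ n, mix_snd k _ _ _⟩
  have := instMetrizableSpaceProbabilityMeasure (XX l₁ l₂ × XX l₁ l₂)
  refine tendsto_of_subseq_tendsto fun ns hns => ?_
  obtain ⟨ν, -, ms, hms, hν⟩ := hK.tendsto_subseq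
    (x := fun n => nu k w r₁ r₂ (F (ns n)) (L₁ (ns n)) (L₂ (ns n)))
    fun n => subset_closure ⟨ns n, rfl⟩
  refine ⟨ms, ?_⟩
  have ht : Tendsto (fun n => ns (ms n)) atTop atTop := hns.comp hms.tendsto_atTop
  obtain ⟨μ, hμ, hi, e⟩ := dyn_lim k hB hP hC hE hH hM hJ hw hne h₁ h₂ d₁ d₂ h2
    (fun n => D₁ (ns (ms n))) (fun n => D₂ (ns (ms n))) (fun c hc => ht.eventually (h c hc))
    (fun B => ht.eventually (hs B)) hν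
  let ψ : XX l₁ l₂ × XX l₁ l₂ →ᵇ ℝ := φ.compContinuous ⟨Prod.map jX jX, hjc.prodMap hjc⟩
  have h1 := ProbabilityMeasure.tendsto_iff_forall_integral_tendsto.1 hν ψ
  have h3 : ∫ z, ψ z ∂(ν : Measure (XX l₁ l₂ × XX l₁ l₂)) = ∫ z, φ z ∂(muJ.prod muJ) := by
    rw [e, ← hjm μ hμ hi, Measure.map_prod_map _ _ hjc.measurable hjc.measurable,
      integral_map (hjc.prodMap hjc).measurable.aemeasurable φ.continuous.aestronglyMeasurable]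
    rfl
  rw [h3] at h1
  refine h1.congr fun n => mix_integral k _ _ ψ _ fun s m hm => ?_
  have E₁ := (D₁ (ns (ms n))).act k hB s
  have E₂ := (D₂ (ns (ms n))).act k hB s
  change φ (jX (m • _), jX (m • _)) = _
  rw [jX_pt k hw h₁ h₂ hj E₁.lat E₁.n₁ E₁.n₂ hm, jX_pt k hw h₁ h₂ hj E₂.lat E₂.n₁ E₂.n₂ hm]

omit [PolishSpace (XX l₁ l₂)] in
theorem normalise (hB : BasicStmt) (hw : k.Root w) {F : ℕ+} {L : Submodule ℤ k.K} {c : ℚ}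
    (f₁ : ¬ l₁ ∣ F) (f₂ : ¬ l₂ ∣ F) (hL : k.Lat L c) (hA : k.Adm F L) :
    ∃ α : k.K, α ≠ 0 ∧ Dat k l₁ l₂ F (α • L) (QuadraticAlgebra.norm α * c) ∧
      ∀ s : k.SF F, CM.jL ((act s (α • L)).map (k.ioL w)) = CM.jL ((act s L).map (k.ioL w)) := by
  have p₁ : l₁.Prime := Fact.out
  have p₂ : l₂.Prime := Fact.out
  obtain ⟨α, hα, hn⟩ := (hB k).2.2.2.2.2.2.2.2.2 L c F (l₁ * l₂) hL hA (Nat.mul_pos p₁.pos p₂.pos)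
    (Nat.Coprime.mul_right (p₁.coprime_iff_not_dvd.2 f₁).symm (p₂.coprime_iff_not_dvd.2 f₂).symm)
  have hN : QuadraticAlgebra.norm α ≠ 0 := fun h =>
    hα (QuadraticAlgebra.norm_eq_zero_iff_eq_zero.1 h)
  have hlat := (hB k).2.2.1 L c α 0 hL (by simpa [Fld.N] using hN)
  rw [← Excl.smul_eq_map, QuadraticAlgebra.norm_zero, sub_zero, abs_of_nonneg (Excl.norm_nonneg' α)] at hlat
  refine ⟨α, hα, ⟨f₁, f₂, hlat, Excl.adm_smul α hA, hn l₁ p₁ (Dvd.intro _ rfl),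
    hn l₂ p₂ (Dvd.intro_left _ rfl)⟩, fun s => ?_⟩
  rw [(((hB k).2.2.2.2.2.2.2.1 F _ _ hL hA).2 s).2.2.2.2.2.2.1,
    ← CM.hyp.jL_smul ((act s L).map (k.ioL w)) (io_ne_zero k hw hα)]
  congr 1
  ext z
  simp only [Submodule.mem_map, Submodule.mem_smul_pointwise_iff_exists]
  constructor
  · rintro ⟨_, ⟨v, hv, rfl⟩, rfl⟩
    exact ⟨_, ⟨v, hv, rfl⟩, (io_mul k hw α v).symm⟩
  · rintro ⟨_, ⟨v, hv, rfl⟩, rfl⟩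
    exact ⟨_, ⟨v, hv, rfl⟩, io_mul k hw α v⟩

end Dyn

open Dyn in
theorem dyn : BasicStmt → PiStmt → TightStmt → CollStmt → ExclStmt → PolStmt → DiscStmt →
    HomStmt → ProjStmt → Marg2Stmt → JoinStmt → DynStmt := by
  intro hB hP hT hC hE hPol hD hH hPr hM hJ k w hw l₁ l₂ _ _ hne h2 d₁ d₂ ⟨r₁, hr₁⟩ ⟨r₂, hr₂⟩ F L₁ L₂
    c₁ c₂ hF hL hA h hs φ
  have := (hD l₁ l₂ hne).1
  have : PolishSpace (XX l₁ l₂) := hPol _ _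
  have h₁ : Good k r₁ := ⟨hr₁, (hP k l₁ r₁ hr₁ d₁).1, (hP k l₁ r₁ hr₁ d₁).2.1⟩
  have h₂ : Good k r₂ := ⟨hr₂, (hP k l₂ r₂ hr₂ d₂).1, (hP k l₂ r₂ hr₂ d₂).2.1⟩
  choose α₁ a₁ D₁ e₁ using fun n => normalise k hB hw (hF n).1 (hF n).2 (hL n).1 (hA n).1
  choose α₂ a₂ D₂ e₂ using fun n => normalise k hB hw (hF n).1 (hF n).2 (hL n).2 (hA n).2
  have adm : ∀ {c : ℕ} {α : k.K} {L : Submodule ℤ k.K}, α ≠ 0 → k.Adm c (α • L) → k.Adm c L := by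
    intro c α L hα h
    have := Excl.adm_smul α⁻¹ h
    rwa [smul_smul, inv_mul_cancel₀ hα, one_smul] at this
  have := dyn_nrm k hB hP hT hC hE hH hPr hM hJ hw hne h₁ h₂ d₁ d₂ h2 D₁ D₂
    (fun c hc => (h c hc).mono fun n hn => ⟨fun h => hn.1 (adm (a₁ n) h),
      fun h => hn.2 (adm (a₂ n) h)⟩) (fun B => (hs B).mono fun n hn β hβ hle => ?_) φ
  · simpa only [e₁, e₂] using this
  have h1 := hn ((α₂ n)⁻¹ * (β * α₁ n)) (mul_ne_zero (inv_ne_zero (a₂ n)) (mul_ne_zero hβ (a₁ n)))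
    (by
      have : (α₂ n)⁻¹ • β • α₁ n • L₁ n ≤ (α₂ n)⁻¹ • α₂ n • L₂ n := Submodule.map_mono hle
      rwa [smul_smul, smul_smul, smul_smul, inv_mul_cancel₀ (a₂ n), one_smul, mul_assoc] at this)
  have h3 : k.N (α₂ n) * k.N ((α₂ n)⁻¹ * (β * α₁ n)) = k.N β * k.N (α₁ n) := by
    rw [← Excl.N_mul, ← Excl.N_mul, mul_inv_cancel_left₀ (a₂ n)]
  have h4 : 0 < k.N (α₂ n) := lt_of_le_of_ne (N_nonneg k _) fun h => a₂ n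
    (QuadraticAlgebra.norm_eq_zero_iff_eq_zero.1 (by unfold Fld.N at h; exact_mod_cast h.symm))
  have h5 := mul_lt_mul_of_pos_left h1 h4
  push_cast
  change B * (k.N (α₂ n) * _) < k.N β * (k.N (α₁ n) * _)
  rw [← mul_assoc (k.N β), ← h3]
  linarith

end Pool.Agent.Lib.MP_9177b7_ag.J
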