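import Pool.Agent.Lib.MP_9177b7_ag.J.Fin2

/-!
Fields, conductors and split primes; the equidistribution theorem for Galois orbits.
-/

open MeasureTheory Set Filter Topology Pointwise
open scoped UpperHalfPlane BoundedContinuousFunction

noncomputable section

namespace Pool.Agent.Lib.MP_9177b7_ag.J.Fin

open CM Fld Dyn

theorem int_of_sqf {d : ℕ} (hd : Squarefree d) {y : ℚ} {z : ℤ} (h : d * y ^ 2 = z) :
    ∃ b : ℤ, y = b := by
  have h1 : (d : ℤ) * y.num ^ 2 = z * (y.den : ℤ) ^ 2 := by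
    have : ((d : ℤ) * y.num ^ 2 : ℚ) = z * ((y.den : ℤ) : ℚ) ^ 2 := by
      rw [← h, ← Rat.mul_den_eq_num]
      push_cast
      ring
    exact_mod_cast this
  have h2 : y.den * y.den ∣ d := by
    have h3 : y.den ^ 2 ∣ d * y.num.natAbs ^ 2 := by
      have := congrArg Int.natAbs h1
      simp only [Int.natAbs_mul, Int.natAbs_pow, Int.natAbs_natCast] at this
      exact ⟨_, this.trans (mul_comm _ _)⟩
    rw [← pow_two]
    exact (Nat.Coprime.pow 2 2 y.reduced.symm).dvd_of_dvd_mul_right h3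
  exact ⟨y.num, (Rat.coe_int_num_of_den_eq_one (Nat.isUnit_iff.1 (hd _ h2))).symm⟩

theorem exists_fld {d : ℕ} (hd : 0 < d) : ∃ (k : Fld) (w : ℂ), k.Root w ∧
    ∃ a b : ℚ, Complex.I * Real.sqrt d = a + b * w := by
  obtain ⟨e, m, he, -, rfl, hs⟩ := Nat.sq_mul_squarefree_of_pos hd
  have h1 : ((Real.sqrt (m ^ 2 * e : ℕ) : ℝ) : ℂ) = m * Real.sqrt e := by
    push_cast
    rw [Real.sqrt_mul (by positivity), Real.sqrt_sq (by positivity)]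
    push_cast
    rfl
  have h2 : (Complex.I * Real.sqrt e) ^ 2 = -(e : ℂ) := by
    rw [mul_pow, Complex.I_sq, ← Complex.ofReal_pow, Real.sq_sqrt (by positivity)]
    simp
  rw [h1]
  by_cases h3 : e % 4 = 3
  · obtain ⟨n, hn⟩ : ∃ n : ℤ, (e : ℤ) = 4 * n - 1 := ⟨(e + 1) / 4, by omega⟩
    have hn' : (e : ℚ) = 4 * n - 1 := by exact_mod_cast hn
    have hn'' : (e : ℂ) = 4 * n - 1 := by exact_mod_cast hn
    refine ⟨⟨1, n, by omega, fun x y ⟨A, hA⟩ ⟨B, hB⟩ => ?_⟩, (1 + Complex.I * Real.sqrt e) / 2, ?_,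
      -m, 2 * m, by push_cast; ring⟩
    · push_cast at hA hB
      obtain ⟨b, rfl⟩ := int_of_sqf hs (y := y) (z := 4 * B - A ^ 2) (by
        push_cast
        rw [← hA, ← hB, hn']
        ring)
      refine ⟨?_, b, rfl⟩
      have h4 : A ^ 2 + (4 * n - 1) * b ^ 2 = 4 * B := by
        have : (A : ℚ) ^ 2 + (4 * n - 1) * b ^ 2 = 4 * B := by
          rw [← hA, ← hB]
          ring
        exact_mod_cast this
      have h5 : 2 ∣ (A - b) * (A + b) := ⟨2 * B - 2 * n * b ^ 2, by linear_combination h4⟩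
      have h6 : 2 ∣ A - b := by
        rcases Int.prime_two.dvd_or_dvd h5 with h | h <;> omega
      obtain ⟨c, hc⟩ := h6
      have hc' : (A : ℚ) - b = 2 * c := by exact_mod_cast hc
      exact ⟨c, by linarith⟩
    · change _ = ((1 : ℤ) : ℂ) * _ - (n : ℂ)
      push_cast
      linear_combination (1 / 4 : ℂ) * h2 - (1 / 4 : ℂ) * hn''
  · refine ⟨⟨0, e, by omega, fun x y ⟨A, hA⟩ ⟨B, hB⟩ => ?_⟩, Complex.I * Real.sqrt e, ?_,
      0, m, by push_cast; ring⟩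
    · push_cast at hA hB
      obtain ⟨b, hb⟩ := int_of_sqf hs (y := 2 * y) (z := 4 * B - A ^ 2) (by
        push_cast
        rw [← hA, ← hB]
        ring)
      have h4 : A ^ 2 + e * b ^ 2 = 4 * B := by
        have : (A : ℚ) ^ 2 + e * b ^ 2 = 4 * B := by
          rw [← hA, ← hB, ← hb]
          ring
        exact_mod_cast this
      have h0 : e % 4 ≠ 0 := fun h => by
        have := hs 2 (Nat.dvd_of_mod_eq_zero h)
        simp at this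
      have h5 : 2 ∣ A ∧ 2 ∣ b := by
        obtain ⟨A', hA' | hA'⟩ := Int.even_or_odd' A <;> obtain ⟨b', hb' | hb'⟩ := Int.even_or_odd' b
        · omega
        · have : (e : ℤ) = 4 * (B - A' ^ 2 - e * b' ^ 2 - e * b') := by
            rw [hA', hb'] at h4
            linear_combination h4
          omega
        · have : (1 : ℤ) = 4 * (B - A' ^ 2 - A' - e * b' ^ 2) := by
            rw [hA', hb'] at h4
            linear_combination h4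
          omega
        · have : (e : ℤ) + 1 = 4 * (B - A' ^ 2 - A' - e * b' ^ 2 - e * b') := by
            rw [hA', hb'] at h4
            linear_combination h4
          omega
      obtain ⟨⟨c, hc⟩, c', hc'⟩ := h5
      have e1 : (A : ℚ) = 2 * c := by exact_mod_cast hc
      have e2 : (b : ℚ) = 2 * c' := by exact_mod_cast hc'
      exact ⟨⟨c, by linarith⟩, c', by linarith⟩
    · change _ = ((0 : ℤ) : ℂ) * _ - ((e : ℤ) : ℂ)
      push_cast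
      linear_combination h2

variable (k : Fld) {w : ℂ}

theorem form_F (hw : k.Root w) {τ : ℍ} {x y : ℚ} (hτ : (τ : ℂ) = x + y * w) {a b c : ℤ}
    (h : a * (τ : ℂ) ^ 2 + b * τ + c = 0) :
    ∃ v : ℤ, b ^ 2 - 4 * a * c = v ^ 2 * k.D ∧ ((v : ℂ) * w) • CM.sp τ 1 ≤ CM.sp τ 1 := by
  have hy : y ≠ 0 := by
    rintro rfl
    have := τ.im_pos
    rw [← UpperHalfPlane.coe_im, hτ] at this
    simp at this
  have h0 : k.io w ((a : ℚ) • ((⟨x, y⟩ : k.K) * ⟨x, y⟩) + (b : ℚ) • ⟨x, y⟩ + (c : ℚ) • 1) =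
      k.io w 0 := by
    rw [io_add, io_add, io_qsmul, io_qsmul, io_qsmul, io_mul k hw, io_one, io_zero, ← h, hτ]
    simp [Fld.io, pow_two]
  have h1 := io_inj k hw h0
  have h2 := congrArg QuadraticAlgebra.re h1
  have h3 := congrArg QuadraticAlgebra.im h1
  simp at h2 h3
  have h4 : 2 * (a * x) + k.t * (a * y) = ((-b : ℤ) : ℚ) := by
    apply mul_right_cancel₀ hy
    push_cast
    linear_combination h3
  have h5 : (a * x) ^ 2 + k.t * (a * x) * (a * y) + k.n * (a * y) ^ 2 = ((a * c : ℤ) : ℚ) := by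
    push_cast at h4 ⊢
    linear_combination a * x * h4 - a * h2
  obtain ⟨⟨u, hu⟩, v, hv⟩ := k.max _ _ ⟨_, h4⟩ ⟨_, h5⟩
  refine ⟨v, ?_, ?_⟩
  · have : (b : ℚ) ^ 2 - 4 * a * c = v ^ 2 * (k.t ^ 2 - 4 * k.n) := by
      push_cast at h4 h5
      rw [← hv]
      linear_combination (b - (2 * (a * x) + k.t * (a * y))) * h4 + 4 * h5
    unfold Fld.D
    exact_mod_cast this
  · have hu' : (a : ℂ) * x = u := by exact_mod_cast hu
    have hv' : (a : ℂ) * y = v := by exact_mod_cast hv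
    have e : (v : ℂ) * w = a * τ - u := by
      rw [hτ, ← hu', ← hv']
      ring
    rw [e, smul_sp, sp_le]
    exact ⟨mem_sp.2 ⟨-b - u, -c, by push_cast; linear_combination -h⟩,
      mem_sp.2 ⟨a, -u, by push_cast; ring⟩⟩

theorem comb {L : Submodule ℤ ℂ} {v v' : ℤ} (h : ((v : ℂ) * w) • L ≤ L)
    (h' : ((v' : ℂ) * w) • L ≤ L) (a b : ℤ) : (((v * a + v' * b : ℤ) : ℂ) * w) • L ≤ L := by
  rintro _ ⟨z, hz, rfl⟩
  have := L.add_mem (L.smul_mem a (h ⟨z, hz, rfl⟩)) (L.smul_mem b (h' ⟨z, hz, rfl⟩))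
  convert this using 1
  simp
  ring

theorem exists_root {l : ℕ} [Fact l.Prime] (h2 : l ≠ 2) {v u : ℤ} (h : ¬ (l : ℤ) ∣ v ^ 2 * k.D)
    (hu : (l : ℤ) ∣ u ^ 2 - v ^ 2 * k.D) : ∃ r : ℚ_[l], k.Root r := by
  have hp : Prime (l : ℤ) := Nat.prime_iff_prime_int.1 Fact.out
  have h1 : ¬ (l : ℤ) ∣ 2 * u := by
    intro h0
    rcases hp.dvd_or_dvd h0 with h0 | h0
    · exact h2 ((Nat.prime_dvd_prime_iff_eq Fact.out Nat.prime_two).1 (by exact_mod_cast h0))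
    · exact h (by simpa using dvd_sub (Dvd.dvd.pow h0 two_ne_zero) hu)
  have key : ∀ Δ : ℤ, (l : ℤ) ∣ u ^ 2 - Δ → ∃ z : ℚ_[l], z ^ 2 = Δ := by
    intro Δ hΔ
    obtain ⟨z, hz, -⟩ := hensels_lemma (p := l) (a := (u : ℤ_[l]))
      (F := (Polynomial.X ^ 2 - Polynomial.C Δ : Polynomial ℤ)) (by
        have e1 : ‖((2 * u : ℤ) : ℤ_[l])‖ = 1 := le_antisymm (PadicInt.norm_le_one _)
          (not_lt.1 fun h => h1 ((PadicInt.norm_int_lt_one_iff_dvd _).1 h))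
        have e2 := (PadicInt.norm_int_lt_one_iff_dvd (p := l) _).2 hΔ
        push_cast at e1 e2
        simpa [e1, -norm_mul, map_ofNat] using e2)
    refine ⟨z, ?_⟩
    have := congrArg (fun x : ℤ_[l] => (x : ℚ_[l])) hz
    simpa [sub_eq_zero] using this
  obtain ⟨z, hz'⟩ := key _ hu
  unfold Fld.D at hz'
  push_cast at hz'
  have hv : (v : ℚ_[l]) ≠ 0 := by
    have : v ≠ 0 := by
      rintro rfl
      simp at h
    exact_mod_cast this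
  refine ⟨(k.t + z / v) / 2, ?_⟩
  unfold Fld.Root
  field_simp
  linear_combination hz'

theorem split_F (hw : k.Root w) {τ : ℍ} {x y : ℚ} (hτ : (τ : ℂ) = x + y * w) {l₁ l₂ : ℕ}
    (s₁ : SplitAt l₁ τ) (s₂ : SplitAt l₂ τ) :
    ∃ F : ℕ, ¬ l₁ ∣ F ∧ ¬ l₂ ∣ F ∧ ((F : ℂ) * w) • CM.sp τ 1 ≤ CM.sp τ 1 := by
  obtain ⟨a, b, c, -, h, hd, -⟩ := s₁
  obtain ⟨a', b', c', -, h', hd', -⟩ := s₂
  obtain ⟨v, e, hv⟩ := form_F k hw hτ h
  obtain ⟨v', e', hv'⟩ := form_F k hw hτ h'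
  refine ⟨Int.gcd v v', fun h0 => hd ?_, fun h0 => hd' ?_, ?_⟩
  · rw [e]
    exact Dvd.dvd.mul_right (Dvd.dvd.pow ((Int.natCast_dvd_natCast.2 h0).trans
      (Int.gcd_dvd_left _ _)) two_ne_zero) _
  · rw [e']
    exact Dvd.dvd.mul_right (Dvd.dvd.pow ((Int.natCast_dvd_natCast.2 h0).trans
      (Int.gcd_dvd_right _ _)) two_ne_zero) _
  · have := comb hv hv' (Int.gcdA v v') (Int.gcdB v v')
    rwa [← Int.gcd_eq_gcd_ab, Int.cast_natCast] at this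

theorem split_root (hw : k.Root w) {τ : ℍ} {x y : ℚ} (hτ : (τ : ℂ) = x + y * w) {l : ℕ}
    [Fact l.Prime] (h2 : l ≠ 2) (s : SplitAt l τ) : ¬ (l : ℤ) ∣ k.D ∧ ∃ r : ℚ_[l], k.Root r := by
  obtain ⟨a, b, c, -, h, hd, u, hu⟩ := s
  obtain ⟨v, e, -⟩ := form_F k hw hτ h
  rw [e] at hd hu
  exact ⟨fun h0 => hd (Dvd.dvd.mul_left h0 _), exists_root k h2 hd hu⟩

theorem in_fld {d : ℕ} {τ : ℍ} (h : InField d τ) {a b : ℚ}
    (e : Complex.I * Real.sqrt d = a + b * w) : ∃ x y : ℚ, (τ : ℂ) = x + y * w := by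
  obtain ⟨x, y, h⟩ := h
  exact ⟨x + y * a, y * b, by rw [h, e]; push_cast; ring⟩

theorem pos_of_in {d : ℕ} {τ : ℍ} (h : InField d τ) : 0 < d := by
  obtain ⟨x, y, h⟩ := h
  refine Nat.pos_of_ne_zero ?_
  rintro rfl
  have := τ.im_pos
  rw [← UpperHalfPlane.coe_im, h] at this
  simp at this

theorem mul_le {L : Submodule ℤ ℂ} {F : ℕ} (h : ((F : ℂ) * w) • L ≤ L) (G : ℕ) :
    (((F * G : ℕ) : ℂ) * w) • L ≤ L := by
  simpa using comb (v := F) (v' := F) (by simpa using h) (by simpa using h) G 0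

theorem exists_F {d : ℕ} {l₁ l₂ : ℕ} [Fact l₁.Prime] [Fact l₂.Prime] {τ₁ τ₂ : ℍ} (hw : k.Root w)
    {a b : ℚ} (e : Complex.I * Real.sqrt d = a + b * w) (f₁ : InField d τ₁) (f₂ : InField d τ₂)
    (s : SplitAt l₁ τ₁ ∧ SplitAt l₂ τ₁ ∧ SplitAt l₁ τ₂ ∧ SplitAt l₂ τ₂) :
    ∃ F : ℕ+, (¬ l₁ ∣ F ∧ ¬ l₂ ∣ F) ∧ (((F : ℕ) : ℂ) * w) • CM.sp τ₁ 1 ≤ CM.sp τ₁ 1 ∧
      (((F : ℕ) : ℂ) * w) • CM.sp τ₂ 1 ≤ CM.sp τ₂ 1 := by
  obtain ⟨x, y, h⟩ := in_fld f₁ e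
  obtain ⟨x', y', h'⟩ := in_fld f₂ e
  obtain ⟨F, a1, a2, a3⟩ := split_F k hw h s.1 s.2.1
  obtain ⟨G, b1, b2, b3⟩ := split_F k hw h' s.2.2.1 s.2.2.2
  have p₁ : l₁.Prime := Fact.out
  have p₂ : l₂.Prime := Fact.out
  have c1 := p₁.not_dvd_mul a1 b1
  refine ⟨⟨F * G, Nat.pos_of_ne_zero fun h => c1 (h ▸ dvd_zero _)⟩, ⟨c1, p₂.not_dvd_mul a2 b2⟩,
    mul_le a3 G, ?_⟩
  have := mul_le b3 F
  rwa [mul_comm G] at this

theorem split_bdd {P : ℕ → ℕ → Prop} {B : ℕ} (h : ∀ n, ∃ d ≤ B, P n d) {x : ℕ → ℝ} {I : ℝ}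
    (H : ∀ (d : ℕ) (ns : ℕ → ℕ), Tendsto ns atTop atTop → (∀ n, P (ns n) d) →
      Tendsto (fun n => x (ns n)) atTop (𝓝 I)) : Tendsto x atTop (𝓝 I) := by
  refine tendsto_of_subseq_tendsto fun ns hns => ?_
  obtain ⟨d, hd⟩ : ∃ d, ∃ᶠ n in atTop, P (ns n) d := by
    by_contra hc
    simp only [not_exists, not_frequently] at hc
    obtain ⟨n, hn⟩ := ((eventually_all_finite (l := atTop) (p := fun d n => ¬ P (ns n) d)
      (Set.finite_Iic B)).2 fun d _ => hc d).exists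
    obtain ⟨d, hd, hP⟩ := h (ns n)
    exact hn d hd hP
  obtain ⟨ms, hms, hP⟩ := extraction_of_frequently_atTop hd
  exact ⟨ms, H d _ (hns.comp hms.tendsto_atTop) hP⟩

theorem stage1 (hB : BasicStmt) (hD : DynStmt) (l₁ l₂ : ℕ) (p₁ : l₁.Prime) (p₂ : l₂.Prime)
    (hne : l₁ ≠ l₂) (o₁ : l₁ ≠ 2) (o₂ : l₂ ≠ 2) (B : ℕ) (τ₁ τ₂ : ℕ → ℍ)
    (hK : ∀ n, ∃ d ≤ B, InField d (τ₁ n) ∧ InField d (τ₂ n))
    (hl : ∀ n, SplitAt l₁ (τ₁ n) ∧ SplitAt l₂ (τ₁ n) ∧ SplitAt l₁ (τ₂ n) ∧ SplitAt l₂ (τ₂ n))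
    (hs : ∀ Z, SpecialCurve Z → ∀ᶠ n in atTop, (jH (τ₁ n), jH (τ₂ n)) ∉ Z) :
    (∀ n, (galOrbit (jH (τ₁ n), jH (τ₂ n))).Finite) ∧ ∀ φ : ℂ × ℂ →ᵇ ℝ,
      Tendsto (fun n => orbitMean (jH (τ₁ n), jH (τ₂ n)) φ) atTop
        (𝓝 (∫ z, φ z ∂(muJ.prod muJ))) := by
  have := Fact.mk p₁
  have := Fact.mk p₂
  refine ⟨fun n => ?_, fun φ => split_bdd hK fun d ns hns hP => ?_⟩
  · obtain ⟨d, -, f₁, f₂⟩ := hK n
    obtain ⟨k, w, hw, a, b, e⟩ := exists_fld (pos_of_in f₁)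
    obtain ⟨F, -, h₁, h₂⟩ := exists_F k hw e f₁ f₂ (hl n)
    exact orbit_finite k hw F.pos h₁ h₂
  obtain ⟨k, w, hw, a, b, e⟩ := exists_fld (pos_of_in (hP 0).1)
  choose F hF h₁ h₂ using fun n => exists_F k hw e (hP n).1 (hP n).2 (hl (ns n))
  obtain ⟨x, y, h⟩ := in_fld (hP 0).1 e
  obtain ⟨d₁, r₁⟩ := split_root k hw h o₁ (hl (ns 0)).1
  obtain ⟨d₂, r₂⟩ := split_root k hw h o₂ (hl (ns 0)).2.1
  exact red k hB hw (ok := fun F => ¬ l₁ ∣ F ∧ ¬ l₂ ∣ F) (hD k w hw l₁ l₂ hne o₁ d₁ d₂ r₁ r₂)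
    (fun n => τ₁ (ns n)) (fun n => τ₂ (ns n)) F hF h₁ h₂ (fun Z hZ => hns.eventually (hs Z hZ)) φ

end Pool.Agent.Lib.MP_9177b7_ag.J.Fin
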