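import Pool.Agent.Lib.MP_9177b7_ag.J.DefsE

/-!
Goursat type statements in `SL₂ × SL₂`.
-/

open scoped MatrixGroups

noncomputable section

namespace Pool.Agent.Lib.MP_9177b7_ag.J

namespace Group

variable {F : Type} [Field F]

theorem up_add (a b : F) : up (a + b) = up a * up b := by
  ext i j
  fin_cases i <;> fin_cases j <;> simp [up, Matrix.mul_apply, Fin.sum_univ_two, add_comm]

theorem lo_add (a b : F) : lo (a + b) = lo a * lo b := by
  ext i j
  fin_cases i <;> fin_cases j <;> simp [lo, Matrix.mul_apply, Fin.sum_univ_two]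

theorem up_zero : up (0 : F) = 1 := by
  ext i j
  fin_cases i <;> fin_cases j <;> simp [up]

theorem lo_zero : lo (0 : F) = 1 := by
  ext i j
  fin_cases i <;> fin_cases j <;> simp [lo]

theorem up_inv (a : F) : (up a)⁻¹ = up (-a) := by
  rw [inv_eq_iff_mul_eq_one, ← up_add, add_neg_cancel, up_zero]

theorem lo_inv (a : F) : (lo a)⁻¹ = lo (-a) := by
  rw [inv_eq_iff_mul_eq_one, ← lo_add, add_neg_cancel, lo_zero]

theorem dg_up (t : Fˣ) (q : F) : dg t * up q * (dg t)⁻¹ = up ((t : F) ^ 2 * q) := by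
  rw [mul_inv_eq_iff_eq_mul]
  ext i j
  fin_cases i <;> fin_cases j <;> simp [up, dg, Matrix.mul_apply, Fin.sum_univ_two]
  field_simp

theorem sg_up (c : Fˣ) (s : F) : sg c (up s) = up ((c : F) * s) := by
  ext i j
  fin_cases i <;> fin_cases j <;> simp [up, sg]

theorem sg_lo (c : Fˣ) (s : F) : sg c (lo s) = lo ((c : F)⁻¹ * s) := by
  ext i j
  fin_cases i <;> fin_cases j <;> simp [lo, sg]

theorem decomp (h : SL(2, F)) (hc : h 1 0 ≠ 0) :
    h = up ((h 0 0 - 1) / h 1 0) * lo (h 1 0) * up ((h 1 1 - 1) / h 1 0) := by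
  have hd := h.det_coe
  rw [Matrix.det_fin_two] at hd
  ext i j
  fin_cases i <;> fin_cases j <;> simp [up, lo, Matrix.mul_apply, Fin.sum_univ_two]
  · field_simp
    ring
  · field_simp
    linear_combination -hd
  · field_simp
    ring

/-- The unipotent elements generate. -/
theorem gen (S : Subgroup SL(2, F)) (hu : ∀ s, up s ∈ S) (hl : ∀ s, lo s ∈ S) (h : SL(2, F)) :
    h ∈ S := by
  have key : ∀ g : SL(2, F), g 1 0 ≠ 0 → g ∈ S := fun g hg => by
    rw [decomp g hg]
    exact S.mul_mem (S.mul_mem (hu _) (hl _)) (hu _)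
  by_cases hc : h 1 0 = 0
  · have hd := h.det_coe
    rw [Matrix.det_fin_two] at hd
    have h1 : (lo 1 * h : SL(2, F)) 1 0 ≠ 0 := by
      have e : (lo 1 * h : SL(2, F)) 1 0 = h 0 0 + h 1 0 := by
        simp [lo, Matrix.mul_apply, Fin.sum_univ_two]
      rw [e, hc, add_zero]
      intro h0
      rw [h0, hc] at hd
      simp at hd
    have := S.mul_mem (S.inv_mem (hl 1)) (key _ h1)
    rwa [inv_mul_cancel_left] at this
  · exact key h hc

variable [CharZero F]

theorem normal_up (N : Subgroup SL(2, F)) (hN : N.Normal) (q : F) (hq : q ≠ 0) (h : up q ∈ N)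
    (s : F) : up s ∈ N := by
  have key : ∀ a : F, up (a ^ 2 * q) ∈ N := fun a => by
    by_cases ha : a = 0
    · rw [ha]
      simp [up_zero]
    · have := hN.conj_mem _ h (dg (Units.mk0 a ha))
      rwa [dg_up] at this
  have e : s = ((s / q + 1) / 2) ^ 2 * q + -(((s / q - 1) / 2) ^ 2 * q) := by
    field_simp
    ring
  rw [e, up_add, ← up_inv]
  exact N.mul_mem (key _) (N.inv_mem (key _))

theorem normal_all (N : Subgroup SL(2, F)) (hN : N.Normal) (g : SL(2, F)) (hg : g ∈ N)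
    (hr : g 1 0 ≠ 0) (s : F) : up s ∈ N := by
  obtain ⟨x, r, y, hr0, rfl⟩ : ∃ x r y : F, r ≠ 0 ∧ g = up x * lo r * up y :=
    ⟨_, _, _, hr, decomp g hr⟩
  set g' : SL(2, F) := up (-r⁻¹) * lo r * up (y + x + r⁻¹) with hg'
  have h1 : g' ∈ N := by
    have := hN.conj_mem _ hg (up (-r⁻¹ - x))
    have e : up (-r⁻¹ - x) * (up x * lo r * up y) * (up (-r⁻¹ - x))⁻¹ = g' := by
      rw [hg', up_inv, ← mul_assoc, ← mul_assoc, ← up_add, mul_assoc _ (up y), ← up_add]
      congr 2
      · congr 1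
        ring
      · ring
    rwa [e] at this
  set D : SL(2, F) := dg (Units.mk0 2 two_ne_zero) with hD
  set P : SL(2, F) := ⟨!![4⁻¹, -3 * (2 + r * (y + x)) / r; 0, 4], by
    simp [Matrix.det_fin_two]⟩ with hP
  have h2 : g' * P * D = D * g' := by
    rw [hg', hD, hP]
    ext i j
    fin_cases i <;> fin_cases j <;>
      simp [up, lo, dg, Matrix.mul_apply, Fin.sum_univ_two] <;> field_simp <;> ring
  have h3 : P ∈ N := by
    have e : P = g'⁻¹ * (D * g' * D⁻¹) := by
      rw [← h2]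
      group
    rw [e]
    exact N.mul_mem (N.inv_mem h1) (hN.conj_mem _ h1 D)
  have h4 : P * up 1 = up 16⁻¹ * P := by
    rw [hP]
    ext i j
    fin_cases i <;> fin_cases j <;>
      simp [up, Matrix.mul_apply, Fin.sum_univ_two]
    field_simp
    ring
  have h5 : up (16⁻¹ + -1 : F) ∈ N := by
    have e : up (16⁻¹ + -1 : F) = P * (up 1 * P⁻¹ * (up 1)⁻¹) := by
      rw [up_add, ← up_inv, ← mul_assoc, ← mul_assoc, h4]
      group
    rw [e]
    exact N.mul_mem h3 (hN.conj_mem _ (N.inv_mem h3) _)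
  exact normal_up N hN _ (by norm_num) h5 s

omit [CharZero F] in
theorem normal_snd (T : Subgroup (SL(2, F) × SL(2, F))) (hu : ∀ s, ∃ g, (g, up s) ∈ T)
    (hl : ∀ s, ∃ g, (g, lo s) ∈ T) : (T.comap (MonoidHom.inr _ _)).Normal := by
  refine ⟨fun n hn g => ?_⟩
  have hg : g ∈ T.map (MonoidHom.snd _ _) := by
    refine gen _ (fun s => ?_) (fun s => ?_) g
    · obtain ⟨k, hk⟩ := hu s
      exact ⟨_, hk, rfl⟩
    · obtain ⟨k, hk⟩ := hl s
      exact ⟨_, hk, rfl⟩
  obtain ⟨⟨k, g'⟩, hk, rfl⟩ := hg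
  have := T.mul_mem (T.mul_mem hk hn) (T.inv_mem hk)
  simpa [Subgroup.mem_comap] using this

omit [CharZero F] in
theorem normal_fst (T : Subgroup (SL(2, F) × SL(2, F))) (hu : ∀ s, ∃ g, (up s, g) ∈ T)
    (hl : ∀ s, ∃ g, (lo s, g) ∈ T) : (T.comap (MonoidHom.inl _ _)).Normal := by
  refine ⟨fun n hn g => ?_⟩
  have hg : g ∈ T.map (MonoidHom.fst _ _) := by
    refine gen _ (fun s => ?_) (fun s => ?_) g
    · obtain ⟨k, hk⟩ := hu s
      exact ⟨_, hk, rfl⟩
    · obtain ⟨k, hk⟩ := hl s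
      exact ⟨_, hk, rfl⟩
  obtain ⟨⟨g', k⟩, hk, rfl⟩ := hg
  have := T.mul_mem (T.mul_mem hk hn) (T.inv_mem hk)
  simpa [Subgroup.mem_comap] using this

omit [CharZero F] in
theorem weyl : (up 1 * lo (-1) * up 1) * lo (1 : F) * (up 1 * lo (-1) * up 1)⁻¹ * up 1 = 1 := by
  rw [mul_inv_rev, mul_inv_rev, up_inv, lo_inv]
  ext i j
  fin_cases i <;> fin_cases j <;> simp [up, lo, Matrix.mul_apply, Fin.sum_univ_two]

omit [CharZero F] in
theorem weyl' (a b : F) :
    ((up a * lo (-b) * up a) * lo b * (up a * lo (-b) * up a)⁻¹ * up a : SL(2, F)) 1 0 =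
      b * (1 - a * b) ^ 2 := by
  rw [mul_inv_rev, mul_inv_rev, up_inv, lo_inv]
  simp [up, lo, Matrix.mul_apply, Fin.sum_univ_two]
  ring

end Group

open _root_.Pool.Agent.Lib.MP_9177b7_ag.J.Group in
theorem group : GroupStmt := by
  intro F _ _ T
  refine ⟨?_, ?_⟩
  · rintro ⟨x, y, hxy, hU⟩ ⟨x', y', hxy', hL⟩
    by_cases hx : x = 0
    · have hy : y ≠ 0 := hxy.resolve_left (fun h => h hx)
      refine Or.inl fun s => ?_
      have := hU (s / y)
      rwa [hx, mul_zero, up_zero, div_mul_cancel₀ _ hy] at this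
    by_cases hy : y = 0
    · refine Or.inr (Or.inl fun s => ?_)
      have := hU (s / x)
      rwa [hy, mul_zero, up_zero, div_mul_cancel₀ _ hx] at this
    have hU1 : ∀ s, (up s, up (y / x * s)) ∈ T := fun s => by
      have := hU (s / x)
      rwa [div_mul_cancel₀ _ hx, show s / x * y = y / x * s by ring] at this
    have hU2 : ∀ s, ∃ g, (g, up s) ∈ T := fun s => by
      have := hU (s / y)
      rw [div_mul_cancel₀ _ hy] at this
      exact ⟨_, this⟩
    by_cases hx' : x' = 0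
    · have hy' : y' ≠ 0 := hxy'.resolve_left (fun h => h hx')
      have h1 : ∀ s, (1, lo s) ∈ T := fun s => by
        have := hL (s / y')
        rwa [hx', mul_zero, lo_zero, div_mul_cancel₀ _ hy'] at this
      exact Or.inl fun s => normal_all _ (normal_snd T hU2 fun s => ⟨_, h1 s⟩) (lo 1) (h1 1)
        (by simp [lo]) s
    have hL1 : ∀ s, (lo s, lo (y' / x' * s)) ∈ T := fun s => by
      have := hL (s / x')
      rwa [div_mul_cancel₀ _ hx', show s / x' * y' = y' / x' * s by ring] at this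
    by_cases hy' : y' = 0
    · have h1 : ((lo 1, 1) : SL(2, F) × SL(2, F)) ∈ T := by
        have := hL1 1
        rwa [hy', zero_div, zero_mul, lo_zero] at this
      exact Or.inr (Or.inl fun s => normal_all _
        (normal_fst T (fun s => ⟨_, hU1 s⟩) fun s => ⟨_, hL1 s⟩) (lo 1) h1 (by simp [lo]) s)
    have hL2 : ∀ s, ∃ g, (g, lo s) ∈ T := fun s => by
      have := hL (s / y')
      rw [div_mul_cancel₀ _ hy'] at this
      exact ⟨_, this⟩
    by_cases hc : y / x * (y' / x') = 1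
    · refine Or.inr (Or.inr ⟨Units.mk0 (y / x) (div_ne_zero hy hx), fun h => ?_⟩)
      refine gen (T.comap ((MonoidHom.id _).prod (sg (Units.mk0 (y / x) (div_ne_zero hy hx)))))
        (fun s => ?_) (fun s => ?_) h
      · rw [Subgroup.mem_comap, MonoidHom.prod_apply, sg_up]
        exact hU1 s
      · rw [Subgroup.mem_comap, MonoidHom.prod_apply, sg_lo, Units.val_mk0,
          inv_eq_of_mul_eq_one_right hc]
        exact hL1 s
    · have hu := hU1 1
      have hl := hL1 1
      have hl' := hL1 (-1)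
      rw [mul_one] at hu hl
      rw [mul_neg, mul_one] at hl'
      have hm := T.mul_mem (T.mul_mem hu hl') hu
      have h1 := T.mul_mem (T.mul_mem (T.mul_mem hm hl) (T.inv_mem hm)) hu
      simp only [Prod.mk_mul_mk, Prod.inv_mk] at h1
      rw [weyl] at h1
      refine Or.inl fun s => normal_all _ (normal_snd T hU2 hL2) _ h1 ?_ s
      rw [weyl']
      exact mul_ne_zero (div_ne_zero hy' hx') (pow_ne_zero _ (sub_ne_zero.2 (Ne.symm hc)))
  · intro c hc q hq h s
    refine normal_up _ (normal_snd T (fun s => ⟨up ((c : F)⁻¹ * s), ?_⟩)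
      (fun s => ⟨lo ((c : F) * s), ?_⟩)) q hq h s
    · have := hc (up ((c : F)⁻¹ * s))
      rwa [sg_up, mul_inv_cancel_left₀ c.ne_zero] at this
    · have := hc (lo ((c : F) * s))
      rwa [sg_lo, inv_mul_cancel_left₀ c.ne_zero] at this

end Pool.Agent.Lib.MP_9177b7_ag.J
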