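import Pool.Agent.Lib.MP_9177b7_ag.J.DefsE

/-!
The invariant probability measure of the `S`-arithmetic quotient.
-/

open MeasureTheory ProbabilityTheory Filter Topology Set
open scoped MatrixGroups ENNReal NNReal

noncomputable section

namespace Pool.Agent.Lib.MP_9177b7_ag.J

namespace Hom

lemma conj_up {F : Type} [Field F] (t : Fˣ) (s : F) :
    (dg t)⁻¹ * up s * dg t = up (((t : F)⁻¹) ^ 2 * s) := by
  rw [mul_assoc, inv_mul_eq_iff_eq_mul]
  ext i j
  have := t.ne_zero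
  fin_cases i <;> fin_cases j <;> simp [dg, up, Matrix.mul_apply, Fin.sum_univ_two]
  field_simp

lemma up_zero {F : Type} [Field F] : up (0 : F) = 1 := by
  ext i j
  fin_cases i <;> fin_cases j <;> simp [up]

lemma continuous_up {F : Type} [Field F] [TopologicalSpace F] : Continuous (up : F → SL(2, F)) := by
  refine Continuous.subtype_mk (continuous_matrix fun i j => ?_) _
  fin_cases i <;> fin_cases j <;> simp <;> fun_prop

variable (l₁ l₂ : ℕ) [Fact l₁.Prime] [Fact l₂.Prime]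

/-- Exchange of the two `p`-adic factors. -/
def e2 : HH l₂ × (HH l₁ × SL(2, ℝ)) ≃ₜ* GG l₁ l₂ where
  toFun x := (x.2.1, x.1, x.2.2)
  invFun g := (g.2.1, g.1, g.2.2)
  left_inv _ := rfl
  right_inv _ := rfl
  map_mul' _ _ := rfl
  continuous_toFun := by fun_prop
  continuous_invFun := by fun_prop

/-- The second factor. -/
def mid : HH l₂ →* GG l₁ l₂ where
  toFun h := (1, h, 1)
  map_one' := rfl
  map_mul' _ _ := by simp

lemma continuous_mid : Continuous (mid l₁ l₂) := by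
  change Continuous fun h : HH l₂ => ((1, h, 1) : GG l₁ l₂)
  fun_prop

variable {l₁ l₂}

lemma conj_pow (t : ℚ_[l₂]ˣ) (r : SL(2, ℝ)) (s : ℚ_[l₂]) (n : ℕ) :
    (((1, dg t, r) : GG l₁ l₂)⁻¹) ^ n * mid l₁ l₂ (up s) * ((((1, dg t, r) : GG l₁ l₂)⁻¹) ^ n)⁻¹ =
      mid l₁ l₂ (up ((((t : ℚ_[l₂])⁻¹) ^ 2) ^ n * s)) := by
  induction n with
  | zero => simp
  | succ n ih =>
    rw [pow_succ', mul_inv_rev, mul_assoc, mul_assoc, ← mul_assoc (mid _ _ _), ← mul_assoc (_ ^ n),
      ← mul_assoc (_ ^ n), ih, pow_succ' _ n, mul_assoc (_ ^ 2), ← conj_up, inv_inv]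
    simp [mid, mul_assoc]

lemma conj_tendsto (t : ℚ_[l₂]ˣ) (ht : 1 < ‖(t : ℚ_[l₂])‖) (r : SL(2, ℝ)) (s : ℚ_[l₂]) :
    Tendsto (fun n : ℕ => (((1, dg t, r) : GG l₁ l₂)⁻¹) ^ n * mid l₁ l₂ (up s) *
      ((((1, dg t, r) : GG l₁ l₂)⁻¹) ^ n)⁻¹) atTop (𝓝 1) := by
  simp only [conj_pow]
  have h1 : ‖((t : ℚ_[l₂])⁻¹) ^ 2‖ < 1 := by
    rw [norm_pow, norm_inv]
    exact pow_lt_one₀ (by positivity) (inv_lt_one_of_one_lt₀ ht) two_ne_zero
  have h2 := (tendsto_pow_atTop_nhds_zero_of_norm_lt_one h1).mul_const s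
  have h3 := (((continuous_mid l₁ l₂).comp continuous_up).tendsto _).comp h2
  simpa [up_zero, Function.comp_def] using h3

end Hom

open Hom in
theorem hom : DiscStmt → UniqStmt → MautStmt → HomStmt := by
  intro hD hU hM l₁ l₂ _ _ _ hl μ hμ hinv
  obtain ⟨hd, -, -, d1, d2, u1, u2, uG⟩ := hD l₁ l₂ hl
  have := u1 Measure.haar
  have := u2 Measure.haar
  have := uG Measure.haar
  obtain ⟨A1, A2⟩ := hU (GG l₁ l₂) (HH l₁) (CC l₂) (ContinuousMulEquiv.refl _) (Gam l₁ l₂)
    Measure.haar Measure.haar d1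
  obtain ⟨-, B2⟩ := hU (GG l₁ l₂) (HH l₂) (HH l₁ × SL(2, ℝ)) (e2 l₁ l₂) (Gam l₁ l₂)
    Measure.haar Measure.haar d2
  have hB : BorelSpace (XX l₁ l₂) := (sp l₁ l₂).bX
  have hG : ∀ g : GG l₁ l₂, μ.map (g • ·) = μ := (A2 μ μ hμ inferInstance hinv hinv).2
  have hms : ∀ g : GG l₁ l₂, Measurable fun x : XX l₁ l₂ => g • x := fun g =>
    (continuous_const_smul g).measurable
  refine ⟨hG, fun μ' hμ' h' => ?_, ?_, fun (lam : Measure (XX l₁ l₂)) (hle : lam ≤ μ) h => ?_,
    fun t r ht => ?_⟩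
  · have := (A2 μ μ' hμ inferInstance hinv h').1
    rwa [measure_univ, one_smul] at this
  · obtain ⟨c, hc⟩ := A1 μ inferInstance hinv
    have i1 : IsFiniteMeasureOnCompacts (c • (Measure.haar : Measure (GG l₁ l₂))) := inferInstance
    have i2 : (c • (Measure.haar : Measure (GG l₁ l₂))).IsMulRightInvariant := inferInstance
    refine ⟨c • (Measure.haar : Measure (GG l₁ l₂)), i1, i2, fun (U : Set (GG l₁ l₂)) hU => ?_⟩
    have e : (fun g : GG l₁ l₂ => g • (QuotientGroup.mk 1 : XX l₁ l₂)) = QuotientGroup.mk := by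
      funext g
      simp [MulAction.Quotient.smul_mk]
    change μ ((fun g : GG l₁ l₂ => g • (QuotientGroup.mk 1 : XX l₁ l₂)) '' U) ≤
      (c • (Measure.haar : Measure (GG l₁ l₂))) U
    have hU' : IsOpen (X := GG l₁ l₂) U := hU
    have h1 := hc (indicator U 1) (measurable_one.indicator hU'.measurableSet)
    rw [lintegral_indicator_one hU'.measurableSet] at h1
    rw [e, Measure.smul_apply, ENNReal.smul_def, smul_eq_mul, ← h1,
      ← lintegral_indicator_one (QuotientGroup.isOpenMap_coe U hU').measurableSet]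
    refine lintegral_mono fun x => ?_
    by_cases hx : x ∈ (QuotientGroup.mk : GG l₁ l₂ → XX l₁ l₂) '' U
    · obtain ⟨g, hg, rfl⟩ := hx
      obtain ⟨h, hh⟩ := QuotientGroup.mk_out_eq_mul (Gam l₁ l₂) g
      refine le_trans ?_ (ENNReal.le_tsum h⁻¹)
      rw [indicator_of_mem (mem_image_of_mem _ hg), hh, Subgroup.coe_inv, mul_inv_cancel_right,
        indicator_of_mem hg]
      rfl
    · rw [indicator_of_notMem hx]
      exact zero_le
  · have : IsFiniteMeasure lam := isFiniteMeasure_of_le μ hle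
    exact (A2 μ lam hμ this hinv ((hM (GG l₁ l₂) (XX l₁ l₂) μ lam inferInstance hG hle).2 l₁
      (MonoidHom.inl _ _) (Continuous.prodMk_left 1) h)).1
  · have hp : MeasurePreserving (fun x : XX l₁ l₂ => ((1, dg t, r) : GG l₁ l₂) • x) μ μ :=
      ⟨hms _, hG _⟩
    refine ⟨hp, ⟨fun (A : Set (XX l₁ l₂)) hA hfA => ?_⟩⟩
    have hA' : MeasurableSet (α := XX l₁ l₂) A := hA
    have h1 := hp.restrict_preimage hA'
    have hfA' : (fun x : XX l₁ l₂ => ((1, dg t, r) : GG l₁ l₂) • x) ⁻¹' A = A := hfA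
    rw [hfA'] at h1
    have h2 : (μ.restrict A).map (fun x => ((1, dg t, r) : GG l₁ l₂)⁻¹ • x) = μ.restrict A := by
      conv_lhs => rw [← h1.map_eq]
      rw [Measure.map_map (hms _) (hms _)]
      simp only [Function.comp_def, inv_smul_smul, Measure.map_id']
    obtain ⟨M1, M2⟩ := hM (GG l₁ l₂) (XX l₁ l₂) μ (μ.restrict A) inferInstance hG
      Measure.restrict_le_self
    have h3 := M2 l₂ (mid l₁ l₂) (continuous_mid l₁ l₂) fun s =>
      M1 _ _ h2 (conj_tendsto t ht r s)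
    have h4 := (B2 μ (μ.restrict A) hμ inferInstance (fun h => hG _) h3).1
    have h5 : μ.restrict A Aᶜ = (μ.restrict A univ • μ) Aᶜ := by rw [← h4]
    rw [Measure.restrict_apply hA'.compl, compl_inter_self, measure_empty, Measure.smul_apply,
      Measure.restrict_apply_univ, smul_eq_mul] at h5
    refine eventuallyConst_set'.2 ?_
    rcases mul_eq_zero.1 h5.symm with h | h
    · exact Or.inl (ae_eq_empty.2 h)
    · exact Or.inr (ae_eq_univ.2 h)

end Pool.Agent.Lib.MP_9177b7_ag.J
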