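import Pool.Agent.Lib.MP_9177b7_ag.J.Line2

/-!
A line of unipotents: the covering argument.
-/

open MeasureTheory ProbabilityTheory Filter Topology Set
open scoped MatrixGroups ENNReal NNReal Pointwise

noncomputable section

namespace Pool.Agent.Lib.MP_9177b7_ag.J

namespace Line

variable {l : ℕ} [Fact l.Prime] (S : Sp l)

theorem small {μ : Measure S.X} {Θ : Kernel (S.X × S.X) (S.X × S.X)} [IsMarkovKernel Θ]
    {Z Q : Set (S.X × S.X)} {t : ℚ_[l]ˣ} (ht : 1 < ‖(t : ℚ_[l])‖) (hB : S.Bound μ)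
    (equi : ∀ v z, z ∈ Z → S.h2 v z ∈ Z → Θ (S.h2 v z) = (Θ z).map (S.h2 v))
    (hQ : IsCompact Q) (hZ : Q ⊆ Z)
    (hc : ∀ φ : S.X × S.X → ℝ, Continuous φ → HasCompactSupport φ →
      ContinuousOn (fun z => ∫ w, φ w ∂Θ z) Q) {u : ℚ_[l]} (hu : 1 ≤ ‖u‖)
    (hW : ∀ z ∈ Q, ∀ v ∈ W S (Θ z), ‖v‖ ≤ ‖u‖) {N : ℕ}
    (hN : ∀ u : ℚ_[l], u ≠ 0 → ∀ c : ℚ_[l] × ℚ_[l], ∃ F : Finset (ℚ_[l] × ℚ_[l]), F.card ≤ N ∧
      ∀ y, dist y c ≤ ‖u‖ → ∃ c' ∈ F, dist y c' ≤ ‖u‖ / ‖(t : ℚ_[l]) ^ 2‖) :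
    ∃ C : ℝ, 0 ≤ C ∧ ∀ (k x : ℕ) (θ : Measure (S.X × S.X)), θ.map Prod.fst = μ →
      θ {w | w ∈ Q ∧ Θ w = θ ∧ cnt (fun i w => (S.h2 (dg t, dg t))^[i + 1] w ∉ Q) k w ≤ x} ≤
        ENNReal.ofReal (C * ((3 / 4) ^ k * (2 * N + 1) ^ x)) := by
  have := ultra (l := l)
  obtain ⟨m, hm1, hm2, hm⟩ := hB
  set τ : ℚ_[l] := (t : ℚ_[l]) ^ 2 with hτ
  have hτ1 : 1 < ‖τ‖ := by rw [hτ, norm_pow]; exact one_lt_pow₀ ht two_ne_zero
  have hτ0 : 0 < ‖τ‖ := one_pos.trans hτ1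
  have hu0 : u ≠ 0 := norm_pos_iff.1 (one_pos.trans_le hu)
  have hpos : ∀ i : ℕ, u / τ ^ i ≠ 0 := fun i =>
    div_ne_zero hu0 (pow_ne_zero _ (norm_pos_iff.1 hτ0))
  have hcl := claim S equi hQ hZ hc (R' := ‖τ‖ * ‖u‖) (one_pos.trans_le hu) hW
  obtain ⟨O₁, hO₁, O₂, hO₂, hO⟩ := mem_nhds_prod_iff.1 hcl
  obtain ⟨O₃, hO₃, O₄, hO₄, hO'⟩ := mem_nhds_prod_iff.1 hO₁
  obtain ⟨O₅, hO₅, O₆, hO₆, hO''⟩ := mem_nhds_prod_iff.1 hO₂
  obtain ⟨OH, hOH, OC, hOC, hO'''⟩ := mem_nhds_prod_iff.1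
    (inter_mem (inter_mem hO₃ hO₄) (inter_mem hO₅ hO₆))
  obtain ⟨r, hr0, hr, hrO⟩ := Marg.exists_Nb hOH
  obtain ⟨Kc, hKc, hKc'⟩ := exists_compact_mem_nhds (1 : S.C)
  set Cd : Set S.C := interior (OC ∩ Kc) with hCd
  have hCo : IsOpen Cd := isOpen_interior
  have hC1 : (1 : S.C) ∈ Cd := mem_interior_iff_mem_nhds.2 (inter_mem hOC hKc')
  set B : Set S.G := Marg.Nb r ×ˢ Cd with hBdef
  have hBO : ∀ g ∈ B, g ∈ (O₃ ∩ O₄) ∩ (O₅ ∩ O₆) := fun g hg =>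
    hO''' ⟨hrO hg.1, (interior_subset hg.2).1⟩
  have hBo : IsOpen B := (Marg.isOpen_Nb r).prod hCo
  have hB1 : (1 : S.G) ∈ B := ⟨Marg.one_mem_Nb hr0, hC1⟩
  obtain ⟨T, -, hT⟩ := hQ.elim_nhds_subcover
    (fun z => ((fun g : S.G => g • z.1) '' B) ×ˢ ((fun g : S.G => g • z.2) '' B)) fun z _ =>
      ((Marg.isOpen_orbit S hBo _).prod (Marg.isOpen_orbit S hBo _)).mem_nhds
        ⟨⟨1, hB1, one_smul _ _⟩, ⟨1, hB1, one_smul _ _⟩⟩
  have hfin := Tb_fin S m hKc (Cd := Cd) (fun c hc => (interior_subset hc).2) hu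
  refine ⟨T.card * (m (Tb S Cd 0 ‖u‖)).toReal, by positivity, fun k x θ hθ => ?_⟩
  have hmk : m (Tb S Cd 0 ‖u / τ ^ k‖) ≤
      ENNReal.ofReal ((m (Tb S Cd 0 ‖u‖)).toReal * (1 / 2) ^ k) := by
    have h1 := Tb_pow S m hCo hτ1 hu0 k
    have h2 : m (Tb S Cd 0 ‖u / τ ^ k‖) ≠ ∞ :=
      ((le_mul_of_one_le_left' (one_le_pow₀ one_le_two)).trans_lt (h1.trans_lt hfin)).ne
    rw [ENNReal.le_ofReal_iff_toReal_le h2 (by positivity)]
    have h3 := ENNReal.toReal_mono hfin.ne h1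
    rw [ENNReal.toReal_mul, ENNReal.toReal_pow, ENNReal.toReal_ofNat] at h3
    rw [one_div, inv_pow, ← div_eq_mul_inv, le_div_iff₀ (by positivity), mul_comm]
    exact h3
  have hz : ∀ z : S.X × S.X,
      θ ({w | w ∈ Q ∧ Θ w = θ ∧ cnt (fun i w => (S.h2 (dg t, dg t))^[i + 1] w ∉ Q) k w ≤ x} ∩
        ((fun g : S.G => g • z.1) '' B) ×ˢ ((fun g : S.G => g • z.2) '' B)) ≤
      ENNReal.ofReal ((m (Tb S Cd 0 ‖u‖)).toReal * ((3 / 4) ^ k * (2 * N + 1) ^ x)) := by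
    intro z
    have hv : ∀ η ∈ B ×ˢ B, ‖vc S η‖ ≤ 1 := by
      intro η hη
      rw [Prod.norm_def]
      refine max_le ?_ ?_
      · simp only [vc]
        rw [norm_div, Marg.Nb_unit hr hη.1.1, div_one]
        exact Marg.Nb_le hr hη.1.1 0 1
      · simp only [vc]
        rw [norm_div, Marg.Nb_unit hr hη.2.1, div_one]
        exact Marg.Nb_le hr hη.2.1 0 1
    obtain ⟨F, hF, hF'⟩ := cover {η | η ∈ B ×ˢ B ∧ S.g2 η z ∈ Q ∧ Θ (S.g2 η z) = θ} (vc S)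
      (fun i η => (S.h2 (dg t, dg t))^[i + 1] (S.g2 η z) ∉ Q) (fun i => ‖u / τ ^ i‖) N
      (by
        intro η hη η' hη'
        rw [pow_zero, div_one]
        refine (IsUltrametricDist.dist_triangle_max _ 0 _).trans (max_le ?_ ?_)
        · rw [dist_zero_right]
          exact (hv _ hη.1).trans hu
        · rw [dist_zero_left]
          exact (hv _ hη'.1).trans hu)
      (by
        intro i η hη η' hη' hb hb' hd
        rw [not_not] at hb hb'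
        obtain ⟨ζ, hζ, ζ', hζ', e⟩ := two_pts S hr ht hη.1 hη'.1 z (i + 1)
        have h1 := hO (mk_mem_prod (a := ζ) (b := ζ')
          (hO' ⟨(hBO _ hζ.1).1.1, (hBO _ hζ.2).1.2⟩) (hO'' ⟨(hBO _ hζ'.1).2.1, (hBO _ hζ'.2).2.2⟩))
        rw [dist_eq_norm] at hd ⊢
        rw [norm_div, norm_pow, le_div_iff₀ (pow_pos hτ0 _)] at hd ⊢
        have h2 := h1 _ hb' (τ ^ (i + 1) • (vc S η - vc S η')) (by
          rw [norm_smul, norm_pow, pow_succ', mul_assoc, mul_comm (‖τ‖ ^ i)]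
          exact mul_le_mul_of_nonneg_left hd hτ0.le) (e ▸ hb) (by
          rw [← e]
          rw [iter_pow] at hb hb' ⊢
          rw [equi _ _ (hZ hη.2.1) (hZ hb), equi _ _ (hZ hη'.2.1) (hZ hb'), hη.2.2, hη'.2.2])
        rwa [norm_smul, norm_pow, mul_comm] at h2)
      (by
        intro i c
        obtain ⟨F, a, b⟩ := hN _ (hpos i) c
        refine ⟨F, a, fun y hy => ?_⟩
        obtain ⟨c', a', b'⟩ := b y hy
        refine ⟨c', a', ?_⟩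
        rwa [pow_succ, ← div_div, norm_div]) k x
    obtain ⟨g₀, hg₀⟩ := S.surj z.1
    have hsub : {w | w ∈ Q ∧ Θ w = θ ∧
        cnt (fun i w => (S.h2 (dg t, dg t))^[i + 1] w ∉ Q) k w ≤ x} ∩
        ((fun g : S.G => g • z.1) '' B) ×ˢ ((fun g : S.G => g • z.2) '' B) ⊆
        ⋃ c ∈ F, Prod.fst ⁻¹' ((fun g : S.G => g • S.o) ''
          ((fun g : S.G => g * g₀⁻¹) ⁻¹' Tb S Cd c.1 ‖u / τ ^ k‖)) := by
      rintro ⟨w₁, w₂⟩ ⟨⟨a, b, c⟩, ⟨g₁, d₁, rfl⟩, g₂, d₂, rfl⟩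
      obtain ⟨c₀, e, f⟩ := hF' (g₁, g₂) ⟨⟨d₁, d₂⟩, a, b⟩ c
      refine mem_iUnion₂.2 ⟨c₀, e, g₁ * g₀, ?_, by simp only [mul_smul, hg₀]⟩
      have n1 := Marg.Nb_unit hr d₁.1
      have n0 : g₁.1 0 0 ≠ 0 := norm_pos_iff.1 (n1 ▸ one_pos)
      rw [mem_preimage, mul_inv_cancel_right]
      refine ⟨by simpa using (d₁.1 0 0).trans_le hr, by simpa using (d₁.1 1 0).trans_le hr, ?_,
        d₁.2⟩
      have f1 : dist (g₁.1 0 1 / g₁.1 0 0) c₀.1 ≤ ‖u / τ ^ k‖ := by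
        have f' : dist (vc S (g₁, g₂)) c₀ ≤ ‖u / τ ^ k‖ := f
        rw [Prod.dist_eq] at f'
        exact (le_max_left _ _).trans f'
      have e1 : g₁.1 0 1 - c₀.1 * g₁.1 0 0 = (g₁.1 0 1 / g₁.1 0 0 - c₀.1) * g₁.1 0 0 := by
        field_simp
      rwa [e1, norm_mul, n1, mul_one, ← dist_eq_norm]
    refine (measure_mono hsub).trans ((measure_biUnion_finset_le _ _).trans ?_)
    refine (Finset.sum_le_card_nsmul _ _
      (ENNReal.ofReal ((m (Tb S Cd 0 ‖u‖)).toReal * (1 / 2) ^ k)) fun c _ => ?_).trans ?_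
    · refine (Measure.le_map_apply measurable_fst.aemeasurable _).trans ?_
      rw [hθ]
      refine (hm _ ((isOpen_Tb S hCo _ (norm_pos_iff.2 (hpos k))).preimage
        (continuous_mul_const _))).trans ?_
      rw [measure_preimage_mul_right, Tb_shift, measure_preimage_mul_right]
      exact hmk
    · rw [nsmul_eq_mul, ← ENNReal.ofReal_natCast, ← ENNReal.ofReal_mul (Nat.cast_nonneg _)]
      refine ENNReal.ofReal_le_ofReal ?_
      have e : ((3 : ℝ) / 4) ^ k = (3 / 2) ^ k * (1 / 2) ^ k := by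
        rw [← mul_pow]; norm_num
      calc _ ≤ ((3 / 2) ^ k * (2 * N + 1) ^ x) * ((m (Tb S Cd 0 ‖u‖)).toReal * (1 / 2) ^ k) :=
            mul_le_mul_of_nonneg_right hF (by positivity)
        _ = _ := by rw [e]; ring
  refine (measure_mono (t := ⋃ z ∈ T, {w | w ∈ Q ∧ Θ w = θ ∧
      cnt (fun i w => (S.h2 (dg t, dg t))^[i + 1] w ∉ Q) k w ≤ x} ∩
        ((fun g : S.G => g • z.1) '' B) ×ˢ ((fun g : S.G => g • z.2) '' B)) ?_).trans
    ((measure_biUnion_finset_le _ _).trans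
      ((Finset.sum_le_card_nsmul _ _ _ fun z _ => hz z).trans (le_of_eq ?_)))
  · intro w hw
    obtain ⟨z, a, b⟩ := mem_iUnion₂.1 (hT hw.1)
    exact mem_iUnion₂.2 ⟨z, a, hw, b⟩
  · rw [nsmul_eq_mul, ← ENNReal.ofReal_natCast, ← ENNReal.ofReal_mul (Nat.cast_nonneg _),
      mul_assoc]

theorem approx {ν : Measure (S.X × S.X)} [IsProbabilityMeasure ν]
    {Θ : Kernel (S.X × S.X) (S.X × S.X)} [IsMarkovKernel Θ] {Z : Set (S.X × S.X)}
    (lusin : ∀ ε : ℝ≥0∞, 0 < ε → ∃ Q : Set (S.X × S.X), IsCompact Q ∧ Q ⊆ Z ∧ ν Qᶜ < ε ∧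
      ∀ φ : S.X × S.X → ℝ, Continuous φ → HasCompactSupport φ →
        ContinuousOn (fun z => ∫ w, φ w ∂Θ z) Q) {τ : ℚ_[l]} (hτ : 1 < ‖τ‖) {ε : ℝ≥0∞}
    (hε : 0 < ε) :
    ∃ (Q : Set (S.X × S.X)) (u : ℚ_[l]), IsCompact Q ∧ Q ⊆ Z ∧
      (∀ φ : S.X × S.X → ℝ, Continuous φ → HasCompactSupport φ →
        ContinuousOn (fun z => ∫ w, φ w ∂Θ z) Q) ∧ 1 ≤ ‖u‖ ∧
      (∀ z ∈ Q, ∀ v ∈ W S (Θ z), ‖v‖ ≤ ‖u‖) ∧
      ν ({z | ∃ R : ℝ, ∀ v ∈ W S (Θ z), ‖v‖ ≤ R} \ Q) < ε + ε + ε := by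
  obtain ⟨L, hL, hLZ, hLε, hLc⟩ := lusin ε hε
  let D : ℕ → Set (S.X × S.X) := fun n => {z | z ∈ L ∧ ∀ v ∈ W S (Θ z), ‖v‖ ≤ ‖τ‖ ^ n}
  have hD : ∀ n, MeasurableSet (D n) := fun n =>
    meas_bdd S hL hLc (pow_pos (one_pos.trans hτ) n)
  have hanti : Antitone fun n => (⋃ j, D j) \ D n := by
    intro a b hab z hz
    exact ⟨hz.1, fun h => hz.2 ⟨h.1, fun v hv => (h.2 v hv).trans (pow_le_pow_right₀ hτ.le hab)⟩⟩
  have hlim := tendsto_measure_iInter_atTop (μ := ν)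
    (fun n => ((MeasurableSet.iUnion hD).diff (hD n)).nullMeasurableSet) hanti
    ⟨0, measure_ne_top _ _⟩
  have hemp : (⋂ n, (⋃ j, D j) \ D n) = ∅ := by
    refine eq_empty_of_forall_notMem fun z hz => ?_
    obtain ⟨j, hj⟩ := mem_iUnion.1 (mem_iInter.1 hz 0).1
    exact (mem_iInter.1 hz j).2 hj
  rw [hemp, measure_empty] at hlim
  obtain ⟨n, hn⟩ := (hlim.eventually (gt_mem_nhds hε)).exists
  obtain ⟨Q, hQD, hQ, hQε⟩ := (hD n).exists_isCompact_sdiff_lt (μ := ν) (measure_ne_top _ _) hε.ne'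
  refine ⟨Q, τ ^ n, hQ, fun z hz => hLZ (hQD hz).1,
    fun φ a b => (hLc φ a b).mono fun z hz => (hQD hz).1,
    by rw [norm_pow]; exact one_le_pow₀ hτ.le,
    fun z hz v hv => by rw [norm_pow]; exact (hQD hz).2 v hv, ?_⟩
  have hsub : {z | ∃ R : ℝ, ∀ v ∈ W S (Θ z), ‖v‖ ≤ R} \ Q ⊆
      Lᶜ ∪ ((⋃ j, D j) \ D n) ∪ (D n \ Q) := by
    rintro z ⟨⟨R, hR⟩, hz⟩
    by_cases h1 : z ∈ D n
    · exact Or.inr ⟨h1, hz⟩
    · by_cases h2 : z ∈ L
      · obtain ⟨j, hj⟩ := pow_unbounded_of_one_lt R hτ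
        exact Or.inl (Or.inr ⟨mem_iUnion.2 ⟨j, h2, fun v hv => (hR v hv).trans hj.le⟩, h1⟩)
      · exact Or.inl (Or.inl h2)
  refine ((measure_mono hsub).trans (measure_union_le _ _)).trans_lt (ENNReal.add_lt_add ?_ hQε)
  exact (measure_union_le _ _).trans_lt (ENNReal.add_lt_add hLε hn)

end Line

open Line in
theorem line : LineStmt := by
  intro l _ S μ ν Θ Z t ht hB hν hD hA
  have := hD.markov
  set E : Set (S.X × S.X) := {z | ∃ R : ℝ, ∀ v ∈ W S (Θ z), ‖v‖ ≤ R} with hEdef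
  suffices hE : ν E = 0 by
    filter_upwards [measure_eq_zero_iff_ae_notMem.1 hE] with z hz
    obtain ⟨e, he, h⟩ := line_of_unbdd (W S (Θ z)) (closed_W S _) fun R => by
      by_contra h
      push Not at h
      exact hz ⟨R, h⟩
    refine ⟨e.1, e.2, ?_, fun s => h s⟩
    by_contra h'
    push Not at h'
    exact he (Prod.ext h'.1 h'.2)
  by_contra hE
  have hτ : 1 < ‖(t : ℚ_[l]) ^ 2‖ := by rw [norm_pow]; exact one_lt_pow₀ ht two_ne_zero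
  obtain ⟨N, hN⟩ := balls hτ
  have hN0 : (0 : ℝ) < 2 * N + 1 := by positivity
  obtain ⟨M, hM⟩ := exists_pow_lt_of_lt_one (inv_pos.2 hN0) (show (3 : ℝ) / 4 < 1 by norm_num)
  have hM' : ((3 : ℝ) / 4) ^ M * (2 * N + 1) < 1 := by
    rwa [← lt_div_iff₀ hN0, one_div]
  have hM0 : M ≠ 0 := by
    rintro rfl
    have := Nat.cast_nonneg (α := ℝ) N
    simp only [pow_zero, one_mul] at hM'
    linarith
  have h12 : (12 * M : ℝ≥0∞) ≠ 0 := by simp [hM0]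
  have h12' : (12 * M : ℝ≥0∞) ≠ ∞ := by finiteness
  obtain ⟨Q, u, hQ, hZ, hc, hu, hW, hQε⟩ := approx S hD.lusin hτ (ε := ν E / (12 * M))
    (ENNReal.div_pos hE h12')
  obtain ⟨C, hC0, hC⟩ := small S ht hB hD.equi hQ hZ hc hu hW hN
  obtain ⟨x, hx, hx0⟩ : ∃ x : ℕ, C * (((3 : ℝ) / 4) ^ M * (2 * N + 1)) ^ x < 1 / 2 ∧ x ≠ 0 := by
    have h1 := (tendsto_pow_atTop_nhds_zero_of_lt_one (by positivity) hM').const_mul C
    rw [mul_zero] at h1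
    exact ((h1.eventually (gt_mem_nhds one_half_pos)).and (eventually_ne_atTop 0)).exists
  set A := S.h2 (dg t, dg t) with hAdef
  have hAm : MeasurePreserving A ν ν := ⟨Join.h2_meas S _, hA⟩
  set D := toMeasurable ν (E \ Q) with hDdef
  have hDm : MeasurableSet D := measurableSet_toMeasurable _ _
  have hDν : 4 * M * ν D < ν E := by
    rw [hDdef, measure_toMeasurable]
    refine (ENNReal.mul_lt_mul_right (by simp [hM0]) (by finiteness) hQε).trans_le (le_of_eq ?_)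
    calc _ = 12 * M * (ν E / (12 * M)) := by ring
      _ = ν E := ENNReal.mul_div_cancel h12 h12'
  let F : S.X × S.X → ℝ≥0∞ := fun w => ((M * x : ℕ) : ℝ≥0∞) * D.indicator 1 w +
    ∑ i ∈ Finset.range (M * x), D.indicator 1 (A^[i + 1] w)
  have hi : Measurable (D.indicator (1 : S.X × S.X → ℝ≥0∞)) := measurable_one.indicator hDm
  have hs : Measurable fun w => ∑ i ∈ Finset.range (M * x),
      D.indicator (1 : S.X × S.X → ℝ≥0∞) (A^[i + 1] w) :=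
    Finset.measurable_sum _ fun i _ => hi.comp (hAm.iterate (i + 1)).measurable
  have hF : Measurable F := (hi.const_mul _).add hs
  have hFν : ∫⁻ w, F w ∂ν = ((M * x : ℕ) : ℝ≥0∞) * ν D + ((M * x : ℕ) : ℝ≥0∞) * ν D := by
    simp only [F]
    rw [lintegral_add_right _ hs, lintegral_const_mul _ hi, lintegral_indicator_one hDm,
      lintegral_finsetSum (f := fun i w => D.indicator (1 : S.X × S.X → ℝ≥0∞) (A^[i + 1] w)) _
        fun i _ => hi.comp (hAm.iterate (i + 1)).measurable]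
    congr 1
    have key : ∀ i ∈ Finset.range (M * x),
        ∫⁻ w, D.indicator (1 : S.X × S.X → ℝ≥0∞) (A^[i + 1] w) ∂ν = ν D := fun i _ => by
      rw [(hAm.iterate (i + 1)).lintegral_comp hi, lintegral_indicator_one hDm]
    rw [Finset.sum_congr rfl key, Finset.sum_const, Finset.card_range, nsmul_eq_mul]
  have hH : Measurable fun z => 2 * ∫⁻ w, F w ∂Θ z := (hF.lintegral_kernel).const_mul 2
  have hx1 : (x : ℝ≥0∞) ≠ 0 := by simpa using hx0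
  have hgood : ∀ᵐ z ∂ν, ∀ᵐ w ∂Θ z, ∀ i, A^[i] w ∈ Z := by
    refine Measure.ae_ae_of_ae_bind Θ.measurable.aemeasurable ?_
    rw [hD.bind]
    exact ae_all_iff.2 fun i => (hAm.iterate i).quasiMeasurePreserving.ae hD.full
  obtain ⟨z, hzE, hz1, hz2, hz3, hz4⟩ : ∃ z ∈ E, (∀ᵐ w ∂Θ z, Θ w = Θ z ∧ w ∈ Z) ∧
      (Θ z).map Prod.fst = μ ∧ (∀ᵐ w ∂Θ z, ∀ i, A^[i] w ∈ Z) ∧ 2 * ∫⁻ w, F w ∂Θ z < x := by
    by_contra h
    push Not at h
    have h1 : ν E ≤ ν {z | (x : ℝ≥0∞) ≤ 2 * ∫⁻ w, F w ∂Θ z} := by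
      refine measure_mono_ae ?_
      filter_upwards [hD.typ, hD.m1, hgood] with z a b c hz
      exact h z hz a b c
    have h2 := mul_meas_ge_le_lintegral (μ := ν) hH x
    rw [lintegral_const_mul _ hF.lintegral_kernel,
      ← Measure.lintegral_bind Θ.measurable.aemeasurable hF.aemeasurable, hD.bind, hFν] at h2
    have h3 : (x : ℝ≥0∞) * (4 * M * ν D) < x * ν E :=
      ENNReal.mul_lt_mul_right hx1 (ENNReal.natCast_ne_top x) hDν
    refine absurd ((mul_le_mul_right h1 _).trans h2) (not_le.2 (lt_of_eq_of_lt ?_ h3))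
    push_cast
    ring
  have h1 := hC (M * x) x (Θ z) hz2
  have h2 := mul_meas_ge_le_lintegral (μ := Θ z) hF x
  have h3 : 2 * Θ z {w | (x : ℝ≥0∞) ≤ F w} < 1 := by
    refine (ENNReal.mul_lt_mul_iff_right hx1 (ENNReal.natCast_ne_top x)).1 ?_
    rw [mul_one, mul_left_comm]
    exact (mul_le_mul_right h2 _).trans_lt hz4
  have h4 : 2 * Θ z {w | w ∈ Q ∧ Θ w = Θ z ∧ cnt (fun i w => A^[i + 1] w ∉ Q) (M * x) w ≤ x} ≤ 1 := by
    refine (mul_le_mul_right h1 _).trans ?_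
    rw [← ENNReal.ofReal_ofNat, ← ENNReal.ofReal_mul (by norm_num), ENNReal.ofReal_le_one,
      pow_mul, ← mul_pow]
    linarith
  have h5 : Θ z univ ≤ Θ z ({w | (x : ℝ≥0∞) ≤ F w} ∪
      {w | w ∈ Q ∧ Θ w = Θ z ∧ cnt (fun i w => A^[i + 1] w ∉ Q) (M * x) w ≤ x}) := by
    refine measure_mono_ae ?_
    filter_upwards [hz1, hz3] with w a b _
    by_cases hx2 : (x : ℝ≥0∞) ≤ F w
    · exact Or.inl hx2
    rw [not_le] at hx2
    have hE' : ∀ i, A^[i] w ∈ E := by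
      intro i
      obtain ⟨R, hR⟩ := hzE
      have b' := b i
      have h0 : ((t : ℚ_[l]) ^ 2) ^ i ≠ 0 := pow_ne_zero _ (pow_ne_zero _ t.ne_zero)
      rw [hAdef, iter_pow] at b' ⊢
      refine ⟨‖((t : ℚ_[l]) ^ 2) ^ i‖ * R, fun v hv => ?_⟩
      rw [hD.equi _ _ a.2 b', a.1, ← smul_inv_smul₀ h0 v] at hv
      rw [← smul_inv_smul₀ h0 v, norm_smul]
      exact mul_le_mul_of_nonneg_left (hR _ (W_iter S t _ i hv)) (norm_nonneg _)
    refine Or.inr ⟨?_, a.1, ?_⟩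
    · by_contra hw
      have hw' : w ∈ D := subset_toMeasurable _ _ ⟨hE' 0, hw⟩
      refine absurd hx2 (not_lt.2 (le_trans ?_ le_self_add))
      rw [indicator_of_mem hw', Pi.one_apply, mul_one]
      exact_mod_cast Nat.le_mul_of_pos_left x (Nat.pos_of_ne_zero hM0)
    · refine Nat.cast_le.1 (le_trans (le_trans ?_ le_add_self) hx2.le)
      rw [cnt, Nat.cast_sum]
      refine Finset.sum_le_sum fun i _ => ?_
      split_ifs with hb
      · simp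
      · have hw' : A^[i + 1] w ∈ D := subset_toMeasurable _ _ ⟨hE' _, hb⟩
        rw [indicator_of_mem hw']
        simp
  rw [measure_univ] at h5
  have h6 := mul_le_mul_right (h5.trans (measure_union_le _ _)) 2
  rw [mul_add, mul_one] at h6
  have h7 := ENNReal.add_lt_add_of_lt_of_le (h4.trans_lt ENNReal.one_lt_top).ne h3 h4
  rw [one_add_one_eq_two] at h7
  exact absurd h6 (not_le.2 h7)

end Pool.Agent.Lib.MP_9177b7_ag.J
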