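import Pool.Agent.Lib.MP_9177b7_ag.J.DefsE

/-!
The maximal entropy statement, with collisions only controlled in one neighbourhood.
-/

open MeasureTheory Filter Topology Set

noncomputable section

namespace Pool.Agent.Lib.MP_9177b7_ag.J

/-- Maximal entropy: few collisions force invariance under the expanded unipotent group. -/
def Marg2Stmt : Prop :=
  ∀ (l : ℕ) [Fact l.Prime] (S : Sp l) (t : ℚ_[l]ˣ) (νs : ℕ → ProbabilityMeasure S.X)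
    (ν : ProbabilityMeasure S.X) (Ω : Set S.C), 1 < ‖(t : ℚ_[l])‖ → Tendsto νs atTop (𝓝 ν) →
    (∀ n, (νs n : Measure S.X).map (S.hs (dg t)) = νs n) → Ω ∈ 𝓝 (1 : S.C) →
    (∀ ε : ℝ, 0 < ε → ∀ k₀ : ℕ, ∀ᶠ n in atTop, ∃ k : ℕ, k₀ ≤ k ∧
      ((νs n : Measure S.X).prod (νs n)) (S.Col Ω ((‖(t : ℚ_[l])‖ ^ (2 * k))⁻¹)) ≤
        ENNReal.ofReal (‖(t : ℚ_[l])‖ ^ (-(2 * (1 - ε) * k) : ℝ))) →
    ∀ s, (ν : Measure S.X).map (S.hs (up s)) = ν

end Pool.Agent.Lib.MP_9177b7_ag.J
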