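import Pool.Agent.Lib.MP_9177b7_ag.J.Marg3
import Pool.Agent.Lib.MP_9177b7_ag.J.DefsM

/-!
Maximal entropy for the marginals: few collisions force unipotent invariance.
-/

open MeasureTheory ProbabilityTheory Filter Topology Set
open scoped MatrixGroups ENNReal NNReal Pointwise

noncomputable section

namespace Pool.Agent.Lib.MP_9177b7_ag.J

namespace Marg

variable {l : ℕ} [Fact l.Prime] (S : Sp l)

/-- Invariance under small unipotent elements. -/
def Inv (r : ℝ) (f : S.X → ℝ) : Prop := ∀ v x, ‖v‖ ≤ r → f (S.hs (up v) x) = f x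

/-- The average over the digits. -/
def av (u : ℚ_[l]) {D : Type} [Fintype D] (ρ : D → ℚ_[l]) (g : S.X → ℝ) (x : S.X) : ℝ :=
  ‖u‖⁻¹ * ∑ d, g (S.hs (up (ρ d)) x)

section av

variable {u : ℚ_[l]} {D : Type} [Fintype D] {ρ : D → ℚ_[l]} {g : S.X → ℝ}

theorem av_cont (hg : Continuous g) : Continuous (av S u ρ g) :=
  continuous_const.mul (continuous_finsetSum _ fun _ _ => hg.comp (cont_hs S _))

theorem av_cs (hg : HasCompactSupport g) : HasCompactSupport (av S u ρ g) := by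
  refine HasCompactSupport.intro (K := ⋃ d, tsupport fun x => g (S.hs (up (ρ d)) x))
    (isCompact_iUnion fun d => (cs_hs S hg _).isCompact) fun x hx => ?_
  simp only [mem_iUnion, not_exists] at hx
  rw [av, Finset.sum_eq_zero fun d _ => image_eq_zero_of_notMem_tsupport (hx d), mul_zero]

theorem av_inv (hD : Dig u D ρ) (hg : Inv S ‖u‖⁻¹ g) : Inv S 1 (av S u ρ g) := by
  intro s x hs
  obtain ⟨σ, hσ⟩ := hD.perm s hs
  rw [av, av, ← Equiv.sum_comp σ fun d => g (S.hs (up (ρ d)) x)]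
  congr 1
  refine Finset.sum_congr rfl fun d _ => ?_
  have : ρ d + s = (ρ d + s - ρ (σ d)) + ρ (σ d) := by ring
  rw [← hU, this, hU, hg _ _ (hσ d)]

theorem comm (v w : ℚ_[l]) (x : S.X) :
    S.hs (up v) (S.hs (up w) x) = S.hs (up w) (S.hs (up v) x) := by
  rw [← hU, add_comm, hU]

end av

theorem ladder (μ : Measure S.X) (t : ℚ_[l]ˣ) (ht : 1 < ‖(t : ℚ_[l])‖) {D : Type} [Fintype D]
    {ρ : D → ℚ_[l]} (hD : Dig ((t : ℚ_[l]) ^ 2) D ρ)
    (hI : ∀ f : S.X → ℝ, Continuous f → HasCompactSupport f →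
      ∫ x, f (S.hs (dg t) x) ∂μ = ∫ x, f x ∂μ)
    (hK : ∀ g : S.X → ℝ, Continuous g → HasCompactSupport g → Inv S ‖(t : ℚ_[l]) ^ 2‖⁻¹ g →
      ∫ x, g x ∂μ = ∫ x, av S ((t : ℚ_[l]) ^ 2) ρ g x ∂μ) (i : ℕ) :
    ∀ g : S.X → ℝ, Continuous g → HasCompactSupport g →
      Inv S (‖(t : ℚ_[l]) ^ 2‖ ^ (i + 1))⁻¹ g → ∀ s, ∫ x, g (S.hs (up s) x) ∂μ = ∫ x, g x ∂μ := by
  set u := (t : ℚ_[l]) ^ 2 with hud
  have hu : 1 < ‖u‖ := by
    rw [hud, norm_pow]
    exact one_lt_pow₀ ht two_ne_zero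
  have h0 : 0 < ‖u‖ := by linarith
  have hu0 : u ≠ 0 := norm_pos_iff.1 h0
  have A : ∀ g : S.X → ℝ, Continuous g → HasCompactSupport g → Inv S ‖u‖⁻¹ g → ∀ s,
      ∫ x, g (S.hs (up s) x) ∂μ = ∫ x, av S u ρ g (S.hs (up s) x) ∂μ := by
    intro g h1 h2 h3 s
    rw [hK (fun x => g (S.hs (up s) x)) (h1.comp (cont_hs S _)) (cs_hs S h2 _)
      fun v x hv => by simp only [comm S s v, h3 v _ hv]]
    simp only [av, comm S s]
  have B : ∀ j : ℕ, ∀ g : S.X → ℝ, Continuous g → HasCompactSupport g → Inv S ‖u‖⁻¹ g →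
      ∀ s : ℚ_[l], ‖s‖ ≤ ‖u‖ ^ j → ∫ x, g (S.hs (up s) x) ∂μ = ∫ x, g x ∂μ := by
    intro j
    induction j with
    | zero =>
      intro g h1 h2 h3 s hs
      rw [A g h1 h2 h3, hK g h1 h2 h3]
      simp only [av_inv S hD h3 s _ (by simpa using hs)]
    | succ j ih =>
      intro g h1 h2 h3 s hs
      have a1 : Continuous (av S u ρ g) := av_cont S h1
      have a2 : HasCompactSupport (av S u ρ g) := av_cs S h2
      have a3 := av_inv S hD h3
      rw [A g h1 h2 h3, hK g h1 h2 h3,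
        ← hI (fun x => av S u ρ g (S.hs (up s) x)) (a1.comp (cont_hs S _)) (cs_hs S a2 _),
        ← hI _ a1 a2,
        ← ih (fun x => av S u ρ g (S.hs (dg t) x)) (a1.comp (cont_hs S _)) (cs_hs S a2 _) ?_
          (s / u) ?_]
      · simp only [hT, ← hud, mul_div_cancel₀ _ hu0]
      · intro v x hv
        simp only [hT]
        refine a3 _ _ ?_
        rw [← hud, norm_mul]
        calc ‖u‖ * ‖v‖ ≤ ‖u‖ * ‖u‖⁻¹ := by gcongr
          _ = 1 := mul_inv_cancel₀ h0.ne'
      · rw [norm_div, div_le_iff₀ h0, ← pow_succ]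
        exact hs
  induction i with
  | zero =>
    intro g h1 h2 h3 s
    obtain ⟨j, hj⟩ := pow_unbounded_of_one_lt ‖s‖ hu
    exact B j g h1 h2 (by simpa using h3) s hj.le
  | succ i ih =>
    intro g h1 h2 h3 s
    have e1 : ∀ x, S.hs (dg t)⁻¹ (S.hs (dg t) x) = x := fun x => by
      rw [← hs_mul, inv_mul_cancel, hs_one]
    have e2 : ∀ x, S.hs (dg t) (S.hs (dg t)⁻¹ x) = x := fun x => by
      rw [← hs_mul, mul_inv_cancel, hs_one]
    have a1 : Continuous fun x => g (S.hs (dg t)⁻¹ x) := h1.comp (cont_hs S _)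
    have a2 : HasCompactSupport fun x => g (S.hs (dg t)⁻¹ x) := cs_hs S h2 _
    have a3 : Inv S (‖u‖ ^ (i + 1))⁻¹ fun x => g (S.hs (dg t)⁻¹ x) := by
      intro v y hv
      have : S.hs (up v) y = S.hs (dg t) (S.hs (up (v / u)) (S.hs (dg t)⁻¹ y)) := by
        rw [hT, e2, ← hud, mul_div_cancel₀ _ hu0]
      simp only [this, e1]
      refine h3 _ _ ?_
      rw [norm_div]
      calc ‖v‖ / ‖u‖ ≤ (‖u‖ ^ (i + 1))⁻¹ / ‖u‖ := by gcongr
        _ = _ := by field_simp; ring
    have b1 := ih _ a1 a2 a3 (u * s)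
    have b2 := hI _ a1 a2
    have b3 := hI (fun x => g (S.hs (dg t)⁻¹ (S.hs (up (u * s)) x))) (a1.comp (cont_hs S _))
      (cs_hs S a2 _)
    simp only [hud, ← hT, e1] at b1 b2 b3
    rw [b3, b1, b2]

/-- Regularisation by a supremum over a small ball. -/
theorem regular {f : S.X → ℝ} (h1 : Continuous f) (h2 : HasCompactSupport f) {r : ℝ}
    (hr : 0 < r) : ∃ g : S.X → ℝ, Continuous g ∧ HasCompactSupport g ∧ Inv S r g ∧
      ∀ x, ∃ v : ℚ_[l], ‖v‖ ≤ r ∧ g x = f (S.hs (up v) x) := by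
  have hB : IsCompact (Metric.closedBall (0 : ℚ_[l]) r) := isCompact_closedBall _ _
  have hc : Continuous fun p : S.X × ℚ_[l] => f (S.hs (up p.2) p.1) := h1.comp (cont_U S)
  have h4 : ∀ x, ∃ v : ℚ_[l], ‖v‖ ≤ r ∧
      sSup ((fun v => f (S.hs (up v) x)) '' Metric.closedBall (0 : ℚ_[l]) r) =
        f (S.hs (up v) x) := by
    intro x
    obtain ⟨v, hv, e⟩ := hB.exists_sSup_image_eq ⟨0, Metric.mem_closedBall_self hr.le⟩
      (f := fun v => f (S.hs (up v) x)) (hc.comp (Continuous.prodMk_right x)).continuousOn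
    exact ⟨v, mem_closedBall_zero_iff.1 hv, e⟩
  refine ⟨fun x => sSup ((fun v => f (S.hs (up v) x)) '' Metric.closedBall (0 : ℚ_[l]) r),
    hB.continuous_sSup (f := fun x v => f (S.hs (up v) x)) hc, ?_, ?_, h4⟩
  · refine HasCompactSupport.intro ((h2.isCompact.prod hB).image (cont_U S)) fun x hx => ?_
    obtain ⟨v, hv, e⟩ := h4 x
    rw [e]
    by_contra hne
    refine hx ⟨(S.hs (up v) x, -v), ⟨subset_tsupport _ hne, by simpa using hv⟩, ?_⟩
    simp only [← hU, neg_add_cancel, up_zero, hs_one]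
  · intro s x hs
    simp only
    congr 1
    ext y
    simp only [mem_image, mem_closedBall_zero_iff, ← hU]
    constructor
    · rintro ⟨v, hv, rfl⟩
      exact ⟨v + s, (IsUltrametricDist.norm_add_le_max _ _).trans (max_le hv hs), rfl⟩
    · rintro ⟨v, hv, rfl⟩
      refine ⟨v + -s, (IsUltrametricDist.norm_add_le_max _ _).trans (max_le hv ?_), by simp⟩
      rwa [norm_neg]

end Marg

open Marg in
theorem marg2 : Marg2Stmt := by
  intro l _ S t νs ν Ω ht hlim hinv hΩ hcol s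
  have hu : 1 < ‖(t : ℚ_[l]) ^ 2‖ := by
    rw [norm_pow]
    exact one_lt_pow₀ ht two_ne_zero
  obtain ⟨D, _, ρ, hD⟩ := digits _ hu
  have hlim' : ∀ f : S.X → ℝ, Continuous f → HasCompactSupport f →
      Tendsto (fun n => ∫ x, f x ∂(νs n : Measure S.X)) atTop
        (𝓝 (∫ x, f x ∂(ν : Measure S.X))) := by
    intro f h1 h2
    obtain ⟨M, hM⟩ := h1.bounded_above_of_compact_support h2
    exact ProbabilityMeasure.tendsto_iff_forall_integral_tendsto.1 hlim
      (BoundedContinuousFunction.ofNormedAddCommGroup f h1 M hM)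
  have hI : ∀ f : S.X → ℝ, Continuous f → HasCompactSupport f →
      ∫ x, f (S.hs (dg t) x) ∂(ν : Measure S.X) = ∫ x, f x ∂(ν : Measure S.X) := by
    intro f h1 h2
    refine tendsto_nhds_unique (hlim' _ (h1.comp (cont_hs S _)) (cs_hs S h2 _))
      ((hlim' f h1 h2).congr fun n => ?_)
    rw [← integral_map (cont_hs S _).measurable.aemeasurable h1.aestronglyMeasurable, hinv n]
  have hK : ∀ g : S.X → ℝ, Continuous g → HasCompactSupport g → Inv S ‖(t : ℚ_[l]) ^ 2‖⁻¹ g →
      ∫ x, g x ∂(ν : Measure S.X) = ∫ x, av S ((t : ℚ_[l]) ^ 2) ρ g x ∂(ν : Measure S.X) := by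
    intro g h1 h2 h3
    have a1 : Continuous (av S ((t : ℚ_[l]) ^ 2) ρ g) := av_cont S h1
    have a2 : HasCompactSupport (av S ((t : ℚ_[l]) ^ 2) ρ g) := av_cs S h2
    have a3 := av_inv S hD h3
    have a4 : Inv S ‖(t : ℚ_[l]) ^ 2‖⁻¹ (av S ((t : ℚ_[l]) ^ 2) ρ g) := fun v x hv =>
      a3 v x (hv.trans (inv_le_one_of_one_le₀ hu.le))
    have a5 : ∀ x, ∑ d, av S ((t : ℚ_[l]) ^ 2) ρ g (S.hs (up (ρ d)) x) =
        ∑ d, g (S.hs (up (ρ d)) x) := by
      intro x
      rw [Finset.sum_congr rfl fun d _ => a3 _ x (hD.le d), Finset.sum_const, Finset.card_univ,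
        nsmul_eq_mul, hD.card, av, ← mul_assoc, mul_inv_cancel₀ (by linarith), one_mul]
    have i1 : Integrable g (ν : Measure S.X) := h1.integrable_of_hasCompactSupport h2
    have i2 : Integrable (av S ((t : ℚ_[l]) ^ 2) ρ g) (ν : Measure S.X) :=
      a1.integrable_of_hasCompactSupport a2
    have k1 := key S t νs ν ht hlim hinv hΩ hcol hD
      (F := fun x => g x - av S ((t : ℚ_[l]) ^ 2) ρ g x)
      (h1.sub a1) (h2.sub a2) (fun v x hv => by simp only [h3 v x hv, a4 v x hv])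
      fun x => by rw [Finset.sum_sub_distrib, a5, sub_self]
    have k2 := key S t νs ν ht hlim hinv hΩ hcol hD
      (F := fun x => av S ((t : ℚ_[l]) ^ 2) ρ g x - g x)
      (a1.sub h1) (a2.sub h2) (fun v x hv => by simp only [h3 v x hv, a4 v x hv])
      fun x => by rw [Finset.sum_sub_distrib, a5, sub_self]
    rw [integral_sub i1 i2] at k1
    rw [integral_sub i2 i1] at k2
    linarith
  have main : ∀ f : S.X → ℝ, Continuous f → HasCompactSupport f →
      ∫ x, f (S.hs (up s) x) ∂(ν : Measure S.X) = ∫ x, f x ∂(ν : Measure S.X) := by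
    intro f h1 h2
    have hr : ∀ i : ℕ, 0 < (‖(t : ℚ_[l]) ^ 2‖ ^ (i + 1))⁻¹ := fun i => by positivity
    choose g g1 g2 g3 g4 using fun i : ℕ => regular S h1 h2 (hr i)
    choose v v1 v2 using g4
    obtain ⟨M, hM⟩ := h1.bounded_above_of_compact_support h2
    have hg : ∀ x, Tendsto (fun i => g i x) atTop (𝓝 (f x)) := by
      intro x
      have b1 : Tendsto (fun i => v i x) atTop (𝓝 0) := by
        refine squeeze_zero_norm (fun i => v1 i x) ?_
        exact tendsto_inv_atTop_zero.comp ((tendsto_pow_atTop_atTop_of_one_lt hu).comp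
          (tendsto_add_atTop_nat 1))
      have b2 : Continuous fun w : ℚ_[l] => f (S.hs (up w) x) :=
        h1.comp ((cont_U S).comp (Continuous.prodMk_right x))
      have b3 := (b2.tendsto 0).comp b1
      simp only [up_zero, hs_one] at b3
      exact b3.congr fun i => (v2 i x).symm
    have hl : ∀ w : ℚ_[l], Tendsto (fun i => ∫ x, g i (S.hs (up w) x) ∂(ν : Measure S.X)) atTop
        (𝓝 (∫ x, f (S.hs (up w) x) ∂(ν : Measure S.X))) := fun w =>
      tendsto_integral_of_dominated_convergence (fun _ => M)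
        (fun i => ((g1 i).comp (cont_hs S _)).aestronglyMeasurable) (integrable_const _)
        (fun i => Eventually.of_forall fun x => by rw [v2]; exact hM _)
        (Eventually.of_forall fun x => hg _)
    have h0 := hl 0
    simp only [up_zero, hs_one] at h0
    exact tendsto_nhds_unique (hl s)
      (h0.congr fun i => (ladder S _ t ht hD hI hK i (g i) (g1 i) (g2 i) (g3 i) s).symm)
  have : IsProbabilityMeasure ((ν : Measure S.X).map (S.hs (up s))) :=
    Measure.isProbabilityMeasure_map (cont_hs S _).measurable.aemeasurable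
  refine Measure.ext_of_integral_eq_on_compactlySupported fun f => ?_
  rw [integral_map (cont_hs S _).measurable.aemeasurable
    (map_continuous f).aestronglyMeasurable]
  exact main f (map_continuous f) f.hasCompactSupport

theorem marg : MargStmt := by
  intro l _ S t νs ν ht hlim hinv hcol
  obtain ⟨Ω, h1, h2⟩ := exists_compact_mem_nhds (1 : S.C)
  exact marg2 l S t νs ν Ω ht hlim hinv h2 (hcol Ω h1)

end Pool.Agent.Lib.MP_9177b7_ag.J
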