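import Pool.Agent.Lib.MP_9177b7_ag.J.DefsE

/-!
A joining invariant under the unipotent group of one factor is the product measure.
-/

open MeasureTheory Set
open scoped MatrixGroups

noncomputable section

namespace Pool.Agent.Lib.MP_9177b7_ag.J

namespace Prod

variable {l : ℕ} [Fact l.Prime] (S : Sp l)

theorem meas_hs (h : HH l) : Measurable (S.hs h) :=
  (continuous_const_smul ((h, 1) : S.G)).measurable

theorem meas_h2 (v : HH l × HH l) : Measurable (S.h2 v) :=
  ((meas_hs S v.1).comp measurable_fst).prodMk ((meas_hs S v.2).comp measurable_snd)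

theorem hs_one (x : S.X) : S.hs 1 x = x := one_smul S.G x

theorem side (μ : Measure S.X) (θ : Measure (S.X × S.X)) (hE : S.ErgU μ)
    (h1 : θ.map Prod.fst = μ) (h2 : θ.map Prod.snd = μ)
    (hinv : ∀ s, θ.map (S.h2 (1, up s)) = θ) (A B : Set S.X) (hA : MeasurableSet A)
    (hB : MeasurableSet B) : θ (A ×ˢ B) = μ A * μ B := by
  have hA' : MeasurableSet (Prod.fst ⁻¹' A : Set (S.X × S.X)) := measurable_fst hA
  have hle : (θ.restrict (Prod.fst ⁻¹' A)).map Prod.snd ≤ μ := by
    rw [← h2]
    exact Measure.map_mono Measure.restrict_le_self measurable_snd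
  have hi : ∀ s, ((θ.restrict (Prod.fst ⁻¹' A)).map Prod.snd).map (S.hs (up s)) =
      (θ.restrict (Prod.fst ⁻¹' A)).map Prod.snd := fun s => by
    have e1 : S.h2 (1, up s) ⁻¹' (Prod.fst ⁻¹' A) = Prod.fst ⁻¹' A := by
      ext z
      simp [Sp.h2, hs_one]
    have e2 : θ.restrict (Prod.fst ⁻¹' A) =
        (θ.restrict (Prod.fst ⁻¹' A)).map (S.h2 (1, up s)) := by
      conv_lhs => rw [← hinv s, Measure.restrict_map (meas_h2 S _) hA', e1]
    conv_rhs => rw [e2]
    rw [Measure.map_map (meas_hs S _) measurable_snd, Measure.map_map measurable_snd (meas_h2 S _)]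
    rfl
  have h3 := congrArg (fun m : Measure S.X => m B) (hE _ hle hi)
  simp only [Measure.smul_apply, smul_eq_mul] at h3
  rw [Measure.map_apply measurable_snd hB, Measure.map_apply measurable_snd MeasurableSet.univ,
    Measure.restrict_apply (measurable_snd hB), preimage_univ, Measure.restrict_apply_univ,
    ← Measure.map_apply measurable_fst hA, h1] at h3
  rw [← h3]
  congr 1
  ext z
  simp [and_comm]

end Prod

theorem prod_eq : ProdStmt := by
  intro l _ S μ θ hμ hE h1 h2 hinv
  refine (Measure.prod_eq fun A B hA hB => ?_).symm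
  rcases hinv with hinv | hinv
  · exact Prod.side S μ θ hE h1 h2 hinv A B hA hB
  · have := Prod.side S μ (θ.map Prod.swap) hE ?_ ?_ ?_ B A hB hA
    · rw [Measure.map_apply measurable_swap (hB.prod hA), preimage_swap_prod] at this
      rw [this, mul_comm]
    · rw [Measure.map_map measurable_fst measurable_swap, ← h2]
      rfl
    · rw [Measure.map_map measurable_snd measurable_swap, ← h1]
      rfl
    · intro s
      conv_rhs => rw [← hinv s]
      rw [Measure.map_map (Prod.meas_h2 S _) measurable_swap,
        Measure.map_map measurable_swap (Prod.meas_h2 S _)]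
      rfl

end Pool.Agent.Lib.MP_9177b7_ag.J
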