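import Pool.Agent.Lib.MP_9177b7_ag.J.DefsA

/-!
The order of the unit group of the maximal order modulo `c`, and totient bounds.
-/

open Finset

noncomputable section

namespace Pool.Agent.Lib.MP_9177b7_ag.J

namespace Psi

/-- Counting through a map all of whose fibres have the same size. -/
lemma cnt {α β : Type} [Fintype α] [Fintype β] [DecidableEq β] (f : α → β)
    (h : ∀ b b', #{a | f a = b} = #{a | f a = b'}) (P : β → Prop) :
    Nat.card {a // P (f a)} * Nat.card β = Nat.card α * Nat.card {b // P b} := by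
  classical
  rcases isEmpty_or_nonempty β with hβ | ⟨⟨b₀⟩⟩
  · simp
  have key : ∀ Q : β → Prop, Nat.card {a // Q (f a)} = Nat.card {b // Q b} * #{a | f a = b₀} := by
    intro Q
    rw [Nat.card_eq_fintype_card, Nat.card_eq_fintype_card, Fintype.card_subtype,
      Fintype.card_subtype, card_eq_sum_card_fiberwise (f := f) (t := ({b | Q b} : Finset β))
        (fun a ha => by simpa using ha), ← smul_eq_mul, ← sum_const]
    refine sum_congr rfl fun b hb => ?_
    rw [← h b b₀, filter_filter]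
    refine congrArg _ (filter_congr fun a _ => ⟨fun h1 => h1.2, fun h1 => ⟨?_, h1⟩⟩)
    rw [h1]
    simpa using hb
  have h1 := key fun _ => True
  simp only [Nat.card_subtype_true] at h1
  rw [key P, h1]
  ring

/-- Units lift along surjections of finite rings. -/
lemma units_surj {R S : Type} [CommRing R] [CommRing S] [Finite R] (f : R →+* S)
    (hf : Function.Surjective f) : Function.Surjective (Units.map (f : R →* S)) := by
  intro u
  obtain ⟨x, hx⟩ := hf u
  obtain ⟨a, b, hab, h⟩ : ∃ a b : ℕ, a < b ∧ x ^ a = x ^ b := by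
    obtain ⟨a, b, hab, h⟩ := Finite.exists_ne_map_eq_of_infinite fun n : ℕ => x ^ n
    rcases lt_or_gt_of_ne hab with h1 | h1
    · exact ⟨a, b, h1, h⟩
    · exact ⟨b, a, h1, h.symm⟩
  obtain ⟨d, rfl⟩ := Nat.exists_eq_add_of_lt hab
  have h0 : x ^ a * (1 - x ^ (d + 1)) = 0 := by
    rw [mul_sub, mul_one, ← pow_add, ← add_assoc, ← h, sub_self]
  have h1 : f (1 - x ^ (d + 1)) = 0 := by
    have h2 := congrArg f h0
    rw [map_mul, map_pow, hx, map_zero] at h2
    exact (u.isUnit.pow a).mul_right_eq_zero.1 h2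
  have hu : IsUnit (x + (1 - x ^ (d + 1))) := by
    by_contra hn
    obtain ⟨I, hI, hm⟩ := exists_max_ideal_of_mem_nonunits hn
    have hp := hI.isPrime
    rcases hp.mem_or_mem (h0 ▸ I.zero_mem : x ^ a * (1 - x ^ (d + 1)) ∈ I) with h2 | h2
    · have h3 := hp.mem_of_pow_mem _ h2
      refine hp.ne_top ((Ideal.eq_top_iff_one I).2 ?_)
      have h4 := I.add_mem (I.sub_mem hm h3) (I.mul_mem_left (x ^ d) h3)
      convert h4 using 1
      ring
    · have h3 : x ∈ I := by simpa using I.sub_mem hm h2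
      refine hp.ne_top ((Ideal.eq_top_iff_one I).2 ?_)
      have h4 := I.add_mem h2 (I.mul_mem_left (x ^ d) h3)
      convert h4 using 1
      ring
  refine ⟨hu.unit, Units.ext ?_⟩
  change f (x + (1 - x ^ (d + 1))) = u
  rw [map_add, h1, add_zero, hx]

/-- Change of the base ring of a quadratic algebra. -/
def qmap {R S : Type} [CommRing R] [CommRing S] (f : R →+* S) {a b : R} {a' b' : S}
    (ha : f a = a') (hb : f b = b') : QuadraticAlgebra R a b →+* QuadraticAlgebra S a' b' where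
  toFun z := ⟨f z.re, f z.im⟩
  map_one' := by ext <;> simp [QuadraticAlgebra.re_one, QuadraticAlgebra.im_one]
  map_mul' x y := by ext <;> simp [ha, hb]
  map_zero' := by ext <;> simp
  map_add' x y := by ext <;> simp

/-- The norm form. -/
def nf (t n : ℤ) {R : Type} [CommRing R] (p : R × R) : R :=
  p.1 * p.1 + t * p.1 * p.2 + n * p.2 * p.2

/-- The number of pairs with invertible norm. -/
def U (t n : ℤ) (R : Type) [CommRing R] : ℕ := Nat.card {p : R × R // IsUnit (nf t n p)}

variable {t n : ℤ}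

lemma map_nf {R S : Type} [CommRing R] [CommRing S] (f : R →+* S) (p : R × R) :
    f (nf t n p) = nf t n (f p.1, f p.2) := by
  simp [nf]

lemma U_congr {R S : Type} [CommRing R] [CommRing S] (e : R ≃+* S) : U t n R = U t n S := by
  refine Nat.card_congr (Equiv.subtypeEquiv (e.toEquiv.prodCongr e.toEquiv) fun p => ?_)
  rw [← MulEquiv.isUnit_map e]
  exact Iff.of_eq (congrArg IsUnit (map_nf (e : R →+* S) p))

lemma U_prod (R S : Type) [CommRing R] [CommRing S] : U t n (R × S) = U t n R * U t n S := by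
  rw [U, U, U, ← Nat.card_prod, ← Nat.card_congr (Equiv.subtypeProdEquivProd
    (p := fun p : R × R => IsUnit (nf t n p)) (q := fun p : S × S => IsUnit (nf t n p)))]
  refine Nat.card_congr (Equiv.subtypeEquiv (Equiv.prodProdProdComm R S R S) fun p => ?_)
  rw [Prod.isUnit_iff]
  simp [nf]

lemma U_pow {q : ℕ} (hq : q.Prime) {e : ℕ} (he : 0 < e) :
    U t n (ZMod (q ^ e)) * q ^ 2 = (q ^ e) ^ 2 * U t n (ZMod q) := by
  classical
  have := Fact.mk hq
  have : NeZero (q ^ e) := ⟨pow_ne_zero _ hq.ne_zero⟩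
  have hd : q ∣ q ^ e := dvd_pow_self q he.ne'
  set f := ZMod.castHom hd (ZMod q) with hf
  have hs : Function.Surjective (f.toAddMonoidHom.prodMap f.toAddMonoidHom) :=
    (ZMod.castHom_surjective hd).prodMap (ZMod.castHom_surjective hd)
  have h := cnt (f.toAddMonoidHom.prodMap f.toAddMonoidHom)
    (fun b b' => AddMonoidHom.card_fiber_eq_of_mem_range _ (hs b) (hs b'))
    fun p => IsUnit (nf t n p)
  rw [Nat.card_prod, Nat.card_prod, Nat.card_zmod, Nat.card_zmod, ← sq, ← sq] at h
  rw [U, U, ← h]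
  congr 1
  refine Nat.card_congr (Equiv.subtypeEquivRight fun p => ?_)
  change _ ↔ IsUnit (nf t n (f p.1, f p.2))
  rw [← map_nf, ← ZMod.natCast_zmod_val (nf t n p), map_natCast,
    ZMod.isUnit_natCast_iff_not_dvd_pow hq he, isUnit_iff_ne_zero, Ne, ZMod.natCast_eq_zero_iff]

/-- The number of roots modulo `q`. -/
def rts (t n : ℤ) (q : ℕ) : ℕ := Nat.card {r : ZMod q // r ^ 2 - t * r + n = 0}

lemma rts_eq (k : Fld) {q : ℕ} (hq : 0 < q) : (rts k.t k.n q : ℤ) = k.chi q + 1 := by
  classical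
  have : NeZero q := ⟨hq.ne'⟩
  rw [Fld.chi, sub_add_cancel, rts, Nat.card_eq_fintype_card, Fintype.card_subtype, Nat.cast_inj]
  symm
  refine card_bij (fun r _ => (r : ZMod q)) (fun r hr => ?_) (fun r hr s hs h => ?_) fun r hr => ?_
  · have := (ZMod.intCast_zmod_eq_zero_iff_dvd _ _).2 (mem_filter.1 hr).2
    simpa using this
  · have h1 := congrArg ZMod.val h
    rwa [ZMod.val_natCast_of_lt (mem_range.1 (mem_filter.1 hr).1),
      ZMod.val_natCast_of_lt (mem_range.1 (mem_filter.1 hs).1)] at h1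
  · refine ⟨r.val, mem_filter.2 ⟨mem_range.2 r.val_lt, ?_⟩, ZMod.natCast_zmod_val r⟩
    rw [← ZMod.intCast_zmod_eq_zero_iff_dvd]
    push_cast
    rw [ZMod.natCast_zmod_val]
    exact (mem_filter.1 hr).2

lemma rts_le {q : ℕ} (hq : q.Prime) : rts t n q ≤ 2 := by
  classical
  have := Fact.mk hq
  rw [rts, Nat.card_eq_fintype_card, Fintype.card_subtype]
  rcases Finset.eq_empty_or_nonempty ({r | r ^ 2 - t * r + n = 0} : Finset (ZMod q)) with h | ⟨r, hr⟩
  · rw [h]; simp
  · refine (card_le_card (t := {r, t - r}) fun s hs => ?_).trans card_le_two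
    have h1 : (s - r) * (s - (t - r)) = 0 := by
      linear_combination (mem_filter.1 hs).2 - (mem_filter.1 hr).2
    simpa [sub_eq_zero] using h1

lemma U_prime {q : ℕ} (hq : q.Prime) :
    (U t n (ZMod q) : ℤ) = (q - 1) * (q + 1 - rts t n q) := by
  classical
  have := Fact.mk hq
  have h0 : ∀ y : ZMod q, (#{x : ZMod q | IsUnit (nf t n (x, y))} : ℤ) =
      if y = 0 then (q : ℤ) - 1 else q - rts t n q := by
    intro y
    split_ifs with hy
    · have : ({x | IsUnit (nf t n (x, y))} : Finset (ZMod q)) = univ.erase 0 := by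
        ext x
        simp [nf, hy]
      rw [this, card_erase_of_mem (mem_univ _), card_univ, ZMod.card, Nat.cast_sub hq.one_le,
        Nat.cast_one]
    · have h1 := card_filter_add_card_filter_not (s := (univ : Finset (ZMod q)))
        (fun r => r ^ 2 - t * r + n = 0)
      rw [card_univ, ZMod.card] at h1
      have h2 : #{r : ZMod q | ¬ r ^ 2 - t * r + n = 0} =
          #{x : ZMod q | IsUnit (nf t n (x, y))} := by
        refine card_equiv (Equiv.mulRight₀ (-y) (neg_ne_zero.2 hy)) fun r => ?_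
        have e : nf t n (r * -y, y) = (r ^ 2 - t * r + n) * y ^ 2 := by
          simp only [nf]; ring
        simp only [mem_filter, mem_univ, true_and, Equiv.mulRight₀_apply, e, isUnit_iff_ne_zero]
        simp [hy]
      rw [rts, Nat.card_eq_fintype_card, Fintype.card_subtype, ← h2]
      omega
  rw [U, Nat.card_eq_fintype_card, Fintype.card_subtype,
    card_eq_sum_card_fiberwise (f := Prod.snd) (t := univ) (fun _ _ => mem_univ _)]
  push_cast
  have h1 : ∀ y : ZMod q, (#{p ∈ ({p | IsUnit (nf t n p)} : Finset (ZMod q × ZMod q)) | p.2 = y}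
      : ℤ) = (q - rts t n q) + if y = 0 then (rts t n q : ℤ) - 1 else 0 := by
    intro y
    have h2 : #{p ∈ ({p | IsUnit (nf t n p)} : Finset (ZMod q × ZMod q)) | p.2 = y} =
        #{x : ZMod q | IsUnit (nf t n (x, y))} := by
      symm
      refine card_bij (fun x _ => (x, y)) (fun x hx => by simpa using hx)
        (fun _ _ _ _ h => congrArg Prod.fst h) ?_
      rintro ⟨x, z⟩ hp
      simp only [mem_filter, mem_univ, true_and] at hp
      obtain ⟨hp, rfl⟩ := hp
      exact ⟨x, by simpa using hp, rfl⟩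
    rw [h2, h0]
    split_ifs <;> ring
  rw [sum_congr rfl fun y _ => h1 y, sum_add_distrib, sum_const, card_univ, ZMod.card,
    sum_ite_eq', if_pos (mem_univ _), nsmul_eq_mul]
  ring

lemma U_eq (k : Fld) (c : ℕ) (hc : 0 < c) :
    (U k.t k.n (ZMod c) : ℝ) = Nat.totient c * k.psi c := by
  induction c using Nat.recOnPosPrimePosCoprime with
  | prime_pow q e hq he =>
    have h1 : (U k.t k.n (ZMod (q ^ e)) : ℝ) * q ^ 2 = (q ^ e) ^ 2 * U k.t k.n (ZMod q) := by
      exact_mod_cast U_pow hq he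
    have h2 : (U k.t k.n (ZMod q) : ℝ) = (q - 1) * (q - k.chi q) := by
      have h3 := U_prime (t := k.t) (n := k.n) hq
      rw [rts_eq k hq.pos] at h3
      have h4 : (U k.t k.n (ZMod q) : ℤ) = (q - 1) * (q - k.chi q) := by rw [h3]; ring
      exact_mod_cast h4
    have hq0 : (q : ℝ) ≠ 0 := Nat.cast_ne_zero.2 hq.ne_zero
    obtain ⟨e, rfl⟩ := Nat.exists_eq_add_of_lt he
    rw [Fld.psi, Nat.primeFactors_prime_pow he.ne' hq, prod_singleton, zero_add,
      Nat.totient_prime_pow_succ hq]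
    rw [h2, zero_add] at h1
    refine mul_right_cancel₀ (pow_ne_zero 2 hq0) (h1.trans ?_)
    push_cast [Nat.cast_sub hq.one_le]
    field_simp
    ring
  | zero => exact absurd hc (lt_irrefl 0)
  | one =>
    have : U k.t k.n (ZMod 1) = 1 := by
      have : Subsingleton (ZMod 1) := inferInstanceAs (Subsingleton (Fin 1))
      rw [U, Nat.card_eq_one_iff_unique]
      exact ⟨inferInstance, ⟨⟨0, isUnit_of_subsingleton _⟩⟩⟩
    simp [this, Fld.psi]
  | coprime a b ha hb hab iha ihb =>
    rw [U_congr (ZMod.chineseRemainder hab), U_prod, Nat.cast_mul, iha (by omega), ihb (by omega),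
      Nat.totient_mul hab, Fld.psi, Fld.psi, Fld.psi, hab.primeFactors_mul,
      prod_union hab.disjoint_primeFactors]
    push_cast
    ring

lemma card_SF (k : Fld) (c : ℕ+) : Nat.card (k.SF c) = U k.t k.n (ZMod c) := by
  have e : ∀ z : QuadraticAlgebra (ZMod c) (-(k.n : ZMod c)) (k.t : ZMod c),
      IsUnit z ↔ IsUnit (nf k.t k.n (z.re, z.im)) := fun z => by
    rw [QuadraticAlgebra.isUnit_iff_norm_isUnit, QuadraticAlgebra.norm_def]
    refine Iff.of_eq (congrArg IsUnit ?_)
    simp only [nf]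
    ring
  refine Nat.card_eq_of_bijective (fun s => ⟨(s.val.re, s.val.im), (e _).1 s.isUnit⟩)
    ⟨fun s s' h => ?_, fun p => ⟨((e ⟨p.1.1, p.1.2⟩).2 p.2).unit, rfl⟩⟩
  have h1 := congrArg Subtype.val h
  exact Units.ext (QuadraticAlgebra.ext (congrArg Prod.fst h1) (congrArg Prod.snd h1))

lemma card_event {R : Type} [CommRing R] {a b : R} (s₀ : (QuadraticAlgebra R a b)ˣ) :
    Nat.card {s : (QuadraticAlgebra R a b)ˣ // (s.val * star s₀.val).im = 0} = Nat.card Rˣ := by
  symm
  refine Nat.card_eq_of_bijective (fun u => ⟨Units.map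
    (algebraMap R (QuadraticAlgebra R a b)).toMonoidHom u * s₀, ?_⟩)
    ⟨fun u v h => ?_, fun s => ?_⟩
  · change (algebraMap R _ u.val * s₀.val * star s₀.val).im = 0
    rw [mul_assoc, ← QuadraticAlgebra.algebraMap_norm_eq_mul_star, ← map_mul]
    rfl
  · have h1 := mul_right_cancel (congrArg Subtype.val h)
    exact Units.ext (QuadraticAlgebra.algebraMap_injective (congrArg Units.val h1))
  · have h1 : s.1.val * star s₀.val = algebraMap R _ (s.1.val * star s₀.val).re :=
      QuadraticAlgebra.ext rfl s.2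
    have h2 : IsUnit (s.1.val * star s₀.val).re := by
      have h3 : IsUnit (s.1.val * star s₀.val) := s.1.isUnit.mul s₀.isUnit.star
      rw [h1, QuadraticAlgebra.isUnit_iff_norm_isUnit, QuadraticAlgebra.norm_algebraMap] at h3
      exact (isUnit_pow_iff two_ne_zero).1 h3
    have h4 : IsUnit (QuadraticAlgebra.norm s₀.val) := s₀.isUnit.map _
    refine ⟨h2.unit * h4.unit⁻¹, Subtype.ext (Units.ext ?_)⟩
    change algebraMap R _ ((s.1.val * star s₀.val).re * (h4.unit⁻¹).val) * s₀.val = s.1.val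
    have h5 : algebraMap R (QuadraticAlgebra R a b) (h4.unit⁻¹).val * (s₀.val * star s₀.val) = 1 := by
      rw [← QuadraticAlgebra.algebraMap_norm_eq_mul_star, ← map_mul, h4.val_inv_mul, map_one]
    rw [map_mul, ← h1]
    linear_combination s.1.val * h5

lemma chi_le (k : Fld) {q : ℕ} (hq : q.Prime) : |k.chi q| ≤ 1 := by
  have h1 := rts_eq k hq.pos
  have h2 := rts_le (t := k.t) (n := k.n) hq
  rw [abs_le]
  omega

lemma pr_eq (k : Fld) (F : ℕ+) (c : ℕ) (s₀ : k.SF F) (hc : c ∣ F) :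
    k.pr F (fun s => ∃ z : ℤ, (Fld.lift s * star (Fld.lift s₀)).im = c * z) = 1 / k.psi c := by
  classical
  have hc0 : 0 < c := Nat.pos_of_dvd_of_pos hc F.pos
  lift c to ℕ+ using hc0
  set g := ZMod.castHom hc (ZMod c) with hg
  set f : QuadraticAlgebra (ZMod F) (-(k.n : ZMod F)) (k.t : ZMod F) →+*
      QuadraticAlgebra (ZMod c) (-(k.n : ZMod c)) (k.t : ZMod c) :=
    qmap g (by rw [map_neg, map_intCast]) (map_intCast g _) with hf
  have hfs : Function.Surjective f := fun z => by
    obtain ⟨x, hx⟩ := ZMod.castHom_surjective hc z.re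
    obtain ⟨y, hy⟩ := ZMod.castHom_surjective hc z.im
    exact ⟨⟨x, y⟩, QuadraticAlgebra.ext hx hy⟩
  have hs := units_surj f hfs
  set p : k.SF F →* k.SF c := Units.map (f : _ →* _) with hp
  have h := cnt p (fun b b' => MonoidHom.card_fiber_eq_of_mem_range p (hs b) (hs b'))
    fun s => (s.val * star (p s₀).val).im = 0
  rw [card_event, Nat.card_eq_fintype_card (α := (ZMod c)ˣ), ZMod.card_units_eq_totient,
    card_SF k c] at h
  have hv : ∀ x : ZMod F, ((x.val : ℕ) : ZMod c) = g x := fun x => by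
    rw [← map_natCast g, ZMod.natCast_zmod_val]
  have e : ∀ s : k.SF F, (∃ z : ℤ, (Fld.lift s * star (Fld.lift s₀)).im = (c : ℕ) * z) ↔
      ((p s).val * star (p s₀).val).im = 0 := by
    intro s
    have h1 : (Fld.lift s * star (Fld.lift s₀)).im = (((s.val.im.val : ℤ) * s₀.val.re.val -
        s.val.re.val * s₀.val.im.val : ℤ) : ℚ) := by
      simp only [Fld.lift, QuadraticAlgebra.im_mul, QuadraticAlgebra.re_star,
        QuadraticAlgebra.im_star, Int.cast_sub, Int.cast_mul, Int.cast_natCast]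
      ring
    have h2 : ((p s).val * star (p s₀).val).im = (((s.val.im.val : ℤ) * s₀.val.re.val -
        s.val.re.val * s₀.val.im.val : ℤ) : ZMod c) := by
      simp only [QuadraticAlgebra.im_mul, QuadraticAlgebra.re_star,
        QuadraticAlgebra.im_star, Int.cast_sub, Int.cast_mul, Int.cast_natCast, hv]
      change g _ * -g _ + g _ * (g _ + _ * g _) + _ * g _ * -g _ = _
      ring
    rw [h1, h2, ZMod.intCast_zmod_eq_zero_iff_dvd]
    exact exists_congr fun z => by exact_mod_cast Iff.rfl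
  have h3 : (Nat.card {s // ((p s).val * star (p s₀).val).im = 0} : ℝ) *
      (Nat.totient c * k.psi c) = Fintype.card (k.SF F) * Nat.totient c := by
    rw [← U_eq k c c.pos, ← Nat.card_eq_fintype_card]
    exact_mod_cast h
  have h4 : (0 : ℝ) < Nat.totient c := Nat.cast_pos.2 (Nat.totient_pos.2 c.pos)
  have h5 : (0 : ℝ) < Fintype.card (k.SF F) := Nat.cast_pos.2 Fintype.card_pos
  have h6 : k.psi c ≠ 0 := fun h0 => by
    rw [h0, mul_zero, mul_zero] at h3
    exact (mul_pos h5 h4).ne h3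
  rw [Fld.pr, Fld.avg, sum_boole, filter_congr fun s _ => e s, ← Fintype.card_subtype,
    ← Nat.card_eq_fintype_card (α := Subtype _), div_eq_div_iff h5.ne' h6, one_mul]
  refine mul_right_cancel₀ h4.ne' ?_
  linear_combination h3

lemma totient_real (c : ℕ) :
    (Nat.totient c : ℝ) = c * ∏ q ∈ c.primeFactors, (1 - (q : ℝ)⁻¹) := by
  have := congrArg (Rat.cast : ℚ → ℝ) (Nat.totient_eq_mul_prod_factors c)
  push_cast at this
  exact this

lemma totient_le (k : Fld) (c : ℕ) : (Nat.totient c : ℝ) ≤ k.psi c := by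
  rw [totient_real, Fld.psi]
  refine mul_le_mul_of_nonneg_left (prod_le_prod (fun q hq => ?_) fun q hq => ?_)
    (Nat.cast_nonneg c)
  · have h1 : (1 : ℝ) ≤ q := by exact_mod_cast (Nat.prime_of_mem_primeFactors hq).one_le
    exact sub_nonneg.2 (inv_le_one_of_one_le₀ h1)
  · have h1 : (k.chi q : ℝ) ≤ 1 := by
      exact_mod_cast (abs_le.1 (chi_le k (Nat.prime_of_mem_primeFactors hq))).2
    rw [inv_eq_one_div]
    gcongr

lemma le_totient {ε : ℝ} (hε : 0 < ε) :
    ∃ C : ℝ, ∀ c : ℕ, 0 < c → (c : ℝ) ≤ C * (c : ℝ) ^ ε * Nat.totient c := by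
  obtain ⟨M, hM⟩ := exists_nat_ge ((2 : ℝ) ^ ε⁻¹)
  refine ⟨2 ^ M, fun c hc => ?_⟩
  have h1 : ∀ q ∈ c.primeFactors,
      (1 : ℝ) ≤ (if q < M then 2 else 1) * (q : ℝ) ^ ε * (1 - (q : ℝ)⁻¹) := by
    intro q hq
    have h2 : (2 : ℝ) ≤ q := by exact_mod_cast (Nat.prime_of_mem_primeFactors hq).two_le
    have h3 : (q : ℝ)⁻¹ ≤ 2⁻¹ := inv_anti₀ two_pos h2
    have h4 : (2 : ℝ) ≤ (if q < M then 2 else 1) * (q : ℝ) ^ ε := by
      split_ifs with h
      · have := Real.one_le_rpow (by linarith : (1 : ℝ) ≤ q) hε.le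
        linarith
      · have h5 : (2 : ℝ) ^ ε⁻¹ ≤ q := hM.trans (by exact_mod_cast not_lt.1 h)
        have h6 := Real.rpow_le_rpow (by positivity) h5 hε.le
        rwa [Real.rpow_inv_rpow two_pos.le hε.ne', ← one_mul ((q : ℝ) ^ ε)] at h6
    nlinarith
  have h2 := prod_le_prod (fun _ _ => zero_le_one) h1
  rw [prod_const_one, prod_mul_distrib, prod_mul_distrib, Real.finsetProd_rpow _ _ fun _ _ => Nat.cast_nonneg _,
    prod_ite, prod_const, prod_const_one, mul_one, ← Nat.cast_prod] at h2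
  have h3 : (2 : ℝ) ^ #{q ∈ c.primeFactors | q < M} ≤ 2 ^ M := by
    refine pow_le_pow_right₀ one_le_two ((card_le_card fun q hq => ?_).trans (card_range M).le)
    exact mem_range.2 (mem_filter.1 hq).2
  have h4 : ((∏ q ∈ c.primeFactors, q : ℕ) : ℝ) ^ ε ≤ (c : ℝ) ^ ε :=
    Real.rpow_le_rpow (Nat.cast_nonneg _)
      (Nat.cast_le.2 (Nat.le_of_dvd hc (Nat.prod_primeFactors_dvd c))) hε.le
  have h5 : 0 ≤ ∏ q ∈ c.primeFactors, (1 - (q : ℝ)⁻¹) := prod_nonneg fun q hq => by
    have h1 : (1 : ℝ) ≤ q := by exact_mod_cast (Nat.prime_of_mem_primeFactors hq).one_le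
    exact sub_nonneg.2 (inv_le_one_of_one_le₀ h1)
  have h6 : (1 : ℝ) ≤ 2 ^ M * (c : ℝ) ^ ε * ∏ q ∈ c.primeFactors, (1 - (q : ℝ)⁻¹) :=
    h2.trans (by gcongr)
  rw [totient_real]
  have h7 := mul_le_mul_of_nonneg_left h6 (Nat.cast_nonneg c)
  linarith

end Psi

theorem psi_stmt : PsiStmt := fun k =>
  ⟨fun _ hq => Psi.chi_le k hq, Psi.pr_eq k, Psi.totient_le k, fun _ hε => Psi.le_totient hε⟩

end Pool.Agent.Lib.MP_9177b7_ag.J
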