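import Pool.Agent.Lib.MP_9177b7_ag.J.DefsE

/-!
Local rigidity and Poincare recurrence give a rational correspondence of positive measure.
-/

open MeasureTheory ProbabilityTheory Filter Topology Set
open scoped MatrixGroups ENNReal NNReal

noncomputable section

namespace Pool.Agent.Lib.MP_9177b7_ag.J

namespace Rec

section alg

variable {F : Type} [Field F]

/-- The diagonal matrix with entries `c, 1`. -/
def Dm (c : Fˣ) : Matrix (Fin 2) (Fin 2) F := !![(c : F), 0; 0, 1]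

theorem sg_mul (c : Fˣ) (h : SL(2, F)) :
    (sg c h : Matrix (Fin 2) (Fin 2) F) * Dm c = Dm c * (h : Matrix (Fin 2) (Fin 2) F) := by
  ext i j
  fin_cases i <;> fin_cases j <;> simp [sg, Dm, Matrix.mul_apply, Fin.sum_univ_two]
  all_goals field_simp

theorem Dm_inv_mul (c : Fˣ) : Dm c⁻¹ * Dm c = 1 := by
  ext i j
  fin_cases i <;> fin_cases j <;> simp [Dm, Matrix.mul_apply, Fin.sum_univ_two]

theorem Dm_mul_inv (c : Fˣ) : Dm c * Dm c⁻¹ = 1 := by
  ext i j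
  fin_cases i <;> fin_cases j <;> simp [Dm, Matrix.mul_apply, Fin.sum_univ_two]

theorem det_Dm (c : Fˣ) : (Dm c).det = c := by simp [Dm, Matrix.det_fin_two]

theorem scalar_of_comm (Z y y' : Matrix (Fin 2) (Fin 2) F) (h1 : Z * y = y * Z)
    (h2 : Z * y' = y' * Z) (h : y * y' ≠ y' * y) : ∃ x : F, Z = x • 1 := by
  have a00 := congrFun (congrFun h1 0) 0
  have a01 := congrFun (congrFun h1 0) 1
  have a10 := congrFun (congrFun h1 1) 0
  have b00 := congrFun (congrFun h2 0) 0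
  have b01 := congrFun (congrFun h2 0) 1
  have b10 := congrFun (congrFun h2 1) 0
  simp only [Matrix.mul_apply, Fin.sum_univ_two] at a00 a01 a10 b00 b01 b10
  have key : ∀ w : F, w ≠ 0 → (w = Z 0 1 ∨ w = Z 1 0 ∨ w = Z 0 0 - Z 1 1) → False := by
    intro w hw hc
    apply h
    have e0 : w * (y 0 1 * y' 1 0 - y' 0 1 * y 1 0) = 0 := by
      rcases hc with rfl | rfl | rfl
      · linear_combination y 0 1 * b00 - y' 0 1 * a00
      · linear_combination - y' 1 0 * a00 + y 1 0 * b00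
      · linear_combination y' 1 0 * a01 + y' 0 1 * a10 + (y 0 0 - y 1 1) * b00
    have e1 : w * ((y 0 0 - y 1 1) * y' 0 1 - (y' 0 0 - y' 1 1) * y 0 1) = 0 := by
      rcases hc with rfl | rfl | rfl
      · linear_combination - y' 0 1 * a01 + y 0 1 * b01
      · linear_combination y' 0 1 * a10 + (y' 0 0 - y' 1 1) * a00 + y 1 0 * b01
      · linear_combination (y 0 0 - y 1 1) * b01 - (y' 0 0 - y' 1 1) * a01
    have e2 : w * (y 1 0 * (y' 0 0 - y' 1 1) - y' 1 0 * (y 0 0 - y 1 1)) = 0 := by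
      rcases hc with rfl | rfl | rfl
      · linear_combination (y' 0 0 - y' 1 1) * a00 + y' 1 0 * a01 + y 0 1 * b10
      · linear_combination y 1 0 * b10 - y' 1 0 * a10
      · linear_combination - (y' 0 0 - y' 1 1) * a10 + (y 0 0 - y 1 1) * b10
    have f0 := (mul_eq_zero.1 e0).resolve_left hw
    have f1 := (mul_eq_zero.1 e1).resolve_left hw
    have f2 := (mul_eq_zero.1 e2).resolve_left hw
    ext i j
    fin_cases i <;> fin_cases j <;> simp [Matrix.mul_apply, Fin.sum_univ_two]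
    · linear_combination f0
    · linear_combination f1
    · linear_combination f2
    · linear_combination - f0
  have q0 : Z 0 1 = 0 := by
    by_contra hq
    exact key _ hq (Or.inl rfl)
  have r0 : Z 1 0 = 0 := by
    by_contra hq
    exact key _ hq (Or.inr (Or.inl rfl))
  have u0 : Z 0 0 - Z 1 1 = 0 := by
    by_contra hq
    exact key _ hq (Or.inr (Or.inr rfl))
  refine ⟨Z 0 0, ?_⟩
  ext i j
  fin_cases i <;> fin_cases j <;> simp [q0, r0]
  linear_combination - u0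

variable [Algebra ℚ F]

theorem exists_rat (κ : Matrix (Fin 2) (Fin 2) F) (hκ : κ ≠ 0) :
    ∃ B : Matrix (Fin 2) (Fin 2) ℚ, B ≠ 0 ∧ ∀ γ δ : Matrix (Fin 2) (Fin 2) ℚ,
      κ * γ.map (algebraMap ℚ F) = δ.map (algebraMap ℚ F) * κ → B * γ = δ * B := by
  have : ∃ i j, κ i j ≠ 0 := by
    by_contra hh
    push Not at hh
    exact hκ (Matrix.ext hh)
  obtain ⟨i, j, hij⟩ := this
  obtain ⟨φ, hφ⟩ := Module.Projective.exists_dual_ne_zero ℚ hij
  refine ⟨κ.map φ, fun h0 => hφ (congrFun (congrFun h0 i) j), fun γ δ h => ?_⟩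
  ext a b
  have h1 := congrArg φ (congrFun (congrFun h a) b)
  have e1 : ∀ (x : F) (q : ℚ), φ (x * algebraMap ℚ F q) = φ x * q := by
    intro x q
    rw [mul_comm, ← Algebra.smul_def, map_smul, smul_eq_mul, mul_comm]
  have e2 : ∀ (x : F) (q : ℚ), φ (algebraMap ℚ F q * x) = q * φ x := by
    intro x q
    rw [← Algebra.smul_def, map_smul, smul_eq_mul]
  simp only [Matrix.mul_apply, Fin.sum_univ_two, Matrix.map_apply, map_add, e1, e2] at h1 ⊢
  exact h1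

theorem alg_main (c : Fˣ) (g₁ g₂ y y' : SL(2, F)) (γ₁ γ₂ γ₁' γ₂' : SL(2, ℚ))
    (h₁ : g₁⁻¹ * y * g₁ = Matrix.SpecialLinearGroup.map (algebraMap ℚ F) γ₁)
    (h₂ : g₂⁻¹ * sg c y * g₂ = Matrix.SpecialLinearGroup.map (algebraMap ℚ F) γ₂)
    (h₁' : g₁⁻¹ * y' * g₁ = Matrix.SpecialLinearGroup.map (algebraMap ℚ F) γ₁')
    (h₂' : g₂⁻¹ * sg c y' * g₂ = Matrix.SpecialLinearGroup.map (algebraMap ℚ F) γ₂')
    (hne : y * y' ≠ y' * y) :
    ∃ B : Matrix (Fin 2) (Fin 2) ℚ, B.det ≠ 0 ∧ ∃ x : F,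
      (g₂ : Matrix (Fin 2) (Fin 2) F) * B.map (algebraMap ℚ F) =
        x • (Dm c * (g₁ : Matrix (Fin 2) (Fin 2) F)) := by
  have inv1 : ∀ g : SL(2, F), (g : Matrix (Fin 2) (Fin 2) F) *
      ((g⁻¹ : SL(2, F)) : Matrix (Fin 2) (Fin 2) F) = 1 := by
    intro g
    rw [← Matrix.SpecialLinearGroup.coe_mul, mul_inv_cancel, Matrix.SpecialLinearGroup.coe_one]
  have inv2 : ∀ g : SL(2, F), ((g⁻¹ : SL(2, F)) : Matrix (Fin 2) (Fin 2) F) *
      (g : Matrix (Fin 2) (Fin 2) F) = 1 := by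
    intro g
    rw [← Matrix.SpecialLinearGroup.coe_mul, inv_mul_cancel, Matrix.SpecialLinearGroup.coe_one]
  have i1 := inv1 g₁
  have j1 := inv2 g₁
  have i2 := inv1 g₂
  have j2 := inv2 g₂
  have c1 : ∀ (g z : SL(2, F)) (γ : SL(2, ℚ)),
      g⁻¹ * z * g = Matrix.SpecialLinearGroup.map (algebraMap ℚ F) γ →
      (γ : Matrix (Fin 2) (Fin 2) ℚ).map (algebraMap ℚ F) =
        ((g⁻¹ : SL(2, F)) : Matrix (Fin 2) (Fin 2) F) * (z : Matrix (Fin 2) (Fin 2) F) *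
          (g : Matrix (Fin 2) (Fin 2) F) := by
    intro g z γ h
    rw [← Matrix.SpecialLinearGroup.coe_mul, ← Matrix.SpecialLinearGroup.coe_mul, h]
    rfl
  have k1 := c1 _ _ _ h₁
  have k2 := c1 _ _ _ h₂
  have k1' := c1 _ _ _ h₁'
  have k2' := c1 _ _ _ h₂'
  have s1 := sg_mul c y
  have s1' := sg_mul c y'
  have hne' : (y : Matrix (Fin 2) (Fin 2) F) * (y' : Matrix (Fin 2) (Fin 2) F) ≠
      (y' : Matrix (Fin 2) (Fin 2) F) * (y : Matrix (Fin 2) (Fin 2) F) := by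
    intro h
    apply hne
    apply Subtype.ext
    exact h
  have d1 := g₁.det_coe
  have d2 := g₂.det_coe
  have dd := det_Dm c
  have D1 := Dm_inv_mul c
  have D2 := Dm_mul_inv c
  generalize ((g₁⁻¹ : SL(2, F)) : Matrix (Fin 2) (Fin 2) F) = A' at *
  generalize ((g₂⁻¹ : SL(2, F)) : Matrix (Fin 2) (Fin 2) F) = C' at *
  generalize (g₁ : Matrix (Fin 2) (Fin 2) F) = A at *
  generalize (g₂ : Matrix (Fin 2) (Fin 2) F) = C at *
  generalize ((sg c y : SL(2, F)) : Matrix (Fin 2) (Fin 2) F) = u at *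
  generalize ((sg c y' : SL(2, F)) : Matrix (Fin 2) (Fin 2) F) = u' at *
  generalize (y : Matrix (Fin 2) (Fin 2) F) = v at *
  generalize (y' : Matrix (Fin 2) (Fin 2) F) = v' at *
  generalize Dm c⁻¹ = D' at *
  generalize Dm c = D at *
  have hκ : C' * D * A ≠ 0 := by
    intro h0
    have : D' * C * (C' * D * A) * A' = 1 := by
      calc D' * C * (C' * D * A) * A' = D' * (C * C') * D * (A * A') := by
            simp only [mul_assoc]
        _ = 1 := by rw [i2, i1, mul_one, mul_one, D1]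
    rw [h0, mul_zero, zero_mul] at this
    exact zero_ne_one this
  obtain ⟨B, hB0, hB⟩ := exists_rat _ hκ
  have main : ∀ (u v : Matrix (Fin 2) (Fin 2) F) (γ δ : Matrix (Fin 2) (Fin 2) ℚ),
      γ.map (algebraMap ℚ F) = A' * v * A → δ.map (algebraMap ℚ F) = C' * u * C →
      u * D = D * v →
      (D' * C * B.map (algebraMap ℚ F) * A') * v = v * (D' * C * B.map (algebraMap ℚ F) * A') := by
    intro u v γ δ e1 e2 e3
    have e4 : B * γ = δ * B := by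
      apply hB
      rw [e1, e2]
      calc C' * D * A * (A' * v * A) = C' * D * (A * A') * v * A := by simp only [mul_assoc]
        _ = C' * (D * v) * A := by rw [i1, mul_one]; simp only [mul_assoc]
        _ = C' * (u * D) * A := by rw [e3]
        _ = C' * u * (C * C') * D * A := by rw [i2, mul_one]; simp only [mul_assoc]
        _ = C' * u * C * (C' * D * A) := by simp only [mul_assoc]
    have e5 : B.map (algebraMap ℚ F) * (A' * v * A) = (C' * u * C) * B.map (algebraMap ℚ F) := by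
      rw [← e1, ← e2, ← Matrix.map_mul, ← Matrix.map_mul, e4]
    have e6 : D' * u = v * D' := by
      calc D' * u = D' * u * (D * D') := by rw [D2, mul_one]
        _ = D' * (u * D) * D' := by simp only [mul_assoc]
        _ = (D' * D) * v * D' := by rw [e3]; simp only [mul_assoc]
        _ = v * D' := by rw [D1, one_mul]
    generalize B.map (algebraMap ℚ F) = E at *
    calc D' * C * E * A' * v = D' * C * E * A' * v * (A * A') := by rw [i1, mul_one]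
      _ = D' * C * (E * (A' * v * A)) * A' := by simp only [mul_assoc]
      _ = D' * (C * C') * u * C * E * A' := by rw [e5]; simp only [mul_assoc]
      _ = (D' * u) * C * E * A' := by rw [i2, mul_one]
      _ = v * (D' * C * E * A') := by rw [e6]; simp only [mul_assoc]
  obtain ⟨x, hx⟩ := scalar_of_comm _ v v' (main u v _ _ k1 k2 s1) (main u' v' _ _ k1' k2' s1') hne'
  have fin : C * B.map (algebraMap ℚ F) = x • (D * A) := by
    calc C * B.map (algebraMap ℚ F) = (D * D') * C * B.map (algebraMap ℚ F) * (A' * A) := by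
          rw [D2, j1, one_mul, mul_one]
      _ = D * (D' * C * B.map (algebraMap ℚ F) * A') * A := by simp only [mul_assoc]
      _ = x • (D * A) := by rw [hx]; simp
  refine ⟨B, ?_, x, fin⟩
  have hx0 : x ≠ 0 := by
    rintro rfl
    apply hB0
    have : B.map (algebraMap ℚ F) = 0 := by
      calc B.map (algebraMap ℚ F) = (C' * C) * B.map (algebraMap ℚ F) := by rw [j2, one_mul]
        _ = 0 := by rw [mul_assoc, fin, zero_smul, mul_zero]
    ext i j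
    have h : algebraMap ℚ F (B i j) = 0 := congrFun (congrFun this i) j
    exact (map_eq_zero_iff _ (algebraMap ℚ F).injective).1 h
  intro hd
  have e := congrArg Matrix.det fin
  have e2 : (B.map (algebraMap ℚ F)).det = algebraMap ℚ F B.det :=
    ((algebraMap ℚ F).map_det B).symm
  rw [Matrix.det_mul, Matrix.det_smul, Matrix.det_mul, d1, d2, dd, e2, hd, map_zero] at e
  simp [hx0] at e

end alg

variable {l : ℕ} [Fact l.Prime]

/-- The diagonal matrix with entries `1, s`. -/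
def Mm (s : ℚ_[l]) : Matrix (Fin 2) (Fin 2) ℚ_[l] := !![1, 0; 0, s]

theorem dg_pow (t : ℚ_[l]ˣ) (n : ℕ) :
    ((dg t ^ n : HH l) : Matrix (Fin 2) (Fin 2) ℚ_[l]) =
      (t : ℚ_[l]) ^ n • Mm ((((t : ℚ_[l])⁻¹) ^ 2) ^ n) := by
  induction n with
  | zero =>
    ext i j
    fin_cases i <;> fin_cases j <;> simp [Mm]
  | succ n ih =>
    rw [pow_succ, Matrix.SpecialLinearGroup.coe_mul, ih]
    have ht : (t : ℚ_[l]) ≠ 0 := t.ne_zero
    ext i j
    fin_cases i <;> fin_cases j <;> simp [Mm, dg, Matrix.mul_apply, Fin.sum_univ_two, pow_succ]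
    field_simp

/-- The rescaled perturbed power. -/
def Y (p : (HH l × HH l) × ℚ_[l]) (k : HH l) : Matrix (Fin 2) (Fin 2) ℚ_[l] :=
  ((p.1.1⁻¹ * k : HH l) : Matrix (Fin 2) (Fin 2) ℚ_[l]) * Mm p.2 *
    ((k⁻¹ * p.1.2 : HH l) : Matrix (Fin 2) (Fin 2) ℚ_[l])

theorem cont_Y (k : HH l) : Continuous fun p : (HH l × HH l) × ℚ_[l] => Y p k := by
  have hM : Continuous (Mm : ℚ_[l] → Matrix (Fin 2) (Fin 2) ℚ_[l]) := by
    refine continuous_matrix fun i j => ?_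
    fin_cases i <;> fin_cases j <;> simp [Mm] <;> fun_prop
  have hv : Continuous fun g : HH l => (g : Matrix (Fin 2) (Fin 2) ℚ_[l]) := continuous_subtype_val
  refine Continuous.matrix_mul (Continuous.matrix_mul (hv.comp ?_) (hM.comp continuous_snd))
    (hv.comp ?_)
  · exact (continuous_fst.fst.inv).mul continuous_const
  · exact continuous_const.mul continuous_fst.snd

theorem coe_eq_Y (a' a k : HH l) (t : ℚ_[l]ˣ) (n : ℕ) :
    ((a'⁻¹ * (k * dg t * k⁻¹) ^ n * a : HH l) : Matrix (Fin 2) (Fin 2) ℚ_[l]) =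
      (t : ℚ_[l]) ^ n • Y ((a', a), (((t : ℚ_[l])⁻¹) ^ 2) ^ n) k := by
  have : a'⁻¹ * (k * dg t * k⁻¹) ^ n * a = (a'⁻¹ * k) * dg t ^ n * (k⁻¹ * a) := by
    rw [conj_pow]
    simp only [mul_assoc]
  rw [this, Matrix.SpecialLinearGroup.coe_mul, Matrix.SpecialLinearGroup.coe_mul, dg_pow, Y]
  simp only [Matrix.mul_smul, Matrix.smul_mul]

theorem exists_nhds : ∃ U ∈ 𝓝 (1 : HH l), ∃ h h' : HH l, ∀ a' ∈ U, ∀ a ∈ U, ∀ b' ∈ U, ∀ b ∈ U,
    ∀ n m : ℕ, n ≠ 0 → m ≠ 0 →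
      (a'⁻¹ * h ^ n * a) * (b'⁻¹ * h' ^ m * b) ≠ (b'⁻¹ * h' ^ m * b) * (a'⁻¹ * h ^ n * a) := by
  let Φ : ((HH l × HH l) × ℚ_[l]) × ((HH l × HH l) × ℚ_[l]) → ℚ_[l] :=
    fun p => (Y p.1 1 * Y p.2 (lo 1) - Y p.2 (lo 1) * Y p.1 1) 1 0
  have hΦ : Continuous Φ := by
    have h1 := (cont_Y (l := l) 1).comp
      (continuous_fst (X := (HH l × HH l) × ℚ_[l]) (Y := (HH l × HH l) × ℚ_[l]))
    have h2 := (cont_Y (l := l) (lo 1)).comp
      (continuous_snd (X := (HH l × HH l) × ℚ_[l]) (Y := (HH l × HH l) × ℚ_[l]))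
    exact ((h1.matrix_mul h2).sub (h2.matrix_mul h1)).matrix_elem 1 0
  have h0 : Φ (((1, 1), 0), ((1, 1), 0)) ≠ 0 := by
    simp [Φ, Y, Mm, lo, Matrix.SpecialLinearGroup.coe_inv, Matrix.adjugate_fin_two]
  have hev := hΦ.continuousAt.eventually_ne h0
  rw [nhds_prod_eq] at hev
  obtain ⟨P, hP, P', hP', hPP⟩ := Filter.mem_prod_iff.1 hev
  rw [nhds_prod_eq] at hP hP'
  obtain ⟨A, hA, s, hs, hAs⟩ := Filter.mem_prod_iff.1 hP
  obtain ⟨A', hA', s', hs', hAs'⟩ := Filter.mem_prod_iff.1 hP'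
  rw [nhds_prod_eq] at hA hA'
  obtain ⟨U1, hU1, U2, hU2, hU⟩ := Filter.mem_prod_iff.1 hA
  obtain ⟨U3, hU3, U4, hU4, hU'⟩ := Filter.mem_prod_iff.1 hA'
  obtain ⟨ε, hε, hball⟩ := Metric.mem_nhds_iff.1 (inter_mem hs hs')
  obtain ⟨x, hx0, hx⟩ := NormedField.exists_norm_lt ℚ_[l] (lt_min hε one_pos)
  have hx1 : ‖x‖ < 1 := hx.trans_le (min_le_right _ _)
  have hx2 : ‖x‖ < ε := hx.trans_le (min_le_left _ _)
  have hxne : x ≠ 0 := norm_pos_iff.1 hx0
  let t : ℚ_[l]ˣ := Units.mk0 x⁻¹ (inv_ne_zero hxne)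
  have hsm : ∀ n : ℕ, n ≠ 0 → (((t : ℚ_[l])⁻¹) ^ 2) ^ n ∈ s ∩ s' := by
    intro n hn
    apply hball
    have : ((t : ℚ_[l])⁻¹) = x := by simp [t]
    rw [this, mem_ball_zero_iff, ← pow_mul, norm_pow]
    calc ‖x‖ ^ (2 * n) ≤ ‖x‖ ^ 1 := pow_le_pow_of_le_one hx0.le hx1.le (by omega)
      _ < ε := by simpa using hx2
  refine ⟨(U1 ∩ U2) ∩ (U3 ∩ U4), inter_mem (inter_mem hU1 hU2) (inter_mem hU3 hU4),
    1 * dg t * 1⁻¹, lo 1 * dg t * (lo 1)⁻¹, ?_⟩
  intro a' ha' a ha b' hb' b hb n m hn hm heq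
  have hp : Φ (((a', a), (((t : ℚ_[l])⁻¹) ^ 2) ^ n), ((b', b), (((t : ℚ_[l])⁻¹) ^ 2) ^ m)) ≠ 0 :=
    hPP (mk_mem_prod (hAs (mk_mem_prod (hU (mk_mem_prod ha'.1.1 ha.1.2)) (hsm n hn).1))
      (hAs' (mk_mem_prod (hU' (mk_mem_prod hb'.2.1 hb.2.2)) (hsm m hm).2)))
  apply hp
  have e := congrArg (fun g : HH l => (g : Matrix (Fin 2) (Fin 2) ℚ_[l])) heq
  simp only [Matrix.SpecialLinearGroup.coe_mul (_ * _ * a),
    Matrix.SpecialLinearGroup.coe_mul (_ * _ * b), coe_eq_Y, Matrix.mul_smul,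
    Matrix.smul_mul, smul_smul] at e
  rw [mul_comm ((t : ℚ_[l]) ^ m)] at e
  have hc : (t : ℚ_[l]) ^ n * (t : ℚ_[l]) ^ m ≠ 0 :=
    mul_ne_zero (pow_ne_zero _ t.ne_zero) (pow_ne_zero _ t.ne_zero)
  have e2 := smul_right_injective _ hc e
  simp only [Φ]
  rw [e2, sub_self]
  rfl

theorem cont_h2 (S : Sp l) (v : HH l × HH l) : Continuous (S.h2 v) := by
  unfold Sp.h2 Sp.hs
  exact (continuous_fst.const_smul _).prodMk (continuous_snd.const_smul _)

theorem h2_iter (S : Sp l) (v : HH l × HH l) (n : ℕ) (z : S.X × S.X) :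
    (S.h2 v)^[n] z = S.h2 (v ^ n) z := by
  induction n with
  | zero =>
    have : ((1, 1) : S.G) = 1 := rfl
    simp [Sp.h2, Sp.hs, this]
  | succ n ih =>
    rw [Function.iterate_succ_apply', ih]
    simp [Sp.h2, Sp.hs, smul_smul, pow_succ']

theorem open_orb (S : Sp l) (g₁ g₂ : S.G) :
    IsOpenMap fun η : S.G × S.G => S.g2 η (g₁ • S.o, g₂ • S.o) := by
  have h := (S.opn.comp (isOpenMap_mul_right g₁)).prodMap (S.opn.comp (isOpenMap_mul_right g₂))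
  have e : (fun η : S.G × S.G => S.g2 η (g₁ • S.o, g₂ • S.o)) =
      Prod.map ((fun g : HH l × S.C => g • S.o) ∘ fun x => x * g₁)
        ((fun g : HH l × S.C => g • S.o) ∘ fun x => x * g₂) := by
    funext η
    simp [Sp.g2, mul_smul, Prod.map]
  rw [e]
  exact h

theorem rat_of (S : Sp l) (g a a' : S.G) (h : HH l)
    (e : S.hs h (a • g • S.o) = a' • g • S.o) :
    ∃ γ : SL(2, ℚ), g.1⁻¹ * (a'.1⁻¹ * h * a.1) * g.1 =
      Matrix.SpecialLinearGroup.map (algebraMap ℚ ℚ_[l]) γ := by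
  have : (g⁻¹ * (a'⁻¹ * ((h, 1) : S.G) * a) * g) • S.o = S.o := by
    simp only [mul_smul]
    unfold Sp.hs at e
    rw [e, inv_smul_smul, inv_smul_smul]
  obtain ⟨γ, hγ⟩ := S.rat _ this
  exact ⟨γ, by simpa using hγ⟩

end Rec

open Rec in
theorem rec_stmt : RecStmt := by
  intro l _ _ S θ c Q O hθ hinv hQ hpos hO hrig
  obtain ⟨w₀, hw₀, hloc⟩ := exists_mem_forall_mem_nhdsWithin_pos_measure hpos.ne'
  obtain ⟨g₁, hg₁⟩ := S.surj w₀.1
  obtain ⟨g₂, hg₂⟩ := S.surj w₀.2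
  have hw : w₀ = (g₁ • S.o, g₂ • S.o) := Prod.ext hg₁.symm hg₂.symm
  subst hw
  obtain ⟨U, hU, h, h', hne⟩ := exists_nhds (l := l)
  obtain ⟨K, hK, hK1⟩ := exists_compact_mem_nhds (1 : S.G × S.G)
  have hU' : (fun η : S.G × S.G => η.1.1) ⁻¹' U ∈ 𝓝 (1 : S.G × S.G) :=
    continuous_fst.fst.continuousAt.preimage_mem_nhds hU
  obtain ⟨O', hO's, hO'o, hO'1⟩ := mem_nhds_iff.1 (inter_mem (inter_mem hO hK1) hU')
  set V := (fun η : S.G × S.G => S.g2 η (g₁ • S.o, g₂ • S.o)) '' O' with hV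
  have hVo : IsOpen V := open_orb S g₁ g₂ _ hO'o
  have hVw : (g₁ • S.o, g₂ • S.o) ∈ V := ⟨1, hO'1, by simp [Sp.g2]⟩
  have hpos2 : 0 < θ (Q ∩ V) := hloc _ (inter_mem_nhdsWithin _ (hVo.mem_nhds hVw))
  have hmeas : MeasurableSet (Q ∩ V) := hQ.isClosed.measurableSet.inter hVo.measurableSet
  have hrec : ∀ k : HH l, ∃ a' ∈ U, ∃ a ∈ U, ∃ n : ℕ, n ≠ 0 ∧ ∃ γ₁ γ₂ : SL(2, ℚ),
      g₁.1⁻¹ * (a'⁻¹ * k ^ n * a) * g₁.1 =
        Matrix.SpecialLinearGroup.map (algebraMap ℚ ℚ_[l]) γ₁ ∧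
      g₂.1⁻¹ * sg c (a'⁻¹ * k ^ n * a) * g₂.1 =
        Matrix.SpecialLinearGroup.map (algebraMap ℚ ℚ_[l]) γ₂ := by
    intro k
    have hmp : MeasurePreserving (S.h2 (k, sg c k)) θ θ :=
      ⟨(cont_h2 S _).measurable, hinv k⟩
    obtain ⟨w, ⟨hwQ, η, hη, rfl⟩, n, hn, hw'Q, η', hη', hw'⟩ :=
      hmp.conservative.exists_mem_iterate_mem' hmeas hpos2.ne'
    have r1 := hrig _ hw₀ η (hO's hη).1.1 hwQ
    have r2 := hrig _ hw₀ η' (hO's hη').1.1 (by rw [← hw'] at hw'Q; exact hw'Q)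
    rw [h2_iter] at hw'
    obtain ⟨γ₁, e1⟩ := rat_of S g₁ η.1 η'.1 (k ^ n) (congrArg Prod.fst hw').symm
    obtain ⟨γ₂, e2⟩ := rat_of S g₂ η.2 η'.2 (sg c k ^ n) (congrArg Prod.snd hw').symm
    refine ⟨η'.1.1, (hO's hη').2, η.1.1, (hO's hη).2, n, hn, γ₁, γ₂, e1, ?_⟩
    rw [← e2, r1, r2, map_mul, map_mul, map_inv, map_pow]
  obtain ⟨a', ha', a, ha, n, hn, γ₁, γ₂, e1, e2⟩ := hrec h
  obtain ⟨b', hb', b, hb, m, hm, γ₁', γ₂', e1', e2'⟩ := hrec h'
  obtain ⟨B, hB, x, hx⟩ := alg_main c g₁.1 g₂.1 _ _ γ₁ γ₂ γ₁' γ₂' e1 e2 e1' e2'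
    (hne a' ha' a ha b' hb' b hb n m hn hm)
  refine ⟨B, (fun η : S.G × S.G => η.1 * g₁) '' K ∪ (fun η : S.G × S.G => η.2 * g₂) '' K, hB,
    (hK.image (continuous_fst.mul continuous_const)).union
      (hK.image (continuous_snd.mul continuous_const)), hpos2.trans_le (measure_mono ?_)⟩
  rintro w ⟨hwQ, η, hη, rfl⟩
  have r1 := hrig _ hw₀ η (hO's hη).1.1 hwQ
  refine ⟨η.1 * g₁, Or.inl ⟨η, (hO's hη).1.2, rfl⟩, η.2 * g₂, Or.inr ⟨η, (hO's hη).1.2, rfl⟩,
    by simp [Sp.g2, mul_smul], x * c, x, ?_⟩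
  have e3 : !![x * (c : ℚ_[l]), 0; 0, x] = x • Dm c := by
    ext i j
    fin_cases i <;> fin_cases j <;> simp [Dm]
  rw [e3, Prod.fst_mul, Prod.fst_mul, Matrix.SpecialLinearGroup.coe_mul,
    Matrix.SpecialLinearGroup.coe_mul, r1, mul_assoc, hx, Matrix.mul_smul, ← mul_assoc, sg_mul,
    Matrix.smul_mul, mul_assoc]

end Pool.Agent.Lib.MP_9177b7_ag.J
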