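import Mathlib
import Pool.Agent.Lib.MP_9177b7_ag.J.DefsE

/-!
Lattices in an imaginary quadratic field, the action of `(O / F O)ˣ` on them, and the statements
of the arithmetic pieces.
-/

open MeasureTheory Filter Topology Set Pointwise
open scoped MatrixGroups ENNReal NNReal BoundedContinuousFunction

noncomputable section

namespace Pool.Agent.Lib.MP_9177b7_ag.J

/-- An imaginary quadratic field with its maximal order `ℤ[ω]`, `ω ^ 2 = t ω - n`. -/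
structure Fld where
  t : ℤ
  n : ℤ
  neg : t ^ 2 - 4 * n < 0
  max : ∀ x y : ℚ, (∃ a : ℤ, 2 * x + t * y = a) → (∃ b : ℤ, x ^ 2 + t * x * y + n * y ^ 2 = b) →
    (∃ a : ℤ, x = a) ∧ ∃ b : ℤ, y = b

namespace Fld

variable (k : Fld)

/-- The discriminant. -/
def D : ℤ := k.t ^ 2 - 4 * k.n

/-- The field, with coordinates in the basis `1, ω`. -/
abbrev K : Type := QuadraticAlgebra ℚ (-(k.n : ℚ)) (k.t : ℚ)

instance : Fact (∀ r : ℚ, r ^ 2 ≠ -(k.n : ℚ) + (k.t : ℚ) * r) := ⟨fun r h => by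
  have h1 : ((k.t ^ 2 - 4 * k.n : ℤ) : ℚ) < 0 := by exact_mod_cast k.neg
  push_cast at h1
  nlinarith [sq_nonneg (2 * r - k.t)]⟩

/-- The generator `ω`. -/
def om : k.K := ⟨0, 1⟩

/-- The norm, as a real number. -/
def N (x : k.K) : ℝ := ((QuadraticAlgebra.norm x : ℚ) : ℝ)

/-- The maximal order. -/
def O : Submodule ℤ k.K := Submodule.span ℤ {1, k.om}

/-- `r` is a root of the minimal polynomial of `ω`. -/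
def Root {A : Type} [CommRing A] (r : A) : Prop := r ^ 2 = (k.t : A) * r - (k.n : A)

/-- The embedding which sends `ω` to `r`. -/
def io {A : Type} [Field A] [CharZero A] (r : A) (x : k.K) : A := (x.re : A) + (x.im : A) * r

/-- The embedding as a `ℤ`-linear map. -/
def ioL {A : Type} [Field A] [CharZero A] (r : A) : k.K →ₗ[ℤ] A where
  toFun := k.io r
  map_add' x y := by simp [io]; ring
  map_smul' c x := by simp [io]; ring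

/-- The determinant of two elements in the basis `1, ω`. -/
def det2 (x y : k.K) : ℚ := x.re * y.im - x.im * y.re

/-- `L` is a lattice of covolume `c` (the maximal order has covolume `1`). -/
def Lat (L : Submodule ℤ k.K) (c : ℚ) : Prop :=
  ∃ x y : k.K, L = Submodule.span ℤ {x, y} ∧ k.det2 x y = c ∧ 0 < c

/-- `L` is stable under the order of conductor `F`. -/
def Adm (F : ℕ) (L : Submodule ℤ k.K) : Prop := ∀ x ∈ L, (F : k.K) * k.om * x ∈ L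

/-- `f` is the conductor of the multiplier ring of `L`. -/
def Cond (L : Submodule ℤ k.K) (f : ℕ) : Prop := ∀ c : ℕ, k.Adm c L ↔ f ∣ c

/-- `L` agrees with the maximal order at the prime `l`. -/
def Nrm (l : ℕ) (L : Submodule ℤ k.K) : Prop :=
  ∃ u : ℕ, ¬ l ∣ u ∧ (∀ x ∈ k.O, (u : k.K) * x ∈ L) ∧ ∀ x ∈ L, (u : k.K) * x ∈ k.O

/-- The finite group `(O / F O)ˣ`. -/
abbrev SF (F : ℕ+) : Type := (QuadraticAlgebra (ZMod F) (-(k.n : ZMod F)) (k.t : ZMod F))ˣ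

instance (F : ℕ+) : Finite (QuadraticAlgebra (ZMod F) (-(k.n : ZMod F)) (k.t : ZMod F)) :=
  Finite.of_equiv _ (QuadraticAlgebra.equivProd _ _).symm

instance (F : ℕ+) : Fintype (k.SF F) := Fintype.ofFinite _

variable {k} in
/-- A lift of a residue class to the maximal order. -/
def lift {F : ℕ+} (s : k.SF F) : k.K := ⟨(s.val.re.val : ℚ), (s.val.im.val : ℚ)⟩

variable {k} in
/-- The action `L ↦ (ℤ s + F O) L` of `(O / F O)ˣ` on lattices. -/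
def act {F : ℕ+} (s : k.SF F) (L : Submodule ℤ k.K) : Submodule ℤ k.K :=
  Submodule.span ℤ {lift s, ((F : ℕ) : k.K), ((F : ℕ) : k.K) * k.om} * L

/-- Average over `(O / F O)ˣ`. -/
def avg (F : ℕ+) (φ : k.SF F → ℝ) : ℝ := (∑ s, φ s) / Fintype.card (k.SF F)

open Classical in
/-- Probability over `(O / F O)ˣ`. -/
def pr (F : ℕ+) (P : k.SF F → Prop) : ℝ := k.avg F fun s => if P s then 1 else 0

/-- The `ℚ`-linear map `z ↦ α z + β z̄`. -/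
def lin (α β : k.K) : k.K →ₗ[ℤ] k.K where
  toFun z := α * z + β * star z
  map_add' x y := by simp only [star_add]; ring
  map_smul' c x := by simp only [zsmul_eq_mul, star_mul', star_intCast, RingHom.id_apply]; ring

/-- `χ q + 1` is the number of roots of the minimal polynomial of `ω` modulo `q`. -/
def chi (q : ℕ) : ℤ :=
  (((Finset.range q).filter fun r : ℕ => (q : ℤ) ∣ (r : ℤ) ^ 2 - k.t * r + k.n).card : ℤ) - 1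

/-- The index of the units of the order of conductor `c` in the units of the completed maximal
order. -/
def psi (c : ℕ) : ℝ := c * ∏ q ∈ c.primeFactors, (1 - (k.chi q : ℝ) / q)

/-- The event excluded by the arithmetic estimates: a bounded linear map of determinant `± N`
from `L₁` into `L₂`, not `K`-linear but `l`-adically close to a `K`-linear map. -/
def Ev (l : ℕ) [Fact l.Prime] (r : ℚ_[l]) (Nn : ℕ) (R : ℝ) (m : ℕ) (c₁ c₂ : ℚ)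
    (L₁ L₂ : Submodule ℤ k.K) : Prop :=
  ∃ α β : k.K, L₁.map (k.lin α β) ≤ L₂ ∧ |k.N α - k.N β| * c₁ = Nn * c₂ ∧
    k.N α * c₁ ≤ R * c₂ ∧ k.N β * c₁ ≤ R * c₂ ∧ β ≠ 0 ∧
    ‖k.io r β‖ ≤ ((l : ℝ) ^ m)⁻¹ ∧ ‖k.io ((k.t : ℚ_[l]) - r) β‖ ≤ ((l : ℝ) ^ m)⁻¹

end Fld

open Fld

/-- Basic properties of lattices and of the action. -/
def BasicStmt : Prop :=
  ∀ k : Fld,
    -- the embeddings are multiplicative
    (∀ (A : Type) [Field A] [CharZero A] (r : A), k.Root r → ∀ x y, k.io r (x * y) =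
      k.io r x * k.io r y ∧ k.io r (star x) = k.io ((k.t : A) - r) x) ∧
    -- the covolume is well defined, scales correctly, and measures indices
    (∀ L c c', k.Lat L c → k.Lat L c' → c = c') ∧
    (∀ L c (α β : k.K), k.Lat L c → k.N α ≠ k.N β →
      k.Lat (L.map (k.lin α β)) (|QuadraticAlgebra.norm α - QuadraticAlgebra.norm β| * c)) ∧
    (∀ L L' c c', k.Lat L c → k.Lat L' c' → L ≤ L' →
      ∃ j : ℕ, 0 < j ∧ c = j * c' ∧ (∀ x ∈ L', (j : k.K) * x ∈ L) ∧ (j = 1 → L = L')) ∧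
    (∀ L L' M c c', k.Lat L c → k.Lat L' c' → L ≤ M → M ≤ L' → ∃ c'', k.Lat M c'') ∧
    -- reduced bases
    (∀ L c, k.Lat L c → ∃ x y : k.K, L = Submodule.span ℤ {x, y} ∧ k.det2 x y = c ∧
      (∀ v ∈ L, v ≠ 0 → k.N x ≤ k.N v) ∧ k.N x ≤ k.N y ∧
      k.N x * k.N y ≤ |(k.D : ℝ)| * (c : ℝ) ^ 2) ∧
    -- conductor and normal form, with a generator modulo any prescribed modulus
    (∀ L c, k.Lat L c → ∃ f : ℕ, 0 < f ∧ k.Cond L f ∧ k.Lat (k.O * L) (c / f) ∧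
      ∀ M : ℕ, 0 < M → ∃ lam ∈ L, (∀ x, x ∈ L ↔ ∃ (a : ℤ), ∃ y ∈ k.O * L, x = a * lam + f * y) ∧
        ∀ x ∈ k.O * L, ∃ u ∈ k.O, ∃ y ∈ k.O * L, x = u * lam + M * y) ∧
    -- the action
    (∀ (F : ℕ+) (L : Submodule ℤ k.K) (c : ℚ), k.Lat L c → k.Adm F L →
      act (1 : k.SF F) L = L ∧ ∀ s : k.SF F, k.Lat (act s L) c ∧ k.Adm F (act s L) ∧
        k.O * act s L = k.O * L ∧ (∀ f, k.Cond L f → k.Cond (act s L) f) ∧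
        (∀ l : ℕ, l.Prime → ¬ l ∣ F → k.Nrm l L → k.Nrm l (act s L)) ∧
        (∀ s' : k.SF F, act (s * s') L = act s (act s' L)) ∧
        (∀ α : k.K, act s (α • L) = α • act s L) ∧
        (∀ L', L ≤ L' → act s L ≤ act s L') ∧
        (∀ (f : ℕ) (lam : k.K), (∀ x, x ∈ L ↔ ∃ (a : ℤ), ∃ y ∈ k.O * L, x = a * lam + f * y) →
          f ∣ F → ∀ x, x ∈ act s L ↔ ∃ (a : ℤ), ∃ y ∈ k.O * L, x = a * (lift s * lam) + f * y)) ∧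
    -- change of modulus
    (∀ F F' : ℕ+, (F : ℕ) ∣ F' → ∃ p : k.SF F' →* k.SF F, Function.Surjective p ∧
      (∀ φ : k.SF F → ℝ, k.avg F' (fun s => φ (p s)) = k.avg F φ) ∧
      ∀ L, k.Adm F L → ∀ s, act s L = act (p s) L) ∧
    -- normalisation at finitely many primes
    (∀ (L : Submodule ℤ k.K) (c : ℚ) (F M : ℕ), k.Lat L c → k.Adm F L → 0 < M → Nat.Coprime F M →
      ∃ α : k.K, α ≠ 0 ∧ ∀ l : ℕ, l.Prime → l ∣ M → k.Nrm l (α • L))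

/-- Cosets of the unit groups of orders, and lower bounds for their index. -/
def PsiStmt : Prop :=
  ∀ k : Fld,
    (∀ q : ℕ, q.Prime → |k.chi q| ≤ 1) ∧
    (∀ (F : ℕ+) (c : ℕ) (s₀ : k.SF F), c ∣ F →
      k.pr F (fun s => ∃ z : ℤ, (lift s * star (lift s₀)).im = c * z) = 1 / k.psi c) ∧
    (∀ c : ℕ, (Nat.totient c : ℝ) ≤ k.psi c) ∧
    ∀ ε : ℝ, 0 < ε → ∃ C : ℝ, ∀ c : ℕ, 0 < c → (c : ℝ) ≤ C * (c : ℝ) ^ ε * Nat.totient c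

/-- Representation numbers of the norm form and points of modules over the maximal order. -/
def RepStmt : Prop :=
  ∀ k : Fld,
    -- packing: few short vectors in a subgroup without very short vectors
    (∃ C : ℝ, 0 < C ∧ ∀ (L : Submodule ℤ k.K) (m X : ℝ), 0 < m → 0 ≤ X →
      (∀ v ∈ L, v ≠ 0 → m ≤ k.N v) → {v | v ∈ L ∧ v ≠ 0 ∧ k.N v ≤ X}.Finite ∧
        ({v | v ∈ L ∧ v ≠ 0 ∧ k.N v ≤ X}.ncard : ℝ) ≤ C * X / m) ∧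
    -- divisor bound for the number of elements of given norm
    (∀ ε : ℝ, 0 < ε → ∃ C : ℝ, ∀ (A : Submodule ℤ k.K) (c : ℚ) (j : ℕ), k.Lat A c → k.Adm 1 A →
      0 < j → {v | v ∈ A ∧ QuadraticAlgebra.norm v = j * c}.Finite ∧
        ({v | v ∈ A ∧ QuadraticAlgebra.norm v = j * c}.ncard : ℝ) ≤ C * (j : ℝ) ^ ε) ∧
    -- the norms of a module over the maximal order are multiples of its covolume
    (∀ (A : Submodule ℤ k.K) (c : ℚ), k.Lat A c → k.Adm 1 A → ∀ v ∈ A,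
      ∃ j : ℕ, QuadraticAlgebra.norm v = j * c)

/-- A generator of a power of a split prime. -/
def PiStmt : Prop :=
  ∀ (k : Fld) (l : ℕ) [Fact l.Prime] (r : ℚ_[l]), k.Root r → ¬ (l : ℤ) ∣ k.D →
    ‖r‖ ≤ 1 ∧ ‖(k.t : ℚ_[l]) - r - r‖ = 1 ∧
    ∃ p ∈ k.O, ∃ h : ℕ, 0 < h ∧ QuadraticAlgebra.norm p = (l : ℚ) ^ h ∧
      ‖k.io r p‖ = ((l : ℝ) ^ h)⁻¹ ∧ ‖k.io ((k.t : ℚ_[l]) - r) p‖ = 1

/-- One sided Mertens estimate for the character of the field. -/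
def CharStmt : Prop :=
  ∀ k : Fld, ∃ C : ℝ, ∀ z : ℕ, ∑ q ∈ (Finset.range z).filter Nat.Prime, (k.chi q : ℝ) / q ≤ C

/-- The box with corner `a` and sides `A`, `B`. -/
def box (a : ℤ × ℤ) (A B : ℕ) : Finset (ℤ × ℤ) :=
  Finset.Ico a.1 (a.1 + A) ×ˢ Finset.Ico a.2 (a.2 + B)

/-- The mean of a function over a full system of residues modulo `M`. -/
def den (M : ℕ) (h : ℤ × ℤ → ℝ) : ℝ := (∑ u ∈ box 0 M M, h u) / (M : ℝ) ^ 2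

/-- Congruence of points of the plane. -/
def Cg (M : ℕ) (u v : ℤ × ℤ) : Prop := (M : ℤ) ∣ u.1 - v.1 ∧ (M : ℤ) ∣ u.2 - v.2

open Classical in
/-- Upper bound sieve in a box of the plane. -/
def SieveStmt : Prop :=
  ∀ κ : ℝ, ∃ δ C : ℝ, 0 < δ ∧ 0 < C ∧ ∀ (y : ℝ) (a : ℤ × ℤ) (A B : ℕ) (P : Finset ℕ)
    (Ω : ℕ → ℤ × ℤ → Prop), 1 ≤ y → y ≤ A → y ≤ B → (∀ q ∈ P, q.Prime ∧ (q : ℝ) ≤ y ^ δ) →
    (∀ q ∈ P, ∀ u v, Cg q u v → Ω q u → Ω q v) →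
    (∀ q ∈ P, den q (fun u => if Ω q u then 1 else 0) ≤ κ / q) →
    (((box a A B).filter fun u => ∀ q ∈ P, ¬ Ω q u).card : ℝ) ≤
      C * A * B * Real.exp (-∑ q ∈ P, den q fun u => if Ω q u then 1 else 0)

open Classical in
/-- A Shiu type bound in a box of the plane.  `Lv q j u` says that the level of `u` at `q` is at
least `j`, `g q j u` is the weight of a point of exact level `j`. -/
def ShiuStmt : Prop :=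
  ∀ (κ E θ : ℝ) (c : ℕ), 1 ≤ κ → 0 < θ → 1 ≤ c → ∃ δ₀ ε₀ : ℝ, 0 < δ₀ ∧ 0 < ε₀ ∧ ∀ δ : ℝ, 0 < δ → δ ≤ δ₀ →
    ∃ C : ℝ, ∀ (y : ℝ) (a : ℤ × ℤ) (A B : ℕ) (P Q : Finset ℕ) (U : Finset (ℤ × ℤ))
      (Lv : ℕ → ℕ → ℤ × ℤ → Prop) (g : ℕ → ℕ → ℤ × ℤ → ℝ) (lev : ℤ × ℤ → ℕ → ℕ)
      (e₁ e₂ : ℕ → ℝ),
      1 ≤ y → y ≤ A → y ≤ B → U ⊆ box a A B → (∀ q ∈ P, q.Prime) → Q ⊆ P →
      (∀ q ∈ Q, (q : ℝ) ≤ y ^ δ) →
      (∀ q ∈ P, ∀ j u, Lv q (j + 1) u → Lv q j u) →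
      (∀ q ∈ P, ∀ u v, Cg q u v → Lv q 1 u → Lv q 1 v) →
      (∀ q ∈ P, ∀ j u v, Cg (q ^ (c * j)) u v → Lv q j u → Lv q j v) →
      (∀ q ∈ P, ∀ j u v, Cg (q ^ (c * (j + 1))) u v → g q j u = g q j v) →
      (∀ q ∈ P, ∀ j u, 0 ≤ g q j u) → (∀ q ∈ P, ∀ u, g q 0 u ≤ 1) → (∀ q ∈ P, ∀ u, g q 1 u ≤ κ) →
      (∀ q ∈ P, den q (fun u => if Lv q 1 u then 1 else 0) ≤ κ / q) →
      (∀ q ∈ P, ∀ j, 2 ≤ j → den (q ^ (c * j)) (fun u => if Lv q j u then 1 else 0) ≤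
        κ * (q : ℝ) ^ (-1 - θ * j)) →
      (∀ q ∈ P, den (q ^ (c * 2)) (fun u => if Lv q 1 u ∧ ¬ Lv q 2 u then g q 1 u else 0) ≤ e₁ q) →
      (∀ q ∈ P, e₁ q ≤ κ ^ 2 / q ∧ e₂ q ≤ κ ^ 2 / q) →
      (∀ q ∈ P, ∀ J, ∑ j ∈ Finset.Icc 2 J, den (q ^ (c * (j + 1)))
        (fun u => if Lv q j u ∧ ¬ Lv q (j + 1) u then g q j u else 0) ≤ e₂ q) →
      (∀ u ∈ U, ∀ q ∈ P, (lev u q = 0 ∨ Lv q (lev u q) u) ∧ ¬ Lv q (lev u q + 1) u) →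
      (∀ u ∈ U, ∀ q ∈ Q, 2 ≤ lev u q) →
      (∀ u ∈ U, ∏ q ∈ P, (q : ℝ) ^ lev u q ≤ y ^ E) →
      (∀ u ∈ U, ∀ q ∈ P, y ^ δ < q → g q (lev u q) u ≤ κ ^ lev u q) →
      (∀ u ∈ U, ∏ q ∈ P, g q (lev u q) u ≤ y ^ ε₀) →
      ∑ u ∈ U, ∏ q ∈ P, g q (lev u q) u ≤ C * A * B *
        (Real.exp (∑ q ∈ (P \ Q).filter (fun q : ℕ => (q : ℝ) ≤ y ^ δ),
          (e₁ q + e₂ q - den q fun u => if Lv q 1 u then 1 else 0)) * ∏ q ∈ Q, e₂ q + y ^ (-ε₀))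

/-- No escape of mass. -/
def TightStmt : Prop :=
  ∀ (k : Fld) (η : ℝ), 0 < η → ∃ ε : ℝ, 0 < ε ∧ ∀ (F : ℕ+) (L : Submodule ℤ k.K) (c : ℚ),
    k.Lat L c → k.Adm F L → k.pr F (fun s => ∃ v ∈ act s L, v ≠ 0 ∧ k.N v ≤ ε * c) ≤ η

/-- Linnik's basic lemma: few pairs of orbit points lie in a common tube. -/
def CollStmt : Prop :=
  ∀ (k : Fld) (l : ℕ) [Fact l.Prime] (r : ℚ_[l]), k.Root r → ¬ (l : ℤ) ∣ k.D →
    ∀ R ε : ℝ, 0 < ε → ∃ C : ℝ, ∀ (F : ℕ+) (L : Submodule ℤ k.K) (c : ℚ) (f κ : ℕ),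
      ¬ l ∣ F → k.Lat L c → k.Adm F L → k.Nrm l L → k.Cond L f →
      k.avg F (fun s => k.pr F fun s' => ∃ α β : k.K, (act s L).map (k.lin α β) = act s' L ∧
        k.N α ≤ R ∧ k.N β ≤ R ∧ ‖k.io r β‖ ≤ ((l : ℝ) ^ κ)⁻¹) ≤
        C * (f : ℝ) ^ ε * (((l : ℝ) ^ κ)⁻¹ + (f : ℝ)⁻¹)

/-- The chain of sublattices of `ℤ²` cut out by a linear form modulo powers of `l`. -/
def ch (l : ℕ) (φ : Fin 2 → ℤ) (p : ℕ) : Submodule ℤ (Fin 2 → ℤ) where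
  carrier := {x | (l : ℤ) ^ p ∣ φ 0 * x 0 + φ 1 * x 1}
  add_mem' {x y} hx hy := by
    have h : (l : ℤ) ^ p ∣ (φ 0 * x 0 + φ 1 * x 1) + (φ 0 * y 0 + φ 1 * y 1) := dvd_add hx hy
    have e : φ 0 * (x 0 + y 0) + φ 1 * (x 1 + y 1) =
      (φ 0 * x 0 + φ 1 * x 1) + (φ 0 * y 0 + φ 1 * y 1) := by ring
    show (l : ℤ) ^ p ∣ φ 0 * (x 0 + y 0) + φ 1 * (x 1 + y 1)
    rw [e]
    exact h
  zero_mem' := by simp
  smul_mem' c x hx := by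
    have h : (l : ℤ) ^ p ∣ c * (φ 0 * x 0 + φ 1 * x 1) := Dvd.dvd.mul_left hx c
    have e : φ 0 * (c * x 0) + φ 1 * (c * x 1) = c * (φ 0 * x 0 + φ 1 * x 1) := by ring
    show (l : ℤ) ^ p ∣ φ 0 * (c * x 0) + φ 1 * (c * x 1)
    rw [e]
    exact h

/-- The rational matrix `γ` maps `L` onto `L'`. -/
def Onto (γ : Matrix (Fin 2) (Fin 2) ℚ) (L L' : Submodule ℤ (Fin 2 → ℤ)) : Prop :=
  (∀ x ∈ L, ∃ y ∈ L', γ.mulVec (fun i => (x i : ℚ)) = fun i => (y i : ℚ)) ∧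
    ∀ y ∈ L', ∃ x ∈ L, γ.mulVec (fun i => (x i : ℚ)) = fun i => (y i : ℚ)

open Classical in
/-- Paths in the tree which often follow a bounded rational matrix on a fixed sheet. -/
def Follows (l : ℕ) (R ε₁ ε₀ η : ℝ) (m κ : ℕ) (φ : Fin 2 → ℤ) : Prop :=
  (¬ (l : ℤ) ∣ φ 0 ∨ ¬ (l : ℤ) ∣ φ 1) ∧
  (((Finset.range (κ + 1)).filter fun p => ∃ x ∈ ch l φ p, x ≠ 0 ∧
    ((x 0 ^ 2 + x 1 ^ 2 : ℤ) : ℝ) < ε₁ * (l : ℝ) ^ p).card : ℝ) ≤ ε₀ * κ / 100 ∧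
  ∃ (N' e : ℕ) (S₀ : Submodule ℤ (Fin 2 → ℤ)) (I : Finset ℕ), ¬ l ∣ N' ∧
    ((N' * l ^ e : ℕ) : ℝ) ≤ (l : ℝ) ^ (η * κ) ∧ (∀ x : Fin 2 → ℤ, (N' : ℤ) • x ∈ S₀) ∧
    ε₀ * κ ≤ I.card ∧ ∀ p ∈ I, p + m + e ≤ κ ∧ ∃ γ : Matrix (Fin 2) (Fin 2) ℚ,
      (∀ a : ℚ, γ ≠ a • 1) ∧ (∀ i j, ((γ i j : ℚ) : ℝ) ^ 2 ≤ R * (N' * l ^ e : ℕ)) ∧
      |γ.det| = (N' * l ^ e : ℕ) ∧
      ∀ t, p ≤ t → t ≤ p + m → Onto γ (ch l φ t) (S₀ ⊓ ch l φ (t + e))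

/-- Such paths are exponentially rare. -/
def PathStmt : Prop :=
  ∀ l : ℕ, l.Prime → l ≠ 2 → ∀ R ε₁ ε₀ : ℝ, 0 < ε₁ → 0 < ε₀ → ∃ η c : ℝ, 0 < η ∧ 0 < c ∧
    ∃ m κ₀ : ℕ, ∀ κ : ℕ, κ₀ ≤ κ → ∃ T : Finset (Submodule ℤ (Fin 2 → ℤ)),
      (T.card : ℝ) ≤ (l : ℝ) ^ ((1 - c) * κ) ∧
      ∀ φ : Fin 2 → ℤ, Follows l R ε₁ ε₀ η m κ φ → ch l φ κ ∈ T

/-- Exclusion of graph components when there is an isogeny of small degree. -/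
def SmallStmt : Prop :=
  ∀ (k : Fld) (l : ℕ) [Fact l.Prime] (r : ℚ_[l]), k.Root r → ¬ (l : ℤ) ∣ k.D → l ≠ 2 →
    ∀ R η₀ : ℝ, 0 < η₀ → ∃ η : ℝ, 0 < η ∧ ∃ m f₀ : ℕ, ∀ (F : ℕ+) (L₁ L₂ : Submodule ℤ k.K)
      (c₁ c₂ : ℚ) (f : ℕ), ¬ l ∣ F → k.Lat L₁ c₁ → k.Lat L₂ c₂ → k.Adm F L₁ → k.Adm F L₂ →
      k.Nrm l L₁ → k.Nrm l L₂ → k.Cond L₁ f → f₀ ≤ f →
      (∃ α : k.K, α ≠ 0 ∧ α • L₁ ≤ L₂ ∧ k.N α * c₁ ≤ (f : ℝ) ^ η * c₂) →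
      k.pr F (fun s => k.Ev l r 1 R m c₁ c₂ (act s L₁) (act s L₂)) ≤ η₀

/-- Exclusion of graph components when every isogeny has large degree. -/
def LargeStmt : Prop :=
  ∀ (k : Fld) (l : ℕ) [Fact l.Prime] (r : ℚ_[l]), k.Root r → ¬ (l : ℤ) ∣ k.D →
    ∀ R η₀ η : ℝ, 0 < η₀ → 0 < η → ∃ m f₀ : ℕ, ∀ (F : ℕ+) (L₁ L₂ : Submodule ℤ k.K)
      (c₁ c₂ : ℚ) (f : ℕ), ¬ l ∣ F → k.Lat L₁ c₁ → k.Lat L₂ c₂ → k.Adm F L₁ → k.Adm F L₂ →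
      k.Nrm l L₁ → k.Nrm l L₂ → k.Cond L₁ f → f₀ ≤ f →
      (∀ α : k.K, α ≠ 0 → α • L₁ ≤ L₂ → (f : ℝ) ^ η * c₂ < k.N α * c₁) →
      k.pr F (fun s => k.Ev l r 1 R m c₁ c₂ (act s L₁) (act s L₂)) ≤ η₀

/-- Exclusion of graph components. -/
def ExclStmt : Prop :=
  ∀ (k : Fld) (l : ℕ) [Fact l.Prime] (r : ℚ_[l]), k.Root r → ¬ (l : ℤ) ∣ k.D → l ≠ 2 →
    ∀ (Nn : ℕ) (R η₀ : ℝ), 0 < Nn → 0 < η₀ → ∃ m f₀ : ℕ, ∀ (F : ℕ+) (L₁ L₂ : Submodule ℤ k.K)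
      (c₁ c₂ : ℚ) (f : ℕ), ¬ l ∣ F → k.Lat L₁ c₁ → k.Lat L₂ c₂ → k.Adm F L₁ → k.Adm F L₂ →
      k.Nrm l L₁ → k.Nrm l L₂ → k.Cond L₁ f → f₀ ≤ f →
      k.pr F (fun s => k.Ev l r Nn R m c₁ c₂ (act s L₁) (act s L₂)) ≤ η₀

/-- Joint equidistribution of the orbits of `(O / F O)ˣ`. -/
def DynStmt : Prop :=
  ∀ (k : Fld) (w : ℂ), k.Root w → ∀ (l₁ l₂ : ℕ) [Fact l₁.Prime] [Fact l₂.Prime], l₁ ≠ l₂ →
    l₁ ≠ 2 → ¬ (l₁ : ℤ) ∣ k.D → ¬ (l₂ : ℤ) ∣ k.D → (∃ r : ℚ_[l₁], k.Root r) →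
    (∃ r : ℚ_[l₂], k.Root r) →
    ∀ (F : ℕ → ℕ+) (L₁ L₂ : ℕ → Submodule ℤ k.K) (c₁ c₂ : ℕ → ℚ),
      (∀ n, ¬ l₁ ∣ F n ∧ ¬ l₂ ∣ F n) → (∀ n, k.Lat (L₁ n) (c₁ n) ∧ k.Lat (L₂ n) (c₂ n)) →
      (∀ n, k.Adm (F n) (L₁ n) ∧ k.Adm (F n) (L₂ n)) →
      (∀ c : ℕ, 0 < c → ∀ᶠ n in atTop, ¬ k.Adm c (L₁ n) ∧ ¬ k.Adm c (L₂ n)) →
      (∀ B : ℝ, ∀ᶠ n in atTop, ∀ α : k.K, α ≠ 0 → α • L₁ n ≤ L₂ n → B * c₂ n < k.N α * c₁ n) →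
      ∀ φ : ℂ × ℂ →ᵇ ℝ, Tendsto (fun n => k.avg (F n) fun s =>
        φ (CM.jL ((act s (L₁ n)).map (k.ioL w)), CM.jL ((act s (L₂ n)).map (k.ioL w)))) atTop
        (𝓝 (∫ z, φ z ∂(muJ.prod muJ)))

end Pool.Agent.Lib.MP_9177b7_ag.J
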