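import Mathlib
import Pool.Agent.Lib.MP_9177b7_ag.J.DefsA
import Pool.Agent.Lib.MP_30b5ba_nt.Upper

/-!
Packing, representation numbers of the norm form, and a generator of a power of a split prime.
-/

open Set

noncomputable section

namespace Pool.Agent.Lib.MP_9177b7_ag.J

namespace Rep

/-! ### Representation numbers of a positive binary form -/

/-- The principal form. -/
def Q (t n : ℤ) (u : ℤ × ℤ) : ℤ := u.1 ^ 2 + t * u.1 * u.2 + n * u.2 ^ 2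

theorem fiber {t n m : ℤ} (hD : t ^ 2 - 4 * n < 0) (hm : 0 < m) {w : ℤ × ℤ} (hw : Q t n w = m)
    (S : Finset (ℤ × ℤ)) (hS : ∀ u ∈ S, Q t n u = m ∧
      m ∣ (t ^ 2 - 4 * n) * (u.1 * w.2 - u.2 * w.1)) :
    S.card ≤ 2 * (4 * (t ^ 2 - 4 * n).natAbs + 1) := by
  classical
  obtain ⟨D, hDe⟩ : ∃ D, D = t ^ 2 - 4 * n := ⟨_, rfl⟩
  rw [← hDe] at hD hS ⊢
  let s : ℤ × ℤ → ℤ := fun u => 2 * u.1 * w.1 + t * (u.1 * w.2 + u.2 * w.1) + 2 * n * u.2 * w.2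
  let b : ℤ × ℤ → ℤ := fun u => u.1 * w.2 - u.2 * w.1
  have hid : ∀ u ∈ S, s u ^ 2 - D * b u ^ 2 = 4 * m ^ 2 := fun u hu => by
    have h1 : s u ^ 2 - D * b u ^ 2 = 4 * (Q t n u * Q t n w) := by
      simp only [s, b, Q, hDe]; ring
    rw [h1, (hS u hu).1, hw]; ring
  have hcard : (Finset.Icc (-(2 * (D.natAbs : ℤ))) (2 * D.natAbs) ×ˢ
      (Finset.univ : Finset Bool)).card = 2 * (4 * D.natAbs + 1) := by
    rw [Finset.card_product, Int.card_Icc, Finset.card_univ, Fintype.card_bool]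
    omega
  rw [← hcard]
  refine Finset.card_le_card_of_injOn (fun u => (D * b u / m, decide (0 ≤ s u))) ?_ ?_
  · intro u hu
    obtain ⟨e, he⟩ := (hS u hu).2
    have he' : D * b u = m * e := he
    have h1 := hid u hu
    have h2 : b u ^ 2 ≤ 4 * m ^ 2 := by nlinarith [sq_nonneg (s u), sq_nonneg (b u)]
    have h3 : m ^ 2 * e ^ 2 ≤ m ^ 2 * (2 * D) ^ 2 := by
      calc m ^ 2 * e ^ 2 = D ^ 2 * b u ^ 2 := by rw [← mul_pow, ← he', mul_pow]
        _ ≤ D ^ 2 * (4 * m ^ 2) := by gcongr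
        _ = _ := by ring
    have h4 : e ^ 2 ≤ (2 * D) ^ 2 := le_of_mul_le_mul_left h3 (by positivity)
    have h5 := sq_le_sq.1 h4
    simp only [Finset.coe_product, Finset.coe_Icc, Finset.coe_univ, mem_prod, mem_univ, and_true,
      he', Int.mul_ediv_cancel_left _ hm.ne', Int.natCast_natAbs]
    rw [abs_mul, abs_two] at h5
    exact abs_le.1 h5
  · intro u hu v hv huv
    obtain ⟨e, he⟩ := (hS u hu).2
    obtain ⟨e', he'⟩ := (hS v hv).2
    have g1 : D * b u = m * e := he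
    have g2 : D * b v = m * e' := he'
    simp only [g1, g2, Int.mul_ediv_cancel_left _ hm.ne', Prod.mk.injEq, decide_eq_decide] at huv
    have hb : b u = b v := mul_left_cancel₀ hD.ne (by rw [g1, g2, huv.1])
    have hs2 : s u ^ 2 = s v ^ 2 := by
      have := hid u hu
      have := hid v hv
      rw [hb] at *
      linarith
    have hs : s u = s v := by
      rcases sq_eq_sq_iff_eq_or_eq_neg.1 hs2 with h | h
      · exact h
      · have := huv.2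
        omega
    have k1 : ∀ z : ℤ × ℤ, 2 * Q t n w * z.1 = s z * w.1 + b z * (t * w.1 + 2 * n * w.2) :=
      fun z => by simp only [s, b, Q]; ring
    have k2 : ∀ z : ℤ × ℤ, 2 * Q t n w * z.2 = s z * w.2 - b z * (2 * w.1 + t * w.2) :=
      fun z => by simp only [s, b, Q]; ring
    have h0 : 2 * Q t n w ≠ 0 := by rw [hw]; omega
    exact Prod.ext (mul_left_cancel₀ h0 (by rw [k1, k1, hs, hb]))
      (mul_left_cancel₀ h0 (by rw [k2, k2, hs, hb]))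

theorem cop {t n m : ℤ} {u : ℤ × ℤ} (hu : Q t n u = m) (h : IsCoprime u.1 u.2) :
    IsCoprime m u.2 := by
  have h1 : IsCoprime (u.1 ^ 2 + u.2 * (t * u.1 + n * u.2)) u.2 :=
    (h.pow_left (m := 2)).add_mul_left_left _
  rw [← hu]
  rwa [show Q t n u = u.1 ^ 2 + u.2 * (t * u.1 + n * u.2) by unfold Q; ring]

theorem half {t n m g m₁ : ℤ} {w u : ℤ × ℤ} (hw : Q t n w = m) (hu : Q t n u = m) (hg : 0 < g)
    (hm : m = g * m₁) (h : (Int.gcd (u.1 * w.2 - u.2 * w.1) m : ℤ) = g) :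
    g ∣ u.1 * w.2 - u.2 * w.1 ∧ m₁ ∣ u.1 * w.2 + u.2 * w.1 + t * u.2 * w.2 := by
  have h1 : g ∣ u.1 * w.2 - u.2 * w.1 := h ▸ Int.gcd_dvd_left _ _
  refine ⟨h1, ?_⟩
  obtain ⟨A, hA⟩ := h1
  have hc : IsCoprime m₁ A := by
    rw [hA, hm, Int.gcd_mul_left] at h
    push_cast at h
    rw [abs_of_pos hg] at h
    have : (Int.gcd A m₁ : ℤ) = 1 := mul_left_cancel₀ hg.ne' (by rw [h, mul_one])
    exact (Int.isCoprime_iff_gcd_eq_one.2 (by exact_mod_cast this)).symm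
  have e : (u.1 * w.2 - u.2 * w.1) * (u.1 * w.2 + u.2 * w.1 + t * u.2 * w.2) =
      Q t n u * w.2 ^ 2 - Q t n w * u.2 ^ 2 := by unfold Q; ring
  rw [hA, hu, hw, hm] at e
  refine hc.dvd_of_dvd_mul_left ⟨w.2 ^ 2 - u.2 ^ 2, mul_left_cancel₀ hg.ne' ?_⟩
  linear_combination e

theorem key {t n m : ℤ} (hm : 0 < m) {w u v : ℤ × ℤ} (hw : Q t n w = m) (hu : Q t n u = m)
    (hv : Q t n v = m) (cw : IsCoprime w.1 w.2) (cu : IsCoprime u.1 u.2)
    (h : Int.gcd (u.1 * w.2 - u.2 * w.1) m = Int.gcd (v.1 * w.2 - v.2 * w.1) m) :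
    m ∣ (t ^ 2 - 4 * n) * (v.1 * u.2 - v.2 * u.1) := by
  obtain ⟨g, hg⟩ : ∃ g : ℤ, (Int.gcd (u.1 * w.2 - u.2 * w.1) m : ℤ) = g := ⟨_, rfl⟩
  have hg0 : 0 < g := by rw [← hg]; exact_mod_cast Int.gcd_pos_of_ne_zero_right _ hm.ne'
  obtain ⟨m₁, hm₁⟩ : g ∣ m := hg ▸ Int.gcd_dvd_right _ _
  obtain ⟨a1, b1⟩ := half hw hu hg0 hm₁ hg
  obtain ⟨a2, b2⟩ := half hw hv hg0 hm₁ (h ▸ hg)
  have c0 := cop hw cw
  have c1 := cop hu cu
  have cg : IsCoprime g w.2 := c0.of_isCoprime_of_dvd_left ⟨m₁, hm₁⟩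
  have cm : IsCoprime m₁ w.2 := c0.of_isCoprime_of_dvd_left ⟨g, by rw [hm₁, mul_comm]⟩
  have d1 : g ∣ v.1 * u.2 - v.2 * u.1 := by
    refine cg.dvd_of_dvd_mul_left ?_
    rw [show w.2 * (v.1 * u.2 - v.2 * u.1) =
      u.2 * (v.1 * w.2 - v.2 * w.1) - v.2 * (u.1 * w.2 - u.2 * w.1) by ring]
    exact dvd_sub (a2.mul_left _) (a1.mul_left _)
  have d2 : m₁ ∣ v.1 * u.2 - v.2 * u.1 := by
    refine cm.dvd_of_dvd_mul_left ?_
    rw [show w.2 * (v.1 * u.2 - v.2 * u.1) =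
      u.2 * (v.1 * w.2 + v.2 * w.1 + t * v.2 * w.2) -
        v.2 * (u.1 * w.2 + u.2 * w.1 + t * u.2 * w.2) by ring]
    exact dvd_sub (b2.mul_left _) (b1.mul_left _)
  obtain ⟨k, hk⟩ : ∃ k : ℤ, (Int.gcd g m₁ : ℤ) = k := ⟨_, rfl⟩
  have k1 : k ∣ g := hk ▸ Int.gcd_dvd_left _ _
  have k2 : k ∣ m₁ := hk ▸ Int.gcd_dvd_right _ _
  have km : k ∣ m := k1.trans ⟨m₁, hm₁⟩
  have k3 : k ∣ 2 * w.1 + t * w.2 := by
    refine (c1.of_isCoprime_of_dvd_left km).dvd_of_dvd_mul_left ?_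
    rw [show u.2 * (2 * w.1 + t * w.2) =
      (u.1 * w.2 + u.2 * w.1 + t * u.2 * w.2) - (u.1 * w.2 - u.2 * w.1) by ring]
    exact dvd_sub (k2.trans b1) (k1.trans a1)
  have k4 : k ∣ t ^ 2 - 4 * n := by
    have k5 : k ^ 2 ∣ w.2 ^ 2 * (t ^ 2 - 4 * n) := by
      rw [show w.2 ^ 2 * (t ^ 2 - 4 * n) = (2 * w.1 + t * w.2) ^ 2 - 4 * Q t n w by unfold Q; ring,
        hw, hm₁]
      exact dvd_sub (pow_dvd_pow_of_dvd k3 2) ((sq k ▸ mul_dvd_mul k1 k2).mul_left _)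
    exact (dvd_pow_self k two_ne_zero).trans
      (((c0.of_isCoprime_of_dvd_left km).pow (m := 2) (n := 2)).dvd_of_dvd_mul_left k5)
  refine dvd_trans ?_ (mul_dvd_mul_right k4 _)
  rw [← hk, Int.gcd_eq_gcd_ab, add_mul, hm₁]
  refine dvd_add ?_ ?_
  · rw [mul_assoc]; exact mul_dvd_mul_left g (d2.mul_left _)
  · rw [mul_assoc, mul_comm g]; exact mul_dvd_mul_left m₁ (d1.mul_left _)

theorem prim {t n : ℤ} (hD : t ^ 2 - 4 * n < 0) {m : ℕ} (hm : 0 < m) (S : Finset (ℤ × ℤ))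
    (hS : ∀ u ∈ S, Q t n u = m ∧ IsCoprime u.1 u.2) :
    S.card ≤ 2 * (4 * (t ^ 2 - 4 * n).natAbs + 1) * m.divisors.card := by
  classical
  have hm' : (0 : ℤ) < m := by exact_mod_cast hm
  rcases S.eq_empty_or_nonempty with rfl | ⟨w, hw⟩
  · simp
  refine Finset.card_le_mul_card_image_of_maps_to
    (f := fun u : ℤ × ℤ => Int.gcd (u.1 * w.2 - u.2 * w.1) m) (fun u _ => ?_) _ fun g _ => ?_
  · exact Nat.mem_divisors.2 ⟨by exact_mod_cast Int.gcd_dvd_right (u.1 * w.2 - u.2 * w.1) m, hm.ne'⟩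
  · rcases (S.filter fun u : ℤ × ℤ => Int.gcd (u.1 * w.2 - u.2 * w.1) m = g).eq_empty_or_nonempty
      with h | ⟨u, hu⟩
    · rw [h]; simp
    rw [Finset.mem_filter] at hu
    refine fiber hD hm' (hS u hu.1).1 _ fun v hv => ?_
    rw [Finset.mem_filter] at hv
    exact ⟨(hS v hv.1).1, key hm' (hS w hw).1 (hS u hu.1).1 (hS v hv.1).1 (hS w hw).2
      (hS u hu.1).2 (hu.2.trans hv.2.symm)⟩

theorem all {t n : ℤ} (hD : t ^ 2 - 4 * n < 0) {m T : ℕ} (hm : 0 < m)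
    (hT : ∀ k ≤ m, k.divisors.card ≤ T) (S : Finset (ℤ × ℤ)) (hS : ∀ u ∈ S, Q t n u = m) :
    S.card ≤ 2 * (4 * (t ^ 2 - 4 * n).natAbs + 1) * T * T := by
  classical
  have hsq : ∀ u ∈ S, Int.gcd u.1 u.2 ^ 2 ∣ m := fun u hu => by
    obtain ⟨a, ha⟩ := Int.gcd_dvd_left u.1 u.2
    obtain ⟨b, hb⟩ := Int.gcd_dvd_right u.1 u.2
    have : ((Int.gcd u.1 u.2 : ℕ) : ℤ) ^ 2 ∣ m := ⟨Q t n (a, b), by
      rw [← hS u hu]
      generalize ((Int.gcd u.1 u.2 : ℕ) : ℤ) = g at ha hb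
      simp only [Q, ha, hb]; ring⟩
    exact_mod_cast this
  refine le_trans (Finset.card_le_mul_card_image_of_maps_to (t := m.divisors)
    (f := fun u : ℤ × ℤ => Int.gcd u.1 u.2) (fun u hu => ?_) _ fun g hg => ?_)
    (Nat.mul_le_mul_left _ (hT m le_rfl))
  · exact Nat.mem_divisors.2 ⟨(dvd_pow_self _ two_ne_zero).trans (hsq u hu), hm.ne'⟩
  · have hg0 : 0 < g := Nat.pos_of_mem_divisors hg
    have hg1 : (g : ℤ) ≠ 0 := by exact_mod_cast hg0.ne'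
    rcases (S.filter fun u : ℤ × ℤ => Int.gcd u.1 u.2 = g).eq_empty_or_nonempty
      with h | ⟨u, hu⟩
    · rw [h]; simp
    rw [Finset.mem_filter] at hu
    obtain ⟨m', hm'⟩ := hu.2 ▸ hsq u hu.1
    have hm0 : 0 < m' := Nat.pos_of_ne_zero fun h => by rw [h] at hm'; omega
    have hle : m' ≤ m := Nat.le_of_dvd hm ⟨g ^ 2, by rw [hm', mul_comm]⟩
    have hdiv : ∀ v ∈ S.filter fun u : ℤ × ℤ => Int.gcd u.1 u.2 = g,
        v.1 = g * (v.1 / g) ∧ v.2 = g * (v.2 / g) := fun v hv => by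
      rw [Finset.mem_filter] at hv
      exact ⟨(Int.mul_ediv_cancel' (hv.2 ▸ Int.gcd_dvd_left v.1 v.2)).symm,
        (Int.mul_ediv_cancel' (hv.2 ▸ Int.gcd_dvd_right v.1 v.2)).symm⟩
    rw [← Finset.card_image_of_injOn (f := fun v : ℤ × ℤ => (v.1 / g, v.2 / g))]
    · refine (prim hD hm0 _ fun z hz => ?_).trans (Nat.mul_le_mul_left _ (hT m' hle))
      obtain ⟨v, hv, rfl⟩ := Finset.mem_image.1 hz
      obtain ⟨h1, h2⟩ := hdiv v hv
      rw [Finset.mem_filter] at hv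
      refine ⟨mul_left_cancel₀ (pow_ne_zero 2 hg1) ?_, ?_⟩
      · have h3 : (m : ℤ) = g ^ 2 * m' := by exact_mod_cast hm'
        rw [← h3, ← hS v hv.1]
        generalize v.1 / g = a at h1 ⊢
        generalize v.2 / g = b at h2 ⊢
        simp only [Q, h1, h2]; ring
      · have := Int.gcd_div_gcd_div_gcd (i := v.1) (j := v.2) (hv.2 ▸ hg0)
        rw [hv.2] at this
        exact Int.isCoprime_iff_gcd_eq_one.2 this
    · intro v hv z hz h
      obtain ⟨h1, h2⟩ := hdiv v hv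
      obtain ⟨h3, h4⟩ := hdiv z hz
      simp only [Prod.mk.injEq] at h
      exact Prod.ext (by rw [h1, h3, h.1]) (by rw [h2, h4, h.2])

/-! ### The field -/

open QuadraticAlgebra

variable (k : Fld)

/-- The element of the maximal order with given coordinates. -/
def el (u : ℤ × ℤ) : k.K := ⟨u.1, u.2⟩

theorem mem_O {x : k.K} : x ∈ k.O ↔ ∃ u, x = el k u := by
  unfold Fld.O
  rw [Submodule.mem_span_pair]
  constructor
  · rintro ⟨a, b, rfl⟩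
    exact ⟨(a, b), by ext <;> simp [el, Fld.om]⟩
  · rintro ⟨u, rfl⟩
    exact ⟨u.1, u.2, by ext <;> simp [el, Fld.om]⟩

theorem norm_eq (x : k.K) :
    QuadraticAlgebra.norm x = x.re ^ 2 + k.t * x.re * x.im + k.n * x.im ^ 2 := by
  rw [norm_def]; ring

theorem norm_el (u : ℤ × ℤ) : QuadraticAlgebra.norm (el k u) = (Q k.t k.n u : ℤ) := by
  rw [norm_eq]; simp [el, Q]

theorem negD : (1 : ℝ) ≤ -(k.D : ℝ) := by
  have : 1 ≤ -k.D := by have := k.neg; unfold Fld.D; omega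
  exact_mod_cast this

theorem four_N (x : k.K) :
    4 * k.N x = (2 * (x.re : ℝ) + k.t * x.im) ^ 2 + (√(-(k.D : ℝ)) * x.im) ^ 2 := by
  rw [mul_pow, Real.sq_sqrt (by linarith [negD k]), Fld.N, norm_eq, Fld.D]
  push_cast; ring

theorem N_nonneg (x : k.K) : 0 ≤ k.N x := by
  have := four_N k x
  nlinarith [sq_nonneg (2 * (x.re : ℝ) + k.t * x.im), sq_nonneg (√(-(k.D : ℝ)) * x.im)]

theorem norm_nonneg' (x : k.K) : 0 ≤ QuadraticAlgebra.norm x := by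
  have := N_nonneg k x
  unfold Fld.N at this
  exact_mod_cast this

theorem norm_pos' {x : k.K} (hx : x ≠ 0) : 0 < QuadraticAlgebra.norm x :=
  (norm_nonneg' k x).lt_of_ne fun h => hx (norm_eq_zero_iff_eq_zero.1 h.symm)

theorem floor_mem {a s : ℝ} (h : a ^ 2 ≤ (2 * s) ^ 2) (hs : 0 ≤ s) :
    ⌊a⌋ ∈ Finset.Icc (-((⌊2 * s⌋₊ : ℤ) + 1)) ⌊2 * s⌋₊ := by
  obtain ⟨h1, h2⟩ := abs_le_of_sq_le_sq' h (by positivity)
  have h3 := Nat.lt_floor_add_one (2 * s)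
  rw [Finset.mem_Icc, Int.le_floor, Int.floor_le_iff]
  push_cast
  constructor <;> linarith

theorem pack (L : Submodule ℤ k.K) (m X : ℝ) (hm : 0 < m) (hX : 0 ≤ X)
    (h : ∀ v ∈ L, v ≠ 0 → m ≤ k.N v) : {v | v ∈ L ∧ v ≠ 0 ∧ k.N v ≤ X}.Finite ∧
      ({v | v ∈ L ∧ v ≠ 0 ∧ k.N v ≤ X}.ncard : ℝ) ≤ 36 * X / m := by
  rcases lt_or_ge X m with hlt | hle
  · have : {v | v ∈ L ∧ v ≠ 0 ∧ k.N v ≤ X} = ∅ :=
      eq_empty_of_forall_notMem fun v hv => by linarith [h v hv.1 hv.2.1, hv.2.2]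
    rw [this]
    exact ⟨finite_empty, by simp; positivity⟩
  have h0 : 0 < √m := Real.sqrt_pos.2 hm
  have hq : √m ^ 2 = m := Real.sq_sqrt hm.le
  obtain ⟨s, hs⟩ : ∃ s, s = √(X / m) := ⟨_, rfl⟩
  have hs2 : s ^ 2 = X / m := by rw [hs, Real.sq_sqrt (by positivity)]
  have hs1 : 1 ≤ s := by rw [hs]; exact Real.one_le_sqrt.2 ((one_le_div hm).2 hle)
  let a : k.K → ℝ := fun x => (2 * (x.re : ℝ) + k.t * x.im) / √m
  let b : k.K → ℝ := fun x => (√(-(k.D : ℝ)) * x.im) / √m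
  have hab : ∀ x, a x ^ 2 + b x ^ 2 = 4 * k.N x / m := fun x => by
    simp only [a, b, div_pow, hq, four_N]
    ring
  have hsub : ∀ x y, a (x - y) = a x - a y ∧ b (x - y) = b x - b y := fun x y => by
    simp only [a, b, re_sub, im_sub]
    push_cast
    constructor <;> ring
  let I := Finset.Icc (-((⌊2 * s⌋₊ : ℤ) + 1)) ⌊2 * s⌋₊
  have hmap : MapsTo (fun x => (⌊a x⌋, ⌊b x⌋)) {v | v ∈ L ∧ v ≠ 0 ∧ k.N v ≤ X}
      ((I ×ˢ I : Finset (ℤ × ℤ)) : Set (ℤ × ℤ)) := fun v hv => by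
    have h1 : a v ^ 2 + b v ^ 2 ≤ (2 * s) ^ 2 := by
      rw [hab, mul_pow, hs2, mul_div_assoc]
      have := hv.2.2
      norm_num
      gcongr
    exact Finset.mem_coe.2 (Finset.mem_product.2
      ⟨floor_mem (by nlinarith [sq_nonneg (b v)]) (by linarith),
        floor_mem (by nlinarith [sq_nonneg (a v)]) (by linarith)⟩)
  have hinj : InjOn (fun x => (⌊a x⌋, ⌊b x⌋)) {v | v ∈ L ∧ v ≠ 0 ∧ k.N v ≤ X} := by
    intro x hx y hy hxy
    simp only [Prod.mk.injEq] at hxy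
    by_contra hne
    have h1 := h (x - y) (L.sub_mem hx.1 hy.1) (sub_ne_zero.2 hne)
    have h2 := abs_lt.1 (Int.abs_sub_lt_one_of_floor_eq_floor hxy.1)
    have h3 := abs_lt.1 (Int.abs_sub_lt_one_of_floor_eq_floor hxy.2)
    have h4 := hab (x - y)
    rw [(hsub x y).1, (hsub x y).2] at h4
    have h5 : 4 ≤ 4 * k.N (x - y) / m := by rw [le_div_iff₀ hm]; linarith
    nlinarith
  refine ⟨Finite.of_injOn hmap hinj (Finset.finite_toSet _), ?_⟩
  have h1 := ncard_le_ncard_of_injOn _ hmap hinj (Finset.finite_toSet _)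
  rw [ncard_coe_finset, Finset.card_product] at h1
  have h2 : I.card = 2 * ⌊2 * s⌋₊ + 2 := by
    simp only [I, Int.card_Icc]; omega
  have h3 : (I.card : ℝ) ≤ 6 * s := by
    rw [h2]; push_cast
    linarith [Nat.floor_le (show 0 ≤ 2 * s by linarith)]
  calc ({v | v ∈ L ∧ v ≠ 0 ∧ k.N v ≤ X}.ncard : ℝ) ≤ I.card * I.card := by exact_mod_cast h1
    _ ≤ 6 * s * (6 * s) := by gcongr
    _ = 36 * X / m := by rw [mul_div_assoc, ← hs2]; ring

theorem lat_O : k.Lat k.O 1 := ⟨1, k.om, rfl, by simp [Fld.det2, Fld.om], one_pos⟩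

theorem mul_mem {A : Submodule ℤ k.K} (hA : k.Adm 1 A) {x u : k.K} (hx : x ∈ A) (hu : u ∈ k.O) :
    x * u ∈ A := by
  obtain ⟨a, b, rfl⟩ := Submodule.mem_span_pair.1 hu
  have h := hA x hx
  rw [Nat.cast_one, one_mul, mul_comm] at h
  rw [mul_add, mul_smul_comm, mul_smul_comm, mul_one]
  exact A.add_mem (A.smul_mem _ hx) (A.smul_mem _ h)

theorem index (hB : BasicStmt) {A : Submodule ℤ k.K} {c : ℚ} (hL : k.Lat A c) (hA : k.Adm 1 A)
    {x : k.K} (hx : x ∈ A) (h0 : x ≠ 0) : ∃ j : ℕ, 0 < j ∧ QuadraticAlgebra.norm x = j * c ∧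
      ∀ v ∈ A, ∃ u, (j : k.K) * v = x * el k u := by
  obtain ⟨-, -, b3, b4, -⟩ := hB k
  have hp := norm_pos' k h0
  have h1 := b3 k.O 1 x 0 (lat_O k) (by
    simp only [Fld.N, QuadraticAlgebra.norm_zero, Rat.cast_zero, ne_eq, Rat.cast_eq_zero]; exact hp.ne')
  rw [QuadraticAlgebra.norm_zero, sub_zero, mul_one, abs_of_pos hp] at h1
  obtain ⟨j, hj, he, hm, -⟩ := b4 _ _ _ _ h1 hL (by
    rintro _ ⟨u, hu, rfl⟩
    simpa [Fld.lin] using mul_mem k hA hx hu)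
  refine ⟨j, hj, he, fun v hv => ?_⟩
  obtain ⟨u, hu, h⟩ := hm v hv
  obtain ⟨w, rfl⟩ := (mem_O k).1 hu
  exact ⟨w, by simpa [Fld.lin] using h.symm⟩

theorem short (hB : BasicStmt) {A : Submodule ℤ k.K} {c : ℚ} (hL : k.Lat A c) :
    ∃ x ∈ A, x ≠ 0 ∧ (∀ v ∈ A, v ≠ 0 → k.N x ≤ k.N v) ∧
      QuadraticAlgebra.norm x ^ 2 ≤ k.D.natAbs * c ^ 2 := by
  obtain ⟨-, -, -, -, -, b6, -⟩ := hB k
  obtain ⟨x, y, hA, hd, h1, h2, h3⟩ := b6 A c hL
  obtain ⟨-, -, -, -, hc⟩ := hL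
  refine ⟨x, hA ▸ Submodule.subset_span (by simp), ?_, h1, ?_⟩
  · rintro rfl
    simp [Fld.det2] at hd
    exact hc.ne hd
  · have h4 : k.N x ^ 2 ≤ |(k.D : ℝ)| * (c : ℝ) ^ 2 := by
      nlinarith [N_nonneg k x]
    unfold Fld.N at h4
    rw [Nat.cast_natAbs]
    exact_mod_cast h4

theorem count (hB : BasicStmt) {ε : ℝ} (hε : 0 < ε) : ∃ C : ℝ, ∀ (A : Submodule ℤ k.K) (c : ℚ)
    (j : ℕ), k.Lat A c → k.Adm 1 A → 0 < j →
      {v | v ∈ A ∧ QuadraticAlgebra.norm v = j * c}.Finite ∧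
        ({v | v ∈ A ∧ QuadraticAlgebra.norm v = j * c}.ncard : ℝ) ≤ C * (j : ℝ) ^ ε := by
  classical
  obtain ⟨C, hC0, hC⟩ := Pool.Agent.Lib.MP_30b5ba_nt.exists_divisor_bound (half_pos hε)
  have hD : 0 < k.D.natAbs := Int.natAbs_pos.2 k.neg.ne
  refine ⟨2 * (4 * k.D.natAbs + 1) * C ^ 2 * (k.D.natAbs : ℝ) ^ ε, fun A c j hL hA hj => ?_⟩
  obtain ⟨x, hx, h0, hmin, hsq⟩ := short k hB hL
  obtain ⟨a, ha, he, hv⟩ := index k hB hL hA hx h0
  have hc : 0 < c := by obtain ⟨-, -, -, -, hc⟩ := hL; exact hc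
  have hjc : 0 < (j : ℚ) * c := by positivity
  have hfin : {v | v ∈ A ∧ QuadraticAlgebra.norm v = j * c}.Finite := by
    refine (pack k A (k.N x) ((j * c : ℚ) : ℝ) ?_ (by exact_mod_cast hjc.le) hmin).1.subset ?_
    · unfold Fld.N; exact_mod_cast norm_pos' k h0
    · rintro v ⟨h1, h2⟩
      refine ⟨h1, ?_, by rw [Fld.N, h2]⟩
      rintro rfl
      rw [QuadraticAlgebra.norm_zero] at h2
      exact hjc.ne h2
  refine ⟨hfin, ?_⟩
  have haD : a ≤ k.D.natAbs := by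
    rw [he, mul_pow] at hsq
    have h1 : a ^ 2 ≤ k.D.natAbs := by exact_mod_cast le_of_mul_le_mul_right hsq (by positivity)
    nlinarith
  obtain ⟨T, hT, hT'⟩ := hC (k.D.natAbs * j) (Nat.mul_pos hD hj)
  choose! φ hφ using hv
  have ha' : (a : k.K) ≠ 0 := by exact_mod_cast ha.ne'
  have hinj : InjOn φ hfin.toFinset := fun v hv w hw h => by
    rw [Finite.coe_toFinset] at hv hw
    exact mul_left_cancel₀ ha' (by rw [hφ v hv.1, hφ w hw.1, h])
  have h1 := all k.neg (Nat.mul_pos ha hj) (T := T) (fun i hi => hT i (by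
    have := Nat.mul_pos hD hj
    have := Nat.mul_le_mul_right j haD
    nlinarith)) (hfin.toFinset.image φ) fun u hu => by
    obtain ⟨v, hv, rfl⟩ := Finset.mem_image.1 hu
    rw [Finite.mem_toFinset] at hv
    have h2 := congrArg QuadraticAlgebra.norm (hφ v hv.1)
    rw [map_mul, map_mul, QuadraticAlgebra.norm_natCast, hv.2, he, norm_el] at h2
    have h3 : ((Q k.t k.n (φ v) : ℤ) : ℚ) = a * j :=
      mul_left_cancel₀ (show (a : ℚ) * c ≠ 0 by positivity) (by rw [← h2]; ring)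
    exact_mod_cast h3
  rw [Finset.card_image_of_injOn hinj, ← ncard_eq_toFinset_card _ hfin] at h1
  have e : ((k.D.natAbs * j : ℕ) : ℝ) ^ (ε / 2) * ((k.D.natAbs * j : ℕ) : ℝ) ^ (ε / 2) =
      (k.D.natAbs : ℝ) ^ ε * (j : ℝ) ^ ε := by
    rw [← Real.rpow_add' (by positivity) (by linarith), add_halves, Nat.cast_mul,
      Real.mul_rpow (by positivity) (by positivity)]
  calc ({v | v ∈ A ∧ QuadraticAlgebra.norm v = j * c}.ncard : ℝ)
      ≤ 2 * (4 * k.D.natAbs + 1) * T * T := by exact_mod_cast h1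
    _ ≤ 2 * (4 * k.D.natAbs + 1) * (C * ((k.D.natAbs * j : ℕ) : ℝ) ^ (ε / 2)) *
        (C * ((k.D.natAbs * j : ℕ) : ℝ) ^ (ε / 2)) := by gcongr
    _ = 2 * (4 * k.D.natAbs + 1) * C ^ 2 * (((k.D.natAbs * j : ℕ) : ℝ) ^ (ε / 2) *
        ((k.D.natAbs * j : ℕ) : ℝ) ^ (ε / 2)) := by ring
    _ = _ := by rw [e]; ring

/-! ### Split primes -/

section Pi

variable {k} {l : ℕ} [Fact l.Prime] {r : ℚ_[l]}

theorem root_conj (h : k.Root r) : k.Root ((k.t : ℚ_[l]) - r) := by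
  unfold Fld.Root at *
  linear_combination h

theorem root_le (h : k.Root r) : ‖r‖ ≤ 1 := by
  by_contra hc
  rw [not_le] at hc
  have h1 : ‖r‖ ^ 2 ≤ max ‖(k.t : ℚ_[l]) * r‖ ‖-(k.n : ℚ_[l])‖ := by
    rw [← norm_pow, h, sub_eq_add_neg]
    exact Padic.nonarchimedean _ _
  rw [norm_mul, _root_.norm_neg] at h1
  have h2 := Padic.norm_int_le_one (p := l) k.t
  have h3 := Padic.norm_int_le_one (p := l) k.n
  rcases le_max_iff.1 h1 with h4 | h4 <;> nlinarith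

theorem int_norm_one {z : ℤ} (h : ¬ (l : ℤ) ∣ z) : ‖(z : ℚ_[l])‖ = 1 :=
  le_antisymm (Padic.norm_int_le_one z) (not_lt.1 fun h' => h (Padic.norm_intCast_lt_one_iff.1 h'))

theorem root_diff (h : k.Root r) (hD : ¬ (l : ℤ) ∣ k.D) : ‖(k.t : ℚ_[l]) - r - r‖ = 1 := by
  have h1 : ((k.t : ℚ_[l]) - r - r) ^ 2 = (k.D : ℚ_[l]) := by
    unfold Fld.Root at h
    unfold Fld.D
    push_cast
    linear_combination 4 * h
  have h2 := congrArg (fun z => ‖z‖) h1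
  simp only [norm_pow, int_norm_one hD] at h2
  exact (pow_eq_one_iff_of_nonneg (norm_nonneg _) two_ne_zero).1 h2

theorem io_el (s : ℚ_[l]) (u : ℤ × ℤ) : k.io s (el k u) = u.1 + u.2 * s := by simp [Fld.io, el]

theorem lin_le {s : ℚ_[l]} {c : ℝ} {z w : ℚ_[l]} (hz : ‖z‖ ≤ c) (hw : ‖w‖ ≤ c) (hs : ‖s‖ ≤ 1) :
    ‖z + s * w‖ ≤ c := by
  refine (Padic.nonarchimedean _ _).trans (max_le hz ?_)
  rw [norm_mul]
  nlinarith [norm_nonneg s, norm_nonneg w]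

theorem el_le (h : k.Root r) (u : ℤ × ℤ) : ‖k.io r (el k u)‖ ≤ 1 := by
  rw [io_el]
  exact lin_le (Padic.norm_int_le_one _) (root_le h) (Padic.norm_int_le_one _)

theorem io_prod (h : k.Root r) (u : ℤ × ℤ) :
    k.io r (el k u) * k.io ((k.t : ℚ_[l]) - r) (el k u) = (Q k.t k.n u : ℤ) := by
  unfold Fld.Root at h
  rw [io_el, io_el, Q]
  push_cast
  linear_combination (-(u.2 : ℚ_[l]) ^ 2) * h

theorem norm_lpow (j : ℕ) : ‖(((l : ℤ) ^ j : ℤ) : ℚ_[l])‖ = ((l : ℝ) ^ j)⁻¹ := by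
  push_cast
  rw [norm_pow, Padic.norm_p, inv_pow]

/-- Short elements in the powers of the prime. -/
theorem exists_short (hB : BasicStmt) (h : k.Root r) (j : ℕ) : ∃ (u : ℤ × ℤ) (a : ℕ), 0 < a ∧
    a ^ 2 ≤ k.D.natAbs ∧ Q k.t k.n u = a * l ^ j ∧ ‖k.io r (el k u)‖ ≤ ((l : ℝ) ^ j)⁻¹ := by
  have hl : 0 < l := (Fact.out : l.Prime).pos
  obtain ⟨ρ, hρ⟩ : ∃ ρ : ℤ, ‖r - ρ‖ ≤ ((l : ℝ) ^ j)⁻¹ := by
    have h1 := (PadicInt.norm_le_pow_iff_mem_span_pow _ j).2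
      (PadicInt.appr_spec j (⟨r, root_le h⟩ : ℤ_[l]))
    refine ⟨PadicInt.appr (⟨r, root_le h⟩ : ℤ_[l]) j, ?_⟩
    rw [zpow_neg, zpow_natCast] at h1
    simpa [PadicInt.norm_def] using h1
  have hL : k.Lat (Submodule.span ℤ {el k ((l : ℤ) ^ j, 0), el k (-ρ, 1)}) ((l : ℚ) ^ j) :=
    ⟨_, _, rfl, by simp [Fld.det2, el], by positivity⟩
  obtain ⟨x, hx, h0, -, hsq⟩ := short k hB hL
  obtain ⟨a, b, rfl⟩ := Submodule.mem_span_pair.1 hx
  have e : a • el k ((l : ℤ) ^ j, 0) + b • el k (-ρ, 1) = el k (a * l ^ j - b * ρ, b) := by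
    ext <;> simp [el, sub_eq_add_neg]
  rw [e] at h0 hsq
  have h1 : ‖k.io r (el k (a * l ^ j - b * ρ, b))‖ ≤ ((l : ℝ) ^ j)⁻¹ := by
    have : k.io r (el k (a * l ^ j - b * ρ, b)) =
        (0 + a * (((l : ℤ) ^ j : ℤ) : ℚ_[l])) + b * (r - ρ) := by
      rw [io_el]; push_cast; ring
    rw [this]
    exact lin_le (lin_le (by simp) (norm_lpow j).le (Padic.norm_int_le_one _)) hρ
      (Padic.norm_int_le_one _)
  generalize (a * l ^ j - b * ρ, b) = u at h0 hsq h1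
  have h2 : (l : ℤ) ^ j ∣ Q k.t k.n u := by
    rw [← Padic.norm_int_le_pow_iff_dvd, ← io_prod h, norm_mul, zpow_neg, zpow_natCast]
    exact (mul_le_of_le_one_right (norm_nonneg _) (el_le (root_conj h) u)).trans h1
  obtain ⟨c, hc⟩ := h2
  have h3 := norm_pos' k h0
  rw [norm_el] at h3 hsq
  have h4 : 0 < c := by
    have h5 : 0 < Q k.t k.n u := by exact_mod_cast h3
    rw [hc] at h5
    exact pos_of_mul_pos_left (mul_comm _ c ▸ h5) (by positivity)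
  lift c to ℕ using h4.le
  refine ⟨u, c, by exact_mod_cast h4, ?_, by rw [hc, mul_comm], h1⟩
  rw [hc] at hsq
  push_cast at hsq
  rw [mul_pow, mul_comm] at hsq
  exact_mod_cast le_of_mul_le_mul_right hsq (by positivity)

/-- An element whose norm is a power of `l` and which is not a power of `l` times a unit. -/
theorem exists_skew (hB : BasicStmt) (h : k.Root r) : ∃ (u : ℤ × ℤ) (j : ℕ),
    Q k.t k.n u = l ^ j ∧ ‖k.io r (el k u)‖ < ‖k.io ((k.t : ℚ_[l]) - r) (el k u)‖ := by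
  have hl : 1 < l := (Fact.out : l.Prime).one_lt
  have hl' : (1 : ℝ) < l := by exact_mod_cast hl
  choose u a ha0 haD hQ hn using fun i : ℕ => exists_short hB h (k.D.natAbs * i)
  have hfin : ((Iic k.D.natAbs) ×ˢ (Icc (0 : ℤ) k.D.natAbs) ×ˢ (Icc (0 : ℤ) k.D.natAbs)).Finite :=
    (finite_Iic _).prod ((finite_Icc _ _).prod (finite_Icc _ _))
  obtain ⟨i, j, hij, he⟩ := hfin.exists_lt_map_eq_of_forall_mem
    (f := fun i : ℕ => (a i, (u i).1 % a i, (u i).2 % a i)) fun i => by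
      have h1 : a i ≤ k.D.natAbs := by nlinarith [haD i, ha0 i]
      have h2 : (0 : ℤ) < a i := by exact_mod_cast ha0 i
      have h3 : (a i : ℤ) ≤ k.D.natAbs := by exact_mod_cast h1
      exact ⟨h1, ⟨Int.emod_nonneg _ h2.ne', (Int.emod_lt_of_pos _ h2).le.trans h3⟩,
        ⟨Int.emod_nonneg _ h2.ne', (Int.emod_lt_of_pos _ h2).le.trans h3⟩⟩
  simp only [Prod.mk.injEq] at he
  obtain ⟨e0, e1, e2⟩ := he
  rw [← e0] at e1 e2
  obtain ⟨x, hx⟩ := Int.ModEq.dvd e1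
  obtain ⟨y, hy⟩ := Int.ModEq.dvd e2
  have q1 := hQ i
  have q2 := hQ j
  rw [← e0] at q2
  have n2 := hn j
  have a0 := ha0 i
  have aD := haD i
  have hgap : k.D.natAbs * i + k.D.natAbs ≤ k.D.natAbs * j := by nlinarith
  clear e0 e1 e2
  generalize k.D.natAbs * i = I at q1 hgap
  generalize k.D.natAbs * j = J at q2 n2 hgap
  generalize a i = c at q1 q2 a0 aD hx hy
  generalize u i = v at q1 hx hy
  generalize u j = w at q2 n2 hx hy
  have hc : (c : ℤ) ≠ 0 := by exact_mod_cast a0.ne'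
  have w1 : w.1 = v.1 + c * x := by linarith
  have w2 : w.2 = v.2 + c * y := by linarith
  let p : ℤ × ℤ := (l ^ I + x * v.1 + k.t * x * v.2 + k.n * y * v.2, y * v.1 - x * v.2)
  have p1 : c * p.1 = w.1 * v.1 + k.t * w.1 * v.2 + k.n * w.2 * v.2 := by
    simp only [p, w1, w2]
    unfold Q at q1
    linear_combination -q1
  have p2 : c * p.2 = w.2 * v.1 - w.1 * v.2 := by
    simp only [p, w1, w2]; ring
  have hp : Q k.t k.n p = l ^ (I + J) := by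
    refine mul_left_cancel₀ (pow_ne_zero 2 hc) ?_
    calc (c : ℤ) ^ 2 * Q k.t k.n p = Q k.t k.n (c * p.1, c * p.2) := by unfold Q; ring
      _ = Q k.t k.n v * Q k.t k.n w := by rw [p1, p2]; unfold Q; ring
      _ = _ := by rw [q1, q2]; ring
  refine ⟨p, I + J, hp, ?_⟩
  have hio : (c : ℚ_[l]) * k.io r (el k p) =
      k.io r (el k w) * k.io ((k.t : ℚ_[l]) - r) (el k v) := by
    have g1 := congrArg (Int.cast : ℤ → ℚ_[l]) p1
    have g2 := congrArg (Int.cast : ℤ → ℚ_[l]) p2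
    push_cast at g1 g2
    unfold Fld.Root at h
    simp only [io_el]
    linear_combination g1 + r * g2 + (w.2 : ℚ_[l]) * v.2 * h
  have hcn : (c : ℝ)⁻¹ ≤ ‖(c : ℚ_[l])‖ := by
    rw [Padic.norm_eq_zpow_neg_valuation (by exact_mod_cast a0.ne'), Padic.valuation_natCast,
      zpow_neg, zpow_natCast]
    refine inv_anti₀ (by positivity) ?_
    exact_mod_cast Nat.le_of_dvd a0 pow_padicValNat_dvd
  have hc0 : (0 : ℝ) < c := by exact_mod_cast a0
  have hα : ‖k.io r (el k p)‖ ≤ c * ((l : ℝ) ^ J)⁻¹ := by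
    have g := congrArg (fun z => ‖z‖) hio
    simp only [norm_mul] at g
    rw [← inv_mul_le_iff₀ hc0]
    calc (c : ℝ)⁻¹ * ‖k.io r (el k p)‖ ≤ ‖(c : ℚ_[l])‖ * ‖k.io r (el k p)‖ := by gcongr
      _ ≤ ‖k.io r (el k w)‖ := by
          rw [g]; exact mul_le_of_le_one_right (norm_nonneg _) (el_le (root_conj h) v)
      _ ≤ _ := n2
  have hprod := congrArg (fun z => ‖z‖) (io_prod h p)
  simp only [norm_mul, hp, norm_lpow] at hprod
  by_contra hcon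
  rw [not_lt] at hcon
  have g1 : ((l : ℝ) ^ (I + J))⁻¹ ≤ (c * ((l : ℝ) ^ J)⁻¹) ^ 2 := by
    rw [← hprod, sq]
    exact mul_le_mul hα (hcon.trans hα) (norm_nonneg _) (by positivity)
  have g2 : (l : ℝ) ^ J ≤ c ^ 2 * l ^ I := by
    have : (c * ((l : ℝ) ^ J)⁻¹) ^ 2 * (l ^ (I + J) * l ^ J) = c ^ 2 * l ^ I := by
      rw [pow_add]; field_simp
    rw [← this]
    calc (l : ℝ) ^ J = ((l : ℝ) ^ (I + J))⁻¹ * (l ^ (I + J) * l ^ J) := by field_simp
      _ ≤ _ := by gcongr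
  have g3 : l ^ J ≤ c ^ 2 * l ^ I := by exact_mod_cast g2
  have g4 : l ^ I * l ^ k.D.natAbs ≤ l ^ J := by
    rw [← pow_add]; exact Nat.pow_le_pow_right (by omega) hgap
  have g5 : k.D.natAbs < l ^ k.D.natAbs := Nat.lt_pow_self hl
  have g6 : 0 < l ^ I := by positivity
  nlinarith

theorem descent (h : k.Root r) (hD : ¬ (l : ℤ) ∣ k.D) (j : ℕ) : ∀ u : ℤ × ℤ,
    Q k.t k.n u = l ^ j → ‖k.io r (el k u)‖ < ‖k.io ((k.t : ℚ_[l]) - r) (el k u)‖ →
    ∃ p ∈ k.O, ∃ h : ℕ, 0 < h ∧ QuadraticAlgebra.norm p = (l : ℚ) ^ h ∧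
      ‖k.io r p‖ = ((l : ℝ) ^ h)⁻¹ ∧ ‖k.io ((k.t : ℚ_[l]) - r) p‖ = 1 := by
  have hl : 1 < l := (Fact.out : l.Prime).one_lt
  induction j using Nat.strong_induction_on with
  | _ j ih =>
    intro u hQ hlt
    have hprod := congrArg (fun z => ‖z‖) (io_prod h u)
    simp only [norm_mul, hQ, norm_lpow] at hprod
    rcases (el_le (root_conj h) u).eq_or_lt with h1 | h1
    · rw [h1, mul_one] at hprod
      refine ⟨el k u, (mem_O k).2 ⟨u, rfl⟩, j, Nat.pos_of_ne_zero ?_,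
        by rw [norm_el, hQ]; push_cast; rfl, hprod, h1⟩
      rintro rfl
      rw [hprod, h1] at hlt
      simp at hlt
    · have h2 : ‖(u.2 : ℚ_[l])‖ < 1 := by
        have e : (u.2 : ℚ_[l]) * ((k.t : ℚ_[l]) - r - r) =
            k.io ((k.t : ℚ_[l]) - r) (el k u) + (-1) * k.io r (el k u) := by
          simp only [io_el]; ring
        have := lin_le (s := -1) le_rfl hlt.le (by simp)
        rw [← e, norm_mul, root_diff h hD, mul_one] at this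
        exact this.trans_lt h1
      have h3 : ‖(u.1 : ℚ_[l])‖ < 1 := by
        have e : (u.1 : ℚ_[l]) = k.io r (el k u) + (-r) * u.2 := by simp only [io_el]; ring
        have := lin_le (s := -r) (le_max_left ‖k.io r (el k u)‖ ‖(u.2 : ℚ_[l])‖) (le_max_right _ _)
          (by simpa using root_le h)
        rw [← e] at this
        exact this.trans_lt (max_lt (hlt.trans h1) h2)
      obtain ⟨x, hx⟩ := Padic.norm_intCast_lt_one_iff.1 h3
      obtain ⟨y, hy⟩ := Padic.norm_intCast_lt_one_iff.1 h2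
      have hq : (l : ℤ) ^ 2 * Q k.t k.n (x, y) = l ^ j := by
        rw [← hQ]; simp only [Q, hx, hy]; ring
      have hl1 : (1 : ℤ) < l := by exact_mod_cast hl
      have hj : 2 ≤ j := (pow_dvd_pow_iff (by omega) (by
        rw [Int.isUnit_iff]; omega)).1 (⟨_, hq.symm⟩ : (l : ℤ) ^ 2 ∣ l ^ j)
      obtain ⟨i, rfl⟩ := Nat.exists_eq_add_of_le hj
      have hs : ∀ s : ℚ_[l], k.io s (el k u) = l * k.io s (el k (x, y)) := fun s => by
        simp only [io_el, hx, hy]; push_cast; ring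
      refine ih i (by omega) (x, y) (mul_left_cancel₀ (pow_ne_zero 2 (by omega : (l : ℤ) ≠ 0)) (by
        rw [hq, pow_add])) ?_
      rw [hs, hs, norm_mul, norm_mul] at hlt
      exact lt_of_mul_lt_mul_left hlt (norm_nonneg _)

end Pi

end Rep

theorem rep : BasicStmt → RepStmt := fun hB k =>
  ⟨⟨36, by norm_num, Rep.pack k⟩, fun _ hε => Rep.count k hB hε, fun A c hL hA v hv => by
    rcases eq_or_ne v 0 with rfl | h0
    · exact ⟨0, by simp⟩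
    · obtain ⟨j, -, h, -⟩ := Rep.index k hB hL hA hv h0
      exact ⟨j, h⟩⟩

theorem pi_stmt : BasicStmt → PiStmt := fun hB k l _ r h hD => by
  obtain ⟨u, j, h1, h2⟩ := Rep.exists_skew hB h
  exact ⟨Rep.root_le h, Rep.root_diff h hD, Rep.descent h hD j u h1 h2⟩

end Pool.Agent.Lib.MP_9177b7_ag.J
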