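import Mathlib
import Pool.Agent.Lib.MP_9177b7_ag.J.DefsA
import Pool.Agent.Shared.SelbergUpper
import Pool.Agent.Lib.MP_164d34_nt.Mean1

/-!
Selberg's upper bound sieve in a box of the plane.
-/

open Finset Function
open Pool.Agent.Shared.SelbergUpper

noncomputable section

namespace Pool.Agent.Lib.MP_9177b7_ag.J

namespace Sieve

theorem shift {p : ℕ} {f : ℤ → ℝ} (hf : ∀ x, f (x + p) = f x) (c : ℤ) :
    ∑ s ∈ range p, f (c + s) = ∑ s ∈ range p, f s := by
  have step : ∀ c : ℤ, ∑ s ∈ range p, f (c + 1 + s) = ∑ s ∈ range p, f (c + s) := by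
    intro c
    have h1 := sum_range_succ (fun s : ℕ => f (c + s)) p
    have h2 := sum_range_succ' (fun s : ℕ => f (c + s)) p
    have h3 : ∑ s ∈ range p, f (c + ((s + 1 : ℕ) : ℤ)) = ∑ s ∈ range p, f (c + 1 + s) :=
      sum_congr rfl fun s _ => by congr 1; push_cast; ring
    rw [h3] at h2
    rw [hf] at h1
    simp only [Nat.cast_zero, add_zero] at h2
    linarith
  induction c using Int.induction_on with
  | zero => simp
  | succ n ih => rw [step, ih]
  | pred n ih => rw [← ih, ← step]; simp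

theorem sum_box (a : ℤ × ℤ) (A B : ℕ) (h : ℤ × ℤ → ℝ) :
    ∑ u ∈ box a A B, h u = ∑ s ∈ range A, ∑ t ∈ range B, h (a.1 + s, a.2 + t) := by
  have e : ∀ (c : ℤ) (n : ℕ) (f : ℤ → ℝ), ∑ x ∈ Ico c (c + n), f x = ∑ s ∈ range n, f (c + s) := by
    intro c n f
    induction n with
    | zero => simp
    | succ n ih =>
      rw [sum_range_succ, ← ih, Nat.cast_succ, ← add_assoc,
        ← insert_Ico_right_eq_Ico_add_one (by omega), sum_insert (by simp), add_comm]
  rw [box, sum_product, e]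
  exact sum_congr rfl fun s _ => e _ _ fun y => h (a.1 + s, y)

theorem sum_den {p : ℕ} (hp : 0 < p) {h : ℤ × ℤ → ℝ} (h1 : ∀ x y, h (x + p, y) = h (x, y))
    (h2 : ∀ x y, h (x, y + p) = h (x, y)) (a : ℤ × ℤ) :
    ∑ s ∈ range p, ∑ t ∈ range p, h (a.1 + s, a.2 + t) = den p h * (p : ℝ) ^ 2 := by
  have hp' : (0 : ℝ) < p := by exact_mod_cast hp
  rw [den, div_mul_cancel₀ _ (by positivity), sum_box]
  simp only [Prod.fst_zero, Prod.snd_zero, zero_add]
  rw [sum_congr rfl fun (s : ℕ) _ => shift (f := fun y => h (a.1 + s, y)) (h2 _) a.2]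
  exact shift (f := fun x => ∑ t ∈ range p, h (x, t)) (fun x => by simp only [h1]) a.1

theorem crt2 (S : Finset ℕ) (hS : ∀ p ∈ S, p.Prime) {f : ℕ → ℕ → ℕ → ℝ}
    (h1 : ∀ p ∈ S, ∀ s t, f p (s + p) t = f p s t) (h2 : ∀ p ∈ S, ∀ s t, f p s (t + p) = f p s t) :
    ∑ s ∈ range (∏ p ∈ S, p), ∑ t ∈ range (∏ p ∈ S, p), ∏ p ∈ S, f p s t =
      ∏ p ∈ S, ∑ s ∈ range p, ∑ t ∈ range p, f p s t := by
  rw [sum_congr rfl fun s _ => crt S hS (f := fun p t => f p s t) fun p hp t => h2 p hp s t]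
  exact crt S hS (f := fun p s => ∑ t ∈ range p, f p s t) fun p hp s => by
    simp only [h1 p hp]

theorem per2 {D : ℕ} (hD : 0 < D) {f : ℕ → ℕ → ℝ} (h1 : ∀ s t, f (s + D) t = f s t)
    (h2 : ∀ s t, f s (t + D) = f s t) (hM : ∀ s t, |f s t| ≤ 1) (A B : ℕ) :
    ∑ s ∈ range A, ∑ t ∈ range B, f s t ≤
      A * B * ((∑ s ∈ range D, ∑ t ∈ range D, f s t) / (D : ℝ) ^ 2) + 2 * D * (A + B) := by
  have hD' : (0 : ℝ) < D := by exact_mod_cast hD
  have a1 : ∀ s, ∑ t ∈ range B, f s t ≤ B * ((∑ t ∈ range D, f s t) / D) + 2 * D * 1 :=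
    fun s => per_le hD (f := fun t => f s t) (h2 s) (hM s) B
  have a2 := per_le hD (f := fun s => (∑ t ∈ range D, f s t) / D) (fun s => by simp only [h1])
    (M := 1) (fun s => by
      rw [abs_div, abs_of_pos hD', div_le_iff₀ hD']
      exact (abs_sum_le_sum_abs _ _).trans
        (by simpa using sum_le_card_nsmul (range D) _ 1 fun t _ => hM s t)) A
  refine (sum_le_sum fun s _ => a1 s).trans ?_
  rw [sum_add_distrib, ← mul_sum, sum_const, card_range, nsmul_eq_mul]
  have a3 := mul_le_mul_of_nonneg_left a2 (Nat.cast_nonneg (α := ℝ) B)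
  rw [← sum_div, ← sum_div, div_div, ← sq] at a3
  rw [← sum_div]
  nlinarith

open Classical in
/-- Selberg's sieve in two variables. -/
theorem selberg (P : Finset ℕ) (hP : ∀ p ∈ P, p.Prime) (e : ℕ → ℕ → ℕ → Prop)
    (he1 : ∀ p ∈ P, ∀ s t, e p (s + p) t ↔ e p s t) (he2 : ∀ p ∈ P, ∀ s t, e p s (t + p) ↔ e p s t)
    (α : ℕ → ℝ) (hα : ∀ p ∈ P, ∑ s ∈ range p, ∑ t ∈ range p, (if e p s t then (1 : ℝ) else 0) =
      α p * (p : ℝ) ^ 2) (a0 : ∀ p ∈ P, 0 ≤ α p) (a2 : ∀ p ∈ P, α p ≤ 1 / 2)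
    {z : ℝ} (hz : 1 ≤ z) (A B : ℕ) :
    (∑ s ∈ range A, ∑ t ∈ range B, if ∀ p ∈ P, ¬ e p s t then (1 : ℝ) else 0) *
      G P (fun p => α p / (1 - α p)) z ≤ A * B + 2 * z ^ 4 * (A + B) := by
  have p0 : ∀ p ∈ P, (0 : ℝ) < p := fun p hp => by exact_mod_cast (hP p hp).pos
  have a1 : ∀ p ∈ P, 0 < 1 - α p := fun p hp => by linarith [a2 p hp]
  set g : ℕ → ℝ := fun p => α p / (1 - α p) with hg
  have g0 : ∀ p ∈ P, 0 ≤ g p := fun p hp => div_nonneg (a0 p hp) (a1 p hp).le
  have G1 := one_le_G g0 hz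
  let η : ℕ → ℕ → ℕ → ℝ := fun p s t => (α p - if e p s t then 1 else 0) / (1 - α p)
  have m1 : ∀ p ∈ P, ∑ s ∈ range p, ∑ t ∈ range p, η p s t = 0 := fun p hp => by
    simp only [η, ← sum_div, sum_sub_distrib, hα p hp]
    simp only [sum_const, card_range, nsmul_eq_mul]
    rw [div_eq_zero_iff]; left; ring
  have m2 : ∀ p ∈ P, ∑ s ∈ range p, ∑ t ∈ range p, η p s t * η p s t = (p : ℝ) ^ 2 * g p :=
    fun p hp => by
    have : ∀ s t, η p s t * η p s t =
        (α p ^ 2 + (1 - 2 * α p) * if e p s t then 1 else 0) / (1 - α p) ^ 2 :=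
      fun s t => by
        simp only [η]
        rw [div_mul_div_comm, ← sq, ← sq]
        split_ifs <;> ring_nf
    have h1 := (a1 p hp).ne'
    simp only [this, ← sum_div, sum_add_distrib, ← mul_sum, hα p hp, hg]
    simp only [sum_const, card_range, nsmul_eq_mul]
    field_simp
    ring
  have b1 : ∀ p ∈ P, ∀ s t, |η p s t| ≤ 1 := fun p hp s t => by
    simp only [η]
    rw [abs_div, abs_of_pos (a1 p hp), div_le_iff₀ (a1 p hp), abs_le]
    have := a0 p hp
    have := a2 p hp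
    split_ifs <;> constructor <;> linarith
  have sub : ∀ S ∈ Sm P z, S ⊆ P := fun S hS => mem_powerset.1 (mem_filter.1 hS).1
  have b2 : ∀ S ∈ Sm P z, ∀ s t, |∏ p ∈ S, η p s t| ≤ 1 := fun S hS s t => by
    rw [abs_prod]
    exact prod_le_one (fun _ _ => abs_nonneg _) fun p hp => b1 p (sub S hS hp) s t
  have AB0 : (0 : ℝ) ≤ A + B := by positivity
  have key : ∀ S ∈ Sm P z, ∀ T ∈ Sm P z,
      ∑ s ∈ range A, ∑ t ∈ range B, (∏ p ∈ S, η p s t) * ∏ p ∈ T, η p s t ≤
      A * B * (if S = T then ∏ p ∈ S, g p else 0) + 2 * z ^ 2 * (A + B) := fun S hS T hT => by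
    have u : S ∪ T ⊆ P := union_subset (sub S hS) (sub T hT)
    have e1 : ∀ s t, (∏ p ∈ S, η p s t) * ∏ p ∈ T, η p s t =
        ∏ p ∈ S ∪ T, (if p ∈ S then η p s t else 1) * if p ∈ T then η p s t else 1 :=
      fun s t => by
      rw [prod_mul_distrib, prod_ite_mem, prod_ite_mem, union_inter_cancel_left,
        union_inter_cancel_right]
    have per1 : ∀ p ∈ S ∪ T, ∀ s t,
        ((if p ∈ S then η p (s + p) t else 1) * if p ∈ T then η p (s + p) t else 1) =
        (if p ∈ S then η p s t else 1) * if p ∈ T then η p s t else 1 := fun p hp s t => by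
      simp only [η, he1 p (u hp) s t]
    have per1' : ∀ p ∈ S ∪ T, ∀ s t,
        ((if p ∈ S then η p s (t + p) else 1) * if p ∈ T then η p s (t + p) else 1) =
        (if p ∈ S then η p s t else 1) * if p ∈ T then η p s t else 1 := fun p hp s t => by
      simp only [η, he2 p (u hp) s t]
    have D0 : 0 < ∏ p ∈ S ∪ T, p := prod_pos fun p hp => (hP p (u hp)).pos
    have D1 : ((∏ p ∈ S ∪ T, p : ℕ) : ℝ) ≤ z ^ 2 := by
      have : ∏ p ∈ S ∪ T, p ≤ (∏ p ∈ S, p) * ∏ p ∈ T, p := by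
        rw [← prod_union_inter]
        exact Nat.le_mul_of_pos_right _ (prod_pos fun p hp =>
          (hP p (sub S hS (mem_inter.1 hp).1)).pos)
      refine (Nat.cast_le.2 this).trans ?_
      push_cast
      rw [sq]
      exact mul_le_mul (mem_filter.1 hS).2 (mem_filter.1 hT).2 (by positivity) (by linarith)
    have := per2 D0 (f := fun s t => ∏ p ∈ S ∪ T,
        (if p ∈ S then η p s t else 1) * if p ∈ T then η p s t else 1)
      (fun s t => periodic_prod (S ∪ T) (f := fun p s =>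
        (if p ∈ S then η p s t else 1) * if p ∈ T then η p s t else 1)
        (fun p hp s => per1 p hp s t) s)
      (fun s t => periodic_prod (S ∪ T) (f := fun p t =>
        (if p ∈ S then η p s t else 1) * if p ∈ T then η p s t else 1)
        (fun p hp t => per1' p hp s t) t)
      (fun s t => by
        rw [← e1, abs_mul]
        exact mul_le_one₀ (b2 S hS s t) (abs_nonneg _) (b2 T hT s t)) A B
    rw [crt2 _ (fun p hp => hP p (u hp)) per1 per1'] at this
    simp only [e1]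
    refine this.trans (add_le_add (le_of_eq ?_) (by gcongr))
    congr 1
    split_ifs with h
    · subst h
      rw [union_self, div_eq_iff (by
        exact_mod_cast (pow_pos (prod_pos fun p hp => (hP p (sub S hS hp)).pos) 2).ne'),
        Nat.cast_prod, ← prod_pow, ← prod_mul_distrib]
      refine prod_congr rfl fun p hp => ?_
      simp only [if_pos hp, m2 p (sub S hS hp), mul_comm]
    · obtain ⟨p, hp⟩ : ∃ p, ¬ (p ∈ S ↔ p ∈ T) := not_forall.1 fun h' => h (Finset.ext h')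
      have hp' : p ∈ S ∪ T := by rw [mem_union]; tauto
      rw [prod_eq_zero hp', zero_div]
      by_cases h1 : p ∈ S
      · simp only [if_pos h1, if_neg (show p ∉ T by tauto), mul_one, m1 p (u hp')]
      · simp only [if_neg h1, if_pos (show p ∈ T by tauto), one_mul, m1 p (u hp')]
  have cnt : (#(Sm P z) : ℝ) ≤ z := by
    have := inj_sum (A := Sm P z) (fun S hS p hp => hP p (sub S hS hp)) (B := Icc 1 ⌊z⌋₊)
      (fun S hS => mem_Icc.2 ⟨prod_pos fun p hp => (hP p (sub S hS hp)).pos,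
        Nat.le_floor (by simpa using (mem_filter.1 hS).2)⟩) (F := fun _ => 1) fun _ => zero_le_one
    simpa using this.trans (by simpa using Nat.floor_le (by linarith))
  have up : ∑ s ∈ range A, ∑ t ∈ range B, (∑ S ∈ Sm P z, ∏ p ∈ S, η p s t) ^ 2 ≤
      A * B * G P g z + 2 * z ^ 4 * (A + B) := by
    have e : ∑ s ∈ range A, ∑ t ∈ range B, (∑ S ∈ Sm P z, ∏ p ∈ S, η p s t) ^ 2 =
        ∑ S ∈ Sm P z, ∑ T ∈ Sm P z, ∑ s ∈ range A, ∑ t ∈ range B,
          (∏ p ∈ S, η p s t) * ∏ p ∈ T, η p s t := by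
      simp only [sq (∑ S ∈ Sm P z, _), sum_mul_sum]
      rw [sum_congr rfl fun s _ => sum_comm, sum_comm]
      refine sum_congr rfl fun S _ => ?_
      rw [sum_congr rfl fun s _ => sum_comm, sum_comm]
    rw [e]
    refine (sum_le_sum fun S hS => sum_le_sum (key S hS)).trans ?_
    simp only [sum_add_distrib, ← mul_sum, sum_ite_eq, sum_const, nsmul_eq_mul]
    rw [sum_congr rfl fun S hS => if_pos hS]
    have h1 := mul_le_mul cnt cnt (Nat.cast_nonneg _) (by linarith)
    have z4 : 0 ≤ 2 * z ^ 2 * (A + B) := by positivity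
    have h2 := mul_le_mul_of_nonneg_right h1 z4
    unfold G
    nlinarith
  have low : (∑ s ∈ range A, ∑ t ∈ range B, if ∀ p ∈ P, ¬ e p s t then (1 : ℝ) else 0) *
      G P g z ^ 2 ≤ ∑ s ∈ range A, ∑ t ∈ range B, (∑ S ∈ Sm P z, ∏ p ∈ S, η p s t) ^ 2 := by
    rw [sum_mul]
    refine sum_le_sum fun s _ => ?_
    rw [sum_mul]
    refine sum_le_sum fun t _ => ?_
    split_ifs with h
    · rw [one_mul]
      refine le_of_eq ?_
      congr 1
      refine sum_congr rfl fun S hS => prod_congr rfl fun p hp => ?_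
      simp only [η, if_neg (h p (sub S hS hp)), sub_zero, hg]
    · rw [zero_mul]; exact sq_nonneg _
  have G2 : 0 < G P g z := by linarith
  refine le_of_mul_le_mul_right (a := G P g z) ?_ G2
  have z6 : 0 ≤ 2 * z ^ 4 * (A + B) := by positivity
  nlinarith [mul_le_mul_of_nonneg_left G1 z6]

theorem moment (P : Finset ℕ) (g L : ℕ → ℝ) (hg : ∀ p ∈ P, 0 ≤ g p) :
    ∑ S ∈ P.powerset, (∏ p ∈ S, g p) * ∑ p ∈ S, L p =
      (∏ p ∈ P, (1 + g p)) * ∑ p ∈ P, g p / (1 + g p) * L p := by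
  induction P using Finset.induction_on with
  | empty => simp
  | insert q P hq ih =>
    have h0 := hg q (mem_insert_self _ _)
    rw [sum_powerset_insert hq, ih fun p hp => hg p (mem_insert_of_mem hp), prod_insert hq,
      sum_insert hq]
    have e : ∑ S ∈ P.powerset, (∏ p ∈ insert q S, g p) * ∑ p ∈ insert q S, L p =
        g q * L q * (∑ S ∈ P.powerset, ∏ p ∈ S, g p) +
          g q * ∑ S ∈ P.powerset, (∏ p ∈ S, g p) * ∑ p ∈ S, L p := by
      rw [mul_sum, mul_sum, ← sum_add_distrib]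
      refine sum_congr rfl fun S hS => ?_
      have : q ∉ S := fun h => hq (mem_powerset.1 hS h)
      rw [prod_insert this, sum_insert this]
      ring
    rw [e, ih fun p hp => hg p (mem_insert_of_mem hp), ← prod_one_add]
    field_simp
    ring

theorem G_low (P : Finset ℕ) (hP : ∀ p ∈ P, p.Prime) (g : ℕ → ℝ) (hg : ∀ p ∈ P, 0 ≤ g p) {z : ℝ}
    (hz : 1 < z) (h : ∑ p ∈ P, g p / (1 + g p) * Real.log p ≤ Real.log z / 2) :
    ∏ p ∈ P, (1 + g p) ≤ 2 * G P g z := by
  have hl := Real.log_pos hz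
  have q0 : 0 ≤ ∏ p ∈ P, (1 + g p) := prod_nonneg fun p hp => by linarith [hg p hp]
  have h1 := moment P g (fun p => Real.log p) hg
  have h2 : (∏ p ∈ P, (1 + g p)) * Real.log z ≤ G P g z * Real.log z +
      ∑ S ∈ P.powerset, (∏ p ∈ S, g p) * ∑ p ∈ S, Real.log p := by
    rw [prod_one_add, G, Sm, sum_filter, sum_mul, sum_mul, ← sum_add_distrib]
    refine sum_le_sum fun S hS => ?_
    have s1 : S ⊆ P := mem_powerset.1 hS
    have w0 : 0 ≤ ∏ p ∈ S, g p := prod_nonneg fun p hp => hg p (s1 hp)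
    have w1 : 0 ≤ ∑ p ∈ S, Real.log p := sum_nonneg fun p _ => Real.log_natCast_nonneg p
    split_ifs with h3
    · nlinarith [mul_nonneg w0 w1]
    · rw [zero_mul, zero_add]
      refine mul_le_mul_of_nonneg_left ?_ w0
      rw [← Real.log_prod fun p hp => by exact_mod_cast (hP p (s1 hp)).pos.ne']
      exact Real.log_le_log (by linarith) (not_le.1 h3).le
  have h3 := mul_le_mul_of_nonneg_left h q0
  refine le_of_mul_le_mul_right ?_ hl
  nlinarith

theorem mertens (P : Finset ℕ) (hP : ∀ p ∈ P, p.Prime) {w : ℝ} (hw : 2 ≤ w)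
    (h : ∀ p ∈ P, (p : ℝ) ≤ w) : ∑ p ∈ P, Real.log p / p ≤ 10 * Real.log w := by
  have h1 := (Pool.Agent.Lib.MP_164d34_nt.mn_mertens ⌊w⌋₊).2
  have h2 : ∑ p ∈ P, Real.log p / p ≤
      ∑ n ∈ Ioc 0 ⌊w⌋₊, ArithmeticFunction.vonMangoldt n / (n : ℝ) := by
    rw [sum_congr rfl fun (p : ℕ) hp =>
      show Real.log p / p = ArithmeticFunction.vonMangoldt p / (p : ℝ) by
      rw [ArithmeticFunction.vonMangoldt_apply_prime (hP p hp)]]
    exact sum_le_sum_of_subset_of_nonneg (fun p hp => mem_Ioc.2 ⟨(hP p hp).pos,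
      Nat.le_floor (h p hp)⟩) fun n _ _ =>
        div_nonneg ArithmeticFunction.vonMangoldt_nonneg (Nat.cast_nonneg n)
  have h3 : Real.log ⌊w⌋₊ ≤ Real.log w := Real.log_le_log
    (by exact_mod_cast Nat.floor_pos.2 (by linarith)) (Nat.floor_le (by linarith))
  have h4 : Real.log 2 ≤ Real.log w := Real.log_le_log (by norm_num) hw
  have h5 := Real.log_two_gt_d9
  linarith

end Sieve

open Sieve in
theorem sieve : SieveStmt := by
  classical
  intro κ
  set k := max κ 1 with hk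
  have k1 : 1 ≤ k := le_max_right _ _
  refine ⟨1 / (80 * k), 10 * Real.exp ((2 * k + 1) * k), by positivity, by positivity,
    fun y a A B P Ω hy hA hB hP hΩ hden => ?_⟩
  set ρ : ℕ → ℝ := fun q => den q fun u => if Ω q u then 1 else 0 with hρ
  have ρ0 : ∀ q, 0 ≤ ρ q := fun q =>
    div_nonneg (sum_nonneg fun u _ => by split_ifs <;> norm_num) (by positivity)
  have q0 : ∀ q ∈ P, (1 : ℝ) ≤ q := fun q hq => by exact_mod_cast (hP q hq).1.pos
  have ρ1 : ∀ q ∈ P, ρ q ≤ k / q := fun q hq =>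
    (hden q hq).trans (div_le_div_of_nonneg_right (le_max_left _ _) (by linarith [q0 q hq]))
  set P₁ := P.filter fun q : ℕ => 2 * k < q with hP₁
  have s1 : ∀ q ∈ P₁, q ∈ P := fun q hq => (mem_filter.1 hq).1
  have ρ2 : ∀ q ∈ P₁, ρ q ≤ 1 / 2 := fun q hq => by
    have h1 := (mem_filter.1 hq).2
    refine (ρ1 q (s1 q hq)).trans ?_
    rw [div_le_iff₀ (by linarith)]
    linarith
  have small : ∑ q ∈ P, ρ q ≤ ∑ q ∈ P₁, ρ q + (2 * k + 1) * k := by
    rw [← sum_filter_add_sum_filter_not P fun q : ℕ => 2 * k < q]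
    refine add_le_add le_rfl ((sum_le_card_nsmul _ _ k fun q hq => ?_).trans ?_)
    · have hq' := (mem_filter.1 hq).1
      exact (ρ1 q hq').trans (div_le_self (by linarith) (q0 q hq'))
    · rw [nsmul_eq_mul]
      refine mul_le_mul_of_nonneg_right ?_ (by linarith)
      have : (P.filter fun q : ℕ => ¬ 2 * k < q) ⊆ range (⌊2 * k⌋₊ + 1) := fun q hq =>
        mem_range.2 (Nat.lt_succ_of_le (Nat.le_floor (not_lt.1 (mem_filter.1 hq).2)))
      have h2 := card_le_card this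
      rw [card_range] at h2
      have h3 : ((P.filter fun q : ℕ => ¬ 2 * k < q).card : ℝ) ≤ ⌊2 * k⌋₊ + 1 := by
        exact_mod_cast h2
      linarith [Nat.floor_le (show 0 ≤ 2 * k by linarith)]
  have c1 : ∀ q ∈ P, ∀ x y : ℤ, Ω q (x + q, y) ↔ Ω q (x, y) := fun q hq x y =>
    ⟨hΩ q hq _ _ ⟨by simp, by simp⟩, hΩ q hq _ _ ⟨by simp, by simp⟩⟩
  have c2 : ∀ q ∈ P, ∀ x y : ℤ, Ω q (x, y + q) ↔ Ω q (x, y) := fun q hq x y =>
    ⟨hΩ q hq _ _ ⟨by simp, by simp⟩, hΩ q hq _ _ ⟨by simp, by simp⟩⟩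
  set z := y ^ (1 / 4 : ℝ) with hz
  have z1 : 1 ≤ z := Real.one_le_rpow hy (by norm_num)
  have z4 : z ^ 4 = y := by
    rw [hz, ← Real.rpow_natCast, ← Real.rpow_mul (by linarith)]; norm_num
  have main := selberg P₁ (fun p hp => (hP p (s1 p hp)).1) (fun p s t => Ω p (a.1 + s, a.2 + t))
    (fun p hp s t => by push_cast; rw [← add_assoc]; exact c1 p (s1 p hp) _ _)
    (fun p hp s t => by push_cast; rw [← add_assoc]; exact c2 p (s1 p hp) _ _) ρ
    (fun p hp => by
      convert sum_den (hP p (s1 p hp)).1.pos (h := fun u => if Ω p u then 1 else 0)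
        (fun x y => by simp only [c1 p (s1 p hp)]) (fun x y => by simp only [c2 p (s1 p hp)]) a)
    (fun p _ => ρ0 p) ρ2 z1 A B
  set g : ℕ → ℝ := fun p => ρ p / (1 - ρ p) with hg
  have g0 : ∀ p ∈ P₁, 0 ≤ g p := fun p hp => div_nonneg (ρ0 p) (by linarith [ρ2 p hp])
  have low : Real.exp (∑ q ∈ P₁, ρ q) ≤ 2 * G P₁ g z := by
    rcases P₁.eq_empty_or_nonempty with h | ⟨q, hq⟩
    · have := one_le_G g0 z1
      rw [h, sum_empty, Real.exp_zero, ← h]
      linarith
    have w2 : 2 ≤ y ^ (1 / (80 * k)) :=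
      le_trans (by exact_mod_cast (hP q (s1 q hq)).1.two_le) (hP q (s1 q hq)).2
    have y1 : 1 < y := by
      rcases eq_or_lt_of_le hy with h | h
      · rw [← h, Real.one_rpow] at w2; linarith
      · exact h
    have h1 := mertens P₁ (fun p hp => (hP p (s1 p hp)).1) w2 fun p hp => (hP p (s1 p hp)).2
    rw [Real.log_rpow (by linarith)] at h1
    refine le_trans ?_ (G_low P₁ (fun p hp => (hP p (s1 p hp)).1) g g0
      (Real.one_lt_rpow y1 (by norm_num)) ?_)
    · rw [Real.exp_sum]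
      refine prod_le_prod (fun p _ => (Real.exp_pos _).le) fun p hp => ?_
      have h2 : 0 < 1 - ρ p := by linarith [ρ2 p hp]
      have h3 := Real.add_one_le_exp (-ρ p)
      have h4 : 1 + g p = (1 - ρ p)⁻¹ := by simp only [hg]; field_simp; ring
      rw [h4, ← inv_inv (Real.exp (ρ p)), ← Real.exp_neg]
      exact inv_anti₀ h2 (by linarith)
    · rw [hz, Real.log_rpow (by linarith)]
      have h2 : ∑ p ∈ P₁, g p / (1 + g p) * Real.log p ≤ k * ∑ p ∈ P₁, Real.log p / p := by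
        rw [mul_sum]
        refine sum_le_sum fun p hp => ?_
        have h2 : 0 < 1 - ρ p := by linarith [ρ2 p hp]
        have h4 : g p / (1 + g p) = ρ p := by simp only [hg]; field_simp; ring
        rw [h4]
        refine (mul_le_mul_of_nonneg_right (ρ1 p (s1 p hp)) (Real.log_natCast_nonneg p)).trans
          (le_of_eq (by ring))
      refine h2.trans ((mul_le_mul_of_nonneg_left h1 (by linarith)).trans (le_of_eq ?_))
      field_simp
      ring
  have cnt : (((box a A B).filter fun u => ∀ q ∈ P, ¬ Ω q u).card : ℝ) ≤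
      ∑ s ∈ range A, ∑ t ∈ range B,
        if ∀ p ∈ P₁, ¬ Ω p (a.1 + s, a.2 + t) then (1 : ℝ) else 0 := by
    rw [← sum_box a A B fun u => if ∀ p ∈ P₁, ¬ Ω p u then (1 : ℝ) else 0, sum_boole]
    refine Nat.cast_le.2 (card_le_card fun u hu => ?_)
    rw [mem_filter] at hu ⊢
    exact ⟨hu.1, fun p hp => hu.2 p (s1 p hp)⟩
  have G0 : 0 ≤ G P₁ g z := G_nonneg g0 z
  have n0 : (0 : ℝ) ≤ ((box a A B).filter fun u => ∀ q ∈ P, ¬ Ω q u).card := Nat.cast_nonneg _
  have h5 : (((box a A B).filter fun u => ∀ q ∈ P, ¬ Ω q u).card : ℝ) * G P₁ g z ≤ 5 * A * B := by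
    refine (mul_le_mul_of_nonneg_right cnt G0).trans (le_trans (by convert main) ?_)
    rw [z4]
    nlinarith [mul_le_mul_of_nonneg_right hA (Nat.cast_nonneg (α := ℝ) B),
      mul_le_mul_of_nonneg_right hB (Nat.cast_nonneg (α := ℝ) A)]
  have h6 := mul_le_mul_of_nonneg_left low n0
  have h7 : Real.exp (∑ q ∈ P, ρ q) ≤ Real.exp (∑ q ∈ P₁, ρ q) * Real.exp ((2 * k + 1) * k) := by
    rw [← Real.exp_add]; exact Real.exp_le_exp.2 small
  have h8 := mul_le_mul_of_nonneg_left h7 n0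
  have e1 := Real.exp_pos ((2 * k + 1) * k)
  have goal : (((box a A B).filter fun u => ∀ q ∈ P, ¬ Ω q u).card : ℝ) ≤
      10 * Real.exp ((2 * k + 1) * k) * A * B * Real.exp (-∑ q ∈ P, ρ q) := by
    rw [Real.exp_neg, ← div_eq_mul_inv, le_div_iff₀ (Real.exp_pos _)]
    refine h8.trans ?_
    rw [← mul_assoc]
    nlinarith [mul_le_mul_of_nonneg_right (h6.trans (show _ ≤ 10 * (A : ℝ) * B by linarith)) e1.le]
  convert goal

end Pool.Agent.Lib.MP_9177b7_ag.J
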