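import Pool.Agent.Lib.MP_9177b7_ag.J.DefsA

/-! Small isogeny regime: counting in a finite group. -/

open Finset

noncomputable section

namespace Pool.Agent.Lib.MP_9177b7_ag.J.Small

open Classical in
theorem sum_count {G : Type} [Group G] [Fintype G] (P : G → Prop) (I : Finset ℕ) (g : ℕ → G) :
    ∑ s : G, ((I.filter fun i => P (g i * s)).card : ℝ) =
      I.card * ((univ.filter P).card : ℝ) := by
  simp only [card_filter, Nat.cast_sum]
  rw [sum_comm, ← nsmul_eq_mul, ← sum_const]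
  exact sum_congr rfl fun i _ =>
    Equiv.sum_comp (Equiv.mulLeft (g i)) fun s => ((if P s then 1 else 0 : ℕ) : ℝ)

open Classical in
theorem markov {G : Type} [Fintype G] (X : G → ℝ) (h0 : ∀ s, 0 ≤ X s) (T : ℝ) :
    T * ((univ.filter fun s => T < X s).card : ℝ) ≤ ∑ s, X s := by
  rw [mul_comm, ← nsmul_eq_mul, ← sum_const]
  exact (sum_le_sum fun s hs => (mem_filter.1 hs).2.le).trans
    (sum_le_sum_of_subset_of_nonneg (filter_subset _ _) fun s _ _ => h0 s)

open Classical in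
theorem markov_rev {G : Type} [Fintype G] (X : G → ℝ) (n T : ℝ) (h0 : ∀ s, X s ≤ n)
    (hT : 0 ≤ T) :
    ∑ s, X s ≤ n * ((univ.filter fun s => T ≤ X s).card : ℝ) + T * Fintype.card G := by
  rw [← sum_filter_add_sum_filter_not univ fun s => T ≤ X s]
  refine add_le_add ?_ ?_
  · rw [mul_comm, ← nsmul_eq_mul, ← sum_const]
    exact sum_le_sum fun s _ => h0 s
  · calc _ ≤ ∑ _s ∈ univ.filter fun s => ¬ T ≤ X s, T :=
          sum_le_sum fun s hs => (not_le.1 (mem_filter.1 hs).2).le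
      _ ≤ ∑ _s : G, T := sum_le_sum_of_subset_of_nonneg (filter_subset _ _) fun _ _ _ => hT
      _ = _ := by rw [sum_const, card_univ, nsmul_eq_mul, mul_comm]

open Classical in
theorem cauchy {G ι : Type} [Fintype G] (Gd : Finset G) (T : Finset ι) (f : G → ι)
    (C : G → G → Prop) (hf : ∀ s ∈ Gd, f s ∈ T)
    (hC : ∀ s ∈ Gd, ∀ s' ∈ Gd, f s = f s' → C s s') :
    (Gd.card : ℝ) ^ 2 ≤ T.card * ∑ s, ((univ.filter fun s' => C s s').card : ℝ) := by
  have h1 : (Gd.card : ℝ) = ∑ t ∈ T, ((Gd.filter fun s => f s = t).card : ℝ) := by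
    rw [card_eq_sum_card_fiberwise hf]
    push_cast
    rfl
  rw [h1]
  refine sq_sum_le_card_mul_sum_sq.trans (mul_le_mul_of_nonneg_left ?_ (by positivity))
  calc _ = ∑ t ∈ T, ∑ s ∈ Gd.filter fun s => f s = t,
          ((Gd.filter fun s' => f s' = f s).card : ℝ) := by
        refine sum_congr rfl fun t _ => ?_
        rw [sum_congr rfl fun s hs => by rw [(mem_filter.1 hs).2], sum_const, nsmul_eq_mul, sq]
    _ = ∑ s ∈ Gd, ((Gd.filter fun s' => f s' = f s).card : ℝ) := sum_fiberwise_of_maps_to hf _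
    _ ≤ ∑ s ∈ Gd, ((univ.filter fun s' => C s s').card : ℝ) := by
        refine sum_le_sum fun s hs => Nat.cast_le.2 (card_le_card fun s' hs' => ?_)
        rw [mem_filter] at hs' ⊢
        exact ⟨mem_univ _, hC s hs s' hs'.1 hs'.2.symm⟩
    _ ≤ _ := sum_le_sum_of_subset_of_nonneg (subset_univ _) fun _ _ _ => by positivity

open Classical in
theorem many_good {G : Type} [Group G] [Fintype G] (E S : G → Prop) (τ : G) {n κ h : ℕ}
    {η₀ η₁ δ : ℝ} (hη : 0 < η₀) (hn : 0 < n) (hδ : 0 < δ)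
    (hE : η₀ * Fintype.card G ≤ (univ.filter E).card)
    (hS : ((univ.filter S).card : ℝ) ≤ η₁ * Fintype.card G) (h1 : (κ + 1) * η₁ ≤ δ * (η₀ / 8))
    (h2 : η₁ ≤ η₀ / 8) :
    η₀ / 4 * Fintype.card G ≤ (univ.filter fun s =>
      n * η₀ / 2 ≤ (((range n).filter fun i => E (τ ^ i * s)).card : ℝ) ∧
      (((range (κ + 1)).filter fun q => S (τ ^ (q / h) * s)).card : ℝ) ≤ δ ∧ ¬ S s).card := by
  have hn' : (0 : ℝ) < n := by exact_mod_cast hn
  have hG : (0 : ℝ) ≤ Fintype.card G := by positivity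
  have a1 := markov_rev (fun s => (((range n).filter fun i => E (τ ^ i * s)).card : ℝ)) n
    (n * η₀ / 2) (fun s => by exact_mod_cast (card_filter_le _ _).trans (card_range n).le)
    (by positivity)
  rw [sum_count E (range n) fun i => τ ^ i, card_range] at a1
  have a2 := markov (fun s => (((range (κ + 1)).filter fun q => S (τ ^ (q / h) * s)).card : ℝ))
    (fun s => by positivity) δ
  rw [sum_count S (range (κ + 1)) fun q => τ ^ (q / h), card_range] at a2
  set A := univ.filter fun s => n * η₀ / 2 ≤ (((range n).filter fun i => E (τ ^ i * s)).card : ℝ)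
  set B := univ.filter fun s =>
    δ < (((range (κ + 1)).filter fun q => S (τ ^ (q / h) * s)).card : ℝ)
  have b1 : η₀ / 2 * Fintype.card G ≤ A.card := by
    have := mul_le_mul_of_nonneg_left hE hn'.le
    refine le_of_mul_le_mul_left ?_ hn'
    linarith
  have b2 : (B.card : ℝ) ≤ η₀ / 8 * Fintype.card G := by
    have h3 := mul_le_mul_of_nonneg_left hS (by positivity : (0 : ℝ) ≤ κ + 1)
    have h4 := mul_le_mul_of_nonneg_right h1 hG
    push_cast at a2
    refine le_of_mul_le_mul_left ?_ hδ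
    linarith
  have b3 := mul_le_mul_of_nonneg_right h2 hG
  have b4 : A ⊆ (univ.filter fun s =>
      n * η₀ / 2 ≤ (((range n).filter fun i => E (τ ^ i * s)).card : ℝ) ∧
      (((range (κ + 1)).filter fun q => S (τ ^ (q / h) * s)).card : ℝ) ≤ δ ∧ ¬ S s) ∪
      (B ∪ univ.filter S) := by
    intro s hs
    simp only [A, B, mem_union, mem_filter, mem_univ, true_and] at hs ⊢
    by_cases c1 : S s
    · exact Or.inr (Or.inr c1)
    by_cases c2 : δ < (((range (κ + 1)).filter fun q => S (τ ^ (q / h) * s)).card : ℝ)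
    · exact Or.inr (Or.inl c2)
    exact Or.inl ⟨hs, not_lt.1 c2, c1⟩
  have b5 := (card_le_card b4).trans ((card_union_le _ _).trans
    (Nat.add_le_add_left (card_union_le _ _) _))
  have b6 := (Nat.cast_le (α := ℝ)).2 b5
  push_cast at b6
  linarith

open Classical in
theorem pr_eq (k : Fld) (F : ℕ+) (P : k.SF F → Prop) :
    k.pr F P = ((univ.filter P).card : ℝ) / Fintype.card (k.SF F) := by
  rw [Fld.pr, Fld.avg, card_filter]
  push_cast
  rfl

theorem final_bound {l f κ : ℕ} {c C T : ℝ} (hl : 1 < l) (hc : 0 < c) (hκ : 1 ≤ κ)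
    (h1 : l ^ κ ≤ f) (h2 : f < l ^ (κ + 1)) (hT0 : 0 ≤ T) (hT : T ≤ (l : ℝ) ^ ((1 - c) * κ)) :
    T * (C * (f : ℝ) ^ (c / 4) * (((l : ℝ) ^ κ)⁻¹ + (f : ℝ)⁻¹)) ≤
      2 * |C| * ((l : ℝ) ^ (-(c / 2))) ^ κ := by
  have hl1 : (1 : ℝ) < l := by exact_mod_cast hl
  have hl0 : (0 : ℝ) < l := by linarith
  have hκ' : (1 : ℝ) ≤ κ := by exact_mod_cast hκ
  have h1' : (l : ℝ) ^ κ ≤ f := by exact_mod_cast h1
  have h2' : (f : ℝ) ≤ (l : ℝ) ^ (κ + 1) := by exact_mod_cast h2.le
  have hf0 : (0 : ℝ) < f := lt_of_lt_of_le (by positivity) h1'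
  have a1 : (f : ℝ) ^ (c / 4) ≤ (l : ℝ) ^ (c / 2 * κ) := by
    refine (Real.rpow_le_rpow hf0.le h2' (by positivity)).trans ?_
    rw [← Real.rpow_natCast, ← Real.rpow_mul hl0.le]
    refine Real.rpow_le_rpow_of_exponent_le hl1.le ?_
    push_cast
    nlinarith
  have a2 : ((l : ℝ) ^ κ)⁻¹ + (f : ℝ)⁻¹ ≤ 2 * (l : ℝ) ^ (-(κ : ℝ)) := by
    rw [Real.rpow_neg hl0.le, Real.rpow_natCast]
    have := inv_anti₀ (by positivity) h1'
    linarith
  have a3 : C * (f : ℝ) ^ (c / 4) * (((l : ℝ) ^ κ)⁻¹ + (f : ℝ)⁻¹) ≤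
      |C| * (l : ℝ) ^ (c / 2 * κ) * (2 * (l : ℝ) ^ (-(κ : ℝ))) :=
    mul_le_mul (mul_le_mul (le_abs_self C) a1 (by positivity) (abs_nonneg C)) a2 (by positivity)
      (by positivity)
  refine (mul_le_mul_of_nonneg_left a3 hT0).trans
    ((mul_le_mul_of_nonneg_right hT (by positivity)).trans_eq ?_)
  have e : ((l : ℝ) ^ (-(c / 2))) ^ κ =
      (l : ℝ) ^ ((1 - c) * κ) * (l : ℝ) ^ (c / 2 * κ) * (l : ℝ) ^ (-(κ : ℝ)) := by
    rw [← Real.rpow_natCast, ← Real.rpow_mul hl0.le, ← Real.rpow_add hl0, ← Real.rpow_add hl0]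
    congr 1
    ring
  rw [e]
  ring

end Pool.Agent.Lib.MP_9177b7_ag.J.Small
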