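import Pool.Agent.Lib.MP_9177b7_ag.J.Small4
import Pool.Agent.Lib.MP_9177b7_ag.J.Small5

/-! Exclusion of graph components when there is an isogeny of small degree. -/

open Pointwise Filter Topology

noncomputable section

namespace Pool.Agent.Lib.MP_9177b7_ag.J

open Fld

namespace Small

variable {k : Fld} {l : ℕ} [hl : Fact l.Prime] {r : ℚ_[l]}

theorem normalise (hB : BasicStmt) (hr : k.Root r) (h1 : ‖r‖ ≤ 1)
    (h2 : ‖(k.t : ℚ_[l]) - r - r‖ = 1) {L₁ L₂ : Submodule ℤ k.K} {c₁ c₂ : ℚ}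
    (hL₁ : k.Lat L₁ c₁) (hL₂ : k.Lat L₂ c₂) (hN₁ : k.Nrm l L₁) (hN₂ : k.Nrm l L₂) {α : k.K}
    (hα : α ≠ 0) (hle : α • L₁ ≤ L₂) :
    ∃ (a : k.K) (N' e : ℕ), (∀ y ∈ L₂, a * y ∈ L₁) ∧
      QuadraticAlgebra.norm a * c₂ = (N' * l ^ e : ℕ) * c₁ ∧ ¬ l ∣ N' ∧
      ((N' * l ^ e : ℕ) : ℝ) * c₂ ≤ k.N α * c₁ ∧
      ((‖k.io r a‖ = ((l : ℝ) ^ e)⁻¹ ∧ ‖k.io ((k.t : ℚ_[l]) - r) a‖ = 1) ∨
        (‖k.io ((k.t : ℚ_[l]) - r) a‖ = ((l : ℝ) ^ e)⁻¹ ∧ ‖k.io r a‖ = 1)) := by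
  have hr' := root_conj hr
  have h1' : ‖(k.t : ℚ_[l]) - r‖ ≤ 1 := norm_conj_le h1
  have h2' : ‖(k.t : ℚ_[l]) - ((k.t : ℚ_[l]) - r) - ((k.t : ℚ_[l]) - r)‖ = 1 := by
    rw [sub_sub_cancel, norm_sub_rev, h2]
  have hl0 : (0 : ℝ) < l := zero_lt_one.trans one_lt_l
  have hlK : (l : k.K) ≠ 0 := Nat.cast_ne_zero.2 hl.out.ne_zero
  have hc₁ : 0 < c₁ := by obtain ⟨_, _, _, _, h⟩ := hL₁; exact h
  have hc₂ : 0 < c₂ := by obtain ⟨_, _, _, _, h⟩ := hL₂; exact h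
  obtain ⟨j, hj, e1, hj'⟩ := index_mul hB hL₂ hL₁ hα fun y hy =>
    hle (Submodule.smul_mem_pointwise_smul y α L₁ hy)
  have hjK : (j : k.K) ≠ 0 := Nat.cast_ne_zero.2 hj.ne'
  have ha : ∀ y ∈ L₂, (j : k.K) / α * y ∈ L₁ := by
    intro y hy
    obtain ⟨z, hz, e⟩ := hj' y hy
    rwa [div_mul_eq_mul_div, e, mul_div_cancel_left₀ _ hα]
  have ha0 : (j : k.K) / α ≠ 0 := div_ne_zero hjK hα
  have hlin : ∀ y ∈ L₂, k.lin ((j : k.K) / α) 0 y ∈ L₁ := fun y hy => by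
    simpa [lin_apply] using ha y hy
  obtain ⟨b₁, hb₁⟩ := exists_norm_eq ((map_ne_zero (hom hr)).2 ha0)
    (lin_le_one hr h1 h2 hN₂ hN₁ hlin)
  obtain ⟨b₂, hb₂⟩ := exists_norm_eq ((map_ne_zero (hom hr')).2 ha0)
    (lin_le_one hr' h1' h2' hN₂ hN₁ hlin)
  change ‖k.io r _‖ = _ at hb₁
  change ‖k.io _ _‖ = _ at hb₂
  set b := min b₁ b₂ with hb
  set a := (j : k.K) / α / (l : k.K) ^ b with hadef
  have key : ∀ (ρ : ℚ_[l]) (d : ℕ), k.Root ρ → b ≤ d →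
      ‖k.io ρ ((j : k.K) / α)‖ = ((l : ℝ) ^ d)⁻¹ → ‖k.io ρ a‖ = ((l : ℝ) ^ (d - b))⁻¹ := by
    intro ρ d hρ hd h
    obtain ⟨d, rfl⟩ := Nat.exists_eq_add_of_le hd
    rw [hadef, io_div hρ, io_pow hρ, io_nat hρ, norm_div, h, norm_l_pow, Nat.add_sub_cancel_left,
      pow_add]
    field_simp
  have n1 := key r b₁ hr (min_le_left _ _) hb₁
  have n2 := key _ b₂ hr' (min_le_right _ _) hb₂
  have ha' : ∀ y ∈ L₂, a * y ∈ L₁ := by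
    intro y hy
    refine loc h1 h2 hN₁ (a := b) ?_ ?_ ?_
    · have : (l : k.K) ^ b * (a * y) = (j : k.K) / α * y := by rw [hadef]; field_simp
      rw [this]
      exact ha y hy
    · rw [io_mul hr, norm_mul, n1]
      exact mul_le_one₀ (inv_pow_le_one _) (norm_nonneg _) (norm_le_of_nrm hr h1 hN₂ hy)
    · rw [io_mul hr', norm_mul, n2]
      exact mul_le_one₀ (inv_pow_le_one _) (norm_nonneg _) (norm_le_of_nrm hr' h1' hN₂ hy)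
  obtain ⟨j', hj0, e2, -⟩ := index_mul hB hL₁ hL₂ (ne_zero_of_norm n1) ha'
  obtain ⟨e, N', hN', rfl⟩ := Nat.exists_eq_pow_mul_and_not_dvd hj0.ne' l hl.out.ne_one
  rw [mul_comm (l ^ e)] at e2
  have e3 : a * α * ((l ^ b : ℕ) : k.K) = j := by
    rw [hadef]
    push_cast
    field_simp
  have e4 := congrArg QuadraticAlgebra.norm e3
  rw [map_mul, map_mul, QuadraticAlgebra.norm_natCast, QuadraticAlgebra.norm_natCast] at e4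
  have e5 : ((N' * l ^ e : ℕ) : ℚ) * ((l ^ b : ℕ) : ℚ) ^ 2 = j := by
    have hjq : (j : ℚ) ≠ 0 := Nat.cast_ne_zero.2 hj.ne'
    refine mul_right_cancel₀ (mul_ne_zero hjq (mul_ne_zero hc₁.ne' hc₂.ne')) ?_
    linear_combination (c₁ * c₂) * e4 -
      ((l ^ b : ℕ) : ℚ) ^ 2 * (QuadraticAlgebra.norm α * c₁) * e2 -
      ((l ^ b : ℕ) : ℚ) ^ 2 * ((N' * l ^ e : ℕ) * c₁) * e1
  have hprod : ‖k.io r a‖ * ‖k.io ((k.t : ℚ_[l]) - r) a‖ = ((l : ℝ) ^ e)⁻¹ := by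
    have e6 := congrArg (fun z : ℚ => ‖(z : ℚ_[l])‖) e2
    simp only [Rat.cast_mul, Rat.cast_natCast, norm_mul, cov_unit hr h1 h2 hL₁ hN₁,
      cov_unit hr h1 h2 hL₂ hN₂, mul_one] at e6
    rw [← norm_mul, io_mul_io hr, e6, Nat.cast_mul, norm_mul, norm_nat_unit hN', one_mul,
      Nat.cast_pow, norm_l_pow]
  refine ⟨a, N', e, ha', e2, hN', ?_, ?_⟩
  · have e6 : N' * l ^ e * (l ^ b) ^ 2 = j := by exact_mod_cast e5
    have e7 : N' * l ^ e ≤ j := e6 ▸ Nat.le_mul_of_pos_right _ (pow_pos (pow_pos hl.out.pos b) 2)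
    have e8 : k.N α * c₁ = j * c₂ := by
      rw [N]
      exact_mod_cast e1
    rw [e8]
    exact mul_le_mul_of_nonneg_right (Nat.cast_le.2 e7) (by exact_mod_cast hc₂.le)
  · rcases le_total b₁ b₂ with h | h
    · rw [hb, min_eq_left h, Nat.sub_self, pow_zero, inv_one] at n1
      rw [n1, one_mul] at hprod
      exact Or.inr ⟨hprod, n1⟩
    · rw [hb, min_eq_right h, Nat.sub_self, pow_zero, inv_one] at n2
      rw [n2, mul_one] at hprod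
      exact Or.inl ⟨hprod, n2⟩

open Classical in
theorem smallN (hB : BasicStmt) (hPi : PiStmt) (hT : TightStmt) (hC : CollStmt) (hP : PathStmt)
    (hr : k.Root r) (hD : ¬ (l : ℤ) ∣ k.D) (hl2 : l ≠ 2) (R η₀ : ℝ) (hη₀ : 0 < η₀) :
    ∃ η : ℝ, 0 < η ∧ ∃ m f₀ : ℕ, ∀ (F : ℕ+) (L₁ L₂ : Submodule ℤ k.K) (c₁ c₂ : ℚ) (f : ℕ),
      ¬ l ∣ F → k.Lat L₁ c₁ → k.Lat L₂ c₂ → k.Adm F L₁ → k.Adm F L₂ → k.Nrm l L₁ → k.Nrm l L₂ →
      k.Cond L₁ f → f₀ ≤ f → ∀ (a : k.K) (N' e : ℕ), (∀ y ∈ L₂, a * y ∈ L₁) →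
      QuadraticAlgebra.norm a * c₂ = (N' * l ^ e : ℕ) * c₁ → ¬ l ∣ N' →
      ((N' * l ^ e : ℕ) : ℝ) ≤ (f : ℝ) ^ η → ‖k.io r a‖ = ((l : ℝ) ^ e)⁻¹ →
      ‖k.io ((k.t : ℚ_[l]) - r) a‖ = 1 →
      k.pr F (fun s => k.Ev l r 1 R m c₁ c₂ (act s L₁) (act s L₂)) ≤ η₀ := by
  obtain ⟨h1, h2, p, hp, h, h0, hn, hp1, hp2⟩ := hPi k l r hr hD
  have hl1 : (1 : ℝ) < l := one_lt_l
  have hl0 : (0 : ℝ) < l := by linarith
  have hh : (0 : ℝ) < h := by exact_mod_cast h0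
  have hDp := @absD_pos k
  set ε₀ : ℝ := η₀ / (8 * h) with hε₀
  have hε₀0 : 0 < ε₀ := by positivity
  obtain ⟨ε, hε, hT⟩ := hT k (min (η₀ / 8) (ε₀ * η₀ / 1600)) (by positivity)
  obtain ⟨η, c, hη, hc, m, κ₀, hP⟩ := hP l hl.out hl2 (16 * R * |(k.D : ℝ)| / ε ^ 2)
    (ε ^ 2 / (2 * |(k.D : ℝ)| * (l : ℝ) ^ h)) ε₀ (by positivity) hε₀0
  obtain ⟨C, hC⟩ := hC k l r hr hD (16 * |(k.D : ℝ)| / ε ^ 2) (c / 4) (by positivity)
  have hlim : Tendsto (fun κ : ℕ => 2 * |C| * ((l : ℝ) ^ (-(c / 2))) ^ κ) atTop (𝓝 0) := by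
    simpa using (tendsto_pow_atTop_nhds_zero_of_lt_one (by positivity)
      (Real.rpow_lt_one_of_one_lt_of_neg hl1 (by linarith : -(c / 2) < 0))).const_mul (2 * |C|)
  obtain ⟨κ₁, hκ₁⟩ := eventually_atTop.1
    (hlim.eventually (gt_mem_nhds (by positivity : (0 : ℝ) < (η₀ / 4) ^ 2)))
  refine ⟨min (η / 2) (1 / 8), by positivity, m + 1, l ^ (κ₀ + κ₁ + 4 * m + 2 * h), ?_⟩
  intro F L₁ L₂ c₁ c₂ f hF hL₁ hL₂ hA₁ hA₂ hN₁ hN₂ hf hf₀ a N' e ha haN hN' hsm ha1 ha2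
  have hf0 : f ≠ 0 := (lt_of_lt_of_le (pow_pos hl.out.pos _) hf₀).ne'
  set κ := Nat.log l f with hκ
  have k1 : l ^ κ ≤ f := Nat.pow_log_le_self l hf0
  have k2 : f < l ^ (κ + 1) := Nat.lt_pow_succ_log_self hl.out.one_lt f
  have k3 : κ₀ + κ₁ + 4 * m + 2 * h ≤ κ := Nat.le_log_of_pow_le hl.out.one_lt hf₀
  have k4 : 1 ≤ κ := by omega
  have k4' : (1 : ℝ) ≤ κ := by exact_mod_cast k4
  have k5 : ∀ θ : ℝ, 0 ≤ θ → min (η / 2) (1 / 8) ≤ θ →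
      ((N' * l ^ e : ℕ) : ℝ) ≤ (l : ℝ) ^ (2 * θ * κ) := by
    intro θ hθ hθ'
    have a1 : (1 : ℝ) ≤ f := by exact_mod_cast Nat.pos_of_ne_zero hf0
    have a2 : (f : ℝ) ≤ (l : ℝ) ^ (κ + 1) := by exact_mod_cast k2.le
    refine hsm.trans ((Real.rpow_le_rpow_of_exponent_le a1 hθ').trans
      ((Real.rpow_le_rpow (by linarith) a2 hθ).trans ?_))
    rw [← Real.rpow_natCast, ← Real.rpow_mul hl0.le]
    refine Real.rpow_le_rpow_of_exponent_le hl1.le ?_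
    push_cast
    nlinarith
  have k6 : ((N' * l ^ e : ℕ) : ℝ) ≤ (l : ℝ) ^ (η * κ) := by
    have := k5 (η / 2) (by positivity) (min_le_left _ _)
    rwa [mul_div_cancel₀ η two_ne_zero] at this
  have k7 : 4 * e ≤ κ := by
    have a1 := k5 (1 / 8) (by positivity) (min_le_right _ _)
    have a2 : l ^ e ≤ N' * l ^ e :=
      Nat.le_mul_of_pos_left _ (Nat.pos_of_ne_zero fun h => hN' (h ▸ dvd_zero l))
    have a3 : (l : ℝ) ^ (e : ℝ) ≤ (l : ℝ) ^ (2 * (1 / 8 : ℝ) * κ) := by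
      rw [Real.rpow_natCast]
      exact le_trans (by exact_mod_cast a2) a1
    have a4 := (Real.rpow_le_rpow_left_iff hl1).1 a3
    have a5 : ((4 * e : ℕ) : ℝ) ≤ κ := by
      push_cast
      linarith
    exact_mod_cast a5
  set n := κ / (2 * h) with hn'
  have n1 : 2 * (h * n) ≤ κ := by
    rw [← mul_assoc]
    exact Nat.mul_div_le κ (2 * h)
  have n2 : 0 < n := Nat.div_pos (by omega) (by omega)
  have n3 : ε₀ * κ ≤ n * η₀ / 2 := by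
    have a1 : κ < 2 * h * (n + 1) := Nat.lt_mul_div_succ κ (by omega)
    have a2 : κ ≤ 4 * h * n := by nlinarith
    have a3 : (κ : ℝ) ≤ 4 * h * n := by exact_mod_cast a2
    rw [hε₀, div_mul_eq_mul_div, div_le_iff₀ (by positivity)]
    nlinarith
  obtain ⟨τ, hτ⟩ := shift hB hr h1 h2 hF hp hn hp2
  have act₁ := ((hB k).2.2.2.2.2.2.2.1 F L₁ c₁ hL₁ hA₁).2
  have act₂ := ((hB k).2.2.2.2.2.2.2.1 F L₂ c₂ hL₂ hA₂).2
  have nrm₁ := fun s => (act₁ s).2.2.2.2.1 l hl.out hF hN₁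
  have nrm₂ := fun s => (act₂ s).2.2.2.2.1 l hl.out hF hN₂
  have hch : ∀ s : k.SF F, ∃ x y φ, ¬ Short k (act s L₁) c₁ ε →
      Bas k (act s L₁) c₁ ε x y ∧ Appr r κ x y φ := by
    intro s
    by_cases hs : Short k (act s L₁) c₁ ε
    · exact ⟨0, 0, 0, fun h => absurd hs h⟩
    obtain ⟨x, y, hb⟩ := exists_bas hB (act₁ s).1 hε hs
    obtain ⟨φ, hφ⟩ := exists_apprx hr h1 (nrm₁ s) hb κ
    exact ⟨x, y, φ, fun _ => ⟨hb, hφ⟩⟩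
  choose x y φ hxy using hch
  have hG : (0 : ℝ) < Fintype.card (k.SF F) := by exact_mod_cast Fintype.card_pos
  by_contra hcon
  rw [not_le, pr_eq, lt_div_iff₀ hG] at hcon
  have hS := hT F L₁ c₁ hL₁ hA₁
  rw [pr_eq, div_le_iff₀ hG] at hS
  have hmany := many_good (fun s => k.Ev l r 1 R (m + 1) c₁ c₂ (act s L₁) (act s L₂))
    (fun s => Short k (act s L₁) c₁ ε) τ (n := n) (κ := κ) (h := h) (δ := ε₀ * κ / 100) hη₀ n2
    (by positivity) hcon.le hS (by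
      have a1 := min_le_right (η₀ / 8) (ε₀ * η₀ / 1600)
      have a2 : ((κ : ℝ) + 1) * min (η₀ / 8) (ε₀ * η₀ / 1600) ≤ (2 * κ) * (ε₀ * η₀ / 1600) :=
        mul_le_mul (by linarith) a1 (by positivity) (by positivity)
      linarith) (min_le_left _ _)
  obtain ⟨T, hT1, hT2⟩ := hP κ (by omega)
  have hcs := cauchy (T := T) (f := fun s => ch l (φ s) κ)
    (C := fun s s' => ∃ α β : k.K, (act s L₁).map (k.lin α β) = act s' L₁ ∧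
      k.N α ≤ 16 * |(k.D : ℝ)| / ε ^ 2 ∧ k.N β ≤ 16 * |(k.D : ℝ)| / ε ^ 2 ∧
      ‖k.io r β‖ ≤ ((l : ℝ) ^ κ)⁻¹)
    (Gd := Finset.univ.filter fun s =>
      n * η₀ / 2 ≤ (((Finset.range n).filter fun i =>
        k.Ev l r 1 R (m + 1) c₁ c₂ (act (τ ^ i * s) L₁) (act (τ ^ i * s) L₂)).card : ℝ) ∧
      (((Finset.range (κ + 1)).filter fun q =>
        Short k (act (τ ^ (q / h) * s) L₁) c₁ ε).card : ℝ) ≤ ε₀ * κ / 100 ∧
      ¬ Short k (act s L₁) c₁ ε)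
    (fun s hs => by
      obtain ⟨g1, g2, g3⟩ := (Finset.mem_filter.1 hs).2
      exact hT2 _ (follows hB hr h1 h2 h0 hn hp1 (A := fun i => act (τ ^ i * s) L₁)
        (B := fun i => act (τ ^ i * s) L₂) (act₁ s).1 (act₂ s).1 (nrm₁ s) (nrm₂ s)
        (fun i => ⟨(act₁ _).1, nrm₁ _⟩) (fun i => ⟨(act₂ _).1, nrm₂ _⟩)
        (hτ L₁ c₁ hL₁ hA₁ hN₁ s) (hτ L₂ c₂ hL₂ hA₂ hN₂ s) (act_mul_mem s ha) ha1 ha2 haN hN' hε k4
        k6 (hxy s g3).1 (hxy s g3).2 g2 (n := n) (by omega) (n3.trans g1)))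
    (fun s hs s' hs' e => collide hr h1 h2 hp h0 hp1 hp2 (nrm₁ s) (nrm₁ s') hε
      (hxy s (Finset.mem_filter.1 hs).2.2.2).1 (hxy s' (Finset.mem_filter.1 hs').2.2.2).1
      (hxy s (Finset.mem_filter.1 hs).2.2.2).2 (hxy s' (Finset.mem_filter.1 hs').2.2.2).2 e)
  have hco := hC F L₁ c₁ f κ hF hL₁ hA₁ hN₁ hf
  simp only [avg, pr_eq] at hco
  rw [← Finset.sum_div, div_div, div_le_iff₀ (mul_pos hG hG)] at hco
  have b1 := (pow_le_pow_left₀ (by positivity) hmany 2).trans (hcs.trans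
    (mul_le_mul_of_nonneg_left hco (Nat.cast_nonneg _)))
  have b2 := (final_bound (C := C) hl.out.one_lt hc k4 k1 k2 (Nat.cast_nonneg _) hT1).trans_lt
    (hκ₁ κ (by omega))
  have b3 := mul_lt_mul_of_pos_right b2 (mul_pos hG hG)
  linarith

omit hl in
theorem pr_mono {F : ℕ+} {P Q : k.SF F → Prop} (h : ∀ s, P s → Q s) : k.pr F P ≤ k.pr F Q := by
  classical
  rw [pr_eq, pr_eq]
  refine div_le_div_of_nonneg_right (Nat.cast_le.2 (Finset.card_le_card fun s hs => ?_))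
    (by positivity)
  simp only [Finset.mem_filter, Finset.mem_univ, true_and] at hs ⊢
  exact h s hs

end Small

open _root_.Pool.Agent.Lib.MP_9177b7_ag.J.Small in
theorem small : BasicStmt → RepStmt → PiStmt → TightStmt → CollStmt → PathStmt → SmallStmt := by
  intro hB _ hPi hT hC hP k l hl r hr hD hl2 R η₀ hη₀
  obtain ⟨h1, h2, -⟩ := hPi k l r hr hD
  obtain ⟨η, hη, m, f₀, H⟩ := smallN hB hPi hT hC hP hr hD hl2 R η₀ hη₀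
  obtain ⟨η', hη', m', f₀', H'⟩ := smallN hB hPi hT hC hP (root_conj hr) hD hl2 R η₀ hη₀
  refine ⟨min η η', lt_min hη hη', max m m', f₀ + f₀' + 1, ?_⟩
  rintro F L₁ L₂ c₁ c₂ f hF hL₁ hL₂ hA₁ hA₂ hN₁ hN₂ hf hf₀ ⟨α, hα, hle, hsm⟩
  obtain ⟨a, N', e, ha, haN, hN', hb, hn⟩ := normalise hB hr h1 h2 hL₁ hL₂ hN₁ hN₂ hα hle
  have hc₂ : (0 : ℝ) < c₂ := by
    obtain ⟨_, _, _, _, h⟩ := hL₂
    exact_mod_cast h
  have hb' := le_of_mul_le_mul_right (hb.trans hsm) hc₂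
  have hf1 : (1 : ℝ) ≤ f := by exact_mod_cast (by omega : 1 ≤ f)
  rcases hn with ⟨n1, n2⟩ | ⟨n1, n2⟩
  · refine le_trans (pr_mono ?_) (H F L₁ L₂ c₁ c₂ f hF hL₁ hL₂ hA₁ hA₂ hN₁ hN₂ hf (by omega)
      a N' e ha haN hN' (hb'.trans (Real.rpow_le_rpow_of_exponent_le hf1 (min_le_left _ _))) n1 n2)
    rintro s ⟨α, β, a1, a2, a3, a4, a5, a6, a7⟩
    exact ⟨α, β, a1, a2, a3, a4, a5, a6.trans (inv_pow_anti (le_max_left _ _)),
      a7.trans (inv_pow_anti (le_max_left _ _))⟩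
  · refine le_trans (pr_mono ?_) (H' F L₁ L₂ c₁ c₂ f hF hL₁ hL₂ hA₁ hA₂ hN₁ hN₂ hf (by omega)
      a N' e ha haN hN' (hb'.trans (Real.rpow_le_rpow_of_exponent_le hf1 (min_le_right _ _))) n1
      (by rwa [sub_sub_cancel]))
    rintro s ⟨α, β, a1, a2, a3, a4, a5, a6, a7⟩
    refine ⟨α, β, a1, a2, a3, a4, a5, a7.trans (inv_pow_anti (le_max_right _ _)), ?_⟩
    rw [sub_sub_cancel]
    exact a6.trans (inv_pow_anti (le_max_right _ _))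

end Pool.Agent.Lib.MP_9177b7_ag.J
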