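import Pool.Agent.Lib.MP_9177b7_ag.J.Tight1
import Pool.Agent.Lib.MP_30b5ba_nt.Variance

/-!
No escape of mass for the orbits of `(O / F O)ˣ`.
-/

noncomputable section

namespace Pool.Agent.Lib.MP_9177b7_ag.J

namespace Tight

open Finset Fld

variable {k : Fld} {F : ℕ+}

lemma pr_mono {P Q : k.SF F → Prop} (h : ∀ s, P s → Q s) : k.pr F P ≤ k.pr F Q := by
  unfold pr avg
  refine div_le_div_of_nonneg_right (sum_le_sum fun s _ => ?_) (Nat.cast_nonneg _)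
  by_cases hs : P s
  · rw [if_pos hs, if_pos (h s hs)]
  · rw [if_neg hs]
    split_ifs <;> norm_num

lemma pr_zero {P : k.SF F → Prop} (h : ∀ s, ¬ P s) : k.pr F P = 0 := by
  simp [pr, avg, h]

lemma pr_le_sum {ι : Type} (I : Finset ι) (E : ι → k.SF F → Prop) :
    k.pr F (fun s => ∃ i ∈ I, E i s) ≤ ∑ i ∈ I, k.pr F (E i) := by
  unfold pr avg
  rw [← sum_div, sum_comm]
  refine div_le_div_of_nonneg_right (sum_le_sum fun s _ => ?_) (Nat.cast_nonneg _)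
  have h0 : ∀ i ∈ I, (0 : ℝ) ≤ @ite ℝ (E i s) (Classical.propDecidable _) 1 0 := fun i _ => by
    split_ifs <;> norm_num
  split_ifs with h
  · obtain ⟨i, hi, h⟩ := h
    exact le_trans (by rw [if_pos h]) (single_le_sum h0 hi)
  · exact sum_nonneg h0

/-- First coordinate of the lift. -/
def s1 (s : k.SF F) : ℤ := s.val.re.val

/-- Second coordinate of the lift. -/
def s2 (s : k.SF F) : ℤ := s.val.im.val

lemma lift_eq (s : k.SF F) : lift s = ⟨s1 s, s2 s⟩ := by simp [lift, s1, s2]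

lemma norm_coprime (s : k.SF F) :
    IsCoprime (s1 s ^ 2 + k.t * s1 s * s2 s + k.n * s2 s ^ 2) (F : ℕ) := by
  have h := QuadraticAlgebra.isUnit_iff_norm_isUnit.1 s.isUnit
  refine ((ZMod.coe_int_isUnit_iff_isCoprime _ _).1 ?_).symm
  rw [QuadraticAlgebra.norm_def] at h
  have e : ((s1 s ^ 2 + k.t * s1 s * s2 s + k.n * s2 s ^ 2 : ℤ) : ZMod F) =
      s.val.re * s.val.re + k.t * s.val.re * s.val.im - -k.n * s.val.im * s.val.im := by
    simp only [s1, s2]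
    push_cast
    rw [ZMod.natCast_zmod_val, ZMod.natCast_zmod_val]
    ring
  rwa [e]

/-- The point `p` is a unit multiple of the image of `s` modulo `c`. -/
def Ev (G : Fm k) (c : ℕ) (p : ℤ × ℤ) (s : k.SF F) : Prop :=
  ∃ u z1 z2 : ℤ, IsCoprime u c ∧ p.1 = u * (s1 s * G.l1 + s2 s * G.m1) + c * z1 ∧
    p.2 = u * (s1 s * G.l2 + s2 s * G.m2) + c * z2

lemma pr_Ev (hP : PsiStmt) (G : Fm k) {c : ℕ} (hc : c ∣ F) (hj : IsCoprime G.j (F : ℕ))
    (p : ℤ × ℤ) : k.pr F (Ev G c p) ≤ 1 / k.psi c := by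
  by_cases h : ∃ s₀ : k.SF F, Ev G c p s₀
  · obtain ⟨s₀, u₀, w1, w2, h0, h1, h2⟩ := h
    rw [← (hP k).2.1 F c s₀ hc]
    refine pr_mono ?_
    rintro s ⟨u, z1, z2, h3, h4, h5⟩
    have h6 : IsCoprime (c : ℤ) (u * u₀ * G.j) :=
      ((h3.mul_left h0).mul_left (hj.of_isCoprime_of_dvd_right (by exact_mod_cast hc))).symm
    obtain ⟨z, hz⟩ : (c : ℤ) ∣ s2 s * s1 s₀ - s1 s * s2 s₀ := by
      refine h6.dvd_of_dvd_mul_left ⟨z1 * p.2 - z2 * p.1 + p.1 * w2 - p.2 * w1 +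
        c * (z2 * w1 - z1 * w2), ?_⟩
      have e1 : u * (s1 s * G.l1 + s2 s * G.m1) = p.1 - c * z1 := by linear_combination -h4
      have e2 : u * (s1 s * G.l2 + s2 s * G.m2) = p.2 - c * z2 := by linear_combination -h5
      have e3 : u₀ * (s1 s₀ * G.l1 + s2 s₀ * G.m1) = p.1 - c * w1 := by linear_combination -h1
      have e4 : u₀ * (s1 s₀ * G.l2 + s2 s₀ * G.m2) = p.2 - c * w2 := by linear_combination -h2
      rw [Fm.j]
      linear_combination (u₀ * (s1 s₀ * G.l1 + s2 s₀ * G.m1)) * e2 + (p.2 - c * z2) * e3 -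
        (u₀ * (s1 s₀ * G.l2 + s2 s₀ * G.m2)) * e1 - (p.1 - c * z1) * e4
    refine ⟨z, ?_⟩
    have := congrArg (Int.cast : ℤ → ℚ) hz
    push_cast at this
    simp only [lift_eq, QuadraticAlgebra.im_mul, QuadraticAlgebra.re_star, QuadraticAlgebra.im_star]
    linear_combination this
  · rw [pr_zero fun s hs => h ⟨s, hs⟩]
    exact one_div_nonneg.2 ((Nat.cast_nonneg _).trans ((hP k).2.2.1 c))

lemma Ev.not_dvd {G : Fm k} {c : ℕ} (hc : c ∣ F) (hj : IsCoprime G.j (F : ℕ)) {p : ℤ × ℤ}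
    {s : k.SF F} (h : Ev G c p s) : ∀ q ∈ c.primeFactors, ¬ (q : ℤ) ∣ G.Q p := by
  obtain ⟨u, z1, z2, h0, h1, h2⟩ := h
  intro q hq hd
  have hc' : (c : ℤ) ∣ (F : ℕ) := by exact_mod_cast hc
  have h3 : IsCoprime (u ^ 2 * (G.j * (s1 s ^ 2 + k.t * s1 s * s2 s + k.n * s2 s ^ 2))) c :=
    h0.pow_left.mul_left ((hj.mul_left (norm_coprime s)).of_isCoprime_of_dvd_right hc')
  have h4 : (q : ℤ) ∣ c := by exact_mod_cast Nat.dvd_of_mem_primeFactors hq
  have h5 : u ^ 2 * (G.j * (s1 s ^ 2 + k.t * s1 s * s2 s + k.n * s2 s ^ 2)) = G.Q p - c *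
      (G.α * z1 * (2 * p.1 - c * z1) + G.β * (p.1 * z2 + p.2 * z1 - c * z1 * z2) +
        G.γ * z2 * (2 * p.2 - c * z2)) := by
    rw [Fm.j, ← G.rel, Fm.Q, h1, h2]
    ring
  have := Int.isUnit_iff_natAbs_eq.1 (h3.isUnit_of_dvd'
    (by rw [h5]; exact dvd_sub hd (h4.mul_right _)) h4)
  exact (Nat.prime_of_mem_primeFactors hq).one_lt.ne' (by simpa using this)

lemma mem_O {u : k.K} (h : u ∈ k.O) : ∃ w1 w2 : ℤ, u = ⟨w1, w2⟩ := by
  obtain ⟨a, b, rfl⟩ := Submodule.mem_span_pair.1 h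
  exact ⟨a, b, by ext <;> simp [om]⟩

lemma adm_one (L : Submodule ℤ k.K) : k.Adm 1 (k.O * L) := by
  intro x hx
  refine Submodule.mul_induction_on hx (fun u hu y hy => ?_) fun a b ha hb => ?_
  · rw [← mul_assoc]
    refine Submodule.mul_mem_mul ?_ hy
    obtain ⟨a, b, rfl⟩ := mem_O hu
    exact Submodule.mem_span_pair.2 ⟨-k.n * b, a + k.t * b, by ext <;> simp [om]⟩
  · rw [mul_add]
    exact add_mem ha hb

lemma coord_le {α β γ D : ℤ} (hα : 0 ≤ α) (hγ : 0 ≤ γ) (hD : 0 < D) (h : 4 * α * γ - β ^ 2 = D)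
    (h' : α * γ ≤ D) (a b : ℤ) : a ^ 2 ≤ 4 * (α * a ^ 2 + β * a * b + γ * b ^ 2) := by
  have h1 : 0 < α * γ := by nlinarith [sq_nonneg β]
  have h2 : 0 < α := lt_of_le_of_ne hα fun e => by rw [← e] at h1; simp at h1
  have h3 : 0 < γ := lt_of_le_of_ne hγ fun e => by rw [← e] at h1; simp at h1
  have h4 : γ ≤ D := by nlinarith
  have h5 : D * a ^ 2 ≤ γ * (4 * (α * a ^ 2 + β * a * b + γ * b ^ 2)) := by
    rw [← h]
    nlinarith [sq_nonneg (β * a + 2 * γ * b)]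
  exact le_of_mul_le_mul_left ((mul_le_mul_of_nonneg_right h4 (sq_nonneg a)).trans h5) h3

theorem model (hB : BasicStmt) (hR : RepStmt) {L : Submodule ℤ k.K} {c : ℚ} (hL : k.Lat L c)
    (hF : k.Adm F L) : ∃ (G : Fm k) (f : ℕ), 0 < f ∧ f ∣ F ∧ IsCoprime G.j (F : ℕ) ∧
      ∀ (ε : ℝ) (s : k.SF F), (∃ v ∈ act s L, v ≠ 0 ∧ k.N v ≤ ε * c) →
        ∃ e ∈ f.divisors.filter fun e : ℕ => 1 ≤ ε * e ^ 2 / f,
          ∃ p ∈ pts G e (ε * e ^ 2 / f), Ev G e p s := by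
  obtain ⟨-, -, -, -, -, b6, b7, b8, -⟩ := hB k
  obtain ⟨f, hf, hC, hA, hg⟩ := b7 L c hL
  obtain ⟨lam, hl, hL1, hL2⟩ := hg F F.pos
  have hfF : f ∣ F := (hC F).1 hF
  obtain ⟨x, y, hxy, hdet, -, -, hN⟩ := b6 _ _ hA
  have ha : 0 < c / f := by
    obtain ⟨_, _, _, _, h⟩ := hA
    exact h
  set a := c / f with had
  have hmem : ∀ v, v ∈ k.O * L ↔ ∃ u1 u2 : ℤ, v = u1 * x + u2 * y := fun v => by
    rw [hxy, Submodule.mem_span_pair]
    simp only [zsmul_eq_mul, eq_comm]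
  have hx : x ∈ k.O * L := (hmem x).2 ⟨1, 0, by simp⟩
  have hy : y ∈ k.O * L := (hmem y).2 ⟨0, 1, by simp⟩
  obtain ⟨α, hα⟩ := (hR k).2.2 _ _ hA (adm_one L) x hx
  obtain ⟨γ, hγ⟩ := (hR k).2.2 _ _ hA (adm_one L) y hy
  obtain ⟨σ, hσ⟩ := (hR k).2.2 _ _ hA (adm_one L) _ (add_mem hx hy)
  set β : ℤ := σ - α - γ with hβ
  rw [det2] at hdet
  have hNm : ∀ u1 u2 : ℤ, QuadraticAlgebra.norm ((u1 : k.K) * x + (u2 : k.K) * y) =
      ((α * u1 ^ 2 + β * u1 * u2 + γ * u2 ^ 2 : ℤ) : ℚ) * a := fun u1 u2 => by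
    rw [QuadraticAlgebra.norm_def] at hα hγ hσ ⊢
    simp only [hβ, QuadraticAlgebra.re_add, QuadraticAlgebra.im_add, QuadraticAlgebra.re_mul,
      QuadraticAlgebra.im_mul, QuadraticAlgebra.re_intCast, QuadraticAlgebra.im_intCast] at hσ ⊢
    push_cast
    linear_combination ((u1 : ℚ) ^ 2 - u1 * u2) * hα + ((u2 : ℚ) ^ 2 - u1 * u2) * hγ + u1 * u2 * hσ
  have hinj : ∀ u1 u2 v1 v2 : ℤ, (u1 * x + u2 * y : k.K) = v1 * x + v2 * y → u1 = v1 ∧ u2 = v2 := by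
    intro u1 u2 v1 v2 e
    have e1 := congrArg QuadraticAlgebra.re e
    have e2 := congrArg QuadraticAlgebra.im e
    simp only [QuadraticAlgebra.re_add, QuadraticAlgebra.im_add, QuadraticAlgebra.re_mul,
      QuadraticAlgebra.im_mul, QuadraticAlgebra.re_intCast, QuadraticAlgebra.im_intCast] at e1 e2
    constructor
    · have : (u1 : ℚ) * a = v1 * a := by
        linear_combination y.im * e1 - y.re * e2 - ((u1 : ℚ) - v1) * hdet
      exact_mod_cast mul_right_cancel₀ ha.ne' this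
    · have : (u2 : ℚ) * a = v2 * a := by
        linear_combination x.re * e2 - x.im * e1 - ((u2 : ℚ) - v2) * hdet
      exact_mod_cast mul_right_cancel₀ ha.ne' this
  obtain ⟨l1, l2, el⟩ := (hmem lam).1 (by
    have h1 : (1 : k.K) ∈ k.O := Submodule.subset_span (by simp)
    have h2 := Submodule.mul_mem_mul h1 hl
    rwa [one_mul] at h2)
  obtain ⟨m1, m2, em⟩ := (hmem (k.om * lam)).1
    (Submodule.mul_mem_mul (Submodule.subset_span (by simp)) hl)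
  have hmul : ∀ w1 w2 : ℤ, (⟨w1, w2⟩ : k.K) * lam =
      ((w1 * l1 + w2 * m1 : ℤ) : k.K) * x + ((w1 * l2 + w2 * m2 : ℤ) : k.K) * y := fun w1 w2 => by
    have e : (⟨w1, w2⟩ : k.K) = w1 + w2 * k.om := by ext <;> simp [om]
    rw [e]
    push_cast
    linear_combination (w1 : k.K) * el + (w2 : k.K) * em
  have hj : QuadraticAlgebra.norm lam = ((l1 * m2 - l2 * m1 : ℤ) : ℚ) * a := by
    have e1 := congrArg QuadraticAlgebra.re el
    have e2 := congrArg QuadraticAlgebra.im el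
    have e3 := congrArg QuadraticAlgebra.re em
    have e4 := congrArg QuadraticAlgebra.im em
    simp only [QuadraticAlgebra.re_add, QuadraticAlgebra.im_add, QuadraticAlgebra.re_mul, om,
      QuadraticAlgebra.im_mul, QuadraticAlgebra.re_intCast, QuadraticAlgebra.im_intCast] at e1 e2 e3 e4
    rw [QuadraticAlgebra.norm_def]
    push_cast
    linear_combination lam.re * e4 - lam.im * e3 + (m1 * x.im + m2 * y.im) * e1 -
      (m1 * x.re + m2 * y.re) * e2 + ((l1 : ℚ) * m2 - l2 * m1) * hdet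
  let G : Fm k := ⟨α, β, γ, l1, l2, m1, m2, fun w1 w2 => by
    have h1 := hNm (w1 * l1 + w2 * m1) (w1 * l2 + w2 * m2)
    rw [← hmul, map_mul, hj, QuadraticAlgebra.norm_def] at h1
    have h2 : ((α * (w1 * l1 + w2 * m1) ^ 2 + β * (w1 * l1 + w2 * m1) * (w1 * l2 + w2 * m2) +
        γ * (w1 * l2 + w2 * m2) ^ 2 : ℤ) : ℚ) * a =
        (((l1 * m2 - l2 * m1) * (w1 ^ 2 + k.t * w1 * w2 + k.n * w2 ^ 2) : ℤ) : ℚ) * a := by
      rw [← h1]
      push_cast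
      ring
    exact_mod_cast mul_right_cancel₀ ha.ne' h2⟩
  have hgen : ∀ v1 v2 : ℤ, ∃ w1 w2 z1 z2 : ℤ, v1 = w1 * l1 + w2 * m1 + (F : ℕ) * z1 ∧
      v2 = w1 * l2 + w2 * m2 + (F : ℕ) * z2 := fun v1 v2 => by
    obtain ⟨u, hu, z, hz, e⟩ := hL2 _ ((hmem _).2 ⟨v1, v2, rfl⟩)
    obtain ⟨w1, w2, rfl⟩ := mem_O hu
    obtain ⟨z1, z2, rfl⟩ := (hmem z).1 hz
    refine ⟨w1, w2, z1, z2, hinj _ _ _ _ ?_⟩
    rw [e, hmul]
    push_cast
    ring
  have hcop : IsCoprime G.j (F : ℕ) := by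
    obtain ⟨w1, w2, z1, z2, h1, h2⟩ := hgen 1 0
    obtain ⟨w3, w4, z3, z4, h3, h4⟩ := hgen 0 1
    refine ⟨w1 * w4 - w2 * w3, z1 * (w3 * l2 + w4 * m2) + (w1 * l1 + w2 * m1) * z4 +
      (F : ℕ) * z1 * z4 - z2 * (w3 * l1 + w4 * m1) - (w1 * l2 + w2 * m2) * z3 -
      (F : ℕ) * z2 * z3, ?_⟩
    change _ * (l1 * m2 - l2 * m1) + _ = _
    linear_combination -(w3 * l2 + w4 * m2 + (F : ℕ) * z4) * h1 - h4 +
      (w3 * l1 + w4 * m1 + (F : ℕ) * z3) * h2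
  have hD : 0 < -k.D := neg_pos.2 k.neg
  have hdisc : 4 * (α : ℤ) * γ - β ^ 2 = -k.D := by
    have : ((4 * (α : ℤ) * γ - β ^ 2 : ℤ) : ℚ) * a ^ 2 = ((-k.D : ℤ) : ℚ) * a ^ 2 := by
      rw [QuadraticAlgebra.norm_def] at hα hγ hσ
      simp only [QuadraticAlgebra.re_add, QuadraticAlgebra.im_add] at hσ
      have e : ((σ : ℚ) - α - γ) * a = 2 * x.re * y.re + k.t * (x.re * y.im + x.im * y.re) +
          2 * k.n * x.im * y.im := by linear_combination hα + hγ - hσ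
      have e' : ((4 * (α : ℤ) * γ - β ^ 2 : ℤ) : ℚ) * a ^ 2 =
          4 * (α * a) * (γ * a) - (((σ : ℚ) - α - γ) * a) ^ 2 := by
        rw [hβ]
        push_cast
        ring
      rw [e', e, ← hα, ← hγ, ← hdet, Fld.D]
      push_cast
      ring
    exact_mod_cast mul_right_cancel₀ (pow_ne_zero 2 ha.ne') this
  have ha' : (0 : ℝ) < a := by exact_mod_cast ha
  have hαγ : (α : ℤ) * γ ≤ -k.D := by
    rw [N, N, hα, hγ, abs_of_neg (by exact_mod_cast k.neg)] at hN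
    push_cast at hN
    have : (α : ℝ) * γ * (a : ℝ) ^ 2 ≤ -k.D * (a : ℝ) ^ 2 := by linarith
    exact_mod_cast le_of_mul_le_mul_right this (by positivity)
  have hb1 : ∀ p : ℤ × ℤ, p.1 ^ 2 ≤ 4 * G.Q p := fun p =>
    coord_le (Int.natCast_nonneg α) (Int.natCast_nonneg γ) hD hdisc hαγ p.1 p.2
  have hb2 : ∀ p : ℤ × ℤ, p.2 ^ 2 ≤ 4 * G.Q p := fun p => by
    have := coord_le (β := β) (Int.natCast_nonneg γ) (Int.natCast_nonneg α) hD
      (by linear_combination hdisc) (by rwa [mul_comm]) p.2 p.1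
    change _ ≤ 4 * ((α : ℤ) * p.1 ^ 2 + β * p.1 * p.2 + γ * p.2 ^ 2)
    linarith
  refine ⟨G, f, hf, hfF, hcop, ?_⟩
  rintro ε s ⟨v, hv, hv0, hvN⟩
  obtain ⟨a0, z, hz, e⟩ := ((((b8 F L c hL hF).2 s).2.2.2.2.2.2.2.2 f lam hL1 hfF) v).1 hv
  obtain ⟨z1, z2, rfl⟩ := (hmem z).1 hz
  have hd : 0 < Int.gcd a0 f := Int.gcd_pos_of_ne_zero_right _ (by exact_mod_cast hf.ne')
  obtain ⟨u, e0, hcp, h1, h2⟩ := Int.exists_gcd_one hd
  obtain ⟨e1, he1⟩ : Int.gcd a0 f ∣ f := by exact_mod_cast Int.gcd_dvd_right a0 f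
  generalize Int.gcd a0 f = d at hd h1 h2 he1
  obtain rfl : e0 = e1 := mul_right_cancel₀ (by exact_mod_cast hd.ne' : (d : ℤ) ≠ 0)
    (by rw [← h2, he1]; push_cast; ring)
  let p : ℤ × ℤ := (u * (s1 s * l1 + s2 s * m1) + e1 * z1, u * (s1 s * l2 + s2 s * m2) + e1 * z2)
  have hE : Ev G e1 p s := ⟨u, z1, z2, Int.isCoprime_iff_gcd_eq_one.2 hcp, rfl, rfl⟩
  have ev : v = (d : k.K) * ((p.1 : k.K) * x + (p.2 : k.K) * y) := by
    rw [e, lift_eq, hmul, h1, he1]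
    simp only [p]
    push_cast
    ring
  have hq1 : 1 ≤ G.Q p := by
    by_contra h
    have h3 : p.1 = 0 := by nlinarith [hb1 p, sq_nonneg p.1, sq_pos_of_ne_zero (a := p.1)]
    have h4 : p.2 = 0 := by nlinarith [hb2 p, sq_nonneg p.2, sq_pos_of_ne_zero (a := p.2)]
    exact hv0 (by rw [ev, h3, h4]; simp)
  have hf' : (0 : ℝ) < f := by exact_mod_cast hf
  have hd' : (0 : ℝ) < d := by exact_mod_cast hd
  have hq2 : (G.Q p : ℝ) ≤ ε * e1 ^ 2 / f := by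
    have ec : (c : ℝ) = a * f := by
      rw [had]
      push_cast
      field_simp
    have ef : (f : ℝ) = d * e1 := by exact_mod_cast he1
    rw [N, ev, map_mul, hNm, QuadraticAlgebra.norm_natCast, ec] at hvN
    rw [Rat.cast_mul, Rat.cast_mul, Rat.cast_intCast, Rat.cast_pow, Rat.cast_natCast] at hvN
    change (d : ℝ) ^ 2 * ((G.Q p : ℝ) * a) ≤ _ at hvN
    rw [le_div_iff₀ hf']
    refine le_of_mul_le_mul_left ?_ (by positivity : (0 : ℝ) < d ^ 2 * a)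
    calc _ = (d : ℝ) ^ 2 * ((G.Q p : ℝ) * a) * f := by ring
      _ ≤ ε * (a * f) * f := by gcongr
      _ = _ := by rw [ef]; ring
  have he : e1 ∣ f := Dvd.intro_left d he1.symm
  refine ⟨e1, mem_filter.2 ⟨Nat.mem_divisors.2 ⟨he, hf.ne'⟩, le_trans (by exact_mod_cast hq1) hq2⟩,
    p, mem_pts G e1 ?_ ?_ (hE.not_dvd (he.trans hfF) hcop), hE⟩
  · have : ((p.1 ^ 2 : ℤ) : ℝ) ≤ ((4 * G.Q p : ℤ) : ℝ) := Int.cast_le.2 (hb1 p)
    push_cast at this ⊢
    linarith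
  · have : ((p.2 ^ 2 : ℤ) : ℝ) ≤ ((4 * G.Q p : ℤ) : ℝ) := Int.cast_le.2 (hb2 p)
    push_cast at this ⊢
    linarith

lemma small_case {C1 C2 η T ε f e τ φ X : ℝ} (hη : 0 < η) (hT : 1 ≤ T) (hC2 : 0 ≤ C2)
    (hT' : 50 * C1 * (C2 + 1) ≤ η * T) (hε : 0 < ε) (hε' : ε ≤ 1 / T ^ 48) (hf : 1 ≤ f)
    (he : 0 < e) (hef : e ≤ f) (hτ : 0 < τ) (hτ' : τ ^ 16 ≤ C2 * f) (hφ0 : 0 ≤ φ)
    (hφ : e ≤ C1 * e ^ (1 / 12 : ℝ) * φ) (hX : X = ε * e ^ 2 / f) (h1 : 1 ≤ X) (h2 : X ^ 3 < f) :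
    0 < φ ∧ 25 * X / φ ≤ η / (2 * τ) := by
  have hf0 : 0 < f := by linarith
  obtain ⟨g, hg1, rfl⟩ : ∃ g : ℝ, 1 ≤ g ∧ f = g ^ 48 :=
    ⟨f ^ ((48 : ℕ)⁻¹ : ℝ), Real.one_le_rpow hf (by positivity),
      (Real.rpow_inv_natCast_pow hf0.le (by norm_num)).symm⟩
  obtain ⟨h, hh, eh, rfl⟩ : ∃ h : ℝ, 0 < h ∧ e ^ (1 / 12 : ℝ) = h ∧ e = h ^ 12 :=
    ⟨_, Real.rpow_pos_of_pos he _, rfl, by
      rw [← Real.rpow_natCast, ← Real.rpow_mul he.le]; norm_num⟩
  rw [eh] at hφ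
  have hg0 : 0 < g := by linarith
  have hε1 : ε ≤ 1 := hε'.trans (by rw [div_le_one (by positivity)]; exact one_le_pow₀ hT)
  rw [hX, le_div_iff₀ hf0, one_mul] at h1
  have h3 : g ^ 2 ≤ h := by
    refine le_of_pow_le_pow_left₀ (n := 24) (by norm_num) hh.le ?_
    calc _ = g ^ 48 := by ring
      _ ≤ ε * (h ^ 12) ^ 2 := h1
      _ ≤ 1 * (h ^ 12) ^ 2 := by gcongr
      _ = _ := by ring
  have h4 : T ≤ g := by
    refine le_of_pow_le_pow_left₀ (n := 48) (by norm_num) hg0.le ?_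
    have h5 : g ^ 48 * 1 ≤ g ^ 48 * (ε * g ^ 48) :=
      calc _ = g ^ 48 := mul_one _
        _ ≤ ε * (h ^ 12) ^ 2 := h1
        _ ≤ ε * (g ^ 48) ^ 2 := by gcongr
        _ = _ := by ring
    have h6 := le_of_mul_le_mul_left h5 hf0
    rw [le_div_iff₀ (by positivity)] at hε'
    exact le_of_mul_le_mul_left (hε'.trans h6) hε
  have h5 : g ^ 22 ≤ C1 * φ := by
    have : h * h ^ 11 ≤ h * (C1 * φ) := by linarith [show h * h ^ 11 = h ^ 12 by ring]
    calc _ = (g ^ 2) ^ 11 := by ring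
      _ ≤ h ^ 11 := by gcongr
      _ ≤ _ := le_of_mul_le_mul_left this hh
  have h6 : X ≤ g ^ 16 :=
    le_of_pow_le_pow_left₀ (n := 3) (by norm_num) (by positivity)
      (h2.le.trans_eq (by ring))
  have h7 : τ ≤ (C2 + 1) * g ^ 3 := by
    refine le_of_pow_le_pow_left₀ (n := 16) (by norm_num) (by positivity) (hτ'.trans ?_)
    rw [mul_pow, ← pow_mul]
    refine mul_le_mul_of_nonneg_right ?_ (by positivity)
    exact (by linarith : C2 ≤ C2 + 1).trans (le_self_pow₀ (by linarith) (by norm_num))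
  have h8 : 0 < C1 * φ := lt_of_lt_of_le (by positivity) h5
  have hφ' : 0 < φ := lt_of_le_of_ne hφ0 fun e => by rw [← e] at h8; simp at h8
  have hC1 : 0 < C1 := (mul_pos_iff_of_pos_right hφ').1 h8
  refine ⟨hφ', ?_⟩
  rw [div_le_div_iff₀ hφ' (by positivity)]
  refine le_of_mul_le_mul_left ?_ hC1
  calc C1 * (25 * X * (2 * τ)) ≤ C1 * (25 * g ^ 16 * (2 * ((C2 + 1) * g ^ 3))) := by gcongr
    _ = 50 * C1 * (C2 + 1) * g ^ 19 := by ring
    _ ≤ η * g * g ^ 19 :=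
      mul_le_mul_of_nonneg_right (hT'.trans (mul_le_mul_of_nonneg_left h4 hη.le)) (by positivity)
    _ = η * g ^ 20 := by ring
    _ ≤ η * g ^ 22 := by gcongr; norm_num
    _ ≤ η * (C1 * φ) := by gcongr
    _ = _ := by ring

end Tight

open Tight Finset in
theorem tight : BasicStmt → PsiStmt → RepStmt → SieveStmt → TightStmt := by
  intro hB hP hR hS k η hη
  obtain ⟨C, hC, hcount⟩ := count hS k (hP k).1
  obtain ⟨C1, hC1⟩ := (hP k).2.2.2 (1 / 12) (by norm_num)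
  obtain ⟨C2, hC2⟩ := MP_30b5ba_nt.card_divisors_pow_le 16
  set T := max 1 (50 * C1 * (C2 + 1) / η) with hT
  have hT1 : 1 ≤ T := le_max_left _ _
  refine ⟨min (1 / T ^ 48) (η / (2 * C)), by positivity, fun F L c hL hF => ?_⟩
  set ε := min (1 / T ^ 48) (η / (2 * C)) with hε
  have hε0 : 0 < ε := by positivity
  obtain ⟨G, f, hf, hfF, hj, h⟩ := model hB hR hL hF
  have hf' : (0 : ℝ) < f := by exact_mod_cast hf
  have hτ : (0 : ℝ) < f.divisors.card := by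
    exact_mod_cast card_pos.2 ⟨1, Nat.one_mem_divisors.2 hf.ne'⟩
  have key : ∀ e ∈ f.divisors.filter fun e : ℕ => 1 ≤ ε * e ^ 2 / f,
      k.pr F (fun s => ∃ p ∈ pts G e (ε * e ^ 2 / f), Tight.Ev G e p s) ≤
        C * ε * e.totient / f + η / (2 * f.divisors.card) := by
    intro e he
    obtain ⟨he, hX⟩ := mem_filter.1 he
    have hef := Nat.dvd_of_mem_divisors he
    have he0 : (0 : ℝ) < e := by exact_mod_cast Nat.pos_of_mem_divisors he
    refine (pr_le_sum _ _).trans ((sum_le_card_nsmul _ _ _ fun p _ =>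
      pr_Ev hP G (hef.trans hfF) hj p).trans ?_)
    rw [nsmul_eq_mul, mul_one_div]
    by_cases hb : (f : ℝ) ≤ (ε * e ^ 2 / f) ^ 3
    · have h1 := hcount G e f _ hf hef
        (hj.of_isCoprime_of_dvd_right (by exact_mod_cast hfF)) hX hb
      have h2 : 0 < ∏ q ∈ e.primeFactors, (1 - (k.chi q : ℝ) / q) := prod_pos fun q hq =>
        (rho_bd (Nat.prime_of_mem_primeFactors hq)
          ((hP k).1 q (Nat.prime_of_mem_primeFactors hq))).2.2.2
      have h3 : (e.totient : ℝ) = e * ∏ q ∈ e.primeFactors, (1 - (q : ℝ)⁻¹) := by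
        have := congrArg (Rat.cast : ℚ → ℝ) (Nat.totient_eq_mul_prod_factors e)
        push_cast at this
        exact this
      simp only [rho, sub_sub_cancel, prod_mul_distrib] at h1
      refine le_trans ?_ (le_add_of_nonneg_right (by positivity))
      rw [Fld.psi, div_le_iff₀ (by positivity), h3]
      refine h1.trans_eq ?_
      ring
    · obtain ⟨h1, h2⟩ := small_case (C1 := C1) (C2 := C2) (τ := f.divisors.card) hη hT1
        (Nat.cast_nonneg _) (by rw [mul_comm η, ← div_le_iff₀ hη]; exact le_max_right _ _) hε0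
        (min_le_left _ _) (by exact_mod_cast hf) he0 (by exact_mod_cast Nat.le_of_dvd hf hef) hτ
        (by exact_mod_cast hC2 f hf.ne') (Nat.cast_nonneg _)
        (hC1 e (Nat.pos_of_mem_divisors he)) rfl hX (not_le.1 hb)
      refine le_trans ?_ (le_add_of_nonneg_left (by positivity))
      exact (div_le_div₀ (by positivity) (card_pts G e hX) h1 ((hP k).2.2.1 e)).trans h2
  refine (pr_mono (h ε)).trans ((pr_le_sum _ _).trans ((sum_le_sum key).trans ?_))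
  refine (sum_le_sum_of_subset_of_nonneg (filter_subset _ _) fun _ _ _ => by positivity).trans ?_
  have e1 : ∑ e ∈ f.divisors, (e.totient : ℝ) = f := by exact_mod_cast Nat.sum_totient f
  rw [sum_add_distrib, ← sum_div, ← mul_sum, e1, sum_const, nsmul_eq_mul]
  have h1 : ε ≤ η / (2 * C) := min_le_right _ _
  rw [le_div_iff₀ (by positivity)] at h1
  have e2 : C * ε * f / f = C * ε := by field_simp
  have e3 : (f.divisors.card : ℝ) * (η / (2 * f.divisors.card)) = η / 2 := by field_simp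
  rw [e2, e3]
  linarith

end Pool.Agent.Lib.MP_9177b7_ag.J
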