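import Pool.Agent.Lib.MP_9177b7_ag.J.Basic
import Pool.Agent.Lib.MP_9177b7_ag.J.Char
import Pool.Agent.Lib.MP_9177b7_ag.J.Coll
import Pool.Agent.Lib.MP_9177b7_ag.J.Dec
import Pool.Agent.Lib.MP_9177b7_ag.J.Div
import Pool.Agent.Lib.MP_9177b7_ag.J.Dyn
import Pool.Agent.Lib.MP_9177b7_ag.J.Fin3
import Pool.Agent.Lib.MP_9177b7_ag.J.Group
import Pool.Agent.Lib.MP_9177b7_ag.J.Hom
import Pool.Agent.Lib.MP_9177b7_ag.J.Line
import Pool.Agent.Lib.MP_9177b7_ag.J.Marg
import Pool.Agent.Lib.MP_9177b7_ag.J.Path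
import Pool.Agent.Lib.MP_9177b7_ag.J.Pol
import Pool.Agent.Lib.MP_9177b7_ag.J.Prod
import Pool.Agent.Lib.MP_9177b7_ag.J.Psi
import Pool.Agent.Lib.MP_9177b7_ag.J.Rec
import Pool.Agent.Lib.MP_9177b7_ag.J.Rep
import Pool.Agent.Lib.MP_9177b7_ag.J.Shiu
import Pool.Agent.Lib.MP_9177b7_ag.J.Sieve
import Pool.Agent.Lib.MP_9177b7_ag.J.Small
import Pool.Agent.Lib.MP_9177b7_ag.J.Tight
import Pool.Agent.Lib.MP_9177b7_ag.J.Uniq

/-!
Assembly of the pieces.
-/

namespace Pool.Agent.Lib.MP_9177b7_ag.J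

theorem tight' : TightStmt := tight basic psi_stmt (rep basic) sieve

theorem coll' : CollStmt := coll basic psi_stmt (rep basic)

theorem small' : SmallStmt := small basic (rep basic) (pi_stmt basic) tight' coll' path

theorem join' : JoinStmt := join dec line group prod_eq div rec_stmt

theorem dyn_of_large (h : LargeStmt) : DynStmt :=
  dyn basic (pi_stmt basic) tight' coll' (excl basic small' h) pol disc (hom disc uniq maut)
    (proj disc uniq) marg2 join'

end Pool.Agent.Lib.MP_9177b7_ag.J
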