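import Pool.Agent.Lib.MP_9177b7_ag.J.DefsE

/-!
Assembly of the joining theorem.
-/

open MeasureTheory ProbabilityTheory Filter Topology Set
open scoped MatrixGroups ENNReal NNReal

noncomputable section

namespace Pool.Agent.Lib.MP_9177b7_ag.J

namespace Join

variable {l : ℕ} [Fact l.Prime] (S : Sp l)

lemma h2_mul (v v' : HH l × HH l) : S.h2 (v * v') = S.h2 v ∘ S.h2 v' := by
  funext z
  simp only [Sp.h2, Sp.hs, Function.comp, smul_smul, Prod.mk_mul_mk, mul_one, Prod.fst_mul,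
    Prod.snd_mul]

lemma h2_one : S.h2 1 = id := by
  funext z
  show (((1, 1) : S.G) • z.1, ((1, 1) : S.G) • z.2) = z
  rw [Prod.mk_one_one, one_smul, one_smul]

lemma h2_cont (v : HH l × HH l) : Continuous (S.h2 v) :=
  (continuous_fst.const_smul _).prodMk (continuous_snd.const_smul _)

lemma h2_meas (v : HH l × HH l) : Measurable (S.h2 v) := (h2_cont S v).measurable

/-- The stabiliser of a measure. -/
def stab (θ : Measure (S.X × S.X)) : Subgroup (HH l × HH l) where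
  carrier := {v | θ.map (S.h2 v) = θ}
  one_mem' := by
    show θ.map (S.h2 1) = θ
    rw [h2_one, Measure.map_id]
  mul_mem' {v v'} h h' := by
    have h1 : θ.map (S.h2 v) = θ := h
    have h1' : θ.map (S.h2 v') = θ := h'
    show θ.map (S.h2 (v * v')) = θ
    rw [h2_mul, ← Measure.map_map (h2_meas S v) (h2_meas S v'), h1', h1]
  inv_mem' {v} h := by
    have h1 : θ.map (S.h2 v) = θ := h
    show θ.map (S.h2 v⁻¹) = θ
    conv_lhs => rw [← h1]
    rw [Measure.map_map (h2_meas S _) (h2_meas S _), ← h2_mul, inv_mul_cancel, h2_one,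
      Measure.map_id]

/-- The Weyl element. -/
def w₀ : SL(2, ℚ) := ⟨!![0, 1; -1, 0], by simp [Matrix.det_fin_two]⟩

variable (l) in
/-- The Weyl element in the local group. -/
def wl : HH l := Matrix.SpecialLinearGroup.map (algebraMap ℚ ℚ_[l]) w₀

lemma wl_coe : ((wl l : HH l) : Matrix (Fin 2) (Fin 2) ℚ_[l]) = !![0, 1; -1, 0] := by
  show (!![0, 1; -1, 0] : Matrix (Fin 2) (Fin 2) ℚ).map (algebraMap ℚ ℚ_[l]) = _
  ext i j
  fin_cases i <;> fin_cases j <;> simp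

lemma wl_up (s : ℚ_[l]) : wl l * up s * (wl l)⁻¹ = lo (-s) := by
  rw [mul_inv_eq_iff_eq_mul]
  refine Subtype.ext ?_
  rw [Matrix.SpecialLinearGroup.coe_mul, Matrix.SpecialLinearGroup.coe_mul, wl_coe]
  show _ * !![1, s; 0, 1] = !![1, 0; -s, 1] * _
  simp

lemma wl_dg (t : ℚ_[l]ˣ) : wl l * dg t * (wl l)⁻¹ = (dg t)⁻¹ := by
  rw [mul_inv_eq_iff_eq_mul, eq_inv_mul_iff_mul_eq]
  refine Subtype.ext ?_
  rw [Matrix.SpecialLinearGroup.coe_mul, Matrix.SpecialLinearGroup.coe_mul, wl_coe]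
  show !![(t : ℚ_[l]), 0; 0, (t : ℚ_[l])⁻¹] * (_ * !![(t : ℚ_[l]), 0; 0, (t : ℚ_[l])⁻¹]) = _
  simp

/-- Conjugation by the Weyl element on the acting group. -/
def cj : S.G →* S.G := (MulAut.conj ((wl l, 1) : S.G)).toMonoidHom

lemma cj_apply (g : S.G) : cj S g = (wl l, 1) * g * ((wl l, 1) : S.G)⁻¹ := rfl

/-- Conjugation as a homeomorphism. -/
def cjH : S.G ≃ₜ S.G :=
  (Homeomorph.mulLeft ((wl l, 1) : S.G)).trans (Homeomorph.mulRight ((wl l, 1) : S.G)⁻¹)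

/-- The space with the action twisted by the Weyl element. -/
def tw : Sp l :=
  { S with
    ac := MulAction.compHom S.X (cj S)
    cs := @ContinuousSMul.mk _ _ (MulAction.compHom S.X (cj S)).toSMul _ _
      (((cjH S).continuous.comp continuous_fst).smul continuous_snd)
    surj := fun x => by
      obtain ⟨g, rfl⟩ := S.surj x
      exact ⟨(cjH S).symm g, congrArg (· • S.o) ((cjH S).apply_symm_apply g)⟩
    opn := S.opn.comp (cjH S).isOpenMap
    rat := fun g hg => by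
      obtain ⟨γ, hγ⟩ := S.rat (cj S g) hg
      refine ⟨w₀⁻¹ * γ * w₀, ?_⟩
      have h1 : wl l * g.1 * (wl l)⁻¹ = _ := hγ
      rw [map_mul, map_mul, map_inv, ← h1, ← wl]
      group }

lemma tw_h2 (v : HH l × HH l) :
    (tw S).h2 v = S.h2 (wl l * v.1 * (wl l)⁻¹, wl l * v.2 * (wl l)⁻¹) := by
  refine funext fun z : S.X × S.X => ?_
  show (cj S (v.1, 1) • z.1, cj S (v.2, 1) • z.2) = S.h2 _ z
  simp only [cj_apply, Sp.h2, Sp.hs, Prod.inv_mk, Prod.mk_mul_mk, inv_one, mul_one]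

lemma tw_bound {μ : Measure S.X} (h : S.Bound μ) : (tw S).Bound μ := by
  obtain ⟨m, h1, h2, h3⟩ := h
  show ∃ m : Measure S.G, IsFiniteMeasureOnCompacts m ∧ m.IsMulRightInvariant ∧
    ∀ U : Set S.G, IsOpen U → μ ((fun g : S.G => cjH S g • S.o) '' U) ≤ m U
  refine ⟨m.map (((wl l, 1) : S.G)⁻¹ * ·),
    Measure.IsFiniteMeasureOnCompacts.map m (Homeomorph.mulLeft ((wl l, 1) : S.G)⁻¹),
    isMulRightInvariant_map_mul_left _, fun U hU => ?_⟩
  have h4 := h3 (cjH S '' U) ((cjH S).isOpenMap U hU)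
  rw [Set.image_image] at h4
  refine h4.trans (le_of_eq ?_)
  have h5 : cjH S '' U = (· * ((wl l, 1) : S.G)) ⁻¹' ((((wl l, 1) : S.G)⁻¹ * ·) ⁻¹' U) := by
    ext g
    constructor
    · rintro ⟨u, hu, rfl⟩
      show ((wl l, 1) : S.G)⁻¹ * (((wl l, 1) : S.G) * u * ((wl l, 1) : S.G)⁻¹ * (wl l, 1)) ∈ U
      rwa [inv_mul_cancel_right, inv_mul_cancel_left]
    · intro hg
      refine ⟨_, hg, ?_⟩
      show ((wl l, 1) : S.G) * (((wl l, 1) : S.G)⁻¹ * (g * (wl l, 1))) * ((wl l, 1) : S.G)⁻¹ = g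
      rw [mul_inv_cancel_left, mul_inv_cancel_right]
  rw [h5, measure_preimage_mul_right]
  exact (Measure.map_apply (measurable_const_mul _) hU.measurableSet).symm

variable {S}

lemma tw_dec {μ : Measure S.X} {ν : Measure (S.X × S.X)} {Θ : Kernel (S.X × S.X) (S.X × S.X)}
    {Z : Set (S.X × S.X)} (h : S.Dec μ ν Θ Z) : (tw S).Dec μ ν Θ Z :=
  ⟨h.markov, h.meas, h.bind, fun v z hz hv => by
    rw [tw_h2] at hv ⊢
    exact h.equi _ z hz hv, h.full, h.typ, h.m1, h.m2, h.lusin⟩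

lemma lower (hL : LineStmt) {μ : Measure S.X} {ν : Measure (S.X × S.X)}
    {Θ : Kernel (S.X × S.X) (S.X × S.X)} {Z : Set (S.X × S.X)} {t : ℚ_[l]ˣ}
    (ht : 1 < ‖(t : ℚ_[l])‖) (hB : S.Bound μ) (hν : IsProbabilityMeasure ν) (h : S.Dec μ ν Θ Z)
    (hi : ν.map (S.h2 (dg t, dg t)) = ν) : ∀ᵐ z ∂ν, ∃ x y : ℚ_[l], (x ≠ 0 ∨ y ≠ 0) ∧
      ∀ s : ℚ_[l], (Θ z).map (S.h2 (lo (s * x), lo (s * y))) = Θ z := by
  have h1 := hL l (tw S) μ ν Θ Z t ht (tw_bound S hB) hν (tw_dec h) (by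
    rw [tw_h2, wl_dg]
    exact (stab S ν).inv_mem (x := (dg t, dg t)) hi)
  refine h1.mono ?_
  rintro z ⟨x, y, hxy, hs⟩
  refine ⟨x, y, hxy, fun s => ?_⟩
  have h2 := hs (-s)
  rw [tw_h2, wl_up, wl_up, neg_mul, neg_mul, neg_neg, neg_neg] at h2
  exact h2

lemma gr_mono (B : Matrix (Fin 2) (Fin 2) ℚ) {Ω Ω' : Set S.G} (h : Ω ⊆ Ω') :
    S.Gr B Ω ⊆ S.Gr B Ω' := by
  rintro z ⟨g₁, h₁, g₂, h₂, hz⟩
  exact ⟨g₁, h h₁, g₂, h h₂, hz⟩

lemma gr_compact (B : Matrix (Fin 2) (Fin 2) ℚ) {Ω : Set S.G} (h : IsCompact Ω) :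
    IsCompact (S.Gr B Ω) := by
  let M : S.G × S.G → Matrix (Fin 2) (Fin 2) ℚ_[l] := fun g =>
    (g.2.1 : Matrix (Fin 2) (Fin 2) ℚ_[l]) * B.map (algebraMap ℚ ℚ_[l]) *
      ((g.1.1⁻¹ : HH l) : Matrix (Fin 2) (Fin 2) ℚ_[l])
  have hv : Continuous fun g : HH l => (g : Matrix (Fin 2) (Fin 2) ℚ_[l]) :=
    Matrix.SpecialLinearGroup.isClosedEmbedding_val.continuous
  have hM : Continuous M :=
    ((hv.comp (continuous_fst.comp continuous_snd)).matrix_mul continuous_const).matrix_mul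
      (hv.comp (continuous_fst.comp continuous_fst).inv)
  have hc : IsClosed {g | M g 0 1 = 0 ∧ M g 1 0 = 0} :=
    (isClosed_eq (hM.matrix_elem 0 1) continuous_const).inter
      (isClosed_eq (hM.matrix_elem 1 0) continuous_const)
  have he : S.Gr B Ω = (fun g : S.G × S.G => (g.1 • S.o, g.2 • S.o)) ''
      (Ω ×ˢ Ω ∩ {g | M g 0 1 = 0 ∧ M g 1 0 = 0}) := by
    ext z
    constructor
    · rintro ⟨g₁, h₁, g₂, h₂, rfl, d₁, d₂, hd⟩
      refine ⟨(g₁, g₂), ⟨⟨h₁, h₂⟩, ?_⟩, rfl⟩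
      have : M (g₁, g₂) = !![d₁, 0; 0, d₂] := by
        simp only [M]
        rw [hd, mul_assoc, ← Matrix.SpecialLinearGroup.coe_mul, mul_inv_cancel,
          Matrix.SpecialLinearGroup.coe_one, mul_one]
      simp [this]
    · rintro ⟨⟨g₁, g₂⟩, ⟨⟨h₁, h₂⟩, h3, h4⟩, rfl⟩
      refine ⟨g₁, h₁, g₂, h₂, rfl, M (g₁, g₂) 0 0, M (g₁, g₂) 1 1, ?_⟩
      have : !![M (g₁, g₂) 0 0, 0; 0, M (g₁, g₂) 1 1] = M (g₁, g₂) := by
        rw [← h3]
        conv_rhs => rw [Matrix.eta_fin_two (M (g₁, g₂)), h4, ← h3]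
      rw [this]
      simp only [M]
      rw [mul_assoc, ← Matrix.SpecialLinearGroup.coe_mul, inv_mul_cancel,
        Matrix.SpecialLinearGroup.coe_one, mul_one]
  rw [he]
  exact ((h.prod h).inter_right hc).image
    ((continuous_fst.smul continuous_const).prodMk (continuous_snd.smul continuous_const))

lemma gr_null {ν : Measure (S.X × S.X)} {Θ : Kernel (S.X × S.X) (S.X × S.X)}
    (hb : ν.bind Θ = ν) (h : ∀ (B : Matrix (Fin 2) (Fin 2) ℚ) (Ω : Set S.G), B.det ≠ 0 →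
      IsCompact Ω → ν (S.Gr B Ω) = 0) : ∀ᵐ z ∂ν, ∀ (B : Matrix (Fin 2) (Fin 2) ℚ) (Ω : Set S.G),
        B.det ≠ 0 → IsCompact Ω → Θ z (S.Gr B Ω) = 0 := by
  let K := CompactExhaustion.choice S.G
  have : Countable (Matrix (Fin 2) (Fin 2) ℚ) := inferInstanceAs (Countable (Fin 2 → Fin 2 → ℚ))
  have h1 : ∀ᵐ z ∂ν, ∀ (B : Matrix (Fin 2) (Fin 2) ℚ) (n : ℕ), B.det ≠ 0 →
      Θ z (S.Gr B (K n)) = 0 := by
    refine ae_all_iff.2 fun B => ae_all_iff.2 fun n => ?_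
    by_cases hB : B.det = 0
    · exact Eventually.of_forall fun _ h' => absurd hB h'
    have hm := (gr_compact B (K.isCompact n)).measurableSet
    have h2 := h B (K n) hB (K.isCompact n)
    rw [← hb, Measure.bind_apply hm Θ.aemeasurable,
      lintegral_eq_zero_iff (Θ.measurable_coe hm)] at h2
    exact h2.mono fun z hz _ => hz
  refine h1.mono fun z hz B Ω hB hΩ => ?_
  obtain ⟨n, hn⟩ := K.exists_superset_of_isCompact hΩ
  exact measure_mono_null (gr_mono B hn) (hz B n hB)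

end Join

open Join in
theorem join : DecStmt → LineStmt → GroupStmt → ProdStmt → DivStmt → RecStmt → JoinStmt := by
  intro hDec hL hG hP hDiv hR l _ hl S μ ν b t ht hμ hB hU hE hν h1 h2 hb hi hgr
  obtain ⟨Θ, Z, hD⟩ := hDec l S μ ν b hν h1 h2 hb hE
  have hM := hD.markov
  have key : ∀ᵐ z ∂ν, Θ z = μ.prod μ := by
    filter_upwards [hL l S μ ν Θ Z t ht hB hν hD hi, lower hL ht hB hν hD hi, gr_null hD.bind hgr,
      hD.typ, hD.m1, hD.m2] with z hu hlo hnull htyp hm1 hm2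
    have hPr := hP l S μ (Θ z) hμ hU hm1 hm2
    obtain ⟨hG1, hG2⟩ := hG ℚ_[l] (stab S (Θ z))
    rcases hG1 hu hlo with h | h | ⟨c, hc⟩
    · exact hPr (Or.inl h)
    · exact hPr (Or.inr h)
    by_cases hq : ∀ q, (Θ z).map (S.h2 (1, up q)) = Θ z → q = 0
    · obtain ⟨Q, hQ, hQ0, O, hO, hrig⟩ := hDiv l hl S (Θ z) {w | Θ w = Θ z ∧ w ∈ Z} c
        inferInstance htyp (fun w hw v hv => by
          rw [← hw.1, ← hD.equi v w hw.2 hv.2, hv.1, hw.1]) hc hq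
      obtain ⟨B, Ω, hB0, hΩ, hpos⟩ := hR l hl S (Θ z) c Q O inferInstance hc hQ hQ0 hO hrig
      exact absurd (hnull B Ω hB0 hΩ) hpos.ne'
    · push Not at hq
      obtain ⟨q, hq1, hq0⟩ := hq
      exact hPr (Or.inl (hG2 c hc q hq0 hq1))
  rw [← hD.bind, Measure.bind_congr_right (g := fun _ => μ.prod μ) key, Measure.bind_const,
    measure_univ, one_smul]

end Pool.Agent.Lib.MP_9177b7_ag.J
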