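import Pool.Agent.Lib.MP_9177b7_ag.J.DefsU
import Pool.Agent.Lib.MP_9177b7_ag.J.Join
import Pool.Agent.Lib.MP_9177b7_ag.J.Line
import Pool.Agent.Lib.MP_9177b7_ag.J.Group
import Pool.Agent.Lib.MP_9177b7_ag.J.Prod
import Pool.Agent.Lib.MP_9177b7_ag.J.Div
import Pool.Agent.Lib.MP_9177b7_ag.J.Rec

/-!
Classification of one component of a joining which is invariant under a line of unipotents.
-/

open MeasureTheory ProbabilityTheory Filter Topology Set
open scoped MatrixGroups ENNReal NNReal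

noncomputable section

namespace Pool.Agent.Lib.MP_9177b7_ag.J

namespace CoreU

open Join

variable {l : ℕ} [Fact l.Prime] {S : Sp l}

lemma map_map (θ : Measure (S.X × S.X)) (v e : HH l × HH l) :
    (θ.map (S.h2 e)).map (S.h2 v) = θ.map (S.h2 (v * e)) := by
  rw [Measure.map_map (h2_meas S v) (h2_meas S e), h2_mul]

lemma inv_iff (θ : Measure (S.X × S.X)) (v e : HH l × HH l) :
    (θ.map (S.h2 e)).map (S.h2 v) = θ.map (S.h2 e) ↔ θ.map (S.h2 (e⁻¹ * v * e)) = θ := by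
  constructor
  · intro h
    rw [mul_assoc, ← map_map, ← map_map, h, map_map, inv_mul_cancel, h2_one, Measure.map_id]
  · intro h
    conv_rhs => rw [← h]
    rw [map_map, map_map, ← mul_assoc, mul_inv_cancel_left]

lemma conj_up (a b q : ℚ_[l]) :
    ((1, up (-q)) : HH l × HH l)⁻¹ * (up a, up b) * (1, up (-q)) = (up a, up b) := by
  rw [Prod.inv_mk, Prod.mk_mul_mk, Prod.mk_mul_mk, inv_one, one_mul, mul_one, Group.up_inv,
    ← Group.up_add, ← Group.up_add]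
  congr 2
  ring

lemma dec_const {μ : Measure S.X} {θ : Measure (S.X × S.X)} [IsProbabilityMeasure θ]
    {Z : Set (S.X × S.X)} (hZ : MeasurableSet Z) (h1 : θ.map Prod.fst = μ)
    (h2 : θ.map Prod.snd = μ) (hf : ∀ᵐ w ∂θ, w ∈ Z)
    (he : ∀ w ∈ Z, ∀ v, S.h2 v w ∈ Z → θ.map (S.h2 v) = θ) :
    S.Dec μ θ (Kernel.const _ θ) Z := by
  refine ⟨inferInstance, hZ, ?_, fun v z hz hv => (he z hz v hv).symm, hf,
    Eventually.of_forall fun _ => hf.mono fun w hw => ⟨rfl, hw⟩,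
    Eventually.of_forall fun _ => h1, Eventually.of_forall fun _ => h2, fun ε hε => ?_⟩
  · change θ.bind (fun _ => θ) = θ
    rw [Measure.bind_const, measure_univ, one_smul]
  · obtain ⟨Q, hQ, hc, hlt⟩ := hZ.exists_isCompact_sdiff_lt (μ := θ) (measure_ne_top _ _) hε.ne'
    refine ⟨Q, hc, hQ, lt_of_le_of_lt (measure_mono_ae ?_) hlt, fun φ _ _ => ?_⟩
    · exact hf.mono fun w hw h => ⟨hw, h⟩
    · exact continuousOn_const (c := ∫ w, φ w ∂θ)

lemma gr_sub (B : Matrix (Fin 2) (Fin 2) ℚ) (Ω : Set S.G) (q : ℚ_[l]) :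
    S.h2 (1, up (-q)) ⁻¹' S.Gr B Ω ⊆ S.GrU B (Ω ∪ (((up q, 1) : S.G) * ·) '' Ω) := by
  rintro z ⟨g₁, h₁, g₂, h₂, hz, d₁, d₂, hd⟩
  refine ⟨g₁, Or.inl h₁, (up q, 1) * g₂, Or.inr ⟨g₂, h₂, rfl⟩, ?_, d₁, d₂, q * d₂, ?_⟩
  · have e : z = S.h2 (1, up (-q))⁻¹ (S.h2 (1, up (-q)) z) := by
      rw [← Function.comp_apply (f := S.h2 _), ← h2_mul, inv_mul_cancel, h2_one, id]
    rw [e, hz, Prod.inv_mk, inv_one, Group.up_inv, neg_neg]
    show (((1, 1) : S.G) • g₁ • S.o, ((up q, 1) : S.G) • g₂ • S.o) = _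
    rw [Prod.mk_one_one, one_smul, mul_smul]
  · rw [Prod.fst_mul, Matrix.SpecialLinearGroup.coe_mul, mul_assoc, hd, ← mul_assoc]
    congr 1
    show !![1, q; 0, 1] * _ = _
    simp

end CoreU

open Join CoreU in
theorem coreU : DiagUStmt → CoreUStmt := by
  intro hDi l _ hl S μ θ W x y hN hθ h1 h2 hW hWi hxy hline
  have hPr := prod_eq l S μ θ hN.prob hN.ergU h1 h2
  by_cases hx : x = 0
  · have hy := hxy.resolve_left (not_not.2 hx)
    refine Or.inl (hPr (Or.inl fun s => ?_))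
    have := hline (s / y)
    rwa [hx, mul_zero, Group.up_zero, div_mul_cancel₀ _ hy] at this
  by_cases hy : y = 0
  · refine Or.inl (hPr (Or.inr fun s => ?_))
    have := hline (s / x)
    rwa [hy, mul_zero, Group.up_zero, div_mul_cancel₀ _ hx] at this
  rcases hDi l hl S μ θ W (Units.mk0 (y / x) (div_ne_zero hy hx)) hN.bound hθ h1 hW hWi
    (fun s => by
      have := hline (s / x)
      rwa [div_mul_cancel₀ _ hx, div_mul_comm, mul_comm] at this) with h | ⟨t, q, ht, hq⟩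
  · exact Or.inl (hPr (Or.inl h))
  obtain ⟨Z₀, hsub, hm, h0⟩ := exists_measurable_superset_of_null (ae_iff.1 hW)
  set e : HH l × HH l := (1, up (-q)) with he
  set θ' := θ.map (S.h2 e) with hθ'
  have hP' : IsProbabilityMeasure θ' := Measure.isProbabilityMeasure_map (h2_meas S e).aemeasurable
  have hZ : MeasurableSet (S.h2 e⁻¹ ⁻¹' Z₀ᶜ) := h2_meas S _ hm.compl
  have hf : ∀ᵐ w ∂θ', w ∈ S.h2 e⁻¹ ⁻¹' Z₀ᶜ := by
    refine (ae_map_iff (h2_meas S e).aemeasurable hZ).2 ?_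
    filter_upwards [compl_mem_ae_iff.2 h0] with w hw
    show (S.h2 e⁻¹ ∘ S.h2 e) w ∈ Z₀ᶜ
    rwa [← h2_mul, inv_mul_cancel, h2_one]
  have hi : ∀ w ∈ S.h2 e⁻¹ ⁻¹' Z₀ᶜ, ∀ v, S.h2 v w ∈ S.h2 e⁻¹ ⁻¹' Z₀ᶜ → θ'.map (S.h2 v) = θ' := by
    intro w hw v hv
    refine (inv_iff θ v e).2 (hWi (S.h2 e⁻¹ w) (not_not.1 fun h => hw (hsub h)) _
      (not_not.1 fun h => hv (hsub ?_)))
    rwa [← Function.comp_apply (f := S.h2 _), ← h2_mul, mul_inv_cancel_right, h2_mul] at h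
  have m1 : θ'.map Prod.fst = μ := by
    rw [hθ', Measure.map_map measurable_fst (h2_meas S e), ← h1]
    congr 1
    funext z
    exact Prod.hs_one S z.1
  have m2 : θ'.map Prod.snd = μ := by
    rw [hθ', Measure.map_map measurable_snd (h2_meas S e), ← hN.inv (up (-q), 1), ← h2,
      Measure.map_map (measurable_const_smul _) measurable_snd]
    rfl
  have hd : θ'.map (S.h2 (dg t, dg t)) = θ' := by
    refine (inv_iff θ _ e).2 ?_
    rwa [he, Prod.inv_mk, Prod.mk_mul_mk, Prod.mk_mul_mk, inv_one, one_mul, mul_one, Group.up_inv,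
      neg_neg]
  obtain ⟨_, hlo⟩ := (lower line ht hN.bound hP' (dec_const hZ m1 m2 hf hi) hd).exists
  have hup : ∀ a b : ℚ_[l], θ'.map (S.h2 (up a, up b)) = θ' ↔ θ.map (S.h2 (up a, up b)) = θ :=
    fun a b => by rw [hθ', inv_iff, he, conj_up]
  obtain ⟨hG1, hG2⟩ := group ℚ_[l] (stab S θ')
  have hP1 : (∀ s, θ'.map (S.h2 (1, up s)) = θ') → θ = μ.prod μ := fun h =>
    hPr (Or.inl fun s => by
      have := h s
      rw [← Group.up_zero] at this ⊢
      exact (hup _ _).1 this)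
  rcases hG1 ⟨x, y, hxy, fun s => (hup _ _).2 (hline s)⟩ hlo with h | h | ⟨c, hc⟩
  · exact Or.inl (hP1 h)
  · refine Or.inl (hPr (Or.inr fun s => ?_))
    have : θ'.map (S.h2 (up s, 1)) = θ' := h s
    rw [← Group.up_zero] at this ⊢
    exact (hup _ _).1 this
  by_cases hq0 : ∀ q, θ'.map (S.h2 (1, up q)) = θ' → q = 0
  · obtain ⟨Q, hQ, hQ0, O, hO, hrig⟩ := div l hl S θ' _ c hP' hf hi hc hq0
    obtain ⟨B, Ω, hB0, hΩ, hpos⟩ := rec_stmt l hl S θ' c Q O hP' hc hQ hQ0 hO hrig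
    refine Or.inr ⟨B, _, hB0, hΩ.union (hΩ.image (continuous_const_mul ((up q, 1) : S.G))), ?_⟩
    rw [hθ', Measure.map_apply (h2_meas S e) (gr_compact B hΩ).measurableSet] at hpos
    exact hpos.trans_le (measure_mono (gr_sub B Ω q))
  · push Not at hq0
    obtain ⟨q', hq1, hq2⟩ := hq0
    exact Or.inl (hP1 (hG2 c hc q' hq2 hq1))

end Pool.Agent.Lib.MP_9177b7_ag.J
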