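import Pool.Agent.Lib.MP_9177b7_ag.J.DefsU
import Pool.Agent.Lib.MP_9177b7_ag.J.Dec

/-!
Equivariant ergodic decomposition along one map and along a flow of `ℚ_p`.
-/

open MeasureTheory ProbabilityTheory Filter Topology Set
open scoped ENNReal NNReal

noncomputable section

namespace Pool.Agent.Lib.MP_9177b7_ag.J

namespace DecGAux

/-- Convergence of conditional expectations along a decreasing sequence of sigma-algebras. -/
theorem down {Y : Type} (m : ℕ → MeasurableSpace Y) [mY : MeasurableSpace Y] (ν : Measure Y)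
    [IsProbabilityMeasure ν] (hm : ∀ n, m n ≤ mY) (anti : Antitone m) {φ : Y → ℝ}
    (hφ : MemLp φ 2 ν) :
    TendstoInMeasure ν (fun n => ν[φ | m n]) atTop (ν[φ | ⨅ n, m n]) := by
  have hI : (⨅ n, m n) ≤ mY := (iInf_le m 0).trans (hm 0)
  have : ∀ n, Fact (m n ≤ mY) := fun n => ⟨hm n⟩
  have mono : Monotone fun n => (lpMeas ℝ ℝ (m n) 2 ν)ᗮ := fun a b hab =>
    Submodule.orthogonal_le fun f hf => mem_lpMeas_iff_aestronglyMeasurable.2
      ((mem_lpMeas_iff_aestronglyMeasurable.1 hf).mono (anti hab))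
  have lim0 := Submodule.starProjection_tendsto_closure_iSup
    (fun n => (lpMeas ℝ ℝ (m n) 2 ν)ᗮ) mono (hφ.toLp φ)
  simp only [Submodule.starProjection_orthogonal_val] at lim0
  have lim1 := lim0.const_sub (hφ.toLp φ)
  simp only [sub_sub_cancel] at lim1
  generalize hφ.toLp φ - _ = L at lim1
  have av : ∀ n, ((lpMeas ℝ ℝ (m n) 2 ν).starProjection (hφ.toLp φ) : Lp ℝ 2 ν) =ᵐ[ν]
      ν[φ | m n] := fun n => hφ.condExpL2_ae_eq_condExp (𝕜 := ℝ) (hm n)
  have lim : TendstoInMeasure ν (fun n => ν[φ | m n]) atTop L :=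
    TendstoInMeasure.congr av .rfl (tendstoInMeasure_of_tendsto_Lp lim1)
  refine TendstoInMeasure.congr (fun _ => .rfl) ?_ lim
  obtain ⟨ns, hns, hae⟩ := lim.exists_seq_tendsto_ae
  obtain ⟨g, hg⟩ : ∃ g : Y → ℝ, g = fun z => limsup (fun k => (ν[φ | m (ns k)]) z) atTop :=
    ⟨_, rfl⟩
  have g1 : ∀ n, Measurable[m n] g := fun n => by
    have : g = fun z => limsup (fun k => (ν[φ | m (ns (k + n))]) z) atTop := by
      rw [hg]
      funext z
      exact (limsup_nat_add (fun k => (ν[φ | m (ns k)]) z) n).symm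
    rw [this]
    exact Measurable.limsup fun k => (stronglyMeasurable_condExp.measurable).mono
      (anti ((Nat.le_add_left n k).trans (hns.id_le (k + n)))) le_rfl
  have g3 : Measurable[⨅ n, m n] g := fun s hs =>
    MeasurableSpace.measurableSet_iInf.2 fun n => g1 n hs
  have g4 : (L : Y → ℝ) =ᵐ[ν] g := by
    filter_upwards [hae] with z hz
    rw [hg]
    exact hz.limsup_eq.symm
  refine ae_eq_condExp_of_forall_setIntegral_eq hI (hφ.integrable one_le_two)
    (fun s _ _ => ((Lp.memLp L).integrable one_le_two).integrableOn) (fun s hs _ => ?_)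
    ⟨g, g3.stronglyMeasurable, g4⟩
  have hs' : MeasurableSet s := hI s hs
  have h1 := (tendsto_const_nhds (x := indicatorConstLp 2 hs' (measure_ne_top ν s) (1 : ℝ))).inner
    (𝕜 := ℝ) lim1
  simp only [L2.inner_indicatorConstLp_one] at h1
  refine tendsto_nhds_unique h1 (tendsto_const_nhds.congr fun n => ?_)
  rw [integral_congr_ae (ae_restrict_of_ae (av n)),
    setIntegral_condExp (hm n) (hφ.integrable one_le_two) (iInf_le m n s hs)]

/-- The general construction for an abstract sequence of averaging operators. -/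
theorem genA {Y : Type} {m : MeasurableSpace Y} [TopologicalSpace Y] [PolishSpace Y]
    [LocallyCompactSpace Y] [mY : MeasurableSpace Y] [BorelSpace Y] (ν : Measure Y)
    [IsProbabilityMeasure ν] (hm : m ≤ mY) (Av : (Y → ℝ) → ℕ → Y → ℝ)
    (cAv : ∀ f, Continuous f → HasCompactSupport f → ∀ n, Continuous (Av f n))
    (cl : ∀ f g, Continuous f → HasCompactSupport f → Continuous g → HasCompactSupport g →
      ∀ ε : ℝ, (∀ y, |f y - g y| ≤ ε) → ∀ n z, |Av f n z - Av g n z| ≤ ε)
    (lim : ∀ f, Continuous f → HasCompactSupport f → TendstoInMeasure ν (Av f) atTop (ν[f | m]))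
    {Θ : Kernel Y Y} (hΘ : Θ = Dec.Th ν hm) :
    ∃ Z : Set Y, MeasurableSet Z ∧
      (∀ V : Y ≃ₜ Y, (∀ f n z, Av (f ∘ V) n z = Av f n (V z)) →
        ∀ z, z ∈ Z → V z ∈ Z → Θ (V z) = (Θ z).map V) ∧
      (∀ᵐ z ∂ν, z ∈ Z) ∧ (∀ᵐ z ∂ν, ∀ᵐ w ∂Θ z, Θ w = Θ z ∧ w ∈ Z) ∧
      ∀ ε : ℝ≥0∞, 0 < ε → ∃ Q : Set Y, IsCompact Q ∧ Q ⊆ Z ∧ ν Qᶜ < ε ∧
        ∀ φ : Y → ℝ, Continuous φ → HasCompactSupport φ →
          ContinuousOn (fun z => ∫ w, φ w ∂Θ z) Q := by
  have : IsMarkovKernel Θ := hΘ ▸ inferInstance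
  obtain ⟨φ, hφ, hd⟩ := Dec.dense Y
  obtain ⟨G, hG⟩ : ∃ G : ℕ → Y → ℝ, ∀ j z, G j z = ∫ w, φ j w ∂Θ z := ⟨_, fun _ _ => rfl⟩
  have mG : ∀ j, StronglyMeasurable[m] (G j) := fun j => by
    rw [funext (hG j), hΘ]
    exact (hφ j).1.stronglyMeasurable.integral_condExpKernel
  have mG' : ∀ j, Measurable (G j) := fun j => (mG j).measurable.mono hm le_rfl
  have cA : ∀ j n, Continuous (Av (φ j) n) := fun j n => cAv _ (hφ j).1 (hφ j).2 n
  obtain ⟨N, hN⟩ := Dec.common ν (fun j n => Av (φ j) n) G fun j => by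
    obtain ⟨C, hC⟩ := (hφ j).1.bounded_above_of_compact_support (hφ j).2
    refine TendstoInMeasure.congr (fun _ => .rfl) ?_ (lim _ (hφ j).1 (hφ j).2)
    rw [funext (hG j), hΘ]
    exact condExp_ae_eq_integral_condExpKernel hm
      (.of_bound (hφ j).1.measurable.aestronglyMeasurable C (.of_forall hC))
  obtain ⟨Z, hZ⟩ : ∃ Z : Set Y, Z = ⋂ j, {z | Tendsto
    (fun k => Av (φ j) (N k) z) atTop (𝓝 (G j z))} := ⟨_, rfl⟩
  have mZ : MeasurableSet Z := hZ ▸ MeasurableSet.iInter fun j =>
    measurableSet_tendsto_fun (fun k => (cA j (N k)).measurable) (mG' j)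
  have fZ : ∀ᵐ z ∂ν, z ∈ Z := by
    rw [hZ]
    filter_upwards [ae_all_iff.2 hN] with z hz using mem_iInter.2 hz
  have close : ∀ f : Y → ℝ, Continuous f → HasCompactSupport f → ∀ ε : ℝ, 0 < ε → ∃ j,
      (∀ y, |f y - φ j y| ≤ ε) ∧ ∀ z, |∫ w, f w ∂Θ z - G j z| ≤ ε := fun f hf hf' ε hε => by
    obtain ⟨j, hj⟩ := hd f hf hf' ε hε
    exact ⟨j, hj, fun z => hG j z ▸ Dec.int_close (Θ z) hf hf' (hφ j).1 (hφ j).2 hj⟩
  have conv : ∀ z ∈ Z, ∀ f : Y → ℝ, Continuous f → HasCompactSupport f →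
      Tendsto (fun k => Av f (N k) z) atTop (𝓝 (∫ w, f w ∂Θ z)) := by
    intro z hz f hf hf'
    refine Metric.tendsto_nhds.2 fun ε hε => ?_
    obtain ⟨j, h1, h2⟩ := close f hf hf' (ε / 3) (by positivity)
    rw [hZ] at hz
    filter_upwards [Metric.tendsto_nhds.1 (mem_iInter.1 hz j) (ε / 3) (by positivity)] with k hk
    have h3 := abs_le.1 (cl _ _ hf hf' (hφ j).1 (hφ j).2 _ h1 (N k) z)
    have h4 := abs_le.1 (h2 z)
    rw [Real.dist_eq, abs_lt] at hk ⊢
    constructor <;> linarith [hk.1, hk.2]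
  refine ⟨Z, mZ, fun V hV z hz hz' => ?_, fZ, ?_, fun ε hε => ?_⟩
  · have := Measure.isProbabilityMeasure_map (μ := Θ z) V.continuous.aemeasurable
    refine Measure.ext_of_integral_eq_on_compactlySupported fun f => ?_
    rw [integral_map V.continuous.aemeasurable (map_continuous f).aestronglyMeasurable]
    exact tendsto_nhds_unique (conv _ hz' f f.continuous f.hasCompactSupport)
      ((conv z hz (f ∘ V) (f.continuous.comp V.continuous)
        (f.hasCompactSupport.comp_homeomorph V)).congr fun k => hV _ _ _)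
  · have h1 := Dec.Th_typ ν hm fun j => (mG j).measurable
    have h2 := Measure.ae_ae_of_ae_comp (κ := Θ) (μ := ν) (p := fun w => w ∈ Z)
      (by rw [hΘ, Dec.Th_bind]; exact fZ)
    rw [← hΘ] at h1
    filter_upwards [h1, h2] with z h1 h2
    filter_upwards [h1, h2] with w h1 h2
    refine ⟨Measure.ext_of_integral_eq_on_compactlySupported fun f => ?_, h2⟩
    refine eq_of_forall_dist_le fun ε hε => ?_
    obtain ⟨j, -, h3⟩ := close f f.continuous f.hasCompactSupport (ε / 2) (by positivity)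
    have h4 := abs_le.1 (h3 z)
    have h5 := abs_le.1 (h3 w)
    rw [h1 j] at h5
    rw [Real.dist_eq, abs_le]
    constructor <;> linarith [h4.1, h4.2, h5.1, h5.2]
  · obtain ⟨e, e0, e1⟩ := ENNReal.exists_pos_sum_of_countable hε.ne' ℕ
    obtain ⟨r, r0, r1⟩ := ENNReal.lt_iff_exists_add_pos_lt.1 e1
    choose t t1 t2 t3 using fun j => tendstoUniformlyOn_of_ae_tendsto' (μ := ν)
      (f := fun k => Av (φ j) (N k)) (g := G j)
      (fun k => (cA j (N k)).stronglyMeasurable) (mG' j).stronglyMeasurable (hN j)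
      (ε := e j) (e0 j)
    obtain ⟨Q, q1, q2, q3⟩ := (mZ.diff (MeasurableSet.iUnion t1)).exists_isCompact_sdiff_lt
      (measure_ne_top ν _) (ENNReal.coe_ne_zero.2 r0.ne')
    refine ⟨Q, q2, fun z hz => (q1 hz).1, ?_, fun f hf hf' => ?_⟩
    · have sub : Qᶜ ⊆ Zᶜ ∪ ((⋃ j, t j) ∪ ((Z \ ⋃ j, t j) \ Q)) := fun z hz => by
        by_cases a : z ∈ Z
        · by_cases b : z ∈ ⋃ j, t j
          · exact .inr (.inl b)
          · exact .inr (.inr ⟨⟨a, b⟩, hz⟩)
        · exact .inl a
      have z0 : ν Zᶜ = 0 := fZ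
      refine ((measure_mono sub).trans ((measure_union_le _ _).trans ?_)).trans_lt r1
      rw [z0, zero_add]
      refine (measure_union_le _ _).trans (add_le_add ((measure_iUnion_le _).trans
        (ENNReal.tsum_le_tsum fun j => ?_)) q3.le)
      simpa using t2 j
    · refine continuousOn_of_uniform_approx_of_continuousOn fun u hu => ?_
      obtain ⟨δ, δ0, hδ⟩ := Metric.mem_uniformity_dist.1 hu
      obtain ⟨j, -, hj⟩ := close f hf hf' (δ / 2) (by positivity)
      refine ⟨G j, ((t3 j).continuousOn (.of_forall fun k => (cA j (N k)).continuousOn)).mono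
        fun z hz hz' => (q1 hz).2 (mem_iUnion.2 ⟨j, hz'⟩), fun z _ => hδ ?_⟩
      exact (hj z).trans_lt (by linarith)

/-- Invariant sets are independent of an ergodic factor. -/
theorem indepF {Y X P : Type} [MeasurableSpace Y] [MeasurableSpace X] {ν : Measure Y}
    {T : P → Y → Y} {R : P → X → X} {π : Y → X} (hπ : Measurable π)
    (hT : ∀ q, MeasurePreserving (T q) ν ν) (hR : ∀ q, Measurable (R q))
    (hc : ∀ q y, π (T q y) = R q (π y)) (hE : ErgF (ν.map π) R) {S : Set Y} {A : Set X}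
    (hS : MeasurableSet S) (hS' : ∀ q, T q ⁻¹' S = S) (hA : MeasurableSet A) :
    ν (S ∩ π ⁻¹' A) = ν S * (ν.map π) A := by
  have h := hE ((ν.restrict S).map π) (Measure.map_mono Measure.restrict_le_self hπ) fun q => by
    have h1 : MeasurePreserving (T q) (ν.restrict S) (ν.restrict S) := by
      have := (hT q).restrict_preimage hS
      rwa [hS' q] at this
    have e : R q ∘ π = π ∘ T q := funext fun y => (hc q y).symm
    rw [Measure.map_map (hR q) hπ, e, ← Measure.map_map hπ (hT q).measurable, h1.map_eq]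
  have h2 := congrArg (fun ρ : Measure X => ρ A) h
  simp only [Measure.smul_apply, smul_eq_mul] at h2
  rwa [Measure.map_apply hπ hA, Measure.restrict_apply (hπ hA), inter_comm,
    Measure.map_apply hπ MeasurableSet.univ, preimage_univ, Measure.restrict_apply_univ] at h2

/-- The sigma-algebra of the measurable sets invariant under a family of maps. -/
abbrev mI {Y P : Type} [MeasurableSpace Y] (T : P → Y → Y) (B : Set P) : MeasurableSpace Y where
  MeasurableSet' S := MeasurableSet S ∧ ∀ s ∈ B, T s ⁻¹' S = S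
  measurableSet_empty := ⟨.empty, fun _ _ => rfl⟩
  measurableSet_compl S hS := ⟨hS.1.compl, fun s hs => by rw [preimage_compl, hS.2 s hs]⟩
  measurableSet_iUnion f hf := ⟨.iUnion fun i => (hf i).1, fun s hs => by
    rw [preimage_iUnion]
    exact iUnion_congr fun i => (hf i).2 s hs⟩

section flow

variable (p : ℕ) [Fact p.Prime]

/-- The ball of radius `p ^ n`. -/
def ball (n : ℕ) : Set ℚ_[p] := Metric.closedBall 0 ((p : ℝ) ^ n)

/-- The uniform probability measure on the ball of radius `p ^ n`. -/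
def kap (n : ℕ) : Measure ℚ_[p] := cond (Measure.addHaar : Measure ℚ_[p]) (ball p n)

theorem one_lt : (1 : ℝ) < p := by exact_mod_cast (Fact.out : p.Prime).one_lt

theorem ball_meas (n : ℕ) : MeasurableSet (ball p n) := Metric.isClosed_closedBall.measurableSet

instance (n : ℕ) : IsProbabilityMeasure (kap p n) :=
  cond_isProbabilityMeasure_of_finite
    (Metric.measure_closedBall_pos _ _ (pow_pos (zero_lt_one.trans (one_lt p)) n)).ne'
    measure_closedBall_lt_top.ne

theorem ball_mono : Monotone (ball p) := fun _ _ h =>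
  Metric.closedBall_subset_closedBall (pow_le_pow_right₀ (one_lt p).le h)

theorem exists_ball (s : ℚ_[p]) : ∃ n, s ∈ ball p n := by
  obtain ⟨n, hn⟩ := pow_unbounded_of_one_lt ‖s‖ (one_lt p)
  exact ⟨n, mem_closedBall_zero_iff.2 hn.le⟩

theorem kap_ae (n : ℕ) : ∀ᵐ s ∂kap p n, s ∈ ball p n := ae_cond_mem (ball_meas p n)

theorem kap_inv (n : ℕ) {s : ℚ_[p]} (hs : s ∈ ball p n) :
    MeasurePreserving (· + s) (kap p n) (kap p n) := by
  have e : (· + s) ⁻¹' ball p n = ball p n := by
    ext x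
    simp only [ball, mem_preimage, mem_closedBall_zero_iff] at hs ⊢
    constructor
    · intro h
      have := IsUltrametricDist.norm_add_le_max (x + s) (-s)
      rw [add_neg_cancel_right, norm_neg] at this
      exact this.trans (max_le h hs)
    · intro h
      exact (IsUltrametricDist.norm_add_le_max x s).trans (max_le h hs)
  have h := (measurePreserving_add_right (Measure.addHaar : Measure ℚ_[p]) s).restrict_preimage
    (ball_meas p n)
  rw [e] at h
  exact h.smul_measure _

variable {p}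

/-- The average over the ball of radius `p ^ n`. -/
def av {Y : Type} (T : ℚ_[p] → Y → Y) (f : Y → ℝ) (n : ℕ) (z : Y) : ℝ :=
  ∫ s, f (T s z) ∂kap p n

variable {Y : Type} [TopologicalSpace Y] [PolishSpace Y] [MeasurableSpace Y] [BorelSpace Y]
  {T : ℚ_[p] → Y → Y}

omit [MeasurableSpace Y] [BorelSpace Y] in
theorem av_cont (hT : Continuous fun q : ℚ_[p] × Y => T q.1 q.2) {f : Y → ℝ} (hf : Continuous f)
    {C : ℝ} (hC : ∀ y, ‖f y‖ ≤ C) (n : ℕ) : Continuous (av T f n) :=
  continuous_of_dominated (bound := fun _ => C)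
    (fun z => (hf.comp (hT.comp (Continuous.prodMk_left z))).aestronglyMeasurable)
    (fun _ => .of_forall fun _ => hC _) (integrable_const C)
    (.of_forall fun s => hf.comp (hT.comp (Continuous.prodMk_right s)))

omit [PolishSpace Y] [MeasurableSpace Y] [BorelSpace Y] in
theorem av_close (hT : Continuous fun q : ℚ_[p] × Y => T q.1 q.2) {f g : Y → ℝ}
    (hf : Continuous f) (hf' : HasCompactSupport f) (hg : Continuous g)
    (hg' : HasCompactSupport g) {ε : ℝ} (h : ∀ y, |f y - g y| ≤ ε) (n : ℕ) (z : Y) :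
    |av T f n z - av T g n z| ≤ ε := by
  have i : ∀ u : Y → ℝ, Continuous u → HasCompactSupport u →
      Integrable (fun s => u (T s z)) (kap p n) := fun u hu hu' => by
    obtain ⟨C, hC⟩ := hu.bounded_above_of_compact_support hu'
    exact .of_bound (hu.comp (hT.comp (Continuous.prodMk_left z))).aestronglyMeasurable C
      (.of_forall fun _ => hC _)
  rw [av, av, ← integral_sub (i f hf hf') (i g hg hg')]
  simpa using norm_integral_le_of_norm_le_const (μ := kap p n)
    (f := fun s => f (T s z) - g (T s z)) (C := ε) (.of_forall fun _ => h _)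

omit [PolishSpace Y] [MeasurableSpace Y] [BorelSpace Y] in
theorem av_inv (hT : Continuous fun q : ℚ_[p] × Y => T q.1 q.2)
    (hadd : ∀ s s' y, T (s + s') y = T s (T s' y)) {f : Y → ℝ} (hf : Continuous f) (n : ℕ)
    {s : ℚ_[p]} (hs : s ∈ ball p n) (z : Y) : av T f n (T s z) = av T f n z := by
  simp only [av, ← hadd]
  have c : Continuous fun s => f (T s z) := hf.comp (hT.comp (Continuous.prodMk_left z))
  conv_rhs => rw [← (kap_inv p n hs).map_eq]
  rw [integral_map (kap_inv p n hs).measurable.aemeasurable c.aestronglyMeasurable]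

theorem av_eq (hT : Continuous fun q : ℚ_[p] × Y => T q.1 q.2)
    (hadd : ∀ s s' y, T (s + s') y = T s (T s' y)) (ν : Measure Y) [IsProbabilityMeasure ν]
    (hν : ∀ s, ν.map (T s) = ν) {f : Y → ℝ} (hf : Continuous f) {C : ℝ} (hC : ∀ y, ‖f y‖ ≤ C)
    (n : ℕ) : av T f n =ᵐ[ν] ν[f | mI T (ball p n)] := by
  have c := av_cont hT hf hC n
  have hm : mI T (ball p n) ≤ _ := fun S hS => hS.1
  have bd : ∀ z, ‖av T f n z‖ ≤ C := fun z => by
    simpa [av] using norm_integral_le_of_norm_le_const (μ := kap p n)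
      (f := fun s => f (T s z)) (C := C) (.of_forall fun _ => hC _)
  have g1 : Measurable[mI T (ball p n)] (av T f n) := fun U hU =>
    ⟨c.measurable hU, fun s hs => by
      ext z
      simp only [mem_preimage, av_inv hT hadd hf n hs]⟩
  refine ae_eq_condExp_of_forall_setIntegral_eq hm
    (.of_bound hf.aestronglyMeasurable C (.of_forall hC))
    (fun S _ _ => (Integrable.of_bound c.aestronglyMeasurable C (.of_forall bd)).integrableOn)
    (fun S hS _ => ?_) g1.stronglyMeasurable.aestronglyMeasurable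
  have cj : Continuous (Function.uncurry fun (z : Y) (s : ℚ_[p]) => f (T s z)) :=
    hf.comp (hT.comp continuous_swap)
  have sw := integral_integral_swap (μ := ν.restrict S) (ν := kap p n)
    (f := fun (z : Y) (s : ℚ_[p]) => f (T s z))
    (.of_bound cj.aestronglyMeasurable C (.of_forall fun _ => hC _))
  refine sw.trans ?_
  have e : ∀ᵐ s ∂kap p n, ∫ z in S, f (T s z) ∂ν = ∫ z in S, f z ∂ν := by
    filter_upwards [kap_ae p n] with s hs
    have cT : Continuous (T s) := hT.comp (Continuous.prodMk_right s)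
    have h1 := (MeasurePreserving.mk cT.measurable (hν s)).restrict_preimage hS.1
    rw [hS.2 s hs] at h1
    conv_rhs => rw [← h1.map_eq]
    rw [integral_map cT.aemeasurable hf.aestronglyMeasurable]
  rw [integral_congr_ae e]
  simp

end flow

end DecGAux

theorem decZ : DecZStmt := by
  intro Y V _ _ _ _ _ A T ν hA hTc hc hν hT
  have hT' : MeasurePreserving T ν ν := ⟨hTc.measurable, hT⟩
  obtain ⟨Z, z1, z2, z3, z4, z5⟩ := Dec.gen ν hTc hT' rfl
  refine ⟨_, Z, ⟨inferInstance, z1, Dec.Th_bind ν _,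
    fun v => z2 ((hA v).homeomorph (A v)) (hc v), z3, z4, z5⟩, ?_⟩
  intro Y' _ _ π T' hπ hR hs hE
  have := Measure.isProbabilityMeasure_map (μ := ν) hπ.aemeasurable
  exact Dec.Th_marg ν _ (ν.map π) hπ fun S B hS hB =>
    DecGAux.indepF (T := fun _ : Unit => T) hπ (fun _ => hT') (fun _ => hR) (fun _ => hs) hE
      hS.1 (fun _ => hS.2) hB

theorem decQ : DecQStmt := by
  intro p _ Y V _ _ _ mY _ A T ν hA hTc _ hadd hc hν hT
  have hm : ∀ n, DecGAux.mI T (DecGAux.ball p n) ≤ mY := fun n S hS => hS.1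
  have anti : Antitone fun n => DecGAux.mI T (DecGAux.ball p n) := fun a b hab S hS =>
    ⟨hS.1, fun s hs => hS.2 s (DecGAux.ball_mono p hab hs)⟩
  have hI : (⨅ n, DecGAux.mI T (DecGAux.ball p n)) ≤ mY := (iInf_le _ 0).trans (hm 0)
  obtain ⟨Z, z1, z2, z3, z4, z5⟩ := DecGAux.genA ν hI (DecGAux.av T)
    (fun f hf hf' n => by
      obtain ⟨C, hC⟩ := hf.bounded_above_of_compact_support hf'
      exact DecGAux.av_cont hTc hf hC n)
    (fun f g hf hf' hg hg' ε h n z => DecGAux.av_close hTc hf hf' hg hg' h n z)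
    (fun f hf hf' => by
      obtain ⟨C, hC⟩ := hf.bounded_above_of_compact_support hf'
      exact TendstoInMeasure.congr (fun n => (DecGAux.av_eq hTc hadd ν hT hf hC n).symm) .rfl
        (DecGAux.down _ ν hm anti (.of_bound hf.aestronglyMeasurable C (.of_forall hC)))) rfl
  refine ⟨_, Z, ⟨inferInstance, z1, Dec.Th_bind ν _,
    fun v => z2 ((hA v).homeomorph (A v)) fun f n z => ?_, z3, z4, z5⟩, ?_⟩
  · simp only [DecGAux.av, Function.comp_apply, IsHomeomorph.homeomorph_apply, hc]
  intro Y' _ _ π T' hπ hR hs hE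
  have := Measure.isProbabilityMeasure_map (μ := ν) hπ.aemeasurable
  refine Dec.Th_marg ν _ (ν.map π) hπ fun S B hS hB =>
    DecGAux.indepF hπ (fun s => ⟨(hTc.comp (Continuous.prodMk_right s)).measurable, hT s⟩) hR hs hE
      (hI S hS) (fun s => ?_) hB
  obtain ⟨n, hn⟩ := DecGAux.exists_ball p s
  exact (MeasurableSpace.measurableSet_iInf.1 hS n).2 s hn

end Pool.Agent.Lib.MP_9177b7_ag.J
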