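import Pool.Agent.Lib.MP_9177b7_ag.J.Div

/-!
Expanding maps of `ℚ_l`, Möbius reparametrisations and the choice of good times.
-/

open MeasureTheory Filter Topology Set Metric
open scoped MatrixGroups ENNReal NNReal Pointwise

noncomputable section

namespace Pool.Agent.Lib.MP_9177b7_ag.J.DiagU

open _root_.Pool.Agent.Lib.MP_9177b7_ag.J.Div

variable {l : ℕ} [Fact l.Prime]

/-- An expanding map does not increase the measure of preimages of open sets. -/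
theorem expand (m : Measure ℚ_[l]) [m.IsAddHaarMeasure] {U O : Set ℚ_[l]} {φ : ℚ_[l] → ℚ_[l]}
    (hO : IsOpen O) (h : ∀ s ∈ U, ∀ s' ∈ U, ‖s - s'‖ ≤ ‖φ s - φ s'‖) :
    m (U ∩ φ ⁻¹' O) ≤ m O := by
  classical
  have ex : ∀ x : O, ∃ k : ℕ, closedBall (x : ℚ_[l]) ((1 / 2 : ℝ) ^ k) ⊆ O := fun x => by
    obtain ⟨ε, hε, hs⟩ := Metric.isOpen_iff.1 hO x x.2
    obtain ⟨k, hk⟩ := exists_pow_lt_of_lt_one hε (show (1 / 2 : ℝ) < 1 by norm_num)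
    exact ⟨k, (closedBall_subset_ball hk).trans hs⟩
  set B : O → Set ℚ_[l] := fun x => closedBall (x : ℚ_[l]) ((1 / 2 : ℝ) ^ Nat.find (ex x)) with hB
  have key : ∀ x y : O, Nat.find (ex y) ≤ Nat.find (ex x) → (B x ∩ B y).Nonempty → B x = B y := by
    rintro x y hxy ⟨z, hx, hy⟩
    have h1 : (x : ℚ_[l]) ∈ B y := by
      refine (IsUltrametricDist.dist_triangle_max _ z _).trans (max_le ?_ hy)
      rw [dist_comm]
      exact hx.trans (pow_le_pow_of_le_one (by norm_num) (by norm_num) hxy)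
    have h2 := IsUltrametricDist.closedBall_eq_of_mem h1
    have h3 : Nat.find (ex x) ≤ Nat.find (ex y) :=
      Nat.find_min' _ (h2 ▸ Nat.find_spec (ex y))
    simp only [hB, le_antisymm h3 hxy, h2]
  have hd : (range B).PairwiseDisjoint id := by
    rintro _ ⟨x, rfl⟩ _ ⟨y, rfl⟩ hne
    by_contra hn
    have h1 := not_disjoint_iff_nonempty_inter.1 hn
    rcases le_total (Nat.find (ex y)) (Nat.find (ex x)) with h2 | h2
    · exact hne (key x y h2 h1)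
    · exact hne (key y x h2 (by rwa [inter_comm])).symm
  have hc : (range B).Countable := hd.countable_of_isOpen (by
    rintro _ ⟨x, rfl⟩
    exact IsUltrametricDist.isOpen_closedBall _ (by positivity)) (by
    rintro _ ⟨x, rfl⟩
    exact ⟨x, mem_closedBall_self (by positivity)⟩)
  have hU : ⋃₀ range B = O := by
    refine Subset.antisymm ?_ fun x hx =>
      ⟨_, ⟨⟨x, hx⟩, rfl⟩, mem_closedBall_self (by positivity)⟩
    rintro z ⟨_, ⟨x, rfl⟩, hz⟩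
    exact Nat.find_spec (ex x) hz
  have e1 : m O = ∑' A : range B, m A := (congrArg m hU).symm.trans (measure_sUnion hc
    hd (by rintro _ ⟨x, rfl⟩; exact isClosed_closedBall.measurableSet))
  have e2 : U ∩ φ ⁻¹' O ⊆ ⋃ A ∈ range B, U ∩ φ ⁻¹' A := by
    rintro s ⟨h1, h2⟩
    exact mem_iUnion₂.2 ⟨_, ⟨⟨_, h2⟩, rfl⟩, h1, mem_closedBall_self (by positivity)⟩
  rw [e1]
  refine (measure_mono e2).trans ((measure_biUnion_le m hc _).trans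
    (ENNReal.tsum_le_tsum ?_))
  rintro ⟨_, x, rfl⟩
  rcases (U ∩ φ ⁻¹' B x).eq_empty_or_nonempty with h0 | ⟨s₀, h1, h2⟩
  · simp [h0]
  · refine (measure_mono (t := closedBall s₀ ((1 / 2 : ℝ) ^ Nat.find (ex x))) ?_).trans
      (le_of_eq ?_)
    · rintro s ⟨a, b⟩
      rw [mem_closedBall, dist_eq_norm]
      refine (h s a s₀ h1).trans ?_
      rw [← dist_eq_norm]
      refine (IsUltrametricDist.dist_triangle_max _ (x : ℚ_[l]) _).trans (max_le b ?_)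
      rw [dist_comm]
      exact h2
    · rw [Measure.addHaar_closedBall_center, hB, Measure.addHaar_closedBall_center m (x : ℚ_[l])]

theorem l_pos : (0 : ℝ) < l := zero_lt_one.trans one_lt_l

theorem norm_l : ‖(l : ℚ_[l])‖ = (l : ℝ)⁻¹ := Padic.norm_p

theorem l_ne : (l : ℚ_[l]) ≠ 0 := norm_pos_iff.1 (by rw [norm_l]; exact inv_pos.2 l_pos)

theorem doubling (m : Measure ℚ_[l]) [m.IsAddHaarMeasure] :
    ∃ C : ℝ≥0, ∀ n, m (bl l (n + 3)) ≤ C * m (bl l n) := by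
  let u : ℚ_[l]ˣ := Units.mk0 ((l : ℚ_[l])⁻¹ ^ 3) (pow_ne_zero _ (inv_ne_zero l_ne))
  refine ⟨distribHaarChar ℚ_[l] u, fun n => ?_⟩
  rw [distribHaarChar_mul]
  refine measure_mono fun x hx => ⟨(l : ℚ_[l]) ^ 3 * x, mem_bl.2 ?_, ?_⟩
  · rw [norm_mul, norm_pow, norm_l, inv_pow, inv_mul_le_iff₀ (pow_pos l_pos 3), ← pow_add,
      add_comm]
    exact mem_bl.1 hx
  · have := l_ne (l := l)
    simp only [u, Units.smul_mk0, smul_eq_mul]
    field_simp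

/-- The reparametrisation that kills the upper right entry. -/
def mo (e : HH l) (s : ℚ_[l]) : ℚ_[l] := (s * e 0 0 - e 0 1) / (e 1 1 - s * e 1 0)

theorem det2 (e : HH l) : e 0 0 * e 1 1 - e 0 1 * e 1 0 = 1 := by
  have := e.det_coe
  rwa [Matrix.det_fin_two] at this

theorem mo_exp (e : HH l) {s s' : ℚ_[l]} (h : e 1 1 - s * e 1 0 ≠ 0) (h' : e 1 1 - s' * e 1 0 ≠ 0)
    (h1 : ‖e 1 1 - s * e 1 0‖ ≤ 1) (h1' : ‖e 1 1 - s' * e 1 0‖ ≤ 1) :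
    ‖s - s'‖ ≤ ‖mo e s - mo e s'‖ := by
  have e1 : s - s' = (mo e s - mo e s') * ((e 1 1 - s * e 1 0) * (e 1 1 - s' * e 1 0)) := by
    rw [mo, mo]
    field_simp
    linear_combination (s' - s) * det2 e
  rw [e1, norm_mul, norm_mul]
  exact mul_le_of_le_one_right (norm_nonneg _) (mul_le_one₀ h1 (norm_nonneg _) h1')

theorem norm_sub_eq {a b : ℚ_[l]} (h : ‖b‖ < ‖a‖) : ‖a - b‖ = ‖a‖ := by
  rw [sub_eq_add_neg, Padic.add_eq_max_of_ne (by rw [norm_neg]; exact h.ne'), norm_neg,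
    max_eq_left h.le]

theorem norm_sub_max (a b : ℚ_[l]) : ‖a - b‖ ≤ max ‖a‖ ‖b‖ := by
  rw [sub_eq_add_neg, ← norm_neg b]
  exact Padic.nonarchimedean _ _

theorem num_le {e : HH l} (h0 : ‖e 0 0‖ ≤ 1) (h1 : ‖e 0 1‖ ≤ 1) {s : ℚ_[l]} {n : ℕ}
    (hs : ‖s‖ ≤ (l : ℝ) ^ n) : ‖s * e 0 0 - e 0 1‖ ≤ (l : ℝ) ^ n := by
  refine (norm_sub_max _ _).trans (max_le ?_ (h1.trans (one_le_pow₀ one_lt_l.le)))
  rw [norm_mul]
  exact (mul_le_of_le_one_right (norm_nonneg _) h0).trans hs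

theorem bl_open (n : ℕ) : IsOpen (bl l n : Set ℚ_[l]) :=
  IsUltrametricDist.isOpen_closedBall _ (pow_pos l_pos n).ne'

/-- A good time in the region where the reparametrisation is an isometry. -/
theorem pickA (hl : l ≠ 2) (m : Measure ℚ_[l]) [m.IsAddHaarMeasure] {e : HH l} (h0 : ‖e 0 0‖ ≤ 1)
    (h1 : ‖e 0 1‖ ≤ 1) (h2 : ‖e 1 1‖ = 1) (n : ℕ) (s₀ : ℚ_[l]) {A₁ A₂ : Set ℚ_[l]} (hA : IsOpen A₂)
    (a₁ : 10 * m (A₁ ∩ bl l (n + 1)) ≤ m (bl l (n + 1)))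
    (a₂ : 10 * m (A₂ ∩ bl l (n + 1)) ≤ m (bl l (n + 1))) :
    ∃ s, s ∉ A₁ ∧ (‖s * e 1 0‖ < 1 → mo e s ∉ A₂) ∧ (l : ℝ) ^ n < ‖s‖ ∧ ‖s‖ ≤ (l : ℝ) ^ (n + 1) ∧
      (l : ℝ) ^ n < ‖s - s₀‖ := by
  have hd : ∀ s, ‖s * e 1 0‖ < 1 → ‖e 1 1 - s * e 1 0‖ = 1 := fun s hs => by
    rw [norm_sub_eq (by rwa [h2]), h2]
  obtain ⟨s, s1, s2, s3⟩ := pick hl m n s₀ a₁ (A₂ := {s | ‖s * e 1 0‖ < 1 ∧ mo e s ∈ A₂}) (by
    refine (mul_le_mul_right ((measure_mono ?_).trans (expand m (U := {s | ‖s * e 1 0‖ < 1})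
      (φ := mo e) (hA.inter (bl_open (n + 1))) fun s hs s' hs' => mo_exp e
        (norm_pos_iff.1 (by rw [hd s hs]; exact one_pos))
        (norm_pos_iff.1 (by rw [hd s' hs']; exact one_pos)) (hd s hs).le (hd s' hs').le)) _).trans a₂
    rintro s ⟨⟨a, b⟩, c⟩
    refine ⟨a, b, mem_bl.2 ?_⟩
    rw [mo, norm_div, hd s a, div_one]
    exact num_le h0 h1 (mem_bl.1 c))
  exact ⟨s, s1, fun h h' => s2 ⟨h, h'⟩, s3⟩

/-- A good time near the pole of the reparametrisation. -/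
theorem pickB (m : Measure ℚ_[l]) [m.IsAddHaarMeasure] {C : ℝ≥0}
    (hC : ∀ n, m (bl l (n + 3)) ≤ C * m (bl l n)) {e : HH l} (h0 : ‖e 0 0‖ ≤ 1)
    (h1 : ‖e 0 1‖ ≤ 1) (h2 : ‖e 1 1‖ = 1) (h3 : e 1 0 ≠ 0) (h4 : ‖e 1 0‖ < ((l : ℝ) ^ 2)⁻¹)
    {A₁ A₂ : Set ℚ_[l]} (hA : IsOpen A₂)
    (a₁ : ∀ n, (2 * C + 10 : ℝ≥0∞) * m (A₁ ∩ bl l n) ≤ m (bl l n))
    (a₂ : ∀ n, (2 * C + 10 : ℝ≥0∞) * m (A₂ ∩ bl l n) ≤ m (bl l n)) :
    ∃ s, s ∉ A₁ ∧ mo e s ∉ A₂ ∧ ‖e 1 1 - s * e 1 0‖ = (l : ℝ)⁻¹ := by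
  have hl := one_lt_l (l := l)
  have hl0 := l_pos (l := l)
  obtain ⟨n, hn⟩ : ∃ n : ℕ, ‖e 1 0‖ = ((l : ℝ) ^ (n + 2))⁻¹ := by
    have e1 := Padic.norm_eq_zpow_neg_valuation h3
    have e2 : (2 : ℤ) ≤ (e 1 0).valuation := by
      rw [e1, ← zpow_natCast, ← zpow_neg, zpow_lt_zpow_iff_right₀ hl] at h4
      push_cast at h4
      omega
    obtain ⟨n, hn⟩ := Int.eq_ofNat_of_zero_le (sub_nonneg.2 e2)
    refine ⟨n, ?_⟩
    rw [e1, ← zpow_natCast, ← zpow_neg]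
    congr 2
    push_cast
    omega
  set s₀ : ℚ_[l] := (e 1 1 - l) / e 1 0 with hs₀
  have hT : ∀ s, s - s₀ ∈ bl l n → ‖e 1 1 - s * e 1 0‖ = (l : ℝ)⁻¹ := fun s hs => by
    have e1 : e 1 1 - s * e 1 0 = l - (s - s₀) * e 1 0 := by
      rw [hs₀]
      field_simp
      ring
    rw [e1, norm_sub_eq, norm_l]
    rw [norm_mul, hn, norm_l, ← div_eq_mul_inv, div_lt_iff₀ (by positivity)]
    refine (mem_bl.1 hs).trans_lt ?_
    rw [lt_inv_mul_iff₀ hl0, ← pow_succ']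
    exact pow_lt_pow_right₀ hl (by omega)
  have hi : (l : ℝ)⁻¹ ≤ 1 := inv_le_one_of_one_le₀ hl.le
  have hS : ∀ s, s - s₀ ∈ bl l n → ‖s‖ ≤ (l : ℝ) ^ (n + 2) := fun s hs => by
    have e1 : ‖s * e 1 0‖ ≤ 1 := by
      rw [← sub_sub_cancel (e 1 1) (s * e 1 0)]
      exact (norm_sub_max _ _).trans (max_le h2.le ((hT s hs).trans_le hi))
    rwa [norm_mul, hn, ← div_eq_mul_inv, div_le_one (by positivity)] at e1
  by_contra hc
  have hsub : {s | s - s₀ ∈ bl l n} ⊆ (A₁ ∩ bl l (n + 3)) ∪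
      ({s | s - s₀ ∈ bl l n} ∩ mo e ⁻¹' (A₂ ∩ bl l (n + 3))) := by
    intro s hs
    by_cases b1 : s ∈ A₁
    · exact Or.inl ⟨b1, mem_bl.2 ((hS s hs).trans (pow_le_pow_right₀ hl.le (by omega)))⟩
    · refine Or.inr ⟨hs, by_contra fun b2 => hc ⟨s, b1, b2, hT s hs⟩, mem_bl.2 ?_⟩
      rw [mo, norm_div, hT s hs, div_inv_eq_mul, pow_succ]
      exact mul_le_mul_of_nonneg_right (num_le h0 h1 (hS s hs)) hl0.le
  have b1 : m (bl l n) ≤ m (A₁ ∩ bl l (n + 3)) + m (A₂ ∩ bl l (n + 3)) := by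
    rw [← bl_shift m n s₀]
    refine (measure_mono hsub).trans ((measure_union_le _ _).trans (add_le_add le_rfl ?_))
    exact expand m (hA.inter (bl_open _)) fun s hs s' hs' => mo_exp e
      (norm_pos_iff.1 (by rw [hT s hs]; positivity))
      (norm_pos_iff.1 (by rw [hT s' hs']; positivity)) ((hT s hs).trans_le hi)
      ((hT s' hs').trans_le hi)
  have b2 : (2 * C + 10 : ℝ≥0∞) * m (bl l n) ≤ (2 * C) * m (bl l n) :=
    calc _ ≤ (2 * C + 10 : ℝ≥0∞) * (m (A₁ ∩ bl l (n + 3)) + m (A₂ ∩ bl l (n + 3))) :=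
          mul_le_mul_right b1 _
      _ ≤ C * m (bl l n) + C * m (bl l n) := by
          rw [mul_add]
          exact add_le_add ((a₁ _).trans (hC n)) ((a₂ _).trans (hC n))
      _ = _ := by ring
  have b3 := (ENNReal.mul_le_mul_iff_left (bl_ne_zero m n) (bl_ne_top m n)).1 b2
  exact absurd b3 (not_le.2 (ENNReal.lt_add_right (by finiteness) (by norm_num)))

end Pool.Agent.Lib.MP_9177b7_ag.J.DiagU
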