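import Pool.Agent.Lib.MP_9177b7_ag.J.Marg2
import Pool.Agent.Lib.MP_9177b7_ag.J.Join

/-!
A line of unipotents, first part: stabilisers and the compactness claim.
-/

open MeasureTheory ProbabilityTheory Filter Topology Set
open scoped MatrixGroups ENNReal NNReal Pointwise

noncomputable section

namespace Pool.Agent.Lib.MP_9177b7_ag.J.Line

variable {l : ℕ} [Fact l.Prime]

theorem ultra : IsUltrametricDist (ℚ_[l] × ℚ_[l]) := by
  refine ⟨fun x y z => ?_⟩
  simp only [Prod.dist_eq]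
  refine max_le ?_ ?_
  · exact (IsUltrametricDist.dist_triangle_max _ y.1 _).trans
      (max_le_max (le_max_left _ _) (le_max_left _ _))
  · exact (IsUltrametricDist.dist_triangle_max _ y.2 _).trans
      (max_le_max (le_max_right _ _) (le_max_right _ _))

variable (S : Sp l)

/-- The action of pairs of unipotents. -/
def U (v : ℚ_[l] × ℚ_[l]) : S.X × S.X → S.X × S.X := S.h2 (up v.1, up v.2)

theorem U_add (v w : ℚ_[l] × ℚ_[l]) (z : S.X × S.X) : U S (v + w) z = U S v (U S w z) := by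
  simp only [U, Sp.h2, Prod.fst_add, Prod.snd_add, Marg.hU]

theorem U_zero (z : S.X × S.X) : U S 0 z = z := by
  simp only [U, Sp.h2, Prod.fst_zero, Prod.snd_zero, Marg.up_zero, Marg.hs_one]

theorem cont_U : Continuous fun p : (ℚ_[l] × ℚ_[l]) × (S.X × S.X) => U S p.1 p.2 :=
  ((Marg.cont_U S).comp (continuous_snd.fst.prodMk continuous_fst.fst)).prodMk
    ((Marg.cont_U S).comp (continuous_snd.snd.prodMk continuous_fst.snd))

theorem cont_U' (v : ℚ_[l] × ℚ_[l]) : Continuous (U S v) := Join.h2_cont S _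

theorem cs_U {φ : S.X × S.X → ℝ} (hc : HasCompactSupport φ) (v : ℚ_[l] × ℚ_[l]) :
    HasCompactSupport fun z => φ (U S v z) :=
  hc.comp_homeomorph ((Homeomorph.smul ((up v.1, 1) : S.G)).prodCongr
    (Homeomorph.smul ((up v.2, 1) : S.G)))

theorem unifU {φ : S.X × S.X → ℝ} (hφ : Continuous φ) (hc : HasCompactSupport φ)
    (v₀ : ℚ_[l] × ℚ_[l]) {η : ℝ} (hη : 0 < η) :
    ∀ᶠ v in 𝓝 v₀, ∀ z, |φ (U S v z) - φ (U S v₀ z)| ≤ η := by
  have h1 : ∀ᶠ v in 𝓝 (0 : ℚ_[l] × ℚ_[l]), ∀ x ∈ tsupport φ, |φ (U S v x) - φ x| < η := by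
    refine hc.isCompact.eventually_forall_of_forall_eventually fun x _ => ?_
    have : Continuous fun p : (ℚ_[l] × ℚ_[l]) × (S.X × S.X) => |φ (U S p.1 p.2) - φ p.2| :=
      ((hφ.comp (cont_U S)).sub (hφ.comp continuous_snd)).abs
    exact this.continuousAt.eventually_lt continuousAt_const (by simpa [U_zero] using hη)
  have t1 : Tendsto (fun v : ℚ_[l] × ℚ_[l] => v - v₀) (𝓝 v₀) (𝓝 0) := by
    simpa using (continuous_sub_right v₀).tendsto v₀
  have t2 : Tendsto (fun v : ℚ_[l] × ℚ_[l] => v₀ - v) (𝓝 v₀) (𝓝 0) := by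
    simpa using (continuous_sub_left v₀).tendsto v₀
  filter_upwards [t1.eventually h1, t2.eventually h1] with v a b z
  by_cases hx : U S v₀ z ∈ tsupport φ
  · have := a _ hx
    rw [← U_add, sub_add_cancel] at this
    exact this.le
  · by_cases hy : U S v z ∈ tsupport φ
    · have := b _ hy
      rw [← U_add, sub_add_cancel, abs_sub_comm] at this
      exact this.le
    · rw [image_eq_zero_of_notMem_tsupport hx, image_eq_zero_of_notMem_tsupport hy]
      simpa using hη.le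

theorem ext_cc {θ θ' : Measure (S.X × S.X)} [IsProbabilityMeasure θ] [IsProbabilityMeasure θ']
    (h : ∀ φ : S.X × S.X → ℝ, Continuous φ → HasCompactSupport φ →
      ∫ w, φ w ∂θ = ∫ w, φ w ∂θ') : θ = θ' :=
  Measure.ext_of_integral_eq_on_compactlySupported fun f =>
    h f (map_continuous f) f.hasCompactSupport

theorem closedW {P : Type} [TopologicalSpace P] (θ : P → Measure (S.X × S.X))
    [∀ p, IsProbabilityMeasure (θ p)] {Q : Set P} (hQ : IsClosed Q)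
    (hc : ∀ φ : S.X × S.X → ℝ, Continuous φ → HasCompactSupport φ →
      ContinuousOn (fun p => ∫ w, φ w ∂θ p) Q) :
    IsClosed {q : P × (ℚ_[l] × ℚ_[l]) | q.1 ∈ Q ∧ (θ q.1).map (U S q.2) = θ q.1} := by
  have hcl : IsClosed (Q ×ˢ (univ : Set (ℚ_[l] × ℚ_[l]))) := hQ.prod isClosed_univ
  have key : ∀ φ : S.X × S.X → ℝ, Continuous φ → HasCompactSupport φ →
      ContinuousOn (fun q : P × (ℚ_[l] × ℚ_[l]) => ∫ w, φ (U S q.2 w) ∂θ q.1) (Q ×ˢ univ) := by
    intro φ hφ hs q₀ hq₀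
    have hint : ∀ v p, Integrable (fun w => φ (U S v w)) (θ p) := fun v p =>
      (hφ.comp (cont_U' S v)).integrable_of_hasCompactSupport (cs_U S hs v)
    rw [ContinuousWithinAt, Metric.tendsto_nhds]
    intro ε hε
    have h1 := (hc _ (hφ.comp (cont_U' S q₀.2)) (cs_U S hs q₀.2) q₀.1 hq₀.1)
    have h2 : ContinuousWithinAt (fun q : P × (ℚ_[l] × ℚ_[l]) => ∫ w, φ (U S q₀.2 w) ∂θ q.1)
        (Q ×ˢ univ) q₀ :=
      ContinuousWithinAt.comp (f := Prod.fst) h1 continuousWithinAt_fst fun q hq => hq.1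
    have h3 := Metric.tendsto_nhds.1 h2 (ε / 2) (half_pos hε)
    have h4 : ∀ᶠ q in 𝓝[Q ×ˢ univ] q₀, ∀ z, |φ (U S q.2 z) - φ (U S q₀.2 z)| ≤ ε / 2 :=
      ((continuous_snd.tendsto q₀).eventually (unifU S hφ hs q₀.2 (half_pos hε))).filter_mono
        nhdsWithin_le_nhds
    filter_upwards [h3, h4] with q a b
    have h5 : dist (∫ w, φ (U S q.2 w) ∂θ q.1) (∫ w, φ (U S q₀.2 w) ∂θ q.1) ≤ ε / 2 := by
      rw [dist_eq_norm, ← integral_sub (hint _ _) (hint _ _)]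
      have := norm_integral_le_of_norm_le_const (μ := θ q.1) (C := ε / 2)
        (f := fun w => φ (U S q.2 w) - φ (U S q₀.2 w)) (Eventually.of_forall b)
      simpa using this
    calc _ ≤ _ := dist_triangle _ (∫ w, φ (U S q₀.2 w) ∂θ q.1) _
      _ < ε / 2 + ε / 2 := add_lt_add_of_le_of_lt h5 a
      _ = ε := add_halves ε
  have e : {q : P × (ℚ_[l] × ℚ_[l]) | q.1 ∈ Q ∧ (θ q.1).map (U S q.2) = θ q.1} =
      Q ×ˢ univ ∩ ⋂ φ : {φ : S.X × S.X → ℝ // Continuous φ ∧ HasCompactSupport φ},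
        (Q ×ˢ univ ∩ (fun q : P × (ℚ_[l] × ℚ_[l]) =>
          ∫ w, φ.1 (U S q.2 w) ∂θ q.1 - ∫ w, φ.1 w ∂θ q.1) ⁻¹' {0}) := by
    ext q
    simp only [mem_inter_iff, mem_iInter, mem_preimage, mem_singleton_iff, mem_prod, mem_univ,
      and_true, sub_eq_zero]
    have hm := (cont_U' S q.2).measurable.aemeasurable (μ := θ q.1)
    constructor
    · rintro ⟨h1, h2⟩
      refine ⟨h1, fun φ => ⟨h1, ?_⟩⟩
      rw [← integral_map hm φ.2.1.aestronglyMeasurable, h2]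
    · rintro ⟨h1, h2⟩
      refine ⟨h1, ?_⟩
      have := Measure.isProbabilityMeasure_map hm
      refine ext_cc S fun φ a b => ?_
      rw [integral_map hm a.aestronglyMeasurable]
      exact (h2 ⟨φ, a, b⟩).2
  rw [e]
  refine hcl.inter (isClosed_iInter fun φ => ?_)
  refine ContinuousOn.preimage_isClosed_of_isClosed ?_ hcl isClosed_singleton
  exact (key _ φ.2.1 φ.2.2).sub ((hc _ φ.2.1 φ.2.2).comp continuousOn_fst fun q hq => hq.1)

/-- The unipotent stabiliser of a measure. -/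
def W (θ : Measure (S.X × S.X)) : AddSubgroup (ℚ_[l] × ℚ_[l]) where
  carrier := {v | θ.map (U S v) = θ}
  zero_mem' := by
    show θ.map (U S 0) = θ
    rw [show U S 0 = id from funext (U_zero S), Measure.map_id]
  add_mem' {v w} h h' := by
    have h1 : θ.map (U S v) = θ := h
    have h2 : θ.map (U S w) = θ := h'
    show θ.map (U S (v + w)) = θ
    rw [show U S (v + w) = U S v ∘ U S w from funext (U_add S v w),
      ← Measure.map_map (cont_U' S v).measurable (cont_U' S w).measurable, h2, h1]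
  neg_mem' {v} h := by
    have h1 : θ.map (U S v) = θ := h
    show θ.map (U S (-v)) = θ
    conv_lhs => rw [← h1]
    rw [Measure.map_map (cont_U' S _).measurable (cont_U' S _).measurable,
      show U S (-v) ∘ U S v = id from funext fun z => by
        simp only [Function.comp, ← U_add, neg_add_cancel, U_zero, id], Measure.map_id]

theorem mem_W {θ : Measure (S.X × S.X)} {v : ℚ_[l] × ℚ_[l]} :
    v ∈ W S θ ↔ θ.map (U S v) = θ := Iff.rfl

theorem closed_W (θ : Measure (S.X × S.X)) [IsProbabilityMeasure θ] :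
    IsClosed (W S θ : Set (ℚ_[l] × ℚ_[l])) := by
  have := closedW S (fun _ : Unit => θ) isClosed_univ fun _ _ _ => continuousOn_const
  have h2 := this.preimage (Continuous.prodMk_right ())
  convert h2 using 1
  ext v
  simp [mem_W]

omit S in
theorem line_of_unbdd (N : AddSubgroup (ℚ_[l] × ℚ_[l])) (hN : IsClosed (N : Set (ℚ_[l] × ℚ_[l])))
    (hu : ∀ R : ℝ, ∃ v ∈ N, R < ‖v‖) : ∃ e : ℚ_[l] × ℚ_[l], e ≠ 0 ∧ ∀ s : ℚ_[l], s • e ∈ N := by
  have h1 : ∀ v ∈ N, ∀ s : ℚ_[l], ‖s‖ ≤ 1 → s • v ∈ N := by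
    intro v hv s hs
    have hcl : IsClosed {x : ℤ_[l] | (x : ℚ_[l]) • v ∈ N} :=
      hN.preimage (f := fun x : ℤ_[l] => (x : ℚ_[l]) • v)
        (continuous_subtype_val.smul continuous_const)
    refine PadicInt.denseRange_intCast.induction_on (p := fun x : ℤ_[l] => (x : ℚ_[l]) • v ∈ N)
      (⟨s, hs⟩ : ℤ_[l]) hcl fun n => ?_
    rw [PadicInt.coe_intCast, Int.cast_smul_eq_zsmul]
    exact N.zsmul_mem hv n
  choose v hv hv' using fun n : ℕ => hu n
  have h2 : ∀ n, ∃ c : ℚ_[l], ‖c‖ * ‖v n‖ = 1 := by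
    intro n
    have h0 : ‖v n‖ ≠ 0 := ((Nat.cast_nonneg n).trans_lt (hv' n)).ne'
    rcases le_total ‖(v n).1‖ ‖(v n).2‖ with h | h
    · refine ⟨(v n).2⁻¹, ?_⟩
      rw [Prod.norm_def, max_eq_right h] at h0 ⊢
      rw [norm_inv, inv_mul_cancel₀ h0]
    · refine ⟨(v n).1⁻¹, ?_⟩
      rw [Prod.norm_def, max_eq_left h] at h0 ⊢
      rw [norm_inv, inv_mul_cancel₀ h0]
  choose c hc using h2
  obtain ⟨e, he, φ, hφ, hlim⟩ := (isCompact_sphere (0 : ℚ_[l] × ℚ_[l]) 1).tendsto_subseq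
    (x := fun n => c n • v n) fun n => by simp [norm_smul, hc]
  refine ⟨e, ?_, fun s => ?_⟩
  · rintro rfl
    simp at he
  · refine hN.mem_of_tendsto (hlim.const_smul s) ?_
    filter_upwards [eventually_ge_atTop ⌈‖s‖⌉₊] with n hn
    simp only [Function.comp, smul_smul]
    refine h1 _ (hv _) _ ?_
    have a1 : ‖s‖ ≤ ‖v (φ n)‖ :=
      ((Nat.le_ceil _).trans (Nat.cast_le.2 (hn.trans (hφ.id_le n)))).trans (hv' _).le
    rw [norm_mul, ← hc (φ n), mul_comm]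
    exact mul_le_mul_of_nonneg_left a1 (norm_nonneg _)

/-- The compactness claim. -/
theorem claim {Θ : Kernel (S.X × S.X) (S.X × S.X)} [IsMarkovKernel Θ] {Z Q : Set (S.X × S.X)}
    (equi : ∀ v z, z ∈ Z → S.h2 v z ∈ Z → Θ (S.h2 v z) = (Θ z).map (S.h2 v))
    (hQ : IsCompact Q) (hZ : Q ⊆ Z)
    (hc : ∀ φ : S.X × S.X → ℝ, Continuous φ → HasCompactSupport φ →
      ContinuousOn (fun z => ∫ w, φ w ∂Θ z) Q) {R R' : ℝ} (hR : 0 < R)
    (hW : ∀ z ∈ Q, ∀ v ∈ W S (Θ z), ‖v‖ ≤ R) :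
    ∀ᶠ η in 𝓝 (1 : (S.G × S.G) × (S.G × S.G)), ∀ w ∈ Q, ∀ v : ℚ_[l] × ℚ_[l], ‖v‖ ≤ R' →
      S.g2 η.1 (U S v (S.g2 η.2⁻¹ w)) ∈ Q → Θ (S.g2 η.1 (U S v (S.g2 η.2⁻¹ w))) = Θ w →
      ‖v‖ ≤ R := by
  have := ultra (l := l)
  let K : Set (ℚ_[l] × ℚ_[l]) := Metric.closedBall 0 R' \ Metric.closedBall 0 R
  have hK : IsCompact K :=
    (isCompact_closedBall _ _).diff (IsUltrametricDist.isOpen_closedBall _ hR.ne')
  let P : Set ((S.X × S.X) × (S.X × S.X)) := {p | p.1 ∈ Q ∧ p.2 ∈ Q ∧ Θ p.2 = Θ p.1}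
  have hcl : IsClosed (Q ×ˢ Q) := hQ.isClosed.prod hQ.isClosed
  have hP : IsClosed P := by
    have e : P = Q ×ˢ Q ∩ ⋂ φ : {φ : S.X × S.X → ℝ // Continuous φ ∧ HasCompactSupport φ},
        (Q ×ˢ Q ∩ (fun q : (S.X × S.X) × (S.X × S.X) =>
          ∫ w, φ.1 w ∂Θ q.2 - ∫ w, φ.1 w ∂Θ q.1) ⁻¹' {0}) := by
      ext q
      simp only [P, mem_inter_iff, mem_iInter, mem_preimage, mem_singleton_iff, mem_prod,
        sub_eq_zero]
      constructor
      · rintro ⟨h1, h2, h3⟩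
        exact ⟨⟨h1, h2⟩, fun φ => ⟨⟨h1, h2⟩, by rw [h3]⟩⟩
      · rintro ⟨h1, h2⟩
        exact ⟨h1.1, h1.2, ext_cc S fun φ a b => (h2 ⟨φ, a, b⟩).2⟩
    rw [e]
    refine hcl.inter (isClosed_iInter fun φ => ?_)
    refine ContinuousOn.preimage_isClosed_of_isClosed ?_ hcl isClosed_singleton
    exact ((hc _ φ.2.1 φ.2.2).comp continuousOn_snd fun q hq => hq.2).sub
      ((hc _ φ.2.1 φ.2.2).comp continuousOn_fst fun q hq => hq.1)
  have cg : Continuous fun p : (S.G × S.G) × (S.X × S.X) => S.g2 p.1 p.2 :=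
    (continuous_fst.fst.smul continuous_snd.fst).prodMk
      (continuous_fst.snd.smul continuous_snd.snd)
  let F : ((S.G × S.G) × (S.G × S.G)) × ((S.X × S.X) × (ℚ_[l] × ℚ_[l])) →
      (S.X × S.X) × (S.X × S.X) :=
    fun p => (p.2.1, S.g2 p.1.1 (U S p.2.2 (S.g2 p.1.2⁻¹ p.2.1)))
  have hF : Continuous F :=
    continuous_snd.fst.prodMk (cg.comp (continuous_fst.fst.prodMk ((cont_U S).comp
      (continuous_snd.snd.prodMk (cg.comp (continuous_fst.snd.inv.prodMk continuous_snd.fst))))))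
  have h1 : ∀ᶠ η in 𝓝 (1 : (S.G × S.G) × (S.G × S.G)), ∀ y ∈ Q ×ˢ K, F (η, y) ∉ P := by
    refine (hQ.prod hK).eventually_forall_of_forall_eventually fun y hy => ?_
    refine (hP.isOpen_compl.preimage hF).mem_nhds ?_
    rintro ⟨a, b, c⟩
    have g1 : ∀ z, S.g2 1 z = z := fun z => by simp [Sp.g2]
    simp only [F, Prod.fst_one, Prod.snd_one, inv_one, g1] at a b c
    have d := equi (up y.2.1, up y.2.2) y.1 (hZ a) (hZ b)
    refine hy.2.2 (mem_closedBall_zero_iff.2 (hW _ a _ ?_))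
    exact d.symm.trans c
  filter_upwards [h1] with η h w hw v hv a b
  by_contra hlt
  exact h (w, v) ⟨hw, mem_closedBall_zero_iff.2 hv, fun h' => hlt (mem_closedBall_zero_iff.1 h')⟩
    ⟨hw, a, b⟩

/-- Measurability of the sets with bounded stabiliser inside a Lusin set. -/
theorem meas_bdd {Θ : Kernel (S.X × S.X) (S.X × S.X)} [IsMarkovKernel Θ] {Q : Set (S.X × S.X)}
    (hQ : IsCompact Q)
    (hc : ∀ φ : S.X × S.X → ℝ, Continuous φ → HasCompactSupport φ →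
      ContinuousOn (fun z => ∫ w, φ w ∂Θ z) Q) {R : ℝ} (hR : 0 < R) :
    MeasurableSet {z | z ∈ Q ∧ ∀ v ∈ W S (Θ z), ‖v‖ ≤ R} := by
  have := ultra (l := l)
  have h1 := closedW S (fun z => Θ z) hQ.isClosed hc
  have e : {z | z ∈ Q ∧ ∀ v ∈ W S (Θ z), ‖v‖ ≤ R} = Q \ ⋃ n : ℕ, Prod.fst ''
      (Q ×ˢ (Metric.closedBall (0 : ℚ_[l] × ℚ_[l]) n \ Metric.closedBall 0 R) ∩
        {q | q.1 ∈ Q ∧ (Θ q.1).map (U S q.2) = Θ q.1}) := by
    ext z
    constructor
    · rintro ⟨a, b⟩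
      refine ⟨a, fun h => ?_⟩
      obtain ⟨n, q, ⟨c, d⟩, rfl⟩ := mem_iUnion.1 h
      exact c.2.2 (mem_closedBall_zero_iff.2 (b _ d.2))
    · rintro ⟨a, b⟩
      refine ⟨a, fun v hv => ?_⟩
      by_contra hlt
      exact b (mem_iUnion.2 ⟨⌈‖v‖⌉₊, (z, v), ⟨⟨a, mem_closedBall_zero_iff.2 (Nat.le_ceil _),
        fun h' => hlt (mem_closedBall_zero_iff.1 h')⟩, a, hv⟩, rfl⟩)
  rw [e]
  refine hQ.measurableSet.diff (MeasurableSet.iUnion fun n => IsCompact.measurableSet ?_)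
  exact ((hQ.prod ((isCompact_closedBall _ _).diff
    (IsUltrametricDist.isOpen_closedBall _ hR.ne'))).inter_right h1).image continuous_fst

end Pool.Agent.Lib.MP_9177b7_ag.J.Line
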