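import Pool.Agent.Lib.MP_9177b7_ag.J.DefsU
import Pool.Agent.Lib.MP_9177b7_ag.J.Line1
import Pool.Agent.Lib.MP_9177b7_ag.J.DiagU1

/-!
A diagonal unipotent invariance gives a diagonalisable invariance.
-/

open MeasureTheory Filter Topology Set Metric
open scoped MatrixGroups ENNReal NNReal

noncomputable section

namespace Pool.Agent.Lib.MP_9177b7_ag.J

namespace DiagU

open _root_.Pool.Agent.Lib.MP_9177b7_ag.J.Div

variable {l : ℕ} [Fact l.Prime]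

theorem conj (x y : ℚ_[l]) (e : HH l) :
    (up x * e * up (-y)) 0 0 = e 0 0 + x * e 1 0 ∧
    (up x * e * up (-y)) 0 1 = e 0 1 - y * e 0 0 + x * (e 1 1 - y * e 1 0) ∧
    (up x * e * up (-y)) 1 0 = e 1 0 ∧ (up x * e * up (-y)) 1 1 = e 1 1 - y * e 1 0 := by
  refine ⟨?_, ?_, ?_, ?_⟩ <;>
    simp [up, Matrix.mul_apply, Fin.sum_univ_two, Matrix.vecMul, dotProduct] <;> ring

theorem dg_up (t : ℚ_[l]ˣ) (f : ℚ_[l]) :
    (dg t * up f) 0 0 = t ∧ (dg t * up f) 0 1 = t * f ∧ (dg t * up f) 1 0 = 0 ∧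
      (dg t * up f) 1 1 = (t : ℚ_[l])⁻¹ := by
  refine ⟨?_, ?_, ?_, ?_⟩ <;>
    simp [up, dg, Matrix.mul_apply, Fin.sum_univ_two]

theorem dg_one : dg (1 : ℚ_[l]ˣ) = 1 := by
  ext i j
  fin_cases i <;> fin_cases j <;> simp [dg]

theorem dg_conj {t : ℚ_[l]ˣ} (ht : 1 < ‖(t : ℚ_[l])‖) (f : ℚ_[l]) :
    ∃ q, dg t * up f = up q * dg t * up (-q) := by
  have h : (t : ℚ_[l])⁻¹ - t ≠ 0 := fun h => by
    have h1 := congrArg norm (sub_eq_zero.1 h)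
    rw [norm_inv] at h1
    linarith [inv_lt_one_of_one_lt₀ ht]
  obtain ⟨q, hq⟩ : ∃ q : ℚ_[l], q * ((t : ℚ_[l])⁻¹ - t) = t * f := ⟨_, div_mul_cancel₀ _ h⟩
  refine ⟨q, ?_⟩
  obtain ⟨a, b, c, d⟩ := dg_up t f
  obtain ⟨a', b', c', d'⟩ := conj q q (dg t)
  have e0 : dg t 0 0 = t := rfl
  have e1 : dg t 0 1 = 0 := rfl
  have e2 : dg t 1 0 = 0 := rfl
  have e3 : dg t 1 1 = (t : ℚ_[l])⁻¹ := rfl
  simp only [e0, e1, e2, e3] at a' b' c' d'
  ext i j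
  fin_cases i <;> fin_cases j
  · exact a.trans (by rw [mul_zero, add_zero] at a'; exact a'.symm)
  · refine b.trans (Eq.trans ?_ b'.symm)
    linear_combination -hq
  · exact c.trans c'.symm
  · exact d.trans (by rw [mul_zero, sub_zero] at d'; exact d'.symm)

/-- The linear coefficient of the displacement. -/
def G1 (c : ℚ_[l]) (e f : HH l) : ℚ_[l] :=
  c * (e 0 0 * f 1 1 - f 0 0 * e 1 1) - f 0 1 * e 1 0 + c ^ 2 * e 0 1 * f 1 0

/-- The quadratic coefficient of the displacement. -/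
def G2 (c : ℚ_[l]) (e f : HH l) : ℚ_[l] := c * (f 0 0 * e 1 0 - c * e 0 0 * f 1 0)

section lim

variable {𝓕 : Filter ℕ} {e f : ℕ → HH l}

theorem ent (h : Tendsto e 𝓕 (𝓝 1)) :
    Tendsto (fun n => e n 0 0) 𝓕 (𝓝 1) ∧ Tendsto (fun n => e n 0 1) 𝓕 (𝓝 0) ∧
    Tendsto (fun n => e n 1 0) 𝓕 (𝓝 0) ∧ Tendsto (fun n => e n 1 1) 𝓕 (𝓝 1) := by
  have H : ∀ i j, Tendsto (fun n => e n i j) 𝓕 (𝓝 ((1 : HH l) i j)) := fun i j =>
    ((cont_entry i j).tendsto 1).comp h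
  exact ⟨by simpa using H 0 0, by simpa using H 0 1, by simpa using H 1 0, by simpa using H 1 1⟩

theorem G_lim (c : ℚ_[l]) (he : Tendsto e 𝓕 (𝓝 1)) (hf : Tendsto f 𝓕 (𝓝 1)) :
    Tendsto (fun n => G1 c (e n) (f n)) 𝓕 (𝓝 0) ∧ Tendsto (fun n => G2 c (e n) (f n)) 𝓕 (𝓝 0) := by
  obtain ⟨a, b, d, g⟩ := ent he
  obtain ⟨a', b', d', g'⟩ := ent hf
  constructor
  · simpa [G1] using ((((a.mul g').sub (a'.mul g)).const_mul c).sub (b'.mul d)).add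
      ((b.const_mul (c ^ 2)).mul d')
  · simpa [G2] using ((a'.mul d).sub ((a.const_mul c).mul d')).const_mul c

theorem norm_ev {x : ℕ → ℚ_[l]} (h : Tendsto x 𝓕 (𝓝 1)) : ∀ᶠ n in 𝓕, ‖x n‖ = 1 := by
  filter_upwards [Metric.tendsto_nhds.1 h 1 one_pos] with n hn
  rw [dist_comm, dist_eq_norm] at hn
  rw [← sub_sub_cancel 1 (x n), norm_sub_eq (by rwa [norm_one]), norm_one]

theorem disp {c : ℚ_[l]} (hc : c ≠ 0) (he : Tendsto e 𝓕 (𝓝 1)) (hf : Tendsto f 𝓕 (𝓝 1))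
    {s : ℕ → ℚ_[l]} {t : ℚ_[l]ˣ} {q : ℚ_[l]}
    (h1 : Tendsto (fun n => e n 1 1 - s n * e n 1 0) 𝓕 (𝓝 (t : ℚ_[l])⁻¹))
    (h2 : Tendsto (fun n => s n * G2 c (e n) (f n)) 𝓕 (𝓝 0))
    (h3 : Tendsto (fun n => s n * G1 c (e n) (f n) + s n ^ 2 * G2 c (e n) (f n)) 𝓕 (𝓝 q)) :
    Tendsto (fun n => up (mo (e n) (s n)) * e n * up (-s n)) 𝓕 (𝓝 (dg t)) ∧
    Tendsto (fun n => up (mo (e n) (s n) * c) * f n * up (-(s n * c))) 𝓕 (𝓝 (dg t * up q)) := by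
  obtain ⟨a, b, d, g⟩ := ent he
  obtain ⟨a', b', d', g'⟩ := ent hf
  have t0 : (t : ℚ_[l])⁻¹ ≠ 0 := inv_ne_zero t.ne_zero
  have v1 := h1.eventually_ne t0
  have v2 := a.eventually_ne one_ne_zero
  have k1 : Tendsto (fun n => s n * e n 1 0) 𝓕 (𝓝 (1 - (t : ℚ_[l])⁻¹)) := by
    simpa using g.sub h1
  have k2 : Tendsto (fun n => s n * c * f n 1 0) 𝓕 (𝓝 (1 - (t : ℚ_[l])⁻¹)) := by
    have := ((k1.mul a').sub (h2.div_const c)).div a one_ne_zero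
    rw [mul_one, zero_div, sub_zero, div_one] at this
    refine this.congr' (v2.mono fun n hn => ?_)
    simp only [G2, Pi.div_apply]
    field_simp
    ring
  have tt : 1 + ((1 - (t : ℚ_[l])⁻¹) * 1 - 0) / (t : ℚ_[l])⁻¹ = t := by
    field_simp
    ring
  constructor
  · refine tendsto_SL fun i j => ?_
    fin_cases i <;> fin_cases j
    · have := a.add (((k1.mul a).sub (b.mul d)).div h1 t0)
      rw [zero_mul, tt] at this
      refine this.congr fun n => Eq.trans ?_ (conj _ _ _).1.symm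
      simp only [mo, Pi.div_apply]
      ring
    · refine tendsto_const_nhds.congr' (v1.mono fun n hn => Eq.trans ?_ (conj _ _ _).2.1.symm)
      rw [mo, div_mul_cancel₀ _ hn]
      change (0 : ℚ_[l]) = _
      ring
    · exact d.congr fun n => (conj _ _ _).2.2.1.symm
    · exact h1.congr fun n => (conj _ _ _).2.2.2.symm
  · obtain ⟨u0, u1, u2, u3⟩ := dg_up t q
    refine tendsto_SL fun i j => ?_
    fin_cases i <;> fin_cases j
    · have := a'.add (((k2.mul a).sub ((b.mul d').mul_const c)).div h1 t0)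
      rw [zero_mul, zero_mul, tt, ← u0] at this
      refine this.congr fun n => Eq.trans ?_ (conj _ _ _).1.symm
      simp only [mo, Pi.div_apply]
      ring
    · have := (((b'.mul g).sub ((b.mul g').mul_const c)).add h3).div h1 t0
      rw [zero_mul, zero_mul, sub_zero, zero_add, div_inv_eq_mul, mul_comm, ← u1] at this
      refine this.congr' (v1.mono fun n hn => Eq.trans ?_ (conj _ _ _).2.1.symm)
      simp only [mo, G1, G2, Pi.div_apply]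
      field_simp
      ring
    · rw [← u2] at d'
      exact d'.congr fun n => (conj _ _ _).2.2.1.symm
    · have := g'.sub k2
      rw [sub_sub_cancel, ← u3] at this
      exact this.congr fun n => (conj _ _ _).2.2.2.symm

end lim

variable (S : Sp l) (c : ℚ_[l])

/-- The diagonal unipotent flow. -/
def D (s : ℚ_[l]) : S.X × S.X → S.X × S.X := S.h2 (up s, up (s * c))

theorem D_add (s t : ℚ_[l]) (w : S.X × S.X) : D S c (s + t) w = D S c s (D S c t w) := by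
  simp only [D, Sp.h2, add_mul, Marg.hU]

theorem cont_D : Continuous fun p : (S.X × S.X) × ℚ_[l] => D S c p.2 p.1 :=
  (Line.cont_U S).comp ((continuous_snd.prodMk (continuous_snd.mul continuous_const)).prodMk
    continuous_fst)

theorem D_g2 (s s' : ℚ_[l]) (η : S.G × S.G) (w : S.X × S.X) :
    D S c s' (S.g2 η w) = S.g2 ((up s' * η.1.1 * up (-s), η.1.2),
      (up (s' * c) * η.2.1 * up (-(s * c)), η.2.2)) (D S c s w) := by
  obtain ⟨⟨h1, c1⟩, ⟨h2, c2⟩⟩ := η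
  simp only [D, Sp.h2, Sp.hs, Sp.g2, smul_smul, Prod.mk_mul_mk, mul_one, one_mul, mul_assoc,
    ← up_inv, inv_mul_cancel]

theorem pairs (hN : NullStmt) {μ : Measure S.X} (hB : S.Bound μ) {θ : Measure (S.X × S.X)}
    (h1 : θ.map Prod.fst = μ) {Q : Set (S.X × S.X)} (hQ : IsCompact Q) (h0 : 0 < θ Q)
    {O : Set (S.G × S.G)} (hO : O ∈ 𝓝 (1 : S.G × S.G)) :
    ∃ w ∈ Q, ∃ η ∈ O, S.g2 η w ∈ Q ∧ η.1.1 1 0 ≠ 0 := by
  by_contra hc
  obtain ⟨O₁, a₁, O₂, a₂, hO'⟩ := mem_nhds_prod_iff.1 hO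
  obtain ⟨Ω, hΩ, hΩ'⟩ := exists_compact_mem_nhds (1 : S.G)
  set B : Set S.G := interior (O₁ ∩ O₂ ∩ Ω)
  have hB1 : (1 : S.G) ∈ B := mem_interior_iff_mem_nhds.2 (inter_mem (inter_mem a₁ a₂) hΩ')
  obtain ⟨T, hTQ, hT⟩ := hQ.elim_nhds_subcover
    (fun z => ((fun g : S.G => g • z.1) '' B) ×ˢ ((fun g : S.G => g • z.2) '' B)) fun z _ =>
      ((Marg.isOpen_orbit S isOpen_interior _).prod
        (Marg.isOpen_orbit S isOpen_interior _)).mem_nhds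
        ⟨⟨1, hB1, one_smul _ _⟩, ⟨1, hB1, one_smul _ _⟩⟩
  refine h0.ne' (measure_mono_null (t := ⋃ z ∈ T, Prod.fst ⁻¹'
    ((fun g : S.G => g • z.1) '' {g | g ∈ Ω ∧ g.1 1 0 = 0})) ?_
    ((measure_biUnion_null_iff T.countable_toSet).2 fun z _ => ?_))
  · rintro ⟨w₁, w₂⟩ hw
    obtain ⟨z, hz, ⟨g₁, b₁, rfl⟩, g₂, b₂, rfl⟩ := mem_iUnion₂.1 (hT hw)
    refine mem_iUnion₂.2 ⟨z, hz, g₁, ⟨(interior_subset b₁).2, by_contra fun h => ?_⟩, rfl⟩
    exact hc ⟨z, hTQ z hz, (g₁, g₂),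
      hO' ⟨(interior_subset b₁).1.1, (interior_subset b₂).1.2⟩, hw, h⟩
  · refine le_zero_iff.1 ((Measure.le_map_apply measurable_fst.aemeasurable _).trans ?_)
    rw [h1, hN l S μ hB z.1 Ω hΩ]

theorem good {θ : Measure (S.X × S.X)} [IsProbabilityMeasure θ] {W : Set (S.X × S.X)}
    (hW : ∀ᵐ w ∂θ, w ∈ W) {τ : ℝ≥0∞} (hτ : τ ≠ ∞) :
    ∃ Gd : Set (S.X × S.X), Gd ⊆ W ∧ IsCompact Gd ∧ τ * θ Gdᶜ < 1 := by
  have mZ : MeasurableSet (toMeasurable θ Wᶜ)ᶜ := (measurableSet_toMeasurable θ _).compl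
  have Z0 : θ (toMeasurable θ Wᶜ) = 0 := by rw [measure_toMeasurable]; exact hW
  obtain ⟨Gd, h1, h2, h3⟩ := mZ.exists_isCompact_sdiff_lt (measure_ne_top θ _)
    (ε := τ⁻¹) (ENNReal.inv_ne_zero.2 hτ)
  refine ⟨Gd, fun w hw => by_contra fun hn => h1 hw (subset_toMeasurable θ _ hn), h2, ?_⟩
  have : θ Gdᶜ < τ⁻¹ :=
    calc θ Gdᶜ ≤ θ (toMeasurable θ Wᶜ ∪ (toMeasurable θ Wᶜ)ᶜ \ Gd) := by
          refine measure_mono fun w hw => ?_
          by_cases hz : w ∈ toMeasurable θ Wᶜ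
          · exact Or.inl hz
          · exact Or.inr ⟨hz, hw⟩
      _ < _ := (measure_union_le _ _).trans_lt (by rw [Z0, zero_add]; exact h3)
  rcases eq_or_ne τ 0 with rfl | h0
  · simp
  · exact (ENNReal.mul_lt_mul_right h0 hτ this).trans_eq (ENNReal.mul_inv_cancel h0 hτ)

theorem bdd {θ : Measure (S.X × S.X)} [IsProbabilityMeasure θ]
    (h : ¬ ∀ s, θ.map (S.h2 (1, up s)) = θ) :
    ∃ R : ℝ, ∀ q, θ.map (S.h2 (1, up q)) = θ → ‖q‖ ≤ R := by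
  by_contra hc
  push Not at hc
  have hU : ∀ q : ℚ_[l], Line.U S (0, q) = S.h2 (1, up q) := fun q => by
    rw [Line.U, Marg.up_zero]
  obtain ⟨e, e0, he⟩ := Line.line_of_unbdd
    (Line.W S θ ⊓ (AddMonoidHom.fst ℚ_[l] ℚ_[l]).ker)
    ((Line.closed_W S θ).inter (isClosed_eq continuous_fst continuous_const)) fun R => by
      obtain ⟨q, a, b⟩ := hc R
      exact ⟨(0, q), ⟨(Line.mem_W S).2 (by rwa [hU]), rfl⟩, b.trans_le (le_max_right _ _)⟩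
  have e1 : e.1 = 0 := by simpa only [one_smul] using show ((1 : ℚ_[l]) • e).1 = 0 from (he 1).2
  have e2 : e.2 ≠ 0 := fun h => e0 (Prod.ext e1 h)
  refine h fun s => ?_
  have := (Line.mem_W S).1 (he (s / e.2)).1
  rwa [show (s / e.2) • e = (0, s) from Prod.ext (by simp [e1]) (by simp [e2]), hU] at this

end DiagU

open _root_.Pool.Agent.Lib.MP_9177b7_ag.J.Div DiagU in
theorem diagU : NullStmt → DiagUStmt := by
  intro hN l _ hl S μ θ W c hB hP h1 hW hequi hθ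
  by_cases hV : ∀ s, θ.map (S.h2 (1, up s)) = θ
  · exact Or.inl hV
  refine Or.inr ?_
  obtain ⟨R, hR⟩ := bdd S hV
  let m : Measure ℚ_[l] := Measure.addHaar
  obtain ⟨C, hC⟩ := doubling m
  obtain ⟨Gd, GW, cG, θG⟩ := good S hW (τ := 2 * C + 10) (by finiteness)
  obtain ⟨mB, θB⟩ := maximal m (bl l) bl_mono bl_meas (bl_ne_zero m) (bl_ne_top m) θ
    (A := DiagU.D S c) (DiagU.cont_D S c).measurable hθ (D_add S c)
    cG.isClosed.isOpen_compl.measurableSet (2 * C + 10)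
  obtain ⟨Q, hQ, cQ, pQ⟩ := mB.compl.exists_lt_isCompact_of_ne_top (measure_ne_top θ _) (r := 0)
    (pos_iff_ne_zero.2 fun h0 => (θB.trans_lt θG).ne ((prob_compl_eq_zero_iff mB).1 h0))
  have hQ' : ∀ w ∈ Q, ∀ n, (2 * C + 10 : ℝ≥0∞) * m ({t | DiagU.D S c t w ∈ Gdᶜ} ∩ bl l n) ≤
      m (bl l n) := fun w hw n => not_lt.1 fun h => hQ hw ⟨n, h⟩
  have hop : ∀ w, IsOpen {t | DiagU.D S c t w ∈ Gdᶜ} := fun w =>
    cG.isClosed.isOpen_compl.preimage ((DiagU.cont_D S c).comp (Continuous.prodMk_right w))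
  obtain ⟨O, hO⟩ := (𝓝 (1 : S.G × S.G)).exists_antitone_basis
  choose w hw η hη hw' hne using fun n => pairs S hN hB h1 cQ pQ (hO.mem n)
  let 𝒰 : Ultrafilter ℕ := hyperfilter ℕ
  have hU : (𝒰 : Filter ℕ) ≤ atTop := by
    rw [← Nat.cofinite_eq_atTop]; exact hyperfilter_le_cofinite
  have cpt : ∀ {Z : Type} [TopologicalSpace Z] {C : Set Z} {f : ℕ → Z}, IsCompact C →
      (∀ᶠ n in 𝒰, f n ∈ C) → ∃ z ∈ C, Tendsto f 𝒰 (𝓝 z) := fun {Z} _ {C} {f} hC hf =>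
    hC.ultrafilter_le_nhds (𝒰.map f) (le_principal_iff.2 hf)
  have ηl : Tendsto η 𝒰 (𝓝 1) := (hO.tendsto hη).mono_left hU
  set e : ℕ → HH l := fun n => (η n).1.1 with he
  set f : ℕ → HH l := fun n => (η n).2.1 with hf
  have el : Tendsto e 𝒰 (𝓝 1) :=
    ((continuous_fst.comp continuous_fst).tendsto (1 : S.G × S.G)).comp ηl
  have fl : Tendsto f 𝒰 (𝓝 1) :=
    ((continuous_fst.comp continuous_snd).tendsto (1 : S.G × S.G)).comp ηl
  have c1 : Tendsto (fun n => (η n).1.2) 𝒰 (𝓝 1) :=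
    ((continuous_snd.comp continuous_fst).tendsto (1 : S.G × S.G)).comp ηl
  have c2 : Tendsto (fun n => (η n).2.2) 𝒰 (𝓝 1) :=
    ((continuous_snd.comp continuous_snd).tendsto (1 : S.G × S.G)).comp ηl
  have key : ∀ (s : ℕ → ℚ_[l]) (t : ℚ_[l]ˣ) (q : ℚ_[l]),
      (∀ᶠ n in 𝒰, DiagU.D S c (s n) (w n) ∈ Gd ∧
        DiagU.D S c (mo (e n) (s n)) (S.g2 (η n) (w n)) ∈ Gd) →
      Tendsto (fun n => e n 1 1 - s n * e n 1 0) 𝒰 (𝓝 (t : ℚ_[l])⁻¹) →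
      Tendsto (fun n => s n * G2 c (e n) (f n)) 𝒰 (𝓝 0) →
      Tendsto (fun n => s n * G1 c (e n) (f n) + s n ^ 2 * G2 c (e n) (f n)) 𝒰 (𝓝 q) →
      θ.map (S.h2 (dg t, dg t * up q)) = θ := by
    intro s t q hs k1 k2 k3
    obtain ⟨P, hP1, Pl⟩ := cpt cG (hs.mono fun n h => h.1)
    obtain ⟨P', hP2, Pl'⟩ := cpt cG (hs.mono fun n h => h.2)
    obtain ⟨u1, u2⟩ := disp c.ne_zero el fl k1 k2 k3
    have lim := ((cont_g2 S).tendsto (((dg t, (1 : S.C)), (dg t * up q, (1 : S.C))), P)).comp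
      (((u1.prodMk_nhds c1).prodMk_nhds (u2.prodMk_nhds c2)).prodMk_nhds Pl)
    have eq : P' = S.h2 (dg t, dg t * up q) P :=
      tendsto_nhds_unique Pl' (lim.congr fun n => (DiagU.D_g2 S c _ _ _ _).symm)
    exact hequi P (GW hP1) _ (eq ▸ GW hP2)
  obtain ⟨e00, e01, e10, e11⟩ := ent el
  obtain ⟨g1, g2⟩ := G_lim (c : ℚ_[l]) el fl
  have hl0 := l_pos (l := l)
  have v0 := norm_ev e00
  have v1 : ∀ᶠ n in 𝒰, ‖e n 0 1‖ < 1 := e01.norm.eventually_lt_const (by simp)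
  have v2 := norm_ev e11
  by_cases hA : ∃ M : ℝ, ∀ᶠ n in 𝒰, ‖G1 c (e n) (f n)‖ ≤ M * ‖e n 1 0‖ ∧
      ‖G2 c (e n) (f n)‖ ≤ M * ‖e n 1 0‖ ^ 2
  · obtain ⟨M, hM⟩ := hA
    have v3 : ∀ᶠ n in 𝒰, ‖e n 1 0‖ < ((l : ℝ) ^ 2)⁻¹ :=
      e10.norm.eventually_lt_const (by rw [norm_zero]; positivity)
    have v4 : ∀ᶠ n in 𝒰, ∃ s, s ∉ {t | DiagU.D S c t (w n) ∈ Gdᶜ} ∧
        mo (e n) s ∉ {t | DiagU.D S c t (S.g2 (η n) (w n)) ∈ Gdᶜ} ∧
        ‖e n 1 1 - s * e n 1 0‖ = (l : ℝ)⁻¹ := by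
      filter_upwards [v0, v1, v2, v3] with n a0 a1 a2 a3
      exact pickB m hC a0.le a1.le a2 (hne n) a3 (hop _) (hQ' _ (hw n)) (hQ' _ (hw' n))
    obtain ⟨s, hs⟩ := v4.choice
    have v5 : ∀ᶠ n in 𝒰, ‖s n‖ * ‖e n 1 0‖ ≤ 1 := by
      filter_upwards [hs, v2] with n a b
      rw [← norm_mul, ← sub_sub_cancel (e n 1 1) (s n * e n 1 0)]
      exact (norm_sub_max _ _).trans (max_le b.le (a.2.2.trans_le
        (inv_le_one_of_one_le₀ one_lt_l.le)))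
    obtain ⟨y, hy, yl⟩ := cpt (isCompact_sphere (0 : ℚ_[l]) (l : ℝ)⁻¹)
      (f := fun n => e n 1 1 - s n * e n 1 0) (hs.mono fun n h => mem_sphere_zero_iff_norm.2 h.2.2)
    rw [mem_sphere_zero_iff_norm] at hy
    have y0 : y ≠ 0 := norm_pos_iff.1 (by rw [hy]; positivity)
    obtain ⟨q, -, ql⟩ := cpt (isCompact_closedBall (0 : ℚ_[l]) (|M| + |M|))
      (f := fun n => s n * G1 c (e n) (f n) + s n ^ 2 * G2 c (e n) (f n)) (by
        filter_upwards [hM, v5] with n a b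
        have b0 : 0 ≤ ‖s n‖ * ‖e n 1 0‖ := by positivity
        refine mem_closedBall_zero_iff.2 ((norm_add_le _ _).trans (add_le_add ?_ ?_))
        · calc _ = ‖s n‖ * ‖G1 c (e n) (f n)‖ := norm_mul _ _
            _ ≤ ‖s n‖ * (|M| * ‖e n 1 0‖) := by
              gcongr
              exact a.1.trans (mul_le_mul_of_nonneg_right (le_abs_self M) (norm_nonneg _))
            _ = |M| * (‖s n‖ * ‖e n 1 0‖) := by ring
            _ ≤ |M| := mul_le_of_le_one_right (abs_nonneg M) b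
        · calc _ = ‖s n‖ ^ 2 * ‖G2 c (e n) (f n)‖ := by rw [norm_mul, norm_pow]
            _ ≤ ‖s n‖ ^ 2 * (|M| * ‖e n 1 0‖ ^ 2) := by
              gcongr
              exact a.2.trans (mul_le_mul_of_nonneg_right (le_abs_self M) (sq_nonneg _))
            _ = |M| * (‖s n‖ * ‖e n 1 0‖) ^ 2 := by ring
            _ ≤ |M| := mul_le_of_le_one_right (abs_nonneg M) (pow_le_one₀ b0 b))
    have k2 : Tendsto (fun n => s n * G2 c (e n) (f n)) 𝒰 (𝓝 0) := by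
      have := e10.norm.const_mul |M|
      rw [norm_zero, mul_zero] at this
      refine squeeze_zero_norm' ?_ this
      filter_upwards [hM, v5] with n a b
      calc _ = ‖s n‖ * ‖G2 c (e n) (f n)‖ := norm_mul _ _
        _ ≤ ‖s n‖ * (|M| * ‖e n 1 0‖ ^ 2) := by
          gcongr
          exact a.2.trans (mul_le_mul_of_nonneg_right (le_abs_self M) (sq_nonneg _))
        _ = |M| * ‖e n 1 0‖ * (‖s n‖ * ‖e n 1 0‖) := by ring
        _ ≤ _ := mul_le_of_le_one_right (by positivity) b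
    have ht : 1 < ‖((Units.mk0 y y0)⁻¹ : ℚ_[l]ˣ).1‖ := by
      rw [Units.val_inv_eq_inv_val, Units.val_mk0, norm_inv, hy, inv_inv]
      exact one_lt_l
    obtain ⟨q', hq'⟩ := dg_conj ht q
    refine ⟨_, q', ht, ?_⟩
    rw [← hq']
    exact key s _ q (hs.mono fun n h => ⟨not_not.1 h.1, not_not.1 h.2.1⟩) (by simpa using yl) k2 ql
  · exfalso
    have hA' : ∀ M : ℝ, ∀ᶠ n in 𝒰, M * ‖e n 1 0‖ < ‖G1 c (e n) (f n)‖ ∨
        M * ‖e n 1 0‖ ^ 2 < ‖G2 c (e n) (f n)‖ := fun M =>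
      (Ultrafilter.eventually_not.2 fun h => hA ⟨M, h⟩).mono fun n h => by
        rwa [not_and_or, not_le, not_le] at h
    obtain ⟨Λ, hΛ⟩ := NormedField.exists_lt_norm ℚ_[l] (max 0 (R * (l : ℝ) ^ 2))
    have Λp : 0 < ‖Λ‖ := (le_max_left _ _).trans_lt hΛ
    have Λ0 : Λ ≠ 0 := norm_pos_iff.1 Λp
    have v3 : ∀ᶠ n in 𝒰, ‖G1 c (e n) (f n) / Λ‖ * ‖(1 : ℚ_[l])‖ < 1 :=
      ((g1.div_const Λ).norm.mul_const _).eventually_lt_const (by simp)
    have v3' : ∀ᶠ n in 𝒰, ‖-G2 c (e n) (f n) / Λ‖ * ‖(1 : ℚ_[l])‖ ^ 2 < 1 :=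
      ((g2.neg.div_const Λ).norm.mul_const _).eventually_lt_const (by simp)
    have ten : ∀ x : ℝ≥0∞, 10 * x ≤ (2 * C + 10) * x := fun x => mul_le_mul_left le_add_self x
    have v4 : ∀ᶠ n in 𝒰, ∃ s, s ∉ {t | DiagU.D S c t (w n) ∈ Gdᶜ} ∧ (‖s * e n 1 0‖ < 1 →
        mo (e n) s ∉ {t | DiagU.D S c t (S.g2 (η n) (w n)) ∈ Gdᶜ}) ∧
        ((l : ℝ) ^ 2)⁻¹ * ‖Λ‖ ≤ ‖s * G1 c (e n) (f n) + s ^ 2 * G2 c (e n) (f n)‖ ∧
        ‖s * G1 c (e n) (f n) + s ^ 2 * G2 c (e n) (f n)‖ ≤ 2 * (l : ℝ) ^ 2 * ‖Λ‖ ∧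
        ‖s * G2 c (e n) (f n)‖ ^ 2 ≤ ‖G2 c (e n) (f n)‖ * ((l : ℝ) ^ 2 * ‖Λ‖) := by
      filter_upwards [v0, v1, v2, v3, v3', hA' 0] with n a0 a1 a2 a3 a4 a5
      obtain ⟨N, s₀, hs⟩ := poly one_ne_zero a3 a4 (by
        simp only [zero_mul, norm_pos_iff] at a5
        exact a5.symm.imp (fun h => div_ne_zero (neg_ne_zero.2 h) Λ0) fun h => div_ne_zero h Λ0)
      obtain ⟨s, s1, s2, s3, s4, s5⟩ := pickA hl m a0.le a1.le a2 N s₀ (hop _)
        ((ten _).trans (hQ' _ (hw n) _)) ((ten _).trans (hQ' _ (hw' n) _))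
      obtain ⟨b1, b2, b3⟩ := hs s s3 s4 s5
      have e1 : 1 * s * (G1 c (e n) (f n) / Λ) - (1 * s) ^ 2 * (-G2 c (e n) (f n) / Λ) =
          (s * G1 c (e n) (f n) + s ^ 2 * G2 c (e n) (f n)) / Λ := by ring
      have e2 : 1 * s * (-G2 c (e n) (f n) / Λ) = -(s * G2 c (e n) (f n)) / Λ := by ring
      rw [e1, norm_div] at b1 b2
      rw [e2, norm_div, norm_div, norm_neg, norm_neg, div_pow, div_le_iff₀ (by positivity)] at b3
      refine ⟨s, s1, s2, (le_div_iff₀ Λp).1 b1, (div_le_iff₀ Λp).1 b2, b3.trans_eq ?_⟩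
      field_simp
    obtain ⟨s, hs⟩ := v4.choice
    set L : ℝ := 3 * ((l : ℝ) ^ 2 * ‖Λ‖) with hL
    have L0 : 0 < (l : ℝ) ^ 2 * ‖Λ‖ := by positivity
    have b2 : ∀ᶠ n in 𝒰, ‖s n‖ ^ 2 * ‖G2 c (e n) (f n)‖ ≤ (l : ℝ) ^ 2 * ‖Λ‖ := by
      filter_upwards [hs] with n a
      rcases (norm_nonneg (G2 c (e n) (f n))).eq_or_lt with h | h
      · rw [← h, mul_zero]
        exact L0.le
      · have := a.2.2.2.2
        rw [norm_mul] at this
        exact le_of_mul_le_mul_left (by linarith) h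
    have b1 : ∀ᶠ n in 𝒰, ‖s n‖ * ‖G1 c (e n) (f n)‖ ≤ L := by
      filter_upwards [hs, b2] with n a b
      have := norm_sub_le (s n * G1 c (e n) (f n) + s n ^ 2 * G2 c (e n) (f n))
        (s n ^ 2 * G2 c (e n) (f n))
      rw [add_sub_cancel_right, norm_mul, norm_mul (s n ^ 2), norm_pow] at this
      linarith [a.2.2.2.1]
    have k0 : Tendsto (fun n => s n * e n 1 0) 𝒰 (𝓝 0) := by
      refine Metric.tendsto_nhds.2 fun ε hε => ?_
      filter_upwards [b1, b2, hA' (max ((L + 1) / ε) ((L + 1) / ε ^ 2))] with n a b d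
      rw [dist_zero_right, norm_mul]
      by_contra hn
      rw [not_lt] at hn
      have s0 := norm_nonneg (s n)
      have c0 := norm_nonneg (e n 1 0)
      rcases d with d | d
      · have d1 := (mul_le_mul_of_nonneg_right (le_max_left _ _) c0).trans d.le
        have d2 : (L + 1) / ε * ε ≤ (L + 1) / ε * (‖s n‖ * ‖e n 1 0‖) := by gcongr
        rw [div_mul_cancel₀ _ hε.ne'] at d2
        linarith [mul_le_mul_of_nonneg_left d1 s0]
      · have d1 := (mul_le_mul_of_nonneg_right (le_max_right _ _) (sq_nonneg _)).trans d.le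
        have d2 : (L + 1) / ε ^ 2 * ε ^ 2 ≤ (L + 1) / ε ^ 2 * (‖s n‖ * ‖e n 1 0‖) ^ 2 := by gcongr
        rw [div_mul_cancel₀ _ (pow_pos hε 2).ne'] at d2
        linarith [mul_le_mul_of_nonneg_left d1 (sq_nonneg ‖s n‖)]
    have k2 : Tendsto (fun n => s n * G2 c (e n) (f n)) 𝒰 (𝓝 0) := by
      have := (g2.norm.mul_const ((l : ℝ) ^ 2 * ‖Λ‖)).sqrt
      rw [norm_zero, zero_mul, Real.sqrt_zero] at this
      exact squeeze_zero_norm' (hs.mono fun n h => Real.le_sqrt_of_sq_le h.2.2.2.2) this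
    obtain ⟨q, -, ql⟩ := cpt (isCompact_closedBall (0 : ℚ_[l]) (2 * (l : ℝ) ^ 2 * ‖Λ‖))
      (f := fun n => s n * G1 c (e n) (f n) + s n ^ 2 * G2 c (e n) (f n))
      (hs.mono fun n h => mem_closedBall_zero_iff.2 h.2.2.2.1)
    have q1 : ((l : ℝ) ^ 2)⁻¹ * ‖Λ‖ ≤ ‖q‖ := ge_of_tendsto ql.norm (hs.mono fun n h => h.2.2.1)
    have q2 := key s 1 q (by
      filter_upwards [hs, k0.norm.eventually_lt_const (u := 1) (by simp)] with n a b
      exact ⟨not_not.1 a.1, not_not.1 (a.2.1 b)⟩) (by simpa using e11.sub k0) k2 ql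
    rw [dg_one, one_mul] at q2
    have q3 := q1.trans (hR q q2)
    rw [inv_mul_le_iff₀ (by positivity), mul_comm] at q3
    exact absurd ((le_max_right _ _).trans_lt hΛ) (not_lt.2 q3)

end Pool.Agent.Lib.MP_9177b7_ag.J
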