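import Pool.Agent.Lib.MP_9177b7_ag.J.DefsU
import Pool.Agent.Lib.MP_9177b7_ag.J.Div

/-!
Equidistribution of expanding translates of orbits of a compact torus.
-/

open MeasureTheory ProbabilityTheory Filter Topology Set
open scoped MatrixGroups ENNReal NNReal

noncomputable section

namespace Pool.Agent.Lib.MP_9177b7_ag.J

namespace HM

variable {l : ℕ} [Fact l.Prime]

theorem norm_two (hl : l ≠ 2) : ‖(2 : ℤ_[l])‖ = 1 := by
  have h := (PadicInt.norm_natCast_eq_one_iff (p := l) (n := 2)).2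
    ((Nat.coprime_primes Fact.out Nat.prime_two).2 hl)
  exact_mod_cast h

theorem norm_one_add {a : ℚ_[l]} (h : ‖a - 1‖ < 1) : ‖a‖ = 1 := by
  have := Padic.add_eq_max_of_ne (q := a - 1) (r := 1) (by rw [norm_one]; exact h.ne)
  rw [sub_add_cancel, norm_one, max_eq_right h.le] at this
  exact this

open Polynomial in
theorem sqrt1 (hl : l ≠ 2) {z : ℚ_[l]} (hz : ‖z‖ < 1) :
    ∃ τ : ℚ_[l], τ ^ 2 = 1 + z ∧ ‖τ - 1‖ ≤ ‖z‖ := by
  let z' : ℤ_[l] := ⟨z, hz.le⟩
  have h2 := norm_two hl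
  have hd : (derivative (X ^ 2 - C (1 + z') : ℤ_[l][X])).aeval (1 : ℤ_[l]) = 2 := by
    simp [one_add_one_eq_two]
  obtain ⟨τ, h1, h3, -⟩ := hensels_lemma (F := (X ^ 2 - C (1 + z') : ℤ_[l][X])) (a := 1) (by
    rw [hd, h2]
    have : ‖z'‖ < 1 := hz
    simpa using this)
  rw [hd, h2] at h3
  have e : τ ^ 2 = 1 + z' := by
    rw [← sub_eq_zero]
    simpa using h1
  have e' : (τ : ℚ_[l]) ^ 2 = 1 + z := by exact_mod_cast congrArg (fun x : ℤ_[l] => (x : ℚ_[l])) e
  refine ⟨τ, e', ?_⟩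
  have h4 : ‖τ - 1 + 2‖ = 1 := by
    rw [PadicInt.norm_add_eq_max_of_ne (by rw [h2]; exact h3.ne), h2, max_eq_right h3.le]
  have h5 : (τ - 1) * (τ - 1 + 2) = z' := by linear_combination e
  have h6 := congrArg norm h5
  rw [norm_mul, h4, mul_one] at h6
  exact h6.le

/-- Congruence neighbourhoods of the identity. -/
def Kr (l : ℕ) [Fact l.Prime] (r : ℝ) : Set (HH l) :=
  {h | ‖h 0 0 - 1‖ ≤ r ∧ ‖h 0 1‖ ≤ r ∧ ‖h 1 0‖ ≤ r ∧ ‖h 1 1 - 1‖ ≤ r}

theorem Kr_closed (r : ℝ) : IsClosed (Kr l r) :=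
  (isClosed_le ((Div.cont_entry 0 0).sub continuous_const).norm continuous_const).inter
    ((isClosed_le (Div.cont_entry 0 1).norm continuous_const).inter
      ((isClosed_le (Div.cont_entry 1 0).norm continuous_const).inter
        (isClosed_le ((Div.cont_entry 1 1).sub continuous_const).norm continuous_const)))

theorem Kr_compact {r : ℝ} (hr : r < 1) : IsCompact (Kr l r) := by
  refine Div.K_compact.of_isClosed_subset (Kr_closed r) fun h hh i j => ?_
  fin_cases i <;> fin_cases j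
  · exact (norm_one_add (hh.1.trans_lt hr)).le
  · exact hh.2.1.trans hr.le
  · exact hh.2.2.1.trans hr.le
  · exact (norm_one_add (hh.2.2.2.trans_lt hr)).le

theorem Kr_nhds {r : ℝ} (hr : 0 < r) : Kr l r ∈ 𝓝 (1 : HH l) := by
  have h : ∀ f : HH l → ℚ_[l], Continuous f → f 1 = 0 → ∀ᶠ h in 𝓝 (1 : HH l), ‖f h‖ ≤ r :=
    fun f hf h0 => (hf.norm.continuousAt.eventually_lt continuousAt_const
      (by simpa [h0] using hr)).mono fun _ h => h.le
  exact (h _ ((Div.cont_entry 0 0).sub continuous_const) (by simp)).and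
    ((h _ (Div.cont_entry 0 1) (by simp)).and ((h _ (Div.cont_entry 1 0) (by simp)).and
      (h _ ((Div.cont_entry 1 1).sub continuous_const) (by simp))))

theorem exists_Kr {N : Set (HH l)} (hN : N ∈ 𝓝 (1 : HH l)) : ∃ r, 0 < r ∧ r < 1 ∧ Kr l r ⊆ N := by
  by_contra h
  push Not at h
  obtain ⟨u, -, hu, hl⟩ := exists_seq_strictAnti_tendsto' (show (0 : ℝ) < 1 from one_pos)
  choose g hg hg' using fun n => not_subset.1 (h (u n) (hu n).1 (hu n).2)
  have : Tendsto g atTop (𝓝 1) := by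
    refine Div.tendsto_SL fun i j => tendsto_iff_norm_sub_tendsto_zero.2
      (squeeze_zero (fun _ => norm_nonneg _) (fun n => ?_) hl)
    fin_cases i <;> fin_cases j
    · simpa using (hg n).1
    · simpa using (hg n).2.1
    · simpa using (hg n).2.2.1
    · simpa using (hg n).2.2.2
  obtain ⟨n, hn⟩ := (this.eventually hN).exists
  exact hg' n hn

theorem up_mul_mem {r : ℝ} (hr : r < 1) {s : ℚ_[l]} (hs : ‖s‖ ≤ r) {h : HH l} (hh : h ∈ Kr l r) :
    up s * h ∈ Kr l r := by
  have e1 : (up s * h) 0 0 - 1 = (h 0 0 - 1) + s * h 1 0 := by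
    simp [up, Matrix.mul_apply, Fin.sum_univ_two]; ring
  have e2 : (up s * h) 0 1 = h 0 1 + s * h 1 1 := by
    simp [up, Matrix.mul_apply, Fin.sum_univ_two]
  have e3 : (up s * h) 1 0 = h 1 0 := by simp [up, Matrix.mul_apply, Fin.sum_univ_two]
  have e4 : (up s * h) 1 1 = h 1 1 := by simp [up, Matrix.mul_apply, Fin.sum_univ_two]
  refine ⟨?_, ?_, e3 ▸ hh.2.2.1, e4 ▸ hh.2.2.2⟩
  · rw [e1]
    refine (Padic.nonarchimedean _ _).trans (max_le hh.1 ?_)
    rw [norm_mul]
    exact (mul_le_of_le_one_right (norm_nonneg _) (hh.2.2.1.trans hr.le)).trans hs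
  · rw [e2]
    refine (Padic.nonarchimedean _ _).trans (max_le hh.2.1 ?_)
    rw [norm_mul, norm_one_add (hh.2.2.2.trans_lt hr), mul_one]
    exact hs

theorem dg_up (t : ℚ_[l]ˣ) (s : ℚ_[l]) : dg t * up (s / (t : ℚ_[l]) ^ 2) = up s * dg t := by
  have ht := t.ne_zero
  ext i j
  fin_cases i <;> fin_cases j <;> simp [up, dg, Matrix.mul_apply, Fin.sum_univ_two]
  field_simp

theorem key (hl : l ≠ 2) {r : ℝ} (hr : r < 1) {k : HH l} (hk : k ∈ Kr l r) {y : ℚ_[l]}
    (hy : 1 ≤ ‖y‖) {t : ℚ_[l]ˣ} (ht : 1 ≤ ‖(t : ℚ_[l])‖) : ∃ τ : ℚ_[l]ˣ, ‖(τ : ℚ_[l])‖ = 1 ∧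
      ∃ k' ∈ Kr l r, dg t * k * (up y * dg τ * up (-y)) = k' * dg t := by
  have ha : ‖k 0 0‖ = 1 := norm_one_add (hk.1.trans_lt hr)
  have hz : ‖k 0 1 / (k 0 0 * y)‖ ≤ r := by
    rw [norm_div, norm_mul, ha, one_mul]
    exact (div_le_self (norm_nonneg _) hy).trans hk.2.1
  obtain ⟨τ, e, hτ⟩ := sqrt1 hl (hz.trans_lt hr)
  have hτ' := hτ.trans hz
  have h1 : ‖τ‖ = 1 := norm_one_add (hτ'.trans_lt hr)
  have τ0 : τ ≠ 0 := norm_ne_zero_iff.1 (by rw [h1]; exact one_ne_zero)
  have a0 : k 0 0 ≠ 0 := norm_ne_zero_iff.1 (by rw [ha]; exact one_ne_zero)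
  have y0 : y ≠ 0 := norm_pos_iff.1 (one_pos.trans_le hy)
  have t0 := t.ne_zero
  have hd := k.det_coe
  rw [Matrix.det_fin_two] at hd
  have e' : k 0 0 * y * τ ^ 2 = k 0 0 * y + k 0 1 := by rw [e]; field_simp
  have h2 : ‖k 0 0 * τ - 1‖ ≤ r := by
    have : k 0 0 * τ - 1 = (k 0 0 - 1) * τ + (τ - 1) := by ring
    rw [this]
    refine (Padic.nonarchimedean _ _).trans (max_le ?_ hτ')
    rw [norm_mul, h1, mul_one]
    exact hk.1
  refine ⟨Units.mk0 τ τ0, h1, ⟨!![k 0 0 * τ, 0; k 1 0 * τ / (t : ℚ_[l]) ^ 2, (k 0 0 * τ)⁻¹], by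
    rw [Matrix.det_fin_two_of, mul_inv_cancel₀ (mul_ne_zero a0 τ0)]; simp⟩, ⟨?_, ?_, ?_, ?_⟩, ?_⟩
  · exact h2
  · simpa using (norm_nonneg _).trans h2
  · show ‖k 1 0 * τ / (t : ℚ_[l]) ^ 2‖ ≤ r
    rw [norm_div, norm_mul, h1, mul_one, norm_pow]
    exact (div_le_self (norm_nonneg _) (one_le_pow₀ ht)).trans hk.2.2.1
  · show ‖(k 0 0 * τ)⁻¹ - 1‖ ≤ r
    have : (k 0 0 * τ)⁻¹ - 1 = -(k 0 0 * τ - 1) / (k 0 0 * τ) := by field_simp; ring
    rw [this, norm_div, norm_neg, norm_mul, ha, h1, mul_one, div_one]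
    exact h2
  · ext i j
    fin_cases i <;> fin_cases j <;>
      simp [up, dg, Matrix.mul_apply, Fin.sum_univ_two, Matrix.vecMul, dotProduct]
    · ring
    · field_simp
      linear_combination -(t : ℚ_[l]) * e'
    · field_simp
    · field_simp
      linear_combination hd - k 1 0 * e'

theorem le_of_open {X : Type} [TopologicalSpace X] [MeasurableSpace X] {μ ν : Measure X}
    [ν.OuterRegular] (h : ∀ U, IsOpen U → μ U ≤ ν U) : μ ≤ ν := by
  refine Measure.le_iff'.2 fun s => ?_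
  rw [s.measure_eq_iInf_isOpen ν]
  exact le_iInf fun U => le_iInf fun hU => le_iInf fun hU' => (measure_mono hU).trans (h U hU')

variable {S : Sp l} {μ : Measure S.X}

theorem cont_hs (S : Sp l) (h : HH l) : Continuous (S.hs h) := continuous_const_smul _

/-- Dominated and asymptotically invariant probability measures accumulate at `μ`. -/
theorem lim (hN : S.Nice μ) (P : ℕ → ProbabilityMeasure S.X) {C : ℝ≥0∞} (hC : C ≠ ⊤)
    (hle : ∀ n, (P n : Measure S.X) ≤ C • μ)
    (hinv : ∀ s, ∀ᶠ n in atTop, (P n : Measure S.X).map (S.hs (up s)) = P n) :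
    ∃ (φ : ℕ → ℕ) (ν : ProbabilityMeasure S.X), StrictMono φ ∧ (ν : Measure S.X) = μ ∧
      Tendsto (fun n => P (φ n)) atTop (𝓝 ν) := by
  have := hN.prob
  have : IsFiniteMeasure (C • μ) := Measure.smul_finite μ hC
  have hK : IsCompact (closure (range P)) := by
    refine isCompact_closure_of_isTightMeasureSet ?_
    have h0 : IsTightMeasureSet {C • μ} := isTightMeasureSet_singleton
    rw [isTightMeasureSet_iff_exists_isCompact_measure_compl_le] at h0 ⊢
    intro ε hε
    obtain ⟨K, hK, h⟩ := h0 ε hε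
    refine ⟨K, hK, ?_⟩
    rintro _ ⟨_, ⟨n, rfl⟩, rfl⟩
    exact (hle n _).trans (h _ rfl)
  have := instMetrizableSpaceProbabilityMeasure S.X
  obtain ⟨ν, -, φ, hφ, hν⟩ := hK.tendsto_subseq (x := P) fun n => subset_closure ⟨n, rfl⟩
  refine ⟨φ, ν, hφ, ?_, hν⟩
  have h1 : (ν : Measure S.X) ≤ C • μ := le_of_open fun U hU =>
    (ProbabilityMeasure.le_liminf_measure_open_of_tendsto hν hU).trans
      (liminf_le_of_frequently_le' (Frequently.of_forall fun n => hle _ U))
  have h2 : ∀ s, (ν : Measure S.X).map (S.hs (up s)) = ν := by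
    intro s
    have a1 := ProbabilityMeasure.tendsto_map_of_tendsto_of_continuous _ _ hν (cont_hs S (up s))
    have a2 : Tendsto (P ∘ φ) atTop (𝓝 (ν.map (cont_hs S (up s)).measurable.aemeasurable)) :=
      a1.congr' ((hφ.tendsto_atTop.eventually (hinv s)).mono fun n hn => Subtype.ext hn)
    exact congrArg ProbabilityMeasure.toMeasure (tendsto_nhds_unique a2 hν)
  have C0 : C ≠ 0 := by
    rintro rfl
    have := h1 univ
    simp at this
  have h3 := hN.ergU (C⁻¹ • (ν : Measure S.X)) (by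
    refine Measure.le_iff'.2 fun s => ?_
    have := mul_le_mul_right (h1 s) C⁻¹
    rwa [Measure.smul_apply, smul_eq_mul, ← mul_assoc, ENNReal.inv_mul_cancel C0 hC, one_mul]
      at this) fun s => by rw [Measure.map_smul, h2]
  have h4 := congrArg (fun m : Measure S.X => C • m) h3
  simpa [smul_smul, ENNReal.mul_inv_cancel C0 hC] using h4

/-- The translate of a thickened measure. -/
def thick (m : Measure S.G) (O : Set S.G) (ρ : Measure S.X) (t : ℚ_[l]ˣ) : Measure S.X :=
  ((m.restrict O).prod ρ).map fun p => S.hs (dg t) (p.1 • p.2)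

theorem meas_act (S : Sp l) (t : ℚ_[l]ˣ) :
    Measurable fun p : S.G × S.X => S.hs (dg t) (p.1 • p.2) :=
  ((cont_hs S _).comp continuous_smul).measurable

variable {m : Measure S.G} {O : Set S.G} {ρ : Measure S.X} {t : ℚ_[l]ˣ}

theorem thick_univ [SFinite ρ] : thick m O ρ t univ = m O * ρ univ := by
  rw [thick, Measure.map_apply (meas_act S t) MeasurableSet.univ, preimage_univ, ← univ_prod_univ,
    Measure.prod_prod, Measure.restrict_apply_univ]

theorem thick_le (hN : S.Nice μ) [IsFiniteMeasure (m.restrict O)] [IsProbabilityMeasure ρ]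
    {Q : Set S.X} (hQ : MeasurableSet Q) {C : ℝ≥0}
    (h : ∀ x ∈ Q, (m.restrict O).map (· • x) ≤ C • μ) :
    thick m O (ρ.restrict Q) t ≤ (C : ℝ≥0∞) • μ := by
  refine Measure.le_iff.2 fun E hE => ?_
  rw [thick, Measure.map_apply (meas_act S t) hE, Measure.prod_apply_symm (meas_act S t hE)]
  have hE' : MeasurableSet (S.hs (dg t) ⁻¹' E) := (cont_hs S _).measurable hE
  have h1 : μ (S.hs (dg t) ⁻¹' E) = μ E := by
    rw [← Measure.map_apply (cont_hs S _).measurable hE]
    exact congrArg (fun ν : Measure S.X => ν E) (hN.inv (dg t, 1))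
  refine (setLIntegral_mono' hQ (g := fun _ => C * μ E) fun x hx => ?_).trans ?_
  · have h2 := h x hx (S.hs (dg t) ⁻¹' E)
    have h3 : Measurable fun g : S.G => g • x := (continuous_id.smul continuous_const).measurable
    rw [Measure.map_apply h3 hE', Measure.coe_nnreal_smul_apply, h1] at h2
    exact h2
  · rw [setLIntegral_const, Measure.smul_apply, smul_eq_mul]
    exact mul_le_of_le_one_right' prob_le_one

theorem thick_inv [m.IsMulLeftInvariant] [IsFiniteMeasure (m.restrict O)] [SFinite ρ]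
    (hO : MeasurableSet O) {s : ℚ_[l]}
    (h : (fun g => ((up (s / (t : ℚ_[l]) ^ 2), 1) : S.G) * g) ⁻¹' O = O) :
    (thick m O ρ t).map (S.hs (up s)) = thick m O ρ t := by
  set u : S.G := (up (s / (t : ℚ_[l]) ^ 2), 1) with hu
  have h1 : (m.restrict O).map (u * ·) = m.restrict O := by
    conv_lhs => rw [← h]
    rw [← Measure.restrict_map (measurable_const_mul u) hO, map_mul_left_eq_self]
  have h2 : ((m.restrict O).prod ρ).map (Prod.map (u * ·) id) = (m.restrict O).prod ρ := by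
    rw [← Measure.map_prod_map _ _ (measurable_const_mul u) measurable_id, h1, Measure.map_id]
  rw [thick, Measure.map_map (cont_hs S _).measurable (meas_act S t)]
  conv_rhs => rw [← h2]
  rw [Measure.map_map (meas_act S t) ((measurable_const_mul u).prodMap measurable_id)]
  congr 1
  funext p
  simp only [Function.comp, Sp.hs, Prod.map, id, smul_smul, hu, ← mul_assoc, Prod.mk_mul_mk, dg_up]

theorem thick_near [IsFiniteMeasure (m.restrict O)] [IsProbabilityMeasure ρ] (hO : MeasurableSet O)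
    (Q : Set S.X) {V F : Set S.X} (hV : MeasurableSet V) (hF : MeasurableSet F)
    (h : ∀ g ∈ O, ∃ (w : HH l) (g' : S.G), ρ.map (S.hs w) = ρ ∧
      ((dg t, 1) : S.G) * g * (w, 1) = g' * (dg t, 1) ∧ ∀ x, g' • x ∈ V → x ∈ F) :
    thick m O (ρ.restrict Q) t V ≤ m O * ρ.map (S.hs (dg t)) F := by
  rw [thick, Measure.map_apply (meas_act S t) hV, Measure.prod_apply (meas_act S t hV)]
  refine (setLIntegral_mono' hO (g := fun _ => ρ.map (S.hs (dg t)) F) fun g hg => ?_).trans ?_
  · obtain ⟨w, g', h1, h2, h3⟩ := h g hg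
    refine (Measure.restrict_le_self _).trans ?_
    have hm : MeasurableSet (Prod.mk g ⁻¹' ((fun p : S.G × S.X => S.hs (dg t) (p.1 • p.2)) ⁻¹' V)) :=
      measurable_prodMk_left (meas_act S t hV)
    conv_lhs => rw [← h1]
    rw [Measure.map_apply (cont_hs S _).measurable hm, Measure.map_apply (cont_hs S _).measurable hF]
    refine measure_mono fun x hx => h3 _ ?_
    have : S.hs (dg t) (g • S.hs w x) ∈ V := hx
    simp only [Sp.hs, smul_smul, ← mul_assoc, h2] at this ⊢
    exact this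
  · rw [setLIntegral_const, mul_comm]

end HM

open HM in
theorem hm : HMStmt := by
  intro l _ hl S μ ρ μs μ' t y hN hL hT ht hy hinv hμ hlim
  obtain ⟨m, m1, m2, m3, hL⟩ := hL
  have := hN.prob
  have hρ : ∀ n, IsProbabilityMeasure (ρ n) := fun n => ⟨by
    have h := (μs n).2.measure_univ
    change (μs n : Measure S.X) univ = 1 at h
    rwa [hμ n, Measure.map_apply (cont_hs S _).measurable MeasurableSet.univ, preimage_univ] at h⟩
  have main : ∀ K U : Set S.X, IsCompact K → IsOpen U → K ⊆ U → μ K ≤ (μ' : Measure S.X) U := by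
    intro K U hK hU hKU
    obtain ⟨F, hF, hKF, hFU⟩ := exists_compact_between hK hU hKU
    obtain ⟨O', V, hO', hV, h1, h2, h3⟩ := generalized_tube_lemma (isCompact_singleton (x := (1 : S.G)))
      hK (n := (fun p : S.G × S.X => p.1⁻¹ • p.2) ⁻¹' interior F)
      (isOpen_interior.preimage (continuous_fst.inv.smul continuous_snd)) (by
        rintro ⟨g, x⟩ ⟨rfl, hx⟩
        simpa using hKF hx)
    obtain ⟨N, hN', D', hD', hND⟩ := mem_nhds_prod_iff.1 (hO'.mem_nhds (h1 rfl))
    obtain ⟨r, r0, r1, hr⟩ := exists_Kr hN'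
    obtain ⟨D, hD, hDD, hDc⟩ := local_compact_nhds hD'
    set O : Set S.G := Kr l r ×ˢ D with hO
    have hOc : IsCompact O := (Kr_compact r1).prod hDc
    have hOm : MeasurableSet O := hOc.measurableSet
    have O0 : m O ≠ 0 := (Measure.measure_pos_of_mem_nhds m (prod_mem_nhds (Kr_nhds r0) hD)).ne'
    have Ot : m O ≠ ⊤ := hOc.measure_lt_top.ne
    have : IsFiniteMeasure (m.restrict O) := isFiniteMeasure_restrict.2 Ot
    refine ENNReal.le_of_forall_lt_one_mul_le fun a ha => ?_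
    rcases eq_or_ne a 0 with rfl | a0
    · simp
    obtain ⟨Q, hQ, hQ'⟩ := isTightMeasureSet_iff_exists_isCompact_measure_compl_le.1 hT (1 - a)
      (tsub_pos_of_lt ha)
    have hQa : ∀ n, a ≤ ρ n Q := fun n => by
      have h4 := hQ' _ ⟨n, rfl⟩
      rw [prob_compl_eq_one_sub hQ.measurableSet] at h4
      exact (ENNReal.sub_le_sub_iff_left ha.le ENNReal.one_ne_top).1 h4
    obtain ⟨C, hC⟩ := hL O Q hOc hQ
    have Q0 : ∀ n, ρ n Q ≠ 0 := fun n => (a0.bot_lt.trans_le (hQa n)).ne'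
    let P : ℕ → ProbabilityMeasure S.X := fun n =>
      ⟨(m O * ρ n Q)⁻¹ • thick m O ((ρ n).restrict Q) (t n), ⟨by
        rw [Measure.smul_apply, thick_univ, Measure.restrict_apply_univ, smul_eq_mul,
          ENNReal.inv_mul_cancel (mul_ne_zero O0 (Q0 n))
            (ENNReal.mul_ne_top Ot (measure_ne_top _ _))]⟩⟩
    have hP : ∀ n E, (P n : Measure S.X) E =
      (m O * ρ n Q)⁻¹ * thick m O ((ρ n).restrict Q) (t n) E := fun _ _ => rfl
    obtain ⟨φ, ν, hφ, hν, hl'⟩ := lim hN P (C := (m O * a)⁻¹ * C)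
      (ENNReal.mul_ne_top (ENNReal.inv_ne_top.2 (mul_ne_zero O0 a0)) ENNReal.coe_ne_top)
      (fun n => Measure.le_iff'.2 fun E => by
        rw [hP, Measure.smul_apply, smul_eq_mul, mul_assoc]
        exact mul_le_mul' (ENNReal.inv_le_inv.2 (mul_le_mul_right (hQa n) _))
          (thick_le hN hQ.measurableSet hC E))
      (fun s => by
        filter_upwards [ht.eventually_ge_atTop 1, ht.eventually_ge_atTop (‖s‖ / r)] with n h4 h5
        have h6 : ‖s / (t n : ℚ_[l]) ^ 2‖ ≤ r := by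
          rw [norm_div, norm_pow, div_le_iff₀ (by positivity)]
          rw [div_le_iff₀ r0] at h5
          nlinarith [mul_le_mul_of_nonneg_left h4 (mul_nonneg r0.le (norm_nonneg (t n : ℚ_[l])))]
        show ((m O * ρ n Q)⁻¹ • thick m O ((ρ n).restrict Q) (t n)).map _ = _
        rw [Measure.map_smul, thick_inv hOm]
        · rfl
        · ext g
          refine ⟨fun hg => ⟨?_, by simpa using hg.2⟩, fun hg => ⟨up_mul_mem r1 h6 hg.1, by
            simpa using hg.2⟩⟩
          have := up_mul_mem r1 (s := -(s / (t n : ℚ_[l]) ^ 2)) (by rwa [norm_neg]) hg.1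
          rwa [← Div.up_inv, Prod.fst_mul, inv_mul_cancel_left] at this)
    refine le_trans (le_of_forall_gt_imp_ge_of_dense fun b hb => ?_) (measure_mono hFU)
    have e1 := eventually_lt_of_limsup_lt
      ((ProbabilityMeasure.limsup_measure_closed_le_of_tendsto hlim hF.isClosed).trans_lt hb)
    have e2 : ∀ᶠ n in atTop, (P n : Measure S.X) V ≤ a⁻¹ * b := by
      filter_upwards [e1, ht.eventually_ge_atTop 1] with n h4 h5
      have h6 := thick_near (m := m) (ρ := ρ n) (t := t n) hOm Q hV.measurableSet hF.measurableSet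
        fun g hg => by
          obtain ⟨τ, hτ, k', hk', e⟩ := key hl r1 hg.1 (hy n) h5
          refine ⟨_, (k', g.2), hinv n τ hτ, Prod.ext e (by simp), fun x hx => ?_⟩
          have := h3 (mk_mem_prod (hND (mk_mem_prod (hr hk') (hDD hg.2))) hx)
          have h7 : ((k', g.2) : S.G)⁻¹ • ((k', g.2) : S.G) • x ∈ F := interior_subset this
          rwa [inv_smul_smul] at h7
      rw [hP]
      refine (mul_le_mul_right h6 _).trans ?_
      rw [← hμ n, ENNReal.mul_inv (Or.inl O0) (Or.inl Ot), mul_mul_mul_comm,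
        ENNReal.inv_mul_cancel O0 Ot, one_mul]
      exact mul_le_mul' (ENNReal.inv_le_inv.2 (hQa n)) h4.le
    have e3 := (ProbabilityMeasure.le_liminf_measure_open_of_tendsto hl' hV).trans
      (liminf_le_of_frequently_le' (hφ.tendsto_atTop.eventually e2).frequently)
    rw [hν] at e3
    refine (mul_le_mul_right ((measure_mono h2).trans e3) a).trans ?_
    rw [← mul_assoc, ENNReal.mul_inv_cancel a0 (ha.trans ENNReal.one_lt_top).ne, one_mul]
  have hle : μ ≤ (μ' : Measure S.X) := le_of_open fun U hU => by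
    rw [hU.measure_eq_iSup_isCompact μ]
    exact iSup_le fun K => iSup_le fun h1 => iSup_le fun h2 => main K U h2 hU h1
  exact (Measure.eq_of_le_of_isProbabilityMeasure hle).symm

end Pool.Agent.Lib.MP_9177b7_ag.J
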