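import Pool.Agent.Lib.MP_9177b7_ag.J.DefsU

/-!
The joining theorems for several factors.
-/

open MeasureTheory ProbabilityTheory Filter Topology Set
open scoped MatrixGroups ENNReal NNReal

noncomputable section

namespace Pool.Agent.Lib.MP_9177b7_ag.J

namespace JoinN

section general

variable {X ι : Type} [MeasurableSpace X]

/-- Restriction to a set of coordinates. -/
def res (p : ι → Prop) (w : ι → X) : {i // p i} → X := fun i => w i

lemma res_meas (p : ι → Prop) : Measurable (res (X := X) p) :=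
  measurable_pi_lambda _ fun i => measurable_pi_apply _

/-- All proper marginals are product measures. -/
def Marg (μ : Measure X) (θ : Measure (ι → X)) : Prop :=
  ∀ (p : ι → Prop) (_ : Fintype {i // p i}), (∃ i, ¬ p i) →
    θ.map (res p) = Measure.pi fun _ => μ

lemma pair_meas (i j : ι) : Measurable fun w : ι → X => (w i, w j) :=
  (measurable_pi_apply i).prodMk (measurable_pi_apply j)

lemma pi_pair [Fintype ι] (μ : Measure X) [IsProbabilityMeasure μ] {i j : ι} (h : i ≠ j) :
    (Measure.pi fun _ : ι => μ).map (fun w => (w i, w j)) = μ.prod μ := by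
  have h1 := (iIndepFun_pi (μ := fun _ : ι => μ) (X := fun _ => id)
    fun _ => aemeasurable_id).indepFun h
  have h2 := (indepFun_iff_map_prod_eq_prod_map_map (measurable_pi_apply i).aemeasurable
    (measurable_pi_apply j).aemeasurable).1 h1
  rw [h2]
  congr 1
  · exact (measurePreserving_eval (fun _ : ι => μ) i).map_eq
  · exact (measurePreserving_eval (fun _ : ι => μ) j).map_eq

variable {μ : Measure X} [IsProbabilityMeasure μ] {θ : Measure (ι → X)}

lemma Marg.one [Finite ι] (h : Marg μ θ) {i j : ι} (hij : j ≠ i) : θ.map (fun w => w i) = μ := by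
  have := Fintype.ofFinite {a // a = i}
  have h1 := h (fun a => a = i) this ⟨j, hij⟩
  have h2 := (measurePreserving_eval (fun _ : {a // a = i} => μ) ⟨i, rfl⟩).map_eq
  rw [← h1, Measure.map_map (measurable_pi_apply _) (res_meas _)] at h2
  exact h2

lemma Marg.two [Finite ι] (h : Marg μ θ) {i j k : ι} (hij : i ≠ j) (hi : k ≠ i) (hj : k ≠ j) :
    θ.map (fun w => (w i, w j)) = μ.prod μ := by
  have := Fintype.ofFinite {a // a = i ∨ a = j}
  have h1 := h (fun a => a = i ∨ a = j) this ⟨k, not_or.2 ⟨hi, hj⟩⟩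
  have h2 := pi_pair (ι := {a // a = i ∨ a = j}) μ (i := ⟨i, Or.inl rfl⟩) (j := ⟨j, Or.inr rfl⟩)
    fun e => hij (congrArg Subtype.val e)
  rw [← h1, Measure.map_map (pair_meas _ _) (res_meas _)] at h2
  exact h2

lemma small [Fintype ι] [IsProbabilityMeasure θ] (hs : ∀ i j : ι, i = j)
    (h : ∀ i, θ.map (fun w => w i) = μ) : θ = Measure.pi fun _ => μ := by
  refine (Measure.pi_eq fun s hs' => ?_).symm
  rcases isEmpty_or_nonempty ι with h0 | ⟨⟨i⟩⟩
  · rw [Finset.univ_eq_empty, Finset.prod_empty, ← measure_univ (μ := θ)]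
    congr 1
    exact eq_univ_of_forall fun w i => isEmptyElim i
  · rw [Fintype.prod_eq_single i fun j hj => absurd (hs j i) hj, ← h i,
      Measure.map_apply (measurable_pi_apply i) (hs' i)]
    congr 1
    ext w
    exact ⟨fun hw => hw i trivial, fun hw j _ => by rw [hs j i]; exact hw⟩

lemma of_pair [Fintype ι] {i j : ι} (hij : i ≠ j) (hs : ∀ k, k = i ∨ k = j)
    (h : θ.map (fun w => (w i, w j)) = μ.prod μ) : θ = Measure.pi fun _ => μ := by
  refine (Measure.pi_eq fun s hs' => ?_).symm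
  rw [Fintype.prod_eq_mul i j hij fun k hk => ((hs k).elim hk.1 hk.2).elim, ← Measure.prod_prod,
    ← h, Measure.map_apply (pair_meas i j) ((hs' i).prod (hs' j))]
  congr 1
  ext w
  refine ⟨fun hw => ⟨hw i trivial, hw j trivial⟩, fun hw k _ => ?_⟩
  rcases hs k with rfl | rfl
  · exact hw.1
  · exact hw.2

lemma cases_card (ι : Type) : (∀ i j : ι, i = j) ∨ (∃ i j : ι, i ≠ j ∧ ∀ k, k = i ∨ k = j) ∨
    ∃ i j k : ι, i ≠ j ∧ k ≠ i ∧ k ≠ j := by
  by_cases h1 : ∀ i j : ι, i = j
  · exact Or.inl h1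
  push Not at h1
  obtain ⟨i, j, hij⟩ := h1
  by_cases h2 : ∀ k, k = i ∨ k = j
  · exact Or.inr (Or.inl ⟨i, j, hij, h2⟩)
  push Not at h2
  obtain ⟨k, h3, h4⟩ := h2
  exact Or.inr (Or.inr ⟨i, j, k, hij, h3, h4⟩)

lemma map_res {ν : Measure (ι → X)} (p : ι → Prop) {f : (ι → X) → ι → X}
    {g : ({i // p i} → X) → {i // p i} → X} (hf : Measurable f) (hg : Measurable g)
    (h : ∀ w, res p (f w) = g (res p w)) (hν : ν.map f = ν) :
    (ν.map (res p)).map g = ν.map (res p) := by
  rw [Measure.map_map hg (res_meas p), show g ∘ res p = res p ∘ f from funext fun w => (h w).symm,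
    ← Measure.map_map (res_meas p) hf, hν]

lemma finish {Y : Type} [MeasurableSpace Y] {ν m : Measure Y} [IsProbabilityMeasure ν]
    {Θ : Kernel Y Y} (hb : ν.bind Θ = ν) (h : ∀ᵐ z ∂ν, Θ z = m) : ν = m := by
  rw [← hb, Measure.bind_congr_right (g := fun _ => m) h, Measure.bind_const, measure_univ,
    one_smul]

end general

variable {l : ℕ} [Fact l.Prime] (S : Sp l) {ι : Type}

lemma hN_cont (v : ι → HH l) : Continuous (S.hN v) :=
  continuous_pi fun i => (continuous_apply i).const_smul _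

lemma cN_cont (c : ι → S.C) : Continuous (S.cN c) :=
  continuous_pi fun i => (continuous_apply i).const_smul _

lemma hN_meas (v : ι → HH l) : Measurable (S.hN v) :=
  measurable_pi_lambda _ fun i => (measurable_pi_apply i).const_smul _

lemma cN_meas (c : ι → S.C) : Measurable (S.cN c) :=
  measurable_pi_lambda _ fun i => (measurable_pi_apply i).const_smul _

lemma hN_homeo (v : ι → HH l) : IsHomeomorph (S.hN v) :=
  (Homeomorph.piCongrRight fun i => Homeomorph.smul (α := S.X) ((v i, 1) : S.G)).isHomeomorph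

lemma hN_cN (v : ι → HH l) (c : ι → S.C) (z : ι → S.X) : S.hN v (S.cN c z) = S.cN c (S.hN v z) := by
  funext i
  simp only [Sp.hN, Sp.cN, Sp.hs, Sp.cc, smul_smul, Prod.mk_mul_mk, mul_one, one_mul]

lemma hs_up_zero (x : S.X) : S.hs (up 0) x = x := by
  have : (up 0 : HH l) = 1 := by
    refine Subtype.ext ?_
    show !![1, 0; 0, 1] = (1 : Matrix (Fin 2) (Fin 2) ℚ_[l])
    exact Matrix.one_fin_two.symm
  rw [this, Sp.hs, Prod.mk_one_one, one_smul]

variable {S}

lemma prodN [Fintype ι] {μ : Measure S.X} (hμ : S.Nice μ) {θ : Measure (ι → S.X)} (hm : Marg μ θ)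
    {x : ι → ℚ_[l]} (hx : x ≠ 0) {i₀ : ι} (h0 : x i₀ = 0) (hi : ∀ s, θ.map (S.ln x s) = θ) :
    θ = Measure.pi fun _ => μ := by
  classical
  have := hμ.prob
  refine (Measure.pi_eq fun s hs => ?_).symm
  obtain ⟨i₁, hi₁⟩ := Function.ne_iff.1 hx
  set p : ι → Prop := fun i => x i ≠ 0 with hp
  have m1 := hm p inferInstance ⟨i₀, fun h => h h0⟩
  have m2 := hm (fun i => ¬ p i) inferInstance ⟨i₁, fun h => h hi₁⟩
  have b1 : MeasurableSet (Set.pi univ fun i : {i // p i} => s i) :=
    MeasurableSet.univ_pi fun i => hs i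
  have b2 : MeasurableSet (Set.pi univ fun i : {i // ¬ p i} => s i) :=
    MeasurableSet.univ_pi fun i => hs i
  set E : Set (ι → S.X) := res (fun i => ¬ p i) ⁻¹' Set.pi univ fun i => s i with hE
  have hEm : MeasurableSet E := res_meas _ b2
  have h1 := hμ.mixU {i // p i} (fun i => x i) (fun i => i.2) ((θ.restrict E).map (res p))
    (m1 ▸ Measure.map_mono Measure.restrict_le_self (res_meas p)) fun t => by
      refine map_res p (f := S.ln x t) (hN_meas S _) (hN_meas S _) (fun w => rfl) ?_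
      have h2 : S.ln x t ⁻¹' E = E := by
        have h3 : ∀ w, res (fun i => ¬ p i) (S.ln x t w) = res (fun i => ¬ p i) w := fun w => by
          funext i
          show S.hs (up (t * x i)) (w i) = w i
          rw [not_not.1 i.2, mul_zero, hs_up_zero]
        ext w
        simp only [hE, mem_preimage, h3]
      conv_lhs => rw [← h2]
      rw [← Measure.restrict_map (f := S.ln x t) (hN_meas S _) hEm, hi t]
  have h4 := congrArg (fun m : Measure ({i // p i} → S.X) => m (Set.pi univ fun i => s i)) h1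
  simp only [Measure.smul_apply, smul_eq_mul] at h4
  rw [Measure.map_apply (res_meas p) b1, Measure.map_apply (res_meas p) MeasurableSet.univ,
    Measure.restrict_apply (res_meas p b1), preimage_univ, Measure.restrict_apply_univ,
    Measure.pi_pi, hE, ← Measure.map_apply (res_meas _) b2, m2, Measure.pi_pi, mul_comm,
    Fintype.prod_subtype_mul_prod_subtype p fun i => μ (s i)] at h4
  rw [← h4]
  congr 1
  ext w
  refine ⟨fun hw => ⟨fun i _ => hw i trivial, fun i _ => hw i trivial⟩, fun hw i _ => ?_⟩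
  by_cases h : p i
  · exact hw.1 ⟨i, h⟩ trivial
  · exact hw.2 ⟨i, h⟩ trivial

lemma ind_single {μ : Measure S.X} [IsProbabilityMeasure μ] {θ : Measure (ι → S.X)} {i j : ι}
    (h : θ.map (fun w => (w i, w j)) = μ.prod μ) : S.Ind μ {i} j θ := by
  have hc : Measurable fun (x : S.X) (_ : ({i} : Set ι)) => x :=
    measurable_pi_lambda _ fun _ => measurable_id
  refine ⟨μ.map fun x _ => x, Measure.isProbabilityMeasure_map hc.aemeasurable, ?_⟩
  conv_rhs => rw [← Measure.map_id (μ := μ)]
  rw [Measure.map_map hc measurable_id, Function.comp_id,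
    Measure.map_prod_map μ μ hc measurable_id, ← h,
    Measure.map_map (hc.prodMap measurable_id) (pair_meas i j)]
  congr 1
  funext w
  refine Prod.ext (funext fun a => ?_) rfl
  show w a = w i
  rw [show (a : ι) = i from a.2]

lemma ind_empty {μ : Measure S.X} [IsProbabilityMeasure μ] {θ : Measure (ι → S.X)} {j : ι}
    (h : θ.map (fun w => w j) = μ) : S.Ind μ ∅ j θ := by
  refine ⟨Measure.dirac fun a => a.2.elim, inferInstance, ?_⟩
  have hj : Measurable fun w : ι → S.X => w j := measurable_pi_apply j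
  rw [Measure.dirac_prod, ← h, Measure.map_map measurable_prodMk_left hj]
  congr 1
  funext w
  exact Prod.ext (funext fun a => a.2.elim) rfl

lemma gr_mono (B : Matrix (Fin 2) (Fin 2) ℚ) {Ω Ω' : Set S.G} (h : Ω ⊆ Ω') :
    S.GrU B Ω ⊆ S.GrU B Ω' := by
  rintro z ⟨g₁, h₁, g₂, h₂, hz⟩
  exact ⟨g₁, h h₁, g₂, h h₂, hz⟩

lemma gr_compact (B : Matrix (Fin 2) (Fin 2) ℚ) {Ω : Set S.G} (h : IsCompact Ω) :
    IsCompact (S.GrU B Ω) := by
  let M : S.G × S.G → Matrix (Fin 2) (Fin 2) ℚ_[l] := fun g =>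
    (g.2.1 : Matrix (Fin 2) (Fin 2) ℚ_[l]) * B.map (algebraMap ℚ ℚ_[l]) *
      ((g.1.1⁻¹ : HH l) : Matrix (Fin 2) (Fin 2) ℚ_[l])
  have hv : Continuous fun g : HH l => (g : Matrix (Fin 2) (Fin 2) ℚ_[l]) :=
    Matrix.SpecialLinearGroup.isClosedEmbedding_val.continuous
  have hM : Continuous M :=
    ((hv.comp (continuous_fst.comp continuous_snd)).matrix_mul continuous_const).matrix_mul
      (hv.comp (continuous_fst.comp continuous_fst).inv)
  have hc : IsClosed {g | M g 1 0 = 0} := isClosed_eq (hM.matrix_elem 1 0) continuous_const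
  have he : S.GrU B Ω = (fun g : S.G × S.G => (g.1 • S.o, g.2 • S.o)) ''
      (Ω ×ˢ Ω ∩ {g | M g 1 0 = 0}) := by
    ext z
    constructor
    · rintro ⟨g₁, h₁, g₂, h₂, rfl, d₁, d₂, q, hd⟩
      refine ⟨(g₁, g₂), ⟨⟨h₁, h₂⟩, ?_⟩, rfl⟩
      have : M (g₁, g₂) = !![d₁, q; 0, d₂] := by
        simp only [M]
        rw [hd, mul_assoc, ← Matrix.SpecialLinearGroup.coe_mul, mul_inv_cancel,
          Matrix.SpecialLinearGroup.coe_one, mul_one]
      simp [this]
    · rintro ⟨⟨g₁, g₂⟩, ⟨⟨h₁, h₂⟩, h4⟩, rfl⟩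
      refine ⟨g₁, h₁, g₂, h₂, rfl, M (g₁, g₂) 0 0, M (g₁, g₂) 1 1, M (g₁, g₂) 0 1, ?_⟩
      have : !![M (g₁, g₂) 0 0, M (g₁, g₂) 0 1; 0, M (g₁, g₂) 1 1] = M (g₁, g₂) := by
        conv_rhs => rw [Matrix.eta_fin_two (M (g₁, g₂)), h4]
      rw [this]
      simp only [M]
      rw [mul_assoc, ← Matrix.SpecialLinearGroup.coe_mul, inv_mul_cancel,
        Matrix.SpecialLinearGroup.coe_one, mul_one]
  rw [he]
  exact ((h.prod h).inter_right hc).image
    ((continuous_fst.smul continuous_const).prodMk (continuous_snd.smul continuous_const))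

lemma gr_null {Y : Type} [MeasurableSpace Y] {ν : Measure Y} {Θ : Kernel Y Y} {e : Y → S.X × S.X}
    (he : Measurable e) (hb : ν.bind Θ = ν)
    (h : ∀ (B : Matrix (Fin 2) (Fin 2) ℚ) (Ω : Set S.G), B.det ≠ 0 → IsCompact Ω →
      ν {z | e z ∈ S.GrU B Ω} = 0) : ∀ᵐ z ∂ν, ∀ (B : Matrix (Fin 2) (Fin 2) ℚ) (Ω : Set S.G),
        B.det ≠ 0 → IsCompact Ω → (Θ z).map e (S.GrU B Ω) = 0 := by
  let K := CompactExhaustion.choice S.G
  have : Countable (Matrix (Fin 2) (Fin 2) ℚ) := inferInstanceAs (Countable (Fin 2 → Fin 2 → ℚ))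
  have h1 : ∀ᵐ z ∂ν, ∀ (B : Matrix (Fin 2) (Fin 2) ℚ) (n : ℕ), B.det ≠ 0 →
      (Θ z).map e (S.GrU B (K n)) = 0 := by
    refine ae_all_iff.2 fun B => ae_all_iff.2 fun n => ?_
    by_cases hB : B.det = 0
    · exact Eventually.of_forall fun _ h' => absurd hB h'
    have hm := (gr_compact B (K.isCompact n)).measurableSet
    have h2 : ν (e ⁻¹' S.GrU B (K n)) = 0 := h B (K n) hB (K.isCompact n)
    rw [← hb, Measure.bind_apply (he hm) Θ.aemeasurable,
      lintegral_eq_zero_iff (Θ.measurable_coe (he hm))] at h2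
    exact h2.mono fun z hz _ => by rw [Measure.map_apply he hm]; exact hz
  refine h1.mono fun z hz B Ω hB hΩ => ?_
  obtain ⟨n, hn⟩ := K.exists_superset_of_isCompact hΩ
  exact measure_mono_null (gr_mono B hn) (hz B n hB)

open Classical in
/-- Two coordinates. -/
def pairEquiv (X : Type) [MeasurableSpace X] {i j : ι} (hij : i ≠ j) (hs : ∀ k, k = i ∨ k = j) :
    (ι → X) ≃ᵐ X × X where
  toFun w := (w i, w j)
  invFun z k := if k = i then z.1 else z.2
  left_inv w := by
    funext k
    rcases hs k with rfl | rfl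
    · simp
    · simp [hij.symm]
  right_inv z := by simp [hij.symm]
  measurable_toFun := pair_meas i j
  measurable_invFun := measurable_pi_lambda _ fun k => by
    show Measurable fun z : X × X => if k = i then z.1 else z.2
    split_ifs
    · exact measurable_fst
    · exact measurable_snd

lemma core2 (hC : CoreUStmt) (hl : l ≠ 2) {μ : Measure S.X} (hμ : S.Nice μ) {i j : ι}
    (hij : i ≠ j) (hs : ∀ k, k = i ∨ k = j) {θ : Measure (ι → S.X)} [IsProbabilityMeasure θ]
    (h1 : θ.map (fun w => w i) = μ) (h2 : θ.map (fun w => w j) = μ) {W : Set (ι → S.X)}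
    (hW : ∀ᵐ w ∂θ, w ∈ W) (hW' : ∀ w ∈ W, ∀ v, S.hN v w ∈ W → θ.map (S.hN v) = θ)
    {x : ι → ℚ_[l]} (hx : x ≠ 0) (hi : ∀ s, θ.map (S.ln x s) = θ)
    (hn : ∀ (B : Matrix (Fin 2) (Fin 2) ℚ) (Ω : Set S.G), B.det ≠ 0 → IsCompact Ω →
      θ.map (fun w => (w i, w j)) (S.GrU B Ω) = 0) :
    θ.map (fun w => (w i, w j)) = μ.prod μ := by
  classical
  set e := pairEquiv S.X hij hs with he
  have h2m : ∀ v : HH l × HH l, Measurable (S.h2 v) := fun v =>
    (measurable_fst.const_smul _).prodMk (measurable_snd.const_smul _)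
  have tr : ∀ v : ι → HH l, θ.map (S.hN v) = θ → (θ.map e).map (S.h2 (v i, v j)) = θ.map e := by
    intro v hv
    rw [Measure.map_map (h2m _) e.measurable,
      show S.h2 (v i, v j) ∘ e = e ∘ S.hN v from rfl, ← Measure.map_map e.measurable (hN_meas S v),
      hv]
  rcases hC l hl S μ (θ.map e) (e.symm ⁻¹' W) (x i) (x j) hμ
    (Measure.isProbabilityMeasure_map e.measurable.aemeasurable)
    (by rw [Measure.map_map measurable_fst e.measurable]; exact h1)
    (by rw [Measure.map_map measurable_snd e.measurable]; exact h2)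
    (e.measurableEmbedding.ae_map_iff.2 (hW.mono fun w hw => by
      rwa [mem_preimage, e.symm_apply_apply]))
    (fun w hw v hv => by
      have h3 := tr (fun k => if k = i then v.1 else v.2) (hW' _ hw _ (by
        have h4 : S.hN (fun k => if k = i then v.1 else v.2) (e.symm w) = e.symm (S.h2 v w) := by
          funext k
          show S.hs (if k = i then v.1 else v.2) (if k = i then w.1 else w.2) =
            if k = i then S.hs v.1 w.1 else S.hs v.2 w.2
          split_ifs <;> rfl
        rw [h4]; exact hv))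
      simpa [hij.symm] using h3)
    (by
      by_contra h
      push Not at h
      exact hx (funext fun k => by rcases hs k with rfl | rfl; exacts [h.1, h.2]))
    (fun s => tr _ (hi s)) with h | ⟨B, Ω, hB, hΩ, h⟩
  · exact h
  · exact absurd (hn B Ω hB hΩ) h.ne'

end JoinN

open JoinN in
theorem joinN : DecZStmt → LineNStmt → JoinNStmt := by
  intro hDec hL l _ S μ b t hμ ht hE ι _
  have := hμ.prob
  induction hn : Fintype.card ι using Nat.strong_induction_on generalizing ι with
  | _ n ih =>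
  intro ν hν h1 h2 hb hi
  rcases cases_card ι with hs | ⟨i, j, hij, hs⟩ | ⟨i, j, k, hij, hki, hkj⟩
  · exact small hs h1
  · exact of_pair hij hs (h2 i j hij)
  have hm : Marg μ ν := by
    rintro p _ ⟨a, ha⟩
    refine ih _ (hn ▸ Fintype.card_subtype_lt ha) _ rfl _
      (Measure.isProbabilityMeasure_map (res_meas p).aemeasurable) (fun c => ?_) (fun c d h => ?_)
      (map_res p (cN_meas S _) (cN_meas S _) (fun _ => rfl) hb)
      (map_res p (hN_meas S _) (hN_meas S _) (fun _ => rfl) hi)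
    · rw [Measure.map_map (measurable_pi_apply c) (res_meas p)]
      exact h1 c
    · rw [Measure.map_map (pair_meas c d) (res_meas p)]
      exact h2 c d fun e => h (Subtype.ext e)
  obtain ⟨Θ, Z, hD, hM⟩ := hDec (ι → S.X) (ι → HH l) S.hN (S.cN fun _ => b) ν (hN_homeo S)
    (cN_cont S _) (fun v y => hN_cN S v _ y) hν hb
  have hmΘ : ∀ᵐ z ∂ν, Marg μ (Θ z) := by
    refine ae_all_iff.2 fun p => ae_all_iff.2 fun f => ?_
    by_cases hp : ∃ i, ¬ p i
    swap
    · exact Eventually.of_forall fun _ h => absurd h hp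
    have h3 := hm p f hp
    refine (hM _ (res p) (S.cN fun _ => b) (res_meas p) (cN_meas S _) (fun _ => rfl)
      (h3 ▸ hE _)).mono fun z hz _ => hz.trans h3
  refine finish hD.bind ?_
  filter_upwards [hmΘ, hL l S μ ι ν Θ Z t {i} j hij.symm ht this hμ.bound hν hD hi
    (hmΘ.mono fun z hz => ind_single (hz.two hij hki hkj))] with z hz ⟨x, hx, h0, hx'⟩
  exact prodN hμ hz hx (h0 i rfl) hx'

open JoinN in
theorem joinU : DecQStmt → LineUStmt → CoreUStmt → JoinUStmt := by
  intro hDec hL hC l _ hl S μ p _ u hμ hu hu' hE ι _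
  have := hμ.prob
  have hu0 : u 0 = 1 := by
    have h := hu' 0 0
    rw [add_zero] at h
    exact left_eq_mul.1 h
  induction hn : Fintype.card ι using Nat.strong_induction_on generalizing ι with
  | _ n ih =>
  intro ν x y hx hy hν h1 hi hb hgr
  by_cases hs : ∀ i j : ι, i = j
  · exact small hs h1
  have hm : Marg μ ν := by
    rintro q _ ⟨a, ha⟩
    refine ih _ (hn ▸ Fintype.card_subtype_lt ha) _ rfl _ (fun c => x c) (fun c => y c)
      (fun c => hx c) (fun c => hy c)
      (Measure.isProbabilityMeasure_map (res_meas q).aemeasurable) (fun c => ?_)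
      (fun s => map_res q (f := S.ln x s) (hN_meas S _) (hN_meas S _) (fun _ => rfl) (hi s))
      (fun s => map_res q (cN_meas S _) (cN_meas S _) (fun _ => rfl) (hb s))
      fun c d h B Ω hB hΩ => ?_
    · rw [Measure.map_map (measurable_pi_apply c) (res_meas q)]
      exact h1 c
    · refine (Measure.map_apply (res_meas q)
        (pair_meas c d (gr_compact B hΩ).measurableSet)).trans ?_
      exact hgr c d (fun e => h (Subtype.ext e)) B Ω hB hΩ
  obtain ⟨Θ, Z, hD, hM⟩ := hDec p (ι → S.X) (ι → HH l) S.hN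
    (fun s => S.cN fun i => u (s * y i)) ν (hN_homeo S)
    (continuous_pi fun i => (continuous_const.prodMk (hu.comp (continuous_fst.mul
      continuous_const))).smul ((continuous_apply i).comp continuous_snd))
    (fun z => funext fun i => by
      simp only [Sp.cN, Sp.cc, zero_mul, hu0, Prod.mk_one_one, one_smul])
    (fun s s' z => funext fun i => by
      simp only [Sp.cN, Sp.cc, add_mul, hu', smul_smul, Prod.mk_mul_mk, mul_one])
    (fun v s z => hN_cN S v _ z) hν hb
  have hMk := hD.markov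
  have hmΘ : ∀ᵐ z ∂ν, Marg μ (Θ z) := by
    refine ae_all_iff.2 fun q => ae_all_iff.2 fun f => ?_
    by_cases hq : ∃ i, ¬ q i
    swap
    · exact Eventually.of_forall fun _ h => absurd h hq
    have h3 := hm q f hq
    refine (hM _ (res q) (fun s => S.cN fun i => u (s * y i)) (res_meas q)
      (fun _ => cN_meas S _) (fun _ _ => rfl)
      (h3 ▸ hE {i // q i} (fun i => y i) fun i => hy i)).mono fun z hz _ => hz.trans h3
  refine finish hD.bind ?_
  rcases (cases_card ι).resolve_left hs with ⟨i, j, hij, hs⟩ | ⟨i, j, k, hij, hki, hkj⟩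
  · filter_upwards [hmΘ, hL l hl S μ ι ν Θ Z x ∅ j (notMem_empty j) (hx j) this hμ.bound hν hD hi
      (hmΘ.mono fun z hz => ind_empty (hz.one hij)), hD.typ,
      gr_null (pair_meas i j) hD.bind (hgr i j hij)] with z hz ⟨x', hx', _, hx''⟩ htyp hnull
    exact of_pair hij hs (core2 hC hl hμ hij hs (hz.one hij.symm) (hz.one hij)
      (W := {w | Θ w = Θ z ∧ w ∈ Z}) htyp (fun w hw v hv => by
        rw [← hw.1, ← hD.equi v w hw.2 hv.2, hv.1, hw.1]) hx' hx'' hnull)
  · filter_upwards [hmΘ, hL l hl S μ ι ν Θ Z x {i} j hij.symm (hx j) this hμ.bound hν hD hi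
      (hmΘ.mono fun z hz => ind_single (hz.two hij hki hkj))] with z hz ⟨x', hx', h0, hx''⟩
    exact prodN hμ hz hx' (h0 i rfl) hx''

end Pool.Agent.Lib.MP_9177b7_ag.J
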