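import Pool.Agent.Lib.MP_9177b7_ag.J.LargeD
import Pool.Agent.Lib.MP_9177b7_ag.J.Psi
import Pool.Agent.Lib.MP_30b5ba_nt.Upper

/-!
The total weight of the points with large content, and the bound for the Euler product.
-/

noncomputable section

namespace Pool.Agent.Lib.MP_9177b7_ag.J.Large

open Fld Finset

namespace Big

/-- The divisor bound. -/
lemma divisor_bound {δ : ℝ} (hδ : 0 < δ) : ∃ C : ℝ, 0 < C ∧ ∀ N m : ℕ, 1 ≤ N → m ≤ N →
    (m.divisors.card : ℝ) ≤ C * (N : ℝ) ^ δ := by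
  obtain ⟨C, hC0, hC⟩ := Pool.Agent.Lib.MP_30b5ba_nt.exists_divisor_bound hδ
  refine ⟨C, hC0, fun N m hN hm => ?_⟩
  obtain ⟨T, hT, hT'⟩ := hC N hN
  have h := hT m (hm.trans (Nat.le_self_pow two_ne_zero N))
  exact le_trans (by exact_mod_cast h) hT'

/-- A lower bound for one Euler factor. -/
lemma exp_le {x : ℝ} (hx : x ≤ 1 / 2) : Real.exp (-(x + 2 * x ^ 2)) ≤ 1 - x := by
  have h1 : 0 < 1 - x := by linarith
  have h2 : x / (1 - x) ≤ x + 2 * x ^ 2 := by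
    rw [div_le_iff₀ h1]
    nlinarith [mul_nonneg (sq_nonneg x) (show 0 ≤ 1 - 2 * x by linarith)]
  have h3 := Real.add_one_le_exp (x / (1 - x))
  have h4 : x / (1 - x) + 1 = (1 - x)⁻¹ := by field_simp; ring
  rw [Real.exp_neg, inv_le_comm₀ (Real.exp_pos _) h1, ← h4]
  exact h3.trans (Real.exp_le_exp.2 h2)

lemma chi_div (k : Fld) {q : ℕ} (hq : q.Prime) : |(k.chi q : ℝ) / q| ≤ 1 / q := by
  have h : |(k.chi q : ℝ)| ≤ 1 := by exact_mod_cast Psi.chi_le k hq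
  rw [abs_div, Nat.abs_cast]
  gcongr

end Big

open Big

theorem big : WtStmt → CntStmt → BigStmt := by
  intro hW hC k R ε hR hε
  have hδ : 0 < ε / 5 := by positivity
  obtain ⟨C₁, hC₁, h₁⟩ := hW k _ hδ
  obtain ⟨C₂, hC₂, h₂⟩ := hC k _ hδ
  obtain ⟨C₃, hC₃, h₃⟩ := divisor_bound hδ
  have hR0 : 0 < R := by linarith
  refine ⟨C₃ ^ 2 * (C₂ * (2 * R) * (C₁ * R ^ (ε / 5))), by positivity, ?_⟩
  intro P Pr W S z hS hz hp
  obtain ⟨hf₁, hf₂, ha, hu, hOk, -, hWd⟩ := id hS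
  set H : ℕ := P.f₁ * P.f₂ with hH
  have hH1 : 1 ≤ H := Nat.mul_pos hf₁ hf₂
  have hH0 : (0 : ℝ) < H := by exact_mod_cast hH1
  have hg0 : 0 < P.g := Nat.gcd_pos_of_pos_left _ hf₁
  have hgh : P.g * P.h = H := Nat.gcd_mul_lcm _ _
  have hh0 : 0 < P.h := Nat.lcm_pos hf₁ hf₂
  have hgle : P.g ≤ P.h :=
    Nat.le_of_dvd hh0 ((Nat.gcd_dvd_left _ _).trans (Nat.dvd_lcm_left _ _))
  have hgH : P.g ≤ H := hgh ▸ Nat.le_mul_of_pos_right _ hh0
  have hX : R * P.f₁ * P.f₂ = R * H := by rw [hH]; push_cast; ring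
  have hsz : 0 < √z := Real.sqrt_pos.2 hz
  set Y : ℝ := (H : ℝ) ^ (ε / 5) with hY
  have hY0 : 0 < Y := by positivity
  -- facts about a single point
  have hpt : ∀ p ∈ S, P.E₁ Pr p ∣ P.g ∧ P.E₂ k Pr p ∣ P.g ∧
      ∏ q ∈ Pr, P.wt k q p ≤ C₁ * R ^ (ε / 5) * Y ^ 2 * (P.E₁ Pr p * P.E₂ k Pr p) / √z := by
    intro p hpS
    obtain ⟨⟨hU, -, hn0, hnX⟩, hzE⟩ := hp p hpS
    have hd : |P.u| ∣ P.nh k p := by
      rw [abs_dvd]
      exact dvd_add (hWd _ hU) (Dvd.intro_left _ rfl)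
    obtain ⟨m, hm⟩ := hd
    have hua : 0 < |P.u| := abs_pos.2 hu
    have hm0 : 0 < m := by
      rw [hm] at hn0
      exact (pos_iff_pos_of_mul_pos hn0).1 hua
    obtain ⟨n, rfl⟩ := Int.eq_ofNat_of_zero_le hm0.le
    have hn1 : 0 < n := by exact_mod_cast hm0
    obtain ⟨-, -, hE₁, hE₂, hwt, -⟩ := h₁ P Pr p n hOk hf₁ hf₂ hn1 (by rw [hm, mul_comm])
    refine ⟨hE₁, hE₂.trans hE₁, hwt.trans ?_⟩
    have hnR : (n : ℝ) ≤ R * H := by
      rw [hm, hX] at hnX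
      push_cast at hnX
      have hua' : (0 : ℝ) < |(P.u : ℝ)| := by exact_mod_cast hua
      nlinarith
    have hgn : ((P.g * n : ℕ) : ℝ) ^ (ε / 5) ≤ R ^ (ε / 5) * Y ^ 2 := by
      have e : R ^ (ε / 5) * Y ^ 2 = (H * (R * H) : ℝ) ^ (ε / 5) := by
        rw [Real.mul_rpow hH0.le (by positivity), Real.mul_rpow hR0.le hH0.le, ← hY]; ring
      rw [e]
      push_cast
      have : (P.g : ℝ) ≤ H := by exact_mod_cast hgH
      gcongr
    have hs : √(P.E₁ Pr p : ℝ) ≤ P.E₁ Pr p / √z := by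
      rw [le_div_iff₀ hsz]
      calc √(P.E₁ Pr p : ℝ) * √z ≤ √(P.E₁ Pr p : ℝ) * √(P.E₁ Pr p : ℝ) := by gcongr
        _ = _ := Real.mul_self_sqrt (Nat.cast_nonneg _)
    calc _ ≤ C₁ * (R ^ (ε / 5) * Y ^ 2) * (P.E₁ Pr p / √z) * P.E₂ k Pr p := by gcongr
      _ = _ := by ring
  have hXb : R * P.f₁ * P.f₂ / P.g + √(R * P.f₁ * P.f₂) ≤ 2 * R * P.h := by
    have hg' : (0 : ℝ) < P.g := by exact_mod_cast hg0
    have hgh' : (H : ℝ) = P.g * P.h := by exact_mod_cast hgh.symm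
    have hgle' : (P.g : ℝ) ≤ P.h := by exact_mod_cast hgle
    have e1 : R * P.f₁ * P.f₂ / P.g = R * P.h := by rw [hX, hgh']; field_simp
    have e2 : √(R * P.f₁ * P.f₂) ≤ R * P.h := by
      rw [hX, hgh', Real.sqrt_le_left (by positivity)]
      have h5 : R * 1 ≤ R * R := by gcongr
      calc R * (P.g * P.h : ℝ) ≤ R * R * (P.h * P.h) := by
            refine mul_le_mul (by linarith) (by gcongr) (by positivity) (by positivity)
        _ = _ := by ring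
    linarith
  rw [← sum_fiberwise_of_maps_to (s := S) (t := P.g.divisors ×ˢ P.g.divisors)
    (g := fun p => (P.E₁ Pr p, P.E₂ k Pr p)) (fun p hpS => mem_product.2
      ⟨Nat.mem_divisors.2 ⟨(hpt p hpS).1, hg0.ne'⟩, Nat.mem_divisors.2 ⟨(hpt p hpS).2.1, hg0.ne'⟩⟩)]
  have hfib : ∀ e ∈ P.g.divisors ×ˢ P.g.divisors,
      ∑ p ∈ S with (P.E₁ Pr p, P.E₂ k Pr p) = e, ∏ q ∈ Pr, P.wt k q p ≤
        C₂ * (2 * R) * (C₁ * R ^ (ε / 5)) * Y ^ 3 * P.h / √z := by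
    rintro ⟨e₁, e₂⟩ he
    obtain ⟨he₁, he₂⟩ := mem_product.1 he
    have hp₁ : (0 : ℝ) < e₁ := by exact_mod_cast Nat.pos_of_mem_divisors he₁
    have hp₂ : (0 : ℝ) < e₂ := by exact_mod_cast Nat.pos_of_mem_divisors he₂
    have hle₂ : (e₂ : ℝ) ≤ H := by exact_mod_cast (Nat.divisor_le he₂).trans hgH
    have hc := h₂ P Pr W (R * P.f₁ * P.f₂) (S.filter fun p => (P.E₁ Pr p, P.E₂ k Pr p) = (e₁, e₂))
      e₁ e₂ hS (by positivity) (fun p hp' => by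
        obtain ⟨h1, h2⟩ := mem_filter.1 hp'
        exact ⟨(hp p h1).1, (Prod.ext_iff.1 h2).1, (Prod.ext_iff.1 h2).2⟩)
    have hb := sum_le_card_nsmul (S.filter fun p => (P.E₁ Pr p, P.E₂ k Pr p) = (e₁, e₂))
      (fun p => ∏ q ∈ Pr, P.wt k q p) (C₁ * R ^ (ε / 5) * Y ^ 2 * (e₁ * e₂) / √z) (fun p hp' => by
        obtain ⟨h1, h2⟩ := mem_filter.1 hp'
        have h3 := (hpt p h1).2.2
        rwa [show P.E₁ Pr p = e₁ from (Prod.ext_iff.1 h2).1,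
          show P.E₂ k Pr p = e₂ from (Prod.ext_iff.1 h2).2] at h3)
    rw [nsmul_eq_mul] at hb
    have hY₂ : (e₂ : ℝ) ^ (ε / 5) ≤ Y := by rw [hY]; gcongr
    calc _ ≤ _ := hb
      _ ≤ C₂ * Y * (2 * R * P.h) / (e₁ * e₂) * (C₁ * R ^ (ε / 5) * Y ^ 2 * (e₁ * e₂) / √z) := by
          refine mul_le_mul_of_nonneg_right (hc.trans ?_) (by positivity)
          gcongr
      _ = _ := by field_simp
  have hdv := h₃ H P.g hH1 hgH
  rw [← hY] at hdv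
  have hY5 : (H : ℝ) ^ ε = Y ^ 5 := by
    rw [hY, ← Real.rpow_natCast, ← Real.rpow_mul hH0.le]; congr 1; push_cast; ring
  refine (sum_le_card_nsmul _ _ _ hfib).trans ?_
  rw [nsmul_eq_mul, card_product, hY5]
  push_cast
  calc _ ≤ (C₃ * Y) * (C₃ * Y) * (C₂ * (2 * R) * (C₁ * R ^ (ε / 5)) * Y ^ 3 * P.h / √z) := by
        gcongr
    _ = _ := by ring

theorem exp_stmt : CharStmt → ExpStmt := by
  intro hC k κ s hκ hs
  obtain ⟨C₀, h₀⟩ := hC k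
  obtain ⟨C₃, hC₃, h₃⟩ := divisor_bound hs
  have s₁ : Summable fun n : ℕ => (n : ℝ) ^ (-(5 / 4 : ℝ)) := Real.summable_nat_rpow.2 (by norm_num)
  have s₂ : Summable fun n : ℕ => 1 / (n : ℝ) ^ 2 := Real.summable_one_div_nat_pow.2 one_lt_two
  refine ⟨Real.exp (C₀ + 1 + C₃ + κ * ∑' n : ℕ, (n : ℝ) ^ (-(5 / 4 : ℝ)) +
    2 * ∑' n : ℕ, 1 / (n : ℝ) ^ 2), Real.exp_pos _, ?_⟩
  intro f₁ f₂ T l z hf₁ hf₂ hz hzT hl hlf
  have hH1 : 1 ≤ f₁ * f₂ := Nat.mul_pos hf₁ hf₂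
  have hH0 : (0 : ℝ) < (f₁ * f₂ : ℕ) := by exact_mod_cast hH1
  have hz0 : 0 < z := lt_of_lt_of_le (by positivity) hz
  set h := Nat.lcm f₁ f₂ with hh
  have hh0 : 0 < h := Nat.lcm_pos hf₁ hf₂
  have hhd : h ∣ f₁ * f₂ := Nat.lcm_dvd_mul _ _
  have hdvd : ∀ q : ℕ, q.Prime → (q ∣ h ↔ q ∣ f₁ * f₂) := fun q hq =>
    ⟨fun h1 => h1.trans hhd, fun h1 => ((Nat.Prime.dvd_mul hq).1 h1).elim
      (fun h2 => h2.trans (Nat.dvd_lcm_left _ _)) fun h2 => h2.trans (Nat.dvd_lcm_right _ _)⟩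
  set A := (prs T \ {l}).filter (fun q : ℕ => (q : ℝ) ≤ z) with hA
  have hAm : ∀ q, q ∈ A ↔ q.Prime ∧ q ≠ l ∧ (q : ℝ) ≤ z := by
    intro q
    simp only [hA, prs, mem_filter, mem_sdiff, mem_range, mem_singleton]
    refine ⟨fun h1 => ⟨h1.1.1.2, h1.1.2, h1.2⟩, fun h1 => ⟨⟨⟨?_, h1.1⟩, h1.2.1⟩, h1.2.2⟩⟩
    have : (q : ℝ) ≤ T := h1.2.2.trans hzT
    exact Nat.lt_succ_of_le (by exact_mod_cast this)
  -- the Euler product
  have hE : Real.exp (-∑ q ∈ h.primeFactors, ((k.chi q : ℝ) / q + 2 * (1 / (q : ℝ) ^ 2))) ≤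
      ∏ q ∈ h.primeFactors, (1 - (k.chi q : ℝ) / q) := by
    rw [← sum_neg_distrib, Real.exp_sum]
    refine prod_le_prod (fun _ _ => (Real.exp_pos _).le) fun q hq => ?_
    have hq' := Nat.prime_of_mem_primeFactors hq
    have h1 := chi_div k hq'
    have h2 : (2 : ℝ) ≤ q := by exact_mod_cast hq'.two_le
    have h3 : (1 : ℝ) / q ≤ 1 / 2 := by gcongr
    refine le_trans (Real.exp_le_exp.2 ?_) (exp_le ((le_abs_self _).trans (h1.trans h3)))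
    have h4 : ((k.chi q : ℝ) / q) ^ 2 ≤ (1 / q) ^ 2 := by
      rw [← sq_abs]; gcongr
    rw [div_pow 1, one_pow] at h4
    linarith
  -- the sum over the primes up to `z`
  have hA₀ : ∑ q ∈ A, (k.chi q : ℝ) / q ≤ C₀ + 1 := by
    have h1 := h₀ (⌊z⌋₊ + 1)
    have hl' := chi_div k hl
    have hl1 : (1 : ℝ) / l ≤ 1 := by
      have : (1 : ℝ) ≤ l := by exact_mod_cast hl.one_le
      rw [div_le_one (by linarith)]; exact this
    have e : A = ((range (⌊z⌋₊ + 1)).filter Nat.Prime).erase l := by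
      ext q
      rw [hAm, mem_erase, mem_filter, mem_range, Nat.lt_succ_iff, Nat.le_floor_iff hz0.le]
      tauto
    rw [e]
    by_cases hm : l ∈ (range (⌊z⌋₊ + 1)).filter Nat.Prime
    · have h2 := add_sum_erase _ (fun q : ℕ => (k.chi q : ℝ) / q) hm
      have h3 := (abs_le.1 (hl'.trans hl1)).1
      linarith
    · rw [erase_eq_of_notMem hm]; linarith
  have hB : ∑ q ∈ h.primeFactors.filter (fun q : ℕ => ¬ (q : ℝ) ≤ z), (k.chi q : ℝ) / q ≤ C₃ := by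
    have h1 := sum_le_card_nsmul (h.primeFactors.filter fun q : ℕ => ¬ (q : ℝ) ≤ z)
      (fun q : ℕ => (k.chi q : ℝ) / q) (1 / z) (fun q hq => by
        obtain ⟨h1, h2⟩ := mem_filter.1 hq
        have h3 := chi_div k (Nat.prime_of_mem_primeFactors h1)
        have h4 : (1 : ℝ) / q ≤ 1 / z := by
          have := (not_le.1 h2).le
          gcongr
        exact (le_abs_self _).trans (h3.trans h4))
    have h2 : ((h.primeFactors.filter fun q : ℕ => ¬ (q : ℝ) ≤ z).card : ℝ) ≤ h.divisors.card := by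
      exact_mod_cast card_le_card fun q hq => Nat.mem_divisors.2
        ⟨Nat.dvd_of_mem_primeFactors (mem_filter.1 hq).1, hh0.ne'⟩
    have h3 := h₃ (f₁ * f₂) h hH1 (Nat.le_of_dvd hH1 hhd)
    rw [nsmul_eq_mul] at h1
    calc _ ≤ _ := h1
      _ ≤ C₃ * z * (1 / z) := by
          refine mul_le_mul_of_nonneg_right (h2.trans (h3.trans ?_)) (by positivity)
          gcongr
      _ = C₃ := by field_simp
  have hsplit : ∑ q ∈ A, (if q ∣ f₁ * f₂ then 0 else (k.chi q : ℝ) / q) +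
      ∑ q ∈ h.primeFactors.filter (fun q : ℕ => (q : ℝ) ≤ z), (k.chi q : ℝ) / q =
      ∑ q ∈ A, (k.chi q : ℝ) / q := by
    have e : h.primeFactors.filter (fun q : ℕ => (q : ℝ) ≤ z) = A.filter (· ∣ f₁ * f₂) := by
      ext q
      rw [mem_filter, mem_filter, hAm, Nat.mem_primeFactors]
      refine ⟨fun h1 => ⟨⟨h1.1.1, ?_, h1.2⟩, (hdvd q h1.1.1).1 h1.1.2.1⟩,
        fun h1 => ⟨⟨h1.1.1, (hdvd q h1.1.1).2 h1.2, hh0.ne'⟩, h1.1.2.2⟩⟩
      rintro rfl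
      exact hlf ((hdvd q h1.1.1).1 h1.1.2.1)
    rw [e, sum_filter (s := A), ← sum_add_distrib]
    refine sum_congr rfl fun q _ => ?_
    split_ifs <;> simp
  have hs₁ := s₁.sum_le_tsum A fun _ _ => by positivity
  have hs₂ := s₂.sum_le_tsum h.primeFactors fun _ _ => by positivity
  have hP := sum_filter_add_sum_filter_not h.primeFactors (fun q : ℕ => (q : ℝ) ≤ z)
    fun q : ℕ => (k.chi q : ℝ) / q
  have hκ₁ := mul_le_mul_of_nonneg_left hs₁ hκ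
  rw [Fld.psi, mul_comm (h : ℝ), ← mul_assoc]
  refine mul_le_mul_of_nonneg_right ?_ (Nat.cast_nonneg _)
  refine le_trans ?_ (mul_le_mul_of_nonneg_left hE (Real.exp_pos _).le)
  rw [← Real.exp_add, Real.exp_le_exp, sum_add_distrib, sum_add_distrib, ← mul_sum, ← mul_sum]
  linarith

end Pool.Agent.Lib.MP_9177b7_ag.J.Large
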