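import Pool.Agent.Lib.MP_9177b7_ag.J.LargeD

/-!
The counted points lie in a box whose sides are not too short.
-/

noncomputable section

namespace Pool.Agent.Lib.MP_9177b7_ag.J.Large

namespace Box

lemma exmin (Q : ℤ × ℤ → ℤ) (S : ℤ × ℤ → Prop) (hne : ∃ p, S p) (h0 : ∀ p, S p → 0 ≤ Q p) :
    ∃ p, S p ∧ ∀ q, S q → Q p ≤ Q q := by
  obtain ⟨z, ⟨p, hp, rfl⟩, hz⟩ := Int.exists_least_of_bdd (P := fun z => ∃ p, S p ∧ Q p = z)
    ⟨0, by rintro _ ⟨p, hp, rfl⟩; exact h0 p hp⟩ (hne.elim fun p hp => ⟨_, p, hp, rfl⟩)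
  exact ⟨p, hp, fun q hq => hz _ ⟨q, hq, rfl⟩⟩

lemma near {d : ℤ} (hd : d ≠ 0) (α : ℤ) : ∃ m : ℤ, 4 * (α - m * d) ^ 2 ≤ d ^ 2 := by
  have key : ∀ e : ℤ, 0 < e → ∃ m : ℤ, 4 * (α - m * e) ^ 2 ≤ e ^ 2 := by
    intro e he
    have h1 := Int.emod_nonneg (2 * α + e) (b := 2 * e) (by omega)
    have h2 := Int.emod_lt_of_pos (2 * α + e) (b := 2 * e) (by omega)
    have h3 := Int.emod_add_mul_ediv (2 * α + e) (2 * e)
    refine ⟨(2 * α + e) / (2 * e), ?_⟩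
    have h4 : 2 * (α - (2 * α + e) / (2 * e) * e) = (2 * α + e) % (2 * e) - e := by
      linear_combination -h3
    have h5 : 4 * (α - (2 * α + e) / (2 * e) * e) ^ 2 = ((2 * α + e) % (2 * e) - e) ^ 2 := by
      rw [← h4]; ring
    rw [h5]
    nlinarith
  rcases lt_or_gt_of_ne hd with h | h
  · obtain ⟨m, hm⟩ := key (-d) (by omega)
    exact ⟨-m, by nlinarith⟩
  · exact key d h

/-- A reduced basis of a group of finite index. -/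
lemma red (Q : ℤ × ℤ → ℤ) (a b c : ℤ) (hQ : ∀ p, Q p = a * p.1 ^ 2 + b * p.1 * p.2 + c * p.2 ^ 2)
    (pos : ∀ p, p ≠ 0 → 0 < Q p) (L : Submodule ℤ (ℤ × ℤ)) {κ : ℤ} (hκ : κ ≠ 0)
    (hL : ∀ x, κ • x ∈ L) :
    ∃ γ : (ℤ × ℤ) × (ℤ × ℤ), γ.1 ∈ L ∧ γ.2 ∈ L ∧ dt γ ≠ 0 ∧ ∀ p ∈ L, ∃ u : ℤ × ℤ, p = app γ u ∧
      u.1 ^ 2 * Q γ.1 ≤ 2 * Q p ∧ u.2 ^ 2 * Q γ.2 ≤ 2 * Q p := by
  obtain ⟨v, ⟨hv, v0⟩, mv⟩ := exmin Q (fun p => p ∈ L ∧ p ≠ 0)
    ⟨κ • ((1, 0) : ℤ × ℤ), hL _, by simp [hκ]⟩ fun p hp => (pos p hp.2).le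
  have nz : ∀ p : ℤ × ℤ, v.1 * p.2 - v.2 * p.1 ≠ 0 → p ≠ 0 := by
    rintro p hp rfl; simp at hp
  obtain ⟨w, ⟨hw, d0⟩, mw⟩ := exmin Q (fun p => p ∈ L ∧ v.1 * p.2 - v.2 * p.1 ≠ 0)
    ⟨κ • ((-v.2, v.1) : ℤ × ℤ), hL _, by
      have h : v.1 ^ 2 + v.2 ^ 2 ≠ 0 := by
        intro h
        apply v0
        have h1 : v.1 = 0 := by nlinarith [sq_nonneg v.1, sq_nonneg v.2]
        have h2 : v.2 = 0 := by nlinarith [sq_nonneg v.1, sq_nonneg v.2]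
        exact Prod.ext h1 h2
      have e : v.1 * (κ • ((-v.2, v.1) : ℤ × ℤ)).2 - v.2 * (κ • ((-v.2, v.1) : ℤ × ℤ)).1
          = κ * (v.1 ^ 2 + v.2 ^ 2) := by simp; ring
      rw [e]; exact mul_ne_zero hκ h⟩ fun p hp => (pos p (nz p hp.2)).le
  obtain ⟨B, hB⟩ : ∃ B : ℤ, B = 2 * a * v.1 * w.1 + b * (v.1 * w.2 + v.2 * w.1) + 2 * c * v.2 * w.2 :=
    ⟨_, rfl⟩
  have hvw : Q v ≤ Q w := mv w ⟨hw, nz w d0⟩
  have Qv := pos v v0
  have B1 : -Q v ≤ B := by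
    have h := mw (w + v) ⟨L.add_mem hw hv, by
      have e : v.1 * (w + v).2 - v.2 * (w + v).1 = v.1 * w.2 - v.2 * w.1 := by simp; ring
      rw [e]; exact d0⟩
    have e : Q (w + v) = Q w + Q v + B := by
      simp only [hQ, hB, Prod.fst_add, Prod.snd_add]; ring
    linarith
  have B2 : B ≤ Q v := by
    have h := mw (w - v) ⟨L.sub_mem hw hv, by
      have e : v.1 * (w - v).2 - v.2 * (w - v).1 = v.1 * w.2 - v.2 * w.1 := by simp; ring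
      rw [e]; exact d0⟩
    have e : Q (w - v) = Q w + Q v - B := by
      simp only [hQ, hB, Prod.fst_sub, Prod.snd_sub]; ring
    linarith
  have cross : ∀ x y : ℤ, 2 * |x * y * B| ≤ x ^ 2 * Q v + y ^ 2 * Q w := by
    intro x y
    have h1 : |B| ≤ Q v := abs_le.mpr ⟨B1, B2⟩
    have h2 : 2 * (|x| * |y|) ≤ x ^ 2 + y ^ 2 := by
      nlinarith [sq_nonneg (|x| - |y|), sq_abs x, sq_abs y]
    rw [abs_mul, abs_mul]
    have h3 := mul_le_mul h2 h1 (abs_nonneg _) (by positivity)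
    have h4 := mul_le_mul_of_nonneg_left hvw (sq_nonneg y)
    linarith
  refine ⟨(v, w), hv, hw, d0, fun p hp => ?_⟩
  obtain ⟨d, hd⟩ : ∃ d : ℤ, d = v.1 * w.2 - v.2 * w.1 := ⟨_, rfl⟩
  rw [← hd] at d0
  obtain ⟨m, hm⟩ := near d0 (p.1 * w.2 - p.2 * w.1)
  obtain ⟨n, hn⟩ := near d0 (v.1 * p.2 - v.2 * p.1)
  obtain ⟨r, hr⟩ : ∃ r : ℤ × ℤ, r = p - m • v - n • w := ⟨_, rfl⟩
  have rL : r ∈ L := hr ▸ L.sub_mem (L.sub_mem hp (L.smul_mem _ hv)) (L.smul_mem _ hw)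
  have r1 : r.1 = p.1 - m * v.1 - n * w.1 := by rw [hr]; simp
  have r2 : r.2 = p.2 - m * v.2 - n * w.2 := by rw [hr]; simp
  obtain ⟨x, hx⟩ : ∃ x : ℤ, x = p.1 * w.2 - p.2 * w.1 - m * d := ⟨_, rfl⟩
  obtain ⟨y, hy⟩ : ∃ y : ℤ, y = v.1 * p.2 - v.2 * p.1 - n * d := ⟨_, rfl⟩
  rw [← hx] at hm
  rw [← hy] at hn
  have e1 : d * r.1 = x * v.1 + y * w.1 := by rw [r1, hx, hy, hd]; ring
  have e2 : d * r.2 = x * v.2 + y * w.2 := by rw [r2, hx, hy, hd]; ring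
  have e3 : d ^ 2 * Q r = x ^ 2 * Q v + x * y * B + y ^ 2 * Q w := by
    have e : d ^ 2 * Q r = a * (d * r.1) ^ 2 + b * (d * r.1) * (d * r.2) + c * (d * r.2) ^ 2 := by
      rw [hQ]; ring
    rw [e, e1, e2, hQ v, hQ w, hB]; ring
  have e4 : v.1 * r.2 - v.2 * r.1 = y := by rw [r1, r2, hy, hd]; ring
  have d2 : 0 < d ^ 2 := by positivity
  have y0 : y = 0 := by
    by_contra y0
    have h1 := mw r ⟨rL, by rw [e4]; exact y0⟩
    have h2 := mul_le_mul_of_nonneg_left h1 d2.le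
    have h3 := cross x y
    have h4 := le_abs_self (x * y * B)
    have h5 := mul_le_mul_of_nonneg_right hm Qv.le
    have h6 := mul_le_mul_of_nonneg_right hn (Qv.le.trans hvw)
    have h7 := mul_le_mul_of_nonneg_left hvw d2.le
    have h8 := mul_pos d2 (Qv.trans_le hvw)
    linarith
  have r0 : r = 0 := by
    by_contra r0
    have h1 := mv r ⟨rL, r0⟩
    have h2 := mul_le_mul_of_nonneg_left h1 d2.le
    have h5 := mul_le_mul_of_nonneg_right hm Qv.le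
    have h8 := mul_pos d2 Qv
    rw [y0] at e3
    linarith
  rw [r0] at r1 r2
  have p1 : p.1 = m * v.1 + n * w.1 := by simp only [Prod.fst_zero] at r1; linarith
  have p2 : p.2 = m * v.2 + n * w.2 := by simp only [Prod.snd_zero] at r2; linarith
  have e5 : Q p = m ^ 2 * Q v + m * n * B + n ^ 2 * Q w := by
    rw [hQ p, p1, p2, hQ v, hQ w, hB]; ring
  have h3 := cross m n
  have h4 := neg_abs_le (m * n * B)
  have h5 : 0 ≤ m ^ 2 * Q v := by positivity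
  have h6 : 0 ≤ n ^ 2 * Q w := mul_nonneg (sq_nonneg _) (Qv.le.trans hvw)
  exact ⟨(m, n), Prod.ext p1 p2, by show m ^ 2 * Q v ≤ _; linarith,
    by show n ^ 2 * Q w ≤ _; linarith⟩

lemma side {s y : ℝ} (hy : 1 ≤ y) : ∃ (b : ℤ) (A : ℕ), y ≤ A ∧ (A : ℝ) ≤ 5 * max s y ∧
    ∀ x : ℤ, |(x : ℝ)| ≤ s → x ∈ Finset.Ico b (b + A) := by
  have h1 := Nat.le_ceil (max s y)
  have h0 : y ≤ max s y := le_max_right _ _
  have h2 := Nat.ceil_lt_add_one (a := max s y) (by linarith)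
  refine ⟨-(⌈max s y⌉₊ : ℤ), 2 * ⌈max s y⌉₊ + 1, by push_cast; linarith, by push_cast; linarith,
    fun x hx => ?_⟩
  have h3 : |(x : ℝ)| ≤ (⌈max s y⌉₊ : ℝ) := hx.trans ((le_max_left _ _).trans h1)
  have h4 : |x| ≤ (⌈max s y⌉₊ : ℤ) := by exact_mod_cast h3
  rw [abs_le] at h4
  rw [Finset.mem_Ico]
  push_cast
  omega

lemma ys {R h g u y q : ℝ} (hR : 1 ≤ R) (hh : 0 < h) (hg : 0 < g) (hq : 0 < q) (hy : 0 ≤ y)
    (H : y ^ 2 * u * g ^ 2 ≤ q * (g * h)) : √(2 * (R * (g * h) * u) / q) * y ≤ 4 * R * h := by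
  rcases le_total (2 * (R * (g * h) * u) / q) 0 with h0 | h0
  · rw [Real.sqrt_eq_zero_of_nonpos h0]; rw [zero_mul]; positivity
  apply le_of_sq_le_sq _ (by positivity)
  rw [mul_pow, Real.sq_sqrt h0, div_mul_eq_mul_div, div_le_iff₀ hq]
  apply le_of_mul_le_mul_right _ hg
  have h1 := mul_le_mul_of_nonneg_left H (by positivity : 0 ≤ 2 * R * h)
  have h2 : 0 < R * h ^ 2 * q * g := by positivity
  nlinarith

end Box

open Box in
theorem box_stmt : BoxStmt := by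
  intro k R hR
  refine ⟨100 * R, by linarith, fun P W κ y f1 f2 a0 u0 hκ hW cop hκW hy hyh hmin => ?_⟩
  have g0 : 0 < P.g := Nat.gcd_pos_of_pos_left _ f1
  have g0' : (0 : ℤ) < P.g := by exact_mod_cast g0
  have gh : P.g * P.h = P.f₁ * P.f₂ := Nat.gcd_mul_lcm _ _
  have h0 : 0 < P.h := Nat.lcm_pos f1 f2
  let T : (ℤ × ℤ) →ₗ[ℤ] (ℤ × ℤ) :=
    { toFun := P.U
      map_add' := fun p q => by simp [Par.U, mul_add]
      map_smul' := fun c p => by simp [Par.U]; ring }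
  have U0 : ∀ p : ℤ × ℤ, p ≠ 0 → P.U p ≠ 0 := by
    intro p hp h
    simp only [Par.U, Prod.mk_eq_zero, mul_eq_zero] at h
    exact hp (Prod.ext h.1 (h.2.resolve_left g0'.ne'))
  obtain ⟨γ, m1, m2, d0, hγ⟩ := red (fun p => nm k (P.U p)) 1 (k.t * P.g) (k.n * P.g ^ 2)
    (fun p => by simp only [nm, Par.U]; ring) (fun p hp => nm_pos k (U0 p hp)) (W.comap T) hκ
    (fun x => by rw [Submodule.mem_comap, map_smul]; exact hκW _)
  have m1' : P.U γ.1 ∈ W := m1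
  have m2' : P.U γ.2 ∈ W := m2
  have n1 : γ.1 ≠ 0 := by intro h; apply d0; simp [dt, h]
  have n2 : γ.2 ≠ 0 := by intro h; apply d0; simp [dt, h]
  have q1 := nm_pos k (U0 _ n1)
  have q2 := nm_pos k (U0 _ n2)
  have emc : (mc k (P.U γ.2) (P.U γ.1)).2 = P.g * dt γ := by simp only [mc, Par.U, dt]; ring
  have hud : P.u ≤ P.a * |dt γ| := by
    have h1 := (dvd_mc k u0.ne' hW m2' m1').2
    rw [emc, mul_left_comm] at h1
    have h2 := cop.dvd_of_dvd_mul_left h1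
    have h3 := Int.le_of_dvd (abs_pos.mpr (mul_ne_zero a0.ne' d0)) ((dvd_abs _ _).mpr h2)
    rwa [abs_mul, abs_of_pos a0] at h3
  have hqq : (P.g * dt γ) ^ 2 ≤ 4 * (nm k (P.U γ.2) * nm k (P.U γ.1)) := by
    have h1 := four_nm k (mc k (P.U γ.2) (P.U γ.1))
    rw [nm_mc, emc] at h1
    have h2 := D_neg k
    nlinarith [sq_nonneg (P.g * dt γ), sq_nonneg (2 * (mc k (P.U γ.2) (P.U γ.1)).1
      + k.t * (P.g * dt γ))]
  have hkey : (P.g * P.u) ^ 2 ≤ 4 * ((P.a * nm k (P.U γ.1)) * (P.a * nm k (P.U γ.2))) := by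
    have h1 : P.u ^ 2 ≤ (P.a * |dt γ|) ^ 2 := pow_le_pow_left₀ u0.le hud 2
    rw [mul_pow, sq_abs] at h1
    have h2 := mul_le_mul_of_nonneg_left h1 (sq_nonneg (P.g : ℤ))
    have h3 := mul_le_mul_of_nonneg_left hqq (sq_nonneg P.a)
    nlinarith
  have Q1 : (0 : ℝ) < ((P.a * nm k (P.U γ.1) : ℤ) : ℝ) := by exact_mod_cast mul_pos a0 q1
  have Q2 : (0 : ℝ) < ((P.a * nm k (P.U γ.2) : ℤ) : ℝ) := by exact_mod_cast mul_pos a0 q2
  have ghR : (P.f₁ : ℝ) * P.f₂ = P.g * P.h := by exact_mod_cast gh.symm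
  have gR : (0 : ℝ) < P.g := by exact_mod_cast g0
  have hR' : (0 : ℝ) < P.h := by exact_mod_cast h0
  have uR : (0 : ℝ) < P.u := by exact_mod_cast u0
  have H1 := hmin _ n1 m1'
  have H2 := hmin _ n2 m2'
  rw [mul_assoc _ (P.f₁ : ℝ), ghR] at H1 H2
  have Y1 := ys hR hR' gR Q1 (by linarith) H1
  have Y2 := ys hR hR' gR Q2 (by linarith) H2
  have hkeyR : ((P.g : ℝ) * P.u) ^ 2 ≤
      4 * (((P.a * nm k (P.U γ.1) : ℤ) : ℝ) * ((P.a * nm k (P.U γ.2) : ℤ) : ℝ)) := by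
    exact_mod_cast hkey
  have X0 : (0 : ℝ) < 2 * (R * (P.g * P.h) * P.u) := by positivity
  have Y3 : √(2 * (R * (P.g * P.h) * P.u) / ((P.a * nm k (P.U γ.1) : ℤ) : ℝ)) *
      √(2 * (R * (P.g * P.h) * P.u) / ((P.a * nm k (P.U γ.2) : ℤ) : ℝ)) ≤ 4 * R * P.h := by
    apply le_of_sq_le_sq _ (by positivity)
    rw [mul_pow, Real.sq_sqrt (by positivity), Real.sq_sqrt (by positivity), div_mul_div_comm,
      div_le_iff₀ (by positivity)]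
    have h1 := mul_le_mul_of_nonneg_left hkeyR (by positivity : 0 ≤ 4 * (R * P.h) ^ 2)
    nlinarith
  obtain ⟨b1, A, hA1, hA2, hA3⟩ := side
    (s := √(2 * (R * (P.g * P.h) * P.u) / ((P.a * nm k (P.U γ.1) : ℤ) : ℝ))) hy
  obtain ⟨b2, B, hB1, hB2, hB3⟩ := side
    (s := √(2 * (R * (P.g * P.h) * P.u) / ((P.a * nm k (P.U γ.2) : ℤ) : ℝ))) hy
  refine ⟨γ, (b1, b2), A, B, ?_, hA1, hB1, ?_, fun p hp hX => ?_⟩
  · obtain ⟨u, e, -⟩ := hγ (κ • ((1, 0) : ℤ × ℤ))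
      (by rw [Submodule.mem_comap, map_smul]; exact hκW _)
    obtain ⟨v, e', -⟩ := hγ (κ • ((0, 1) : ℤ × ℤ))
      (by rw [Submodule.mem_comap, map_smul]; exact hκW _)
    simp only [app, Prod.smul_mk, smul_eq_mul, mul_one, mul_zero, Prod.mk.injEq] at e e'
    refine ⟨u.1 * v.2 - u.2 * v.1, ?_⟩
    have : κ ^ 2 = κ * κ - 0 * 0 := by ring
    rw [this]
    nth_rewrite 1 [e.1]
    nth_rewrite 1 [e'.2]
    nth_rewrite 1 [e.2]
    nth_rewrite 1 [e'.1]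
    simp only [dt]; ring
  · have h1 := mul_le_mul hA2 hB2 (Nat.cast_nonneg _) ((Nat.cast_nonneg _).trans hA2)
    have h2 : y * y ≤ 4 * R * P.h := by nlinarith
    refine h1.trans ?_
    rcases le_total (√(2 * (R * (P.g * P.h) * P.u) / ((P.a * nm k (P.U γ.1) : ℤ) : ℝ))) y
      with c1 | c1 <;>
    rcases le_total (√(2 * (R * (P.g * P.h) * P.u) / ((P.a * nm k (P.U γ.2) : ℤ) : ℝ))) y
      with c2 | c2 <;>
    simp only [max_eq_right, max_eq_left, c1, c2] <;> linarith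
  · obtain ⟨u, e, b1', b2'⟩ := hγ p hp
    rw [mul_assoc R, ghR] at hX
    refine ⟨u, Finset.mem_product.mpr ⟨hA3 _ ?_, hB3 _ ?_⟩, e⟩
    · apply Real.abs_le_sqrt
      rw [le_div_iff₀ Q1]
      have h1 : u.1 ^ 2 * (P.a * nm k (P.U γ.1)) ≤ 2 * (P.a * nm k (P.U p)) := by
        nlinarith [mul_le_mul_of_nonneg_left b1' a0.le]
      have h2 : (u.1 : ℝ) ^ 2 * ((P.a * nm k (P.U γ.1) : ℤ) : ℝ)
          ≤ 2 * ((P.a * nm k (P.U p) : ℤ) : ℝ) := by exact_mod_cast h1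
      linarith
    · apply Real.abs_le_sqrt
      rw [le_div_iff₀ Q2]
      have h1 : u.2 ^ 2 * (P.a * nm k (P.U γ.2)) ≤ 2 * (P.a * nm k (P.U p)) := by
        nlinarith [mul_le_mul_of_nonneg_left b2' a0.le]
      have h2 : (u.2 : ℝ) ^ 2 * ((P.a * nm k (P.U γ.2) : ℤ) : ℝ)
          ≤ 2 * ((P.a * nm k (P.U p) : ℤ) : ℝ) := by exact_mod_cast h1
      linarith

end Pool.Agent.Lib.MP_9177b7_ag.J.Large
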