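import Pool.Agent.Lib.MP_9177b7_ag.J.LargeD

/-!
Counting points of bounded norm with given contents.
-/

noncomputable section

namespace Pool.Agent.Lib.MP_9177b7_ag.J.Large

open Finset

namespace Cnt

lemma dv {a b c : ℤ} (h : a ∣ b) (e : c = b) : a ∣ c := e ▸ h

lemma card_int (T : Finset ℤ) {L : ℝ} (hL : 0 ≤ L) (h : ∀ z ∈ T, |(z : ℝ)| ≤ L) :
    (T.card : ℝ) ≤ 2 * L + 1 := by
  have h1 : T ⊆ Finset.Icc (-(⌊L⌋₊ : ℤ)) ⌊L⌋₊ := by
    intro z hz
    have h2 : z.natAbs ≤ ⌊L⌋₊ := Nat.le_floor (by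
      rw [Nat.cast_natAbs, Int.cast_abs]; exact h z hz)
    rw [Finset.mem_Icc]; omega
  have h3 := Finset.card_le_card h1
  rw [Int.card_Icc] at h3
  have h4 : T.card ≤ 2 * ⌊L⌋₊ + 1 := by omega
  have h5 : (T.card : ℝ) ≤ 2 * ⌊L⌋₊ + 1 := by exact_mod_cast h4
  have := Nat.floor_le hL
  linarith

lemma card_sep {α : Type*} (S : Finset α) (f : α → ℝ) {L m : ℝ} (hL : 0 ≤ L) (hm : 0 < m)
    (h : ∀ x ∈ S, |f x| ≤ L) (hs : ∀ x ∈ S, ∀ y ∈ S, x ≠ y → m ≤ |f x - f y|) :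
    (S.card : ℝ) ≤ 2 * (L / m) + 3 := by
  classical
  have hinj : Set.InjOn (fun x => ⌊f x / m⌋) S := by
    intro x hx y hy hxy
    by_contra hne
    have h1 := Int.abs_sub_lt_one_of_floor_eq_floor hxy
    rw [← sub_div, abs_div, abs_of_pos hm, div_lt_one hm] at h1
    exact absurd (hs x hx y hy hne) (not_le.2 h1)
  rw [← Finset.card_image_of_injOn hinj]
  have := card_int (S.image fun x => ⌊f x / m⌋) (L := L / m + 1) (by positivity) (by
    intro z hz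
    obtain ⟨x, hx, rfl⟩ := Finset.mem_image.1 hz
    have h1 : |f x / m| ≤ L / m := by
      rw [abs_div, abs_of_pos hm]; exact div_le_div_of_nonneg_right (h x hx) hm.le
    have h2 := Int.floor_le (f x / m)
    have h3 := Int.lt_floor_add_one (f x / m)
    rw [abs_le] at h1 ⊢
    constructor <;> linarith [h1.1, h1.2])
  linarith

lemma card_fib {α β : Type*} [DecidableEq β] (S : Finset α) (f : α → β) (T : Finset β) {B : ℝ}
    (hT : ∀ x ∈ S, f x ∈ T) (hB : ∀ z ∈ T, ((S.filter fun x => f x = z).card : ℝ) ≤ B) :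
    (S.card : ℝ) ≤ T.card * B := by
  rw [Finset.card_eq_sum_card_fiberwise (f := f) (t := T) hT, Nat.cast_sum]
  calc _ ≤ ∑ _z ∈ T, B := Finset.sum_le_sum hB
    _ = _ := by rw [Finset.sum_const, nsmul_eq_mul]

lemma D_le (k : Fld) : (1 : ℝ) ≤ -(k.D : ℝ) := by
  have := D_neg k
  have h : (1 : ℤ) ≤ -k.D := by omega
  exact_mod_cast h

lemma key (k : Fld) (y x : ℤ × ℤ) : 4 * ((nm k y : ℝ) * nm k x) =
    ((2 * (mc k y x).1 + k.t * (mc k y x).2 : ℤ) : ℝ) ^ 2 - k.D * ((mc k y x).2 : ℝ) ^ 2 := by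
  have h := four_nm k (mc k y x)
  rw [nm_mc] at h
  exact_mod_cast h

/-- Points on a line whose mutual distances are bounded below. -/
lemma line (k : Fld) {x : ℤ × ℤ} (hx : x ≠ 0) (S : Finset (ℤ × ℤ)) {Y μ : ℝ} (hY0 : 0 ≤ Y)
    (hμ : 0 < μ) (hY : ∀ y ∈ S, (nm k y : ℝ) ≤ Y)
    (hd : ∀ y ∈ S, ∀ y' ∈ S, (mc k y x).2 = (mc k y' x).2)
    (hs : ∀ y ∈ S, ∀ y' ∈ S, y ≠ y' → μ ≤ nm k (y - y')) :
    (S.card : ℝ) ≤ 2 * √(Y / μ) + 3 := by
  have hm : (0 : ℝ) < nm k x := by exact_mod_cast nm_pos k hx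
  have hD := D_le k
  have h := card_sep S (fun y => ((2 * (mc k y x).1 + k.t * (mc k y x).2 : ℤ) : ℝ))
    (L := √(4 * (Y * nm k x))) (m := √(4 * (μ * nm k x))) (Real.sqrt_nonneg _)
    (Real.sqrt_pos.2 (by positivity)) (fun y hy => by
      apply Real.abs_le_sqrt
      have h1 := key k y x
      have h2 := mul_le_mul_of_nonneg_right (hY y hy) hm.le
      nlinarith [sq_nonneg ((mc k y x).2 : ℝ)]) (fun y hy y' hy' hne => by
      have h1 := key k (y - y') x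
      have h2 : (mc k (y - y') x).2 = 0 := by
        have := hd y hy y' hy'
        simp only [mc, Prod.fst_sub, Prod.snd_sub] at this ⊢
        linear_combination this
      have h3 : ((2 * (mc k (y - y') x).1 + k.t * (mc k (y - y') x).2 : ℤ) : ℝ) =
          ((2 * (mc k y x).1 + k.t * (mc k y x).2 : ℤ) : ℝ) -
            ((2 * (mc k y' x).1 + k.t * (mc k y' x).2 : ℤ) : ℝ) := by
        simp only [mc, Prod.fst_sub, Prod.snd_sub]; push_cast; ring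
      rw [h3, h2] at h1
      rw [← Real.sqrt_sq_eq_abs]
      apply Real.sqrt_le_sqrt
      have h4 := mul_le_mul_of_nonneg_right (hs y hy y' hy' hne) hm.le
      simp only [Int.cast_zero] at h1
      nlinarith)
  rw [← Real.sqrt_div (by positivity)] at h
  have e : 4 * (Y * nm k x) / (4 * (μ * nm k x)) = Y / μ := by field_simp
  rwa [e] at h

lemma two_pow_omega {ε : ℝ} (hε : 0 < ε) : ∃ C : ℝ, 0 < C ∧ ∀ n : ℕ, n ≠ 0 →
    (2 : ℝ) ^ n.primeFactors.card ≤ C * (n : ℝ) ^ ε := by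
  classical
  set K : ℕ := ⌈(2 : ℝ) ^ (1 / ε)⌉₊ with hK
  refine ⟨2 ^ K, by positivity, fun n hn => ?_⟩
  have h1 : (2 : ℝ) ^ n.primeFactors.card ≤
      ∏ q ∈ n.primeFactors, ((if q < K then (2 : ℝ) else 1) * (q : ℝ) ^ ε) := by
    rw [← Finset.prod_const]
    refine Finset.prod_le_prod (fun _ _ => by norm_num) fun q hq => ?_
    have hq1 : (1 : ℝ) ≤ q := by exact_mod_cast (Nat.prime_of_mem_primeFactors hq).one_le
    split_ifs with h
    · have := Real.one_le_rpow hq1 hε.le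
      linarith
    · have h2 : (2 : ℝ) ^ (1 / ε) ≤ q :=
        (Nat.le_ceil _).trans (by exact_mod_cast not_lt.1 h)
      have h3 := Real.rpow_le_rpow (by positivity) h2 hε.le
      rw [← Real.rpow_mul (by norm_num), one_div_mul_cancel hε.ne', Real.rpow_one] at h3
      linarith
  rw [Finset.prod_mul_distrib, Real.finset_prod_rpow _ _ (fun _ _ => by positivity)] at h1
  refine h1.trans (mul_le_mul ?_ ?_ (by positivity) (by positivity))
  · rw [Finset.prod_ite, Finset.prod_const_one, mul_one, Finset.prod_const]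
    refine pow_le_pow_right₀ (by norm_num) ?_
    calc _ ≤ (Finset.range K).card := Finset.card_le_card fun q hq =>
          Finset.mem_range.2 (Finset.mem_filter.1 hq).2
      _ = K := Finset.card_range K
  · refine Real.rpow_le_rpow (by positivity) ?_ hε.le
    have := Nat.le_of_dvd (Nat.pos_of_ne_zero hn) (Nat.prod_primeFactors_dvd n)
    rw [← Nat.cast_prod]
    exact_mod_cast this

lemma exp_eq {Pr : Finset ℕ} (hPr : ∀ q ∈ Pr, q.Prime) (f : ℕ → ℕ) {q : ℕ} (hq : q ∈ Pr) :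
    (∏ s ∈ Pr, s ^ f s).factorization q = f q := by
  classical
  rw [Nat.factorization_prod fun s hs => pow_ne_zero _ (hPr s hs).ne_zero, Finsupp.finset_sum_apply,
    Finset.sum_eq_single q]
  · rw [(hPr q hq).factorization_pow, Finsupp.single_eq_same]
  · intro s hs hne
    rw [(hPr s hs).factorization_pow, Finsupp.single_eq_of_ne hne.symm]
  · exact fun h => absurd hq h

lemma prod_dvd {Pr : Finset ℕ} (hPr : ∀ q ∈ Pr, q.Prime) (f : ℕ → ℕ) {N : ℤ}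
    (h : ∀ q ∈ Pr, (q : ℤ) ^ f q ∣ N) : ((∏ q ∈ Pr, q ^ f q : ℕ) : ℤ) ∣ N := by
  push_cast
  refine Finset.prod_dvd_of_coprime (fun s hs s' hs' hne => ?_) h
  exact IsCoprime.pow (Nat.isCoprime_iff_coprime.2
    ((Nat.coprime_primes (hPr s hs) (hPr s' hs')).2 hne))

lemma sign {q : ℤ} (hq : Prime q) {a F D c c' : ℤ} {j : ℕ} (ha : ¬ q ∣ a) (hF : ¬ q ∣ F)
    (h : q ^ j ∣ D * (F - a * c ^ 2)) (h' : q ^ j ∣ D * (F - a * c' ^ 2)) :
    q ^ j ∣ 2 * D * (c - c') ∨ q ^ j ∣ 2 * D * (c + c') := by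
  have cop : ∀ {x y : ℤ}, ¬ q ∣ x → q ^ j ∣ y * x → q ^ j ∣ y := fun hx hy =>
    (IsCoprime.pow_left (hq.coprime_iff_not_dvd.2 hx)).dvd_of_dvd_mul_right hy
  by_cases hc : q ∣ c
  · left
    have h1 : ¬ q ∣ F - a * c ^ 2 := fun h1 => hF (by
      have := dvd_add h1 (Dvd.dvd.mul_left (dvd_pow hc two_ne_zero) a)
      simpa using this)
    exact Dvd.dvd.mul_right (Dvd.dvd.mul_left (cop h1 h) 2) _
  have h2 : q ^ j ∣ D * (c - c') * (c + c') := by
    apply cop ha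
    exact dv (dvd_sub h' h) (by ring)
  by_cases h3 : q ∣ c + c'
  swap
  · left
    exact dv (Dvd.dvd.mul_left (cop h3 h2) 2) (by ring)
  by_cases h4 : q ∣ c - c'
  swap
  · right
    exact dv (Dvd.dvd.mul_left (cop (y := D * (c + c')) h4 (dv h2 (by ring))) 2) (by ring)
  have h5 : q ∣ 2 := by
    have := dvd_add h3 h4
    rw [show c + c' + (c - c') = 2 * c by ring] at this
    exact (hq.dvd_or_dvd this).resolve_right hc
  obtain ⟨s, hs⟩ := h5
  obtain ⟨α, hα⟩ := h3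
  obtain ⟨β, hβ⟩ := h4
  have hq0 := hq.ne_zero
  have h6 : α + β = s * c := by
    apply mul_left_cancel₀ hq0
    linear_combination -hα - hβ + c * hs
  have hs' : ¬ q ∣ s := by
    rintro ⟨w, rfl⟩
    have h7 : q * q ∣ 2 := ⟨w, by rw [hs]; ring⟩
    have h8 := Int.le_of_dvd (by norm_num) h7
    have h9 : q.natAbs ≠ 1 := fun h9 => hq.not_unit (Int.isUnit_iff_natAbs_eq.2 h9)
    have h10 : 2 ≤ |q| := by rw [Int.abs_eq_natAbs]; omega
    nlinarith [sq_abs q, abs_nonneg q]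
  by_cases h7 : q ∣ α
  · have h8 : ¬ q ∣ β := fun h8 => by
      have := dvd_add h7 h8
      rw [h6] at this
      exact (hq.dvd_or_dvd this).elim hs' hc
    right
    have h9 : q ^ j ∣ D * q * (c + c') := cop h8 (dv h2 (by rw [hβ]; ring))
    exact dv (Dvd.dvd.mul_left h9 s) (by rw [hs]; ring)
  · left
    have h9 : q ^ j ∣ D * q * (c - c') := cop h7 (dv h2 (by rw [hα]; ring))
    exact dv (Dvd.dvd.mul_left h9 s) (by rw [hs]; ring)

lemma loc (k : Fld) (P : Par) (q : ℕ) (p : ℤ × ℤ) :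
    ((q : ℤ) ^ P.ci q p ∣ p.1 ∧ (q : ℤ) ^ P.ci q p ∣ P.f₁ ∧ (q : ℤ) ^ P.ci q p ∣ P.f₂ ∧
      (q : ℤ) ^ P.ci q p ∣ P.g) ∧
    (P.cj k q p ≠ 0 → P.r₁ q = P.r₂ q ∧ P.ci q p = P.r₁ q ∧ P.J2 k q p (P.cj k q p)) := by
  classical
  by_cases h : P.r₁ q = P.r₂ q
  · have h1 : P.ci q p ≤ P.r₁ q := by
      unfold Par.ci; rw [if_pos h]; exact Nat.findGreatest_le _
    have h2 : q ^ P.ci q p ∣ P.f₁ := (pow_dvd_pow q h1).trans pow_padicValNat_dvd
    have h3 : q ^ P.ci q p ∣ P.f₂ := (pow_dvd_pow q (h1.trans_eq h)).trans pow_padicValNat_dvd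
    refine ⟨⟨?_, by exact_mod_cast h2, by exact_mod_cast h3,
      by exact_mod_cast Nat.dvd_gcd h2 h3⟩, fun hj => ?_⟩
    · unfold Par.ci; rw [if_pos h]
      exact Nat.findGreatest_spec (P := fun j => (q : ℤ) ^ j ∣ p.1) (Nat.zero_le _) (by simp)
    · have h4 : P.J2 k q p (P.cj k q p) := by
        unfold Par.cj at hj ⊢
        rw [if_pos h] at hj ⊢
        exact Nat.findGreatest_of_ne_zero rfl hj
      refine ⟨h, ?_, h4⟩
      obtain ⟨⟨c, hc, -⟩, -⟩ := h4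
      unfold Par.ci; rw [if_pos h]
      refine Nat.findGreatest_eq ?_
      have h5 := (pow_dvd_pow (q : ℤ) (Nat.le_add_right _ _)).trans hc
      exact (dvd_add_left (Dvd.intro_left _ rfl)).1 h5
  · have h1 : P.ci q p = 0 := by unfold Par.ci; rw [if_neg h]
    have h2 : P.cj k q p = 0 := by unfold Par.cj; rw [if_neg h]
    simp [h1, h2]

lemma split {q f : ℕ} (hq : q.Prime) (hf : 0 < f) :
    ∃ f' : ℤ, (f : ℤ) = (q : ℤ) ^ padicValNat q f * f' ∧ ¬ (q : ℤ) ∣ f' := by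
  have := Fact.mk hq
  obtain ⟨f', hf'⟩ : q ^ padicValNat q f ∣ f := pow_padicValNat_dvd
  refine ⟨f', by exact_mod_cast hf', fun h => ?_⟩
  have h1 : q ∣ f' := by exact_mod_cast h
  refine pow_succ_padicValNat_not_dvd (p := q) hf.ne' ?_
  nth_rewrite 2 [hf']
  rw [pow_succ]
  exact Nat.mul_dvd_mul_left _ h1

lemma loc2 (k : Fld) {P : Par} {q : ℕ} (hq : P.Ok q) (hr : P.r₁ q = P.r₂ q) {p p' : ℤ × ℤ} {j : ℕ}
    (h : P.J2 k q p j) (h' : P.J2 k q p' j) :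
    (q : ℤ) ^ (P.r₁ q + j) ∣ p.2 * p'.1 - p.1 * p'.2 ∧
    (((q : ℤ) ^ (P.r₁ q + j) ∣ 2 * k.D * (p.1 - p'.1) ∧
      (q : ℤ) ^ (P.r₁ q + j) ∣ 2 * k.D * (P.g * p.2 - P.g * p'.2)) ∨
    ((q : ℤ) ^ (P.r₁ q + j) ∣ 2 * k.D * (p.1 + p'.1) ∧
      (q : ℤ) ^ (P.r₁ q + j) ∣ 2 * k.D * (P.g * p.2 + P.g * p'.2))) := by
  obtain ⟨hp, ha, hu, hf₁, hf₂⟩ := hq
  have hp' : Prime (q : ℤ) := Nat.prime_iff_prime_int.1 hp
  obtain ⟨f₁, e₁, n₁⟩ := split hp hf₁
  obtain ⟨f₂, e₂, n₂⟩ := split hp hf₂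
  change _ = (q : ℤ) ^ P.r₁ q * f₁ at e₁
  change _ = (q : ℤ) ^ P.r₂ q * f₂ at e₂
  rw [← hr] at e₂
  have hQ : (q : ℤ) ^ P.r₁ q ≠ 0 := pow_ne_zero _ hp'.ne_zero
  obtain ⟨g, eg⟩ : (q : ℤ) ^ P.r₁ q ∣ P.g := by
    have h1 : q ^ P.r₁ q ∣ P.f₁ := pow_padicValNat_dvd
    have h2 : q ^ P.r₁ q ∣ P.f₂ := by rw [hr]; exact pow_padicValNat_dvd
    exact_mod_cast Nat.dvd_gcd h1 h2
  have ng : ¬ (q : ℤ) ∣ g := fun hg => n₁ (hg.trans (by
    have h1 : (P.g : ℤ) ∣ P.f₁ := by exact_mod_cast Nat.gcd_dvd_left _ _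
    rw [eg, e₁] at h1
    exact (mul_dvd_mul_iff_left hQ).1 h1))
  have aux : ∀ {p : ℤ × ℤ}, P.J2 k q p j → ∃ c w₁ w₂ : ℤ,
      p.1 = (q : ℤ) ^ P.r₁ q * ((q : ℤ) ^ j * w₁ - k.t * c) ∧
      g * p.2 = 2 * c + (q : ℤ) ^ j * w₂ ∧ (q : ℤ) ^ j ∣ k.D * (f₁ * f₂ * P.u - P.a * c ^ 2) := by
    rintro p ⟨⟨c, ⟨w₁, h1⟩, w₂, h2⟩, h3⟩
    have h4 : p.1 = (q : ℤ) ^ P.r₁ q * ((q : ℤ) ^ j * w₁ - k.t * c) := by
      rw [pow_add] at h1; linear_combination h1
    have h5 : g * p.2 = 2 * c + (q : ℤ) ^ j * w₂ := by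
      apply mul_left_cancel₀ hQ
      rw [pow_add, eg] at h2; linear_combination h2
    refine ⟨c, w₁, w₂, h4, h5, ?_⟩
    have h6 : P.nh k p = ((q : ℤ) ^ P.r₁ q) ^ 2 * (P.a * nm k ((q : ℤ) ^ j * w₁ - k.t * c,
        2 * c + (q : ℤ) ^ j * w₂) + k.D * f₁ * f₂ * P.u) := by
      simp only [Par.nh, Par.U, nm]
      rw [e₁, e₂, eg, mul_assoc _ g p.2, h5, h4]; ring
    rw [h6, show (q : ℤ) ^ (2 * P.r₁ q + 2 * j) = ((q : ℤ) ^ P.r₁ q) ^ 2 * ((q : ℤ) ^ j * q ^ j) by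
      ring, mul_dvd_mul_iff_left (pow_ne_zero 2 hQ)] at h3
    have h7 := (Dvd.intro _ rfl).trans h3
    have h8 : (q : ℤ) ^ j ∣ (q : ℤ) ^ j * (P.a * ((q : ℤ) ^ j * w₁ ^ 2 + k.t * w₁ * q ^ j * w₂ -
      k.t ^ 2 * c * w₂ + k.n * (4 * c * w₂ + q ^ j * w₂ ^ 2))) := Dvd.intro _ rfl
    refine dv (dvd_sub h7 h8) ?_
    simp only [nm, Fld.D]; ring
  obtain ⟨c, w₁, w₂, h1, h2, h3⟩ := aux h
  obtain ⟨c', w₁', w₂', h1', h2', h3'⟩ := aux h'
  have hF : ¬ (q : ℤ) ∣ f₁ * f₂ * P.u := fun hF =>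
    (hp'.dvd_or_dvd hF).elim (fun hF => (hp'.dvd_or_dvd hF).elim n₁ n₂) hu
  rw [pow_add]
  constructor
  · rw [← pow_add]
    refine (IsCoprime.pow_left (hp'.coprime_iff_not_dvd.2 ng)).dvd_of_dvd_mul_left ?_
    refine ⟨2 * c * w₁' + w₂ * ((q : ℤ) ^ j * w₁' - k.t * c') -
      w₁ * (2 * c' + (q : ℤ) ^ j * w₂') + k.t * c * w₂', ?_⟩
    rw [mul_sub, ← mul_assoc g, h2, mul_left_comm g, h2', h1, h1', pow_add]; ring
  · rw [eg, mul_assoc _ g p.2, mul_assoc _ g p'.2, h1, h1', h2, h2']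
    rcases sign hp' ha hF h3 h3' with ⟨z, hz⟩ | ⟨z, hz⟩
    · left
      exact ⟨⟨2 * k.D * (w₁ - w₁') - k.t * z,
          by linear_combination (-(q : ℤ) ^ P.r₁ q * k.t) * hz⟩,
        ⟨2 * k.D * (w₂ - w₂') + 2 * z, by linear_combination (2 * (q : ℤ) ^ P.r₁ q) * hz⟩⟩
    · right
      exact ⟨⟨2 * k.D * (w₁ + w₁') - k.t * z,
          by linear_combination (-(q : ℤ) ^ P.r₁ q * k.t) * hz⟩,
        ⟨2 * k.D * (w₂ + w₂') + 2 * z, by linear_combination (2 * (q : ℤ) ^ P.r₁ q) * hz⟩⟩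

lemma sq_dvd_nm (k : Fld) {d : ℤ} {x : ℤ × ℤ} (h1 : d ∣ x.1) (h2 : d ∣ x.2) : d ^ 2 ∣ nm k x := by
  obtain ⟨a, ha⟩ := h1
  obtain ⟨b, hb⟩ := h2
  exact ⟨a ^ 2 + k.t * a * b + k.n * b ^ 2, by simp only [nm]; rw [ha, hb]; ring⟩

lemma loc3 (k : Fld) (P : Par) (q : ℕ) (p : ℤ × ℤ) :
    (q : ℤ) ^ (2 * (P.ci q p + P.cj k q p)) ∣ P.nh k p := by
  obtain ⟨⟨h1, h2, h3, h4⟩, h5⟩ := loc k P q p
  by_cases hj : P.cj k q p = 0
  · rw [hj, add_zero, mul_comm, pow_mul]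
    refine dvd_add (Dvd.dvd.mul_left (sq_dvd_nm k (x := P.U p) h1 (Dvd.dvd.mul_right h4 _)) _) ?_
    refine Dvd.dvd.mul_right ?_ _
    rw [mul_assoc, sq]
    exact Dvd.dvd.mul_left (mul_dvd_mul h2 h3) _
  · obtain ⟨-, h6, -, h7⟩ := h5 hj
    rw [h6, mul_add]; exact h7

end Cnt

open Cnt in
theorem plane : PlaneStmt := by
  classical
  intro k
  refine ⟨30, by norm_num, fun S a d Y ha hd hY hdvd hne => ?_⟩
  obtain ⟨x₁, hx₁, y₁, hy₁, hne⟩ := hne
  have hx₁0 : x₁ ≠ 0 := by rintro rfl; simp [mc] at hne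
  set T := (S ∪ (S ×ˢ S).image fun p => p.1 - p.2).filter (· ≠ 0) with hT
  have hx₁T : x₁ ∈ T := Finset.mem_filter.2 ⟨Finset.mem_union_left _ hx₁, hx₁0⟩
  obtain ⟨x, hxT, hmin⟩ := T.exists_min_image (nm k) ⟨x₁, hx₁T⟩
  obtain ⟨hxS, hx0⟩ := Finset.mem_filter.1 hxT
  have hm : (0 : ℝ) < nm k x := by exact_mod_cast nm_pos k hx0
  have hmY : (nm k x : ℝ) ≤ Y := le_trans (by exact_mod_cast hmin x₁ hx₁T) (hY x₁ hx₁)
  have hY0 : 0 ≤ Y := hm.le.trans hmY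
  have hD := D_le k
  have ha' : (0 : ℝ) < a := by exact_mod_cast ha
  have hd' : (0 : ℝ) < d := by exact_mod_cast hd
  have hdx : ∀ y ∈ S, d ∣ a * (mc k y x).2 := by
    intro y hy
    rcases Finset.mem_union.1 hxS with h | h
    · exact hdvd y hy x h
    · obtain ⟨⟨s, s'⟩, hs, rfl⟩ := Finset.mem_image.1 h
      obtain ⟨h1, h2⟩ := Finset.mem_product.1 hs
      refine dv (dvd_sub (hdvd y hy s h1) (hdvd y hy s' h2)) ?_
      simp only [mc, Prod.fst_sub, Prod.snd_sub]; ring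
  set L : ℝ := a / d * (2 * √(Y * nm k x)) with hL
  have hφ : ∀ y ∈ S, |((a * (mc k y x).2 / d : ℤ) : ℝ)| ≤ L := by
    intro y hy
    rw [Int.cast_div (hdx y hy) hd'.ne', Int.cast_mul, mul_div_right_comm, abs_mul,
      abs_of_pos (div_pos ha' hd')]
    refine mul_le_mul_of_nonneg_left ?_ (by positivity)
    rw [show (2 : ℝ) = √4 by rw [show (4 : ℝ) = 2 ^ 2 by norm_num, Real.sqrt_sq (by norm_num)],
      ← Real.sqrt_mul (by norm_num)]
    apply Real.abs_le_sqrt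
    have h1 := key k y x
    have h2 := mul_le_mul_of_nonneg_right (hY y hy) hm.le
    nlinarith [sq_nonneg ((mc k y x).2 : ℝ),
      sq_nonneg ((2 * (mc k y x).1 + k.t * (mc k y x).2 : ℤ) : ℝ)]
  have hL1 : 1 ≤ L := by
    have : ∃ y ∈ S, (mc k y x).2 ≠ 0 := by
      by_contra hcon
      push Not at hcon
      have h1 := hcon x₁ hx₁
      have h2 := hcon y₁ hy₁
      simp only [mc] at h1 h2 hne
      apply hx0
      ext
      · apply mul_left_cancel₀ hne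
        simp only [Prod.fst_zero]
        linear_combination y₁.1 * h1 - x₁.1 * h2
      · apply mul_left_cancel₀ hne
        simp only [Prod.snd_zero]
        linear_combination y₁.2 * h1 - x₁.2 * h2
    obtain ⟨y, hy, hy0⟩ := this
    refine le_trans ?_ (hφ y hy)
    have h3 : a * (mc k y x).2 / d ≠ 0 := fun h3 => by
      have := Int.mul_ediv_cancel' (hdx y hy)
      rw [h3, mul_zero] at this
      exact mul_ne_zero ha.ne' hy0 this.symm
    have h4 := Int.one_le_abs h3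
    exact_mod_cast h4
  have hM1 : 1 ≤ √(Y / nm k x) := Real.one_le_sqrt.2 ((one_le_div hm).2 hmY)
  have h1 := card_fib S (fun y => a * (mc k y x).2 / d) (S.image fun y => a * (mc k y x).2 / d)
    (B := 2 * √(Y / nm k x) + 3) (fun y hy => Finset.mem_image_of_mem _ hy) (fun z _ => by
      refine line k hx0 _ hY0 hm (fun y hy => hY y (Finset.mem_filter.1 hy).1) ?_ ?_
      · intro y hy y' hy'
        obtain ⟨h1, h2⟩ := Finset.mem_filter.1 hy
        obtain ⟨h3, h4⟩ := Finset.mem_filter.1 hy'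
        apply mul_left_cancel₀ ha.ne'
        rw [← Int.mul_ediv_cancel' (hdx y h1), ← Int.mul_ediv_cancel' (hdx y' h3), h2, h4]
      · intro y hy y' hy' hne'
        have : y - y' ∈ T := Finset.mem_filter.2 ⟨Finset.mem_union_right _ (Finset.mem_image.2
          ⟨(y, y'), Finset.mem_product.2 ⟨(Finset.mem_filter.1 hy).1,
            (Finset.mem_filter.1 hy').1⟩, rfl⟩), sub_ne_zero.2 hne'⟩
        exact_mod_cast hmin _ this)
  have h2 := card_int (S.image fun y => a * (mc k y x).2 / d) (L := L) (by linarith) (by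
    intro z hz
    obtain ⟨y, hy, rfl⟩ := Finset.mem_image.1 hz
    exact hφ y hy)
  have h3 : √(Y * nm k x) * √(Y / nm k x) = Y := by
    rw [← Real.sqrt_mul (by positivity), show Y * nm k x * (Y / nm k x) = Y ^ 2 by field_simp,
      Real.sqrt_sq hY0]
  calc (S.card : ℝ) ≤ (3 * L) * (5 * √(Y / nm k x)) :=
        h1.trans (mul_le_mul (by linarith) (by linarith) (by positivity) (by linarith))
    _ = 30 * (√(Y * nm k x) * √(Y / nm k x)) * a / d := by rw [hL]; ring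
    _ = 30 * Y * a / d := by rw [h3]

open Cnt in
theorem cnt : PlaneStmt → CntStmt := by
  classical
  intro hpl k ε hε
  obtain ⟨C₁, hC₁, hpl⟩ := hpl k
  obtain ⟨C₂, hC₂, hω⟩ := two_pow_omega hε
  have hD := D_le k
  refine ⟨C₁ + C₂ * (-4 * k.D + 3), by nlinarith, ?_⟩
  intro P Pr W X S e₁ e₂ ⟨hf₁, hf₂, ha, hu, hOk, hPr, hW⟩ hX hS
  have hg : 0 < P.g := Nat.gcd_pos_of_pos_left _ hf₁
  have hg' : (0 : ℝ) < P.g := by exact_mod_cast hg
  have hK : (0 : ℝ) < -4 * k.D + 3 := by linarith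
  rcases S.eq_empty_or_nonempty with rfl | ⟨p₀, hp₀⟩
  · simp only [Finset.card_empty, Nat.cast_zero]; positivity
  have hprime : ∀ q ∈ Pr, q.Prime := fun q hq => (hOk q hq).1
  have hprime' : ∀ q ∈ Pr, Prime (q : ℤ) := fun q hq => Nat.prime_iff_prime_int.1 (hprime q hq)
  have hci : ∀ p ∈ S, ∀ q ∈ Pr, P.ci q p = P.ci q p₀ := fun p hp q hq => by
    rw [← exp_eq hprime (fun q => P.ci q p) hq, ← exp_eq hprime (fun q => P.ci q p₀) hq]
    exact congrArg (fun n : ℕ => n.factorization q) ((hS p hp).2.1.trans (hS p₀ hp₀).2.1.symm)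
  have hcj : ∀ p ∈ S, ∀ q ∈ Pr, P.cj k q p = e₂.factorization q := fun p hp q hq => by
    rw [← exp_eq hprime (fun q => P.cj k q p) hq]
    exact congrArg (fun n : ℕ => n.factorization q) (hS p hp).2.2
  set m : ℕ → ℕ := fun q => P.ci q p₀ + P.cj k q p₀ with hm
  have hE : e₁ * e₂ = ∏ q ∈ Pr, q ^ m q := by
    rw [← (hS p₀ hp₀).2.1, ← (hS p₀ hp₀).2.2, Par.E₁, Par.E₂, ← Finset.prod_mul_distrib]
    exact Finset.prod_congr rfl fun q _ => (pow_add _ _ _).symm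
  have hE0 : 0 < e₁ * e₂ := by
    rw [hE]; exact Finset.prod_pos fun q hq => pow_pos (hprime q hq).pos _
  have he₂ : e₂ ≠ 0 := (Nat.pos_of_mul_pos_left hE0).ne'
  have hE' : (0 : ℝ) < e₁ * e₂ := by exact_mod_cast hE0
  have hcop : IsCoprime P.u ((e₁ * e₂ : ℕ) : ℤ) := by
    rw [hE]; push_cast
    exact IsCoprime.prod_right fun q hq => IsCoprime.pow_right
      ((hprime' q hq).coprime_iff_not_dvd.2 (hOk q hq).2.2.1).symm
  have hcopg : IsCoprime P.u (P.g : ℤ) := by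
    rw [Int.isCoprime_iff_gcd_eq_one, Int.gcd, Int.natAbs_natCast]
    refine Nat.coprime_of_dvd fun q hq h1 h2 => ?_
    exact (hOk q (hPr q hq ((h2.trans (Nat.gcd_dvd_left _ _)).mul_right _))).2.2.1
      (Int.natCast_dvd.2 h1)
  have hdE : ∀ N : ℤ, (∀ q ∈ Pr, (q : ℤ) ^ m q ∣ N) → ((e₁ * e₂ : ℕ) : ℤ) ∣ N := fun N hN => by
    rw [hE]; exact prod_dvd hprime m hN
  have hu' : (0 : ℝ) < |(P.u : ℝ)| := abs_pos.2 (by exact_mod_cast hu)
  have ha' : (0 : ℝ) < P.a := by exact_mod_cast ha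
  have low : ∀ N : ℤ, 0 < N → P.u ∣ N → ((e₁ * e₂ : ℕ) : ℤ) ^ 2 ∣ N →
      |(P.u : ℝ)| * ((e₁ : ℝ) * e₂) ^ 2 ≤ N := fun N hN h1 h2 => by
    have h3 := Int.le_of_dvd hN ((abs_dvd _ _).2 (IsCoprime.mul_dvd hcop.pow_right h1 h2))
    rw [abs_mul, abs_pow, Nat.abs_cast] at h3
    exact_mod_cast h3
  have hEX : (e₁ : ℝ) * e₂ ≤ √X := by
    apply Real.le_sqrt_of_sq_le
    obtain ⟨⟨h1, -, h2, h3⟩, -⟩ := hS p₀ hp₀
    have h4 := low _ h2 (dvd_add (hW _ h1) (Dvd.intro_left _ rfl)) (by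
      rw [hE, ← Nat.cast_pow, ← Finset.prod_pow]
      simp only [← pow_mul]
      exact prod_dvd hprime (fun q => m q * 2) fun q _ => by
        rw [mul_comm]; exact loc3 k P q p₀)
    have h5 := h4.trans h3
    rw [mul_comm X] at h5
    exact le_of_mul_le_mul_left h5 hu'
  have hinj : Function.Injective P.U := fun p p' h => by
    have h1 := congrArg Prod.fst h
    have h2 := congrArg Prod.snd h
    simp only [Par.U] at h1 h2
    exact Prod.ext h1 (mul_left_cancel₀ (by exact_mod_cast hg.ne') h2)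
  have hY : ∀ p ∈ S, (nm k (P.U p) : ℝ) ≤ X * |(P.u : ℝ)| / P.a := fun p hp => by
    have := (hS p hp).1.2.1
    rw [le_div_iff₀ ha', mul_comm]
    exact_mod_cast this
  have hpair : ∀ p ∈ S, ∀ p' ∈ S, ∀ q ∈ Pr, (q : ℤ) ^ m q ∣ p.2 * p'.1 - p.1 * p'.2 ∧
      (((q : ℤ) ^ m q ∣ 2 * k.D * (p.1 - p'.1) ∧
        (q : ℤ) ^ m q ∣ 2 * k.D * (P.g * p.2 - P.g * p'.2)) ∨ (q ∈ e₂.primeFactors ∧
      (q : ℤ) ^ m q ∣ 2 * k.D * (p.1 + p'.1) ∧
        (q : ℤ) ^ m q ∣ 2 * k.D * (P.g * p.2 + P.g * p'.2))) ∧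
      (q ∉ e₂.primeFactors → (q : ℤ) ^ m q ∣ 2 * k.D * (p.1 - p'.1) ∧
        (q : ℤ) ^ m q ∣ 2 * k.D * (P.g * p.2 - P.g * p'.2)) := by
    intro p hp p' hp' q hq
    obtain ⟨⟨h1, -, -, h2⟩, h3⟩ := loc k P q p
    obtain ⟨⟨h1', -, -, -⟩, h3'⟩ := loc k P q p'
    rw [hcj p hp q hq] at h3
    rw [hcj p' hp' q hq] at h3'
    have hm' : m q = P.ci q p + e₂.factorization q := by
      rw [hci p hp q hq, ← hcj p₀ hp₀ q hq]
    rw [hci p' hp' q hq, ← hci p hp q hq] at h1'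
    by_cases hj : e₂.factorization q = 0
    · rw [hm', hj, add_zero]
      have h4 : (q : ℤ) ^ P.ci q p ∣ 2 * k.D * (p.1 - p'.1) ∧
          (q : ℤ) ^ P.ci q p ∣ 2 * k.D * (P.g * p.2 - P.g * p'.2) :=
        ⟨(dvd_sub h1 h1').mul_left _, (dvd_sub (h2.mul_right _) (h2.mul_right _)).mul_left _⟩
      exact ⟨dvd_sub (h1'.mul_left _) (h1.mul_right _), Or.inl h4, fun _ => h4⟩
    · obtain ⟨h4, h5, h6⟩ := h3 hj
      obtain ⟨-, -, h6'⟩ := h3' hj
      have h7 : q ∈ e₂.primeFactors := by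
        rw [← Nat.support_factorization]; exact Finsupp.mem_support_iff.2 hj
      obtain ⟨h8, h9⟩ := loc2 k (hOk q hq) h4 h6 h6'
      rw [hm', h5]
      exact ⟨h8, h9.imp id fun h => ⟨h7, h⟩, fun h => absurd h7 h⟩
  have h1e : (1 : ℝ) ≤ (e₂ : ℝ) ^ ε :=
    Real.one_le_rpow (by exact_mod_cast Nat.pos_of_ne_zero he₂) hε.le
  have hsX := Real.sqrt_nonneg X
  have hXg : 0 ≤ X / P.g := by positivity
  by_cases hcol : ∃ p ∈ S, ∃ p' ∈ S, (mc k (P.U p) (P.U p')).2 ≠ 0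
  · have h1 := hpl (S.image P.U) P.a (|P.u| * (P.g * (e₁ * e₂ : ℕ))) (X * |(P.u : ℝ)| / P.a) ha
      (mul_pos (abs_pos.2 hu) (by positivity)) (fun x hx => by
        obtain ⟨p, hp, rfl⟩ := Finset.mem_image.1 hx
        exact hY p hp) (fun x hx y hy => by
        obtain ⟨p, hp, rfl⟩ := Finset.mem_image.1 hx
        obtain ⟨p', hp', rfl⟩ := Finset.mem_image.1 hy
        refine IsCoprime.mul_dvd (IsCoprime.abs_left (hcopg.mul_right hcop))
          ((abs_dvd _ _).2 (dvd_mc k hu hW (hS p hp).1.1 (hS p' hp').1.1).2) ?_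
        refine Dvd.dvd.mul_left (dv (mul_dvd_mul_left (P.g : ℤ)
          (hdE _ fun q hq => (hpair p hp p' hp' q hq).1)) ?_) _
        simp only [mc, Par.U]; ring) (by
        obtain ⟨p, hp, p', hp', h⟩ := hcol
        exact ⟨_, Finset.mem_image_of_mem _ hp, _, Finset.mem_image_of_mem _ hp', h⟩)
    rw [Finset.card_image_of_injective _ hinj] at h1
    refine h1.trans ?_
    have e : C₁ * (X * |(P.u : ℝ)| / P.a) * P.a / ((|P.u| * (P.g * (e₁ * e₂ : ℕ)) : ℤ) : ℝ) =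
        C₁ * 1 * (X / P.g) / (e₁ * e₂) := by
      push_cast; field_simp
    rw [e]
    gcongr
    · linarith [mul_pos hC₂ hK]
    · linarith
  · push Not at hcol
    obtain ⟨x, hx0, hx⟩ : ∃ x : ℤ × ℤ, x ≠ 0 ∧ ∀ p ∈ S, (mc k (P.U p) x).2 = 0 := by
      by_cases h : ∀ p ∈ S, P.U p = 0
      · exact ⟨(1, 0), by simp, fun p hp => by rw [h p hp]; simp [mc]⟩
      · push Not at h
        obtain ⟨p, hp, h⟩ := h
        exact ⟨_, h, fun p' hp' => hcol p' hp' p hp⟩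
    set σ : ℤ × ℤ → Finset ℕ := fun p => e₂.primeFactors.filter fun q =>
      (q : ℤ) ^ m q ∣ 2 * k.D * (p.1 - p₀.1) ∧
        (q : ℤ) ^ m q ∣ 2 * k.D * (P.g * p.2 - P.g * p₀.2) with hσ
    have hD0 : (0 : ℝ) < (k.D : ℝ) ^ 2 := by nlinarith
    have h1 := card_fib S σ e₂.primeFactors.powerset
      (B := (-4 * k.D + 3) * (√X / (e₁ * e₂)))
      (fun p _ => Finset.mem_powerset.2 (Finset.filter_subset _ _)) (fun z _ => by
      rw [← Finset.card_image_of_injective _ hinj]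
      have h2 := line k hx0 ((S.filter fun p => σ p = z).image P.U) (Y := X * |(P.u : ℝ)| / P.a)
        (μ := |(P.u : ℝ)| * ((e₁ : ℝ) * e₂) ^ 2 / (4 * P.a * k.D ^ 2)) (by positivity)
        (by positivity) (fun y hy => by
          obtain ⟨p, hp, rfl⟩ := Finset.mem_image.1 hy
          exact hY p (Finset.mem_filter.1 hp).1) (fun y hy y' hy' => by
          obtain ⟨p, hp, rfl⟩ := Finset.mem_image.1 hy
          obtain ⟨p', hp', rfl⟩ := Finset.mem_image.1 hy'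
          rw [hx p (Finset.mem_filter.1 hp).1, hx p' (Finset.mem_filter.1 hp').1])
        (fun y hy y' hy' hne => by
          obtain ⟨p, hp, rfl⟩ := Finset.mem_image.1 hy
          obtain ⟨p', hp', rfl⟩ := Finset.mem_image.1 hy'
          obtain ⟨hp, hz⟩ := Finset.mem_filter.1 hp
          obtain ⟨hp', hz'⟩ := Finset.mem_filter.1 hp'
          have h3 : ∀ q ∈ Pr, (q : ℤ) ^ m q ∣ 2 * k.D * (p.1 - p'.1) ∧
              (q : ℤ) ^ m q ∣ 2 * k.D * (P.g * p.2 - P.g * p'.2) := by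
            intro q hq
            by_cases h4 : q ∈ e₂.primeFactors
            swap
            · exact (hpair p hp p' hp' q hq).2.2 h4
            have h5 : q ∈ σ p ↔ q ∈ σ p' := by rw [hz, hz']
            simp only [hσ, Finset.mem_filter, h4, true_and] at h5
            by_cases h6 : (q : ℤ) ^ m q ∣ 2 * k.D * (p.1 - p₀.1) ∧
              (q : ℤ) ^ m q ∣ 2 * k.D * (P.g * p.2 - P.g * p₀.2)
            · have h7 := h5.1 h6
              exact ⟨dv (dvd_sub h6.1 h7.1) (by ring), dv (dvd_sub h6.2 h7.2) (by ring)⟩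
            · have h7 := ((hpair p hp p₀ hp₀ q hq).2.1.resolve_left h6).2
              have h8 := ((hpair p' hp' p₀ hp₀ q hq).2.1.resolve_left fun h => h6 (h5.2 h)).2
              exact ⟨dv (dvd_sub h7.1 h8.1) (by ring), dv (dvd_sub h7.2 h8.2) (by ring)⟩
          have h4 := sq_dvd_nm k (x := (2 * k.D * (p.1 - p'.1), 2 * k.D * (P.g * p.2 - P.g * p'.2)))
            (hdE _ fun q hq => (h3 q hq).1) (hdE _ fun q hq => (h3 q hq).2)
          have h5 := nm_pos k (sub_ne_zero.2 hne)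
          have h6 := hW _ (W.sub_mem (hS p hp).1.1 (hS p' hp').1.1)
          have hD1 : 0 < k.D ^ 2 := sq_pos_of_ne_zero (D_neg k).ne
          have h7 := low (4 * k.D ^ 2 * (P.a * nm k (P.U p - P.U p'))) (by positivity)
            (h6.mul_left _) (dv (h4.mul_left P.a) (by
              simp only [nm, Par.U, Prod.fst_sub, Prod.snd_sub]; ring))
          rw [div_le_iff₀ (by positivity)]
          push_cast at h7
          linarith)
      have e : X * |(P.u : ℝ)| / P.a / (|(P.u : ℝ)| * ((e₁ : ℝ) * e₂) ^ 2 / (4 * P.a * k.D ^ 2)) =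
          (-2 * k.D / (e₁ * e₂)) ^ 2 * X := by
        field_simp; ring
      rw [e, Real.sqrt_mul (sq_nonneg _), Real.sqrt_sq (div_nonneg (by linarith) hE'.le)] at h2
      have h3 : 1 ≤ √X / (e₁ * e₂) := (one_le_div hE').2 hEX
      refine h2.trans ?_
      have e2 : 2 * (-2 * (k.D : ℝ) / (e₁ * e₂) * √X) = -4 * k.D * (√X / (e₁ * e₂)) := by ring
      rw [e2]; linarith)
    rw [Finset.card_powerset, Nat.cast_pow, Nat.cast_ofNat] at h1
    calc (S.card : ℝ) ≤ C₂ * (e₂ : ℝ) ^ ε * ((-4 * k.D + 3) * (√X / (e₁ * e₂))) :=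
          h1.trans (mul_le_mul_of_nonneg_right (hω e₂ he₂) (by positivity))
      _ = C₂ * (-4 * k.D + 3) * (e₂ : ℝ) ^ ε * √X / (e₁ * e₂) := by ring
      _ ≤ _ := by
        gcongr
        · linarith
        · linarith

end Pool.Agent.Lib.MP_9177b7_ag.J.Large
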