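import Pool.Agent.Lib.MP_9177b7_ag.J.LargeD
import Pool.Agent.Lib.MP_9177b7_ag.J.Psi
import Pool.Agent.Lib.MP_9177b7_ag.J.Coll

/-!
From the local classification of the configurations to the global probability bound.
-/

noncomputable section

namespace Pool.Agent.Lib.MP_9177b7_ag.J.Large

open Fld

namespace Glob

lemma psi_mul (k : Fld) {a b : ℕ} (h : Nat.Coprime a b) :
    k.psi (a * b) = k.psi a * k.psi b := by
  rw [psi, psi, psi, h.primeFactors_mul, Finset.prod_union h.disjoint_primeFactors]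
  push_cast; ring

lemma psi_one (k : Fld) : k.psi 1 = 1 := by simp [psi]

lemma psi_prod (k : Fld) {ι : Type} (s : Finset ι) (f : ι → ℕ)
    (h : ∀ i j, i ≠ j → Nat.Coprime (f i) (f j)) :
    k.psi (∏ i ∈ s, f i) = ∏ i ∈ s, k.psi (f i) := by
  induction s using Finset.cons_induction with
  | empty => simp [psi_one]
  | cons a s ha ih =>
    rw [Finset.prod_cons, Finset.prod_cons, psi_mul, ih]
    exact Nat.Coprime.prod_right fun i hi => h a i fun e => ha (e ▸ hi)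

lemma psi_nonneg (k : Fld) (c : ℕ) : 0 ≤ k.psi c :=
  (Nat.cast_nonneg _).trans (Psi.totient_le k c)

lemma units_finite (k : Fld) : {e : ℤ × ℤ | nm k e = 1}.Finite := by
  refine ((Set.finite_Icc (-(2 + 2 * |k.t|)) (2 + 2 * |k.t|)).prod
    (Set.finite_Icc (-2 : ℤ) 2)).subset fun e he => ?_
  have h := four_nm k e
  have hD := D_neg k
  rw [show nm k e = 1 from he] at h
  have h2 : e.2 ^ 2 ≤ 2 ^ 2 := by nlinarith [sq_nonneg (2 * e.1 + k.t * e.2), sq_nonneg e.2]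
  have h3 : (2 * e.1 + k.t * e.2) ^ 2 ≤ 2 ^ 2 := by nlinarith [sq_nonneg e.2]
  have h4 := abs_le_of_sq_le_sq' h2 (by norm_num)
  have h5 := abs_le_of_sq_le_sq' h3 (by norm_num)
  have h6 : |k.t * e.2| ≤ |k.t| * 2 := by
    rw [abs_mul]; exact mul_le_mul_of_nonneg_left (abs_le.2 h4) (abs_nonneg _)
  have h7 := abs_le.1 h6
  have h8 := abs_nonneg k.t
  exact ⟨⟨by linarith [h5.1, h7.2], by linarith [h5.2, h7.1]⟩, h4⟩

lemma im_eq (k : Fld) {F : ℕ+} (s s₀ : k.SF F) :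
    (Fld.lift s * star (Fld.lift s₀)).im = ((mc k (sg s) (sg s₀)).2 : ℚ) := by
  simp only [Fld.lift, mc, sg, QuadraticAlgebra.im_mul, QuadraticAlgebra.re_star,
    QuadraticAlgebra.im_star]
  push_cast; ring

lemma pr_coset {k : Fld} {F : ℕ+} {c : ℕ} (hc : c ∣ F) {Q : k.SF F → Prop}
    (h : ∀ s s₀, Q s → Q s₀ → (c : ℤ) ∣ (mc k (sg s) (sg s₀)).2) : k.pr F Q ≤ 1 / k.psi c := by
  by_cases h0 : ∃ s₀, Q s₀
  · obtain ⟨s₀, hs₀⟩ := h0
    rw [← Psi.pr_eq k F c s₀ hc]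
    refine Coll.pr_mono fun s hs => ?_
    obtain ⟨z, hz⟩ := h s s₀ hs hs₀
    exact ⟨z, by rw [im_eq, hz]; push_cast; rfl⟩
  · exact (Coll.pr_zero fun s hs => h0 ⟨s, hs⟩).trans (div_nonneg zero_le_one (psi_nonneg k c))

lemma lcm_eq {P : Par} {Pr : Finset ℕ} (h1 : 0 < P.f₁) (h2 : 0 < P.f₂) (hp : ∀ q ∈ Pr, q.Prime)
    (h : ∀ q : ℕ, q.Prime → q ∣ P.f₁ * P.f₂ → q ∈ Pr) :
    ∏ q : Pr, (q : ℕ) ^ max (P.r₁ q) (P.r₂ q) = P.h := by
  have h0 : P.h ≠ 0 := Nat.lcm_ne_zero h1.ne' h2.ne'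
  rw [Finset.prod_coe_sort Pr fun q => q ^ max (P.r₁ q) (P.r₂ q),
    ← Nat.prod_factorization_pow_eq_self h0,
    Finsupp.prod_of_support_subset _ (s := Pr) _ _ (by simp)]
  · refine Finset.prod_congr rfl fun q hq => ?_
    rw [Par.h, Nat.factorization_lcm h1.ne' h2.ne', Finsupp.sup_apply,
      Nat.factorization_def _ (hp q hq), Nat.factorization_def _ (hp q hq)]
    rfl
  · intro q hq
    rw [Nat.support_factorization] at hq
    exact h q (Nat.prime_of_mem_primeFactors hq)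
      ((Nat.dvd_of_mem_primeFactors hq).trans (Nat.lcm_dvd_mul _ _))

lemma dvd_of_local {n u Y : ℤ} (hn : n * u ≠ 0)
    (h : ∀ q : ℕ, q.Prime → (q : ℤ) ∣ n →
      ¬ (q : ℤ) ∣ u ∧ (q : ℤ) ^ padicValInt q (n * u) ∣ u * Y) : n ∣ Y := by
  rw [← Int.natAbs_dvd_natAbs, Nat.dvd_iff_prime_pow_dvd_dvd]
  intro q j hq hj
  rcases Nat.eq_zero_or_pos j with rfl | hj0
  · simp
  have := Fact.mk hq
  have h1 : (q : ℤ) ^ j ∣ n := by
    rw [← Int.natAbs_dvd_natAbs]; simpa using hj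
  obtain ⟨h2, h3⟩ := h q hq ((dvd_pow_self _ hj0.ne').trans h1)
  have h4 : j ≤ padicValInt q (n * u) :=
    ((padicValInt_dvd_iff j _).1 (h1.mul_right u)).resolve_left hn
  have h5 : IsCoprime ((q : ℤ) ^ j) u :=
    ((Nat.prime_iff_prime_int.1 hq).irreducible.coprime_iff_not_dvd.2 h2).pow_left
  have h6 : (q : ℤ) ^ j ∣ Y := h5.dvd_of_dvd_mul_left ((pow_dvd_pow _ h4).trans h3)
  rw [← Int.natAbs_dvd_natAbs] at h6
  simpa using h6

lemma exists_unit {k : Fld} {P : Par} {Pr : Finset ℕ} {W : Submodule ℤ (ℤ × ℤ)} {p : ℤ × ℤ}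
    (hS : P.Std k Pr W) (hn : P.nh k p ≠ 0)
    (hq : ∀ q : ℕ, q.Prime → (q : ℤ) * P.u ∣ P.nh k p → q ∈ Pr) {V V' : ℤ × ℤ} (hV : V ∈ W)
    (hV' : V' ∈ W) (e : P.a * nm k V = P.nh k p) (e' : P.a * nm k V' = P.nh k p)
    (h : ∀ q ∈ Pr, (q : ℤ) ^ P.v k q p ∣ (mc k V' V).1 ∧ (q : ℤ) ^ P.v k q p ∣ (mc k V' V).2) :
    ∃ ε : ℤ × ℤ, nm k ε = 1 ∧ P.a * (mc k V' V).1 = P.nh k p * ε.1 ∧
      P.a * (mc k V' V).2 = P.nh k p * ε.2 := by
  obtain ⟨-, -, -, hu, hO, -, hW⟩ := hS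
  obtain ⟨n, hn'⟩ : P.u ∣ P.nh k p := e ▸ hW V hV
  rw [mul_comm] at hn'
  obtain ⟨⟨Y₁, h1⟩, Y₂, h2⟩ := dvd_mc k hu hW hV' hV
  have key : ∀ {x Y : ℤ}, P.a * x = P.u * Y → (∀ q ∈ Pr, (q : ℤ) ^ P.v k q p ∣ x) → n ∣ Y := by
    intro x Y hx hd
    refine dvd_of_local (u := P.u) (hn' ▸ hn) fun q hq' hqn => ?_
    have hm := hq q hq' (hn' ▸ mul_dvd_mul_right hqn _)
    refine ⟨(hO q hm).2.2.1, ?_⟩
    rw [← hn', ← hx]
    exact (hd q hm).mul_left _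
  obtain ⟨e₁, he₁⟩ := key h1 fun q hm => (h q hm).1
  obtain ⟨e₂, he₂⟩ := key h2 fun q hm => (h q hm).2
  have a1 : P.a * (mc k V' V).1 = P.nh k p * e₁ := by rw [h1, he₁, hn']; ring
  have a2 : P.a * (mc k V' V).2 = P.nh k p * e₂ := by rw [h2, he₂, hn']; ring
  refine ⟨(e₁, e₂), ?_, a1, a2⟩
  have h3 : P.nh k p ^ 2 * nm k (e₁, e₂) = P.a ^ 2 * nm k (mc k V' V) := by
    have : P.nh k p ^ 2 * nm k (e₁, e₂) = nm k (P.nh k p * e₁, P.nh k p * e₂) := by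
      simp only [nm]; ring
    rw [this, ← a1, ← a2]
    simp only [nm]; ring
  refine mul_left_cancel₀ (pow_ne_zero 2 hn) ?_
  rw [h3, nm_mc, mul_one, sq (P.nh k p)]
  nth_rewrite 1 [← e']
  rw [← e]; ring

lemma cancel {k : Fld} {a : ℤ} {V V' V₀ : ℤ × ℤ} (h0 : a * nm k V₀ ≠ 0)
    (h1 : a * (mc k V V₀).1 = a * (mc k V' V₀).1) (h2 : a * (mc k V V₀).2 = a * (mc k V' V₀).2) :
    V = V' := by
  have ha := left_ne_zero_of_mul h0
  have h3 := mul_left_cancel₀ ha h1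
  have h4 := mul_left_cancel₀ ha h2
  by_contra hne
  have h5 := nm_pos k (sub_ne_zero.2 hne)
  have h6 := nm_mc k (V - V') V₀
  have h7 : mc k (V - V') V₀ = (0, 0) := by
    simp only [mc, Prod.fst_sub, Prod.snd_sub] at h3 h4 ⊢
    exact Prod.ext (by linear_combination h3) (by linear_combination h4)
  rw [h7] at h6
  have h8 : nm k (0, 0) = 0 := by simp [nm]
  rw [h8] at h6
  exact mul_ne_zero h5.ne' (right_ne_zero_of_mul h0) h6.symm

end Glob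

open Glob in
theorem glob : LocAStmt → LocBStmt → LocCStmt → GlobStmt := by
  classical
  intro hA hB hC k
  have hE := units_finite k
  refine ⟨(hE.toFinset.card : ℝ), ?_, fun F P Pr W p hS hf1 hf2 hn hq => ?_⟩
  · exact_mod_cast Finset.card_pos.2 ⟨(1, 0), hE.mem_toFinset.2 (by simp [nm])⟩
  have hO := hS.2.2.2.2.1
  have hloc : ∀ q : Pr, LocAt k P q p := fun q => by
    by_cases h : P.r₁ q = P.r₂ q
    · rcases Nat.eq_zero_or_pos (P.r₁ q) with h0 | h0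
      · exact hB k P q p (hO q q.2) hn h0 (h ▸ h0)
      · exact hC k P q p (hO q q.2) hn h h0
    · exact hA k P q p (hO q q.2) hn h
  choose T τ κ h1 h2 h3 h4 h5 using hloc
  have hcop : ∀ (e : Pr → ℕ) (i j : Pr), i ≠ j → Nat.Coprime ((i : ℕ) ^ e i) ((j : ℕ) ^ e j) :=
    fun e i j hij => Nat.coprime_pow_primes _ _ (hO i i.2).1 (hO j j.2).1
      fun h => hij (Subtype.ext h)
  have hh := lcm_eq hS.1 hS.2.1 (fun q hq => (hO q hq).1) hS.2.2.2.2.2.1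
  have main : ∀ t ∈ Fintype.piFinset T,
      k.pr F (fun s => ∃ c : Cf k P p, c.σ = sg s ∧ c.V ∈ W ∧ ∀ q, τ q c = t q) ≤
        hE.toFinset.card * ∏ q : Pr, 1 / k.psi ((q : ℕ) ^ κ q (t q)) := by
    intro t ht
    have hd : ∏ q : Pr, (q : ℕ) ^ κ q (t q) ∣ F := by
      refine Dvd.dvd.trans ?_ (Nat.lcm_dvd hf1 hf2)
      show _ ∣ P.h
      rw [← hh]
      exact Finset.prod_dvd_prod_of_dvd _ _ fun q _ =>
        pow_dvd_pow _ (h4 q _ (Fintype.mem_piFinset.1 ht q))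
    rw [Finset.prod_div_distrib, Finset.prod_const_one, ← psi_prod k _ _ (hcop _)]
    by_cases h0 : ∃ c : Cf k P p, c.V ∈ W ∧ ∀ q, τ q c = t q
    swap
    · refine (Coll.pr_zero fun s ⟨c, _, hc⟩ => h0 ⟨c, hc⟩).trans ?_
      exact mul_nonneg (Nat.cast_nonneg _) (div_nonneg zero_le_one (psi_nonneg k _))
    obtain ⟨c₀, hW₀, ht₀⟩ := h0
    refine (Coll.pr_mono (Q := fun s => ∃ ε ∈ hE.toFinset, ∃ c : Cf k P p, c.σ = sg s ∧
      (∀ q, τ q c = t q) ∧ P.a * (mc k c.V c₀.V).1 = P.nh k p * ε.1 ∧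
      P.a * (mc k c.V c₀.V).2 = P.nh k p * ε.2) ?_).trans ?_
    · rintro s ⟨c, hs, hW, htc⟩
      obtain ⟨ε, a1, a2⟩ := exists_unit hS hn hq hW₀ hW c₀.e₅ c.e₅ fun q hq' =>
        h2 ⟨q, hq'⟩ c₀ c ((ht₀ _).trans (htc _).symm)
      exact ⟨ε, hE.mem_toFinset.2 a1, c, hs, htc, a2⟩
    refine (Coll.pr_exists _ _).trans ?_
    rw [← nsmul_eq_mul]
    refine Finset.sum_le_card_nsmul _ _ _ fun ε _ => pr_coset hd ?_
    rintro s s₀ ⟨c, hs, htc, a1, a2⟩ ⟨c', hs', htc', b1, b2⟩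
    have hV : c.V = c'.V := cancel (c₀.e₅ ▸ hn) (a1.trans b1.symm) (a2.trans b2.symm)
    rw [← hs, ← hs']
    push_cast
    refine Fintype.prod_dvd_of_coprime (fun i j hij => ?_) fun q => ?_
    · have := Nat.isCoprime_iff_coprime.2 (hcop (fun q => κ q (t q)) i j hij)
      push_cast at this
      exact this
    · rw [← htc q]
      exact h3 q c c' ((htc q).trans (htc' q).symm) hV
  refine (Coll.pr_mono (Q := fun s => ∃ t ∈ Fintype.piFinset T, ∃ c : Cf k P p, c.σ = sg s ∧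
    c.V ∈ W ∧ ∀ q, τ q c = t q) ?_).trans ?_
  · rintro s ⟨c, hs, hW⟩
    exact ⟨fun q => τ q c, Fintype.mem_piFinset.2 fun q => h1 q c, c, hs, hW, fun _ => rfl⟩
  refine ((Coll.pr_exists _ _).trans (Finset.sum_le_sum main)).trans ?_
  rw [← Finset.mul_sum, ← Finset.prod_univ_sum T fun q t => 1 / k.psi ((q : ℕ) ^ κ q t),
    mul_div_assoc, ← hh, psi_prod k _ _ (hcop _), ← Finset.prod_coe_sort Pr,
    ← Finset.prod_div_distrib]
  refine mul_le_mul_of_nonneg_left (Finset.prod_le_prod (fun q _ => ?_) fun q _ => h5 q)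
    (Nat.cast_nonneg _)
  exact Finset.sum_nonneg fun t _ => div_nonneg zero_le_one (psi_nonneg k _)

end Pool.Agent.Lib.MP_9177b7_ag.J.Large
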