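import Pool.Agent.Lib.MP_9177b7_ag.J.LargeD
import Pool.Agent.Lib.MP_9177b7_ag.J.Psi

/-! Local classification of configurations: unequal exponents and primes prime to the conductors. -/

namespace Pool.Agent.Lib.MP_9177b7_ag.J.Large

namespace LocAB

lemma tr_zero {F : Type} [CommRing F] [IsDomain F] {t n y₁ y₂ a b c d : F} (hV : ¬ (a = 0 ∧ b = 0))
    (hW : ¬ (c = 0 ∧ d = 0)) (h1 : y₁ * a - n * y₂ * b = 0) (h2 : y₁ * b + y₂ * a + t * y₂ * b = 0)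
    (h3 : c * y₁ + t * c * y₂ + n * d * y₂ = 0) (h4 : d * y₁ - c * y₂ = 0)
    (h5 : d * a - c * b = 0) : 2 * y₁ + t * y₂ = 0 := by
  by_contra h
  refine hV ⟨?_, ?_⟩ <;> by_contra h' <;> refine hW ⟨?_, ?_⟩ <;>
    refine mul_right_cancel₀ (mul_ne_zero h h') ?_
  · linear_combination c * h1 + a * h3 - n * y₂ * h5
  · linear_combination d * h1 + b * h3 + (y₁ + t * y₂) * h5
  · linear_combination c * h2 + a * h4 - y₁ * h5
  · linear_combination d * h2 + b * h4 - y₂ * h5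

lemma dvd_eq {d a b : ℤ} (h : d ∣ a) (e : b = a) : d ∣ b := e ▸ h

lemma exists_exact (p : ℕ → Prop) (h0 : p 0) (m : ℕ) : ∃ i ≤ m, p i ∧ (i < m → ¬ p (i + 1)) := by
  classical
  exact ⟨Nat.findGreatest p m, Nat.findGreatest_le m, Nat.findGreatest_spec m.zero_le h0,
    fun h => Nat.findGreatest_is_greatest (Nat.lt_succ_self _) h⟩

lemma prim {q : ℤ} {i : ℕ} {B : ℤ × ℤ} (h : q ^ i ∣ B.1 ∧ q ^ i ∣ B.2)
    (h' : ¬ (q ^ (i + 1) ∣ B.1 ∧ q ^ (i + 1) ∣ B.2)) :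
    ∃ B₀ : ℤ × ℤ, B = (q ^ i * B₀.1, q ^ i * B₀.2) ∧ ¬ (q ∣ B₀.1 ∧ q ∣ B₀.2) := by
  obtain ⟨⟨a, ha⟩, b, hb⟩ := h
  refine ⟨(a, b), Prod.ext ha hb, fun h => h' ?_⟩
  rw [ha, hb, pow_succ]
  exact ⟨mul_dvd_mul_left _ h.1, mul_dvd_mul_left _ h.2⟩

lemma mc_dvd (k : Fld) {d : ℤ} {x : ℤ × ℤ} (h : d ∣ x.1 ∧ d ∣ x.2) (y : ℤ × ℤ) :
    d ∣ (mc k x y).1 ∧ d ∣ (mc k x y).2 := by
  obtain ⟨⟨a, ha⟩, b, hb⟩ := h
  simp only [mc, ha, hb]
  exact ⟨⟨(mc k (a, b) y).1, by simp only [mc]; ring⟩, (mc k (a, b) y).2, by simp only [mc]; ring⟩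

variable {k : Fld} {q : ℕ}

lemma cancel_l (hq : Prime (q : ℤ)) {σ x y : ℤ × ℤ} (hσ : ¬ (q : ℤ) ∣ nm k σ) {v : ℕ}
    (h : (q : ℤ) ^ v ∣ (mc k (mc k x σ) y).1 ∧ (q : ℤ) ^ v ∣ (mc k (mc k x σ) y).2) :
    (q : ℤ) ^ v ∣ (mc k x y).1 ∧ (q : ℤ) ^ v ∣ (mc k x y).2 := by
  obtain ⟨h1, h2⟩ := mc_dvd k h (σ.1 + k.t * σ.2, -σ.2)
  refine ⟨hq.pow_dvd_of_dvd_mul_left v hσ ?_, hq.pow_dvd_of_dvd_mul_left v hσ ?_⟩
  · exact dvd_eq h1 (by simp only [mc, nm]; ring)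
  · exact dvd_eq h2 (by simp only [mc, nm]; ring)

lemma cancel_r (hq : Prime (q : ℤ)) {σ x y : ℤ × ℤ} (hσ : ¬ (q : ℤ) ∣ nm k σ) {v : ℕ}
    (h : (q : ℤ) ^ v ∣ (mc k x (mc k y σ)).1 ∧ (q : ℤ) ^ v ∣ (mc k x (mc k y σ)).2) :
    (q : ℤ) ^ v ∣ (mc k x y).1 ∧ (q : ℤ) ^ v ∣ (mc k x y).2 := by
  obtain ⟨h1, h2⟩ := mc_dvd k h σ
  refine ⟨hq.pow_dvd_of_dvd_mul_left v hσ ?_, hq.pow_dvd_of_dvd_mul_left v hσ ?_⟩
  · exact dvd_eq h1 (by simp only [mc, nm]; ring)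
  · exact dvd_eq h2 (by simp only [mc, nm]; ring)

/-- The type lemma for elements of equal content. -/
lemma type_cont (hT : TypeStmt) (hq : q.Prime) {i v : ℕ} {B B' : ℤ × ℤ}
    (hB : ¬ ((q : ℤ) ∣ B.1 ∧ (q : ℤ) ∣ B.2)) (hB' : ¬ ((q : ℤ) ∣ B'.1 ∧ (q : ℤ) ∣ B'.2))
    {C C' : ℤ × ℤ} (e : C = ((q : ℤ) ^ i * B.1, (q : ℤ) ^ i * B.2))
    (e' : C' = ((q : ℤ) ^ i * B'.1, (q : ℤ) ^ i * B'.2)) (h : (q : ℤ) ^ v ∣ nm k C)
    (h' : (q : ℤ) ^ v ∣ nm k C') (hd : 2 * i < v → (q : ℤ) ∣ (mc k B' B).2) :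
    (q : ℤ) ^ v ∣ (mc k C' C).1 ∧ (q : ℤ) ^ v ∣ (mc k C' C).2 := by
  have e1 : (mc k C' C).1 = (q : ℤ) ^ (2 * i) * (mc k B' B).1 := by simp only [e, e', mc]; ring
  have e2 : (mc k C' C).2 = (q : ℤ) ^ (2 * i) * (mc k B' B).2 := by simp only [e, e', mc]; ring
  rw [e1, e2]
  rcases le_or_gt v (2 * i) with hv | hv
  · exact ⟨(pow_dvd_pow _ hv).mul_right _, (pow_dvd_pow _ hv).mul_right _⟩
  obtain ⟨w, rfl⟩ := Nat.exists_eq_add_of_le hv.le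
  have q0 : (q : ℤ) ^ (2 * i) ≠ 0 := pow_ne_zero _ (Nat.cast_ne_zero.2 hq.ne_zero)
  rw [show nm k C = (q : ℤ) ^ (2 * i) * nm k B by simp only [e, nm]; ring, pow_add,
    mul_dvd_mul_iff_left q0] at h
  rw [show nm k C' = (q : ℤ) ^ (2 * i) * nm k B' by simp only [e', nm]; ring, pow_add,
    mul_dvd_mul_iff_left q0] at h'
  rw [pow_add, mul_dvd_mul_iff_left q0, mul_dvd_mul_iff_left q0]
  exact hT k q w B B' hq hB hB' h h' (hd hv)

variable {P : Par} {p : ℤ × ℤ}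

lemma dvd_nm (ho : P.Ok q) (c : Cf k P p) : (q : ℤ) ^ P.v k q p ∣ nm k c.V := by
  have := Fact.mk ho.1
  refine (Nat.prime_iff_prime_int.1 ho.1).pow_dvd_of_dvd_mul_left _ ho.2.1 ?_
  rw [c.e₅]
  exact padicValInt_dvd _

lemma split (hq : q.Prime) {f : ℕ} (hf : 0 < f) :
    ∃ f' : ℤ, (f : ℤ) = (q : ℤ) ^ padicValNat q f * f' ∧ ¬ (q : ℤ) ∣ f' := by
  have := Fact.mk hq
  obtain ⟨f', h⟩ : q ^ padicValNat q f ∣ f := pow_padicValNat_dvd
  refine ⟨f', by exact_mod_cast h, fun h' => pow_succ_padicValNat_not_dvd (p := q) hf.ne' ?_⟩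
  rw [pow_succ]
  conv_rhs => rw [h]
  exact mul_dvd_mul_left _ (by exact_mod_cast h')

/-- The divisibility behind the case of unequal exponents. -/
lemma unit_dvd {q F G X W Dx Dw : ℤ} (hq : Prime q) {i : ℕ} (hF : ¬ q ∣ F) (hG : q ∣ G)
    (hX : ¬ q ∣ X) (h1 : F * Dx + G * Dw = 0) (h2 : q ^ i ∣ X * Dw + W * Dx) : q ^ i ∣ Dw := by
  refine hq.pow_dvd_of_dvd_mul_left i (a := F * X - W * G) (fun h => ?_) ?_
  · exact (hq.dvd_or_dvd ((dvd_sub_left (hG.mul_left W)).1 h)).elim hF hX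
  · refine dvd_eq (h2.mul_left F) ?_
    linear_combination (-W) * h1

end LocAB

open LocAB

theorem type_stmt : TypeStmt := by
  intro k q e V V' hq hV hV' h h' hd
  have := Fact.mk hq
  have q0 : (q : ℤ) ≠ 0 := Nat.cast_ne_zero.2 hq.ne_zero
  suffices H : ∀ a ≤ e, (q : ℤ) ^ a ∣ (mc k V' V).1 ∧ (q : ℤ) ^ a ∣ (mc k V' V).2 from H e le_rfl
  intro a
  induction a with
  | zero => simp
  | succ a ih =>
    intro ha
    obtain ⟨⟨y₁, h1⟩, y₂, h2⟩ := ih (Nat.le_of_succ_le ha)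
    obtain ⟨b, rfl⟩ := Nat.exists_eq_add_of_le ha
    obtain ⟨N, hN⟩ := h
    obtain ⟨N', hN'⟩ := h'
    have qa : (q : ℤ) ^ a ≠ 0 := pow_ne_zero _ q0
    have hn := nm_mc k V' V
    rw [h1, h2, pow_succ, mul_dvd_mul_iff_left qa, mul_dvd_mul_iff_left qa]
    refine dvd_of_tr_nm k q0 (x := (y₁, y₂)) ?_
      ⟨(q : ℤ) ^ (2 * b) * N * N', mul_left_cancel₀ (pow_ne_zero 2 qa) ?_⟩
    swap
    · rw [hN, hN', nm, h1, h2] at hn
      simp only [nm]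
      linear_combination hn
    simp only [nm, mc] at h1 h2 hN hN' hd
    have a1 : (q : ℤ) ∣ y₁ * V.1 - k.n * y₂ * V.2 := ⟨(q : ℤ) ^ b * N * V'.1,
      mul_left_cancel₀ qa (by linear_combination V'.1 * hN - V.1 * h1 + k.n * V.2 * h2)⟩
    have a2 : (q : ℤ) ∣ y₁ * V.2 + y₂ * V.1 + k.t * y₂ * V.2 := ⟨(q : ℤ) ^ b * N * V'.2,
      mul_left_cancel₀ qa (by linear_combination V'.2 * hN - V.2 * h1 - (V.1 + k.t * V.2) * h2)⟩
    have a3 : (q : ℤ) ∣ V'.1 * y₁ + k.t * V'.1 * y₂ + k.n * V'.2 * y₂ := ⟨(q : ℤ) ^ b * N' * V.1,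
      mul_left_cancel₀ qa (by
        linear_combination V.1 * hN' - V'.1 * h1 - (k.t * V'.1 + k.n * V'.2) * h2)⟩
    have a4 : (q : ℤ) ∣ V'.2 * y₁ - V'.1 * y₂ := ⟨(q : ℤ) ^ b * N' * V.2,
      mul_left_cancel₀ qa (by linear_combination V.2 * hN' - V'.2 * h1 + V'.1 * h2)⟩
    simp only [← ZMod.intCast_zmod_eq_zero_iff_dvd] at hV hV' a1 a2 a3 a4 hd ⊢
    push_cast at a1 a2 a3 a4 hd ⊢
    exact tr_zero hV hV' a1 a2 a3 a4 hd

theorem locB (hT : TypeStmt) : LocBStmt := by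
  intro k P q p ho hn h1 h2
  have hq := ho.1
  have := Fact.mk hq
  have hp : Prime (q : ℤ) := Nat.prime_iff_prime_int.1 hq
  obtain ⟨v, hv⟩ : ∃ v, v = P.v k q p := ⟨_, rfl⟩
  obtain ⟨R, hR⟩ : ∃ R, R = (Finset.range q).filter
    fun r : ℕ => (q : ℤ) ∣ (r : ℤ) ^ 2 - k.t * r + k.n := ⟨_, rfl⟩
  obtain ⟨T, hT'⟩ : ∃ T : Finset (ℕ × ℕ × ℕ), T = (Finset.range ((v + 1) / 2) ×ˢ R ×ˢ {0}) ∪
    if v % 2 = 0 then {(v / 2, 0, 0)} else ∅ := ⟨_, rfl⟩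
  have key : ∀ c : Cf k P p, ∃ t ∈ T, ∃ B : ℤ × ℤ,
      c.V = ((q : ℤ) ^ t.1 * B.1, (q : ℤ) ^ t.1 * B.2) ∧ ¬ ((q : ℤ) ∣ B.1 ∧ (q : ℤ) ∣ B.2) ∧
      (2 * t.1 < v → (q : ℤ) ∣ B.1 + t.2.1 * B.2) := fun c => by
    obtain ⟨j, -, d1, d2⟩ := exists_exact (fun j => (q : ℤ) ^ j ∣ c.V.1 ∧ (q : ℤ) ^ j ∣ c.V.2)
      (by simp) (v + 1)
    have hj : 2 * j ≤ v := by
      obtain ⟨⟨a, ha⟩, b, hb⟩ := d1
      refine hv ▸ ((padicValInt_dvd_iff _ _).1 ⟨P.a * nm k (a, b), ?_⟩).resolve_left hn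
      rw [← c.e₅]
      simp only [nm, ha, hb]; ring
    obtain ⟨B, e, hB⟩ := prim d1 (d2 (by omega))
    rcases hj.eq_or_lt with hj | hj
    · refine ⟨(j, 0, 0), ?_, B, e, hB, fun h => absurd hj h.ne⟩
      rw [hT', if_pos (by omega), show v / 2 = j by omega]
      simp
    have n1 : (q : ℤ) ∣ nm k B := by
      have := (pow_dvd_pow (q : ℤ) (hv ▸ hj : 2 * j + 1 ≤ P.v k q p)).trans (dvd_nm ho c)
      rwa [show nm k c.V = (q : ℤ) ^ (2 * j) * nm k B by simp only [e, nm]; ring, pow_succ,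
        mul_dvd_mul_iff_left (pow_ne_zero _ hp.ne_zero)] at this
    simp only [← ZMod.intCast_zmod_eq_zero_iff_dvd, nm] at n1 hB
    push_cast at n1
    have n2 : (B.2 : ZMod q) ≠ 0 := fun h => hB ⟨by simpa [h] using n1, h⟩
    refine ⟨(j, (-(B.1 : ZMod q) / B.2).val, 0), ?_, B, e, ?_, fun _ => ?_⟩
    · rw [hT', hR]
      refine Finset.mem_union_left _ (Finset.mem_product.2 ⟨Finset.mem_range.2 (by omega),
        Finset.mem_product.2 ⟨Finset.mem_filter.2 ⟨Finset.mem_range.2 (ZMod.val_lt _), ?_⟩,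
          Finset.mem_singleton_self _⟩⟩)
      rw [← ZMod.intCast_zmod_eq_zero_iff_dvd]
      push_cast
      rw [ZMod.natCast_zmod_val]
      field_simp
      linear_combination n1
    · simpa only [← ZMod.intCast_zmod_eq_zero_iff_dvd] using hB
    · rw [← ZMod.intCast_zmod_eq_zero_iff_dvd]
      push_cast
      rw [ZMod.natCast_zmod_val]
      field_simp
      ring
  choose τ hτ B e hB hd using key
  refine ⟨T, τ, fun _ => 0, hτ, fun c c' h => ?_, fun _ _ _ _ => by simp, fun _ _ => Nat.zero_le _, ?_⟩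
  · refine type_cont hT hq (hB c) (hB c') (e c) (h ▸ e c') (dvd_nm ho c) (dvd_nm ho c') fun hj => ?_
    have a1 := hd c (hv ▸ hj)
    have a2 := hd c' (h ▸ hv ▸ hj)
    rw [← h] at a2
    refine dvd_eq (dvd_sub (a1.mul_left (B c').2) (a2.mul_left (B c).2)) ?_
    simp only [mc]; ring
  · have c1 : (R.card : ℝ) = 1 + k.chi q := by
      rw [hR, Fld.chi]; push_cast; ring
    have c2 : R.card ≤ 2 := by
      have := (abs_le.1 (Psi.chi_le k hq)).2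
      rw [Fld.chi, ← hR] at this
      omega
    have c3 : T.card ≤ (v + 1) / 2 * R.card + if v % 2 = 0 then 1 else 0 := by
      rw [hT']
      refine (Finset.card_union_le _ _).trans (add_le_add (by simp) ?_)
      split_ifs <;> simp
    simp only [Par.wt, h1, h2, ← hv, gb, Fld.psi, max_self, pow_zero, Nat.primeFactors_one,
      Finset.prod_empty, Nat.cast_one, mul_one, div_one, Finset.sum_const, nsmul_eq_mul,
      ne_eq, not_true, if_false, if_true]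
    split_ifs with v0 v1
    · subst v0
      exact_mod_cast c3.trans (by simp)
    · subst v1
      rw [← c1]
      exact_mod_cast c3.trans (by simp)
    · have : (v + 1) / 2 * R.card ≤ (v + 1) / 2 * 2 := Nat.mul_le_mul_left _ c2
      exact_mod_cast c3.trans (by split_ifs <;> omega)

theorem locA (hT : TypeStmt) : LocAStmt := by
  intro k P q p ho hn hr
  have hq := ho.1
  have hp : Prime (q : ℤ) := Nat.prime_iff_prime_int.1 hq
  obtain ⟨f, hf, nf⟩ := split hq ho.2.2.2.1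
  obtain ⟨g, hg, ng⟩ := split hq ho.2.2.2.2
  simp only [LocAt, Par.wt, if_pos hr]
  change _ = _ ^ P.r₁ q * _ at hf
  change _ = _ ^ P.r₂ q * _ at hg
  generalize P.r₁ q = r, P.r₂ q = s at hr hf hg
  obtain ⟨i, hi, d1, d2⟩ := exists_exact (fun j => (q : ℤ) ^ j ∣ p.1) (by simp) (min r s)
  have pd : ∀ {a b : ℕ}, a ≤ b → ∀ x : ℤ, (q : ℤ) ^ a ∣ (q : ℤ) ^ b * x := fun h x =>
    (pow_dvd_pow _ h).mul_right x
  have fd : ∀ a ≤ r, (q : ℤ) ^ a ∣ P.f₁ := fun a h => hf ▸ pd h f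
  have gd : ∀ a ≤ s, (q : ℤ) ^ a ∣ P.f₂ := fun a h => hg ▸ pd h g
  have fg : ∀ a ≤ r + s, (q : ℤ) ^ a ∣ (P.f₁ : ℤ) * P.f₂ := fun a h =>
    (pow_dvd_pow _ h).trans (pow_add (q : ℤ) r s ▸ mul_dvd_mul (fd r le_rfl) (gd s le_rfl))
  have q1 : (q : ℤ) ∣ (P.f₁ : ℤ) * P.f₂ := by simpa using fg 1 (by omega)
  have nu : ∀ c : Cf k P p, ¬ (q : ℤ) ∣ nm k c.σ := fun c h =>
    hp.not_isUnit (c.cop.isUnit_of_dvd' h q1)
  have dt : ∀ c : Cf k P p, ¬ (q : ℤ) ∣ c.x * c.w - c.y * c.z := fun c h =>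
    (hp.dvd_or_dvd (c.e₄ ▸ h.mul_left P.a)).elim (fun h => nu c (hp.dvd_of_dvd_pow h)) ho.2.2.1
  have dy : ∀ c : Cf k P p, (q : ℤ) ^ i ∣ c.y := fun c => by
    refine dvd_eq (dvd_add (dvd_add (d1.mul_left (nm k c.σ))
      ((fd i (by omega)).mul_right (k.t * c.x))) ((fg i (by omega)).mul_right (k.n * c.z))) ?_
    linear_combination -c.e₁
  have cont : ∀ c : Cf k P p, ∃ B : ℤ × ℤ,
      mc k (mc k c.V c.σ) c.σ = ((q : ℤ) ^ i * B.1, (q : ℤ) ^ i * B.2) ∧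
        ¬ ((q : ℤ) ∣ B.1 ∧ (q : ℤ) ∣ B.2) := fun c => by
    refine prim ?_ fun h => ?_
    · rw [c.e₃]
      exact ⟨dvd_sub (dy c).neg_right (((fg i (by omega)).mul_right _).mul_right _),
        dvd_add (dvd_sub ((fd i (by omega)).mul_right _) ((gd i (by omega)).mul_right _))
          (((fg i (by omega)).mul_right _).mul_right _)⟩
    rw [c.e₃] at h
    obtain ⟨b1, b2⟩ := h
    have F := fg (i + 1) (by omega)
    replace b1 := dvd_neg.1 ((dvd_sub_left ((F.mul_right _).mul_right _)).1 b1)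
    replace b2 := (dvd_add_left ((F.mul_right _).mul_right _)).1 b2
    rcases hi.eq_or_lt with hi | hi
    · have y1 : (q : ℤ) ∣ c.y * c.z := ((dvd_pow_self _ i.succ_ne_zero).trans b1).mul_right _
      have qi : (q : ℤ) ^ i ≠ 0 := pow_ne_zero _ hp.ne_zero
      refine dt c (dvd_sub ?_ y1)
      rcases lt_or_gt_of_ne hr with hr | hr
      · have := (dvd_sub_left ((gd (i + 1) (by omega)).mul_right _)).1 b2
        rw [hf, show r = i by omega, pow_succ, mul_assoc, mul_dvd_mul_iff_left qi] at this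
        exact ((hp.dvd_or_dvd this).resolve_left nf).mul_right _
      · have := (dvd_sub_right ((fd (i + 1) (by omega)).mul_right _)).1 b2
        rw [hg, show s = i by omega, pow_succ, mul_assoc, mul_dvd_mul_iff_left qi] at this
        exact ((hp.dvd_or_dvd this).resolve_left ng).mul_left _
    · refine d2 hi (hp.pow_dvd_of_dvd_mul_left _ (nu c) ?_)
      rw [c.e₁, mul_assoc (P.f₁ : ℤ) k.t]
      exact dvd_sub (dvd_sub b1 ((fd _ (by omega)).mul_right _)) ((F.mul_right _).mul_right _)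
  choose B e hB using cont
  have hM : ∀ c c' : Cf k P p,
      (q : ℤ) ^ (max r s + i) ∣ P.f₂ * (nm k c'.σ * c.w - nm k c.σ * c'.w) := fun c c' => by
    have k1 : P.f₁ * (nm k c'.σ * c.x - nm k c.σ * c'.x) +
        P.f₂ * (nm k c'.σ * c.w - nm k c.σ * c'.w) = 0 := by
      linear_combination nm k c.σ * c'.e₂ - nm k c'.σ * c.e₂
    have k2 : (q : ℤ) ^ i ∣ nm k c'.σ * c.x * (nm k c'.σ * c.w - nm k c.σ * c'.w) +
        nm k c.σ * c'.w * (nm k c'.σ * c.x - nm k c.σ * c'.x) := by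
      have a0 : P.a ≠ 0 := fun h => ho.2.1 (h ▸ dvd_zero _)
      have k3 : nm k c'.σ ^ 2 * (c.x * c.w - c.y * c.z) =
          nm k c.σ ^ 2 * (c'.x * c'.w - c'.y * c'.z) := mul_left_cancel₀ a0 (by
        linear_combination nm k c'.σ ^ 2 * c.e₄ - nm k c.σ ^ 2 * c'.e₄)
      refine dvd_eq (dvd_sub ((dy c).mul_right (nm k c'.σ ^ 2 * c.z))
        ((dy c').mul_right (nm k c.σ ^ 2 * c'.z))) ?_
      linear_combination k3
    have un : ∀ c : Cf k P p, i ≠ 0 → ¬ (q : ℤ) ∣ c.x * c.w := fun c h h' =>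
      dt c (dvd_sub h' (((dvd_pow_self _ h).trans (dy c)).mul_right _))
    rcases lt_or_gt_of_ne hr with hr | hr
    · rw [max_eq_right hr.le, pow_add]
      refine mul_dvd_mul (gd s le_rfl) ?_
      rcases eq_or_ne i 0 with rfl | i0
      · simp
      obtain ⟨d, rfl⟩ := Nat.exists_eq_add_of_lt hr
      refine unit_dvd hp (G := (q : ℤ) * ((q : ℤ) ^ d * g)) nf (dvd_mul_right _ _) (fun h =>
        (hp.dvd_or_dvd h).elim (nu c') fun h => un c i0 (h.mul_right _))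
        (mul_left_cancel₀ (pow_ne_zero r hp.ne_zero) ?_) k2
      rw [hf, hg] at k1
      linear_combination k1
    · rw [max_eq_left hr.le, pow_add, ← dvd_neg, ← eq_neg_of_add_eq_zero_left k1]
      refine mul_dvd_mul (fd r le_rfl) ?_
      rcases eq_or_ne i 0 with rfl | i0
      · simp
      obtain ⟨d, rfl⟩ := Nat.exists_eq_add_of_lt hr
      refine unit_dvd hp (G := (q : ℤ) * ((q : ℤ) ^ d * f)) ng (dvd_mul_right _ _) (fun h =>
        (hp.dvd_or_dvd h).elim (nu c) fun h => un c' i0 (h.mul_left _))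
        (mul_left_cancel₀ (pow_ne_zero s hp.ne_zero) ?_) (dvd_eq k2 (add_comm _ _))
      rw [hf, hg] at k1
      linear_combination k1
  have hZ : ∀ c c' : Cf k P p, (q : ℤ) ^ (max r s + i) ∣
      -(P.f₁ * P.f₂ * (nm k c'.σ * c.z - nm k c.σ * c'.z)) := fun c c' =>
    ((fg _ (by omega)).mul_right _).neg_right
  have qi : (q : ℤ) ^ i ≠ 0 := pow_ne_zero _ hp.ne_zero
  refine ⟨{0}, fun _ => 0, fun _ => max r s, fun _ => Finset.mem_singleton_self _,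
    fun c c' _ => ?_, fun c c' _ hV => ?_, fun _ _ => le_rfl, by simp⟩
  all_goals
    obtain ⟨m₁, h₁⟩ := hM c c'
    obtain ⟨m₂, h₂⟩ := hZ c c'
    have b1 := congrArg Prod.fst ((e c).symm.trans c.e₃)
    have b2 := congrArg Prod.snd ((e c).symm.trans c.e₃)
    have b1' := congrArg Prod.fst ((e c').symm.trans c'.e₃)
    have b2' := congrArg Prod.snd ((e c').symm.trans c'.e₃)
    have a1 : nm k c'.σ * (B c).1 - nm k c.σ * (B c').1 =
        (q : ℤ) ^ max r s * (k.t * m₁ + 2 * k.n * m₂) := mul_left_cancel₀ qi (by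
      dsimp only at b1 b1'
      linear_combination nm k c'.σ * b1 - nm k c.σ * b1' + nm k c'.σ * c.e₁ - nm k c.σ * c'.e₁ +
        k.t * nm k c'.σ * c.e₂ - k.t * nm k c.σ * c'.e₂ + k.t * h₁ + 2 * k.n * h₂)
    have a2 : nm k c'.σ * (B c).2 - nm k c.σ * (B c').2 =
        (q : ℤ) ^ max r s * (-2 * m₁ - k.t * m₂) := mul_left_cancel₀ qi (by
      dsimp only at b2 b2'
      linear_combination nm k c'.σ * b2 - nm k c.σ * b2' - nm k c'.σ * c.e₂ + nm k c.σ * c'.e₂ -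
        2 * h₁ - k.t * h₂)
  · refine cancel_l hp (nu c') (cancel_l hp (nu c') (cancel_r hp (nu c) (cancel_r hp (nu c)
      (type_cont hT hq (hB c) (hB c') (e c) (e c') ?_ ?_ fun _ => ?_))))
    · rw [nm_mc, nm_mc]
      exact ((dvd_nm ho c).mul_right _).mul_right _
    · rw [nm_mc, nm_mc]
      exact ((dvd_nm ho c').mul_right _).mul_right _
    · refine (hp.dvd_or_dvd (a := nm k c'.σ) ?_).resolve_left (nu c')
      refine dvd_eq ((dvd_pow_self (q : ℤ) (by omega : max r s ≠ 0)).mul_right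
        ((B c').2 * (k.t * m₁ + 2 * k.n * m₂) - (B c').1 * (-2 * m₁ - k.t * m₂))) ?_
      simp only [mc]
      linear_combination (B c').2 * a1 - (B c').1 * a2
  · have D0 : k.t ^ 2 - 4 * k.n ≠ 0 := k.neg.ne
    have E1 := congrArg Prod.fst (e c)
    have E2 := congrArg Prod.snd (e c)
    have E1' := congrArg Prod.fst (e c')
    have E2' := congrArg Prod.snd (e c')
    rw [← hV] at E1' E2'
    obtain ⟨G, hG⟩ : ∃ G, G = mc k (mc k c.V c.σ) c'.σ := ⟨_, rfl⟩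
    obtain ⟨Z, hZ⟩ : ∃ Z, Z = (mc k c.σ c'.σ).2 := ⟨_, rfl⟩
    have g1 : (q : ℤ) ^ i * (nm k c'.σ * (B c).1 - nm k c.σ * (B c').1) =
        Z * (k.t * G.1 + 2 * k.n * G.2) := by
      simp only [hG, hZ, mc, nm] at E1 E1' ⊢
      linear_combination (c.σ.1 ^ 2 + k.t * c.σ.1 * c.σ.2 + k.n * c.σ.2 ^ 2) * E1' -
        (c'.σ.1 ^ 2 + k.t * c'.σ.1 * c'.σ.2 + k.n * c'.σ.2 ^ 2) * E1
    have g2 : (q : ℤ) ^ i * (nm k c'.σ * (B c).2 - nm k c.σ * (B c').2) =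
        Z * (-2 * G.1 - k.t * G.2) := by
      simp only [hG, hZ, mc, nm] at E2 E2' ⊢
      linear_combination (c.σ.1 ^ 2 + k.t * c.σ.1 * c.σ.2 + k.n * c.σ.2 ^ 2) * E2' -
        (c'.σ.1 ^ 2 + k.t * c'.σ.1 * c'.σ.2 + k.n * c'.σ.2 ^ 2) * E2
    rw [a1] at g1
    rw [a2] at g2
    have g3 : (q : ℤ) ^ (i + max r s) ∣ (Z * G.1, Z * G.2).1 ∧
        (q : ℤ) ^ (i + max r s) ∣ (Z * G.1, Z * G.2).2 :=
      ⟨⟨m₁, mul_left_cancel₀ D0 (by linear_combination -k.t * g1 - 2 * k.n * g2)⟩,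
        m₂, mul_left_cancel₀ D0 (by linear_combination 2 * g1 + k.t * g2)⟩
    obtain ⟨g4, g5⟩ := mc_dvd k g3 (mc k c.σ c'.σ)
    have g6 : (mc k (Z * G.1, Z * G.2) (mc k c.σ c'.σ)).1 =
        (q : ℤ) ^ i * ((B c).1 * (nm k c'.σ * Z)) := by
      simp only [hG, mc, nm] at E1 ⊢
      linear_combination Z * (c'.σ.1 ^ 2 + k.t * c'.σ.1 * c'.σ.2 + k.n * c'.σ.2 ^ 2) * E1
    have g7 : (mc k (Z * G.1, Z * G.2) (mc k c.σ c'.σ)).2 =
        (q : ℤ) ^ i * ((B c).2 * (nm k c'.σ * Z)) := by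
      simp only [hG, mc, nm] at E2 ⊢
      linear_combination Z * (c'.σ.1 ^ 2 + k.t * c'.σ.1 * c'.σ.2 + k.n * c'.σ.2 ^ 2) * E2
    rw [g6, pow_add, mul_dvd_mul_iff_left qi] at g4
    rw [g7, pow_add, mul_dvd_mul_iff_left qi] at g5
    rw [← hZ]
    refine hp.pow_dvd_of_dvd_mul_left _ (nu c') ?_
    rcases not_and_or.1 (hB c) with h | h
    exacts [hp.pow_dvd_of_dvd_mul_left _ h g4, hp.pow_dvd_of_dvd_mul_left _ h g5]

end Pool.Agent.Lib.MP_9177b7_ag.J.Large
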