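import Pool.Agent.Lib.MP_9177b7_ag.J.LargeD
import Pool.Agent.Lib.MP_9177b7_ag.J.Psi

/-!
Local classification of configurations at a prime with equal positive exponents.
-/

noncomputable section

namespace Pool.Agent.Lib.MP_9177b7_ag.J.Large

namespace LocC

/-- Both coordinates are divisible by `d`. -/
def Dv (d : ℤ) (v : ℤ × ℤ) : Prop := d ∣ v.1 ∧ d ∣ v.2

lemma Dv.of_mc {k : Fld} {d : ℤ} {X s : ℤ × ℤ} (hs : IsCoprime d (nm k s))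
    (h : Dv d (mc k X s)) : Dv d X := by
  obtain ⟨⟨a, ha⟩, b, hb⟩ := h
  simp only [mc] at ha hb
  refine ⟨hs.dvd_of_dvd_mul_left ⟨a * s.1 - k.n * b * s.2, ?_⟩,
    hs.dvd_of_dvd_mul_left ⟨a * s.2 + b * s.1 + k.t * b * s.2, ?_⟩⟩
  · simp only [nm]
    linear_combination s.1 * ha - k.n * s.2 * hb
  · simp only [nm]
    linear_combination s.2 * ha + (s.1 + k.t * s.2) * hb

lemma Dv.mc {k : Fld} {d : ℤ} {X : ℤ × ℤ} (h : Dv d X) (s : ℤ × ℤ) : Dv d (mc k X s) := by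
  obtain ⟨⟨a, ha⟩, b, hb⟩ := h
  refine ⟨⟨a * s.1 + k.t * a * s.2 + k.n * b * s.2, ?_⟩, b * s.1 - a * s.2, ?_⟩ <;>
    simp only [Large.mc, ha, hb] <;> ring

lemma exists_res {m : ℕ} (hm : 0 < m) {ν : ℤ} (h : IsCoprime (m : ℤ) ν) (y : ℤ) :
    ∃ W : ℕ, W < m ∧ (m : ℤ) ∣ ν * W - y := by
  obtain ⟨a, b, e⟩ := h
  have h0 : (0 : ℤ) < m := by exact_mod_cast hm
  have h1 := Int.emod_nonneg (b * y) h0.ne'
  have h2 := Int.emod_lt_of_pos (b * y) h0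
  refine ⟨(b * y % m).toNat, by omega, -(a * y) - ν * (b * y / m), ?_⟩
  rw [Int.toNat_of_nonneg h1, Int.emod_def]
  linear_combination y * e

lemma exists_content {q : ℕ} (hq : q.Prime) {V : ℤ × ℤ} (hV : V ≠ 0) :
    ∃ (j : ℕ) (U : ℤ × ℤ), V = ((q : ℤ) ^ j * U.1, (q : ℤ) ^ j * U.2) ∧ ¬Dv q U := by
  have hg : Int.gcd V.1 V.2 ≠ 0 := fun h => hV (Prod.ext (Int.gcd_eq_zero_iff.1 h).1
    (Int.gcd_eq_zero_iff.1 h).2)
  obtain ⟨j, m, hm, e⟩ := Nat.exists_eq_pow_mul_and_not_dvd hg q hq.ne_one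
  have h1 : (q : ℤ) ^ j ∣ (Int.gcd V.1 V.2 : ℤ) := ⟨m, by exact_mod_cast e⟩
  obtain ⟨a, ha⟩ := h1.trans (Int.gcd_dvd_left V.1 V.2)
  obtain ⟨b, hb⟩ := h1.trans (Int.gcd_dvd_right V.1 V.2)
  refine ⟨j, (a, b), Prod.ext ha hb, fun h => hm ?_⟩
  have h2 : (q : ℤ) ^ j * q ∣ (Int.gcd V.1 V.2 : ℤ) :=
    Int.dvd_coe_gcd (ha ▸ mul_dvd_mul_left _ h.1) (hb ▸ mul_dvd_mul_left _ h.2)
  rw [e, Nat.cast_mul, Nat.cast_pow] at h2
  exact_mod_cast (mul_dvd_mul_iff_left (pow_ne_zero j (by exact_mod_cast hq.ne_zero))).1 h2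

lemma dvd_of_prim {q : ℕ} (hq : q.Prime) {U : ℤ × ℤ} (hU : ¬Dv q U) {e j : ℕ} {Z : ℤ}
    (h : Dv ((q : ℤ) ^ e) (Z * ((q : ℤ) ^ j * U.1), Z * ((q : ℤ) ^ j * U.2))) :
    (q : ℤ) ^ (e - j) ∣ Z := by
  rcases le_total e j with h1 | h1
  · rw [Nat.sub_eq_zero_of_le h1, pow_zero]
    exact one_dvd _
  obtain ⟨d, rfl⟩ := Nat.exists_eq_add_of_le h1
  have hp := Nat.prime_iff_prime_int.1 hq
  have h0 := pow_ne_zero j hp.ne_zero
  have h2 : ∀ y : ℤ, ¬(q : ℤ) ∣ y → (q : ℤ) ^ (j + d) ∣ Z * ((q : ℤ) ^ j * y) →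
      (q : ℤ) ^ d ∣ Z := fun y hy h3 => by
    rw [pow_add, mul_left_comm, mul_dvd_mul_iff_left h0] at h3
    exact (hp.coprime_iff_not_dvd.2 hy).pow_left.dvd_of_dvd_mul_right h3
  rw [Nat.add_sub_cancel_left]
  by_cases h4 : (q : ℤ) ∣ U.1
  · exact h2 U.2 (fun h5 => hU ⟨h4, h5⟩) h.2
  · exact h2 U.1 h4 h.1

variable {k : Fld} {P : Par} {p : ℤ × ℤ}

lemma key1 (c c' : Cf k P p) :
    nm k c'.σ * (mc k (mc k c.V c.σ) c.σ).1 - nm k c.σ * (mc k (mc k c'.V c'.σ) c'.σ).1 =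
      k.t * (P.f₂ * (nm k c'.σ * c.w - nm k c.σ * c'.w)) -
        2 * k.n * (P.f₁ * P.f₂ * (nm k c'.σ * c.z - nm k c.σ * c'.z)) ∧
    nm k c'.σ * (mc k (mc k c.V c.σ) c.σ).2 - nm k c.σ * (mc k (mc k c'.V c'.σ) c'.σ).2 =
      -2 * (P.f₂ * (nm k c'.σ * c.w - nm k c.σ * c'.w)) +
        k.t * (P.f₁ * P.f₂ * (nm k c'.σ * c.z - nm k c.σ * c'.z)) := by
  rw [c.e₃, c'.e₃]
  constructor
  · simp only
    linear_combination nm k c'.σ * c.e₁ - nm k c.σ * c'.e₁ +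
      k.t * (nm k c'.σ * c.e₂ - nm k c.σ * c'.e₂)
  · simp only
    linear_combination -(nm k c'.σ * c.e₂ - nm k c.σ * c'.e₂)

lemma key2 (c c' : Cf k P p) (h : c.V = c'.V) :
    mc k (mc k ((mc k c.σ c'.σ).2 * c.V.1, (mc k c.σ c'.σ).2 * c.V.2) c.σ) c'.σ =
      (P.f₂ * (nm k c'.σ * c.w - nm k c.σ * c'.w),
        -(P.f₁ * P.f₂ * (nm k c'.σ * c.z - nm k c.σ * c'.z))) := by
  obtain ⟨h1, h2⟩ := key1 c c'
  rw [← h] at h1 h2
  generalize (P.f₂ : ℤ) * (nm k c'.σ * c.w - nm k c.σ * c'.w) = m₁ at *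
  generalize (P.f₁ : ℤ) * P.f₂ * (nm k c'.σ * c.z - nm k c.σ * c'.z) = m₂ at *
  have h3 : (mc k (mc k ((mc k c.σ c'.σ).2 * c.V.1, (mc k c.σ c'.σ).2 * c.V.2) c.σ) c'.σ).2 =
      -m₂ := by
    refine mul_left_cancel₀ (D_neg k).ne ?_
    simp only [mc, nm, Fld.D] at h1 h2 ⊢
    linear_combination (-2) * h1 - k.t * h2
  refine Prod.ext (mul_left_cancel₀ (two_ne_zero (α := ℤ)) ?_) h3
  simp only [mc, nm] at h2 h3 ⊢
  linear_combination -h2 - k.t * h3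

lemma psi_pow (k : Fld) {q : ℕ} (hq : q.Prime) {e : ℕ} (he : e ≠ 0) :
    k.psi (q ^ e) = (q : ℝ) ^ e * (1 - (k.chi q : ℝ) / q) := by
  rw [Fld.psi, Nat.primeFactors_prime_pow he hq, Finset.prod_singleton, Nat.cast_pow]

lemma fac_bd (k : Fld) {q : ℕ} (hq : q.Prime) :
    0 < 1 - (k.chi q : ℝ) / q ∧ 1 - (k.chi q : ℝ) / q ≤ 2 := by
  have h1 : |(k.chi q : ℝ)| ≤ 1 := by exact_mod_cast Psi.chi_le k hq
  have h2 : (2 : ℝ) ≤ q := by exact_mod_cast hq.two_le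
  have h3 : |(k.chi q : ℝ) / q| ≤ 1 / 2 := by
    rw [abs_div, abs_of_nonneg (by linarith : (0 : ℝ) ≤ q)]
    exact div_le_div₀ zero_le_one h1 two_pos h2
  obtain ⟨h4, h5⟩ := abs_le.1 h3
  constructor <;> linarith

lemma psi_cmp (k : Fld) {q : ℕ} (hq : q.Prime) {r j m : ℕ} (hr : 0 < r) (h : min j r ≤ m) :
    1 / k.psi (q ^ (r - j)) ≤ 2 * (q : ℝ) ^ m / k.psi (q ^ r) := by
  obtain ⟨h1, h2⟩ := fac_bd k hq
  have h3 : (1 : ℝ) ≤ q := by exact_mod_cast hq.one_le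
  have h4 : (q : ℝ) ^ min j r ≤ (q : ℝ) ^ m := pow_le_pow_right₀ h3 h
  have h5 : (0 : ℝ) < (q : ℝ) ^ min j r := by positivity
  rw [psi_pow k hq hr.ne']
  rcases le_or_gt r j with h6 | h6
  · rw [min_eq_right h6] at h4 h5
    rw [Nat.sub_eq_zero_of_le h6, pow_zero, le_div_iff₀ (by positivity)]
    simp only [Fld.psi, Nat.primeFactors_one, Finset.prod_empty, Nat.cast_one, mul_one, div_one,
      one_mul]
    nlinarith
  · rw [min_eq_left h6.le] at h4 h5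
    obtain ⟨d, rfl⟩ := Nat.exists_eq_add_of_le h6.le
    rw [Nat.add_sub_cancel_left, psi_pow k hq (by omega), div_le_div_iff₀ (by positivity)
      (by positivity), pow_add]
    have h7 : 0 < (q : ℝ) ^ d * (1 - (k.chi q : ℝ) / q) := by positivity
    nlinarith [mul_le_mul_of_nonneg_right h4 h7.le, mul_pos h5 h7]

/-- The residues which are counted by `NS`. -/
def ns (P : Par) (q i : ℕ) (b : ℤ) : Finset ℕ :=
  (Finset.range (q ^ i)).filter fun W : ℕ => (q : ℤ) ^ (i + 2 * P.r₁ q) ∣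
    P.a * (P.g * b - (q : ℤ) ^ P.r₁ q * W) * ((q : ℤ) ^ P.r₁ q * W) - P.u * P.f₁ * P.f₂

/-- The possible third coordinates of a type. -/
def rt (k : Fld) (q i v j : ℕ) : Finset ℕ :=
  if j ≠ i ∧ 2 * j < v then
    (Finset.range q).filter fun r : ℕ => (q : ℤ) ∣ (r : ℤ) ^ 2 - k.t * r + k.n else {0}

lemma card_rt (k : Fld) {q : ℕ} (hq : q.Prime) (i v j : ℕ) : (rt k q i v j).card ≤ 2 := by
  unfold rt
  split_ifs
  · have h := (abs_le.1 (Psi.chi_le k hq)).2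
    rw [Fld.chi] at h
    omega
  · simp

variable {q : ℕ}

lemma cop (hr : 0 < P.r₁ q) (c : Cf k P p) (e : ℕ) :
    IsCoprime ((q : ℤ) ^ e) (nm k c.σ) := by
  have h1 : q ∣ P.f₁ := dvd_of_one_le_padicValNat hr
  exact (c.cop.symm.of_isCoprime_of_dvd_left
    (Dvd.dvd.mul_right (Int.natCast_dvd_natCast.2 h1) _)).pow_left

lemma exists_F (h12 : P.r₁ q = P.r₂ q) : ∃ F₁ F₂ G : ℤ,
    (P.f₁ : ℤ) = (q : ℤ) ^ P.r₁ q * F₁ ∧ (P.f₂ : ℤ) = (q : ℤ) ^ P.r₁ q * F₂ ∧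
      (P.g : ℤ) = (q : ℤ) ^ P.r₁ q * G := by
  have h1 : q ^ P.r₁ q ∣ P.f₁ := pow_padicValNat_dvd
  have h2 : q ^ P.r₁ q ∣ P.f₂ := h12 ▸ pow_padicValNat_dvd
  obtain ⟨G, hG⟩ : q ^ P.r₁ q ∣ P.g := Nat.dvd_gcd h1 h2
  obtain ⟨F₁, h1⟩ := h1
  obtain ⟨F₂, h2⟩ := h2
  exact ⟨F₁, F₂, G, by exact_mod_cast h1, by exact_mod_cast h2, by exact_mod_cast hG⟩

lemma data (hP : P.Ok q) (hn : P.nh k p ≠ 0) (h12 : P.r₁ q = P.r₂ q) (hr : 0 < P.r₁ q)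
    (c : Cf k P p) : ∃ (t : ℕ × ℕ × ℕ) (U : ℤ × ℤ),
      c.V = ((q : ℤ) ^ t.1 * U.1, (q : ℤ) ^ t.1 * U.2) ∧ ¬Dv q U ∧ 2 * t.1 ≤ P.v k q p ∧
      (q : ℤ) ^ (P.v k q p - 2 * t.1) ∣ nm k U ∧
      (t.1 ≠ P.ci q p → P.ci q p = P.r₁ q ∧ P.r₁ q < t.1 ∧
        min (t.1 - P.r₁ q) (P.r₁ q) ≤ P.cj k q p) ∧
      t.2.1 ∈ ns P q (P.ci q p) p.2 ∧
      (q : ℤ) ^ (P.r₁ q + P.ci q p) ∣ nm k c.σ * ((q : ℤ) ^ P.r₁ q * t.2.1) - P.f₂ * c.w ∧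
      t.2.2 ∈ rt k q (P.ci q p) (P.v k q p) t.1 ∧
      (t.1 ≠ P.ci q p → 2 * t.1 < P.v k q p → (q : ℤ) ∣ U.2 * t.2.2 + U.1) := by
  classical
  have hq := hP.1
  have := Fact.mk hq
  have hp := Nat.prime_iff_prime_int.1 hq
  have hc := cop hr c
  obtain ⟨F₁, F₂, G, f1, f2, fg⟩ := exists_F h12
  have hV : c.V ≠ 0 := fun h => hn (by rw [← c.e₅, h]; simp [nm])
  obtain ⟨j, U, hU, hU'⟩ := exists_content hq hV
  have eci : P.ci q p = Nat.findGreatest (fun j => (q : ℤ) ^ j ∣ p.1) (P.r₁ q) := if_pos h12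
  have ecj : P.cj k q p = Nat.findGreatest (P.J2 k q p) (P.r₁ q) := if_pos h12
  have hi1 : P.ci q p ≤ P.r₁ q := eci ▸ Nat.findGreatest_le _
  have hi2 : (q : ℤ) ^ P.ci q p ∣ p.1 := eci ▸
    Nat.findGreatest_spec (P := fun j => (q : ℤ) ^ j ∣ p.1) (Nat.zero_le _) (by simp)
  have hi3 : ∀ m, m ≤ P.r₁ q → (q : ℤ) ^ m ∣ p.1 → m ≤ P.ci q p := fun m h1 h2 =>
    eci ▸ Nat.le_findGreatest h1 h2
  have hj3 : ∀ m, m ≤ P.r₁ q → P.J2 k q p m → m ≤ P.cj k q p := fun m h1 h2 =>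
    ecj ▸ Nat.le_findGreatest h1 h2
  have e1 := c.e₁
  have e2 := c.e₂
  have e4 := c.e₄
  have e5 := c.e₅
  have hB : Dv ((q : ℤ) ^ j) (mc k (mc k c.V c.σ) c.σ) :=
    Dv.mc (Dv.mc (hU ▸ ⟨dvd_mul_right _ _, dvd_mul_right _ _⟩) _) _
  have hB' : ∀ m, Dv ((q : ℤ) ^ m) (mc k (mc k c.V c.σ) c.σ) → m ≤ j := fun m h => by
    have h1 := (h.of_mc (hc m)).of_mc (hc m)
    have h2 := dvd_of_prim hq hU' (e := m) (j := j) (Z := 1) (by simpa only [hU, one_mul] using h1)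
    by_contra h3
    exact hp.not_dvd_one ((dvd_pow_self _ (by omega)).trans h2)
  rw [c.e₃] at hB hB'
  have enm : P.nh k p = (q : ℤ) ^ (2 * j) * (P.a * nm k U) := by
    rw [← e5, hU]
    simp only [nm]
    ring
  have hv : 2 * j ≤ P.v k q p :=
    ((padicValInt_dvd_iff _ _).1 (enm ▸ dvd_mul_right _ _)).resolve_left hn
  have hv' : (q : ℤ) ^ (P.v k q p - 2 * j) ∣ nm k U := by
    have h1 : (q : ℤ) ^ P.v k q p ∣ P.nh k p := padicValInt_dvd _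
    rw [enm, ← Nat.add_sub_cancel' hv, pow_add, mul_dvd_mul_iff_left (pow_ne_zero _ hp.ne_zero)]
      at h1
    exact (hp.coprime_iff_not_dvd.2 hP.2.1).pow_left.dvd_of_dvd_mul_left h1
  have hJ : ∀ m, P.J2 k q p m ↔ (∃ c : ℤ, (q : ℤ) ^ (P.r₁ q + m) ∣ p.1 + k.t * c * (q : ℤ) ^ P.r₁ q ∧
      (q : ℤ) ^ (P.r₁ q + m) ∣ P.g * p.2 - 2 * c * (q : ℤ) ^ P.r₁ q) ∧
      (q : ℤ) ^ (2 * P.r₁ q + 2 * m) ∣ P.nh k p := fun m => Iff.rfl
  have hns : ∀ W, W ∈ ns P q (P.ci q p) p.2 ↔ W < q ^ P.ci q p ∧ (q : ℤ) ^ (P.ci q p + 2 * P.r₁ q) ∣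
      P.a * (P.g * p.2 - (q : ℤ) ^ P.r₁ q * W) * ((q : ℤ) ^ P.r₁ q * W) - P.u * P.f₁ * P.f₂ :=
    fun W => by rw [ns, Finset.mem_filter, Finset.mem_range]
  simp only [hJ] at hj3
  simp only [hns]
  clear hJ hns eci ecj
  rw [f1, f2] at e1 e2 hB hB'
  rw [fg] at e2 hj3
  rw [f1, f2, fg]
  generalize P.r₁ q = r at *
  generalize P.ci q p = i at *
  obtain ⟨d, rfl⟩ := Nat.exists_eq_add_of_le hi1
  obtain ⟨p₁, hp₁⟩ := hi2
  have e2' : nm k c.σ * (G * p.2) = F₁ * c.x + F₂ * c.w :=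
    mul_left_cancel₀ (pow_ne_zero (i + d) hp.ne_zero) (by linear_combination e2)
  have hy : c.y = (q : ℤ) ^ i * (nm k c.σ * p₁ + (q : ℤ) ^ d * F₁ * k.t * c.x +
      (q : ℤ) ^ d * F₁ * (q : ℤ) ^ (i + d) * F₂ * k.n * c.z) := by
    rw [hp₁] at e1
    linear_combination -e1
  have hij : i ≤ j := hB' i ⟨⟨-(nm k c.σ * p₁ + (q : ℤ) ^ d * F₁ * k.t * c.x +
      (q : ℤ) ^ d * F₁ * (q : ℤ) ^ (i + d) * F₂ * k.n * c.z) -
      (q : ℤ) ^ d * F₁ * (q : ℤ) ^ (i + d) * F₂ * k.n * c.z, by simp only [hy]; ring⟩,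
    (q : ℤ) ^ d * (F₁ * c.x - F₂ * c.w + F₁ * (q : ℤ) ^ (i + d) * F₂ * k.t * c.z), by ring⟩
  obtain ⟨W, hW, W₁, hW'⟩ := exists_res (pow_pos hq.pos i) (by exact_mod_cast hc i) (F₂ * c.w)
  rw [Nat.cast_pow] at hW'
  have hρ : ∃ ρ ∈ rt k q i (P.v k q p) j, j ≠ i → 2 * j < P.v k q p → (q : ℤ) ∣ U.2 * ρ + U.1 := by
    by_cases h : j ≠ i ∧ 2 * j < P.v k q p
    · have h1 : (q : ℤ) ∣ nm k U := (dvd_pow_self _ (by omega)).trans hv'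
      have h2 : ¬(q : ℤ) ∣ U.2 := fun h2 => hU' ⟨hp.dvd_of_dvd_pow (n := 2) (by
        have h3 := dvd_sub h1 (h2.mul_left (k.t * U.1 + k.n * U.2))
        rwa [show nm k U - (k.t * U.1 + k.n * U.2) * U.2 = U.1 ^ 2 by simp only [nm]; ring] at h3),
        h2⟩
      have h3 := hp.coprime_iff_not_dvd.2 h2
      obtain ⟨ρ, a1, a2⟩ := exists_res hq.pos h3 (-U.1)
      rw [sub_neg_eq_add] at a2
      refine ⟨ρ, ?_, fun _ _ => a2⟩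
      rw [rt, if_pos h, Finset.mem_filter, Finset.mem_range]
      refine ⟨a1, (h3.pow_right (n := 2)).dvd_of_dvd_mul_left ?_⟩
      have h4 := dvd_add h1 (a2.mul_right (U.2 * ρ - U.1 - k.t * U.2))
      rwa [show nm k U + (U.2 * ρ + U.1) * (U.2 * ρ - U.1 - k.t * U.2) =
        U.2 ^ 2 * ((ρ : ℤ) ^ 2 - k.t * ρ + k.n) by simp only [nm]; ring] at h4
    · exact ⟨0, by rw [rt, if_neg h]; simp, fun h1 h2 => absurd ⟨h1, h2⟩ h⟩
  obtain ⟨ρ, hρ, hρ'⟩ := hρ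
  refine ⟨(j, W, ρ), U, hU, hU', hv, hv', fun hne => ?_, ⟨hW, ?_⟩, ⟨W₁, ?_⟩, hρ, hρ'⟩
  · simp only at hne ⊢
    have hd : d = 0 := by
      by_contra hd
      obtain ⟨d, rfl⟩ := Nat.exists_eq_add_one_of_ne_zero hd
      obtain ⟨s, hs⟩ := (pow_dvd_pow _ (show i + 1 ≤ j by omega)).trans hB.1
      simp only at hs
      have h1 : (q : ℤ) ^ (i + 1) ∣ p.1 := (hc _).dvd_of_dvd_mul_left
        ⟨-s - (q : ℤ) ^ d * F₁ * k.t * c.x -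
          2 * (q : ℤ) ^ d * F₁ * (q : ℤ) ^ (i + (d + 1)) * F₂ * k.n * c.z, by
          linear_combination e1 - hs⟩
      have := hi3 (i + 1) (by omega) h1
      omega
    subst hd
    rw [add_zero] at *
    refine ⟨rfl, by omega, ?_⟩
    obtain ⟨m, hm⟩ : ∃ m, m = min (j - i) i := ⟨_, rfl⟩
    rw [← hm]
    have m1 : m ≤ i := by omega
    have m2 : i + m ≤ j := by omega
    obtain ⟨s₁, hs₁⟩ := (pow_dvd_pow _ m2).trans hB.1
    obtain ⟨s₂, hs₂⟩ := (pow_dvd_pow _ m2).trans hB.2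
    simp only at hs₁ hs₂
    obtain ⟨C, -, C₁, hC⟩ := exists_res (pow_pos hq.pos m) (by exact_mod_cast hc m) (F₂ * c.w)
    rw [Nat.cast_pow] at hC
    obtain ⟨d, rfl⟩ := Nat.exists_eq_add_of_le m1
    refine hj3 m m1 ⟨⟨C, (hc _).dvd_of_dvd_mul_left ⟨-s₁ - k.t * s₂ + k.t * C₁ +
      (q : ℤ) ^ d * F₁ * F₂ * c.z * (k.t ^ 2 - 2 * k.n), ?_⟩, (hc _).dvd_of_dvd_mul_left
        ⟨s₂ - 2 * C₁ - (q : ℤ) ^ d * F₁ * F₂ * c.z * k.t, ?_⟩⟩,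
      enm ▸ (pow_dvd_pow _ (by omega)).mul_right _⟩
    · linear_combination e1 - hs₁ - k.t * hs₂ + k.t * (q : ℤ) ^ (m + d) * hC
    · linear_combination e2 + hs₂ - 2 * (q : ℤ) ^ (m + d) * hC
  · refine ((hc _).pow_right (n := 2)).dvd_of_dvd_mul_left ⟨P.a * (F₁ * F₂ * c.z *
      (nm k c.σ * p₁ + (q : ℤ) ^ d * F₁ * k.t * c.x +
      (q : ℤ) ^ d * F₁ * (q : ℤ) ^ (i + d) * F₂ * k.n * c.z) +
      W₁ * (F₁ * c.x - F₂ * c.w - (q : ℤ) ^ i * W₁)), ?_⟩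
    simp only
    have h1 : nm k c.σ * W = F₂ * c.w + (q : ℤ) ^ i * W₁ := by linear_combination hW'
    have h2 : nm k c.σ ^ 2 * (P.a * (G * p.2 - W) * W - P.u * F₁ * F₂) =
        P.a * (nm k c.σ * (G * p.2) - nm k c.σ * W) * (nm k c.σ * W) -
          nm k c.σ ^ 2 * P.u * F₁ * F₂ := by ring
    rw [e2', h1, ← e4, hy] at h2
    linear_combination (q : ℤ) ^ (2 * (i + d)) * h2
  · simp only
    linear_combination (q : ℤ) ^ (i + d) * hW'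

lemma dvM (h12 : P.r₁ q = P.r₂ q) {i : ℕ} (hi : i ≤ P.r₁ q) (c c' : Cf k P p) {W : ℤ}
    (h : (q : ℤ) ^ (P.r₁ q + i) ∣ nm k c.σ * W - P.f₂ * c.w)
    (h' : (q : ℤ) ^ (P.r₁ q + i) ∣ nm k c'.σ * W - P.f₂ * c'.w) :
    (q : ℤ) ^ (P.r₁ q + i) ∣ P.f₂ * (nm k c'.σ * c.w - nm k c.σ * c'.w) ∧
    (q : ℤ) ^ (P.r₁ q + i) ∣ P.f₁ * P.f₂ * (nm k c'.σ * c.z - nm k c.σ * c'.z) := by
  obtain ⟨F₁, F₂, -, f1, f2, -⟩ := exists_F h12
  constructor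
  · have h1 := dvd_sub (h'.mul_left (nm k c.σ)) (h.mul_left (nm k c'.σ))
    rwa [show nm k c.σ * (nm k c'.σ * W - P.f₂ * c'.w) - nm k c'.σ * (nm k c.σ * W - P.f₂ * c.w) =
      P.f₂ * (nm k c'.σ * c.w - nm k c.σ * c'.w) by ring] at h1
  · rw [f1, f2, pow_add]
    exact (mul_dvd_mul (dvd_mul_right _ _) ((pow_dvd_pow _ hi).mul_right _)).mul_right _

lemma same_type (hT : TypeStmt) (hP : P.Ok q) (hr : 0 < P.r₁ q) (c c' : Cf k P p) {j e : ℕ}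
    {U U' : ℤ × ℤ} (hU : c.V = ((q : ℤ) ^ j * U.1, (q : ℤ) ^ j * U.2))
    (hU' : c'.V = ((q : ℤ) ^ j * U'.1, (q : ℤ) ^ j * U'.2)) (h1 : ¬Dv q U) (h2 : ¬Dv q U')
    (n1 : (q : ℤ) ^ e ∣ nm k U) (n2 : (q : ℤ) ^ e ∣ nm k U')
    (m1 : (q : ℤ) ^ (P.r₁ q + j) ∣ P.f₂ * (nm k c'.σ * c.w - nm k c.σ * c'.w))
    (m2 : (q : ℤ) ^ (P.r₁ q + j) ∣ P.f₁ * P.f₂ * (nm k c'.σ * c.z - nm k c.σ * c'.z)) :
    Dv ((q : ℤ) ^ e) (mc k U' U) := by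
  have hp := Nat.prime_iff_prime_int.1 hP.1
  have c1 : IsCoprime (q : ℤ) (nm k c.σ) := by simpa only [pow_one] using cop hr c 1
  have c2 : IsCoprime (q : ℤ) (nm k c'.σ) := by simpa only [pow_one] using cop hr c' 1
  obtain ⟨k1, k2⟩ := key1 c c'
  obtain ⟨s₁, hs₁⟩ := (pow_dvd_pow _ (show 1 + j ≤ P.r₁ q + j by omega)).trans m1
  obtain ⟨s₂, hs₂⟩ := (pow_dvd_pow _ (show 1 + j ≤ P.r₁ q + j by omega)).trans m2
  rw [hs₁, hs₂, hU, hU'] at k1 k2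
  have k3 : nm k c'.σ * (mc k (mc k U c.σ) c.σ).1 - nm k c.σ * (mc k (mc k U' c'.σ) c'.σ).1 =
      q * (k.t * s₁ - 2 * k.n * s₂) := mul_left_cancel₀ (pow_ne_zero j hp.ne_zero) (by
    simp only [mc] at k1 ⊢
    linear_combination k1)
  have k4 : nm k c'.σ * (mc k (mc k U c.σ) c.σ).2 - nm k c.σ * (mc k (mc k U' c'.σ) c'.σ).2 =
      q * (-2 * s₁ + k.t * s₂) := mul_left_cancel₀ (pow_ne_zero j hp.ne_zero) (by
    simp only [mc] at k2 ⊢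
    linear_combination k2)
  have h3 := hT k q e (mc k (mc k U c.σ) c.σ) (mc k (mc k U' c'.σ) c'.σ) hP.1
    (fun h => h1 ((Dv.of_mc c1 h).of_mc c1)) (fun h => h2 ((Dv.of_mc c2 h).of_mc c2))
    (by rw [nm_mc, nm_mc]; exact (n1.mul_right _).mul_right _)
    (by rw [nm_mc, nm_mc]; exact (n2.mul_right _).mul_right _)
    (c1.dvd_of_dvd_mul_left (by
      generalize mc k (mc k U c.σ) c.σ = B at *
      generalize mc k (mc k U' c'.σ) c'.σ = B' at *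
      refine ⟨(k.t * s₁ - 2 * k.n * s₂) * B.2 - (-2 * s₁ + k.t * s₂) * B.1, ?_⟩
      simp only [mc]
      linear_combination B.2 * k3 - B.1 * k4))
  have e1 : mc k (mc k (mc k U' c'.σ) c'.σ) (mc k (mc k U c.σ) c.σ) =
      mc k (mc k (mc k (mc k (mc k U' U) c'.σ) c'.σ) (c.σ.1 + k.t * c.σ.2, -c.σ.2))
        (c.σ.1 + k.t * c.σ.2, -c.σ.2) := by
    refine Prod.ext ?_ ?_ <;> simp only [mc] <;> ring
  have c3 : IsCoprime ((q : ℤ) ^ e) (nm k (c.σ.1 + k.t * c.σ.2, -c.σ.2)) := by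
    rw [show nm k (c.σ.1 + k.t * c.σ.2, -c.σ.2) = nm k c.σ by simp only [nm]; ring]
    exact cop hr c e
  rw [e1] at h3
  exact (((Dv.of_mc c3 h3).of_mc c3).of_mc (cop hr c' e)).of_mc (cop hr c' e)

end LocC

open LocC

theorem locC : TypeStmt → LocCStmt := by
  intro hT k P q p hP hn h12 hr
  classical
  have hq := hP.1
  choose τ U a1 a2 a3 a4 a5 a6 a7 a8 a9 using data hP hn h12 hr
  have hi : P.ci q p ≤ P.r₁ q := by
    rw [Par.ci, if_pos h12]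
    exact Nat.findGreatest_le _
  have hw : P.wt k q p = ((ns P q (P.ci q p) p.2).card : ℝ) * if P.cj k q p = 0 then 1 else
      1 + 4 * ((P.v k q p - 2 * P.r₁ q : ℕ) : ℝ) * (q : ℝ) ^ P.cj k q p := by
    rw [Par.wt, if_neg (not_not.2 h12), if_neg hr.ne']
    rfl
  unfold LocAt
  rw [hw, ← h12, max_self]
  clear hw
  generalize ns P q (P.ci q p) p.2 = A at *
  generalize P.ci q p = i at *
  generalize P.cj k q p = m at *
  generalize P.v k q p = v at *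
  obtain ⟨S, hS⟩ : ∃ S : Finset ℕ, S = (Finset.Ioc (P.r₁ q) (v / 2)).filter
    fun j => i = P.r₁ q ∧ min (j - P.r₁ q) (P.r₁ q) ≤ m := ⟨_, rfl⟩
  have mS : ∀ j, j ∈ S ↔ (P.r₁ q < j ∧ j ≤ v / 2) ∧ i = P.r₁ q ∧
      min (j - P.r₁ q) (P.r₁ q) ≤ m := fun j => by rw [hS, Finset.mem_filter, Finset.mem_Ioc]
  have hiS : i ∉ S := fun h => by
    have := (mS i).1 h
    omega
  have mT : ∀ t : ℕ × ℕ × ℕ, (t ∈ (insert i S).biUnion fun j => {j} ×ˢ (A ×ˢ rt k q i v j)) ↔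
      t.1 ∈ insert i S ∧ t.2 ∈ A ×ˢ rt k q i v t.1 := fun t => by
    simp only [Finset.mem_biUnion, Finset.mem_product (s := {_}), Finset.mem_singleton]
    exact ⟨fun ⟨j, h1, h2, h3⟩ => h2 ▸ ⟨h1, h3⟩, fun h => ⟨t.1, h.1, rfl, h.2⟩⟩
  refine ⟨(insert i S).biUnion fun j => {j} ×ˢ (A ×ˢ rt k q i v j), τ,
    fun t => P.r₁ q + i - t.1, fun c => (mT _).2 ⟨?_, Finset.mem_product.2 ⟨a6 c, a8 c⟩⟩,
    fun c c' e => ?_, fun c c' e e' => ?_, fun t ht => ?_, ?_⟩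
  · by_cases h : (τ c).1 = i
    · exact h ▸ Finset.mem_insert_self _ _
    · have h1 := a5 c h
      have h2 := a3 c
      exact Finset.mem_insert_of_mem ((mS _).2 ⟨⟨h1.2.1, by omega⟩, h1.1, h1.2.2⟩)
  · have b1 := a1 c'
    have b4 := a4 c'
    have b7 := a7 c'
    have b9 := a9 c'
    rw [← e] at b1 b4 b7 b9
    have h1 : Dv ((q : ℤ) ^ (v - 2 * (τ c).1)) (mc k (U c') (U c)) := by
      by_cases h : (τ c).1 = i
      · obtain ⟨m1, m2⟩ := dvM h12 hi c c' (a7 c) b7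
        exact same_type hT hP hr c c' (a1 c) b1 (a2 c) (a2 c') (a4 c) b4 (h ▸ m1) (h ▸ m2)
      by_cases h' : 2 * (τ c).1 < v
      · refine hT k q _ (U c) (U c') hq (a2 c) (a2 c') (a4 c) b4 ?_
        have h2 := dvd_sub ((a9 c h h').mul_left (U c').2) ((b9 h h').mul_left (U c).2)
        rwa [show (U c').2 * ((U c).2 * ((τ c).2.2 : ℤ) + (U c).1) -
          (U c).2 * ((U c').2 * ((τ c).2.2 : ℤ) + (U c').1) = (mc k (U c') (U c)).2 by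
            simp only [mc]; ring] at h2
      · rw [Nat.sub_eq_zero_of_le (not_lt.1 h'), pow_zero]
        exact ⟨one_dvd _, one_dvd _⟩
    have h2 : mc k c'.V c.V = ((q : ℤ) ^ (2 * (τ c).1) * (mc k (U c') (U c)).1,
        (q : ℤ) ^ (2 * (τ c).1) * (mc k (U c') (U c)).2) := by
      rw [b1, a1 c]
      refine Prod.ext ?_ ?_ <;> simp only [mc] <;> ring
    rw [h2, ← Nat.add_sub_cancel' (a3 c), pow_add]
    exact ⟨mul_dvd_mul_left _ h1.1, mul_dvd_mul_left _ h1.2⟩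
  · have b7 := a7 c'
    rw [← e] at b7
    obtain ⟨m1, m2⟩ := dvM h12 hi c c' (a7 c) b7
    have h1 : Dv ((q : ℤ) ^ (P.r₁ q + i)) (P.f₂ * (nm k c'.σ * c.w - nm k c.σ * c'.w),
      -(P.f₁ * P.f₂ * (nm k c'.σ * c.z - nm k c.σ * c'.z))) := ⟨m1, m2.neg_right⟩
    rw [← key2 c c' e'] at h1
    have h2 := (h1.of_mc (cop hr c' _)).of_mc (cop hr c _)
    rw [a1 c] at h2
    exact dvd_of_prim hq (a2 c) h2
  · beta_reduce
    rcases Finset.mem_insert.1 ((mT t).1 ht).1 with h | h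
    · omega
    · have := (mS _).1 h
      omega
  · obtain ⟨p1, -⟩ := fac_bd k hq
    have hq0 : (0 : ℝ) < q := by exact_mod_cast hq.pos
    have p2 : 0 < k.psi (q ^ P.r₁ q) := by
      rw [psi_pow k hq hr.ne']
      positivity
    rw [Finset.sum_finset_product _ (insert i S) (fun j => A ×ˢ rt k q i v j) mT,
      Finset.sum_insert hiS]
    simp only [Finset.sum_const, Finset.card_product, nsmul_eq_mul, Nat.add_sub_cancel]
    have h1 : (rt k q i v i).card = 1 := by simp [rt]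
    have h2 : ∑ j ∈ S, ((A.card * (rt k q i v j).card : ℕ) : ℝ) * (1 / k.psi (q ^ (P.r₁ q + i - j))) ≤
        ∑ _j ∈ S, (A.card : ℝ) * 2 * (2 * (q : ℝ) ^ m / k.psi (q ^ P.r₁ q)) := by
      refine Finset.sum_le_sum fun j hj => ?_
      obtain ⟨⟨b1, -⟩, b2, b3⟩ := (mS j).1 hj
      have h3 := psi_cmp k hq hr b3
      rw [show P.r₁ q - (j - P.r₁ q) = P.r₁ q + i - j by omega] at h3
      refine (mul_le_mul_of_nonneg_left h3 (Nat.cast_nonneg _)).trans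
        (mul_le_mul_of_nonneg_right ?_ (by positivity))
      exact_mod_cast Nat.mul_le_mul_left _ (card_rt k hq i v j)
    rw [Finset.sum_const, nsmul_eq_mul] at h2
    rw [h1, mul_one]
    refine (add_le_add_right h2 _).trans ?_
    split_ifs with h0
    · have h3 : S = ∅ := Finset.eq_empty_of_forall_notMem fun j hj => by
        have := (mS j).1 hj
        omega
      rw [h3, Finset.card_empty, Nat.cast_zero, zero_mul, add_zero, mul_one, mul_one_div]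
    · have h3 : S.card ≤ v - 2 * P.r₁ q := by
        have := Finset.card_filter_le (Finset.Ioc (P.r₁ q) (v / 2))
          fun j => i = P.r₁ q ∧ min (j - P.r₁ q) (P.r₁ q) ≤ m
        rw [← hS, Nat.card_Ioc] at this
        omega
      have h4 : (S.card : ℝ) ≤ (v - 2 * P.r₁ q : ℕ) := by exact_mod_cast h3
      refine (add_le_add_right (mul_le_mul_of_nonneg_right h4 (by positivity)) _).trans (le_of_eq ?_)
      ring

end Pool.Agent.Lib.MP_9177b7_ag.J.Large
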