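import Pool.Agent.Lib.MP_9177b7_ag.J.DefsA

/-!
Values of a binary quadratic form that are prime to a given number.
-/

noncomputable section

namespace Pool.Agent.Lib.MP_9177b7_ag.J

namespace Tight

open Finset

/-- An integral form together with a map from the norm form. -/
structure Fm (k : Fld) where
  α : ℤ
  β : ℤ
  γ : ℤ
  l1 : ℤ
  l2 : ℤ
  m1 : ℤ
  m2 : ℤ
  rel : ∀ w1 w2 : ℤ, α * (w1 * l1 + w2 * m1) ^ 2 + β * (w1 * l1 + w2 * m1) * (w1 * l2 + w2 * m2) +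
    γ * (w1 * l2 + w2 * m2) ^ 2 = (l1 * m2 - l2 * m1) * (w1 ^ 2 + k.t * w1 * w2 + k.n * w2 ^ 2)

variable {k : Fld}

/-- The form. -/
def Fm.Q (G : Fm k) (u : ℤ × ℤ) : ℤ := G.α * u.1 ^ 2 + G.β * u.1 * u.2 + G.γ * u.2 ^ 2

/-- The determinant. -/
def Fm.j (G : Fm k) : ℤ := G.l1 * G.m2 - G.l2 * G.m1

/-- The density of the zeros of the norm form. -/
def rho (k : Fld) (q : ℕ) : ℝ := 1 - (1 - (q : ℝ)⁻¹) * (1 - (k.chi q : ℝ) / q)

lemma card_box (q : ℕ) [NeZero q] (h : ZMod q × ZMod q → Prop) [DecidablePred h]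
    (h' : ℤ × ℤ → Prop) [DecidablePred h'] (e : ∀ u, h' u ↔ h (u.1, u.2)) :
    ((box 0 q q).filter h').card = (univ.filter h).card := by
  have hq : (0 : ℤ) < q := by exact_mod_cast NeZero.pos q
  have inj : ∀ a b : ℤ, a ∈ Ico (0 : ℤ) (0 + q) → b ∈ Ico (0 : ℤ) (0 + q) →
      (a : ZMod q) = b → a = b := fun a b ha hb e => by
    rw [mem_Ico, zero_add] at ha hb
    rwa [ZMod.intCast_eq_intCast_iff', Int.emod_eq_of_lt ha.1 ha.2,
      Int.emod_eq_of_lt hb.1 hb.2] at e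
  have hv : ∀ a : ZMod q, (a.val : ℤ) ∈ Ico (0 : ℤ) (0 + q) := fun a =>
    mem_Ico.2 ⟨by positivity, by rw [zero_add]; exact_mod_cast ZMod.val_lt a⟩
  refine card_bij (fun u _ => ((u.1 : ZMod q), (u.2 : ZMod q))) (fun u hu => ?_)
    (fun u hu v hv e => ?_) fun p hp => ?_
  · exact mem_filter.2 ⟨mem_univ _, (e u).1 (mem_filter.1 hu).2⟩
  · have h1 := mem_product.1 (mem_filter.1 hu).1
    have h2 := mem_product.1 (mem_filter.1 hv).1
    exact Prod.ext (inj _ _ h1.1 h2.1 (congrArg Prod.fst e)) (inj _ _ h1.2 h2.2 (congrArg Prod.snd e))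
  · have e' : ((((p.1.val : ℤ), (p.2.val : ℤ)).1 : ZMod q),
        (((p.1.val : ℤ), (p.2.val : ℤ)).2 : ZMod q)) = p := by simp
    exact ⟨((p.1.val : ℤ), (p.2.val : ℤ)), mem_filter.2 ⟨mem_product.2 ⟨hv _, hv _⟩,
      (e _).2 (by rw [e']; exact (mem_filter.1 hp).2)⟩, e'⟩

lemma chi_eq (q : ℕ) [NeZero q] : k.chi q =
    ((univ.filter fun r : ZMod q => r ^ 2 - k.t * r + k.n = 0).card : ℤ) - 1 := by
  rw [Fld.chi]
  congr 2
  have e : ∀ r : ℕ, (q : ℤ) ∣ (r : ℤ) ^ 2 - k.t * r + k.n ↔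
      (r : ZMod q) ^ 2 - k.t * r + k.n = 0 := fun r => by
    rw [← ZMod.intCast_zmod_eq_zero_iff_dvd]
    push_cast
    rfl
  refine card_bij (fun r _ => (r : ZMod q)) (fun r hr => ?_) (fun r hr r' hr' h => ?_) fun p hp => ?_
  · exact mem_filter.2 ⟨mem_univ _, (e r).1 (mem_filter.1 hr).2⟩
  · have := congrArg ZMod.val h
    rwa [ZMod.val_cast_of_lt (mem_range.1 (mem_filter.1 hr).1),
      ZMod.val_cast_of_lt (mem_range.1 (mem_filter.1 hr').1)] at this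
  · exact ⟨p.val, mem_filter.2 ⟨mem_range.2 (ZMod.val_lt p),
      (e _).2 (by rw [ZMod.natCast_zmod_val]; exact (mem_filter.1 hp).2)⟩, ZMod.natCast_zmod_val p⟩

lemma card_zero {F : Type} [Field F] [Fintype F] [DecidableEq F] (t n : F) :
    (univ.filter fun w : F × F => w.1 ^ 2 + t * w.1 * w.2 + n * w.2 ^ 2 = 0).card =
      (Fintype.card F - 1) * (univ.filter fun r : F => r ^ 2 - t * r + n = 0).card + 1 := by
  have e : (univ.filter fun w : F × F => w.1 ^ 2 + t * w.1 * w.2 + n * w.2 ^ 2 = 0) =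
      insert 0 (((univ.erase (0 : F)) ×ˢ (univ.filter fun r : F => r ^ 2 - t * r + n = 0)).image
        fun p => (p.2 * p.1, -p.1)) := by
    ext ⟨x, y⟩
    simp only [mem_filter, mem_univ, true_and, mem_insert, mem_image, mem_product, mem_erase,
      and_true, Prod.exists, Prod.mk.injEq, Prod.mk_eq_zero]
    constructor
    · intro h
      by_cases hy : y = 0
      · left
        subst hy
        exact ⟨by simpa using h, rfl⟩
      · right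
        refine ⟨-y, -x / y, ⟨neg_ne_zero.2 hy, ?_⟩, by field_simp, neg_neg y⟩
        field_simp
        linear_combination h
    · rintro (⟨rfl, rfl⟩ | ⟨z, r, ⟨-, h⟩, rfl, rfl⟩)
      · simp
      · linear_combination z ^ 2 * h
  rw [e, card_insert_of_notMem, card_image_of_injOn, card_product, card_erase_of_mem (mem_univ _),
    card_univ]
  · rintro ⟨z, r⟩ h ⟨z', r'⟩ _ e
    have hz : z ≠ 0 := (mem_erase.1 (mem_product.1 (mem_coe.1 h)).1).1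
    obtain ⟨e1, e2⟩ := Prod.mk.inj e
    obtain rfl : z = z' := neg_injective e2
    exact Prod.ext rfl (mul_right_cancel₀ hz e1)
  · simp only [mem_image, mem_product, mem_erase, Prod.exists, not_exists, not_and]
    intro z r h e
    exact h.1.1 (neg_eq_zero.1 (congrArg Prod.snd e))

lemma den_eq (G : Fm k) {q : ℕ} (hq : q.Prime) (hj : ¬ (q : ℤ) ∣ G.j)
    (dec : DecidablePred fun u => (q : ℤ) ∣ G.Q u) :
    den q (fun u => @ite ℝ ((q : ℤ) ∣ G.Q u) (dec u) 1 0) = rho k q := by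
  classical
  have := Fact.mk hq
  have hj' : (G.j : ZMod q) ≠ 0 := fun h => hj ((ZMod.intCast_zmod_eq_zero_iff_dvd _ _).1 h)
  let M : ZMod q × ZMod q → ZMod q × ZMod q :=
    fun w => (w.1 * G.l1 + w.2 * G.m1, w.1 * G.l2 + w.2 * G.m2)
  have hM : Function.Bijective M := by
    refine Finite.injective_iff_bijective.1 fun w w' e => ?_
    obtain ⟨e1, e2⟩ := Prod.mk.inj e
    refine Prod.ext (mul_left_cancel₀ hj' ?_) (mul_left_cancel₀ hj' ?_)
    · rw [Fm.j]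
      push_cast
      linear_combination (G.m2 : ZMod q) * e1 - (G.m1 : ZMod q) * e2
    · rw [Fm.j]
      push_cast
      linear_combination (G.l1 : ZMod q) * e2 - (G.l2 : ZMod q) * e1
  have h1 := card_box q (fun p => (G.α : ZMod q) * p.1 ^ 2 + G.β * p.1 * p.2 + G.γ * p.2 ^ 2 = 0)
    (fun u => (q : ℤ) ∣ G.Q u) fun u => by
      rw [← ZMod.intCast_zmod_eq_zero_iff_dvd, Fm.Q]
      push_cast
      rfl
  have h2 : (univ.filter fun w : ZMod q × ZMod q =>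
      w.1 ^ 2 + (k.t : ZMod q) * w.1 * w.2 + (k.n : ZMod q) * w.2 ^ 2 = 0).card =
      (univ.filter fun p : ZMod q × ZMod q =>
        (G.α : ZMod q) * p.1 ^ 2 + G.β * p.1 * p.2 + G.γ * p.2 ^ 2 = 0).card := by
    refine card_bijective M hM fun w => ?_
    obtain ⟨w1, w2⟩ := w
    obtain ⟨w1, rfl⟩ := ZMod.intCast_surjective w1
    obtain ⟨w2, rfl⟩ := ZMod.intCast_surjective w2
    have h := congrArg (Int.cast : ℤ → ZMod q) (G.rel w1 w2)
    rw [show G.l1 * G.m2 - G.l2 * G.m1 = G.j from rfl] at h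
    push_cast at h
    simp only [mem_filter, mem_univ, true_and, M]
    rw [h, mul_eq_zero, or_iff_right hj']
  have hq0 : (q : ℝ) ≠ 0 := by exact_mod_cast hq.ne_zero
  rw [den, sum_boole, h1, ← h2, card_zero, ZMod.card, rho, chi_eq]
  push_cast [Nat.cast_sub hq.one_le]
  field_simp
  ring

lemma rho_bd {q : ℕ} (hq : q.Prime) (h : |k.chi q| ≤ 1) :
    0 ≤ rho k q ∧ rho k q ≤ 2 / q ∧ rho k q ≤ 3 / 4 ∧ 0 < 1 - (k.chi q : ℝ) / q := by
  have h2 : (2 : ℝ) ≤ q := by exact_mod_cast hq.two_le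
  have h3 : |(k.chi q : ℝ)| ≤ 1 := by exact_mod_cast h
  obtain ⟨h4, h5⟩ := abs_le.1 h3
  have h6 : 0 < (q : ℝ)⁻¹ := by positivity
  have h7 : (q : ℝ)⁻¹ ≤ 1 / 2 := by rw [one_div]; exact inv_anti₀ two_pos h2
  rw [rho, div_eq_mul_inv, div_eq_mul_inv 2]
  generalize (q : ℝ)⁻¹ = x at *
  generalize (k.chi q : ℝ) = c at *
  have h8 : 0 ≤ (1 + c) * x := mul_nonneg (by linarith) h6.le
  have h9 : 0 ≤ (1 - c) * x := mul_nonneg (by linarith) h6.le
  refine ⟨?_, ?_, ?_, ?_⟩ <;> nlinarith [mul_nonneg h8 h6.le, mul_nonneg h9 h6.le]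

lemma exp_le {x z : ℝ} (h0 : 0 ≤ x) (h1 : x ≤ 3 / 4) (h2 : x ≤ 2 * z) :
    Real.exp (-x) ≤ (1 - x) * Real.exp (16 * z ^ 2) := by
  have h3 : 0 < 1 - x := by linarith
  have h4 : 1 / (1 - x) ≤ x + 16 * z ^ 2 + 1 := by
    rw [div_le_iff₀ h3]
    nlinarith [mul_nonneg h0 h0, mul_nonneg (sq_nonneg z) (by linarith : 0 ≤ 3 / 4 - x)]
  have h5 := h4.trans (Real.add_one_le_exp _)
  rw [div_le_iff₀ h3, Real.exp_add] at h5
  rw [Real.exp_neg, inv_le_iff_one_le_mul₀ (Real.exp_pos x)]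
  linarith

lemma card_large {f c : ℕ} (hf : 0 < f) (hc : c ∣ f) {θ : ℝ} (hθ : 0 < θ) {S : Finset ℕ}
    (hS : S ⊆ c.primeFactors) (h : ∀ q ∈ S, (f : ℝ) ^ θ ≤ q) : (S.card : ℝ) ≤ 1 / θ := by
  rcases S.eq_empty_or_nonempty with rfl | ⟨q, hq⟩
  · simp only [card_empty, Nat.cast_zero]
    positivity
  have h1 : (1 : ℝ) < f := by
    have := (Nat.prime_of_mem_primeFactors (hS hq)).one_lt.trans_le
      (Nat.le_of_dvd hf ((Nat.dvd_of_mem_primeFactors (hS hq)).trans hc))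
    exact_mod_cast this
  have h2 : ∏ q ∈ S, q ≤ f := Nat.le_of_dvd hf
    (((prod_dvd_prod_of_subset _ _ _ hS).trans (Nat.prod_primeFactors_dvd c)).trans hc)
  have h3 : ((f : ℝ) ^ θ) ^ S.card ≤ (f : ℝ) ^ (1 : ℝ) := by
    rw [← prod_const, Real.rpow_one]
    refine (prod_le_prod (fun _ _ => by positivity) h).trans ?_
    rw [← Nat.cast_prod]
    exact_mod_cast h2
  rw [← Real.rpow_mul_natCast (by positivity), Real.rpow_le_rpow_left_iff h1] at h3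
  rw [le_div_iff₀ hθ]
  linarith

/-- The points of the box where the form is prime to `c`. -/
def pts (G : Fm k) (c : ℕ) (X : ℝ) : Finset (ℤ × ℤ) :=
  (box (-(⌊2 * √X⌋₊ : ℤ), -(⌊2 * √X⌋₊ : ℤ)) (2 * ⌊2 * √X⌋₊ + 1) (2 * ⌊2 * √X⌋₊ + 1)).filter
    fun u => ∀ q ∈ c.primeFactors, ¬ (q : ℤ) ∣ G.Q u

lemma side {X : ℝ} (hX : 1 ≤ X) : √X ≤ ((2 * ⌊2 * √X⌋₊ + 1 : ℕ) : ℝ) ∧
    ((2 * ⌊2 * √X⌋₊ + 1 : ℕ) : ℝ) * ((2 * ⌊2 * √X⌋₊ + 1 : ℕ) : ℝ) ≤ 25 * X := by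
  have h1 : 1 ≤ √X := Real.one_le_sqrt.2 hX
  have h2 := Nat.floor_le (by positivity : 0 ≤ 2 * √X)
  have h3 := Nat.lt_floor_add_one (2 * √X)
  have h4 := Real.mul_self_sqrt (by linarith : 0 ≤ X)
  have h5 : (0 : ℝ) ≤ ⌊2 * √X⌋₊ := Nat.cast_nonneg _
  push_cast
  constructor
  · linarith
  · nlinarith

lemma card_pts (G : Fm k) (c : ℕ) {X : ℝ} (hX : 1 ≤ X) : ((pts G c X).card : ℝ) ≤ 25 * X := by
  refine le_trans ?_ (side hX).2
  have := card_filter_le (box (-(⌊2 * √X⌋₊ : ℤ), -(⌊2 * √X⌋₊ : ℤ)) (2 * ⌊2 * √X⌋₊ + 1)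
    (2 * ⌊2 * √X⌋₊ + 1)) fun u => ∀ q ∈ c.primeFactors, ¬ (q : ℤ) ∣ G.Q u
  rw [box, card_product, Int.card_Ico, add_sub_cancel_left, Int.toNat_natCast] at this
  exact_mod_cast this

lemma mem_pts (G : Fm k) (c : ℕ) {X : ℝ} {u : ℤ × ℤ} (h1 : ((u.1 ^ 2 : ℤ) : ℝ) ≤ 4 * X)
    (h2 : ((u.2 ^ 2 : ℤ) : ℝ) ≤ 4 * X) (h : ∀ q ∈ c.primeFactors, ¬ (q : ℤ) ∣ G.Q u) :
    u ∈ pts G c X := by
  have key : ∀ a : ℤ, ((a ^ 2 : ℤ) : ℝ) ≤ 4 * X →
      a ∈ Ico (-(⌊2 * √X⌋₊ : ℤ)) (-(⌊2 * √X⌋₊ : ℤ) + (2 * ⌊2 * √X⌋₊ + 1 : ℕ)) := fun a ha => by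
    have h3 : ((a.natAbs : ℕ) : ℝ) ≤ 2 * √X := by
      rw [show 2 * √X = √(4 * X) by
        rw [Real.sqrt_mul (by norm_num), show (4 : ℝ) = 2 ^ 2 by norm_num,
          Real.sqrt_sq (by norm_num)]]
      refine Real.le_sqrt_of_sq_le ?_
      rw [← Int.natAbs_sq] at ha
      exact_mod_cast ha
    have := Nat.le_floor h3
    rw [mem_Ico]
    omega
  exact mem_filter.2 ⟨mem_product.2 ⟨key _ h1, key _ h2⟩, h⟩

theorem count (hS : SieveStmt) (k : Fld) (hχ : ∀ q : ℕ, q.Prime → |k.chi q| ≤ 1) :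
    ∃ C : ℝ, 0 < C ∧ ∀ (G : Fm k) (c f : ℕ) (X : ℝ), 0 < f → c ∣ f → IsCoprime G.j f → 1 ≤ X →
      (f : ℝ) ≤ X ^ 3 → ((pts G c X).card : ℝ) ≤ C * X * ∏ q ∈ c.primeFactors, (1 - rho k q) := by
  classical
  obtain ⟨δ, C, hδ, hC, hS⟩ := hS 2
  have hsum : Summable fun n : ℕ => 16 * ((n : ℝ)⁻¹) ^ 2 := by
    simpa using (Real.summable_nat_pow_inv.2 one_lt_two).mul_left 16
  refine ⟨C * 25 * (Real.exp (∑' n : ℕ, 16 * ((n : ℝ)⁻¹) ^ 2) * 4 ^ (1 / (δ / 6))),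
    by positivity, fun G c f X hf hc hj hX hfX => ?_⟩
  set P := c.primeFactors.filter fun q : ℕ => (q : ℝ) ≤ √X ^ δ with hP
  have hp : ∀ q ∈ c.primeFactors, q.Prime := fun q hq => Nat.prime_of_mem_primeFactors hq
  have hd : ∀ q ∈ P, den q (fun u => @ite ℝ ((q : ℤ) ∣ G.Q u) (Classical.propDecidable _) 1 0) =
      rho k q := by
    intro q hq
    have hq' := (mem_filter.1 hq).1
    refine den_eq G (hp q hq') (fun h => ?_) _
    have h1 : (q : ℤ) ∣ f := by exact_mod_cast (Nat.dvd_of_mem_primeFactors hq').trans hc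
    have := Int.isUnit_iff_natAbs_eq.1 (hj.isUnit_of_dvd' h h1)
    exact (hp q hq').one_lt.ne' (by simpa using this)
  have hb := fun q hq => rho_bd (hp q hq) (hχ q (hp q hq))
  have h1 := hS (√X) (-(⌊2 * √X⌋₊ : ℤ), -(⌊2 * √X⌋₊ : ℤ)) _ _ P (fun q u => (q : ℤ) ∣ G.Q u)
    (Real.one_le_sqrt.2 hX) (side hX).1 (side hX).1
    (fun q hq => ⟨hp q (mem_filter.1 hq).1, (mem_filter.1 hq).2⟩)
    (fun q _ u v ⟨⟨a, ha⟩, b, hb⟩ ⟨z, hz⟩ => ⟨z - (G.α * a * (u.1 + v.1) +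
      G.β * (a * u.2 + v.1 * b) + G.γ * b * (u.2 + v.2)), by
        rw [Fm.Q] at hz ⊢
        linear_combination hz - (G.α * (u.1 + v.1) + G.β * u.2) * ha -
          (G.β * v.1 + G.γ * (u.2 + v.2)) * hb⟩)
    (fun q hq => (hd q hq).trans_le (hb q (mem_filter.1 hq).1).2.1)
  have h2 : ((pts G c X).card : ℝ) ≤ C * (25 * X) * Real.exp (-∑ q ∈ P, rho k q) := by
    refine le_trans ?_ (h1.trans ?_)
    · refine Nat.cast_le.2 (card_le_card fun u hu => ?_)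
      rw [pts, mem_filter] at hu
      simp only [mem_filter]
      exact ⟨hu.1, fun q hq => hu.2 q (mem_filter.1 hq).1⟩
    · rw [mul_assoc C, sum_congr rfl hd]
      exact mul_le_mul_of_nonneg_right (mul_le_mul_of_nonneg_left (side hX).2 hC.le)
        (Real.exp_pos _).le
  have h3 : Real.exp (-∑ q ∈ P, rho k q) ≤
      (∏ q ∈ P, (1 - rho k q)) * Real.exp (∑' n : ℕ, 16 * ((n : ℝ)⁻¹) ^ 2) := by
    rw [← sum_neg_distrib, Real.exp_sum]
    refine (prod_le_prod (fun _ _ => (Real.exp_pos _).le) fun (q : ℕ) hq =>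
      exp_le (z := (q : ℝ)⁻¹) (hb q (mem_filter.1 hq).1).1 (hb q (mem_filter.1 hq).1).2.2.1
        (hb q (mem_filter.1 hq).1).2.1).trans ?_
    rw [prod_mul_distrib, ← Real.exp_sum]
    refine mul_le_mul_of_nonneg_left (Real.exp_le_exp.2 (hsum.sum_le_tsum _ fun _ _ => by
      positivity)) (prod_nonneg fun q hq => ?_)
    linarith [(hb q (mem_filter.1 hq).1).2.2.1]
  set S := c.primeFactors.filter fun q : ℕ => ¬ (q : ℝ) ≤ √X ^ δ with hSd
  have h4 : (S.card : ℝ) ≤ 1 / (δ / 6) := by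
    refine card_large hf hc (by positivity) (filter_subset _ _) fun q hq => ?_
    refine le_trans ?_ (not_le.1 (mem_filter.1 hq).2).le
    have e : √X ^ δ = (X ^ 3) ^ (δ / 6) := by
      rw [Real.sqrt_eq_rpow, ← Real.rpow_natCast, ← Real.rpow_mul (by linarith),
        ← Real.rpow_mul (by linarith)]
      congr 1
      push_cast
      ring
    rw [e]
    exact Real.rpow_le_rpow (by positivity) hfX (by positivity)
  have h5 : (1 : ℝ) ≤ (∏ q ∈ S, (1 - rho k q)) * 4 ^ (1 / (δ / 6)) := by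
    calc (1 : ℝ) = ∏ q ∈ S, 1 := prod_const_one.symm
      _ ≤ ∏ q ∈ S, (1 - rho k q) * 4 := prod_le_prod (fun _ _ => zero_le_one) fun q hq => by
        linarith [(hb q (mem_filter.1 hq).1).2.2.1]
      _ ≤ _ := by
        rw [prod_mul_distrib, prod_const, ← Real.rpow_natCast]
        refine mul_le_mul_of_nonneg_left (Real.rpow_le_rpow_of_exponent_le (by norm_num) h4)
          (prod_nonneg fun q hq => ?_)
        linarith [(hb q (mem_filter.1 hq).1).2.2.1]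
  have h6 : 0 ≤ ∏ q ∈ P, (1 - rho k q) := prod_nonneg fun q hq => by
    linarith [(hb q (mem_filter.1 hq).1).2.2.1]
  rw [← prod_filter_mul_prod_filter_not c.primeFactors fun q : ℕ => (q : ℝ) ≤ √X ^ δ]
  calc _ ≤ C * (25 * X) * ((∏ q ∈ P, (1 - rho k q)) *
        Real.exp (∑' n : ℕ, 16 * ((n : ℝ)⁻¹) ^ 2)) * 1 := by
        rw [mul_one]
        exact h2.trans (mul_le_mul_of_nonneg_left h3 (by positivity))
    _ ≤ C * (25 * X) * ((∏ q ∈ P, (1 - rho k q)) * Real.exp (∑' n : ℕ, 16 * ((n : ℝ)⁻¹) ^ 2)) *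
        ((∏ q ∈ S, (1 - rho k q)) * 4 ^ (1 / (δ / 6))) :=
        mul_le_mul_of_nonneg_left h5 (by positivity)
    _ = _ := by ring

end Tight

end Pool.Agent.Lib.MP_9177b7_ag.J
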