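import Pool.Agent.Lib.MP_9177b7_ag.J.LargeD
import Pool.Agent.Lib.MP_9177b7_ag.J.Shiu1
import Pool.Agent.Lib.MP_9177b7_ag.J.Tight1
import Pool.Agent.Lib.MP_9177b7_ag.J.Psi
import Pool.Agent.Lib.MP_9177b7_ag.J.Sieve

/-!
Local densities at the primes which do not divide the conductors.
-/

noncomputable section

namespace Pool.Agent.Lib.MP_9177b7_ag.J.Large

open Finset Polynomial

namespace PackB

lemma den_per {M N : ℕ} (hM : 0 < M) (hN : 0 < N) {h : ℤ × ℤ → ℝ} (hp : Shiu.Per M h) :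
    den (M * N) h = den M h := by
  simp only [den]
  rw [Shiu.sum_split_eq hM]
  have : ∀ u₀ ∈ box 0 M M, ∑ u ∈ box 0 N N, h (Shiu.af M u₀ u) = (N : ℝ) ^ 2 * h u₀ :=
    fun u₀ _ => by
      rw [sum_congr rfl fun u _ => hp _ _ (Shiu.cg_af M u₀ u), sum_const, Shiu.card_box,
        nsmul_eq_mul]
      push_cast
      ring
  rw [sum_congr rfl this, ← mul_sum]
  push_cast
  field_simp

lemma den_mono (M : ℕ) {h h' : ℤ × ℤ → ℝ} (hh : ∀ u, h u ≤ h' u) : den M h ≤ den M h' :=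
  div_le_div_of_nonneg_right (sum_le_sum fun u _ => hh u) (by positivity)

lemma den_mul_left (M : ℕ) (c : ℝ) (h : ℤ × ℤ → ℝ) : den M (fun u => c * h u) = c * den M h := by
  simp only [den, ← mul_sum, mul_div_assoc]

lemma den_const {M : ℕ} (hM : 0 < M) (c : ℝ) : den M (fun _ => c) = c := by
  simp only [den, sum_const, Shiu.card_box, nsmul_eq_mul]
  push_cast
  field_simp

lemma den_rows (M : ℕ) (h : ℤ × ℤ → ℝ) :
    den M h = (∑ b ∈ range M, ∑ x ∈ range M, h ((x : ℤ), (b : ℤ))) / (M : ℝ) ^ 2 := by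
  rw [den, Sieve.sum_box, sum_comm]
  simp only [Prod.fst_zero, Prod.snd_zero, zero_add]

/-- The number of points of an affine conic. -/
lemma card_conic {F : Type} [Field F] [Fintype F] [DecidableEq F] (hF : Fintype.card F % 2 = 1)
    (h2 : (2 : F) ≠ 0) (t n c : F) (hD : t ^ 2 - 4 * n ≠ 0) (hc : c ≠ 0) :
    (univ.filter fun w : F × F => w.1 ^ 2 + t * w.1 * w.2 + n * w.2 ^ 2 = c).card +
      (univ.filter fun r : F => r ^ 2 - t * r + n = 0).card = Fintype.card F + 1 := by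
  have hsurj : ∀ d : F, ∃ z : F × F, z.1 ^ 2 + t * z.1 * z.2 + n * z.2 ^ 2 = d := by
    intro d
    have hg : degree (C (-(t ^ 2 - 4 * n)) * X ^ 2 + C 0 * X + C (-(4 * d)) : F[X]) = 2 :=
      degree_quadratic (neg_ne_zero.2 hD)
    obtain ⟨a, b, hab⟩ := FiniteField.exists_root_sum_quadratic (degree_X_pow 2) hg hF
    simp only [eval_add, eval_mul, eval_C, eval_pow, eval_X] at hab
    refine ⟨((a - t * b) / 2, b), ?_⟩
    have h4 : (4 : F) ≠ 0 := by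
      have : (4 : F) = 2 * 2 := by norm_num
      rw [this]; exact mul_ne_zero h2 h2
    refine mul_left_cancel₀ h4 ?_
    have e : (4 : F) * ((a - t * b) / 2) ^ 2 = (a - t * b) ^ 2 := by field_simp; ring
    have e' : (2 : F) * ((a - t * b) / 2) = a - t * b := by field_simp
    linear_combination hab + e + 2 * t * b * e'
  have hle : ∀ c c' : F, c ≠ 0 → c' ≠ 0 →
      (univ.filter fun w : F × F => w.1 ^ 2 + t * w.1 * w.2 + n * w.2 ^ 2 = c).card ≤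
      (univ.filter fun w : F × F => w.1 ^ 2 + t * w.1 * w.2 + n * w.2 ^ 2 = c').card := by
    intro c c' hc hc'
    obtain ⟨z, hz⟩ := hsurj (c' / c)
    have hz0 : z.1 ^ 2 + t * z.1 * z.2 + n * z.2 ^ 2 ≠ 0 := by
      rw [hz]; exact div_ne_zero hc' hc
    refine card_le_card_of_injOn
      (fun w => (w.1 * z.1 - n * w.2 * z.2, w.1 * z.2 + w.2 * z.1 + t * w.2 * z.2))
      (fun w hw => ?_) fun w _ w' _ e => ?_
    · have h1 := (mem_filter.1 (mem_coe.1 hw)).2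
      refine mem_coe.2 (mem_filter.2 ⟨mem_univ _, ?_⟩)
      have h3 : c * (c' / c) = c' := by field_simp
      rw [← h3, ← hz, ← h1]
      ring
    · obtain ⟨e1, e2⟩ := Prod.mk.inj e
      refine Prod.ext (mul_left_cancel₀ hz0 ?_) (mul_left_cancel₀ hz0 ?_)
      · linear_combination (z.1 + t * z.2) * e1 + n * z.2 * e2
      · linear_combination z.1 * e2 - z.2 * e1
  have htot := card_eq_sum_card_fiberwise (s := (univ : Finset (F × F))) (t := (univ : Finset F))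
    (f := fun w : F × F => w.1 ^ 2 + t * w.1 * w.2 + n * w.2 ^ 2) fun _ _ => mem_univ _
  rw [← add_sum_erase _ _ (mem_univ (0 : F)), Tight.card_zero,
    sum_congr rfl (fun d hd => le_antisymm (hle d c (mem_erase.1 hd).1 hc)
      (hle c d hc (mem_erase.1 hd).1)), sum_const, card_erase_of_mem (mem_univ _), card_univ,
    card_univ, Fintype.card_prod, smul_eq_mul] at htot
  have h1 : 1 < Fintype.card F := Fintype.one_lt_card
  obtain ⟨m, hm⟩ : ∃ m, Fintype.card F = m + 1 := ⟨Fintype.card F - 1, by omega⟩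
  rw [hm] at htot h1 ⊢
  simp only [Nat.add_sub_cancel] at htot
  refine Nat.eq_of_mul_eq_mul_left (by omega : 0 < m) ?_
  nlinarith

variable (k : Fld) (P : Par)

lemma nh_eq (x b : ℤ) : P.nh k (x, b) = P.a * x ^ 2 + P.a * k.t * P.g * b * x +
    (P.a * k.n * P.g ^ 2 * b ^ 2 + k.D * P.f₁ * P.f₂ * P.u) := by
  simp only [Par.nh, Par.U, nm]
  ring

lemma nh_cg {M : ℕ} {u v : ℤ × ℤ} (h : Cg M u v) : (M : ℤ) ∣ P.nh k u - P.nh k v := by
  obtain ⟨⟨s, hs⟩, r, hr⟩ := h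
  obtain ⟨u1, u2⟩ := u
  obtain ⟨v1, v2⟩ := v
  simp only at hs hr
  obtain rfl : u1 = v1 + M * s := by linarith
  obtain rfl : u2 = v2 + M * r := by linarith
  rw [nh_eq, nh_eq]
  exact ⟨P.a * (2 * v1 * s + M * s ^ 2) + P.a * k.t * P.g * (v2 * s + r * v1 + M * r * s) +
    P.a * k.n * P.g ^ 2 * (2 * v2 * r + M * r ^ 2), by ring⟩

lemma lv_cg {q i j : ℕ} (hij : j ≤ i) {u v : ℤ × ℤ} (h : Cg (q ^ i) u v)
    (hu : (q : ℤ) ^ j ∣ P.nh k u) : (q : ℤ) ^ j ∣ P.nh k v := by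
  have h1 := nh_cg k P h
  push_cast at h1
  have h2 := dvd_sub hu ((pow_dvd_pow _ hij).trans h1)
  rwa [sub_sub_cancel] at h2

/-- The indicator function of the points of level at least `j`. -/
def ind (q j : ℕ) (u : ℤ × ℤ) : ℝ := if (q : ℤ) ^ j ∣ P.nh k u then 1 else 0

lemma ind_nonneg (q j : ℕ) (u : ℤ × ℤ) : 0 ≤ ind k P q j u := by
  unfold ind; split_ifs <;> norm_num

lemma den_ind {q : ℕ} (hq : 0 < q) {i j : ℕ} (hij : j ≤ i) :
    den (q ^ i) (ind k P q j) = den (q ^ j) (ind k P q j) := by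
  obtain ⟨d, rfl⟩ := Nat.exists_eq_add_of_le hij
  rw [pow_add]
  refine den_per (pow_pos hq _) (pow_pos hq _) fun u v huv => ?_
  have : (q : ℤ) ^ j ∣ P.nh k u ↔ (q : ℤ) ^ j ∣ P.nh k v :=
    ⟨lv_cg k P le_rfl huv, lv_cg k P le_rfl (Shiu.Cg.symm huv)⟩
  simp only [ind, this]

lemma row_eq (q j : ℕ) (b : ℤ) : ∑ x ∈ range (q ^ j), ind k P q j ((x : ℤ), b) =
    (((range (q ^ j)).filter fun x : ℕ => (q : ℤ) ^ j ∣ P.a * x ^ 2 + P.a * k.t * P.g * b * x +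
      (P.a * k.n * P.g ^ 2 * b ^ 2 + k.D * P.f₁ * P.f₂ * P.u)).card : ℝ) := by
  simp only [ind, nh_eq, sum_boole]

variable {P}

lemma den_le (hR : RootStmt) {q : ℕ} (hq : P.Ok q) (j : ℕ) :
    den (q ^ j) (ind k P q j) ≤ 2 * (q : ℝ) ^ (j / 2) / (q : ℝ) ^ j := by
  have hq0 : (0 : ℝ) < q := by exact_mod_cast hq.1.pos
  rw [den_rows]
  have h1 : ∀ b ∈ range (q ^ j), ∑ x ∈ range (q ^ j), ind k P q j ((x : ℤ), (b : ℤ)) ≤
      2 * (q : ℝ) ^ (j / 2) := fun b _ => by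
    rw [row_eq]
    exact_mod_cast (hR q j _ _ _ hq.1 hq.2.1).1
  have h2 := sum_le_sum h1
  rw [sum_const, card_range, nsmul_eq_mul] at h2
  push_cast at h2 ⊢
  rw [div_le_div_iff₀ (by positivity) (by positivity)]
  calc _ ≤ ((q : ℝ) ^ j * (2 * (q : ℝ) ^ (j / 2))) * (q : ℝ) ^ j := by gcongr
    _ = _ := by ring

lemma not_dvd_f {q f : ℕ} (hq : q.Prime) (hf : 0 < f) (h : padicValNat q f = 0) : ¬ q ∣ f := by
  rcases padicValNat.eq_zero_iff.1 h with h | h | h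
  · exact absurd h hq.one_lt.ne'
  · exact absurd h hf.ne'
  · exact h

lemma den_two (hR : RootStmt) {q : ℕ} (hq : P.Ok q) (h₁ : P.r₁ q = 0) :
    den (q ^ 2) (ind k P q 2) ≤ (6 + (k.D : ℝ) ^ 2) / (q : ℝ) ^ 2 := by
  have hq0 : (0 : ℝ) < q := by exact_mod_cast hq.1.pos
  have hp : Prime (q : ℤ) := Nat.prime_iff_prime_int.1 hq.1
  by_cases hD : (q : ℤ) ∣ k.D
  · have h1 : den (q ^ 2) (ind k P q 2) ≤ 1 := by
      rw [← den_const (pow_pos hq.1.pos 2) 1]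
      exact den_mono _ fun u => by unfold ind; split_ifs <;> norm_num
    have h2 : (q : ℤ) ^ 2 ≤ k.D ^ 2 :=
      Int.le_of_dvd (sq_pos_of_ne_zero (D_neg k).ne) (pow_dvd_pow_of_dvd hD 2)
    have h3 : (q : ℝ) ^ 2 ≤ (k.D : ℝ) ^ 2 := by exact_mod_cast h2
    rw [le_div_iff₀ (by positivity)]
    nlinarith [sq_nonneg (q : ℝ)]
  have hg : ¬ (q : ℤ) ∣ P.a * P.g ^ 2 := by
    intro h
    rcases hp.dvd_or_dvd h with h | h
    · exact hq.2.1 h
    · have h' : q ∣ P.g := by exact_mod_cast hp.dvd_of_dvd_pow h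
      exact not_dvd_f hq.1 hq.2.2.2.1 h₁ (h'.trans (Nat.gcd_dvd_left _ _))
  set S : Finset ℕ := (range (q ^ 2)).filter fun b : ℕ =>
    (q : ℤ) ∣ P.a * P.g ^ 2 * b ^ 2 + 0 * b + -(4 * P.f₁ * P.f₂ * P.u) with hS
  have hS1 : S.card ≤ 2 * q := by
    have h0 := (hR q 1 (P.a * P.g ^ 2) 0 (-(4 * P.f₁ * P.f₂ * P.u)) hq.1 hg).1
    simp only [pow_one, Nat.reduceDiv, pow_zero, mul_one] at h0
    refine le_trans (card_le_card_of_injOn (t := ((range q).filter fun b : ℕ =>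
      (q : ℤ) ∣ P.a * P.g ^ 2 * b ^ 2 + 0 * b + -(4 * P.f₁ * P.f₂ * P.u)) ×ˢ range q)
      (fun b => (b % q, b / q)) (fun b hb => ?_) fun b _ b' _ e => ?_) ?_
    · obtain ⟨hb1, hb2⟩ := mem_filter.1 (mem_coe.1 hb)
      refine mem_coe.2 (mem_product.2 ⟨mem_filter.2 ⟨mem_range.2 (Nat.mod_lt _ hq.1.pos), ?_⟩,
        mem_range.2 (Nat.div_lt_of_lt_mul (by rw [← sq]; exact mem_range.1 hb1))⟩)
      have e : (b : ℤ) = ((b % q : ℕ) : ℤ) + q * ((b / q : ℕ) : ℤ) := by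
        exact_mod_cast (Nat.mod_add_div b q).symm
      generalize ((b % q : ℕ) : ℤ) = s at e ⊢
      generalize ((b / q : ℕ) : ℤ) = r at e
      rw [e] at hb2
      have h3 := dvd_sub hb2 (Dvd.intro (P.a * P.g ^ 2 * (2 * s * r + q * r ^ 2)) rfl)
      have e' : P.a * P.g ^ 2 * s ^ 2 + 0 * s + -(4 * P.f₁ * P.f₂ * P.u) =
          P.a * P.g ^ 2 * (s + q * r) ^ 2 + 0 * (s + q * r) + -(4 * P.f₁ * P.f₂ * P.u) -
            q * (P.a * P.g ^ 2 * (2 * s * r + q * r ^ 2)) := by ring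
      rw [e']
      exact h3
    · obtain ⟨e1, e2⟩ := Prod.mk.inj e
      rw [← Nat.mod_add_div b q, ← Nat.mod_add_div b' q, e1, e2]
    · rw [card_product, card_range]
      exact Nat.mul_le_mul_right _ h0
  have h1 : ∀ b ∈ range (q ^ 2), ∑ x ∈ range (q ^ 2), ind k P q 2 ((x : ℤ), (b : ℤ)) ≤
      2 + if (q : ℤ) ∣ P.a * P.g ^ 2 * b ^ 2 + 0 * b + -(4 * P.f₁ * P.f₂ * P.u) then 2 * (q : ℝ)
        else 0 := fun b _ => by
    rw [row_eq]
    have h := hR q 2 P.a (P.a * k.t * P.g * b)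
      (P.a * k.n * P.g ^ 2 * b ^ 2 + k.D * P.f₁ * P.f₂ * P.u) hq.1 hq.2.1
    split_ifs with hb
    · have h3 := h.1
      simp only [Nat.reduceDiv, pow_one] at h3
      exact le_trans (by exact_mod_cast h3) (le_add_of_nonneg_left two_pos.le)
    · rw [add_zero]
      refine mod_cast h.2 fun h3 => ?_
      have e : (P.a * k.t * P.g * b) ^ 2 -
          4 * P.a * (P.a * k.n * P.g ^ 2 * b ^ 2 + k.D * P.f₁ * P.f₂ * P.u) =
          P.a * (k.D * (P.a * P.g ^ 2 * b ^ 2 + 0 * b + -(4 * P.f₁ * P.f₂ * P.u))) := by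
        rw [Fld.D]; ring
      rw [e] at h3
      rcases hp.dvd_or_dvd h3 with h4 | h4
      · exact hq.2.1 h4
      · exact (hp.dvd_or_dvd h4).elim hD hb
  have h2 := sum_le_sum h1
  rw [sum_add_distrib, sum_const, card_range, ← sum_filter, sum_const, ← hS, nsmul_eq_mul,
    nsmul_eq_mul] at h2
  have h3 : (S.card : ℝ) ≤ 2 * q := by exact_mod_cast hS1
  rw [den_rows]
  push_cast at h2 ⊢
  rw [div_le_div_iff₀ (by positivity) (by positivity)]
  have h4 : (q : ℝ) ^ 2 * 2 + S.card * (2 * q) ≤ (6 + (k.D : ℝ) ^ 2) * (q : ℝ) ^ 2 := by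
    nlinarith [mul_le_mul_of_nonneg_right h3 hq0.le, mul_nonneg (sq_nonneg (k.D : ℝ)) (sq_nonneg (q : ℝ))]
  calc _ ≤ ((6 + (k.D : ℝ) ^ 2) * (q : ℝ) ^ 2) * (q : ℝ) ^ 2 := by gcongr; exact h2.trans h4
    _ = _ := by ring

lemma den_high (hR : RootStmt) {q : ℕ} (hq : P.Ok q) (h₁ : P.r₁ q = 0) {j : ℕ} (hj : 2 ≤ j) :
    den (q ^ j) (ind k P q j) ≤ (6 + (k.D : ℝ) ^ 2) * (q : ℝ) ^ (-1 - (1 / 8 : ℝ) * j) := by
  have hq0 : (0 : ℝ) < q := by exact_mod_cast hq.1.pos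
  have hq1 : (1 : ℝ) ≤ q := by exact_mod_cast hq.1.one_le
  rcases hj.eq_or_lt with rfl | hj
  · refine (den_two k hR hq h₁).trans ?_
    rw [div_eq_mul_inv, ← Real.rpow_natCast (q : ℝ), ← Real.rpow_neg hq0.le]
    refine mul_le_mul_of_nonneg_left (Real.rpow_le_rpow_of_exponent_le hq1 ?_) (by positivity)
    norm_num
  · refine (den_le k hR hq j).trans ?_
    rw [mul_div_assoc, ← Real.rpow_natCast, ← Real.rpow_natCast (q : ℝ), ← Real.rpow_sub hq0]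
    refine mul_le_mul (by nlinarith [sq_nonneg (k.D : ℝ)])
      (Real.rpow_le_rpow_of_exponent_le hq1 ?_) (by positivity) (by positivity)
    have h1 : ((j / 2 : ℕ) : ℝ) * 2 ≤ j := by exact_mod_cast Nat.div_mul_le_self j 2
    have h2 : (3 : ℝ) ≤ j := by exact_mod_cast hj
    linarith

lemma den_one_eq {q : ℕ} (hq : P.Ok q) (h₁ : P.r₁ q = 0) (h₂ : P.r₂ q = 0)
    (hD : ¬ (q : ℤ) ∣ 2 * k.D) : den q (ind k P q 1) = (q - k.chi q) / (q : ℝ) ^ 2 := by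
  classical
  have := Fact.mk hq.1
  have nz : ∀ z : ℤ, ¬ (q : ℤ) ∣ z → (z : ZMod q) ≠ 0 := fun z hz h =>
    hz ((ZMod.intCast_zmod_eq_zero_iff_dvd _ _).1 h)
  have nzn : ∀ z : ℕ, ¬ q ∣ z → (z : ZMod q) ≠ 0 := fun z hz h =>
    hz ((ZMod.natCast_eq_zero_iff _ _).1 h)
  have hf₁ := not_dvd_f hq.1 hq.2.2.2.1 h₁
  have hf₂ := not_dvd_f hq.1 hq.2.2.2.2 h₂
  have ha := nz _ hq.2.1
  have hu := nz _ hq.2.2.1
  have hg := nzn P.g fun h => hf₁ (h.trans (Nat.gcd_dvd_left _ _))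
  have hD' := nz k.D fun h => hD (h.mul_left _)
  have h2 : (2 : ZMod q) ≠ 0 := by
    have := nz 2 fun h => hD (h.mul_right _)
    exact_mod_cast this
  have hodd : Fintype.card (ZMod q) % 2 = 1 := by
    rw [ZMod.card]
    refine hq.1.eq_two_or_odd.resolve_left fun h => hD ?_
    rw [h]
    exact Dvd.intro _ rfl
  have hc : -((k.D : ZMod q) * P.f₁ * P.f₂ * P.u) / P.a ≠ 0 :=
    div_ne_zero (neg_ne_zero.2 (mul_ne_zero (mul_ne_zero (mul_ne_zero hD' (nzn _ hf₁))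
      (nzn _ hf₂)) hu)) ha
  have hcon := card_conic hodd h2 (k.t : ZMod q) (k.n : ZMod q) _
    (by rw [Fld.D] at hD'; push_cast at hD'; exact hD') hc
  have h3 := Tight.card_box q (fun p => p.1 ^ 2 + (k.t : ZMod q) * p.1 * (P.g * p.2) +
      (k.n : ZMod q) * (P.g * p.2) ^ 2 = -((k.D : ZMod q) * P.f₁ * P.f₂ * P.u) / P.a)
    (fun u => (q : ℤ) ^ 1 ∣ P.nh k u) fun u => by
      rw [pow_one, ← ZMod.intCast_zmod_eq_zero_iff_dvd, eq_div_iff ha]
      simp only [Par.nh, Par.U, nm]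
      push_cast
      constructor <;> intro h <;> linear_combination h
  have h4 : (univ.filter fun p : ZMod q × ZMod q => p.1 ^ 2 + (k.t : ZMod q) * p.1 * (P.g * p.2) +
      (k.n : ZMod q) * (P.g * p.2) ^ 2 = -((k.D : ZMod q) * P.f₁ * P.f₂ * P.u) / P.a).card =
      (univ.filter fun w : ZMod q × ZMod q => w.1 ^ 2 + (k.t : ZMod q) * w.1 * w.2 +
      (k.n : ZMod q) * w.2 ^ 2 = -((k.D : ZMod q) * P.f₁ * P.f₂ * P.u) / P.a).card := by
    refine card_bijective (fun p => (p.1, P.g * p.2))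
      (Finite.injective_iff_bijective.1 fun p p' e => ?_) fun p => ?_
    · obtain ⟨e1, e2⟩ := Prod.mk.inj e
      exact Prod.ext e1 (mul_left_cancel₀ hg e2)
    · simp only [mem_filter, mem_univ, true_and]
  rw [← h4, ← h3, ZMod.card] at hcon
  have h5 := Tight.chi_eq (k := k) q
  rw [den]
  simp only [ind]
  rw [sum_boole]
  congr 1
  have h6 : ((((box 0 q q).filter fun u => (q : ℤ) ^ 1 ∣ P.nh k u).card : ℕ) : ℤ) = q - k.chi q := by
    omega
  exact_mod_cast h6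

lemma chi_den (hR : RootStmt) {q : ℕ} (hq : P.Ok q) (h₁ : P.r₁ q = 0) (h₂ : P.r₂ q = 0) :
    (k.chi q : ℝ) * den q (ind k P q 1) ≤ k.chi q / q + (6 + (k.D : ℝ) ^ 2) * 2 / (q : ℝ) ^ 2 := by
  have hq0 : (0 : ℝ) < q := by exact_mod_cast hq.1.pos
  have hχ : |(k.chi q : ℝ)| ≤ 1 := by exact_mod_cast Psi.chi_le k hq.1
  obtain ⟨hχ1, hχ2⟩ := abs_le.1 hχ
  by_cases hD : (q : ℤ) ∣ 2 * k.D
  · have h1 := den_le k hR hq 1
    have h0 : 0 ≤ den q (ind k P q 1) := Shiu.den_nonneg _ (ind_nonneg k P q 1)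
    simp only [pow_one, Nat.reduceDiv, pow_zero, mul_one] at h1
    have h2 : (q : ℤ) ≤ -(2 * k.D) :=
      Int.le_of_dvd (by linarith [D_neg k]) ((dvd_neg).2 hD)
    have h3 : (q : ℝ) ≤ -(2 * (k.D : ℝ)) := by exact_mod_cast h2
    have h4 : 1 / (q : ℝ) ≤ (6 + (k.D : ℝ) ^ 2) * 2 / (q : ℝ) ^ 2 := by
      rw [div_le_div_iff₀ hq0 (by positivity)]
      have : (q : ℝ) ≤ (6 + (k.D : ℝ) ^ 2) * 2 := by nlinarith [sq_nonneg ((k.D : ℝ) + 1)]
      nlinarith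
    have h5 : (2 : ℝ) / q = 2 * (1 / q) := by ring
    have h6 : (k.chi q : ℝ) / q = k.chi q * (1 / q) := by ring
    have h7 : (0 : ℝ) < 1 / q := by positivity
    rw [h5] at h1
    rw [h6]
    generalize (1 : ℝ) / q = x at *
    generalize den q (ind k P q 1) = r at *
    generalize (k.chi q : ℝ) = c at *
    nlinarith [mul_nonneg (sub_nonneg.2 hχ2) h0, mul_nonneg (sub_nonneg.2 hχ1) (sub_nonneg.2 h1)]
  · rw [den_one_eq k hq h₁ h₂ hD]
    have e : (k.chi q : ℝ) * ((q - k.chi q) / (q : ℝ) ^ 2) =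
        k.chi q / q - (k.chi q : ℝ) ^ 2 / (q : ℝ) ^ 2 := by
      field_simp
    rw [e]
    have h1 : 0 ≤ (k.chi q : ℝ) ^ 2 / (q : ℝ) ^ 2 := by positivity
    have h2 : 0 ≤ (6 + (k.D : ℝ) ^ 2) * 2 / (q : ℝ) ^ 2 := by positivity
    linarith

end PackB

open PackB in
theorem packB : RootStmt → PackBStmt := by
  intro hR k
  refine ⟨(6 + (k.D : ℝ) ^ 2) * 2, fun P q hq h₁ h₂ => ?_⟩
  have hq0 : (0 : ℝ) < q := by exact_mod_cast hq.1.pos
  have hχ : |(k.chi q : ℝ)| ≤ 1 := by exact_mod_cast Psi.chi_le k hq.1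
  obtain ⟨hχ1, hχ2⟩ := abs_le.1 hχ
  have hD := sq_nonneg (k.D : ℝ)
  have hL : P.Lv k q = fun j p => (q : ℤ) ^ j ∣ P.nh k p := by
    funext j p
    simp [Par.Lv, h₁, h₂]
  have hg : P.gw k q = fun j _ => gb k q j := by
    funext j p
    simp [Par.gw, h₁, h₂]
  have hi : ∀ j : ℕ, (fun u => @ite ℝ ((q : ℤ) ^ j ∣ P.nh k u) (Classical.propDecidable _) 1 0) =
      ind k P q j := fun j => by
    funext u
    simp only [ind]
    congr
  have hb : ∀ (M j : ℕ) (c : ℝ), 0 ≤ c → ∀ d : ∀ u, Decidable ((q : ℤ) ^ j ∣ P.nh k u ∧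
      ¬ (q : ℤ) ^ (j + 1) ∣ P.nh k u), den M (fun u => @ite ℝ ((q : ℤ) ^ j ∣ P.nh k u ∧
      ¬ (q : ℤ) ^ (j + 1) ∣ P.nh k u) (d u) c 0) ≤ c * den M (ind k P q j) := fun M j c hc d => by
    rw [← den_mul_left]
    refine den_mono _ fun u => ?_
    split_ifs with h
    · simp only [ind, if_pos h.1, mul_one, le_refl]
    · exact mul_nonneg hc (ind_nonneg k P q j u)
  rw [hL, hg]
  refine ⟨fun j u h => (pow_dvd_pow _ (Nat.le_succ j)).trans h,
    fun u v h hu => lv_cg k P le_rfl (by rwa [pow_one]) hu,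
    fun j u v h hu => lv_cg k P (by omega) h hu, fun _ _ _ _ => rfl, fun j _ => ?_, fun _ => ?_,
    fun _ => ?_, ?_, fun j hj => ?_, ?_, fun j hj => ?_⟩
  · simp only [gb]
    split_ifs
    · exact zero_le_one
    · linarith
    · positivity
  · simp [gb]
  · simp only [gb, one_ne_zero, if_false, if_true]
    linarith
  · beta_reduce
    rw [hi]
    have h1 := den_le k hR hq 1
    simp only [pow_one, Nat.reduceDiv, pow_zero, mul_one] at h1
    refine h1.trans ?_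
    gcongr
    linarith
  · beta_reduce
    rw [hi, den_ind k P hq.1.pos (by omega : j ≤ 2 * j)]
    refine (den_high k hR hq h₁ hj).trans ?_
    gcongr
    linarith
  · have e : gb k q 1 = 1 + (k.chi q : ℝ) := by simp [gb]
    refine (hb _ 1 _ (by rw [e]; linarith) _).trans ?_
    beta_reduce
    rw [hi, den_ind k P hq.1.pos (by omega : 1 ≤ 2 * 2), pow_one, e]
    have := chi_den k hR hq h₁ h₂
    linarith
  · have e : gb k q j = j + 2 := by
      simp only [gb, if_neg (by omega : j ≠ 0), if_neg (by omega : j ≠ 1)]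
    refine (hb _ j _ (by rw [e]; positivity) _).trans ?_
    rw [den_ind k P hq.1.pos (by omega : j ≤ 2 * (j + 1)), e]
    have h1 := den_high k hR hq h₁ hj
    have h2 : (0 : ℝ) ≤ (6 + (k.D : ℝ) ^ 2) * (q : ℝ) ^ (-1 - (1 / 8 : ℝ) * j) := by positivity
    have h3 : (0 : ℝ) ≤ j := Nat.cast_nonneg j
    calc _ ≤ ((j : ℝ) + 2) * ((6 + (k.D : ℝ) ^ 2) * (q : ℝ) ^ (-1 - (1 / 8 : ℝ) * j)) := by gcongr
      _ ≤ (2 * ((j : ℝ) + 1)) * ((6 + (k.D : ℝ) ^ 2) * (q : ℝ) ^ (-1 - (1 / 8 : ℝ) * j)) := by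
        gcongr; linarith
      _ = _ := by ring

end Pool.Agent.Lib.MP_9177b7_ag.J.Large
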