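import Pool.Agent.Lib.MP_9177b7_ag.J.LargeD

/-!
Local densities at the primes which divide both conductors to the same positive power.
-/

noncomputable section

namespace Pool.Agent.Lib.MP_9177b7_ag.J.Large

open Finset

namespace PackC

lemma den_eq (M : ℕ) (h : ℤ × ℤ → ℝ) :
    den M h = (∑ b ∈ range M, ∑ x ∈ range M, h ((x : ℤ), (b : ℤ))) / (M : ℝ) ^ 2 := by
  have e : Ico (0 : ℤ) (0 + M) = (range M).map Nat.castEmbedding := by
    ext z
    simp only [mem_Ico, mem_map, mem_range, Nat.castEmbedding_apply]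
    constructor
    · rintro ⟨h0, h1⟩
      exact ⟨z.toNat, by omega, by omega⟩
    · rintro ⟨n, hn, rfl⟩
      omega
  simp only [den, box, Prod.fst_zero, Prod.snd_zero, e]
  rw [sum_product_right]
  simp only [sum_map, Nat.castEmbedding_apply]

lemma den_le {M : ℕ} (hM : 0 < M) {h : ℤ × ℤ → ℝ} (c : ℕ → ℕ → Prop) [∀ x b, Decidable (c x b)]
    (φ α : ℕ → ℝ) (β : ℝ) (h1 : ∀ x b : ℕ, h (x, b) ≤ if c x b then φ b else 0)
    (h2 : ∀ b, 0 ≤ φ b) (h3 : ∀ b, (#{x ∈ range M | c x b} : ℝ) ≤ α b * M)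
    (h4 : ∑ b ∈ range M, α b * φ b ≤ β * M) : den M h ≤ β := by
  have hM' : (0 : ℝ) < M := by exact_mod_cast hM
  rw [den_eq, div_le_iff₀ (by positivity)]
  calc _ ≤ ∑ b ∈ range M, α b * φ b * M := by
        refine sum_le_sum fun b _ => (sum_le_sum fun x _ => h1 x b).trans ?_
        rw [← sum_filter, sum_const, nsmul_eq_mul]
        calc _ ≤ α b * M * φ b := mul_le_mul_of_nonneg_right (h3 b) (h2 b)
          _ = _ := by ring
    _ = (∑ b ∈ range M, α b * φ b) * M := by rw [sum_mul]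
    _ ≤ β * M * M := by gcongr
    _ = _ := by ring

lemma per_sum (f : ℕ → ℝ) (d : ℕ) (hf : ∀ x, f (d + x) = f x) (m : ℕ) :
    ∑ x ∈ range (d * m), f x = m * ∑ x ∈ range d, f x := by
  induction m with
  | zero => simp
  | succ m ih =>
    rw [Nat.mul_succ, Nat.add_comm, sum_range_add]
    simp only [hf]
    rw [ih]
    push_cast
    ring

lemma per_card (c : ℕ → Prop) [DecidablePred c] {q e N : ℕ} (he : e ≤ N)
    (hc : ∀ x, c (q ^ e + x) ↔ c x) :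
    (#{x ∈ range (q ^ N) | c x} : ℝ) = (q : ℝ) ^ (N - e) * #{x ∈ range (q ^ e) | c x} := by
  have h := per_sum (fun x => if c x then 1 else 0) (q ^ e) (fun x => by simp only [hc])
    (q ^ (N - e))
  rw [← pow_add, Nat.add_sub_cancel' he] at h
  simpa only [sum_boole, Nat.cast_pow] using h

lemma cnt_div {q : ℕ} (hq : 0 < q) {N i : ℕ} (hi : i ≤ N) (c : ℕ → Prop) [DecidablePred c] :
    #((range (q ^ N)).filter fun x : ℕ => (q : ℤ) ^ i ∣ (x : ℤ) ∧ c x) ≤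
      #{y ∈ range (q ^ (N - i)) | c (q ^ i * y)} := by
  have hp : 0 < q ^ i := by positivity
  refine card_le_card_of_injOn (fun x => x / q ^ i) ?_ ?_
  · intro x hx
    simp only [coe_filter, mem_range, Set.mem_ofPred_eq] at hx ⊢
    have h1 : q ^ i ∣ x := by exact_mod_cast hx.2.1
    refine ⟨?_, by rw [Nat.mul_div_cancel' h1]; exact hx.2.2⟩
    rw [Nat.div_lt_iff_lt_mul hp, ← pow_add, Nat.sub_add_cancel hi]
    exact hx.1
  · intro x hx y hy h
    simp only [coe_filter, mem_range, Set.mem_ofPred_eq] at hx hy h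
    have h1 : q ^ i ∣ x := by exact_mod_cast hx.2.1
    have h2 : q ^ i ∣ y := by exact_mod_cast hy.2.1
    rw [← Nat.mul_div_cancel' h1, ← Nat.mul_div_cancel' h2, h]

lemma cnt_pow {q : ℕ} (hq : 0 < q) {N i : ℕ} (hi : i ≤ N) :
    (#((range (q ^ N)).filter fun x : ℕ => (q : ℤ) ^ i ∣ (x : ℤ)) : ℝ) ≤
      ((q : ℝ) ^ i)⁻¹ * (q ^ N : ℕ) := by
  have h := cnt_div hq hi (fun _ => True)
  simp only [and_true, filter_true, card_range] at h
  have hq' : (0 : ℝ) < q := by exact_mod_cast hq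
  rw [le_inv_mul_iff₀ (by positivity)]
  calc _ ≤ (q : ℝ) ^ i * (q ^ (N - i) : ℕ) := by gcongr
    _ = _ := by
      push_cast
      rw [← pow_add, Nat.add_sub_cancel' hi]

lemma rp {q : ℕ} (hq : 0 < q) {E j : ℕ} (h : 8 + j ≤ 8 * E) :
    ((q : ℝ) ^ E)⁻¹ ≤ (q : ℝ) ^ (-1 - (1 / 8 : ℝ) * j) := by
  have hq' : (1 : ℝ) ≤ q := by exact_mod_cast hq
  rw [← Real.rpow_natCast, ← Real.rpow_neg (by linarith)]
  refine Real.rpow_le_rpow_of_exponent_le hq' ?_
  have : (8 : ℝ) + j ≤ 8 * E := by exact_mod_cast h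
  linarith

/-- The data after division by `q ^ r`. -/
structure Dat (P : Par) (q : ℕ) (g c : ℤ) : Prop where
  ok : P.Ok q
  eq : P.r₁ q = P.r₂ q
  pos : 0 < P.r₁ q
  hg : (P.g : ℤ) = (q : ℤ) ^ P.r₁ q * g
  hc : P.u * P.f₁ * P.f₂ = (q : ℤ) ^ (2 * P.r₁ q) * c
  ng : ¬ (q : ℤ) ∣ g
  nc : ¬ (q : ℤ) ∣ c

lemma exists_dat {P : Par} {q : ℕ} (h : P.Ok q) (he : P.r₁ q = P.r₂ q) (h0 : 0 < P.r₁ q) :
    ∃ g c, Dat P q g c := by
  have := Fact.mk h.1
  have hp : Prime (q : ℤ) := Nat.prime_iff_prime_int.1 h.1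
  have d1 : q ^ P.r₁ q ∣ P.f₁ := pow_padicValNat_dvd
  have d2 : q ^ P.r₁ q ∣ P.f₂ := he ▸ pow_padicValNat_dvd
  have n1 : ¬ q ^ (P.r₁ q + 1) ∣ P.f₁ := pow_succ_padicValNat_not_dvd h.2.2.2.1.ne'
  have n2 : ¬ q ^ (P.r₁ q + 1) ∣ P.f₂ := he ▸ pow_succ_padicValNat_not_dvd h.2.2.2.2.ne'
  obtain ⟨g, hg⟩ : q ^ P.r₁ q ∣ P.g := Nat.dvd_gcd d1 d2
  obtain ⟨a, ha⟩ := d1
  obtain ⟨b, hb⟩ := d2
  have key : ∀ {n m : ℕ}, n = q ^ P.r₁ q * m → (q : ℤ) ∣ m → q ^ (P.r₁ q + 1) ∣ n := by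
    intro n m e d
    rw [e, pow_succ]
    exact Nat.mul_dvd_mul_left _ (by exact_mod_cast d)
  refine ⟨g, P.u * a * b, h, he, h0, by exact_mod_cast hg, ?_, fun d => ?_, fun d => ?_⟩
  · have e1 : (P.f₁ : ℤ) = (q : ℤ) ^ P.r₁ q * a := by exact_mod_cast ha
    have e2 : (P.f₂ : ℤ) = (q : ℤ) ^ P.r₁ q * b := by exact_mod_cast hb
    rw [e1, e2]
    ring
  · exact n1 ((key hg d).trans (Nat.gcd_dvd_left _ _))
  · rcases hp.dvd_or_dvd d with d | d
    · rcases hp.dvd_or_dvd d with d | d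
      · exact h.2.2.1 d
      · exact n1 (key ha d)
    · exact n2 (key hb d)

variable {k : Fld} {P : Par} {q : ℕ} {g c : ℤ}

lemma Dat.q_pos (H : Dat P q g c) : 0 < q := H.ok.1.pos

lemma Dat.ns (H : Dat P q g c) (i : ℕ) (b : ℤ) : P.NS q i b =
    #((range (q ^ i)).filter fun W : ℕ =>
      (q : ℤ) ^ i ∣ -P.a * (W : ℤ) ^ 2 + P.a * g * b * W + -c) := by
  have hq : (q : ℤ) ^ (2 * P.r₁ q) ≠ 0 := pow_ne_zero _ (by exact_mod_cast H.q_pos.ne')
  unfold Par.NS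
  refine congrArg _ (filter_congr fun W _ => ?_)
  rw [H.hg, H.hc, pow_add, mul_comm ((q : ℤ) ^ i),
    ← mul_dvd_mul_iff_left (b := (q : ℤ) ^ i) hq]
  exact iff_of_eq (congrArg _ (by ring))

lemma Dat.ns_congr (H : Dat P q g c) (i : ℕ) {b b' : ℤ} (h : (q : ℤ) ^ i ∣ b - b') :
    P.NS q i b = P.NS q i b' := by
  rw [H.ns, H.ns]
  refine congrArg _ (filter_congr fun W _ => dvd_iff_dvd_of_dvd_sub ?_)
  exact (h.mul_left (P.a * g * W)).trans (dvd_of_eq (by ring))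

lemma Dat.ns_one (H : Dat P q g c) (hR : RootStmt) (b : ℤ) : P.NS q 1 b ≤ 2 := by
  rw [H.ns]
  simpa using (hR q 1 (-P.a) (P.a * g * b) (-c) H.ok.1 (by simpa using H.ok.2.1)).1

lemma Dat.ns_sum (H : Dat P q g c) {i N : ℕ} (hi : i ≤ N) :
    ∑ b ∈ range (q ^ N), (P.NS q i b : ℝ) ≤ (q ^ N : ℕ) := by
  have hp : Prime (q : ℤ) := Nat.prime_iff_prime_int.1 H.ok.1
  have h1 : ∑ b ∈ range (q ^ i), P.NS q i b ≤ q ^ i := by
    simp only [H.ns, card_filter]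
    rw [sum_comm]
    refine (sum_le_card_nsmul _ _ 1 fun W _ => ?_).trans (by simp)
    rw [← card_filter]
    refine card_le_one.2 fun b hb b' hb' => ?_
    simp only [mem_filter, mem_range] at hb hb'
    rcases Nat.eq_zero_or_pos i with rfl | hi0
    · have := hb.1
      have := hb'.1
      simp only [pow_zero] at *
      omega
    have d1 : (q : ℤ) ^ i ∣ P.a * g * W * ((b : ℤ) - b') :=
      (dvd_sub hb.2 hb'.2).trans (dvd_of_eq (by ring))
    have hW : ¬ (q : ℤ) ∣ W := fun d => H.nc <| by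
      have d2 := (dvd_pow_self (q : ℤ) hi0.ne').trans hb.2
      have d3 := dvd_sub (d.mul_left (-P.a * W + P.a * g * b)) d2
      exact d3.trans (dvd_of_eq (by ring))
    have hn : ¬ (q : ℤ) ∣ P.a * g * W := fun d => by
      rcases hp.dvd_or_dvd d with d | d
      · rcases hp.dvd_or_dvd d with d | d
        · exact H.ok.2.1 d
        · exact H.ng d
      · exact hW d
    have d2 := hp.pow_dvd_of_dvd_mul_left i hn d1
    have d3 : b' ≡ b [MOD q ^ i] := (Nat.modEq_iff_dvd).2 (by exact_mod_cast d2)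
    exact (d3.eq_of_lt_of_lt hb'.1 hb.1).symm
  have h2 := per_sum (fun b => (P.NS q i b : ℝ)) (q ^ i) (fun x => by
    rw [H.ns_congr i (b' := x)]
    simp) (q ^ (N - i))
  rw [← pow_add, Nat.add_sub_cancel' hi] at h2
  rw [h2]
  calc _ ≤ ((q ^ (N - i) : ℕ) : ℝ) * (q ^ i : ℕ) := by
        gcongr
        exact_mod_cast h1
    _ = _ := by rw [← Nat.cast_mul, ← pow_add, Nat.sub_add_cancel hi]

lemma Dat.cnt (H : Dat P q g c) (b : ℤ) {N e : ℕ} (hN : P.r₁ q + e ≤ N) {m : ℕ}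
    (hm : #((range (q ^ e)).filter fun y : ℕ => (q : ℤ) ^ e ∣
      P.a * (y : ℤ) ^ 2 + P.a * k.t * g * b * y + (P.a * k.n * g ^ 2 * b ^ 2 + k.D * c)) ≤ m) :
    (#((range (q ^ N)).filter fun x : ℕ => (q : ℤ) ^ P.r₁ q ∣ (x : ℤ) ∧
      (q : ℤ) ^ (2 * P.r₁ q + e) ∣ P.nh k (x, b)) : ℝ) ≤
      m * ((q : ℝ) ^ (P.r₁ q + e))⁻¹ * (q ^ N : ℕ) := by
  have hq : (q : ℤ) ^ (2 * P.r₁ q) ≠ 0 := pow_ne_zero _ (by exact_mod_cast H.q_pos.ne')
  have hq' : (0 : ℝ) < q := by exact_mod_cast H.q_pos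
  have h1 := cnt_div H.q_pos (N := N) (i := P.r₁ q) (by omega)
    (fun x => (q : ℤ) ^ (2 * P.r₁ q + e) ∣ P.nh k (x, b))
  have h2 : ∀ y : ℕ, (q : ℤ) ^ (2 * P.r₁ q + e) ∣ P.nh k ((q ^ P.r₁ q * y : ℕ), b) ↔
      (q : ℤ) ^ e ∣ P.a * (y : ℤ) ^ 2 + P.a * k.t * g * b * y +
        (P.a * k.n * g ^ 2 * b ^ 2 + k.D * c) := fun y => by
    rw [pow_add, ← mul_dvd_mul_iff_left (b := (q : ℤ) ^ e) hq]
    refine iff_of_eq (congrArg _ ?_)
    simp only [Par.nh, Par.U, nm, H.hg]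
    push_cast
    linear_combination k.D * H.hc
  simp only [h2] at h1
  have h3 := per_card (fun y : ℕ => (q : ℤ) ^ e ∣ P.a * (y : ℤ) ^ 2 + P.a * k.t * g * b * y +
    (P.a * k.n * g ^ 2 * b ^ 2 + k.D * c)) (q := q) (e := e) (N := N - P.r₁ q) (by omega)
    fun y => dvd_iff_dvd_of_dvd_sub ⟨P.a * (q ^ e + 2 * y) + P.a * k.t * g * b, by
      push_cast
      ring⟩
  calc _ ≤ (q : ℝ) ^ (N - P.r₁ q - e) * m := by
        refine le_trans (by exact_mod_cast h1) (h3.le.trans ?_)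
        gcongr
    _ = _ := by
        push_cast
        have e1 : (q : ℝ) ^ N = (q : ℝ) ^ (N - P.r₁ q - e) * (q : ℝ) ^ (P.r₁ q + e) := by
          rw [← pow_add]
          congr 1
          omega
        rw [e1]
        field_simp

lemma Dat.lv (H : Dat P q g c) (j : ℕ) (p : ℤ × ℤ) : P.Lv k q j p ↔
    (q : ℤ) ^ min j (P.r₁ q) ∣ p.1 ∧ (P.r₁ q < j → (q : ℤ) ^ (j + P.r₁ q + 1) ∣ P.nh k p) := by
  rw [Par.Lv, if_neg (not_not.2 H.eq), if_neg H.pos.ne']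

lemma Dat.gw (H : Dat P q g c) (j : ℕ) (p : ℤ × ℤ) : P.gw k q j p =
    (P.NS q (min j (P.r₁ q)) p.2 : ℝ) * if j ≤ P.r₁ q then 1 else
      1 + 4 * ((j - P.r₁ q + 1 : ℕ) : ℝ) * (q : ℝ) ^ min ((j - P.r₁ q + 1) / 2) (P.r₁ q) := by
  rw [Par.gw, if_neg (not_not.2 H.eq), if_neg H.pos.ne']

lemma nh_congr {M : ℕ} {u v : ℤ × ℤ} (h : Cg M u v) : (M : ℤ) ∣ P.nh k u - P.nh k v := by
  obtain ⟨⟨s, hs⟩, t, ht⟩ := h
  have e1 : u.1 = v.1 + M * s := by linarith
  have e2 : u.2 = v.2 + M * t := by linarith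
  refine ⟨P.a * (2 * v.1 * s + M * s ^ 2 + k.t * P.g * (v.1 * t + s * v.2 + M * s * t) +
    k.n * P.g ^ 2 * (2 * v.2 * t + M * t ^ 2)), ?_⟩
  simp only [Par.nh, Par.U, nm, e1, e2]
  ring

open Classical in
/-- Low levels. -/
lemma Dat.low (H : Dat P q g c) {j N : ℕ} (hj : j ≤ P.r₁ q) (hN : j ≤ N) {h : ℤ × ℤ → ℝ}
    (φ : ℕ → ℝ) (h0 : ∀ b, 0 ≤ φ b) (h1 : ∑ b ∈ range (q ^ N), φ b ≤ (q ^ N : ℕ))
    (h2 : ∀ x b : ℕ, h (x, b) ≤ if P.Lv k q j (x, b) then φ b else 0) :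
    den (q ^ N) h ≤ ((q : ℝ) ^ j)⁻¹ := by
  refine den_le (pow_pos H.q_pos N) (fun x _ => (q : ℤ) ^ j ∣ (x : ℤ)) φ
    (fun _ => ((q : ℝ) ^ j)⁻¹) _ (fun x b => (h2 x b).trans (le_of_eq ?_)) h0
    (fun _ => cnt_pow H.q_pos hN) ?_
  · refine if_congr ?_ rfl rfl
    rw [H.lv, min_eq_left hj]
    exact and_iff_left fun h => absurd hj (not_le.2 h)
  · rw [← mul_sum]
    gcongr

open Classical in
/-- High levels. -/
lemma Dat.high (H : Dat P q g c) {j N : ℕ} (hj : P.r₁ q < j) (hN : j + 1 ≤ N) {h : ℤ × ℤ → ℝ}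
    (φ : ℕ → ℝ) (m : ℕ → ℕ) (β : ℝ) (h0 : ∀ b, 0 ≤ φ b)
    (hm : ∀ b : ℕ, #((range (q ^ (j - P.r₁ q + 1))).filter fun y : ℕ =>
      (q : ℤ) ^ (j - P.r₁ q + 1) ∣
      P.a * (y : ℤ) ^ 2 + P.a * k.t * g * b * y + (P.a * k.n * g ^ 2 * b ^ 2 + k.D * c)) ≤ m b)
    (h1 : ∑ b ∈ range (q ^ N), m b * φ b ≤ β * (q ^ N : ℕ))
    (h2 : ∀ x b : ℕ, h (x, b) ≤ if P.Lv k q j (x, b) then φ b else 0) :
    den (q ^ N) h ≤ β * ((q : ℝ) ^ (j + 1))⁻¹ := by
  have e : P.r₁ q + (j - P.r₁ q + 1) = j + 1 := by omega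
  refine den_le (pow_pos H.q_pos N) (fun x b => (q : ℤ) ^ P.r₁ q ∣ (x : ℤ) ∧
      (q : ℤ) ^ (2 * P.r₁ q + (j - P.r₁ q + 1)) ∣ P.nh k (x, b)) φ
    (fun b => m b * ((q : ℝ) ^ (j + 1))⁻¹) _ (fun x b => (h2 x b).trans (le_of_eq ?_)) h0
    (fun b => e ▸ H.cnt b (N := N) (e := j - P.r₁ q + 1) (by omega) (hm b)) ?_
  · refine if_congr ?_ rfl rfl
    rw [H.lv, min_eq_right hj.le, show 2 * P.r₁ q + (j - P.r₁ q + 1) = j + P.r₁ q + 1 by omega]
    exact and_congr_right fun _ => ⟨fun h => h hj, fun h _ => h⟩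
  · calc _ = ((q : ℝ) ^ (j + 1))⁻¹ * ∑ b ∈ range (q ^ N), m b * φ b := by
          rw [mul_sum]
          exact sum_congr rfl fun b _ => by ring
      _ ≤ ((q : ℝ) ^ (j + 1))⁻¹ * (β * (q ^ N : ℕ)) := by gcongr
      _ = _ := by ring

lemma pow_mul_inv {q : ℕ} (hq : 0 < q) {s n : ℕ} (h : s ≤ n) :
    (q : ℝ) ^ s * ((q : ℝ) ^ n)⁻¹ = ((q : ℝ) ^ (n - s))⁻¹ := by
  have hq' : (0 : ℝ) < q := by exact_mod_cast hq
  rw [show n = s + (n - s) by omega, pow_add, Nat.add_sub_cancel_left]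
  field_simp

open Classical in
/-- The general bound for the weighted density at a high level. -/
lemma Dat.gen (H : Dat P q g c) (hR : RootStmt) {j : ℕ} (hj : P.r₁ q < j) :
    den (q ^ (2 * (j + 1)))
      (fun u => if P.Lv k q j u ∧ ¬ P.Lv k q (j + 1) u then P.gw k q j u else 0) ≤
      10 * (j + 1) * ((q : ℝ) ^ (j + 1 - ((j - P.r₁ q + 1) / 2 +
        min ((j - P.r₁ q + 1) / 2) (P.r₁ q))))⁻¹ := by
  have hq : (1 : ℝ) ≤ q := by exact_mod_cast H.q_pos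
  set v := j - P.r₁ q + 1 with hv
  set w : ℝ := 1 + 4 * (v : ℝ) * (q : ℝ) ^ min (v / 2) (P.r₁ q) with hw
  have hw0 : 0 ≤ w := by positivity
  refine (H.high (k := k) hj (by omega) (fun b => P.NS q (P.r₁ q) b * w) (fun _ => 2 * q ^ (v / 2))
    (2 * q ^ (v / 2) * w) (fun b => by positivity) (fun b => (hR q _ _ _ _ H.ok.1 H.ok.2.1).1)
    ?_ fun x b => ?_).trans ?_
  · rw [← mul_sum, ← sum_mul]
    calc _ ≤ ((2 * q ^ (v / 2) : ℕ) : ℝ) * ((q ^ (2 * (j + 1)) : ℕ) * w) := by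
          gcongr
          exact H.ns_sum (by omega)
      _ = _ := by
          push_cast
          ring
  · rw [H.gw, min_eq_right hj.le, if_neg (not_le.2 hj)]
    split_ifs with h1 h2 h2
    · exact le_rfl
    · exact absurd h1.1 h2
    · positivity
    · exact le_rfl
  · rw [← pow_mul_inv H.q_pos (by omega), pow_add (q : ℝ) (v / 2)]
    have h1 : (1 : ℝ) ≤ (q : ℝ) ^ min (v / 2) (P.r₁ q) := one_le_pow₀ hq
    have h2 : (v : ℝ) ≤ j + 1 := by exact_mod_cast (by omega : v ≤ j + 1)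
    have h3 : (0 : ℝ) ≤ j := by positivity
    have h4 : w ≤ 5 * (j + 1) * (q : ℝ) ^ min (v / 2) (P.r₁ q) := by
      rw [hw]
      nlinarith
    calc _ ≤ 2 * q ^ (v / 2) * (5 * (j + 1) * (q : ℝ) ^ min (v / 2) (P.r₁ q)) *
          ((q : ℝ) ^ (j + 1))⁻¹ := by gcongr
      _ = _ := by ring

open Classical in
/-- The exceptional level. -/
lemma Dat.exc (H : Dat P q g c) (hR : RootStmt) (hr : P.r₁ q = 1) (hD : ¬ (q : ℤ) ∣ k.D) :
    den (q ^ (2 * (2 + 1)))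
      (fun u => if P.Lv k q 2 u ∧ ¬ P.Lv k q (2 + 1) u then P.gw k q 2 u else 0) ≤
      108 * ((q : ℝ) ^ 2)⁻¹ := by
  have hq : (1 : ℝ) ≤ q := by exact_mod_cast H.q_pos
  have hp : Prime (q : ℤ) := Nat.prime_iff_prime_int.1 H.ok.1
  refine (H.high (k := k) (j := 2) (by omega) (by omega) (fun _ => 18 * q)
    (fun b => 2 + if (q : ℤ) ^ 1 ∣ P.a * g ^ 2 * (b : ℤ) ^ 2 + 0 * b + -(4 * c) then 2 * q else 0)
    (108 * q) (fun b => by positivity) (fun b => ?_) ?_ fun x b => ?_).trans (le_of_eq ?_)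
  · have h := hR q (2 - P.r₁ q + 1) P.a (P.a * k.t * g * b) (P.a * k.n * g ^ 2 * b ^ 2 + k.D * c)
      H.ok.1 H.ok.2.1
    split_ifs with h1
    · refine h.1.trans ?_
      rw [hr]
      simp
    · refine h.2 fun d => h1 ?_
      have d2 : (q : ℤ) ∣ P.a * k.D * (P.a * g ^ 2 * (b : ℤ) ^ 2 + 0 * b + -(4 * c)) :=
        d.trans (dvd_of_eq (by simp only [Fld.D]; ring))
      rw [pow_one]
      rcases hp.dvd_or_dvd d2 with d | d
      · rcases hp.dvd_or_dvd d with d | d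
        · exact absurd d H.ok.2.1
        · exact absurd d hD
      · exact d
  · have h1 := (hR q 1 (P.a * g ^ 2) 0 (-(4 * c)) H.ok.1 fun d => by
      rcases hp.dvd_or_dvd d with d | d
      · exact H.ok.2.1 d
      · exact H.ng (hp.dvd_of_dvd_pow d)).1
    have h2 := per_card (fun b : ℕ => (q : ℤ) ^ 1 ∣ P.a * g ^ 2 * (b : ℤ) ^ 2 + 0 * b + -(4 * c))
      (q := q) (e := 1) (N := 2 * (2 + 1)) (by omega)
      fun y => dvd_iff_dvd_of_dvd_sub ⟨P.a * g ^ 2 * (q + 2 * y), by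
        push_cast
        ring⟩
    have h3 : (#((range (q ^ (2 * (2 + 1)))).filter fun b : ℕ =>
        (q : ℤ) ^ 1 ∣ P.a * g ^ 2 * (b : ℤ) ^ 2 + 0 * b + -(4 * c)) : ℝ) ≤ (q : ℝ) ^ 5 * 2 := by
      rw [h2]
      gcongr
      exact_mod_cast h1.trans (by simp)
    rw [← sum_mul]
    push_cast
    rw [sum_add_distrib, ← sum_filter, sum_const, sum_const, card_range, nsmul_eq_mul,
      nsmul_eq_mul]
    push_cast
    calc _ ≤ ((q : ℝ) ^ 6 * 2 + (q : ℝ) ^ 5 * 2 * (2 * q)) * (18 * q) := by gcongr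
      _ = _ := by ring
  · rw [H.gw, hr]
    have h1 : (P.NS q 1 b : ℝ) ≤ 2 := by exact_mod_cast H.ns_one hR b
    split_ifs with h1 h2 h2 h2
    · omega
    · exact absurd h1.1 h2
    · norm_num
      calc _ ≤ 2 * (1 + 8 * (q : ℝ)) := by gcongr
        _ ≤ _ := by linarith
    · exact absurd h1.1 (by assumption)
    · positivity
    · exact le_rfl
  · field_simp

end PackC

open PackC Classical in
theorem packC : RootStmt → PackCStmt := by
  intro hR k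
  refine ⟨36 + 10 * |(k.D : ℝ)|, fun P q hok he h0 => ?_⟩
  obtain ⟨g, c, H⟩ := exists_dat hok he h0
  have hq : (1 : ℝ) ≤ q := by exact_mod_cast H.q_pos
  have hD : (0 : ℝ) ≤ |(k.D : ℝ)| := abs_nonneg _
  set κ : ℝ := 36 + 10 * |(k.D : ℝ)| with hκ
  have hκ1 : 36 ≤ κ := by linarith
  have hgw : ∀ j u, 0 ≤ P.gw k q j u := fun j u => by
    rw [H.gw]
    split_ifs <;> positivity
  have hlv : ∀ j u v, Cg (q ^ (2 * j)) u v → P.Lv k q j u → P.Lv k q j v := fun j u v h => by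
    rw [H.lv, H.lv]
    have d1 := h.1
    have d2 := nh_congr (k := k) (P := P) h
    push_cast at d1 d2
    rintro ⟨h1, h2⟩
    refine ⟨(dvd_iff_dvd_of_dvd_sub ((pow_dvd_pow _ (by omega)).trans d1)).1 h1, fun hj => ?_⟩
    exact (dvd_iff_dvd_of_dvd_sub ((pow_dvd_pow _ (by omega)).trans d2)).1 (h2 hj)
  have hlow : ∀ j, 1 ≤ j → j ≤ P.r₁ q → den (q ^ (2 * (j + 1)))
      (fun u => if P.Lv k q j u ∧ ¬ P.Lv k q (j + 1) u then P.gw k q j u else 0) ≤
      ((q : ℝ) ^ j)⁻¹ := fun j _ hj => by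
    refine H.low (k := k) hj (by omega) (fun b => P.NS q j b) (fun b => by positivity)
      (H.ns_sum (by omega)) fun x b => ?_
    rw [H.gw, min_eq_left hj, if_pos hj, mul_one]
    split_ifs with h1 h2 h2
    · exact le_rfl
    · exact absurd h1.1 h2
    · positivity
    · exact le_rfl
  refine ⟨fun j u => ?_, fun u v h => ?_, hlv, fun j u v h => ?_, hgw, fun u => ?_, fun u => ?_,
    ?_, fun j hj => ?_, ?_, fun j hj => ?_⟩
  · rw [H.lv, H.lv]
    rintro ⟨h1, h2⟩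
    exact ⟨(pow_dvd_pow _ (by omega)).trans h1,
      fun hj => (pow_dvd_pow _ (by omega)).trans (h2 (by omega))⟩
  · rw [H.lv, H.lv, min_eq_left h0, pow_one]
    rintro ⟨h1, -⟩
    exact ⟨(dvd_iff_dvd_of_dvd_sub h.1).1 h1, fun hj => absurd hj (by omega)⟩
  · have d := h.2
    push_cast at d
    rw [H.gw, H.gw, H.ns_congr _ ((pow_dvd_pow _ (by omega)).trans d)]
  · rw [H.gw, if_pos (Nat.zero_le _), mul_one, Nat.zero_min, H.ns]
    exact_mod_cast (card_filter_le _ _).trans (by simp)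
  · rw [H.gw, if_pos (show 1 ≤ P.r₁ q from h0), mul_one, min_eq_left h0]
    have : (P.NS q 1 u.2 : ℝ) ≤ 2 := by exact_mod_cast H.ns_one hR u.2
    linarith
  · have h := H.low (k := k) (j := 1) (N := 1) h0 le_rfl
      (h := fun u => if P.Lv k q 1 u then 1 else 0) (fun _ => 1) (fun _ => zero_le_one) (by simp)
      fun x b => le_rfl
    rw [pow_one, pow_one] at h
    refine h.trans ?_
    rw [← one_div]
    gcongr
    linarith
  · rcases le_or_gt j (P.r₁ q) with h | h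
    · refine (H.low (k := k) h (by omega) (fun _ => 1) (fun _ => zero_le_one) (by simp)
        fun x b => le_rfl).trans ((rp (j := j) H.q_pos (by omega)).trans ?_)
      exact le_mul_of_one_le_left (by positivity) (by linarith)
    · refine (H.high (k := k) h (by omega) (fun _ => 1) (fun _ => 2 * q ^ ((j - P.r₁ q + 1) / 2))
        (2 * q ^ ((j - P.r₁ q + 1) / 2)) (fun _ => zero_le_one)
        (fun b => (hR q _ _ _ _ H.ok.1 H.ok.2.1).1) (by simp [mul_comm]) fun x b => le_rfl).trans ?_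
      rw [mul_assoc, pow_mul_inv H.q_pos (by omega)]
      exact mul_le_mul (by linarith) (rp H.q_pos (by omega)) (by positivity) (by linarith)
  · refine (hlow 1 le_rfl h0).trans ?_
    have h1 : ((q : ℝ) ^ 1)⁻¹ ≤ den q fun u => if P.Lv k q 1 u then 1 else 0 := by
      rw [den_eq, le_div_iff₀ (by positivity)]
      have h2 : ∀ b ∈ range q, (1 : ℝ) ≤
          ∑ x ∈ range q, if P.Lv k q 1 ((x : ℤ), (b : ℤ)) then 1 else 0 := fun b _ => by
        refine le_trans (le_of_eq ?_) (single_le_sum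
          (f := fun x : ℕ => if P.Lv k q 1 ((x : ℤ), (b : ℤ)) then (1 : ℝ) else 0)
          (fun x _ => by split_ifs <;> norm_num) (mem_range.2 H.q_pos))
        rw [if_pos]
        rw [H.lv]
        exact ⟨by simp, fun hj => absurd hj (by omega)⟩
      refine le_trans (le_of_eq ?_) (sum_le_sum h2)
      rw [sum_const, card_range, nsmul_eq_mul]
      field_simp
    have h2 : 0 ≤ κ / (q : ℝ) ^ 2 := by positivity
    linarith
  · have hj0 : (0 : ℝ) ≤ j := by positivity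
    have hpos : 0 ≤ (q : ℝ) ^ (-1 - (1 / 8 : ℝ) * j) := by positivity
    rcases le_or_gt j (P.r₁ q) with h | h
    · refine (hlow j (by omega) h).trans ((rp (j := j) H.q_pos (by omega)).trans ?_)
      exact le_mul_of_one_le_left hpos (by nlinarith)
    by_cases hx : P.r₁ q = 1 ∧ j = 2
    · obtain ⟨hr, rfl⟩ := hx
      have h2 := rp (E := 2) (j := 2) H.q_pos (by norm_num)
      by_cases hd : (q : ℤ) ∣ k.D
      · refine (H.gen hR h).trans ?_
        have h1 : (q : ℝ) ≤ |(k.D : ℝ)| := by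
          exact_mod_cast Int.le_of_dvd (abs_pos.2 (D_neg k).ne) ((dvd_abs _ _).2 hd)
        rw [hr]
        calc _ = 10 * q * ((2 : ℕ) + 1) * ((q : ℝ) ^ 2)⁻¹ := by
              norm_num
              field_simp
              norm_num
          _ ≤ _ := by
              gcongr
              linarith
      · refine (H.exc hR hr hd).trans ?_
        refine mul_le_mul ?_ h2 (by positivity) (by positivity)
        push_cast
        linarith
    · refine (H.gen hR h).trans ?_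
      refine mul_le_mul ?_ (rp H.q_pos (by omega)) (by positivity) (by positivity)
      gcongr
      linarith

end Pool.Agent.Lib.MP_9177b7_ag.J.Large
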