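import Mathlib
import Pool.Agent.Lib.MP_9177b7_ag.J.DefsA

/-! Lattices in an imaginary quadratic field: covolume, index, reduced bases. -/

open Pointwise QuadraticAlgebra

namespace Pool.Agent.Lib.MP_9177b7_ag.J

namespace Basic

open Fld

variable {k : Fld}

lemma mem_pair {x y v : k.K} :
    v ∈ Submodule.span ℤ {x, y} ↔ ∃ a b : ℤ, v = a * x + b * y := by
  rw [Submodule.mem_span_pair]
  simp only [zsmul_eq_mul, eq_comm]

lemma left_mem (x y : k.K) : x ∈ Submodule.span ℤ {x, y} := Submodule.subset_span (by simp)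

lemma right_mem (x y : k.K) : y ∈ Submodule.span ℤ {x, y} := Submodule.subset_span (by simp)

lemma pair_le {x y : k.K} {L : Submodule ℤ k.K} (hx : x ∈ L) (hy : y ∈ L) :
    Submodule.span ℤ {x, y} ≤ L := by
  rw [Submodule.span_le]
  rintro v (rfl | rfl)
  exacts [hx, hy]

lemma int_mul_mem {L : Submodule ℤ k.K} (a : ℤ) {x : k.K} (hx : x ∈ L) : (a : k.K) * x ∈ L := by
  rw [← zsmul_eq_mul]; exact L.smul_mem a hx

lemma nat_mul_mem {L : Submodule ℤ k.K} (a : ℕ) {x : k.K} (hx : x ∈ L) : (a : k.K) * x ∈ L := by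
  simpa using int_mul_mem (a : ℤ) hx

lemma det2_comb (x y : k.K) (a b c d : ℤ) :
    k.det2 (a * x + b * y) (c * x + d * y) = ((a * d - b * c : ℤ) : ℚ) * k.det2 x y := by
  simp [det2]; ring

lemma det2_mul (u x y : k.K) : k.det2 (u * x) (u * y) = norm u * k.det2 x y := by
  simp [det2, norm_def]; ring

lemma det2_om (x : k.K) : k.det2 x (k.om * x) = norm x := by
  simp [det2, norm_def, om]; ring

lemma om_sq : k.om * k.om = k.t * k.om - k.n := by
  ext <;> simp [om]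

lemma four_norm (x : k.K) :
    4 * norm x = (2 * x.re + k.t * x.im) ^ 2 + (4 * k.n - k.t ^ 2) * x.im ^ 2 := by
  simp [norm_def]; ring

lemma disc_pos : (0 : ℚ) < 4 * k.n - k.t ^ 2 := by
  have h1 : ((k.t ^ 2 - 4 * k.n : ℤ) : ℚ) < 0 := by exact_mod_cast k.neg
  push_cast at h1
  linarith

lemma norm_nonneg (x : k.K) : 0 ≤ norm x := by
  have h := four_norm x
  have := disc_pos (k := k)
  nlinarith [sq_nonneg (2 * x.re + k.t * x.im), mul_nonneg this.le (sq_nonneg x.im)]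

lemma norm_pos {x : k.K} (hx : x ≠ 0) : 0 < norm x :=
  lt_of_le_of_ne (norm_nonneg x) fun h => hx (norm_eq_zero_iff_eq_zero.1 h.symm)

/-- coordinates with respect to a basis are unique -/
lemma coord_inj {x y : k.K} (h : k.det2 x y ≠ 0) {a b a' b' : ℤ}
    (e : (a : k.K) * x + b * y = a' * x + b' * y) : a = a' ∧ b = b' := by
  have h1 := det2_comb x y a b 0 1
  have h2 := det2_comb x y a' b' 0 1
  have h3 := det2_comb x y 1 0 a b
  have h4 := det2_comb x y 1 0 a' b'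
  rw [e, h2] at h1
  rw [e, h4] at h3
  have h5 := Int.cast_injective (mul_right_cancel₀ h h1)
  have h6 := Int.cast_injective (mul_right_cancel₀ h h3)
  constructor <;> linarith

lemma io_mul (A : Type) [Field A] [CharZero A] (r : A) (hr : k.Root r) (x y : k.K) :
    k.io r (x * y) = k.io r x * k.io r y ∧ k.io r (star x) = k.io ((k.t : A) - r) x := by
  unfold Root at hr
  constructor
  · simp only [io, re_mul, im_mul]
    push_cast
    linear_combination (-(x.im : A) * y.im) * hr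
  · simp only [io, re_star, im_star]
    push_cast
    ring

lemma index (L L' : Submodule ℤ k.K) (c c' : ℚ) (h : k.Lat L c) (h' : k.Lat L' c') (hle : L ≤ L') :
    ∃ j : ℕ, 0 < j ∧ c = j * c' ∧ (∀ x ∈ L', (j : k.K) * x ∈ L) ∧ (j = 1 → L = L') := by
  obtain ⟨x, y, rfl, hd, hc⟩ := h
  obtain ⟨x', y', rfl, hd', hc'⟩ := h'
  obtain ⟨a, b, hx⟩ := mem_pair.1 (hle (left_mem x y))
  obtain ⟨e, d, hy⟩ := mem_pair.1 (hle (right_mem x y))
  have h1 : c = ((a * d - b * e : ℤ) : ℚ) * c' := by rw [← hd, ← hd', ← det2_comb, ← hx, ← hy]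
  have h2 : 0 < a * d - b * e := by
    have : (0 : ℚ) < ((a * d - b * e : ℤ) : ℚ) := (mul_pos_iff_of_pos_right hc').1 (h1 ▸ hc)
    exact_mod_cast this
  obtain ⟨j, hj⟩ := Int.eq_ofNat_of_zero_le h2.le
  have hj' : (j : k.K) = a * d - b * e := by exact_mod_cast congrArg (Int.cast : ℤ → k.K) hj.symm
  have h3 : ∀ v ∈ Submodule.span ℤ {x', y'}, (j : k.K) * v ∈ Submodule.span ℤ {x, y} := by
    intro v hv
    obtain ⟨p, q, rfl⟩ := mem_pair.1 hv
    refine mem_pair.2 ⟨p * d - q * e, q * a - p * b, ?_⟩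
    rw [hj', hx, hy]
    push_cast
    ring
  refine ⟨j, by omega, by rw [h1, hj]; simp, h3, fun h1 => le_antisymm hle fun v hv => ?_⟩
  simpa [h1] using h3 v hv

lemma cov_unique (L : Submodule ℤ k.K) (c c' : ℚ) (h : k.Lat L c) (h' : k.Lat L c') : c = c' := by
  obtain ⟨j, hj, e, -⟩ := index L L c c' h h' le_rfl
  obtain ⟨j', hj', e', -⟩ := index L L c' c h' h le_rfl
  obtain ⟨-, -, -, -, hc⟩ := h
  obtain ⟨-, -, -, -, hc'⟩ := h'
  have h1 : (1 : ℚ) ≤ j := by exact_mod_cast hj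
  have h2 : (1 : ℚ) ≤ j' := by exact_mod_cast hj'
  nlinarith

lemma eq_of_le_cov {L L' : Submodule ℤ k.K} {c : ℚ} (h : k.Lat L c) (h' : k.Lat L' c)
    (hle : L ≤ L') : L = L' := by
  obtain ⟨j, -, e, -, hj⟩ := index L L' c c h h' hle
  obtain ⟨-, -, -, -, hc⟩ := h
  apply hj
  have : (j : ℚ) = 1 := by
    apply mul_right_cancel₀ hc.ne'
    rw [one_mul, ← e]
  exact_mod_cast this

lemma span_unimod {x y : k.K} {a b c d : ℤ} (h : a * d - b * c = 1) :
    Submodule.span ℤ {(a : k.K) * x + b * y, (c : k.K) * x + d * y} = Submodule.span ℤ {x, y} := by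
  have h' : (a : k.K) * d - b * c = 1 := by exact_mod_cast congrArg (Int.cast : ℤ → k.K) h
  refine le_antisymm (pair_le (mem_pair.2 ⟨a, b, rfl⟩) (mem_pair.2 ⟨c, d, rfl⟩))
    (pair_le (mem_pair.2 ⟨d, -b, ?_⟩) (mem_pair.2 ⟨-c, a, ?_⟩))
  · push_cast; linear_combination (-x) * h'
  · push_cast; linear_combination (-y) * h'

lemma lat_lin (L : Submodule ℤ k.K) (c : ℚ) (α β : k.K) (h : k.Lat L c) (hN : k.N α ≠ k.N β) :
    k.Lat (L.map (k.lin α β)) (|norm α - norm β| * c) := by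
  obtain ⟨x, y, rfl, hd, hc⟩ := h
  have hne : norm α - norm β ≠ 0 := fun h => hN (by rw [N, N, sub_eq_zero.1 h])
  have h1 : k.det2 (k.lin α β x) (k.lin α β y) = (norm α - norm β) * c := by
    rw [← hd]
    simp [lin, det2, norm_def]
    ring
  rw [Submodule.map_span, Set.image_pair]
  rcases lt_or_gt_of_ne hne with h | h
  · refine ⟨k.lin α β y, k.lin α β x, by rw [Set.pair_comm], ?_, mul_pos (abs_pos.2 hne) hc⟩
    rw [abs_of_neg h, neg_mul, ← h1]
    simp [det2]; ring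
  · exact ⟨_, _, rfl, by rw [abs_of_pos h, h1], mul_pos (abs_pos.2 hne) hc⟩

/-- a positive generator of a nonzero subgroup of the integers -/
lemma exists_gen (S : AddSubgroup ℤ) {j : ℤ} (hj : j ∈ S) (h0 : j ≠ 0) :
    ∃ g : ℤ, 0 < g ∧ g ∈ S ∧ ∀ a ∈ S, g ∣ a := by
  obtain ⟨g, rfl⟩ := Int.subgroup_cyclic S
  have key : ∀ a ∈ AddSubgroup.closure {g}, g ∣ a := by
    intro a ha
    obtain ⟨n, rfl⟩ := AddSubgroup.mem_closure_singleton.1 ha
    exact Dvd.intro_left n rfl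
  have hg : g ≠ 0 := by
    rintro rfl
    exact h0 (zero_dvd_iff.1 (key j hj))
  refine ⟨|g|, abs_pos.2 hg, ?_, fun a ha => (abs_dvd _ _).2 (key a ha)⟩
  rw [abs_mem_iff]
  exact AddSubgroup.subset_closure rfl

lemma lat_between (L L' M : Submodule ℤ k.K) (c c' : ℚ) (h : k.Lat L c) (h' : k.Lat L' c')
    (h1 : L ≤ M) (h2 : M ≤ L') : ∃ c'', k.Lat M c'' := by
  obtain ⟨j, hj, -, hjm, -⟩ := index L L' c c' h h' (h1.trans h2)
  obtain ⟨x, y, rfl, hd, hc⟩ := h'
  let S₁ : AddSubgroup ℤ :=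
    { carrier := {a | (a : k.K) * x ∈ M}
      add_mem' := fun {a b} ha hb => by
        have := M.add_mem ha hb
        simpa [add_mul] using this
      zero_mem' := by simp
      neg_mem' := fun {a} ha => by
        have := M.neg_mem ha
        simpa using this }
  let S₂ : AddSubgroup ℤ :=
    { carrier := {b | ∃ a : ℤ, (a : k.K) * x + b * y ∈ M}
      add_mem' := fun {a b} ⟨a', ha⟩ ⟨b', hb⟩ => ⟨a' + b', by
        have := M.add_mem ha hb
        convert this using 1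
        push_cast; ring⟩
      zero_mem' := ⟨0, by simp⟩
      neg_mem' := fun {a} ⟨a', ha⟩ => ⟨-a', by
        have := M.neg_mem ha
        convert this using 1
        push_cast; ring⟩ }
  have hj0 : (j : ℤ) ≠ 0 := by omega
  obtain ⟨g₁, hg₁, m₁, d₁⟩ := exists_gen S₁ (j := j)
    (by simpa [S₁] using h1 (hjm x (left_mem x y))) hj0
  obtain ⟨g₂, hg₂, ⟨a₀, m₂⟩, d₂⟩ := exists_gen S₂ (j := j)
    ⟨0, by simpa using h1 (hjm y (right_mem x y))⟩ hj0
  have m₁' : (g₁ : k.K) * x ∈ M := m₁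
  refine ⟨((g₁ * g₂ - 0 * a₀ : ℤ) : ℚ) * c', g₁ * x + (0 : ℤ) * y, a₀ * x + g₂ * y,
    le_antisymm (fun v hv => ?_) (pair_le (by simpa using m₁') m₂), by rw [det2_comb, hd], ?_⟩
  · obtain ⟨a, b, rfl⟩ := mem_pair.1 (h2 hv)
    obtain ⟨q, rfl⟩ := d₂ b ⟨a, hv⟩
    have h3 : a - q * a₀ ∈ S₁ := by
      have := M.sub_mem hv (int_mul_mem q m₂)
      change ((a - q * a₀ : ℤ) : k.K) * x ∈ M
      convert this using 1
      push_cast; ring
    obtain ⟨p, hp⟩ := d₁ _ h3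
    have hp' : (a : k.K) - q * a₀ = g₁ * p := by exact_mod_cast congrArg (Int.cast : ℤ → k.K) hp
    refine mem_pair.2 ⟨p, q, ?_⟩
    push_cast
    linear_combination x * hp'
  · refine mul_pos ?_ hc
    have : 0 < g₁ * g₂ - 0 * a₀ := by simpa using mul_pos hg₁ hg₂
    exact_mod_cast this

lemma mem_O {x : k.K} : x ∈ k.O ↔ ∃ a b : ℤ, x = a + b * k.om := by
  simp only [O, mem_pair, mul_one]

lemma exists_den (x : k.K) : ∃ m : ℕ, 0 < m ∧ (m : k.K) * x ∈ k.O := by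
  refine ⟨x.re.den * x.im.den, Nat.mul_pos x.re.den_pos x.im.den_pos,
    mem_O.2 ⟨x.re.num * x.im.den, x.im.num * x.re.den, ?_⟩⟩
  have h1 := Rat.mul_den_eq_num x.re
  have h2 := Rat.mul_den_eq_num x.im
  ext
  · simp [om]; linear_combination (x.im.den : ℚ) * h1
  · simp [om]; linear_combination (x.re.den : ℚ) * h2

lemma norm_O {x : k.K} (hx : x ∈ k.O) : ∃ j : ℕ, norm x = j := by
  have h0 := norm_nonneg x
  obtain ⟨a, b, rfl⟩ := mem_O.1 hx
  have h1 : norm ((a : k.K) + (b : k.K) * k.om) = ((a ^ 2 + k.t * a * b + k.n * b ^ 2 : ℤ) : ℚ) := by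
    simp [norm_def, om]; ring
  rw [h1] at h0 ⊢
  obtain ⟨j, hj⟩ := Int.eq_ofNat_of_zero_le (by exact_mod_cast h0 :
    0 ≤ a ^ 2 + k.t * a * b + k.n * b ^ 2)
  exact ⟨j, by rw [hj]; simp⟩

/-- the trace form -/
def tr (x y : k.K) : ℚ :=
  2 * x.re * y.re + k.t * (x.re * y.im + x.im * y.re) + 2 * k.n * x.im * y.im

lemma norm_comb (x y : k.K) (a b : ℤ) :
    norm ((a : k.K) * x + (b : k.K) * y) = a ^ 2 * norm x + a * b * tr x y + b ^ 2 * norm y := by
  simp [norm_def, tr]; ring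

lemma tr_sq (x y : k.K) :
    4 * norm x * norm y = tr x y ^ 2 + (4 * k.n - k.t ^ 2) * k.det2 x y ^ 2 := by
  simp [norm_def, tr, det2]; ring

lemma reduced (L : Submodule ℤ k.K) (c : ℚ) (h : k.Lat L c) :
    ∃ x y : k.K, L = Submodule.span ℤ {x, y} ∧ k.det2 x y = c ∧
      (∀ v ∈ L, v ≠ 0 → k.N x ≤ k.N v) ∧ k.N x ≤ k.N y ∧
      k.N x * k.N y ≤ |(k.D : ℝ)| * (c : ℝ) ^ 2 := by
  classical
  obtain ⟨x₀, y₀, hL, hd, hc⟩ := h
  obtain ⟨m₁, hm₁, o₁⟩ := exists_den x₀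
  obtain ⟨m₂, hm₂, o₂⟩ := exists_den y₀
  set m : ℕ := m₁ * m₂ with hm
  have hm0 : (0 : ℚ) < (m : ℚ) ^ 2 := by have := Nat.mul_pos hm₁ hm₂; positivity
  have hint : ∀ v ∈ L, ∃ j : ℕ, (m : ℚ) ^ 2 * norm v = j := by
    intro v hv
    rw [hL] at hv
    obtain ⟨a, b, rfl⟩ := mem_pair.1 hv
    have : (m : k.K) * (a * x₀ + b * y₀) ∈ k.O := by
      have := k.O.add_mem (int_mul_mem (a * m₂) o₁) (int_mul_mem (b * m₁) o₂)
      convert this using 1
      rw [hm]; push_cast; ring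
    obtain ⟨j, hj⟩ := norm_O this
    exact ⟨j, by rw [← hj, map_mul, QuadraticAlgebra.norm_natCast]⟩
  let P : ℕ → Prop := fun j => ∃ x y : k.K, L = Submodule.span ℤ {x, y} ∧ k.det2 x y = c ∧
    (m : ℚ) ^ 2 * (norm x + norm y) = j
  have hP : ∀ x y : k.K, L = Submodule.span ℤ {x, y} → k.det2 x y = c →
      ∃ j, P j ∧ (m : ℚ) ^ 2 * (norm x + norm y) = j := by
    intro x y h1 h2
    obtain ⟨i, hi⟩ := hint x (h1 ▸ left_mem x y)
    obtain ⟨j, hj⟩ := hint y (h1 ▸ right_mem x y)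
    have : (m : ℚ) ^ 2 * (norm x + norm y) = (i + j : ℕ) := by push_cast; linarith
    exact ⟨i + j, ⟨x, y, h1, h2, this⟩, this⟩
  have hex : ∃ j, P j := (hP x₀ y₀ hL hd).imp fun _ h => h.1
  obtain ⟨x₁, y₁, h1, h2, h3⟩ := Nat.find_spec hex
  have hmin : ∀ x y : k.K, L = Submodule.span ℤ {x, y} → k.det2 x y = c →
      norm x₁ + norm y₁ ≤ norm x + norm y := by
    intro x y e1 e2
    obtain ⟨j, pj, ej⟩ := hP x y e1 e2
    have : ((Nat.find hex : ℕ) : ℚ) ≤ j := by exact_mod_cast Nat.find_min' hex pj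
    rw [← h3, ← ej] at this
    exact le_of_mul_le_mul_left this hm0
  obtain ⟨x, y, e1, e2, e3, e4⟩ : ∃ x y : k.K, L = Submodule.span ℤ {x, y} ∧ k.det2 x y = c ∧
      norm x + norm y = norm x₁ + norm y₁ ∧ norm x ≤ norm y := by
    rcases le_total (norm x₁) (norm y₁) with h | h
    · exact ⟨x₁, y₁, h1, h2, rfl, h⟩
    · refine ⟨y₁, -x₁, ?_, ?_, by rw [QuadraticAlgebra.norm_neg, add_comm],
        by rwa [QuadraticAlgebra.norm_neg]⟩
      · rw [h1, ← span_unimod (x := x₁) (y := y₁) (a := 0) (b := 1) (c := -1) (d := 0) (by norm_num)]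
        simp
      · rw [← h2]; simp [det2]; ring
  have hsh : ∀ s : ℤ, 0 ≤ s ^ 2 * norm x + s * tr x y := by
    intro s
    have h4 := hmin ((1 : ℤ) * x + (0 : ℤ) * y) (s * x + (1 : ℤ) * y)
      (by rw [span_unimod (by norm_num), e1]) (by rw [det2_comb, e2]; simp)
    rw [norm_comb, norm_comb] at h4
    push_cast at h4 ⊢
    linarith
  have t1 := hsh 1
  have t2 := hsh (-1)
  push_cast at t1 t2
  have nx := norm_nonneg x
  refine ⟨x, y, e1, e2, fun v hv hv0 => ?_, by unfold N; exact_mod_cast e4, ?_⟩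
  · rw [e1] at hv
    obtain ⟨a, b, rfl⟩ := mem_pair.1 hv
    have hab : 1 ≤ a ^ 2 - |a * b| + b ^ 2 := by
      rw [abs_mul, ← sq_abs a, ← sq_abs b]
      have ha := abs_nonneg a
      have hb := abs_nonneg b
      by_contra hcon
      have h5 : |a| = 0 := by nlinarith [sq_nonneg (|a| - |b|), sq_nonneg (|a| - 2 * |b|)]
      have h6 : |b| = 0 := by nlinarith [sq_nonneg (|a| - |b|), sq_nonneg (2 * |a| - |b|)]
      rw [abs_eq_zero] at h5 h6
      exact hv0 (by simp [h5, h6])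
    have hab' : (1 : ℚ) ≤ (a : ℚ) ^ 2 - |(a : ℚ) * b| + (b : ℚ) ^ 2 := by exact_mod_cast hab
    have h7 : |(a : ℚ) * b * tr x y| ≤ |(a : ℚ) * b| * norm x := by
      rw [abs_mul]
      exact mul_le_mul_of_nonneg_left (abs_le.2 ⟨by linarith, by linarith⟩) (abs_nonneg _)
    have h8 := neg_abs_le ((a : ℚ) * b * tr x y)
    have h9 : norm x ≤ norm ((a : k.K) * x + (b : k.K) * y) := by
      rw [norm_comb]
      nlinarith [mul_le_mul_of_nonneg_left e4 (sq_nonneg (b : ℚ)),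
        mul_le_mul_of_nonneg_right hab' nx]
    unfold N
    exact_mod_cast h9
  · have h5 := tr_sq x y
    rw [e2] at h5
    have h6 : tr x y ^ 2 ≤ norm x * norm y := by nlinarith
    have h7 := mul_nonneg (disc_pos (k := k)).le (sq_nonneg c)
    have h8 : norm x * norm y ≤ (4 * k.n - k.t ^ 2) * c ^ 2 := by
      nlinarith [mul_nonneg nx (norm_nonneg y)]
    have h9 : |(k.D : ℝ)| = 4 * k.n - k.t ^ 2 := by
      have : (k.D : ℝ) < 0 := by exact_mod_cast k.neg
      rw [abs_of_neg this, D]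
      push_cast; ring
    rw [h9]
    unfold N
    exact_mod_cast h8

end Basic

end Pool.Agent.Lib.MP_9177b7_ag.J
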