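import Mathlib
import Pool.Agent.Lib.MP_9177b7_ag.J.Basic1

/-! The conductor and the normal form of a lattice. -/

open Pointwise QuadraticAlgebra

namespace Pool.Agent.Lib.MP_9177b7_ag.J

namespace Basic

open Fld

variable {k : Fld}

lemma one_mem_O : (1 : k.K) ∈ k.O := left_mem _ _

lemma om_mem_O : k.om ∈ k.O := right_mem _ _

lemma int_mem_O (a : ℤ) : (a : k.K) ∈ k.O := by simpa using int_mul_mem a (one_mem_O (k := k))

lemma mul_mem_of_om {B : Submodule ℤ k.K} (hB : ∀ y ∈ B, k.om * y ∈ B) {u y : k.K} (hu : u ∈ k.O)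
    (hy : y ∈ B) : u * y ∈ B := by
  obtain ⟨a, b, rfl⟩ := mem_O.1 hu
  have := B.add_mem (int_mul_mem a hy) (int_mul_mem b (hB y hy))
  convert this using 1
  ring

lemma mul_mem_O {u v : k.K} (hu : u ∈ k.O) (hv : v ∈ k.O) : u * v ∈ k.O := by
  refine mul_mem_of_om (fun y hy => ?_) hu hv
  obtain ⟨a, b, rfl⟩ := mem_O.1 hy
  refine mem_O.2 ⟨-(b * k.n), a + b * k.t, ?_⟩
  push_cast
  linear_combination (b : k.K) * om_sq (k := k)

lemma le_OL (L : Submodule ℤ k.K) : L ≤ k.O * L := fun v hv => by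
  simpa using Submodule.mul_mem_mul one_mem_O hv

lemma O_mul_mem {L : Submodule ℤ k.K} {u y : k.K} (hu : u ∈ k.O) (hy : y ∈ k.O * L) :
    u * y ∈ k.O * L := by
  refine Submodule.mul_induction_on hy (fun a ha b hb => ?_) fun a b ha hb => ?_
  · rw [← mul_assoc]; exact Submodule.mul_mem_mul (mul_mem_O hu ha) hb
  · rw [mul_add]; exact Submodule.add_mem _ ha hb

lemma OL_le {L B : Submodule ℤ k.K} (h : L ≤ B) (hB : ∀ y ∈ B, k.om * y ∈ B) : k.O * L ≤ B :=
  Submodule.mul_le.2 fun _ hu _ hv => mul_mem_of_om hB hu (h hv)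

lemma adm_mul {L : Submodule ℤ k.K} {F : ℕ} (h : k.Adm F L) {y : k.K} (hy : y ∈ k.O * L) :
    (F : k.K) * y ∈ L := by
  refine Submodule.mul_induction_on hy (fun u hu b hb => ?_) fun a b ha hb => ?_
  · obtain ⟨i, j, rfl⟩ := mem_O.1 hu
    have := L.add_mem (int_mul_mem i (nat_mul_mem F hb)) (int_mul_mem j (h b hb))
    convert this using 1
    ring
  · rw [mul_add]; exact Submodule.add_mem _ ha hb

lemma adm_pair {x y : k.K} {F : ℕ} (hx : (F : k.K) * k.om * x ∈ Submodule.span ℤ {x, y})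
    (hy : (F : k.K) * k.om * y ∈ Submodule.span ℤ {x, y}) : k.Adm F (Submodule.span ℤ {x, y}) := by
  intro v hv
  obtain ⟨a, b, rfl⟩ := mem_pair.1 hv
  have := Submodule.add_mem _ (int_mul_mem a hx) (int_mul_mem b hy)
  convert this using 1
  ring

lemma exists_mul_mem {x y : k.K} (h : k.det2 x y ≠ 0) (v : k.K) :
    ∃ j : ℕ, 0 < j ∧ (j : k.K) * v ∈ Submodule.span ℤ {x, y} := by
  set p := k.det2 v y / k.det2 x y with hp
  set q := k.det2 x v / k.det2 x y with hq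
  have e1 : v.re = p * x.re + q * y.re := by
    rw [hp, hq]; field_simp; simp [det2]; ring
  have e2 : v.im = p * x.im + q * y.im := by
    rw [hp, hq]; field_simp; simp [det2]; ring
  refine ⟨p.den * q.den, Nat.mul_pos p.den_pos q.den_pos,
    mem_pair.2 ⟨p.num * q.den, q.num * p.den, ?_⟩⟩
  have h1 := Rat.mul_den_eq_num p
  have h2 := Rat.mul_den_eq_num q
  clear_value p q
  ext
  · simp [e1]; linear_combination (q.den : ℚ) * x.re * h1 + (p.den : ℚ) * y.re * h2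
  · simp [e2]; linear_combination (q.den : ℚ) * x.im * h1 + (p.den : ℚ) * y.im * h2

lemma isCoprime_of_prime {a b : ℤ}
    (h : ∀ l : ℕ, l.Prime → (l : ℤ) ∣ a → (l : ℤ) ∣ b → False) : IsCoprime a b := by
  rw [Int.isCoprime_iff_nat_coprime]
  exact Nat.coprime_of_dvd fun l hl h1 h2 =>
    h l hl (Int.natCast_dvd.2 h1) (Int.natCast_dvd.2 h2)

lemma prime_dvd_prod {S : Finset ℕ} (hS : ∀ q ∈ S, q.Prime) {l : ℕ} (hl : l.Prime) :
    (l : ℤ) ∣ ((∏ q ∈ S, q : ℕ) : ℤ) ↔ l ∈ S := by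
  rw [Int.natCast_dvd_natCast, hl.prime.dvd_finsetProd_iff]
  constructor
  · rintro ⟨q, hq, h⟩
    rwa [(Nat.prime_dvd_prime_iff_eq hl (hS q hq)).1 h]
  · exact fun h => ⟨l, h, dvd_rfl⟩

/-- a primitive form takes a value prime to a given modulus at a primitive vector -/
lemma exists_value (q b r : ℤ) (N : ℕ) (hN : 0 < N)
    (h : ∀ l : ℕ, l.Prime → (l : ℤ) ∣ q → (l : ℤ) ∣ b → (l : ℤ) ∣ r → False) :
    ∃ u w : ℤ, IsCoprime u w ∧ IsCoprime (q * u ^ 2 + b * u * w + r * w ^ 2) N := by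
  classical
  set S₁ := N.primeFactors.filter fun l : ℕ => (l : ℤ) ∣ q ∧ ¬ (l : ℤ) ∣ r with hS₁
  set S₂ := N.primeFactors.filter fun l : ℕ => ¬ (l : ℤ) ∣ q with hS₂
  have p₁ : ∀ l ∈ S₁, l.Prime := fun l hl =>
    Nat.prime_of_mem_primeFactors (Finset.mem_filter.1 hl).1
  have p₂ : ∀ l ∈ S₂, l.Prime := fun l hl =>
    Nat.prime_of_mem_primeFactors (Finset.mem_filter.1 hl).1
  refine ⟨(∏ l ∈ S₁, l : ℕ), (∏ l ∈ S₂, l : ℕ), isCoprime_of_prime fun l hl h1 h2 => ?_,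
    isCoprime_of_prime fun l hl h1 h2 => ?_⟩
  · rw [prime_dvd_prod p₁ hl] at h1
    rw [prime_dvd_prod p₂ hl] at h2
    exact (Finset.mem_filter.1 h2).2 (Finset.mem_filter.1 h1).2.1
  · have e₁ := prime_dvd_prod p₁ hl
    have e₂ := prime_dvd_prod p₂ hl
    have hm : l ∈ N.primeFactors :=
      Nat.mem_primeFactors.2 ⟨hl, Int.natCast_dvd_natCast.1 h2, hN.ne'⟩
    simp only [hS₁, hS₂, Finset.mem_filter, hm, true_and] at e₁ e₂
    generalize ((∏ l ∈ N.primeFactors.filter fun l : ℕ => (l : ℤ) ∣ q ∧ ¬ (l : ℤ) ∣ r, l : ℕ) : ℤ)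
      = u at h1 e₁
    generalize ((∏ l ∈ N.primeFactors.filter fun l : ℕ => ¬ (l : ℤ) ∣ q, l : ℕ) : ℤ) = w at h1 e₂
    have hp : Prime (l : ℤ) := Nat.prime_iff_prime_int.1 hl
    by_cases hq : (l : ℤ) ∣ q
    · have hw : ¬ (l : ℤ) ∣ w := fun h => e₂.1 h hq
      by_cases hr : (l : ℤ) ∣ r
      · have hu : ¬ (l : ℤ) ∣ u := fun h => (e₁.1 h).2 hr
        have h3 : (l : ℤ) ∣ b * u * w := by
          have := dvd_sub (dvd_sub h1 (hq.mul_right (u ^ 2))) (hr.mul_right (w ^ 2))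
          rwa [show q * u ^ 2 + b * u * w + r * w ^ 2 - q * u ^ 2 - r * w ^ 2 = b * u * w by ring]
            at this
        rcases hp.dvd_or_dvd h3 with h4 | h4
        · rcases hp.dvd_or_dvd h4 with h5 | h5
          exacts [h l hl hq h5 hr, hu h5]
        · exact hw h4
      · have hu : (l : ℤ) ∣ u := e₁.2 ⟨hq, hr⟩
        have h3 : (l : ℤ) ∣ r * w ^ 2 := by
          have := dvd_sub (dvd_sub h1 (hq.mul_right (u ^ 2))) (hu.mul_left (b * w))
          rwa [show q * u ^ 2 + b * u * w + r * w ^ 2 - q * u ^ 2 - b * w * u = r * w ^ 2 by ring]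
            at this
        rcases hp.dvd_or_dvd h3 with h4 | h4
        exacts [hr h4, hw (hp.dvd_of_dvd_pow h4)]
    · have hw : (l : ℤ) ∣ w := e₂.2 hq
      have hu : ¬ (l : ℤ) ∣ u := fun h => hq (e₁.1 h).1
      have h3 : (l : ℤ) ∣ q * u ^ 2 := by
        have := dvd_sub h1 (hw.mul_left (b * u + r * w))
        rwa [show q * u ^ 2 + b * u * w + r * w ^ 2 - (b * u + r * w) * w = q * u ^ 2 by ring]
          at this
      rcases hp.dvd_or_dvd h3 with h4 | h4
      exacts [hq h4, hu (hp.dvd_of_dvd_pow h4)]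

lemma ne_zero_of_det {x y : k.K} (h : k.det2 x y ≠ 0) : x ≠ 0 := by
  rintro rfl
  exact h (by simp [det2])

/-- trace and determinant of the multiplication by `f ω` -/
lemma char_eq {x y : k.K} (hx0 : x ≠ 0) {f : ℕ} (hf : 0 < f) {p q r s : ℤ}
    (hx : (f : k.K) * k.om * x = p * x + q * y) (hy : (f : k.K) * k.om * y = r * x + s * y) :
    p + s = k.t * f ∧ p ^ 2 - k.t * p * f + k.n * f ^ 2 = -(q * r) := by
  have h1 : ((f : k.K) * k.om) * (f * k.om) = (p + s) * (f * k.om) - (p * s - q * r) := by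
    apply mul_right_cancel₀ hx0
    linear_combination ((f : k.K) * k.om - s) * hx + (q : k.K) * hy
  have h2 := congrArg QuadraticAlgebra.re h1
  have h3 := congrArg QuadraticAlgebra.im h1
  simp [om] at h2 h3
  have h4 : (p : ℚ) + s = k.t * f := (h3.resolve_right hf.ne').symm
  have h5 : (p : ℚ) ^ 2 - k.t * p * f + k.n * f ^ 2 = -(q * r) := by
    linear_combination (-1 : ℚ) * h2 + (p : ℚ) * h4
  exact ⟨by exact_mod_cast h4, by exact_mod_cast h5⟩

/-- the normal form -/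
lemma nf {L : Submodule ℤ k.K} {c : ℚ} (hL : k.Lat L c) : ∃ f : ℕ, 0 < f ∧ ∀ M : ℕ, 0 < M →
    ∃ (lam μ : k.K) (a : ℕ) (h e : ℤ), L = Submodule.span ℤ {lam, (f : k.K) * μ} ∧
      f * k.det2 lam μ = c ∧ k.om * lam = a * μ - h * lam ∧
      k.om * μ = (h + k.t) * μ - e * lam ∧ IsCoprime (a : ℤ) (M * f : ℕ) := by
  classical
  obtain ⟨x, y, rfl, hd, hc⟩ := hL
  have hd0 : k.det2 x y ≠ 0 := hd ▸ hc.ne'
  have hex : ∃ f : ℕ, 0 < f ∧ k.Adm f (Submodule.span ℤ {x, y}) := by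
    obtain ⟨i, hi, mi⟩ := exists_mul_mem hd0 (k.om * x)
    obtain ⟨j, hj, mj⟩ := exists_mul_mem hd0 (k.om * y)
    refine ⟨i * j, Nat.mul_pos hi hj, adm_pair ?_ ?_⟩
    · convert nat_mul_mem j mi using 1
      push_cast; ring
    · convert nat_mul_mem i mj using 1
      push_cast; ring
  obtain ⟨hf, hadm⟩ := Nat.find_spec hex
  have hmin := fun m => Nat.find_min hex (m := m)
  generalize Nat.find hex = f at hf hadm hmin
  obtain ⟨p, q, hx⟩ := mem_pair.1 (hadm x (left_mem x y))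
  obtain ⟨r, s, hy⟩ := mem_pair.1 (hadm y (right_mem x y))
  have hprim : ∀ l : ℕ, l.Prime → (l : ℤ) ∣ q → (l : ℤ) ∣ s - p → (l : ℤ) ∣ -r → False := by
    rintro l hl ⟨q', rfl⟩ ⟨d, hd'⟩ hr
    obtain ⟨r', rfl⟩ := dvd_neg.1 hr
    obtain ⟨c1, c2⟩ := char_eq (ne_zero_of_det hd0) hf hx hy
    have hl0 : (l : ℚ) ≠ 0 := by exact_mod_cast hl.ne_zero
    have hlK : (l : k.K) ≠ 0 := by exact_mod_cast hl.ne_zero
    have c1' : (p : ℚ) + s = k.t * f := by exact_mod_cast c1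
    have c2' : (p : ℚ) ^ 2 - k.t * p * f + k.n * f ^ 2 = -(l * q' * (l * r')) := by
      exact_mod_cast c2
    have hd'' : (s : ℚ) - p = l * d := by exact_mod_cast hd'
    obtain ⟨⟨p', hp'⟩, f', hf'⟩ := k.max (-p / l) (f / l)
      ⟨d, by field_simp; linear_combination hd'' - c1'⟩
      ⟨-(q' * r'), by push_cast; field_simp; linear_combination c2'⟩
    have e1 : p = l * -p' := by
      have : (p : ℚ) = l * -p' := by rw [← hp']; field_simp
      exact_mod_cast this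
    have e2 : (f : ℤ) = l * f' := by
      have : (f : ℚ) = l * f' := by rw [← hf']; field_simp
      exact_mod_cast this
    obtain ⟨g, rfl⟩ : l ∣ f := Int.natCast_dvd_natCast.1 ⟨f', e2⟩
    have hg : 0 < g := Nat.pos_of_mul_pos_left hf
    have e3 : s = l * (d - p') := by linear_combination hd' + e1
    refine hmin g (by nlinarith [hl.two_le]) ⟨hg, adm_pair (mem_pair.2 ⟨-p', q', ?_⟩)
      (mem_pair.2 ⟨r', d - p', ?_⟩)⟩
    · apply mul_left_cancel₀ hlK
      rw [e1] at hx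
      push_cast at hx ⊢
      linear_combination hx
    · apply mul_left_cancel₀ hlK
      rw [e3] at hy
      push_cast at hy ⊢
      linear_combination hy
  refine ⟨f, hf, fun M hM => ?_⟩
  obtain ⟨u, w, ⟨i, j, hij⟩, hcop⟩ := exists_value q (s - p) (-r) (M * f) (Nat.mul_pos hM hf) hprim
  set lam : k.K := u * x + w * y with hlam
  set y' : k.K := (-j : ℤ) * x + i * y with hy'
  have hdet : u * i - w * -j = 1 := by linear_combination hij
  have hsp : Submodule.span ℤ {lam, y'} = Submodule.span ℤ {x, y} := span_unimod hdet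
  have hd1 : k.det2 lam y' = c := by rw [hlam, hy', det2_comb, hdet, hd]; simp
  have hlam0 : lam ≠ 0 := ne_zero_of_det (hd1 ▸ hc.ne')
  have hijK : (i : k.K) * u + j * w = 1 := by exact_mod_cast congrArg (Int.cast : ℤ → k.K) hij
  set a₀ : ℤ := q * u ^ 2 + (s - p) * u * w + -r * w ^ 2 with ha₀
  set p' : ℤ := i * (u * p + w * r) + j * (u * q + w * s) with hp'
  have h1 : (f : k.K) * k.om * lam = p' * lam + a₀ * y' := by
    rw [hp', ha₀, hlam, hy']
    push_cast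
    linear_combination (u : k.K) * hx + (w : k.K) * hy -
      ((u * p + w * r) * x + (u * q + w * s) * y) * hijK
  have ha : 0 < a₀ := by
    have h2 := det2_comb lam y' 1 0 p' a₀
    have h3 : k.det2 lam (f * k.om * lam) = f * norm lam := by
      rw [← det2_om]; simp [det2]; ring
    rw [← h1, hd1] at h2
    simp only [Int.cast_one, one_mul, Int.cast_zero, zero_mul, add_zero, sub_zero] at h2
    have h4 : (0 : ℚ) < a₀ * c := by
      rw [← h2, h3]
      exact mul_pos (by exact_mod_cast hf) (norm_pos hlam0)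
    exact_mod_cast (mul_pos_iff_of_pos_right hc).1 h4
  obtain ⟨r', s', h2⟩ : ∃ r' s' : ℤ, (f : k.K) * k.om * y' = r' * lam + s' * y' := by
    rw [← mem_pair, hsp]
    exact hadm _ (hsp ▸ right_mem lam y')
  clear_value lam y' a₀ p'
  obtain ⟨a, rfl⟩ := Int.eq_ofNat_of_zero_le ha.le
  obtain ⟨-, c2⟩ := char_eq hlam0 hf h1 h2
  have hcf : IsCoprime (a : ℤ) f := by
    push_cast at hcop
    exact hcop.of_mul_right_right
  obtain ⟨a', f', hb⟩ := id hcf
  have hbK : (a' : k.K) * a + f' * f = 1 := by exact_mod_cast congrArg (Int.cast : ℤ → k.K) hb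
  obtain ⟨e, he⟩ : (a : ℤ) ∣ (-(p' * f')) ^ 2 + k.t * -(p' * f') + k.n := by
    refine (hcf.pow_right (n := 2)).dvd_of_dvd_mul_left
      ⟨-r' - 2 * p' ^ 2 * a' + p' ^ 2 * a' ^ 2 * a + k.t * f * p' * a', ?_⟩
    have hb' : f' * f = 1 - a' * a := by linear_combination hb
    have : (f : ℤ) ^ 2 * ((-(p' * f')) ^ 2 + k.t * -(p' * f') + k.n) =
        p' ^ 2 * (f' * f) ^ 2 - k.t * f * p' * (f' * f) + k.n * f ^ 2 := by ring
    rw [this, hb']
    linear_combination c2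
  have haK : (a : k.K) ≠ 0 := by
    have : a ≠ 0 := by omega
    exact_mod_cast this
  have heK : (-((p' : k.K) * f')) ^ 2 + k.t * -(p' * f') + k.n = a * e := by
    exact_mod_cast congrArg (Int.cast : ℤ → k.K) he
  obtain ⟨μ, hμ⟩ : ∃ μ : k.K, (a : k.K) * μ = (-(p' * f') + k.om) * lam :=
    ⟨(-(p' * f') + k.om) * lam / a, by field_simp⟩
  have h3 : (f : k.K) * μ = (p' * a' : ℤ) * lam + (1 : ℤ) * y' := by
    apply mul_left_cancel₀ haK
    push_cast at h1 ⊢
    linear_combination (f : k.K) * hμ + h1 - p' * lam * hbK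
  refine ⟨lam, μ, a, -(p' * f'), e, ?_, ?_, ?_, ?_, hcop⟩
  · rw [← hsp, h3, ← span_unimod (x := lam) (y := y') (a := 1) (b := 0) (c := p' * a') (d := 1)
      (by norm_num)]
    simp
  · have h4 := det2_comb lam y' 1 0 (p' * a') 1
    rw [← h3, hd1] at h4
    simp only [Int.cast_one, one_mul, Int.cast_zero, zero_mul, add_zero, sub_zero] at h4
    rw [← h4]
    simp [det2]; ring
  · push_cast
    linear_combination -hμ
  · apply mul_left_cancel₀ haK
    push_cast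
    linear_combination (k.om - (-(p' * f') + k.t)) * hμ + lam * om_sq (k := k) - lam * heK

lemma OL_eq {lam μ : k.K} {f a : ℕ} {h e : ℤ} (h1 : k.om * lam = a * μ - h * lam)
    (h2 : k.om * μ = (h + k.t) * μ - e * lam) (hc : IsCoprime (a : ℤ) f) :
    k.O * Submodule.span ℤ {lam, (f : k.K) * μ} = Submodule.span ℤ {lam, μ} := by
  refine le_antisymm (OL_le (pair_le (left_mem _ _) (nat_mul_mem f (right_mem _ _))) fun v hv => ?_)
    (pair_le (le_OL _ (left_mem _ _)) ?_)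
  · obtain ⟨i, j, rfl⟩ := mem_pair.1 hv
    refine mem_pair.2 ⟨-(i * h) - j * e, i * a + j * (h + k.t), ?_⟩
    push_cast
    linear_combination (i : k.K) * h1 + (j : k.K) * h2
  · obtain ⟨a', f', hb⟩ := hc
    have hbK : (a' : k.K) * a + f' * f = 1 := by exact_mod_cast congrArg (Int.cast : ℤ → k.K) hb
    have m1 := Submodule.mul_mem_mul (k.O.add_mem (int_mem_O h) om_mem_O)
      (left_mem lam ((f : k.K) * μ))
    have m2 := le_OL _ (right_mem lam ((f : k.K) * μ))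
    convert Submodule.add_mem _ (int_mul_mem a' m1) (int_mul_mem f' m2) using 1
    linear_combination -μ * hbK - (a' : k.K) * h1

lemma conductor (L : Submodule ℤ k.K) (c : ℚ) (hL : k.Lat L c) :
    ∃ f : ℕ, 0 < f ∧ k.Cond L f ∧ k.Lat (k.O * L) (c / f) ∧
      ∀ M : ℕ, 0 < M → ∃ lam ∈ L, (∀ x, x ∈ L ↔ ∃ (a : ℤ), ∃ y ∈ k.O * L, x = a * lam + f * y) ∧
        ∀ x ∈ k.O * L, ∃ u ∈ k.O, ∃ y ∈ k.O * L, x = u * lam + M * y := by
  obtain ⟨f, hf, H⟩ := nf hL
  have hc : 0 < c := by obtain ⟨-, -, -, -, hc⟩ := hL; exact hc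
  have hfq : (0 : ℚ) < f := by exact_mod_cast hf
  have hfA : ∀ lam μ : k.K, ∀ y ∈ Submodule.span ℤ {lam, μ},
      (f : k.K) * y ∈ Submodule.span ℤ {lam, (f : k.K) * μ} := by
    intro lam μ y hy
    obtain ⟨i, j, rfl⟩ := mem_pair.1 hy
    exact mem_pair.2 ⟨f * i, j, by push_cast; ring⟩
  refine ⟨f, hf, ?_, ?_, fun M hM => ?_⟩
  · obtain ⟨lam, μ, a, h, e, rfl, hd, h1, h2, hcop⟩ := H 1 one_pos
    rw [one_mul] at hcop
    have hd0 : k.det2 lam μ ≠ 0 := by
      rintro h0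
      rw [h0, mul_zero] at hd
      exact hc.ne hd
    refine fun m => ⟨fun hm => ?_, ?_⟩
    · obtain ⟨i, j, hij⟩ := mem_pair.1 (hm lam (left_mem _ _))
      have h3 := coord_inj hd0 (a := -(m * h)) (b := m * a) (a' := i) (b' := j * f) (by
        push_cast
        linear_combination hij - (m : k.K) * h1)
      exact Int.natCast_dvd_natCast.1 (hcop.symm.dvd_of_dvd_mul_right ⟨j, by rw [h3.2, mul_comm]⟩)
    · rintro ⟨g, rfl⟩ v hv
      have h3 := Submodule.mul_mem_mul om_mem_O hv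
      rw [OL_eq h1 h2 hcop] at h3
      convert nat_mul_mem g (hfA _ _ _ h3) using 1
      push_cast; ring
  · obtain ⟨lam, μ, a, h, e, rfl, hd, h1, h2, hcop⟩ := H 1 one_pos
    rw [one_mul] at hcop
    exact ⟨lam, μ, OL_eq h1 h2 hcop, by rw [← hd]; field_simp, div_pos hc hfq⟩
  · obtain ⟨lam, μ, a, h, e, rfl, hd, h1, h2, hcop⟩ := H M hM
    push_cast at hcop
    rw [OL_eq h1 h2 hcop.of_mul_right_right]
    refine ⟨lam, left_mem _ _, fun x => ⟨fun hx => ?_, ?_⟩, fun x hx => ?_⟩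
    · obtain ⟨i, j, rfl⟩ := mem_pair.1 hx
      exact ⟨i, j * μ, int_mul_mem j (right_mem _ _), by ring⟩
    · rintro ⟨i, y, hy, rfl⟩
      exact Submodule.add_mem _ (int_mul_mem i (left_mem _ _)) (hfA _ _ _ hy)
    · obtain ⟨i, j, rfl⟩ := mem_pair.1 hx
      obtain ⟨a', m', hb⟩ := hcop.of_mul_right_left
      have hbK : (a' : k.K) * a + m' * M = 1 := by exact_mod_cast congrArg (Int.cast : ℤ → k.K) hb
      refine ⟨(i + j * a' * h : ℤ) + (j * a' : ℤ) * k.om, mem_O.2 ⟨_, _, rfl⟩, (j * m' : ℤ) * μ,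
        int_mul_mem _ (right_mem _ _), ?_⟩
      push_cast
      linear_combination -(j : k.K) * μ * hbK - (j * a' : k.K) * h1

lemma normalise (L : Submodule ℤ k.K) (c : ℚ) (F M : ℕ) (hL : k.Lat L c) (hF : k.Adm F L)
    (hM : 0 < M) (hFM : Nat.Coprime F M) :
    ∃ α : k.K, α ≠ 0 ∧ ∀ l : ℕ, l.Prime → l ∣ M → k.Nrm l (α • L) := by
  obtain ⟨f, hf, H⟩ := nf hL
  have hc : 0 < c := by obtain ⟨-, -, -, -, hc⟩ := hL; exact hc
  obtain ⟨lam, μ, a, h, e, rfl, hd, h1, h2, hcop⟩ := H M hM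
  push_cast at hcop
  have hd0 : k.det2 lam μ ≠ 0 := by
    rintro h0
    rw [h0, mul_zero] at hd
    exact hc.ne hd
  have hlam := ne_zero_of_det hd0
  have hfF : f ∣ F := by
    obtain ⟨i, j, hij⟩ := mem_pair.1 (hF lam (left_mem _ _))
    have h3 := coord_inj hd0 (a := -(F * h)) (b := F * a) (a' := i) (b' := j * f) (by
      push_cast
      linear_combination hij - (F : k.K) * h1)
    exact Int.natCast_dvd_natCast.1
      (hcop.of_mul_right_right.symm.dvd_of_dvd_mul_right ⟨j, by rw [h3.2, mul_comm]⟩)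
  refine ⟨lam⁻¹, inv_ne_zero hlam, fun l hl hlM => ⟨a * f, fun hdv => ?_, fun x hx => ?_,
    fun x hx => ?_⟩⟩
  · rcases (Nat.Prime.dvd_mul hl).1 hdv with h3 | h3
    · have h4 : Nat.Coprime a M := Nat.isCoprime_iff_coprime.1 hcop.of_mul_right_left
      exact hl.one_lt.ne' (Nat.eq_one_of_dvd_coprimes h4 h3 hlM)
    · exact hl.one_lt.ne' (Nat.eq_one_of_dvd_coprimes hFM (h3.trans hfF) hlM)
  · obtain ⟨i, j, rfl⟩ := mem_O.1 hx
    refine (Submodule.mem_smul_pointwise_iff_exists _ _ _).2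
      ⟨_, mem_pair.2 ⟨a * f * (i - j * h), a * j * a, rfl⟩, ?_⟩
    rw [smul_eq_mul, inv_mul_eq_iff_eq_mul₀ hlam]
    push_cast
    linear_combination -(a * f * j : k.K) * h1
  · obtain ⟨v, hv, rfl⟩ := (Submodule.mem_smul_pointwise_iff_exists _ _ _).1 hx
    obtain ⟨i, j, rfl⟩ := mem_pair.1 hv
    refine mem_O.2 ⟨f * (a * i + j * f * h), f * j * f, ?_⟩
    rw [smul_eq_mul, mul_left_comm, inv_mul_eq_iff_eq_mul₀ hlam]
    push_cast
    linear_combination -(f * j * f : k.K) * h1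

end Basic

end Pool.Agent.Lib.MP_9177b7_ag.J
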