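import Mathlib
import Pool.Agent.Lib.MP_9177b7_ag.J.Basic2

/-! The action of `(O / F O)ˣ` on lattices. -/

open Pointwise QuadraticAlgebra

namespace Pool.Agent.Lib.MP_9177b7_ag.J

namespace Basic

open Fld

variable {k : Fld}

/-- the action of an element of the maximal order -/
noncomputable def ac (u : k.K) (F : ℕ) (L : Submodule ℤ k.K) : Submodule ℤ k.K :=
  Submodule.span ℤ {u, (F : k.K), (F : k.K) * k.om} * L

lemma act_eq {F : ℕ+} (s : k.SF F) (L : Submodule ℤ k.K) : act s L = ac (lift s) F L := rfl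

lemma mem_ac {u x : k.K} {F : ℕ} {L : Submodule ℤ k.K} :
    x ∈ ac u F L ↔ ∃ v ∈ L, ∃ y ∈ k.O * L, x = u * v + F * y := by
  constructor
  · intro hx
    refine Submodule.mul_induction_on hx (fun i hi v hv => ?_) ?_
    · obtain ⟨a, z, hz, rfl⟩ := Submodule.mem_span_insert.1 hi
      obtain ⟨b, c, rfl⟩ := mem_pair.1 hz
      refine ⟨a * v, int_mul_mem a hv, (b + c * k.om) * v,
        Submodule.mul_mem_mul (mem_O.2 ⟨b, c, rfl⟩) hv, ?_⟩
      rw [zsmul_eq_mul]; ring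
    · rintro _ _ ⟨v, hv, y, hy, rfl⟩ ⟨v', hv', y', hy', rfl⟩
      exact ⟨v + v', L.add_mem hv hv', y + y', Submodule.add_mem _ hy hy', by ring⟩
  · rintro ⟨v, hv, y, hy, rfl⟩
    refine Submodule.add_mem _ (Submodule.mul_mem_mul (Submodule.subset_span (by simp)) hv) ?_
    refine Submodule.mul_induction_on hy (fun o ho v hv => ?_) fun a b ha hb => ?_
    · obtain ⟨i, j, rfl⟩ := mem_O.1 ho
      rw [← mul_assoc]
      refine Submodule.mul_mem_mul ?_ hv
      have h1 : (F : k.K) ∈ Submodule.span ℤ {u, (F : k.K), (F : k.K) * k.om} :=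
        Submodule.subset_span (by simp)
      have h2 : (F : k.K) * k.om ∈ Submodule.span ℤ {u, (F : k.K), (F : k.K) * k.om} :=
        Submodule.subset_span (by simp)
      convert Submodule.add_mem _ (int_mul_mem i h1) (int_mul_mem j h2) using 1
      ring
    · rw [mul_add]; exact Submodule.add_mem _ ha hb

lemma ac_le {u : k.K} (hu : u ∈ k.O) (F : ℕ) (L : Submodule ℤ k.K) : ac u F L ≤ k.O * L := by
  intro x hx
  obtain ⟨v, hv, y, hy, rfl⟩ := mem_ac.1 hx
  exact Submodule.add_mem _ (Submodule.mul_mem_mul hu hv) (nat_mul_mem F hy)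

lemma mul_mem_ac (u : k.K) (F : ℕ) {L : Submodule ℤ k.K} {y : k.K} (hy : y ∈ k.O * L) :
    (F : k.K) * y ∈ ac u F L := mem_ac.2 ⟨0, L.zero_mem, y, hy, by ring⟩

lemma ac_congr {u u' y : k.K} {F : ℕ} (hy : y ∈ k.O) (h : u = u' + F * y) (L : Submodule ℤ k.K) :
    ac u F L = ac u' F L := by
  ext x
  simp only [mem_ac]
  constructor
  · rintro ⟨v, hv, z, hz, rfl⟩
    exact ⟨v, hv, z + y * v, Submodule.add_mem _ hz (Submodule.mul_mem_mul hy hv), by rw [h]; ring⟩
  · rintro ⟨v, hv, z, hz, rfl⟩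
    exact ⟨v, hv, z - y * v, Submodule.sub_mem _ hz (Submodule.mul_mem_mul hy hv), by rw [h]; ring⟩

lemma OL_ac {u u' y : k.K} {F : ℕ} (hu : u ∈ k.O) (hu' : u' ∈ k.O) (hy : y ∈ k.O)
    (h : u * u' = 1 + F * y) (L : Submodule ℤ k.K) : k.O * ac u F L = k.O * L := by
  refine le_antisymm (OL_le (ac_le hu F L) fun _ hz => O_mul_mem om_mem_O hz)
    (OL_le (fun v hv => ?_) fun _ hz => O_mul_mem om_mem_O hz)
  have h1 : u * v ∈ ac u F L := mem_ac.2 ⟨v, hv, 0, Submodule.zero_mem _, by ring⟩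
  have h2 := le_OL _ (mul_mem_ac u F (Submodule.mul_mem_mul hy hv))
  convert Submodule.sub_mem _ (Submodule.mul_mem_mul hu' h1) h2 using 1
  linear_combination -v * h

lemma ac_one {F : ℕ} {L : Submodule ℤ k.K} (h : k.Adm F L) : ac 1 F L = L := by
  ext x
  rw [mem_ac]
  constructor
  · rintro ⟨v, hv, y, hy, rfl⟩
    rw [one_mul]
    exact L.add_mem hv (adm_mul h hy)
  · exact fun hx => ⟨x, hx, 0, Submodule.zero_mem _, by ring⟩

lemma ac_mul {u u' : k.K} {F : ℕ} {L : Submodule ℤ k.K} (hu : u ∈ k.O)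
    (h : k.O * ac u' F L = k.O * L) : ac (u * u') F L = ac u F (ac u' F L) := by
  ext x
  rw [mem_ac, mem_ac, h]
  constructor
  · rintro ⟨v, hv, y, hy, rfl⟩
    exact ⟨u' * v, mem_ac.2 ⟨v, hv, 0, Submodule.zero_mem _, by ring⟩, y, hy, by ring⟩
  · rintro ⟨w, hw, y, hy, rfl⟩
    obtain ⟨v, hv, z, hz, rfl⟩ := mem_ac.1 hw
    exact ⟨v, hv, u * z + y, Submodule.add_mem _ (O_mul_mem hu hz) hy, by ring⟩

lemma adm_mul_left {c : ℕ} {L : Submodule ℤ k.K} (h : k.Adm c L) (I : Submodule ℤ k.K) :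
    k.Adm c (I * L) := by
  intro x hx
  refine Submodule.mul_induction_on hx (fun i hi v hv => ?_) fun a b ha hb => ?_
  · rw [mul_left_comm]; exact Submodule.mul_mem_mul hi (h v hv)
  · rw [mul_add]; exact Submodule.add_mem _ ha hb

lemma ac_level {u u' y : k.K} {F F' : ℕ} {L : Submodule ℤ k.K} (hu' : u' ∈ k.O) (hy : y ∈ k.O)
    (hF : F ∣ F') (h : u * u' = 1 + F' * y) (hL : k.Adm F L) : ac u F' L = ac u F L := by
  obtain ⟨g, rfl⟩ := hF
  ext x
  simp only [mem_ac]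
  constructor
  · rintro ⟨v, hv, z, hz, rfl⟩
    exact ⟨v, hv, g * z, nat_mul_mem g hz, by push_cast; ring⟩
  · rintro ⟨v, hv, z, hz, rfl⟩
    refine ⟨v + F * (u' * z), L.add_mem hv (adm_mul hL (O_mul_mem hu' hz)), -(F * (y * z)),
      Submodule.neg_mem _ (nat_mul_mem F (O_mul_mem hy hz)), ?_⟩
    linear_combination -(F : k.K) * z * h

/-- the residue ring -/
abbrev RF (k : Fld) (F : ℕ) : Type := QuadraticAlgebra (ZMod F) (-(k.n : ZMod F)) (k.t : ZMod F)

/-- `x` reduces to `s` -/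
def Red (F : ℕ) (x : k.K) (s : RF k F) : Prop :=
  ∃ a b : ℤ, x = a + b * k.om ∧ (a : ZMod F) = s.re ∧ (b : ZMod F) = s.im

lemma Red.mem {F : ℕ} {x : k.K} {s : RF k F} (h : Red F x s) : x ∈ k.O := by
  obtain ⟨a, b, h, -⟩ := h
  exact mem_O.2 ⟨a, b, h⟩

lemma red_lift {F : ℕ+} (s : k.SF F) : Red F (lift s) s.val := by
  refine ⟨s.val.re.val, s.val.im.val, ?_, by simp, by simp⟩
  generalize ha : s.val.re.val = a
  generalize hb : s.val.im.val = b
  ext <;> simp [Fld.lift, om, ha, hb]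

lemma red_one (F : ℕ) : Red F (1 : k.K) 1 := ⟨1, 0, by simp, by simp, by simp⟩

lemma Red.mul {F : ℕ} {x x' : k.K} {s s' : RF k F} (h : Red F x s) (h' : Red F x' s') :
    Red F (x * x') (s * s') := by
  obtain ⟨a, b, rfl, h1, h2⟩ := h
  obtain ⟨a', b', rfl, h1', h2'⟩ := h'
  refine ⟨a * a' - k.n * b * b', a * b' + b * a' + k.t * b * b', ?_, ?_, ?_⟩
  · push_cast
    linear_combination (b * b' : k.K) * om_sq (k := k)
  · rw [re_mul, ← h1, ← h2, ← h1', ← h2']; push_cast; ring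
  · rw [im_mul, ← h1, ← h2, ← h1', ← h2']; push_cast; ring

lemma Red.diff {F : ℕ} {x x' : k.K} {s : RF k F} (h : Red F x s) (h' : Red F x' s) :
    ∃ y ∈ k.O, x = x' + F * y := by
  obtain ⟨a, b, rfl, h1, h2⟩ := h
  obtain ⟨a', b', rfl, h1', h2'⟩ := h'
  obtain ⟨i, hi⟩ := (ZMod.intCast_eq_intCast_iff_dvd_sub a' a F).1 (h1'.trans h1.symm)
  obtain ⟨j, hj⟩ := (ZMod.intCast_eq_intCast_iff_dvd_sub b' b F).1 (h2'.trans h2.symm)
  have hi' : (a : k.K) - a' = F * i := by exact_mod_cast congrArg (Int.cast : ℤ → k.K) hi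
  have hj' : (b : k.K) - b' = F * j := by exact_mod_cast congrArg (Int.cast : ℤ → k.K) hj
  exact ⟨i + j * k.om, mem_O.2 ⟨i, j, rfl⟩, by linear_combination hi' + k.om * hj'⟩

lemma lift_mem {F : ℕ+} (s : k.SF F) : lift s ∈ k.O := (red_lift s).mem

lemma lift_inv {F : ℕ+} (s : k.SF F) : ∃ y ∈ k.O, lift s * lift s⁻¹ = 1 + (F : ℕ) * y := by
  have h := (red_lift s).mul (red_lift s⁻¹)
  rw [Units.mul_inv] at h
  exact h.diff (red_one F)

lemma OL_act {F : ℕ+} (s : k.SF F) (L : Submodule ℤ k.K) : k.O * act s L = k.O * L := by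
  obtain ⟨y, hy, h⟩ := lift_inv s
  exact OL_ac (lift_mem s) (lift_mem s⁻¹) hy h L

lemma act_one {F : ℕ+} {L : Submodule ℤ k.K} (h : k.Adm F L) : act (1 : k.SF F) L = L := by
  obtain ⟨y, hy, e⟩ := (red_lift (1 : k.SF F)).diff (red_one F)
  rw [act_eq, ac_congr hy e, ac_one h]

lemma act_mul {F : ℕ+} (s s' : k.SF F) (L : Submodule ℤ k.K) :
    act (s * s') L = act s (act s' L) := by
  obtain ⟨y, hy, e⟩ := (red_lift (s * s')).diff ((red_lift s).mul (red_lift s'))
  rw [act_eq, ac_congr hy e, ac_mul (lift_mem s) (OL_act s' L)]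
  rfl

lemma cond_act {F : ℕ+} (s : k.SF F) {L : Submodule ℤ k.K} (h : k.Adm F L) {f : ℕ}
    (hf : k.Cond L f) : k.Cond (act s L) f := by
  refine fun c => ⟨fun hc => (hf c).1 ?_, fun hc => adm_mul_left ((hf c).2 hc) _⟩
  rw [← act_one h, ← inv_mul_cancel s, act_mul]
  exact adm_mul_left hc _

lemma lat_act {F : ℕ+} (s : k.SF F) {L : Submodule ℤ k.K} {c : ℚ} (hL : k.Lat L c)
    (h : k.Adm F L) : k.Lat (act s L) c := by
  obtain ⟨f, hf, hc, hA, -⟩ := conductor L c hL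
  have hN : k.N ((F : ℕ) : k.K) ≠ k.N 0 := by
    simp [N]
  obtain ⟨c', hc'⟩ := lat_between _ _ (act s L) _ _ (lat_lin _ _ _ _ hA hN) hA (by
    rintro _ ⟨y, hy, rfl⟩
    rw [act_eq]
    simpa [lin] using mul_mem_ac (lift s) F hy) (ac_le (lift_mem s) F L)
  obtain ⟨f', hf', hd, hA', -⟩ := conductor _ c' hc'
  have h1 := cond_act s h hc
  obtain rfl : f = f' := Nat.dvd_antisymm ((h1 f').1 ((hd f').2 dvd_rfl))
    ((hd f).1 ((h1 f).2 dvd_rfl))
  rw [OL_act] at hA'
  have h2 := cov_unique _ _ _ hA hA'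
  have hfq : (f : ℚ) ≠ 0 := by positivity
  rwa [(div_left_inj' hfq).1 h2]

lemma nrm_act {F : ℕ+} (s : k.SF F) {L : Submodule ℤ k.K} (l : ℕ) (hl : l.Prime)
    (hF : ¬ l ∣ F) (h : k.Nrm l L) : k.Nrm l (act s L) := by
  obtain ⟨u, hu, h1, h2⟩ := h
  refine ⟨F * u, fun hd => ((Nat.Prime.dvd_mul hl).1 hd).elim hF hu, fun x hx => ?_,
    fun x hx => ?_⟩
  · rw [Nat.cast_mul, mul_assoc]
    exact mul_mem_ac _ _ (le_OL _ (h1 x hx))
  · rw [Nat.cast_mul, mul_assoc]
    refine nat_mul_mem _ ?_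
    refine Submodule.mul_induction_on (ac_le (lift_mem s) F L hx) (fun o ho v hv => ?_)
      fun a b ha hb => ?_
    · rw [mul_left_comm]; exact mul_mem_O ho (h2 v hv)
    · rw [mul_add]; exact Submodule.add_mem _ ha hb

lemma act_nf {F : ℕ+} (s : k.SF F) {L : Submodule ℤ k.K} (f : ℕ) (lam : k.K)
    (h : ∀ x, x ∈ L ↔ ∃ (a : ℤ), ∃ y ∈ k.O * L, x = a * lam + f * y) (hf : f ∣ F) (x : k.K) :
    x ∈ act s L ↔ ∃ (a : ℤ), ∃ y ∈ k.O * L, x = a * (lift s * lam) + f * y := by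
  obtain ⟨g, hg⟩ := hf
  have hg' : ((F : ℕ) : k.K) = f * g := by rw [hg]; push_cast; rfl
  rw [act_eq, mem_ac]
  constructor
  · rintro ⟨v, hv, z, hz, rfl⟩
    obtain ⟨a, y, hy, rfl⟩ := (h v).1 hv
    exact ⟨a, lift s * y + g * z, Submodule.add_mem _ (O_mul_mem (lift_mem s) hy)
      (nat_mul_mem g hz), by rw [hg']; ring⟩
  · rintro ⟨a, y, hy, rfl⟩
    obtain ⟨y₀, hy₀, e⟩ := lift_inv s
    refine ⟨_, (h _).2 ⟨a, lift s⁻¹ * y, O_mul_mem (lift_mem s⁻¹) hy, rfl⟩, -(f * (y₀ * y)),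
      Submodule.neg_mem _ (nat_mul_mem f (O_mul_mem hy₀ hy)), ?_⟩
    linear_combination -(f : k.K) * y * e

lemma units_surj {R S : Type} [CommRing R] [CommRing S] [Finite R] (ρ : R →+* S)
    (h : Function.Surjective ρ) : Function.Surjective (Units.map ρ.toMonoidHom) := by
  intro s
  obtain ⟨r, hr⟩ := h s.val
  obtain ⟨n, y, hy⟩ := IsArtinian.exists_pow_succ_smul_dvd (R := R) (M := R) r 1
  simp only [smul_eq_mul, mul_one, Nat.succ_eq_add_one] at hy
  have h1 : ∀ m : ℕ, r ^ n * (r * y) ^ m = r ^ n := by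
    intro m
    induction m with
    | zero => simp
    | succ m ih => rw [pow_succ (r * y), ← mul_assoc, ih, ← mul_assoc, ← pow_succ, hy]
  have h2 : r * y * (r * y) ^ n = (r * y) ^ n := by
    rw [mul_pow]
    linear_combination y ^ n * hy
  have h3 : (r * y) ^ n * (r * y) ^ n = (r * y) ^ n := by
    have := h1 n
    nth_rewrite 1 [mul_pow]
    nth_rewrite 2 [mul_pow]
    linear_combination y ^ n * this
  have h4 : ρ (r * y) = 1 := by
    have h5 := congrArg ρ hy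
    rw [pow_succ, mul_assoc, map_mul, map_pow, hr] at h5
    exact (s.isUnit.pow n).mul_left_cancel (by rw [h5, mul_one])
  generalize he : (r * y) ^ n = e at h2 h3
  have h6 : ρ e = 1 := by rw [← he, map_pow, h4, one_pow]
  have h7 : (r * e + (1 - e)) * (y * e + (1 - e)) = 1 := by
    linear_combination (r * y - r - y + 1) * h3 + h2
  refine ⟨⟨r * e + (1 - e), y * e + (1 - e), h7, by rw [mul_comm, h7]⟩, Units.ext ?_⟩
  change ρ (r * e + (1 - e)) = s.val
  rw [map_add, map_mul, map_sub, map_one, h6, hr]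
  ring

lemma sum_surj {G H : Type} [Group G] [Group H] [Fintype G] [Fintype H] (p : G →* H)
    (hp : Function.Surjective p) : ∃ m : ℕ, ∀ φ : H → ℝ, ∑ g, φ (p g) = m * ∑ h, φ h := by
  classical
  refine ⟨(Finset.univ.filter fun g => p g = 1).card, fun φ => ?_⟩
  rw [Finset.sum_comp φ p, Finset.image_univ_of_surjective hp, Finset.mul_sum]
  refine Finset.sum_congr rfl fun h _ => ?_
  rw [MonoidHom.card_fiber_eq_of_mem_range p (hp h) (hp 1), nsmul_eq_mul]

/-- reduction of the modulus -/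
def rho (k : Fld) {F F' : ℕ} (h : F ∣ F') : RF k F' →+* RF k F where
  toFun z := ⟨ZMod.castHom h (ZMod F) z.re, ZMod.castHom h (ZMod F) z.im⟩
  map_one' := by ext <;> simp only [re_one, im_one, map_one, map_zero]
  map_zero' := by ext <;> simp only [re_zero, im_zero, map_zero]
  map_add' z w := by ext <;> simp only [re_add, im_add, map_add]
  map_mul' z w := by
    ext <;> simp only [re_mul, im_mul, map_add, map_mul, map_neg, map_intCast]

lemma change (F F' : ℕ+) (h : (F : ℕ) ∣ F') : ∃ p : k.SF F' →* k.SF F, Function.Surjective p ∧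
    (∀ φ : k.SF F → ℝ, k.avg F' (fun s => φ (p s)) = k.avg F φ) ∧
    ∀ L, k.Adm F L → ∀ s, act s L = act (p s) L := by
  have hs : Function.Surjective (Units.map (rho k h).toMonoidHom) := by
    refine units_surj _ fun z => ?_
    obtain ⟨a, ha⟩ := ZMod.castHom_surjective h z.re
    obtain ⟨b, hb⟩ := ZMod.castHom_surjective h z.im
    exact ⟨⟨a, b⟩, QuadraticAlgebra.ext ha hb⟩
  refine ⟨Units.map (rho k h).toMonoidHom, hs, fun φ => ?_, fun L hL s => ?_⟩
  · obtain ⟨m, hm⟩ := sum_surj (G := k.SF F') (H := k.SF F) _ hs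
    have h1 := hm fun _ => 1
    simp only [Finset.sum_const, Finset.card_univ, nsmul_eq_mul, mul_one] at h1
    have h2 : (m : ℝ) ≠ 0 := by
      intro h0
      rw [h0, zero_mul] at h1
      exact Fintype.card_ne_zero (Nat.cast_eq_zero.1 h1)
    unfold avg
    rw [hm, h1, mul_div_mul_left _ _ h2]
  · have h1 : Red F (lift s) (Units.map (rho k h).toMonoidHom s).val := by
      obtain ⟨a, b, e, h1, h2⟩ := red_lift s
      refine ⟨a, b, e, ?_, ?_⟩
      · change _ = ZMod.castHom h (ZMod F) s.val.re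
        rw [← h1, map_intCast]
      · change _ = ZMod.castHom h (ZMod F) s.val.im
        rw [← h2, map_intCast]
    obtain ⟨y, hy, e⟩ := (red_lift (Units.map (rho k h).toMonoidHom s : k.SF F)).diff h1
    obtain ⟨y', hy', e'⟩ := lift_inv s
    rw [act_eq, act_eq, ac_congr hy e, ac_level (lift_mem s⁻¹) hy' h e' hL]

end Basic

open Basic Fld in
theorem basic : BasicStmt := by
  intro k
  refine ⟨io_mul, cov_unique, lat_lin, index, lat_between, reduced, conductor, ?_, change,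
    normalise⟩
  intro F L c hL hF
  refine ⟨act_one hF, fun s => ⟨lat_act s hL hF, adm_mul_left hF _, OL_act s L,
    fun f hf => cond_act s hF hf, nrm_act s, fun s' => act_mul s s' L, fun α => ?_,
    fun L' h => ?_, act_nf s⟩⟩
  · unfold act
    rw [mul_smul_comm]
  · unfold act
    gcongr

end Pool.Agent.Lib.MP_9177b7_ag.J
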