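import Pool.Agent.Lib.MP_9177b7_ag.J.LargeD
import Pool.Agent.Lib.MP_9177b7_ag.J.Basic
import Pool.Agent.Lib.MP_9177b7_ag.J.Tight

/-! Reduction of the event to the integer model. -/

noncomputable section

namespace Pool.Agent.Lib.MP_9177b7_ag.J.Large

open Fld Pointwise QuadraticAlgebra Basic

namespace Red

variable {k : Fld}

/-- The element of the maximal order with given coordinates. -/
def el (k : Fld) (v : ℤ × ℤ) : k.K := ⟨v.1, v.2⟩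

lemma el_eq (v : ℤ × ℤ) : el k v = v.1 + v.2 * k.om := by ext <;> simp [el, om]

lemma norm_el (v : ℤ × ℤ) : norm (el k v) = nm k v := by
  simp [el, norm_def, nm]; ring

lemma el_mc (v w : ℤ × ℤ) : el k (mc k v w) = el k v * star (el k w) := by
  ext <;> simp [el, mc] <;> ring

lemma el_inj {v w : ℤ × ℤ} (h : el k v = el k w) : v = w := by
  have h1 : (v.1 : ℚ) = w.1 := congrArg QuadraticAlgebra.re h
  have h2 : (v.2 : ℚ) = w.2 := congrArg QuadraticAlgebra.im h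
  exact Prod.ext (by exact_mod_cast h1) (by exact_mod_cast h2)

lemma el_mem (v : ℤ × ℤ) : el k v ∈ k.O := mem_O.2 ⟨_, _, el_eq v⟩

lemma star_om : star k.om = k.t - k.om := by ext <;> simp [om]

lemma star_om_mem : star k.om ∈ k.O := by
  rw [star_om]; exact k.O.sub_mem (int_mem_O _) om_mem_O

lemma star_el_mem (v : ℤ × ℤ) : star (el k v) ∈ k.O := by
  rw [el_eq, star_add, star_mul', star_intCast, star_intCast]
  exact k.O.add_mem (int_mem_O _) (int_mul_mem _ star_om_mem)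

lemma mul_star_el (v : ℤ × ℤ) : el k v * star (el k v) = nm k v := by
  ext <;> simp [el, nm, sq] <;> ring

lemma lift_el {F : ℕ+} (s : k.SF F) : lift s = el k (sg s) := Tight.lift_eq s

lemma norm_del : norm (k.om - star k.om) = -(k.D : ℚ) := by
  simp [om, norm_def, D]; ring

/-- Normal form of a lattice. -/
structure NF (L : Submodule ℤ k.K) (c : ℚ) (f a : ℕ) (h : ℤ) (lam μ : k.K) : Prop where
  sp : L = Submodule.span ℤ {lam, (f : k.K) * μ}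
  OL : k.O * L = Submodule.span ℤ {lam, μ}
  mu : (a : k.K) * μ = (h + k.om) * lam
  cov : c * a = f * norm lam
  pos : 0 < a
  ne : lam ≠ 0

lemma exists_nf {L : Submodule ℤ k.K} {c : ℚ} (hL : k.Lat L c) {f : ℕ} (hf : k.Cond L f) :
    0 < f ∧ ∀ M : ℕ, 0 < M → ∃ (a : ℕ) (h : ℤ) (lam μ : k.K), NF L c f a h lam μ ∧
      IsCoprime (a : ℤ) M := by
  obtain ⟨f', hf', H⟩ := nf hL
  obtain ⟨f'', hf'', hc, hA, -⟩ := conductor L c hL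
  have hc0 : 0 < c := by obtain ⟨-, -, -, -, hc⟩ := hL; exact hc
  have e1 : f = f'' := Nat.dvd_antisymm ((hf _).1 ((hc _).2 dvd_rfl)) ((hc _).1 ((hf _).2 dvd_rfl))
  have hq' : (0 : ℚ) < f' := by exact_mod_cast hf'
  have hq'' : (0 : ℚ) < f'' := by exact_mod_cast hf''
  have e2 : f' = f'' := by
    obtain ⟨lam, μ, a, h, e, rfl, hd, h1, h2, hcop⟩ := H 1 one_pos
    rw [one_mul] at hcop
    have h3 := cov_unique _ _ _ hA ⟨lam, μ, OL_eq h1 h2 hcop, (by rw [← hd]; field_simp : _ = c / f'),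
      div_pos hc0 hq'⟩
    field_simp at h3
    exact_mod_cast h3
  subst e1 e2
  refine ⟨hf', fun M hM => ?_⟩
  obtain ⟨lam, μ, a, h, e, rfl, hd, h1, h2, hcop⟩ := H M hM
  push_cast at hcop
  have hd0 : k.det2 lam μ ≠ 0 := by
    rintro h0
    rw [h0, mul_zero] at hd
    exact hc0.ne hd
  have hl := ne_zero_of_det hd0
  have h3 : norm lam = a * k.det2 lam μ := by
    rw [← det2_om, h1]
    simp [det2]; ring
  refine ⟨a, h, lam, μ, ⟨rfl, OL_eq h1 h2 hcop.of_mul_right_right, by linear_combination -h1,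
    by rw [h3, ← hd]; ring, Nat.pos_of_ne_zero ?_, hl⟩, hcop.of_mul_right_left⟩
  rintro rfl
  exact (Basic.norm_pos hl).ne' (by simpa using h3)

namespace NF

variable {L : Submodule ℤ k.K} {c : ℚ} {f a : ℕ} {h : ℤ} {lam μ : k.K}

lemma lam_mem (H : NF L c f a h lam μ) : lam ∈ k.O * L := H.OL ▸ left_mem _ _

lemma mu_mem (H : NF L c f a h lam μ) : μ ∈ k.O * L := H.OL ▸ right_mem _ _

lemma iff (H : NF L c f a h lam μ) (x : k.K) :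
    x ∈ L ↔ ∃ (i : ℤ), ∃ y ∈ k.O * L, x = i * lam + f * y := by
  rw [H.OL, H.sp]
  refine ⟨fun hx => ?_, ?_⟩
  · obtain ⟨i, j, rfl⟩ := mem_pair.1 hx
    exact ⟨i, j * μ, int_mul_mem j (right_mem _ _), by ring⟩
  · rintro ⟨i, y, hy, rfl⟩
    obtain ⟨i', j, rfl⟩ := mem_pair.1 hy
    exact mem_pair.2 ⟨i + f * i', j, by push_cast; ring⟩

lemma outA (H : NF L c f a h lam μ) {y : k.K} (hy : y ∈ k.O * L) :
    ∃ i j : ℤ, a / lam * y = i * (a : ℤ) + j * (h + k.om) := by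
  rw [H.OL] at hy
  obtain ⟨i, j, rfl⟩ := mem_pair.1 hy
  refine ⟨i, j, ?_⟩
  have := H.ne
  push_cast
  field_simp
  linear_combination (j : k.K) * H.mu

lemma out (H : NF L c f a h lam μ) {F : ℕ+} (hf : f ∣ F) (s : k.SF F) {x : k.K}
    (hx : x ∈ act s L) : ∃ X Z : ℤ, star (lift s) * (a / lam * x) = X + f * Z * k.om := by
  obtain ⟨i, y, hy, rfl⟩ := (act_nf s f lam H.iff hf x).1 hx
  obtain ⟨i', j, e⟩ := H.outA hy
  obtain ⟨p, q, e'⟩ := mem_O.1 (mul_mem_O (star_el_mem (sg s))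
    (k.O.add_mem (int_mul_mem i' (int_mem_O (a : ℤ)))
      (int_mul_mem j (k.O.add_mem (int_mem_O h) om_mem_O))))
  refine ⟨i * a * nm k (sg s) + f * p, q, ?_⟩
  have h1 : a / lam * lam = a := div_mul_cancel₀ _ H.ne
  rw [lift_el]
  push_cast
  linear_combination (f * star (el k (sg s))) * e + (f : k.K) * e' +
    (i * el k (sg s) * star (el k (sg s))) * h1 + (i * a : k.K) * mul_star_el (k := k) (sg s)

lemma in1 (H : NF L c f a h lam μ) {F : ℕ+} (hf : f ∣ F) (s : k.SF F) : lift s * lam ∈ act s L :=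
  (act_nf s f lam H.iff hf _).2 ⟨1, 0, Submodule.zero_mem _, by simp⟩

lemma in2 (H : NF L c f a h lam μ) {F : ℕ+} (hf : f ∣ F) (s : k.SF F) {y : k.K}
    (hy : y ∈ k.O * L) : (f : k.K) * y ∈ act s L :=
  (act_nf s f lam H.iff hf _).2 ⟨0, y, hy, by simp⟩

end NF

/-- The group of multipliers. -/
def W (k : Fld) (a₁ a₂ h : ℤ) (θ : k.K) : Submodule ℤ (ℤ × ℤ) where
  carrier := {U | ∃ i j i' j' : ℤ, el k U = i * a₂ + j * (h + k.om) ∧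
    el k U * θ = a₁ * (i' * a₂ + j' * (h + k.om))}
  add_mem' := by
    rintro U V ⟨i, j, i', j', e, e'⟩ ⟨p, q, p', q', g, g'⟩
    have h0 : el k (U + V) = el k U + el k V := by ext <;> simp [el]
    refine ⟨i + p, j + q, i' + p', j' + q', ?_, ?_⟩
    · rw [h0]; push_cast; linear_combination e + g
    · rw [h0]; push_cast; linear_combination e' + g'
  zero_mem' := by
    have h0 : el k 0 = 0 := by ext <;> simp [el]
    exact ⟨0, 0, 0, 0, by simp [h0], by simp [h0]⟩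
  smul_mem' := by
    rintro c U ⟨i, j, i', j', e, e'⟩
    have h0 : el k (c • U) = c * el k U := by ext <;> simp [el]
    refine ⟨c * i, c * j, c * i', c * j', ?_, ?_⟩
    · rw [h0]; push_cast; linear_combination (c : k.K) * e
    · rw [h0]; push_cast; linear_combination (c : k.K) * e'

lemma W_dvd {a₁ a₂ h : ℤ} {θ : k.K} (hθ : θ.im = 1 ∨ θ.im = -1) {U : ℤ × ℤ} (hU : U ∈ W k a₁ a₂ h θ) :
    a₁ * a₂ ∣ 1 * nm k U := by
  obtain ⟨i, j, i', j', e, e'⟩ := hU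
  have h1 : k.det2 (el k U) (el k U * θ) = nm k U * θ.im := by
    simp [det2, el, nm]; ring
  have h2 : k.det2 (el k U) (el k U * θ) = a₁ * a₂ * (i * j' - j * i') := by
    rw [e', e]
    simp [det2, om]; ring
  rcases hθ with h3 | h3
  · refine ⟨i * j' - j * i', ?_⟩
    have : ((1 * nm k U : ℤ) : ℚ) = (a₁ * a₂ * (i * j' - j * i') : ℤ) := by
      push_cast; linear_combination h2 - h1 - (nm k U : ℚ) * h3
    exact_mod_cast this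
  · refine ⟨-(i * j' - j * i'), ?_⟩
    have : ((1 * nm k U : ℤ) : ℚ) = (a₁ * a₂ * -(i * j' - j * i') : ℤ) := by
      push_cast; linear_combination h1 - h2 + (nm k U : ℚ) * h3
    exact_mod_cast this

lemma W_smul (a₁ a₂ h : ℤ) {θ : k.K} (hθ : θ ∈ k.O) (x : ℤ × ℤ) :
    (a₁ * a₂) • x ∈ W k a₁ a₂ h θ := by
  have h0 : el k ((a₁ * a₂) • x) = a₁ * a₂ * el k x := by ext <;> simp [el]
  obtain ⟨p, q, e⟩ := mem_O.1 (mul_mem_O (el_mem x) hθ)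
  refine ⟨a₁ * (x.1 - h * x.2), a₁ * a₂ * x.2, p - h * q, a₂ * q, ?_, ?_⟩
  · rw [h0, el_eq]; push_cast; ring
  · rw [h0]; push_cast; linear_combination (a₁ * a₂ : k.K) * e

lemma mem_W {L : Submodule ℤ k.K} {c : ℚ} {f a : ℕ} {h : ℤ} {lam μ : k.K}
    (H : NF L c f a h lam μ) (a₁ : ℤ) {θ u y y' : k.K} (hy : y ∈ k.O * L) (hy' : y' ∈ k.O * L)
    (e : u = a / lam * y) (e' : u * θ = a₁ * (a / lam * y')) :
    ∃ U ∈ W k a₁ a h θ, el k U = u := by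
  obtain ⟨i, j, g⟩ := H.outA hy
  obtain ⟨i', j', g'⟩ := H.outA hy'
  have h0 : el k (i * a + j * h, j) = u := by
    rw [el_eq, e, g]; push_cast; ring
  exact ⟨_, ⟨i, j, i', j', by rw [h0, e, g], by rw [h0, e', g']⟩, h0⟩

section
variable {L₁ L₂ : Submodule ℤ k.K} {c₁ c₂ : ℚ} {f₁ f₂ a₁ a₂ : ℕ} {h₁ h₂ : ℤ}
  {lam₁ lam₂ μ₁ μ₂ : k.K}

lemma norm_sc (H₁ : NF L₁ c₁ f₁ a₁ h₁ lam₁ μ₁) (H₂ : NF L₂ c₂ f₂ a₂ h₂ lam₂ μ₂) {γ lam : k.K}
    (hl : norm lam = norm lam₁) {U : ℤ × ℤ}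
    (e : el k U = f₁ * (k.om - star k.om) * (a₂ / lam₂ * γ * lam)) :
    (nm k U : ℚ) * c₂ = a₁ * a₂ * f₁ * f₂ * -(k.D : ℚ) * (norm γ * c₁) := by
  have h1 : el k U * lam₂ = f₁ * (k.om - star k.om) * (a₂ * γ * lam) := by
    have := H₂.ne
    rw [e]; field_simp
  have h2 := congrArg QuadraticAlgebra.norm h1
  simp only [map_mul, norm_el, QuadraticAlgebra.norm_natCast, norm_del, hl] at h2
  have ha : (a₂ : ℚ) ≠ 0 := by exact_mod_cast H₂.pos.ne'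
  apply mul_left_cancel₀ ha
  linear_combination (nm k U : ℚ) * H₂.cov + (f₂ : ℚ) * h2 +
    (a₂ ^ 2 * f₁ * f₂ * k.D * norm γ : ℚ) * H₁.cov

lemma isog (H₁ : NF L₁ c₁ f₁ a₁ h₁ lam₁ μ₁) (H₂ : NF L₂ c₂ f₂ a₂ h₂ lam₂ μ₂) (hf₁ : 0 < f₁)
    (hf₂ : 0 < f₂) {p : ℤ × ℤ} (hp : p ≠ 0)
    (hU : ((p.1, (Nat.gcd f₁ f₂ : ℕ) * p.2) : ℤ × ℤ) ∈ W k a₁ a₂ h₂ (h₁ + k.om)) :
    ∃ α : k.K, α ≠ 0 ∧ α • L₁ ≤ L₂ ∧ norm α * c₁ * (a₁ * a₂ * (Nat.gcd f₁ f₂ : ℚ) ^ 2) =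
      nm k (p.1, (Nat.gcd f₁ f₂ : ℕ) * p.2) * f₁ * f₂ * c₂ := by
  obtain ⟨g₁, e₁⟩ := Nat.gcd_dvd_left f₁ f₂
  obtain ⟨g₂, e₂⟩ := Nat.gcd_dvd_right f₁ f₂
  have hg := Nat.gcd_pos_of_pos_left f₂ hf₁
  generalize Nat.gcd f₁ f₂ = g at *
  obtain ⟨i, j, i', j', e, e'⟩ := hU
  have hj : j = g * p.2 := by
    have := congrArg QuadraticAlgebra.im e
    simp [el, om] at this
    exact_mod_cast this.symm
  have hU0 : el k (p.1, g * p.2) ≠ 0 := fun h0 => by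
    have h1 := el_inj (w := 0) (h0.trans (by ext <;> simp [el]))
    simp only [Prod.ext_iff, Prod.fst_zero, Prod.snd_zero, mul_eq_zero, Nat.cast_eq_zero] at h1
    exact hp (Prod.ext h1.1 (h1.2.resolve_left hg.ne'))
  have hn := norm_el (k := k) (p.1, g * p.2)
  generalize nm k (p.1, g * p.2) = ν at *
  generalize el k (p.1, g * p.2) = U at *
  have n1 := H₁.ne
  have n2 := H₂.ne
  have n3 : (a₁ : k.K) ≠ 0 := by exact_mod_cast H₁.pos.ne'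
  have n4 : (a₂ : k.K) ≠ 0 := by exact_mod_cast H₂.pos.ne'
  have n5 : (g₂ : k.K) ≠ 0 := by
    have : g₂ ≠ 0 := by rintro rfl; omega
    exact_mod_cast this
  have k1 : (f₁ : k.K) = g * g₁ := by exact_mod_cast congrArg (Nat.cast : ℕ → k.K) e₁
  have k2 : (f₂ : k.K) = g * g₂ := by exact_mod_cast congrArg (Nat.cast : ℕ → k.K) e₂
  obtain ⟨α, hα⟩ : ∃ α : k.K, α * (a₂ * lam₁) = g₂ * U * lam₂ :=
    ⟨g₂ * U * lam₂ / (a₂ * lam₁), by field_simp⟩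
  have m1 : α * lam₁ ∈ L₂ := by
    rw [H₂.sp]
    refine mem_pair.2 ⟨g₂ * i, p.2, mul_left_cancel₀ n4 ?_⟩
    rw [hj] at e
    push_cast at e ⊢
    linear_combination hα + (g₂ * lam₂) * e - (p.2 * f₂ : k.K) * H₂.mu -
      (p.2 * (h₂ + k.om) * lam₂) * k2
  have m2 : α * (f₁ * μ₁) ∈ L₂ := by
    rw [H₂.sp]
    refine mem_pair.2 ⟨f₂ * g₁ * i', g₁ * j', mul_left_cancel₀ (mul_ne_zero n3 n4) ?_⟩
    push_cast at e' ⊢
    linear_combination (α * f₁ * a₂) * H₁.mu + (f₁ * (h₁ + k.om)) * hα + (f₁ * g₂ * lam₂) * e' -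
      (a₁ * g₁ * j' * f₂ : k.K) * H₂.mu +
      (a₁ * lam₂ * (i' * a₂ + j' * (h₂ + k.om))) * ((g₂ : k.K) * k1 - (g₁ : k.K) * k2)
  refine ⟨α, fun h0 => ?_, ?_, ?_⟩
  · rw [h0, zero_mul] at hα
    exact mul_ne_zero (mul_ne_zero n5 hU0) n2 hα.symm
  · intro x hx
    obtain ⟨y, hy, rfl⟩ := (Submodule.mem_smul_pointwise_iff_exists _ _ _).1 hx
    rw [H₁.sp] at hy
    obtain ⟨u, v, rfl⟩ := mem_pair.1 hy
    have h3 := L₂.add_mem (int_mul_mem u m1) (int_mul_mem v m2)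
    rwa [show α • ((u : k.K) * lam₁ + v * (f₁ * μ₁)) = u * (α * lam₁) + v * (α * (f₁ * μ₁)) by
      rw [smul_eq_mul]; ring]
  · have h2 := congrArg QuadraticAlgebra.norm hα
    simp only [map_mul, QuadraticAlgebra.norm_natCast, hn] at h2
    have ha : (a₂ : ℚ) ≠ 0 := by exact_mod_cast H₂.pos.ne'
    have k3 : (f₂ : ℚ) = g * g₂ := by exact_mod_cast e₂
    apply mul_left_cancel₀ ha
    linear_combination (norm α * a₂ ^ 2 * g ^ 2) * H₁.cov + (f₁ * g ^ 2 : ℚ) * h2 -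
      (ν * f₁ * f₂ : ℚ) * H₂.cov - (ν * f₁ * norm lam₂ * (f₂ + g * g₂)) * k3

end

lemma det2_int {x y : k.K} (hx : x ∈ k.O) (hy : y ∈ k.O) : ∃ j : ℤ, k.det2 x y = j := by
  obtain ⟨a, b, rfl⟩ := mem_O.1 hx
  obtain ⟨c, d, rfl⟩ := mem_O.1 hy
  exact ⟨a * d - b * c, by simp [det2, om]⟩

lemma padic_dvd {l : ℕ} [Fact l.Prime] {r : ℚ_[l]} (hr : k.Root r) {L₁ L₂ : Submodule ℤ k.K}
    {c₁ c₂ : ℚ} (h₁ : k.Lat L₁ c₁) (h₂ : k.Lat L₂ c₂) (n₁ : k.Nrm l L₁) (n₂ : k.Nrm l L₂)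
    {β : k.K} {m : ℕ} (b₁ : ‖k.io r β‖ ≤ ((l : ℝ) ^ m)⁻¹)
    (b₂ : ‖k.io ((k.t : ℚ_[l]) - r) β‖ ≤ ((l : ℝ) ^ m)⁻¹) {N w : ℤ}
    (e : (N : ℚ) * c₂ = w * (norm β * c₁)) : (l : ℤ) ^ (2 * m) ∣ N := by
  obtain ⟨u₁, hu₁, -, g₁⟩ := n₁
  obtain ⟨u₂, hu₂, g₂, -⟩ := n₂
  obtain ⟨x, y, rfl, d₁, -⟩ := h₁
  obtain ⟨x', y', rfl, d₂, -⟩ := h₂
  obtain ⟨j₁, e₁⟩ := det2_int (g₁ x (left_mem _ _)) (g₁ y (right_mem _ _))
  rw [det2_mul, QuadraticAlgebra.norm_natCast, d₁] at e₁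
  obtain ⟨a, b, ea⟩ := mem_pair.1 (g₂ 1 one_mem_O)
  obtain ⟨c, d, ec⟩ := mem_pair.1 (g₂ _ om_mem_O)
  have e₂ := det2_comb x' y' a b c d
  rw [← ea, ← ec, det2_mul, QuadraticAlgebra.norm_natCast, d₂, show k.det2 1 k.om = 1 by simp [det2, om]] at e₂
  have e₃ : (N : ℚ) * (u₁ ^ 2 * u₂ ^ 2) = (w * j₁ * (a * d - b * c) : ℤ) * norm β := by
    push_cast at e₂ ⊢
    linear_combination (N * u₁ ^ 2 : ℚ) * e₂ + (u₁ ^ 2 * (a * d - b * c) : ℚ) * e +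
      (w * (a * d - b * c) * norm β) * e₁
  have e₄ : ((norm β : ℚ) : ℚ_[l]) = k.io r β * k.io ((k.t : ℚ_[l]) - r) β := by
    unfold Root at hr
    simp only [io, norm_def]
    push_cast
    linear_combination (β.im : ℚ_[l]) ^ 2 * hr
  have e₅ : (N : ℚ_[l]) * ((u₁ : ℚ_[l]) ^ 2 * (u₂ : ℚ_[l]) ^ 2) =
      ((w * j₁ * (a * d - b * c) : ℤ) : ℚ_[l]) * (k.io r β * k.io ((k.t : ℚ_[l]) - r) β) := by
    rw [← e₄]
    exact_mod_cast congrArg (Rat.cast : ℚ → ℚ_[l]) e₃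
  have hl : l.Prime := Fact.out
  have v₁ : ‖(u₁ : ℚ_[l])‖ = 1 := Padic.norm_natCast_eq_one_iff.2 (hl.coprime_iff_not_dvd.2 hu₁)
  have v₂ : ‖(u₂ : ℚ_[l])‖ = 1 := Padic.norm_natCast_eq_one_iff.2 (hl.coprime_iff_not_dvd.2 hu₂)
  have e₆ := congrArg (fun z : ℚ_[l] => ‖z‖) e₅
  simp only [norm_mul, norm_pow, v₁, v₂, one_pow, mul_one] at e₆
  have h := (Padic.norm_int_le_pow_iff_dvd (p := l) N (2 * m)).1 (by
    rw [e₆, zpow_neg, zpow_natCast, two_mul, pow_add, mul_inv]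
    refine (mul_le_mul (Padic.norm_int_le_one _) (mul_le_mul b₁ b₂ (_root_.norm_nonneg _)
      (by positivity)) (by positivity) zero_le_one).trans (one_mul _).le)
  exact h

lemma event {L₁ L₂ : Submodule ℤ k.K} {c₁ c₂ : ℚ} {f₁ f₂ a₁ a₂ : ℕ} {h₁ h₂ : ℤ}
    {lam₁ lam₂ μ₁ μ₂ : k.K} (H₁ : NF L₁ c₁ f₁ a₁ h₁ lam₁ μ₁) (H₂ : NF L₂ c₂ f₂ a₂ h₂ lam₂ μ₂)
    {F : ℕ+} (d₁ : f₁ ∣ F) (d₂ : f₂ ∣ F) (hf₁ : 0 < f₁) (hf₂ : 0 < f₂) (s : k.SF F) {α β : k.K}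
    (hB : ∀ x ∈ act s L₁, α * x + β * star x ∈ act s L₂) {e : ℤ}
    (he : (norm α - norm β) * c₁ = e * c₂) (hc₂ : c₂ ≠ 0) :
    ∃ (p : ℤ × ℤ) (c : Cf k ⟨f₁, f₂, 1, e * (a₁ * a₂)⟩ p), c.σ = sg s ∧
      c.V ∈ W k a₁ a₂ h₂ (star (h₁ + k.om)) ∧
      Par.U ⟨f₁, f₂, 1, e * (a₁ * a₂)⟩ p ∈ W k a₁ a₂ h₂ (h₁ + k.om) ∧
      (nm k (Par.U ⟨f₁, f₂, 1, e * (a₁ * a₂)⟩ p) : ℚ) * c₂ =
        a₁ * a₂ * f₁ * f₂ * -(k.D : ℚ) * (norm α * c₁) ∧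
      (nm k c.V : ℚ) * c₂ = a₁ * a₂ * f₁ * f₂ * -(k.D : ℚ) * (norm β * c₁) := by
  have hA : ∀ y ∈ k.O * L₁, α * (f₁ * y) + β * star ((f₁ : k.K) * y) ∈ k.O * L₂ := fun y hy =>
    ac_le (lift_mem s) F L₂ (hB _ (H₁.in2 d₁ s hy))
  have y₁ := hA _ H₁.lam_mem
  have y₂ := hA _ (O_mul_mem om_mem_O H₁.lam_mem)
  have y₃ := hA _ H₁.mu_mem
  have y₄ := hA _ (O_mul_mem om_mem_O H₁.mu_mem)
  have hμ := congrArg star H₁.mu
  simp only [star_mul', star_natCast] at y₁ y₂ y₃ y₄ hμ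
  obtain ⟨U, hU, eU⟩ := mem_W H₂ a₁ (θ := h₁ + k.om)
    (u := f₁ * (k.om - star k.om) * (a₂ / lam₂ * α * lam₁))
    (Submodule.sub_mem _ y₂ (O_mul_mem star_om_mem y₁))
    (Submodule.sub_mem _ y₄ (O_mul_mem star_om_mem y₃)) (by ring) (by
      push_cast
      linear_combination -(f₁ * (k.om - star k.om) * (a₂ / lam₂ * α)) * H₁.mu)
  obtain ⟨V, hV, eV⟩ := mem_W H₂ a₁ (θ := star (h₁ + k.om))
    (u := f₁ * (k.om - star k.om) * (a₂ / lam₂ * β * star lam₁))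
    (Submodule.sub_mem _ (O_mul_mem om_mem_O y₁) y₂)
    (Submodule.sub_mem _ (O_mul_mem om_mem_O y₃) y₄) (by ring) (by
      push_cast
      linear_combination -(f₁ * (k.om - star k.om) * (a₂ / lam₂ * β)) * hμ)
  have nU := norm_sc H₁ H₂ rfl eU
  have nV := norm_sc H₁ H₂ (QuadraticAlgebra.norm_star _) eV
  obtain ⟨x, z, eP⟩ := H₂.out d₂ s (hB _ (H₁.in1 d₁ s))
  obtain ⟨y, w, eQ⟩ := H₂.out d₂ s
    (hB _ (H₁.in2 d₁ s (O_mul_mem (mul_mem_O (lift_mem s) om_mem_O) H₁.lam_mem)))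
  simp only [star_mul', star_natCast, lift_el] at eP eQ
  have hν := mul_star_el (k := k) (sg s)
  have E₁ := el_inj (k := k) (v := (nm k (sg s) * U.1, nm k (sg s) * U.2))
    (w := (y - f₁ * k.t * x - f₁ * f₂ * k.n * z, f₁ * x + f₂ * w)) (by
      have b := el_eq (k := k) U
      rw [el_eq, el_eq]
      push_cast
      linear_combination -(nm k (sg s) : k.K) * b + (nm k (sg s) : k.K) * eU -
        (f₁ * (k.om - star k.om) * (a₂ / lam₂ * α * lam₁)) * hν + eQ - (f₁ * star k.om) * eP -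
        (f₁ * (x + f₂ * z * k.om)) * star_om (k := k) + (f₁ * f₂ * z : k.K) * om_sq (k := k))
  have E₃ := el_inj (k := k) (v := mc k (mc k V (sg s)) (sg s))
    (w := (-y - f₁ * f₂ * k.n * z, f₁ * x - f₂ * w + f₁ * f₂ * k.t * z)) (by
      rw [el_eq (-y - f₁ * f₂ * k.n * z, _), el_mc, el_mc, eV]
      push_cast
      linear_combination (f₁ * k.om) * eP - eQ + (f₁ * f₂ * z : k.K) * om_sq (k := k))
  obtain ⟨E₁, E₂⟩ := Prod.ext_iff.1 E₁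
  simp only at E₁ E₂
  have cF : IsCoprime (nm k (sg s)) ((F : ℕ) : ℤ) := Tight.norm_coprime s
  have c₁' := cF.of_isCoprime_of_dvd_right (Int.natCast_dvd_natCast.2 d₁)
  have c₂' := cF.of_isCoprime_of_dvd_right (Int.natCast_dvd_natCast.2 d₂)
  have g₁ := Int.natCast_dvd_natCast.2 (Nat.gcd_dvd_left f₁ f₂)
  have g₂ := Int.natCast_dvd_natCast.2 (Nat.gcd_dvd_right f₁ f₂)
  obtain ⟨p₂, hp₂⟩ : ((Nat.gcd f₁ f₂ : ℕ) : ℤ) ∣ U.2 :=
    (c₁'.of_isCoprime_of_dvd_right g₁).symm.dvd_of_dvd_mul_left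
      (E₂ ▸ dvd_add (g₁.mul_right x) (g₂.mul_right w))
  have hp : Par.U ⟨f₁, f₂, 1, e * (a₁ * a₂)⟩ (U.1, p₂) = U := Prod.ext rfl hp₂.symm
  have E₅ : nm k V = nm k U + k.D * f₁ * f₂ * (e * (a₁ * a₂)) := by
    have : (nm k V : ℚ) = (nm k U + k.D * f₁ * f₂ * (e * (a₁ * a₂)) : ℤ) := by
      apply mul_right_cancel₀ hc₂
      push_cast
      linear_combination nV - nU + (a₁ * a₂ * f₁ * f₂ * k.D : ℚ) * he
    exact_mod_cast this
  have E₄ : 1 * (x * w - y * z) = nm k (sg s) ^ 2 * (e * (a₁ * a₂)) := by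
    have b₁ := congrArg (nm k) E₃
    rw [nm_mc, nm_mc, E₅] at b₁
    have b₂ : nm k (sg s) ^ 2 * nm k U =
        nm k (y - f₁ * k.t * x - f₁ * f₂ * k.n * z, f₁ * x + f₂ * w) := by
      rw [← E₁, ← E₂]
      generalize nm k (sg s) = ν
      simp only [nm]; ring
    have b₃ : k.D * f₁ * f₂ ≠ 0 :=
      mul_ne_zero (mul_ne_zero (D_neg k).ne (by exact_mod_cast hf₁.ne')) (by exact_mod_cast hf₂.ne')
    apply mul_left_cancel₀ b₃
    generalize nm k (sg s) = ν at *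
    generalize nm k U = n₁ at *
    simp only [nm, Fld.D] at b₁ b₂ ⊢
    linear_combination b₂ - b₁
  refine ⟨(U.1, p₂), ⟨sg s, V, x, y, z, w, c₁'.mul_right c₂', E₁, ?_, E₃, E₄, ?_⟩, rfl, hV,
    by rwa [hp], by rwa [hp], nV⟩
  · rw [← E₂, hp₂]; rfl
  · rw [Par.nh, hp, one_mul, one_mul]; exact E₅

end Red

open Red in
theorem red : RedStmt := by
  intro k l _ r hr R Nb m F L₁ L₂ c₁ c₂ f₁ hlF hL₁ hL₂ A₁ A₂ n₁ n₂ C₁ hiso
  obtain ⟨f₂, -, C₂, -⟩ := conductor L₂ c₂ hL₂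
  obtain ⟨hf₁, N₁⟩ := exists_nf hL₁ C₁
  obtain ⟨hf₂, N₂⟩ := exists_nf hL₂ C₂
  have d₁ := (C₁ F).1 A₁
  have d₂ := (C₂ F).1 A₂
  have hc₁ : 0 < c₁ := by obtain ⟨-, -, -, -, h⟩ := hL₁; exact h
  have hc₂ : 0 < c₂ := by obtain ⟨-, -, -, -, h⟩ := hL₂; exact h
  have hc₂' : (0 : ℝ) < c₂ := by exact_mod_cast hc₂
  refine ⟨f₂, hf₁, hf₂, d₁, d₂, fun T _ => ?_⟩
  obtain ⟨a₁, h₁, lam₁, μ₁, H₁, p₁⟩ := N₁ T.factorial T.factorial_pos
  obtain ⟨a₂, h₂, lam₂, μ₂, H₂, p₂⟩ := N₂ T.factorial T.factorial_pos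
  have hu : (0 : ℤ) < a₁ * a₂ := by exact_mod_cast Nat.mul_pos H₁.pos H₂.pos
  have hu' : (0 : ℝ) < a₁ * a₂ := by exact_mod_cast hu
  refine ⟨1, a₁ * a₂, a₁ * a₂, W k a₁ a₂ h₂ (h₁ + k.om), W k a₁ a₂ h₂ (star (h₁ + k.om)), one_pos,
    hu, hu.ne', fun q hq hT => ?_, fun x hx => W_dvd (by simp [om]) hx,
    fun x hx => W_dvd (by simp [om]) hx,
    W_smul _ _ _ (k.O.add_mem (int_mem_O _) om_mem_O), fun p hp hU => ?_, fun s hs => ?_⟩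
  · have hq' : Prime (q : ℤ) := Nat.prime_iff_prime_int.1 hq
    have h3 : ¬ (q : ℤ) ∣ a₁ * a₂ := fun h => hq'.not_isUnit ((p₁.mul_left p₂).isUnit_of_dvd' h
      (Int.natCast_dvd_natCast.2 (Nat.dvd_factorial hq.pos hT)))
    exact ⟨hq'.not_dvd_one, h3, h3⟩
  · obtain ⟨α, h0, hle, e⟩ := isog H₁ H₂ hf₁ hf₂ hp hU
    have h3 := hiso α h0 hle
    have e' : k.N α * c₁ * (a₁ * a₂ * (Nat.gcd f₁ f₂ : ℝ) ^ 2) =
        nm k (p.1, (Nat.gcd f₁ f₂ : ℕ) * p.2) * f₁ * f₂ * c₂ := by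
      unfold N; exact_mod_cast e
    have hg : (0 : ℝ) < Nat.gcd f₁ f₂ := by exact_mod_cast Nat.gcd_pos_of_pos_left f₂ hf₁
    have h4 := mul_lt_mul_of_pos_right h3 (mul_pos hu' (pow_pos hg 2))
    rw [e'] at h4
    refine lt_of_mul_lt_mul_right ?_ hc₂'.le
    rw [one_mul]
    push_cast at h4 ⊢
    exact lt_of_eq_of_lt (by ring) h4
  · obtain ⟨α, β, hB, hd, hα, hβ, hβ0, b₁, b₂⟩ := hs
    have hd' : |norm α - norm β| * c₁ = c₂ := by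
      unfold N at hd
      rw [Nat.cast_one, one_mul] at hd
      exact_mod_cast hd
    obtain ⟨e, he, he'⟩ : ∃ e : ℤ, (e = 1 ∨ e = -1) ∧ (norm α - norm β) * c₁ = e * c₂ := by
      rcases abs_cases (norm α - norm β) with h | h
      · exact ⟨1, Or.inl rfl, by rw [← hd', h.1]; push_cast; ring⟩
      · exact ⟨-1, Or.inr rfl, by rw [← hd', h.1]; push_cast; ring⟩
    obtain ⟨p, c, e₁, e₂, e₃, e₄, e₅⟩ := event H₁ H₂ d₁ d₂ hf₁ hf₂ s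
      (fun x hx => hB (Submodule.mem_map_of_mem hx)) he' hc₂.ne'
    have e₆ : Par.nh k ⟨f₁, f₂, 1, e * (a₁ * a₂)⟩ p = nm k c.V := by rw [← c.e₅, one_mul]
    have hD : (k.D : ℝ) < 0 := by exact_mod_cast D_neg k
    have habs : |((e * (a₁ * a₂) : ℤ) : ℝ)| = a₁ * a₂ := by
      push_cast
      rcases he with rfl | rfl <;> simp [abs_of_pos hu']
    have hb : ∀ (n : ℤ) (γ : k.K), k.N γ * c₁ ≤ R * c₂ →
        (n : ℚ) * c₂ = a₁ * a₂ * f₁ * f₂ * -(k.D : ℚ) * (norm γ * c₁) →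
        (n : ℝ) ≤ |(k.D : ℝ)| * R * f₁ * f₂ * (a₁ * a₂) := fun n γ h h' => by
      have h'' : (n : ℝ) * c₂ = a₁ * a₂ * f₁ * f₂ * -(k.D : ℝ) * (k.N γ * c₁) := by
        unfold N; exact_mod_cast h'
      refine le_of_mul_le_mul_right ?_ hc₂'
      rw [h'', abs_of_neg hD]
      exact (mul_le_mul_of_nonneg_left h (mul_nonneg (by positivity) (by linarith))).trans_eq
        (by ring)
    refine ⟨e, he, p, c, e₁, e₂, ⟨e₃, ?_, ?_, ?_⟩, ?_⟩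
    · rw [habs, one_mul]; exact hb _ _ hα e₄
    · rw [e₆]
      have hDq : (0 : ℚ) < -(k.D : ℚ) := by
        have : (k.D : ℚ) < 0 := by exact_mod_cast D_neg k
        linarith
      have h3 := Basic.norm_pos hβ0
      have h4 := H₁.pos
      have h5 := H₂.pos
      have h6 : (0 : ℚ) < nm k c.V * c₂ := by rw [e₅]; positivity
      exact_mod_cast (mul_pos_iff_of_pos_right hc₂).1 h6
    · rw [habs, e₆]; exact hb _ _ hβ e₅
    · rw [e₆]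
      exact padic_dvd hr hL₁ hL₂ n₁ n₂ b₁ b₂ (w := a₁ * a₂ * f₁ * f₂ * -k.D) (by
        push_cast; exact e₅)

end Pool.Agent.Lib.MP_9177b7_ag.J.Large
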