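import Pool.Agent.Lib.MP_9177b7_ag.J.LargeD
import Pool.Agent.Lib.MP_9177b7_ag.J.Psi
import Pool.Agent.Lib.MP_30b5ba_nt.Upper

/-!
Levels and sizes of the local weights.
-/

noncomputable section

namespace Pool.Agent.Lib.MP_9177b7_ag.J.Large

namespace Wt

variable {k : Fld} {P : Par} {q : ℕ} {p : ℤ × ℤ}

lemma dvd_iff (hq : q.Prime) {N : ℤ} (hN : N ≠ 0) (j : ℕ) :
    (q : ℤ) ^ j ∣ N ↔ j ≤ padicValInt q N := by
  have := Fact.mk hq
  rw [padicValInt_dvd_iff]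
  simp [hN]

lemma ci_le : P.ci q p ≤ P.r₁ q := by
  unfold Par.ci
  split_ifs
  · exact Nat.findGreatest_le _
  · exact Nat.zero_le _

lemma ci_ne (h : P.r₁ q ≠ P.r₂ q) : P.ci q p = 0 := by
  unfold Par.ci
  rw [if_neg h]

lemma ci_dvd : (q : ℤ) ^ P.ci q p ∣ p.1 := by
  unfold Par.ci
  split_ifs
  · classical
    exact Nat.findGreatest_spec (P := fun j => (q : ℤ) ^ j ∣ p.1) (Nat.zero_le _) (by simp)
  · simp

lemma ci_max (h : P.r₁ q = P.r₂ q) {j : ℕ} (hj : j ≤ P.r₁ q) (hd : (q : ℤ) ^ j ∣ p.1) :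
    j ≤ P.ci q p := by
  unfold Par.ci
  rw [if_pos h]
  classical
  exact Nat.le_findGreatest (P := fun j => (q : ℤ) ^ j ∣ p.1) hj hd

lemma cj_le : P.cj k q p ≤ P.r₁ q := by
  unfold Par.cj
  split_ifs
  · classical
    exact Nat.findGreatest_le _
  · exact Nat.zero_le _

lemma cj_spec (h : P.cj k q p ≠ 0) : P.r₁ q = P.r₂ q ∧ P.J2 k q p (P.cj k q p) := by
  unfold Par.cj at h ⊢
  split_ifs at h ⊢ with c
  · classical
    exact ⟨c, Nat.findGreatest_of_ne_zero rfl h⟩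
  · exact absurd rfl h

lemma cj_pos (hq : q.Prime) (hn : P.nh k p ≠ 0) (h : P.cj k q p ≠ 0) :
    P.ci q p = P.r₁ q ∧ 2 * P.r₁ q + 2 * P.cj k q p ≤ P.v k q p := by
  obtain ⟨e, ⟨c, h1, -⟩, h2⟩ := cj_spec h
  refine ⟨le_antisymm ci_le (ci_max e le_rfl ?_), (dvd_iff hq hn _).1 h2⟩
  exact (dvd_add_left (dvd_mul_left _ _)).1 ((pow_dvd_pow _ (Nat.le_add_right _ _)).trans h1)

lemma cj_le_ci (hq : q.Prime) (hn : P.nh k p ≠ 0) : P.cj k q p ≤ P.ci q p := by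
  by_cases h : P.cj k q p = 0
  · omega
  · rw [(cj_pos hq hn h).1]
    exact cj_le

lemma pow_dvd_g (h : P.r₁ q = P.r₂ q) : q ^ P.r₁ q ∣ P.g :=
  Nat.dvd_gcd pow_padicValNat_dvd (h ▸ pow_padicValNat_dvd)

lemma NS_zero (b : ℤ) : P.NS q 0 b ≤ 1 :=
  (Finset.card_filter_le _ _).trans (by simp)

lemma NS_le (hR : RootStmt) (hq : P.Ok q) (h : P.r₁ q = P.r₂ q) (i : ℕ) (b : ℤ) :
    P.NS q i b ≤ 2 * q ^ (i / 2) := by
  obtain ⟨g, hg⟩ := pow_dvd_g h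
  obtain ⟨f₁, h₁⟩ : q ^ P.r₁ q ∣ P.f₁ := pow_padicValNat_dvd
  obtain ⟨f₂, h₂⟩ : q ^ P.r₁ q ∣ P.f₂ := h ▸ pow_padicValNat_dvd
  have h0 : (q : ℤ) ^ (2 * P.r₁ q) ≠ 0 := pow_ne_zero _ (by exact_mod_cast hq.1.ne_zero)
  refine le_trans (le_of_eq ?_)
    (hR q i (-P.a) (P.a * g * b) (-(P.u * f₁ * f₂)) hq.1 (by simpa using hq.2.1)).1
  unfold Par.NS
  refine congrArg Finset.card (Finset.filter_congr fun W _ => ?_)
  have e : P.a * (P.g * b - (q : ℤ) ^ P.r₁ q * W) * ((q : ℤ) ^ P.r₁ q * W) - P.u * P.f₁ * P.f₂ =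
      (-P.a * (W : ℤ) ^ 2 + P.a * g * b * W + -(P.u * f₁ * f₂)) * (q : ℤ) ^ (2 * P.r₁ q) := by
    have hg' : (P.g : ℤ) = (q : ℤ) ^ P.r₁ q * g := by exact_mod_cast hg
    have h₁' : (P.f₁ : ℤ) = (q : ℤ) ^ P.r₁ q * f₁ := by exact_mod_cast h₁
    have h₂' : (P.f₂ : ℤ) = (q : ℤ) ^ P.r₁ q * f₂ := by exact_mod_cast h₂
    rw [hg', h₁', h₂']
    ring
  rw [e, pow_add, mul_dvd_mul_iff_right h0]

lemma gb_bd (k : Fld) (hq : q.Prime) (j : ℕ) :
    0 ≤ gb k q j ∧ gb k q j ≤ 2 ^ j ∧ gb k q j ≤ ((j : ℝ) + 1) ^ 2 := by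
  have hc := abs_le.1 (Psi.chi_le k hq)
  have h1 : (-1 : ℝ) ≤ k.chi q := by exact_mod_cast hc.1
  have h2 : (k.chi q : ℝ) ≤ 1 := by exact_mod_cast hc.2
  unfold gb
  split_ifs with c0 c1
  · subst c0
    norm_num
  · subst c1
    refine ⟨by linarith, ?_, ?_⟩ <;> norm_num <;> linarith
  · obtain ⟨i, rfl⟩ : ∃ i, j = i + 2 := ⟨j - 2, by omega⟩
    have h3 : i + 1 ≤ 2 ^ i := Nat.lt_two_pow_self
    have h4 : (i : ℝ) + 1 ≤ 2 ^ i := by exact_mod_cast h3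
    have h5 : (0 : ℝ) ≤ i := Nat.cast_nonneg i
    refine ⟨by positivity, ?_, ?_⟩
    · rw [pow_add]
      push_cast
      linarith
    · push_cast
      nlinarith

lemma half_le (hq : 1 ≤ q) (i : ℕ) : (q : ℝ) ^ (i / 2) ≤ √((q : ℝ) ^ i) := by
  refine Real.le_sqrt_of_sq_le ?_
  rw [← pow_mul]
  exact pow_le_pow_right₀ (by exact_mod_cast hq) (by omega)

lemma fac_le {w x : ℕ} (hw : 1 ≤ w) (hx : x ≤ w) {y : ℝ} (hy : 1 ≤ y) :
    1 + 4 * (x : ℝ) * y ≤ ((w : ℝ) + 1) ^ 3 * y := by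
  have h1 : (1 : ℝ) ≤ w := by exact_mod_cast hw
  have h2 : (x : ℝ) ≤ w := by exact_mod_cast hx
  have h3 : 1 + 4 * (x : ℝ) ≤ ((w : ℝ) + 1) ^ 3 := by
    nlinarith [mul_nonneg (sub_nonneg.2 h1) (sq_nonneg (w : ℝ))]
  nlinarith [mul_le_mul_of_nonneg_right h3 (zero_le_one.trans hy)]

/-- All local facts at one prime. -/
lemma loc (hR : RootStmt) (hq : P.Ok q) (hn : P.nh k p ≠ 0) {w : ℕ}
    (hw : P.r₁ q = P.r₂ q → P.r₁ q + P.v k q p ≤ w) :
    (P.Lv k q (P.lev k q p) p ∧ ¬ P.Lv k q (P.lev k q p + 1) p ∧ 0 ≤ P.wt k q p ∧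
      P.wt k q p ≤ P.gw k q (P.lev k q p) p ∧
      (P.ci q p = 0 → P.gw k q (P.lev k q p) p ≤ 2 ^ P.lev k q p)) ∧ P.lev k q p ≤ w ∧
    P.wt k q p ≤ ((w : ℝ) + 1) ^ 4 * √((q : ℝ) ^ P.ci q p) * (q : ℝ) ^ P.cj k q p ∧
    P.gw k q (P.lev k q p) p ≤ ((w : ℝ) + 1) ^ 4 * ((q : ℝ) ^ P.ci q p) ^ 2 := by
  have hq1 : (1 : ℝ) ≤ q := by exact_mod_cast hq.1.one_le
  have hw0 : (0 : ℝ) ≤ w := Nat.cast_nonneg w
  have hw1 : (1 : ℝ) ≤ (w : ℝ) + 1 := by linarith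
  have hp : ∀ j : ℕ, (1 : ℝ) ≤ (q : ℝ) ^ j := fun j => one_le_pow₀ hq1
  have hs : (1 : ℝ) ≤ √((q : ℝ) ^ P.ci q p) := Real.one_le_sqrt.2 (hp _)
  have hd := dvd_iff hq.1 hn
  have hcj := cj_pos (k := k) (P := P) (p := p) hq.1 hn
  by_cases c1 : P.r₁ q ≠ P.r₂ q
  · have e1 : P.lev k q p = 0 := by rw [Par.lev, if_pos c1]
    have e2 : P.wt k q p = 1 := by rw [Par.wt, if_pos c1]
    have e3 : P.gw k q 0 p = 1 := by rw [Par.gw, if_pos c1]
    rw [e1, e2, e3]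
    refine ⟨⟨?_, ?_, zero_le_one, le_rfl, fun _ => by simp⟩, Nat.zero_le _, ?_, ?_⟩
    · rw [Par.Lv, if_pos c1]
    · rw [Par.Lv, if_pos c1]
      simp
    · exact one_le_mul_of_one_le_of_one_le
        (one_le_mul_of_one_le_of_one_le (one_le_pow₀ hw1) hs) (hp _)
    · exact one_le_mul_of_one_le_of_one_le (one_le_pow₀ hw1) (one_le_pow₀ (hp _))
  have hw' := hw (not_not.1 c1)
  by_cases c2 : P.r₁ q = 0
  · have e1 : P.lev k q p = P.v k q p := by rw [Par.lev, if_neg c1, if_pos c2]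
    have e2 : P.wt k q p = gb k q (P.v k q p) := by rw [Par.wt, if_neg c1, if_pos c2]
    have e3 : P.gw k q (P.v k q p) p = gb k q (P.v k q p) := by rw [Par.gw, if_neg c1, if_pos c2]
    obtain ⟨g1, g2, g3⟩ := gb_bd k hq.1 (P.v k q p)
    have g4 : gb k q (P.v k q p) ≤ ((w : ℝ) + 1) ^ 4 := by
      have : (P.v k q p : ℝ) ≤ w := by exact_mod_cast (by omega : P.v k q p ≤ w)
      exact g3.trans (le_trans (by gcongr) (pow_le_pow_right₀ hw1 (by norm_num : 2 ≤ 4)))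
    rw [e1, e2, e3]
    refine ⟨⟨?_, ?_, g1, le_rfl, fun _ => g2⟩, by omega, ?_, ?_⟩
    · rw [Par.Lv, if_neg c1, if_pos c2]
      exact (hd _).2 le_rfl
    · rw [Par.Lv, if_neg c1, if_pos c2, hd]
      exact Nat.not_succ_le_self _
    · exact g4.trans ((le_mul_of_one_le_right (by positivity) hs).trans
        (le_mul_of_one_le_right (by positivity) (hp _)))
    · exact g4.trans (le_mul_of_one_le_right (by positivity) (one_le_pow₀ (hp _)))
  have hw2 : 1 ≤ w := by omega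
  have hN : (P.NS q (P.ci q p) p.2 : ℝ) ≤ ((w : ℝ) + 1) * √((q : ℝ) ^ P.ci q p) := by
    have h1 : (P.NS q (P.ci q p) p.2 : ℝ) ≤ 2 * (q : ℝ) ^ (P.ci q p / 2) := by
      exact_mod_cast NS_le hR hq (not_not.1 c1) _ _
    have h2 : (2 : ℝ) ≤ (w : ℝ) + 1 := by exact_mod_cast Nat.succ_le_succ hw2
    exact h1.trans (mul_le_mul h2 (half_le hq.1.one_le _) (by positivity) (by positivity))
  have hs2 : √((q : ℝ) ^ P.ci q p) ≤ (q : ℝ) ^ P.ci q p :=
    Real.sqrt_le_iff.2 ⟨by positivity, by nlinarith [hp (P.ci q p)]⟩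
  have hN0 : (0 : ℝ) ≤ P.NS q (P.ci q p) p.2 := Nat.cast_nonneg _
  have hci : P.ci q p ≤ P.r₁ q := ci_le
  by_cases c3 : P.ci q p < P.r₁ q ∨ P.v k q p ≤ 2 * P.r₁ q + 1
  · have e0 : P.cj k q p = 0 := by
      by_contra h
      have := hcj h
      omega
    have e1 : P.lev k q p = P.ci q p := by
      rw [Par.lev, if_neg c1, if_neg c2]
      split_ifs <;> omega
    have e2 : P.wt k q p = P.NS q (P.ci q p) p.2 := by
      rw [Par.wt, if_neg c1, if_neg c2, if_pos e0, mul_one]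
    have e3 : P.gw k q (P.ci q p) p = P.NS q (P.ci q p) p.2 := by
      rw [Par.gw, if_neg c1, if_neg c2, if_pos hci, mul_one, min_eq_left hci]
    have g4 : (P.NS q (P.ci q p) p.2 : ℝ) ≤ ((w : ℝ) + 1) ^ 4 * √((q : ℝ) ^ P.ci q p) :=
      hN.trans (mul_le_mul_of_nonneg_right (le_self_pow₀ hw1 (by norm_num)) (by positivity))
    rw [e1, e2, e3]
    refine ⟨⟨?_, ?_, hN0, le_rfl, fun h => ?_⟩, by omega, ?_, ?_⟩
    · rw [Par.Lv, if_neg c1, if_neg c2, min_eq_left hci]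
      exact ⟨ci_dvd, fun h => absurd h (by omega)⟩
    · rw [Par.Lv, if_neg c1, if_neg c2, hd]
      rintro ⟨h1, h2⟩
      have := ci_max (not_not.1 c1) (min_le_right _ _) h1
      have h3 : P.v k q p = padicValInt q (P.nh k p) := rfl
      omega
    · rw [h, pow_zero]
      exact_mod_cast NS_zero _
    · exact g4.trans (le_mul_of_one_le_right (by positivity) (hp _))
    · refine g4.trans (mul_le_mul_of_nonneg_left (hs2.trans ?_) (by positivity))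
      exact le_self_pow₀ (hp _) (by norm_num)
  have e0 : P.ci q p = P.r₁ q := by omega
  have e1 : P.lev k q p = P.v k q p - P.r₁ q - 1 := by
    rw [Par.lev, if_neg c1, if_neg c2, if_neg (by omega), if_neg (by omega)]
  have e3 : P.gw k q (P.v k q p - P.r₁ q - 1) p = P.NS q (P.ci q p) p.2 *
      (1 + 4 * ((P.v k q p - 2 * P.r₁ q : ℕ) : ℝ) *
        (q : ℝ) ^ min ((P.v k q p - 2 * P.r₁ q) / 2) (P.r₁ q)) := by
    rw [Par.gw, if_neg c1, if_neg c2, if_neg (by omega), min_eq_right (by omega), e0,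
      (by omega : P.v k q p - P.r₁ q - 1 - P.r₁ q + 1 = P.v k q p - 2 * P.r₁ q)]
  have e2 : P.wt k q p ≤ P.NS q (P.ci q p) p.2 *
      (1 + 4 * ((P.v k q p - 2 * P.r₁ q : ℕ) : ℝ) * (q : ℝ) ^ P.cj k q p) ∧ 0 ≤ P.wt k q p := by
    rw [Par.wt, if_neg c1, if_neg c2]
    split_ifs
    · exact ⟨mul_le_mul_of_nonneg_left (le_add_of_nonneg_right (by positivity)) hN0, by positivity⟩
    · exact ⟨le_rfl, by positivity⟩
  have hj : P.cj k q p ≤ min ((P.v k q p - 2 * P.r₁ q) / 2) (P.r₁ q) := by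
    by_cases h : P.cj k q p = 0
    · omega
    · have := hcj h
      have := cj_le (k := k) (P := P) (q := q) (p := p)
      omega
  have hx : P.v k q p - 2 * P.r₁ q ≤ w := by omega
  rw [e1, e3]
  refine ⟨⟨?_, ?_, e2.2, e2.1.trans ?_, fun h => absurd h (by omega)⟩, by omega, e2.1.trans ?_, ?_⟩
  · rw [Par.Lv, if_neg c1, if_neg c2, min_eq_right (by omega), hd]
    have h3 : P.v k q p = padicValInt q (P.nh k p) := rfl
    exact ⟨e0 ▸ ci_dvd, fun _ => by omega⟩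
  · rw [Par.Lv, if_neg c1, if_neg c2, hd]
    have h3 : P.v k q p = padicValInt q (P.nh k p) := rfl
    rintro ⟨-, h2⟩
    omega
  · gcongr
  · calc _ ≤ ((w : ℝ) + 1) * √((q : ℝ) ^ P.ci q p) * (((w : ℝ) + 1) ^ 3 * (q : ℝ) ^ P.cj k q p) :=
          mul_le_mul hN (fac_le hw2 hx (hp _)) (by positivity) (by positivity)
      _ = _ := by ring
  · calc _ ≤ ((w : ℝ) + 1) * (q : ℝ) ^ P.ci q p * (((w : ℝ) + 1) ^ 3 * (q : ℝ) ^ P.ci q p) := by
          refine mul_le_mul (hN.trans (by gcongr)) ((fac_le hw2 hx (hp _)).trans ?_)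
            (by positivity) (by positivity)
          exact mul_le_mul_of_nonneg_left (pow_le_pow_right₀ hq1 (by omega)) (by positivity)
      _ = _ := by ring

lemma prod_dvd {Pr : Finset ℕ} (hP : ∀ q ∈ Pr, q.Prime) {e : ℕ → ℕ} {N : ℕ}
    (h : ∀ q ∈ Pr, q ^ e q ∣ N) : ∏ q ∈ Pr, q ^ e q ∣ N :=
  Finset.prod_dvd_of_isRelPrime (fun a ha b hb hab => Nat.coprime_iff_isRelPrime.1
    (Nat.coprime_pow_primes _ _ (hP a ha) (hP b hb) hab)) h

lemma prod_le_tau (Pr : Finset ℕ) {N : ℕ} (hN : N ≠ 0) :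
    ∏ q ∈ Pr, (N.factorization q + 1) ≤ N.divisors.card := by
  rw [Nat.card_divisors hN, ← Finset.prod_subset (Finset.inter_subset_left (s₂ := N.primeFactors))]
  · exact Finset.prod_le_prod_of_subset_of_one_le' Finset.inter_subset_right
      fun _ _ _ => Nat.le_add_left _ _
  · intro q h1 h2
    have : q ∉ N.factorization.support := fun h =>
      h2 (Finset.mem_inter.2 ⟨h1, Nat.support_factorization N ▸ h⟩)
    rw [Finsupp.notMem_support_iff.1 this, Nat.zero_add]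

lemma val_le (hq : P.Ok q) {n : ℕ} (hn : 0 < n) (e : P.nh k p = n * |P.u|)
    (h : P.r₁ q = P.r₂ q) : P.r₁ q + P.v k q p ≤ (P.g * n).factorization q := by
  have hg : 0 < P.g := Nat.gcd_pos_of_pos_left _ hq.2.2.2.1
  rw [← hq.1.pow_dvd_iff_le_factorization (by positivity), pow_add]
  refine mul_dvd_mul (pow_dvd_g h) ?_
  have h1 : (q : ℤ) ^ P.v k q p ∣ n * |P.u| := e ▸ padicValInt_dvd _
  have h2 : IsCoprime ((q : ℤ) ^ P.v k q p) |P.u| :=
    ((Nat.prime_iff_prime_int.1 hq.1).coprime_iff_not_dvd.2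
      (by simpa using hq.2.2.1)).pow_left
  exact_mod_cast h2.dvd_of_dvd_mul_right h1

end Wt

open Wt in
theorem wt_stmt : RootStmt → WtStmt := by
  intro hR k ε hε
  obtain ⟨C, hC0, hC⟩ :=
    Pool.Agent.Lib.MP_30b5ba_nt.exists_divisor_bound (δ := ε / 4) (by positivity)
  refine ⟨C ^ 4, by positivity, fun P Pr p n hP h₁ h₂ hn e => ?_⟩
  have hg : 0 < P.g := Nat.gcd_pos_of_pos_left _ h₁
  have hN : 0 < P.g * n := by positivity
  have hne : ∀ q ∈ Pr, P.nh k p ≠ 0 := fun q hq => by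
    have : P.u ≠ 0 := fun h => (hP q hq).2.2.1 (h ▸ dvd_zero _)
    rw [e]
    positivity
  have hl := fun q hq => loc hR (hP q hq) (hne q hq) (val_le (hP q hq) hn e)
  have hpr : ∀ q ∈ Pr, q.Prime := fun q hq => (hP q hq).1
  have hτ : ∏ q ∈ Pr, (((P.g * n).factorization q : ℝ) + 1) ^ 4 ≤
      C ^ 4 * ((P.g * n : ℕ) : ℝ) ^ ε := by
    obtain ⟨T, hT, hT'⟩ := hC _ hN
    have h1 := (prod_le_tau Pr hN.ne').trans (hT _ (Nat.le_self_pow two_ne_zero _))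
    have h2 : ∏ q ∈ Pr, (((P.g * n).factorization q : ℝ) + 1) ≤ T := by exact_mod_cast h1
    rw [Finset.prod_pow]
    refine (pow_le_pow_left₀ (Finset.prod_nonneg fun _ _ => by positivity) (h2.trans hT') 4).trans
      (le_of_eq ?_)
    rw [mul_pow, ← Real.rpow_natCast (_ ^ (ε / 4)), ← Real.rpow_mul (by positivity)]
    norm_num
  refine ⟨fun q hq => (hl q hq).1, Nat.le_of_dvd hN (prod_dvd hpr fun q hq => ?_),
    prod_dvd hpr fun q hq => ?_, Finset.prod_dvd_prod_of_dvd _ _ fun q hq => ?_, ?_, ?_⟩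
  · exact ((hpr q hq).pow_dvd_iff_le_factorization hN.ne').2 (hl q hq).2.1
  · by_cases c : P.r₁ q = P.r₂ q
    · exact (pow_dvd_pow _ ci_le).trans (pow_dvd_g c)
    · rw [ci_ne c, pow_zero]
      exact one_dvd _
  · exact pow_dvd_pow _ (cj_le_ci (hpr q hq) (hne q hq))
  · refine (Finset.prod_le_prod (fun q hq => (hl q hq).1.2.2.1) fun q hq => (hl q hq).2.2.1).trans ?_
    rw [Finset.prod_mul_distrib, Finset.prod_mul_distrib, Par.E₁, Par.E₂, Nat.cast_prod,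
      Nat.cast_prod, Real.sqrt_prod _ fun _ _ => by positivity]
    simp only [Nat.cast_pow]
    gcongr
  · refine (Finset.prod_le_prod (fun q hq => (hl q hq).1.2.2.1.trans (hl q hq).1.2.2.2.1)
      fun q hq => (hl q hq).2.2.2).trans ?_
    rw [Finset.prod_mul_distrib, Par.E₁, Nat.cast_prod, ← Finset.prod_pow]
    simp only [Nat.cast_pow]
    gcongr

end Pool.Agent.Lib.MP_9177b7_ag.J.Large
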