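import Pool.Agent.Lib.MP_9177b7_ag.J.Large2
import Pool.Agent.Lib.MP_9177b7_ag.J.LargeBig
import Pool.Agent.Lib.MP_9177b7_ag.J.LargeBox
import Pool.Agent.Lib.MP_9177b7_ag.J.LargeCnt
import Pool.Agent.Lib.MP_9177b7_ag.J.LargeGlob
import Pool.Agent.Lib.MP_9177b7_ag.J.LargeLocAB
import Pool.Agent.Lib.MP_9177b7_ag.J.LargeLocC
import Pool.Agent.Lib.MP_9177b7_ag.J.LargePackB
import Pool.Agent.Lib.MP_9177b7_ag.J.LargePackC
import Pool.Agent.Lib.MP_9177b7_ag.J.LargeRed
import Pool.Agent.Lib.MP_9177b7_ag.J.LargeRoot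
import Pool.Agent.Lib.MP_9177b7_ag.J.LargeWt

/-!
Exclusion of graph components when every isogeny has large degree.
-/

namespace Pool.Agent.Lib.MP_9177b7_ag.J

open Large in
theorem large : BasicStmt → PsiStmt → RepStmt → CharStmt → ShiuStmt → LargeStmt :=
  fun _ hP _ hC hS =>
    main red box_stmt (glob (locA type_stmt) (locB type_stmt) (locC type_stmt))
      (pack (packB root_stmt) (packC root_stmt)) (wt_stmt root_stmt)
      (big (wt_stmt root_stmt) (cnt plane)) (exp_stmt hC) hP hS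

end Pool.Agent.Lib.MP_9177b7_ag.J
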