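import Pool.Agent.Lib.MP_9177b7_ag.J.LineN1

/-!
A line of unipotents with frozen coordinates: the fibrewise covering argument.
-/

open MeasureTheory ProbabilityTheory Filter Topology Set
open scoped MatrixGroups ENNReal NNReal Pointwise

noncomputable section

namespace Pool.Agent.Lib.MP_9177b7_ag.J

namespace LineN

open Line (cnt cover Tb)

variable {l : ℕ} [Fact l.Prime] {ι : Type}

theorem balls [Fintype ι] {τ : ℚ_[l]} (hτ : 1 < ‖τ‖) : ∃ N : ℕ, ∀ u : ℚ_[l], u ≠ 0 →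
    ∀ c : ι → ℚ_[l], ∃ F : Finset (ι → ℚ_[l]), F.card ≤ N ∧
      ∀ y, dist y c ≤ ‖u‖ → ∃ c' ∈ F, dist y c' ≤ ‖u‖ / ‖τ‖ := by
  classical
  have h0 : 0 < ‖τ‖⁻¹ := inv_pos.2 (one_pos.trans hτ)
  obtain ⟨t, -, ht, hcov⟩ := finite_cover_balls_of_compact
    (isCompact_closedBall (0 : ι → ℚ_[l]) 1) h0
  refine ⟨ht.toFinset.card, fun u hu c => ⟨ht.toFinset.image fun y => c + u • y,
    Finset.card_image_le, fun y hy => ?_⟩⟩
  have hu' : 0 < ‖u‖ := norm_pos_iff.2 hu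
  have h1 : u⁻¹ • (y - c) ∈ Metric.closedBall (0 : ι → ℚ_[l]) 1 := by
    rw [mem_closedBall_zero_iff, norm_smul, norm_inv, ← dist_eq_norm]
    exact (mul_le_mul_of_nonneg_left hy (inv_nonneg.2 hu'.le)).trans (inv_mul_cancel₀ hu'.ne').le
  obtain ⟨x, hx, hx'⟩ := mem_iUnion₂.1 (hcov h1)
  refine ⟨c + u • x, Finset.mem_image_of_mem _ (ht.mem_toFinset.2 hx), ?_⟩
  have e : y - (c + u • x) = u • (u⁻¹ • (y - c) - x) := by
    rw [smul_sub, smul_smul, mul_inv_cancel₀ hu, one_smul]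
    abel
  rw [dist_eq_norm, e, norm_smul, div_eq_mul_inv, ← dist_eq_norm]
  exact mul_le_mul_of_nonneg_left (le_of_lt hx') hu'.le

/-- A bound on all the fibres bounds the measure. -/
theorem fibre {Y P X : Type} [TopologicalSpace Y] [PolishSpace Y] [MeasurableSpace Y]
    [BorelSpace Y] [TopologicalSpace P] [PolishSpace P] [MeasurableSpace P] [BorelSpace P]
    [TopologicalSpace X] [PolishSpace X] [MeasurableSpace X] [BorelSpace X]
    {π : Y → P × X} (hπ : Continuous π) {θ : Measure Y} [IsFiniteMeasure θ] {μA : Measure P}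
    [IsProbabilityMeasure μA] {μ : Measure X} [IsProbabilityMeasure μ]
    (h : θ.map π = μA.prod μ) {D : Set Y} (hD : MeasurableSet D) {c : ℝ≥0∞}
    (hc : ∀ a, μ {y | ∃ w ∈ D, π w = (a, y)} ≤ c) : θ D ≤ c := by
  by_contra hlt
  rw [not_le] at hlt
  obtain ⟨K, hKD, hK, hcK⟩ := hD.exists_lt_isCompact_of_ne_top (measure_ne_top θ D) hlt
  have hm : MeasurableSet (π '' K) := (hK.image hπ).measurableSet
  refine absurd hcK (not_lt.2 ?_)
  calc θ K ≤ θ (π ⁻¹' (π '' K)) := measure_mono (subset_preimage_image _ _)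
    _ = (μA.prod μ) (π '' K) := by rw [← h, Measure.map_apply hπ.measurable hm]
    _ = ∫⁻ a, μ (Prod.mk a ⁻¹' (π '' K)) ∂μA := Measure.prod_apply hm
    _ ≤ ∫⁻ _, c ∂μA := by
      refine lintegral_mono fun a => le_trans (measure_mono ?_) (hc a)
      rintro y ⟨w, hw, e⟩
      exact ⟨w, hKD hw, e⟩
    _ = c := by simp

theorem nhds_pi_one [Finite ι] {G : Type} [TopologicalSpace G] [One G] {O : Set (ι → G)}
    (hO : O ∈ 𝓝 (1 : ι → G)) : ∃ O' ∈ 𝓝 (1 : G), ∀ η : ι → G, (∀ i, η i ∈ O') → η ∈ O := by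
  rw [nhds_pi, Filter.mem_pi] at hO
  obtain ⟨I, -, t, ht, hI⟩ := hO
  exact ⟨⋂ i, t i, iInter_mem.2 ht, fun η hη => hI fun i _ => mem_iInter.1 (hη i) i⟩

theorem meas_cnt {Y : Type} [MeasurableSpace Y] {bad : ℕ → Y → Prop}
    (h : ∀ i, MeasurableSet {w | bad i w}) (k x : ℕ) : MeasurableSet {w | cnt bad k w ≤ x} := by
  have hm : Measurable fun w => cnt bad k w := by
    unfold cnt
    exact Finset.measurable_sum _ fun i _ => Measurable.ite (h i) measurable_const measurable_const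
  exact hm (MeasurableSet.of_discrete (s := {n | n ≤ x}))

variable (S : Sp l)

theorem iter_hN (a : HH l) (z : ι → S.X) (n : ℕ) :
    (S.hN fun _ => a)^[n] z = fun i => (S.hs a)^[n] (z i) := by
  induction n with
  | zero => rfl
  | succ n ih =>
    rw [Function.iterate_succ_apply', ih]
    funext i
    rw [Function.iterate_succ_apply']
    rfl

theorem iter_pow (a : ι → HH l) (n : ℕ) : (S.hN a)^[n] = S.hN (a ^ n) := by
  induction n with
  | zero => rw [pow_zero, hN_one, Function.iterate_zero]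
  | succ n ih => rw [pow_succ, hN_mul, Function.iterate_succ, ih]

theorem iter_U (t : ℚ_[l]ˣ) (v : ι → ℚ_[l]) (z : ι → S.X) (n : ℕ) :
    (S.hN fun _ => dg t)^[n] (U S v z) =
      U S (((t : ℚ_[l]) ^ 2) ^ n • v) ((S.hN fun _ => dg t)^[n] z) := by
  rw [iter_hN, iter_hN]
  funext i
  simp only [U, Sp.hN, Line.iter_hT, Pi.smul_apply, smul_eq_mul]

theorem W_iter [Fintype ι] (A : Set ι) (t : ℚ_[l]ˣ) (θ : Measure (ι → S.X)) (n : ℕ)
    {v : ι → ℚ_[l]}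
    (hv : ((t : ℚ_[l]) ^ 2) ^ n • v ∈ W S A (θ.map (S.hN ((fun _ => dg t) ^ n)))) :
    v ∈ W S A θ := by
  rw [mem_W] at hv ⊢
  obtain ⟨h0, hv⟩ := hv
  refine ⟨fun i hi => ?_, ?_⟩
  · have := h0 i hi
    rw [Pi.smul_apply, smul_eq_mul] at this
    exact (mul_eq_zero.1 this).resolve_left (pow_ne_zero _ (pow_ne_zero _ t.ne_zero))
  have e : U S (((t : ℚ_[l]) ^ 2) ^ n • v) ∘ S.hN ((fun _ => dg t) ^ n) =
      S.hN ((fun _ => dg t) ^ n) ∘ U S v := by
    funext z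
    simp only [Function.comp, ← iter_pow, iter_U]
  rw [Measure.map_map (cont_U' S _).measurable (hN_meas S _), e,
    ← Measure.map_map (hN_meas S _) (cont_U' S _).measurable] at hv
  have := congrArg (Measure.map (S.hN ((fun _ : ι => dg t) ^ n)⁻¹)) hv
  rwa [Measure.map_map (hN_meas S _) (hN_meas S _),
    Measure.map_map (hN_meas S _) (hN_meas S _), ← hN_mul, inv_mul_cancel,
    hN_one, Measure.map_id, Measure.map_id] at this

/-- The unstable coordinates of a tuple of group elements. -/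
def vc (η : ι → S.G) : ι → ℚ_[l] := fun i => (η i).1 0 1 / (η i).1 0 0

theorem two_pts {r : ℝ} (hr : r ≤ 1) {t : ℚ_[l]ˣ} (ht : 1 < ‖(t : ℚ_[l])‖) {Cd : Set S.C}
    {η η' : ι → S.G} (h : ∀ i, η i ∈ Marg.Nb r ×ˢ Cd) (h' : ∀ i, η' i ∈ Marg.Nb r ×ˢ Cd)
    (z : ι → S.X) (n : ℕ) :
    ∃ ζ ζ' : ι → S.G, (∀ i, ζ i ∈ Marg.Nb r ×ˢ Cd) ∧ (∀ i, ζ' i ∈ Marg.Nb r ×ˢ Cd) ∧
      (S.hN fun _ => dg t)^[n] (gN S η z) =
        gN S ζ (U S (((t : ℚ_[l]) ^ 2) ^ n • (vc S η - vc S η'))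
          (gN S ζ'⁻¹ ((S.hN fun _ => dg t)^[n] (gN S η' z)))) := by
  choose p a _ b using fun i => Marg.shadow S hr ht (h i).1 (η i).2 (z i) n
  choose q c _ d using fun i => Marg.shadow S hr ht (h' i).1 (η' i).2 (z i) n
  refine ⟨fun i => (p i, (η i).2), fun i => (q i, (η' i).2), fun i => ⟨a i, (h i).2⟩,
    fun i => ⟨c i, (h' i).2⟩, ?_⟩
  rw [iter_hN, iter_hN]
  funext i
  simp only [Prod.mk.eta] at b d
  simp only [gN, U, Sp.hN, b, d, Pi.inv_apply, inv_smul_smul, Line.iter_hT,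
    ← Marg.hU, vc, Pi.smul_apply, Pi.sub_apply, smul_eq_mul, mul_sub, sub_add_cancel]

theorem small [Fintype ι] {A : Set ι} {j : ι} (hj : j ∉ A) {μ : Measure S.X}
    [IsProbabilityMeasure μ] {Θ : Kernel (ι → S.X) (ι → S.X)} [IsMarkovKernel Θ]
    {Z Q : Set (ι → S.X)} {t : ℚ_[l]ˣ} (ht : 1 < ‖(t : ℚ_[l])‖) (hB : S.Bound μ)
    (equi : ∀ v z, z ∈ Z → S.hN v z ∈ Z → Θ (S.hN v z) = (Θ z).map (S.hN v))
    (hQ : IsCompact Q) (hZ : Q ⊆ Z)
    (hc : ∀ φ : (ι → S.X) → ℝ, Continuous φ → HasCompactSupport φ →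
      ContinuousOn (fun z => ∫ w, φ w ∂Θ z) Q) {u : ℚ_[l]} (hu : 1 ≤ ‖u‖)
    (hW : ∀ z ∈ Q, ∀ v ∈ W S A (Θ z), ‖v‖ ≤ ‖u‖) {N : ℕ}
    (hN : ∀ u : ℚ_[l], u ≠ 0 → ∀ c : ι → ℚ_[l], ∃ F : Finset (ι → ℚ_[l]), F.card ≤ N ∧
      ∀ y, dist y c ≤ ‖u‖ → ∃ c' ∈ F, dist y c' ≤ ‖u‖ / ‖(t : ℚ_[l]) ^ 2‖) :
    ∃ C : ℝ, 0 ≤ C ∧ ∀ (k x : ℕ) (θ : Measure (ι → S.X)), IsProbabilityMeasure θ →
      S.Ind μ A j θ →
      θ {w | w ∈ Q ∧ Θ w = θ ∧ cnt (fun i w => (S.hN fun _ => dg t)^[i + 1] w ∉ Q) k w ≤ x} ≤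
        ENNReal.ofReal (C * ((3 / 4) ^ k * (2 * N + 1) ^ x)) := by
  classical
  obtain ⟨m, hm1, hm2, hm⟩ := hB
  set τ : ℚ_[l] := (t : ℚ_[l]) ^ 2 with hτ
  have hτ1 : 1 < ‖τ‖ := by rw [hτ, norm_pow]; exact one_lt_pow₀ ht two_ne_zero
  have hτ0 : 0 < ‖τ‖ := one_pos.trans hτ1
  have hu0 : u ≠ 0 := norm_pos_iff.1 (one_pos.trans_le hu)
  have hpos : ∀ i : ℕ, u / τ ^ i ≠ 0 := fun i =>
    div_ne_zero hu0 (pow_ne_zero _ (norm_pos_iff.1 hτ0))
  have hcl := claim S equi hQ hZ hc (R' := ‖τ‖ * ‖u‖) (one_pos.trans_le hu) hW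
  obtain ⟨O₁, hO₁, O₂, hO₂, hO⟩ := mem_nhds_prod_iff.1 hcl
  obtain ⟨O₃, hO₃, hO'⟩ := nhds_pi_one hO₁
  obtain ⟨O₄, hO₄, hO''⟩ := nhds_pi_one hO₂
  obtain ⟨OH, hOH, OC, hOC, hO'''⟩ := mem_nhds_prod_iff.1 (inter_mem hO₃ hO₄)
  obtain ⟨r, hr0, hr, hrO⟩ := Marg.exists_Nb hOH
  obtain ⟨Kc, hKc, hKc'⟩ := exists_compact_mem_nhds (1 : S.C)
  set Cd : Set S.C := interior (OC ∩ Kc) with hCd
  have hCo : IsOpen Cd := isOpen_interior
  have hC1 : (1 : S.C) ∈ Cd := mem_interior_iff_mem_nhds.2 (inter_mem hOC hKc')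
  set B : Set S.G := Marg.Nb r ×ˢ Cd with hBdef
  have hBO : ∀ g ∈ B, g ∈ O₃ ∩ O₄ := fun g hg =>
    hO''' ⟨hrO hg.1, (interior_subset hg.2).1⟩
  have hBo : IsOpen B := (Marg.isOpen_Nb r).prod hCo
  have hB1 : (1 : S.G) ∈ B := ⟨Marg.one_mem_Nb hr0, hC1⟩
  let Bx : (ι → S.X) → Set (ι → S.X) := fun z => univ.pi fun i => (fun g : S.G => g • z i) '' B
  have hBx : ∀ z, IsOpen (Bx z) := fun z =>
    isOpen_set_pi finite_univ fun i _ => Marg.isOpen_orbit S hBo _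
  obtain ⟨T, -, hT⟩ := hQ.elim_nhds_subcover Bx fun z _ =>
    (hBx z).mem_nhds fun i _ => ⟨1, hB1, one_smul _ _⟩
  have hfin := Line.Tb_fin S m hKc (Cd := Cd) (fun c hc => (interior_subset hc).2) hu
  refine ⟨T.card * (m (Tb S Cd 0 ‖u‖)).toReal, by positivity, fun k x θ hθp hθ => ?_⟩
  obtain ⟨μA, hμA, hθ⟩ := hθ
  have hmk : m (Tb S Cd 0 ‖u / τ ^ k‖) ≤
      ENNReal.ofReal ((m (Tb S Cd 0 ‖u‖)).toReal * (1 / 2) ^ k) := by
    have h1 := Line.Tb_pow S m hCo hτ1 hu0 k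
    have h2 : m (Tb S Cd 0 ‖u / τ ^ k‖) ≠ ∞ :=
      ((le_mul_of_one_le_left' (one_le_pow₀ one_le_two)).trans_lt (h1.trans_lt hfin)).ne
    rw [ENNReal.le_ofReal_iff_toReal_le h2 (by positivity)]
    have h3 := ENNReal.toReal_mono hfin.ne h1
    rw [ENNReal.toReal_mul, ENNReal.toReal_pow, ENNReal.toReal_ofNat] at h3
    rw [one_div, inv_pow, ← div_eq_mul_inv, le_div_iff₀ (by positivity), mul_comm]
    exact h3
  set Gd : Set (ι → S.X) :=
    {w | w ∈ Q ∧ Θ w = θ ∧ cnt (fun i w => (S.hN fun _ => dg t)^[i + 1] w ∉ Q) k w ≤ x} with hGd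
  have hGm : MeasurableSet Gd := by
    rcases Gd.eq_empty_or_nonempty with h | ⟨w₀, hw₀⟩
    · rw [h]
      exact MeasurableSet.empty
    have h1 := (closedP S hQ.isClosed hc).preimage (Continuous.prodMk_right w₀)
    have h2 := meas_cnt (bad := fun i w => (S.hN fun _ : ι => dg t)^[i + 1] w ∉ Q)
      (fun i => ((hN_meas S _).iterate (i + 1)) hQ.measurableSet.compl) k x
    convert h1.measurableSet.inter h2 using 1
    ext w
    simp only [hGd, mem_ofPred_eq, mem_inter_iff, mem_preimage, hw₀.1, hw₀.2.1, true_and,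
      and_assoc]
  have hv : ∀ η : ι → S.G, (∀ i, η i ∈ B) → ‖vc S η‖ ≤ 1 := by
    intro η hη
    refine (pi_norm_le_iff_of_nonneg zero_le_one).2 fun i => ?_
    simp only [vc]
    rw [norm_div, Marg.Nb_unit hr (hη i).1, div_one]
    exact Marg.Nb_le hr (hη i).1 0 1
  have hfib : ∀ (z : ι → S.X) (η₀ : ι → S.G),
      μ {y | ∃ η : ι → S.G, (∀ i, η i ∈ B) ∧ (∀ i ∈ A, η i = η₀ i) ∧ gN S η z ∈ Gd ∧
        η j • z j = y} ≤
      ENNReal.ofReal ((m (Tb S Cd 0 ‖u‖)).toReal * ((3 / 4) ^ k * (2 * N + 1) ^ x)) := by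
    intro z η₀
    obtain ⟨F, hF, hF'⟩ := cover
      {η : ι → S.G | (∀ i, η i ∈ B) ∧ (∀ i ∈ A, η i = η₀ i) ∧ gN S η z ∈ Q ∧ Θ (gN S η z) = θ}
      (vc S) (fun i η => (S.hN fun _ => dg t)^[i + 1] (gN S η z) ∉ Q) (fun i => ‖u / τ ^ i‖) N
      (by
        intro η hη η' hη'
        rw [pow_zero, div_one]
        refine (IsUltrametricDist.dist_triangle_max _ 0 _).trans (max_le ?_ ?_)
        · rw [dist_zero_right]
          exact (hv _ hη.1).trans hu
        · rw [dist_zero_left]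
          exact (hv _ hη'.1).trans hu)
      (by
        intro i η hη η' hη' hb hb' hd
        rw [not_not] at hb hb'
        obtain ⟨ζ, ζ', hζ, hζ', e⟩ := two_pts S hr ht hη.1 hη'.1 z (i + 1)
        have h1 := hO (mk_mem_prod (a := ζ) (b := ζ')
          (hO' _ fun i => (hBO _ (hζ i)).1) (hO'' _ fun i => (hBO _ (hζ' i)).2))
        rw [dist_eq_norm] at hd ⊢
        rw [norm_div, norm_pow, le_div_iff₀ (pow_pos hτ0 _)] at hd ⊢
        have h2 := h1 _ hb' (τ ^ (i + 1) • (vc S η - vc S η')) (by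
          intro a ha
          simp only [Pi.smul_apply, Pi.sub_apply, vc, hη.2.1 a ha, hη'.2.1 a ha, sub_self,
            smul_zero]) (by
          rw [norm_smul, norm_pow, pow_succ', mul_assoc, mul_comm (‖τ‖ ^ i)]
          exact mul_le_mul_of_nonneg_left hd hτ0.le) (e ▸ hb) (by
          rw [← e]
          rw [iter_pow] at hb hb' ⊢
          rw [equi _ _ (hZ hη.2.2.1) (hZ hb), equi _ _ (hZ hη'.2.2.1) (hZ hb'), hη.2.2.2,
            hη'.2.2.2])
        rwa [norm_smul, norm_pow, mul_comm] at h2)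
      (by
        intro i c
        obtain ⟨F, a, b⟩ := hN _ (hpos i) c
        refine ⟨F, a, fun y hy => ?_⟩
        obtain ⟨c', a', b'⟩ := b y hy
        refine ⟨c', a', ?_⟩
        rwa [pow_succ, ← div_div, norm_div]) k x
    obtain ⟨g₀, hg₀⟩ := S.surj (z j)
    have hsub : {y | ∃ η : ι → S.G, (∀ i, η i ∈ B) ∧ (∀ i ∈ A, η i = η₀ i) ∧ gN S η z ∈ Gd ∧
        η j • z j = y} ⊆
        ⋃ c ∈ F, (fun g : S.G => g • S.o) ''
          ((fun g : S.G => g * g₀⁻¹) ⁻¹' Tb S Cd (c j) ‖u / τ ^ k‖) := by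
      rintro _ ⟨η, d, d', ⟨a, b, c⟩, rfl⟩
      obtain ⟨c₀, e, f⟩ := hF' η ⟨d, d', a, b⟩ c
      refine mem_iUnion₂.2 ⟨c₀, e, η j * g₀, ?_, by simp only [mul_smul, hg₀]⟩
      have d₁ := d j
      have n1 := Marg.Nb_unit hr d₁.1
      have n0 : (η j).1 0 0 ≠ 0 := norm_pos_iff.1 (n1 ▸ one_pos)
      rw [mem_preimage, mul_inv_cancel_right]
      refine ⟨by simpa using (d₁.1 0 0).trans_le hr, by simpa using (d₁.1 1 0).trans_le hr, ?_,
        d₁.2⟩
      have f1 : dist ((η j).1 0 1 / (η j).1 0 0) (c₀ j) ≤ ‖u / τ ^ k‖ :=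
        (dist_le_pi_dist (vc S η) c₀ j).trans f
      have e1 : (η j).1 0 1 - c₀ j * (η j).1 0 0 =
          ((η j).1 0 1 / (η j).1 0 0 - c₀ j) * (η j).1 0 0 := by
        field_simp
      rwa [e1, norm_mul, n1, mul_one, ← dist_eq_norm]
    refine (measure_mono hsub).trans ((measure_biUnion_finset_le _ _).trans ?_)
    refine (Finset.sum_le_card_nsmul _ _
      (ENNReal.ofReal ((m (Tb S Cd 0 ‖u‖)).toReal * (1 / 2) ^ k)) fun c _ => ?_).trans ?_
    · refine (hm _ ((Line.isOpen_Tb S hCo _ (norm_pos_iff.2 (hpos k))).preimage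
        (continuous_mul_const _))).trans ?_
      rw [measure_preimage_mul_right, Line.Tb_shift, measure_preimage_mul_right]
      exact hmk
    · rw [nsmul_eq_mul, ← ENNReal.ofReal_natCast, ← ENNReal.ofReal_mul (Nat.cast_nonneg _)]
      refine ENNReal.ofReal_le_ofReal ?_
      have e : ((3 : ℝ) / 4) ^ k = (3 / 2) ^ k * (1 / 2) ^ k := by
        rw [← mul_pow]; norm_num
      calc _ ≤ ((3 / 2) ^ k * (2 * N + 1) ^ x) * ((m (Tb S Cd 0 ‖u‖)).toReal * (1 / 2) ^ k) :=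
            mul_le_mul_of_nonneg_right hF (by positivity)
        _ = _ := by rw [e]; ring
  have hz : ∀ z : ι → S.X, θ (Gd ∩ Bx z) ≤
      ENNReal.ofReal ((m (Tb S Cd 0 ‖u‖)).toReal * ((3 / 4) ^ k * (2 * N + 1) ^ x)) := by
    intro z
    have hπ : Continuous fun w : ι → S.X => ((fun i : A => w i), w j) := by fun_prop
    refine fibre hπ hθ (hGm.inter (hBx z).measurableSet) fun a => ?_
    rcases Set.eq_empty_or_nonempty {y | ∃ w ∈ Gd ∩ Bx z, ((fun i : A => w i), w j) = (a, y)} with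
      h | ⟨y₀, w₀, hw₀, e₀⟩
    · rw [h, measure_empty]
      exact zero_le
    choose η₀ b₀ c₀ using fun i => hw₀.2 i (mem_univ i)
    refine le_trans (measure_mono ?_) (hfib z η₀)
    rintro y ⟨w, hw, e⟩
    choose η b c using fun i => hw.2 i (mem_univ i)
    have ew : gN S (fun i => if i ∈ A then η₀ i else η i) z = w := by
      funext i
      simp only [gN]
      split_ifs with hi
      · have e1 := congrFun (congrArg Prod.fst e₀) ⟨i, hi⟩
        have e2 := congrFun (congrArg Prod.fst e) ⟨i, hi⟩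
        exact (c₀ i).trans (e1.trans e2.symm)
      · exact c i
    refine ⟨fun i => if i ∈ A then η₀ i else η i, fun i => ?_, fun i hi => if_pos hi,
      ew ▸ hw.1, ?_⟩
    · beta_reduce
      split_ifs
      · exact b₀ i
      · exact b i
    · simp only [if_neg hj]
      exact (c j).trans (congrArg Prod.snd e)
  refine (measure_mono (t := ⋃ z ∈ T, Gd ∩ Bx z) ?_).trans
    ((measure_biUnion_finset_le _ _).trans
      ((Finset.sum_le_card_nsmul _ _ _ fun z _ => hz z).trans (le_of_eq ?_)))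
  · intro w hw
    obtain ⟨z, a, b⟩ := mem_iUnion₂.1 (hT hw.1)
    exact mem_iUnion₂.2 ⟨z, a, hw, b⟩
  · rw [nsmul_eq_mul, ← ENNReal.ofReal_natCast, ← ENNReal.ofReal_mul (Nat.cast_nonneg _),
      mul_assoc]

end LineN

open LineN in
theorem lineN : LineNStmt := by
  intro l _ S μ ι _ ν Θ Z t A₀ j hj ht hμ hB hν hD hA hI
  have := hD.markov
  set E : Set (ι → S.X) := {z | ∃ R : ℝ, ∀ v ∈ W S A₀ (Θ z), ‖v‖ ≤ R} with hEdef
  suffices hE : ν E = 0 by
    filter_upwards [measure_eq_zero_iff_ae_notMem.1 hE] with z hz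
    obtain ⟨e, he, h⟩ := line_of_unbdd (W S A₀ (Θ z)) (closed_W S A₀ _) fun R => by
      by_contra h
      push Not at h
      exact hz ⟨R, h⟩
    refine ⟨e, he, fun i hi => ?_, fun s => (h s).2⟩
    have := (h 1).1 i hi
    rwa [one_smul] at this
  by_contra hE
  have hτ : 1 < ‖(t : ℚ_[l]) ^ 2‖ := by rw [norm_pow]; exact one_lt_pow₀ ht two_ne_zero
  obtain ⟨N, hN⟩ := balls (ι := ι) hτ
  have hN0 : (0 : ℝ) < 2 * N + 1 := by positivity
  obtain ⟨M, hM⟩ := exists_pow_lt_of_lt_one (inv_pos.2 hN0) (show (3 : ℝ) / 4 < 1 by norm_num)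
  have hM' : ((3 : ℝ) / 4) ^ M * (2 * N + 1) < 1 := by
    rwa [← lt_div_iff₀ hN0, one_div]
  have hM0 : M ≠ 0 := by
    rintro rfl
    have := Nat.cast_nonneg (α := ℝ) N
    simp only [pow_zero, one_mul] at hM'
    linarith
  have h12 : (12 * M : ℝ≥0∞) ≠ 0 := by simp [hM0]
  have h12' : (12 * M : ℝ≥0∞) ≠ ∞ := by finiteness
  obtain ⟨Q, u, hQ, hZ, hc, hu, hW, hQε⟩ := approx S (A := A₀) hD.lusin hτ (ε := ν E / (12 * M))
    (ENNReal.div_pos hE h12')
  obtain ⟨C, hC0, hC⟩ := small S hj ht hB hD.equi hQ hZ hc hu hW hN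
  obtain ⟨x, hx, hx0⟩ : ∃ x : ℕ, C * (((3 : ℝ) / 4) ^ M * (2 * N + 1)) ^ x < 1 / 2 ∧ x ≠ 0 := by
    have h1 := (tendsto_pow_atTop_nhds_zero_of_lt_one (by positivity) hM').const_mul C
    rw [mul_zero] at h1
    exact ((h1.eventually (gt_mem_nhds one_half_pos)).and (eventually_ne_atTop 0)).exists
  set A : (ι → S.X) → ι → S.X := S.hN fun _ => dg t with hAdef
  have hAm : MeasurePreserving A ν ν := ⟨hN_meas S _, hA⟩
  set D := toMeasurable ν (E \ Q) with hDdef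
  have hDm : MeasurableSet D := measurableSet_toMeasurable _ _
  have hDν : 4 * M * ν D < ν E := by
    rw [hDdef, measure_toMeasurable]
    refine (ENNReal.mul_lt_mul_right (by simp [hM0]) (by finiteness) hQε).trans_le (le_of_eq ?_)
    calc _ = 12 * M * (ν E / (12 * M)) := by ring
      _ = ν E := ENNReal.mul_div_cancel h12 h12'
  let F : (ι → S.X) → ℝ≥0∞ := fun w => ((M * x : ℕ) : ℝ≥0∞) * D.indicator 1 w +
    ∑ i ∈ Finset.range (M * x), D.indicator 1 (A^[i + 1] w)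
  have hi : Measurable (D.indicator (1 : (ι → S.X) → ℝ≥0∞)) := measurable_one.indicator hDm
  have hs : Measurable fun w => ∑ i ∈ Finset.range (M * x),
      D.indicator (1 : (ι → S.X) → ℝ≥0∞) (A^[i + 1] w) :=
    Finset.measurable_sum _ fun i _ => hi.comp (hAm.iterate (i + 1)).measurable
  have hF : Measurable F := (hi.const_mul _).add hs
  have hFν : ∫⁻ w, F w ∂ν = ((M * x : ℕ) : ℝ≥0∞) * ν D + ((M * x : ℕ) : ℝ≥0∞) * ν D := by
    simp only [F]
    rw [lintegral_add_right _ hs, lintegral_const_mul _ hi, lintegral_indicator_one hDm,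
      lintegral_finsetSum (f := fun i w => D.indicator (1 : (ι → S.X) → ℝ≥0∞) (A^[i + 1] w)) _
        fun i _ => hi.comp (hAm.iterate (i + 1)).measurable]
    congr 1
    have key : ∀ i ∈ Finset.range (M * x),
        ∫⁻ w, D.indicator (1 : (ι → S.X) → ℝ≥0∞) (A^[i + 1] w) ∂ν = ν D := fun i _ => by
      rw [(hAm.iterate (i + 1)).lintegral_comp hi, lintegral_indicator_one hDm]
    rw [Finset.sum_congr rfl key, Finset.sum_const, Finset.card_range, nsmul_eq_mul]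
  have hH : Measurable fun z => 2 * ∫⁻ w, F w ∂Θ z := (hF.lintegral_kernel).const_mul 2
  have hx1 : (x : ℝ≥0∞) ≠ 0 := by simpa using hx0
  have hgood : ∀ᵐ z ∂ν, ∀ᵐ w ∂Θ z, ∀ i, A^[i] w ∈ Z := by
    refine Measure.ae_ae_of_ae_bind Θ.measurable.aemeasurable ?_
    rw [hD.bind]
    exact ae_all_iff.2 fun i => (hAm.iterate i).quasiMeasurePreserving.ae hD.full
  obtain ⟨z, hzE, hz1, hz2, hz3, hz4⟩ : ∃ z ∈ E, (∀ᵐ w ∂Θ z, Θ w = Θ z ∧ w ∈ Z) ∧
      S.Ind μ A₀ j (Θ z) ∧ (∀ᵐ w ∂Θ z, ∀ i, A^[i] w ∈ Z) ∧ 2 * ∫⁻ w, F w ∂Θ z < x := by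
    by_contra h
    push Not at h
    have h1 : ν E ≤ ν {z | (x : ℝ≥0∞) ≤ 2 * ∫⁻ w, F w ∂Θ z} := by
      refine measure_mono_ae ?_
      filter_upwards [hD.typ, hI, hgood] with z a b c hz
      exact h z hz a b c
    have h2 := mul_meas_ge_le_lintegral (μ := ν) hH x
    rw [lintegral_const_mul _ hF.lintegral_kernel,
      ← Measure.lintegral_bind Θ.measurable.aemeasurable hF.aemeasurable, hD.bind, hFν] at h2
    have h3 : (x : ℝ≥0∞) * (4 * M * ν D) < x * ν E :=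
      ENNReal.mul_lt_mul_right hx1 (ENNReal.natCast_ne_top x) hDν
    refine absurd ((mul_le_mul_right h1 _).trans h2) (not_le.2 (lt_of_eq_of_lt ?_ h3))
    push_cast
    ring
  have h1 := hC (M * x) x (Θ z) inferInstance hz2
  have h2 := mul_meas_ge_le_lintegral (μ := Θ z) hF x
  have h3 : 2 * Θ z {w | (x : ℝ≥0∞) ≤ F w} < 1 := by
    refine (ENNReal.mul_lt_mul_iff_right hx1 (ENNReal.natCast_ne_top x)).1 ?_
    rw [mul_one, mul_left_comm]
    exact (mul_le_mul_right h2 _).trans_lt hz4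
  have h4 : 2 * Θ z {w | w ∈ Q ∧ Θ w = Θ z ∧
      Line.cnt (fun i w => A^[i + 1] w ∉ Q) (M * x) w ≤ x} ≤ 1 := by
    refine (mul_le_mul_right h1 _).trans ?_
    rw [← ENNReal.ofReal_ofNat, ← ENNReal.ofReal_mul (by norm_num), ENNReal.ofReal_le_one,
      pow_mul, ← mul_pow]
    linarith
  have h5 : Θ z univ ≤ Θ z ({w | (x : ℝ≥0∞) ≤ F w} ∪
      {w | w ∈ Q ∧ Θ w = Θ z ∧ Line.cnt (fun i w => A^[i + 1] w ∉ Q) (M * x) w ≤ x}) := by
    refine measure_mono_ae ?_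
    filter_upwards [hz1, hz3] with w a b _
    by_cases hx2 : (x : ℝ≥0∞) ≤ F w
    · exact Or.inl hx2
    rw [not_le] at hx2
    have hE' : ∀ i, A^[i] w ∈ E := by
      intro i
      obtain ⟨R, hR⟩ := hzE
      have b' := b i
      have h0 : ((t : ℚ_[l]) ^ 2) ^ i ≠ 0 := pow_ne_zero _ (pow_ne_zero _ t.ne_zero)
      rw [hAdef, iter_pow] at b' ⊢
      refine ⟨‖((t : ℚ_[l]) ^ 2) ^ i‖ * R, fun v hv => ?_⟩
      rw [hD.equi _ _ a.2 b', a.1, ← smul_inv_smul₀ h0 v] at hv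
      rw [← smul_inv_smul₀ h0 v, norm_smul]
      exact mul_le_mul_of_nonneg_left (hR _ (W_iter S A₀ t _ i hv)) (norm_nonneg _)
    refine Or.inr ⟨?_, a.1, ?_⟩
    · by_contra hw
      have hw' : w ∈ D := subset_toMeasurable _ _ ⟨hE' 0, hw⟩
      refine absurd hx2 (not_lt.2 (le_trans ?_ le_self_add))
      rw [indicator_of_mem hw', Pi.one_apply, mul_one]
      exact_mod_cast Nat.le_mul_of_pos_left x (Nat.pos_of_ne_zero hM0)
    · refine Nat.cast_le.1 (le_trans (le_trans ?_ le_add_self) hx2.le)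
      rw [Line.cnt, Nat.cast_sum]
      refine Finset.sum_le_sum fun i _ => ?_
      split_ifs with hb
      · simp
      · have hw' : A^[i + 1] w ∈ D := subset_toMeasurable _ _ ⟨hE' _, hb⟩
        rw [indicator_of_mem hw']
        simp
  rw [measure_univ] at h5
  have h6 := mul_le_mul_right (h5.trans (measure_union_le _ _)) 2
  rw [mul_add, mul_one] at h6
  have h7 := ENNReal.add_lt_add_of_lt_of_le (h4.trans_lt ENNReal.one_lt_top).ne h3 h4
  rw [one_add_one_eq_two] at h7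
  exact absurd h6 (not_le.2 h7)

end Pool.Agent.Lib.MP_9177b7_ag.J
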