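import Pool.Agent.Lib.MP_9177b7_ag.J.Div1

/-!
Stabilisers of measures under a flow of an ultrametric group; a vector valued divergence lemma.
-/

open MeasureTheory ProbabilityTheory Filter Topology Set
open scoped ENNReal NNReal

noncomputable section

namespace Pool.Agent.Lib.MP_9177b7_ag.J.LineU

section flow

variable {V Y : Type} [NormedAddCommGroup V] [TopologicalSpace Y] (U : Flow V Y)

theorem cs_U {φ : Y → ℝ} (hc : HasCompactSupport φ) (v : V) :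
    HasCompactSupport fun z => φ (U v z) := hc.comp_homeomorph (U.toHomeomorph v)

theorem unifU {φ : Y → ℝ} (hφ : Continuous φ) (hc : HasCompactSupport φ) (v₀ : V) {η : ℝ}
    (hη : 0 < η) : ∀ᶠ v in 𝓝 v₀, ∀ z, |φ (U v z) - φ (U v₀ z)| ≤ η := by
  have h1 : ∀ᶠ v in 𝓝 (0 : V), ∀ x ∈ tsupport φ, |φ (U v x) - φ x| < η := by
    refine hc.isCompact.eventually_forall_of_forall_eventually fun x _ => ?_
    have : Continuous fun p : V × Y => |φ (U p.1 p.2) - φ p.2| :=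
      ((hφ.comp U.cont').sub (hφ.comp continuous_snd)).abs
    exact this.continuousAt.eventually_lt continuousAt_const (by simpa using hη)
  have t1 : Tendsto (fun v : V => v - v₀) (𝓝 v₀) (𝓝 0) := by
    simpa using (continuous_sub_right v₀).tendsto v₀
  have t2 : Tendsto (fun v : V => v₀ - v) (𝓝 v₀) (𝓝 0) := by
    simpa using (continuous_sub_left v₀).tendsto v₀
  filter_upwards [t1.eventually h1, t2.eventually h1] with v a b z
  by_cases hx : U v₀ z ∈ tsupport φ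
  · have := a _ hx
    rw [← U.map_add, sub_add_cancel] at this
    exact this.le
  · by_cases hy : U v z ∈ tsupport φ
    · have := b _ hy
      rw [← U.map_add, sub_add_cancel, abs_sub_comm] at this
      exact this.le
    · rw [image_eq_zero_of_notMem_tsupport hx, image_eq_zero_of_notMem_tsupport hy]
      simpa using hη.le

variable [PolishSpace Y] [LocallyCompactSpace Y] [MeasurableSpace Y] [BorelSpace Y]

theorem ext_cc {θ θ' : Measure Y} [IsProbabilityMeasure θ] [IsProbabilityMeasure θ']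
    (h : ∀ φ : Y → ℝ, Continuous φ → HasCompactSupport φ → ∫ w, φ w ∂θ = ∫ w, φ w ∂θ') : θ = θ' :=
  Measure.ext_of_integral_eq_on_compactlySupported fun f =>
    h f (map_continuous f) f.hasCompactSupport

theorem closedW {P : Type} [TopologicalSpace P] (θ : P → Measure Y)
    [∀ p, IsProbabilityMeasure (θ p)] {Q : Set P} (hQ : IsClosed Q)
    (hc : ∀ φ : Y → ℝ, Continuous φ → HasCompactSupport φ →
      ContinuousOn (fun p => ∫ w, φ w ∂θ p) Q) :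
    IsClosed {q : P × V | q.1 ∈ Q ∧ (θ q.1).map (U q.2) = θ q.1} := by
  have hcl : IsClosed (Q ×ˢ (univ : Set V)) := hQ.prod isClosed_univ
  have key : ∀ φ : Y → ℝ, Continuous φ → HasCompactSupport φ →
      ContinuousOn (fun q : P × V => ∫ w, φ (U q.2 w) ∂θ q.1) (Q ×ˢ univ) := by
    intro φ hφ hs q₀ hq₀
    have hint : ∀ v p, Integrable (fun w => φ (U v w)) (θ p) := fun v p =>
      (hφ.comp (U.continuous_toFun v)).integrable_of_hasCompactSupport (cs_U U hs v)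
    rw [ContinuousWithinAt, Metric.tendsto_nhds]
    intro ε hε
    have h1 := (hc _ (hφ.comp (U.continuous_toFun q₀.2)) (cs_U U hs q₀.2) q₀.1 hq₀.1)
    have h2 : ContinuousWithinAt (fun q : P × V => ∫ w, φ (U q₀.2 w) ∂θ q.1)
        (Q ×ˢ univ) q₀ :=
      ContinuousWithinAt.comp (f := Prod.fst) h1 continuousWithinAt_fst fun q hq => hq.1
    have h3 := Metric.tendsto_nhds.1 h2 (ε / 2) (half_pos hε)
    have h4 : ∀ᶠ q in 𝓝[Q ×ˢ univ] q₀, ∀ z, |φ (U q.2 z) - φ (U q₀.2 z)| ≤ ε / 2 :=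
      ((continuous_snd.tendsto q₀).eventually (unifU U hφ hs q₀.2 (half_pos hε))).filter_mono
        nhdsWithin_le_nhds
    filter_upwards [h3, h4] with q a b
    have h5 : dist (∫ w, φ (U q.2 w) ∂θ q.1) (∫ w, φ (U q₀.2 w) ∂θ q.1) ≤ ε / 2 := by
      rw [dist_eq_norm, ← integral_sub (hint _ _) (hint _ _)]
      have := norm_integral_le_of_norm_le_const (μ := θ q.1) (C := ε / 2)
        (f := fun w => φ (U q.2 w) - φ (U q₀.2 w)) (Eventually.of_forall b)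
      simpa using this
    calc _ ≤ _ := dist_triangle _ (∫ w, φ (U q₀.2 w) ∂θ q.1) _
      _ < ε / 2 + ε / 2 := add_lt_add_of_le_of_lt h5 a
      _ = ε := add_halves ε
  have e : {q : P × V | q.1 ∈ Q ∧ (θ q.1).map (U q.2) = θ q.1} =
      Q ×ˢ univ ∩ ⋂ φ : {φ : Y → ℝ // Continuous φ ∧ HasCompactSupport φ},
        (Q ×ˢ univ ∩ (fun q : P × V =>
          ∫ w, φ.1 (U q.2 w) ∂θ q.1 - ∫ w, φ.1 w ∂θ q.1) ⁻¹' {0}) := by
    ext q
    simp only [mem_inter_iff, mem_iInter, mem_preimage, mem_singleton_iff, mem_prod, mem_univ,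
      and_true, sub_eq_zero]
    have hm := (U.continuous_toFun q.2).measurable.aemeasurable (μ := θ q.1)
    constructor
    · rintro ⟨h1, h2⟩
      refine ⟨h1, fun φ => ⟨h1, ?_⟩⟩
      rw [← integral_map hm φ.2.1.aestronglyMeasurable, h2]
    · rintro ⟨h1, h2⟩
      refine ⟨h1, ?_⟩
      have := Measure.isProbabilityMeasure_map hm
      refine ext_cc fun φ a b => ?_
      rw [integral_map hm a.aestronglyMeasurable]
      exact (h2 ⟨φ, a, b⟩).2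
  rw [e]
  refine hcl.inter (isClosed_iInter fun φ => ?_)
  refine ContinuousOn.preimage_isClosed_of_isClosed ?_ hcl isClosed_singleton
  exact (key _ φ.2.1 φ.2.2).sub ((hc _ φ.2.1 φ.2.2).comp continuousOn_fst fun q hq => hq.1)

omit [PolishSpace Y] [LocallyCompactSpace Y] in
theorem map_map (θ : Measure Y) (v w : V) : (θ.map (U w)).map (U v) = θ.map (U (v + w)) := by
  rw [Measure.map_map (U.continuous_toFun v).measurable (U.continuous_toFun w).measurable]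
  exact congrArg θ.map (funext fun z => (U.map_add v w z).symm)

/-- The stabiliser of a measure inside a subgroup. -/
def W (N : AddSubgroup V) (θ : Measure Y) : AddSubgroup V where
  carrier := {v | v ∈ N ∧ θ.map (U v) = θ}
  zero_mem' := ⟨N.zero_mem, by rw [U.map_zero, Measure.map_id]⟩
  add_mem' {v w} h h' := ⟨N.add_mem h.1 h'.1, by rw [← map_map, h'.2, h.2]⟩
  neg_mem' {v} h := ⟨N.neg_mem h.1, by
    conv_lhs => rw [← h.2]
    rw [map_map, neg_add_cancel, U.map_zero, Measure.map_id]⟩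

variable {N : AddSubgroup V}

omit [PolishSpace Y] [LocallyCompactSpace Y] in
theorem W_map (θ : Measure Y) (u : V) {v : V} (h : v ∈ W U N (θ.map (U u))) : v ∈ W U N θ := by
  refine ⟨h.1, ?_⟩
  have h2 := congrArg (Measure.map (U (-u))) h.2
  rwa [map_map, map_map, map_map, neg_add_cancel, U.map_zero, Measure.map_id,
    show -u + v + u = v by abel] at h2

theorem closed_W (hN : IsClosed (N : Set V)) (θ : Measure Y) [IsProbabilityMeasure θ] :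
    IsClosed (W U N θ : Set V) := by
  have := closedW U (fun _ : Unit => θ) isClosed_univ fun _ _ _ => continuousOn_const
  have h2 := hN.inter (this.preimage (Continuous.prodMk_right ()))
  convert h2 using 1
  ext v
  exact ⟨fun h => ⟨h.1, trivial, h.2⟩, fun h => ⟨h.1, h.2.2⟩⟩

variable [ProperSpace V] [IsUltrametricDist V]

theorem meas_bdd (hN : IsClosed (N : Set V)) {Θ : Kernel Y Y} [IsMarkovKernel Θ] {Q : Set Y}
    (hQ : IsCompact Q) (hc : ∀ φ : Y → ℝ, Continuous φ → HasCompactSupport φ →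
      ContinuousOn (fun z => ∫ w, φ w ∂Θ z) Q) {R : ℝ} (hR : 0 < R) :
    MeasurableSet {z | z ∈ Q ∧ ∀ v ∈ W U N (Θ z), ‖v‖ ≤ R} := by
  have h1 := closedW U (fun z => Θ z) hQ.isClosed hc
  have e : {z | z ∈ Q ∧ ∀ v ∈ W U N (Θ z), ‖v‖ ≤ R} = Q \ ⋃ n : ℕ, Prod.fst ''
      (Q ×ˢ ((Metric.closedBall (0 : V) n \ Metric.closedBall 0 R) ∩ N) ∩
        {q | q.1 ∈ Q ∧ (Θ q.1).map (U q.2) = Θ q.1}) := by
    ext z
    constructor
    · rintro ⟨a, b⟩
      refine ⟨a, fun h => ?_⟩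
      obtain ⟨n, q, ⟨c, d⟩, rfl⟩ := mem_iUnion.1 h
      exact c.2.1.2 (mem_closedBall_zero_iff.2 (b _ ⟨c.2.2, d.2⟩))
    · rintro ⟨a, b⟩
      refine ⟨a, fun v hv => ?_⟩
      by_contra hlt
      exact b (mem_iUnion.2 ⟨⌈‖v‖⌉₊, (z, v), ⟨⟨a, ⟨mem_closedBall_zero_iff.2 (Nat.le_ceil _),
        fun h' => hlt (mem_closedBall_zero_iff.1 h')⟩, hv.1⟩, a, hv.2⟩, rfl⟩)
  rw [e]
  refine hQ.measurableSet.diff (MeasurableSet.iUnion fun n => IsCompact.measurableSet ?_)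
  exact ((hQ.prod (((isCompact_closedBall _ _).diff
    (IsUltrametricDist.isOpen_closedBall _ hR.ne')).inter_right hN)).inter_right h1).image
      continuous_fst

theorem approx (hN : IsClosed (N : Set V)) {ν : Measure Y} [IsProbabilityMeasure ν]
    {Θ : Kernel Y Y} [IsMarkovKernel Θ] {Z : Set Y}
    (lusin : ∀ ε : ℝ≥0∞, 0 < ε → ∃ Q : Set Y, IsCompact Q ∧ Q ⊆ Z ∧ ν Qᶜ < ε ∧
      ∀ φ : Y → ℝ, Continuous φ → HasCompactSupport φ → ContinuousOn (fun z => ∫ w, φ w ∂Θ z) Q)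
    {ε : ℝ≥0∞} (hε : 0 < ε) :
    ∃ (Q : Set Y) (R : ℝ), IsCompact Q ∧ Q ⊆ Z ∧
      (∀ φ : Y → ℝ, Continuous φ → HasCompactSupport φ →
        ContinuousOn (fun z => ∫ w, φ w ∂Θ z) Q) ∧ 0 < R ∧
      (∀ z ∈ Q, ∀ v ∈ W U N (Θ z), ‖v‖ ≤ R) ∧
      ν ({z | ∃ R : ℝ, ∀ v ∈ W U N (Θ z), ‖v‖ ≤ R} \ Q) < ε + ε + ε := by
  obtain ⟨L, hL, hLZ, hLε, hLc⟩ := lusin ε hε
  let D : ℕ → Set Y := fun n => {z | z ∈ L ∧ ∀ v ∈ W U N (Θ z), ‖v‖ ≤ n + 1}
  have hD : ∀ n, MeasurableSet (D n) := fun n => meas_bdd U hN hL hLc (by positivity)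
  have hanti : Antitone fun n => (⋃ j, D j) \ D n := by
    intro a b hab z hz
    exact ⟨hz.1, fun h => hz.2 ⟨h.1, fun v hv => (h.2 v hv).trans (by gcongr)⟩⟩
  have hlim := tendsto_measure_iInter_atTop (μ := ν)
    (fun n => ((MeasurableSet.iUnion hD).diff (hD n)).nullMeasurableSet) hanti
    ⟨0, measure_ne_top _ _⟩
  have hemp : (⋂ n, (⋃ j, D j) \ D n) = ∅ := by
    refine eq_empty_of_forall_notMem fun z hz => ?_
    obtain ⟨j, hj⟩ := mem_iUnion.1 (mem_iInter.1 hz 0).1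
    exact (mem_iInter.1 hz j).2 hj
  rw [hemp, measure_empty] at hlim
  obtain ⟨n, hn⟩ := (hlim.eventually (gt_mem_nhds hε)).exists
  obtain ⟨Q, hQD, hQ, hQε⟩ := (hD n).exists_isCompact_sdiff_lt (μ := ν) (measure_ne_top _ _) hε.ne'
  refine ⟨Q, n + 1, hQ, fun z hz => hLZ (hQD hz).1,
    fun φ a b => (hLc φ a b).mono fun z hz => (hQD hz).1, by positivity,
    fun z hz v hv => (hQD hz).2 v hv, ?_⟩
  have hsub : {z | ∃ R : ℝ, ∀ v ∈ W U N (Θ z), ‖v‖ ≤ R} \ Q ⊆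
      Lᶜ ∪ ((⋃ j, D j) \ D n) ∪ (D n \ Q) := by
    rintro z ⟨⟨R, hR⟩, hz⟩
    by_cases h1 : z ∈ D n
    · exact Or.inr ⟨h1, hz⟩
    · by_cases h2 : z ∈ L
      · exact Or.inl (Or.inr ⟨mem_iUnion.2 ⟨⌈R⌉₊, h2, fun v hv =>
          (hR v hv).trans ((Nat.le_ceil R).trans (le_add_of_nonneg_right zero_le_one))⟩, h1⟩)
      · exact Or.inl (Or.inl h2)
  refine ((measure_mono hsub).trans (measure_union_le _ _)).trans_lt (ENNReal.add_lt_add ?_ hQε)
  exact (measure_union_le _ _).trans_lt (ENNReal.add_lt_add hLε hn)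

end flow

variable {l : ℕ} [Fact l.Prime] {ι : Type} [Fintype ι]

theorem exists_norm_eq [Nonempty ι] (v : ι → ℚ_[l]) : ∃ i, ‖v i‖ = ‖v‖ := by
  obtain ⟨i, hi⟩ := Finite.exists_max fun i => ‖v i‖
  exact ⟨i, le_antisymm (norm_le_pi_norm v i) ((pi_norm_le_iff_of_nonneg (norm_nonneg _)).2 hi)⟩

theorem line_of_unbdd [Nonempty ι] (N : AddSubgroup (ι → ℚ_[l]))
    (hN : IsClosed (N : Set (ι → ℚ_[l]))) (hu : ∀ R : ℝ, ∃ v ∈ N, R < ‖v‖) :
    ∃ e : ι → ℚ_[l], e ≠ 0 ∧ ∀ s : ℚ_[l], s • e ∈ N := by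
  have h1 : ∀ v ∈ N, ∀ s : ℚ_[l], ‖s‖ ≤ 1 → s • v ∈ N := by
    intro v hv s hs
    have hcl : IsClosed {x : ℤ_[l] | (x : ℚ_[l]) • v ∈ N} :=
      hN.preimage (f := fun x : ℤ_[l] => (x : ℚ_[l]) • v)
        (continuous_subtype_val.smul continuous_const)
    refine PadicInt.denseRange_intCast.induction_on (p := fun x : ℤ_[l] => (x : ℚ_[l]) • v ∈ N)
      (⟨s, hs⟩ : ℤ_[l]) hcl fun n => ?_
    rw [PadicInt.coe_intCast, Int.cast_smul_eq_zsmul]
    exact N.zsmul_mem hv n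
  choose v hv hv' using fun n : ℕ => hu n
  have h2 : ∀ n, ∃ c : ℚ_[l], ‖c‖ * ‖v n‖ = 1 := by
    intro n
    have h0 : ‖v n‖ ≠ 0 := ((Nat.cast_nonneg n).trans_lt (hv' n)).ne'
    obtain ⟨i, hi⟩ := exists_norm_eq (v n)
    exact ⟨(v n i)⁻¹, by rw [norm_inv, hi, inv_mul_cancel₀ h0]⟩
  choose c hc using h2
  obtain ⟨e, he, φ, hφ, hlim⟩ := (isCompact_sphere (0 : ι → ℚ_[l]) 1).tendsto_subseq
    (x := fun n => c n • v n) fun n => by simp [norm_smul, hc]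
  refine ⟨e, ?_, fun s => ?_⟩
  · rintro rfl
    simp at he
  · refine hN.mem_of_tendsto (hlim.const_smul s) ?_
    filter_upwards [eventually_ge_atTop ⌈‖s‖⌉₊] with n hn
    simp only [Function.comp, smul_smul]
    refine h1 _ (hv _) _ ?_
    have a1 : ‖s‖ ≤ ‖v (φ n)‖ :=
      ((Nat.le_ceil _).trans (Nat.cast_le.2 (hn.trans (hφ.id_le n)))).trans (hv' _).le
    rw [norm_mul, ← hc (φ n), mul_comm]
    exact mul_le_mul_of_nonneg_left a1 (norm_nonneg _)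

theorem poly_low {a b s : ℚ_[l]} {T L : ℝ} (hL : 0 < L) (h1 : L < ‖s‖) (h2 : ‖s‖ ≤ L * l)
    (h3 : L < ‖s - a / b‖) (h : T ≤ ‖a‖ * (L * l) ∨ (b ≠ 0 ∧ T ≤ ‖b‖ * (L * l) ^ 2)) :
    T ≤ ‖s * a - s ^ 2 * b‖ * (l : ℝ) ^ 2 := by
  have hl := Div.one_lt_l (l := l)
  have hl0 : (0 : ℝ) < l := by linarith
  set f := ‖s * a - s ^ 2 * b‖ with hf
  have f0 : 0 ≤ f := norm_nonneg _
  have f1 : ‖b‖ * ‖s‖ * L ≤ f := by
    by_cases hb : b = 0
    · simpa [hb] using f0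
    have : s * a - s ^ 2 * b = -(b * s * (s - a / b)) := by field_simp; ring
    rw [hf, this, norm_neg, norm_mul, norm_mul]
    gcongr
  have f2 : ‖s ^ 2 * b‖ ≤ f * l :=
    calc ‖s ^ 2 * b‖ = ‖b‖ * ‖s‖ * ‖s‖ := by rw [norm_mul, norm_pow]; ring
      _ ≤ ‖b‖ * ‖s‖ * (L * l) := by gcongr
      _ = ‖b‖ * ‖s‖ * L * l := by ring
      _ ≤ f * l := by gcongr
  rcases h with h | ⟨-, h⟩
  · have f3 : ‖s‖ * ‖a‖ ≤ f * l := by
      have := Padic.nonarchimedean (s * a - s ^ 2 * b) (s ^ 2 * b)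
      rw [sub_add_cancel, norm_mul] at this
      exact this.trans (max_le (le_mul_of_one_le_right f0 hl.le) f2)
    calc T ≤ ‖a‖ * (L * l) := h
      _ ≤ ‖a‖ * (‖s‖ * l) := by gcongr
      _ = ‖s‖ * ‖a‖ * l := by ring
      _ ≤ f * l * l := by gcongr
      _ = f * (l : ℝ) ^ 2 := by ring
  · calc T ≤ ‖b‖ * (L * l) ^ 2 := h
      _ = ‖b‖ * L * L * (l : ℝ) ^ 2 := by ring
      _ ≤ ‖b‖ * ‖s‖ * L * (l : ℝ) ^ 2 := by gcongr
      _ ≤ f * (l : ℝ) ^ 2 := by gcongr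

/-- Divergence of a vector of quadratic polynomials. -/
theorem poly [Nonempty ι] {α β : ι → ℚ_[l]} {T : ℝ} (hα : ‖α‖ < T) (hβ : ‖β‖ < T) (h : β ≠ 0) :
    ∃ (n : ℕ) (s₀ : ℚ_[l]), ∀ s : ℚ_[l], (l : ℝ) ^ n < ‖s‖ → ‖s‖ ≤ (l : ℝ) ^ (n + 1) →
      (l : ℝ) ^ n < ‖s - s₀‖ → T ≤ ‖s • α - s ^ 2 • β‖ * (l : ℝ) ^ 2 ∧
        ‖s • α‖ ≤ T * l ∧ ‖s ^ 2 • β‖ ≤ T * (l : ℝ) ^ 2 := by
  have hl := Div.one_lt_l (l := l)
  have hl0 : (0 : ℝ) < l := by linarith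
  have hb : 0 < ‖β‖ := norm_pos_iff.2 h
  have hT : 0 < T := hb.trans hβ
  have hex : ∃ n : ℕ, T ≤ ‖α‖ * (l : ℝ) ^ n ∨ T ≤ ‖β‖ * ((l : ℝ) ^ n) ^ 2 := by
    obtain ⟨n, hn⟩ := pow_unbounded_of_one_lt (T / ‖β‖) hl
    refine ⟨n, Or.inr ?_⟩
    have h1 : 1 ≤ (l : ℝ) ^ n := one_le_pow₀ hl.le
    rw [div_lt_iff₀ hb] at hn
    nlinarith
  classical
  have hN := Nat.find_spec hex
  have hN0 : Nat.find hex ≠ 0 := fun h0 => by
    rw [h0] at hN
    rcases hN with h' | h' <;> simp at h' <;> linarith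
  obtain ⟨n, hn⟩ := Nat.exists_eq_succ_of_ne_zero hN0
  have hmin := Nat.find_min hex (m := n) (by omega)
  rw [hn] at hN
  rw [not_or, not_le, not_le] at hmin
  set L := (l : ℝ) ^ n with hL
  have L0 : 0 < L := pow_pos hl0 n
  have eL : (l : ℝ) ^ n.succ = L * l := pow_succ _ _
  rw [eL] at hN
  obtain ⟨i, hi⟩ : ∃ i, T ≤ ‖α i‖ * (L * l) ∨ (β i ≠ 0 ∧ T ≤ ‖β i‖ * (L * l) ^ 2) := by
    rcases hN with h' | h'
    · obtain ⟨i, hi⟩ := exists_norm_eq α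
      exact ⟨i, Or.inl (hi ▸ h')⟩
    · obtain ⟨i, hi⟩ := exists_norm_eq β
      exact ⟨i, Or.inr ⟨norm_pos_iff.1 (hi ▸ hb), hi ▸ h'⟩⟩
  refine ⟨n, α i / β i, fun s h1 h2 h3 => ?_⟩
  rw [eL] at h2
  refine ⟨(poly_low L0 h1 h2 h3 hi).trans ?_, ?_, ?_⟩
  · gcongr
    exact norm_le_pi_norm (s • α - s ^ 2 • β) i
  · calc ‖s • α‖ = ‖α‖ * ‖s‖ := by rw [norm_smul, mul_comm]
      _ ≤ ‖α‖ * (L * l) := by gcongr
      _ = ‖α‖ * L * l := by ring
      _ ≤ T * l := by gcongr; exact hmin.1.le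
  · calc ‖s ^ 2 • β‖ = ‖β‖ * ‖s‖ ^ 2 := by rw [norm_smul, norm_pow, mul_comm]
      _ ≤ ‖β‖ * (L * l) ^ 2 := by gcongr
      _ = ‖β‖ * L ^ 2 * (l : ℝ) ^ 2 := by ring
      _ ≤ T * (l : ℝ) ^ 2 := by gcongr; exact hmin.2.le

end Pool.Agent.Lib.MP_9177b7_ag.J.LineU
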