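import Pool.Agent.Lib.MP_9177b7_ag.J.Marg1

/-!
Maximal entropy for the marginals, second part: boxes and tubes.
-/

open MeasureTheory ProbabilityTheory Filter Topology Set
open scoped MatrixGroups ENNReal NNReal Pointwise

noncomputable section

namespace Pool.Agent.Lib.MP_9177b7_ag.J.Marg

variable {l : ℕ} [Fact l.Prime]

theorem up_add (v w : ℚ_[l]) : up (v + w) = up v * up w := by
  ext i j
  fin_cases i <;> fin_cases j <;> simp [up, Matrix.mul_apply, Fin.sum_univ_two, add_comm]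

theorem up_zero : up (0 : ℚ_[l]) = 1 := by
  ext i j
  fin_cases i <;> fin_cases j <;> simp [up]

theorem dg_up (t : ℚ_[l]ˣ) (v : ℚ_[l]) : dg t * up v = up ((t : ℚ_[l]) ^ 2 * v) * dg t := by
  have := t.ne_zero
  ext i j
  fin_cases i <;> fin_cases j <;> simp [up, dg, Matrix.mul_apply, Fin.sum_univ_two]
  field_simp

theorem cont_up : Continuous fun v : ℚ_[l] => up v := by
  refine continuous_induced_rng.2 ?_
  refine continuous_matrix fun i j => ?_
  fin_cases i <;> fin_cases j <;> simp [up] <;> fun_prop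

theorem cont_entry (i j : Fin 2) : Continuous fun h : HH l => h i j :=
  (continuous_apply_apply i j).comp continuous_subtype_val

/-- Basic neighbourhoods of the identity. -/
def Nb (r : ℝ) : Set (HH l) := {h | ∀ i j, ‖h i j - (1 : Matrix (Fin 2) (Fin 2) ℚ_[l]) i j‖ < r}

theorem isOpen_Nb (r : ℝ) : IsOpen (Nb r : Set (HH l)) := by
  simp only [Nb, ofPred_forall]
  exact isOpen_iInter_of_finite fun i => isOpen_iInter_of_finite fun j =>
    isOpen_lt ((cont_entry i j).sub continuous_const).norm continuous_const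

theorem one_mem_Nb {r : ℝ} (hr : 0 < r) : (1 : HH l) ∈ Nb r := by
  intro i j
  simpa using hr

theorem exists_Nb {O : Set (HH l)} (hO : O ∈ 𝓝 1) : ∃ r, 0 < r ∧ r ≤ 1 ∧ Nb r ⊆ O := by
  obtain ⟨O', h1, h2⟩ := (mem_nhds_induced _ _ _).1 hO
  obtain ⟨r, hr, h3⟩ := (Metric.mem_nhds_iff (α := Fin 2 → Fin 2 → ℚ_[l])).1 h1
  refine ⟨min r 1, lt_min hr one_pos, min_le_right _ _, fun h hh => h2 (h3 ?_)⟩
  rw [Metric.mem_ball, dist_pi_lt_iff hr]
  intro i
  rw [dist_pi_lt_iff hr]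
  intro j
  rw [dist_eq_norm]
  exact (hh i j).trans_le (min_le_left _ _)

theorem Nb_le {r : ℝ} (hr : r ≤ 1) {h : HH l} (hh : h ∈ Nb r) (i j : Fin 2) : ‖h i j‖ ≤ 1 := by
  have e : h i j = (h i j - (1 : Matrix (Fin 2) (Fin 2) ℚ_[l]) i j) +
    (1 : Matrix (Fin 2) (Fin 2) ℚ_[l]) i j := by ring
  rw [e]
  refine (IsUltrametricDist.norm_add_le_max _ _).trans (max_le ((hh i j).le.trans hr) ?_)
  rw [Matrix.one_apply]
  split_ifs <;> simp

theorem Nb_unit {r : ℝ} (hr : r ≤ 1) {h : HH l} (hh : h ∈ Nb r) : ‖h 0 0‖ = 1 := by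
  refine le_antisymm (Nb_le hr hh 0 0) ?_
  by_contra hlt
  push Not at hlt
  have h1 := (hh 0 0).trans_le hr
  rw [Matrix.one_apply_eq, norm_sub_rev] at h1
  have e : (1 : ℚ_[l]) = (1 - h 0 0) + h 0 0 := by ring
  have h2 := IsUltrametricDist.norm_add_le_max (1 - h 0 0) (h 0 0)
  rw [← e, norm_one] at h2
  exact absurd h2 (not_le.2 (max_lt h1 hlt))

theorem Nb_base {r : ℝ} (hr : r ≤ 1) {h : HH l} (hh : h ∈ Nb r) :
    ∃ p ∈ Nb r, p 0 1 = 0 ∧ h = p * up (h 0 1 / h 0 0) := by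
  have h1 := Nb_unit hr hh
  have h0 : h 0 0 ≠ 0 := by
    intro h0
    simp [h0] at h1
  have hv : ‖h 0 1 / h 0 0‖ ≤ 1 := by
    rw [norm_div, h1, div_one]
    exact Nb_le hr hh 0 1
  have a := hh 0 0
  have b := hh 0 1
  have c := hh 1 0
  have d := hh 1 1
  have e01 : (h * up (-(h 0 1 / h 0 0))) 0 1 = 0 := by
    simp [up, Matrix.mul_apply, Fin.sum_univ_two]
    field_simp
    ring
  refine ⟨h * up (-(h 0 1 / h 0 0)), ?_, e01, ?_⟩
  · intro i j
    fin_cases i <;> fin_cases j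
    · simpa [up, Matrix.mul_apply, Fin.sum_univ_two] using a
    · simp only [Fin.zero_eta, Fin.mk_one, e01]
      simpa using (norm_nonneg _).trans_lt a
    · simpa [up, Matrix.mul_apply, Fin.sum_univ_two] using c
    · have e : (h * up (-(h 0 1 / h 0 0))) 1 1 - 1 =
          (h 1 1 - 1) + h 1 0 * (-(h 0 1 / h 0 0)) := by
        simp [up, Matrix.mul_apply, Fin.sum_univ_two]
        ring
      simp only [Fin.mk_one, Matrix.one_apply_eq, e]
      refine (IsUltrametricDist.norm_add_le_max _ _).trans_lt (max_lt (by simpa using d) ?_)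
      rw [norm_mul, norm_neg]
      refine (mul_le_of_le_one_right (norm_nonneg _) hv).trans_lt (by simpa using c)
  · rw [mul_assoc, ← up_add, neg_add_cancel, up_zero, mul_one]

theorem Nb_step {r : ℝ} {t : ℚ_[l]ˣ} (ht : 1 < ‖(t : ℚ_[l])‖) {p : HH l} (hp : p ∈ Nb r)
    (h0 : p 0 1 = 0) : ∃ q ∈ Nb r, q 0 1 = 0 ∧ dg t * p = q * dg t := by
  have ht0 := t.ne_zero
  have e : ∀ i j, (dg t * p * dg t⁻¹) i j =
      !![p 0 0, 0; ((t : ℚ_[l]) ^ 2)⁻¹ * p 1 0, p 1 1] i j := by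
    intro i j
    fin_cases i <;> fin_cases j <;>
      simp [dg, Matrix.mul_apply, Fin.sum_univ_two, -Matrix.cons_mul, h0] <;> field_simp
  refine ⟨dg t * p * dg t⁻¹, ?_, by simp [e], ?_⟩
  · intro i j
    rw [e]
    fin_cases i <;> fin_cases j
    · simpa using hp 0 0
    · simpa using (norm_nonneg _).trans_lt (hp 0 0)
    · have c := hp 1 0
      have : ‖((t : ℚ_[l]) ^ 2)⁻¹ * p 1 0‖ ≤ ‖p 1 0‖ := by
        rw [norm_mul, norm_inv, norm_pow]
        exact mul_le_of_le_one_left (norm_nonneg _)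
          (inv_le_one_of_one_le₀ (one_le_pow₀ ht.le))
      simpa using this.trans_lt (by simpa using c)
    · simpa using hp 1 1
  · have : dg t⁻¹ * dg t = 1 := by
      ext i j
      fin_cases i <;> fin_cases j <;> simp [dg, Matrix.mul_apply, Fin.sum_univ_two]
    rw [mul_assoc, this, mul_one]

theorem Nb_quot {r ρ : ℝ} (hr : r ≤ 1) {h h' : HH l} (hh : h ∈ Nb r) (hh' : h' ∈ Nb r)
    {w : ℚ_[l]} (hw : ‖h 0 1 - w * h 0 0‖ ≤ ρ) (hw' : ‖h' 0 1 - w * h' 0 0‖ ≤ ρ) :
    h' * h⁻¹ ∈ Kint l ∧ ‖(h' * h⁻¹) 0 1‖ ≤ ρ := by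
  have a := Nb_le hr hh
  have a' := Nb_le hr hh'
  have hi : ∀ i j, ‖h⁻¹ i j‖ ≤ 1 := by
    intro i j
    rw [Matrix.SpecialLinearGroup.SL2_inv_expl]
    fin_cases i <;> fin_cases j <;> simp [a]
  constructor
  · intro i j
    rw [Matrix.SpecialLinearGroup.coe_mul, Matrix.mul_apply, Fin.sum_univ_two]
    refine (IsUltrametricDist.norm_add_le_max _ _).trans (max_le ?_ ?_) <;> rw [norm_mul] <;>
      exact mul_le_one₀ (a' _ _) (norm_nonneg _) (hi _ _)
  · have e : (h' * h⁻¹) 0 1 =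
        h 0 0 * (h' 0 1 - w * h' 0 0) + -(h' 0 0 * (h 0 1 - w * h 0 0)) := by
      rw [Matrix.SpecialLinearGroup.coe_mul, Matrix.mul_apply, Fin.sum_univ_two,
        Matrix.SpecialLinearGroup.SL2_inv_expl]
      simp
      ring
    rw [e]
    refine (IsUltrametricDist.norm_add_le_max _ _).trans (max_le ?_ ?_)
    · rw [norm_mul]
      exact (mul_le_of_le_one_left (norm_nonneg _) (a _ _)).trans hw'
    · rw [norm_neg, norm_mul]
      exact (mul_le_of_le_one_left (norm_nonneg _) (a' _ _)).trans hw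

variable (S : Sp l)

theorem hs_mul (g h : HH l) (x : S.X) : S.hs (g * h) x = S.hs g (S.hs h x) := by
  simp only [Sp.hs, ← mul_smul, Prod.mk_mul_mk, mul_one]

theorem hs_one (x : S.X) : S.hs 1 x = x := one_smul S.G x

theorem cont_hs (h : HH l) : Continuous (S.hs h) := continuous_const_smul ((h, 1) : S.G)

theorem cont_U : Continuous fun p : S.X × ℚ_[l] => S.hs (up p.2) p.1 :=
  ((cont_up.comp continuous_snd).prodMk continuous_const).smul continuous_fst

theorem hU (v w : ℚ_[l]) (x : S.X) : S.hs (up (v + w)) x = S.hs (up v) (S.hs (up w) x) := by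
  rw [up_add, hs_mul]

theorem hT (t : ℚ_[l]ˣ) (v : ℚ_[l]) (x : S.X) :
    S.hs (dg t) (S.hs (up v) x) = S.hs (up ((t : ℚ_[l]) ^ 2 * v)) (S.hs (dg t) x) := by
  rw [← hs_mul, dg_up, hs_mul]

theorem cs_hs {F : S.X → ℝ} (hc : HasCompactSupport F) (h : HH l) :
    HasCompactSupport fun x => F (S.hs h x) :=
  hc.comp_homeomorph (Homeomorph.smul ((h, 1) : S.G))

theorem isOpen_orbit {W : Set S.G} (hW : IsOpen W) (x : S.X) :
    IsOpen ((fun g : S.G => g • x) '' W) := by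
  obtain ⟨g₀, rfl⟩ := S.surj x
  have : (fun g : S.G => g • g₀ • S.o) = (fun g : S.G => g • S.o) ∘ fun g => g * g₀ := by
    funext g
    simp [mul_smul]
  rw [this, image_comp]
  exact S.opn _ (isOpenMap_mul_right g₀ _ hW)

theorem unif {F : S.X → ℝ} (hF : Continuous F) (hc : HasCompactSupport F) {η : ℝ} (hη : 0 < η) :
    ∀ᶠ g in 𝓝 (1 : S.G), ∀ x, |F (g • x) - F x| ≤ η := by
  have h1 : ∀ᶠ g in 𝓝 (1 : S.G), ∀ x ∈ tsupport F, |F (g • x) - F x| < η := by
    refine hc.isCompact.eventually_forall_of_forall_eventually fun x _ => ?_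
    have : Continuous fun p : S.G × S.X => |F (p.1 • p.2) - F p.2| := by fun_prop
    exact this.continuousAt.eventually_lt continuousAt_const (by simpa using hη)
  have h2 : ∀ᶠ g in 𝓝 (1 : S.G), ∀ x ∈ tsupport F, |F (g⁻¹ • x) - F x| < η := by
    have : Tendsto (fun g : S.G => g⁻¹) (𝓝 1) (𝓝 1) := by
      simpa using (continuous_inv (G := S.G)).tendsto 1
    exact this.eventually h1
  filter_upwards [h1, h2] with g a b x
  by_cases hx : x ∈ tsupport F
  · exact (a x hx).le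
  · by_cases hy : g • x ∈ tsupport F
    · have := b _ hy
      rw [inv_smul_smul, abs_sub_comm] at this
      exact this.le
    · rw [image_eq_zero_of_notMem_tsupport hx, image_eq_zero_of_notMem_tsupport hy]
      simpa using hη.le

theorem shadow {r : ℝ} (hr : r ≤ 1) {t : ℚ_[l]ˣ} (ht : 1 < ‖(t : ℚ_[l])‖) {h : HH l}
    (hh : h ∈ Nb r) (c : S.C) (x : S.X) (i : ℕ) :
    ∃ p ∈ Nb r, p 0 1 = 0 ∧ (S.hs (dg t))^[i] (((h, c) : S.G) • x) =
      ((p, c) : S.G) • (S.hs (dg t))^[i] (S.hs (up (h 0 1 / h 0 0)) x) := by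
  induction i with
  | zero =>
    obtain ⟨p, h1, h2, h3⟩ := Nb_base hr hh
    refine ⟨p, h1, h2, ?_⟩
    simp only [Function.iterate_zero, id, Sp.hs, ← mul_smul, Prod.mk_mul_mk, mul_one, ← h3]
  | succ i ih =>
    obtain ⟨p, h1, h2, h3⟩ := ih
    obtain ⟨q, a1, a2, a3⟩ := Nb_step ht h1 h2
    refine ⟨q, a1, a2, ?_⟩
    rw [Function.iterate_succ_apply', Function.iterate_succ_apply', h3]
    generalize (S.hs (dg t))^[i] (S.hs (up (h 0 1 / h 0 0)) x) = y
    simp only [Sp.hs, ← mul_smul, Prod.mk_mul_mk, mul_one, one_mul, a3]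

end Pool.Agent.Lib.MP_9177b7_ag.J.Marg
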