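import Pool.Agent.Lib.MP_9177b7_ag.J.DefsU
import Pool.Agent.Lib.MP_9177b7_ag.J.Div
import Pool.Agent.Lib.MP_9177b7_ag.J.Marg2
import Pool.Agent.Lib.MP_9177b7_ag.J.LineU1

/-!
Polynomial divergence with frozen coordinates.
-/

open MeasureTheory ProbabilityTheory Filter Topology Set
open scoped MatrixGroups ENNReal NNReal Pointwise

noncomputable section

namespace Pool.Agent.Lib.MP_9177b7_ag.J

namespace LineU

variable {l : ℕ} [Fact l.Prime] (S : Sp l) {ι : Type}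

/-- The flow of upper unipotents. -/
def U (ι : Type) : Flow (ι → ℚ_[l]) (ι → S.X) where
  toFun v := S.hN fun i => up (v i)
  cont' := continuous_pi fun i => by
    have h : Continuous fun p : (ι → ℚ_[l]) × (ι → S.X) => (p.2 i, p.1 i) := by fun_prop
    exact (Marg.cont_U S).comp h
  map_add' v w z := funext fun i => Marg.hU S (v i) (w i) (z i)
  map_zero' z := funext fun i => by
    show S.hs (up 0) (z i) = z i
    rw [Marg.up_zero, Marg.hs_one]

theorem ln_eq (y : ι → ℚ_[l]) (s : ℚ_[l]) : S.ln y s = U S ι (s • y) := rfl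

/-- The vectors that vanish on `A`. -/
def Fr (l : ℕ) [Fact l.Prime] (A : Set ι) : AddSubgroup (ι → ℚ_[l]) where
  carrier := {v | ∀ i ∈ A, v i = 0}
  zero_mem' _ _ := rfl
  add_mem' h h' i hi := by rw [Pi.add_apply, h i hi, h' i hi, add_zero]
  neg_mem' h i hi := by rw [Pi.neg_apply, h i hi, neg_zero]

theorem closed_Fr (A : Set ι) : IsClosed (Fr l A : Set (ι → ℚ_[l])) := by
  have : (Fr l A : Set (ι → ℚ_[l])) = ⋂ i ∈ A, {v | v i = 0} := by
    ext v; simp only [mem_iInter]; rfl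
  rw [this]
  exact isClosed_biInter fun i _ => isClosed_eq (continuous_apply i) continuous_const

variable [Fintype ι]

/-- Close pairs of points with the same frozen coordinates, in general position. -/
theorem pairs (hN : NullStmt) {μ : Measure S.X} [IsProbabilityMeasure μ] (hB : S.Bound μ)
    {θ : Measure (ι → S.X)} {A : Set ι} {j : ι} (hj : j ∉ A) (hI : S.Ind μ A j θ)
    {G : Set (ι → S.X)} (hG : IsCompact G) (h0 : 0 < θ G) {O : Set (ι → S.G)}
    (hO : O ∈ 𝓝 (1 : ι → S.G)) : ∃ w ∈ G, ∃ η ∈ O, (fun i => η i • w i) ∈ G ∧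
      (∀ i ∈ A, η i = 1) ∧ (η j).1 1 0 ≠ 0 := by
  classical
  by_contra hc
  obtain ⟨O₁, hO₁, hO'⟩ : ∃ O₁ ∈ 𝓝 (1 : S.G), ∀ η : ι → S.G, (∀ i, η i ∈ O₁) → η ∈ O := by
    rw [nhds_pi, Filter.mem_pi] at hO
    obtain ⟨I, -, t, ht, h⟩ := hO
    exact ⟨⋂ i, t i, iInter_mem.2 ht, fun η hη => h fun i _ => mem_iInter.1 (hη i) i⟩
  obtain ⟨Ω, hΩ, hΩO, hΩc⟩ := local_compact_nhds hO₁
  obtain ⟨V, hV, hVΩ⟩ := exists_nhds_split_inv hΩ
  obtain ⟨K, hK, hKV, hKc⟩ := local_compact_nhds hV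
  let Box : (ι → S.X) → Set (ι → S.X) := fun z => pi univ fun i => (fun g : S.G => g • z i) '' K
  have hBc : ∀ z, IsCompact (Box z) := fun z =>
    isCompact_univ_pi fun i => hKc.image (continuous_id.smul continuous_const)
  have hBn : ∀ z, Box z ∈ 𝓝 z := fun z => set_pi_mem_nhds finite_univ fun i _ =>
    mem_of_superset ((Marg.isOpen_orbit S isOpen_interior (z i)).mem_nhds
      ⟨1, mem_interior_iff_mem_nhds.2 hK, one_smul _ _⟩) (image_mono interior_subset)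
  obtain ⟨T, -, hT⟩ := hG.elim_nhds_subcover Box fun z _ => hBn z
  obtain ⟨μA, hμA, hθ⟩ := hI
  have hπ : Continuous fun w : ι → S.X => ((fun i : A => w i), w j) :=
    (continuous_pi fun i => continuous_apply _).prodMk (continuous_apply j)
  have key : ∀ z, θ (G ∩ Box z) = 0 := fun z => by
    have hm := ((hG.inter (hBc z)).image hπ).measurableSet
    refine measure_mono_null (subset_preimage_image
      (fun w : ι → S.X => ((fun i : A => w i), w j)) _) ?_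
    rw [← Measure.map_apply hπ.measurable hm, hθ, Measure.prod_apply hm]
    refine (lintegral_congr fun a => ?_).trans lintegral_zero
    rcases (Prod.mk a ⁻¹' ((fun w : ι → S.X => ((fun i : A => w i), w j)) ''
      (G ∩ Box z))).eq_empty_or_nonempty with h | ⟨x, w, hw, e⟩
    · rw [h, measure_empty]
    refine measure_mono_null ?_ (hN l S μ hB (w j) Ω hΩc)
    rintro x' ⟨w', hw', e'⟩
    choose k hk hk' using fun i => hw.2 i (mem_univ i)
    choose k' hk₁ hk₂ using fun i => hw'.2 i (mem_univ i)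
    have hm : ∀ i, (k' i / k i) • w i = w' i := fun i => by
      rw [← hk' i, ← hk₂ i, smul_smul, div_mul_cancel]
    have hin : ∀ i, k' i / k i ∈ Ω := fun i => hVΩ _ (hKV (hk₁ i)) _ (hKV (hk i))
    refine ⟨k' j / k j, ⟨hin j, ?_⟩, (hm j).trans (congrArg Prod.snd e')⟩
    by_contra hne
    refine hc ⟨w, hw.1, fun i => if i ∈ A then 1 else k' i / k i, hO' _ fun i => ?_, ?_,
      fun i hi => if_pos hi, by simpa only [if_neg hj] using hne⟩
    · split_ifs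
      · exact mem_of_mem_nhds hO₁
      · exact hΩO (hin i)
    · convert hw'.1 using 1
      funext i
      beta_reduce
      split_ifs with hi
      · rw [one_smul]
        exact congrFun ((congrArg Prod.fst e).trans (congrArg Prod.fst e').symm) ⟨i, hi⟩
      · exact hm i
  refine h0.ne' (measure_mono_null (t := ⋃ z ∈ T, G ∩ Box z) (fun w hw => ?_)
    ((measure_biUnion_null_iff T.countable_toSet).2 fun z _ => key z))
  obtain ⟨z, hz, h⟩ := mem_iUnion₂.1 (hT hw)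
  exact mem_iUnion₂.2 ⟨z, hz, hw, h⟩

/-- The limit of the displacements. -/
theorem limit {𝓕 : Filter ℕ} {x : ℕ → ℚ_[l]} {e : ℕ → HH l} {q : ℚ_[l]} (he : Tendsto e 𝓕 (𝓝 1))
    (hq : Tendsto (fun n => x n * (e n 1 1 - e n 0 0) - x n ^ 2 * e n 1 0) 𝓕 (𝓝 q)) {C : ℝ}
    (hC : ∀ᶠ n in 𝓕, ‖x n ^ 2 * e n 1 0‖ ≤ C) :
    Tendsto (fun n => up (x n) * e n * (up (x n))⁻¹) 𝓕 (𝓝 (up q)) := by
  have ent : ∀ i j, Tendsto (fun n => e n i j) 𝓕 (𝓝 ((1 : HH l) i j)) := fun i j =>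
    ((Div.cont_entry i j).tendsto 1).comp he
  have e00 : Tendsto (fun n => e n 0 0) 𝓕 (𝓝 1) := by simpa using ent 0 0
  have e01 : Tendsto (fun n => e n 0 1) 𝓕 (𝓝 0) := by simpa using ent 0 1
  have e10 : Tendsto (fun n => e n 1 0) 𝓕 (𝓝 0) := by simpa using ent 1 0
  have e11 : Tendsto (fun n => e n 1 1) 𝓕 (𝓝 1) := by simpa using ent 1 1
  have xr : Tendsto (fun n => x n * e n 1 0) 𝓕 (𝓝 0) := by
    rw [tendsto_zero_iff_norm_tendsto_zero]
    have h1 : Tendsto (fun n => √(C * ‖e n 1 0‖)) 𝓕 (𝓝 0) := by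
      have := ((e10.norm).const_mul C).sqrt
      rwa [norm_zero, mul_zero, Real.sqrt_zero] at this
    refine squeeze_zero' (Eventually.of_forall fun n => norm_nonneg _)
      (hC.mono fun n h => Real.le_sqrt_of_sq_le ?_) h1
    calc ‖x n * e n 1 0‖ ^ 2 = ‖x n ^ 2 * e n 1 0‖ * ‖e n 1 0‖ := by
          rw [norm_mul, norm_mul, norm_pow]; ring
      _ ≤ _ := by gcongr
  refine Div.tendsto_SL fun i j => ?_
  fin_cases i <;> fin_cases j
  · have := e00.add xr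
    rw [add_zero] at this
    exact this.congr fun n => (Div.conj_up _ _).1.symm
  · have := e01.add hq
    rw [zero_add] at this
    exact this.congr fun n => (Div.conj_up _ _).2.1.symm
  · exact e10.congr fun n => (Div.conj_up _ _).2.2.1.symm
  · have := e11.sub xr
    rw [sub_zero] at this
    exact this.congr fun n => (Div.conj_up _ _).2.2.2.symm

/-- The divergence argument for one component. -/
theorem core (hl : l ≠ 2) {Θ : Kernel (ι → S.X) (ι → S.X)} [IsMarkovKernel Θ]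
    {Z Q G : Set (ι → S.X)} {y : ι → ℚ_[l]} {A : Set ι} {j : ι} (hy : y j ≠ 0)
    (equi : ∀ v z, z ∈ Z → S.hN v z ∈ Z → Θ (S.hN v z) = (Θ z).map (S.hN v))
    (hQ : IsCompact Q) (hZ : Q ⊆ Z)
    (hc : ∀ φ : (ι → S.X) → ℝ, Continuous φ → HasCompactSupport φ →
      ContinuousOn (fun z => ∫ w, φ w ∂Θ z) Q) {R : ℝ} (hR : 0 < R)
    (hW : ∀ z ∈ Q, ∀ v ∈ W (U S ι) (Fr l A) (Θ z), ‖v‖ ≤ R) {θ : Measure (ι → S.X)}
    (m : Measure ℚ_[l]) [m.IsAddHaarMeasure]
    (hG : ∀ w ∈ G, w ∈ Z ∧ Θ w = θ ∧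
      ∀ n, 10 * m ({s | U S ι (s • y) w ∉ Q} ∩ Div.bl l n) ≤ m (Div.bl l n))
    (hp : ∀ O ∈ 𝓝 (1 : ι → S.G), ∃ w ∈ G, ∃ η ∈ O, (fun i => η i • w i) ∈ G ∧
      (∀ i ∈ A, η i = 1) ∧ (η j).1 1 0 ≠ 0) : False := by
  have : Nonempty ι := ⟨j⟩
  obtain ⟨O, hO⟩ := (𝓝 (1 : ι → S.G)).exists_antitone_basis
  choose w hw η hη hw' hA hne using fun n => hp (O n) (hO.mem n)
  let 𝒰 : Ultrafilter ℕ := hyperfilter ℕ
  have hU : (𝒰 : Filter ℕ) ≤ atTop := by
    rw [← Nat.cofinite_eq_atTop]; exact hyperfilter_le_cofinite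
  have cpt : ∀ {Z : Type} [TopologicalSpace Z] {C : Set Z} {f : ℕ → Z}, IsCompact C →
      (∀ᶠ n in 𝒰, f n ∈ C) → ∃ z ∈ C, Tendsto f 𝒰 (𝓝 z) := fun {Z} _ {C} {f} hC hf =>
    hC.ultrafilter_le_nhds (𝒰.map f) (le_principal_iff.2 hf)
  have ηl : ∀ i, Tendsto (fun n => η n i) 𝒰 (𝓝 1) :=
    tendsto_pi_nhds.1 ((hO.tendsto hη).mono_left hU)
  have el : ∀ i, Tendsto (fun n => (η n i).1) 𝒰 (𝓝 1) := fun i =>
    (continuous_fst.tendsto (1 : S.G)).comp (ηl i)
  have ent : ∀ i a b, Tendsto (fun n => (η n i).1 a b) 𝒰 (𝓝 ((1 : HH l) a b)) := fun i a b =>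
    ((Div.cont_entry a b).tendsto 1).comp (el i)
  let α : ℕ → ι → ℚ_[l] := fun n i => y i * ((η n i).1 1 1 - (η n i).1 0 0)
  let β : ℕ → ι → ℚ_[l] := fun n i => y i ^ 2 * (η n i).1 1 0
  have hl1 := Div.one_lt_l (l := l)
  set T : ℝ := (R + 1) * (l : ℝ) ^ 2 with hT
  have T0 : 0 < T := by positivity
  have αl : Tendsto α 𝒰 (𝓝 0) := tendsto_pi_nhds.2 fun i => by
    simpa using ((ent i 1 1).sub (ent i 0 0)).const_mul (y i)
  have βl : Tendsto β 𝒰 (𝓝 0) := tendsto_pi_nhds.2 fun i => by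
    simpa using (ent i 1 0).const_mul (y i ^ 2)
  have v4 : ∀ᶠ n in 𝒰, ∃ s : ℚ_[l], U S ι (s • y) (w n) ∈ Q ∧
      U S ι (s • y) (fun i => η n i • w n i) ∈ Q ∧ T ≤ ‖s • α n - s ^ 2 • β n‖ * (l : ℝ) ^ 2 ∧
        ‖s • α n‖ ≤ T * l ∧ ‖s ^ 2 • β n‖ ≤ T * (l : ℝ) ^ 2 := by
    filter_upwards [αl.norm.eventually_lt_const (norm_zero.trans_lt T0),
      βl.norm.eventually_lt_const (norm_zero.trans_lt T0)] with n h1 h2
    obtain ⟨N, s₀, hs⟩ := poly h1 h2
      (Function.ne_iff.2 ⟨j, mul_ne_zero (pow_ne_zero 2 hy) (hne n)⟩)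
    obtain ⟨s, s1, s2, s3, s4, s5⟩ := Div.pick hl m N s₀ ((hG _ (hw n)).2.2 (N + 1))
      ((hG _ (hw' n)).2.2 (N + 1))
    exact ⟨s, not_not.1 s1, not_not.1 s2, hs s s3 s4 s5⟩
  obtain ⟨s, hs⟩ := v4.choice
  obtain ⟨P, hP, Pl⟩ := cpt hQ (hs.mono fun n h => h.1)
  obtain ⟨P', hP', Pl'⟩ := cpt hQ (hs.mono fun n h => h.2.1)
  obtain ⟨q, -, ql⟩ := cpt (isCompact_closedBall (0 : ι → ℚ_[l]) (T * l + T * (l : ℝ) ^ 2))
    (f := fun n => s n • α n - s n ^ 2 • β n) (hs.mono fun n h => mem_closedBall_zero_iff.2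
      ((norm_sub_le _ _).trans (add_le_add h.2.2.2.1 h.2.2.2.2)))
  have q1 : R + 1 ≤ ‖q‖ := le_of_mul_le_mul_right
    (ge_of_tendsto (ql.norm.mul_const _) (hs.mono fun n h => h.2.2.1)) (by positivity)
  have qA : q ∈ Fr l A := (closed_Fr A).mem_of_tendsto ql (Eventually.of_forall fun n i hi => by
    simp [α, β, hA n i hi])
  have eq : P' = U S ι q P := by
    funext i
    have h1 := limit (x := fun n => s n * y i) (el i) (q := q i)
      ((tendsto_pi_nhds.1 ql i).congr fun n => by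
        simp only [α, β, Pi.sub_apply, Pi.smul_apply, smul_eq_mul]; ring)
      (C := T * (l : ℝ) ^ 2) (hs.mono fun n h => le_trans (le_of_eq (by
        simp only [β, Pi.smul_apply, smul_eq_mul]; congr 1; ring))
          ((norm_le_pi_norm (s n ^ 2 • β n) i).trans h.2.2.2.2))
    have h2 := (h1.prodMk_nhds ((continuous_snd.tendsto (1 : S.G)).comp (ηl i))).smul
      (tendsto_pi_nhds.1 Pl i)
    refine tendsto_nhds_unique (tendsto_pi_nhds.1 Pl' i) (h2.congr fun n => ?_)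
    show _ • ((up (s n * y i), 1) : S.G) • w n i = ((up (s n * y i), 1) : S.G) • η n i • w n i
    rw [smul_smul, smul_smul]
    congr 1
    exact Prod.ext (by simp) (by simp)
  have hΘ : Θ P' = Θ P := ext_cc fun φ a b => by
    have h1 := (hc φ a b P hP).tendsto.comp (tendsto_nhdsWithin_iff.2 ⟨Pl, hs.mono fun n h => h.1⟩)
    have h2 := (hc φ a b P' hP').tendsto.comp
      (tendsto_nhdsWithin_iff.2 ⟨Pl', hs.mono fun n h => h.2.1⟩)
    refine tendsto_nhds_unique h2 (h1.congr' (hs.mono fun n h => ?_))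
    have a1 := equi _ _ (hG _ (hw n)).1 (hZ h.1)
    have a2 := equi _ _ (hG _ (hw' n)).1 (hZ h.2.1)
    rw [(hG _ (hw n)).2.1] at a1
    rw [(hG _ (hw' n)).2.1] at a2
    exact congrArg (fun ρ => ∫ w, φ w ∂ρ) (a1.trans a2.symm)
  rw [eq] at hΘ hP'
  have := hW P hP q ⟨qA, (equi _ _ (hZ hP) (hZ hP')).symm.trans hΘ⟩
  linarith

end LineU

open LineU in
theorem lineU : NullStmt → LineUStmt := by
  intro hN l _ hl S μ ι _ ν Θ Z y A j hj hy hμ hB hν hD hA hI
  have := hD.markov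
  have : Nonempty ι := ⟨j⟩
  set E : Set (ι → S.X) := {z | ∃ R : ℝ, ∀ v ∈ W (U S ι) (Fr l A) (Θ z), ‖v‖ ≤ R} with hEdef
  suffices hE : ν E = 0 by
    filter_upwards [measure_eq_zero_iff_ae_notMem.1 hE] with z hz
    obtain ⟨e, he, h⟩ := line_of_unbdd (W (U S ι) (Fr l A) (Θ z))
      (closed_W _ (closed_Fr A) _) fun R => by
        by_contra h
        push Not at h
        exact hz ⟨R, h⟩
    exact ⟨e, he, fun i hi => by simpa using (h 1).1 i hi, fun s => (h s).2⟩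
  by_contra hE
  obtain ⟨Q, R, hQ, hZ, hc, hR, hW, hQε⟩ := approx (U S ι) (closed_Fr A) hD.lusin (ε := ν E / 30)
    (ENNReal.div_pos hE (by simp))
  set F := toMeasurable ν ((E \ Q) ∪ Zᶜ) with hF
  have hFν : 10 * ν F < ν E := by
    rw [hF, measure_toMeasurable]
    have h1 : ν ((E \ Q) ∪ Zᶜ) ≤ ν (E \ Q) :=
      (measure_union_le _ _).trans (le_of_eq (by rw [show ν Zᶜ = 0 from hD.full, add_zero]))
    refine (ENNReal.mul_lt_mul_right (by simp) (by simp) (h1.trans_lt hQε)).trans_le (le_of_eq ?_)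
    calc _ = 30 * (ν E / 30) := by ring
      _ = ν E := ENNReal.mul_div_cancel (by simp) (by simp)
  let m : Measure ℚ_[l] := Measure.addHaar
  obtain ⟨mB, νB⟩ := Div.maximal m (Div.bl l) Div.bl_mono Div.bl_meas (Div.bl_ne_zero m)
    (Div.bl_ne_top m) ν (A := fun s => U S ι (s • y))
    ((U S ι).continuous (continuous_snd.smul continuous_const) continuous_fst).measurable hA
    (fun s t w => by rw [add_smul, Flow.map_add]) (measurableSet_toMeasurable ν ((E \ Q) ∪ Zᶜ)) 10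
  set B := {w | ∃ n, m (Div.bl l n) < 10 * m ({t | U S ι (t • y) w ∈ F} ∩ Div.bl l n)} with hBdef
  obtain ⟨z, hzE, hz1, hz2, hz3⟩ : ∃ z ∈ E, (∀ᵐ w ∂Θ z, Θ w = Θ z ∧ w ∈ Z) ∧ S.Ind μ A j (Θ z) ∧
      Θ z B < 1 := by
    by_contra h
    push Not at h
    have h1 : ν E ≤ ν {z | (1 : ℝ≥0∞) ≤ Θ z B} := by
      refine measure_mono_ae ?_
      filter_upwards [hD.typ, hI] with z a b hz
      exact h z hz a b
    have h2 := mul_meas_ge_le_lintegral (μ := ν) (Θ.measurable_coe mB) 1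
    rw [one_mul, ← Measure.bind_apply mB Θ.measurable.aemeasurable, hD.bind] at h2
    exact absurd ((h1.trans h2).trans νB) (not_le.2 hFν)
  set N₀ := toMeasurable (Θ z) {w | ¬ (Θ w = Θ z ∧ w ∈ Z)} with hN₀
  have mN : MeasurableSet (B ∪ N₀) := mB.union (measurableSet_toMeasurable _ _)
  have pos : 0 < Θ z (B ∪ N₀)ᶜ := by
    refine pos_iff_ne_zero.2 fun h0 => hz3.not_ge ?_
    rw [← (prob_compl_eq_zero_iff mN).1 h0]
    refine (measure_union_le _ _).trans (le_of_eq ?_)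
    rw [hN₀, measure_toMeasurable, show Θ z {w | ¬ (Θ w = Θ z ∧ w ∈ Z)} = 0 from hz1, add_zero]
  obtain ⟨G, hG, cG, pG⟩ := mN.compl.exists_lt_isCompact_of_ne_top (measure_ne_top _ _) pos
  refine core S hl hy hD.equi hQ hZ hc hR hW (θ := Θ z) m (G := G) (fun w hw => ?_)
    fun O hO => pairs S hN hB hj hz2 cG pG hO
  obtain ⟨h1, h2⟩ := not_or.1 (hG hw)
  obtain ⟨h3, h4⟩ : Θ w = Θ z ∧ w ∈ Z := not_not.1 fun h => h2 (subset_toMeasurable _ _ h)
  refine ⟨h4, h3, fun n => le_trans (mul_le_mul_right (measure_mono ?_) _)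
    (not_lt.1 fun h => h1 ⟨n, h⟩)⟩
  refine fun s hs => ⟨subset_toMeasurable _ _ ?_, hs.2⟩
  by_cases h5 : U S ι (s • y) w ∈ Z
  · obtain ⟨R', hR'⟩ := hzE
    refine Or.inl ⟨⟨R', fun v hv => hR' v (W_map _ _ (s • y) ?_)⟩, hs.1⟩
    have h6 : Θ (U S ι (s • y) w) = (Θ w).map (U S ι (s • y)) := hD.equi _ _ h4 h5
    rwa [h6, h3] at hv
  · exact Or.inr h5

end Pool.Agent.Lib.MP_9177b7_ag.J
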