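import Pool.Agent.Lib.MP_9177b7_ag.J.DefsU
import Pool.Agent.Lib.MP_9177b7_ag.J.Hom
import Pool.Agent.Lib.MP_9177b7_ag.J.Disc
import Pool.Agent.Lib.MP_9177b7_ag.J.Uniq
import Pool.Agent.Lib.MP_9177b7_ag.J.Pol

/-!
Mixing properties of the homogeneous measure of the `S`-arithmetic quotient.
-/

open MeasureTheory ProbabilityTheory Filter Topology Set Pointwise
open scoped MatrixGroups ENNReal NNReal

noncomputable section

namespace Pool.Agent.Lib.MP_9177b7_ag.J

namespace Mix

/-- Invariance under an ergodic family in each single coordinate gives the product measure. -/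
theorem pi_of_coord {X P κ : Type} [MeasurableSpace X] [Fintype κ] [DecidableEq κ] (μ : Measure X)
    [IsProbabilityMeasure μ] (T : P → X → X) (hT : ∀ p, Measurable (T p)) (hE : ErgF μ T)
    (lam : Measure (κ → X)) (hle : lam ≤ Measure.pi fun _ : κ => μ)
    (hinv : ∀ i p, lam.map (fun z => Function.update z i (T p (z i))) = lam) :
    lam = lam univ • Measure.pi fun _ : κ => μ := by
  have hfin : IsFiniteMeasure lam := isFiniteMeasure_of_le _ hle
  have key : ∀ (A : κ → Set X), (∀ i, MeasurableSet (A i)) → ∀ s : Finset κ,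
      lam (Set.pi (s : Set κ) A) = lam univ * ∏ i ∈ s, μ (A i) := by
    intro A hA s
    induction s using Finset.induction_on with
    | empty => simp
    | insert i s hi ih =>
      have hB : MeasurableSet (Set.pi (s : Set κ) A) :=
        MeasurableSet.pi s.countable_toSet fun j _ => hA j
      have hev : Measurable fun z : κ → X => z i := measurable_pi_apply i
      have hle' : (lam.restrict (Set.pi (s : Set κ) A)).map (fun z => z i) ≤ μ := by
        have h1 : (Measure.pi fun _ : κ => μ).map (fun z => z i) = μ :=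
          (measurePreserving_eval (fun _ : κ => μ) i).map_eq
        rw [← h1]
        exact Measure.map_mono (Measure.restrict_le_self.trans hle) hev
      have hi' : ∀ p, ((lam.restrict (Set.pi (s : Set κ) A)).map (fun z => z i)).map (T p) =
          (lam.restrict (Set.pi (s : Set κ) A)).map (fun z => z i) := fun p => by
        have hm : Measurable fun z : κ → X => Function.update z i (T p (z i)) :=
          measurable_update'.comp (measurable_id.prodMk ((hT p).comp hev))
        have e1 : (fun z : κ → X => Function.update z i (T p (z i))) ⁻¹' (Set.pi (s : Set κ) A) =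
            Set.pi (s : Set κ) A := by
          ext z
          simp only [mem_preimage, Set.mem_pi, Finset.mem_coe]
          refine forall₂_congr fun j hj => ?_
          rw [Function.update_of_ne (ne_of_mem_of_not_mem hj hi)]
        have e2 : lam.restrict (Set.pi (s : Set κ) A) = (lam.restrict (Set.pi (s : Set κ) A)).map
            (fun z : κ → X => Function.update z i (T p (z i))) := by
          conv_lhs => rw [← hinv i p, Measure.restrict_map hm hB, e1]
        conv_rhs => rw [e2]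
        rw [Measure.map_map (hT p) hev, Measure.map_map hev hm]
        congr 1
        funext z
        simp
      have h3 := congrArg (fun m : Measure X => m (A i)) (hE _ hle' hi')
      simp only [Measure.smul_apply, smul_eq_mul] at h3
      rw [Measure.map_apply hev (hA i), Measure.map_apply hev MeasurableSet.univ,
        Measure.restrict_apply (hev (hA i)), preimage_univ, Measure.restrict_apply_univ, ih] at h3
      rw [Finset.coe_insert, insert_pi, Finset.prod_insert hi, mul_comm (μ (A i)), ← mul_assoc,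
        ← h3]
  by_cases h0 : lam univ = 0
  · rw [h0, zero_smul]
    exact Measure.measure_univ_eq_zero.1 h0
  · have h1 : (Measure.pi fun _ : κ => μ) = (lam univ)⁻¹ • lam := by
      refine Measure.pi_eq fun A hA => ?_
      have := key A hA Finset.univ
      rw [Finset.coe_univ] at this
      rw [Measure.smul_apply, this, smul_eq_mul, ← mul_assoc,
        ENNReal.inv_mul_cancel h0 (measure_ne_top _ _), one_mul]
    rw [h1, smul_smul, ENNReal.mul_inv_cancel h0 (measure_ne_top _ _), one_smul]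

theorem sg_coe {F : Type} [Field F] (c : Fˣ) (h : SL(2, F)) :
    (sg c h).1 = !![h 0 0, (c : F) * h 0 1; (c : F)⁻¹ * h 1 0, h 1 1] := rfl

theorem sg_up {F : Type} [Field F] (c : Fˣ) (s : F) : sg c (up s) = up (s * c) := by
  apply Subtype.ext
  rw [sg_coe]
  simp [up, mul_comm]

theorem sg_dg {F : Type} [Field F] (c t : Fˣ) : sg c (dg t) = dg t := by
  apply Subtype.ext
  rw [sg_coe]
  simp [dg]

theorem continuous_sg {F : Type} [NormedField F] (c : Fˣ) : Continuous (sg c) := by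
  refine Continuous.subtype_mk (continuous_matrix fun i j => ?_) _
  have h := fun i j => Disc.continuous_entry (F := F) i j
  fin_cases i <;> fin_cases j <;> simp <;> fun_prop

theorem conj_pow {F : Type} [Field F] (t : Fˣ) (s : F) (n : ℕ) :
    ((dg t)⁻¹) ^ n * up s * (((dg t)⁻¹) ^ n)⁻¹ = up ((((t : F)⁻¹) ^ 2) ^ n * s) := by
  induction n with
  | zero => simp
  | succ n ih =>
    rw [pow_succ', mul_inv_rev, mul_assoc, mul_assoc, ← mul_assoc (up s), ← mul_assoc (_ ^ n),
      ← mul_assoc (_ ^ n), ih, pow_succ' _ n, mul_assoc (_ ^ 2), ← Hom.conj_up, inv_inv, mul_assoc]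

theorem conj_tendsto {p : ℕ} [Fact p.Prime] (t : ℚ_[p]ˣ) (ht : 1 < ‖(t : ℚ_[p])‖) (s : ℚ_[p]) :
    Tendsto (fun n : ℕ => ((dg t)⁻¹) ^ n * up s * (((dg t)⁻¹) ^ n)⁻¹) atTop (𝓝 1) := by
  simp only [conj_pow]
  have h1 : ‖((t : ℚ_[p])⁻¹) ^ 2‖ < 1 := by
    rw [norm_pow, norm_inv]
    exact pow_lt_one₀ (by positivity) (inv_lt_one_of_one_lt₀ ht) two_ne_zero
  have h2 := (tendsto_pow_atTop_nhds_zero_of_norm_lt_one h1).mul_const s
  have h3 := (Hom.continuous_up.tendsto _).comp h2
  simpa [Hom.up_zero, Function.comp_def] using h3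

section gen

variable {G X : Type} [Group G] [TopologicalSpace G] [IsTopologicalGroup G]
  [FirstCountableTopology G] [TopologicalSpace X] [PolishSpace X] [LocallyCompactSpace X]
  [MeasurableSpace X] [BorelSpace X] [MulAction G X] [ContinuousSMul G X] {κ : Type} [Fintype κ]

instance piSMul : ContinuousSMul (κ → G) (κ → X) :=
  ⟨continuous_pi fun i => ((continuous_apply i).comp continuous_fst).smul
    ((continuous_apply i).comp continuous_snd)⟩

omit [IsTopologicalGroup G] [FirstCountableTopology G] in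
theorem pi_inv (μ : Measure X) [IsProbabilityMeasure μ] (hG : ∀ g : G, μ.map (g • ·) = μ)
    (g : κ → G) : (Measure.pi fun _ : κ => μ).map (g • ·) = Measure.pi fun _ : κ => μ :=
  (measurePreserving_pi (fun _ : κ => μ) (fun _ : κ => μ) (f := fun i x => g i • x)
    fun i => ⟨(continuous_const_smul (g i)).measurable, hG _⟩).map_eq

theorem diag_erg (μ : Measure X) [IsProbabilityMeasure μ] (hG : ∀ g : G, μ.map (g • ·) = μ)
    {p : ℕ} [Fact p.Prime] (ψ : HH p →* G) (hψ : Continuous ψ)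
    (hE : ErgF μ fun (s : ℚ_[p]) (x : X) => ψ (up s) • x) (t : ℚ_[p]ˣ) (ht : 1 < ‖(t : ℚ_[p])‖)
    (lam : Measure (κ → X)) (hle : lam ≤ Measure.pi fun _ : κ => μ)
    (hinv : lam.map (fun z i => ψ (dg t) • z i) = lam) :
    lam = lam univ • Measure.pi fun _ : κ => μ := by
  classical
  have hms : ∀ g : κ → G, Measurable fun z : κ → X => g • z := fun g =>
    (continuous_const_smul g).measurable
  have h1 : lam.map (fun z => (fun _ : κ => ψ (dg t)) • z) = lam := hinv
  have h2 : lam.map (fun z => (fun _ : κ => ψ (dg t))⁻¹ • z) = lam := by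
    conv_lhs => rw [← h1]
    rw [Measure.map_map (hms _) (hms _)]
    simp only [Function.comp_def, inv_smul_smul, Measure.map_id']
  obtain ⟨M1, -⟩ := maut (κ → G) (κ → X) _ lam inferInstance (pi_inv μ hG) hle
  refine pi_of_coord μ _ (fun s => (continuous_const_smul _).measurable) hE lam hle fun i s => ?_
  have h3 := M1 _ (Pi.mulSingle i (ψ (up s))) h2 (tendsto_pi_nhds.2 fun j => by
    by_cases hj : j = i
    · subst hj
      have := (hψ.tendsto _).comp (conj_tendsto t ht s)
      simpa [Function.comp_def] using this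
    · simpa [Pi.mulSingle_eq_of_ne hj] using tendsto_const_nhds)
  refine Eq.trans ?_ h3
  congr 1
  funext z j
  by_cases hj : j = i
  · subst hj
    simp
  · simp [Pi.mulSingle_eq_of_ne hj, Function.update_of_ne hj]

theorem line_erg (μ : Measure X) [IsProbabilityMeasure μ] (hG : ∀ g : G, μ.map (g • ·) = μ)
    {p : ℕ} [Fact p.Prime] (ψ : HH p →* G) (hψ : Continuous ψ)
    (hE : ErgF μ fun (s : ℚ_[p]) (x : X) => ψ (up s) • x) (y : κ → ℚ_[p]) (hy : ∀ i, y i ≠ 0)
    (lam : Measure (κ → X)) (hle : lam ≤ Measure.pi fun _ : κ => μ)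
    (hinv : ∀ s, lam.map (fun z i => ψ (up (s * y i)) • z i) = lam) :
    lam = lam univ • Measure.pi fun _ : κ => μ := by
  obtain ⟨-, M2⟩ := maut (κ → G) (κ → X) _ lam inferInstance (pi_inv μ hG) hle
  have hp : (p : ℚ_[p]) ≠ 0 := Nat.cast_ne_zero.2 (Fact.out : p.Prime).ne_zero
  have h1 := M2 p (MonoidHom.pi fun i => ψ.comp (sg (Units.mk0 (y i) (hy i))))
    (continuous_pi fun i => hψ.comp (continuous_sg _)) (fun s => by
      refine Eq.trans ?_ (hinv s)
      congr 1
      funext z i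
      simp [sg_up]) (dg (Units.mk0 (p : ℚ_[p]) hp)⁻¹)
  refine diag_erg μ hG ψ hψ hE (Units.mk0 (p : ℚ_[p]) hp)⁻¹ ?_ lam hle ?_
  · rw [Units.val_inv_eq_inv_val, Units.val_mk0, norm_inv]
    exact (one_lt_inv₀ (norm_pos_iff.2 hp)).2 Padic.norm_p_lt_one
  · refine Eq.trans ?_ h1
    congr 1
    funext z i
    simp [sg_dg]

end gen

section low

variable {G : Type} [Group G] [TopologicalSpace G] [IsTopologicalGroup G] (Γ : Subgroup G)

theorem P_bdd [DiscreteTopology Γ] {K : Set G} (hK : IsCompact K) :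
    ∃ N : ℕ, ∀ x, Uniq.P Γ (K.indicator 1) x ≤ N := by
  choose U hU hgU hinj using Uniq.exists_open Γ
  obtain ⟨s, hs⟩ := hK.elim_finite_subcover U hU fun g _ => mem_iUnion.2 ⟨g, hgU g⟩
  refine ⟨s.card, fun x => ?_⟩
  calc Uniq.P Γ (K.indicator 1) x ≤ ∑' γ : Γ, ∑ g ∈ s, (U g).indicator 1 (x.out * γ) := by
        refine ENNReal.tsum_le_tsum fun γ => ?_
        by_cases h : x.out * γ ∈ K
        · obtain ⟨g, hg, hx⟩ := mem_iUnion₂.1 (hs h)
          refine le_trans ?_ (Finset.single_le_sum (fun _ _ => zero_le) hg)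
          rw [indicator_of_mem h, indicator_of_mem hx]
        · rw [indicator_of_notMem h]
          exact zero_le
    _ = ∑ g ∈ s, Uniq.P Γ ((U g).indicator 1) x :=
        Summable.tsum_finsetSum fun _ _ => ENNReal.summable
    _ ≤ ∑ _g ∈ s, 1 := Finset.sum_le_sum fun g _ => Uniq.P_le_one Γ (hinj g) x
    _ = s.card := by simp

theorem lift_compact [LocallyCompactSpace G] {Q : Set (G ⧸ Γ)} (hQ : IsCompact Q) :
    ∃ Ω : Set G, IsCompact Ω ∧ ∀ x ∈ Q, ∃ g ∈ Ω, QuotientGroup.mk g = x := by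
  choose K hK hgK using fun g : G => exists_compact_mem_nhds g
  obtain ⟨s, hs⟩ := hQ.elim_finite_subcover
    (fun g : G => (QuotientGroup.mk : G → G ⧸ Γ) '' interior (K g))
    (fun g => QuotientGroup.isOpenMap_coe _ isOpen_interior) fun x _ =>
      mem_iUnion.2 ⟨x.out, x.out, mem_interior_iff_mem_nhds.2 (hgK _), QuotientGroup.out_eq' x⟩
  refine ⟨⋃ g ∈ s, K g, s.isCompact_biUnion fun g _ => hK g, fun x hx => ?_⟩
  obtain ⟨g, hg, g', hg', rfl⟩ := mem_iUnion₂.1 (hs hx)
  exact ⟨g', mem_iUnion₂.2 ⟨g, hg, interior_subset hg'⟩, rfl⟩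

theorem low [LocallyCompactSpace G] [T2Space G] [MeasurableSpace G] [BorelSpace G]
    [DiscreteTopology Γ] [BorelSpace (G ⧸ Γ)] (m : Measure G) [m.IsMulRightInvariant]
    (μ : Measure (G ⧸ Γ)) [IsProbabilityMeasure μ] (c : ℝ≥0)
    (hc : ∀ f : G → ℝ≥0∞, Measurable f → ∫⁻ x, Uniq.P Γ f x ∂μ = c * ∫⁻ g, f g ∂m)
    {O : Set G} {Q : Set (G ⧸ Γ)} (hO : IsCompact O) (hQ : IsCompact Q) :
    ∃ C : ℝ≥0, ∀ x ∈ Q, (m.restrict O).map (· • x) ≤ C • μ := by
  have hc0 : c ≠ 0 := by
    rintro rfl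
    have h1 := hc 1 measurable_one
    have h2 : ∫⁻ _ : G ⧸ Γ, 1 ∂μ ≤ ∫⁻ x, Uniq.P Γ 1 x ∂μ :=
      lintegral_mono fun x => ENNReal.le_tsum (f := fun γ : Γ => (1 : G → ℝ≥0∞) (x.out * γ)) 1
    rw [h1] at h2
    simp at h2
  obtain ⟨Ω, hΩ, hQΩ⟩ := lift_compact Γ hQ
  have hK : IsCompact (O * Ω) := hO.mul hΩ
  obtain ⟨N, hN⟩ := P_bdd Γ hK
  refine ⟨c⁻¹ * N, fun x hx => Measure.le_iff.2 fun A hA => ?_⟩
  obtain ⟨g₀, hg₀, rfl⟩ := hQΩ x hx
  have hmk : Measurable (QuotientGroup.mk : G → G ⧸ Γ) := QuotientGroup.continuous_mk.measurable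
  have hsm : Measurable fun g : G => g • (QuotientGroup.mk g₀ : G ⧸ Γ) :=
    hmk.comp (measurable_mul_const g₀)
  have hB : MeasurableSet ((QuotientGroup.mk : G → G ⧸ Γ) ⁻¹' A ∩ (O * Ω)) :=
    (hmk hA).inter hK.measurableSet
  have h1 : (m.restrict O).map (· • (QuotientGroup.mk g₀ : G ⧸ Γ)) A ≤
      m ((QuotientGroup.mk : G → G ⧸ Γ) ⁻¹' A ∩ (O * Ω)) := by
    rw [Measure.map_apply hsm hA, Measure.restrict_apply (hsm hA),
      ← measure_preimage_mul_right m g₀ (_ ∩ (O * Ω))]
    exact measure_mono fun g hg => ⟨hg.1, mul_mem_mul hg.2 hg₀⟩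
  have h2 := hc _ (measurable_one.indicator hB)
  rw [lintegral_indicator_one hB] at h2
  have h3 : ∫⁻ x, Uniq.P Γ (((QuotientGroup.mk : G → G ⧸ Γ) ⁻¹' A ∩ (O * Ω)).indicator 1) x ∂μ ≤
      N * μ A := by
    rw [← lintegral_indicator_one hA, ← lintegral_const_mul _ (measurable_one.indicator hA)]
    refine lintegral_mono fun x => ?_
    have e : ((QuotientGroup.mk : G → G ⧸ Γ) ⁻¹' A ∩ (O * Ω)).indicator (1 : G → ℝ≥0∞) =
        fun g => A.indicator 1 (QuotientGroup.mk g) * (O * Ω).indicator 1 g := by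
      funext g
      rw [inter_indicator_one]
      rfl
    rw [e, Uniq.P_mul, mul_comm]
    exact mul_le_mul_left (hN x) _
  refine h1.trans ?_
  rw [h2] at h3
  rw [Measure.smul_apply, ENNReal.smul_def, smul_eq_mul, ENNReal.coe_mul, ENNReal.coe_inv hc0,
    ENNReal.coe_natCast, mul_assoc]
  calc m _ = (c : ℝ≥0∞)⁻¹ * (c * m _) := by
        rw [← mul_assoc, ENNReal.inv_mul_cancel (ENNReal.coe_ne_zero.2 hc0) ENNReal.coe_ne_top,
          one_mul]
    _ ≤ _ := mul_le_mul_right h3 _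

end low

end Mix

open Mix in
theorem mix_stmt : MixStmt := by
  intro l₁ l₂ _ _ _ hl (μ : Measure (XX l₁ l₂)) (hμ : IsProbabilityMeasure (α := XX l₁ l₂) μ) hinv
  obtain ⟨hG, -, hbd, hEU, -⟩ := hom disc uniq maut l₁ l₂ hl μ hμ hinv
  obtain ⟨hd, -, -, d1, d2, u1, u2, uG⟩ := disc l₁ l₂ hl
  have := u1 Measure.haar
  have := u2 Measure.haar
  have := uG Measure.haar
  obtain ⟨A1, -⟩ := uniq (GG l₁ l₂) (HH l₁) (CC l₂) (ContinuousMulEquiv.refl _) (Gam l₁ l₂)
    Measure.haar Measure.haar d1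
  obtain ⟨-, B2⟩ := uniq (GG l₁ l₂) (HH l₂) (HH l₁ × SL(2, ℝ)) (Hom.e2 l₁ l₂) (Gam l₁ l₂)
    Measure.haar Measure.haar d2
  have hB : BorelSpace (XX l₁ l₂) := (sp l₁ l₂).bX
  have E1 : ErgF μ fun (s : ℚ_[l₁]) (x : XX l₁ l₂) =>
      (MonoidHom.inl (HH l₁) (CC l₂) (up s) : GG l₁ l₂) • x := hEU
  have c1 : Continuous (MonoidHom.inl (HH l₁) (CC l₂)) := Continuous.prodMk_left 1
  have E2 : ErgF μ fun (s : ℚ_[l₂]) (x : XX l₁ l₂) => Hom.mid l₁ l₂ (up s) • x := by
    intro lam hle h
    have : IsFiniteMeasure lam := isFiniteMeasure_of_le μ hle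
    exact (B2 μ lam hμ this (fun h => hG _) ((maut (GG l₁ l₂) (XX l₁ l₂) μ lam inferInstance hG
      hle).2 l₂ (Hom.mid l₁ l₂) (Hom.continuous_mid l₁ l₂) h)).1
  refine ⟨⟨hμ, hG, hbd, hEU, fun κ _ x hx lam hle h => ?_⟩, ?_, fun κ _ => ⟨?_, ?_, ?_⟩⟩
  · exact line_erg μ hG _ c1 E1 x hx lam hle h
  · obtain ⟨c, hc⟩ := A1 μ inferInstance hinv
    have i1 : IsFiniteMeasureOnCompacts (Measure.haar : Measure (GG l₁ l₂)) := inferInstance
    have i2 : (Measure.haar : Measure (GG l₁ l₂)).IsOpenPosMeasure := inferInstance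
    have i3 : (Measure.haar : Measure (GG l₁ l₂)).IsMulLeftInvariant := inferInstance
    exact ⟨(Measure.haar : Measure (GG l₁ l₂)), i1, i2, i3, fun O Q hO hQ =>
      low (Gam l₁ l₂) Measure.haar μ c hc hO hQ⟩
  · exact fun t ht lam hle h => diag_erg μ hG _ c1 E1 t ht lam hle (h ())
  · exact fun t ht lam hle h =>
      diag_erg μ hG _ (Hom.continuous_mid l₁ l₂) E2 t ht lam hle (h ())
  · exact fun y hy lam hle h => line_erg μ hG _ (Hom.continuous_mid l₁ l₂) E2 y hy lam hle h

end Pool.Agent.Lib.MP_9177b7_ag.J
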