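import Pool.Agent.Lib.MP_9177b7_ag.J.DefsU

/-!
Orbits of the upper triangular group are null.
-/

open MeasureTheory ProbabilityTheory Filter Topology Set Pointwise
open scoped MatrixGroups ENNReal NNReal

noncomputable section

namespace Pool.Agent.Lib.MP_9177b7_ag.J

namespace Null

variable {l : ℕ} [Fact l.Prime]

theorem continuous_lo : Continuous fun s : ℚ_[l] => (lo s : HH l) := by
  refine Continuous.subtype_mk (continuous_matrix fun i j => ?_) _
  fin_cases i <;> fin_cases j <;> simp <;> fun_prop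

theorem continuous_entry (i j : Fin 2) : Continuous fun h : HH l => h i j :=
  (continuous_apply_apply i j).comp continuous_subtype_val

theorem eq_of_lo {g : HH l} {s t : ℚ_[l]} (h1 : (g * lo s) 1 0 = 0) (h2 : (g * lo t) 1 0 = 0) :
    s = t := by
  have hd := g.det_coe
  rw [Matrix.det_fin_two] at hd
  simp only [lo, Matrix.SpecialLinearGroup.coe_mul, Matrix.mul_apply, Fin.sum_univ_two,
    Matrix.of_apply, Matrix.cons_val', Matrix.cons_val_zero, Matrix.cons_val_one,
    Matrix.cons_val_fin_one, mul_one] at h1 h2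
  linear_combination (g.1 0 0 + t * g.1 0 1) * h1 - (g.1 0 0 + s * g.1 0 1) * h2 - (s - t) * hd

theorem haar (S : Sp l) (m : Measure S.G) [IsFiniteMeasureOnCompacts m] [m.IsMulRightInvariant]
    {Ω : Set S.G} (hΩ : IsCompact Ω) : m {g | g ∈ Ω ∧ g.1 1 0 = 0} = 0 := by
  set P : Set S.G := {g | g ∈ Ω ∧ g.1 1 0 = 0} with hP
  have hPm : MeasurableSet P :=
    (hΩ.isClosed.inter (isClosed_eq ((continuous_entry 1 0).comp continuous_fst)
      continuous_const)).measurableSet
  let h : ℚ_[l] → S.G := fun s => (lo s, 1)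
  have hh : Continuous h := continuous_lo.prodMk continuous_const
  let Q : ℕ → Set S.G := fun n => (· * h n) ⁻¹' P
  have hQm : ∀ n, MeasurableSet (Q n) := fun n => measurable_mul_const _ hPm
  have hdis : Pairwise (Function.onFun Disjoint Q) := fun a b hab =>
    Set.disjoint_left.2 fun g h1 h2 => hab (Nat.cast_injective (R := ℚ_[l]) (eq_of_lo h1.2 h2.2))
  have hK : IsCompact (Ω * (h '' Metric.closedBall 0 1)⁻¹) :=
    hΩ.mul ((isCompact_closedBall _ _).image hh).inv
  have hsub : ⋃ n, Q n ⊆ Ω * (h '' Metric.closedBall 0 1)⁻¹ := by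
    refine iUnion_subset fun n g hg => ⟨g * h n, hg.1, (h n)⁻¹, ?_, by simp⟩
    refine Set.inv_mem_inv.2 ⟨n, ?_, rfl⟩
    simpa using Padic.norm_int_le_one (p := l) (n : ℤ)
  have h1 := (measure_mono (μ := m) hsub).trans_lt hK.measure_lt_top
  rw [measure_iUnion hdis hQm] at h1
  simp only [Q, measure_preimage_mul_right] at h1
  by_contra h0
  rw [ENNReal.tsum_const_eq_top_of_ne_zero h0] at h1
  exact lt_irrefl _ h1

end Null

theorem null : NullStmt := by
  intro l _ S μ ⟨m, hm1, hm2, hm⟩ x Ω hΩ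
  obtain ⟨g₀, rfl⟩ := S.surj x
  have h0 := Null.haar S m hΩ
  rw [← measure_preimage_mul_right m g₀⁻¹, Set.measure_eq_iInf_isOpen] at h0
  refine le_antisymm (le_trans ?_ h0.le) zero_le
  refine le_iInf₂ fun U hU => le_iInf fun hU' => le_trans (measure_mono ?_) (hm U hU')
  rintro _ ⟨g, hg, rfl⟩
  exact ⟨g * g₀, hU (by rwa [mem_preimage, mul_inv_cancel_right]), mul_smul _ _ _⟩

end Pool.Agent.Lib.MP_9177b7_ag.J
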