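import Pool.Agent.Lib.MP_9177b7_ag.J.All
import Pool.Agent.Lib.MP_9177b7_ag.J.Large
import Pool.Agent.Lib.MP_9177b7_ag.J.DecG
import Pool.Agent.Lib.MP_9177b7_ag.J.Null
import Pool.Agent.Lib.MP_9177b7_ag.J.LineN
import Pool.Agent.Lib.MP_9177b7_ag.J.LineU
import Pool.Agent.Lib.MP_9177b7_ag.J.DiagU
import Pool.Agent.Lib.MP_9177b7_ag.J.CoreU
import Pool.Agent.Lib.MP_9177b7_ag.J.JoinN
import Pool.Agent.Lib.MP_9177b7_ag.J.HM
import Pool.Agent.Lib.MP_9177b7_ag.J.Mix
import Pool.Agent.Lib.MP_9177b7_ag.J.TightQ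

/-!
Assembly of the pieces, second part.
-/

namespace Pool.Agent.Lib.MP_9177b7_ag.J

theorem large' : LargeStmt :=
  large basic psi_stmt (rep basic) (char_stmt basic (rep basic)) (shiu sieve)

theorem excl' : ExclStmt := excl basic small' large'

theorem dyn' : DynStmt := dyn_of_large large'

theorem hom' : HomStmt := hom disc uniq maut

theorem proj' : ProjStmt := proj disc uniq

theorem joinN' : JoinNStmt := joinN decZ lineN

theorem joinU' : JoinUStmt := joinU decQ (lineU null) (coreU (diagU null))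

end Pool.Agent.Lib.MP_9177b7_ag.J
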