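import Pool.Agent.Lib.MP_9177b7_ag.J.DefsN
import Pool.Agent.Lib.MP_9177b7_ag.J.Basic
import Pool.Agent.Lib.MP_9177b7_ag.J.Rep

/-!
Assembly of the two cases: choice of the primes and induction on the number of factors.
-/

open MeasureTheory Filter Topology Set Pointwise
open scoped BoundedContinuousFunction

noncomputable section

namespace Pool.Agent.Lib.MP_9177b7_ag.J

open Fld Dyn

namespace AsmN

/-- Along a subsequence every member of a finite family is bounded or tends to infinity. -/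
theorem subseq {J : Type} (T : Finset J) (a : J → ℕ → ℕ) : ∃ ms : ℕ → ℕ, StrictMono ms ∧
    ∀ j ∈ T, (∃ d, ∀ n, a j (ms n) ≤ d) ∨ Tendsto (fun n => a j (ms n)) atTop atTop := by
  classical
  induction T using Finset.induction_on with
  | empty => exact ⟨id, strictMono_id, by simp⟩
  | insert j T _ ih =>
    obtain ⟨ms, hms, h⟩ := ih
    by_cases hb : ∃ d, ∃ᶠ n in atTop, a j (ms n) ≤ d
    · obtain ⟨d, hd⟩ := hb
      obtain ⟨ψ, hψ, hd⟩ := extraction_of_frequently_atTop hd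
      refine ⟨ms ∘ ψ, hms.comp hψ, fun i hi => ?_⟩
      rcases Finset.mem_insert.1 hi with rfl | hi
      · exact Or.inl ⟨d, hd⟩
      · rcases h i hi with ⟨e, he⟩ | he
        · exact Or.inl ⟨e, fun n => he _⟩
        · exact Or.inr (he.comp hψ.tendsto_atTop)
    · refine ⟨ms, hms, fun i hi => ?_⟩
      rcases Finset.mem_insert.1 hi with rfl | hi
      · refine Or.inr (tendsto_atTop.2 fun d => ?_)
        have : ¬ ∃ᶠ n in atTop, a i (ms n) ≤ d := fun h => hb ⟨d, h⟩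
        rw [not_frequently] at this
        exact this.mono fun n hn => (not_le.1 hn).le
      · exact h i hi

variable (k : Fld) (w : ℂ)

/-- The test function on an orbit. -/
def JJ {ι : Type} [Fintype ι] {F : ℕ+} (L : ι → Submodule ℤ k.K) (φ : ι → ℂ →ᵇ ℝ) (s : k.SF F) :
    ℝ := ∏ i, φ i (CM.jL ((act s (L i)).map (k.ioL w))) - ∏ i, ∫ z, φ i z ∂muJ

/-- The hypotheses on the lattices. -/
structure Dt {ι : Type} (F : ℕ → ℕ+) (L : ι → ℕ → Submodule ℤ k.K) (c : ι → ℕ → ℚ)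
    (f : ι → ℕ → ℕ) : Prop where
  lat : ∀ i n, k.Lat (L i n) (c i n)
  adm : ∀ i n, k.Adm (F n) (L i n)
  cond : ∀ i n, k.Cond (L i n) (f i n)
  big : ∀ i (a : ℕ), 0 < a → ∀ᶠ n in atTop, ¬ k.Adm a (L i n)
  str : ∀ i j, i ≠ j → ∀ B : ℝ, ∀ᶠ n in atTop, ∀ α : k.K, α ≠ 0 → α • L i n ≤ L j n →
    B * c j n < k.N α * c i n

variable {k}

theorem Dt.comp {ι : Type} {F : ℕ → ℕ+} {L : ι → ℕ → Submodule ℤ k.K} {c : ι → ℕ → ℚ}
    {f : ι → ℕ → ℕ} (D : Dt k F L c f) {ns : ℕ → ℕ} (hns : Tendsto ns atTop atTop) :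
    Dt k (fun n => F (ns n)) (fun i n => L i (ns n)) (fun i n => c i (ns n))
      (fun i n => f i (ns n)) :=
  ⟨fun i _ => D.lat i _, fun i _ => D.adm i _, fun i _ => D.cond i _,
    fun i a ha => hns.eventually (D.big i a ha), fun i j h B => hns.eventually (D.str i j h B)⟩

theorem Dt.sub {ι : Type} {F : ℕ → ℕ+} {L : ι → ℕ → Submodule ℤ k.K} {c : ι → ℕ → ℚ}
    {f : ι → ℕ → ℕ} (D : Dt k F L c f) (p : ι → Prop) :
    Dt k F (fun i : {i // p i} => L i) (fun i => c i) (fun i => f i) :=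
  ⟨fun i => D.lat i, fun i => D.adm i, fun i => D.cond i, fun i => D.big i,
    fun i j h => D.str i j fun e => h (Subtype.ext e)⟩

theorem strict_act {F : ℕ+} {L₁ L₂ : Submodule ℤ k.K} {c₁ c₂ : ℚ} (h₁ : k.Lat L₁ c₁)
    (g₁ : k.Adm F L₁) (h₂ : k.Lat L₂ c₂) (g₂ : k.Adm F L₂) (s : k.SF F) {α : k.K}
    (h : α • act s L₁ ≤ act s L₂) : α • L₁ ≤ L₂ := by
  have a1 := (basic k).2.2.2.2.2.2.2.1 F _ _ h₁ g₁
  have a2 := (basic k).2.2.2.2.2.2.2.1 F _ _ h₂ g₂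
  have a3 := (basic k).2.2.2.2.2.2.2.1 F _ _ (a1.2 s).1 (a1.2 s).2.1
  have h1 : act s⁻¹ (α • act s L₁) ≤ act s⁻¹ (act s L₂) := mul_le_mul' le_rfl h
  rwa [(a3.2 s⁻¹).2.2.2.2.2.2.1, ← (a1.2 s⁻¹).2.2.2.2.2.1, ← (a2.2 s⁻¹).2.2.2.2.2.1,
    inv_mul_cancel, a1.1, a2.1] at h1

theorem lat_smul {L : Submodule ℤ k.K} {c : ℚ} (hL : k.Lat L c) {α : k.K} (hα : α ≠ 0) :
    k.Lat (α • L) (QuadraticAlgebra.norm α * c) := by
  have hN : QuadraticAlgebra.norm α ≠ 0 := fun h =>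
    hα (QuadraticAlgebra.norm_eq_zero_iff_eq_zero.1 h)
  have hlat := (basic k).2.2.1 L c α 0 hL (by simpa [Fld.N] using hN)
  rwa [← Excl.smul_eq_map, QuadraticAlgebra.norm_zero, sub_zero,
    abs_of_nonneg (Excl.norm_nonneg' α)] at hlat

theorem jL_smul {w : ℂ} (hw : k.Root w) (L : Submodule ℤ k.K) {α : k.K} (hα : α ≠ 0) :
    CM.jL ((α • L).map (k.ioL w)) = CM.jL (L.map (k.ioL w)) := by
  rw [← CM.hyp.jL_smul (L.map (k.ioL w)) (io_ne_zero k hw hα)]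
  congr 1
  ext z
  simp only [Submodule.mem_map, Submodule.mem_smul_pointwise_iff_exists]
  constructor
  · rintro ⟨_, ⟨v, hv, rfl⟩, rfl⟩
    exact ⟨_, ⟨v, hv, rfl⟩, (io_mul k hw α v).symm⟩
  · rintro ⟨_, ⟨v, hv, rfl⟩, rfl⟩
    exact ⟨_, ⟨v, hv, rfl⟩, io_mul k hw α v⟩

theorem adm_of_smul {a : ℕ} {α : k.K} {L : Submodule ℤ k.K} (hα : α ≠ 0)
    (h : k.Adm a (α • L)) : k.Adm a L := by
  have := Excl.adm_smul α⁻¹ h
  rwa [smul_smul, inv_mul_cancel₀ hα, one_smul] at this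

theorem str_smul {L₁ L₂ : Submodule ℤ k.K} {c₁ c₂ : ℚ} {B : ℝ} {α₁ α₂ : k.K} (a₁ : α₁ ≠ 0)
    (a₂ : α₂ ≠ 0) (hn : ∀ α : k.K, α ≠ 0 → α • L₁ ≤ L₂ → B * c₂ < k.N α * c₁) (β : k.K)
    (hβ : β ≠ 0) (hle : β • α₁ • L₁ ≤ α₂ • L₂) :
    B * ((QuadraticAlgebra.norm α₂ * c₂ : ℚ) : ℝ) <
      k.N β * ((QuadraticAlgebra.norm α₁ * c₁ : ℚ) : ℝ) := by
  have h1 := hn (α₂⁻¹ * (β * α₁)) (mul_ne_zero (inv_ne_zero a₂) (mul_ne_zero hβ a₁))
    (by
      have : α₂⁻¹ • β • α₁ • L₁ ≤ α₂⁻¹ • α₂ • L₂ := Submodule.map_mono hle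
      rwa [smul_smul, smul_smul, smul_smul, inv_mul_cancel₀ a₂, one_smul, mul_assoc] at this)
  have h3 : k.N α₂ * k.N (α₂⁻¹ * (β * α₁)) = k.N β * k.N α₁ := by
    rw [← Excl.N_mul, ← Excl.N_mul, mul_inv_cancel_left₀ a₂]
  have h4 : 0 < k.N α₂ := lt_of_le_of_ne (N_nonneg k _) fun h => a₂
    (QuadraticAlgebra.norm_eq_zero_iff_eq_zero.1 (by unfold Fld.N at h; exact_mod_cast h.symm))
  have h5 := mul_lt_mul_of_pos_left h1 h4
  push_cast
  change B * (k.N α₂ * _) < k.N β * (k.N α₁ * _)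
  rw [← mul_assoc (k.N β), ← h3]
  linarith

/-- The average is bounded by an integral over a translate. -/
theorem avg_le {F : ℕ+} {Y : Type} [MeasurableSpace Y] (κ : Measure (Y × k.SF F))
    [IsProbabilityMeasure κ] (g : k.SF F → ℝ) :
    ∃ u, |k.avg F g| ≤ |∫ q, g (q.2 * u) ∂κ| := by
  obtain ⟨u, -, hu⟩ := Finset.exists_max_image Finset.univ
    (fun u : k.SF F => |∫ q, g (q.2 * u) ∂κ|) Finset.univ_nonempty
  refine ⟨u, ?_⟩
  have hi : ∀ v : k.SF F, Integrable (fun q : Y × k.SF F => g (q.2 * v)) κ := fun v => by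
    refine Integrable.of_bound (C := ∑ s, |g s|) ?_ (Eventually.of_forall fun q => ?_)
    · exact ((measurable_from_top (f := fun s => g (s * v))).comp
        measurable_snd).aestronglyMeasurable
    · exact Finset.single_le_sum (f := fun s => |g s|) (fun s _ => abs_nonneg _)
        (Finset.mem_univ _)
  have h1 : ∑ v, ∫ q, g (q.2 * v) ∂κ = ∑ s, g s := by
    rw [← integral_finsetSum _ fun v _ => hi v]
    have : ∀ q : Y × k.SF F, ∑ v, g (q.2 * v) = ∑ s, g s := fun q =>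
      Fintype.sum_equiv (Equiv.mulLeft q.2) _ _ fun _ => rfl
    simp [this]
  have hc : (0 : ℝ) < Fintype.card (k.SF F) := by exact_mod_cast Fintype.card_pos
  rw [Fld.avg, abs_div, abs_of_pos hc, div_le_iff₀ hc, ← h1]
  refine (Finset.abs_sum_le_sum_abs _ _).trans ?_
  refine (Finset.sum_le_card_nsmul _ _ _ fun v hv => hu v hv).trans ?_
  simp [mul_comm]

/-- An odd split prime. -/
def Spl (k : Fld) (l : ℕ) : Prop :=
  ∃ _ : Fact l.Prime, l ≠ 2 ∧ ¬ (l : ℤ) ∣ k.D ∧ ∃ r : ℚ_[l], k.Root r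

/-- Transfer from the average over the residue classes to the related pairs. -/
theorem transfer (hL : LatStmt) (hK : KapStmt) {w : ℂ} (hw : k.Root w) {l₁ l₂ : ℕ} [Fact l₁.Prime]
    [Fact l₂.Prime] {r₁ : ℚ_[l₁]} {r₂ : ℚ_[l₂]} (hne : l₁ ≠ l₂) (o₁ : l₁ ≠ 2) (o₂ : l₂ ≠ 2)
    (d₁ : ¬ (l₁ : ℤ) ∣ k.D) (d₂ : ¬ (l₂ : ℤ) ∣ k.D) (h₁ : k.Root r₁) (h₂ : k.Root r₂) {ι : Type}
    [Fintype ι] {F : ℕ → ℕ+} {L : ι → ℕ → Submodule ℤ k.K} {c : ι → ℕ → ℚ} {f : ι → ℕ → ℕ}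
    (D : Dt k F L c f) (h : ∀ n, k.SF (F n) → ℝ) (hb : ∀ n s, |h n s| ≤ 1) (φ : ι → ℂ →ᵇ ℝ) :
    ∃ (u : ∀ n, k.SF (F n)) (L' : ι → ℕ → Submodule ℤ k.K) (c' : ι → ℕ → ℚ)
      (κ : ∀ n, Measure (MM l₁ l₂ × k.SF (F n))),
      Core k r₁ r₂ F L' c' (fun i n => (f i n).factorization l₁)
        (fun i n => (f i n).factorization l₂) (fun n s => h n (s * u n)) κ ∧
      (Tendsto (fun n => ∫ q, h n (q.2 * u n) * JJ k w (fun i => L' i n) φ q.2 ∂κ n) atTop (𝓝 0) →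
        Tendsto (fun n => k.avg (F n) fun s => h n s * JJ k w (fun i => L i n) φ s) atTop
          (𝓝 0)) := by
  have g₁ : Good k r₁ := ⟨h₁, (pi_stmt basic k l₁ r₁ h₁ d₁).1, (pi_stmt basic k l₁ r₁ h₁ d₁).2.1⟩
  have g₂ : Good k r₂ := ⟨h₂, (pi_stmt basic k l₂ r₂ h₂ d₂).1, (pi_stmt basic k l₂ r₂ h₂ d₂).2.1⟩
  choose κ hκ using fun n => hK k l₁ l₂ r₁ r₂ hne o₁ o₂ g₁ g₂ (F n)
  choose u hu using fun n =>
    haveI := (hκ n).prob
    avg_le (κ n) fun s => h n s * JJ k w (fun i => L i n) φ s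
  have a := fun i n => (basic k).2.2.2.2.2.2.2.1 (F n) _ _ (D.lat i n) (D.adm i n)
  have b := fun i n => (a i n).2 (u n)
  choose α hα e₁ e₂ using fun i n => (hL k).1 (act (u n) (L i n)) (c i n) (f i n) l₁ l₂ (b i n).1
    ((b i n).2.2.2.1 _ (D.cond i n)) Fact.out Fact.out
  refine ⟨u, fun i n => α i n • act (u n) (L i n), fun i n => QuadraticAlgebra.norm (α i n) * c i n,
    κ, ⟨hne, o₁, o₂, d₁, d₂, g₁, g₂, hκ, fun i n => lat_smul (b i n).1 (hα i n),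
      fun i n => Excl.adm_smul _ (b i n).2.1, e₁, e₂, fun i a ha => ?_, fun i j hij B => ?_,
      fun n s => hb n _⟩, fun ht => ?_⟩
  · exact (D.big i a ha).mono fun n hn hA => hn ((D.cond i n a).2
      (((b i n).2.2.2.1 _ (D.cond i n) a).1 (adm_of_smul (hα i n) hA)))
  · exact (D.str i j hij B).mono fun n hn => str_smul (hα i n) (hα j n) fun β hβ hle =>
      hn β hβ (strict_act (D.lat i n) (D.adm i n) (D.lat j n) (D.adm j n) (u n) hle)
  · rw [tendsto_zero_iff_abs_tendsto_zero] at ht ⊢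
    refine squeeze_zero (fun n => abs_nonneg _) (fun n => (hu n).trans (le_of_eq ?_)) ht
    simp only [Function.comp]
    congr 2
    funext q
    congr 1
    unfold JJ
    congr 1
    refine Finset.prod_congr rfl fun i _ => ?_
    have a3 := (basic k).2.2.2.2.2.2.2.1 (F n) _ _ (b i n).1 (b i n).2.1
    rw [(a3.2 q.2).2.2.2.2.2.2.1, jL_smul hw _ (hα i n), ((a i n).2 q.2).2.2.2.2.2.1]

theorem act_pow (hL : LatStmt) {F : ℕ+} {G : ℕ} {t : k.SF F} {L : Submodule ℤ k.K} {c : ℚ}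
    (hG : G ∣ F) (ht : One G t) (h : k.Lat L c) (hF : k.Adm F L) (hA : k.Adm G L) (N : ℕ)
    (s : k.SF F) : act (t ^ N * s) L = act s L := by
  have a := (basic k).2.2.2.2.2.2.2.1 F _ _ h hF
  have h1 : act t L = L := (hL k).2.2.2.2.2 F G t L c hG ht h hA
  have h2 : ∀ n : ℕ, act (t ^ n) L = L := fun n => by
    induction n with
    | zero => rw [pow_zero, a.1]
    | succ n ih => rw [pow_succ, (a.2 _).2.2.2.2.2.1, h1, ih]
  rw [mul_comm, (a.2 _).2.2.2.2.2.1, h2]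

theorem dvd_mix {f F l b : ℕ} (hf : f ∣ F) (hb : f.factorization l ≤ b) :
    f ∣ F / l ^ F.factorization l * l ^ b := by
  rw [← Nat.ordProj_mul_ordCompl_eq_self f l, mul_comm]
  exact mul_dvd_mul (Nat.ordCompl_dvd_ordCompl_of_dvd hf l) (pow_dvd_pow _ hb)

theorem mix_dvd {F l b : ℕ} (hb : b ≤ F.factorization l) :
    F / l ^ F.factorization l * l ^ b ∣ F := by
  conv_rhs => rw [← Nat.ordProj_mul_ordCompl_eq_self F l, mul_comm]
  exact mul_dvd_mul_left _ (pow_dvd_pow _ hb)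

theorem mix_fact {F l b : ℕ} (hl : l.Prime) (hF : F ≠ 0) :
    (F / l ^ F.factorization l * l ^ b).factorization l = b := by
  have h1 : F / l ^ F.factorization l ≠ 0 := (Nat.ordCompl_pos l hF).ne'
  rw [Nat.factorization_mul h1 (pow_ne_zero _ hl.ne_zero), Finsupp.add_apply,
    Nat.factorization_eq_zero_of_not_dvd (Nat.not_dvd_ordCompl hl hF), hl.factorization_pow]
  simp

/-- The splitting step. -/
theorem step (hL : LatStmt) (hK : KapStmt) (hU : DynUStmt) {w : ℂ} (hw : k.Root w) {l₁ l₂ : ℕ}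
    (hne : l₁ ≠ l₂) (s₁ : Spl k l₁) (s₂ : Spl k l₂) {ι : Type} [Fintype ι] {N : ℕ} (hN : 0 < N)
    {F : ℕ → ℕ+} {L : ι → ℕ → Submodule ℤ k.K} {c : ι → ℕ → ℚ} {f : ι → ℕ → ℕ}
    (D : Dt k F L c f) (h : ∀ n, k.SF (F n) → ℝ) (hb : ∀ n s, |h n s| ≤ 1)
    (hi : ∀ n s u, h n (u ^ N * s) = h n s) (φ : ι → ℂ →ᵇ ℝ) (p : ι → Prop) [DecidablePred p]
    {m₁ m₂ : ℕ → ℕ} {d : ℕ} (t₁ : Tendsto m₁ atTop atTop) (t₂ : Tendsto m₂ atTop atTop)
    (u₁ : ∀ i n, (f i n).factorization l₁ ≤ m₁ n) (u₂ : ∀ i n, (f i n).factorization l₂ ≤ m₂ n)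
    (b₁ : ∀ i, p i → ∀ n, m₁ n - (f i n).factorization l₁ ≤ d)
    (b₂ : ∀ i, p i → ∀ n, m₂ n - (f i n).factorization l₂ ≤ d)
    (n₁ : ∀ i, ¬ p i → Tendsto (fun n => m₁ n - (f i n).factorization l₁) atTop atTop)
    (ih : Tendsto (fun n => k.avg (F n) fun s => h n s *
      JJ k w (fun i : {i // ¬ p i} => L i n) (fun i => φ i) s) atTop (𝓝 0)) :
    Tendsto (fun n => k.avg (F n) fun s => h n s * JJ k w (fun i => L i n) φ s) atTop (𝓝 0) := by
  obtain ⟨p₁, o₁, d₁, r₁, h₁⟩ := s₁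
  obtain ⟨p₂, o₂, d₂, r₂, h₂⟩ := s₂
  have hfF : ∀ i n, f i n ∣ F n := fun i n => (D.cond i n _).1 (D.adm i n)
  set C : ℝ := ∏ i : {i // ¬ p i}, (‖φ i‖ + 1) with hC
  have hC0 : 0 < C := Finset.prod_pos fun i _ => by positivity
  let b : ℕ → ℕ := fun n =>
    Finset.univ.sup fun i : {i // ¬ p i} => (f i n).factorization l₁
  let G : ℕ → ℕ := fun n => (F n : ℕ) / l₁ ^ (F n : ℕ).factorization l₁ * l₁ ^ b n
  have hG : ∀ n, G n ∣ F n := fun n => mix_dvd (Finset.sup_le fun i _ =>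
    (Nat.factorization_le_iff_dvd (ne_zero_of_dvd_ne_zero (F n).ne_zero (hfF i n))
      (F n).ne_zero).2 (hfF i n) l₁)
  let h' : ∀ n, k.SF (F n) → ℝ := fun n s =>
    h n s * (∏ i : {i // ¬ p i}, φ i (CM.jL ((act s (L i n)).map (k.ioL w)))) / C
  have hb' : ∀ n s, |h' n s| ≤ 1 := fun n s => by
    simp only [h']
    rw [abs_div, abs_of_pos hC0, div_le_one hC0, abs_mul, Finset.abs_prod]
    refine (mul_le_of_le_one_left (Finset.prod_nonneg fun _ _ => abs_nonneg _) (hb n s)).trans ?_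
    exact Finset.prod_le_prod (fun _ _ => abs_nonneg _) fun i _ =>
      ((φ i).norm_coe_le_norm _).trans (by linarith)
  have hi' : ∀ n s t, One (G n) t → h' n (t ^ N * s) = h' n s := fun n s t ht => by
    simp only [h']
    rw [hi]
    congr 2
    refine Finset.prod_congr rfl fun i _ => ?_
    rw [act_pow hL (hG n) ht (D.lat i n) (D.adm i n) ((D.cond i n _).2 (dvd_mix (hfF i n)
      (Finset.le_sup (f := fun i : {i // ¬ p i} => (f i n).factorization l₁)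
        (Finset.mem_univ i))))]
  obtain ⟨u, L', c', κ, hco, ht⟩ := transfer hL hK hw hne o₁ o₂ d₁ d₂ h₁ h₂ (D.sub p) h' hb'
    fun i => φ i
  have h1 := ht (hU k w l₁ l₂ r₁ r₂ _ N F L' c' _ _ _ κ G hw hN hco (fun i => ?_)
    ⟨d, fun i j n => ?_⟩ hG (fun i a => ?_) (fun n s t htt => ?_) fun i => φ i)
  · have h2 := (h1.const_mul C).add (ih.const_mul (∏ i : {i // p i}, ∫ z, φ i z ∂muJ))
    rw [mul_zero, mul_zero, add_zero] at h2
    refine h2.congr fun n => ?_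
    simp only [Fld.avg]
    rw [← mul_div_assoc, ← mul_div_assoc, ← add_div, Finset.mul_sum, Finset.mul_sum,
      ← Finset.sum_add_distrib]
    congr 1
    refine Finset.sum_congr rfl fun s _ => ?_
    simp only [h', JJ]
    rw [← Fintype.prod_subtype_mul_prod_subtype p
      (fun i => φ i (CM.jL ((act s (L i n)).map (k.ioL w)))),
      ← Fintype.prod_subtype_mul_prod_subtype p (fun i => ∫ z, φ i z ∂muJ)]
    field_simp
    ring
  · refine tendsto_atTop.2 fun a => (tendsto_atTop.1 t₂ (a + d)).mono fun n hn => ?_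
    have := b₂ i i.2 n
    omega
  · have := b₁ j j.2 n
    have := b₂ j j.2 n
    have := u₁ i n
    have := u₂ i n
    constructor <;> omega
  · have h3 : ∀ᶠ n in atTop, ∀ j : {i // ¬ p i}, a + d ≤ m₁ n - (f j n).factorization l₁ :=
      eventually_all.2 fun j => tendsto_atTop.1 (n₁ j j.2) _
    filter_upwards [h3, tendsto_atTop.1 t₁ (a + d)] with n h3 h4
    have h5 : b n ≤ m₁ n - (a + d) := Finset.sup_le fun j _ => by
      have := h3 j
      have := u₁ j n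
      omega
    have h6 := b₁ i i.2 n
    have h7 : (G n).factorization l₁ = b n := mix_fact p₁.out (F n).ne_zero
    omega
  · rw [mul_assoc, hi' n _ t htt]

theorem primes (hS : SplitStmt) (k : Fld) (m : ℕ) :
    ∃ T : Finset ℕ, T.card = m ∧ ∀ l ∈ T, Spl k l := by
  have : {l | Spl k l}.Infinite := Set.infinite_of_forall_exists_gt fun a => by
    obtain ⟨l, hl, h1, h2, h3⟩ := hS k (a + 2)
    exact ⟨l, ⟨hl, by omega, h2, h3⟩, by omega⟩
  obtain ⟨T, h1, h2⟩ := this.exists_subset_card_eq m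
  exact ⟨T, h2, fun l hl => h1 hl⟩

theorem main (hL : LatStmt) (hK : KapStmt) (hS : SplitStmt) (hB : DynBStmt) (hU : DynUStmt)
    {w : ℂ} (hw : k.Root w) {N : ℕ} (hN : 0 < N) (m : ℕ) : ∀ (ι : Type) [Fintype ι],
    Fintype.card ι = m → ∀ (F : ℕ → ℕ+) (L : ι → ℕ → Submodule ℤ k.K) (c : ι → ℕ → ℚ)
      (f : ι → ℕ → ℕ), Dt k F L c f → ∀ h : ∀ n, k.SF (F n) → ℝ, (∀ n s, |h n s| ≤ 1) →
      (∀ n s u, h n (u ^ N * s) = h n s) → ∀ φ : ι → ℂ →ᵇ ℝ,
      Tendsto (fun n => k.avg (F n) fun s => h n s * JJ k w (fun i => L i n) φ s) atTop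
        (𝓝 0) := by
  classical
  induction m using Nat.strong_induction_on with
  | _ m ih =>
  intro ι _ hm
  suffices H : ∀ (F : ℕ → ℕ+) (L : ι → ℕ → Submodule ℤ k.K) (c : ι → ℕ → ℚ)
      (f : ι → ℕ → ℕ), Dt k F L c f → ∀ h : ∀ n, k.SF (F n) → ℝ, (∀ n s, |h n s| ≤ 1) →
      (∀ n s u, h n (u ^ N * s) = h n s) → ∀ φ : ι → ℂ →ᵇ ℝ, ∃ ms : ℕ → ℕ,
      Tendsto (fun n => k.avg (F (ms n)) fun s => h (ms n) s * JJ k w (fun i => L i (ms n)) φ s)
        atTop (𝓝 0) by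
    intro F L c f D h hb hi φ
    exact tendsto_of_subseq_tendsto fun ns hns => H _ _ _ _ (D.comp hns) (fun n => h (ns n))
      (fun n => hb _) (fun n => hi _) φ
  intro F L c f D h hb hi φ
  obtain ⟨T, hT, hTs⟩ := primes hS k (2 ^ m + 1)
  let mx : ℕ → ℕ → ℕ := fun l n => Finset.univ.sup fun i => (f i n).factorization l
  have hmx : ∀ l i n, (f i n).factorization l ≤ mx l n := fun l i n =>
    Finset.le_sup (f := fun i => (f i n).factorization l) (Finset.mem_univ i)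
  let a : ℕ × Option ι → ℕ → ℕ := fun j n =>
    j.2.elim (mx j.1 n) fun i => mx j.1 n - (f i n).factorization j.1
  obtain ⟨ms, hms, ha⟩ := subseq (T ×ˢ Finset.univ) a
  refine ⟨ms, ?_⟩
  have D' := D.comp hms.tendsto_atTop
  let ty : ℕ → Finset ι := fun l => if ∃ d, ∀ n, mx l (ms n) ≤ d then ∅ else
    Finset.univ.filter fun i => ∃ d, ∀ n, mx l (ms n) - (f i (ms n)).factorization l ≤ d
  have a0 : ∀ l ∈ T, (∃ d, ∀ n, mx l (ms n) ≤ d) ∨ Tendsto (fun n => mx l (ms n)) atTop atTop :=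
    fun l hl => ha (l, none) (by simp [hl])
  have a1 : ∀ l ∈ T, ∀ i, (∃ d, ∀ n, mx l (ms n) - (f i (ms n)).factorization l ≤ d) ∨
      Tendsto (fun n => mx l (ms n) - (f i (ms n)).factorization l) atTop atTop :=
    fun l hl i => ha (l, some i) (by simp [hl])
  have a2 : ∀ l ∈ T, ty l = ∅ → ∃ d, ∀ n, mx l (ms n) ≤ d := fun l hl h0 => by
    by_contra hn
    have h1 : ∀ i, Tendsto (fun n => mx l (ms n) - (f i (ms n)).factorization l) atTop atTop :=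
      fun i => (a1 l hl i).resolve_left fun h2 => by
        have : i ∈ ty l := by simp only [ty, if_neg hn]; simpa using h2
        simp [h0] at this
    have h2 : ∀ᶠ n in atTop, ∀ i, 1 ≤ mx l (ms n) - (f i (ms n)).factorization l :=
      eventually_all.2 fun i => tendsto_atTop.1 (h1 i) 1
    obtain ⟨n, h3, h4⟩ := (h2.and (tendsto_atTop.1 ((a0 l hl).resolve_left hn) 1)).exists
    have h5 : mx l (ms n) ≤ mx l (ms n) - 1 := Finset.sup_le fun i _ => by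
      have := h3 i
      omega
    omega
  have a3 : ∀ l ∈ T, ty l ≠ ∅ → Tendsto (fun n => mx l (ms n)) atTop atTop ∧
      (∃ d, ∀ i ∈ ty l, ∀ n, mx l (ms n) - (f i (ms n)).factorization l ≤ d) ∧ ∀ i ∉ ty l,
      Tendsto (fun n => mx l (ms n) - (f i (ms n)).factorization l) atTop atTop := fun l hl h0 => by
    have hn : ¬ ∃ d, ∀ n, mx l (ms n) ≤ d := fun hn => h0 (by simp only [ty, if_pos hn])
    have h1 : ∀ i, i ∈ ty l ↔ ∃ d, ∀ n, mx l (ms n) - (f i (ms n)).factorization l ≤ d :=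
      fun i => by simp only [ty, if_neg hn, Finset.mem_filter, Finset.mem_univ, true_and]
    refine ⟨(a0 l hl).resolve_left hn, ?_, fun i hi => (a1 l hl i).resolve_left fun h2 =>
      hi ((h1 i).2 h2)⟩
    choose! d hd using fun i hi => (h1 i).1 hi
    exact ⟨Finset.univ.sup d, fun i hi n => (hd i hi n).trans (Finset.le_sup (Finset.mem_univ i))⟩
  obtain ⟨l₁, hl₁, l₂, hl₂, hne, hty⟩ := Finset.exists_ne_map_eq_of_card_lt_of_maps_to
    (s := T) (t := (Finset.univ : Finset (Finset ι))) (f := ty)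
    (by rw [hT, Finset.card_univ, Fintype.card_finset, hm]; omega) fun _ _ => by simp
  by_cases h0 : ty l₁ = ∅
  · obtain ⟨e₁, he₁⟩ := a2 l₁ hl₁ h0
    obtain ⟨e₂, he₂⟩ := a2 l₂ hl₂ (hty ▸ h0)
    obtain ⟨p₁, o₁, d₁, r₁, h₁⟩ := hTs l₁ hl₁
    obtain ⟨p₂, o₂, d₂, r₂, h₂⟩ := hTs l₂ hl₂
    obtain ⟨u, L', c', κ, hco, ht⟩ := transfer hL hK hw hne o₁ o₂ d₁ d₂ h₁ h₂ D'
      (fun n => h (ms n)) (fun n => hb _) φ
    refine ht (hB k w l₁ l₂ r₁ r₂ _ N _ L' c' _ _ _ κ hw hN hco ⟨e₁ + e₂, fun i n => ?_⟩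
      (fun n s t => ?_) φ)
    · have := he₁ n
      have := he₂ n
      have := hmx l₁ i (ms n)
      have := hmx l₂ i (ms n)
      constructor <;> omega
    · rw [mul_assoc, hi]
  · obtain ⟨t₁, ⟨e₁, he₁⟩, n₁⟩ := a3 l₁ hl₁ h0
    obtain ⟨t₂, ⟨e₂, he₂⟩, -⟩ := a3 l₂ hl₂ (hty ▸ h0)
    refine step hL hK hU hw hne (hTs l₁ hl₁) (hTs l₂ hl₂) hN D' (fun n => h (ms n))
      (fun n => hb _) (fun n => hi _) φ (· ∈ ty l₁) (d := e₁ + e₂) t₁ t₂ (fun i n => hmx _ _ _)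
      (fun i n => hmx _ _ _) (fun i hi n => (he₁ i hi n).trans (Nat.le_add_right _ _))
      (fun i hi n => (he₂ i (hty ▸ hi) n).trans (Nat.le_add_left _ _)) n₁ ?_
    obtain ⟨i₀, hi₀⟩ := Finset.nonempty_iff_ne_empty.2 h0
    exact ih _ (hm ▸ Fintype.card_subtype_lt (p := fun i => ¬ i ∈ ty l₁) (x := i₀)
      (not_not.2 hi₀)) _ rfl _ _ _ _ (D'.sub fun i => ¬ i ∈ ty l₁) (fun n => h (ms n))
      (fun n => hb _) (fun n => hi _) fun i => φ i

end AsmN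

open AsmN in
theorem dynN : LatStmt → KapStmt → SplitStmt → DynBStmt → DynUStmt → DynNStmt := by
  intro hL hK hS hB hU k w hw ι _ N hN F L c h h1 h2 h3 hb hi _ φ
  choose f _ hf _ using fun i n => (basic k).2.2.2.2.2.2.1 (L i n) (c i n) (h1 i n).1
  exact main hL hK hS hB hU hw hN _ ι rfl F L c f
    ⟨fun i n => (h1 i n).1, fun i n => (h1 i n).2, hf, h2, h3⟩ h hb hi φ

end Pool.Agent.Lib.MP_9177b7_ag.J
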