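import Pool.Agent.Lib.MP_9177b7_ag.J.DefsA

/-!
Algebraic lemmas for the collision estimate.
-/

noncomputable section

namespace Pool.Agent.Lib.MP_9177b7_ag.J

namespace Coll

open QuadraticAlgebra Fld

variable {k : Fld}

lemma mem_O {x : k.K} : x ∈ k.O ↔ (∃ a : ℤ, x.re = a) ∧ ∃ b : ℤ, x.im = b := by
  rw [Fld.O, Submodule.mem_span_pair]
  constructor
  · rintro ⟨a, b, rfl⟩
    exact ⟨⟨a, by simp [om]⟩, ⟨b, by simp [om]⟩⟩
  · rintro ⟨⟨a, ha⟩, ⟨b, hb⟩⟩
    exact ⟨a, b, by ext <;> simp [om, ha, hb]⟩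

lemma one_mem_O : (1 : k.K) ∈ k.O := mem_O.2 ⟨⟨1, by simp⟩, ⟨0, by simp⟩⟩

lemma om_mem_O : k.om ∈ k.O := mem_O.2 ⟨⟨0, by simp [om]⟩, ⟨1, by simp [om]⟩⟩

lemma int_mem_O (a : ℤ) : (a : k.K) ∈ k.O := mem_O.2 ⟨⟨a, by simp⟩, ⟨0, by simp⟩⟩

lemma nat_mem_O (a : ℕ) : (a : k.K) ∈ k.O := by simpa using int_mem_O (k := k) a

lemma mul_mem_O {x y : k.K} (hx : x ∈ k.O) (hy : y ∈ k.O) : x * y ∈ k.O := by
  obtain ⟨⟨a, ha⟩, ⟨b, hb⟩⟩ := mem_O.1 hx
  obtain ⟨⟨c, hc⟩, ⟨d, hd⟩⟩ := mem_O.1 hy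
  exact mem_O.2 ⟨⟨a * c - k.n * b * d, by simp [ha, hb, hc, hd]; ring⟩,
    ⟨a * d + b * c + k.t * b * d, by simp [ha, hb, hc, hd]⟩⟩

lemma star_mem_O {x : k.K} (hx : x ∈ k.O) : star x ∈ k.O := by
  obtain ⟨⟨a, ha⟩, ⟨b, hb⟩⟩ := mem_O.1 hx
  exact mem_O.2 ⟨⟨a + k.t * b, by simp [ha, hb]⟩, ⟨-b, by simp [hb]⟩⟩

lemma lift_mem_O {F : ℕ+} (s : k.SF F) : Fld.lift s ∈ k.O :=
  mem_O.2 ⟨⟨(s.val.re.val : ℕ), (Int.cast_natCast _).symm⟩,
    ⟨(s.val.im.val : ℕ), (Int.cast_natCast _).symm⟩⟩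

variable (k) in
/-- The different. -/
def del : k.K := k.om - star k.om

lemma del_mem_O : del k ∈ k.O := sub_mem om_mem_O (star_mem_O om_mem_O)

lemma norm_del : norm (del k) = -(k.D : ℚ) := by
  simp [del, om, norm_def, D]; ring

lemma D_neg : (k.D : ℚ) < 0 := by exact_mod_cast k.neg

lemma del_ne : del k ≠ 0 := fun h => by
  have h1 := norm_del (k := k)
  rw [h, QuadraticAlgebra.norm_zero] at h1
  linarith [D_neg (k := k)]

lemma sub_star' (z : k.K) {a : ℤ} (h : z.im = a) : z - star z = a * del k := by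
  ext <;> simp [del, om, h] <;> ring

lemma lat_O : k.Lat k.O 1 := ⟨1, k.om, rfl, by simp [det2, om], one_pos⟩

lemma adm_O : k.Adm 1 k.O := fun x hx => by
  rw [Nat.cast_one, one_mul]; exact mul_mem_O om_mem_O hx

lemma mul_mem_A {L : Submodule ℤ k.K} {u x : k.K} (hu : u ∈ k.O) (hx : x ∈ k.O * L) :
    u * x ∈ k.O * L := by
  refine Submodule.mul_induction_on hx (fun a ha b hb => ?_) fun a b ha hb => ?_
  · rw [← mul_assoc]
    exact Submodule.mul_mem_mul (mul_mem_O hu ha) hb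
  · rw [mul_add]
    exact add_mem ha hb

lemma le_A {L : Submodule ℤ k.K} {x : k.K} (hx : x ∈ L) : x ∈ k.O * L := by
  simpa using Submodule.mul_mem_mul one_mem_O hx

lemma det_mul (x u v : k.K) : k.det2 (x * u) (x * v) = norm x * k.det2 u v := by
  simp [det2, norm_def]; ring

lemma det_lin (α β u v : k.K) :
    k.det2 (k.lin α β u) (k.lin α β v) = (norm α - norm β) * k.det2 u v := by
  simp [det2, norm_def, lin]; ring

lemma det_mem {L : Submodule ℤ k.K} {c : ℚ} (h : k.Lat L c) {x y : k.K} (hx : x ∈ L)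
    (hy : y ∈ L) : ∃ m : ℤ, k.det2 x y = m * c := by
  obtain ⟨u, v, rfl, rfl, -⟩ := h
  obtain ⟨a, b, rfl⟩ := Submodule.mem_span_pair.1 hx
  obtain ⟨a', b', rfl⟩ := Submodule.mem_span_pair.1 hy
  exact ⟨a * b' - b * a', by simp [det2]; ring⟩

/-- A linear map of a lattice into itself has integral determinant. -/
lemma lin_int {L L' : Submodule ℤ k.K} {c : ℚ} (h : k.Lat L c) (h' : k.Lat L' c) {α β : k.K}
    (hm : ∀ x ∈ L, k.lin α β x ∈ L') : ∃ m : ℤ, norm α - norm β = m := by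
  obtain ⟨u, v, rfl, hc, h0⟩ := h
  obtain ⟨m, hm'⟩ := det_mem h' (hm u (Submodule.subset_span (by simp)))
    (hm v (Submodule.subset_span (by simp)))
  rw [det_lin, hc] at hm'
  exact ⟨m, mul_right_cancel₀ h0.ne' hm'⟩

lemma lin_apply (α β z : k.K) : k.lin α β z = α * z + β * star z := rfl

/-- The multiplier ring of a lattice lies in the maximal order. -/
lemma mult {A : Submodule ℤ k.K} {c : ℚ} (h : k.Lat A c) {x : k.K} (hx : ∀ y ∈ A, x * y ∈ A) :
    x ∈ k.O := by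
  obtain ⟨m, hm⟩ := lin_int h h (α := x) (β := 0) fun y hy => by
    rw [lin_apply, zero_mul, add_zero]; exact hx y hy
  obtain ⟨m', hm'⟩ := lin_int h h (α := x + 1) (β := 0) fun y hy => by
    rw [lin_apply, zero_mul, add_zero, add_mul, one_mul]; exact add_mem (hx y hy) hy
  simp [norm_def] at hm hm'
  exact mem_O.2 (k.max x.re x.im ⟨m' - m - 1, by push_cast; linear_combination hm' - hm⟩
    ⟨m, by linear_combination hm⟩)

/-- A linear map of a lattice onto a lattice of the same covolume has determinant `± 1`. -/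
lemma lin_unit {L L' : Submodule ℤ k.K} {c : ℚ} (h : k.Lat L c) (h' : k.Lat L' c) {α β : k.K}
    (hm : L.map (k.lin α β) = L') : norm α = norm β + 1 ∨ norm α = norm β - 1 := by
  obtain ⟨m, hm1⟩ := lin_int h h' (α := α) (β := β) fun x hx => hm ▸ Submodule.mem_map_of_mem hx
  obtain ⟨u, v, rfl, hc, h0⟩ := h'
  obtain ⟨x, hx, hxu⟩ := Submodule.mem_map.1 (hm.ge (Submodule.subset_span (by simp) :
    u ∈ Submodule.span ℤ {u, v}))
  obtain ⟨y, hy, hyv⟩ := Submodule.mem_map.1 (hm.ge (Submodule.subset_span (by simp) :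
    v ∈ Submodule.span ℤ {u, v}))
  obtain ⟨j, hj⟩ := det_mem h hx hy
  rw [← hxu, ← hyv, det_lin, hj, hm1] at hc
  have h1 : m * j = 1 := by
    have : ((m * j : ℤ) : ℚ) = 1 := mul_right_cancel₀ h0.ne' (by push_cast; linear_combination hc)
    exact_mod_cast this
  rcases Int.eq_one_or_neg_one_of_mul_eq_one h1 with rfl | rfl
  · left; push_cast at hm1; linear_combination hm1
  · right; push_cast at hm1; linear_combination hm1

lemma norm_nonneg' (x : k.K) : 0 ≤ norm x := by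
  have h1 : ((k.t ^ 2 - 4 * k.n : ℤ) : ℚ) < 0 := by exact_mod_cast k.neg
  push_cast at h1
  rw [norm_def]
  nlinarith [sq_nonneg (2 * x.re + k.t * x.im), mul_nonneg (neg_nonneg.2 h1.le) (sq_nonneg x.im)]

/-- The antilinear multipliers of a module. -/
def anti (A : Submodule ℤ k.K) : Submodule ℤ k.K where
  carrier := {V | ∀ x ∈ A, V * star x ∈ A}
  zero_mem' x _ := by rw [zero_mul]; exact zero_mem _
  add_mem' h h' x hx := by rw [add_mul]; exact add_mem (h x hx) (h' x hx)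
  smul_mem' c V h x hx := by rw [smul_mul_assoc]; exact A.smul_mem c (h x hx)

section padic

variable {l : ℕ} [Fact l.Prime] {r : ℚ_[l]}

lemma io_mul (hr : k.Root r) (x y : k.K) : k.io r (x * y) = k.io r x * k.io r y := by
  have h : r ^ 2 = (k.t : ℚ_[l]) * r - (k.n : ℚ_[l]) := hr
  simp [io]
  linear_combination (-(x.im : ℚ_[l]) * y.im) * h

lemma io_norm (hr : k.Root r) (x : k.K) :
    k.io r x * k.io ((k.t : ℚ_[l]) - r) x = ((norm x : ℚ) : ℚ_[l]) := by
  have h : r ^ 2 = (k.t : ℚ_[l]) * r - (k.n : ℚ_[l]) := hr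
  simp [io, norm_def]
  linear_combination (-(x.im : ℚ_[l]) * x.im) * h

lemma root_conj (hr : k.Root r) : k.Root ((k.t : ℚ_[l]) - r) := by
  have h : r ^ 2 = (k.t : ℚ_[l]) * r - (k.n : ℚ_[l]) := hr
  show _ = _
  linear_combination h

lemma root_le (hr : k.Root r) : ‖r‖ ≤ 1 := by
  have h : r ^ 2 = (k.t : ℚ_[l]) * r + -(k.n : ℚ_[l]) := by rw [← sub_eq_add_neg]; exact hr
  by_contra h1
  push Not at h1
  have h2 := Padic.nonarchimedean ((k.t : ℚ_[l]) * r) (-(k.n : ℚ_[l]))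
  rw [← h, norm_pow, norm_mul, _root_.norm_neg] at h2
  have h3 := Padic.norm_int_le_one (p := l) k.t
  have h4 := Padic.norm_int_le_one (p := l) k.n
  rcases le_max_iff.1 h2 with h5 | h5 <;> nlinarith

lemma io_le_one (hr : k.Root r) {x : k.K} (hx : x ∈ k.O) : ‖k.io r x‖ ≤ 1 := by
  obtain ⟨⟨a, ha⟩, ⟨b, hb⟩⟩ := mem_O.1 hx
  rw [io, ha, hb]
  refine (Padic.nonarchimedean _ _).trans (max_le ?_ ?_)
  · simpa using Padic.norm_int_le_one (p := l) a
  · rw [norm_mul]
    exact mul_le_one₀ (by simpa using Padic.norm_int_le_one (p := l) b) (norm_nonneg _)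
      (root_le hr)

lemma io_mul_le (hr : k.Root r) {u : k.K} (hu : u ∈ k.O) (x : k.K) :
    ‖k.io r (u * x)‖ ≤ ‖k.io r x‖ := by
  rw [io_mul hr, norm_mul]
  exact mul_le_of_le_one_left (norm_nonneg _) (io_le_one hr hu)

variable (r) in
/-- The antilinear multipliers that are small at one of the primes above `l`. -/
def tube (A : Submodule ℤ k.K) (κ : ℕ) : Submodule ℤ k.K where
  carrier := {V | V ∈ anti A ∧ ‖k.io r V‖ ≤ ((l : ℝ) ^ κ)⁻¹}
  zero_mem' := ⟨zero_mem _, by simp [io]⟩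
  add_mem' {V V'} h h' := ⟨add_mem h.1 h'.1, by
    have : k.io r (V + V') = k.io r V + k.io r V' := (k.ioL r).map_add V V'
    rw [this]
    exact (Padic.nonarchimedean _ _).trans (max_le h.2 h'.2)⟩
  smul_mem' c V h := ⟨(anti A).smul_mem c h.1, by
    have : k.io r (c • V) = c • k.io r V := (k.ioL r).map_smul c V
    rw [this, zsmul_eq_mul, norm_mul]
    exact (mul_le_of_le_one_left (norm_nonneg _) (Padic.norm_int_le_one c)).trans h.2⟩

lemma tube_min (hr : k.Root r) {L : Submodule ℤ k.K} {c : ℚ} (hA : k.Lat (k.O * L) c)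
    (hN : k.Nrm l L) (κ : ℕ) : ∀ V ∈ tube r (k.O * L) κ, V ≠ 0 → (l : ℝ) ^ κ ≤ k.N V := by
  rintro V ⟨hV, hV'⟩ h0
  obtain ⟨u, hu, h1, h2⟩ := hN
  obtain ⟨m, hm⟩ := lin_int hA hA (α := 0) (β := V) fun y hy => by
    rw [lin_apply, zero_mul, zero_add]; exact hV y hy
  have hm' : norm V = ((-m : ℤ) : ℚ) := by
    rw [QuadraticAlgebra.norm_zero] at hm; push_cast; linear_combination -hm
  have h3 : ∀ y ∈ k.O * L, (u : k.K) * y ∈ k.O := fun y hy => by
    refine Submodule.mul_induction_on hy (fun a ha b hb => ?_) fun a b ha hb => ?_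
    · rw [mul_left_comm]
      exact mul_mem_O ha (h2 b hb)
    · rw [mul_add]
      exact add_mem ha hb
  have h4 := h3 _ (hV _ (le_A (h1 1 one_mem_O)))
  rw [mul_one, star_natCast] at h4
  have h5 := io_le_one (root_conj hr) h4
  have hu' : ‖k.io ((k.t : ℚ_[l]) - r) (u : k.K)‖ = 1 := by
    simpa [io] using (Padic.norm_natCast_eq_one_iff (p := l)).2
      ((Nat.Prime.coprime_iff_not_dvd Fact.out).2 hu)
  rw [io_mul (root_conj hr), io_mul (root_conj hr), norm_mul, norm_mul, hu', one_mul,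
    mul_one] at h5
  have h6 : ‖((-m : ℤ) : ℚ_[l])‖ ≤ (l : ℝ) ^ (-κ : ℤ) := by
    have h7 := io_norm hr V
    rw [hm', Rat.cast_intCast] at h7
    rw [← h7, norm_mul, zpow_neg, zpow_natCast]
    exact (mul_le_of_le_one_right (norm_nonneg _) h5).trans hV'
  have h8 : 0 < -m := by
    have := (norm_nonneg' V).lt_of_ne' (mt norm_eq_zero_iff_eq_zero.1 h0)
    rw [hm'] at this
    exact_mod_cast this
  have h9 := Int.le_of_dvd h8 ((Padic.norm_int_le_pow_iff_dvd _ _).1 h6)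
  rw [N, hm']
  exact_mod_cast h9

end padic

section normal

variable {A M M' : Submodule ℤ k.K} {f : ℕ} {lam α β : k.K}

/-- The two components of a linear map that sends `f A` into `A`. -/
lemma comp_mem (hA : ∀ u ∈ k.O, ∀ x ∈ A, u * x ∈ A)
    (hB : ∀ y ∈ A, k.lin α β (f * y) ∈ A) {x : k.K} (hx : x ∈ A) :
    f * del k * α * x ∈ A ∧ f * del k * β * star x ∈ A := by
  have h1 := hB x hx
  have h2 := hB _ (hA _ om_mem_O x hx)
  constructor
  · convert sub_mem h2 (hA _ (star_mem_O om_mem_O) _ h1) using 1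
    simp only [lin_apply, del, star_mul', star_natCast]
    ring
  · convert sub_mem (hA _ om_mem_O _ h1) h2 using 1
    simp only [lin_apply, del, star_mul', star_natCast]
    ring

/-- Two generators that are both mapped into `A`. -/
lemma two_gen (hA : ∀ u ∈ k.O, ∀ x ∈ A, u * x ∈ A)
    (hgen : ∀ x ∈ A, ∃ u ∈ k.O, ∃ y ∈ A, x = u * lam + f * y)
    (hB : ∀ y ∈ A, k.lin α β (f * y) ∈ A) {s s' : k.K} (hs : s ∈ k.O) (hs' : s' ∈ k.O)
    (h : k.lin α β (s * lam) ∈ A) (h' : k.lin α β (s' * lam) ∈ A) {z : ℤ}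
    (hz : (s * star s').im = z) {x : k.K} (hx : x ∈ A) :
    z • (del k * α) * x ∈ A ∧ z • (del k * β) * star x ∈ A := by
  have e := sub_star' _ hz
  rw [star_mul', star_star] at e
  obtain ⟨u, hu, y, hy, rfl⟩ := hgen x hx
  obtain ⟨h1, h2⟩ := comp_mem hA hB hy
  constructor
  · convert add_mem (hA _ hu _ (sub_mem (hA _ (star_mem_O hs') _ h) (hA _ (star_mem_O hs) _ h')))
      (A.smul_mem z h1) using 1
    simp only [lin_apply, star_mul', zsmul_eq_mul]
    linear_combination (-u * α * lam) * e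
  · convert add_mem (hA _ (star_mem_O hu) _ (sub_mem (hA _ hs _ h') (hA _ hs' _ h)))
      (A.smul_mem z h2) using 1
    simp only [lin_apply, star_mul', zsmul_eq_mul, star_add, star_natCast]
    linear_combination (-star u * β * star lam) * e

/-- Two generators of the same lattice. -/
lemma same_gen {c : ℚ} (hL : k.Lat A c) (hA : ∀ u ∈ k.O, ∀ x ∈ A, u * x ∈ A) (hf : 0 < f)
    (hgen : ∀ x ∈ A, ∃ u ∈ k.O, ∃ y ∈ A, x = u * lam + f * y) {s s' : k.K} (hs : s ∈ k.O)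
    (hs' : s' ∈ k.O) {a : ℤ} {y : k.K} (hy : y ∈ A) (h : s * lam = a * (s' * lam) + f * y) :
    ∃ z : ℤ, (s * star s').im = f * z := by
  have hf' : (f : k.K) ≠ 0 := Nat.cast_ne_zero.2 hf.ne'
  have hw : s * star s' - a * (s' * star s') ∈ k.O :=
    sub_mem (mul_mem_O hs (star_mem_O hs')) (mul_mem_O (int_mem_O a) (mul_mem_O hs' (star_mem_O hs')))
  have h1 : (s * star s' - a * (s' * star s')) / f ∈ k.O := mult hL fun x hx => by
    obtain ⟨u, hu, y', hy', rfl⟩ := hgen x hx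
    convert add_mem (hA _ hu _ (hA _ (star_mem_O hs') _ hy)) (hA _ hw _ hy') using 1
    field_simp
    linear_combination (u * star s') * h
  obtain ⟨-, z, hz⟩ := mem_O.1 h1
  refine ⟨z, ?_⟩
  have h2 : s * star s' = f * ((s * star s' - a * (s' * star s')) / f) + a * (s' * star s') := by
    field_simp
    ring
  rw [h2, im_add, im_mul, hz, ← algebraMap_norm_eq_mul_star]
  simp

end normal

end Coll

end Pool.Agent.Lib.MP_9177b7_ag.J
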