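import Pool.Agent.Lib.MP_9177b7_ag.J.DefsE

/-!
Special points and special curves of the product of two modular curves, Galois orbits.
-/

open Set
open scoped UpperHalfPlane

noncomputable section

namespace Pool.Agent.Lib.MP_9177b7_ag.J

/-- CM points of the upper half plane. -/
def IsCM (z : ℍ) : Prop := ∃ a b c : ℤ, a ≠ 0 ∧ a * (z : ℂ) ^ 2 + b * z + c = 0

/-- The image in the plane of the graph of the Möbius transformation of a rational matrix. -/
def modCurve (g : Matrix (Fin 2) (Fin 2) ℚ) : Set (ℂ × ℂ) :=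
  {p | ∃ z z' : ℍ, (z' : ℂ) = (g 0 0 * z + g 0 1) / (g 1 0 * z + g 1 1) ∧ p = (CM.jH z, CM.jH z')}

/-- The special curves of the product of two copies of the `j`-line. -/
def SpecialCurve (Z : Set (ℂ × ℂ)) : Prop :=
  (∃ z : ℍ, IsCM z ∧ (Z = {CM.jH z} ×ˢ univ ∨ Z = univ ×ˢ {CM.jH z})) ∨
    ∃ g : Matrix (Fin 2) (Fin 2) ℚ, 0 < g.det ∧ Z = modCurve g

/-- The orbit of a point of the plane under the field automorphisms of `ℂ`. -/
def galOrbit (x : ℂ × ℂ) : Set (ℂ × ℂ) := {y | ∃ σ : ℂ ≃+* ℂ, y = (σ x.1, σ x.2)}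

/-- The mean of a function over the orbit. -/
def orbitMean (x : ℂ × ℂ) (φ : ℂ × ℂ → ℝ) : ℝ := (∑ᶠ y ∈ galOrbit x, φ y) / (galOrbit x).ncard

/-- `z` lies in the field generated by the square root of `-d`. -/
def InField (d : ℕ) (z : ℍ) : Prop := ∃ x y : ℚ, (z : ℂ) = x + y * (Complex.I * Real.sqrt d)

/-- The odd prime `l` splits in the order attached to the CM point `z`. -/
def SplitAt (l : ℕ) (z : ℍ) : Prop :=
  ∃ a b c : ℤ, a ≠ 0 ∧ a * (z : ℂ) ^ 2 + b * z + c = 0 ∧ ¬ (l : ℤ) ∣ b ^ 2 - 4 * a * c ∧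
    ∃ u : ℤ, (l : ℤ) ∣ u ^ 2 - (b ^ 2 - 4 * a * c)

end Pool.Agent.Lib.MP_9177b7_ag.J
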