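import Pool.Agent.Lib.MP_9177b7_ag.J.DefsU
import Pool.Agent.Lib.MP_9177b7_ag.J.Dyn

/-!
Orbits of lattices whose conductors are divisible by the two primes: statements of the pieces.
-/

open MeasureTheory Filter Topology Set Pointwise
open scoped MatrixGroups ENNReal BoundedContinuousFunction

noncomputable section

namespace Pool.Agent.Lib.MP_9177b7_ag.J

namespace Fld

variable {k : Fld}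

instance sfMeas (F : ℕ+) : MeasurableSpace (k.SF F) := ⊤

/-- `t` is congruent to one modulo `G`. -/
def One {F : ℕ+} (G : ℕ) (t : k.SF F) : Prop := ∃ y ∈ k.O, lift t = 1 + (G : k.K) * y

/-- `t` is trivial at the primes which do not divide `M`. -/
def Triv {F : ℕ+} (M : ℕ) (t : k.SF F) : Prop :=
  ∃ e : ℕ, ∃ y ∈ k.O, (M : k.K) ^ e * (lift t - 1) = ((F : ℕ) : k.K) * y

/-- The quotient of the two embeddings of `s` at `l` is `τ ^ 2` modulo `F`. -/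
def Rl {F : ℕ+} {l : ℕ} [Fact l.Prime] (r τ : ℚ_[l]) (s : k.SF F) : Prop :=
  ‖k.io ((k.t : ℚ_[l]) - r) (lift s) - τ ^ 2 * k.io r (lift s)‖ ≤ ‖((F : ℕ) : ℚ_[l])‖

end Fld

open Fld Dyn

section

variable (k : Fld) {l₁ l₂ : ℕ} [Fact l₁.Prime] [Fact l₂.Prime] (r₁ : ℚ_[l₁]) (r₂ : ℚ_[l₂])

/-- The relation between the compact torus and the residue classes. -/
def RR {F : ℕ+} (m : GG l₁ l₂) (s : k.SF F) : Prop := Rl r₁ (m.1 0 0) s ∧ Rl r₂ (m.2.1 0 0) s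

/-- The Haar measure of the group of related pairs. -/
structure Kap (F : ℕ+) (κ : Measure (MM l₁ l₂ × k.SF F)) : Prop where
  prob : IsProbabilityMeasure κ
  ae : ∀ᵐ q ∂κ, RR k r₁ r₂ (q.1 : GG l₁ l₂) q.2
  inv : ∀ g : MM l₁ l₂ × k.SF F, RR k r₁ r₂ (g.1 : GG l₁ l₂) g.2 → κ.map (g * ·) = κ
  le : ∀ E : k.SF F → Prop, κ {q | E q.2} ≤ ENNReal.ofReal (4 * k.pr F E)
  mix : ∀ (Y : Type) [TopologicalSpace Y] [MeasurableSpace Y] [BorelSpace Y]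
    [MulAction (GG l₁ l₂) Y] [ContinuousSMul (GG l₁ l₂) Y] (P : k.SF F → Y),
    (∀ t s, Triv (l₁ * l₂) t → P (t * s) = P s) →
    κ.map (fun q => (q.1 : GG l₁ l₂) • P q.2) = mix l₁ l₂ k F P

end

/-- Residue classes with prescribed local components. -/
def LocStmt : Prop :=
  ∀ (k : Fld) (l₁ l₂ : ℕ) [Fact l₁.Prime] [Fact l₂.Prime] (r₁ : ℚ_[l₁]) (r₂ : ℚ_[l₂]), l₁ ≠ l₂ →
    l₁ ≠ 2 → l₂ ≠ 2 → Good k r₁ → Good k r₂ → ∀ F : ℕ+,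
    RR k r₁ r₂ 1 (1 : k.SF F) ∧
    (∀ m ∈ MM l₁ l₂, ∀ m' ∈ MM l₁ l₂, ∀ s s' : k.SF F, RR k r₁ r₂ m s → RR k r₁ r₂ m' s' →
      RR k r₁ r₂ (m * m') (s * s')) ∧
    (∀ m ∈ MM l₁ l₂, ∀ s : k.SF F, RR k r₁ r₂ m s → RR k r₁ r₂ m⁻¹ s⁻¹) ∧
    (∀ m ∈ MM l₁ l₂, ∀ s : k.SF F, ∃ t, Triv (l₁ * l₂) t ∧ RR k r₁ r₂ m (t * s)) ∧
    (∀ (G : ℕ) (τ : ℚ_[l₁]ˣ), G ∣ F → ‖(τ : ℚ_[l₁])‖ = 1 → ‖(τ : ℚ_[l₁]) - 1‖ ≤ ‖(G : ℚ_[l₁])‖ →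
      ∃ t : k.SF F, One G t ∧ Triv (l₁ * l₂) t ∧ RR k r₁ r₂ (dg τ, 1) t) ∧
    ∃ U : Finset (k.SF F), U.card ≤ 4 ∧ ∀ s, ∃ u ∈ U, ∃ m ∈ MM l₁ l₂, RR k r₁ r₂ m (u * s)

/-- Existence of the Haar measure of the group of related pairs. -/
def KapStmt : Prop :=
  ∀ (k : Fld) (l₁ l₂ : ℕ) [Fact l₁.Prime] [Fact l₂.Prime] (r₁ : ℚ_[l₁]) (r₂ : ℚ_[l₂]), l₁ ≠ l₂ →
    l₁ ≠ 2 → l₂ ≠ 2 → Good k r₁ → Good k r₂ → ∀ F : ℕ+, ∃ κ, Kap k r₁ r₂ F κ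

/-- Local normal forms and ancestors of lattices. -/
def LatStmt : Prop :=
  ∀ k : Fld,
    (∀ (L : Submodule ℤ k.K) (c : ℚ) (f l₁ l₂ : ℕ), k.Lat L c → k.Cond L f → l₁.Prime → l₂.Prime →
      ∃ α : k.K, α ≠ 0 ∧ k.Dep l₁ (f.factorization l₁) (α • L) ∧
        k.Dep l₂ (f.factorization l₂) (α • L)) ∧
    (∀ (l : ℕ) [Fact l.Prime] (e : ℕ) (L : Submodule ℤ k.K) (c : ℚ), k.Lat L c → k.Dep l e L →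
      ‖(c : ℚ_[l])‖ = ((l : ℝ) ^ e)⁻¹) ∧
    (∀ (l e F : ℕ) (L : Submodule ℤ k.K), l.Prime → F ≠ 0 → k.Dep l e L → k.Adm F L →
      l ^ e ∣ F ∧ k.Adm (F / l ^ F.factorization l * l ^ e) L) ∧
    (∀ (l e j F : ℕ) (L : Submodule ℤ k.K) (c : ℚ), l.Prime → F ≠ 0 → k.Lat L c → k.Adm F L →
      k.Dep l e L → j ≤ e → ∃ L' : Submodule ℤ k.K, k.Lat L' (c / (l : ℚ) ^ j) ∧ k.Adm F L' ∧
        k.Dep l (e - j) L' ∧ L ≤ L' ∧ (∀ x ∈ L', (l : k.K) ^ j * x ∈ L) ∧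
        ∀ l' e' : ℕ, l'.Prime → l' ≠ l → k.Dep l' e' L → k.Dep l' e' L') ∧
    (∀ (l : ℕ) (L : Submodule ℤ k.K), k.Dep l 0 L ↔ k.Nrm l L) ∧
    ∀ (F : ℕ+) (G : ℕ) (t : k.SF F) (L : Submodule ℤ k.K) (c : ℚ), G ∣ F → One G t → k.Lat L c →
      k.Adm G L → act t L = L

/-- A point near a piece of a Hecke correspondence gives a linear map between the lattices. -/
def LinkUStmt : Prop :=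
  ∀ (k : Fld) (w : ℂ) (l₁ l₂ : ℕ) [Fact l₁.Prime] [Fact l₂.Prime] (r₁ : ℚ_[l₁]) (r₂ : ℚ_[l₂])
    [PolishSpace (XX l₁ l₂)], k.Root w → Good k r₁ → Good k r₂ →
    ∀ (B : Matrix (Fin 2) (Fin 2) ℚ) (Ω : Set (GG l₁ l₂)), B.det ≠ 0 → IsCompact Ω →
    ∃ (Nn : ℕ) (R : ℝ), 0 < Nn ∧ ∀ m : ℕ, ∃ U : Set (XX l₁ l₂ × XX l₁ l₂), IsOpen U ∧
      (sp l₁ l₂).GrU B Ω ⊆ U ∧ ∀ (L₁ L₂ : Submodule ℤ k.K) (c₁ c₂ : ℚ) (x₁ y₁ x₂ y₂ : k.K),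
        OB k w L₁ c₁ x₁ y₁ → OB k w L₂ c₂ x₂ y₂ → ∀ μ ∈ MM l₁ l₂, ∀ (a₁ a₂ : ℚ_[l₁])
        (b₁ b₂ : HH l₂),
        ((up a₁ * Join.wl l₁, b₁, 1) : GG l₁ l₂) * μ * fr k w r₁ r₂ x₁ y₁ ∈ Proj.KK l₁ l₂ →
        ((up a₂ * Join.wl l₁, b₂, 1) : GG l₁ l₂) * μ * fr k w r₁ r₂ x₂ y₂ ∈ Proj.KK l₁ l₂ →
        ((QuotientGroup.mk (((up a₁ * Join.wl l₁, b₁, 1) : GG l₁ l₂) * μ * fr k w r₁ r₂ x₁ y₁),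
          QuotientGroup.mk (((up a₂ * Join.wl l₁, b₂, 1) : GG l₁ l₂) * μ * fr k w r₁ r₂ x₂ y₂)) :
          XX l₁ l₂ × XX l₁ l₂) ∈ U →
        (∀ α : k.K, α ≠ 0 → α • L₁ ≤ L₂ → (Nn : ℝ) * c₂ < k.N α * c₁) →
        k.EvU l₁ r₁ Nn R m c₁ c₂ L₁ L₂

/-- The common data of the two cases. -/
structure Core (k : Fld) {l₁ l₂ : ℕ} [Fact l₁.Prime] [Fact l₂.Prime] (r₁ : ℚ_[l₁]) (r₂ : ℚ_[l₂])
    {ι : Type} (F : ℕ → ℕ+) (L : ι → ℕ → Submodule ℤ k.K) (c : ι → ℕ → ℚ) (e₁ e₂ : ι → ℕ → ℕ)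
    (h : ∀ n, k.SF (F n) → ℝ) (κ : ∀ n, Measure (MM l₁ l₂ × k.SF (F n))) : Prop where
  ne : l₁ ≠ l₂
  o₁ : l₁ ≠ 2
  o₂ : l₂ ≠ 2
  d₁ : ¬ (l₁ : ℤ) ∣ k.D
  d₂ : ¬ (l₂ : ℤ) ∣ k.D
  g₁ : Good k r₁
  g₂ : Good k r₂
  kap : ∀ n, Kap k r₁ r₂ (F n) (κ n)
  lat : ∀ i n, k.Lat (L i n) (c i n)
  adm : ∀ i n, k.Adm (F n) (L i n)
  dep₁ : ∀ i n, k.Dep l₁ (e₁ i n) (L i n)
  dep₂ : ∀ i n, k.Dep l₂ (e₂ i n) (L i n)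
  big : ∀ i (a : ℕ), 0 < a → ∀ᶠ n in atTop, ¬ k.Adm a (L i n)
  str : ∀ i j, i ≠ j → ∀ B : ℝ, ∀ᶠ n in atTop, ∀ α : k.K, α ≠ 0 → α • L i n ≤ L j n →
    B * c j n < k.N α * c i n
  bdd : ∀ n s, |h n s| ≤ 1

/-- The case of bounded depth at the two primes. -/
def DynBStmt : Prop :=
  ∀ (k : Fld) (w : ℂ) (l₁ l₂ : ℕ) [Fact l₁.Prime] [Fact l₂.Prime] (r₁ : ℚ_[l₁]) (r₂ : ℚ_[l₂])
    (ι : Type) [Fintype ι] (N : ℕ) (F : ℕ → ℕ+) (L : ι → ℕ → Submodule ℤ k.K) (c : ι → ℕ → ℚ)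
    (e₁ e₂ : ι → ℕ → ℕ) (h : ∀ n, k.SF (F n) → ℝ) (κ : ∀ n, Measure (MM l₁ l₂ × k.SF (F n))),
    k.Root w → 0 < N → Core k r₁ r₂ F L c e₁ e₂ h κ →
    (∃ d, ∀ i n, e₁ i n ≤ d ∧ e₂ i n ≤ d) → (∀ n s u, h n (u ^ N * s) = h n s) →
    ∀ φ : ι → ℂ →ᵇ ℝ, Tendsto (fun n => ∫ q, h n q.2 *
      (∏ i, φ i (CM.jL ((act q.2 (L i n)).map (k.ioL w))) - ∏ i, ∫ z, φ i z ∂muJ) ∂κ n)
      atTop (𝓝 0)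

/-- The case of unbounded comparable depths at the two primes. -/
def DynUStmt : Prop :=
  ∀ (k : Fld) (w : ℂ) (l₁ l₂ : ℕ) [Fact l₁.Prime] [Fact l₂.Prime] (r₁ : ℚ_[l₁]) (r₂ : ℚ_[l₂])
    (ι : Type) [Fintype ι] (N : ℕ) (F : ℕ → ℕ+) (L : ι → ℕ → Submodule ℤ k.K) (c : ι → ℕ → ℚ)
    (e₁ e₂ : ι → ℕ → ℕ) (h : ∀ n, k.SF (F n) → ℝ) (κ : ∀ n, Measure (MM l₁ l₂ × k.SF (F n)))
    (G : ℕ → ℕ), k.Root w → 0 < N → Core k r₁ r₂ F L c e₁ e₂ h κ →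
    (∀ i, Tendsto (e₂ i) atTop atTop) →
    (∃ d, ∀ i j n, e₁ i n ≤ e₁ j n + d ∧ e₂ i n ≤ e₂ j n + d) → (∀ n, G n ∣ F n) →
    (∀ i (C : ℕ), ∀ᶠ n in atTop, (G n).factorization l₁ + C ≤ e₁ i n) →
    (∀ n s t, One (G n) t → h n (t ^ N * s) = h n s) →
    ∀ φ : ι → ℂ →ᵇ ℝ, Tendsto (fun n => ∫ q, h n q.2 *
      (∏ i, φ i (CM.jL ((act q.2 (L i n)).map (k.ioL w))) - ∏ i, ∫ z, φ i z ∂muJ) ∂κ n)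
      atTop (𝓝 0)

end Pool.Agent.Lib.MP_9177b7_ag.J
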