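import Pool.Agent.Lib.MP_9177b7_ag.J.DefsA
import Pool.Agent.Lib.MP_9177b7_ag.J.DefsF

/-!
Several factors, unipotent limits, several fields: definitions and statements of the pieces.
-/

open MeasureTheory ProbabilityTheory Filter Topology Set Pointwise
open scoped MatrixGroups ENNReal NNReal UpperHalfPlane BoundedContinuousFunction

noncomputable section

namespace Pool.Agent.Lib.MP_9177b7_ag.J

/-! ### Ergodic part -/

/-- Ergodicity of a family of maps, in terms of measures below `μ`. -/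
def ErgF {Y P : Type} [MeasurableSpace Y] (μ : Measure Y) (T : P → Y → Y) : Prop :=
  ∀ lam : Measure Y, lam ≤ μ → (∀ p, lam.map (T p) = lam) → lam = lam univ • μ

/-- An equivariant decomposition of `ν`. -/
structure DecG {Y V : Type} [TopologicalSpace Y] [MeasurableSpace Y] (A : V → Y → Y)
    (ν : Measure Y) (Θ : Kernel Y Y) (Z : Set Y) : Prop where
  markov : IsMarkovKernel Θ
  meas : MeasurableSet Z
  bind : ν.bind Θ = ν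
  equi : ∀ v z, z ∈ Z → A v z ∈ Z → Θ (A v z) = (Θ z).map (A v)
  full : ∀ᵐ z ∂ν, z ∈ Z
  typ : ∀ᵐ z ∂ν, ∀ᵐ w ∂Θ z, Θ w = Θ z ∧ w ∈ Z
  lusin : ∀ ε : ℝ≥0∞, 0 < ε → ∃ Q : Set Y, IsCompact Q ∧ Q ⊆ Z ∧ ν Qᶜ < ε ∧
    ∀ φ : Y → ℝ, Continuous φ → HasCompactSupport φ → ContinuousOn (fun z => ∫ w, φ w ∂Θ z) Q

/-- Ergodic decomposition along one map. -/
def DecZStmt : Prop :=
  ∀ (Y V : Type) [TopologicalSpace Y] [PolishSpace Y] [LocallyCompactSpace Y] [MeasurableSpace Y]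
    [BorelSpace Y] (A : V → Y → Y) (T : Y → Y) (ν : Measure Y), (∀ v, IsHomeomorph (A v)) →
    Continuous T → (∀ v y, A v (T y) = T (A v y)) → IsProbabilityMeasure ν → ν.map T = ν →
    ∃ Θ Z, DecG A ν Θ Z ∧ ∀ (Y' : Type) [MeasurableSpace Y'] [MeasurableSpace.CountablyGenerated Y']
      (π : Y → Y') (T' : Y' → Y'), Measurable π → Measurable T' → (∀ y, π (T y) = T' (π y)) →
      ErgF (ν.map π) (fun _ : Unit => T') → ∀ᵐ z ∂ν, (Θ z).map π = ν.map π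

/-- Ergodic decomposition along a flow of `ℚ_p`. -/
def DecQStmt : Prop :=
  ∀ (p : ℕ) [Fact p.Prime] (Y V : Type) [TopologicalSpace Y] [PolishSpace Y]
    [LocallyCompactSpace Y] [MeasurableSpace Y] [BorelSpace Y] (A : V → Y → Y)
    (T : ℚ_[p] → Y → Y) (ν : Measure Y), (∀ v, IsHomeomorph (A v)) →
    Continuous (fun q : ℚ_[p] × Y => T q.1 q.2) → (∀ y, T 0 y = y) →
    (∀ s s' y, T (s + s') y = T s (T s' y)) → (∀ v s y, A v (T s y) = T s (A v y)) →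
    IsProbabilityMeasure ν → (∀ s, ν.map (T s) = ν) →
    ∃ Θ Z, DecG A ν Θ Z ∧ ∀ (Y' : Type) [MeasurableSpace Y'] [MeasurableSpace.CountablyGenerated Y']
      (π : Y → Y') (T' : ℚ_[p] → Y' → Y'), Measurable π → (∀ s, Measurable (T' s)) →
      (∀ s y, π (T s y) = T' s (π y)) → ErgF (ν.map π) T' → ∀ᵐ z ∂ν, (Θ z).map π = ν.map π

namespace Sp

variable {l : ℕ} [Fact l.Prime] (S : Sp l)

/-- The action of a power of `SL₂(ℚ_l)` on a power of `X`. -/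
def hN {ι : Type} (v : ι → HH l) (z : ι → S.X) : ι → S.X := fun i => S.hs (v i) (z i)

/-- The action of a power of `C` on a power of `X`. -/
def cN {ι : Type} (c : ι → S.C) (z : ι → S.X) : ι → S.X := fun i => S.cc (c i) (z i)

/-- A line of upper unipotents. -/
def ln {ι : Type} (x : ι → ℚ_[l]) (s : ℚ_[l]) : (ι → S.X) → ι → S.X := S.hN fun i => up (s * x i)

/-- The properties of the homogeneous measure. -/
structure Nice (μ : Measure S.X) : Prop where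
  prob : IsProbabilityMeasure μ
  inv : ∀ g : S.G, μ.map (g • ·) = μ
  bound : S.Bound μ
  ergU : S.ErgU μ
  mixU : ∀ (κ : Type) [Fintype κ] (x : κ → ℚ_[l]), (∀ i, x i ≠ 0) →
    ErgF (Measure.pi fun _ : κ => μ) (S.ln x)

/-- Pieces of Haar measure on orbits are dominated by `μ`. -/
def Low (μ : Measure S.X) : Prop :=
  ∃ m : Measure S.G, IsFiniteMeasureOnCompacts m ∧ m.IsOpenPosMeasure ∧ m.IsMulLeftInvariant ∧
    ∀ (O : Set S.G) (Q : Set S.X), IsCompact O → IsCompact Q → ∃ C : ℝ≥0, ∀ x ∈ Q,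
      (m.restrict O).map (· • x) ≤ C • μ

/-- A compact piece of a Hecke correspondence twisted by the upper triangular group. -/
def GrU (B : Matrix (Fin 2) (Fin 2) ℚ) (Ω : Set S.G) : Set (S.X × S.X) :=
  {z | ∃ g₁ ∈ Ω, ∃ g₂ ∈ Ω, z = (g₁ • S.o, g₂ • S.o) ∧ ∃ d₁ d₂ q : ℚ_[l],
    (g₂.1 : Matrix (Fin 2) (Fin 2) ℚ_[l]) * B.map (algebraMap ℚ ℚ_[l]) =
      !![d₁, q; 0, d₂] * (g₁.1 : Matrix (Fin 2) (Fin 2) ℚ_[l])}

/-- The coordinate `j` is independent of the coordinates in `A` and has law `μ`. -/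
def Ind {ι : Type} (μ : Measure S.X) (A : Set ι) (j : ι) (θ : Measure (ι → S.X)) : Prop :=
  ∃ μA : Measure (A → S.X), IsProbabilityMeasure μA ∧
    θ.map (fun w => ((fun i : A => w i), w j)) = μA.prod μ

end Sp

/-- Orbits of the upper triangular group are null. -/
def NullStmt : Prop :=
  ∀ (l : ℕ) [Fact l.Prime] (S : Sp l) (μ : Measure S.X), S.Bound μ → ∀ (x : S.X) (Ω : Set S.G),
    IsCompact Ω → μ ((fun g : S.G => g • x) '' {g | g ∈ Ω ∧ g.1 1 0 = 0}) = 0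

/-- The covering argument with frozen coordinates. -/
def LineNStmt : Prop :=
  ∀ (l : ℕ) [Fact l.Prime] (S : Sp l) (μ : Measure S.X) (ι : Type) [Fintype ι]
    (ν : Measure (ι → S.X)) (Θ : Kernel (ι → S.X) (ι → S.X)) (Z : Set (ι → S.X)) (t : ℚ_[l]ˣ)
    (A : Set ι) (j : ι), j ∉ A → 1 < ‖(t : ℚ_[l])‖ → IsProbabilityMeasure μ → S.Bound μ →
    IsProbabilityMeasure ν → DecG S.hN ν Θ Z → ν.map (S.hN fun _ => dg t) = ν →
    (∀ᵐ z ∂ν, S.Ind μ A j (Θ z)) →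
    ∀ᵐ z ∂ν, ∃ x : ι → ℚ_[l], x ≠ 0 ∧ (∀ i ∈ A, x i = 0) ∧ ∀ s, (Θ z).map (S.ln x s) = Θ z

/-- Polynomial divergence with frozen coordinates. -/
def LineUStmt : Prop :=
  ∀ (l : ℕ) [Fact l.Prime], l ≠ 2 → ∀ (S : Sp l) (μ : Measure S.X) (ι : Type) [Fintype ι]
    (ν : Measure (ι → S.X)) (Θ : Kernel (ι → S.X) (ι → S.X)) (Z : Set (ι → S.X)) (y : ι → ℚ_[l])
    (A : Set ι) (j : ι), j ∉ A → y j ≠ 0 → IsProbabilityMeasure μ → S.Bound μ →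
    IsProbabilityMeasure ν → DecG S.hN ν Θ Z → (∀ s, ν.map (S.ln y s) = ν) →
    (∀ᵐ z ∂ν, S.Ind μ A j (Θ z)) →
    ∀ᵐ z ∂ν, ∃ x : ι → ℚ_[l], x ≠ 0 ∧ (∀ i ∈ A, x i = 0) ∧ ∀ s, (Θ z).map (S.ln x s) = Θ z

/-- Ratner's step: a diagonal unipotent invariance gives a diagonalisable invariance. -/
def DiagUStmt : Prop :=
  ∀ (l : ℕ) [Fact l.Prime], l ≠ 2 → ∀ (S : Sp l) (μ : Measure S.X) (θ : Measure (S.X × S.X))
    (W : Set (S.X × S.X)) (c : ℚ_[l]ˣ), S.Bound μ → IsProbabilityMeasure θ → θ.map Prod.fst = μ →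
    (∀ᵐ w ∂θ, w ∈ W) → (∀ w ∈ W, ∀ v, S.h2 v w ∈ W → θ.map (S.h2 v) = θ) →
    (∀ s, θ.map (S.h2 (up s, up (s * c))) = θ) →
    (∀ s, θ.map (S.h2 (1, up s)) = θ) ∨ ∃ (t : ℚ_[l]ˣ) (q : ℚ_[l]), 1 < ‖(t : ℚ_[l])‖ ∧
      θ.map (S.h2 (dg t, up q * dg t * up (-q))) = θ

/-- Classification of one component of a joining of two factors. -/
def CoreUStmt : Prop :=
  ∀ (l : ℕ) [Fact l.Prime], l ≠ 2 → ∀ (S : Sp l) (μ : Measure S.X) (θ : Measure (S.X × S.X))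
    (W : Set (S.X × S.X)) (x y : ℚ_[l]), S.Nice μ → IsProbabilityMeasure θ →
    θ.map Prod.fst = μ → θ.map Prod.snd = μ →
    (∀ᵐ w ∂θ, w ∈ W) → (∀ w ∈ W, ∀ v, S.h2 v w ∈ W → θ.map (S.h2 v) = θ) → (x ≠ 0 ∨ y ≠ 0) →
    (∀ s, θ.map (S.h2 (up (s * x), up (s * y))) = θ) →
    θ = μ.prod μ ∨ ∃ (B : Matrix (Fin 2) (Fin 2) ℚ) (Ω : Set S.G), B.det ≠ 0 ∧ IsCompact Ω ∧
      0 < θ (S.GrU B Ω)

/-- The joining theorem for several factors, diagonalisable case. -/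
def JoinNStmt : Prop :=
  ∀ (l : ℕ) [Fact l.Prime] (S : Sp l) (μ : Measure S.X) (b : S.C) (t : ℚ_[l]ˣ), S.Nice μ →
    1 < ‖(t : ℚ_[l])‖ → (∀ (κ : Type) [Fintype κ], ErgF (Measure.pi fun _ : κ => μ)
      (fun _ : Unit => S.cN fun _ => b)) →
    ∀ (ι : Type) [Fintype ι] (ν : Measure (ι → S.X)), IsProbabilityMeasure ν →
    (∀ i, ν.map (fun z => z i) = μ) → (∀ i j, i ≠ j → ν.map (fun z => (z i, z j)) = μ.prod μ) →
    ν.map (S.cN fun _ => b) = ν → ν.map (S.hN fun _ => dg t) = ν →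
    ν = Measure.pi fun _ => μ

/-- The joining theorem for several factors, unipotent case. -/
def JoinUStmt : Prop :=
  ∀ (l : ℕ) [Fact l.Prime], l ≠ 2 → ∀ (S : Sp l) (μ : Measure S.X) (p : ℕ) [Fact p.Prime]
    (u : ℚ_[p] → S.C), S.Nice μ → Continuous u → (∀ s s', u (s + s') = u s * u s') →
    (∀ (κ : Type) [Fintype κ] (y : κ → ℚ_[p]), (∀ i, y i ≠ 0) → ErgF (Measure.pi fun _ : κ => μ)
      (fun s : ℚ_[p] => S.cN fun i => u (s * y i))) →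
    ∀ (ι : Type) [Fintype ι] (ν : Measure (ι → S.X)) (x : ι → ℚ_[l]) (y : ι → ℚ_[p]),
    (∀ i, x i ≠ 0) → (∀ i, y i ≠ 0) → IsProbabilityMeasure ν → (∀ i, ν.map (fun z => z i) = μ) →
    (∀ s, ν.map (S.ln x s) = ν) → (∀ s, ν.map (S.cN fun i => u (s * y i)) = ν) →
    (∀ i j, i ≠ j → ∀ (B : Matrix (Fin 2) (Fin 2) ℚ) (Ω : Set S.G), B.det ≠ 0 → IsCompact Ω →
      ν {z | (z i, z j) ∈ S.GrU B Ω} = 0) →
    ν = Measure.pi fun _ => μ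

/-- Equidistribution of expanding translates of orbits of a compact torus. -/
def HMStmt : Prop :=
  ∀ (l : ℕ) [Fact l.Prime], l ≠ 2 → ∀ (S : Sp l) (μ : Measure S.X) (ρ : ℕ → Measure S.X)
    (μs : ℕ → ProbabilityMeasure S.X) (μ' : ProbabilityMeasure S.X) (t : ℕ → ℚ_[l]ˣ)
    (y : ℕ → ℚ_[l]), S.Nice μ → S.Low μ → IsTightMeasureSet (range ρ) →
    Tendsto (fun n => ‖(t n : ℚ_[l])‖) atTop atTop → (∀ n, 1 ≤ ‖y n‖) →
    (∀ n (τ : ℚ_[l]ˣ), ‖(τ : ℚ_[l])‖ = 1 →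
      (ρ n).map (S.hs (up (y n) * dg τ * up (-y n))) = ρ n) →
    (∀ n, (μs n : Measure S.X) = (ρ n).map (S.hs (dg (t n)))) → Tendsto μs atTop (𝓝 μ') →
    (μ' : Measure S.X) = μ

/-- Mixing properties of the homogeneous measure of the `S`-arithmetic quotient. -/
def MixStmt : Prop :=
  ∀ (l₁ l₂ : ℕ) [Fact l₁.Prime] [Fact l₂.Prime] [PolishSpace (XX l₁ l₂)], l₁ ≠ l₂ →
    ∀ μ : Measure (sp l₁ l₂).X, IsProbabilityMeasure μ →
      (∀ h : HH l₁, μ.map ((sp l₁ l₂).hs h) = μ) →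
      (sp l₁ l₂).Nice μ ∧ (sp l₁ l₂).Low μ ∧ ∀ (κ : Type) [Fintype κ],
        (∀ t : ℚ_[l₁]ˣ, 1 < ‖(t : ℚ_[l₁])‖ → ErgF (Measure.pi fun _ : κ => μ)
          (fun _ : Unit => (sp l₁ l₂).hN fun _ => dg t)) ∧
        (∀ t : ℚ_[l₂]ˣ, 1 < ‖(t : ℚ_[l₂])‖ → ErgF (Measure.pi fun _ : κ => μ)
          (fun _ : Unit => (sp l₁ l₂).cN fun _ => ((dg t, 1) : CC l₂))) ∧
        ∀ y : κ → ℚ_[l₂], (∀ i, y i ≠ 0) → ErgF (Measure.pi fun _ : κ => μ)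
          (fun s : ℚ_[l₂] => (sp l₁ l₂).cN fun i => ((up (s * y i), 1) : CC l₂))

/-- Product test functions determine weak convergence to a product measure. -/
def WeakStmt : Prop :=
  ∀ (ι X : Type) [Fintype ι] [TopologicalSpace X] [PolishSpace X] [MeasurableSpace X]
    [BorelSpace X] (μ : Measure X) (ν : ℕ → Measure (ι → X)), IsProbabilityMeasure μ →
    (∀ n, IsProbabilityMeasure (ν n)) →
    (∀ φ : ι → X →ᵇ ℝ, Tendsto (fun n => ∫ z, ∏ i, φ i (z i) ∂ν n) atTop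
      (𝓝 (∏ i, ∫ x, φ i x ∂μ))) →
    ∀ φ : (ι → X) →ᵇ ℝ, Tendsto (fun n => ∫ z, φ z ∂ν n) atTop
      (𝓝 (∫ z, φ z ∂(Measure.pi fun _ => μ)))

/-! ### Arithmetic part -/

namespace Fld

variable (k : Fld)

/-- The order of conductor `c`. -/
def Ord (c : ℕ) : Submodule ℤ k.K := Submodule.span ℤ {1, (c : k.K) * k.om}

/-- `L` agrees at the prime `l` with the order of conductor `l ^ e`. -/
def Dep (l e : ℕ) (L : Submodule ℤ k.K) : Prop :=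
  ∃ u : ℕ, ¬ l ∣ u ∧ (∀ x ∈ k.Ord (l ^ e), (u : k.K) * x ∈ L) ∧
    ∀ x ∈ L, (u : k.K) * x ∈ k.Ord (l ^ e)

/-- A bounded linear map of determinant `± N` from `L₁` into `L₂`, not `K`-linear, which respects
the first `m` ancestors at `l`. -/
def EvU (l : ℕ) [Fact l.Prime] (r : ℚ_[l]) (Nn : ℕ) (R : ℝ) (m : ℕ) (c₁ c₂ : ℚ)
    (L₁ L₂ : Submodule ℤ k.K) : Prop :=
  ∃ α β : k.K, L₁.map (k.lin α β) ≤ L₂ ∧ |k.N α - k.N β| * c₁ = Nn * c₂ ∧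
    k.N α * c₁ ≤ R * c₂ ∧ k.N β * c₁ ≤ R * c₂ ∧ β ≠ 0 ∧
    ‖k.io r β * (c₁ : ℚ_[l])‖ ≤ ((l : ℝ) ^ m)⁻¹

variable {k} in
/-- Scalar residue classes. -/
def Scal {F : ℕ+} (z : k.SF F) : Prop := z.val.im = 0

end Fld

open Fld

/-- No escape of mass, with a rate. -/
def TightQStmt : Prop :=
  ∀ k : Fld, ∃ C θ : ℝ, 0 < C ∧ 0 < θ ∧ ∀ ε : ℝ, 0 < ε → ∀ (F : ℕ+) (L : Submodule ℤ k.K) (c : ℚ),
    k.Lat L c → k.Adm F L → k.pr F (fun s => ∃ v ∈ act s L, v ≠ 0 ∧ k.N v ≤ ε * c) ≤ C * ε ^ θ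

/-- Exclusion of graph components at a prime dividing the conductors to a high power. -/
def ExclUStmt : Prop :=
  ∀ (k : Fld) (l : ℕ) [Fact l.Prime] (r : ℚ_[l]), k.Root r → ¬ (l : ℤ) ∣ k.D → l ≠ 2 →
    ∀ (Nn d : ℕ) (R η₀ : ℝ), 0 < Nn → 0 < η₀ → ∃ m e₀ : ℕ, ∀ (F : ℕ+) (L₁ L₂ : Submodule ℤ k.K)
      (c₁ c₂ : ℚ) (e₁ e₂ : ℕ), k.Lat L₁ c₁ → k.Lat L₂ c₂ → k.Adm F L₁ → k.Adm F L₂ →
      k.Dep l e₁ L₁ → k.Dep l e₂ L₂ → e₀ ≤ e₁ → e₀ ≤ e₂ → e₁ ≤ e₂ + d → e₂ ≤ e₁ + d →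
      k.pr F (fun s => k.EvU l r Nn R m c₁ c₂ (act s L₁) (act s L₂)) ≤ η₀

/-- There are infinitely many split primes. -/
def SplitStmt : Prop :=
  ∀ (k : Fld) (M : ℕ), ∃ (l : ℕ) (_ : Fact l.Prime), M < l ∧ ¬ (l : ℤ) ∣ k.D ∧
    ∃ r : ℚ_[l], k.Root r

/-- Joint equidistribution of the orbits of `(O / F O)ˣ`, with weights. -/
def DynNStmt : Prop :=
  ∀ (k : Fld) (w : ℂ), k.Root w → ∀ (ι : Type) [Fintype ι] (N : ℕ), 0 < N →
    ∀ (F : ℕ → ℕ+) (L : ι → ℕ → Submodule ℤ k.K) (c : ι → ℕ → ℚ) (h : ∀ n, k.SF (F n) → ℝ),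
      (∀ i n, k.Lat (L i n) (c i n) ∧ k.Adm (F n) (L i n)) →
      (∀ i (a : ℕ), 0 < a → ∀ᶠ n in atTop, ¬ k.Adm a (L i n)) →
      (∀ i j, i ≠ j → ∀ B : ℝ, ∀ᶠ n in atTop, ∀ α : k.K, α ≠ 0 → α • L i n ≤ L j n →
        B * c j n < k.N α * c i n) →
      (∀ n s, |h n s| ≤ 1) → (∀ n s u, h n (u ^ N * s) = h n s) →
      (∀ n s z, Scal z → h n (z * s) = h n s) →
      ∀ φ : ι → ℂ →ᵇ ℝ, Tendsto (fun n => k.avg (F n) fun s => h n s *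
        (∏ i, φ i (CM.jL ((act s (L i n)).map (k.ioL w))) - ∏ i, ∫ z, φ i z ∂muJ)) atTop (𝓝 0)

/-- The orbit of a point under the field automorphisms of `ℂ`. -/
def galOrbitN {ι : Type} (x : ι → ℂ) : Set (ι → ℂ) := {y | ∃ σ : ℂ ≃+* ℂ, y = fun i => σ (x i)}

/-- The mean of a function over the orbit. -/
def orbitMeanN {ι : Type} (x : ι → ℂ) (φ : (ι → ℂ) → ℝ) : ℝ :=
  (∑ᶠ y ∈ galOrbitN x, φ y) / (galOrbitN x).ncard

/-- The final statement. -/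
def FinalNStmt : Prop :=
  ∀ (ι : Type) [Fintype ι] (B : ℕ) (τ : ℕ → ι → ℍ), (∀ n i, ∃ d ≤ B, InField d (τ n i)) →
    (∀ i (z : ℍ), IsCM z → ∀ᶠ n in atTop, CM.jH (τ n i) ≠ CM.jH z) →
    (∀ i j, i ≠ j → ∀ g : Matrix (Fin 2) (Fin 2) ℚ, 0 < g.det →
      ∀ᶠ n in atTop, (CM.jH (τ n i), CM.jH (τ n j)) ∉ modCurve g) →
    (∀ n, (galOrbitN fun i => CM.jH (τ n i)).Finite) ∧ ∀ φ : (ι → ℂ) →ᵇ ℝ,
      Tendsto (fun n => orbitMeanN (fun i => CM.jH (τ n i)) φ) atTop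
        (𝓝 (∫ z, φ z ∂(Measure.pi fun _ => muJ)))

end Pool.Agent.Lib.MP_9177b7_ag.J
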