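import Pool.Agent.Lib.MP_9177b7_ag.J.DefsA

/-!
Frames attached to bases of lattices.
-/

open MeasureTheory Filter Topology Set Pointwise Matrix
open scoped MatrixGroups

noncomputable section

namespace Pool.Agent.Lib.MP_9177b7_ag.J.Dyn

open Fld

variable (k : Fld)

section io

variable {A : Type} [Field A] [CharZero A] {r : A}

theorem io_mul (h : k.Root r) (x y : k.K) : k.io r (x * y) = k.io r x * k.io r y := by
  unfold Fld.Root at h
  simp only [Fld.io, QuadraticAlgebra.re_mul, QuadraticAlgebra.im_mul]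
  push_cast
  linear_combination (-(x.im : A) * (y.im : A)) * h

theorem io_star (r : A) (x : k.K) : k.io r (star x) = k.io ((k.t : A) - r) x := by
  simp only [Fld.io, QuadraticAlgebra.re_star, QuadraticAlgebra.im_star]
  push_cast
  ring

theorem io_add (r : A) (x y : k.K) : k.io r (x + y) = k.io r x + k.io r y := (k.ioL r).map_add x y

theorem io_qsmul (r : A) (a : ℚ) (x : k.K) : k.io r (a • x) = (a : A) * k.io r x := by
  simp only [Fld.io, QuadraticAlgebra.re_smul, QuadraticAlgebra.im_smul, smul_eq_mul]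
  push_cast
  ring

omit [CharZero A] in
theorem root_conj (h : k.Root r) : k.Root ((k.t : A) - r) := by
  unfold Fld.Root at h ⊢
  linear_combination h

theorem io_norm (h : k.Root r) (x : k.K) :
    k.io r x * k.io ((k.t : A) - r) x = ((QuadraticAlgebra.norm x : ℚ) : A) := by
  unfold Fld.Root at h
  simp only [Fld.io, QuadraticAlgebra.norm_def]
  push_cast
  linear_combination (-(x.im : A) ^ 2) * h

theorem io_one (r : A) : k.io r 1 = 1 := by
  simp [Fld.io, QuadraticAlgebra.re_one, QuadraticAlgebra.im_one]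

theorem io_ne_zero (h : k.Root r) {x : k.K} (hx : x ≠ 0) : k.io r x ≠ 0 := by
  intro h0
  have := io_norm k h x
  rw [h0, zero_mul] at this
  have h1 : QuadraticAlgebra.norm x = 0 := by exact_mod_cast this.symm
  exact hx (QuadraticAlgebra.norm_eq_zero_iff_eq_zero.1 h1)

theorem io_inv (h : k.Root r) (x : k.K) : k.io r x⁻¹ = (k.io r x)⁻¹ := by
  by_cases hx : x = 0
  · subst hx; simp [Fld.io]
  · have := io_mul k h x x⁻¹
    rw [mul_inv_cancel₀ hx, io_one] at this
    exact eq_inv_of_mul_eq_one_right this.symm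

theorem root_ne (h : k.Root r) : (k.t : A) - r - r ≠ 0 := by
  intro h0
  unfold Fld.Root at h
  have h1 : ((k.t ^ 2 - 4 * k.n : ℤ) : A) = 0 := by
    push_cast
    linear_combination ((k.t : A) - r - r) * h0 - 4 * h
  have h2 : k.t ^ 2 - 4 * k.n = 0 := by exact_mod_cast h1
  have := k.neg
  omega

/-- The matrix of the two embeddings of a pair. -/
def PP (r : A) (x y : k.K) : Matrix (Fin 2) (Fin 2) A :=
  !![k.io r x, k.io r y; k.io ((k.t : A) - r) x, k.io ((k.t : A) - r) y]

theorem det_PP (r : A) (x y : k.K) :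
    (PP k r x y).det = (k.det2 x y : A) * ((k.t : A) - r - r) := by
  simp only [PP, Matrix.det_fin_two_of, Fld.io, Fld.det2]
  push_cast
  ring

theorem PP_lin (h : k.Root r) (α β x y : k.K) :
    PP k r (k.lin α β x) (k.lin α β y) =
      !![k.io r α, k.io r β; k.io ((k.t : A) - r) β, k.io ((k.t : A) - r) α] * PP k r x y := by
  have h' := root_conj k h
  have e : (k.t : A) - ((k.t : A) - r) = r := by ring
  ext i j
  fin_cases i <;> fin_cases j <;>
    simp [PP, Fld.lin, Matrix.mul_apply, Fin.sum_univ_two, io_add, io_mul k h, io_mul k h',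
      io_star, e] <;> ring

end io

/-- First vector of `(x, y) γ`. -/
def c0 (γ : Matrix (Fin 2) (Fin 2) ℚ) (x y : k.K) : k.K := γ 0 0 • x + γ 1 0 • y

/-- Second vector of `(x, y) γ`. -/
def c1 (γ : Matrix (Fin 2) (Fin 2) ℚ) (x y : k.K) : k.K := γ 0 1 • x + γ 1 1 • y

theorem PP_mul {A : Type} [Field A] [CharZero A] (r : A) (γ : Matrix (Fin 2) (Fin 2) ℚ)
    (x y : k.K) :
    PP k r (c0 k γ x y) (c1 k γ x y) = PP k r x y * γ.map (fun a : ℚ => (a : A)) := by
  ext i j
  fin_cases i <;> fin_cases j <;>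
    simp [PP, c0, c1, Matrix.mul_apply, Fin.sum_univ_two, io_add, io_qsmul] <;> ring

theorem det2_c (γ : Matrix (Fin 2) (Fin 2) ℚ) (x y : k.K) :
    k.det2 (c0 k γ x y) (c1 k γ x y) = γ.det * k.det2 x y := by
  simp only [Fld.det2, c0, c1, Matrix.det_fin_two, QuadraticAlgebra.re_add, QuadraticAlgebra.im_add,
    QuadraticAlgebra.re_smul, QuadraticAlgebra.im_smul, smul_eq_mul]
  ring

theorem det2_lin (α β x y : k.K) : k.det2 (k.lin α β x) (k.lin α β y) =
    (QuadraticAlgebra.norm α - QuadraticAlgebra.norm β) * k.det2 x y := by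
  simp only [Fld.det2, Fld.lin, LinearMap.coe_mk, AddHom.coe_mk, QuadraticAlgebra.re_add,
    QuadraticAlgebra.im_add, QuadraticAlgebra.re_mul, QuadraticAlgebra.im_mul,
    QuadraticAlgebra.re_star, QuadraticAlgebra.im_star, QuadraticAlgebra.norm_def]
  ring

theorem exists_lin {x y : k.K} (h : k.det2 x y ≠ 0) (x' y' : k.K) :
    ∃ α β : k.K, k.lin α β x = x' ∧ k.lin α β y = y' := by
  have hd : x * star y - y * star x ≠ 0 := by
    intro h0
    have := congrArg QuadraticAlgebra.im h0
    simp only [QuadraticAlgebra.im_sub, QuadraticAlgebra.im_mul, QuadraticAlgebra.re_star,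
      QuadraticAlgebra.im_star, QuadraticAlgebra.im_zero] at this
    apply h
    unfold Fld.det2
    linarith
  refine ⟨(x' * star y - y' * star x) / (x * star y - y * star x),
    (x * y' - y * x') / (x * star y - y * star x), ?_, ?_⟩ <;>
  · simp only [Fld.lin, LinearMap.coe_mk, AddHom.coe_mk]
    rw [div_mul_eq_mul_div, div_mul_eq_mul_div, ← add_div, div_eq_iff hd]
    ring

theorem exists_coord {x y : k.K} (h : k.det2 x y ≠ 0) (z : k.K) :
    ∃ a b : ℚ, z = a • x + b • y := by
  refine ⟨k.det2 z y / k.det2 x y, k.det2 x z / k.det2 x y, ?_⟩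
  ext
  · simp only [QuadraticAlgebra.re_add, QuadraticAlgebra.re_smul, smul_eq_mul]
    field_simp
    unfold Fld.det2
    ring
  · simp only [QuadraticAlgebra.im_add, QuadraticAlgebra.im_smul, smul_eq_mul]
    field_simp
    unfold Fld.det2
    ring

theorem coord_unique {x y : k.K} (h : k.det2 x y ≠ 0) {a b a' b' : ℚ}
    (e : a • x + b • y = a' • x + b' • y) : a = a' ∧ b = b' := by
  have h1 := congrArg QuadraticAlgebra.re e
  have h2 := congrArg QuadraticAlgebra.im e
  simp only [QuadraticAlgebra.re_add, QuadraticAlgebra.re_smul, QuadraticAlgebra.im_add,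
    QuadraticAlgebra.im_smul, smul_eq_mul] at h1 h2
  unfold Fld.det2 at h
  constructor
  · apply mul_right_cancel₀ h
    linear_combination y.im * h1 - y.re * h2
  · apply mul_right_cancel₀ h
    linear_combination x.re * h2 - x.im * h1

theorem mem_span2 {x y z : k.K} :
    z ∈ Submodule.span ℤ ({x, y} : Set k.K) ↔ ∃ a b : ℤ, z = (a : ℚ) • x + (b : ℚ) • y := by
  rw [Submodule.mem_span_pair]
  constructor
  · rintro ⟨a, b, rfl⟩
    exact ⟨a, b, by simp [Int.cast_smul_eq_zsmul]⟩
  · rintro ⟨a, b, rfl⟩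
    exact ⟨a, b, by simp [Int.cast_smul_eq_zsmul]⟩

/-- A matrix of determinant one as an element of the special linear group. -/
def toSL {F : Type} [Field F] (M : Matrix (Fin 2) (Fin 2) F) : SL(2, F) := by
  classical exact if h : M.det = 1 then ⟨M, h⟩ else 1

theorem coe_toSL {F : Type} [Field F] {M : Matrix (Fin 2) (Fin 2) F} (h : M.det = 1) :
    (toSL M : Matrix (Fin 2) (Fin 2) F) = M := by
  simp [toSL, h]

/-- The `l`-adic frame. -/
def mp {A : Type} [Field A] [CharZero A] (r : A) (x y : k.K) : Matrix (Fin 2) (Fin 2) A :=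
  !![1, 0; 0, ((k.det2 x y : A) * ((k.t : A) - r - r))⁻¹] * PP k r x y

theorem det_mp {A : Type} [Field A] [CharZero A] {r : A} (h : k.Root r) {x y : k.K}
    (hd : k.det2 x y ≠ 0) : (mp k r x y).det = 1 := by
  have h1 : (k.det2 x y : A) ≠ 0 := by exact_mod_cast hd
  have h2 := root_ne k h
  rw [mp, Matrix.det_mul, det_PP, Matrix.det_fin_two_of]
  field_simp
  simp

/-- The real frame. -/
def mr (w : ℂ) (x y : k.K) : Matrix (Fin 2) (Fin 2) ℝ :=
  (Real.sqrt (-w.im * k.det2 x y))⁻¹ •
    !![(k.io w x).re, (k.io w y).re; -(k.io w x).im, -(k.io w y).im]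

theorem det_mr {w : ℂ} {x y : k.K} (hd : 0 < -w.im * k.det2 x y) : (mr k w x y).det = 1 := by
  have h1 : Real.sqrt (-w.im * k.det2 x y) ^ 2 = -w.im * k.det2 x y := Real.sq_sqrt hd.le
  have h2 : Real.sqrt (-w.im * k.det2 x y) ≠ 0 := (Real.sqrt_pos.2 hd).ne'
  rw [mr, Matrix.det_smul, Matrix.det_fin_two_of]
  simp only [Fintype.card_fin]
  rw [inv_pow, h1, inv_mul_eq_iff_eq_mul₀ hd.ne']
  simp [Fld.io, Fld.det2]
  ring

theorem conj_root {w : ℂ} (h : k.Root w) : (k.t : ℂ) - w = starRingEnd ℂ w ∧ w.im ≠ 0 := by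
  unfold Fld.Root at h
  have h1 := congrArg Complex.re h
  have h2 := congrArg Complex.im h
  simp only [pow_two, Complex.mul_re, Complex.mul_im, Complex.sub_re, Complex.sub_im,
    Complex.intCast_re, Complex.intCast_im] at h1 h2
  have hn : ((k.t ^ 2 - 4 * k.n : ℤ) : ℝ) < 0 := by exact_mod_cast k.neg
  push_cast at hn
  have him : w.im ≠ 0 := by
    intro h0
    rw [h0] at h1
    nlinarith [sq_nonneg (2 * w.re - k.t)]
  refine ⟨?_, him⟩
  apply Complex.ext
  · simp only [Complex.sub_re, Complex.intCast_re, Complex.conj_re]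
    apply mul_right_cancel₀ him
    linarith
  · simp

theorem io_conj {w : ℂ} (h : k.Root w) (x : k.K) :
    k.io ((k.t : ℂ) - w) x = starRingEnd ℂ (k.io w x) := by
  rw [(conj_root k h).1]
  simp [Fld.io]

theorem N_eq {w : ℂ} (h : k.Root w) (x : k.K) :
    k.N x = (k.io w x).re ^ 2 + (k.io w x).im ^ 2 := by
  have := io_norm k h x
  rw [io_conj k h, Complex.mul_conj] at this
  have h2 := congrArg Complex.re this
  simp only [Complex.ofReal_re, Complex.normSq_apply, Complex.ratCast_re] at h2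
  unfold Fld.N
  rw [← h2]
  ring

theorem N_nonneg (x : k.K) : 0 ≤ k.N x := by
  unfold Fld.N
  have hn : ((k.t ^ 2 - 4 * k.n : ℤ) : ℚ) < 0 := by exact_mod_cast k.neg
  push_cast at hn
  have : (0 : ℚ) ≤ QuadraticAlgebra.norm x := by
    rw [QuadraticAlgebra.norm_def]
    nlinarith [sq_nonneg (2 * x.re + k.t * x.im), mul_nonneg (neg_nonneg.2 hn.le) (sq_nonneg x.im)]
  exact_mod_cast this

/-- The real matrix of `z ↦ a z + b z̄` in the coordinates `(re, -im)`. -/
def rm (a b : ℂ) : Matrix (Fin 2) (Fin 2) ℝ :=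
  !![a.re + b.re, a.im - b.im; -a.im - b.im, a.re - b.re]

theorem mr_lin {w : ℂ} (h : k.Root w) (α β x y : k.K) :
    (!![(k.io w (k.lin α β x)).re, (k.io w (k.lin α β y)).re;
      -(k.io w (k.lin α β x)).im, -(k.io w (k.lin α β y)).im] : Matrix (Fin 2) (Fin 2) ℝ) =
    rm (k.io w α) (k.io w β) * !![(k.io w x).re, (k.io w y).re; -(k.io w x).im, -(k.io w y).im] := by
  ext i j
  fin_cases i <;> fin_cases j <;>
    simp [rm, Fld.lin, Matrix.mul_apply, Fin.sum_univ_two, io_add, io_mul k h, io_star,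
      io_conj k h] <;> ring

theorem mr_c (w : ℂ) (γ : Matrix (Fin 2) (Fin 2) ℚ) (x y : k.K) :
    (!![(k.io w (c0 k γ x y)).re, (k.io w (c1 k γ x y)).re;
      -(k.io w (c0 k γ x y)).im, -(k.io w (c1 k γ x y)).im] : Matrix (Fin 2) (Fin 2) ℝ) =
    !![(k.io w x).re, (k.io w y).re; -(k.io w x).im, -(k.io w y).im] *
      γ.map (fun a : ℚ => (a : ℝ)) := by
  ext i j
  fin_cases i <;> fin_cases j <;>
    simp [c0, c1, Matrix.mul_apply, Fin.sum_univ_two, io_add, io_qsmul] <;> ring

end Pool.Agent.Lib.MP_9177b7_ag.J.Dyn
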