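import Pool.Agent.Lib.MP_9177b7_ag.J.DynA

/-!
Points of the `S`-arithmetic space attached to lattices, and the compact torus.
-/

open MeasureTheory Filter Topology Set Pointwise Matrix
open scoped MatrixGroups

noncomputable section

namespace Pool.Agent.Lib.MP_9177b7_ag.J.Dyn

open Fld

variable (k : Fld)

theorem mp_rel {A : Type} [Field A] [CharZero A] {r : A} (h : k.Root r) {x y x' y' α β : k.K}
    (hd : k.det2 x y ≠ 0) {γ : Matrix (Fin 2) (Fin 2) ℚ}
    (e0 : k.lin α β x = c0 k γ x' y') (e1 : k.lin α β y = c1 k γ x' y') :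
    mp k r x' y' * γ.map (fun a : ℚ => (a : A)) =
      !![k.io r α, k.io r β * ((k.det2 x y : A) * ((k.t : A) - r - r));
        ((k.det2 x' y' : A) * ((k.t : A) - r - r))⁻¹ * k.io ((k.t : A) - r) β,
        ((k.det2 x' y' : A) * ((k.t : A) - r - r))⁻¹ * k.io ((k.t : A) - r) α *
          ((k.det2 x y : A) * ((k.t : A) - r - r))] * mp k r x y := by
  have h1 : (k.det2 x y : A) ≠ 0 := by exact_mod_cast hd
  have h2 := root_ne k h
  rw [mp, mp, Matrix.mul_assoc, ← PP_mul, ← e0, ← e1, PP_lin k h, ← Matrix.mul_assoc,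
    ← Matrix.mul_assoc]
  congr 1
  ext i j
  fin_cases i <;> fin_cases j <;> simp [Matrix.mul_apply, Fin.sum_univ_two] <;> field_simp

theorem mr_rel {w : ℂ} (h : k.Root w) {x y x' y' α β : k.K}
    (hd : 0 < -w.im * k.det2 x y) {γ : Matrix (Fin 2) (Fin 2) ℚ}
    (e0 : k.lin α β x = c0 k γ x' y') (e1 : k.lin α β y = c1 k γ x' y') :
    mr k w x' y' * γ.map (fun a : ℚ => (a : ℝ)) =
      ((Real.sqrt (-w.im * k.det2 x' y'))⁻¹ * Real.sqrt (-w.im * k.det2 x y)) •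
        rm (k.io w α) (k.io w β) * mr k w x y := by
  have h2 : Real.sqrt (-w.im * k.det2 x y) ≠ 0 := (Real.sqrt_pos.2 hd).ne'
  rw [mr, mr, Matrix.smul_mul, ← mr_c, ← e0, ← e1, mr_lin k h, Matrix.smul_mul, Matrix.mul_smul,
    smul_smul, mul_assoc, mul_inv_cancel₀ h2, mul_one]

variable {l₁ l₂ : ℕ} [Fact l₁.Prime] [Fact l₂.Prime] (w : ℂ) (r₁ : ℚ_[l₁]) (r₂ : ℚ_[l₂])

/-- The frame of a basis. -/
def fr (x y : k.K) : GG l₁ l₂ := (toSL (mp k r₁ x y), toSL (mp k r₂ x y), toSL (mr k w x y))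

/-- The torus element attached to an element of norm one. -/
def tor (a : k.K) : GG l₁ l₂ :=
  (toSL !![k.io r₁ a, 0; 0, k.io ((k.t : ℚ_[l₁]) - r₁) a],
    toSL !![k.io r₂ a, 0; 0, k.io ((k.t : ℚ_[l₂]) - r₂) a], toSL (rm (k.io w a) 0))

variable {w r₁ r₂}

theorem det2_ne {x y : k.K} (hd : 0 < -w.im * k.det2 x y) : k.det2 x y ≠ 0 := by
  intro h0
  rw [h0] at hd
  simp at hd

theorem lin_one (x : k.K) : k.lin 1 0 x = x := by simp [Fld.lin]

theorem lin_zero (a x : k.K) : k.lin a 0 x = a * x := by simp [Fld.lin]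

theorem c0_one (x y : k.K) : c0 k 1 x y = x := by simp [c0]

theorem c1_one (x y : k.K) : c1 k 1 x y = y := by simp [c1]

theorem io_zero {A : Type} [Field A] [CharZero A] (r : A) : k.io r 0 = 0 := by simp [Fld.io]

theorem map_cast {F : Type} [Field F] [CharZero F] [Algebra ℚ F] (γ : SL(2, ℚ)) :
    ((Matrix.SpecialLinearGroup.map (algebraMap ℚ F) γ : SL(2, F)) : Matrix (Fin 2) (Fin 2) F) =
      (γ : Matrix (Fin 2) (Fin 2) ℚ).map (fun a : ℚ => (a : F)) := by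
  ext i j
  simp

theorem toSL_mul {F : Type} [Field F] {A B : Matrix (Fin 2) (Fin 2) F} {g : SL(2, F)}
    (hB : B.det = 1) (h : A = B * (g : Matrix (Fin 2) (Fin 2) F)) : toSL A = toSL B * g := by
  have hA : A.det = 1 := by rw [h, Matrix.det_mul, hB, g.det_coe, one_mul]
  apply Subtype.ext
  rw [Matrix.SpecialLinearGroup.coe_mul, coe_toSL hA, coe_toSL hB, h]

theorem toSL_mul' {F : Type} [Field F] {A B C : Matrix (Fin 2) (Fin 2) F}
    (hB : B.det = 1) (hC : C.det = 1) (h : A = B * C) : toSL A = toSL B * toSL C :=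
  toSL_mul hB (by rw [coe_toSL hC, h])

theorem OB_mem_aux {L : Submodule ℤ k.K} {x y : k.K} (h : L = Submodule.span ℤ {x, y}) :
    x ∈ L ∧ y ∈ L := by
  rw [h]
  exact ⟨Submodule.subset_span (by simp), Submodule.subset_span (by simp)⟩

theorem fr_mul (h₁ : k.Root r₁) (h₂ : k.Root r₂) {x y : k.K}
    (hd : 0 < -w.im * k.det2 x y) (γ : SL(2, ℚ)) :
    fr k w r₁ r₂ (c0 k γ x y) (c1 k γ x y) = fr k w r₁ r₂ x y * diag l₁ l₂ γ := by
  have hdet : k.det2 (c0 k γ x y) (c1 k γ x y) = k.det2 x y := by rw [det2_c, γ.det_coe, one_mul]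
  have hp : ∀ {A : Type} [Field A] [CharZero A] (r : A),
      mp k r (c0 k γ x y) (c1 k γ x y) =
        mp k r x y * (γ : Matrix (Fin 2) (Fin 2) ℚ).map (fun a : ℚ => (a : A)) := by
    intro A _ _ r
    rw [mp, mp, hdet, PP_mul, Matrix.mul_assoc]
  refine Prod.ext ?_ (Prod.ext ?_ ?_)
  · exact toSL_mul (det_mp k h₁ (det2_ne k hd)) ((hp r₁).trans (by rw [← map_cast]; rfl))
  · exact toSL_mul (det_mp k h₂ (det2_ne k hd)) ((hp r₂).trans (by rw [← map_cast]; rfl))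
  · refine toSL_mul (det_mr k hd) ?_
    rw [mr, mr, hdet, mr_c, ← Matrix.smul_mul, ← map_cast]
    rfl

theorem det_tp {A : Type} [Field A] [CharZero A] {r : A} (h : k.Root r) {a : k.K}
    (ha : QuadraticAlgebra.norm a = 1) :
    (!![k.io r a, 0; 0, k.io ((k.t : A) - r) a] : Matrix (Fin 2) (Fin 2) A).det = 1 := by
  rw [Matrix.det_fin_two_of, io_norm k h, ha]
  simp

theorem det_rm (hw : k.Root w) {a : k.K} (ha : QuadraticAlgebra.norm a = 1) :
    (rm (k.io w a) 0).det = 1 := by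
  have := N_eq k hw a
  unfold Fld.N at this
  rw [ha] at this
  simp only [rm, Matrix.det_fin_two_of, Complex.zero_re, Complex.zero_im]
  push_cast at this
  linarith

theorem fr_tor (hw : k.Root w) (h₁ : k.Root r₁) (h₂ : k.Root r₂) {x y : k.K}
    (hd : 0 < -w.im * k.det2 x y) {a : k.K} (ha : QuadraticAlgebra.norm a = 1) :
    fr k w r₁ r₂ (a * x) (a * y) = tor k w r₁ r₂ a * fr k w r₁ r₂ x y := by
  have hdet : k.det2 (a * x) (a * y) = k.det2 x y := by
    rw [← lin_zero, ← lin_zero, det2_lin, ha]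
    simp
  have e0 : k.lin a 0 x = c0 k 1 (a * x) (a * y) := by rw [c0_one, lin_zero]
  have e1 : k.lin a 0 y = c1 k 1 (a * x) (a * y) := by rw [c1_one, lin_zero]
  have hp : ∀ {A : Type} [Field A] [CharZero A] (r : A), k.Root r →
      mp k r (a * x) (a * y) = !![k.io r a, 0; 0, k.io ((k.t : A) - r) a] * mp k r x y := by
    intro A _ _ r h
    have := mp_rel k h (det2_ne k hd) e0 e1
    have h1 : (k.det2 x y : A) ≠ 0 := by exact_mod_cast det2_ne k hd
    have h2 := root_ne k h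
    rw [Matrix.map_one _ (by simp) (by simp), Matrix.mul_one, hdet, io_zero, io_zero] at this
    rw [this]
    congr 1
    ext i j
    fin_cases i <;> fin_cases j <;> simp
    field_simp
  refine Prod.ext ?_ (Prod.ext ?_ ?_)
  · exact toSL_mul' (det_tp k h₁ ha) (det_mp k h₁ (det2_ne k hd)) (hp _ h₁)
  · exact toSL_mul' (det_tp k h₂ ha) (det_mp k h₂ (det2_ne k hd)) (hp _ h₂)
  · refine toSL_mul' (det_rm k hw ha) (det_mr k hd) ?_
    have := mr_rel k hw hd e0 e1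
    have h2 : Real.sqrt (-w.im * k.det2 x y) ≠ 0 := (Real.sqrt_pos.2 hd).ne'
    rw [Matrix.map_one _ (by simp) (by simp), Matrix.mul_one, hdet, io_zero,
      inv_mul_cancel₀ h2, one_smul] at this
    exact this

variable (w) in
/-- Oriented bases. -/
def OB (L : Submodule ℤ k.K) (c : ℚ) (x y : k.K) : Prop :=
  L = Submodule.span ℤ {x, y} ∧ |k.det2 x y| = c ∧ 0 < -w.im * k.det2 x y

theorem det2_neg (x y : k.K) : k.det2 x (-y) = -k.det2 x y := by
  simp only [Fld.det2, QuadraticAlgebra.re_neg, QuadraticAlgebra.im_neg]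
  ring

theorem span_neg (x y : k.K) :
    Submodule.span ℤ ({x, -y} : Set k.K) = Submodule.span ℤ ({x, y} : Set k.K) := by
  ext z
  rw [mem_span2, mem_span2]
  constructor <;> rintro ⟨a, b, rfl⟩ <;> exact ⟨a, -b, by simp⟩

theorem exists_OB (hw : k.Root w) {L : Submodule ℤ k.K} {c : ℚ} {x y : k.K}
    (hL : L = Submodule.span ℤ {x, y}) (hd : k.det2 x y = c) (hc : 0 < c) :
    OB k w L c x y ∨ OB k w L c x (-y) := by
  have hc' : (0 : ℝ) < c := by exact_mod_cast hc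
  rcases (conj_root k hw).2.lt_or_gt with h | h
  · left
    refine ⟨hL, by rw [hd, abs_of_pos hc], ?_⟩
    rw [hd]
    nlinarith
  · right
    refine ⟨by rw [span_neg, hL], by rw [det2_neg, hd, abs_neg, abs_of_pos hc], ?_⟩
    rw [det2_neg, hd]
    push_cast
    nlinarith

theorem OB.det_eq {L L' : Submodule ℤ k.K} {c : ℚ} {x y x' y' : k.K} (h : OB k w L c x y)
    (h' : OB k w L' c x' y') : k.det2 x' y' = k.det2 x y := by
  rcases abs_eq_abs.1 (h'.2.1.trans h.2.1.symm) with e | e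
  · exact e
  · have h1 := h.2.2
    have h2 := h'.2.2
    rw [e] at h2
    push_cast at h2
    linarith

theorem OB.sqrt_eq {L : Submodule ℤ k.K} {c : ℚ} {x y : k.K} (h : OB k w L c x y) :
    -w.im * k.det2 x y = |w.im| * c := by
  rw [← h.2.1, ← abs_of_pos h.2.2, abs_mul, abs_neg]
  push_cast
  rfl

variable (w r₁ r₂) in
open Classical in
/-- The point attached to a lattice. -/
def pt (L : Submodule ℤ k.K) : XX l₁ l₂ :=
  if h : ∃ p : ℚ × k.K × k.K, OB k w L p.1 p.2.1 p.2.2 then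
    QuotientGroup.mk (fr k w r₁ r₂ h.choose.2.1 h.choose.2.2) else QuotientGroup.mk 1

/-- Two bases with the same determinant spanning the same module over `ℤ[1 / (l₁ l₂)]`. -/
theorem mk_fr_eq (h₁ : k.Root r₁) (h₂ : k.Root r₂) {x y x' y' : k.K}
    (hd : 0 < -w.im * k.det2 x y) (hdd : k.det2 x' y' = k.det2 x y) {e : ℕ}
    (hx : (((l₁ * l₂ : ℕ) : ℚ) ^ e) • x' ∈ Submodule.span ℤ ({x, y} : Set k.K))
    (hy : (((l₁ * l₂ : ℕ) : ℚ) ^ e) • y' ∈ Submodule.span ℤ ({x, y} : Set k.K)) :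
    (QuotientGroup.mk (fr k w r₁ r₂ x' y') : XX l₁ l₂) = QuotientGroup.mk (fr k w r₁ r₂ x y) := by
  obtain ⟨a, b, hab⟩ := (mem_span2 k).1 hx
  obtain ⟨a', b', hab'⟩ := (mem_span2 k).1 hy
  have hM : (((l₁ * l₂ : ℕ) : ℚ) ^ e) ≠ 0 := by
    have := (Fact.out : l₁.Prime).ne_zero
    have := (Fact.out : l₂.Prime).ne_zero
    positivity
  set M := (((l₁ * l₂ : ℕ) : ℚ) ^ e) with hMdef
  let γ0 : Matrix (Fin 2) (Fin 2) ℚ := !![a / M, a' / M; b / M, b' / M]
  have e0 : c0 k γ0 x y = x' := by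
    apply smul_right_injective _ hM
    simp only [c0, γ0, Matrix.of_apply, Matrix.cons_val', Matrix.cons_val_zero,
      Matrix.cons_val_one, Matrix.cons_val_fin_one, smul_add, smul_smul]
    rw [hab, mul_div_cancel₀ _ hM, mul_div_cancel₀ _ hM]
  have e1 : c1 k γ0 x y = y' := by
    apply smul_right_injective _ hM
    simp only [c1, γ0, Matrix.of_apply, Matrix.cons_val', Matrix.cons_val_zero,
      Matrix.cons_val_one, Matrix.cons_val_fin_one, smul_add, smul_smul]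
    rw [hab', mul_div_cancel₀ _ hM, mul_div_cancel₀ _ hM]
  have hdet : γ0.det = 1 := by
    have := det2_c k γ0 x y
    rw [e0, e1, hdd] at this
    exact (mul_right_cancel₀ (det2_ne k hd) (by rw [← this, one_mul])).symm
  have hmem : ∀ z : ℤ, (z : ℚ) / M ∈ RM (l₁ * l₂) := fun z => ⟨e, z, by
    rw [← hMdef, div_mul_cancel₀ _ hM]⟩
  let γ1 : Matrix (Fin 2) (Fin 2) (RM (l₁ * l₂)) :=
    !![⟨_, hmem a⟩, ⟨_, hmem a'⟩; ⟨_, hmem b⟩, ⟨_, hmem b'⟩]
  have hdet1 : γ1.det = 1 := by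
    apply Subtype.ext
    rw [Matrix.det_fin_two] at hdet ⊢
    simpa [γ1, γ0] using hdet
  have hγ : Matrix.SpecialLinearGroup.map (RM (l₁ * l₂)).subtype ⟨γ1, hdet1⟩ =
      (⟨γ0, hdet⟩ : SL(2, ℚ)) := by
    ext i j
    fin_cases i <;> fin_cases j <;> simp [γ1, γ0]
  have := fr_mul k h₁ h₂ hd ⟨γ0, hdet⟩
  simp only [e0, e1] at this
  rw [this, QuotientGroup.eq]
  refine ⟨(⟨γ1, hdet1⟩ : SL(2, RM (l₁ * l₂)))⁻¹, ?_⟩
  simp [hγ]

theorem OB.cov_eq {L : Submodule ℤ k.K} {c c' : ℚ} {x y x' y' : k.K} (h : OB k w L c x y)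
    (h' : OB k w L c' x' y') : c = c' := by
  have key : ∀ {c c' : ℚ} {x y x' y' : k.K}, OB k w L c x y → OB k w L c' x' y' →
      ∃ z : ℤ, k.det2 x' y' = z * k.det2 x y := by
    intro c c' x y x' y' h h'
    have hx : x' ∈ Submodule.span ℤ ({x, y} : Set k.K) := by
      rw [← h.1, h'.1]; exact Submodule.subset_span (by simp)
    have hy : y' ∈ Submodule.span ℤ ({x, y} : Set k.K) := by
      rw [← h.1, h'.1]; exact Submodule.subset_span (by simp)
    obtain ⟨a, b, rfl⟩ := (mem_span2 k).1 hx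
    obtain ⟨a', b', rfl⟩ := (mem_span2 k).1 hy
    refine ⟨a * b' - a' * b, ?_⟩
    have := det2_c k !![(a : ℚ), a'; b, b'] x y
    simp only [c0, c1, Matrix.of_apply, Matrix.cons_val', Matrix.cons_val_zero,
      Matrix.cons_val_one, Matrix.cons_val_fin_one, Matrix.det_fin_two_of] at this
    rw [this]
    push_cast
    ring
  obtain ⟨z, hz⟩ := key h h'
  obtain ⟨z', hz'⟩ := key h' h
  have hne := det2_ne k h.2.2
  have h1 : ((z * z' : ℤ) : ℚ) = 1 := by
    apply mul_right_cancel₀ hne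
    push_cast
    rw [one_mul]
    nth_rewrite 2 [hz']
    rw [hz]
    ring
  have h2 : z * z' = 1 := by exact_mod_cast h1
  rw [← h.2.1, ← h'.2.1, hz, abs_mul]
  rcases Int.eq_one_or_neg_one_of_mul_eq_one h2 with e | e <;> simp [e]

theorem pt_eq (h₁ : k.Root r₁) (h₂ : k.Root r₂) {L : Submodule ℤ k.K} {c : ℚ}
    {x y : k.K} (h : OB k w L c x y) :
    pt k w r₁ r₂ L = QuotientGroup.mk (fr k w r₁ r₂ x y) := by
  have hex : ∃ p : ℚ × k.K × k.K, OB k w L p.1 p.2.1 p.2.2 := ⟨(c, x, y), h⟩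
  rw [pt, dif_pos hex]
  have h' := hex.choose_spec
  have hc := OB.cov_eq k h' h
  rw [hc] at h'
  refine mk_fr_eq k h₁ h₂ h.2.2 (OB.det_eq k h h') (e := 0) ?_ ?_
  · rw [pow_zero, one_smul, ← h.1]
    exact (OB_mem_aux k h'.1).1
  · rw [pow_zero, one_smul, ← h.1]
    exact (OB_mem_aux k h'.1).2

/-- If `L'` agrees with `a L` away from `l₁ l₂`, the points differ by the torus element. -/
theorem pt_tor (hw : k.Root w) (h₁ : k.Root r₁) (h₂ : k.Root r₂) {L L' : Submodule ℤ k.K} {c : ℚ}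
    (hL : k.Lat L c) (hL' : k.Lat L' c) {a : k.K} (ha : QuadraticAlgebra.norm a = 1) {e : ℕ}
    (he : ∀ z ∈ L', ∃ v ∈ L, (((l₁ * l₂ : ℕ) : ℚ) ^ e) • z = a * v) :
    pt k w r₁ r₂ L' = tor k w r₁ r₂ a • pt k w r₁ r₂ L := by
  obtain ⟨x0, y0, hb0, hd0, hc⟩ := hL
  obtain ⟨x0', y0', hb0', hd0', -⟩ := hL'
  obtain ⟨x, y, h⟩ : ∃ x y, OB k w L c x y := by
    rcases exists_OB k hw hb0 hd0 hc with h | h <;> exact ⟨_, _, h⟩
  obtain ⟨x', y', h'⟩ : ∃ x y, OB k w L' c x y := by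
    rcases exists_OB k hw hb0' hd0' hc with h | h <;> exact ⟨_, _, h⟩
  have hdet : k.det2 (a * x) (a * y) = k.det2 x y := by
    rw [← lin_zero, ← lin_zero, det2_lin, ha]
    simp
  rw [pt_eq k h₁ h₂ h, pt_eq k h₁ h₂ h', MulAction.Quotient.smul_mk, smul_eq_mul,
    ← fr_tor k hw h₁ h₂ h.2.2 ha]
  have key : ∀ z ∈ L', (((l₁ * l₂ : ℕ) : ℚ) ^ e) • z ∈
      Submodule.span ℤ ({a * x, a * y} : Set k.K) := by
    intro z hz
    obtain ⟨v, hv, e⟩ := he z hz
    rw [h.1] at hv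
    obtain ⟨p, q, rfl⟩ := (mem_span2 k).1 hv
    rw [e, mem_span2]
    exact ⟨p, q, by simp [mul_add]⟩
  refine mk_fr_eq k h₁ h₂ (by rw [hdet]; exact h.2.2) (by rw [hdet]; exact OB.det_eq k h h')
    (key _ ?_) (key _ ?_) <;>
  · rw [h'.1]
    exact Submodule.subset_span (by simp)

end Pool.Agent.Lib.MP_9177b7_ag.J.Dyn
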