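import Pool.Agent.Lib.MP_9177b7_ag.J.DefsN
import Pool.Agent.Lib.MP_9177b7_ag.J.Basic

/-!
Local normal forms and ancestors of lattices.
-/

open Pointwise QuadraticAlgebra

namespace Pool.Agent.Lib.MP_9177b7_ag.J

namespace Lat

open Fld Basic

variable {k : Fld}

lemma mem_Ord {c : ℕ} {x : k.K} : x ∈ k.Ord c ↔ ∃ a b : ℤ, x = a + b * (c * k.om) := by
  rw [Fld.Ord, mem_pair]
  simp only [mul_one]

lemma one_mem_Ord (c : ℕ) : (1 : k.K) ∈ k.Ord c := left_mem _ _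

lemma om_mem_Ord (c : ℕ) : (c : k.K) * k.om ∈ k.Ord c := right_mem _ _

lemma mul_mem_Ord {c : ℕ} {x y : k.K} (hx : x ∈ k.Ord c) (hy : y ∈ k.Ord c) :
    x * y ∈ k.Ord c := by
  obtain ⟨a, b, rfl⟩ := mem_Ord.1 hx
  obtain ⟨a', b', rfl⟩ := mem_Ord.1 hy
  refine mem_Ord.2 ⟨a * a' - b * b' * c * c * k.n, a * b' + b * a' + b * b' * c * k.t, ?_⟩
  push_cast
  linear_combination (b * b' * c * c : k.K) * om_sq

lemma Ord_le {c d : ℕ} (h : c ∣ d) : k.Ord d ≤ k.Ord c := by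
  obtain ⟨m, rfl⟩ := h
  intro x hx
  obtain ⟨a, b, rfl⟩ := mem_Ord.1 hx
  refine mem_Ord.2 ⟨a, b * m, ?_⟩
  push_cast
  ring

lemma bezout {L : Submodule ℤ k.K} {a b : ℕ} (h : Nat.Coprime a b) {z : k.K}
    (ha : (a : k.K) * z ∈ L) (hb : (b : k.K) * z ∈ L) : z ∈ L := by
  obtain ⟨p, q, e⟩ := Nat.isCoprime_iff_coprime.2 h
  have e' : (p : k.K) * a + q * b = 1 := by exact_mod_cast congrArg (Int.cast : ℤ → k.K) e
  have : z = p * (a * z) + q * (b * z) := by linear_combination -z * e'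
  rw [this]
  exact L.add_mem (int_mul_mem p ha) (int_mul_mem q hb)

lemma adm_dvd {L : Submodule ℤ k.K} {G F : ℕ} (h : G ∣ F) (hG : k.Adm G L) : k.Adm F L := by
  obtain ⟨m, rfl⟩ := h
  intro x hx
  have : ((G * m : ℕ) : k.K) * k.om * x = m * (G * k.om * x) := by
    push_cast
    ring
  rw [this]
  exact nat_mul_mem m (hG x hx)

lemma det2_nat (u : ℕ) (x y : k.K) : k.det2 (u * x) (u * y) = (u : ℚ) ^ 2 * k.det2 x y := by
  simp [Fld.det2]
  ring

lemma det2_Ord (c : ℕ) : k.det2 1 (c * k.om) = c := by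
  simp [Fld.det2, Fld.om]

lemma det2_of_mem {x y x' y' : k.K} (hx : x' ∈ Submodule.span ℤ {x, y})
    (hy : y' ∈ Submodule.span ℤ {x, y}) : ∃ m : ℤ, k.det2 x' y' = m * k.det2 x y := by
  obtain ⟨a, b, rfl⟩ := mem_pair.1 hx
  obtain ⟨c, d, rfl⟩ := mem_pair.1 hy
  exact ⟨_, det2_comb x y a b c d⟩

lemma split {l F : ℕ} (hl : l.Prime) (hF : F ≠ 0) :
    F / l ^ F.factorization l * l ^ F.factorization l = F ∧ ¬ l ∣ F / l ^ F.factorization l :=
  ⟨Nat.div_mul_cancel (Nat.ordProj_dvd F l), Nat.not_dvd_ordCompl hl hF⟩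

lemma normal (L : Submodule ℤ k.K) (c : ℚ) (f l₁ l₂ : ℕ) (hL : k.Lat L c) (hC : k.Cond L f)
    (h₁ : l₁.Prime) (h₂ : l₂.Prime) : ∃ α : k.K, α ≠ 0 ∧ k.Dep l₁ (f.factorization l₁) (α • L) ∧
      k.Dep l₂ (f.factorization l₂) (α • L) := by
  obtain ⟨g, hg, H⟩ := nf hL
  have hc : 0 < c := by obtain ⟨-, -, -, -, hc⟩ := hL; exact hc
  obtain ⟨lam, μ, a, h, e, rfl, hd, h1, h2, hcop⟩ := H (l₁ * l₂) (Nat.mul_pos h₁.pos h₂.pos)
  have hd0 : k.det2 lam μ ≠ 0 := by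
    rintro h0
    rw [h0, mul_zero] at hd
    exact hc.ne hd
  have hlam := ne_zero_of_det hd0
  have hcop' : Nat.Coprime a (l₁ * l₂ * g) := Nat.isCoprime_iff_coprime.1 hcop
  have hgf : g ∣ f := by
    obtain ⟨i, j, hij⟩ := mem_pair.1 ((hC f).2 dvd_rfl lam (left_mem _ _))
    have h3 := coord_inj hd0 (a := -(f * h)) (b := f * a) (a' := i) (b' := j * g) (by
      push_cast
      linear_combination hij - (f : k.K) * h1)
    have h4 : IsCoprime (g : ℤ) a :=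
      Nat.isCoprime_iff_coprime.2 (Nat.Coprime.coprime_mul_left_right hcop').symm
    exact Int.natCast_dvd_natCast.1 (h4.dvd_of_dvd_mul_right ⟨j, by rw [h3.2, mul_comm]⟩)
  have hfg : f ∣ g := by
    refine (hC g).1 (adm_pair (mem_pair.2 ⟨-(g * h), a, ?_⟩)
      (mem_pair.2 ⟨-(g * g * e), g * (h + k.t), ?_⟩))
    · push_cast
      linear_combination (g : k.K) * h1
    · push_cast
      linear_combination (g * g : k.K) * h2
  obtain rfl : f = g := Nat.dvd_antisymm hfg hgf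
  have key : ∀ l : ℕ, l.Prime → l ∣ l₁ * l₂ →
      k.Dep l (f.factorization l) (lam⁻¹ • Submodule.span ℤ {lam, (f : k.K) * μ}) := by
    intro l hl hlM
    obtain ⟨e1, e2⟩ := split hl hg.ne'
    generalize f / l ^ f.factorization l = f' at e1 e2
    generalize f.factorization l = v at e1
    have e3 : (f : k.K) = f' * (l ^ v : ℕ) := by exact_mod_cast congrArg (Nat.cast : ℕ → k.K) e1.symm
    refine ⟨a * f', fun hdv => ?_, fun x hx => ?_, fun x hx => ?_⟩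
    · rcases (Nat.Prime.dvd_mul hl).1 hdv with h3 | h3
      · exact hl.one_lt.ne' (Nat.eq_one_of_dvd_coprimes hcop' h3 (hlM.mul_right _))
      · exact e2 h3
    · obtain ⟨i, j, rfl⟩ := mem_Ord.1 hx
      refine (Submodule.mem_smul_pointwise_iff_exists _ _ _).2
        ⟨_, mem_pair.2 ⟨a * f' * i - a * j * f * h, a * a * j, rfl⟩, ?_⟩
      rw [smul_eq_mul, inv_mul_eq_iff_eq_mul₀ hlam]
      generalize ((l ^ v : ℕ) : k.K) = w at e3
      push_cast
      rw [e3]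
      linear_combination -(a * j * f' * w : k.K) * h1
    · obtain ⟨y, hy, rfl⟩ := (Submodule.mem_smul_pointwise_iff_exists _ _ _).1 hx
      obtain ⟨i, j, rfl⟩ := mem_pair.1 hy
      refine mem_Ord.2 ⟨a * f' * i + f' * j * f * h, f' * j * f', ?_⟩
      rw [smul_eq_mul, mul_left_comm, inv_mul_eq_iff_eq_mul₀ hlam]
      generalize ((l ^ v : ℕ) : k.K) = w at e3
      push_cast
      rw [e3]
      linear_combination -(f' * j * f' * w : k.K) * h1
  exact ⟨lam⁻¹, inv_ne_zero hlam, key l₁ h₁ (dvd_mul_right _ _), key l₂ h₂ (dvd_mul_left _ _)⟩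

lemma norm_pow_l (l : ℕ) [Fact l.Prime] (e : ℕ) : ‖((l ^ e : ℕ) : ℚ_[l])‖ = ((l : ℝ) ^ e)⁻¹ := by
  rw [Nat.cast_pow, norm_pow, Padic.norm_p, inv_pow]

lemma cov (l : ℕ) [Fact l.Prime] (e : ℕ) (L : Submodule ℤ k.K) (c : ℚ) (hL : k.Lat L c)
    (hD : k.Dep l e L) : ‖(c : ℚ_[l])‖ = ((l : ℝ) ^ e)⁻¹ := by
  obtain ⟨u, hu, h1, h2⟩ := hD
  obtain ⟨x, y, rfl, rfl, -⟩ := hL
  have hu' : ‖(u : ℚ_[l])‖ = 1 := Dyn.norm_nat hu
  rw [← norm_pow_l]
  apply le_antisymm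
  · obtain ⟨m, hm⟩ := det2_of_mem (h2 x (left_mem _ _)) (h2 y (right_mem _ _))
    rw [det2_nat, det2_Ord] at hm
    have h3 := congrArg (fun q : ℚ => ‖(q : ℚ_[l])‖) hm
    simp only [Rat.cast_mul, Rat.cast_pow, Rat.cast_natCast, norm_mul, norm_pow, hu', one_pow,
      one_mul, Rat.cast_intCast] at h3
    rw [h3]
    exact mul_le_of_le_one_left (norm_nonneg _) (Padic.norm_int_le_one m)
  · obtain ⟨m, hm⟩ := det2_of_mem (h1 _ (one_mem_Ord _)) (h1 _ (om_mem_Ord _))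
    rw [det2_nat, det2_Ord] at hm
    have h3 := congrArg (fun q : ℚ => ‖(q : ℚ_[l])‖) hm
    simp only [Rat.cast_mul, Rat.cast_pow, Rat.cast_natCast, norm_mul, norm_pow, hu', one_pow,
      one_mul, Rat.cast_intCast] at h3
    rw [h3]
    exact mul_le_of_le_one_left (norm_nonneg _) (Padic.norm_int_le_one m)

lemma level (l e F : ℕ) (L : Submodule ℤ k.K) (hl : l.Prime) (hF : F ≠ 0) (hD : k.Dep l e L)
    (hA : k.Adm F L) : l ^ e ∣ F ∧ k.Adm (F / l ^ F.factorization l * l ^ e) L := by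
  obtain ⟨u, hu, h1, h2⟩ := hD
  have hcop : Nat.Coprime l u := (Nat.Prime.coprime_iff_not_dvd hl).2 hu
  have hdv : l ^ e ∣ F := by
    obtain ⟨a, b, hab⟩ := mem_Ord.1 (h2 _ (hA _ (h1 _ (one_mem_Ord _))))
    have hd0 : k.det2 1 k.om ≠ 0 := by simp [Fld.det2, Fld.om]
    have h3 := coord_inj hd0 (a := 0) (b := (F * (u * u) : ℕ)) (a' := a) (b' := b * (l ^ e : ℕ))
      (by
        generalize (l ^ e : ℕ) = w at hab
        push_cast
        linear_combination hab)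
    have h4 : l ^ e ∣ F * (u * u) := Int.natCast_dvd_natCast.1 ⟨b, by rw [h3.2, mul_comm]⟩
    exact (Nat.Coprime.pow_left e (hcop.mul_right hcop)).dvd_of_dvd_mul_right h4
  refine ⟨hdv, fun x hx => ?_⟩
  obtain ⟨e1, -⟩ := split hl hF
  have hle : e ≤ F.factorization l := (hl.pow_dvd_iff_le_factorization hF).1 hdv
  generalize F / l ^ F.factorization l = F' at e1
  obtain ⟨d, hd⟩ := Nat.exists_eq_add_of_le hle
  rw [hd] at e1
  refine bezout (a := l ^ d) (b := u * u) (Nat.Coprime.pow_left d (hcop.mul_right hcop)) ?_ ?_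
  · have h3 := hA x hx
    rw [← e1] at h3
    have : ((l ^ d : ℕ) : k.K) * (((F' * l ^ e : ℕ) : k.K) * k.om * x) =
        ((F' * l ^ (e + d) : ℕ) : k.K) * k.om * x := by
      push_cast
      ring
    rwa [this]
  · have h3 := nat_mul_mem F' (h1 _ (mul_mem_Ord (om_mem_Ord _) (h2 x hx)))
    have : ((u * u : ℕ) : k.K) * (((F' * l ^ e : ℕ) : k.K) * k.om * x) =
        F' * (u * (((l ^ e : ℕ) : k.K) * k.om * (u * x))) := by
      push_cast
      ring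
    rwa [this]

lemma Ord_mul_le {g : ℕ} {L B : Submodule ℤ k.K} (h1 : ∀ x ∈ L, x ∈ B)
    (h2 : ∀ x ∈ L, (g : k.K) * k.om * x ∈ B) : k.Ord g * L ≤ B := by
  refine Submodule.mul_le.2 fun z hz x hx => ?_
  obtain ⟨a, b, rfl⟩ := mem_Ord.1 hz
  rw [add_mul, mul_assoc]
  exact B.add_mem (int_mul_mem a (h1 x hx)) (int_mul_mem b (h2 x hx))

/-- The elements whose product with `u` lies in `B`. -/
def quo (u : k.K) (B : Submodule ℤ k.K) : Submodule ℤ k.K :=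
  B.comap (LinearMap.mulLeft ℤ u)

lemma mem_quo {u x : k.K} {B : Submodule ℤ k.K} : x ∈ quo u B ↔ u * x ∈ B := Iff.rfl

lemma ancestor (l e j F : ℕ) (L : Submodule ℤ k.K) (c : ℚ) (hl : l.Prime) (hF : F ≠ 0)
    (hL : k.Lat L c) (hA : k.Adm F L) (hD : k.Dep l e L) (hj : j ≤ e) :
    ∃ L' : Submodule ℤ k.K, k.Lat L' (c / (l : ℚ) ^ j) ∧ k.Adm F L' ∧
      k.Dep l (e - j) L' ∧ L ≤ L' ∧ (∀ x ∈ L', (l : k.K) ^ j * x ∈ L) ∧
      ∀ l' e' : ℕ, l'.Prime → l' ≠ l → k.Dep l' e' L → k.Dep l' e' L' := by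
  have : Fact l.Prime := ⟨hl⟩
  obtain ⟨-, hG⟩ := level l e F L hl hF hD hA
  obtain ⟨-, e2⟩ := split hl hF
  generalize F / l ^ F.factorization l = F' at hG e2
  obtain ⟨d, rfl⟩ := Nat.exists_eq_add_of_le hj
  rw [Nat.add_sub_cancel_left]
  have hle : L ≤ k.Ord (F' * l ^ d) * L := fun x hx => by
    simpa using Submodule.mul_mem_mul (one_mem_Ord (F' * l ^ d)) hx
  have hup : ∀ x ∈ k.Ord (F' * l ^ d) * L, (l : k.K) ^ j * x ∈ L := by
    intro x hx
    refine mem_quo.1 (Ord_mul_le (fun y hy => mem_quo.2 ?_) (fun y hy => mem_quo.2 ?_) hx)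
    · simpa using nat_mul_mem (l ^ j) hy
    · have : (l : k.K) ^ j * (((F' * l ^ d : ℕ) : k.K) * k.om * y) =
          ((F' * l ^ (j + d) : ℕ) : k.K) * k.om * y := by
        push_cast
        ring
      rw [this]
      exact hG y hy
  have hdep : k.Dep l d (k.Ord (F' * l ^ d) * L) := by
    obtain ⟨u, hu, h1, h2⟩ := hD
    have h3 : (u : k.K) ∈ L := by simpa using h1 _ (one_mem_Ord _)
    have h4 : k.Ord (l ^ (j + d)) ≤ k.Ord (l ^ d) := Ord_le (pow_dvd_pow l (Nat.le_add_left d j))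
    refine ⟨u * F', fun hdv => ((Nat.Prime.dvd_mul hl).1 hdv).elim hu e2, fun x hx => ?_,
      fun x hx => ?_⟩
    · obtain ⟨a, b, rfl⟩ := mem_Ord.1 hx
      have h5 : (F' * a : ℤ) + b * (((F' * l ^ d : ℕ) : k.K) * k.om) ∈ k.Ord (F' * l ^ d) :=
        mem_Ord.2 ⟨_, _, rfl⟩
      have : ((u * F' : ℕ) : k.K) * (a + b * (((l ^ d : ℕ) : k.K) * k.om)) =
          ((F' * a : ℤ) + b * (((F' * l ^ d : ℕ) : k.K) * k.om)) * u := by
        push_cast
        ring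
      rw [this]
      exact Submodule.mul_mem_mul h5 h3
    · have h5 : (u : k.K) * x ∈ k.Ord (l ^ d) := by
        refine mem_quo.1 (Ord_mul_le (fun y hy => mem_quo.2 (h4 (h2 y hy)))
          (fun y hy => mem_quo.2 ?_) hx)
        rw [mul_left_comm]
        exact mul_mem_Ord (Ord_le (dvd_mul_left _ _) (om_mem_Ord _)) (h4 (h2 y hy))
      rw [Nat.cast_mul, mul_comm (u : k.K), mul_assoc]
      exact nat_mul_mem F' h5
  refine ⟨k.Ord (F' * l ^ d) * L, ?_, adm_mul_left hA _, hdep, hle, hup, ?_⟩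
  · have hl0 : (l : k.K) ^ j ≠ 0 := pow_ne_zero _ (Nat.cast_ne_zero.2 hl.ne_zero)
    have hlq : (0 : ℚ) < (l : ℚ) ^ j := pow_pos (Nat.cast_pos.2 hl.pos) _
    obtain ⟨x, y, hxy, hd, hc⟩ := id hL
    have hB : k.Lat (Submodule.span ℤ {((l : k.K) ^ j)⁻¹ * x, ((l : k.K) ^ j)⁻¹ * y})
        (c / ((l : ℚ) ^ j) ^ 2) := by
      refine ⟨_, _, rfl, ?_, by positivity⟩
      have h1 := det2_nat (l ^ j) (((l : k.K) ^ j)⁻¹ * x) (((l : k.K) ^ j)⁻¹ * y)
      rw [Nat.cast_pow, mul_inv_cancel_left₀ hl0, mul_inv_cancel_left₀ hl0, hd, Nat.cast_pow] at h1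
      rw [h1]
      field_simp
    have hle' : k.Ord (F' * l ^ d) * L ≤
        Submodule.span ℤ {((l : k.K) ^ j)⁻¹ * x, ((l : k.K) ^ j)⁻¹ * y} := by
      intro z hz
      obtain ⟨a, b, hab⟩ := mem_pair.1 (hxy ▸ hup z hz)
      refine mem_pair.2 ⟨a, b, ?_⟩
      rw [← inv_mul_cancel_left₀ hl0 z, hab]
      ring
    obtain ⟨c', hL'⟩ := lat_between _ _ _ _ _ hL hB hle hle'
    obtain ⟨m, -, hm, -⟩ := index _ _ _ _ hL hL' hle
    obtain ⟨m', -, hm', -⟩ := index _ _ _ _ hL' hB hle'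
    have h1 : m * m' = l ^ (j * 2) := by
      have : ((m * m' : ℕ) : ℚ) = ((l ^ (j * 2) : ℕ) : ℚ) := by
        rw [hm'] at hm
        push_cast
        rw [pow_mul]
        field_simp at hm
        linarith
      exact_mod_cast this
    obtain ⟨i, -, rfl⟩ := (Nat.dvd_prime_pow hl).1 ⟨m', h1.symm⟩
    have h2 := cov l _ _ _ hL hD
    rw [hm, Rat.cast_mul, norm_mul, cov l _ _ _ hL' hdep, Rat.cast_natCast, norm_pow_l, ← mul_inv,
      ← pow_add, inv_inj] at h2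
    have h3 : i + d = j + d :=
      pow_right_injective₀ (Nat.cast_pos.2 hl.pos) (by exact_mod_cast hl.one_lt.ne') h2
    obtain rfl : i = j := by omega
    have : c / (l : ℚ) ^ i = c' := by
      rw [hm]
      push_cast
      field_simp
    rwa [this]
  · rintro l' e' hl' hne ⟨u, hu, h1, h2⟩
    refine ⟨u * l ^ j, fun hdv => ((Nat.Prime.dvd_mul hl').1 hdv).elim hu fun h => hne
      ((Nat.prime_dvd_prime_iff_eq hl' hl).1 (hl'.dvd_of_dvd_pow h)), fun x hx => ?_,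
      fun x hx => ?_⟩
    · rw [Nat.cast_mul, mul_comm (u : k.K), mul_assoc]
      exact nat_mul_mem _ (hle (h1 x hx))
    · rw [Nat.cast_mul, mul_assoc, Nat.cast_pow]
      exact h2 _ (hup x hx)

lemma dep_zero (l : ℕ) (L : Submodule ℤ k.K) : k.Dep l 0 L ↔ k.Nrm l L := by
  have : k.Ord (l ^ 0) = k.O := by simp [Fld.Ord, Fld.O]
  rw [Fld.Dep, this]
  rfl

lemma act_triv (F : ℕ+) (G : ℕ) (t : k.SF F) (L : Submodule ℤ k.K) (c : ℚ) (hG : G ∣ F)
    (ht : One G t) (hL : k.Lat L c) (hA : k.Adm G L) : act t L = L := by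
  have hF : k.Adm F L := adm_dvd hG hA
  refine eq_of_le_cov (lat_act t hL hF) hL fun x hx => ?_
  obtain ⟨y', hy', e⟩ := ht
  obtain ⟨v, hv, y, hy, rfl⟩ := mem_ac.1 (act_eq t L ▸ hx)
  rw [e, add_mul, one_mul, mul_assoc]
  exact L.add_mem (L.add_mem hv (adm_mul hA (Submodule.mul_mem_mul hy' hv))) (adm_mul hF hy)

end Lat

theorem lat : LatStmt := fun _ =>
  ⟨Lat.normal, Lat.cov, Lat.level, Lat.ancestor, Lat.dep_zero, Lat.act_triv⟩

end Pool.Agent.Lib.MP_9177b7_ag.J
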