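import Pool.Agent.Lib.MP_9177b7_ag.J.DefsN

/-!
Residue classes with prescribed local components.
-/

open MeasureTheory Filter Topology Set Pointwise
open scoped MatrixGroups

noncomputable section

namespace Pool.Agent.Lib.MP_9177b7_ag.J

open Fld Dyn

namespace Loc

variable {k : Fld} {F : ℕ+}

theorem lift_mem (s : k.SF F) : lift s ∈ k.O :=
  (mem_O k).2 ⟨(s.val.re.val : ℕ), (s.val.im.val : ℕ), by ext <;> simp [Fld.lift]⟩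

theorem nat_mem (n : ℕ) : (n : k.K) ∈ k.O :=
  (mem_O k).2 ⟨n, 0, by ext <;> simp⟩

theorem val_eq {x : ZMod F} {z : ℤ} (h : x = (z : ZMod F)) :
    ∃ j : ℤ, ((x.val : ℕ) : ℚ) = z + (F : ℕ) * j := by
  subst h
  have h1 : (((z : ZMod F).val : ℤ) : ZMod F) = (z : ZMod F) := by simp
  obtain ⟨j, hj⟩ := (ZMod.intCast_eq_intCast_iff_dvd_sub _ _ _).1 h1.symm
  refine ⟨j, ?_⟩
  have : (((z : ZMod F).val : ℕ) : ℤ) = z + (F : ℕ) * j := by linarith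
  exact_mod_cast this

theorem lift_mul (s s' : k.SF F) :
    ∃ y ∈ k.O, lift (s * s') = lift s * lift s' + ((F : ℕ) : k.K) * y := by
  obtain ⟨j, hj⟩ := val_eq (x := (s * s').val.re)
    (z := (s.val.re.val : ℤ) * s'.val.re.val - k.n * s.val.im.val * s'.val.im.val) (by
      simp [QuadraticAlgebra.re_mul]
      ring)
  obtain ⟨j', hj'⟩ := val_eq (x := (s * s').val.im)
    (z := (s.val.re.val : ℤ) * s'.val.im.val + s.val.im.val * s'.val.re.val +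
      k.t * s.val.im.val * s'.val.im.val) (by
      simp [QuadraticAlgebra.im_mul])
  refine ⟨⟨j, j'⟩, (mem_O k).2 ⟨j, j', rfl⟩, ?_⟩
  ext
  · simp only [Fld.lift, QuadraticAlgebra.re_add, QuadraticAlgebra.re_mul,
      QuadraticAlgebra.re_natCast, QuadraticAlgebra.im_natCast]
    rw [hj]
    push_cast
    ring
  · simp only [Fld.lift, QuadraticAlgebra.im_add, QuadraticAlgebra.im_mul,
      QuadraticAlgebra.re_natCast, QuadraticAlgebra.im_natCast]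
    rw [hj']
    push_cast
    ring

theorem one_one : One (F : ℕ) (1 : k.SF F) := by
  obtain ⟨j, hj⟩ := val_eq (x := (1 : k.SF F).val.re) (z := 1) (by
    simp [QuadraticAlgebra.re_one])
  obtain ⟨j', hj'⟩ := val_eq (x := (1 : k.SF F).val.im) (z := 0) (by
    simp [QuadraticAlgebra.im_one])
  refine ⟨⟨j, j'⟩, (mem_O k).2 ⟨j, j', rfl⟩, ?_⟩
  ext
  · simp only [Fld.lift, QuadraticAlgebra.re_add, QuadraticAlgebra.re_mul,
      QuadraticAlgebra.re_natCast, QuadraticAlgebra.im_natCast, QuadraticAlgebra.re_one]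
    rw [hj]
    push_cast
    ring
  · simp only [Fld.lift, QuadraticAlgebra.im_add, QuadraticAlgebra.im_mul,
      QuadraticAlgebra.re_natCast, QuadraticAlgebra.im_natCast, QuadraticAlgebra.im_one]
    rw [hj']
    push_cast
    ring

theorem one_mono {G H : ℕ} (h : G ∣ H) {t : k.SF F} (ht : One H t) : One G t := by
  obtain ⟨c, rfl⟩ := h
  obtain ⟨y, hy, e⟩ := ht
  refine ⟨(c : k.K) * y, O_mul k (nat_mem c) hy, ?_⟩
  rw [e]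
  push_cast
  ring

theorem triv_mul {M : ℕ} {t t' : k.SF F} (h : Triv M t) (h' : Triv M t') : Triv M (t * t') := by
  obtain ⟨e, y, hy, he⟩ := h
  obtain ⟨e', y', hy', he'⟩ := h'
  obtain ⟨z, hz, hm⟩ := lift_mul t t'
  have hp : ∀ j : ℕ, (M : k.K) ^ j ∈ k.O := fun j => by
    have := nat_mem (k := k) (M ^ j)
    rwa [Nat.cast_pow] at this
  refine ⟨e + e', (M : k.K) ^ e' * y * lift t' + (M : k.K) ^ e * y' + (M : k.K) ^ (e + e') * z,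
    k.O.add_mem (k.O.add_mem (O_mul k (O_mul k (hp _) hy) (lift_mem _)) (O_mul k (hp _) hy'))
      (O_mul k (hp _) hz), ?_⟩
  rw [hm]
  linear_combination ((M : k.K) ^ e' * lift t') * he + (M : k.K) ^ e * he'

theorem triv_of_one {l M : ℕ} (h : l ∣ M) {t : k.SF F} (ht : One (ordCompl[l] (F : ℕ)) t) :
    Triv M t := by
  obtain ⟨c, rfl⟩ := h
  obtain ⟨y, hy, e⟩ := ht
  have hF : (((l ^ (F : ℕ).factorization l * ordCompl[l] (F : ℕ) : ℕ)) : k.K) = ((F : ℕ) : k.K) := by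
    rw [Nat.ordProj_mul_ordCompl_eq_self]
  refine ⟨(F : ℕ).factorization l, ((c ^ (F : ℕ).factorization l : ℕ) : k.K) * y,
    O_mul k (nat_mem _) hy, ?_⟩
  rw [e, ← hF]
  generalize ordCompl[l] (F : ℕ) = G
  push_cast
  ring

section One

variable {l : ℕ} [Fact l.Prime]

theorem sm_add {a b : ℚ_[l]} {φ : ℝ} (ha : ‖a‖ ≤ φ) (hb : ‖b‖ ≤ φ) : ‖a + b‖ ≤ φ :=
  (IsUltrametricDist.norm_add_le_max _ _).trans (max_le ha hb)

theorem sm_mul {a b : ℚ_[l]} {φ : ℝ} (ha : ‖a‖ ≤ 1) (hb : ‖b‖ ≤ φ) : ‖a * b‖ ≤ φ := by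
  rw [norm_mul]
  exact (mul_le_of_le_one_left (norm_nonneg _) ha).trans hb

theorem sm_neg {a : ℚ_[l]} {φ : ℝ} (ha : ‖a‖ ≤ φ) : ‖-a‖ ≤ φ := by rwa [norm_neg]

theorem sm_sq {a : ℚ_[l]} (ha : ‖a‖ ≤ 1) : ‖a ^ 2‖ ≤ 1 := by
  rw [sq]
  exact sm_mul ha ha

theorem unit_of_near {a b : ℚ_[l]} (hb : ‖b‖ = 1) (h : ‖a - b‖ < 1) : ‖a‖ = 1 := by
  have := IsUltrametricDist.norm_add_eq_max_of_norm_ne_norm (x := a - b) (y := b)
    (by rw [hb]; exact h.ne)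
  rw [sub_add_cancel, hb] at this
  rw [this]
  exact max_eq_right h.le

theorem nat_le (n : ℕ) : ‖(n : ℚ_[l])‖ ≤ 1 := by
  simpa using Padic.norm_int_le_one (p := l) n

theorem nat_lt {n : ℕ} : ‖(n : ℚ_[l])‖ < 1 ↔ l ∣ n := by
  simp

theorem nat_eq {n : ℕ} (h : ¬ l ∣ n) : ‖(n : ℚ_[l])‖ = 1 :=
  le_antisymm (nat_le n) (not_lt.1 fun h' => h (nat_lt.1 h'))

theorem nat_dvd {m n : ℕ} (h : m ∣ n) : ‖(n : ℚ_[l])‖ ≤ ‖(m : ℚ_[l])‖ := by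
  obtain ⟨c, rfl⟩ := h
  rw [Nat.cast_mul, mul_comm]
  exact sm_mul (nat_le c) le_rfl

theorem approx {z : ℚ_[l]} (hz : ‖z‖ ≤ 1) {ε : ℝ} (hε : 0 < ε) : ∃ a : ℤ, ‖z - a‖ < ε := by
  obtain ⟨a, ha⟩ := (PadicInt.denseRange_intCast (p := l)).exists_dist_lt (⟨z, hz⟩ : ℤ_[l]) hε
  refine ⟨a, ?_⟩
  rw [dist_eq_norm, PadicInt.norm_def] at ha
  simpa using ha

variable {r : ℚ_[l]}

theorem io_cong (hr : ‖r‖ ≤ 1) {x z y : k.K} {G : ℕ} (hy : y ∈ k.O) (e : x = z + (G : k.K) * y) :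
    ‖k.io r x - k.io r z‖ ≤ ‖(G : ℚ_[l])‖ := by
  rw [e, io_add, natCast_mul, io_qsmul, add_sub_cancel_left, mul_comm]
  simpa using sm_mul (io_O k hr hy) (le_refl ‖(G : ℚ_[l])‖)

theorem io_le (hr : ‖r‖ ≤ 1) (s : k.SF F) : ‖k.io r (lift s)‖ ≤ 1 := io_O k hr (lift_mem s)

theorem io_lmul (h : k.Root r) (hr : ‖r‖ ≤ 1) (s s' : k.SF F) :
    ‖k.io r (lift (s * s')) - k.io r (lift s) * k.io r (lift s')‖ ≤ ‖((F : ℕ) : ℚ_[l])‖ := by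
  obtain ⟨y, hy, e⟩ := lift_mul s s'
  rw [← io_mul k h]
  exact io_cong hr hy e

theorem io_near (hr : ‖r‖ ≤ 1) {G : ℕ} {t : k.SF F} (ht : One G t) :
    ‖k.io r (lift t) - 1‖ ≤ ‖(G : ℚ_[l])‖ := by
  obtain ⟨y, hy, e⟩ := ht
  simpa [io_one] using io_cong hr hy e

theorem io_linv (h : k.Root r) (hr : ‖r‖ ≤ 1) (s : k.SF F) :
    ‖k.io r (lift s) * k.io r (lift s⁻¹) - 1‖ ≤ ‖((F : ℕ) : ℚ_[l])‖ := by
  have h1 := io_lmul h hr s s⁻¹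
  rw [mul_inv_cancel] at h1
  convert sm_add (sm_neg h1) (io_near hr (one_one (k := k) (F := F))) using 2
  ring

theorem io_unit (h : k.Root r) (hr : ‖r‖ ≤ 1) (hl : l ∣ F) (s : k.SF F) :
    ‖k.io r (lift s)‖ = 1 := by
  have h1 := unit_of_near norm_one ((io_linv h hr s).trans_lt (nat_lt.2 hl))
  rw [norm_mul] at h1
  have h2 := io_le hr s
  have h3 := io_le hr s⁻¹
  nlinarith [norm_nonneg (k.io r (lift s)), norm_nonneg (k.io r (lift s⁻¹))]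

theorem rl_of (h : Good k r) {τ σ σ' : ℚ_[l]} (hτ : ‖τ‖ ≤ 1) {t s : k.SF F}
    (h1 : ‖k.io r (lift t) - σ‖ ≤ ‖((F : ℕ) : ℚ_[l])‖)
    (h2 : ‖k.io ((k.t : ℚ_[l]) - r) (lift t) - σ'‖ ≤ ‖((F : ℕ) : ℚ_[l])‖)
    (h3 : ‖σ' * k.io ((k.t : ℚ_[l]) - r) (lift s) - τ ^ 2 * σ * k.io r (lift s)‖ ≤
      ‖((F : ℕ) : ℚ_[l])‖) : Rl r τ (t * s) := by
  have a1 := io_lmul h.root h.le t s
  have a2 := io_lmul (root_conj k h.root) (h.le' k) t s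
  unfold Fld.Rl
  convert sm_add (sm_add (sm_add (sm_add a2 (sm_mul (sm_neg (sm_sq hτ)) a1)) h3)
    (sm_mul (io_le (h.le' k) s) h2))
    (sm_mul (sm_neg (sm_mul (sm_sq hτ) (io_le h.le s))) h1) using 2
  ring

theorem rl_mul (h : Good k r) {τ τ' : ℚ_[l]} (hτ : ‖τ‖ ≤ 1) (hτ' : ‖τ'‖ ≤ 1) {s s' : k.SF F}
    (h1 : Rl r τ s) (h2 : Rl r τ' s') : Rl r (τ * τ') (s * s') := by
  unfold Fld.Rl at h1 h2
  refine rl_of h (σ := k.io r (lift s)) (σ' := k.io ((k.t : ℚ_[l]) - r) (lift s)) (sm_mul hτ hτ')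
    (by simp) (by simp) ?_
  convert sm_add (sm_mul (io_le (h.le' k) s') h1)
    (sm_mul (sm_mul (sm_sq hτ) (io_le h.le s)) h2) using 2
  ring

theorem rl_inv (h : Good k r) {τ : ℚ_[l]} (hτ : ‖τ‖ = 1) {s : k.SF F}
    (h1 : Rl r τ s) : Rl r τ⁻¹ s⁻¹ := by
  unfold Fld.Rl at h1 ⊢
  have h0 : τ ≠ 0 := by
    rintro rfl
    simp at hτ
  have hi : ‖τ⁻¹ ^ 2‖ ≤ 1 := sm_sq (by rw [norm_inv, hτ, inv_one])
  have a1 := io_linv h.root h.le s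
  have a2 := io_linv (root_conj k h.root) (h.le' k) s
  have b1 := io_le h.le s⁻¹
  have b2 := io_le (h.le' k) s⁻¹
  convert sm_add (sm_mul hi (sm_add (sm_mul (sm_neg (sm_mul b1 b2)) h1) (sm_mul b1 a2)))
    (sm_mul (sm_neg b2) a1) using 2
  field_simp
  ring

theorem rl_one (h : Good k r) {G : ℕ} (hG : ‖(G : ℚ_[l])‖ ≤ ‖((F : ℕ) : ℚ_[l])‖) {t : k.SF F}
    (ht : One G t) : Rl r 1 t := by
  unfold Fld.Rl
  convert sm_add ((io_near (h.le' k) ht).trans hG) (sm_neg ((io_near h.le ht).trans hG)) using 2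
  ring

theorem rl_triv (h : Good k r) (hl : ¬ l ∣ F) {τ : ℚ_[l]} (hτ : ‖τ‖ ≤ 1) (s : k.SF F) :
    Rl r τ s := by
  unfold Fld.Rl
  rw [nat_eq hl, sub_eq_add_neg]
  exact sm_add (io_le (h.le' k) s) (sm_neg (sm_mul (sm_sq hτ) (io_le h.le s)))

theorem rl_other (h : Good k r) {p : ℕ} (hp : p.Prime) (hne : p ≠ l) {t : k.SF F}
    (ht : One (ordCompl[p] (F : ℕ)) t) {τ : ℚ_[l]} (hτ : ‖τ‖ ≤ 1) {s : k.SF F} (hs : Rl r τ s) :
    Rl r τ (t * s) := by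
  have h1 : ‖((p ^ (F : ℕ).factorization p : ℕ) : ℚ_[l])‖ = 1 := nat_eq fun hd =>
    hne ((Nat.prime_dvd_prime_iff_eq Fact.out hp).1
      ((Fact.out : l.Prime).dvd_of_dvd_pow hd)).symm
  have h2 : ‖((ordCompl[p] (F : ℕ) : ℕ) : ℚ_[l])‖ ≤ ‖((F : ℕ) : ℚ_[l])‖ := by
    conv_rhs => rw [← Nat.ordProj_mul_ordCompl_eq_self (F : ℕ) p, Nat.cast_mul, norm_mul, h1,
      one_mul]
  simpa using rl_mul h norm_one.le hτ (rl_one h h2 ht) hs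

theorem compl_norm : ‖((ordCompl[l] (F : ℕ) : ℕ) : ℚ_[l])‖ = 1 :=
  nat_eq (Nat.not_dvd_ordCompl Fact.out F.ne_zero)

/-- Classes with prescribed embeddings at `l`. -/
theorem key (h : Good k r) {H : ℕ} (hH : H ∣ F) (hH' : ordCompl[l] (F : ℕ) ∣ H) {σ σ' : ℚ_[l]}
    (hσ : ‖σ‖ = 1) (hσ' : ‖σ'‖ = 1) (n₁ : ‖σ - 1‖ ≤ ‖(H : ℚ_[l])‖) (n₂ : ‖σ' - 1‖ ≤ ‖(H : ℚ_[l])‖) :
    ∃ t : k.SF F, One H t ∧ ‖k.io r (lift t) - σ‖ ≤ ‖((F : ℕ) : ℚ_[l])‖ ∧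
      ‖k.io ((k.t : ℚ_[l]) - r) (lift t) - σ'‖ ≤ ‖((F : ℕ) : ℚ_[l])‖ := by
  have hF0 : 0 < ‖((F : ℕ) : ℚ_[l])‖ := norm_pos_iff.2 (by exact_mod_cast F.ne_zero)
  have hH0 : (H : ℚ_[l]) ≠ 0 := by
    have : H ≠ 0 := by
      rintro rfl
      exact F.ne_zero (zero_dvd_iff.1 hH)
    exact_mod_cast this
  have hd0 : (k.t : ℚ_[l]) - r - r ≠ 0 := by
    intro h0
    have := h.dif
    rw [h0] at this
    simp at this
  have dv : ∀ z : ℚ_[l], ‖z‖ ≤ ‖(H : ℚ_[l])‖ → ‖z / H‖ ≤ 1 := fun z hz => by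
    rw [_root_.norm_div]
    exact div_le_one_of_le₀ hz (norm_nonneg _)
  set y := (σ' - σ) / H / ((k.t : ℚ_[l]) - r - r) with hy
  have y1 : ‖y‖ ≤ 1 := by
    rw [hy, _root_.norm_div, h.dif, div_one]
    refine dv _ ?_
    convert sm_add n₂ (sm_neg n₁) using 2
    ring
  set x := (σ - 1) / H - y * r with hx
  have x1 : ‖x‖ ≤ 1 := by
    rw [hx, sub_eq_add_neg]
    exact sm_add (dv _ n₁) (sm_neg (sm_mul y1 h.le))
  obtain ⟨a, ha⟩ := approx x1 hF0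
  obtain ⟨b, hb⟩ := approx y1 hF0
  obtain ⟨δ, hδ, ha, hb⟩ : ∃ δ : ℝ, δ < ‖((F : ℕ) : ℚ_[l])‖ ∧ ‖x - a‖ ≤ δ ∧ ‖y - b‖ ≤ δ :=
    ⟨max _ _, max_lt ha hb, le_max_left _ _, le_max_right _ _⟩
  let P : k.K := ⟨((1 + H * a : ℤ) : ℚ), ((H * b : ℤ) : ℚ)⟩
  have hP : P ∈ k.O := (mem_O k).2 ⟨_, _, rfl⟩
  have p1 : ‖k.io r P - σ‖ ≤ δ := by
    convert sm_mul (sm_neg (nat_le (l := l) H)) (sm_add ha (sm_mul h.le hb)) using 2
    simp only [P, Fld.io, hx]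
    push_cast
    field_simp
    ring
  have p2 : ‖k.io ((k.t : ℚ_[l]) - r) P - σ'‖ ≤ δ := by
    convert sm_mul (sm_neg (nat_le (l := l) H)) (sm_add ha (sm_mul (h.le' k) hb)) using 2
    simp only [P, Fld.io, hx, hy]
    push_cast
    field_simp
    ring
  have δ1 : δ < 1 := hδ.trans_le (nat_le _)
  have u1 := unit_of_near hσ (p1.trans_lt δ1)
  have u2 := unit_of_near hσ' (p2.trans_lt δ1)
  set n : ℤ := 1 + H * (2 * a + H * a ^ 2 + k.t * (1 + H * a) * b + k.n * H * b ^ 2) with hn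
  have e1 : QuadraticAlgebra.norm P = (n : ℚ) := by
    rw [QuadraticAlgebra.norm_def]
    simp only [P, hn]
    push_cast
    ring
  have n0 : 0 ≤ n := by
    have := N_nonneg k P
    unfold Fld.N at this
    rw [e1] at this
    exact_mod_cast this
  obtain ⟨m, hm⟩ := Int.eq_ofNat_of_zero_le n0
  have e2 : QuadraticAlgebra.norm P = (m : ℚ) := by
    rw [e1, hm]
    simp
  have c1 : ¬ l ∣ m := by
    intro hd
    have h1 := io_norm k h.root P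
    rw [e2] at h1
    have h2 := nat_lt.2 hd
    rw [← Rat.cast_natCast, ← h1, norm_mul, u1, u2] at h2
    simp at h2
  have c2 : Nat.Coprime m H := by
    rw [← Nat.isCoprime_iff_coprime, ← hm, hn]
    exact ⟨1, -(2 * a + H * a ^ 2 + k.t * (1 + H * a) * b + k.n * H * b ^ 2), by ring⟩
  have c3 : Nat.Coprime m F := by
    rw [← Nat.ordProj_mul_ordCompl_eq_self (F : ℕ) l]
    exact Nat.Coprime.mul_right
      (Nat.Coprime.pow_right _ ((Nat.Prime.coprime_iff_not_dvd Fact.out).2 c1).symm)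
      (c2.coprime_dvd_right hH')
  obtain ⟨t, z, hz, e⟩ := exists_lift k F hP e2 c3
  obtain ⟨c, hc⟩ := hH
  refine ⟨t, ⟨⟨a, b⟩ + (c : k.K) * z,
    k.O.add_mem ((mem_O k).2 ⟨a, b, rfl⟩) (O_mul k (nat_mem c) hz), ?_⟩, ?_, ?_⟩
  · have : P = 1 + (H : k.K) * ⟨a, b⟩ := by
      ext <;> simp [P, QuadraticAlgebra.re_one, QuadraticAlgebra.im_one]
    rw [e, this, hc]
    push_cast
    ring
  · convert sm_add (io_cong h.le hz e) (p1.trans hδ.le) using 2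
    ring
  · convert sm_add (io_cong (h.le' k) hz e) (p2.trans hδ.le) using 2
    ring

theorem key' (h : Good k r) {σ σ' : ℚ_[l]} (hσ : ‖σ‖ = 1) (hσ' : ‖σ'‖ = 1) :
    ∃ t : k.SF F, One (ordCompl[l] (F : ℕ)) t ∧ ‖k.io r (lift t) - σ‖ ≤ ‖((F : ℕ) : ℚ_[l])‖ ∧
      ‖k.io ((k.t : ℚ_[l]) - r) (lift t) - σ'‖ ≤ ‖((F : ℕ) : ℚ_[l])‖ := by
  refine key h (Nat.ordCompl_dvd _ _) dvd_rfl hσ hσ' ?_ ?_ <;> rw [compl_norm, sub_eq_add_neg]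
  · exact sm_add hσ.le (by simp)
  · exact sm_add hσ'.le (by simp)

theorem fix (h : Good k r) {τ : ℚ_[l]} (hτ : ‖τ‖ = 1) (s : k.SF F) :
    ∃ t : k.SF F, One (ordCompl[l] (F : ℕ)) t ∧ Rl r τ (t * s) := by
  by_cases hl : l ∣ F
  · obtain ⟨t, h1, h2, h3⟩ := key' (F := F) h (io_unit (root_conj k h.root) (h.le' k) hl s)
      (σ' := τ ^ 2 * k.io r (lift s)) (by simp [hτ, io_unit h.root h.le hl s])
    refine ⟨t, h1, rl_of h hτ.le h2 h3 ?_⟩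
    convert norm_nonneg ((F : ℕ) : ℚ_[l])
    rw [norm_eq_zero]
    ring
  · exact ⟨1, one_mono (Nat.ordCompl_dvd _ _) one_one, rl_triv h hl hτ.le _⟩

theorem hens (h2 : l ≠ 2) {ρ : ℚ_[l]} (hρ : ‖ρ‖ = 1) {u : ℤ} (hu : ‖(u : ℚ_[l]) ^ 2 - ρ‖ < 1) :
    ∃ τ : ℚ_[l], τ ^ 2 = ρ := by
  have u1 : ‖(u : ℚ_[l])‖ = 1 := by
    have := unit_of_near hρ hu
    rw [norm_pow] at this
    exact (pow_eq_one_iff_of_nonneg (norm_nonneg _) two_ne_zero).1 this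
  have t1 : ‖((2 : ℕ) : ℚ_[l])‖ = 1 := nat_eq fun hd =>
    h2 ((Nat.prime_dvd_prime_iff_eq Fact.out Nat.prime_two).1 hd)
  obtain ⟨R, rfl⟩ : ∃ R : ℤ_[l], (R : ℚ_[l]) = ρ := ⟨⟨ρ, hρ.le⟩, rfl⟩
  obtain ⟨z, hz, -⟩ := hensels_lemma (p := l) (a := (u : ℤ_[l]))
    (F := (Polynomial.X ^ 2 - Polynomial.C R : Polynomial ℤ_[l])) (by
      have e1 : ‖(((2 : ℕ) : ℤ_[l]) * u : ℤ_[l])‖ = 1 := by
        rw [PadicInt.norm_def, PadicInt.coe_mul, PadicInt.coe_natCast, PadicInt.coe_intCast,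
          norm_mul, u1, t1, one_mul]
      have e2 : ‖(u : ℤ_[l]) ^ 2 - R‖ < 1 := by
        rw [PadicInt.norm_def]
        simpa using hu
      push_cast at e1
      simpa [e1, -norm_mul, map_ofNat, one_add_one_eq_two] using e2)
  refine ⟨z, ?_⟩
  have := congrArg (fun x : ℤ_[l] => (x : ℚ_[l])) hz
  simpa [sub_eq_zero] using this

theorem sq_or (h2 : l ≠ 2) : ∃ ε : ℚ_[l], ‖ε‖ = 1 ∧ ∀ ρ : ℚ_[l], ‖ρ‖ = 1 →
    ∃ τ : ℚ_[l], τ ^ 2 = ρ ∨ τ ^ 2 = ε * ρ := by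
  have hc : ringChar (ZMod l) ≠ 2 := by rwa [ZMod.ringChar_zmod_n]
  obtain ⟨e, he⟩ := FiniteField.exists_nonsquare hc
  obtain ⟨ε, rfl⟩ := ZMod.intCast_surjective e
  have lt : ∀ a : ℤ, ‖(a : ℚ_[l])‖ < 1 ↔ (a : ZMod l) = 0 := fun a => by
    rw [Padic.norm_intCast_lt_one_iff, ZMod.intCast_zmod_eq_zero_iff_dvd]
  have ε0 : (ε : ZMod l) ≠ 0 := fun h0 => he (h0 ▸ IsSquare.zero)
  have ε1 : ‖(ε : ℚ_[l])‖ = 1 :=
    le_antisymm (Padic.norm_int_le_one _) (not_lt.1 fun h => ε0 ((lt ε).1 h))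
  have main : ∀ (ρ : ℚ_[l]) (a : ℤ), ‖ρ‖ = 1 → ‖ρ - a‖ < 1 → IsSquare (a : ZMod l) →
      ∃ τ : ℚ_[l], τ ^ 2 = ρ := by
    rintro ρ a hρ ha ⟨v, hv⟩
    obtain ⟨u, rfl⟩ := ZMod.intCast_surjective v
    refine hens h2 hρ (u := u) ?_
    have h1 := (lt (u ^ 2 - a)).2 (by
      push_cast
      rw [hv]
      ring)
    have h3 : (u : ℚ_[l]) ^ 2 - ρ = ((u ^ 2 - a : ℤ) : ℚ_[l]) + -(ρ - a) := by
      push_cast
      ring
    rw [h3]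
    exact (IsUltrametricDist.norm_add_le_max _ _).trans_lt (max_lt h1 (by rwa [norm_neg]))
  refine ⟨ε, ε1, fun ρ hρ => ?_⟩
  obtain ⟨a, ha⟩ := approx hρ.le one_pos
  by_cases hs : IsSquare (a : ZMod l)
  · obtain ⟨τ, hτ⟩ := main ρ a hρ ha hs
    exact ⟨τ, Or.inl hτ⟩
  · have a0 : (a : ZMod l) ≠ 0 := fun h0 => hs (h0 ▸ IsSquare.zero)
    obtain ⟨τ, hτ⟩ := main (ε * ρ) (ε * a) (by simp [ε1, hρ]) (by
      push_cast
      rwa [← mul_sub, norm_mul, ε1, one_mul]) (by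
      push_cast
      rw [← quadraticChar_one_iff_isSquare (mul_ne_zero ε0 a0), map_mul,
        quadraticChar_neg_one_iff_not_isSquare.2 he, quadraticChar_neg_one_iff_not_isSquare.2 hs]
      norm_num)
    exact ⟨τ, Or.inr hτ⟩

theorem two (h : Good k r) (h2 : l ≠ 2) : ∃ u : k.SF F, One (ordCompl[l] (F : ℕ)) u ∧
    ∀ s : k.SF F, ∃ w, (w = 1 ∨ w = u) ∧ ∃ τ : ℚ_[l], ‖τ‖ = 1 ∧ Rl r τ (w * s) := by
  by_cases hl : l ∣ F
  · obtain ⟨ε, ε1, hε⟩ := sq_or h2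
    obtain ⟨u, h1, h3, h4⟩ := key' (F := F) h norm_one ε1
    refine ⟨u, h1, fun s => ?_⟩
    have a1 := io_unit h.root h.le hl s
    have a2 := io_unit (root_conj k h.root) (h.le' k) hl s
    have a0 : k.io r (lift s) ≠ 0 := by
      intro h0
      rw [h0] at a1
      simp at a1
    have hρ : ‖k.io ((k.t : ℚ_[l]) - r) (lift s) / k.io r (lift s)‖ = 1 := by
      rw [_root_.norm_div, a1, a2, div_one]
    have nm : ∀ τ : ℚ_[l], ‖τ ^ 2‖ = 1 → ‖τ‖ = 1 := fun τ hτ => by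
      rw [norm_pow] at hτ
      exact (pow_eq_one_iff_of_nonneg (norm_nonneg _) two_ne_zero).1 hτ
    obtain ⟨τ, hτ | hτ⟩ := hε _ hρ
    · refine ⟨1, Or.inl rfl, τ, nm τ (by rw [hτ, hρ]), ?_⟩
      rw [one_mul]
      unfold Fld.Rl
      rw [hτ, div_mul_cancel₀ _ a0]
      simp
    · have t1 := nm τ (by rw [hτ, norm_mul, hρ, ε1, one_mul])
      refine ⟨u, Or.inr rfl, τ, t1, rl_of h t1.le h3 h4 ?_⟩
      rw [hτ, mul_one, mul_assoc, div_mul_cancel₀ _ a0]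
      simp
  · exact ⟨1, one_mono (Nat.ordCompl_dvd _ _) one_one, fun s =>
      ⟨1, Or.inl rfl, 1, norm_one, rl_triv h hl norm_one.le _⟩⟩

theorem mul00 {g : HH l} (hg : DG g) (g' : HH l) : (g * g') 0 0 = g 0 0 * g' 0 0 := by
  simp [mul_entry, hg.1]

theorem inv00' {g : HH l} (hg : DG g) : g⁻¹ 0 0 = (g 0 0)⁻¹ := by
  have := det_entry g
  rw [hg.1, zero_mul, sub_zero] at this
  rw [inv00]
  exact eq_inv_of_mul_eq_one_right this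

end One

end Loc

open Loc

theorem loc : LocStmt := by
  classical
  intro k l₁ l₂ _ _ r₁ r₂ hne o₁ o₂ h₁ h₂ F
  have p₁ : l₁.Prime := Fact.out
  have p₂ : l₂.Prime := Fact.out
  refine ⟨⟨?_, ?_⟩, ?_, ?_, ?_, ?_, ?_⟩
  · simpa using rl_one h₁ le_rfl one_one
  · simpa using rl_one h₂ le_rfl one_one
  · rintro m ⟨⟨a1, a2, -⟩, a3, a4⟩ m' ⟨-, b3, b4⟩ s s' ⟨c1, c2⟩ ⟨d1, d2⟩
    refine ⟨?_, ?_⟩
    · change Rl r₁ ((m.1 * m'.1) 0 0) _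
      rw [mul00 a1]
      exact rl_mul h₁ a3.le b3.le c1 d1
    · change Rl r₂ ((m.2.1 * m'.2.1) 0 0) _
      rw [mul00 a2]
      exact rl_mul h₂ a4.le b4.le c2 d2
  · rintro m ⟨⟨a1, a2, -⟩, a3, a4⟩ s ⟨c1, c2⟩
    refine ⟨?_, ?_⟩
    · change Rl r₁ (m.1⁻¹ 0 0) _
      rw [inv00' a1]
      exact rl_inv h₁ a3 c1
    · change Rl r₂ (m.2.1⁻¹ 0 0) _
      rw [inv00' a2]
      exact rl_inv h₂ a4 c2
  · rintro m ⟨-, a3, a4⟩ s
    obtain ⟨t₂, b1, b2⟩ := fix h₂ a4 s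
    obtain ⟨t₁, c1, c2⟩ := fix h₁ a3 (t₂ * s)
    refine ⟨t₁ * t₂, triv_mul (triv_of_one (dvd_mul_right _ _) c1)
      (triv_of_one (dvd_mul_left _ _) b1), ?_⟩
    rw [mul_assoc]
    exact ⟨c2, rl_other h₂ p₁ hne c1 a4.le b2⟩
  · intro G τ hG τ1 hτ
    have hn : ‖(G : ℚ_[l₁])‖ ≤ ‖((Nat.lcm G (ordCompl[l₁] (F : ℕ)) : ℕ) : ℚ_[l₁])‖ := by
      have := nat_dvd (l := l₁) (Nat.lcm_dvd_mul G (ordCompl[l₁] (F : ℕ)))
      rwa [Nat.cast_mul, norm_mul, compl_norm, mul_one] at this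
    obtain ⟨t, a1, a2, a3⟩ := key (F := F) h₁ (Nat.lcm_dvd hG (Nat.ordCompl_dvd _ _))
      (Nat.dvd_lcm_right _ _) norm_one (σ' := (τ : ℚ_[l₁]) ^ 2) (by simp [τ1]) (by simp) (by
        have : (τ : ℚ_[l₁]) ^ 2 - 1 = (τ + 1) * (τ - 1) := by ring
        rw [this]
        exact sm_mul (sm_add τ1.le norm_one.le) (hτ.trans hn))
    have a4 := one_mono (Nat.dvd_lcm_right _ _) a1
    refine ⟨t, one_mono (Nat.dvd_lcm_left _ _) a1, triv_of_one (dvd_mul_right _ _) a4, ?_, ?_⟩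
    · change Rl r₁ (τ : ℚ_[l₁]) t
      unfold Fld.Rl
      convert sm_add a3 (sm_mul (sm_neg (sm_sq τ1.le)) a2) using 2
      ring
    · simpa using rl_other h₂ p₁ hne a4 norm_one.le (rl_one h₂ le_rfl one_one)
  · obtain ⟨u₁, a1, a2⟩ := two (F := F) h₁ o₁
    obtain ⟨u₂, -, b2⟩ := two (F := F) h₂ o₂
    refine ⟨{1 * 1, 1 * u₂, u₁ * 1, u₁ * u₂}, Finset.card_le_four, fun s => ?_⟩
    obtain ⟨w₂, c1, τ₂, c2, c3⟩ := b2 s
    obtain ⟨w₁, d1, τ₁, d2, d3⟩ := a2 (w₂ * s)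
    have z₁ : τ₁ ≠ 0 := by
      rintro rfl
      simp at d2
    have z₂ : τ₂ ≠ 0 := by
      rintro rfl
      simp at c2
    have w1 : One (ordCompl[l₁] (F : ℕ)) w₁ := by
      rcases d1 with rfl | rfl
      · exact one_mono (Nat.ordCompl_dvd _ _) one_one
      · exact a1
    refine ⟨w₁ * w₂, by rcases c1 with rfl | rfl <;> rcases d1 with rfl | rfl <;> simp,
      (dg (Units.mk0 τ₁ z₁), dg (Units.mk0 τ₂ z₂), 1),
      ⟨⟨⟨rfl, rfl⟩, ⟨rfl, rfl⟩, by simp, by simp⟩, d2, c2⟩, ?_⟩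
    rw [mul_assoc]
    exact ⟨d3, rl_other h₂ p₁ hne w1 c2.le c3⟩

end Pool.Agent.Lib.MP_9177b7_ag.J
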