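import Pool.Agent.Lib.MP_9177b7_ag.J.DynN3
import Pool.Agent.Lib.MP_9177b7_ag.J.Lat
import Pool.Agent.Lib.MP_9177b7_ag.J.Loc

/-!
The case of bounded depth.
-/

open MeasureTheory Filter Topology Set Pointwise Matrix
open scoped MatrixGroups ENNReal BoundedContinuousFunction

noncomputable section

namespace Pool.Agent.Lib.MP_9177b7_ag.J

open Fld Dyn

namespace DynN

variable (k : Fld) {l₁ l₂ : ℕ} [Fact l₁.Prime] [Fact l₂.Prime] {w : ℂ} {r₁ : ℚ_[l₁]}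
  {r₂ : ℚ_[l₂]}

theorem dg_pow {F : Type} [Field F] (t : Fˣ) (N : ℕ) : dg t ^ N = dg (t ^ N) := by
  induction N with
  | zero =>
    ext i j
    fin_cases i <;> fin_cases j <;> simp [dg]
  | succ N ih =>
    rw [pow_succ, ih]
    ext i j
    fin_cases i <;> fin_cases j <;> simp [mul_entry, dg, pow_succ, mul_comm]

theorem DG_dg {F : Type} [Field F] (t : Fˣ) : DG (dg t) := ⟨by simp [dg], by simp [dg]⟩

theorem Rot_one : Rot (1 : SL(2, ℝ)) := ⟨by simp, by simp⟩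

theorem anc2 (hne : l₁ ≠ l₂) {F : ℕ+} {L : Submodule ℤ k.K} {c : ℚ} {e₁ e₂ : ℕ}
    (D : Dd k l₁ l₂ F L c e₁ e₂) : ∃ (M : Submodule ℤ k.K) (c' : ℚ),
      c = (l₁ ^ e₁ * l₂ ^ e₂ : ℕ) * c' ∧ L ≤ M ∧
      (∀ x ∈ M, ((l₁ ^ e₁ * l₂ ^ e₂ : ℕ) : k.K) * x ∈ L) ∧ k.Lat M c' ∧ k.Adm F M ∧
      k.Dep l₁ 0 M ∧ k.Dep l₂ 0 M := by
  have p₁ : l₁.Prime := Fact.out
  have p₂ : l₂.Prime := Fact.out
  obtain ⟨L', a1, a2, a3, a4, a5, a6⟩ := (lat k).2.2.2.1 l₁ e₁ e₁ F L c p₁ F.ne_zero D.lat D.adm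
    D.dep₁ le_rfl
  obtain ⟨M, b1, b2, b3, b4, b5, b6⟩ := (lat k).2.2.2.1 l₂ e₂ e₂ F L' _ p₂ F.ne_zero a1 a2
    (a6 l₂ e₂ p₂ hne.symm D.dep₂) le_rfl
  rw [Nat.sub_self] at a3 b3
  refine ⟨M, _, ?_, a4.trans b4, fun x hx => ?_, b1, b2, b6 l₁ 0 p₁ hne a3, b3⟩
  · have : (l₁ : ℚ) ≠ 0 := by exact_mod_cast p₁.ne_zero
    have : (l₂ : ℚ) ≠ 0 := by exact_mod_cast p₂.ne_zero
    push_cast
    field_simp
  · have := a5 _ (b5 x hx)
    push_cast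
    rwa [mul_assoc]

theorem exists_F0 (F : ℕ+) : ∃ F₀ : ℕ+, (F₀ : ℕ) ∣ F ∧ (¬ l₁ ∣ F₀ ∧ ¬ l₂ ∣ F₀) ∧
    ∀ (M : Submodule ℤ k.K) (c : ℚ), k.Lat M c → k.Adm F M → k.Dep l₁ 0 M → k.Dep l₂ 0 M → Dat k l₁ l₂ F₀ M c := by
  have p₁ : l₁.Prime := Fact.out
  have p₂ : l₂.Prime := Fact.out
  have h1 : 0 < (F : ℕ) / l₁ ^ (F : ℕ).factorization l₁ := Nat.ordCompl_pos l₁ F.ne_zero
  set F₁ := (F : ℕ) / l₁ ^ (F : ℕ).factorization l₁ with hF₁
  have h2 : 0 < F₁ / l₂ ^ F₁.factorization l₂ := Nat.ordCompl_pos l₂ h1.ne'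
  have n₁ : ¬ l₁ ∣ F₁ / l₂ ^ F₁.factorization l₂ := fun h => Nat.not_dvd_ordCompl p₁ F.ne_zero
      (h.trans (Nat.ordCompl_dvd F₁ l₂))
  have n₂ := Nat.not_dvd_ordCompl p₂ h1.ne'
  refine ⟨⟨_, h2⟩, (Nat.ordCompl_dvd F₁ l₂).trans (Nat.ordCompl_dvd F l₁), ⟨n₁, n₂⟩,
    fun M c hM hA d₁ d₂ => ⟨n₁, n₂, hM, ?_,
      ((lat k).2.2.2.2.1 _ _).1 d₁, ((lat k).2.2.2.2.1 _ _).1 d₂⟩⟩
  have a := ((lat k).2.2.1 l₁ 0 F M p₁ F.ne_zero d₁ hA).2
  rw [pow_zero, mul_one] at a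
  have b := ((lat k).2.2.1 l₂ 0 F₁ M p₂ h1.ne' d₂ a).2
  rwa [pow_zero, mul_one] at b

variable [PolishSpace (XX l₁ l₂)]

theorem an_coord {ι : Type} {F : ℕ+} {κ : Measure (MM l₁ l₂ × k.SF F)} (K : Kap k r₁ r₂ F κ)
    (A : ι → GG l₁ l₂) (L : ι → Submodule ℤ k.K) (h : k.SF F → ℝ) (i : ι) :
    ((an k w K A L h : Measure ((ι → XX l₁ l₂) × II)).map Prod.fst).map (fun z => z i) =
      κ.map fun q => ph k w r₁ r₂ A L q i := by
  rw [an_fst, Measure.map_map (measurable_pi_apply i) (ph_meas k _ _)]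
  rfl

theorem marg1 (hw : k.Root w) (hne : l₁ ≠ l₂) (h₁ : Good k r₁) (h₂ : Good k r₂)
    (d₁ : ¬ (l₁ : ℤ) ∣ k.D) (d₂ : ¬ (l₂ : ℤ) ∣ k.D) {F : ℕ → ℕ+} {L : ℕ → Submodule ℤ k.K}
    {c : ℕ → ℚ} (D : ∀ n, Dat k l₁ l₂ (F n) (L n) (c n))
    (h : ∀ c : ℕ, 0 < c → ∀ᶠ n in atTop, ¬ k.Adm c (L n)) {μ : ProbabilityMeasure (XX l₁ l₂)}
    (hμ : Tendsto (fun n => mu k w r₁ r₂ (F n) (L n)) atTop (𝓝 μ)) (g : HH l₁) :
    (μ : Measure (XX l₁ l₂)).map (((g, 1) : GG l₁ l₂) • ·) = μ := by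
  obtain ⟨t₁, t₂, e, he, ht₁, -, hT⟩ := exists_tor k basic (pi_stmt basic) hw hne h₁ h₂ d₁ d₂
  refine marg_lim k basic coll' marg2 hw h₁ h₂ d₁ D h he ht₁ (fun n => ?_) hμ g
  obtain ⟨g, hg, hm, hs₀⟩ := hT _ (Or.inl rfl)
  obtain ⟨s₀, hs₀⟩ := hs₀ (F n) (D n).f₁ (D n).f₂
  refine mix_inv k _ hg hm s₀ fun s => ?_
  rw [act_mul k (D n).lat (D n).adm]
  exact hs₀ _ _ ((D n).act k basic s).lat ((D n).act k basic s).adm

theorem exists_mu (hw : k.Root w) (hne : l₁ ≠ l₂) (h₁ : Good k r₁) (h₂ : Good k r₂)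
    (d₁ : ¬ (l₁ : ℤ) ∣ k.D) (d₂ : ¬ (l₂ : ℤ) ∣ k.D) : ∃ μ : Measure (XX l₁ l₂),
      IsProbabilityMeasure μ ∧ ∀ g : HH l₁, μ.map (((g, 1) : GG l₁ l₂) • ·) = μ := by
  have p₁ : l₁.Prime := Fact.out
  have p₂ : l₂.Prime := Fact.out
  let F : ℕ → ℕ+ := fun n => ⟨l₁ * l₂ * n + 1, Nat.succ_pos _⟩
  have hmem : ∀ (a : ℕ) (x : k.K), x ∈ k.Ord a ↔ ∃ u v : ℤ, x = ⟨u, v * a⟩ := by
    intro a x
    rw [Fld.Ord, mem_span2]
    refine exists_congr fun u => exists_congr fun v => ?_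
    rw [show ((u : ℚ) • (1 : k.K) + (v : ℚ) • ((a : k.K) * k.om)) = ⟨u, v * a⟩ from by
      ext <;> simp [Fld.om]]
  have nrm : ∀ (l a : ℕ), ¬ l ∣ a → k.Nrm l (k.Ord a) := by
    intro l a hl
    refine ⟨a, hl, fun x hx => ?_, fun x hx => ?_⟩
    · obtain ⟨u, v, rfl⟩ := (mem_O k).1 hx
      exact (hmem _ _).2 ⟨a * u, v, by ext <;> simp [mul_comm]⟩
    · obtain ⟨u, v, rfl⟩ := (hmem _ _).1 hx
      exact (mem_O k).2 ⟨a * u, a * (v * a), by ext <;> simp⟩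
  have f₁ : ∀ n, ¬ l₁ ∣ F n := fun n h => p₁.one_lt.ne' (Nat.dvd_one.1
    ((Nat.dvd_add_right ((Dvd.intro _ rfl : l₁ ∣ l₁ * l₂).mul_right n)).1 h))
  have f₂ : ∀ n, ¬ l₂ ∣ F n := fun n h => p₂.one_lt.ne' (Nat.dvd_one.1
    ((Nat.dvd_add_right ((Dvd.intro_left _ rfl : l₂ ∣ l₁ * l₂).mul_right n)).1 h))
  have D : ∀ n, Dat k l₁ l₂ (F n) (k.Ord (F n)) (F n : ℕ) := fun n => ⟨f₁ n, f₂ n,
    ⟨_, _, rfl, by simp [Fld.det2, Fld.om, QuadraticAlgebra.re_one], by exact_mod_cast (F n).pos⟩, fun x hx => by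
      obtain ⟨u, v, rfl⟩ := (hmem _ _).1 hx
      refine (hmem _ _).2 ⟨-(k.n * (F n : ℕ) * (v * (F n : ℕ))), u + k.t * (v * (F n : ℕ)), ?_⟩
      ext <;> simp [Fld.om] <;> ring, nrm _ _ (f₁ n), nrm _ _ (f₂ n)⟩
  have hK : IsCompact (closure (range fun n => mu k w r₁ r₂ (F n) (k.Ord (F n)))) := by
    refine isCompact_closure_of_isTightMeasureSet ((mu_tight k basic tight' hw h₁ h₂).subset ?_)
    rintro _ ⟨_, ⟨n, rfl⟩, rfl⟩
    exact ⟨_, _, _, D n, rfl⟩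
  have := instMetrizableSpaceProbabilityMeasure (XX l₁ l₂)
  obtain ⟨μ, -, ms, hms, hμ⟩ := hK.tendsto_subseq
    (x := fun n => mu k w r₁ r₂ (F n) (k.Ord (F n))) fun n => subset_closure ⟨n, rfl⟩
  refine ⟨μ, μ.prop, marg1 k hw hne h₁ h₂ d₁ d₂ (fun n => D (ms n)) (fun a ha => ?_) hμ⟩
  filter_upwards [hms.tendsto_atTop.eventually_ge_atTop a] with n hn hA
  obtain ⟨u, v, e⟩ := (hmem _ _).1 (hA 1 ((hmem _ _).2 ⟨1, 0, by
    ext <;> simp [QuadraticAlgebra.re_one, QuadraticAlgebra.im_one]⟩))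
  have h3 := congrArg QuadraticAlgebra.im e
  simp only [mul_one, natCast_mul, Fld.om, QuadraticAlgebra.im_smul, smul_eq_mul] at h3
  have h4 : (a : ℤ) = v * (F (ms n) : ℕ) := by exact_mod_cast h3
  have h5 : (F (ms n) : ℕ) ≤ a := Nat.le_of_dvd ha (Int.natCast_dvd_natCast.1 ⟨v, by
    rw [h4, mul_comm]⟩)
  have h6 : ms n ≤ l₁ * l₂ * ms n := Nat.le_mul_of_pos_left _ (Nat.mul_pos p₁.pos p₂.pos)
  change l₁ * l₂ * ms n + 1 ≤ a at h5
  omega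

theorem B_lim (hw : k.Root w) (hne : l₁ ≠ l₂) (o₁ : l₁ ≠ 2) (o₂ : l₂ ≠ 2) (h₁ : Good k r₁)
    (h₂ : Good k r₂) (d₁ : ¬ (l₁ : ℤ) ∣ k.D) (d₂ : ¬ (l₂ : ℤ) ∣ k.D) {ι : Type} [Fintype ι]
    {F F₀ : ℕ → ℕ+} (hF : ∀ n, (F₀ n : ℕ) ∣ F n) (D' : ∀ n, ¬ l₁ ∣ F₀ n ∧ ¬ l₂ ∣ F₀ n)
    {M : ι → ℕ → Submodule ℤ k.K} {c : ι → ℕ → ℚ}
    (D : ∀ i n, Dat k l₁ l₂ (F₀ n) (M i n) (c i n))
    (big : ∀ i (a : ℕ), 0 < a → ∀ᶠ n in atTop, ¬ k.Adm a (M i n))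
    (str : ∀ i j, i ≠ j → ∀ B : ℝ, ∀ᶠ n in atTop, ∀ α : k.K, α ≠ 0 → α • M i n ≤ M j n →
      B * c j n < k.N α * c i n) {κ : ∀ n, Measure (MM l₁ l₂ × k.SF (F n))}
    (K : ∀ n, Kap k r₁ r₂ (F n) (κ n)) {N : ℕ} (hN : 0 < N) {h : ∀ n, k.SF (F n) → ℝ}
    (hh : ∀ n s u, h n (u ^ N * s) = h n s) {μ : Measure (XX l₁ l₂)} [hμ : IsProbabilityMeasure μ]
    (iμ : ∀ g : HH l₁, μ.map (((g, 1) : GG l₁ l₂) • ·) = μ) {ν : ProbabilityMeasure ((ι → XX l₁ l₂) × II)}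
    (hν : Tendsto (fun n => an k w (K n) 1 (fun i => M i n) (h n)) atTop (𝓝 ν)) :
    (ν : Measure ((ι → XX l₁ l₂) × II)) = (Measure.pi fun _ => μ).prod
      ((ν : Measure ((ι → XX l₁ l₂) × II)).map Prod.snd) := by
  obtain ⟨t₁, t₂, e, he, ht₁, ht₂, hT⟩ := exists_tor k basic (pi_stmt basic) hw hne h₁ h₂ d₁ d₂
  have ht₁' : 1 < ‖(t₁ : ℚ_[l₁])‖ := by
    rw [ht₁]
    exact one_lt_pow₀ (by exact_mod_cast (Fact.out : l₁.Prime).one_lt) he.ne'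
  choose p hp1 hp2 hp3 using fun n => (basic k).2.2.2.2.2.2.2.2.1 (F₀ n) (F n) (hF n)
  have adm : ∀ i n, k.Adm (F n) (M i n) := fun i n => by
    obtain ⟨u, hu⟩ := hF n
    rw [hu]
    exact Excl.adm_mul u (D i n).adm
  obtain ⟨-, uq, -⟩ := hom' l₁ l₂ hne μ hμ iμ
  obtain ⟨nice, -, erg⟩ := mix_stmt l₁ l₂ hne μ hμ iμ
  -- invariance
  have inv : ∀ a : GG l₁ l₂, a = (dg t₁, 1) ∨ a = (1, dg t₂, 1) →
      (ν : Measure ((ι → XX l₁ l₂) × II)).map (Prod.map ((fun _ : ι => a ^ N) • ·) id) = ν := by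
    intro a ha
    refine lim_map hν hν ((continuous_const_smul _).prodMap continuous_id) fun n => ?_
    obtain ⟨g, hg, hm, hs₀⟩ := hT a ha
    obtain ⟨s₀, hs₀⟩ := hs₀ (F₀ n) (D' n).1 (D' n).2
    obtain ⟨s₁, rfl⟩ := hp1 n s₀
    obtain ⟨t, ht, hR⟩ := (loc k l₁ l₂ r₁ r₂ hne o₁ o₂ h₁ h₂ (F n)).2.2.2.1 _ (inv_mem hm) s₁
    refine an_inv k (K n) (g := (⟨_, inv_mem hm⟩, t * s₁)) hR hg (fun s i => ?_)
      (fun s => hh n s _) fun i => ?_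
    · have a1 := act_lat k (D i n).lat (adm i n) s
      have a2 := act_lat k a1.1 a1.2 s₁
      have a3 : k.Adm (F₀ n) (act s (M i n)) := by
        rw [hp3 n _ (D i n).adm]
        exact ((D i n).act k basic _).adm
      simp only
      rw [act_mul k (D i n).lat (adm i n), act_mul k a1.1 a1.2,
        ptriv k hw h₁.root h₂.root a2.1 a2.2 ht, hp3 n _ a3, hs₀ _ _ a1.1 a3]
    · have hTa : TT l₁ l₂ a := by
        rcases ha with rfl | rfl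
        · exact ⟨DG_dg _, DG_one, Rot_one⟩
        · exact ⟨DG_one, DG_dg _, Rot_one⟩
      simp [mul_assoc, hTa.comm hg]
  have hmix : ∀ n, (an k w (K n) 1 (fun i => M i n) (h n) : Measure ((ι → XX l₁ l₂) × II)).map
      Prod.fst = mix l₁ l₂ k (F₀ n) fun s i => pt k w r₁ r₂ (act s (M i n)) := by
    intro n
    rw [an_fst, ← mix_mod k (hp2 n), ← (K n).mix _ _ fun t s ht => funext fun i => ?_]
    · congr 1
      funext q i
      simp [ph, hp3 n _ (D i n).adm]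
    · have a1 := act_lat k (D i n).lat (adm i n) s
      rw [← hp3 n _ (D i n).adm, ← hp3 n _ (D i n).adm, act_mul k (D i n).lat (adm i n),
        ptriv k hw h₁.root h₂.root a1.1 a1.2 ht]
  have lim : ∀ {Y : Type} [TopologicalSpace Y] [MeasurableSpace Y] [BorelSpace Y]
      [MulAction (GG l₁ l₂) Y] [ContinuousSMul (GG l₁ l₂) Y] {f : (ι → XX l₁ l₂) → Y}
      (hf : Continuous f) (_ : ∀ (g : GG l₁ l₂) y, f (g • y) = g • f y),
      Tendsto (β := ProbabilityMeasure Y) (fun n => ⟨mix l₁ l₂ k (F₀ n) fun s =>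
        f fun i => pt k w r₁ r₂ (act s (M i n)), inferInstance⟩) atTop
        (𝓝 (ν.map (hf.comp continuous_fst).measurable.aemeasurable)) := by
    intro Y _ _ _ _ _ f hf he
    refine (ProbabilityMeasure.tendsto_map_of_tendsto_of_continuous _ ν hν
      (hf.comp continuous_fst)).congr fun n => Subtype.ext ?_
    change Measure.map (f ∘ Prod.fst) _ = _
    rw [← Measure.map_map hf.measurable measurable_fst, hmix, mix_equi k _ hf he]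
  have fi : ∀ a : GG l₁ l₂, a = (dg t₁, 1) ∨ a = (1, dg t₂, 1) →
      ((ν : Measure ((ι → XX l₁ l₂) × II)).map Prod.fst).map ((fun _ : ι => a ^ N) • ·) =
        (ν : Measure ((ι → XX l₁ l₂) × II)).map Prod.fst := fun a ha =>
    map_inv ((continuous_const_smul _).prodMap continuous_id).measurable (inv a ha) measurable_fst
      (continuous_const_smul _).measurable fun _ => rfl
  have e₁ : ((dg t₁, 1) : GG l₁ l₂) ^ N = (dg (t₁ ^ N), 1) := by simp [dg_pow]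
  have e₂ : ((1, dg t₂, 1) : GG l₁ l₂) ^ N = (1, dg (t₂ ^ N), 1) := by simp [dg_pow]
  have n₁ : 1 < ‖((t₁ ^ N : ℚ_[l₁]ˣ) : ℚ_[l₁])‖ := by
    rw [Units.val_pow_eq_pow_val, norm_pow]
    exact one_lt_pow₀ ht₁' hN.ne'
  have n₂ : 1 < ‖((t₂ ^ N : ℚ_[l₂]ˣ) : ℚ_[l₂])‖ := by
    rw [Units.val_pow_eq_pow_val, norm_pow]
    exact one_lt_pow₀ ht₂ hN.ne'
  have hπ : (ν : Measure ((ι → XX l₁ l₂) × II)).map Prod.fst = Measure.pi fun _ => μ := by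
    refine joinN' l₁ (sp l₁ l₂) μ (dg (t₂ ^ N), 1) (t₁ ^ N) nice n₁
      (fun κ _ => (erg κ).2.1 _ n₂) ι _
      (Measure.isProbabilityMeasure_map measurable_fst.aemeasurable) (fun i => ?_)
      (fun i j hij => ?_) ?_ ?_
    · have := marg1 k hw hne h₁ h₂ d₁ d₂ (D i) (big i)
        (lim (continuous_apply i) fun _ _ => rfl)
      refine Eq.trans ?_ (uq _ (Subtype.prop _) this)
      exact Measure.map_map (measurable_pi_apply i) measurable_fst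
    · obtain ⟨μ', p', i', e'⟩ := dyn_lim k basic (pi_stmt basic) coll' excl' hom' marg2 join' hw hne
        h₁ h₂ d₁ d₂ o₁ (D i) (D j) (fun a ha => (big i a ha).and (big j a ha)) (str i j hij)
        (lim (f := fun z => (z i, z j)) ((continuous_apply i).prodMk (continuous_apply j))
          fun _ _ => rfl)
      rw [uq μ' p' fun g => i' _] at e'
      refine Eq.trans ?_ e'
      exact Measure.map_map ((measurable_pi_apply i).prodMk (measurable_pi_apply j)) measurable_fst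
    · have := fi _ (Or.inr rfl)
      rw [e₂] at this
      exact this
    · have := fi _ (Or.inl rfl)
      rw [e₁] at this
      exact this
  refine indep hπ (fun _ => JoinN.hN_meas (sp l₁ l₂) _) ((erg ι).1 _ n₁) fun _ => ?_
  have := inv _ (Or.inl rfl)
  rw [e₁] at this
  exact this

end DynN

open DynN in
theorem dynB : DynBStmt := by
  intro k w l₁ l₂ _ _ r₁ r₂ ι _ N F L c e₁ e₂ h κ hw hN C ⟨d, hd⟩ hh φ
  have p₁ : l₁.Prime := Fact.out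
  have p₂ : l₂.Prime := Fact.out
  have := (disc l₁ l₂ C.ne).1
  have : PolishSpace (XX l₁ l₂) := pol _ _
  obtain ⟨jX, hjc, hj, hjm⟩ := proj' l₁ l₂ C.ne
  obtain ⟨μ, hμ, iμ⟩ := exists_mu k hw C.ne C.g₁ C.g₂ C.d₁ C.d₂
  obtain ⟨gμ, -⟩ := hom' l₁ l₂ C.ne μ hμ iμ
  have DD : ∀ i n, Dd k l₁ l₂ (F n) (L i n) (c i n) (e₁ i n) (e₂ i n) := fun i n =>
    ⟨C.lat i n, C.adm i n, C.dep₁ i n, C.dep₂ i n⟩
  choose M c' m1 m2 m3 m4 m5 m6 m7 using fun i n => anc2 k C.ne (DD i n)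
  choose F₀ f1 f2 f3 using fun n => exists_F0 k (l₁ := l₁) (l₂ := l₂) (F n)
  have D : ∀ i n, Dat k l₁ l₂ (F₀ n) (M i n) (c' i n) := fun i n =>
    f3 n _ _ (m4 i n) (m5 i n) (m6 i n) (m7 i n)
  set Q : ℕ := (l₁ * l₂) ^ d with hQ
  have hQ0 : 0 < Q := pow_pos (Nat.mul_pos p₁.pos p₂.pos) d
  have hq : ∀ i n, l₁ ^ e₁ i n * l₂ ^ e₂ i n ∣ Q := fun i n => by
    rw [hQ, mul_pow]
    exact mul_dvd_mul (pow_dvd_pow _ (hd i n).1) (pow_dvd_pow _ (hd i n).2)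
  have mQ : ∀ i n, ∀ x ∈ M i n, (Q : k.K) * x ∈ L i n := fun i n x hx => by
    obtain ⟨u, hu⟩ := hq i n
    rw [hu, mul_comm _ u, Nat.cast_mul, mul_assoc]
    exact Excl.nat_mem _ (m3 i n x hx)
  have big : ∀ i (a : ℕ), 0 < a → ∀ᶠ n in atTop, ¬ k.Adm a (M i n) := fun i a ha =>
    (C.big i (Q * a) (Nat.mul_pos hQ0 ha)).mono fun n hn hA => hn fun x hx => by
      rw [Nat.cast_mul, mul_assoc, mul_assoc, ← mul_assoc (a : k.K)]
      exact mQ i n _ (hA x (m2 i n hx))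
  have str : ∀ i j, i ≠ j → ∀ B : ℝ, ∀ᶠ n in atTop, ∀ α : k.K, α ≠ 0 → α • M i n ≤ M j n →
      B * c' j n < k.N α * c' i n := fun i j hij B =>
    (C.str i j hij (|B| * Q ^ 3)).mono fun n hn α hα hle => by
      have hQ' : (0 : ℝ) < Q := by exact_mod_cast hQ0
      have h1 := hn (Q * α) (mul_ne_zero (by exact_mod_cast hQ0.ne') hα) (by
        rintro _ ⟨x, hx, rfl⟩
        have := mQ j n _ (hle ⟨x, m2 i n hx, rfl⟩)
        simpa [mul_assoc] using this)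
      have h2 : k.N (Q * α) = Q ^ 2 * k.N α := by
        rw [Excl.N_mul]
        simp [Fld.N, QuadraticAlgebra.norm_def, pow_two]
      have cj : (0 : ℝ) < c' j n := by exact_mod_cast Excl.lat_pos (m4 j n)
      have ci : (0 : ℝ) < c' i n := by exact_mod_cast Excl.lat_pos (m4 i n)
      have h3 : (c' j n : ℝ) ≤ c j n := by
        rw [m1 j n, Rat.cast_mul, Rat.cast_natCast]
        exact le_mul_of_one_le_left cj.le (by
          exact_mod_cast Nat.mul_pos (pow_pos p₁.pos _) (pow_pos p₂.pos _))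
      have h4 : (c i n : ℝ) ≤ Q * c' i n := by
        rw [m1 i n, Rat.cast_mul, Rat.cast_natCast]
        gcongr
        exact Nat.le_of_dvd hQ0 (hq i n)
      have h5 := N_nonneg k α
      have h6 : Q ^ 3 * (B * c' j n) < Q ^ 3 * (k.N α * c' i n) :=
        calc (Q : ℝ) ^ 3 * (B * c' j n) ≤ Q ^ 3 * (|B| * c j n) := by
              gcongr
              exact le_abs_self B
          _ = |B| * Q ^ 3 * c j n := by ring
          _ < _ := h1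
          _ ≤ Q ^ 2 * k.N α * (Q * c' i n) := by rw [h2]; gcongr
          _ = _ := by ring
      exact lt_of_mul_lt_mul_left h6 (by positivity)
  have ht : IsTightMeasureSet (range fun n => (an k w (C.kap n) 1 (fun i => M i n) (h n) :
      Measure ((ι → XX l₁ l₂) × II)).map Prod.fst) := by
    refine tight_pi fun i => ?_
    simp_rw [an_coord]
    refine tight1 k hw C.kap (Φ := fun n q => ph k w r₁ r₂ 1 (fun i => M i n) q i)
      (fun n => ph_meas1 k _ _ i) (m4 i) (m5 i) fun n q _ x y o => ?_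
    have n₁ := ((basic k).2.2.2.2.2.2.2.2.1 (F₀ n) (F n) (f1 n))
    obtain ⟨p, -, -, hp⟩ := n₁
    have D' := (D i n).act k basic (p q.2)
    rw [← hp _ (D i n).adm] at D'
    refine ⟨_, mul_mem (MM_KK q.1.2) (fr_K k C.g₁ C.g₂ o D'.n₁ D'.n₂), rfl, ?_⟩
    simp only [ph, Pi.one_apply, one_smul]
    rw [pt_eq k C.g₁.root C.g₂.root o]
    rfl
  refine tendsto_of_subseq_tendsto fun ns hns => ?_
  have hy : ∀ {l : ℕ} [Fact l.Prime] {r : ℚ_[l]}, Good k r → ∀ {L c e}, k.Lat L c → k.Dep l e L →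
      e ≤ d → ‖yy k w r c‖ ≤ (l : ℝ) ^ d := by
    intro l _ r g L c e hL hD he
    rw [yy, norm_inv, norm_mul, g.dif, mul_one, norm_dt, (lat k).2.1 l e L c hL hD, inv_inv]
    exact pow_le_pow_right₀ (by exact_mod_cast (Fact.out : l.Prime).one_lt.le) he
  obtain ⟨P, -, ms, hms, hP⟩ := (isCompact_univ_pi fun _ : ι => (((Set.finite_Iic d).isCompact).prod
    ((Set.finite_Iic d).isCompact)).prod ((isCompact_closedBall (0 : ℚ_[l₁]) ((l₁ : ℝ) ^ d)).prod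
      (isCompact_closedBall (0 : ℚ_[l₂]) ((l₂ : ℝ) ^ d)))).tendsto_subseq
    (x := fun n i => ((e₁ i (ns n), e₂ i (ns n)), (yy k w r₁ (c i (ns n)), yy k w r₂ (c i (ns n)))))
    fun n i _ => ⟨hd i _, by simpa using hy C.g₁ (C.lat i _) (C.dep₁ i _) (hd i _).1,
      by simpa using hy C.g₂ (C.lat i _) (C.dep₂ i _) (hd i _).2⟩
  obtain ⟨ν, ms', hms', hν⟩ := exists_sub (fun n => an k w (C.kap (ns (ms n))) 1
    (fun i => M i (ns (ms n))) (h (ns (ms n)))) (ht.subset (by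
      rintro _ ⟨n, rfl⟩
      exact ⟨_, rfl⟩))
  refine ⟨fun n => ms (ms' n), ?_⟩
  have hs : Tendsto (fun n => ns (ms (ms' n))) atTop atTop :=
    hns.comp (hms.tendsto_atTop.comp hms'.tendsto_atTop)
  have hlim := B_lim k hw C.ne C.o₁ C.o₂ C.g₁ C.g₂ C.d₁ C.d₂ (fun n => f1 (ns (ms (ms' n))))
    (fun n => f2 _) (fun i n => D i _) (fun i a ha => hs.eventually (big i a ha))
    (fun i j hij B => hs.eventually (str i j hij B)) (fun n => C.kap _) hN (fun n => hh _) iμ hν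
  have hE : ∀ i, l₁ ^ (P i).1.1 * l₂ ^ (P i).1.2 * (l₁ ^ (P i).1.2 * l₂ ^ (P i).1.1) =
      (l₁ * l₂) ^ ((P i).1.1 + (P i).1.2) := fun i => by ring
  choose Ψ s1 s2 s3 s4 using fun i => exists_psi k (w := w) C.g₁.root C.g₂.root (hE i)
  let T : ι → XX l₁ l₂ → XX l₁ l₂ := fun i x => AA (P i).2.1 (P i).2.2 • Ψ i x
  have hT : ∀ i, Continuous (T i) := fun i => (continuous_const_smul _).comp (s1 i)
  obtain ⟨f, hf, hf0⟩ := int_pi μ fun i => (φ i).compContinuous ⟨jX ∘ T i, hjc.comp (hT i)⟩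
  have hint : ∀ i, ∫ y, ((φ i).compContinuous ⟨jX ∘ T i, hjc.comp (hT i)⟩) y ∂μ =
      ∫ z, φ i z ∂muJ := by
    intro i
    rw [← hjm (μ.map (T i)) (Measure.isProbabilityMeasure_map (hT i).measurable.aemeasurable)
      fun g => ?_, Measure.map_map hjc.measurable (hT i).measurable, integral_map
        (hjc.comp (hT i)).measurable.aemeasurable (φ i).continuous.aestronglyMeasurable]
    · rfl
    · obtain ⟨g', hg'⟩ := s2 i ((AA (P i).2.1 (P i).2.2)⁻¹ * g * AA (P i).2.1 (P i).2.2)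
      refine map_inv (continuous_const_smul g').measurable (gμ g') (hT i).measurable
        (continuous_const_smul g).measurable fun x => ?_
      simp [T, hg', smul_smul, mul_assoc]
  refine (lim_zero hν hlim f hf0).congr' ?_
  have hP' := (hP.comp hms'.tendsto_atTop)
  have ev : ∀ᶠ n in atTop, ∀ i, (e₁ i (ns (ms (ms' n))), e₂ i (ns (ms (ms' n)))) = (P i).1 ∧
      ‖yy k w r₁ (c i (ns (ms (ms' n)))) - (P i).2.1‖ ≤ 1 ∧
      ‖yy k w r₂ (c i (ns (ms (ms' n)))) - (P i).2.2‖ ≤ 1 := by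
    refine eventually_all.2 fun i => ?_
    have a := tendsto_pi_nhds.1 hP' i
    have a1 := (continuous_fst.tendsto _).comp a
    have a2 := (continuous_fst.tendsto _).comp ((continuous_snd.tendsto _).comp a)
    have a3 := (continuous_snd.tendsto _).comp ((continuous_snd.tendsto _).comp a)
    rw [nhds_discrete, tendsto_pure] at a1
    filter_upwards [a1, Metric.tendsto_nhds.1 a2 1 one_pos, Metric.tendsto_nhds.1 a3 1 one_pos]
      with n b1 b2 b3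
    exact ⟨b1, by rw [dist_eq_norm] at b2; exact b2.le, by rw [dist_eq_norm] at b3; exact b3.le⟩
  filter_upwards [ev] with n hn
  generalize ns (ms (ms' n)) = n' at hn ⊢
  refine an_int k _ _ _ (C.bdd _) f (fun s => ∏ i, φ i (CM.jL ((act s (L i n')).map
    (k.ioL w))) - ∏ i, ∫ z, φ i z ∂muJ) fun q hq => ?_
  rw [hf]
  simp only [hint]
  congr 1
  refine Finset.prod_congr rfl fun i _ => ?_
  obtain ⟨b1, b2, b3⟩ := hn i
  have a1 := act_lat k (C.lat i n') (C.adm i n') q.2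
  obtain ⟨x, y, o⟩ := exists_OB' k hw a1.1
  change φ i (jX (AA _ _ • Ψ i ((1 : GG l₁ l₂) • _))) = _
  rw [one_smul, s3 i _ q.1.2, psi_pt k hw C.g₁.root C.g₂.root (hE i) (s4 i) (L := act q.2 (L i n'))
    (by rw [← b1, ← m1]; exact a1.1) (act_lat k (m4 i n') (m5 i n') q.2).1
    (mul_le_mul' le_rfl (m2 i n')), pt_eq k C.g₁.root C.g₂.root o, smul_smul,
    MulAction.Quotient.smul_mk, smul_eq_mul,
    jX_mk k (r₁ := r₁) (r₂ := r₂) hw hj o (adp2 k lat C.g₁ C.g₂ (DD i n') q.1.2 hq o b2 b3) q.1.2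
      (by simp [AA])]


end Pool.Agent.Lib.MP_9177b7_ag.J
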