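import Pool.Agent.Lib.MP_9177b7_ag.J.DefsE
import Pool.Agent.Lib.MP_9177b7_ag.CM.Eis

/-! The projection of the `S`-arithmetic quotient to the modular curve. -/

open MeasureTheory Filter Topology Set
open scoped MatrixGroups ENNReal NNReal UpperHalfPlane

noncomputable section

namespace Pool.Agent.Lib.MP_9177b7_ag.J

namespace Proj

theorem vol_smul (g : SL(2, ℝ)) (F : ℍ → ℝ≥0∞) : ∫⁻ w, F (g • w) = ∫⁻ w, F w :=
  (measurePreserving_smul (Matrix.SpecialLinearGroup.mapGL ℝ g) volume).lintegral_comp_emb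
    (measurableEmbedding_const_smul _) F

theorem vol_ne : (volume : Measure ℍ) univ ≠ 0 := by
  intro h
  have h1 : (volume.comap UpperHalfPlane.coe : Measure ℍ) univ = 0 := by
    refine withDensity_absolutelyContinuous' (μ := volume.comap UpperHalfPlane.coe) ?_ ?_ h
    · refine (Measurable.coe_nnreal_ennreal (Continuous.measurable ?_)).aemeasurable
      refine .pow (.div₀ continuous_const ?_ ?_) _
      · exact UpperHalfPlane.continuous_im.subtype_mk _
      · exact fun x ↦ NNReal.ne_iff.mp x.im_ne_zero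
    · refine Eventually.of_forall fun z => ENNReal.coe_ne_zero.2 (pow_ne_zero _ ?_)
      exact one_div_ne_zero (NNReal.ne_iff.mp z.im_ne_zero)
  rw [UpperHalfPlane.measurableEmbedding_coe.comap_apply, image_univ] at h1
  exact (UpperHalfPlane.isOpenEmbedding_coe.isOpen_range.measure_pos volume
    (range_nonempty _)).ne' h1

theorem line_null (c : ℝ) : (volume : Measure ℂ) {z | z.re = c} = 0 := by
  have h := Complex.volume_preserving_equiv_real_prod.measure_preimage_equiv ({c} ×ˢ univ)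
  rw [Measure.volume_eq_prod, Measure.prod_prod, Real.volume_singleton, zero_mul] at h
  refine Eq.trans (congrArg _ ?_) h
  ext z
  simp

theorem fd_ae : ModularGroup.fdo =ᵐ[(volume : Measure ℍ)] ModularGroup.fd := by
  refine ae_eq_set.2 ⟨by rw [diff_eq_empty.2 ModularGroup.fdo_subset_fd, measure_empty], ?_⟩
  rw [UpperHalfPlane.volume_eq_lintegral]
  refine setLIntegral_measure_zero _ _ (measure_mono_null (t := Metric.sphere 0 1 ∪
    ({z | z.re = 1 / 2} ∪ {z | z.re = -(1 / 2)})) ?_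
    (measure_union_null (Measure.addHaar_sphere _ _ _)
      (measure_union_null (line_null _) (line_null _))))
  rintro _ ⟨z, ⟨⟨h1, h2⟩, h3⟩, rfl⟩
  rcases h1.eq_or_lt with h | h
  · left
    rw [Complex.normSq_eq_norm_sq] at h
    rw [mem_sphere_zero_iff_norm]
    nlinarith [norm_nonneg (z : ℂ)]
  · right
    exact eq_or_eq_neg_of_abs_eq (h2.eq_or_lt.resolve_right fun h' => h3 ⟨h, h'⟩)

/-- The image of a bi-invariant measure in the half plane is a multiple of the volume. -/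
theorem push {G : Type} [Group G] [TopologicalSpace G] [IsTopologicalGroup G]
    [SecondCountableTopology G] [MeasurableSpace G] [BorelSpace G] (m : Measure G) [SFinite m]
    [m.IsMulLeftInvariant] [m.IsMulRightInvariant] (p : G →* SL(2, ℝ)) (hp : Continuous p)
    (ι : SL(2, ℝ) → G) (hι : ∀ s, p (ι s) = s) (κ : G → ℝ≥0∞) (hκ : Measurable κ)
    (h1 : ∀ s g, κ (ι s * g) = κ g) (h2 : ∀ s g, κ (g * ι s) = κ g) :
    ∃ A : ℝ≥0∞, ∀ F : ℍ → ℝ≥0∞, Measurable F →
      ∫⁻ g, κ g * F ((p g)⁻¹ • UpperHalfPlane.I) ∂m = A * ∫⁻ w, F w := by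
  obtain ⟨U, hU, -, U0, U1⟩ := Measure.exists_subset_measure_lt_top (μ := (volume : Measure ℍ))
    MeasurableSet.univ (pos_iff_ne_zero.2 vol_ne)
  let χ : ℍ → ℝ≥0∞ := U.indicator 1
  have hχ : Measurable χ := measurable_one.indicator hU
  have hV : ∫⁻ w, χ w = volume U := lintegral_indicator_one hU
  refine ⟨(∫⁻ g, κ g * χ (p g • UpperHalfPlane.I) ∂m) * (volume U)⁻¹, fun F hF => ?_⟩
  have c1 : Measurable fun x : G × ℍ => (p x.1)⁻¹ • x.2 :=
    ((hp.comp continuous_fst).inv.smul continuous_snd).measurable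
  have c2 : Measurable fun x : G × ℍ => p x.1 • x.2 :=
    ((hp.comp continuous_fst).smul continuous_snd).measurable
  have key : (∫⁻ g, κ g * F ((p g)⁻¹ • UpperHalfPlane.I) ∂m) * volume U =
      (∫⁻ g, κ g * χ (p g • UpperHalfPlane.I) ∂m) * ∫⁻ w, F w := by
    calc _ = ∫⁻ w, ∫⁻ g, κ g * (F ((p g)⁻¹ • w) * χ w) ∂m := by
          rw [← hV, ← lintegral_const_mul _ hχ]
          refine lintegral_congr fun w => ?_
          have m1 : Measurable fun g => κ g * F ((p g)⁻¹ • w) :=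
            hκ.mul (hF.comp (hp.inv.smul continuous_const).measurable)
          simp only [← mul_assoc]
          rw [lintegral_mul_const _ m1, ← lintegral_mul_left_eq_self
            (fun g => κ g * F ((p g)⁻¹ • w)) (ι w.toSL2R)]
          simp only [h1, map_mul, hι, mul_inv_rev, mul_smul]
          rw [inv_smul_eq_iff.2 w.toSL2R_smul_I.symm]
      _ = ∫⁻ g, (∫⁻ w, κ g * (F ((p g)⁻¹ • w) * χ w)) ∂m :=
          (lintegral_lintegral_swap ((hκ.comp measurable_fst).mul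
            ((hF.comp c1).mul (hχ.comp measurable_snd))).aemeasurable).symm
      _ = ∫⁻ g, (∫⁻ w, κ g * χ (p g • w) * F w) ∂m := by
          refine lintegral_congr fun g => ?_
          rw [← vol_smul (p g)]
          simp only [inv_smul_smul, mul_assoc, mul_comm (F _)]
      _ = ∫⁻ w, ∫⁻ g, κ g * χ (p g • w) * F w ∂m :=
          lintegral_lintegral_swap (((hκ.comp measurable_fst).mul (hχ.comp c2)).mul
            (hF.comp measurable_snd)).aemeasurable
      _ = _ := by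
          rw [← lintegral_const_mul _ hF]
          refine lintegral_congr fun w => ?_
          have m1 : Measurable fun g => κ g * χ (p g • w) :=
            hκ.mul (hχ.comp (hp.smul continuous_const).measurable)
          rw [lintegral_mul_const _ m1, ← lintegral_mul_right_eq_self
            (fun g => κ g * χ (p g • UpperHalfPlane.I)) (ι w.toSL2R)]
          simp only [h2, map_mul, hι, mul_smul, w.toSL2R_smul_I]
  rw [mul_right_comm, ← key, mul_assoc, ENNReal.mul_inv_cancel U0.ne' U1.ne, mul_one]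

/-- The subgroup `SL₂(ℤ_l)`. -/
def Ks (l : ℕ) [Fact l.Prime] : Subgroup (HH l) where
  carrier := Kint l
  mul_mem' := fun {a b} ha hb i j => by
    rw [Matrix.SpecialLinearGroup.coe_mul, Matrix.mul_apply, Fin.sum_univ_two]
    refine (IsUltrametricDist.norm_add_le_max _ _).trans (max_le ?_ ?_) <;>
      exact (norm_mul_le _ _).trans (mul_le_one₀ (ha _ _) (norm_nonneg _) (hb _ _))
  one_mem' := fun i j => by
    rw [Matrix.SpecialLinearGroup.coe_one, Matrix.one_apply]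
    split_ifs <;> simp
  inv_mem' := fun {a} ha i j => by
    rw [Matrix.SpecialLinearGroup.SL2_inv_expl]
    fin_cases i <;> fin_cases j <;> simpa using ha _ _

theorem isOpen_Kint (l : ℕ) [Fact l.Prime] : IsOpen (Kint l) := by
  have : Kint l = ⋂ i, ⋂ j, (fun h : HH l => h i j) ⁻¹' Metric.closedBall 0 1 := by
    ext h
    simp [Kint]
  rw [this]
  refine isOpen_iInter_of_finite fun i => isOpen_iInter_of_finite fun j => ?_
  refine (IsUltrametricDist.isOpen_closedBall _ one_ne_zero).preimage ?_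
  exact (continuous_apply_apply i j).comp continuous_subtype_val

variable (l₁ l₂ : ℕ) [Fact l₁.Prime] [Fact l₂.Prime]

/-- The open subgroup `SL₂(ℤ_{l₁}) × SL₂(ℤ_{l₂}) × SL₂(ℝ)`. -/
def KK : Subgroup (GG l₁ l₂) := (Ks l₁).prod ((Ks l₂).prod ⊤)

theorem mem_KK {g : GG l₁ l₂} : g ∈ KK l₁ l₂ ↔ g.1 ∈ Kint l₁ ∧ g.2.1 ∈ Kint l₂ :=
  ⟨fun h => ⟨h.1, h.2.1⟩, fun h => ⟨h.1, h.2, trivial⟩⟩

theorem isOpen_KK : IsOpen (KK l₁ l₂ : Set (GG l₁ l₂)) :=
  (isOpen_Kint l₁).prod ((isOpen_Kint l₂).prod isOpen_univ)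

/-- The embedding of `SL₂(ℤ)`. -/
def emb : SL(2, ℤ) →* GG l₁ l₂ :=
  (diag l₁ l₂).comp (Matrix.SpecialLinearGroup.map (Int.castRingHom ℚ))

theorem emb_Gam (δ : SL(2, ℤ)) : emb l₁ l₂ δ ∈ Gam l₁ l₂ :=
  ⟨Matrix.SpecialLinearGroup.map (Int.castRingHom _) δ, congrArg (diag l₁ l₂) (by
    ext i j
    simp)⟩

theorem emb_KK (δ : SL(2, ℤ)) : emb l₁ l₂ δ ∈ KK l₁ l₂ := by
  refine (mem_KK l₁ l₂).2 ⟨fun i j => ?_, fun i j => ?_⟩ <;>
    simpa [emb, diag] using Padic.norm_int_le_one _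

theorem emb_smul (δ : SL(2, ℤ)) (τ : ℍ) : (emb l₁ l₂ δ).2.2 • τ = δ • τ := by
  ext
  rw [UpperHalfPlane.coe_specialLinearGroup_apply, UpperHalfPlane.coe_specialLinearGroup_apply]
  simp [emb, diag]

theorem emb_inj : Function.Injective (emb l₁ l₂) := fun δ δ' h => by
  ext i j
  simpa [emb, diag] using congrArg (fun g : GG l₁ l₂ => g.2.2 i j) h

variable {l₁ l₂}

/-- The point of the half plane attached to a group element. -/
def pt (g : GG l₁ l₂) : ℍ := g.2.2⁻¹ • UpperHalfPlane.I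

theorem continuous_pt : Continuous (pt : GG l₁ l₂ → ℍ) :=
  (continuous_snd.comp continuous_snd).inv.smul continuous_const

theorem pt_mul (g : GG l₁ l₂) (δ : SL(2, ℤ)) : pt (g * emb l₁ l₂ δ⁻¹) = δ • pt g := by
  rw [pt, pt, ← emb_smul l₁ l₂, map_inv]
  simp [mul_smul]

theorem sum_eq (hZ : ∀ γ ∈ Gam l₁ l₂, γ ∈ KK l₁ l₂ → ∃ δ, γ = emb l₁ l₂ δ) (F : ℍ → ℝ≥0∞)
    {g r : GG l₁ l₂} (hr : r ∈ KK l₁ l₂) (h : r⁻¹ * g ∈ Gam l₁ l₂) :
    ∑' γ : Gam l₁ l₂, (KK l₁ l₂ : Set (GG l₁ l₂)).indicator 1 (g * γ) *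
        F (pt (g * (γ : GG l₁ l₂))) =
      ∑' δ : SL(2, ℤ), F (δ • pt r) := by
  rw [← (Equiv.mulLeft (⟨_, h⟩ : Gam l₁ l₂)⁻¹).tsum_eq]
  have e : ∀ γ : Gam l₁ l₂, g * (Equiv.mulLeft (⟨_, h⟩ : Gam l₁ l₂)⁻¹ γ : Gam l₁ l₂) = r * γ :=
    fun γ => by simp [mul_assoc]
  simp only [e]
  rw [← Function.Injective.tsum_eq (g := fun δ : SL(2, ℤ) =>
    (⟨emb l₁ l₂ δ⁻¹, emb_Gam l₁ l₂ _⟩ : Gam l₁ l₂))
    (fun δ δ' h => inv_injective (emb_inj l₁ l₂ (congrArg Subtype.val h)))]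
  · refine tsum_congr fun δ => ?_
    rw [indicator_of_mem ((KK l₁ l₂).mul_mem hr (emb_KK l₁ l₂ _)), pt_mul, Pi.one_apply, one_mul]
  · intro γ hγ
    obtain ⟨δ, hδ⟩ := hZ γ γ.2 (((KK l₁ l₂).mul_mem_cancel_left hr).1
      (mem_of_indicator_ne_zero (left_ne_zero_of_mul hγ)))
    exact ⟨δ⁻¹, Subtype.ext (by simpa using hδ.symm)⟩

theorem neg_ne (δ : SL(2, ℤ)) : δ ≠ -δ := fun h => by
  have h1 : (1 : SL(2, ℤ)) = -1 := by
    rw [← mul_inv_cancel δ, ← neg_mul, ← h]
  exact absurd (congrArg (fun g : SL(2, ℤ) => g 0 0) h1) (by simp)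

theorem sum_fdo (a : ℝ≥0∞) (τ : ℍ) :
    ∑' δ : SL(2, ℤ), ModularGroup.fdo.indicator (fun _ => a) (δ • τ) ≤ 2 * a := by
  classical
  by_cases h : ∃ δ : SL(2, ℤ), δ • τ ∈ ModularGroup.fdo
  · obtain ⟨δ₀, h⟩ := h
    rw [tsum_eq_sum (s := {δ₀, -δ₀}), Finset.sum_pair (neg_ne δ₀), two_mul]
    · exact add_le_add (indicator_le_self' (fun _ _ => zero_le) _)
        (indicator_le_self' (fun _ _ => zero_le) _)
    · intro δ hδ
      refine indicator_of_notMem (fun h' => hδ ?_) _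
      rcases ModularGroup.eq_one_or_neg_one_of_mem_fdo_mem_fdo (g := δ * δ₀⁻¹) h
        (by rwa [mul_smul, inv_smul_smul]) with e | e
      · simp [mul_inv_eq_one.1 e]
      · simp [mul_inv_eq_iff_eq_mul.1 e]
  · push Not at h
    rw [tsum_congr fun δ => indicator_of_notMem (h δ) _, tsum_zero]
    exact zero_le

theorem sum_fd (a : ℝ≥0∞) (τ : ℍ) :
    2 * a ≤ ∑' δ : SL(2, ℤ), ModularGroup.fd.indicator (fun _ => a) (δ • τ) := by
  classical
  obtain ⟨δ₀, h⟩ := ModularGroup.exists_smul_mem_fd τ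
  refine le_trans ?_ (ENNReal.sum_le_tsum {δ₀, -δ₀})
  rw [Finset.sum_pair (neg_ne δ₀), ModularGroup.SL_neg_smul, indicator_of_mem h, two_mul]

end Proj

open Proj in
theorem proj : DiscStmt → UniqStmt → ProjStmt := by
  intro hD hU l₁ l₂ _ _ _ hl
  obtain ⟨_, h1, h2, h3, -, h4, -, h5⟩ := hD l₁ l₂ hl
  have hZ : ∀ γ ∈ Gam l₁ l₂, γ ∈ KK l₁ l₂ → ∃ δ, γ = emb l₁ l₂ δ := fun γ hγ h =>
    h2 γ hγ h.1 h.2.1
  have hr : ∀ x : XX l₁ l₂, ∃ r ∈ KK l₁ l₂, QuotientGroup.mk r = x := fun x => by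
    obtain ⟨γ, hγ, h⟩ := h1 x.out
    exact ⟨x.out * γ, (mem_KK l₁ l₂).2 h, (QuotientGroup.mk_mul_of_mem _ hγ).trans x.out_eq⟩
  choose r rK rx using hr
  have hj : ∀ g ∈ KK l₁ l₂, CM.jH (pt (r (QuotientGroup.mk g))) = CM.jH (pt g) := fun g hg => by
    obtain ⟨δ, hδ⟩ := hZ _ (QuotientGroup.eq.1 (rx (QuotientGroup.mk g)))
      ((KK l₁ l₂).mul_mem ((KK l₁ l₂).inv_mem (rK _)) hg)
    rw [← CM.Eis.jH_smul δ⁻¹, ← pt_mul, inv_inv, ← hδ, mul_inv_cancel_left]
  have hc : Continuous fun x => CM.jH (pt (r x)) := by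
    refine QuotientGroup.isQuotientMap_mk _ |>.continuous_iff.2 (continuous_iff_continuousAt.2 ?_)
    intro g
    obtain ⟨γ, hγ, h⟩ := h1 g
    refine (CM.Eis.continuous_jH.comp (continuous_pt.comp
      (continuous_mul_const γ))).continuousAt.congr ?_
    filter_upwards [((isOpen_KK l₁ l₂).preimage (continuous_mul_const γ)).mem_nhds
      ((mem_KK l₁ l₂).2 h)] with g' hg'
    exact (hj _ hg').symm.trans (by rw [QuotientGroup.mk_mul_of_mem _ hγ]; rfl)
  refine ⟨fun x => CM.jH (pt (r x)), hc, fun g a b => hj g ((mem_KK l₁ l₂).2 ⟨a, b⟩),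
    fun μ hμ hinv => ?_⟩
  have := h4 Measure.haar
  have := h5 Measure.haar
  obtain ⟨c, hcf⟩ := (hU (GG l₁ l₂) (HH l₁) (CC l₂) (ContinuousMulEquiv.refl _) (Gam l₁ l₂)
    Measure.haar Measure.haar h3).1 μ inferInstance fun h => hinv _
  have hκ : Measurable ((KK l₁ l₂ : Set (GG l₁ l₂)).indicator (1 : GG l₁ l₂ → ℝ≥0∞)) :=
    measurable_one.indicator (isOpen_KK l₁ l₂).measurableSet
  have hι : ∀ s : SL(2, ℝ), ((1, 1, s) : GG l₁ l₂) ∈ KK l₁ l₂ := fun s =>
    ⟨one_mem _, one_mem _, trivial⟩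
  obtain ⟨A, hA⟩ := push (G := GG l₁ l₂) Measure.haar
    ((MonoidHom.snd _ _).comp (MonoidHom.snd _ _)) (continuous_snd.comp continuous_snd)
    (fun s => (1, 1, s)) (fun _ => rfl) _ hκ
    (fun s g => by
      classical exact if_congr ((KK l₁ l₂).mul_mem_cancel_left (hι s)) rfl rfl)
    (fun s g => by
      classical exact if_congr ((KK l₁ l₂).mul_mem_cancel_right (hι s)) rfl rfl)
  have unf : ∀ F : ℍ → ℝ≥0∞, Measurable F →
      ∫⁻ x, ∑' δ : SL(2, ℤ), F (δ • pt (r x)) ∂μ = c * A * ∫⁻ w, F w := fun F hF => by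
    rw [mul_assoc, ← hA F hF]
    refine Eq.trans (lintegral_congr fun x => ?_)
      (hcf _ (hκ.mul (hF.comp continuous_pt.measurable)))
    exact (sum_eq hZ F (rK x) (QuotientGroup.eq.1 ((rx x).trans x.out_eq.symm))).symm
  have key : ∀ φ : ℂ → ℝ≥0∞, Measurable φ → 2 * ∫⁻ x, φ (CM.jH (pt (r x))) ∂μ =
      c * A * ∫⁻ w in ModularGroup.fd, φ (CM.jH w) := fun φ hφ => by
    have m1 : Measurable fun w => φ (CM.jH w) := hφ.comp CM.Eis.continuous_jH.measurable
    have e : ∀ (S : Set ℍ) (τ : ℍ) (δ : SL(2, ℤ)), S.indicator (fun w => φ (CM.jH w)) (δ • τ) =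
        S.indicator (fun _ => φ (CM.jH τ)) (δ • τ) := fun S τ δ => by
      simp only [indicator, CM.Eis.jH_smul]
    rw [← lintegral_const_mul' _ _ ENNReal.ofNat_ne_top]
    refine le_antisymm ?_ ?_
    · rw [← lintegral_indicator ModularGroup.isClosed_fd.measurableSet,
        ← unf _ (m1.indicator ModularGroup.isClosed_fd.measurableSet)]
      exact lintegral_mono fun x => (sum_fd _ _).trans_eq (tsum_congr fun δ => (e _ _ δ).symm)
    · rw [← setLIntegral_congr fd_ae, ← lintegral_indicator ModularGroup.isOpen_fdo.measurableSet,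
        ← unf _ (m1.indicator ModularGroup.isOpen_fdo.measurableSet)]
      exact lintegral_mono fun x => (tsum_congr fun δ => e _ _ δ).trans_le (sum_fdo _ _)
  have k1 := key 1 measurable_one
  simp only [Pi.one_apply, lintegral_const, measure_univ, mul_one, one_mul,
    Measure.restrict_apply_univ] at k1
  have k0 : c * A * volume ModularGroup.fd ≠ 0 := k1 ▸ two_ne_zero
  have k2 : volume ModularGroup.fd ≠ ⊤ := fun h => by
    rw [h, ENNReal.mul_top (left_ne_zero_of_mul k0)] at k1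
    exact ENNReal.ofNat_ne_top k1
  have k3 : c * A = 2 * (volume ModularGroup.fd)⁻¹ := by
    rw [k1, mul_assoc _ (volume _), ENNReal.mul_inv_cancel (right_ne_zero_of_mul k0) k2, mul_one]
  refine Measure.ext_of_lintegral _ fun φ hφ => ?_
  rw [lintegral_map hφ (QuotientGroup.measurable_from_quotient.2
    (hc.comp QuotientGroup.continuous_mk).measurable), muJ, lintegral_map hφ CM.Eis.continuous_jH.measurable,
    lintegral_smul_measure, smul_eq_mul,
    ← ENNReal.mul_right_inj two_ne_zero ENNReal.ofNat_ne_top, key φ hφ, k3, mul_assoc]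

end Pool.Agent.Lib.MP_9177b7_ag.J
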