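import Pool.Agent.Lib.MP_9177b7_ag.J.DynB
import Pool.Agent.Lib.MP_9177b7_ag.J.Disc
import Pool.Agent.Lib.MP_9177b7_ag.J.Proj

/-!
The compact torus and the orbit measures.
-/

open MeasureTheory Filter Topology Set Pointwise Matrix
open scoped MatrixGroups ENNReal BoundedContinuousFunction

noncomputable section

namespace Pool.Agent.Lib.MP_9177b7_ag.J.Dyn

open Fld

section alg

variable {F : Type} [Field F]

/-- Diagonal elements. -/
def DG (h : SL(2, F)) : Prop := h 0 1 = 0 ∧ h 1 0 = 0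

/-- Rotations. -/
def Rot (h : SL(2, F)) : Prop := h 0 0 = h 1 1 ∧ h 0 1 = -h 1 0

theorem mul_entry (g h : SL(2, F)) (i j : Fin 2) :
    (g * h) i j = g i 0 * h 0 j + g i 1 * h 1 j := by
  simp [Matrix.mul_apply, Fin.sum_univ_two]

theorem inv00 (g : SL(2, F)) : g⁻¹ 0 0 = g 1 1 := by
  simp [Matrix.SpecialLinearGroup.SL2_inv_expl]

theorem inv01 (g : SL(2, F)) : g⁻¹ 0 1 = -g 0 1 := by
  simp [Matrix.SpecialLinearGroup.SL2_inv_expl]

theorem inv10 (g : SL(2, F)) : g⁻¹ 1 0 = -g 1 0 := by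
  simp [Matrix.SpecialLinearGroup.SL2_inv_expl]

theorem inv11 (g : SL(2, F)) : g⁻¹ 1 1 = g 0 0 := by
  simp [Matrix.SpecialLinearGroup.SL2_inv_expl]

theorem det_entry (g : SL(2, F)) : g 0 0 * g 1 1 - g 0 1 * g 1 0 = 1 := by
  have := g.det_coe
  rwa [Matrix.det_fin_two] at this

theorem DG.comm {g h : SL(2, F)} (hg : DG g) (hh : DG h) : g * h = h * g := by
  ext i j
  fin_cases i <;> fin_cases j <;> simp [mul_entry, hg.1, hg.2, hh.1, hh.2, mul_comm]

theorem Rot.comm {g h : SL(2, F)} (hg : Rot g) (hh : Rot h) : g * h = h * g := by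
  ext i j
  fin_cases i <;> fin_cases j <;> simp [mul_entry, hg.1, hg.2, hh.1, hh.2] <;> ring

theorem DG.mul {g h : SL(2, F)} (hg : DG g) (hh : DG h) : DG (g * h) := by
  constructor <;> simp [mul_entry, hg.1, hg.2, hh.1, hh.2]

theorem DG.inv {g : SL(2, F)} (hg : DG g) : DG g⁻¹ := by
  constructor <;> simp [inv01, inv10, hg.1, hg.2]

theorem Rot.mul {g h : SL(2, F)} (hg : Rot g) (hh : Rot h) : Rot (g * h) := by
  constructor
  · simp [mul_entry, hg.1, hg.2, hh.1, hh.2]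
    ring
  · simp [mul_entry, hg.1, hg.2, hh.1, hh.2]

theorem Rot.inv {g : SL(2, F)} (hg : Rot g) : Rot g⁻¹ := by
  constructor <;> simp [inv00, inv01, inv10, inv11, hg.1, hg.2]

end alg

theorem isCompact_bdd (F : Type) [NormedField F] [ProperSpace F] (R : ℝ) :
    IsCompact {g : SL(2, F) | ∀ i j, ‖g i j‖ ≤ R} := by
  have h : IsCompact ((Metric.closedBall (0 : F) R).matrix : Set (Matrix (Fin 2) (Fin 2) F)) :=
    (isCompact_closedBall (0 : F) R).matrix
  have := Matrix.SpecialLinearGroup.isClosedEmbedding_val.isCompact_preimage h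
  refine this.of_isClosed_subset ?_ fun g hg => Set.mem_matrix.2 fun i j => by simpa using hg i j
  simp only [Set.ofPred_forall]
  exact isClosed_iInter fun i => isClosed_iInter fun j =>
    isClosed_le (Disc.continuous_entry i j).norm continuous_const

variable (l₁ l₂ : ℕ) [Fact l₁.Prime] [Fact l₂.Prime]

/-- The full torus. -/
def TT (g : GG l₁ l₂) : Prop := DG g.1 ∧ DG g.2.1 ∧ Rot g.2.2

theorem DU_norm {l : ℕ} [Fact l.Prime] {g : HH l} (hg : DG g) (h : ‖g 0 0‖ = 1) : ‖g 1 1‖ = 1 := by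
  have := det_entry g
  rw [hg.1, zero_mul, sub_zero] at this
  have h2 := congrArg norm this
  rwa [norm_mul, h, one_mul, norm_one] at h2

/-- The compact torus. -/
def MM : Subgroup (GG l₁ l₂) where
  carrier := {g | TT l₁ l₂ g ∧ ‖g.1 0 0‖ = 1 ∧ ‖g.2.1 0 0‖ = 1}
  mul_mem' := by
    rintro g h ⟨⟨g1, g2, g3⟩, g4, g5⟩ ⟨⟨h1, h2, h3⟩, h4, h5⟩
    refine ⟨⟨g1.mul h1, g2.mul h2, g3.mul h3⟩, ?_, ?_⟩
    · change ‖(g.1 * h.1) 0 0‖ = 1
      simp [mul_entry, g1.1, g4, h4]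
    · change ‖(g.2.1 * h.2.1) 0 0‖ = 1
      simp [mul_entry, g2.1, g5, h5]
  one_mem' := ⟨⟨⟨by simp, by simp⟩, ⟨by simp, by simp⟩, ⟨by simp, by simp⟩⟩, by simp, by simp⟩
  inv_mem' := by
    rintro g ⟨⟨g1, g2, g3⟩, g4, g5⟩
    refine ⟨⟨g1.inv, g2.inv, g3.inv⟩, ?_, ?_⟩
    · change ‖g.1⁻¹ 0 0‖ = 1
      rw [inv00, DU_norm g1 g4]
    · change ‖g.2.1⁻¹ 0 0‖ = 1
      rw [inv00, DU_norm g2 g5]

variable {l₁ l₂}

theorem TT.comm {g h : GG l₁ l₂} (hg : TT l₁ l₂ g) (hh : TT l₁ l₂ h) : g * h = h * g :=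
  Prod.ext (hg.1.comm hh.1) (Prod.ext (hg.2.1.comm hh.2.1) (hg.2.2.comm hh.2.2))

theorem DU_K {l : ℕ} [Fact l.Prime] {g : HH l} (hg : DG g) (h : ‖g 0 0‖ = 1) : g ∈ Kint l := by
  intro i j
  fin_cases i <;> fin_cases j <;> simp [hg.1, hg.2, h, DU_norm hg h]

theorem Rot.sq {g : SL(2, ℝ)} (hg : Rot g) : g 0 0 ^ 2 + g 1 0 ^ 2 = 1 := by
  have := det_entry g
  rw [← hg.1, hg.2] at this
  linarith

theorem Rot.bdd {g : SL(2, ℝ)} (hg : Rot g) (i j : Fin 2) : ‖g i j‖ ≤ 1 := by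
  have := hg.sq
  have h1 : |g 0 0| ≤ 1 := by
    rw [← sq_le_one_iff_abs_le_one]; nlinarith [sq_nonneg (g 1 0)]
  have h2 : |g 1 0| ≤ 1 := by
    rw [← sq_le_one_iff_abs_le_one]; nlinarith [sq_nonneg (g 0 0)]
  fin_cases i <;> fin_cases j <;> simp [h1, h2, hg.2, ← hg.1]

theorem MM_K {m : GG l₁ l₂} (hm : m ∈ MM l₁ l₂) : m.1 ∈ Kint l₁ ∧ m.2.1 ∈ Kint l₂ :=
  ⟨DU_K hm.1.1 hm.2.1, DU_K hm.1.2.1 hm.2.2⟩

theorem isCompact_MM : IsCompact (MM l₁ l₂ : Set (GG l₁ l₂)) := by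
  have h := (isCompact_bdd ℚ_[l₁] 1).prod ((isCompact_bdd ℚ_[l₂] 1).prod (isCompact_bdd ℝ 1))
  refine h.of_isClosed_subset ?_ fun g hg => ⟨(MM_K hg).1, (MM_K hg).2, hg.1.2.2.bdd⟩
  have c1 : ∀ i j, Continuous fun g : GG l₁ l₂ => g.1 i j :=
    fun i j => (Disc.continuous_entry i j).comp continuous_fst
  have c2 : ∀ i j, Continuous fun g : GG l₁ l₂ => g.2.1 i j :=
    fun i j => (Disc.continuous_entry i j).comp (continuous_fst.comp continuous_snd)
  have c3 : ∀ i j, Continuous fun g : GG l₁ l₂ => g.2.2 i j :=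
    fun i j => (Disc.continuous_entry i j).comp (continuous_snd.comp continuous_snd)
  exact (((isClosed_eq (c1 0 1) continuous_const).inter (isClosed_eq (c1 1 0) continuous_const)).inter
    (((isClosed_eq (c2 0 1) continuous_const).inter (isClosed_eq (c2 1 0) continuous_const)).inter
      ((isClosed_eq (c3 0 0) (c3 1 1)).inter (isClosed_eq (c3 0 1) (c3 1 0).neg)))).inter
    ((isClosed_eq (c1 0 0).norm continuous_const).inter
      (isClosed_eq (c2 0 0).norm continuous_const))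

instance : CompactSpace (MM l₁ l₂) := isCompact_iff_compactSpace.1 isCompact_MM

variable (l₁ l₂) in
/-- Haar probability measure of the compact torus. -/
def hM : Measure (MM l₁ l₂) := Measure.haarMeasure ⊤

instance : IsProbabilityMeasure (hM l₁ l₂) :=
  ⟨by simpa [hM] using
    Measure.haarMeasure_self (K₀ := (⊤ : TopologicalSpace.PositiveCompacts (MM l₁ l₂)))⟩

instance : (hM l₁ l₂).IsMulLeftInvariant := by unfold hM; infer_instance

section orb

variable {Y : Type} [TopologicalSpace Y] [T2Space Y] [MeasurableSpace Y] [BorelSpace Y]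
  [MulAction (GG l₁ l₂) Y] [ContinuousSMul (GG l₁ l₂) Y]

variable (l₁ l₂) in
/-- The orbit map of the compact torus. -/
def om (y : Y) (m : MM l₁ l₂) : Y := (m : GG l₁ l₂) • y

omit [T2Space Y] [MeasurableSpace Y] [BorelSpace Y] in
theorem om_cont (y : Y) : Continuous (om l₁ l₂ y) := continuous_subtype_val.smul continuous_const

variable (l₁ l₂) in
/-- The orbit measure of the compact torus. -/
def orb (y : Y) : Measure Y := (hM l₁ l₂).map (om l₁ l₂ y)

omit [T2Space Y] in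
instance (y : Y) : IsProbabilityMeasure (orb l₁ l₂ y) :=
  Measure.isProbabilityMeasure_map (om_cont y).measurable.aemeasurable

omit [T2Space Y] in
theorem orb_map {g : GG l₁ l₂} (hg : TT l₁ l₂ g) (y : Y) :
    (orb l₁ l₂ y).map (g • ·) = orb l₁ l₂ (g • y) := by
  rw [orb, orb, Measure.map_map (continuous_const_smul g).measurable (om_cont y).measurable]
  congr 1
  funext m
  simp only [Function.comp, om, smul_smul, hg.comm m.2.1]

omit [T2Space Y] in
theorem orb_M {g : GG l₁ l₂} (hg : g ∈ MM l₁ l₂) (y : Y) :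
    (orb l₁ l₂ y).map (g • ·) = orb l₁ l₂ y := by
  rw [orb, Measure.map_map (continuous_const_smul g).measurable (om_cont y).measurable]
  have : (fun x => g • x) ∘ om l₁ l₂ y = om l₁ l₂ y ∘ fun m => (⟨g, hg⟩ : MM l₁ l₂) * m := by
    funext m
    simp only [Function.comp, om, smul_smul, Subgroup.coe_mul]
  rw [this, ← Measure.map_map (om_cont y).measurable (measurable_const_mul _), map_mul_left_eq_self]

theorem orb_range (y : Y) : orb l₁ l₂ y (range (om l₁ l₂ y))ᶜ = 0 := by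
  rw [orb, Measure.map_apply (om_cont y).measurable
    (isCompact_range (om_cont y)).isClosed.measurableSet.compl]
  simp

variable (k : Fld) (F : ℕ+)

variable (l₁ l₂) in
/-- The average of the orbit measures. -/
def mix (P : k.SF F → Y) : Measure Y :=
  (Fintype.card (k.SF F) : ℝ≥0∞)⁻¹ • ∑ s, orb l₁ l₂ (P s)

theorem card_ne : (Fintype.card (k.SF F) : ℝ≥0∞) ≠ 0 := by simp

omit [T2Space Y] in
instance (P : k.SF F → Y) : IsProbabilityMeasure (mix l₁ l₂ k F P) := ⟨by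
  simp only [mix, Measure.smul_apply, Measure.finsetSum_apply, measure_univ, Finset.sum_const,
    Finset.card_univ, nsmul_eq_mul, mul_one, smul_eq_mul]
  exact ENNReal.inv_mul_cancel (card_ne k F) (by simp)⟩

omit [T2Space Y] [TopologicalSpace Y] [BorelSpace Y] [ContinuousSMul (GG l₁ l₂) Y] in
theorem mix_map' {Y' : Type} [MeasurableSpace Y'] (P : k.SF F → Y) {f : Y → Y'}
    (hf : Measurable f) : (mix l₁ l₂ k F P).map f =
      (Fintype.card (k.SF F) : ℝ≥0∞)⁻¹ • ∑ s, (orb l₁ l₂ (P s)).map f := by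
  rw [mix, Measure.map_smul, ← Measure.sum_fintype, ← Measure.sum_fintype,
    Measure.map_sum hf.aemeasurable]

omit [T2Space Y] in
theorem mix_tor {g : GG l₁ l₂} (hg : TT l₁ l₂ g) (P : k.SF F → Y) (s₀ : k.SF F)
    (h : ∀ s, P (s₀ * s) = g • P s) : (mix l₁ l₂ k F P).map (g • ·) = mix l₁ l₂ k F P := by
  rw [mix_map' k F P (continuous_const_smul g).measurable, mix]
  congr 1
  simp_rw [orb_map hg, ← h]
  exact Fintype.sum_equiv (Equiv.mulLeft s₀) _ _ fun s => rfl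

omit [T2Space Y] in
theorem mix_M {g : GG l₁ l₂} (hg : g ∈ MM l₁ l₂) (P : k.SF F → Y) :
    (mix l₁ l₂ k F P).map (g • ·) = mix l₁ l₂ k F P := by
  rw [mix_map' k F P (continuous_const_smul g).measurable, mix]
  simp_rw [orb_M hg]

theorem ofReal_avg {φ : k.SF F → ℝ} (h : ∀ s, 0 ≤ φ s) : ENNReal.ofReal (k.avg F φ) =
    (Fintype.card (k.SF F) : ℝ≥0∞)⁻¹ * ∑ s, ENNReal.ofReal (φ s) := by
  rw [Fld.avg, ENNReal.ofReal_div_of_pos (by simp [Fintype.card_pos]),
    ENNReal.ofReal_sum_of_nonneg fun s _ => h s, ENNReal.ofReal_natCast, div_eq_mul_inv, mul_comm]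

theorem pr_nonneg (E : k.SF F → Prop) : 0 ≤ k.pr F E := by
  unfold Fld.pr Fld.avg
  refine div_nonneg (Finset.sum_nonneg fun s _ => ?_) (by positivity)
  split_ifs <;> norm_num

theorem mix_le (P : k.SF F → Y) (A : Set Y) (E : k.SF F → Prop)
    (h : ∀ s, ∀ m ∈ MM l₁ l₂, m • P s ∈ A → E s) :
    mix l₁ l₂ k F P A ≤ ENNReal.ofReal (k.pr F E) := by
  classical
  rw [Fld.pr, ofReal_avg k F fun s => by split_ifs <;> norm_num]
  simp only [mix, Measure.smul_apply, Measure.finsetSum_apply, smul_eq_mul]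
  gcongr with s
  split_ifs with hs
  · simpa using prob_le_one
  · rw [ENNReal.ofReal_zero, ← orb_range (l₁ := l₁) (l₂ := l₂) (P s)]
    refine measure_mono fun a ha => ?_
    rintro ⟨m, rfl⟩
    exact hs (h s m m.2 ha)

theorem mix_prod_le [SecondCountableTopology Y] (P : k.SF F → Y) (A : Set (Y × Y))
    (E : k.SF F → k.SF F → Prop)
    (h : ∀ s s', ∀ m ∈ MM l₁ l₂, ∀ m' ∈ MM l₁ l₂, (m • P s, m' • P s') ∈ A → E s s') :
    ((mix l₁ l₂ k F P).prod (mix l₁ l₂ k F P)) A ≤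
      ENNReal.ofReal (k.avg F fun s => k.pr F (E s)) := by
  classical
  let A' : Set (Y × Y) := ⋂ p : {p : k.SF F × k.SF F // ¬ E p.1 p.2},
    (range (om l₁ l₂ (P p.1.1)) ×ˢ range (om l₁ l₂ (P p.1.2)))ᶜ
  have hr : ∀ y : Y, MeasurableSet (range (om l₁ l₂ y)) :=
    fun y => (isCompact_range (om_cont y)).isClosed.measurableSet
  have hA' : MeasurableSet A' := MeasurableSet.iInter fun p => ((hr _).prod (hr _)).compl
  have hsub : A ⊆ A' := by
    rintro ⟨a, b⟩ hab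
    refine mem_iInter.2 fun p => ?_
    rintro ⟨⟨m, rfl⟩, ⟨m', rfl⟩⟩
    exact p.2 (h _ _ m m.2 m' m'.2 hab)
  refine (measure_mono hsub).trans ?_
  rw [Measure.prod_apply hA', ofReal_avg k F fun s => pr_nonneg k F _]
  nth_rewrite 1 [mix]
  rw [lintegral_smul_measure, lintegral_finsetSum_measure, smul_eq_mul]
  gcongr with s
  have hae : ∀ᵐ a ∂(orb l₁ l₂ (P s)), a ∈ range (om l₁ l₂ (P s)) := orb_range (P s)
  calc ∫⁻ a, mix l₁ l₂ k F P (Prod.mk a ⁻¹' A') ∂(orb l₁ l₂ (P s))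
      ≤ ∫⁻ _, ENNReal.ofReal (k.pr F (E s)) ∂(orb l₁ l₂ (P s)) := by
        refine lintegral_mono_ae (hae.mono fun a ha => mix_le k F P _ _ fun s' m hm hmem => ?_)
        by_contra hE
        exact mem_iInter.1 hmem ⟨(s, s'), hE⟩ ⟨ha, ⟨⟨m, hm⟩, rfl⟩⟩
    _ = _ := by simp

omit [T2Space Y] in
theorem mix_integral (P : k.SF F → Y) (φ : Y →ᵇ ℝ) (ψ : k.SF F → ℝ)
    (h : ∀ s, ∀ m ∈ MM l₁ l₂, φ (m • P s) = ψ s) :
    ∫ y, φ y ∂(mix l₁ l₂ k F P) = k.avg F ψ := by
  rw [mix, integral_smul_measure, integral_finsetSum_measure fun s _ => φ.integrable _, Fld.avg]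
  have : ∀ s, ∫ y, φ y ∂(orb l₁ l₂ (P s)) = ψ s := by
    intro s
    rw [orb, integral_map (om_cont _).measurable.aemeasurable φ.continuous.aestronglyMeasurable]
    simp [om, h s _ (Subtype.prop _)]
  simp_rw [this]
  simp [div_eq_inv_mul]

end orb

instance borelX [PolishSpace (XX l₁ l₂)] : BorelSpace (XX l₁ l₂) := inferInstance

instance borelXX [PolishSpace (XX l₁ l₂)] : BorelSpace (XX l₁ l₂ × XX l₁ l₂) :=
  Prod.borelSpace

theorem mix_fst (k : Fld) (F : ℕ+) [PolishSpace (XX l₁ l₂)] (P P' : k.SF F → XX l₁ l₂) :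
    (mix l₁ l₂ k F fun s => (P s, P' s)).map Prod.fst = mix l₁ l₂ k F P := by
  rw [mix_map' k F _ measurable_fst, mix]
  congr 1
  refine Finset.sum_congr rfl fun s _ => ?_
  rw [orb, orb, Measure.map_map measurable_fst (om_cont _).measurable]
  rfl

theorem mix_snd (k : Fld) (F : ℕ+) [PolishSpace (XX l₁ l₂)] (P P' : k.SF F → XX l₁ l₂) :
    (mix l₁ l₂ k F fun s => (P s, P' s)).map Prod.snd = mix l₁ l₂ k F P' := by
  rw [mix_map' k F _ measurable_snd, mix]
  congr 1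
  refine Finset.sum_congr rfl fun s _ => ?_
  rw [orb, orb, Measure.map_map measurable_snd (om_cont _).measurable]
  rfl

end Pool.Agent.Lib.MP_9177b7_ag.J.Dyn
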