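import Pool.Agent.Lib.MP_9177b7_ag.J.DynC
import Pool.Agent.Lib.MP_9177b7_ag.CM.Main

/-!
Integrality of frames, the modular invariant of a point, compact sets, torus invariance.
-/

open MeasureTheory Filter Topology Set Pointwise Matrix
open scoped MatrixGroups ENNReal BoundedContinuousFunction

noncomputable section

namespace Pool.Agent.Lib.MP_9177b7_ag.J.Dyn

open Fld

variable (k : Fld)

theorem mem_O {z : k.K} : z ∈ k.O ↔ ∃ a b : ℤ, z = ⟨a, b⟩ := by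
  rw [Fld.O, mem_span2]
  constructor <;> rintro ⟨a, b, rfl⟩ <;> refine ⟨a, b, ?_⟩ <;> ext <;>
    simp [Fld.om, QuadraticAlgebra.re_one, QuadraticAlgebra.im_one]

theorem natCast_mul (u : ℕ) (x : k.K) : (u : k.K) * x = (u : ℚ) • x := by
  ext <;> simp

section padic

variable {l : ℕ} [Fact l.Prime] {r : ℚ_[l]}

theorem norm_nat {u : ℕ} (hu : ¬ l ∣ u) : ‖(u : ℚ_[l])‖ = 1 := by
  rw [Padic.norm_natCast_eq_one_iff]
  exact (Nat.Prime.coprime_iff_not_dvd Fact.out).2 hu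

theorem io_O (hr : ‖r‖ ≤ 1) {x : k.K} (hx : x ∈ k.O) : ‖k.io r x‖ ≤ 1 := by
  obtain ⟨a, b, rfl⟩ := (mem_O k).1 hx
  simp only [Fld.io, Rat.cast_intCast]
  refine (IsUltrametricDist.norm_add_le_max _ _).trans (max_le (Padic.norm_int_le_one a) ?_)
  rw [norm_mul]
  exact mul_le_one₀ (Padic.norm_int_le_one b) (norm_nonneg _) hr

theorem nrm_io (hr : ‖r‖ ≤ 1) {L : Submodule ℤ k.K} (hL : k.Nrm l L) {x : k.K} (hx : x ∈ L) :
    ‖k.io r x‖ ≤ 1 := by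
  obtain ⟨u, hu, -, h2⟩ := hL
  have := io_O k hr (h2 x hx)
  rwa [natCast_mul, io_qsmul, norm_mul, Rat.cast_natCast, norm_nat hu, one_mul] at this

theorem det2_int {x y : k.K} {a b a' b' : ℤ} :
    k.det2 ((a : ℚ) • x + (b : ℚ) • y) ((a' : ℚ) • x + (b' : ℚ) • y) =
      ((a * b' - a' * b : ℤ) : ℚ) * k.det2 x y := by
  simp only [Fld.det2, QuadraticAlgebra.re_add, QuadraticAlgebra.im_add,
    QuadraticAlgebra.re_smul, QuadraticAlgebra.im_smul, smul_eq_mul]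
  push_cast
  ring

theorem nrm_det {L : Submodule ℤ k.K} (hL : k.Nrm l L) {x y : k.K}
    (h : L = Submodule.span ℤ {x, y}) : ‖((k.det2 x y : ℚ) : ℚ_[l])‖ = 1 := by
  obtain ⟨u, hu, h1, h2⟩ := hL
  have hu' := norm_nat hu
  obtain ⟨hx, hy⟩ := OB_mem_aux k h
  apply le_antisymm
  · obtain ⟨a, b, e⟩ := (mem_O k).1 (h2 x hx)
    obtain ⟨a', b', e'⟩ := (mem_O k).1 (h2 y hy)
    have : (u : ℚ) ^ 2 * k.det2 x y = ((a * b' - b * a' : ℤ) : ℚ) := by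
      have e1 := congrArg QuadraticAlgebra.re e
      have e2 := congrArg QuadraticAlgebra.im e
      have e3 := congrArg QuadraticAlgebra.re e'
      have e4 := congrArg QuadraticAlgebra.im e'
      rw [natCast_mul] at e1 e2 e3 e4
      simp only [QuadraticAlgebra.re_smul, QuadraticAlgebra.im_smul, smul_eq_mul] at e1 e2 e3 e4
      push_cast
      rw [← e1, ← e2, ← e3, ← e4, Fld.det2]
      ring
    have h3 := congrArg (fun q : ℚ => ‖(q : ℚ_[l])‖) this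
    simp only [Rat.cast_mul, Rat.cast_pow, Rat.cast_natCast, norm_mul, norm_pow, hu', one_pow,
      one_mul, Rat.cast_intCast] at h3
    rw [h3]
    exact Padic.norm_int_le_one _
  · have m1 : (1 : k.K) ∈ k.O := Submodule.subset_span (by simp)
    have m2 : k.om ∈ k.O := Submodule.subset_span (by simp)
    obtain ⟨a, b, e⟩ := (mem_span2 k).1 (h ▸ h1 _ m1)
    obtain ⟨a', b', e'⟩ := (mem_span2 k).1 (h ▸ h1 _ m2)
    have : (u : ℚ) ^ 2 = ((a * b' - a' * b : ℤ) : ℚ) * k.det2 x y := by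
      rw [← det2_int, ← e, ← e']
      simp [Fld.det2, Fld.om, pow_two]
    have h3 := congrArg (fun q : ℚ => ‖(q : ℚ_[l])‖) this
    simp only [Rat.cast_mul, Rat.cast_pow, Rat.cast_natCast, norm_mul, norm_pow, hu', one_pow,
      Rat.cast_intCast] at h3
    have h4 := Padic.norm_int_le_one (p := l) (a * b' - a' * b)
    nlinarith [norm_nonneg ((k.det2 x y : ℚ) : ℚ_[l])]

/-- A good embedding at `l`. -/
structure Good (r : ℚ_[l]) : Prop where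
  root : k.Root r
  le : ‖r‖ ≤ 1
  dif : ‖(k.t : ℚ_[l]) - r - r‖ = 1

theorem Good.le' (h : Good k r) : ‖(k.t : ℚ_[l]) - r‖ ≤ 1 := by
  rw [sub_eq_add_neg]
  exact (IsUltrametricDist.norm_add_le_max _ _).trans
    (max_le (Padic.norm_int_le_one _) (by simpa using h.le))

theorem mp_K (h : Good k r) {L : Submodule ℤ k.K} (hL : k.Nrm l L) {x y : k.K}
    (hb : L = Submodule.span ℤ {x, y}) (hd : k.det2 x y ≠ 0) : toSL (mp k r x y) ∈ Kint l := by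
  obtain ⟨hx, hy⟩ := OB_mem_aux k hb
  have hn := nrm_det k hL hb
  intro i j
  rw [coe_toSL (det_mp k h.root hd)]
  fin_cases i <;> fin_cases j <;>
    simp [mp, PP, Matrix.mul_apply, Fin.sum_univ_two, hn, h.dif, nrm_io k h.le hL hx,
      nrm_io k h.le hL hy, nrm_io k (h.le' k) hL hx, nrm_io k (h.le' k) hL hy]

end padic

variable {l₁ l₂ : ℕ} [Fact l₁.Prime] [Fact l₂.Prime] {w : ℂ} {r₁ : ℚ_[l₁]} {r₂ : ℚ_[l₂]}

theorem fr_K (h₁ : Good k r₁) (h₂ : Good k r₂) {L : Submodule ℤ k.K} {c : ℚ} {x y : k.K}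
    (h : OB k w L c x y) (n₁ : k.Nrm l₁ L) (n₂ : k.Nrm l₂ L) :
    fr k w r₁ r₂ x y ∈ Proj.KK l₁ l₂ :=
  (Proj.mem_KK l₁ l₂).2 ⟨mp_K k h₁ n₁ h.1 (det2_ne k h.2.2), mp_K k h₂ n₂ h.1 (det2_ne k h.2.2)⟩

theorem MM_KK {m : GG l₁ l₂} (hm : m ∈ MM l₁ l₂) : m ∈ Proj.KK l₁ l₂ :=
  (Proj.mem_KK l₁ l₂).2 (MM_K hm)

theorem Rot.smul_I {g : SL(2, ℝ)} (hg : Rot g) : g • UpperHalfPlane.I = UpperHalfPlane.I := by
  have h := hg.sq
  apply UpperHalfPlane.ext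
  rw [UpperHalfPlane.coe_specialLinearGroup_apply]
  simp only [UpperHalfPlane.coe_I, Algebra.algebraMap_self, RingHom.id_apply]
  have hne : ((g 1 0 : ℝ) : ℂ) * Complex.I + (g 1 1 : ℝ) ≠ 0 := by
    intro h0
    have h1 := congrArg Complex.re h0
    have h2 := congrArg Complex.im h0
    simp at h1 h2
    rw [hg.1, h1, h2] at h
    norm_num at h
  rw [div_eq_iff hne, hg.1, hg.2]
  push_cast
  linear_combination (-(g 1 0 : ℂ)) * Complex.I_sq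

theorem exists_OB' (hw : k.Root w) {L : Submodule ℤ k.K} {c : ℚ} (hL : k.Lat L c) :
    ∃ x y, OB k w L c x y := by
  obtain ⟨x0, y0, hb0, hd0, hc⟩ := hL
  rcases exists_OB k hw hb0 hd0 hc with h | h <;> exact ⟨_, _, h⟩

theorem jH_fr (hw : k.Root w) {L : Submodule ℤ k.K} {c : ℚ} {x y : k.K} (h : OB k w L c x y) :
    CM.jH ((fr k w r₁ r₂ x y).2.2⁻¹ • UpperHalfPlane.I) = CM.jL (L.map (k.ioL w)) := by
  have hx : x ≠ 0 := by
    rintro rfl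
    exact det2_ne k h.2.2 (by simp [Fld.det2])
  have hex := io_ne_zero k hw hx
  set τ := (fr k w r₁ r₂ x y).2.2⁻¹ • UpperHalfPlane.I with hτ
  have hs : (0 : ℝ) < Real.sqrt (-w.im * k.det2 x y) := Real.sqrt_pos.2 h.2.2
  have hτ' : (τ : ℂ) = -k.io w y / k.io w x := by
    rw [hτ, UpperHalfPlane.coe_specialLinearGroup_apply]
    simp only [UpperHalfPlane.coe_I, Algebra.algebraMap_self, RingHom.id_apply, inv00, inv01, inv10,
      inv11]
    have e : ∀ i j, (fr k w r₁ r₂ x y).2.2 i j = mr k w x y i j := by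
      intro i j
      change (toSL (mr k w x y) : Matrix (Fin 2) (Fin 2) ℝ) i j = _
      rw [coe_toSL (det_mr k h.2.2)]
    simp only [e, mr, Matrix.smul_apply, Matrix.of_apply, Matrix.cons_val', Matrix.cons_val_zero,
      Matrix.cons_val_one, Matrix.cons_val_fin_one, smul_eq_mul]
    set s := Real.sqrt (-w.im * k.det2 x y)
    have hs' : (s : ℂ) ≠ 0 := by exact_mod_cast hs.ne'
    have a1 := Complex.re_add_im (k.io w x)
    have a2 := Complex.re_add_im (k.io w y)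
    push_cast
    have b1 : -((s : ℂ)⁻¹ * -((k.io w x).im : ℂ)) * Complex.I + (s : ℂ)⁻¹ * ((k.io w x).re : ℂ) =
        (s : ℂ)⁻¹ * k.io w x := by linear_combination (s : ℂ)⁻¹ * a1
    have b2 : (s : ℂ)⁻¹ * -((k.io w y).im : ℂ) * Complex.I + -((s : ℂ)⁻¹ * ((k.io w y).re : ℂ)) =
        (s : ℂ)⁻¹ * -k.io w y := by linear_combination -(s : ℂ)⁻¹ * a2
    rw [b1, b2]
    field_simp
  have hmap : L.map (k.ioL w) = k.io w x • CM.sp τ 1 := by
    rw [h.1, Submodule.map_span, CM.smul_sp, hτ', mul_one, mul_div_cancel₀ _ hex, Set.image_pair]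
    change CM.sp (k.io w x) (k.io w y) = _
    rw [CM.Lat.sp_neg, CM.sp_comm]
  rw [hmap, CM.hyp.jL_smul _ hex, CM.hyp.jL_sp]

theorem jX_pt (hw : k.Root w) (h₁ : Good k r₁) (h₂ : Good k r₂) {jX : XX l₁ l₂ → ℂ}
    (hj : ∀ g : GG l₁ l₂, g.1 ∈ Kint l₁ → g.2.1 ∈ Kint l₂ →
      jX (QuotientGroup.mk g) = CM.jH (g.2.2⁻¹ • UpperHalfPlane.I))
    {L : Submodule ℤ k.K} {c : ℚ} (hL : k.Lat L c) (n₁ : k.Nrm l₁ L) (n₂ : k.Nrm l₂ L)
    {m : GG l₁ l₂} (hm : m ∈ MM l₁ l₂) :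
    jX (m • pt k w r₁ r₂ L) = CM.jL (L.map (k.ioL w)) := by
  obtain ⟨x, y, h⟩ := exists_OB' k hw hL
  have hK := (Proj.mem_KK l₁ l₂).1 (mul_mem (MM_KK hm) (fr_K k h₁ h₂ h n₁ n₂))
  rw [pt_eq k h₁.root h₂.root h, MulAction.Quotient.smul_mk, smul_eq_mul, hj _ hK.1 hK.2,
    ← jH_fr k (r₁ := r₁) (r₂ := r₂) hw h]
  change CM.jH ((m.2.2 * (fr k w r₁ r₂ x y).2.2)⁻¹ • _) = _
  rw [_root_.mul_inv_rev, mul_smul, hm.1.2.2.inv.smul_I]

variable (l₁ l₂) in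
/-- A compact set of frames. -/
def Om (R : ℝ) : Set (GG l₁ l₂) :=
  {g | g ∈ Proj.KK l₁ l₂ ∧ ∀ j, g.2.2 0 j ^ 2 + g.2.2 1 j ^ 2 ≤ R}

theorem isCompact_Om (R : ℝ) : IsCompact (Om l₁ l₂ R) := by
  have h := (isCompact_bdd ℚ_[l₁] 1).prod ((isCompact_bdd ℚ_[l₂] 1).prod
    (isCompact_bdd ℝ (R + 1)))
  refine h.of_isClosed_subset ?_ fun g hg => ⟨hg.1.1, hg.1.2.1, fun i j => ?_⟩
  · refine ((Proj.KK l₁ l₂).isClosed_of_isOpen (Proj.isOpen_KK l₁ l₂)).inter ?_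
    have c3 : ∀ i j, Continuous fun g : GG l₁ l₂ => g.2.2 i j :=
      fun i j => (Disc.continuous_entry i j).comp (continuous_snd.comp continuous_snd)
    change IsClosed {g : GG l₁ l₂ | ∀ j, g.2.2 0 j ^ 2 + g.2.2 1 j ^ 2 ≤ R}
    simp only [Set.ofPred_forall]
    exact isClosed_iInter fun j => isClosed_le (((c3 0 j).pow 2).add ((c3 1 j).pow 2))
      continuous_const
  · have := hg.2 j
    rw [Real.norm_eq_abs, abs_le]
    fin_cases i <;> constructor <;> simp only [Fin.zero_eta, Fin.mk_one] <;>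
      nlinarith [sq_nonneg (g.2.2 0 j), sq_nonneg (g.2.2 1 j), sq_nonneg (g.2.2 0 j - 1),
        sq_nonneg (g.2.2 1 j - 1), sq_nonneg (g.2.2 0 j + 1), sq_nonneg (g.2.2 1 j + 1)]

theorem N_neg (x : k.K) : k.N (-x) = k.N x := by simp [Fld.N]

theorem pt_mem_Om (hB : BasicStmt) (hw : k.Root w) (h₁ : Good k r₁) (h₂ : Good k r₂)
    {L : Submodule ℤ k.K} {c : ℚ} (hL : k.Lat L c) (n₁ : k.Nrm l₁ L) (n₂ : k.Nrm l₂ L) {ε : ℝ}
    (hε : 0 < ε) (hs : ¬ ∃ v ∈ L, v ≠ 0 ∧ k.N v ≤ ε * c) {m : GG l₁ l₂} (hm : m ∈ MM l₁ l₂) :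
    m • pt k w r₁ r₂ L ∈ QuotientGroup.mk '' Om l₁ l₂ (|(k.D : ℝ)| / (ε * |w.im|)) := by
  obtain ⟨x, y, hb, hd, -, hxy, hN⟩ := (hB k).2.2.2.2.2.1 L c hL
  have hc : 0 < c := by obtain ⟨_, _, -, -, h⟩ := hL; exact h
  have hc' : (0 : ℝ) < c := by exact_mod_cast hc
  have hx : x ≠ 0 := by
    rintro rfl
    rw [← hd] at hc
    simp [Fld.det2] at hc
  have hxε : ε * c < k.N x := by
    by_contra h
    exact hs ⟨x, (OB_mem_aux k hb).1, hx, not_lt.1 h⟩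
  have hy : k.N y ≤ |(k.D : ℝ)| * c / ε := by
    rw [le_div_iff₀ hε]
    have := N_nonneg k y
    have h2 : ε * c * k.N y ≤ |(k.D : ℝ)| * c ^ 2 := (mul_le_mul_of_nonneg_right hxε.le this).trans hN
    nlinarith
  obtain ⟨y', h, hy'⟩ : ∃ y', OB k w L c x y' ∧ k.N y' = k.N y := by
    rcases exists_OB k hw hb hd hc with h | h
    · exact ⟨_, h, rfl⟩
    · exact ⟨_, h, N_neg k y⟩
  refine ⟨m * fr k w r₁ r₂ x y', ⟨mul_mem (MM_KK hm) (fr_K k h₁ h₂ h n₁ n₂), fun j => ?_⟩, ?_⟩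
  · have hr := hm.1.2.2
    have hsq := hr.sq
    have e : ∀ i j, (fr k w r₁ r₂ x y').2.2 i j = mr k w x y' i j := by
      intro i j
      change (toSL (mr k w x y') : Matrix (Fin 2) (Fin 2) ℝ) i j = _
      rw [coe_toSL (det_mr k h.2.2)]
    change (m.2.2 * (fr k w r₁ r₂ x y').2.2) 0 j ^ 2 + (m.2.2 * (fr k w r₁ r₂ x y').2.2) 1 j ^ 2 ≤ _
    rw [mul_entry, mul_entry, hr.2, ← hr.1, e, e]
    have e2 : (m.2.2 0 0 * mr k w x y' 0 j + -m.2.2 1 0 * mr k w x y' 1 j) ^ 2 +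
        (m.2.2 1 0 * mr k w x y' 0 j + m.2.2 0 0 * mr k w x y' 1 j) ^ 2 =
        mr k w x y' 0 j ^ 2 + mr k w x y' 1 j ^ 2 := by
      linear_combination (mr k w x y' 0 j ^ 2 + mr k w x y' 1 j ^ 2) * hsq
    rw [e2]
    have hwi : 0 < |w.im| := abs_pos.2 (conj_root k hw).2
    have hs2 : (Real.sqrt (-w.im * k.det2 x y'))⁻¹ ^ 2 = (|w.im| * c)⁻¹ := by
      rw [inv_pow, Real.sq_sqrt h.2.2.le, h.sqrt_eq]
    have key : ∀ v : k.K, k.N v ≤ |(k.D : ℝ)| * c / ε →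
        ((Real.sqrt (-w.im * k.det2 x y'))⁻¹ * (k.io w v).re) ^ 2 +
          ((Real.sqrt (-w.im * k.det2 x y'))⁻¹ * -(k.io w v).im) ^ 2 ≤
          |(k.D : ℝ)| / (ε * |w.im|) := by
      intro v hv
      rw [mul_pow, mul_pow, hs2, neg_sq, ← mul_add, ← N_eq k hw]
      calc _ ≤ (|w.im| * c)⁻¹ * (|(k.D : ℝ)| * c / ε) := by gcongr
        _ = _ := by field_simp
    fin_cases j
    · simpa [mr] using key x (hxy.trans hy)
    · simpa [mr] using key y' (hy' ▸ hy)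
  · rw [pt_eq k h₁.root h₂.root h, MulAction.Quotient.smul_mk, smul_eq_mul]

end Pool.Agent.Lib.MP_9177b7_ag.J.Dyn
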