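import Pool.Agent.Lib.MP_9177b7_ag.J.DynD

/-!
Torus invariance, and linear maps between lattices read off from frames.
-/

open MeasureTheory Filter Topology Set Pointwise Matrix
open scoped MatrixGroups ENNReal BoundedContinuousFunction

noncomputable section

namespace Pool.Agent.Lib.MP_9177b7_ag.J.Dyn

open Fld

variable (k : Fld)

theorem O_mul {x y : k.K} (hx : x ∈ k.O) (hy : y ∈ k.O) : x * y ∈ k.O := by
  obtain ⟨a, b, rfl⟩ := (mem_O k).1 hx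
  obtain ⟨a', b', rfl⟩ := (mem_O k).1 hy
  refine (mem_O k).2 ⟨a * a' - k.n * b * b', a * b' + b * a' + k.t * b * b', ?_⟩
  ext <;> simp <;> ring

theorem O_star {x : k.K} (hx : x ∈ k.O) : star x ∈ k.O := by
  obtain ⟨a, b, rfl⟩ := (mem_O k).1 hx
  refine (mem_O k).2 ⟨a + k.t * b, -b, ?_⟩
  ext <;> simp

theorem adm_mul {F : ℕ} {L : Submodule ℤ k.K} (h : k.Adm F L) {y v : k.K} (hy : y ∈ k.O)
    (hv : v ∈ L) : (F : k.K) * y * v ∈ L := by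
  obtain ⟨a, b, rfl⟩ := (mem_O k).1 hy
  have : (F : k.K) * (⟨a, b⟩ : k.K) * v = ((F : ℤ) * a) • v + b • ((F : k.K) * k.om * v) := by
    ext <;> simp [Fld.om] <;> ring
  rw [this]
  exact L.add_mem (L.smul_mem _ hv) (L.smul_mem _ (h v hv))

theorem exists_lift (F : ℕ+) {P : k.K} (hP : P ∈ k.O) {n : ℕ} (hn : QuadraticAlgebra.norm P = n)
    (hc : Nat.Coprime n F) : ∃ s : k.SF F, ∃ y ∈ k.O, lift s = P + ((F : ℕ) : k.K) * y := by
  obtain ⟨a, b, rfl⟩ := (mem_O k).1 hP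
  let q : QuadraticAlgebra (ZMod F) (-(k.n : ZMod F)) (k.t : ZMod F) := ⟨a, b⟩
  have hq : QuadraticAlgebra.norm q = (n : ZMod F) := by
    rw [QuadraticAlgebra.norm_def] at hn ⊢
    have h1 : a * a + k.t * a * b + k.n * b * b = n := by
      have : ((a * a + k.t * a * b + k.n * b * b : ℤ) : ℚ) = n := by
        push_cast
        rw [← hn]
        ring
      exact_mod_cast this
    have h2 := congrArg (fun z : ℤ => (z : ZMod F)) h1
    simp only [q]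
    push_cast at h2
    rw [← h2]
    ring
  have hu : IsUnit q := by
    rw [QuadraticAlgebra.isUnit_iff_norm_isUnit, hq]
    exact (ZMod.isUnit_iff_coprime n F).2 hc
  have key : ∀ z : ℤ, ∃ j : ℤ, (((z : ZMod F).val : ℕ) : ℚ) = z + (F : ℕ) * j := by
    intro z
    have h1 : (((z : ZMod F).val : ℤ) : ZMod F) = (z : ZMod F) := by simp
    obtain ⟨j, hj⟩ := (ZMod.intCast_eq_intCast_iff_dvd_sub _ _ _).1 h1.symm
    refine ⟨j, ?_⟩
    have : (((z : ZMod F).val : ℕ) : ℤ) = z + (F : ℕ) * j := by linarith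
    exact_mod_cast this
  obtain ⟨j, hj⟩ := key a
  obtain ⟨j', hj'⟩ := key b
  refine ⟨hu.unit, ⟨j, j'⟩, (mem_O k).2 ⟨j, j', rfl⟩, ?_⟩
  ext
  · simpa [Fld.lift, q] using hj
  · simpa [Fld.lift, q] using hj'

variable {l₁ l₂ : ℕ} [Fact l₁.Prime] [Fact l₂.Prime] {w : ℂ} {r₁ : ℚ_[l₁]} {r₂ : ℚ_[l₂]}

theorem norm_div {P : k.K} {n : ℕ} (hn0 : n ≠ 0) (hn : QuadraticAlgebra.norm P = (n : ℚ) ^ 2) :
    QuadraticAlgebra.norm (((n : ℚ)⁻¹) • P) = 1 := by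
  have h0 : (n : ℚ) ≠ 0 := by exact_mod_cast hn0
  rw [QuadraticAlgebra.norm_def] at hn ⊢
  simp only [QuadraticAlgebra.re_smul, QuadraticAlgebra.im_smul, smul_eq_mul]
  field_simp
  linear_combination hn

theorem tor_inv (hB : BasicStmt) (hw : k.Root w) (h₁ : k.Root r₁) (h₂ : k.Root r₂) {P : k.K}
    (hP : P ∈ k.O) {n u e : ℕ} (hn : QuadraticAlgebra.norm P = (n : ℚ) ^ 2)
    (hu : n * u = (l₁ * l₂) ^ e) (F : ℕ+) (hF₁ : ¬ l₁ ∣ F) (hF₂ : ¬ l₂ ∣ F) :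
    ∃ s₀ : k.SF F, ∀ L c, k.Lat L c → k.Adm F L →
      pt k w r₁ r₂ (act s₀ L) = tor k w r₁ r₂ (((n : ℚ)⁻¹) • P) • pt k w r₁ r₂ L := by
  have p₁ : l₁.Prime := Fact.out
  have p₂ : l₂.Prime := Fact.out
  have hn0 : n ≠ 0 := by
    rintro rfl
    exact (pow_pos (Nat.mul_pos p₁.pos p₂.pos) e).ne (by simpa using hu)
  have h0 : (n : ℚ) ≠ 0 := by exact_mod_cast hn0
  have hc : Nat.Coprime (n ^ 2) F := by
    refine Nat.Coprime.pow_left 2 (Nat.Coprime.coprime_dvd_left ⟨u, hu.symm⟩ ?_)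
    exact Nat.Coprime.pow_left e (Nat.Coprime.mul_left (p₁.coprime_iff_not_dvd.2 hF₁)
      (p₂.coprime_iff_not_dvd.2 hF₂))
  obtain ⟨s₀, y, hy, hs⟩ := exists_lift k F hP (n := n ^ 2) (by rw [hn]; push_cast; rfl) hc
  refine ⟨s₀, fun L c hL hA => ?_⟩
  refine pt_tor k hw h₁ h₂ hL ((hB k).2.2.2.2.2.2.2.1 F L c hL hA |>.2 s₀).1
    (norm_div k hn0 hn) (e := e) fun z hz => ?_
  have hM : (((l₁ * l₂ : ℕ) : ℚ) ^ e) = n * u := by exact_mod_cast hu.symm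
  have hPP : P * star P = ((n ^ 2 : ℕ) : k.K) := by
    rw [← QuadraticAlgebra.algebraMap_norm_eq_mul_star, hn]
    simp
  rw [hM]
  refine Submodule.mul_induction_on hz ?_ ?_
  · intro x hx v hv
    have hx' : ∃ (j : ℤ), ∃ y' ∈ k.O, x = j * P + ((F : ℕ) : k.K) * y' := by
      refine Submodule.span_induction ?_ ?_ ?_ ?_ hx
      · rintro x (rfl | rfl | rfl)
        · exact ⟨1, y, hy, by rw [hs]; simp⟩
        · exact ⟨0, 1, Submodule.subset_span (by simp), by simp⟩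
        · exact ⟨0, k.om, Submodule.subset_span (by simp), by simp⟩
      · exact ⟨0, 0, zero_mem _, by simp⟩
      · rintro x x' - - ⟨j, y, hy, rfl⟩ ⟨j', y', hy', rfl⟩
        exact ⟨j + j', y + y', add_mem hy hy', by push_cast; ring⟩
      · rintro a x - ⟨j, y, hy, rfl⟩
        exact ⟨a * j, a • y, k.O.smul_mem a hy, by simp only [zsmul_eq_mul]; push_cast; ring⟩
    obtain ⟨j, y', hy', rfl⟩ := hx'
    refine ⟨(j * n ^ 2 * u : ℤ) • v + (u : ℤ) • (((F : ℕ) : k.K) * (star P * y') * v),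
      L.add_mem (L.smul_mem _ hv) (L.smul_mem _ (adm_mul k hA (O_mul k (O_star k hP) hy') hv)), ?_⟩
    have e1 : ∀ z : k.K, ((n : ℚ) * u) • z = (n : k.K) * u * z := by
      intro z
      rw [mul_assoc, natCast_mul, natCast_mul, smul_smul]
    have e2 : (n : k.K) * ((n : ℚ)⁻¹ • P) = P := by
      rw [natCast_mul, smul_smul, mul_inv_cancel₀ h0, one_smul]
    have hn' : (n : k.K) ≠ 0 := by exact_mod_cast hn0
    apply mul_left_cancel₀ hn'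
    rw [e1, ← mul_assoc (n : k.K) ((n : ℚ)⁻¹ • P), e2]
    simp only [zsmul_eq_mul]
    push_cast at hPP ⊢
    linear_combination (-(u : k.K) * F * y' * v) * hPP
  · rintro x y ⟨v, hv, e1⟩ ⟨v', hv', e2⟩
    exact ⟨v + v', L.add_mem hv hv', by rw [smul_add, e1, e2, mul_add]⟩

theorem tor_entries (hw : k.Root w) (h₁ : k.Root r₁) (h₂ : k.Root r₂) {a : k.K}
    (ha : QuadraticAlgebra.norm a = 1) : TT l₁ l₂ (tor k w r₁ r₂ a) ∧
      (tor k w r₁ r₂ a).1 0 0 = k.io r₁ a ∧ (tor k w r₁ r₂ a).2.1 0 0 = k.io r₂ a := by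
  have e1 : ((tor k w r₁ r₂ a).1 : Matrix (Fin 2) (Fin 2) ℚ_[l₁]) = _ := coe_toSL (det_tp k h₁ ha)
  have e2 : ((tor k w r₁ r₂ a).2.1 : Matrix (Fin 2) (Fin 2) ℚ_[l₂]) = _ :=
    coe_toSL (det_tp k h₂ ha)
  have e3 : ((tor k w r₁ r₂ a).2.2 : Matrix (Fin 2) (Fin 2) ℝ) = _ := coe_toSL (det_rm k hw ha)
  refine ⟨⟨⟨?_, ?_⟩, ⟨?_, ?_⟩, ⟨?_, ?_⟩⟩, ?_, ?_⟩
  · exact (congrFun (congrFun e1 0) 1).trans (by simp)
  · exact (congrFun (congrFun e1 1) 0).trans (by simp)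
  · exact (congrFun (congrFun e2 0) 1).trans (by simp)
  · exact (congrFun (congrFun e2 1) 0).trans (by simp)
  · exact (congrFun (congrFun e3 0) 0).trans ((by simp [rm] : _ = rm (k.io w a) 0 1 1).trans
      (congrFun (congrFun e3 1) 1).symm)
  · exact (congrFun (congrFun e3 0) 1).trans ((by simp [rm] : _ = -rm (k.io w a) 0 1 0).trans
      (congrArg Neg.neg (congrFun (congrFun e3 1) 0).symm))
  · exact (congrFun (congrFun e1 0) 0).trans (by simp)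
  · exact (congrFun (congrFun e2 0) 0).trans (by simp)

theorem DG.eq_dg {F : Type} [Field F] {g : SL(2, F)} (hg : DG g) :
    ∃ t : Fˣ, (t : F) = g 0 0 ∧ g = dg t := by
  have h := det_entry g
  rw [hg.1, zero_mul, sub_zero] at h
  have h0 : g 0 0 ≠ 0 := left_ne_zero_of_mul_eq_one h
  refine ⟨Units.mk0 _ h0, rfl, ?_⟩
  ext i j
  fin_cases i <;> fin_cases j <;> simp [dg, hg.1, hg.2]
  exact eq_inv_of_mul_eq_one_right h

theorem DG_one {F : Type} [Field F] : DG (1 : SL(2, F)) := ⟨by simp, by simp⟩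

theorem unit_norm {l : ℕ} [Fact l.Prime] {r : ℚ_[l]} (h : Good k r) {P : k.K} (hP : P ∈ k.O)
    {n : ℕ} (hn : QuadraticAlgebra.norm P = (n : ℚ) ^ 2) (hl : ¬ l ∣ n) :
    ‖k.io r (((n : ℚ)⁻¹) • P)‖ = 1 := by
  have h1 := io_O k h.le hP
  have h2 := io_O k (h.le' k) hP
  have h3 := congrArg norm (io_norm k h.root P)
  rw [hn, norm_mul] at h3
  push_cast at h3
  rw [norm_pow, norm_nat hl] at h3
  rw [io_qsmul, norm_mul]
  push_cast
  rw [norm_inv, norm_nat hl]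
  nlinarith [norm_nonneg (k.io r P), norm_nonneg (k.io ((k.t : ℚ_[l]) - r) P)]

theorem big_norm {l : ℕ} [Fact l.Prime] {r : ℚ_[l]} (h : k.Root r) {p : k.K} (e : ℕ)
    (hp : ‖k.io ((k.t : ℚ_[l]) - r) p‖ = 1) :
    ‖k.io r ((((l ^ e : ℕ) : ℚ)⁻¹) • (star p * star p))‖ = (l : ℝ) ^ e := by
  rw [io_qsmul, io_mul k h, io_star, norm_mul, norm_mul, hp]
  push_cast
  rw [norm_inv, norm_pow, Padic.norm_p]
  simp

section inv

variable {Y : Type} [TopologicalSpace Y] [MeasurableSpace Y] [BorelSpace Y]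
  [MulAction (GG l₁ l₂) Y] [ContinuousSMul (GG l₁ l₂) Y]

theorem mix_inv {F : ℕ+} (P : k.SF F → Y) {g a : GG l₁ l₂} (hg : TT l₁ l₂ g)
    (ha : a⁻¹ * g ∈ MM l₁ l₂) (s₀ : k.SF F) (h : ∀ s, P (s₀ * s) = g • P s) :
    (mix l₁ l₂ k F P).map (a • ·) = mix l₁ l₂ k F P := by
  have h1 := mix_tor k F hg P s₀ h
  have h2 := mix_M k F ha P
  nth_rewrite 1 [← h2]
  rw [Measure.map_map (continuous_const_smul _).measurable (continuous_const_smul _).measurable]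
  convert h1 using 2
  funext y
  simp [smul_smul]

end inv

/-- The two elements of the torus which leave the measures invariant. -/
theorem exists_tor (hB : BasicStmt) (hP : PiStmt) (hw : k.Root w) (hne : l₁ ≠ l₂)
    (h₁ : Good k r₁) (h₂ : Good k r₂) (d₁ : ¬ (l₁ : ℤ) ∣ k.D) (d₂ : ¬ (l₂ : ℤ) ∣ k.D) :
    ∃ (t₁ : ℚ_[l₁]ˣ) (t₂ : ℚ_[l₂]ˣ) (e : ℕ), 0 < e ∧ ‖(t₁ : ℚ_[l₁])‖ = (l₁ : ℝ) ^ e ∧
      1 < ‖(t₂ : ℚ_[l₂])‖ ∧ ∀ a : GG l₁ l₂, a = (dg t₁, 1) ∨ a = (1, dg t₂, 1) →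
        ∃ g, TT l₁ l₂ g ∧ a⁻¹ * g ∈ MM l₁ l₂ ∧ ∀ F : ℕ+, ¬ l₁ ∣ F → ¬ l₂ ∣ F →
          ∃ s₀ : k.SF F, ∀ L c, k.Lat L c → k.Adm F L →
            pt k w r₁ r₂ (act s₀ L) = g • pt k w r₁ r₂ L := by
  have p₁ : l₁.Prime := Fact.out
  have p₂ : l₂.Prime := Fact.out
  obtain ⟨-, -, p, hp, e, he, hN, -, hp'⟩ := hP k l₁ r₁ h₁.root d₁
  obtain ⟨-, -, q, hq, f, hf, hN', -, hq'⟩ := hP k l₂ r₂ h₂.root d₂
  have hPO := O_mul k (O_star k hp) (O_star k hp)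
  have hQO := O_mul k (O_star k hq) (O_star k hq)
  have hPN : QuadraticAlgebra.norm (star p * star p) = ((l₁ ^ e : ℕ) : ℚ) ^ 2 := by
    rw [map_mul, QuadraticAlgebra.norm_star, hN]
    push_cast
    ring
  have hQN : QuadraticAlgebra.norm (star q * star q) = ((l₂ ^ f : ℕ) : ℚ) ^ 2 := by
    rw [map_mul, QuadraticAlgebra.norm_star, hN']
    push_cast
    ring
  obtain ⟨T1, a1, a2⟩ := tor_entries k hw h₁.root h₂.root
    (norm_div k (pow_pos p₁.pos e).ne' hPN)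
  obtain ⟨T2, b1, b2⟩ := tor_entries k hw h₁.root h₂.root
    (norm_div k (pow_pos p₂.pos f).ne' hQN)
  obtain ⟨t₁, ht₁, e₁⟩ := T1.1.eq_dg
  obtain ⟨t₂, ht₂, e₂⟩ := T2.2.1.eq_dg
  have n12 : ¬ l₂ ∣ l₁ ^ e := fun h => hne ((Nat.prime_dvd_prime_iff_eq p₂ p₁).1
    (p₂.dvd_of_dvd_pow h)).symm
  have n21 : ¬ l₁ ∣ l₂ ^ f := fun h => hne ((Nat.prime_dvd_prime_iff_eq p₁ p₂).1
    (p₁.dvd_of_dvd_pow h))
  refine ⟨t₁, t₂, e, he, by rw [ht₁, a1, big_norm k h₁.root e hp'], ?_, ?_⟩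
  · rw [ht₂, b2, big_norm k h₂.root f hq']
    exact one_lt_pow₀ (by exact_mod_cast p₂.one_lt) hf.ne'
  rintro a (rfl | rfl)
  · refine ⟨_, T1, ?_, fun F hF₁ hF₂ => tor_inv k hB hw h₁.root h₂.root hPO hPN
      (u := l₂ ^ e) (e := e) (mul_pow _ _ _).symm F hF₁ hF₂⟩
    rw [← e₁]
    refine ⟨⟨?_, ?_, ?_⟩, ?_, ?_⟩
    · simpa using DG_one
    · simpa using T1.2.1
    · simpa using T1.2.2
    · simp
    · have := unit_norm k h₂ hPO hPN n12
      rw [← a2] at this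
      simpa using this
  · refine ⟨_, T2, ?_, fun F hF₁ hF₂ => tor_inv k hB hw h₁.root h₂.root hQO hQN
      (u := l₁ ^ f) (e := f) (by rw [mul_pow, mul_comm]) F hF₁ hF₂⟩
    rw [← e₂]
    refine ⟨⟨?_, ?_, ?_⟩, ?_, ?_⟩
    · simpa using T2.1
    · simpa using DG_one
    · simpa using T2.2.2
    · have := unit_norm k h₁ hQO hQN n21
      rw [← b1] at this
      simpa using this
    · simp

end Pool.Agent.Lib.MP_9177b7_ag.J.Dyn
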