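import Pool.Agent.Lib.MP_9177b7_ag.J.DynE

/-!
Linear maps between lattices read off from frames: collisions and correspondences.
-/

open MeasureTheory Filter Topology Set Pointwise Matrix
open scoped MatrixGroups ENNReal BoundedContinuousFunction

noncomputable section

namespace Pool.Agent.Lib.MP_9177b7_ag.J.Dyn

open Fld

variable (k : Fld)

theorem cancel_SL {F : Type} [Field F] {A B : Matrix (Fin 2) (Fin 2) F} (g : SL(2, F))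
    (h : A * (g : Matrix (Fin 2) (Fin 2) F) = B * g) : A = B := by
  have := congrArg (· * ((g⁻¹ : SL(2, F)) : Matrix (Fin 2) (Fin 2) F)) h
  simpa only [Matrix.mul_assoc, ← Matrix.SpecialLinearGroup.coe_mul, mul_inv_cancel,
    Matrix.SpecialLinearGroup.coe_one, Matrix.mul_one] using this

theorem move_SL {F : Type} [Field F] {A G : Matrix (Fin 2) (Fin 2) F} {m₁ m₂ f₁ f₂ : SL(2, F)}
    (h : ((m₂ * f₂ : SL(2, F)) : Matrix (Fin 2) (Fin 2) F) * A = G * (m₁ * f₁ : SL(2, F))) :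
    (f₂ : Matrix (Fin 2) (Fin 2) F) * A =
      (((m₂⁻¹ : SL(2, F)) : Matrix (Fin 2) (Fin 2) F) * G * m₁) * f₁ := by
  rw [Matrix.mul_assoc, Matrix.mul_assoc, ← Matrix.SpecialLinearGroup.coe_mul, ← h,
    ← Matrix.mul_assoc, ← Matrix.SpecialLinearGroup.coe_mul, inv_mul_cancel_left]

/-- Square of the Frobenius norm. -/
def fro (A : Matrix (Fin 2) (Fin 2) ℝ) : ℝ := A 0 0 ^ 2 + A 0 1 ^ 2 + A 1 0 ^ 2 + A 1 1 ^ 2

theorem fro_rot {g h : SL(2, ℝ)} (hg : Rot g) (hh : Rot h) (A : Matrix (Fin 2) (Fin 2) ℝ) :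
    fro ((g : Matrix (Fin 2) (Fin 2) ℝ) * A * h) = fro A := by
  have h1 := hg.sq
  have h2 := hh.sq
  have e1 : fro ((g : Matrix (Fin 2) (Fin 2) ℝ) * A * h) =
      (g 0 0 ^ 2 + g 1 0 ^ 2) * (h 0 0 ^ 2 + h 1 0 ^ 2) * fro A := by
    simp only [fro, Matrix.mul_apply, Fin.sum_univ_two]
    have a1 : (g : Matrix (Fin 2) (Fin 2) ℝ) 1 1 = g 0 0 := hg.1.symm
    have a2 : (g : Matrix (Fin 2) (Fin 2) ℝ) 0 1 = -g 1 0 := hg.2
    have a3 : (h : Matrix (Fin 2) (Fin 2) ℝ) 1 1 = h 0 0 := hh.1.symm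
    have a4 : (h : Matrix (Fin 2) (Fin 2) ℝ) 0 1 = -h 1 0 := hh.2
    rw [a1, a2, a3, a4]
    ring
  rw [e1, h1, h2, one_mul, one_mul]

theorem norm_du {l : ℕ} [Fact l.Prime] {g h : HH l} (hg : DG g) (hh : DG h) (ng : ‖g 0 0‖ = 1)
    (nh : ‖h 0 0‖ = 1) (A : Matrix (Fin 2) (Fin 2) ℚ_[l]) (i j : Fin 2) :
    ‖((g : Matrix (Fin 2) (Fin 2) ℚ_[l]) * A * h) i j‖ = ‖A i j‖ := by
  have ng' := DU_norm hg ng
  have nh' := DU_norm hh nh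
  fin_cases i <;> fin_cases j <;>
    simp [Matrix.mul_apply, Fin.sum_univ_two, hg.1, hg.2, hh.1, hh.2, ng, nh, ng', nh']

variable {l₁ l₂ : ℕ} [Fact l₁.Prime] [Fact l₂.Prime] {w : ℂ} {r₁ : ℚ_[l₁]} {r₂ : ℚ_[l₂]}

theorem OB.pos {L : Submodule ℤ k.K} {c : ℚ} {x y : k.K} (h : OB k w L c x y) : 0 < c := by
  rw [← h.2.1]
  exact abs_pos.2 (det2_ne k h.2.2)

theorem rel (hw : k.Root w) (h₁ : Good k r₁) {L₁ L₂ : Submodule ℤ k.K} {c₁ c₂ : ℚ}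
    {x₁ y₁ x₂ y₂ : k.K} (o₁ : OB k w L₁ c₁ x₁ y₁) (o₂ : OB k w L₂ c₂ x₂ y₂)
    (n₁ : k.Nrm l₁ L₁) (n₂ : k.Nrm l₁ L₂) {γ : Matrix (Fin 2) (Fin 2) ℚ}
    (hγ : ∀ i j, ∃ z : ℤ, (z : ℚ) = γ i j) {m₁ m₂ : GG l₁ l₂} (hm₁ : m₁ ∈ MM l₁ l₂)
    (hm₂ : m₂ ∈ MM l₁ l₂) {G : Matrix (Fin 2) (Fin 2) ℚ_[l₁]} {G' : Matrix (Fin 2) (Fin 2) ℝ}
    (hG : ((m₂ * fr k w r₁ r₂ x₂ y₂).1 : Matrix (Fin 2) (Fin 2) ℚ_[l₁]) *
      γ.map (fun a : ℚ => (a : ℚ_[l₁])) = G * (m₁ * fr k w r₁ r₂ x₁ y₁).1)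
    (hG' : ((m₂ * fr k w r₁ r₂ x₂ y₂).2.2 : Matrix (Fin 2) (Fin 2) ℝ) *
      γ.map (fun a : ℚ => (a : ℝ)) = G' * (m₁ * fr k w r₁ r₂ x₁ y₁).2.2) :
    ∃ α β : k.K, L₁.map (k.lin α β) ≤ L₂ ∧
      |QuadraticAlgebra.norm α - QuadraticAlgebra.norm β| * c₁ = |γ.det| * c₂ ∧
      2 * (k.N α + k.N β) * c₁ = fro G' * c₂ ∧ ‖k.io r₁ β‖ = ‖G 0 1‖ ∧
      ‖k.io ((k.t : ℚ_[l₁]) - r₁) β‖ = ‖G 1 0‖ := by
  have d₁ := det2_ne k o₁.2.2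
  have d₂ := det2_ne k o₂.2.2
  obtain ⟨α, β, e0, e1⟩ := exists_lin k d₁ (c0 k γ x₂ y₂) (c1 k γ x₂ y₂)
  have hp := mp_rel k h₁.root d₁ e0 e1
  have hr := mr_rel k hw o₁.2.2 e0 e1
  have hG1 := move_SL hG
  have hG2 := move_SL hG'
  have f1 : ∀ {x y}, k.det2 x y ≠ 0 → ((fr k w r₁ r₂ x y).1 : Matrix (Fin 2) (Fin 2) ℚ_[l₁]) =
      mp k r₁ x y := fun h => coe_toSL (det_mp k h₁.root h)
  have f2 : ∀ {x y}, 0 < -w.im * k.det2 x y →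
      ((fr k w r₁ r₂ x y).2.2 : Matrix (Fin 2) (Fin 2) ℝ) = mr k w x y :=
    fun h => coe_toSL (det_mr k h)
  rw [f1 d₂, hp, ← f1 d₁] at hG1
  rw [f2 o₂.2.2, hr, ← f2 o₁.2.2] at hG2
  have hA := cancel_SL _ hG1
  have hA' := cancel_SL _ hG2
  have hi := (MM l₁ l₂).inv_mem hm₂
  have hn := norm_du hi.1.1 hm₁.1.1 hi.2.1 hm₁.2.1 G
  have hf := fro_rot hi.1.2.2 hm₁.1.2.2 G'
  refine ⟨α, β, ?_, ?_, ?_, ?_, ?_⟩
  · rw [o₁.1, Submodule.map_span, Submodule.span_le, Set.image_pair, e0, e1, o₂.1]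
    obtain ⟨a, ha⟩ := hγ 0 0
    obtain ⟨b, hb⟩ := hγ 0 1
    obtain ⟨c, hc⟩ := hγ 1 0
    obtain ⟨d, hd⟩ := hγ 1 1
    rintro _ (rfl | rfl)
    · exact (mem_span2 k).2 ⟨a, c, by rw [c0, ha, hc]⟩
    · exact (mem_span2 k).2 ⟨b, d, by rw [c1, hb, hd]⟩
  · rw [← o₁.2.1, ← o₂.2.1, ← abs_mul, ← abs_mul, ← det2_lin, e0, e1, det2_c]
  · have h3 : fro G' = fro (((Real.sqrt (-w.im * k.det2 x₂ y₂))⁻¹ *
        Real.sqrt (-w.im * k.det2 x₁ y₁)) • rm (k.io w α) (k.io w β)) := by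
      rw [hA']
      exact hf.symm
    have hwi : 0 < |w.im| := abs_pos.2 (conj_root k hw).2
    have p₂ : (0 : ℝ) < c₂ := by exact_mod_cast o₂.pos
    have h4 : ((Real.sqrt (-w.im * k.det2 x₂ y₂))⁻¹ * Real.sqrt (-w.im * k.det2 x₁ y₁)) ^ 2 * c₂ =
        c₁ := by
      rw [mul_pow, inv_pow, Real.sq_sqrt o₁.2.2.le, Real.sq_sqrt o₂.2.2.le, o₁.sqrt_eq, o₂.sqrt_eq]
      field_simp
    rw [h3, N_eq k hw, N_eq k hw, ← h4]
    simp only [fro, rm, Matrix.smul_apply, Matrix.of_apply, Matrix.cons_val', Matrix.cons_val_zero,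
      Matrix.cons_val_one, Matrix.cons_val_fin_one, smul_eq_mul]
    ring
  · have := congrArg (fun A : Matrix (Fin 2) (Fin 2) ℚ_[l₁] => ‖A 0 1‖) hA
    simp only [Matrix.of_apply, Matrix.cons_val', Matrix.cons_val_zero,
      Matrix.cons_val_one, Matrix.cons_val_fin_one, norm_mul, nrm_det k n₁ o₁.1, h₁.dif,
      mul_one] at this
    exact this.trans (hn 0 1)
  · have := congrArg (fun A : Matrix (Fin 2) (Fin 2) ℚ_[l₁] => ‖A 1 0‖) hA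
    simp only [Matrix.of_apply, Matrix.cons_val', Matrix.cons_val_zero,
      Matrix.cons_val_one, Matrix.cons_val_fin_one, norm_mul, norm_inv, nrm_det k n₂ o₂.1, h₁.dif,
      mul_one, inv_one, one_mul] at this
    exact this.trans (hn 1 0)

theorem col_link (hB : BasicStmt) (hw : k.Root w) (h₁ : Good k r₁) (h₂ : Good k r₂)
    {L L' : Submodule ℤ k.K} {c : ℚ} (hL : k.Lat L c) (hL' : k.Lat L' c)
    (n₁ : k.Nrm l₁ L) (n₂ : k.Nrm l₂ L) (n₁' : k.Nrm l₁ L') (n₂' : k.Nrm l₂ L')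
    {m m' g : GG l₁ l₂} (hm : m ∈ MM l₁ l₂) (hm' : m' ∈ MM l₁ l₂) (hg : g ∈ Proj.KK l₁ l₂)
    (hg' : ∀ i j, |g.2.2 i j| ≤ 2) (e : m' • pt k w r₁ r₂ L' = g • m • pt k w r₁ r₂ L) :
    ∃ α β : k.K, L.map (k.lin α β) = L' ∧ k.N α ≤ 8 ∧ k.N β ≤ 8 ∧ ‖k.io r₁ β‖ = ‖g.1 0 1‖ ∧
      ‖k.io ((k.t : ℚ_[l₁]) - r₁) β‖ = ‖g.1 1 0‖ := by
  obtain ⟨x, y, o⟩ := exists_OB' k hw hL
  obtain ⟨x', y', o'⟩ := exists_OB' k hw hL'
  rw [pt_eq k h₁.root h₂.root o, pt_eq k h₁.root h₂.root o', smul_smul,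
    MulAction.Quotient.smul_mk, MulAction.Quotient.smul_mk, smul_eq_mul, smul_eq_mul,
    QuotientGroup.eq] at e
  have hK := (Proj.mem_KK l₁ l₂).1 (mul_mem (inv_mem (mul_mem (MM_KK hm')
    (fr_K k h₁ h₂ o' n₁' n₂'))) (mul_mem (mul_mem hg (MM_KK hm)) (fr_K k h₁ h₂ o n₁ n₂)))
  obtain ⟨δ, hδ⟩ := Disc.integral l₁ l₂ _ e hK.1 hK.2
  rw [inv_mul_eq_iff_eq_mul, mul_assoc] at hδ
  set γ := Matrix.SpecialLinearGroup.map (Int.castRingHom ℚ) δ with hγ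
  obtain ⟨α, β, a1, a2, a3, a4, a5⟩ := rel k (r₂ := r₂) hw h₁ o o' n₁ n₁' (γ := γ) (G := g.1)
    (G' := g.2.2) (fun i j => ⟨δ i j, by simp [hγ]⟩) hm hm'
    (by rw [← map_cast, ← Matrix.SpecialLinearGroup.coe_mul, ← Matrix.SpecialLinearGroup.coe_mul]
        exact congrArg (fun g : GG l₁ l₂ => (g.1 : Matrix (Fin 2) (Fin 2) ℚ_[l₁])) hδ.symm)
    (by rw [← map_cast, ← Matrix.SpecialLinearGroup.coe_mul, ← Matrix.SpecialLinearGroup.coe_mul]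
        exact congrArg (fun g : GG l₁ l₂ => (g.2.2 : Matrix (Fin 2) (Fin 2) ℝ)) hδ.symm)
  have hc := o.pos
  have hc' : (0 : ℝ) < c := by exact_mod_cast hc
  rw [γ.det_coe, abs_one] at a2
  have a2' := mul_right_cancel₀ hc.ne' a2
  have hne : k.N α ≠ k.N β := by
    intro h
    have : QuadraticAlgebra.norm α = QuadraticAlgebra.norm β := by
      unfold Fld.N at h
      exact_mod_cast h
    rw [this] at a2'
    simp at a2'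
  have hlat := (hB k).2.2.1 L c α β hL hne
  rw [a2', one_mul] at hlat
  obtain ⟨j, -, hj, -, hj1⟩ := (hB k).2.2.2.1 _ _ _ _ hlat hL' a1
  have hj' : j = 1 := by
    have : (j : ℚ) = 1 := mul_right_cancel₀ hc.ne' (by rw [← hj, one_mul])
    exact_mod_cast this
  have hf : fro g.2.2 ≤ 16 := by
    have := fun i j => sq_le_sq' (abs_le.1 (hg' i j)).1 (abs_le.1 (hg' i j)).2
    have b1 := this 0 0
    have b2 := this 0 1
    have b3 := this 1 0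
    have b4 := this 1 1
    unfold fro
    linarith
  have a3' := mul_right_cancel₀ hc'.ne' a3
  have := N_nonneg k α
  have := N_nonneg k β
  exact ⟨α, β, hj1 hj', by linarith, by linarith, a4, a5⟩

/-- Bounded matrices. -/
def Bd {F : Type} [NormedField F] (A : Matrix (Fin 2) (Fin 2) F) (a : ℝ) : Prop :=
  ∀ i j, ‖A i j‖ ≤ a

theorem Bd.mul {F : Type} [NormedField F] {A B : Matrix (Fin 2) (Fin 2) F} {a b : ℝ}
    (h : Bd A a) (h' : Bd B b) : Bd (A * B) (2 * a * b) := by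
  intro i j
  have ha : 0 ≤ a := (norm_nonneg _).trans (h 0 0)
  rw [Matrix.mul_apply, Fin.sum_univ_two]
  refine (norm_add_le _ _).trans ?_
  rw [norm_mul, norm_mul]
  have := mul_le_mul (h i 0) (h' 0 j) (norm_nonneg _) ha
  have := mul_le_mul (h i 1) (h' 1 j) (norm_nonneg _) ha
  linarith

theorem Bd.inv {F : Type} [NormedField F] {g : SL(2, F)} {a : ℝ}
    (h : Bd (g : Matrix (Fin 2) (Fin 2) F) a) :
    Bd ((g⁻¹ : SL(2, F)) : Matrix (Fin 2) (Fin 2) F) a := by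
  intro i j
  fin_cases i <;> fin_cases j
  · exact (congrArg norm (inv00 g)).trans_le (h 1 1)
  · exact (congrArg norm (inv01 g)).trans_le (by simpa using h 0 1)
  · exact (congrArg norm (inv10 g)).trans_le (by simpa using h 1 0)
  · exact (congrArg norm (inv11 g)).trans_le (h 0 0)

theorem exists_Bd {F : Type} [NormedField F] (A : Matrix (Fin 2) (Fin 2) F) : ∃ a, Bd A a := by
  refine ⟨∑ p : Fin 2 × Fin 2, ‖A p.1 p.2‖, fun i j => ?_⟩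
  exact Finset.single_le_sum (f := fun p : Fin 2 × Fin 2 => ‖A p.1 p.2‖)
    (fun _ _ => norm_nonneg _) (Finset.mem_univ (i, j))

theorem place {F : Type} [Field F] [CharZero F] [Algebra ℚ F] (g₁ g₂ : SL(2, F))
    (γ₁ γ₂ : SL(2, ℚ)) (B : Matrix (Fin 2) (Fin 2) ℚ) :
    ((g₂ * Matrix.SpecialLinearGroup.map (algebraMap ℚ F) γ₂ : SL(2, F)) :
        Matrix (Fin 2) (Fin 2) F) *
      (((γ₂⁻¹ : SL(2, ℚ)) : Matrix (Fin 2) (Fin 2) ℚ) * B * γ₁).map (fun a : ℚ => (a : F)) =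
    ((g₂ : Matrix (Fin 2) (Fin 2) F) * B.map (fun a : ℚ => (a : F)) * (g₁⁻¹ : SL(2, F))) *
      (g₁ * Matrix.SpecialLinearGroup.map (algebraMap ℚ F) γ₁ : SL(2, F)) := by
  have hm : ∀ A A' : Matrix (Fin 2) (Fin 2) ℚ, (A * A').map (fun a : ℚ => (a : F)) =
      A.map (fun a : ℚ => (a : F)) * A'.map (fun a : ℚ => (a : F)) :=
    fun A A' => Matrix.map_mul (f := Rat.castHom F)
  have h1 : ∀ (A : Matrix (Fin 2) (Fin 2) F) (g h : SL(2, F)),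
      A * (g⁻¹ : SL(2, F)) * (g * h : SL(2, F)) = A * h := by
    intro A g h
    rw [Matrix.mul_assoc, ← Matrix.SpecialLinearGroup.coe_mul, inv_mul_cancel_left]
  rw [h1, hm, hm, ← map_cast, ← map_cast, map_inv, ← Matrix.mul_assoc, ← Matrix.mul_assoc,
    ← Matrix.SpecialLinearGroup.coe_mul, mul_inv_cancel_right]

theorem RM_mul {M : ℕ} {A B : Matrix (Fin 2) (Fin 2) ℚ} (h : ∀ i j, A i j ∈ RM M)
    (h' : ∀ i j, B i j ∈ RM M) (i j : Fin 2) : (A * B) i j ∈ RM M := by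
  rw [Matrix.mul_apply, Fin.sum_univ_two]
  exact add_mem (mul_mem (h _ _) (h' _ _)) (mul_mem (h _ _) (h' _ _))

theorem exists_den (B : Matrix (Fin 2) (Fin 2) ℚ) :
    ∃ a : ℕ, 0 < a ∧ ∀ i j, ∃ z : ℤ, (z : ℚ) = a * B i j := by
  refine ⟨∏ p : Fin 2 × Fin 2, (B p.1 p.2).den, Finset.prod_pos fun p _ => (B p.1 p.2).den_pos,
    fun i j => ?_⟩
  obtain ⟨u, hu⟩ := Finset.dvd_prod_of_mem (fun p : Fin 2 × Fin 2 => (B p.1 p.2).den)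
    (Finset.mem_univ (i, j))
  refine ⟨u * (B i j).num, ?_⟩
  rw [hu]
  push_cast
  rw [← Rat.mul_den_eq_num]
  ring

theorem small_mul (l : ℕ) [Fact l.Prime] (C : ℝ) : ∃ e₀ : ℕ, ∀ e, e₀ ≤ e → ∀ (u : ℕ) (x : ℚ_[l]),
    ‖x‖ ≤ C → ‖((l ^ e * u : ℕ) : ℚ_[l]) * x‖ ≤ 1 := by
  have hl : (1 : ℝ) < l := by exact_mod_cast (Fact.out : l.Prime).one_lt
  obtain ⟨e₀, he⟩ := pow_unbounded_of_one_lt C hl
  refine ⟨e₀, fun e h u x hx => ?_⟩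
  have h1 : ‖(u : ℚ_[l])‖ ≤ 1 := by simpa using Padic.norm_int_le_one (p := l) u
  have h2 : ‖x‖ ≤ (l : ℝ) ^ e := hx.trans (he.le.trans (pow_le_pow_right₀ hl.le h))
  push_cast
  rw [norm_mul, norm_mul, norm_pow, Padic.norm_p, inv_pow]
  calc _ ≤ ((l : ℝ) ^ e)⁻¹ * 1 * (l : ℝ) ^ e := by gcongr
    _ = 1 := by field_simp

variable (l₁ l₂) in
/-- An open box. -/
def Box (R : ℝ) : Set (GG l₁ l₂) :=
  {g | ∀ i j, ‖g.1 i j‖ < R ∧ ‖g.2.1 i j‖ < R ∧ ‖g.2.2 i j‖ < R}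

theorem isOpen_Box (R : ℝ) : IsOpen (Box l₁ l₂ R) := by
  have c1 : ∀ i j, Continuous fun g : GG l₁ l₂ => g.1 i j :=
    fun i j => (Disc.continuous_entry i j).comp continuous_fst
  have c2 : ∀ i j, Continuous fun g : GG l₁ l₂ => g.2.1 i j :=
    fun i j => (Disc.continuous_entry i j).comp (continuous_fst.comp continuous_snd)
  have c3 : ∀ i j, Continuous fun g : GG l₁ l₂ => g.2.2 i j :=
    fun i j => (Disc.continuous_entry i j).comp (continuous_snd.comp continuous_snd)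
  simp only [Box, Set.ofPred_forall]
  exact isOpen_iInter_of_finite fun i => isOpen_iInter_of_finite fun j =>
    (isOpen_lt (c1 i j).norm continuous_const).inter
      ((isOpen_lt (c2 i j).norm continuous_const).inter (isOpen_lt (c3 i j).norm continuous_const))

theorem exists_Box {Ω : Set (GG l₁ l₂)} (hΩ : IsCompact Ω) : ∃ R, Ω ⊆ Box l₁ l₂ R := by
  have hm : Monotone fun n : ℕ => Box l₁ l₂ n := fun a b hab g hg i j => by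
    have : (a : ℝ) ≤ b := by exact_mod_cast hab
    exact ⟨(hg i j).1.trans_le this, (hg i j).2.1.trans_le this, (hg i j).2.2.trans_le this⟩
  obtain ⟨n, hn⟩ := hΩ.elim_directed_cover (fun n : ℕ => Box l₁ l₂ n) (fun n => isOpen_Box _)
    (fun g _ => by
      obtain ⟨a, ha⟩ := exists_Bd (g.1 : Matrix (Fin 2) (Fin 2) ℚ_[l₁])
      obtain ⟨b, hb⟩ := exists_Bd (g.2.1 : Matrix (Fin 2) (Fin 2) ℚ_[l₂])
      obtain ⟨c, hc⟩ := exists_Bd (g.2.2 : Matrix (Fin 2) (Fin 2) ℝ)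
      obtain ⟨n, hn⟩ := exists_nat_gt (max a (max b c))
      simp only [max_lt_iff] at hn
      exact mem_iUnion.2 ⟨n, fun i j => ⟨(ha i j).trans_lt hn.1, (hb i j).trans_lt hn.2.1,
        (hc i j).trans_lt hn.2.2⟩⟩) hm.directed_le
  exact ⟨n, hn⟩

theorem excl_link [PolishSpace (XX l₁ l₂)] (hw : k.Root w) (h₁ : Good k r₁) (h₂ : Good k r₂)
    {B : Matrix (Fin 2) (Fin 2) ℚ} (hB : B.det ≠ 0) {Ω : Set (GG l₁ l₂)} (hΩ : IsCompact Ω) :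
    ∃ (Nn : ℕ) (R : ℝ), 0 < Nn ∧ ∀ m : ℕ, ∃ U : Set (XX l₁ l₂ × XX l₁ l₂), IsOpen U ∧
      (sp l₁ l₂).Gr B Ω ⊆ U ∧ ∀ L₁ L₂ c₁ c₂, k.Lat L₁ c₁ → k.Lat L₂ c₂ → k.Nrm l₁ L₁ →
        k.Nrm l₂ L₁ → k.Nrm l₁ L₂ → k.Nrm l₂ L₂ → ∀ m₁ ∈ MM l₁ l₂,
        (m₁ • pt k w r₁ r₂ L₁, m₁ • pt k w r₁ r₂ L₂) ∈ U →
        (∀ α : k.K, α ≠ 0 → α • L₁ ≤ L₂ → (Nn : ℝ) * c₂ < k.N α * c₁) →
        k.Ev l₁ r₁ Nn R m c₁ c₂ L₁ L₂ := by
  have p₁ : l₁.Prime := Fact.out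
  have p₂ : l₂.Prime := Fact.out
  obtain ⟨R, hR⟩ := exists_Box hΩ
  obtain ⟨a₀, ha₀, hint⟩ := exists_den B
  obtain ⟨b₁, hb₁⟩ := exists_Bd (B.map fun a : ℚ => (a : ℚ_[l₁]))
  obtain ⟨b₂, hb₂⟩ := exists_Bd (B.map fun a : ℚ => (a : ℚ_[l₂]))
  obtain ⟨b₃, hb₃⟩ := exists_Bd (B.map fun a : ℚ => (a : ℝ))
  obtain ⟨e₁, he₁⟩ := small_mul l₁ (2 * (2 * 1 * (2 * (2 * R * b₁) * R)) * 1)
  obtain ⟨e₂, he₂⟩ := small_mul l₂ (2 * (2 * 1 * (2 * (2 * R * b₂) * R)) * 1)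
  set a : ℕ := l₁ ^ e₁ * (l₂ ^ e₂ * a₀) with ha
  have ha0 : 0 < a := Nat.mul_pos (pow_pos p₁.pos _) (Nat.mul_pos (pow_pos p₂.pos _) ha₀)
  obtain ⟨z, hz⟩ : ∃ z : ℤ, (z : ℚ) = (a : ℚ) ^ 2 * B.det := by
    obtain ⟨z1, h1⟩ := hint 0 0
    obtain ⟨z2, h2⟩ := hint 0 1
    obtain ⟨z3, h3⟩ := hint 1 0
    obtain ⟨z4, h4⟩ := hint 1 1
    refine ⟨(l₁ ^ e₁ * l₂ ^ e₂) ^ 2 * (z1 * z4 - z2 * z3), ?_⟩
    rw [ha, Matrix.det_fin_two]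
    push_cast
    rw [h1, h2, h3, h4]
    ring
  have hz0 : z ≠ 0 := by
    rintro rfl
    have : (a : ℚ) ≠ 0 := by exact_mod_cast ha0.ne'
    exact mul_ne_zero (pow_ne_zero 2 this) hB (by rw [← hz]; simp)
  refine ⟨z.natAbs, 2 * (a * (2 * (2 * R * b₃) * R)) ^ 2, Int.natAbs_pos.2 hz0, fun m => ?_⟩
  let A : GG l₁ l₂ × GG l₁ l₂ → Matrix (Fin 2) (Fin 2) ℚ_[l₁] := fun g =>
    (g.2.1 : Matrix (Fin 2) (Fin 2) ℚ_[l₁]) * B.map (fun a : ℚ => (a : ℚ_[l₁])) *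
      (g.1.1⁻¹ : HH l₁)
  have hv : Continuous fun g : HH l₁ => (g : Matrix (Fin 2) (Fin 2) ℚ_[l₁]) :=
    continuous_subtype_val
  have hA : Continuous A :=
    ((hv.comp (continuous_fst.comp continuous_snd)).matrix_mul continuous_const).matrix_mul
      (hv.comp (continuous_fst.comp continuous_fst).inv)
  let V : Set (GG l₁ l₂ × GG l₁ l₂) := (Box l₁ l₂ R ×ˢ Box l₁ l₂ R) ∩
    ({g | ‖A g 0 1‖ < ((l₁ : ℝ) ^ m)⁻¹} ∩ {g | ‖A g 1 0‖ < ((l₁ : ℝ) ^ m)⁻¹})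
  have hV : IsOpen V := ((isOpen_Box R).prod (isOpen_Box R)).inter
    ((isOpen_lt (hA.matrix_elem 0 1).norm continuous_const).inter
      (isOpen_lt (hA.matrix_elem 1 0).norm continuous_const))
  have hpos : (0 : ℝ) < ((l₁ : ℝ) ^ m)⁻¹ := by
    have : (0 : ℝ) < l₁ := by exact_mod_cast p₁.pos
    positivity
  refine ⟨Prod.map QuotientGroup.mk QuotientGroup.mk '' V,
    (QuotientGroup.isOpenMap_coe.prodMap QuotientGroup.isOpenMap_coe) V hV, ?_, ?_⟩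
  · rintro _ ⟨g₁, hg₁, g₂, hg₂, rfl, d₁, d₂, hd⟩
    have hAe : A (g₁, g₂) = !![d₁, 0; 0, d₂] := by
      have hd' : (g₂.1 : Matrix (Fin 2) (Fin 2) ℚ_[l₁]) * B.map (fun a : ℚ => (a : ℚ_[l₁])) =
        !![d₁, 0; 0, d₂] * (g₁.1 : Matrix (Fin 2) (Fin 2) ℚ_[l₁]) := hd
      simp only [A]
      rw [hd', Matrix.mul_assoc, ← Matrix.SpecialLinearGroup.coe_mul, mul_inv_cancel]
      simp
    refine ⟨(g₁, g₂), ⟨⟨hR hg₁, hR hg₂⟩, ?_, ?_⟩, ?_⟩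
    · change ‖A (g₁, g₂) 0 1‖ < _
      simpa [hAe] using hpos
    · change ‖A (g₁, g₂) 1 0‖ < _
      simpa [hAe] using hpos
    · change ((QuotientGroup.mk g₁, QuotientGroup.mk g₂) : XX l₁ l₂ × XX l₁ l₂) =
        (QuotientGroup.mk (g₁ * 1), QuotientGroup.mk (g₂ * 1))
      rw [mul_one, mul_one]
      rfl
  rintro L₁ L₂ c₁ c₂ hL₁ hL₂ n₁ n₂ n₁' n₂' m₁ hm ⟨⟨g₁, g₂⟩, ⟨⟨hg₁, hg₂⟩, s₁, s₂⟩, e⟩ hs
  obtain ⟨x, y, o⟩ := exists_OB' k hw hL₁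
  obtain ⟨x', y', o'⟩ := exists_OB' k hw hL₂
  rw [pt_eq k h₁.root h₂.root o, pt_eq k h₁.root h₂.root o',
    MulAction.Quotient.smul_mk, MulAction.Quotient.smul_mk, smul_eq_mul, smul_eq_mul] at e
  obtain ⟨γ₁, hγ₁⟩ := QuotientGroup.eq.1 (congrArg Prod.fst e)
  obtain ⟨γ₂, hγ₂⟩ := QuotientGroup.eq.1 (congrArg Prod.snd e)
  rw [eq_inv_mul_iff_mul_eq, MonoidHom.comp_apply] at hγ₁ hγ₂
  have K₁ := (Proj.mem_KK l₁ l₂).1 (mul_mem (MM_KK hm) (fr_K k h₁ h₂ o n₁ n₂))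
  have K₂ := (Proj.mem_KK l₁ l₂).1 (mul_mem (MM_KK hm) (fr_K k h₁ h₂ o' n₁' n₂'))
  set δ₁ := Matrix.SpecialLinearGroup.map (RM (l₁ * l₂)).subtype γ₁ with hδ₁
  set δ₂ := Matrix.SpecialLinearGroup.map (RM (l₁ * l₂)).subtype γ₂ with hδ₂
  set B' := ((δ₂⁻¹ : SL(2, ℚ)) : Matrix (Fin 2) (Fin 2) ℚ) * B * δ₁ with hB'
  have q₁ := place g₁.1 g₂.1 δ₁ δ₂ B
  have q₂ := place g₁.2.1 g₂.2.1 δ₁ δ₂ B
  have q₃ := place g₁.2.2 g₂.2.2 δ₁ δ₂ B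
  rw [← hB'] at q₁ q₂ q₃
  have t₁ : g₁.1 * _ = (m₁ * fr k w r₁ r₂ x y).1 := congrArg (fun g : GG l₁ l₂ => g.1) hγ₁
  have t₂ : g₁.2.1 * _ = (m₁ * fr k w r₁ r₂ x y).2.1 := congrArg (fun g : GG l₁ l₂ => g.2.1) hγ₁
  have t₃ : g₁.2.2 * _ = (m₁ * fr k w r₁ r₂ x y).2.2 := congrArg (fun g : GG l₁ l₂ => g.2.2) hγ₁
  have u₁ : g₂.1 * _ = (m₁ * fr k w r₁ r₂ x' y').1 := congrArg (fun g : GG l₁ l₂ => g.1) hγ₂
  have u₂ : g₂.2.1 * _ = (m₁ * fr k w r₁ r₂ x' y').2.1 := congrArg (fun g : GG l₁ l₂ => g.2.1) hγ₂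
  have u₃ : g₂.2.2 * _ = (m₁ * fr k w r₁ r₂ x' y').2.2 := congrArg (fun g : GG l₁ l₂ => g.2.2) hγ₂
  erw [t₁, u₁] at q₁
  erw [t₂, u₂] at q₂
  erw [t₃, u₃] at q₃
  have bd : ∀ {F : Type} [NormedField F] {f₁ f₂ : SL(2, F)} {X G : Matrix (Fin 2) (Fin 2) F}
      {C : ℝ}, (f₂ : Matrix (Fin 2) (Fin 2) F) * X = G * f₁ → Bd G C →
      Bd (f₁ : Matrix (Fin 2) (Fin 2) F) 1 → Bd (f₂ : Matrix (Fin 2) (Fin 2) F) 1 →
      Bd X (2 * (2 * 1 * C) * 1) := by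
    intro F _ f₁ f₂ X G C h hG b₁ b₂
    have : X = ((f₂⁻¹ : SL(2, F)) : Matrix (Fin 2) (Fin 2) F) * G * f₁ := by
      rw [Matrix.mul_assoc, ← h, ← Matrix.mul_assoc, ← Matrix.SpecialLinearGroup.coe_mul,
        inv_mul_cancel]
      simp
    rw [this]
    exact (b₂.inv.mul hG).mul b₁
  have v₁ := bd q₁ ((Bd.mul (fun i j => (hg₂ i j).1.le) hb₁).mul
    (Bd.inv fun i j => (hg₁ i j).1.le)) K₁.1 K₂.1
  have v₂ := bd q₂ ((Bd.mul (fun i j => (hg₂ i j).2.1.le) hb₂).mul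
    (Bd.inv fun i j => (hg₁ i j).2.1.le)) K₁.2 K₂.2
  have v₃ := (Bd.mul (A := (g₂.2.2 : Matrix (Fin 2) (Fin 2) ℝ)) (fun i j => (hg₂ i j).2.2.le)
    hb₃).mul (Bd.inv (g := g₁.2.2) fun i j => (hg₁ i j).2.2.le)
  have hint' : ∀ i j, ∃ z : ℤ, (z : ℚ) = ((a : ℚ) • B') i j := by
    intro i j
    refine Disc.exists_int (p := l₁) (q := l₂) ?_ ?_ ?_
    · have : (a : ℚ) • B' = ((δ₂⁻¹ : SL(2, ℚ)) : Matrix (Fin 2) (Fin 2) ℚ) * ((a : ℚ) • B) * δ₁ := by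
        rw [hB', Matrix.mul_smul, Matrix.smul_mul]
      rw [this]
      refine RM_mul (RM_mul (fun i j => ?_) fun i j => ?_) (fun i j => ?_) i j
      · rw [hδ₂, ← map_inv]
        exact (γ₂⁻¹ i j).2
      · obtain ⟨z, hz⟩ := hint i j
        have : ((a : ℚ) • B) i j = ((l₁ ^ e₁ * l₂ ^ e₂ * z : ℤ) : ℚ) := by
          rw [ha, Matrix.smul_apply, smul_eq_mul]
          push_cast
          rw [hz]
          ring
        rw [this]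
        exact intCast_mem _ _
      · exact (γ₁ i j).2
    · have := he₁ e₁ le_rfl (l₂ ^ e₂ * a₀) _ (v₁ i j)
      simpa [ha] using this
    · have := he₂ e₂ le_rfl (l₁ ^ e₁ * a₀) _ (v₂ i j)
      rw [show l₂ ^ e₂ * (l₁ ^ e₁ * a₀) = a by rw [ha]; ring] at this
      simpa using this
  have sm : ∀ {F : Type} [Field F] [CharZero F] {f₁ f₂ G : Matrix (Fin 2) (Fin 2) F},
      f₂ * B'.map (fun a : ℚ => (a : F)) = G * f₁ →
      f₂ * ((a : ℚ) • B').map (fun a : ℚ => (a : F)) = ((a : F) • G) * f₁ := by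
    intro F _ _ f₁ f₂ G h
    have : ((a : ℚ) • B').map (fun a : ℚ => (a : F)) = (a : F) • B'.map (fun a : ℚ => (a : F)) := by
      ext i j
      simp
    rw [this, Matrix.mul_smul, h, Matrix.smul_mul]
  obtain ⟨α, β, a1, a2, a3, a4, a5⟩ := rel k hw h₁ o o' n₁ n₁' hint' hm hm (sm q₁) (sm q₃)
  have hdet : |((a : ℚ) • B').det| = z.natAbs := by
    rw [Matrix.det_smul, hB', Matrix.det_mul, Matrix.det_mul, Matrix.SpecialLinearGroup.det_coe,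
      Matrix.SpecialLinearGroup.det_coe, one_mul, mul_one, Fintype.card_fin, ← hz,
      Nat.cast_natAbs, Int.cast_abs]
  rw [hdet] at a2
  have a2' : |k.N α - k.N β| * c₁ = (z.natAbs : ℕ) * c₂ := by
    unfold Fld.N
    exact_mod_cast a2
  have c₁0 : (0 : ℝ) < c₁ := by exact_mod_cast o.pos
  have c₂0 : (0 : ℝ) < c₂ := by exact_mod_cast o'.pos
  have hf : fro ((a : ℝ) • ((g₂.2.2 : Matrix (Fin 2) (Fin 2) ℝ) * B.map (fun a : ℚ => (a : ℝ)) *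
      (g₁.2.2⁻¹ : SL(2, ℝ)))) ≤ 4 * (a * (2 * (2 * R * b₃) * R)) ^ 2 := by
    have := fun i j => sq_le_sq' (abs_le.1 (v₃ i j)).1 (abs_le.1 (v₃ i j)).2
    have b1 := mul_le_mul_of_nonneg_left (this 0 0) (sq_nonneg (a : ℝ))
    have b2 := mul_le_mul_of_nonneg_left (this 0 1) (sq_nonneg (a : ℝ))
    have b3 := mul_le_mul_of_nonneg_left (this 1 0) (sq_nonneg (a : ℝ))
    have b4 := mul_le_mul_of_nonneg_left (this 1 1) (sq_nonneg (a : ℝ))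
    simp only [fro, Matrix.smul_apply, smul_eq_mul, mul_pow (a : ℝ)]
    linarith
  have hf' := mul_le_mul_of_nonneg_right hf c₂0.le
  have nα := mul_nonneg (N_nonneg k α) c₁0.le
  have nβ := mul_nonneg (N_nonneg k β) c₁0.le
  have na : ‖(a : ℚ_[l₁])‖ ≤ 1 := by simpa using Padic.norm_int_le_one (p := l₁) a
  refine ⟨α, β, a1, a2', by linarith, by linarith, ?_, ?_, ?_⟩
  · rintro rfl
    have hN0 : k.N 0 = 0 := by simp [Fld.N]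
    rw [hN0, sub_zero, abs_of_nonneg (N_nonneg k α)] at a2'
    have hα : α ≠ 0 := by
      rintro rfl
      rw [hN0, zero_mul] at a2'
      have : (0 : ℝ) < (z.natAbs : ℕ) := by exact_mod_cast Int.natAbs_pos.2 hz0
      exact (mul_pos this c₂0).ne a2'
    refine (hs α hα ?_).ne a2'.symm
    rintro _ ⟨v, hv, rfl⟩
    exact a1 ⟨v, hv, lin_zero k α v⟩
  · rw [a4, Matrix.smul_apply, smul_eq_mul, norm_mul]
    exact (mul_le_of_le_one_left (norm_nonneg _) na).trans (le_of_lt s₁)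
  · rw [a5, Matrix.smul_apply, smul_eq_mul, norm_mul]
    exact (mul_le_of_le_one_left (norm_nonneg _) na).trans (le_of_lt s₂)

end Pool.Agent.Lib.MP_9177b7_ag.J.Dyn
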