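import Pool.Agent.Lib.MP_9177b7_ag.J.DynF
import Pool.Agent.Lib.MP_9177b7_ag.J.DefsM
import Pool.Agent.Lib.MP_9177b7_ag.J.Join

/-!
Limits of the marginals are invariant.
-/

open MeasureTheory Filter Topology Set Pointwise Matrix
open scoped MatrixGroups ENNReal BoundedContinuousFunction

noncomputable section

namespace Pool.Agent.Lib.MP_9177b7_ag.J.Dyn

open Fld

theorem num {T : ℕ} (hT : 1 < T) (C : ℝ) {ε : ℝ} (hε : 0 < ε) (k₀ : ℕ) :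
    ∃ f₀ : ℕ, ∀ f : ℕ, f₀ ≤ f → ∃ j : ℕ, k₀ ≤ j ∧
      C * (f : ℝ) ^ (ε / 2) * (((T : ℝ) ^ j)⁻¹ + (f : ℝ)⁻¹) ≤ (T : ℝ) ^ (-((1 - ε) * j) : ℝ) := by
  have hT' : (1 : ℝ) < T := by exact_mod_cast hT
  have hT0 : (0 : ℝ) < T := by linarith
  set q : ℝ := (T : ℝ) ^ (ε / 2) with hq
  have hq1 : 1 < q := Real.one_lt_rpow hT' (by linarith)
  obtain ⟨j₀, hj₀⟩ := pow_unbounded_of_one_lt (2 * |C| * q) hq1
  refine ⟨T ^ max k₀ j₀, fun f hf => ?_⟩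
  have hf0 : f ≠ 0 := (lt_of_lt_of_le (pow_pos (by omega) _) hf).ne'
  have hj : max k₀ j₀ ≤ Nat.log T f := Nat.le_log_of_pow_le hT hf
  set j := Nat.log T f
  have h1 : ((T : ℝ) ^ j) ≤ f := by exact_mod_cast Nat.pow_log_le_self T hf0
  have h2 : (f : ℝ) ≤ (T : ℝ) ^ (j + 1) := by exact_mod_cast (Nat.lt_pow_succ_log_self hT f).le
  refine ⟨j, (le_max_left _ _).trans hj, ?_⟩
  have h3 : (f : ℝ) ^ (ε / 2) ≤ q ^ (j + 1) := by
    rw [hq, ← Real.rpow_natCast, ← Real.rpow_mul hT0.le, mul_comm, Real.rpow_mul hT0.le,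
      Real.rpow_natCast]
    exact Real.rpow_le_rpow (by positivity) h2 (by linarith)
  have h4 : (T : ℝ) ^ (-((1 - ε) * j) : ℝ) = q ^ j * q ^ j * ((T : ℝ) ^ j)⁻¹ := by
    rw [hq, ← Real.rpow_natCast, ← Real.rpow_natCast, ← Real.rpow_mul hT0.le,
      ← Real.rpow_neg hT0.le, ← Real.rpow_add hT0, ← Real.rpow_add hT0]
    congr 1
    ring
  have h5 : (f : ℝ)⁻¹ ≤ ((T : ℝ) ^ j)⁻¹ := inv_anti₀ (by positivity) h1
  have h6 : 2 * |C| * q ≤ q ^ j :=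
    hj₀.le.trans (pow_le_pow_right₀ hq1.le ((le_max_right _ _).trans hj))
  rw [h4]
  calc _ ≤ |C| * q ^ (j + 1) * (((T : ℝ) ^ j)⁻¹ + ((T : ℝ) ^ j)⁻¹) := by
        gcongr
        exact le_abs_self C
    _ = (2 * |C| * q) * q ^ j * ((T : ℝ) ^ j)⁻¹ := by ring
    _ ≤ _ := by gcongr

/-- The stabiliser of a measure. -/
def stabM (G : Type) {Y : Type} [Group G] [TopologicalSpace Y] [MeasurableSpace Y] [BorelSpace Y]
    [MulAction G Y] [ContinuousConstSMul G Y] (μ : Measure Y) : Subgroup G where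
  carrier := {g | μ.map (g • ·) = μ}
  one_mem' := by simp
  mul_mem' {g h} hg hh := by
    have h1 : μ.map (g • ·) = μ := hg
    have h2 : μ.map (h • ·) = μ := hh
    change μ.map ((g * h) • ·) = μ
    conv_rhs => rw [← h1, ← h2]
    rw [Measure.map_map (continuous_const_smul g).measurable (continuous_const_smul h).measurable]
    simp only [mul_smul]
    rfl
  inv_mem' {g} hg := by
    have h1 : μ.map (g • ·) = μ := hg
    change μ.map (g⁻¹ • ·) = μ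
    conv_lhs => rw [← h1]
    rw [Measure.map_map (continuous_const_smul _).measurable (continuous_const_smul g).measurable]
    simp [Function.comp_def]

theorem lim_map {Y Y' : Type} [TopologicalSpace Y] [MeasurableSpace Y] [BorelSpace Y]
    [TopologicalSpace Y'] [PolishSpace Y'] [MeasurableSpace Y'] [BorelSpace Y']
    {νs : ℕ → ProbabilityMeasure Y} {ν : ProbabilityMeasure Y} (h : Tendsto νs atTop (𝓝 ν))
    {μs : ℕ → ProbabilityMeasure Y'} {μ : ProbabilityMeasure Y'} (h' : Tendsto μs atTop (𝓝 μ))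
    {f : Y → Y'} (hf : Continuous f) (e : ∀ n, (νs n : Measure Y).map f = μs n) :
    (ν : Measure Y).map f = μ := by
  have h1 := ProbabilityMeasure.tendsto_map_of_tendsto_of_continuous νs ν h hf
  have h2 : (fun n => (νs n).map hf.measurable.aemeasurable) = μs :=
    funext fun n => Subtype.ext (e n)
  rw [h2] at h1
  exact congrArg (fun x : ProbabilityMeasure Y' => (x : Measure Y')) (tendsto_nhds_unique h1 h')

variable (k : Fld)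

theorem cond_large (hB : BasicStmt) {L : ℕ → Submodule ℤ k.K} {c : ℕ → ℚ}
    (hL : ∀ n, k.Lat (L n) (c n)) (h : ∀ c : ℕ, 0 < c → ∀ᶠ n in atTop, ¬ k.Adm c (L n)) (f₀ : ℕ) :
    ∀ᶠ n in atTop, ∃ f, k.Cond (L n) f ∧ f₀ ≤ f := by
  filter_upwards [h f₀.factorial (Nat.factorial_pos _)] with n hn
  obtain ⟨f, hf, hc, -⟩ := (hB k).2.2.2.2.2.2.1 _ _ (hL n)
  refine ⟨f, hc, ?_⟩
  by_contra hlt
  exact hn ((hc _).2 (Nat.dvd_factorial hf (not_le.1 hlt).le))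

variable {l₁ l₂ : ℕ} [Fact l₁.Prime] [Fact l₂.Prime] {w : ℂ} {r₁ : ℚ_[l₁]} {r₂ : ℚ_[l₂]}

/-- Admissible data. -/
structure Dat (l₁ l₂ : ℕ) (F : ℕ+) (L : Submodule ℤ k.K) (c : ℚ) : Prop where
  f₁ : ¬ l₁ ∣ F
  f₂ : ¬ l₂ ∣ F
  lat : k.Lat L c
  adm : k.Adm F L
  n₁ : k.Nrm l₁ L
  n₂ : k.Nrm l₂ L

theorem Dat.act (hB : BasicStmt) {F : ℕ+} {L : Submodule ℤ k.K} {c : ℚ} (h : Dat k l₁ l₂ F L c)
    (s : k.SF F) : Dat k l₁ l₂ F (act s L) c :=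
  have := ((hB k).2.2.2.2.2.2.2.1 F L c h.lat h.adm).2 s
  ⟨h.f₁, h.f₂, this.1, this.2.1, this.2.2.2.2.1 l₁ Fact.out h.f₁ h.n₁,
    this.2.2.2.2.1 l₂ Fact.out h.f₂ h.n₂⟩

variable (w r₁ r₂) in
/-- The measure attached to one orbit. -/
def mu (F : ℕ+) (L : Submodule ℤ k.K) [PolishSpace (XX l₁ l₂)] : ProbabilityMeasure (XX l₁ l₂) :=
  ⟨mix l₁ l₂ k F fun s => pt k w r₁ r₂ (act s L), inferInstance⟩

theorem col_bound [PolishSpace (XX l₁ l₂)] (hB : BasicStmt) (hC : CollStmt) (hw : k.Root w)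
    (h₁ : Good k r₁) (h₂ : Good k r₂) (d₁ : ¬ (l₁ : ℤ) ∣ k.D) {F : ℕ → ℕ+}
    {L : ℕ → Submodule ℤ k.K} {c : ℕ → ℚ} (hD : ∀ n, Dat k l₁ l₂ (F n) (L n) (c n))
    (h : ∀ c : ℕ, 0 < c → ∀ᶠ n in atTop, ¬ k.Adm c (L n)) {e : ℕ} (he : 0 < e) {τ : ℝ}
    (hτ : τ = (l₁ : ℝ) ^ e) (b : Bool) (A : ℝ → Set (XX l₁ l₂ × XX l₁ l₂))
    (hA : ∀ ρ, ∀ p ∈ A ρ, ∃ g ∈ Proj.KK l₁ l₂, (∀ i j, |g.2.2 i j| ≤ 2) ∧ p.2 = g • p.1 ∧
      (if b then ‖g.1 0 1‖ else ‖g.1 1 0‖) ≤ ρ) (ε : ℝ) (hε : 0 < ε) (k₀ : ℕ) :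
    ∀ᶠ n in atTop, ∃ j : ℕ, k₀ ≤ j ∧
      ((mu k w r₁ r₂ (F n) (L n) : Measure (XX l₁ l₂)).prod (mu k w r₁ r₂ (F n) (L n)))
        (A ((τ ^ (2 * j))⁻¹)) ≤ ENNReal.ofReal (τ ^ (-(2 * (1 - ε) * j) : ℝ)) := by
  have p₁ : l₁.Prime := Fact.out
  let r : ℚ_[l₁] := if b then r₁ else (k.t : ℚ_[l₁]) - r₁
  have hr : k.Root r := by
    cases b
    · exact root_conj k h₁.root
    · exact h₁.root
  obtain ⟨C, hC'⟩ := hC k l₁ r hr d₁ 8 (ε / 2) (by linarith)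
  have hT : 1 < l₁ ^ (e * 2) := Nat.one_lt_pow (by omega) p₁.one_lt
  obtain ⟨f₀, hf₀⟩ := num hT C hε k₀
  filter_upwards [cond_large k hB (fun n => (hD n).lat) h f₀] with n ⟨f, hf, hff⟩
  obtain ⟨j, hj, hle⟩ := hf₀ f hff
  refine ⟨j, hj, ?_⟩
  have h1 := hC' (F n) (L n) (c n) f (e * 2 * j) (hD n).f₁ (hD n).lat (hD n).adm (hD n).n₁ hf
  have e1 : τ ^ (2 * j) = (l₁ : ℝ) ^ (e * 2 * j) := by rw [hτ, ← pow_mul, mul_assoc]
  have e2 : τ ^ (-(2 * (1 - ε) * j) : ℝ) = ((l₁ ^ (e * 2) : ℕ) : ℝ) ^ (-((1 - ε) * j) : ℝ) := by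
    rw [hτ]
    push_cast
    rw [← Real.rpow_natCast, ← Real.rpow_natCast, ← Real.rpow_mul (by positivity),
      ← Real.rpow_mul (by positivity)]
    congr 1
    push_cast
    ring
  rw [e1, e2]
  refine (mix_prod_le k (F n) _ _ _ ?_).trans (ENNReal.ofReal_le_ofReal (h1.trans ?_))
  · intro s s' m hm m' hm' hp
    obtain ⟨g, hg, hg', e, hρ⟩ := hA _ _ hp
    have D := (hD n).act k hB s
    have D' := (hD n).act k hB s'
    obtain ⟨α, β, a1, a2, a3, a4, a5⟩ := col_link k hB hw h₁ h₂ D.lat D'.lat D.n₁ D.n₂ D'.n₁ D'.n₂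
      hm hm' hg hg' e
    refine ⟨α, β, a1, a2, a3, ?_⟩
    cases b
    · exact a5.trans_le hρ
    · exact a4.trans_le hρ
  · rwa [show ((l₁ ^ (e * 2) : ℕ) : ℝ) ^ j = (l₁ : ℝ) ^ (e * 2 * j) by
      push_cast; rw [← pow_mul]] at hle

theorem marg_lim [PolishSpace (XX l₁ l₂)] (hB : BasicStmt) (hC : CollStmt) (hM : Marg2Stmt)
    (hw : k.Root w) (h₁ : Good k r₁) (h₂ : Good k r₂) (d₁ : ¬ (l₁ : ℤ) ∣ k.D) {F : ℕ → ℕ+}
    {L : ℕ → Submodule ℤ k.K} {c : ℕ → ℚ} (hD : ∀ n, Dat k l₁ l₂ (F n) (L n) (c n))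
    (h : ∀ c : ℕ, 0 < c → ∀ᶠ n in atTop, ¬ k.Adm c (L n)) {e : ℕ} (he : 0 < e) {t : ℚ_[l₁]ˣ}
    (ht : ‖(t : ℚ_[l₁])‖ = (l₁ : ℝ) ^ e)
    (hi : ∀ n, (mu k w r₁ r₂ (F n) (L n) : Measure (XX l₁ l₂)).map
      (((dg t, 1) : GG l₁ l₂) • ·) = mu k w r₁ r₂ (F n) (L n))
    {μ : ProbabilityMeasure (XX l₁ l₂)}
    (hμ : Tendsto (fun n => mu k w r₁ r₂ (F n) (L n)) atTop (𝓝 μ)) (g : HH l₁) :
    (μ : Measure (XX l₁ l₂)).map (((g, 1) : GG l₁ l₂) • ·) = μ := by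
  have p₁ : l₁.Prime := Fact.out
  have ht1 : 1 < ‖(t : ℚ_[l₁])‖ := by
    rw [ht]
    exact one_lt_pow₀ (by exact_mod_cast p₁.one_lt) he.ne'
  let Ω : Set (CC l₂) := Kint l₂ ×ˢ {c | ∀ i j, |c i j| < 2}
  have hΩ : Ω ∈ 𝓝 (1 : CC l₂) := by
    refine IsOpen.mem_nhds ((Disc.isOpen_Kint l₂).prod ?_) ⟨Disc.one_mem_Kint l₂, fun i j => ?_⟩
    · simp only [Set.ofPred_forall]
      exact isOpen_iInter_of_finite fun i => isOpen_iInter_of_finite fun j =>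
        isOpen_lt (Disc.continuous_entry i j).abs continuous_const
    · fin_cases i <;> fin_cases j <;> simp
  have hu := hM l₁ (sp l₁ l₂) t _ μ Ω ht1 hμ hi hΩ
    (col_bound k hB hC hw h₁ h₂ d₁ hD h he ht true ((sp l₁ l₂).Col Ω) (by
      rintro ρ p ⟨g, g1, g2, g3, g4⟩
      exact ⟨g, (Proj.mem_KK l₁ l₂).2 ⟨g1, g3.1⟩, fun i j => (g3.2 i j).le, g4, g2⟩))
  have tw_hs : ∀ g : HH l₁, (Join.tw (sp l₁ l₂)).hs g =
      fun x : XX l₁ l₂ => ((Join.wl l₁ * g * (Join.wl l₁)⁻¹, 1) : GG l₁ l₂) • x := by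
    intro g
    refine funext fun x : XX l₁ l₂ => ?_
    have e1 : Join.cj (sp l₁ l₂) (g, 1) = ((Join.wl l₁ * g * (Join.wl l₁)⁻¹, 1) : GG l₁ l₂) := by
      rw [Join.cj_apply]
      exact Prod.ext rfl (by simp; rfl)
    rw [← e1]
    rfl
  have hl := hM l₁ (Join.tw (sp l₁ l₂)) t _ μ Ω ht1 hμ (fun n => by
      rw [tw_hs, Join.wl_dg]
      have := (stabM (GG l₁ l₂) _).inv_mem (hi n)
      rw [Prod.inv_mk, inv_one] at this
      exact this) hΩ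
    (col_bound k hB hC hw h₁ h₂ d₁ hD h he ht false ((Join.tw (sp l₁ l₂)).Col Ω) (by
      rintro ρ p ⟨g, g1, g2, g3, g4⟩
      have hw : Join.wl l₁ ∈ Proj.Ks l₁ := by
        intro i j
        rw [Join.wl_coe]
        fin_cases i <;> fin_cases j <;> simp
      have e1 : Join.cj (sp l₁ l₂) g = ((Join.wl l₁ * g.1 * (Join.wl l₁)⁻¹, g.2) : GG l₁ l₂) := by
        rw [Join.cj_apply]
        exact Prod.ext rfl (by simp)
      refine ⟨(Join.wl l₁ * g.1 * (Join.wl l₁)⁻¹, g.2), (Proj.mem_KK l₁ l₂).2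
        ⟨mul_mem (mul_mem hw g1) (inv_mem hw), g3.1⟩, fun i j => (g3.2 i j).le, ?_, ?_⟩
      · rw [← e1]
        exact g4
      · refine le_trans (le_of_eq ?_) g2
        have w0 : ∀ i j, Join.wl l₁ i j = (!![0, 1; -1, 0] : Matrix (Fin 2) (Fin 2) ℚ_[l₁]) i j :=
          fun i j => congrFun (congrFun Join.wl_coe i) j
        simp [mul_entry, inv00, inv10, w0]))
  refine Disc.gen ((stabM (GG l₁ l₂) (μ : Measure (XX l₁ l₂))).comap (MonoidHom.inl _ _))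
    hu (fun s => ?_) g
  have := hl (-s)
  rw [tw_hs, Join.wl_up, neg_neg] at this
  exact this

end Pool.Agent.Lib.MP_9177b7_ag.J.Dyn
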