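import Pool.Agent.Lib.MP_9177b7_ag.J.DefsN

/-!
Limits of weighted measures.
-/

open MeasureTheory Filter Topology Set Pointwise
open scoped MatrixGroups ENNReal BoundedContinuousFunction

noncomputable section

namespace Pool.Agent.Lib.MP_9177b7_ag.J.DynN

/-- The space of weights. -/
abbrev II : Type := Set.Icc (-1 : ℝ) 1

theorem lim_inv {G Y : Type} [TopologicalSpace G] [PolishSpace G] [TopologicalSpace Y]
    [PolishSpace Y] [MeasurableSpace Y] [BorelSpace Y] {A : G × Y → Y} (hA : Continuous A)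
    {g : ℕ → G} {g₀ : G} (hg : Tendsto g atTop (𝓝 g₀)) {νs : ℕ → ProbabilityMeasure Y}
    {ν : ProbabilityMeasure Y} (hν : Tendsto νs atTop (𝓝 ν))
    (hi : ∀ᶠ n in atTop, (νs n : Measure Y).map (fun y => A (g n, y)) = νs n) :
    (ν : Measure Y).map (fun y => A (g₀, y)) = ν := by
  borelize G
  have key : ∀ (a : G) (ρ : ProbabilityMeasure Y),
      ((((diracProba a).prod ρ).map hA.measurable.aemeasurable : ProbabilityMeasure Y) :
        Measure Y) = (ρ : Measure Y).map (fun y => A (a, y)) := by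
    intro a ρ
    change ((Measure.dirac a).prod (ρ : Measure Y)).map A = _
    rw [Measure.dirac_prod, Measure.map_map hA.measurable measurable_prodMk_left]
    rfl
  have h1 : Tendsto (fun n => (diracProba (g n)).prod (νs n)) atTop (𝓝 ((diracProba g₀).prod ν)) :=
    (ProbabilityMeasure.continuous_prod.tendsto (diracProba g₀, ν)).comp
      (((continuous_diracProba.tendsto g₀).comp hg).prodMk_nhds hν)
  have h2 := ProbabilityMeasure.tendsto_map_of_tendsto_of_continuous _ _ h1 hA
  have h3 : Tendsto νs atTop (𝓝 (((diracProba g₀).prod ν).map hA.measurable.aemeasurable)) :=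
    h2.congr' (hi.mono fun n hn => Subtype.ext ((key _ _).trans hn))
  rw [← key, tendsto_nhds_unique h3 hν]

theorem indep {Y J P : Type} [MeasurableSpace Y] [MeasurableSpace J] {ν : Measure (Y × J)}
    [IsProbabilityMeasure ν] {π : Measure Y} (hπ : ν.map Prod.fst = π) {T : P → Y → Y}
    (hT : ∀ p, Measurable (T p)) (hE : ErgF π T) (hi : ∀ p, ν.map (Prod.map (T p) id) = ν) :
    ν = π.prod (ν.map Prod.snd) := by
  have : IsProbabilityMeasure π := hπ ▸ Measure.isProbabilityMeasure_map measurable_fst.aemeasurable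
  have : IsProbabilityMeasure (ν.map Prod.snd) :=
    Measure.isProbabilityMeasure_map measurable_snd.aemeasurable
  refine (Measure.prod_eq fun s t hs ht => ?_).symm
  have hm : MeasurableSet (Prod.snd ⁻¹' t : Set (Y × J)) := measurable_snd ht
  have h1 := hE ((ν.restrict (Prod.snd ⁻¹' t)).map Prod.fst)
    (hπ ▸ Measure.map_mono Measure.restrict_le_self measurable_fst) (fun p => by
      ext u hu
      rw [Measure.map_apply (hT p) hu, Measure.map_apply measurable_fst hu,
        Measure.map_apply measurable_fst (hT p hu), Measure.restrict_apply (measurable_fst hu),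
        Measure.restrict_apply (measurable_fst (hT p hu))]
      conv_rhs => rw [← hi p]
      rw [Measure.map_apply ((hT p).prodMap measurable_id) ((measurable_fst hu).inter hm)]
      rfl)
  have h2 := congrArg (fun m : Measure Y => m s) h1
  simp only [Measure.smul_apply, smul_eq_mul] at h2
  rw [Measure.map_apply measurable_fst hs, Measure.map_apply measurable_fst MeasurableSet.univ,
    Measure.restrict_apply (measurable_fst hs), preimage_univ, Measure.restrict_apply
    MeasurableSet.univ, univ_inter] at h2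
  rw [Measure.map_apply measurable_snd ht, mul_comm, ← h2]
  rfl

theorem exists_sub {Y : Type} [TopologicalSpace Y] [PolishSpace Y] [MeasurableSpace Y]
    [BorelSpace Y] (ν : ℕ → ProbabilityMeasure (Y × II))
    (ht : IsTightMeasureSet (range fun n => (ν n : Measure (Y × II)).map Prod.fst)) :
    ∃ (ν' : ProbabilityMeasure (Y × II)) (ms : ℕ → ℕ), StrictMono ms ∧
      Tendsto (fun n => ν (ms n)) atTop (𝓝 ν') := by
  have hK : IsCompact (closure (range ν)) := by
    refine isCompact_closure_of_isTightMeasureSet (IsTightMeasureSet.prodMk (ht.subset ?_) ?_)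
    · rintro _ ⟨_, ⟨_, ⟨n, rfl⟩, rfl⟩, rfl⟩
      exact ⟨n, rfl⟩
    · exact IsTightMeasureSet.of_compactSpace
  have := instMetrizableSpaceProbabilityMeasure (Y × II)
  obtain ⟨ν', -, ms, hms, hν⟩ := hK.tendsto_subseq (x := ν) fun n => subset_closure ⟨n, rfl⟩
  exact ⟨ν', ms, hms, hν⟩

theorem lim_zero {Y : Type} [TopologicalSpace Y] [PolishSpace Y] [MeasurableSpace Y]
    [BorelSpace Y] {ν : ℕ → ProbabilityMeasure (Y × II)} {ν' : ProbabilityMeasure (Y × II)}
    (hν : Tendsto ν atTop (𝓝 ν')) {π : Measure Y} [IsProbabilityMeasure π]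
    (h : (ν' : Measure (Y × II)) = π.prod ((ν' : Measure (Y × II)).map Prod.snd)) (f : Y →ᵇ ℝ)
    (hf : ∫ y, f y ∂π = 0) :
    Tendsto (fun n => ∫ z, (z.2 : ℝ) * f z.1 ∂(ν n : Measure (Y × II))) atTop (𝓝 0) := by
  let a : II →ᵇ ℝ := BoundedContinuousFunction.mkOfCompact ⟨Subtype.val, continuous_subtype_val⟩
  let ψ : Y × II →ᵇ ℝ := f.compContinuous ⟨Prod.fst, continuous_fst⟩ *
    a.compContinuous ⟨Prod.snd, continuous_snd⟩
  have h1 := ProbabilityMeasure.tendsto_iff_forall_integral_tendsto.1 hν ψ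
  have : IsProbabilityMeasure ((ν' : Measure (Y × II)).map Prod.snd) :=
    Measure.isProbabilityMeasure_map measurable_snd.aemeasurable
  have h2 : ∫ z, ψ z ∂(ν' : Measure (Y × II)) = 0 := by
    rw [h]
    change ∫ z : Y × II, f z.1 * a z.2 ∂_ = 0
    rw [integral_prod_mul, hf, zero_mul]
  rw [h2] at h1
  refine h1.congr fun n => integral_congr_ae (Eventually.of_forall fun z => ?_)
  exact mul_comm _ _

theorem map_inv {Q Z : Type} [MeasurableSpace Q] [MeasurableSpace Z] {κ : Measure Q} {g : Q → Q}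
    (hg : Measurable g) (hκ : κ.map g = κ) {Φ : Q → Z} (hΦ : Measurable Φ) {T : Z → Z}
    (hT : Measurable T) (h : ∀ q, Φ (g q) = T (Φ q)) : (κ.map Φ).map T = κ.map Φ := by
  conv_rhs => rw [← hκ]
  rw [Measure.map_map hT hΦ, Measure.map_map hΦ hg]
  congr 1
  exact funext fun q => (h q).symm

theorem pow_inv {Q : Type} [Group Q] [MeasurableSpace Q] [MeasurableMul Q] {κ : Measure Q} {g : Q}
    (hκ : κ.map (g * ·) = κ) (N : ℕ) : κ.map (g ^ N * ·) = κ := by
  induction N with
  | zero => simp
  | succ N ih =>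
    conv_rhs => rw [← hκ, ← ih]
    rw [Measure.map_map (measurable_const_mul _) (measurable_const_mul _)]
    congr 1
    funext q
    simp [pow_succ', mul_assoc]

theorem tight_pi {ι Y : Type} [Fintype ι] [TopologicalSpace Y] [PolishSpace Y] [MeasurableSpace Y]
    [BorelSpace Y] {ν : ℕ → Measure (ι → Y)}
    (h : ∀ i, IsTightMeasureSet (range fun n => (ν n).map (fun z => z i))) :
    IsTightMeasureSet (range ν) := by
  rw [isTightMeasureSet_iff_exists_isCompact_measure_compl_le]
  intro ε hε
  choose K hK hle using fun i => isTightMeasureSet_iff_exists_isCompact_measure_compl_le.1 (h i)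
    (ε / Fintype.card ι) (ENNReal.div_pos hε.ne' (ENNReal.natCast_ne_top _))
  refine ⟨Set.pi univ K, isCompact_univ_pi hK, ?_⟩
  rintro _ ⟨n, rfl⟩
  calc ν n (Set.pi univ K)ᶜ ≤ ν n (⋃ i, (fun z => z i) ⁻¹' (K i)ᶜ) := by
        refine measure_mono fun z hz => ?_
        simpa using hz
    _ ≤ ∑ i, ν n ((fun z => z i) ⁻¹' (K i)ᶜ) := measure_iUnion_fintype_le _ _
    _ ≤ ∑ _ : ι, ε / Fintype.card ι := Finset.sum_le_sum fun i _ => by
        have := hle i _ ⟨n, rfl⟩
        rwa [Measure.map_apply (measurable_pi_apply i) (hK i).isClosed.measurableSet.compl] at this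
    _ ≤ ε := by
        rw [Finset.sum_const, Finset.card_univ, nsmul_eq_mul]
        exact ENNReal.mul_div_le

theorem int_pi {ι Y : Type} [Fintype ι] [TopologicalSpace Y] [PolishSpace Y] [MeasurableSpace Y]
    [BorelSpace Y] (μ : Measure Y) [IsProbabilityMeasure μ] (ψ : ι → Y →ᵇ ℝ) :
    ∃ f : (ι → Y) →ᵇ ℝ, (∀ z, f z = ∏ i, ψ i (z i) - ∏ i, ∫ y, ψ i y ∂μ) ∧
      ∫ z, f z ∂(Measure.pi fun _ => μ) = 0 := by
  let g : (ι → Y) →ᵇ ℝ := ∏ i, (ψ i).compContinuous ⟨fun z => z i, continuous_apply i⟩
  have hg : ∀ z, g z = ∏ i, ψ i (z i) := fun z => by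
    simp [g, BoundedContinuousFunction.prod_apply]
  refine ⟨g - BoundedContinuousFunction.const _ (∏ i, ∫ y, ψ i y ∂μ), fun z => by simp [hg], ?_⟩
  simp only [BoundedContinuousFunction.sub_apply, BoundedContinuousFunction.const_apply]
  rw [integral_sub (g.integrable _) (integrable_const _)]
  simp [hg, integral_fintype_prod_eq_prod]

end Pool.Agent.Lib.MP_9177b7_ag.J.DynN
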