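import Pool.Agent.Lib.MP_9177b7_ag.J.DynN1
import Pool.Agent.Lib.MP_9177b7_ag.J.Basic
import Pool.Agent.Lib.MP_9177b7_ag.J.Group

/-!
Adapted frames.
-/

open MeasureTheory Filter Topology Set Pointwise Matrix
open scoped MatrixGroups ENNReal BoundedContinuousFunction

noncomputable section

namespace Pool.Agent.Lib.MP_9177b7_ag.J.DynN

open Fld Dyn

variable (k : Fld)

section padic

variable {l : ℕ} [Fact l.Prime] {r : ℚ_[l]}

theorem nsub {a b : ℚ_[l]} {ε : ℝ} (ha : ‖a‖ ≤ ε) (hb : ‖b‖ ≤ ε) : ‖a + b‖ ≤ ε :=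
  (IsUltrametricDist.norm_add_le_max _ _).trans (max_le ha hb)

theorem nmul {a b : ℚ_[l]} {ε : ℝ} (ha : ‖a‖ ≤ 1) (hb : ‖b‖ ≤ ε) : ‖a * b‖ ≤ ε := by
  rw [norm_mul]
  exact (mul_le_mul_of_nonneg_right ha (norm_nonneg _)).trans (by simpa using hb)

theorem io_zsmul (r : ℚ_[l]) (a : ℤ) (x : k.K) : k.io r (a • x) = (a : ℚ_[l]) * k.io r x := by
  rw [← zsmul_eq_mul]
  exact (k.ioL r).map_smul a x

/-- Integral elements whose two embeddings are related modulo `l ^ e`. -/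
def Cl (r τ : ℚ_[l]) (e : ℕ) : Submodule ℤ k.K where
  carrier := {z | ‖k.io r z‖ ≤ 1 ∧
    ‖k.io ((k.t : ℚ_[l]) - r) z - τ ^ 2 * k.io r z‖ ≤ ((l : ℝ) ^ e)⁻¹}
  add_mem' {x y} hx hy := ⟨by rw [io_add]; exact nsub hx.1 hy.1, by
    rw [io_add, io_add]
    convert nsub hx.2 hy.2 using 2
    ring⟩
  zero_mem' := by simp [io_zero]
  smul_mem' a x hx := ⟨by rw [io_zsmul]; exact nmul (Padic.norm_int_le_one a) hx.1, by
    rw [io_zsmul, io_zsmul]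
    convert nmul (Padic.norm_int_le_one (p := l) a) hx.2 using 2
    ring⟩

theorem inv_pow_le (l : ℕ) [Fact l.Prime] (e : ℕ) : ((l : ℝ) ^ e)⁻¹ ≤ 1 :=
  inv_le_one_of_one_le₀ (one_le_pow₀ (by exact_mod_cast (Fact.out : l.Prime).one_lt.le))

theorem norm_dvd {e F : ℕ} (h : l ^ e ∣ F) : ‖(F : ℚ_[l])‖ ≤ ((l : ℝ) ^ e)⁻¹ := by
  obtain ⟨u, rfl⟩ := h
  push_cast
  rw [mul_comm]
  refine nmul (by simpa using Padic.norm_int_le_one (p := l) u) ?_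
  simp

theorem mul_Cl (h : Good k r) {τ : ℚ_[l]} (hτ : ‖τ‖ = 1) {e F : ℕ} (hF : l ^ e ∣ F) {y : k.K}
    (hy : y ∈ k.O) : (F : k.K) * y ∈ Cl k r τ e := by
  have h1 := norm_dvd hF
  have h2 := io_O k h.le hy
  have h3 := io_O k (h.le' k) hy
  rw [natCast_mul]
  refine ⟨?_, ?_⟩
  · rw [io_qsmul, mul_comm]
    exact nmul h2 (by simpa using h1.trans (inv_pow_le l e))
  · rw [io_qsmul, io_qsmul, sub_eq_add_neg]
    refine nsub ?_ ?_
    · rw [mul_comm]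
      exact nmul h3 (by simpa using h1)
    · rw [norm_neg]
      refine nmul (by simp [hτ]) ?_
      rw [mul_comm]
      exact nmul h2 (by simpa using h1)

theorem dep_Cl (h : Good k r) {e : ℕ} {L : Submodule ℤ k.K} (hL : k.Dep l e L) :
    L ≤ Cl k r 1 e := by
  obtain ⟨u, hu, -, h2⟩ := hL
  have h1 : k.Ord (l ^ e) ≤ Cl k r 1 e := by
    rw [Fld.Ord, Submodule.span_le]
    rintro _ (rfl | rfl)
    · exact ⟨by simp [io_one], by simp [io_one]⟩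
    · exact mul_Cl k h (by simp) dvd_rfl (Excl.O_om)
  intro x hx
  obtain ⟨a, b⟩ := h1 (h2 x hx)
  rw [natCast_mul, io_qsmul, Rat.cast_natCast] at a b
  rw [io_qsmul, Rat.cast_natCast, mul_left_comm, ← mul_sub] at b
  rw [norm_mul, norm_nat hu, one_mul] at a b
  exact ⟨a, b⟩

theorem lift_O {F : ℕ+} (s : k.SF F) : lift s ∈ k.O :=
  (mem_O k).2 ⟨s.val.re.val, s.val.im.val, by simp [lift]⟩

theorem act_Cl (h : Good k r) {e : ℕ} {L : Submodule ℤ k.K} (hL : k.Dep l e L) {F : ℕ+}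
    (hF : l ^ e ∣ F) {τ : ℚ_[l]} (hτ : ‖τ‖ = 1) {s : k.SF F} (hs : Rl r τ s) :
    act s L ≤ Cl k r τ e := by
  have h1 : Submodule.span ℤ {lift s, ((F : ℕ) : k.K), ((F : ℕ) : k.K) * k.om} ≤ Cl k r τ e := by
    rw [Submodule.span_le]
    rintro _ (rfl | rfl | rfl)
    · exact ⟨io_O k h.le (lift_O k s), hs.trans (norm_dvd hF)⟩
    · simpa using mul_Cl k h hτ hF (Excl.O_one)
    · exact mul_Cl k h hτ hF (Excl.O_om)
  refine Submodule.mul_le.2 fun x hx v hv => ?_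
  obtain ⟨a, b⟩ := h1 hx
  obtain ⟨c, d⟩ := dep_Cl k h hL hv
  have d' : ‖k.io ((k.t : ℚ_[l]) - r) v‖ ≤ 1 := by
    have := nsub (d.trans (inv_pow_le l e)) c
    simpa using this
  refine ⟨by rw [io_mul k h.root]; exact nmul a c, ?_⟩
  rw [io_mul k h.root, io_mul k (root_conj k h.root)]
  convert nsub (nmul d' b) (nmul (nmul (a := τ ^ 2) (by simp [hτ]) a) d) using 2
  ring

theorem adp (h : Good k r) {e : ℕ} {x y : k.K} {m : HH l} (hm : DG m) (hτ : ‖m 0 0‖ = 1)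
    (hx : x ∈ Cl k r (m 0 0) e) (hy : y ∈ Cl k r (m 0 0) e) (hd : k.det2 x y ≠ 0)
    (hn : ‖(k.det2 x y : ℚ_[l])‖ = ((l : ℝ) ^ e)⁻¹) {a : ℚ_[l]}
    (ha : ‖((k.det2 x y : ℚ_[l]) * ((k.t : ℚ_[l]) - r - r))⁻¹ - a‖ ≤ 1) :
    up a * Join.wl l * m * toSL (mp k r x y) ∈ Kint l := by
  have hdet := det_entry m
  rw [hm.1, zero_mul, sub_zero] at hdet
  have h0 : m 0 0 ≠ 0 := left_ne_zero_of_mul_eq_one hdet
  have h11 : m 1 1 = (m 0 0)⁻¹ := eq_inv_of_mul_eq_one_right hdet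
  set Y := ((k.det2 x y : ℚ_[l]) * ((k.t : ℚ_[l]) - r - r))⁻¹ with hY
  have nY : ‖Y‖ = (l : ℝ) ^ e := by rw [hY, norm_inv, norm_mul, hn, h.dif, mul_one, inv_inv]
  have key : ∀ v ∈ Cl k r (m 0 0) e, ‖m 1 1 * (Y * k.io ((k.t : ℚ_[l]) - r) v) +
      -(a * m 0 0) * k.io r v‖ ≤ 1 := by
    intro v hv
    have e1 : m 1 1 * (Y * k.io ((k.t : ℚ_[l]) - r) v) + -(a * m 0 0) * k.io r v =
        (m 0 0)⁻¹ * (Y * (k.io ((k.t : ℚ_[l]) - r) v - m 0 0 ^ 2 * k.io r v)) +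
          (Y - a) * (m 0 0 * k.io r v) := by
      rw [h11]
      field_simp
      ring
    rw [e1]
    refine nsub (nmul (by simp [hτ]) ?_) (nmul ha (nmul hτ.le hv.1))
    rw [norm_mul, nY]
    have : (0 : ℝ) < (l : ℝ) ^ e := pow_pos (by exact_mod_cast (Fact.out : l.Prime).pos) e
    calc _ ≤ (l : ℝ) ^ e * ((l : ℝ) ^ e)⁻¹ := by gcongr; exact hv.2
      _ = 1 := mul_inv_cancel₀ this.ne'
  have em : (m : Matrix (Fin 2) (Fin 2) ℚ_[l]) = !![m 0 0, 0; 0, m 1 1] := by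
    ext i j
    fin_cases i <;> fin_cases j <;> simp [hm.1, hm.2]
  have ee : ((up a * Join.wl l * m * toSL (mp k r x y) : HH l) : Matrix (Fin 2) (Fin 2) ℚ_[l]) =
      !![m 1 1 * (Y * k.io ((k.t : ℚ_[l]) - r) x) + -(a * m 0 0) * k.io r x,
        m 1 1 * (Y * k.io ((k.t : ℚ_[l]) - r) y) + -(a * m 0 0) * k.io r y;
        -(m 0 0 * k.io r x), -(m 0 0 * k.io r y)] := by
    rw [Matrix.SpecialLinearGroup.coe_mul, Matrix.SpecialLinearGroup.coe_mul,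
      Matrix.SpecialLinearGroup.coe_mul, coe_toSL (det_mp k h.root hd), Join.wl_coe, Disc.up_coe,
      mp, ← hY]
    conv_lhs => rw [em]
    ext i j
    fin_cases i <;> fin_cases j <;> simp [PP, Matrix.mul_apply, Fin.sum_univ_two] <;> ring
  intro i j
  change ‖((up a * Join.wl l * m * toSL (mp k r x y) : HH l) : Matrix (Fin 2) (Fin 2) ℚ_[l]) i j‖ ≤ 1
  rw [ee]
  fin_cases i <;> fin_cases j
  · exact key x hx
  · exact key y hy
  · simpa using nmul hτ.le hx.1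
  · simpa using nmul hτ.le hy.1

theorem mp_smul (h : k.Root r) {x y : k.K} (hd : k.det2 x y ≠ 0) {q : ℚ} (t : ℚ_[l]ˣ)
    (ht : (t : ℚ_[l]) = q) : toSL (mp k r (q • x) (q • y)) = dg t * toSL (mp k r x y) := by
  have hq : (q : ℚ_[l]) ≠ 0 := ht ▸ t.ne_zero
  have hq' : q ≠ 0 := by exact_mod_cast hq
  have e : k.det2 (q • x) (q • y) = q ^ 2 * k.det2 x y := by
    simp only [Fld.det2, QuadraticAlgebra.re_smul, QuadraticAlgebra.im_smul, smul_eq_mul]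
    ring
  have h1 : (k.det2 x y : ℚ_[l]) ≠ 0 := by exact_mod_cast hd
  have h2 := root_ne k h
  apply Subtype.ext
  rw [Matrix.SpecialLinearGroup.coe_mul, coe_toSL (det_mp k h hd),
    coe_toSL (det_mp k h (e ▸ mul_ne_zero (pow_ne_zero 2 hq') hd)), Disc.dg_coe, mp, mp, e, ht]
  ext i j
  fin_cases i <;> fin_cases j <;> simp [PP, Matrix.mul_apply, Fin.sum_univ_two, io_qsmul] <;>
    field_simp

theorem mp_sg (h : k.Root r) {x y : k.K} (hd : k.det2 x y ≠ 0) {q : ℚ} (t : ℚ_[l]ˣ)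
    (ht : (t : ℚ_[l]) = q) : toSL (mp k r x (q • y)) = sg t (toSL (mp k r x y)) := by
  have hq : (q : ℚ_[l]) ≠ 0 := ht ▸ t.ne_zero
  have hq' : q ≠ 0 := by exact_mod_cast hq
  have e : k.det2 x (q • y) = q * k.det2 x y := by
    simp only [Fld.det2, QuadraticAlgebra.re_smul, QuadraticAlgebra.im_smul, smul_eq_mul]
    ring
  have h1 : (k.det2 x y : ℚ_[l]) ≠ 0 := by exact_mod_cast hd
  have h2 := root_ne k h
  apply Subtype.ext
  rw [coe_toSL (det_mp k h (e ▸ mul_ne_zero hq' hd))]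
  change _ = !![_, _; _, _]
  rw [coe_toSL (det_mp k h hd), mp, mp, e, ht]
  ext i j
  fin_cases i <;> fin_cases j <;> simp [PP, Matrix.mul_apply, Fin.sum_univ_two, io_qsmul] <;>
    field_simp

theorem ad_conj (a : ℚ_[l]) (τ : ℚ_[l]ˣ) : up a * Join.wl l * dg τ⁻¹ * (up a * Join.wl l)⁻¹ =
    up a * dg τ * up (-a) := by
  have h := Join.wl_dg (l := l) τ⁻¹
  have h2 : (dg τ⁻¹ : HH l)⁻¹ = dg τ := by
    ext i j
    fin_cases i <;> fin_cases j <;> simp [dg, inv00, inv01, inv10, inv11]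
  rw [h2] at h
  rw [← h, ← Group.up_inv]
  group

end padic

/-- The determinant of an oriented basis. -/
def dt (w : ℂ) (c : ℚ) : ℚ := if w.im < 0 then c else -c

theorem ob_dt {w : ℂ} {L : Submodule ℤ k.K} {c : ℚ} {x y : k.K} (h : OB k w L c x y) :
    k.det2 x y = dt w c := by
  have h2 := h.2.2
  rw [dt, ← h.2.1]
  split_ifs with h1
  · have : (0 : ℝ) < k.det2 x y := by nlinarith
    exact (abs_of_pos (by exact_mod_cast this)).symm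
  · have h3 : (k.det2 x y : ℝ) < 0 := by
      by_contra h4
      nlinarith [not_lt.1 h1, not_lt.1 h4]
    rw [abs_of_neg (by exact_mod_cast h3), neg_neg]

theorem norm_dt {l : ℕ} [Fact l.Prime] (w : ℂ) (c : ℚ) : ‖(dt w c : ℚ_[l])‖ = ‖(c : ℚ_[l])‖ := by
  unfold dt
  split_ifs <;> simp

/-- The slope of the adapted element. -/
def yy {l : ℕ} [Fact l.Prime] (w : ℂ) (r : ℚ_[l]) (c : ℚ) : ℚ_[l] :=
  ((dt w c : ℚ_[l]) * ((k.t : ℚ_[l]) - r - r))⁻¹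

variable {l₁ l₂ : ℕ} [Fact l₁.Prime] [Fact l₂.Prime] {w : ℂ} {r₁ : ℚ_[l₁]} {r₂ : ℚ_[l₂]}

/-- The adapted element. -/
def AA (a₁ : ℚ_[l₁]) (a₂ : ℚ_[l₂]) : GG l₁ l₂ := (up a₁ * Join.wl l₁, up a₂ * Join.wl l₂, 1)

/-- Lattices in local normal form. -/
structure Dd (l₁ l₂ : ℕ) (F : ℕ+) (L : Submodule ℤ k.K) (c : ℚ) (e₁ e₂ : ℕ) : Prop where
  lat : k.Lat L c
  adm : k.Adm F L
  dep₁ : k.Dep l₁ e₁ L
  dep₂ : k.Dep l₂ e₂ L

theorem act_lat {F : ℕ+} {L : Submodule ℤ k.K} {c : ℚ} (h : k.Lat L c) (h' : k.Adm F L)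
    (s : k.SF F) : k.Lat (act s L) c ∧ k.Adm F (act s L) :=
  have := ((basic k).2.2.2.2.2.2.2.1 F L c h h').2 s
  ⟨this.1, this.2.1⟩

theorem act_mul {F : ℕ+} {L : Submodule ℤ k.K} {c : ℚ} (h : k.Lat L c) (h' : k.Adm F L)
    (s s' : k.SF F) : act (s * s') L = act s (act s' L) :=
  (((basic k).2.2.2.2.2.2.2.1 F L c h h').2 s).2.2.2.2.2.1 s'

theorem adp1 (hL : LatStmt) {l : ℕ} [Fact l.Prime] {r : ℚ_[l]} (h : Good k r) {F : ℕ+}
    {L : Submodule ℤ k.K} {c : ℚ} {e : ℕ} (hl : k.Lat L c) (ha : k.Adm F L) (hd : k.Dep l e L)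
    {m : HH l} (hm : DG m) (hτ : ‖m 0 0‖ = 1) {s : k.SF F} (hs : Rl r (m 0 0) s) {x y : k.K}
    (o : OB k w (act s L) c x y) {a : ℚ_[l]} (hy : ‖yy k w r c - a‖ ≤ 1) :
    up a * Join.wl l * m * toSL (mp k r x y) ∈ Kint l := by
  have h1 := act_Cl k h hd ((hL k).2.2.1 l e F L Fact.out F.ne_zero hd ha).1 hτ hs
  obtain ⟨hx, hy'⟩ := OB_mem_aux k o.1
  refine adp k h hm hτ (h1 hx) (h1 hy') (det2_ne k o.2.2) ?_ ?_
  · rw [ob_dt k o, norm_dt]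
    exact (hL k).2.1 l e L c hl hd
  · rw [ob_dt k o]
    exact hy

theorem adp2 (hL : LatStmt) (h₁ : Good k r₁) (h₂ : Good k r₂) {F : ℕ+} {L : Submodule ℤ k.K}
    {c : ℚ} {e₁ e₂ : ℕ} (D : Dd k l₁ l₂ F L c e₁ e₂) {m : GG l₁ l₂} (hm : m ∈ MM l₁ l₂)
    {s : k.SF F} (hs : RR k r₁ r₂ m s) {x y : k.K} (o : OB k w (act s L) c x y) {a₁ : ℚ_[l₁]}
    {a₂ : ℚ_[l₂]} (y₁ : ‖yy k w r₁ c - a₁‖ ≤ 1) (y₂ : ‖yy k w r₂ c - a₂‖ ≤ 1) :
    AA a₁ a₂ * m * fr k w r₁ r₂ x y ∈ Proj.KK l₁ l₂ :=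
  (Proj.mem_KK l₁ l₂).2 ⟨adp1 k hL h₁ D.lat D.adm D.dep₁ hm.1.1 hm.2.1 hs.1 o y₁,
    adp1 k hL h₂ D.lat D.adm D.dep₂ hm.1.2.1 hm.2.2 hs.2 o y₂⟩

theorem jX_mk (hw : k.Root w) {jX : XX l₁ l₂ → ℂ}
    (hj : ∀ g : GG l₁ l₂, g.1 ∈ Kint l₁ → g.2.1 ∈ Kint l₂ →
      jX (QuotientGroup.mk g) = CM.jH (g.2.2⁻¹ • UpperHalfPlane.I))
    {L : Submodule ℤ k.K} {c : ℚ} {x y : k.K} (o : OB k w L c x y) {g m : GG l₁ l₂}
    (hg : g ∈ Proj.KK l₁ l₂) (hm : m ∈ MM l₁ l₂) (e : g.2.2 = m.2.2 * (fr k w r₁ r₂ x y).2.2) :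
    jX (QuotientGroup.mk g) = CM.jL (L.map (k.ioL w)) := by
  have hK := (Proj.mem_KK l₁ l₂).1 hg
  rw [hj _ hK.1 hK.2, ← jH_fr k (r₁ := r₁) (r₂ := r₂) hw o, e, _root_.mul_inv_rev, mul_smul,
    hm.1.2.2.inv.smul_I]

theorem Om_of (hw : k.Root w) {L : Submodule ℤ k.K} {c : ℚ} (hL : k.Lat L c) {ε : ℝ}
    (hε : 0 < ε) (hs : ¬ ∃ v ∈ L, v ≠ 0 ∧ k.N v ≤ ε * c) : ∃ x y, OB k w L c x y ∧
      ∀ g ∈ Proj.KK l₁ l₂, ∀ m ∈ MM l₁ l₂, g.2.2 = m.2.2 * toSL (mr k w x y) →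
        g ∈ Om l₁ l₂ (|(k.D : ℝ)| / (ε * |w.im|)) := by
  obtain ⟨x, y, hb, hd, -, hxy, hN⟩ := (basic k).2.2.2.2.2.1 L c hL
  have hc : 0 < c := Excl.lat_pos hL
  have hc' : (0 : ℝ) < c := by exact_mod_cast hc
  have hx : x ≠ 0 := by
    rintro rfl
    rw [← hd] at hc
    simp [Fld.det2] at hc
  have hxε : ε * c < k.N x := by
    by_contra h
    exact hs ⟨x, (OB_mem_aux k hb).1, hx, not_lt.1 h⟩
  have hy : k.N y ≤ |(k.D : ℝ)| * c / ε := by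
    rw [le_div_iff₀ hε]
    have := N_nonneg k y
    have h2 : ε * c * k.N y ≤ |(k.D : ℝ)| * c ^ 2 := (mul_le_mul_of_nonneg_right hxε.le this).trans hN
    nlinarith
  obtain ⟨y', h, hy'⟩ : ∃ y', OB k w L c x y' ∧ k.N y' = k.N y := by
    rcases exists_OB k hw hb hd hc with h | h
    · exact ⟨_, h, rfl⟩
    · exact ⟨_, h, N_neg k y⟩
  refine ⟨x, y', h, fun g hg m hm eg => ⟨hg, fun j => ?_⟩⟩
  have hr := hm.1.2.2
  have hsq := hr.sq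
  have e : ∀ i j, toSL (mr k w x y') i j = mr k w x y' i j := by
    intro i j
    rw [coe_toSL (det_mr k h.2.2)]
  rw [eg, mul_entry, mul_entry, hr.2, ← hr.1, e, e]
  have e2 : (m.2.2 0 0 * mr k w x y' 0 j + -m.2.2 1 0 * mr k w x y' 1 j) ^ 2 +
      (m.2.2 1 0 * mr k w x y' 0 j + m.2.2 0 0 * mr k w x y' 1 j) ^ 2 =
      mr k w x y' 0 j ^ 2 + mr k w x y' 1 j ^ 2 := by
    linear_combination (mr k w x y' 0 j ^ 2 + mr k w x y' 1 j ^ 2) * hsq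
  rw [e2]
  have hwi : 0 < |w.im| := abs_pos.2 (conj_root k hw).2
  have hs2 : (Real.sqrt (-w.im * k.det2 x y'))⁻¹ ^ 2 = (|w.im| * c)⁻¹ := by
    rw [inv_pow, Real.sq_sqrt h.2.2.le, h.sqrt_eq]
  have key : ∀ v : k.K, k.N v ≤ |(k.D : ℝ)| * c / ε →
      ((Real.sqrt (-w.im * k.det2 x y'))⁻¹ * (k.io w v).re) ^ 2 +
        ((Real.sqrt (-w.im * k.det2 x y'))⁻¹ * -(k.io w v).im) ^ 2 ≤
        |(k.D : ℝ)| / (ε * |w.im|) := by
    intro v hv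
    rw [mul_pow, mul_pow, hs2, neg_sq, ← mul_add, ← N_eq k hw]
    calc _ ≤ (|w.im| * c)⁻¹ * (|(k.D : ℝ)| * c / ε) := by gcongr
      _ = _ := by field_simp
  fin_cases j
  · simpa [mr] using key x (hxy.trans hy)
  · simpa [mr] using key y' (hy' ▸ hy)

theorem tor_one : tor k w r₁ r₂ 1 = 1 := by
  have e : ∀ {F : Type} [Field F] {M : Matrix (Fin 2) (Fin 2) F}, M = 1 → toSL M = 1 := by
    rintro F _ _ rfl
    exact Subtype.ext (coe_toSL (by simp))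
  refine Prod.ext (e ?_) (Prod.ext (e ?_) (e ?_)) <;>
  · ext i j
    fin_cases i <;> fin_cases j <;> simp [io_one, rm]

theorem ptriv (hw : k.Root w) (h₁ : k.Root r₁) (h₂ : k.Root r₂) {F : ℕ+} {L : Submodule ℤ k.K}
    {c : ℚ} (hL : k.Lat L c) (hA : k.Adm F L) {t : k.SF F} (ht : Triv (l₁ * l₂) t) :
    pt k w r₁ r₂ (act t L) = pt k w r₁ r₂ L := by
  obtain ⟨e, y, hy, he⟩ := ht
  have := pt_tor k hw h₁ h₂ hL (act_lat k hL hA t).1 (a := 1) (by simp) (e := e) fun z hz => ?_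
  · rwa [tor_one k, one_smul] at this
  have e1 : ∀ z : k.K, (((l₁ * l₂ : ℕ) : ℚ) ^ e) • z = (((l₁ * l₂) ^ e : ℕ) : k.K) * z := by
    intro z
    rw [natCast_mul, Nat.cast_pow]
  refine ⟨_, ?_, (one_mul _).symm⟩
  rw [e1]
  refine Submodule.mul_induction_on hz (fun x hx v hv => ?_) fun x y hx hy => ?_
  · refine Submodule.span_induction (p := fun x _ => (((l₁ * l₂) ^ e : ℕ) : k.K) * (x * v) ∈ L)
      ?_ ?_ ?_ ?_ hx
    · rintro x (rfl | rfl | rfl)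
      · have : (((l₁ * l₂) ^ e : ℕ) : k.K) * (lift t * v) =
            (((l₁ * l₂) ^ e : ℕ) : k.K) * v + ((F : ℕ) : k.K) * y * v := by
          rw [← he, Nat.cast_pow]
          ring
        rw [this]
        exact L.add_mem (Excl.nat_mem _ hv) (adm_mul k hA hy hv)
      · exact Excl.nat_mem _ (Excl.nat_mem _ hv)
      · exact Excl.nat_mem _ (hA v hv)
    · simp
    · intro x x' _ _ a b
      rw [add_mul, mul_add]
      exact L.add_mem a b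
    · intro a x _ b
      rw [smul_mul_assoc, mul_smul_comm]
      exact L.smul_mem a b
  · rw [mul_add]
    exact L.add_mem hx hy

end Pool.Agent.Lib.MP_9177b7_ag.J.DynN
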