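import Pool.Agent.Lib.MP_9177b7_ag.J.DynN2
import Pool.Agent.Lib.MP_9177b7_ag.J.All2

/-!
Adapted measures.
-/

open MeasureTheory Filter Topology Set Pointwise Matrix
open scoped MatrixGroups ENNReal BoundedContinuousFunction

noncomputable section

namespace Pool.Agent.Lib.MP_9177b7_ag.J.DynN

open Fld Dyn

variable (k : Fld) {l₁ l₂ : ℕ} [Fact l₁.Prime] [Fact l₂.Prime] {w : ℂ} {r₁ : ℚ_[l₁]}
  {r₂ : ℚ_[l₂]}

theorem sg_DG {F : Type} [Field F] (c : Fˣ) {m : SL(2, F)} (hm : DG m) : sg c m = m := by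
  obtain ⟨t, -, rfl⟩ := hm.eq_dg
  exact Mix.sg_dg c t

theorem sg_sg {F : Type} [Field F] (c : Fˣ) (g : SL(2, F)) : sg c (sg c⁻¹ g) = g := by
  apply Subtype.ext
  rw [Mix.sg_coe, Mix.sg_coe]
  ext i j
  fin_cases i <;> fin_cases j <;> simp

theorem exists_psi (h₁ : k.Root r₁) (h₂ : k.Root r₂) {q u E : ℕ} (hq : q * u = (l₁ * l₂) ^ E) :
    ∃ Ψ : XX l₁ l₂ → XX l₁ l₂, Continuous Ψ ∧
      (∀ g : GG l₁ l₂, ∃ g' : GG l₁ l₂, ∀ x, Ψ (g' • x) = g • Ψ x) ∧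
      (∀ m ∈ MM l₁ l₂, ∀ x, Ψ (m • x) = m • Ψ x) ∧ ∀ x y, 0 < -w.im * k.det2 x y →
        Ψ (QuotientGroup.mk (fr k w r₁ r₂ x y)) =
          QuotientGroup.mk (fr k w r₁ r₂ x ((q : ℚ) • y)) := by
  have p₁ : l₁.Prime := Fact.out
  have p₂ : l₂.Prime := Fact.out
  have hq0 : q ≠ 0 := by
    rintro rfl
    exact (pow_pos (Nat.mul_pos p₁.pos p₂.pos) E).ne (by simpa using hq)
  have hqr : (0 : ℝ) < q := by exact_mod_cast Nat.pos_of_ne_zero hq0
  have hs : Real.sqrt q ≠ 0 := (Real.sqrt_pos.2 hqr).ne'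
  have hs2 : Real.sqrt q ^ 2 = q := Real.sq_sqrt hqr.le
  let t₁ : ℚ_[l₁]ˣ := Units.mk0 (q : ℚ_[l₁]) (by exact_mod_cast hq0)
  let t₂ : ℚ_[l₂]ˣ := Units.mk0 (q : ℚ_[l₂]) (by exact_mod_cast hq0)
  let ρ : SL(2, ℝ) := dg (Units.mk0 (Real.sqrt q)⁻¹ (inv_ne_zero hs))
  let ψ : GG l₁ l₂ → GG l₁ l₂ := fun g => (sg t₁ g.1, sg t₂ g.2.1, g.2.2 * ρ)
  have hψ : Continuous ψ := ((Mix.continuous_sg t₁).comp continuous_fst).prodMk
    (((Mix.continuous_sg t₂).comp (continuous_fst.comp continuous_snd)).prodMk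
      ((continuous_snd.comp continuous_snd).mul continuous_const))
  have hmul : ∀ g x : GG l₁ l₂, ψ (g * x) = (sg t₁ g.1, sg t₂ g.2.1, g.2.2) * ψ x := by
    intro g x
    simp [ψ, mul_assoc]
  have hq1 : (q : ℚ) ≠ 0 := by exact_mod_cast hq0
  have hinv : (q : ℚ)⁻¹ ∈ RM (l₁ * l₂) := ⟨E, u, by
    have : (((l₁ * l₂ : ℕ) : ℚ)) ^ E = q * u := by exact_mod_cast hq.symm
    rw [this, inv_mul_cancel_left₀ hq1]
    simp⟩
  have hG : ∀ g : GG l₁ l₂, ∀ γ ∈ Gam l₁ l₂, ∃ γ' ∈ Gam l₁ l₂, ψ (g * γ) = ψ g * γ' := by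
    rintro g _ ⟨γ, rfl⟩
    let γ' : SL(2, RM (l₁ * l₂)) := ⟨!![γ 0 0, (q : RM (l₁ * l₂)) * γ 0 1;
      ⟨_, hinv⟩ * γ 1 0, γ 1 1], by
        have := γ.det_coe
        rw [Matrix.det_fin_two] at this
        rw [Matrix.det_fin_two_of]
        refine Eq.trans ?_ this
        apply Subtype.ext
        push_cast
        field_simp⟩
    refine ⟨_, ⟨γ', rfl⟩, Prod.ext ?_ (Prod.ext ?_ ?_)⟩
    · change sg t₁ (g.1 * _) = sg t₁ g.1 * _
      rw [map_mul]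
      congr 1
      apply Subtype.ext
      rw [Mix.sg_coe]
      ext i j
      fin_cases i <;> fin_cases j <;> simp [diag, γ', t₁]
    · change sg t₂ (g.2.1 * _) = sg t₂ g.2.1 * _
      rw [map_mul]
      congr 1
      apply Subtype.ext
      rw [Mix.sg_coe]
      ext i j
      fin_cases i <;> fin_cases j <;> simp [diag, γ', t₂]
    · change g.2.2 * _ * ρ = g.2.2 * ρ * _
      rw [mul_assoc, mul_assoc]
      congr 1
      ext i j
      fin_cases i <;> fin_cases j <;> simp [mul_entry, diag, γ', ρ, dg] <;> field_simp <;>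
        rw [hs2]
  let Ψ : XX l₁ l₂ → XX l₁ l₂ := Quotient.map' ψ fun a b hab => by
    rw [QuotientGroup.leftRel_apply] at hab ⊢
    obtain ⟨γ', h1, h2⟩ := hG a _ hab
    rw [mul_inv_cancel_left] at h2
    rwa [h2, inv_mul_cancel_left]
  have hΨ : ∀ g, Ψ (QuotientGroup.mk g) = QuotientGroup.mk (ψ g) := fun g => rfl
  refine ⟨Ψ, (QuotientGroup.isQuotientMap_mk _).continuous_iff.2
    (QuotientGroup.continuous_mk.comp hψ), fun g => ⟨(sg t₁⁻¹ g.1, sg t₂⁻¹ g.2.1, g.2.2), ?_⟩,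
    fun m hm => ?_, fun x y hd => ?_⟩
  · intro x
    obtain ⟨x, rfl⟩ := QuotientGroup.mk_surjective x
    rw [MulAction.Quotient.smul_mk, hΨ, hΨ, MulAction.Quotient.smul_mk, smul_eq_mul, smul_eq_mul,
      hmul, sg_sg, sg_sg]
  · intro x
    obtain ⟨x, rfl⟩ := QuotientGroup.mk_surjective x
    rw [MulAction.Quotient.smul_mk, hΨ, hΨ, MulAction.Quotient.smul_mk, smul_eq_mul, smul_eq_mul,
      hmul, sg_DG _ hm.1.1, sg_DG _ hm.1.2.1]
  · rw [hΨ]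
    congr 1
    refine Prod.ext (mp_sg k h₁ (det2_ne k hd) t₁ (by simp [t₁])).symm
      (Prod.ext (mp_sg k h₂ (det2_ne k hd) t₂ (by simp [t₂])).symm (toSL_mul (det_mr k hd) ?_).symm)
    have e : k.det2 x ((q : ℚ) • y) = q * k.det2 x y := by
      simp only [Fld.det2, QuadraticAlgebra.re_smul, QuadraticAlgebra.im_smul, smul_eq_mul]
      ring
    have e2 : Real.sqrt (-w.im * ((q * k.det2 x y : ℚ) : ℝ)) =
        Real.sqrt q * Real.sqrt (-w.im * k.det2 x y) := by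
      rw [← Real.sqrt_mul hqr.le]
      congr 1
      push_cast
      ring
    have h3 : Real.sqrt (-w.im * k.det2 x y) ≠ 0 := (Real.sqrt_pos.2 hd).ne'
    rw [mr, mr, e, e2]
    generalize Real.sqrt (-w.im * k.det2 x y) = b at h3
    ext i j
    fin_cases i <;> fin_cases j <;>
      simp [Matrix.mul_apply, Fin.sum_univ_two, ρ, dg, io_qsmul] <;> field_simp <;> rw [hs2]

theorem psi_pt (hw : k.Root w) (h₁ : k.Root r₁) (h₂ : k.Root r₂) {q u E : ℕ}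
    (hq : q * u = (l₁ * l₂) ^ E) {Ψ : XX l₁ l₂ → XX l₁ l₂}
    (hΨ : ∀ x y, 0 < -w.im * k.det2 x y → Ψ (QuotientGroup.mk (fr k w r₁ r₂ x y)) =
      QuotientGroup.mk (fr k w r₁ r₂ x ((q : ℚ) • y))) {L M : Submodule ℤ k.K} {c : ℚ}
    (hL : k.Lat L (q * c)) (hM : k.Lat M c) (hle : L ≤ M) :
    Ψ (pt k w r₁ r₂ M) = pt k w r₁ r₂ L := by
  obtain ⟨x, y, o⟩ := exists_OB' k hw hM
  obtain ⟨x', y', o'⟩ := exists_OB' k hw hL
  have e : k.det2 x ((q : ℚ) • y) = q * k.det2 x y := by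
    simp only [Fld.det2, QuadraticAlgebra.re_smul, QuadraticAlgebra.im_smul, smul_eq_mul]
    ring
  have e' : k.det2 x' y' = k.det2 x ((q : ℚ) • y) := by
    rw [e, ob_dt k o, ob_dt k o', dt, dt]
    split_ifs <;> ring
  have key : ∀ z ∈ L, (((l₁ * l₂ : ℕ) : ℚ) ^ E) • z ∈
      Submodule.span ℤ ({x, (q : ℚ) • y} : Set k.K) := by
    intro z hz
    obtain ⟨a, b, rfl⟩ := (mem_span2 k).1 (o.1 ▸ hle hz)
    have : (((l₁ * l₂ : ℕ) : ℚ)) ^ E = q * u := by exact_mod_cast hq.symm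
    refine (mem_span2 k).2 ⟨q * u * a, u * b, ?_⟩
    rw [this, smul_add, smul_smul, smul_smul, smul_smul]
    push_cast
    congr 2
    ring
  rw [pt_eq k h₁ h₂ o, pt_eq k h₁ h₂ o', hΨ x y o.2.2]
  exact (mk_fr_eq k h₁ h₂ (e' ▸ o'.2.2) e' (key _ (OB_mem_aux k o'.1).1)
    (key _ (OB_mem_aux k o'.1).2)).symm

section mix

variable {Y Y' : Type} [TopologicalSpace Y] [MeasurableSpace Y] [BorelSpace Y]
  [MulAction (GG l₁ l₂) Y] [ContinuousSMul (GG l₁ l₂) Y] [TopologicalSpace Y'] [MeasurableSpace Y']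
  [BorelSpace Y'] [MulAction (GG l₁ l₂) Y'] [ContinuousSMul (GG l₁ l₂) Y']

omit [ContinuousSMul (GG l₁ l₂) Y'] in
theorem mix_equi {F : ℕ+} (P : k.SF F → Y) {f : Y → Y'} (hf : Continuous f)
    (he : ∀ (g : GG l₁ l₂) y, f (g • y) = g • f y) :
    (mix l₁ l₂ k F P).map f = mix l₁ l₂ k F fun s => f (P s) := by
  rw [mix_map' k F _ hf.measurable, mix]
  congr 1
  refine Finset.sum_congr rfl fun s _ => ?_
  rw [orb, orb, Measure.map_map hf.measurable (om_cont _).measurable]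
  congr 1
  exact funext fun m => he _ _

theorem mix_mod {F F₀ : ℕ+} {p : k.SF F → k.SF F₀}
    (hp : ∀ φ : k.SF F₀ → ℝ, k.avg F (fun s => φ (p s)) = k.avg F₀ φ) (P : k.SF F₀ → Y) :
    mix l₁ l₂ k F (fun s => P (p s)) = mix l₁ l₂ k F₀ P := by
  have key : ∀ (F : ℕ+) (P : k.SF F → Y) (A : Set Y), mix l₁ l₂ k F P A =
      ENNReal.ofReal (k.avg F fun s => (orb l₁ l₂ (P s) A).toReal) := by
    intro F P A
    rw [ofReal_avg k F fun s => ENNReal.toReal_nonneg]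
    simp only [mix, Measure.smul_apply, Measure.finsetSum_apply, smul_eq_mul]
    simp_rw [ENNReal.ofReal_toReal (measure_ne_top _ _)]
  ext A _
  rw [key, key, hp fun s => (orb l₁ l₂ (P s) A).toReal]

end mix

variable {ι : Type} {F : ℕ+} {κ : Measure (MM l₁ l₂ × k.SF F)}

variable (w r₁ r₂) in
/-- The adapted points. -/
def ph (A : ι → GG l₁ l₂) (L : ι → Submodule ℤ k.K) (q : MM l₁ l₂ × k.SF F) (i : ι) : XX l₁ l₂ :=
  A i • (q.1 : GG l₁ l₂) • pt k w r₁ r₂ (act q.2 (L i))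

/-- The weight. -/
def wt (h : k.SF F → ℝ) (q : MM l₁ l₂ × k.SF F) : II := Set.projIcc (-1) 1 (by norm_num) (h q.2)

theorem wt_meas (h : k.SF F → ℝ) : Measurable (wt k h : MM l₁ l₂ × k.SF F → II) :=
  measurable_from_prod_countable_left fun s =>
    measurable_const (a := Set.projIcc (-1) 1 (by norm_num) (h s))

instance : MeasurableMul (MM l₁ l₂ × k.SF F) where
  measurable_const_mul g := ((measurable_const_mul g.1).comp measurable_fst).prodMk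
    ((measurable_from_top (f := fun s => g.2 * s)).comp measurable_snd)
  measurable_mul_const g := ((measurable_mul_const g.1).comp measurable_fst).prodMk
    ((measurable_from_top (f := fun s => s * g.2)).comp measurable_snd)

theorem ph_mul {A : ι → GG l₁ l₂} {L : ι → Submodule ℤ k.K} {g : MM l₁ l₂ × k.SF F}
    {b : GG l₁ l₂} (hb : TT l₁ l₂ b)
    (h : ∀ s i, pt k w r₁ r₂ (act (g.2 * s) (L i)) = b • pt k w r₁ r₂ (act s (L i))) (N : ℕ)
    (q : MM l₁ l₂ × k.SF F) (i : ι) : ph k w r₁ r₂ A L (g ^ N * q) i =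
      (A i * ((g.1 : GG l₁ l₂) * b) ^ N * (A i)⁻¹) • ph k w r₁ r₂ A L q i := by
  induction N with
  | zero => simp
  | succ N ih =>
    have e : ∀ q : MM l₁ l₂ × k.SF F, ph k w r₁ r₂ A L (g * q) i =
        (A i * ((g.1 : GG l₁ l₂) * b) * (A i)⁻¹) • ph k w r₁ r₂ A L q i := by
      intro q
      simp only [ph, Prod.fst_mul, Prod.snd_mul, h, smul_smul, Subgroup.coe_mul]
      congr 1
      rw [mul_assoc (g.1 : GG l₁ l₂), ← hb.comm q.1.2.1]
      group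
    rw [pow_succ', mul_assoc, e, ih, smul_smul, pow_succ']
    congr 1
    simp only [mul_assoc, inv_mul_cancel_left]

theorem kap_le (K : Kap k r₁ r₂ F κ) {Z : Type} [MeasurableSpace Z] {Φ : MM l₁ l₂ × k.SF F → Z}
    (hΦ : Measurable Φ) {S : Set Z} (hS : MeasurableSet S) (E : k.SF F → Prop)
    (h : ∀ q : MM l₁ l₂ × k.SF F, RR k r₁ r₂ (q.1 : GG l₁ l₂) q.2 → Φ q ∈ S → E q.2) :
    κ.map Φ S ≤ ENNReal.ofReal (4 * k.pr F E) := by
  rw [Measure.map_apply hΦ hS]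
  exact (measure_mono_ae (K.ae.mono fun q hq hs => h q hq hs)).trans (K.le E)

variable [PolishSpace (XX l₁ l₂)]

theorem ph_meas1 (A : ι → GG l₁ l₂) (L : ι → Submodule ℤ k.K) (i : ι) :
    Measurable fun q : MM l₁ l₂ × k.SF F => ph k w r₁ r₂ A L q i :=
  measurable_from_prod_countable_left fun s =>
    ((om_cont (pt k w r₁ r₂ (act s (L i)))).const_smul (A i)).measurable

theorem ph_meas (A : ι → GG l₁ l₂) (L : ι → Submodule ℤ k.K) :
    Measurable (ph k w r₁ r₂ A L : MM l₁ l₂ × k.SF F → ι → XX l₁ l₂) :=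
  measurable_pi_lambda _ (ph_meas1 k A L)

variable (w) in
/-- The adapted measure with weights. -/
def an (K : Kap k r₁ r₂ F κ) (A : ι → GG l₁ l₂) (L : ι → Submodule ℤ k.K) (h : k.SF F → ℝ) :
    ProbabilityMeasure ((ι → XX l₁ l₂) × II) :=
  ⟨κ.map fun q => (ph k w r₁ r₂ A L q, wt k h q), by
    have := K.prob
    exact Measure.isProbabilityMeasure_map ((ph_meas k A L).prodMk (wt_meas k h)).aemeasurable⟩

theorem an_fst (K : Kap k r₁ r₂ F κ) (A : ι → GG l₁ l₂) (L : ι → Submodule ℤ k.K)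
    (h : k.SF F → ℝ) : (an k w K A L h : Measure ((ι → XX l₁ l₂) × II)).map Prod.fst =
      κ.map (ph k w r₁ r₂ A L) :=
  Measure.map_map measurable_fst ((ph_meas k A L).prodMk (wt_meas k h))

theorem an_int [Fintype ι] (K : Kap k r₁ r₂ F κ) (A : ι → GG l₁ l₂) (L : ι → Submodule ℤ k.K)
    {h : k.SF F → ℝ} (hh : ∀ s, |h s| ≤ 1) (f : (ι → XX l₁ l₂) →ᵇ ℝ) (g : k.SF F → ℝ)
    (e : ∀ q : MM l₁ l₂ × k.SF F, RR k r₁ r₂ (q.1 : GG l₁ l₂) q.2 →
      f (ph k w r₁ r₂ A L q) = g q.2) :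
    ∫ z, (z.2 : ℝ) * f z.1 ∂(an k w K A L h : Measure ((ι → XX l₁ l₂) × II)) =
      ∫ q, h q.2 * g q.2 ∂κ := by
  change ∫ z, _ ∂(κ.map _) = _
  have hc : Continuous fun z : (ι → XX l₁ l₂) × II => (z.2 : ℝ) * f z.1 :=
    (continuous_subtype_val.comp continuous_snd).mul (f.continuous.comp continuous_fst)
  rw [integral_map ((ph_meas k A L).prodMk (wt_meas k h)).aemeasurable hc.aestronglyMeasurable]
  refine integral_congr_ae (K.ae.mono fun q hq => ?_)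
  simp only [wt]
  rw [e q hq, Set.projIcc_of_mem _ (abs_le.1 (hh q.2))]

theorem an_inv [Fintype ι] (K : Kap k r₁ r₂ F κ) {A : ι → GG l₁ l₂} {L : ι → Submodule ℤ k.K}
    {g : MM l₁ l₂ × k.SF F} (hg : RR k r₁ r₂ (g.1 : GG l₁ l₂) g.2) {b : GG l₁ l₂}
    (hb : TT l₁ l₂ b)
    (e : ∀ s i, pt k w r₁ r₂ (act (g.2 * s) (L i)) = b • pt k w r₁ r₂ (act s (L i))) {N : ℕ}
    {h : k.SF F → ℝ} (hh : ∀ s, h (g.2 ^ N * s) = h s) {v : ι → GG l₁ l₂}
    (hv : ∀ i, v i = A i * ((g.1 : GG l₁ l₂) * b) ^ N * (A i)⁻¹) :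
    (an k w K A L h : Measure ((ι → XX l₁ l₂) × II)).map (Prod.map (v • ·) id) =
      an k w K A L h :=
  map_inv (measurable_const_mul _) (pow_inv (K.inv g hg) N)
    ((ph_meas k A L).prodMk (wt_meas k h))
    ((continuous_const_smul v).measurable.prodMap measurable_id)
    fun q => Prod.ext (funext fun i => (ph_mul k hb e N q i).trans (by rw [← hv]; rfl))
      (by simp [wt, hh])

theorem tight1 (hw : k.Root w) {F : ℕ → ℕ+} {κ : ∀ n, Measure (MM l₁ l₂ × k.SF (F n))}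
    (K : ∀ n, Kap k r₁ r₂ (F n) (κ n)) {Φ : ∀ n, MM l₁ l₂ × k.SF (F n) → XX l₁ l₂}
    (hΦ : ∀ n, Measurable (Φ n)) {L : ℕ → Submodule ℤ k.K} {c : ℕ → ℚ}
    (hL : ∀ n, k.Lat (L n) (c n)) (hA : ∀ n, k.Adm (F n) (L n))
    (h : ∀ n (q : MM l₁ l₂ × k.SF (F n)), RR k r₁ r₂ (q.1 : GG l₁ l₂) q.2 → ∀ x y,
      OB k w (act q.2 (L n)) (c n) x y → ∃ g ∈ Proj.KK l₁ l₂,
        g.2.2 = (q.1 : GG l₁ l₂).2.2 * toSL (mr k w x y) ∧ Φ n q = QuotientGroup.mk g) :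
    IsTightMeasureSet (range fun n => (κ n).map (Φ n)) := by
  rw [isTightMeasureSet_iff_exists_isCompact_measure_compl_le]
  intro η hη
  obtain ⟨η', -, h0, h1⟩ := ENNReal.lt_iff_exists_real_btwn.1 hη
  obtain ⟨ε, hε, hT⟩ := tight' k (η' / 4) (by simpa using h0)
  have hK := (isCompact_Om (l₁ := l₁) (l₂ := l₂) (|(k.D : ℝ)| / (ε * |w.im|))).image
    (QuotientGroup.continuous_mk (N := Gam l₁ l₂))
  refine ⟨_, hK, ?_⟩
  rintro _ ⟨n, rfl⟩
  refine (kap_le k (K n) (hΦ n) hK.isClosed.measurableSet.compl _ fun q hq hs => ?_).trans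
    ((ENNReal.ofReal_le_ofReal (by linarith [hT (F n) _ _ (hL n) (hA n)])).trans h1.le)
  by_contra hn
  obtain ⟨x, y, o, ho⟩ := Om_of k (l₁ := l₁) (l₂ := l₂) hw (act_lat k (hL n) (hA n) q.2).1 hε hn
  obtain ⟨g, hg, e1, e2⟩ := h n q hq x y o
  exact hs ⟨g, ho g hg _ q.1.2 e1, e2.symm⟩

end Pool.Agent.Lib.MP_9177b7_ag.J.DynN
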