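import Pool.Agent.Lib.MP_9177b7_ag.J.ExclU3

/-! Exclusion of graph components at a prime dividing the conductors to a high power. -/

open Pointwise

noncomputable section

namespace Pool.Agent.Lib.MP_9177b7_ag.J

open Fld

namespace ExclU

variable {k : Fld} {l : ℕ} [hl : Fact l.Prime] {φ ψ : k.K →+* ℚ_[l]}

theorem step' (hT : TightQStmt) (h : Emb φ ψ) {R : ℝ} (hR : 0 ≤ R) : ∃ C y : ℝ, 0 < C ∧ 0 < y ∧
    y < 1 ∧ ∀ (F : ℕ+) (L₁ L₂ : Submodule ℤ k.K) (c₁ c₂ : ℚ) (e₁ e₂ Nn : ℕ), l ∣ F → k.Lat L₁ c₁ →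
      k.Lat L₂ c₂ → k.Adm F L₁ → k.Adm F L₂ → Tw φ ψ 1 e₁ L₁ → Tw φ ψ 1 e₂ L₂ → 0 < Nn →
      ∀ j κ E g : ℕ, j ≤ e₁ → j ≤ e₂ → 0 < κ → e₁ ≤ j + κ → e₂ ≤ j + κ →
      g + 2 * κ + 2 * E ≤ e₁ + e₂ →
      k.pr F (fun s => Gp φ ψ Nn R c₁ c₂ e₁ j (act s L₁) (act s L₂)) ≤
        k.pr F (fun s => Gp φ ψ Nn R c₁ c₂ e₁ g (act s L₁) (act s L₂)) + C * y ^ E := by
  obtain ⟨C, θ, hC, hθ, H⟩ := hT k
  have hx : (0 : ℝ) < 7 / 8 := by norm_num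
  refine ⟨2 * C + 2 * (144 * R * |(k.D : ℝ)|) ^ 2, max ((7 / 8) ^ θ) (6 / 7), by positivity,
    lt_max_of_lt_right (by norm_num), max_lt (Real.rpow_lt_one hx.le (by norm_num) hθ)
      (by norm_num), ?_⟩
  intro F L₁ L₂ c₁ c₂ e₁ e₂ Nn hF l1 l2 a1 a2 t1 t2 hN j κ E g j1 j2 hκ k1 k2 hg
  have hε : (0 : ℝ) < (7 / 8) ^ E := pow_pos hx E
  have h1 : ∀ {L : Submodule ℤ k.K} {c : ℚ} {e : ℕ}, k.Lat L c → k.Adm F L → Tw φ ψ 1 e L →
      j ≤ e → k.pr F (fun s => ∃ v ∈ act s (anc φ ψ j L), v ≠ 0 ∧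
        k.N v ≤ (7 / 8) ^ E * (c / l ^ j : ℚ)) ≤ C * max ((7 / 8 : ℝ) ^ θ) (6 / 7) ^ E := by
    intro L c e hc ha ht hj
    obtain ⟨e', rfl⟩ := Nat.exists_eq_add_of_le hj
    refine (H _ hε F _ _ (anc_lat h ht hc) (anc_adm h ha)).trans ?_
    rw [← Real.rpow_natCast, ← Real.rpow_mul hx.le, mul_comm (E : ℝ), Real.rpow_mul hx.le,
      Real.rpow_natCast]
    gcongr
    exact le_max_left _ _
  have h2 : 2 * (144 * R * |(k.D : ℝ)| / ((7 / 8) ^ E) ^ 2) ^ 2 / (l ^ E : ℕ) ≤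
      2 * (144 * R * |(k.D : ℝ)|) ^ 2 * max ((7 / 8 : ℝ) ^ θ) (6 / 7) ^ E := by
    have h3 : (2 : ℝ) ≤ l := by exact_mod_cast hl.out.two_le
    have e1 : 2 * (144 * R * |(k.D : ℝ)| / ((7 / 8) ^ E) ^ 2) ^ 2 / (l ^ E : ℕ) =
        2 * (144 * R * |(k.D : ℝ)|) ^ 2 * (((7 / 8) ^ 4 * (l : ℝ))⁻¹) ^ E := by
      rw [inv_pow, mul_pow _ (l : ℝ), ← pow_mul _ 4 E, mul_comm 4 E, pow_mul _ E 4]
      push_cast
      generalize (7 / 8 : ℝ) ^ E = z at *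
      field_simp
    rw [e1]
    gcongr
    refine le_max_of_le_right (inv_le_of_inv_le₀ (by norm_num) ?_)
    linarith
  refine (step h hF l1 l2 a1 a2 t1 t2 hN hR j1 j2 hκ k1 k2 hg hε).trans ?_
  linarith [h1 l1 a1 t1 j1, h1 l2 a2 t2 j2]

theorem top (hE : ExclStmt) {r : ℚ_[l]} (hr : k.Root r) (hD : ¬ (l : ℤ) ∣ k.D) (h2 : l ≠ 2)
    (Nn d : ℕ) {R η : ℝ} (hR : 0 ≤ R) (hN : 0 < Nn) (hη : 0 < η) : ∃ m : ℕ, ∀ (F : ℕ+)
      (L₁ L₂ : Submodule ℤ k.K) (c₁ c₂ : ℚ) (e₁ e₂ : ℕ), l ∣ F → k.Lat L₁ c₁ → k.Lat L₂ c₂ →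
      k.Adm F L₁ → k.Adm F L₂ → Tw (Small.hom hr) (Small.hom (Small.root_conj hr)) 1 e₁ L₁ →
      Tw (Small.hom hr) (Small.hom (Small.root_conj hr)) 1 e₂ L₂ → e₂ ≤ e₁ + d →
      k.pr F (fun s => Gp (Small.hom hr) (Small.hom (Small.root_conj hr)) Nn R c₁ c₂ e₁ (e₁ + m)
        (act s L₁) (act s L₂)) ≤ η := by
  have h := emb hr hD
  have hl0 := lpos (l := l)
  choose m f H using fun i => hE k l r hr hD h2 (i + 1) (R * l ^ d) η i.succ_pos hη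
  set f₀ := (Finset.range (Nn * l ^ d)).sup f with hf₀
  obtain ⟨m₂, hm₂⟩ := pow_unbounded_of_one_lt (((f₀ * f₀ : ℕ) : ℝ) ^ 2 * |(k.D : ℝ)| * (R * l ^ d))
    (Small.one_lt_l (l := l))
  refine ⟨max ((Finset.range (Nn * l ^ d)).sup m) m₂, ?_⟩
  set m' := max ((Finset.range (Nn * l ^ d)).sup m) m₂ with hm'
  intro F L₁ L₂ c₁ c₂ e₁ e₂ hF l1 l2 a1 a2 t1 t2 hd
  obtain ⟨v, F', hF', eF⟩ := Nat.exists_eq_pow_mul_and_not_dvd F.ne_zero l hl.out.ne_one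
  have hF0 : 0 < F' := Nat.pos_of_ne_zero fun e => hF' (e ▸ dvd_zero l)
  obtain ⟨p, -, hp1, hp2⟩ := Basic.change ⟨F', hF0⟩ F ⟨l ^ v, by rw [eF, mul_comm]; rfl⟩
  have anc1 : ∀ {L : Submodule ℤ k.K} {c : ℚ} {e : ℕ}, k.Lat L c → k.Adm F L →
      Tw (Small.hom hr) (Small.hom (Small.root_conj hr)) 1 e L → ∃ M, k.Lat M (c / l ^ e) ∧
        k.Adm F' M ∧ k.Nrm l M ∧ ‖((c / l ^ e : ℚ) : ℚ_[l])‖ = 1 ∧ ∀ s : k.SF F,
          anc (Small.hom hr) (Small.hom (Small.root_conj hr)) e (act s L) = act (p s) M := by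
    intro L c e hc ha ht
    have h3 := anc_lat (e := 0) h ht hc
    have h4 := tw_anc (e := 0) ht
    have h5 : k.Adm F' (anc (Small.hom hr) (Small.hom (Small.root_conj hr)) e L) := by
      simpa using h4.adm h Small.one_mem_O (v := v) (κ := 0) (eF ▸ anc_adm h ha) le_rfl
    exact ⟨_, h3, h5, nrm_of_tw h h4 h3, by simpa using tw_cov h h4 h3, fun s => by
      rw [← act_anc h s e ha, hp2 _ h5]⟩
  obtain ⟨M₁, m1, b1, n1, u1, r1⟩ := anc1 l1 a1 t1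
  obtain ⟨M₂, m2, b2, n2, u2, r2⟩ := anc1 l2 a2 t2
  have la1 := fun s : k.SF ⟨F', hF0⟩ => Basic.lat_act s m1 b1
  have la2 := fun s : k.SF ⟨F', hF0⟩ => Basic.lat_act s m2 b2
  have key : ∀ s : k.SF F, Gp (Small.hom hr) (Small.hom (Small.root_conj hr)) Nn R c₁ c₂ e₁
      (e₁ + m') (act s L₁) (act s L₂) → (0 < Nn * l ^ e₂ / l ^ e₁ ∧
        Nn * l ^ e₂ / l ^ e₁ ≤ Nn * l ^ d) ∧ k.Ev l r (Nn * l ^ e₂ / l ^ e₁) (R * l ^ d) m'
        (c₁ / l ^ e₁) (c₂ / l ^ e₂) (act (p s) M₁) (act (p s) M₂) := by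
    rintro s ⟨α, β, g1, g2, g3, g4, g5, g6, g7⟩
    rw [pow_mul_le] at g6 g7
    have h1 := map_top h (Basic.lift_mem s) (h.unit_lift hF s) (h.symm.unit_lift hF s)
      (tw_act_one h hF a1 t1 s) (tw_act_one h hF a2 t2 s) g1 (g6.trans (Small.inv_pow_le_one _))
      (g7.trans (Small.inv_pow_le_one _))
    rw [r1, r2] at h1
    have p2 : (0 : ℝ) < c₂ := Rat.cast_pos.mpr (Excl.lat_pos l2)
    obtain ⟨j, hj0, hj, -⟩ := Basic.index _ _ _ _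
      (Basic.lat_lin _ _ α β (la1 (p s)) (det_ne hN (Excl.lat_pos l2) g2)) (la2 (p s)) h1
    have hj' : |k.N α - k.N β| * (c₁ / l ^ e₁ : ℚ) = j * (c₂ / l ^ e₂ : ℚ) := by
      simp only [N]
      exact_mod_cast hj
    have e1 : j * l ^ e₁ = Nn * l ^ e₂ := by
      have e2 := hj'
      push_cast at e2
      rw [← mul_div_assoc, g2] at e2
      field_simp at e2
      exact_mod_cast (show (j : ℝ) * l ^ e₁ = Nn * l ^ e₂ by linear_combination -e2)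
    have e2 : Nn * l ^ e₂ / l ^ e₁ = j := by
      rw [← e1, Nat.mul_div_cancel _ (pow_pos hl.out.pos _)]
    have hb : ∀ z : ℝ, z * c₁ ≤ R * c₂ →
        z * (c₁ / l ^ e₁ : ℚ) ≤ R * l ^ d * (c₂ / l ^ e₂ : ℚ) := fun z hz => by
      push_cast
      calc z * (c₁ / l ^ e₁) = z * c₁ * l ^ d / l ^ (e₁ + d) := by rw [pow_add]; field_simp
        _ ≤ R * c₂ * l ^ d / l ^ e₂ := by
          gcongr
          exact Small.one_lt_l.le
        _ = _ := by ring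
    rw [e2]
    refine ⟨⟨hj0, Nat.le_of_mul_le_mul_right ?_ (pow_pos hl.out.pos e₁)⟩, α, β, h1, hj', hb _ g3,
      hb _ g4, g5, g6, g7⟩
    rw [e1, mul_assoc, ← pow_add]
    exact Nat.mul_le_mul_left _ (Nat.pow_le_pow_right hl.out.pos (by omega))
  by_cases hj : 0 < Nn * l ^ e₂ / l ^ e₁ ∧ Nn * l ^ e₂ / l ^ e₁ ≤ Nn * l ^ d
  swap
  · exact (Excl.pr_false fun s hs => hj (key s hs).1).trans_le hη.le
  obtain ⟨i, hi⟩ := Nat.exists_eq_add_one_of_ne_zero hj.1.ne'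
  rw [hi] at key hj
  have hi' : i ∈ Finset.range (Nn * l ^ d) := Finset.mem_range.2 hj.2
  have hm : m i ≤ m' := (Finset.le_sup hi').trans (le_max_left _ _)
  have hf : f i ≤ f₀ := Finset.le_sup hi'
  have chg : ∀ P : k.SF ⟨F', hF0⟩ → Prop, k.pr F (fun s => P (p s)) = k.pr _ P := fun P =>
    hp1 fun s => @ite _ (P s) (Classical.propDecidable _) 1 0
  obtain ⟨f₁, hf₁, d1, -⟩ := Basic.conductor M₁ _ m1
  obtain ⟨f₂, hf₂, d2, -⟩ := Basic.conductor M₂ _ m2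
  by_cases q1 : f₀ ≤ f₁
  · exact (Excl.pr_mono fun s hs => Excl.ev_mono hm (key s hs).2).trans
      ((chg fun s => k.Ev l r (i + 1) _ _ _ _ (act s M₁) (act s M₂)).trans_le
        (H i _ M₁ M₂ _ _ f₁ hF' m1 m2 b1 b2 n1 n2 d1 (hf.trans q1)))
  by_cases q2 : f₀ ≤ f₂
  · exact (Excl.pr_mono fun s hs => Excl.ev_mono hm
      (ev_symm hr (la1 _) (la2 _) i.succ_pos u1 u2 (key s hs).2)).trans
      ((chg fun s => k.Ev l r (i + 1) _ _ _ _ (act s M₂) (act s M₁)).trans_le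
        (H i _ M₂ M₁ _ _ f₂ hF' m2 m1 b2 b1 n2 n1 d2 (hf.trans q2)))
  refine (Excl.pr_false fun s hs => ?_).trans_le hη.le
  have h3 := ev_small hr (la1 _) (la2 _) hf₁ hf₂ (act_adm _ ((d1 _).2 dvd_rfl))
    (act_adm _ ((d2 _).2 dvd_rfl)) u1 u2 (Excl.ev_mono (le_max_right _ _) (key s hs).2)
  refine hm₂.not_ge (h3.trans ?_)
  gcongr
  · exact (not_le.1 q1).le
  · exact (not_le.1 q2).le

end ExclU

open ExclU in
theorem exclU : TightQStmt → ExclStmt → ExclUStmt := by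
  intro hT hE k l hl r hr hD h2 Nn d R η₀ hN h0
  by_cases hR : 0 ≤ R
  swap
  · refine ⟨0, 0, fun F L₁ L₂ c₁ c₂ e₁ e₂ l1 l2 _ _ _ _ _ _ _ _ =>
      (Excl.pr_false fun s ⟨α, β, _, _, g, _⟩ => hR ?_).trans_le h0.le⟩
    exact nonneg_of_mul_nonneg_left ((mul_nonneg (Small.N_nonneg α)
      (Rat.cast_pos.mpr (Excl.lat_pos l1)).le).trans g) (Rat.cast_pos.mpr (Excl.lat_pos l2))
  have h := emb hr hD
  obtain ⟨C, y, hC, hy0, hy1, S⟩ := step' hT h hR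
  obtain ⟨m', H⟩ := top hE hr hD h2 Nn d hR hN (half_pos h0)
  have hy2 : 0 < 1 - y := sub_pos.2 hy1
  obtain ⟨E₀, hE₀⟩ := exists_pow_lt_of_lt_one
    (show 0 < η₀ / 2 / (C / (1 - y) + C) by positivity) hy1
  refine ⟨d + 2 + 2 * E₀, m' + 2 * (d + 1) + 2 * E₀, ?_⟩
  intro F L₁ L₂ c₁ c₂ e₁ e₂ l1 l2 a1 a2 d1 d2 k1 k2 k3 k4
  have t1 := tw_of_dep h d1
  have t2 := tw_of_dep h d2
  have hF : l ∣ F := by
    have h1 := (Small.norm_int_le_iff (l := l) ((F : ℕ) : ℤ) 1).1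
      (by exact_mod_cast (tw_F h t1 a1).trans (Small.inv_pow_anti (by omega : 1 ≤ e₁)))
    rw [pow_one] at h1
    exact_mod_cast h1
  have S' := S F L₁ L₂ c₁ c₂ e₁ e₂ Nn hF l1 l2 a1 a2 t1 t2 hN
  set a : ℕ → ℝ := fun g => k.pr F fun s => Gp (Small.hom hr) (Small.hom (Small.root_conj hr))
    Nn R c₁ c₂ e₁ g (act s L₁) (act s L₂) with ha
  have anti : ∀ g g', g ≤ g' → a g' ≤ a g := fun g g' hg => Excl.pr_mono fun s hs => hs.mono hg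
  have h1 : Monotone fun E => a (min (d + 2 + 2 * E) (min e₁ e₂)) - C / (1 - y) * y ^ E := by
    refine monotone_nat_of_le_succ fun E => ?_
    have e1 : C / (1 - y) * y ^ E = C / (1 - y) * y ^ (E + 1) + C * y ^ E := by
      field_simp
      ring
    have h3 : a (min (d + 2 + 2 * E) (min e₁ e₂)) ≤
        a (min (d + 2 + 2 * (E + 1)) (min e₁ e₂)) + C * y ^ E := by
      rcases le_or_gt (min e₁ e₂) (d + 2 + 2 * E) with h4 | h4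
      · rw [min_eq_right h4, min_eq_right (by omega : min e₁ e₂ ≤ d + 2 + 2 * (E + 1))]
        exact le_add_of_nonneg_right (by positivity)
      · rw [min_eq_left h4.le]
        exact (S' _ (max e₁ e₂ - (d + 2 + 2 * E)) E (d + 2 + 2 * (E + 1)) (by omega) (by omega)
          (by omega) (by omega) (by omega) (by omega)).trans
          (add_le_add (anti _ _ (min_le_left _ _)) le_rfl)
    linarith
  have h3 := h1 (Nat.le_add_right E₀ (min e₁ e₂))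
  simp only at h3
  rw [min_eq_left (by omega : d + 2 + 2 * E₀ ≤ min e₁ e₂),
    min_eq_right (by omega : min e₁ e₂ ≤ d + 2 + 2 * (E₀ + min e₁ e₂))] at h3
  have h4 : a (min e₁ e₂) ≤ a (e₁ + m') + C * y ^ E₀ := S' _ (d + 1) E₀ _ (by omega) (by omega)
    (by omega) (by omega) (by omega) (by omega)
  have h5 : a (e₁ + m') ≤ η₀ / 2 := H F L₁ L₂ c₁ c₂ e₁ e₂ hF l1 l2 a1 a2 t1 t2 k4
  have h6 : 0 ≤ C / (1 - y) * y ^ (E₀ + min e₁ e₂) := by positivity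
  rw [lt_div_iff₀ (by positivity)] at hE₀
  refine (Excl.pr_mono (Q := fun s => Gp _ _ Nn R c₁ c₂ e₁ (d + 2 + 2 * E₀) (act s L₁) (act s L₂))
    ?_).trans (show a (d + 2 + 2 * E₀) ≤ η₀ by linarith)
  rintro s ⟨α, β, g1, g2, g3, g4, g5, g6⟩
  have g7 : ‖(l : ℚ_[l]) ^ e₁ * Small.hom hr β‖ ≤ ((l : ℝ) ^ (d + 2 + 2 * E₀))⁻¹ := by
    rwa [norm_mul, tw_cov h t1 l1, ← Small.norm_l_pow e₁, mul_comm, ← norm_mul] at g6
  exact ⟨α, β, g1, g2, g3, g4, g5, g7, gap_two h (Basic.lift_mem s) (h.unit_lift hF s)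
    (tw_act_one h hF a1 t1 s) (tw_act_one h hF a2 t2 s) g1 (by omega) (by omega) g7⟩

end Pool.Agent.Lib.MP_9177b7_ag.J
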