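import Pool.Agent.Lib.MP_9177b7_ag.J.DefsN

/-!
A point near a twisted piece of a Hecke correspondence gives a linear map between the lattices.
-/

open MeasureTheory Filter Topology Set Pointwise Matrix
open scoped MatrixGroups ENNReal BoundedContinuousFunction

noncomputable section

namespace Pool.Agent.Lib.MP_9177b7_ag.J

open Fld Dyn

namespace LinkU

variable (k : Fld)

theorem entry {l : ℕ} [Fact l.Prime] {g : HH l} (hg : DG g) (ng : ‖g 0 0‖ = 1) (a₁ a₂ : ℚ_[l])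
    (G : Matrix (Fin 2) (Fin 2) ℚ_[l]) :
    ‖((((up a₂ * Join.wl l * g)⁻¹ : HH l) : Matrix (Fin 2) (Fin 2) ℚ_[l]) * G *
      (up a₁ * Join.wl l * g : HH l)) 0 1‖ = ‖G 1 0‖ := by
  have ng' := DU_norm hg ng
  have w0 : Join.wl l 0 0 = 0 := by
    rw [Join.wl_coe]; rfl
  have w1 : Join.wl l 0 1 = 1 := by
    rw [Join.wl_coe]; rfl
  have w2 : Join.wl l 1 0 = -1 := by
    rw [Join.wl_coe]; rfl
  have w3 : Join.wl l 1 1 = 0 := by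
    rw [Join.wl_coe]; rfl
  have u : ∀ a : ℚ_[l], up a 0 0 = 1 ∧ up a 0 1 = a ∧ up a 1 0 = 0 ∧ up a 1 1 = 1 :=
    fun a => ⟨rfl, rfl, rfl, rfl⟩
  have e : ∀ a : ℚ_[l], (up a * Join.wl l * g : HH l) 0 1 = g 1 1 ∧
      (up a * Join.wl l * g : HH l) 1 1 = 0 := by
    intro a
    obtain ⟨u0, u1, u2, u3⟩ := u a
    constructor <;> simp only [mul_entry, u0, u1, u2, u3, w0, w1, w2, w3, hg.1] <;> ring
  have i0 : ((up a₂ * Join.wl l * g)⁻¹ : HH l) 0 0 = 0 := (inv00 _).trans (e a₂).2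
  have i1 : ((up a₂ * Join.wl l * g)⁻¹ : HH l) 0 1 = -g 1 1 := by rw [inv01, (e a₂).1]
  simp only [Matrix.mul_apply, Fin.sum_univ_two]
  erw [i0, i1, (e a₁).1, (e a₁).2]
  simp [ng']

variable {l₁ l₂ : ℕ} [Fact l₁.Prime] [Fact l₂.Prime] {w : ℂ} {r₁ : ℚ_[l₁]} {r₂ : ℚ_[l₂]}

theorem relU (hw : k.Root w) (h₁ : Good k r₁) {L₁ L₂ : Submodule ℤ k.K} {c₁ c₂ : ℚ}
    {x₁ y₁ x₂ y₂ : k.K} (o₁ : OB k w L₁ c₁ x₁ y₁) (o₂ : OB k w L₂ c₂ x₂ y₂)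
    {γ : Matrix (Fin 2) (Fin 2) ℚ}
    (hγ : ∀ i j, ∃ z : ℤ, (z : ℚ) = γ i j) {μ m₁ m₂ : GG l₁ l₂} (hm : μ ∈ MM l₁ l₂)
    {a₁ a₂ : ℚ_[l₁]} (p₁ : m₁.1 = up a₁ * Join.wl l₁ * μ.1) (p₂ : m₂.1 = up a₂ * Join.wl l₁ * μ.1)
    (s₁ : m₁.2.2 = μ.2.2) (s₂ : m₂.2.2 = μ.2.2) {G : Matrix (Fin 2) (Fin 2) ℚ_[l₁]} {G' : Matrix (Fin 2) (Fin 2) ℝ}
    (hG : ((m₂ * fr k w r₁ r₂ x₂ y₂).1 : Matrix (Fin 2) (Fin 2) ℚ_[l₁]) *
      γ.map (fun a : ℚ => (a : ℚ_[l₁])) = G * (m₁ * fr k w r₁ r₂ x₁ y₁).1)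
    (hG' : ((m₂ * fr k w r₁ r₂ x₂ y₂).2.2 : Matrix (Fin 2) (Fin 2) ℝ) *
      γ.map (fun a : ℚ => (a : ℝ)) = G' * (m₁ * fr k w r₁ r₂ x₁ y₁).2.2) :
    ∃ α β : k.K, L₁.map (k.lin α β) ≤ L₂ ∧
      |QuadraticAlgebra.norm α - QuadraticAlgebra.norm β| * c₁ = |γ.det| * c₂ ∧
      2 * (k.N α + k.N β) * c₁ = fro G' * c₂ ∧
      ‖k.io r₁ β * (c₁ : ℚ_[l₁])‖ = ‖G 1 0‖ := by
  have d₁ := det2_ne k o₁.2.2
  have d₂ := det2_ne k o₂.2.2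
  obtain ⟨α, β, e0, e1⟩ := exists_lin k d₁ (c0 k γ x₂ y₂) (c1 k γ x₂ y₂)
  have hp := mp_rel k h₁.root d₁ e0 e1
  have hr := mr_rel k hw o₁.2.2 e0 e1
  have hG1 := move_SL hG
  have hG2 := move_SL hG'
  have f1 : ∀ {x y}, k.det2 x y ≠ 0 → ((fr k w r₁ r₂ x y).1 : Matrix (Fin 2) (Fin 2) ℚ_[l₁]) =
      mp k r₁ x y := fun h => coe_toSL (det_mp k h₁.root h)
  have f2 : ∀ {x y}, 0 < -w.im * k.det2 x y →
      ((fr k w r₁ r₂ x y).2.2 : Matrix (Fin 2) (Fin 2) ℝ) = mr k w x y :=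
    fun h => coe_toSL (det_mr k h)
  rw [f1 d₂, hp, ← f1 d₁] at hG1
  rw [f2 o₂.2.2, hr, ← f2 o₁.2.2] at hG2
  have hA := cancel_SL _ hG1
  have hA' := cancel_SL _ hG2
  have hn := entry hm.1.1 hm.2.1 a₁ a₂ G
  rw [← p₁, ← p₂] at hn
  have hf := fro_rot (g := m₂.2.2⁻¹) (h := m₁.2.2) (s₂ ▸ hm.1.2.2.inv) (s₁ ▸ hm.1.2.2) G'
  refine ⟨α, β, ?_, ?_, ?_, ?_⟩
  · rw [o₁.1, Submodule.map_span, Submodule.span_le, Set.image_pair, e0, e1, o₂.1]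
    obtain ⟨a, ha⟩ := hγ 0 0
    obtain ⟨b, hb⟩ := hγ 0 1
    obtain ⟨c, hc⟩ := hγ 1 0
    obtain ⟨d, hd⟩ := hγ 1 1
    rintro _ (rfl | rfl)
    · exact (mem_span2 k).2 ⟨a, c, by rw [c0, ha, hc]⟩
    · exact (mem_span2 k).2 ⟨b, d, by rw [c1, hb, hd]⟩
  · rw [← o₁.2.1, ← o₂.2.1, ← abs_mul, ← abs_mul, ← det2_lin, e0, e1, det2_c]
  · have h3 : fro G' = fro (((Real.sqrt (-w.im * k.det2 x₂ y₂))⁻¹ *
        Real.sqrt (-w.im * k.det2 x₁ y₁)) • rm (k.io w α) (k.io w β)) := by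
      rw [hA']
      exact hf.symm
    have hwi : 0 < |w.im| := abs_pos.2 (conj_root k hw).2
    have q₂ : (0 : ℝ) < c₂ := by exact_mod_cast o₂.pos
    have h4 : ((Real.sqrt (-w.im * k.det2 x₂ y₂))⁻¹ * Real.sqrt (-w.im * k.det2 x₁ y₁)) ^ 2 * c₂ =
        c₁ := by
      rw [mul_pow, inv_pow, Real.sq_sqrt o₁.2.2.le, Real.sq_sqrt o₂.2.2.le, o₁.sqrt_eq, o₂.sqrt_eq]
      field_simp
    rw [h3, N_eq k hw, N_eq k hw, ← h4]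
    simp only [fro, rm, Matrix.smul_apply, Matrix.of_apply, Matrix.cons_val', Matrix.cons_val_zero,
      Matrix.cons_val_one, Matrix.cons_val_fin_one, smul_eq_mul]
    ring
  · have := congrArg (fun A : Matrix (Fin 2) (Fin 2) ℚ_[l₁] => ‖A 0 1‖) hA
    simp only [Matrix.of_apply, Matrix.cons_val', Matrix.cons_val_zero,
      Matrix.cons_val_one, Matrix.cons_val_fin_one, norm_mul, h₁.dif, mul_one] at this
    have hc : ‖(c₁ : ℚ_[l₁])‖ = ‖((k.det2 x₁ y₁ : ℚ) : ℚ_[l₁])‖ := by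
      rw [← o₁.2.1]
      rcases abs_choice (k.det2 x₁ y₁) with h | h <;> rw [h]
      simp
    rw [norm_mul, hc]
    exact this.trans hn

end LinkU

open LinkU in
theorem linkU : LinkUStmt := by
  intro k w l₁ l₂ _ _ r₁ r₂ _ hw h₁ h₂ B Ω hB hΩ
  have p₁ : l₁.Prime := Fact.out
  have p₂ : l₂.Prime := Fact.out
  obtain ⟨R, hR⟩ := exists_Box hΩ
  obtain ⟨a₀, ha₀, hint⟩ := exists_den B
  obtain ⟨b₁, hb₁⟩ := exists_Bd (B.map fun a : ℚ => (a : ℚ_[l₁]))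
  obtain ⟨b₂, hb₂⟩ := exists_Bd (B.map fun a : ℚ => (a : ℚ_[l₂]))
  obtain ⟨b₃, hb₃⟩ := exists_Bd (B.map fun a : ℚ => (a : ℝ))
  obtain ⟨e₁, he₁⟩ := small_mul l₁ (2 * (2 * 1 * (2 * (2 * R * b₁) * R)) * 1)
  obtain ⟨e₂, he₂⟩ := small_mul l₂ (2 * (2 * 1 * (2 * (2 * R * b₂) * R)) * 1)
  set a : ℕ := l₁ ^ e₁ * (l₂ ^ e₂ * a₀) with ha
  have ha0 : 0 < a := Nat.mul_pos (pow_pos p₁.pos _) (Nat.mul_pos (pow_pos p₂.pos _) ha₀)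
  obtain ⟨z, hz⟩ : ∃ z : ℤ, (z : ℚ) = (a : ℚ) ^ 2 * B.det := by
    obtain ⟨z1, h1⟩ := hint 0 0
    obtain ⟨z2, h2⟩ := hint 0 1
    obtain ⟨z3, h3⟩ := hint 1 0
    obtain ⟨z4, h4⟩ := hint 1 1
    refine ⟨(l₁ ^ e₁ * l₂ ^ e₂) ^ 2 * (z1 * z4 - z2 * z3), ?_⟩
    rw [ha, Matrix.det_fin_two]
    push_cast
    rw [h1, h2, h3, h4]
    ring
  have hz0 : z ≠ 0 := by
    rintro rfl
    have : (a : ℚ) ≠ 0 := by exact_mod_cast ha0.ne'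
    exact mul_ne_zero (pow_ne_zero 2 this) hB (by rw [← hz]; simp)
  refine ⟨z.natAbs, 2 * (a * (2 * (2 * R * b₃) * R)) ^ 2, Int.natAbs_pos.2 hz0, fun m => ?_⟩
  let A : GG l₁ l₂ × GG l₁ l₂ → Matrix (Fin 2) (Fin 2) ℚ_[l₁] := fun g =>
    (g.2.1 : Matrix (Fin 2) (Fin 2) ℚ_[l₁]) * B.map (fun a : ℚ => (a : ℚ_[l₁])) *
      (g.1.1⁻¹ : HH l₁)
  have hv : Continuous fun g : HH l₁ => (g : Matrix (Fin 2) (Fin 2) ℚ_[l₁]) :=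
    continuous_subtype_val
  have hA : Continuous A :=
    ((hv.comp (continuous_fst.comp continuous_snd)).matrix_mul continuous_const).matrix_mul
      (hv.comp (continuous_fst.comp continuous_fst).inv)
  let V : Set (GG l₁ l₂ × GG l₁ l₂) := (Box l₁ l₂ R ×ˢ Box l₁ l₂ R) ∩
    {g | ‖A g 1 0‖ < ((l₁ : ℝ) ^ m)⁻¹}
  have hV : IsOpen V := ((isOpen_Box R).prod (isOpen_Box R)).inter
    (isOpen_lt (hA.matrix_elem 1 0).norm continuous_const)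
  have hpos : (0 : ℝ) < ((l₁ : ℝ) ^ m)⁻¹ := by
    have : (0 : ℝ) < l₁ := by exact_mod_cast p₁.pos
    positivity
  refine ⟨Prod.map QuotientGroup.mk QuotientGroup.mk '' V,
    (QuotientGroup.isOpenMap_coe.prodMap QuotientGroup.isOpenMap_coe) V hV, ?_, ?_⟩
  · rintro _ ⟨g₁, hg₁, g₂, hg₂, rfl, d₁, d₂, q, hd⟩
    have hAe : A (g₁, g₂) = !![d₁, q; 0, d₂] := by
      have hd' : (g₂.1 : Matrix (Fin 2) (Fin 2) ℚ_[l₁]) * B.map (fun a : ℚ => (a : ℚ_[l₁])) =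
        !![d₁, q; 0, d₂] * (g₁.1 : Matrix (Fin 2) (Fin 2) ℚ_[l₁]) := hd
      simp only [A]
      rw [hd', Matrix.mul_assoc, ← Matrix.SpecialLinearGroup.coe_mul, mul_inv_cancel]
      simp
    refine ⟨(g₁, g₂), ⟨⟨hR hg₁, hR hg₂⟩, ?_⟩, ?_⟩
    · change ‖A (g₁, g₂) 1 0‖ < _
      simpa [hAe] using hpos
    · change ((QuotientGroup.mk g₁, QuotientGroup.mk g₂) : XX l₁ l₂ × XX l₁ l₂) =
        (QuotientGroup.mk (g₁ * 1), QuotientGroup.mk (g₂ * 1))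
      rw [mul_one, mul_one]
      rfl
  rintro L₁ L₂ c₁ c₂ x y x' y' o o' μ hm a₁ a₂ d₁ d₂ K₁ K₂ ⟨⟨g₁, g₂⟩, ⟨⟨hg₁, hg₂⟩, s₂⟩, e⟩ hs
  obtain ⟨m₁, hm₁⟩ : ∃ m₁, m₁ = ((up a₁ * Join.wl l₁, d₁, 1) : GG l₁ l₂) * μ := ⟨_, rfl⟩
  obtain ⟨m₂, hm₂⟩ : ∃ m₂, m₂ = ((up a₂ * Join.wl l₁, d₂, 1) : GG l₁ l₂) * μ := ⟨_, rfl⟩
  rw [← hm₁] at K₁
  rw [← hm₂] at K₂
  rw [← hm₁, ← hm₂] at e
  have f₁ : m₁.1 = up a₁ * Join.wl l₁ * μ.1 := by rw [hm₁]; rfl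
  have f₂ : m₂.1 = up a₂ * Join.wl l₁ * μ.1 := by rw [hm₂]; rfl
  have f₃ : m₁.2.2 = μ.2.2 := by rw [hm₁]; exact one_mul _
  have f₄ : m₂.2.2 = μ.2.2 := by rw [hm₂]; exact one_mul _
  obtain ⟨γ₁, hγ₁⟩ := QuotientGroup.eq.1 (congrArg Prod.fst e)
  obtain ⟨γ₂, hγ₂⟩ := QuotientGroup.eq.1 (congrArg Prod.snd e)
  rw [eq_inv_mul_iff_mul_eq, MonoidHom.comp_apply] at hγ₁ hγ₂
  replace K₁ := (Proj.mem_KK l₁ l₂).1 K₁
  replace K₂ := (Proj.mem_KK l₁ l₂).1 K₂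
  set δ₁ := Matrix.SpecialLinearGroup.map (RM (l₁ * l₂)).subtype γ₁ with hδ₁
  set δ₂ := Matrix.SpecialLinearGroup.map (RM (l₁ * l₂)).subtype γ₂ with hδ₂
  set B' := ((δ₂⁻¹ : SL(2, ℚ)) : Matrix (Fin 2) (Fin 2) ℚ) * B * δ₁ with hB'
  have q₁ := place g₁.1 g₂.1 δ₁ δ₂ B
  have q₂ := place g₁.2.1 g₂.2.1 δ₁ δ₂ B
  have q₃ := place g₁.2.2 g₂.2.2 δ₁ δ₂ B
  rw [← hB'] at q₁ q₂ q₃
  have t₁ : g₁.1 * _ = (m₁ * fr k w r₁ r₂ x y).1 := congrArg (fun g : GG l₁ l₂ => g.1) hγ₁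
  have t₂ : g₁.2.1 * _ = (m₁ * fr k w r₁ r₂ x y).2.1 := congrArg (fun g : GG l₁ l₂ => g.2.1) hγ₁
  have t₃ : g₁.2.2 * _ = (m₁ * fr k w r₁ r₂ x y).2.2 := congrArg (fun g : GG l₁ l₂ => g.2.2) hγ₁
  have u₁ : g₂.1 * _ = (m₂ * fr k w r₁ r₂ x' y').1 := congrArg (fun g : GG l₁ l₂ => g.1) hγ₂
  have u₂ : g₂.2.1 * _ = (m₂ * fr k w r₁ r₂ x' y').2.1 := congrArg (fun g : GG l₁ l₂ => g.2.1) hγ₂
  have u₃ : g₂.2.2 * _ = (m₂ * fr k w r₁ r₂ x' y').2.2 := congrArg (fun g : GG l₁ l₂ => g.2.2) hγ₂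
  erw [t₁, u₁] at q₁
  erw [t₂, u₂] at q₂
  erw [t₃, u₃] at q₃
  have bd : ∀ {F : Type} [NormedField F] {f₁ f₂ : SL(2, F)} {X G : Matrix (Fin 2) (Fin 2) F}
      {C : ℝ}, (f₂ : Matrix (Fin 2) (Fin 2) F) * X = G * f₁ → Bd G C →
      Bd (f₁ : Matrix (Fin 2) (Fin 2) F) 1 → Bd (f₂ : Matrix (Fin 2) (Fin 2) F) 1 →
      Bd X (2 * (2 * 1 * C) * 1) := by
    intro F _ f₁ f₂ X G C h hG b₁ b₂
    have : X = ((f₂⁻¹ : SL(2, F)) : Matrix (Fin 2) (Fin 2) F) * G * f₁ := by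
      rw [Matrix.mul_assoc, ← h, ← Matrix.mul_assoc, ← Matrix.SpecialLinearGroup.coe_mul,
        inv_mul_cancel]
      simp
    rw [this]
    exact (b₂.inv.mul hG).mul b₁
  have v₁ := bd q₁ ((Bd.mul (fun i j => (hg₂ i j).1.le) hb₁).mul
    (Bd.inv fun i j => (hg₁ i j).1.le)) K₁.1 K₂.1
  have v₂ := bd q₂ ((Bd.mul (fun i j => (hg₂ i j).2.1.le) hb₂).mul
    (Bd.inv fun i j => (hg₁ i j).2.1.le)) K₁.2 K₂.2
  have v₃ := (Bd.mul (A := (g₂.2.2 : Matrix (Fin 2) (Fin 2) ℝ)) (fun i j => (hg₂ i j).2.2.le)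
    hb₃).mul (Bd.inv (g := g₁.2.2) fun i j => (hg₁ i j).2.2.le)
  have hint' : ∀ i j, ∃ z : ℤ, (z : ℚ) = ((a : ℚ) • B') i j := by
    intro i j
    refine Disc.exists_int (p := l₁) (q := l₂) ?_ ?_ ?_
    · have : (a : ℚ) • B' = ((δ₂⁻¹ : SL(2, ℚ)) : Matrix (Fin 2) (Fin 2) ℚ) * ((a : ℚ) • B) * δ₁ := by
        rw [hB', Matrix.mul_smul, Matrix.smul_mul]
      rw [this]
      refine RM_mul (RM_mul (fun i j => ?_) fun i j => ?_) (fun i j => ?_) i j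
      · rw [hδ₂, ← map_inv]
        exact (γ₂⁻¹ i j).2
      · obtain ⟨z, hz⟩ := hint i j
        have : ((a : ℚ) • B) i j = ((l₁ ^ e₁ * l₂ ^ e₂ * z : ℤ) : ℚ) := by
          rw [ha, Matrix.smul_apply, smul_eq_mul]
          push_cast
          rw [hz]
          ring
        rw [this]
        exact intCast_mem _ _
      · exact (γ₁ i j).2
    · have := he₁ e₁ le_rfl (l₂ ^ e₂ * a₀) _ (v₁ i j)
      simpa [ha] using this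
    · have := he₂ e₂ le_rfl (l₁ ^ e₁ * a₀) _ (v₂ i j)
      rw [show l₂ ^ e₂ * (l₁ ^ e₁ * a₀) = a by rw [ha]; ring] at this
      simpa using this
  have sm : ∀ {F : Type} [Field F] [CharZero F] {f₁ f₂ G : Matrix (Fin 2) (Fin 2) F},
      f₂ * B'.map (fun a : ℚ => (a : F)) = G * f₁ →
      f₂ * ((a : ℚ) • B').map (fun a : ℚ => (a : F)) = ((a : F) • G) * f₁ := by
    intro F _ _ f₁ f₂ G h
    have : ((a : ℚ) • B').map (fun a : ℚ => (a : F)) = (a : F) • B'.map (fun a : ℚ => (a : F)) := by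
      ext i j
      simp
    rw [this, Matrix.mul_smul, h, Matrix.smul_mul]
  obtain ⟨α, β, a1, a2, a3, a5⟩ := relU k hw h₁ o o' hint' hm f₁ f₂ f₃ f₄ (sm q₁) (sm q₃)
  have hdet : |((a : ℚ) • B').det| = z.natAbs := by
    rw [Matrix.det_smul, hB', Matrix.det_mul, Matrix.det_mul, Matrix.SpecialLinearGroup.det_coe,
      Matrix.SpecialLinearGroup.det_coe, one_mul, mul_one, Fintype.card_fin, ← hz,
      Nat.cast_natAbs, Int.cast_abs]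
  rw [hdet] at a2
  have a2' : |k.N α - k.N β| * c₁ = (z.natAbs : ℕ) * c₂ := by
    unfold Fld.N
    exact_mod_cast a2
  have c₁0 : (0 : ℝ) < c₁ := by exact_mod_cast o.pos
  have c₂0 : (0 : ℝ) < c₂ := by exact_mod_cast o'.pos
  have hf : fro ((a : ℝ) • ((g₂.2.2 : Matrix (Fin 2) (Fin 2) ℝ) * B.map (fun a : ℚ => (a : ℝ)) *
      (g₁.2.2⁻¹ : SL(2, ℝ)))) ≤ 4 * (a * (2 * (2 * R * b₃) * R)) ^ 2 := by
    have := fun i j => sq_le_sq' (abs_le.1 (v₃ i j)).1 (abs_le.1 (v₃ i j)).2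
    have b1 := mul_le_mul_of_nonneg_left (this 0 0) (sq_nonneg (a : ℝ))
    have b2 := mul_le_mul_of_nonneg_left (this 0 1) (sq_nonneg (a : ℝ))
    have b3 := mul_le_mul_of_nonneg_left (this 1 0) (sq_nonneg (a : ℝ))
    have b4 := mul_le_mul_of_nonneg_left (this 1 1) (sq_nonneg (a : ℝ))
    simp only [fro, Matrix.smul_apply, smul_eq_mul, mul_pow (a : ℝ)]
    linarith
  have hf' := mul_le_mul_of_nonneg_right hf c₂0.le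
  have nα := mul_nonneg (N_nonneg k α) c₁0.le
  have nβ := mul_nonneg (N_nonneg k β) c₁0.le
  have na : ‖(a : ℚ_[l₁])‖ ≤ 1 := by simpa using Padic.norm_int_le_one (p := l₁) a
  refine ⟨α, β, a1, a2', by linarith, by linarith, ?_, ?_⟩
  · rintro rfl
    have hN0 : k.N 0 = 0 := by simp [Fld.N]
    rw [hN0, sub_zero, abs_of_nonneg (N_nonneg k α)] at a2'
    have hα : α ≠ 0 := by
      rintro rfl
      rw [hN0, zero_mul] at a2'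
      have : (0 : ℝ) < (z.natAbs : ℕ) := by exact_mod_cast Int.natAbs_pos.2 hz0
      exact (mul_pos this c₂0).ne a2'
    refine (hs α hα ?_).ne a2'.symm
    rintro _ ⟨v, hv, rfl⟩
    exact a1 ⟨v, hv, lin_zero k α v⟩
  · rw [a5, Matrix.smul_apply, smul_eq_mul, norm_mul]
    exact (mul_le_of_le_one_left (norm_nonneg _) na).trans (le_of_lt s₂)

end Pool.Agent.Lib.MP_9177b7_ag.J
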