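import Pool.Agent.Lib.MP_9177b7_ag.J.DynU1
import Pool.Agent.Lib.MP_9177b7_ag.J.LinkU
import Pool.Agent.Lib.MP_9177b7_ag.J.ExclU
import Pool.Agent.Lib.MP_9177b7_ag.J.AsmN

/-!
The case of unbounded depth.
-/

open MeasureTheory Filter Topology Set Pointwise Matrix
open scoped MatrixGroups ENNReal BoundedContinuousFunction

noncomputable section

namespace Pool.Agent.Lib.MP_9177b7_ag.J

open Fld Dyn

namespace DynN

variable (k : Fld) {l₁ l₂ : ℕ} [Fact l₁.Prime] [Fact l₂.Prime] {w : ℂ} {r₁ : ℚ_[l₁]}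
  {r₂ : ℚ_[l₂]} {ι : Type} {F : ℕ → ℕ+} {L : ι → ℕ → Submodule ℤ k.K} {c : ι → ℕ → ℚ}
  {e₁ e₂ : ι → ℕ → ℕ} {h : ∀ n, k.SF (F n) → ℝ} {κ : ∀ n, Measure (MM l₁ l₂ × k.SF (F n))}

theorem core_sub (C : Core k r₁ r₂ F L c e₁ e₂ h κ) {ms : ℕ → ℕ} (hs : Tendsto ms atTop atTop) :
    Core k r₁ r₂ (fun n => F (ms n)) (fun i n => L i (ms n)) (fun i n => c i (ms n))
      (fun i n => e₁ i (ms n)) (fun i n => e₂ i (ms n)) (fun n => h (ms n)) (fun n => κ (ms n)) :=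
  ⟨C.ne, C.o₁, C.o₂, C.d₁, C.d₂, C.g₁, C.g₂, fun _ => C.kap _, fun i _ => C.lat i _,
    fun i _ => C.adm i _, fun i _ => C.dep₁ i _, fun i _ => C.dep₂ i _,
    fun i a ha => hs.eventually (C.big i a ha), fun i j hij B => hs.eventually (C.str i j hij B),
    fun _ => C.bdd _⟩

theorem core_Dd (C : Core k r₁ r₂ F L c e₁ e₂ h κ) (i : ι) (n : ℕ) :
    Dd k l₁ l₂ (F n) (L i n) (c i n) (e₁ i n) (e₂ i n) :=
  ⟨C.lat i n, C.adm i n, C.dep₁ i n, C.dep₂ i n⟩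

variable (w r₁ r₂ c) in
/-- The adapted elements. -/
def AU (n : ℕ) (i : ι) : GG l₁ l₂ := AA (yy k w r₁ (c i n)) (yy k w r₂ (c i n))

theorem ph_eq (C : Core k r₁ r₂ F L c e₁ e₂ h κ) (i : ι) (n : ℕ) {q : MM l₁ l₂ × k.SF (F n)}
    (hq : RR k r₁ r₂ (q.1 : GG l₁ l₂) q.2) {x y : k.K} (o : OB k w (act q.2 (L i n)) (c i n) x y) :
    AU k w r₁ r₂ c n i * q.1 * fr k w r₁ r₂ x y ∈ Proj.KK l₁ l₂ ∧
      ph k w r₁ r₂ (AU k w r₁ r₂ c n) (fun i => L i n) q i =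
        QuotientGroup.mk (AU k w r₁ r₂ c n i * q.1 * fr k w r₁ r₂ x y) := by
  refine ⟨adp2 k lat C.g₁ C.g₂ (core_Dd k C i n) q.1.2 hq o (by simp) (by simp), ?_⟩
  simp only [ph]
  rw [pt_eq k C.g₁.root C.g₂.root o, smul_smul, MulAction.Quotient.smul_mk, smul_eq_mul]

variable [PolishSpace (XX l₁ l₂)] [Fintype ι]

variable (w) in
/-- The adapted measures. -/
def nU (C : Core k r₁ r₂ F L c e₁ e₂ h κ) (n : ℕ) : ProbabilityMeasure ((ι → XX l₁ l₂) × II) :=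
  an k w (C.kap n) (AU k w r₁ r₂ c n) (fun i => L i n) (h n)

theorem U_marg (hw : k.Root w) (C : Core k r₁ r₂ F L c e₁ e₂ h κ) (i : ι)
    (he : Tendsto (e₁ i) atTop atTop) {μ : Measure (XX l₁ l₂)} (nice : (sp l₁ l₂).Nice μ)
    (low : (sp l₁ l₂).Low μ) {ν : ProbabilityMeasure ((ι → XX l₁ l₂) × II)}
    (hν : Tendsto (nU k w C) atTop (𝓝 ν)) :
    ((ν : Measure ((ι → XX l₁ l₂) × II)).map Prod.fst).map (fun z => z i) = μ := by
  have p₁ : l₁.Prime := Fact.out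
  have hl : (1 : ℝ) < l₁ := by exact_mod_cast p₁.one_lt
  have hc : Continuous fun z : (ι → XX l₁ l₂) × II => z.1 i := (continuous_apply i).comp continuous_fst
  have h1 := ProbabilityMeasure.tendsto_map_of_tendsto_of_continuous _ ν hν hc
  let u : ℚ_[l₁]ˣ := Units.mk0 (l₁ : ℚ_[l₁]) (by exact_mod_cast p₁.ne_zero)
  let t : ℕ → ℚ_[l₁]ˣ := fun n => u ^ (e₁ i n / 2)
  have ht : ∀ n, (t n : ℚ_[l₁]) = (l₁ : ℚ_[l₁]) ^ (e₁ i n / 2) := fun n => by simp [t, u]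
  have nt : ∀ n, ‖(t n : ℚ_[l₁])‖ = ((l₁ : ℝ) ^ (e₁ i n / 2))⁻¹ := fun n => by
    rw [ht, norm_pow, Padic.norm_p, inv_pow]
  let μs : ℕ → Measure (XX l₁ l₂) := fun n =>
    ((nU k w C n : Measure ((ι → XX l₁ l₂) × II)).map Prod.fst).map (fun z => z i)
  rw [Measure.map_map (measurable_pi_apply i) measurable_fst]
  refine hm l₁ C.o₁ (sp l₁ l₂) μ (fun n => (μs n).map fun x : XX l₁ l₂ => ((dg (t n), 1) : GG l₁ l₂) • x) _ _
    (fun n => (t n)⁻¹) (fun n => (t n : ℚ_[l₁]) ^ 2 * yy k w r₁ (c i n)) nice low ?_ ?_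
    (fun n => ?_) (fun n τ hτ => ?_) (fun n => ?_) h1
  · choose L' c' a1 a2 a3 using fun n => anc_frame k hw C.ne C.g₁ C.g₂ (core_Dd k C i n)
      (Nat.mul_div_le _ 2) (ht n)
    have := tight1 k hw C.kap (Φ := fun n q => ((dg (t n), 1) : GG l₁ l₂) •
      ph k w r₁ r₂ (AU k w r₁ r₂ c n) (fun i => L i n) q i)
      (fun n => (continuous_const_smul _).measurable.comp (ph_meas1 k _ _ i)) a1 a2
      fun n q hq x y o => a3 n _ q.1.2 _ hq x y o
    refine this.subset ?_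
    rintro _ ⟨n, rfl⟩
    refine ⟨n, ?_⟩
    simp only [μs, nU, an_coord]
    exact (Measure.map_map (continuous_const_smul _).measurable (ph_meas1 k _ _ i)).symm
  · simp only [Units.val_inv_eq_inv_val, norm_inv, nt, inv_inv]
    refine (tendsto_pow_atTop_atTop_of_one_lt hl).comp ?_
    exact (Nat.tendsto_div_const_atTop two_ne_zero).comp he
  · rw [norm_mul, norm_pow, nt, norm_yy k w C.g₁ (C.lat i n) (C.dep₁ i n), inv_pow, ← pow_mul,
      inv_mul_eq_div, one_le_div (by positivity)]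
    exact pow_le_pow_right₀ hl.le (Nat.div_mul_le_self _ 2)
  · have h2 := fst_inv k hw C.ne C.o₁ C.o₂ C.g₁ C.g₂ (C.kap n) (AU k w r₁ r₂ c n)
      (fun i => C.lat i n) (fun i => C.adm i n) (h n) (dg_MM₁ (τ := τ⁻¹) (by simp [hτ]))
      (fun _ => rfl)
    have h3 : (μs n).map ((AU k w r₁ r₂ c n i * (dg τ⁻¹, 1) * (AU k w r₁ r₂ c n i)⁻¹) • ·) = μs n :=
      map_inv (continuous_const_smul _).measurable h2 (measurable_pi_apply i)
        (continuous_const_smul _).measurable fun _ => rfl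
    refine map_inv (T := fun x : XX l₁ l₂ => ((up ((t n : ℚ_[l₁]) ^ 2 * yy k w r₁ (c i n)) * dg τ *
      up (-((t n : ℚ_[l₁]) ^ 2 * yy k w r₁ (c i n))), 1) : GG l₁ l₂) • x)
      (continuous_const_smul _).measurable h3 (continuous_const_smul _).measurable
      (continuous_const_smul _).measurable fun x => ?_
    rw [smul_smul, smul_smul]
    congr 1
    refine Prod.ext ?_ (by simp [AU, AA])
    change dg (t n) * (up _ * Join.wl l₁ * dg τ⁻¹ * (up _ * Join.wl l₁)⁻¹) = _ * dg (t n)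
    rw [ad_conj, ← mul_neg, ← Group.dg_up, ← Group.dg_up, mul_assoc _ _ (dg τ),
      (DG_dg (t n)).inv.comm (DG_dg τ)]
    simp only [mul_assoc, inv_mul_cancel_left, inv_mul_cancel, mul_one]
  · change Measure.map _ _ = Measure.map (fun x : XX l₁ l₂ => ((dg (t n)⁻¹, 1) : GG l₁ l₂) • x)
      (Measure.map _ (Measure.map _ _))
    have e : (fun x : XX l₁ l₂ => ((dg (t n)⁻¹, 1) : GG l₁ l₂) • x) ∘
        (fun x : XX l₁ l₂ => ((dg (t n), 1) : GG l₁ l₂) • x) = id := by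
      funext z
      simp only [Function.comp, smul_smul, ← dg_inv, Prod.mk_mul_mk, inv_mul_cancel, mul_one]
      exact one_smul _ z
    rw [Measure.map_map (continuous_const_smul _).measurable (continuous_const_smul _).measurable,
      e, Measure.map_id]
    exact (Measure.map_map (measurable_pi_apply i) measurable_fst).symm

theorem U_gr (hw : k.Root w) (C : Core k r₁ r₂ F L c e₁ e₂ h κ)
    (he : ∀ i, Tendsto (e₁ i) atTop atTop) {d : ℕ} (hd : ∀ i j n, e₁ i n ≤ e₁ j n + d)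
    {ν : ProbabilityMeasure ((ι → XX l₁ l₂) × II)} (hν : Tendsto (nU k w C) atTop (𝓝 ν)) {i j : ι}
    (hij : i ≠ j) {B : Matrix (Fin 2) (Fin 2) ℚ} {Ω : Set (GG l₁ l₂)} (hB : B.det ≠ 0)
    (hΩ : IsCompact Ω) : ((ν : Measure ((ι → XX l₁ l₂) × II)).map Prod.fst)
      {z | (z i, z j) ∈ (sp l₁ l₂).GrU B Ω} = 0 := by
  obtain ⟨Nn, R, hN, hU⟩ := linkU k w l₁ l₂ r₁ r₂ hw C.g₁ C.g₂ B Ω hB hΩ
  refine le_antisymm (ENNReal.le_of_forall_pos_le_add fun η hη _ => ?_) bot_le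
  obtain ⟨m, e₀, hm⟩ := exclU tightQ excl' k l₁ r₁ C.g₁.root C.d₁ C.o₁ Nn d R (η / 4) hN
    (by positivity)
  obtain ⟨U, hUo, hUs, hU'⟩ := hU m
  have hV : IsOpen {z : ι → XX l₁ l₂ | (z i, z j) ∈ U} :=
    hUo.preimage ((continuous_apply i).prodMk (continuous_apply j))
  have h1 := ProbabilityMeasure.tendsto_map_of_tendsto_of_continuous _ ν hν continuous_fst
  refine (measure_mono (t := {z : ι → XX l₁ l₂ | (z i, z j) ∈ U}) fun z hz => hUs hz).trans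
    ((ProbabilityMeasure.le_liminf_measure_open_of_tendsto h1 hV).trans ?_)
  refine liminf_le_of_frequently_le' (Eventually.frequently ?_)
  filter_upwards [(he i).eventually_ge_atTop e₀, (he j).eventually_ge_atTop e₀, C.str i j hij Nn]
    with n n₁ n₂ hn
  have := hm (F n) _ _ _ _ _ _ (C.lat i n) (C.lat j n) (C.adm i n) (C.adm j n) (C.dep₁ i n)
    (C.dep₁ j n) n₁ n₂ (hd i j n) (hd j i n)
  change (Measure.map Prod.fst (nU k w C n : Measure ((ι → XX l₁ l₂) × II))) _ ≤ _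
  rw [nU, an_fst]
  refine (kap_le k (C.kap n) (ph_meas k _ _) hV.measurableSet _ fun q hq hs => ?_).trans
    ((ENNReal.ofReal_le_ofReal (mul_le_mul_of_nonneg_left this (by norm_num))).trans (by
      rw [mul_div_cancel₀ _ (by norm_num)]
      simp))
  obtain ⟨x, y, o⟩ := exists_OB' k hw (act_lat k (C.lat i n) (C.adm i n) q.2).1
  obtain ⟨x', y', o'⟩ := exists_OB' k hw (act_lat k (C.lat j n) (C.adm j n) q.2).1
  obtain ⟨a1, a2⟩ := ph_eq k C i n hq o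
  obtain ⟨b1, b2⟩ := ph_eq k C j n hq o'
  rw [mem_ofPred_eq, a2, b2] at hs
  exact hU' _ _ _ _ _ _ _ _ o o' _ q.1.2 _ _ _ _ a1 b1 hs fun α hα hle =>
    hn α hα (AsmN.strict_act (C.lat i n) (C.adm i n) (C.lat j n) (C.adm j n) q.2 hle)

theorem U_lim (hw : k.Root w) (C : Core k r₁ r₂ F L c e₁ e₂ h κ) {N : ℕ} (hN : 0 < N) {G : ℕ → ℕ}
    (he₂ : ∀ i, Tendsto (e₂ i) atTop atTop) {d : ℕ} (hd : ∀ i j n, e₁ i n ≤ e₁ j n + d)
    (hG : ∀ n, G n ∣ F n) (hG' : ∀ i (C : ℕ), ∀ᶠ n in atTop, (G n).factorization l₁ + C ≤ e₁ i n)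
    (hh : ∀ n s t, One (G n) t → h n (t ^ N * s) = h n s) (i₀ : ι) {X₁ : ι → ℚ_[l₁]}
    {X₂ : ι → ℚ_[l₂]} (x₁ : ∀ i, X₁ i ≠ 0) (x₂ : ∀ i, X₂ i ≠ 0)
    (hX₁ : ∀ i, Tendsto (fun n => yy k w r₁ (c i n) / yy k w r₁ (c i₀ n)) atTop (𝓝 (X₁ i)))
    (hX₂ : ∀ i, Tendsto (fun n => yy k w r₂ (c i n) / yy k w r₂ (c i₀ n)) atTop (𝓝 (X₂ i)))
    {μ : Measure (XX l₁ l₂)} [hμ : IsProbabilityMeasure μ]
    (iμ : ∀ g : HH l₁, μ.map (((g, 1) : GG l₁ l₂) • ·) = μ)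
    {ν : ProbabilityMeasure ((ι → XX l₁ l₂) × II)} (hν : Tendsto (nU k w C) atTop (𝓝 ν)) :
    (ν : Measure ((ι → XX l₁ l₂) × II)) = (Measure.pi fun _ => μ).prod
      ((ν : Measure ((ι → XX l₁ l₂) × II)).map Prod.snd) := by
  have hl₁ : (1 : ℝ) < l₁ := by exact_mod_cast (Fact.out : l₁.Prime).one_lt
  have hl₂ : (1 : ℝ) < l₂ := by exact_mod_cast (Fact.out : l₂.Prime).one_lt
  obtain ⟨nice, low, erg⟩ := mix_stmt l₁ l₂ C.ne μ hμ iμ
  have he₁ : ∀ i, Tendsto (e₁ i) atTop atTop := fun i => tendsto_atTop.2 fun b =>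
    (hG' i b).mono fun n hn => le_of_add_le_right hn
  have ny₁ := fun n => norm_yy k w C.g₁ (C.lat i₀ n) (C.dep₁ i₀ n)
  have ny₂ := fun n => norm_yy k w C.g₂ (C.lat i₀ n) (C.dep₂ i₀ n)
  have inv₁ : ∀ σ : ℚ_[l₁], (ν : Measure ((ι → XX l₁ l₂) × II)).map
      (Prod.map ((fun i => ((up (σ * X₁ i), 1) : GG l₁ l₂)) • ·) id) = ν := by
    intro σ
    obtain ⟨θ, t1, t2⟩ := conv hN σ (y := fun n => yy k w r₁ (c i₀ n)) (by
      simp_rw [ny₁]
      exact (tendsto_pow_atTop_atTop_of_one_lt hl₁).comp (he₁ i₀))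
    refine lim_inv (G := ι → GG l₁ l₂) (A := fun p => Prod.map (p.1 • ·) id p.2)
      ((continuous_fst.smul (continuous_fst.comp continuous_snd)).prodMk
        (continuous_snd.comp continuous_snd))
      (g := fun n i => AU k w r₁ r₂ c n i * (((dg (θ n), 1) : GG l₁ l₂) * 1) ^ N *
        (AU k w r₁ r₂ c n i)⁻¹) (tendsto_pi_nhds.2 fun i => ?_) hν ?_
    · refine ((t2 _ _ (hX₁ i)).prodMk_nhds tendsto_const_nhds).congr fun n => ?_
      exact Prod.ext (by simp [AU, AA]) (by simp [AU, AA]; rfl)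
    · obtain ⟨b, hb⟩ := pow_unbounded_of_one_lt ‖σ / (2 * N)‖ hl₁
      filter_upwards [hG' i₀ b] with n hn
      have hG0 : G n ≠ 0 := fun h0 => (F n).ne_zero (Nat.eq_zero_of_zero_dvd (h0 ▸ hG n))
      obtain ⟨t, a1, a2, a3⟩ := (loc k l₁ l₂ r₁ r₂ C.ne C.o₁ C.o₂ C.g₁ C.g₂ (F n)).2.2.2.2.1 (G n)
        (θ n) (hG n) (t1 n).1 ((t1 n).2.trans (by
          rw [ny₁, norm_fac hG0, div_le_iff₀ (by positivity), inv_mul_eq_div,
            le_div_iff₀ (by positivity)]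
          calc _ ≤ (l₁ : ℝ) ^ b * (l₁ : ℝ) ^ (G n).factorization l₁ := by gcongr
            _ ≤ _ := by
              rw [← pow_add, add_comm]
              exact pow_le_pow_right₀ hl₁.le hn))
      refine an_inv k (C.kap n) (g := (⟨_, dg_MM₁ (t1 n).1⟩, t)) a3 (b := 1) (MM l₁ l₂).one_mem.1
        (fun s i => ?_) (fun s => hh n s t a1) fun _ => rfl
      have b1 := act_lat k (C.lat i n) (C.adm i n) s
      simp only
      rw [act_mul k (C.lat i n) (C.adm i n), ptriv k hw C.g₁.root C.g₂.root b1.1 b1.2 a2, one_smul]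
  have h1 := ProbabilityMeasure.tendsto_map_of_tendsto_of_continuous _ ν hν continuous_fst
  have inv₂ : ∀ σ : ℚ_[l₂], ((ν : Measure ((ι → XX l₁ l₂) × II)).map Prod.fst).map
      ((fun i => ((1, up (σ * X₂ i), 1) : GG l₁ l₂)) • ·) =
      (ν : Measure ((ι → XX l₁ l₂) × II)).map Prod.fst := by
    intro σ
    obtain ⟨θ, t1, t2⟩ := conv one_pos σ (y := fun n => yy k w r₂ (c i₀ n)) (by
      simp_rw [ny₂]
      exact (tendsto_pow_atTop_atTop_of_one_lt hl₂).comp (he₂ i₀))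
    refine lim_inv (G := ι → GG l₁ l₂) (A := fun p => p.1 • p.2) continuous_smul
      (g := fun n i => AU k w r₁ r₂ c n i * ((1, dg (θ n), 1) : GG l₁ l₂) *
        (AU k w r₁ r₂ c n i)⁻¹) (tendsto_pi_nhds.2 fun i => ?_) h1 (Eventually.of_forall fun n => ?_)
    · refine (tendsto_const_nhds.prodMk_nhds
        ((t2 _ _ (hX₂ i)).prodMk_nhds tendsto_const_nhds)).congr fun n => ?_
      exact Prod.ext (by simp [AU, AA]) (Prod.ext (by simp [AU, AA]) (by simp [AU, AA]))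
    · exact fst_inv k hw C.ne C.o₁ C.o₂ C.g₁ C.g₂ (C.kap n) (AU k w r₁ r₂ c n)
        (fun i => C.lat i n) (fun i => C.adm i n) (h n) (dg_MM₂ (t1 n).1) (fun _ => rfl)
  have hπ : (ν : Measure ((ι → XX l₁ l₂) × II)).map Prod.fst = Measure.pi fun _ => μ :=
    joinU' l₁ C.o₁ (sp l₁ l₂) μ l₂ (fun s => ((up s, 1) : CC l₂)) nice
      (Disc.continuous_up.prodMk continuous_const) (fun s s' => Prod.ext (Group.up_add s s') (mul_one _).symm)
      (fun κ _ y hy => (erg κ).2.2 y hy) ι _ X₁ X₂ x₁ x₂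
      (Measure.isProbabilityMeasure_map measurable_fst.aemeasurable)
      (fun i => U_marg k hw C i (he₁ i) nice low hν)
      (fun σ => map_inv ((continuous_const_smul _).prodMap continuous_id).measurable (inv₁ σ)
        measurable_fst (JoinN.hN_meas (sp l₁ l₂) _) fun _ => rfl) inv₂
      fun i j hij B Ω hB hΩ => U_gr k hw C he₁ hd hν hij hB hΩ
  exact indep hπ (fun _ => JoinN.hN_meas (sp l₁ l₂) _) (nice.mixU ι X₁ x₁) inv₁

end DynN

open DynN in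
theorem dynU : DynUStmt := by
  intro k w l₁ l₂ _ _ r₁ r₂ ι _ N F L c e₁ e₂ h κ G hw hN C he₂ ⟨d, hd⟩ hG hG' hh φ
  rcases isEmpty_or_nonempty ι with _ | ⟨⟨i₀⟩⟩
  · simp
  have := (disc l₁ l₂ C.ne).1
  have : PolishSpace (XX l₁ l₂) := pol _ _
  obtain ⟨jX, hjc, hj, hjm⟩ := proj' l₁ l₂ C.ne
  obtain ⟨μ, hμ, iμ⟩ := exists_mu k hw C.ne C.g₁ C.g₂ C.d₁ C.d₂
  obtain ⟨gμ, -⟩ := hom' l₁ l₂ C.ne μ hμ iμ
  have ht : IsTightMeasureSet (range fun n => (nU k w C n :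
      Measure ((ι → XX l₁ l₂) × II)).map Prod.fst) := by
    refine tight_pi fun i => ?_
    simp_rw [nU, an_coord]
    refine tight1 k hw C.kap (Φ := fun n q => ph k w r₁ r₂ (AU k w r₁ r₂ c n) (fun i => L i n) q i)
      (fun n => ph_meas1 k _ _ i) (C.lat i) (C.adm i) fun n q hq x y o => ?_
    exact ⟨_, (ph_eq k C i n hq o).1, by simp [AU, AA, fr], (ph_eq k C i n hq o).2⟩
  refine tendsto_of_subseq_tendsto fun ns hns => ?_
  have hK : ∀ (l : ℕ) [Fact l.Prime], IsCompact (Metric.closedBall (0 : ℚ_[l]) ((l : ℝ) ^ d) ∩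
      {x | ((l : ℝ) ^ d)⁻¹ ≤ ‖x‖}) := fun l _ =>
    (isCompact_closedBall _ _).inter_right (isClosed_le continuous_const continuous_norm)
  have hy : ∀ {l : ℕ} [Fact l.Prime] {a b : ℚ_[l]} {e e' : ℕ}, ‖a‖ = (l : ℝ) ^ e →
      ‖b‖ = (l : ℝ) ^ e' → e ≤ e' + d → e' ≤ e + d → a / b ∈ Metric.closedBall (0 : ℚ_[l])
        ((l : ℝ) ^ d) ∩ {x | ((l : ℝ) ^ d)⁻¹ ≤ ‖x‖} := by
    intro l _ a b e e' ha hb h1 h2
    have hl : (1 : ℝ) < l := by exact_mod_cast (Fact.out : l.Prime).one_lt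
    rw [mem_inter_iff, mem_closedBall_zero_iff, mem_ofPred_eq, _root_.norm_div, ha, hb,
      div_le_iff₀ (by positivity), le_div_iff₀ (by positivity), inv_mul_le_iff₀ (by positivity),
      ← pow_add, ← pow_add]
    exact ⟨pow_le_pow_right₀ hl.le (by omega), pow_le_pow_right₀ hl.le (by omega)⟩
  obtain ⟨P, hPm, ms, hms, hP⟩ := (isCompact_univ_pi fun _ : ι => (hK l₁).prod (hK l₂)).tendsto_subseq
    (x := fun n i => (yy k w r₁ (c i (ns n)) / yy k w r₁ (c i₀ (ns n)),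
      yy k w r₂ (c i (ns n)) / yy k w r₂ (c i₀ (ns n))))
    fun n i _ => ⟨hy (norm_yy k w C.g₁ (C.lat i _) (C.dep₁ i _))
        (norm_yy k w C.g₁ (C.lat i₀ _) (C.dep₁ i₀ _)) (hd _ _ _).1 (hd _ _ _).1,
      hy (norm_yy k w C.g₂ (C.lat i _) (C.dep₂ i _))
        (norm_yy k w C.g₂ (C.lat i₀ _) (C.dep₂ i₀ _)) (hd _ _ _).2 (hd _ _ _).2⟩
  obtain ⟨ν, ms', hms', hν⟩ := exists_sub (fun n => nU k w C (ns (ms n))) (ht.subset (by
      rintro _ ⟨n, rfl⟩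
      exact ⟨_, rfl⟩))
  refine ⟨fun n => ms (ms' n), ?_⟩
  have hs : Tendsto (fun n => ns (ms (ms' n))) atTop atTop :=
    hns.comp (hms.tendsto_atTop.comp hms'.tendsto_atTop)
  have hP' := fun i => tendsto_pi_nhds.1 (hP.comp hms'.tendsto_atTop) i
  have nz : ∀ {l : ℕ} [Fact l.Prime] {x : ℚ_[l]}, ((l : ℝ) ^ d)⁻¹ ≤ ‖x‖ → x ≠ 0 := by
    rintro l _ x hx rfl
    have : (0 : ℝ) < l := by exact_mod_cast (Fact.out : l.Prime).pos
    exact absurd hx (by simp; positivity)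
  have hlim := U_lim k hw (core_sub k C hs) hN (G := fun n => G (ns (ms (ms' n))))
    (fun i => (he₂ i).comp hs) (fun i j n => (hd i j _).1) (fun n => hG _)
    (fun i b => hs.eventually (hG' i b)) (fun n => hh _) i₀ (X₁ := fun i => (P i).1)
    (X₂ := fun i => (P i).2) (fun i => nz (hPm i trivial).1.2) (fun i => nz (hPm i trivial).2.2)
    (fun i => (continuous_fst.tendsto _).comp (hP' i))
    (fun i => (continuous_snd.tendsto _).comp (hP' i)) iμ hν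
  obtain ⟨f, hf, hf0⟩ := int_pi μ fun i => (φ i).compContinuous ⟨jX, hjc⟩
  have hint : ∀ i, ∫ y, ((φ i).compContinuous ⟨jX, hjc⟩) y ∂μ = ∫ z, φ i z ∂muJ := by
    intro i
    rw [← hjm μ hμ gμ, integral_map hjc.measurable.aemeasurable
      (φ i).continuous.aestronglyMeasurable]
    rfl
  refine (lim_zero hν hlim f hf0).congr fun n => ?_
  generalize ns (ms (ms' n)) = n'
  refine an_int k _ _ _ (C.bdd _) f (fun s => ∏ i, φ i (CM.jL ((act s (L i n')).map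
    (k.ioL w))) - ∏ i, ∫ z, φ i z ∂muJ) fun q hq => ?_
  rw [hf]
  simp only [hint]
  congr 1
  refine Finset.prod_congr rfl fun i _ => ?_
  obtain ⟨x, y, o⟩ := exists_OB' k hw (act_lat k (C.lat i n') (C.adm i n') q.2).1
  obtain ⟨a1, a2⟩ := ph_eq k C i n' hq o
  change φ i (jX _) = _
  rw [a2, jX_mk k (r₁ := r₁) (r₂ := r₂) hw hj o a1 q.1.2 (by simp [AU, AA])]

end Pool.Agent.Lib.MP_9177b7_ag.J
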