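import Pool.Agent.Lib.MP_9177b7_ag.J.DynB2

/-!
The case of unbounded depth: unipotent limits and marginals.
-/

open MeasureTheory Filter Topology Set Pointwise Matrix
open scoped MatrixGroups ENNReal BoundedContinuousFunction

noncomputable section

namespace Pool.Agent.Lib.MP_9177b7_ag.J.DynN

open Fld Dyn

section padic

variable {l : ℕ} [Fact l.Prime]

theorem dg_inv {F : Type} [Field F] (t : Fˣ) : (dg t)⁻¹ = dg t⁻¹ := by
  ext i j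
  fin_cases i <;> fin_cases j <;> simp [dg, inv00, inv01, inv10, inv11]

theorem ad_dg (a : ℚ_[l]) {m : HH l} (hm : DG m) (t : ℚ_[l]ˣ) (g : HH l) :
    up a * Join.wl l * m * (dg t * g) =
      (dg t)⁻¹ * (up ((t : ℚ_[l]) ^ 2 * a) * Join.wl l * m * g) := by
  rw [← Group.dg_up, ← mul_assoc, mul_assoc _ m, hm.comm (DG_dg t)]
  have h := Join.wl_dg (l := l) t
  rw [mul_inv_eq_iff_eq_mul] at h
  calc up a * Join.wl l * (dg t * m) * g = up a * (Join.wl l * dg t) * m * g := by group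
    _ = _ := by rw [h]; group

theorem conv {N : ℕ} (hN : 0 < N) (σ : ℚ_[l]) {y : ℕ → ℚ_[l]}
    (hy : Tendsto (fun n => ‖y n‖) atTop atTop) : ∃ θ : ℕ → ℚ_[l]ˣ,
      (∀ n, ‖(θ n : ℚ_[l])‖ = 1 ∧ ‖(θ n : ℚ_[l]) - 1‖ ≤ ‖σ / (2 * N)‖ / ‖y n‖) ∧
      ∀ (a : ℕ → ℚ_[l]) (X : ℚ_[l]), Tendsto (fun n => a n / y n) atTop (𝓝 X) →
        Tendsto (fun n => up (a n) * Join.wl l * dg (θ n) ^ N * (up (a n) * Join.wl l)⁻¹) atTop
          (𝓝 (up (σ * X))) := by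
  set b := σ / (2 * N) with hb
  have h1 : ∀ z : ℚ_[l], ‖z‖ < 1 → ‖1 + z‖ = 1 := fun z hz => by
    rw [IsUltrametricDist.norm_add_eq_max_of_norm_ne_norm (by simpa using hz.ne'), norm_one,
      max_eq_left hz.le]
  have h2 : ∀ n, ∃ θ : ℚ_[l]ˣ, ‖(θ : ℚ_[l])‖ = 1 ∧ ‖(θ : ℚ_[l]) - 1‖ ≤ ‖b‖ / ‖y n‖ ∧
      (‖b / y n‖ < 1 → (θ : ℚ_[l]) = 1 + b / y n) := by
    intro n
    by_cases h : ‖b / y n‖ < 1
    · exact ⟨Units.mk0 (1 + b / y n) (norm_ne_zero_iff.1 (by rw [h1 _ h]; simp)), h1 _ h,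
        by simp, fun _ => rfl⟩
    · exact ⟨1, by simp, by simp; positivity, fun h' => absurd h' h⟩
  choose θ t1 t2 t3 using h2
  refine ⟨θ, fun n => ⟨t1 n, t2 n⟩, fun a X ha => ?_⟩
  have h0 : Tendsto (fun n => ‖b‖ / ‖y n‖) atTop (𝓝 0) := hy.const_div_atTop _
  have hθ : Tendsto (fun n => (θ n : ℚ_[l])) atTop (𝓝 1) :=
    tendsto_iff_norm_sub_tendsto_zero.2 (squeeze_zero (fun _ => norm_nonneg _) t2 h0)
  have hθ' : Tendsto (fun n => ((θ n : ℚ_[l]) ^ N)⁻¹) atTop (𝓝 1) := by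
    simpa using (hθ.pow N).inv₀ (by simp)
  have e : ∀ n, up (a n) * Join.wl l * dg (θ n) ^ N * (up (a n) * Join.wl l)⁻¹ =
      up (a n * (1 - (((θ n : ℚ_[l]) ^ N)⁻¹) ^ 2)) * dg (θ n ^ N)⁻¹ := by
    intro n
    rw [dg_pow, ← inv_inv (θ n ^ N), ad_conj, mul_assoc, Disc.dg_up, ← mul_assoc, Disc.up_mul,
      inv_inv]
    congr 2
    simp only [Units.val_inv_eq_inv_val, Units.val_pow_eq_pow_val]
    ring
  simp_rw [e]
  rw [← mul_one (up (σ * X))]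
  refine ((Disc.continuous_up.tendsto _).comp ?_).mul ?_
  · have hs : Tendsto (fun n => ∑ j ∈ Finset.range (2 * N), (θ n : ℚ_[l]) ^ j) atTop
        (𝓝 (∑ j ∈ Finset.range (2 * N), (1 : ℚ_[l]) ^ j)) :=
      tendsto_finsetSum _ fun j _ => hθ.pow j
    have h3 := ((ha.const_mul b).mul hs).mul (hθ'.pow 2)
    have hN' : (N : ℚ_[l]) ≠ 0 := by exact_mod_cast hN.ne'
    have e2 : b * X * (∑ j ∈ Finset.range (2 * N), (1 : ℚ_[l]) ^ j) * 1 ^ 2 = σ * X := by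
      simp only [one_pow, Finset.sum_const, Finset.card_range, nsmul_eq_mul, hb]
      push_cast
      field_simp
    rw [e2] at h3
    refine h3.congr' ?_
    filter_upwards [h0.eventually (gt_mem_nhds one_pos)] with n hn
    have h4 := t3 n (by rwa [_root_.norm_div])
    have h5 := mul_geom_sum (θ n : ℚ_[l]) (2 * N)
    have h6 : (θ n : ℚ_[l]) ^ N ≠ 0 := pow_ne_zero _ (θ n).ne_zero
    have h7 : b * (a n / y n) = a n * ((θ n : ℚ_[l]) - 1) := by rw [h4]; ring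
    rw [h7, mul_assoc (a n), h5, pow_mul']
    field_simp
  · refine tendsto_subtype_rng.2 (tendsto_pi_nhds.2 fun i => tendsto_pi_nhds.2 fun j => ?_)
    fin_cases i <;> fin_cases j
    · simpa [dg] using hθ'
    · simp [dg]
    · simp [dg]
    · simpa [dg] using hθ.pow N

theorem norm_fac {G : ℕ} (hG : G ≠ 0) : ‖(G : ℚ_[l])‖ = ((l : ℝ) ^ G.factorization l)⁻¹ := by
  conv_lhs => rw [← Nat.ordProj_mul_ordCompl_eq_self G l]
  rw [Nat.cast_mul, norm_mul, norm_nat (Nat.not_dvd_ordCompl Fact.out hG)]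
  simp

theorem norm_yy (k : Fld) (w : ℂ) {r : ℚ_[l]} (g : Good k r) {L : Submodule ℤ k.K} {c : ℚ} {e : ℕ}
    (hL : k.Lat L c) (hD : k.Dep l e L) : ‖yy k w r c‖ = (l : ℝ) ^ e := by
  rw [yy, norm_inv, norm_mul, g.dif, mul_one, norm_dt, (lat k).2.1 l e L c hL hD, inv_inv]

theorem yy_div (k : Fld) (w : ℂ) (r : ℚ_[l]) (c q : ℚ) :
    yy k w r (c / q ^ 2) = (q : ℚ_[l]) ^ 2 * yy k w r c := by
  have : dt w (c / q ^ 2) = dt w c / q ^ 2 := by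
    unfold dt
    split_ifs <;> ring
  rw [yy, yy, this]
  push_cast
  rw [mul_inv, mul_inv, inv_div]
  ring

end padic

variable (k : Fld) {l₁ l₂ : ℕ} [Fact l₁.Prime] [Fact l₂.Prime] {w : ℂ} {r₁ : ℚ_[l₁]}
  {r₂ : ℚ_[l₂]}

theorem mr_smul {q : ℚ} (hq : 0 < q) (x y : k.K) : mr k w (q • x) (q • y) = mr k w x y := by
  have e : k.det2 (q • x) (q • y) = q ^ 2 * k.det2 x y := by
    simp only [Fld.det2, QuadraticAlgebra.re_smul, QuadraticAlgebra.im_smul, smul_eq_mul]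
    ring
  have hq' : (0 : ℝ) < q := by exact_mod_cast hq
  have e2 : Real.sqrt (-w.im * ((q ^ 2 * k.det2 x y : ℚ) : ℝ)) =
      q * Real.sqrt (-w.im * k.det2 x y) := by
    rw [← Real.sqrt_sq hq'.le, ← Real.sqrt_mul (sq_nonneg _)]
    congr 1
    push_cast
    ring
  rw [mr, mr, e, e2]
  generalize Real.sqrt (-w.im * k.det2 x y) = b
  ext i j
  fin_cases i <;> fin_cases j <;> simp [io_qsmul] <;> field_simp

theorem dg_MM₁ {τ : ℚ_[l₁]ˣ} (h : ‖(τ : ℚ_[l₁])‖ = 1) : ((dg τ, 1) : GG l₁ l₂) ∈ MM l₁ l₂ :=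
  ⟨⟨DG_dg _, DG_one, Rot_one⟩, by simpa [dg] using h, by simp⟩

theorem dg_MM₂ {τ : ℚ_[l₂]ˣ} (h : ‖(τ : ℚ_[l₂])‖ = 1) : ((1, dg τ, 1) : GG l₁ l₂) ∈ MM l₁ l₂ :=
  ⟨⟨DG_one, DG_dg _, Rot_one⟩, by simp, by simpa [dg] using h⟩

theorem anc_frame (hw : k.Root w) (hne : l₁ ≠ l₂) (h₁ : Good k r₁) (h₂ : Good k r₂) {F : ℕ+}
    {L : Submodule ℤ k.K} {c : ℚ} {e₁ e₂ j : ℕ} (D : Dd k l₁ l₂ F L c e₁ e₂) (hj : 2 * j ≤ e₁)
    {t : ℚ_[l₁]ˣ} (ht : (t : ℚ_[l₁]) = (l₁ : ℚ_[l₁]) ^ j) : ∃ (L' : Submodule ℤ k.K) (c' : ℚ),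
      k.Lat L' c' ∧ k.Adm F L' ∧ ∀ m ∈ MM l₁ l₂, ∀ s : k.SF F, RR k r₁ r₂ m s → ∀ x y,
        OB k w (act s L') c' x y → ∃ g ∈ Proj.KK l₁ l₂, g.2.2 = m.2.2 * toSL (mr k w x y) ∧
          ((dg t, 1) : GG l₁ l₂) • AA (yy k w r₁ c) (yy k w r₂ c) • m • pt k w r₁ r₂ (act s L) =
            QuotientGroup.mk g := by
  have p₁ : l₁.Prime := Fact.out
  have p₂ : l₂.Prime := Fact.out
  obtain ⟨L', a1, a2, a3, a4, -, a6⟩ := (lat k).2.2.2.1 l₁ e₁ (2 * j) F L c p₁ F.ne_zero D.lat D.adm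
    D.dep₁ hj
  have a7 := a6 l₂ e₂ p₂ hne.symm D.dep₂
  refine ⟨L', _, a1, a2, fun m hm s hs x y o => ?_⟩
  set q : ℚ := (l₁ : ℚ) ^ j with hq
  have hq0 : 0 < q := pow_pos (by exact_mod_cast p₁.pos) j
  rw [pow_mul', ← hq] at a1 o
  let t' : ℚ_[l₂]ˣ := Units.mk0 (q : ℚ_[l₂]) (by exact_mod_cast hq0.ne')
  have ht' : ‖(t' : ℚ_[l₂])‖ = 1 := by simp [t', hq, Disc.norm_prime_ne hne.symm]
  have hd := det2_ne k o.2.2
  have e : k.det2 (q • x) (q • y) = q ^ 2 * k.det2 x y := by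
    simp only [Fld.det2, QuadraticAlgebra.re_smul, QuadraticAlgebra.im_smul, smul_eq_mul]
    ring
  obtain ⟨x', y', o'⟩ := exists_OB' k hw (act_lat k D.lat D.adm s).1
  have e' : k.det2 x' y' = k.det2 (q • x) (q • y) := by
    rw [e, ob_dt k o, ob_dt k o', dt, dt]
    split_ifs <;> field_simp
  have key : ∀ z ∈ act s L, (((l₁ * l₂ : ℕ) : ℚ) ^ j) • z ∈
      Submodule.span ℤ ({q • x, q • y} : Set k.K) := by
    intro z hz
    have hle : act s L ≤ act s L' := mul_le_mul' le_rfl a4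
    obtain ⟨a, b, rfl⟩ := (mem_span2 k).1 (o.1 ▸ hle hz)
    refine (mem_span2 k).2 ⟨l₂ ^ j * a, l₂ ^ j * b, ?_⟩
    rw [smul_add, smul_smul, smul_smul, smul_smul, smul_smul, hq]
    push_cast
    congr 2 <;> ring
  refine ⟨(dg t, 1) * (AA (yy k w r₁ c) (yy k w r₂ c) * m * fr k w r₁ r₂ (q • x) (q • y)),
    (Proj.mem_KK l₁ l₂).2 ⟨?_, ?_⟩, ?_, ?_⟩
  · change dg t * (up _ * Join.wl l₁ * m.1 * toSL (mp k r₁ (q • x) (q • y))) ∈ _
    rw [mp_smul k h₁.root hd t (by simp [ht, hq]), ad_dg _ hm.1.1, mul_inv_cancel_left]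
    refine adp1 k lat h₁ a1 a2 a3 hm.1.1 hm.2.1 hs.1 o ?_
    simp [yy_div, ht, hq]
  · change 1 * (up _ * Join.wl l₂ * m.2.1 * toSL (mp k r₂ (q • x) (q • y))) ∈ Proj.Ks l₂
    rw [one_mul, mp_smul k h₂.root hd t' rfl, ad_dg _ hm.1.2.1]
    refine mul_mem (inv_mem (DU_K (DG_dg t') (by simpa [dg] using ht'))) ?_
    refine adp1 k lat h₂ a1 a2 a7 hm.1.2.1 hm.2.2 hs.2 o ?_
    simp [yy_div, t']
  · simp [AA, fr, mr_smul k hq0]
  · rw [pt_eq k h₁.root h₂.root o', mk_fr_eq k h₁.root h₂.root (e' ▸ o'.2.2) e'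
      (key _ (OB_mem_aux k o'.1).1) (key _ (OB_mem_aux k o'.1).2), smul_smul, smul_smul,
      MulAction.Quotient.smul_mk, smul_eq_mul]
    simp only [mul_assoc]

variable [PolishSpace (XX l₁ l₂)]

theorem fst_inv (hw : k.Root w) (hne : l₁ ≠ l₂) (o₁ : l₁ ≠ 2) (o₂ : l₂ ≠ 2) (h₁ : Good k r₁)
    (h₂ : Good k r₂) {ι : Type} [Fintype ι] {F : ℕ+} {κ : Measure (MM l₁ l₂ × k.SF F)}
    (K : Kap k r₁ r₂ F κ) (A : ι → GG l₁ l₂) {L : ι → Submodule ℤ k.K} {c : ι → ℚ}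
    (hL : ∀ i, k.Lat (L i) (c i)) (hA : ∀ i, k.Adm F (L i)) (h : k.SF F → ℝ) {m : GG l₁ l₂}
    (hm : m ∈ MM l₁ l₂) {v : ι → GG l₁ l₂} (hv : ∀ i, v i = A i * m * (A i)⁻¹) :
    ((an k w K A L h : Measure ((ι → XX l₁ l₂) × II)).map Prod.fst).map (v • ·) =
      (an k w K A L h : Measure ((ι → XX l₁ l₂) × II)).map Prod.fst := by
  obtain ⟨t, ht, hR⟩ := (loc k l₁ l₂ r₁ r₂ hne o₁ o₂ h₁ h₂ F).2.2.2.1 m hm 1
  rw [mul_one] at hR
  have := an_inv k (w := w) K (A := A) (L := L) (g := (⟨m, hm⟩, t)) hR (b := 1) (MM l₁ l₂).one_mem.1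
    (fun s i => by
      have a1 := act_lat k (hL i) (hA i) s
      simp only
      rw [act_mul k (hL i) (hA i), ptriv k hw h₁.root h₂.root a1.1 a1.2 ht, one_smul])
    (N := 1) (h := fun _ => 0) (fun _ => rfl) (v := v) (by simpa using hv)
  rw [an_fst, ← an_fst k K A L fun _ => 0]
  exact map_inv ((continuous_const_smul _).prodMap continuous_id).measurable this measurable_fst
    (continuous_const_smul _).measurable fun _ => rfl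

end Pool.Agent.Lib.MP_9177b7_ag.J.DynN
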