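import Pool.Agent.Lib.MP_9177b7_ag.J.Small1

/-! Small isogeny regime: the shift by a power of the split prime, coordinates. -/

open Pointwise

noncomputable section

namespace Pool.Agent.Lib.MP_9177b7_ag.J.Small

open Fld

variable {k : Fld}

theorem lift_mul_mem {F : ℕ+} (s : k.SF F) {L : Submodule ℤ k.K} {x : k.K} (hx : x ∈ L) :
    lift s * x ∈ act s L :=
  Submodule.mul_mem_mul (Submodule.subset_span (by simp)) hx

theorem F_mul_mem {F : ℕ+} (s : k.SF F) {L : Submodule ℤ k.K} {x : k.K} (hx : x ∈ L) :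
    ((F : ℕ) : k.K) * x ∈ act s L :=
  Submodule.mul_mem_mul (Submodule.subset_span (by simp)) hx

theorem Fom_mul_mem {F : ℕ+} (s : k.SF F) {L : Submodule ℤ k.K} {x : k.K} (hx : x ∈ L) :
    ((F : ℕ) : k.K) * k.om * x ∈ act s L :=
  Submodule.mul_mem_mul (Submodule.subset_span (by simp)) hx

theorem FO_mul_mem {F : ℕ+} (s : k.SF F) {L : Submodule ℤ k.K} {o x : k.K} (ho : o ∈ k.O)
    (hx : x ∈ L) : ((F : ℕ) : k.K) * o * x ∈ act s L := by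
  obtain ⟨a, b, rfl⟩ := Submodule.mem_span_pair.1 ho
  have e : ((F : ℕ) : k.K) * (a • (1 : k.K) + b • k.om) * x =
      (a : k.K) * (((F : ℕ) : k.K) * x) + (b : k.K) * (((F : ℕ) : k.K) * k.om * x) := by
    simp only [zsmul_eq_mul]; ring
  rw [e]
  exact Submodule.add_mem _ (int_mul_mem (F_mul_mem s hx) a) (int_mul_mem (Fom_mul_mem s hx) b)

theorem act_ind {F : ℕ+} (s : k.SF F) {L M : Submodule ℤ k.K} (q : k.K)
    (h1 : ∀ x ∈ L, q * (lift s * x) ∈ M) (h2 : ∀ x ∈ L, q * (((F : ℕ) : k.K) * x) ∈ M)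
    (h3 : ∀ x ∈ L, q * (((F : ℕ) : k.K) * k.om * x) ∈ M) : ∀ y ∈ act s L, q * y ∈ M := by
  intro y hy
  refine Submodule.mul_induction_on hy (fun z hz x hx => ?_) fun x y hx hy => ?_
  · obtain ⟨a, b, c, rfl⟩ := Submodule.mem_span_triple.1 hz
    have e : q * ((a • lift s + b • ((F : ℕ) : k.K) + c • (((F : ℕ) : k.K) * k.om)) * x) =
        (a : k.K) * (q * (lift s * x)) + (b : k.K) * (q * (((F : ℕ) : k.K) * x)) +
          (c : k.K) * (q * (((F : ℕ) : k.K) * k.om * x)) := by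
      simp only [zsmul_eq_mul]; ring
    rw [e]
    exact M.add_mem (M.add_mem (int_mul_mem (h1 x hx) a) (int_mul_mem (h2 x hx) b))
      (int_mul_mem (h3 x hx) c)
  · rw [mul_add]
    exact M.add_mem hx hy

theorem act_mul_mem {F : ℕ+} (s : k.SF F) {L M : Submodule ℤ k.K} {a : k.K}
    (h : ∀ x ∈ L, a * x ∈ M) : ∀ y ∈ act s L, a * y ∈ act s M := by
  refine act_ind s a (fun x hx => ?_) (fun x hx => ?_) fun x hx => ?_
  · rw [mul_left_comm]; exact lift_mul_mem s (h x hx)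
  · rw [mul_left_comm]; exact F_mul_mem s (h x hx)
  · rw [mul_left_comm]; exact Fom_mul_mem s (h x hx)

theorem mul_star_eq (x : k.K) : x * star x = ((QuadraticAlgebra.norm x : ℚ) : k.K) := by
  rw [← QuadraticAlgebra.algebraMap_norm_eq_mul_star]
  rfl

section loc

variable {l : ℕ} [hl : Fact l.Prime] {r : ℚ_[l]}

theorem exists_lift {F : ℕ+} (hF : ¬ l ∣ F) {q : k.K} (hq : q ∈ k.O) {h : ℕ}
    (hn : QuadraticAlgebra.norm q = (l : ℚ) ^ h) :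
    ∃ τ : k.SF F, ∃ o ∈ k.O, lift τ = q + ((F : ℕ) : k.K) * o := by
  obtain ⟨a, b, h1, h2⟩ := mem_O.1 hq
  have hz : a * a + k.t * a * b + k.n * b * b = (l : ℤ) ^ h := by
    rw [QuadraticAlgebra.norm_def, h1, h2] at hn
    have : ((a * a + k.t * a * b + k.n * b * b : ℤ) : ℚ) = (((l : ℤ) ^ h : ℤ) : ℚ) := by
      push_cast
      linear_combination hn
    exact_mod_cast this
  let Q : QuadraticAlgebra (ZMod F) (-(k.n : ZMod F)) (k.t : ZMod F) := ⟨a, b⟩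
  have hQ : IsUnit Q := by
    rw [QuadraticAlgebra.isUnit_iff_norm_isUnit]
    have e : QuadraticAlgebra.norm Q = ((l : ℕ) : ZMod F) ^ h := by
      have := congrArg (fun z : ℤ => (z : ZMod F)) hz
      simp only [Int.cast_add, Int.cast_mul, Int.cast_pow, Int.cast_natCast] at this
      rw [QuadraticAlgebra.norm_def, ← this]
      simp only [Q]
      ring
    rw [e]
    exact ((ZMod.isUnit_prime_iff_not_dvd hl.out).2 hF).pow h
  refine ⟨hQ.unit, ⟨-((a / (F : ℕ) : ℤ) : ℚ), -((b / (F : ℕ) : ℤ) : ℚ)⟩,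
    mem_O.2 ⟨-(a / (F : ℕ)), -(b / (F : ℕ)), by simp, by simp⟩, ?_⟩
  have key : ∀ c : ℤ, (((c : ZMod F).val : ℕ) : ℚ) = c - (F : ℕ) * ((c / (F : ℕ) : ℤ) : ℚ) := by
    intro c
    have e1 : (((c : ZMod F).val : ℕ) : ℤ) = c % (F : ℕ) := ZMod.val_intCast c
    have e2 : (((c : ZMod F).val : ℕ) : ℤ) = c - (F : ℕ) * (c / (F : ℕ)) := by
      rw [e1, Int.emod_def]
    exact_mod_cast congrArg (fun z : ℤ => (z : ℚ)) e2
  ext
  · simp only [lift, IsUnit.unit_spec, Q, key, QuadraticAlgebra.re_add, QuadraticAlgebra.re_mul,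
      QuadraticAlgebra.re_natCast, QuadraticAlgebra.im_natCast, h1]
    ring
  · simp only [lift, IsUnit.unit_spec, Q, key, QuadraticAlgebra.im_add, QuadraticAlgebra.im_mul,
      QuadraticAlgebra.re_natCast, QuadraticAlgebra.im_natCast, h2]
    ring

theorem shift_one (hr : k.Root r) (h1 : ‖r‖ ≤ 1) (h2 : ‖(k.t : ℚ_[l]) - r - r‖ = 1) {F : ℕ+}
    {p o : k.K} (hp : p ∈ k.O) (ho : o ∈ k.O) {h : ℕ}
    (hn : QuadraticAlgebra.norm p = (l : ℚ) ^ h) (hp' : ‖k.io ((k.t : ℚ_[l]) - r) p‖ = 1)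
    {τ : k.SF F} (hτ : lift τ = star p + ((F : ℕ) : k.K) * o) {M : Submodule ℤ k.K}
    (hA : k.Adm F M) (hM : k.Nrm l M) (hN : k.Nrm l (act τ M)) (x : k.K) :
    x ∈ act τ M ↔ p * x ∈ M ∧ ‖k.io r x‖ ≤ 1 := by
  have hps : p * star p = (l : k.K) ^ h := by
    rw [mul_star_eq, hn]
    push_cast
    rfl
  constructor
  · intro hx
    refine ⟨act_ind τ p (fun y hy => ?_) (fun y hy => ?_) (fun y hy => ?_) x hx,
      norm_le_of_nrm hr h1 hN hx⟩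
    · have e : p * (lift τ * y) = ((l ^ h : ℕ) : k.K) * y + ((F : ℕ) : k.K) * (p * o) * y := by
        rw [hτ]
        push_cast
        rw [← hps]
        ring
      rw [e]
      exact M.add_mem (nat_mul_mem hy _) (adm_mul hA (mul_mem_O hp ho) hy)
    · have e : p * (((F : ℕ) : k.K) * y) = ((F : ℕ) : k.K) * p * y := by ring
      rw [e]
      exact adm_mul hA hp hy
    · have e : p * (((F : ℕ) : k.K) * k.om * y) = ((F : ℕ) : k.K) * (p * k.om) * y := by ring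
      rw [e]
      exact adm_mul hA (mul_mem_O hp om_mem_O) hy
  · rintro ⟨hx, hx1⟩
    refine loc h1 h2 hN (a := h) ?_ hx1 ?_
    · have e : (l : k.K) ^ h * x = lift τ * (p * x) - ((F : ℕ) : k.K) * o * (p * x) := by
        rw [hτ, ← hps]
        ring
      rw [e]
      exact Submodule.sub_mem _ (lift_mul_mem τ hx) (FO_mul_mem τ ho hx)
    · have := norm_le_of_nrm (root_conj hr) (norm_conj_le h1) hM hx
      rwa [io_mul (root_conj hr), norm_mul, hp', one_mul] at this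

theorem shift (hB : BasicStmt) (hr : k.Root r) (h1 : ‖r‖ ≤ 1)
    (h2 : ‖(k.t : ℚ_[l]) - r - r‖ = 1) {F : ℕ+} (hF : ¬ l ∣ F) {p : k.K} (hp : p ∈ k.O) {h : ℕ}
    (hn : QuadraticAlgebra.norm p = (l : ℚ) ^ h) (hp' : ‖k.io ((k.t : ℚ_[l]) - r) p‖ = 1) :
    ∃ τ : k.SF F, ∀ (L : Submodule ℤ k.K) (c : ℚ), k.Lat L c → k.Adm F L → k.Nrm l L →
      ∀ (s : k.SF F) (i : ℕ) (x : k.K),
        x ∈ act (τ ^ i * s) L ↔ p ^ i * x ∈ act s L ∧ ‖k.io r x‖ ≤ 1 := by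
  obtain ⟨τ, o, ho, hτ⟩ := exists_lift hF (star_mem_O hp) (h := h) (by simpa using hn)
  refine ⟨τ, fun L c hL hA hN s i => ?_⟩
  have hact := ((hB k).2.2.2.2.2.2.2.1 F L c hL hA).2
  induction i with
  | zero =>
    intro x
    simp only [pow_zero, one_mul]
    exact ⟨fun hx => ⟨hx, norm_le_of_nrm hr h1 ((hact s).2.2.2.2.1 l hl.out hF hN) hx⟩,
      fun hx => hx.1⟩
  | succ i ih =>
    intro x
    have e : act (τ ^ (i + 1) * s) L = act τ (act (τ ^ i * s) L) := by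
      rw [pow_succ', mul_assoc]
      exact (hact τ).2.2.2.2.2.1 _
    have hN' := (hact (τ ^ (i + 1) * s)).2.2.2.2.1 l hl.out hF hN
    rw [e] at hN' ⊢
    rw [shift_one hr h1 h2 hp ho hn hp' hτ (hact _).2.1 ((hact _).2.2.2.2.1 l hl.out hF hN) hN',
      ih, ← mul_assoc, ← pow_succ]
    refine ⟨fun hx => ⟨hx.1.1, hx.2⟩, fun hx => ⟨⟨hx.1, ?_⟩, hx.2⟩⟩
    rw [io_mul hr, norm_mul]
    exact mul_le_one₀ (norm_O_le h1 hp) (norm_nonneg _) hx.2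

theorem window (hr : k.Root r) (h1 : ‖r‖ ≤ 1) (h2 : ‖(k.t : ℚ_[l]) - r - r‖ = 1)
    {A B : Submodule ℤ k.K} (hA : k.Nrm l A) (hB : k.Nrm l B) {α β : k.K}
    (hAB : A.map (k.lin α β) = B) {m : ℕ} (hβ : ‖k.io r β‖ ≤ ((l : ℝ) ^ (m + 1))⁻¹) {j : ℕ}
    (hj : j ≤ m) {x : k.K} (hx : x ∈ A) :
    ‖k.io r (k.lin α β x)‖ ≤ ((l : ℝ) ^ j)⁻¹ ↔ ‖k.io r x‖ ≤ ((l : ℝ) ^ j)⁻¹ := by
  have hsm : ∀ y ∈ A, ‖k.io r β * k.io ((k.t : ℚ_[l]) - r) y‖ ≤ ((l : ℝ) ^ (m + 1))⁻¹ := by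
    intro y hy
    rw [norm_mul]
    exact (mul_le_of_le_one_right (norm_nonneg _)
      (norm_le_of_nrm (root_conj hr) (norm_conj_le h1) hA hy)).trans hβ
  have hα1 : ‖k.io r α‖ ≤ 1 :=
    lin_le_one hr h1 h2 hA hB fun y hy => hAB ▸ Submodule.mem_map_of_mem hy
  have hα : ‖k.io r α‖ = 1 := by
    refine le_antisymm hα1 (not_lt.1 fun hlt => ?_)
    obtain ⟨u, hu, hO, -⟩ := hB
    have h3 := hO _ one_mem_O
    rw [← hAB] at h3
    obtain ⟨y, hy, e⟩ := h3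
    have h4 : ‖k.io r (k.lin α β y)‖ = 1 := by
      rw [e, mul_one, io_nat hr, norm_nat_unit hu]
    rw [io_lin hr] at h4
    have h5 : ‖k.io r α * k.io r y‖ < 1 := by
      rw [norm_mul]
      exact (mul_le_of_le_one_right (norm_nonneg _) (norm_le_of_nrm hr h1 hA hy)).trans_lt hlt
    have h6 : ((l : ℝ) ^ (m + 1))⁻¹ < 1 :=
      inv_lt_one_of_one_lt₀ (one_lt_pow₀ one_lt_l (by omega))
    have h7 := IsUltrametricDist.norm_add_le_max (k.io r α * k.io r y)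
      (k.io r β * k.io ((k.t : ℚ_[l]) - r) y)
    have h8 := max_lt h5 ((hsm y hy).trans_lt h6)
    linarith
  have hs := (hsm x hx).trans (inv_pow_anti (by omega : j ≤ m + 1))
  rw [io_lin hr]
  constructor
  · intro h
    have := norm_sub_le_of h hs
    rwa [add_sub_cancel_right, norm_mul, hα, one_mul] at this
  · intro h
    refine norm_add_le_of ?_ hs
    rwa [norm_mul, hα, one_mul]

theorem lin_conj {a P : k.K} (hP : P ≠ 0) (α β w : k.K) :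
    k.lin (a * α) (a * β * P / star P) (P * w) = a * (P * k.lin α β w) := by
  have : star P ≠ 0 := star_ne_zero.2 hP
  simp only [lin_apply, star_mul']
  field_simp

theorem onto_window (hr : k.Root r) (h1 : ‖r‖ ≤ 1) (h2 : ‖(k.t : ℚ_[l]) - r - r‖ = 1)
    {M₁ M₂ A B : Submodule ℤ k.K} (hM₁ : k.Nrm l M₁) (hM₂ : k.Nrm l M₂) (hA : k.Nrm l A)
    (hB : k.Nrm l B) {P a α β : k.K} {g e m : ℕ} (hP : ‖k.io r P‖ = ((l : ℝ) ^ g)⁻¹)
    (hA' : ∀ x, x ∈ A ↔ P * x ∈ M₁ ∧ ‖k.io r x‖ ≤ 1)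
    (hB' : ∀ x, x ∈ B ↔ P * x ∈ M₂ ∧ ‖k.io r x‖ ≤ 1) (ha : ∀ y ∈ M₂, a * y ∈ M₁)
    (ha1 : ‖k.io r a‖ = ((l : ℝ) ^ e)⁻¹) (ha2 : ‖k.io ((k.t : ℚ_[l]) - r) a‖ = 1)
    (hAB : A.map (k.lin α β) = B) (hβ : ‖k.io r β‖ ≤ ((l : ℝ) ^ (m + 1))⁻¹) {t : ℕ}
    (ht1 : g ≤ t) (ht2 : t ≤ g + m) :
    (∀ x ∈ M₁, ‖k.io r x‖ ≤ ((l : ℝ) ^ t)⁻¹ →
      (∃ y ∈ M₂, k.lin (a * α) (a * β * P / star P) x = a * y) ∧
      ‖k.io r (k.lin (a * α) (a * β * P / star P) x)‖ ≤ ((l : ℝ) ^ (t + e))⁻¹) ∧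
    ∀ z ∈ M₁, (∃ b : ℕ, ∃ y ∈ M₂, (l : k.K) ^ b * z = a * y) →
      ‖k.io r z‖ ≤ ((l : ℝ) ^ (t + e))⁻¹ → ∃ x ∈ M₁, ‖k.io r x‖ ≤ ((l : ℝ) ^ t)⁻¹ ∧
        k.lin (a * α) (a * β * P / star P) x = z := by
  obtain ⟨j, rfl⟩ := Nat.exists_eq_add_of_le ht1
  have hj : j ≤ m := by omega
  have hl0 : (0 : ℝ) < l := zero_lt_one.trans one_lt_l
  have hP0 : P ≠ 0 := by
    rintro rfl
    have : k.io r (0 : k.K) = 0 := by simp [io]
    rw [this, norm_zero] at hP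
    exact absurd hP.symm (by positivity)
  have ha0 : a ≠ 0 := by
    rintro rfl
    have : k.io r (0 : k.K) = 0 := by simp [io]
    rw [this, norm_zero] at ha1
    exact absurd ha1.symm (by positivity)
  have hPw : ∀ w, ‖k.io r (P * w)‖ ≤ ((l : ℝ) ^ (g + j))⁻¹ ↔ ‖k.io r w‖ ≤ ((l : ℝ) ^ j)⁻¹ := by
    intro w
    rw [io_mul hr, norm_mul, hP, pow_add, mul_inv, mul_le_mul_iff_right₀ (by positivity)]
  have haw : ∀ w, ‖k.io r (a * w)‖ ≤ ((l : ℝ) ^ (g + j + e))⁻¹ ↔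
      ‖k.io r w‖ ≤ ((l : ℝ) ^ (g + j))⁻¹ := by
    intro w
    rw [io_mul hr, norm_mul, ha1, pow_add _ (g + j), mul_inv, mul_comm ((l : ℝ) ^ (g + j))⁻¹,
      mul_le_mul_iff_right₀ (by positivity)]
  constructor
  · intro x hx hx1
    obtain ⟨w, rfl⟩ : ∃ w, x = P * w := ⟨x / P, by field_simp⟩
    have hw1 := (hPw w).1 hx1
    have hw : w ∈ A := (hA' w).2 ⟨hx, hw1.trans (inv_pow_le_one j)⟩
    have hwB : k.lin α β w ∈ B := hAB ▸ Submodule.mem_map_of_mem hw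
    rw [lin_conj hP0]
    exact ⟨⟨_, ((hB' _).1 hwB).1, rfl⟩,
      (haw _).2 ((hPw _).2 ((window hr h1 h2 hA hB hAB hβ hj hw).2 hw1))⟩
  · rintro z hz ⟨b, y, hy, e1⟩ hz1
    obtain ⟨y', rfl⟩ : ∃ w, z = a * w := ⟨z / a, by field_simp⟩
    have hy1 := (haw y').1 hz1
    have hy' : y' ∈ M₂ := by
      refine loc h1 h2 hM₂ (a := b) ?_ (hy1.trans (inv_pow_le_one _)) ?_
      · have : (l : k.K) ^ b * y' = y := mul_left_cancel₀ ha0 (by rw [← e1]; ring)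
        rwa [this]
      · have := norm_le_of_nrm (root_conj hr) (norm_conj_le h1) hM₁ hz
        rwa [io_mul (root_conj hr), norm_mul, ha2, one_mul] at this
    obtain ⟨v, rfl⟩ : ∃ w, y' = P * w := ⟨y' / P, by field_simp⟩
    have hv1 := (hPw v).1 hy1
    have hv : v ∈ B := (hB' v).2 ⟨hy', hv1.trans (inv_pow_le_one j)⟩
    rw [← hAB] at hv
    obtain ⟨w, hw, rfl⟩ := hv
    exact ⟨P * w, ((hA' w).1 hw).1,
      (hPw w).2 ((window hr h1 h2 hA hB hAB hβ hj hw).1 hv1), lin_conj hP0 α β w⟩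

end loc

theorem onto_of_det (hB : BasicStmt) {A B : Submodule ℤ k.K} {c₁ c₂ : ℚ} (hA : k.Lat A c₁)
    (hB' : k.Lat B c₂) {α β : k.K} (hle : A.map (k.lin α β) ≤ B)
    (hd : |k.N α - k.N β| * c₁ = (1 : ℕ) * c₂) : A.map (k.lin α β) = B := by
  have hc₂ : 0 < c₂ := by obtain ⟨_, _, _, _, h⟩ := hB'; exact h
  have hd' : |QuadraticAlgebra.norm α - QuadraticAlgebra.norm β| * c₁ = c₂ := by
    have : ((|QuadraticAlgebra.norm α - QuadraticAlgebra.norm β| * c₁ : ℚ) : ℝ) = c₂ := by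
      push_cast
      simpa [N] using hd
    exact_mod_cast this
  have hne : k.N α ≠ k.N β := by
    intro h
    rw [h, sub_self, abs_zero, zero_mul, Nat.cast_one, one_mul] at hd
    have : (0 : ℝ) < c₂ := by exact_mod_cast hc₂
    linarith
  have hL := (hB k).2.2.1 A c₁ α β hA hne
  rw [hd'] at hL
  obtain ⟨j, -, hj, -, h⟩ := (hB k).2.2.2.1 _ _ _ _ hL hB' hle
  refine h ?_
  have : (j : ℚ) = 1 := mul_right_cancel₀ hc₂.ne' (by rw [one_mul]; exact hj.symm)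
  exact_mod_cast this

end Pool.Agent.Lib.MP_9177b7_ag.J.Small
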