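import Pool.Agent.Lib.MP_9177b7_ag.J.DefsU
import Pool.Agent.Lib.MP_9177b7_ag.J.Basic
import Pool.Agent.Lib.MP_9177b7_ag.J.Small2
import Pool.Agent.Lib.MP_9177b7_ag.J.Coll1
import Pool.Agent.Lib.MP_9177b7_ag.J.Excl

/-! Lattices which are deep at a split prime: local description and ancestors. -/

open Pointwise

noncomputable section

namespace Pool.Agent.Lib.MP_9177b7_ag.J.ExclU

open Fld

variable {k : Fld} {l : ℕ} [hl : Fact l.Prime] {φ ψ : k.K →+* ℚ_[l]}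

/-- The two embeddings at a split prime. -/
structure Emb (φ ψ : k.K →+* ℚ_[l]) : Prop where
  s1 : ∀ x, φ (star x) = ψ x
  s2 : ∀ x, ψ (star x) = φ x
  l1 : ‖φ k.om‖ ≤ 1
  l2 : ‖ψ k.om‖ ≤ 1
  sep : ‖φ k.om - ψ k.om‖ = 1

theorem Emb.symm (h : Emb φ ψ) : Emb ψ φ :=
  ⟨h.s2, h.s1, h.l2, h.l1, by rw [norm_sub_rev, h.sep]⟩

theorem emb {r : ℚ_[l]} (hr : k.Root r) (hD : ¬ (l : ℤ) ∣ k.D) :
    Emb (Small.hom hr) (Small.hom (Small.root_conj hr)) where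
  s1 x := Small.io_star x
  s2 x := by
    change k.io _ (star x) = k.io r x
    rw [Small.io_star, sub_sub_cancel]
  l1 := by
    change ‖k.io r k.om‖ ≤ 1
    rw [Small.io_om]
    exact Excl.root_le hr
  l2 := by
    change ‖k.io _ k.om‖ ≤ 1
    rw [Small.io_om]
    exact Excl.root_le (Excl.root_conj hr)
  sep := by
    change ‖k.io r k.om - k.io _ k.om‖ = 1
    rw [Small.io_om, Small.io_om, norm_sub_rev]
    exact Excl.root_sep hr hD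

theorem hom_eq (φ : k.K →+* ℚ_[l]) (x : k.K) : φ x = x.re + x.im * φ k.om := by
  have e : x = ((x.re : ℚ) : k.K) + ((x.im : ℚ) : k.K) * k.om := by
    have h : ∀ q : ℚ, (q : k.K) = algebraMap ℚ k.K q := fun q => rfl
    rw [h, h]
    ext <;> simp [om]
  conv_lhs => rw [e]
  rw [map_add, map_mul, map_ratCast, map_ratCast]

theorem lpos : (0 : ℝ) < l := Nat.cast_pos.mpr hl.out.pos

theorem nmul {x y : ℚ_[l]} {c : ℝ} (hx : ‖x‖ ≤ 1) (hy : ‖y‖ ≤ c) : ‖x * y‖ ≤ c := by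
  rw [norm_mul]
  exact (mul_le_of_le_one_left (norm_nonneg _) hx).trans hy

theorem nmul' {x y : ℚ_[l]} {c : ℝ} (hx : ‖x‖ ≤ c) (hy : ‖y‖ ≤ 1) : ‖x * y‖ ≤ c := by
  rw [mul_comm]
  exact nmul hy hx

theorem nnat (n : ℕ) : ‖(n : ℚ_[l])‖ ≤ 1 := by
  exact_mod_cast Padic.norm_int_le_one (p := l) (n : ℤ)

theorem unit_mul {u : ℕ} (hu : ¬ l ∣ u) (x : ℚ_[l]) : ‖(u : ℚ_[l]) * x‖ = ‖x‖ := by
  rw [norm_mul, Small.norm_nat_unit hu, one_mul]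

theorem pow_mul_le {x : ℚ_[l]} {j e : ℕ} :
    ‖(l : ℚ_[l]) ^ j * x‖ ≤ ((l : ℝ) ^ (j + e))⁻¹ ↔ ‖x‖ ≤ ((l : ℝ) ^ e)⁻¹ := by
  have := lpos (l := l)
  rw [norm_mul, Small.norm_l_pow, pow_add, mul_inv, mul_le_mul_iff_right₀ (by positivity)]

theorem ndvd_mul {a b : ℕ} (ha : ¬ l ∣ a) (hb : ¬ l ∣ b) : ¬ l ∣ a * b :=
  fun hd => ((Nat.Prime.dvd_mul hl.out).mp hd).elim ha hb

theorem Emb.le_O (h : Emb φ ψ) {x : k.K} (hx : x ∈ k.O) : ‖φ x‖ ≤ 1 := by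
  obtain ⟨a, b, h2, h3⟩ := Small.mem_O.1 hx
  rw [hom_eq, h2, h3]
  push_cast
  exact Small.norm_add_le_of (Padic.norm_int_le_one _) (nmul (Padic.norm_int_le_one _) h.l1)

theorem Emb.im (h : Emb φ ψ) (x : k.K) : ‖φ x - ψ x‖ = ‖((x.im : ℚ) : ℚ_[l])‖ := by
  have e : φ x - ψ x = x.im * (φ k.om - ψ k.om) := by
    rw [hom_eq φ x, hom_eq ψ x]
    ring
  rw [e, norm_mul, h.sep, mul_one]

theorem Emb.nm (h : Emb φ ψ) (x : k.K) :
    φ x * ψ x = ((QuadraticAlgebra.norm x : ℚ) : ℚ_[l]) := by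
  rw [← h.s1, ← map_mul, Small.mul_star_eq, map_ratCast]

theorem Emb.lin1 (h : Emb φ ψ) (α β x : k.K) : φ (k.lin α β x) = φ α * φ x + φ β * ψ x := by
  rw [Small.lin_apply, map_add, map_mul, map_mul, h.s1]

theorem Emb.unit_lift (h : Emb φ ψ) {F : ℕ+} (hF : l ∣ F) (s : k.SF F) : ‖φ (lift s)‖ = 1 := by
  obtain ⟨y, hy, e⟩ := Basic.lift_inv s
  have h1 : ‖((F : ℕ) : ℚ_[l]) * φ y‖ < 1 := by
    rw [norm_mul]
    refine (mul_le_of_le_one_right (norm_nonneg _) (h.le_O hy)).trans_lt ?_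
    exact_mod_cast (Padic.norm_intCast_lt_one_iff (p := l) (k := ((F : ℕ) : ℤ))).mpr
      (Int.natCast_dvd_natCast.mpr hF)
  have h2 := congrArg (fun z => ‖φ z‖) e
  simp only [map_mul, map_add, map_one, map_natCast, norm_mul] at h2
  rw [IsUltrametricDist.norm_add_eq_max_of_norm_ne_norm (by rw [norm_one]; exact h1.ne'),
    norm_one, max_eq_left h1.le] at h2
  have h3 := h.le_O (Basic.lift_mem s)
  have h4 := h.le_O (Basic.lift_mem s⁻¹)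
  nlinarith [norm_nonneg (φ (lift s)), norm_nonneg (φ (lift s⁻¹))]

variable (φ ψ) in
/-- The local condition: `x` lies in `σ` times the order of conductor `l ^ e`. -/
def Loc (σ : k.K) (e : ℕ) (x : k.K) : Prop :=
  ‖φ x‖ ≤ 1 ∧ ‖ψ x‖ ≤ 1 ∧ ‖φ x * ψ σ - ψ x * φ σ‖ ≤ ((l : ℝ) ^ e)⁻¹

variable (φ ψ) in
/-- The lattice `A` is locally `σ` times the order of conductor `l ^ e`. -/
def Tw (σ : k.K) (e : ℕ) (A : Submodule ℤ k.K) : Prop :=
  (∀ x ∈ A, Loc φ ψ σ e x) ∧ ∀ x, Loc φ ψ σ e x → ∃ u : ℕ, ¬ l ∣ u ∧ (u : k.K) * x ∈ A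

theorem loc_unit {σ x : k.K} {e u : ℕ} (hu : ¬ l ∣ u) :
    Loc φ ψ σ e (u * x) ↔ Loc φ ψ σ e x := by
  have e1 : (u : ℚ_[l]) * φ x * ψ σ - u * ψ x * φ σ = u * (φ x * ψ σ - ψ x * φ σ) := by ring
  simp only [Loc, map_mul, map_natCast, e1, unit_mul hu]

theorem loc_add {σ x y : k.K} {e : ℕ} (hx : Loc φ ψ σ e x) (hy : Loc φ ψ σ e y) :
    Loc φ ψ σ e (x + y) := by
  refine ⟨?_, ?_, ?_⟩
  · rw [map_add]; exact Small.norm_add_le_of hx.1 hy.1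
  · rw [map_add]; exact Small.norm_add_le_of hx.2.1 hy.2.1
  · convert Small.norm_add_le_of hx.2.2 hy.2.2 using 2
    simp only [map_add]
    ring

/-- Multiples of the conductor satisfy the local condition. -/
theorem loc_deep (h : Emb φ ψ) {σ x : k.K} (hσ : σ ∈ k.O) {e n : ℕ}
    (hn : ‖(n : ℚ_[l])‖ ≤ ((l : ℝ) ^ e)⁻¹) (h1 : ‖φ x‖ ≤ 1) (h2 : ‖ψ x‖ ≤ 1) :
    Loc φ ψ σ e (n * x) := by
  refine ⟨?_, ?_, ?_⟩
  · rw [map_mul, map_natCast]; exact nmul (nnat n) h1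
  · rw [map_mul, map_natCast]; exact nmul (nnat n) h2
  · simp only [map_mul, map_natCast]
    exact Small.norm_sub_le_of (nmul' (nmul' hn h1) (h.symm.le_O hσ))
      (nmul' (nmul' hn h2) (h.le_O hσ))

theorem Tw.mem {σ x : k.K} {e a : ℕ} {A : Submodule ℤ k.K} (hA : Tw φ ψ σ e A)
    (hx : (l : k.K) ^ a * x ∈ A) (h : Loc φ ψ σ e x) : x ∈ A := by
  obtain ⟨u, hu, h1⟩ := hA.2 x h
  refine Excl.mem_of_coprime (a := l ^ a) (b := u) (Nat.Coprime.pow_left _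
    ((Nat.Prime.coprime_iff_not_dvd hl.out).mpr hu)) (by exact_mod_cast hx) h1

theorem mem_ord {c : ℕ} {x : k.K} : x ∈ k.Ord c ↔ ∃ a b : ℤ, x.re = a ∧ x.im = c * b := by
  rw [Fld.Ord, Submodule.mem_span_pair]
  constructor
  · rintro ⟨a, b, rfl⟩
    exact ⟨a, b, by simp [om], by simp [om]; ring⟩
  · rintro ⟨a, b, ha, hb⟩
    exact ⟨a, b, by ext <;> simp [om, ha, hb]; ring⟩

theorem loc_one (h : Emb φ ψ) {x : k.K} {e : ℕ} : Loc φ ψ 1 e x ↔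
    ‖((x.re : ℚ) : ℚ_[l])‖ ≤ 1 ∧ ‖((x.im : ℚ) : ℚ_[l])‖ ≤ ((l : ℝ) ^ e)⁻¹ := by
  simp only [Loc, map_one, mul_one, h.im]
  constructor
  · rintro ⟨h1, -, h3⟩
    refine ⟨?_, h3⟩
    have e1 : ((x.re : ℚ) : ℚ_[l]) = φ x - x.im * φ k.om := by rw [hom_eq φ x]; ring
    rw [e1]
    exact Small.norm_sub_le_of h1 (nmul' (h3.trans (Small.inv_pow_le_one e)) h.l1)
  · rintro ⟨h1, h2⟩
    have h3 := h2.trans (Small.inv_pow_le_one e)
    refine ⟨?_, ?_, h2⟩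
    · rw [hom_eq]; exact Small.norm_add_le_of h1 (nmul' h3 h.l1)
    · rw [hom_eq]; exact Small.norm_add_le_of h1 (nmul' h3 h.l2)

theorem tw_ord (h : Emb φ ψ) (e : ℕ) : Tw φ ψ 1 e (k.Ord (l ^ e)) := by
  constructor
  · intro x hx
    obtain ⟨a, b, ha, hb⟩ := mem_ord.1 hx
    rw [loc_one h, ha, hb]
    push_cast
    exact ⟨Padic.norm_int_le_one _, nmul' (Small.norm_l_pow e).le (Padic.norm_int_le_one _)⟩
  · intro x hx
    obtain ⟨h1, h2⟩ := (loc_one h).1 hx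
    obtain ⟨w₁, hw₁, a, ha⟩ := Excl.rat_small (l := l) (q := x.re) (e := 0) (by simpa using h1)
    obtain ⟨w₂, hw₂, b, hb⟩ := Excl.rat_small h2
    refine ⟨w₁ * w₂, ndvd_mul hw₁ hw₂, mem_ord.2 ⟨w₂ * a, w₁ * b, ?_, ?_⟩⟩
    · simp only [QuadraticAlgebra.re_mul, QuadraticAlgebra.re_natCast, QuadraticAlgebra.im_natCast]
      push_cast
      linear_combination w₂ * ha
    · simp only [QuadraticAlgebra.im_mul, QuadraticAlgebra.re_natCast, QuadraticAlgebra.im_natCast]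
      push_cast
      linear_combination w₁ * hb

theorem tw_of_dep (h : Emb φ ψ) {e : ℕ} {L : Submodule ℤ k.K} (hL : k.Dep l e L) :
    Tw φ ψ 1 e L := by
  obtain ⟨u, hu, h1, h2⟩ := hL
  refine ⟨fun x hx => (loc_unit hu).1 ((tw_ord h e).1 _ (h2 x hx)), fun x hx => ?_⟩
  obtain ⟨w, hw, h3⟩ := (tw_ord h e).2 x hx
  exact ⟨u * w, ndvd_mul hu hw, by rw [Nat.cast_mul, mul_assoc]; exact h1 _ h3⟩

theorem loc_self (h : Emb φ ψ) {σ : k.K} (hσ : σ ∈ k.O) (e : ℕ) : Loc φ ψ σ e σ :=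
  ⟨h.le_O hσ, h.symm.le_O hσ, by
    have := lpos (l := l)
    rw [mul_comm, sub_self, norm_zero]
    positivity⟩

theorem tw_cov (h : Emb φ ψ) {e : ℕ} {L : Submodule ℤ k.K} {c : ℚ} (hL : Tw φ ψ 1 e L)
    (hc : k.Lat L c) : ‖(c : ℚ_[l])‖ = ((l : ℝ) ^ e)⁻¹ := by
  apply le_antisymm
  · obtain ⟨x, y, rfl, hd, -⟩ := hc
    obtain ⟨x1, x2⟩ := (loc_one h).1 (hL.1 x (Basic.left_mem x y))
    obtain ⟨y1, y2⟩ := (loc_one h).1 (hL.1 y (Basic.right_mem x y))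
    rw [← hd, det2]
    push_cast
    exact Small.norm_sub_le_of (nmul x1 y2) (nmul' x2 y1)
  · obtain ⟨u, hu, h1⟩ := hL.2 1 (loc_self h Small.one_mem_O e)
    obtain ⟨w, hw, h2⟩ := hL.2 _ (loc_deep h Small.one_mem_O (n := l ^ e) (x := k.om)
      (by push_cast; exact (Small.norm_l_pow e).le) h.l1 h.l2)
    obtain ⟨m, hm⟩ := Coll.det_mem hc h1 h2
    have e1 : ((u * w : ℕ) : ℚ) * l ^ e = m * c := by
      rw [← hm]
      simp only [det2, om, QuadraticAlgebra.re_mul, QuadraticAlgebra.im_mul,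
        QuadraticAlgebra.re_natCast, QuadraticAlgebra.im_natCast, QuadraticAlgebra.re_one,
        QuadraticAlgebra.im_one]
      push_cast
      ring
    have e2 := congrArg (fun z : ℚ => ‖(z : ℚ_[l])‖) e1
    simp only [Rat.cast_mul, Rat.cast_pow, Rat.cast_natCast, Rat.cast_intCast,
      unit_mul (ndvd_mul hu hw), Small.norm_l_pow] at e2
    rw [e2]
    exact nmul (Padic.norm_int_le_one _) le_rfl

theorem tw_F (h : Emb φ ψ) {e F : ℕ} {L : Submodule ℤ k.K} (hL : Tw φ ψ 1 e L)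
    (hF : k.Adm F L) : ‖(F : ℚ_[l])‖ ≤ ((l : ℝ) ^ e)⁻¹ := by
  obtain ⟨u, hu, h1⟩ := hL.2 1 (loc_self h Small.one_mem_O e)
  have h2 := (hL.1 _ (hF _ h1)).2.2
  have e1 : φ (F * k.om * (u * 1)) * ψ 1 - ψ (F * k.om * (u * 1)) * φ 1 =
      u * (F * (φ k.om - ψ k.om)) := by
    simp only [map_mul, map_natCast, map_one]
    ring
  rwa [e1, unit_mul hu, norm_mul, h.sep, mul_one] at h2

theorem tw_act (h : Emb φ ψ) {e : ℕ} {F : ℕ+} {A : Submodule ℤ k.K} {σ q o : k.K}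
    (hA : Tw φ ψ σ e A) (hσ : σ ∈ k.O) (hq : q ∈ k.O) (ho : o ∈ k.O) (τ : k.SF F)
    (hτ : lift τ = q + ((F : ℕ) : k.K) * o) (hF : ‖((F : ℕ) : ℚ_[l])‖ ≤ ((l : ℝ) ^ e)⁻¹)
    (q1 : ‖φ q‖ = 1) (q2 : ‖ψ q‖ = 1) : Tw φ ψ (q * σ) e (act τ A) := by
  have hqσ := Small.mul_mem_O hq hσ
  constructor
  · intro x hx
    obtain ⟨v, hv, y, hy, rfl⟩ := Basic.mem_ac.1 hx
    have hy' : ∀ y ∈ k.O * A, ‖φ y‖ ≤ 1 ∧ ‖ψ y‖ ≤ 1 := fun y hy => by
      refine Submodule.mul_induction_on hy (fun a ha b hb => ?_) fun a b ha hb => ?_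
      · rw [map_mul, map_mul]
        exact ⟨nmul (h.le_O ha) (hA.1 b hb).1, nmul (h.symm.le_O ha) (hA.1 b hb).2.1⟩
      · rw [map_add, map_add]
        exact ⟨Small.norm_add_le_of ha.1 hb.1, Small.norm_add_le_of ha.2 hb.2⟩
    have hz := hy' _ (Submodule.add_mem _ hy (Submodule.mul_mem_mul ho hv))
    have e1 : lift τ * v + (F : ℕ) * y = q * v + (F : ℕ) * (y + o * v) := by rw [hτ]; ring
    rw [e1]
    refine loc_add ?_ (loc_deep h hqσ hF hz.1 hz.2)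
    obtain ⟨v1, v2, v3⟩ := hA.1 v hv
    refine ⟨by rw [map_mul]; exact nmul q1.le v1, by rw [map_mul]; exact nmul q2.le v2, ?_⟩
    convert nmul q1.le (nmul q2.le v3) using 2
    simp only [map_mul]
    ring
  · rintro x ⟨x1, x2, x3⟩
    obtain ⟨u, hu, h1⟩ := hA.2 (star q * x) ⟨by rw [map_mul, h.s1]; exact nmul q2.le x1,
      by rw [map_mul, h.s2]; exact nmul q1.le x2, by
        convert x3 using 2
        simp only [map_mul, h.s1, h.s2]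
        ring⟩
    obtain ⟨z, hz⟩ := Basic.norm_O hq
    have hz1 : ¬ l ∣ z := fun hd => by
      have h2 : ‖((z : ℤ) : ℚ_[l])‖ < 1 :=
        Padic.norm_intCast_lt_one_iff.mpr (Int.natCast_dvd_natCast.mpr hd)
      have h3 := congrArg norm (h.nm q)
      rw [norm_mul, q1, q2, hz, Rat.cast_natCast] at h3
      rw [Int.cast_natCast] at h2
      linarith
    refine ⟨u * z, ndvd_mul hu hz1, ?_⟩
    have e1 := Small.mul_star_eq q
    rw [hz, Rat.cast_natCast] at e1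
    convert Submodule.sub_mem _ (Small.lift_mul_mem τ h1) (Small.FO_mul_mem τ ho h1) using 1
    rw [hτ, Nat.cast_mul, ← e1]
    ring

variable (φ ψ) in
/-- The ancestor of level `j`. -/
def anc (j : ℕ) (A : Submodule ℤ k.K) : Submodule ℤ k.K where
  carrier := {x | (l : k.K) ^ j * x ∈ A ∧ ‖φ x‖ ≤ 1 ∧ ‖ψ x‖ ≤ 1}
  zero_mem' := by simp
  add_mem' {x y} hx hy := ⟨by rw [mul_add]; exact A.add_mem hx.1 hy.1,
    by rw [map_add]; exact Small.norm_add_le_of hx.2.1 hy.2.1,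
    by rw [map_add]; exact Small.norm_add_le_of hx.2.2 hy.2.2⟩
  smul_mem' c x hx := by
    rw [zsmul_eq_mul]
    exact ⟨by rw [mul_left_comm]; exact Excl.int_mem c hx.1,
      by rw [map_mul, map_intCast]; exact nmul (Padic.norm_int_le_one _) hx.2.1,
      by rw [map_mul, map_intCast]; exact nmul (Padic.norm_int_le_one _) hx.2.2⟩

theorem mem_anc {j : ℕ} {A : Submodule ℤ k.K} {x : k.K} :
    x ∈ anc φ ψ j A ↔ (l : k.K) ^ j * x ∈ A ∧ ‖φ x‖ ≤ 1 ∧ ‖ψ x‖ ≤ 1 := Iff.rfl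

theorem loc_pow {σ x : k.K} {j e : ℕ} (h1 : ‖φ x‖ ≤ 1) (h2 : ‖ψ x‖ ≤ 1) :
    Loc φ ψ σ (j + e) ((l : k.K) ^ j * x) ↔ Loc φ ψ σ e x := by
  have e1 : (l : ℚ_[l]) ^ j * φ x * ψ σ - l ^ j * ψ x * φ σ =
      l ^ j * (φ x * ψ σ - ψ x * φ σ) := by ring
  have h3 := (Small.norm_l_pow (l := l) j).le.trans (Small.inv_pow_le_one j)
  simp only [Loc, map_mul, map_pow, map_natCast, e1, pow_mul_le, h1, h2, nmul h3 h1, nmul h3 h2]

theorem tw_anc {σ : k.K} {j e : ℕ} {A : Submodule ℤ k.K} (hA : Tw φ ψ σ (j + e) A) :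
    Tw φ ψ σ e (anc φ ψ j A) := by
  refine ⟨fun x hx => (loc_pow hx.2.1 hx.2.2).1 (hA.1 _ hx.1), fun x hx => ?_⟩
  obtain ⟨u, hu, h1⟩ := hA.2 _ ((loc_pow (j := j) hx.1 hx.2.1).2 hx)
  have h2 := (loc_unit hu).2 hx
  exact ⟨u, hu, by rwa [mul_left_comm], h2.1, h2.2.1⟩

theorem le_anc {σ : k.K} {e : ℕ} {A : Submodule ℤ k.K} (hA : Tw φ ψ σ e A) (j : ℕ) :
    A ≤ anc φ ψ j A := fun x hx =>
  ⟨by exact_mod_cast Excl.nat_mem (l ^ j) hx, (hA.1 x hx).1, (hA.1 x hx).2.1⟩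

theorem anc_adm (h : Emb φ ψ) {F j : ℕ} {A : Submodule ℤ k.K} (hA : k.Adm F A) :
    k.Adm F (anc φ ψ j A) := fun x hx =>
  ⟨by rw [mul_left_comm]; exact hA _ hx.1,
    by rw [map_mul, map_mul, map_natCast]; exact nmul (nmul (nnat F) h.l1) hx.2.1,
    by rw [map_mul, map_mul, map_natCast]; exact nmul (nmul (nnat F) h.l2) hx.2.2⟩

theorem Tw.adm (h : Emb φ ψ) {σ : k.K} (hσ : σ ∈ k.O) {e v κ F' : ℕ} {A : Submodule ℤ k.K}
    (hA : Tw φ ψ σ e A) (hF : k.Adm (l ^ v * F') A) (hκ : e ≤ κ) : k.Adm (l ^ κ * F') A := by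
  intro x hx
  refine hA.mem (a := v) ?_ ?_
  · convert Excl.nat_mem (l ^ κ) (hF x hx) using 1
    push_cast
    ring
  · rw [mul_assoc]
    refine loc_deep h hσ ?_ ?_ ?_
    · push_cast
      exact nmul' ((Small.norm_l_pow κ).le.trans (Small.inv_pow_anti hκ)) (nnat F')
    · rw [map_mul]; exact nmul h.l1 (hA.1 x hx).1
    · rw [map_mul]; exact nmul h.l2 (hA.1 x hx).2.1

theorem norm_rat (q : ℚ) : QuadraticAlgebra.norm (q : k.K) = q ^ 2 :=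
  QuadraticAlgebra.norm_algebraMap q

theorem act_mono {F : ℕ+} (s : k.SF F) {A B : Submodule ℤ k.K} (h : A ≤ B) :
    act s A ≤ act s B := by
  unfold act
  gcongr

theorem act_adm {F : ℕ+} (s : k.SF F) {c : ℕ} {A : Submodule ℤ k.K} (h : k.Adm c A) :
    k.Adm c (act s A) := Basic.adm_mul_left h _

theorem anc_lat' {σ : k.K} {e : ℕ} {A : Submodule ℤ k.K} {c : ℚ} (hA : Tw φ ψ σ e A)
    (hc : k.Lat A c) (j : ℕ) : ∃ (c' : ℚ) (a : ℕ), k.Lat (anc φ ψ j A) c' ∧ c = l ^ a * c' := by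
  have hl0 : (l : ℚ) ≠ 0 := Nat.cast_ne_zero.mpr hl.out.ne_zero
  have hl1 : (l : k.K) ≠ 0 := Nat.cast_ne_zero.mpr hl.out.ne_zero
  have hn : QuadraticAlgebra.norm (((l : k.K) ^ j)⁻¹) = (((l : ℚ) ^ j)⁻¹) ^ 2 := by
    rw [← norm_rat]
    push_cast
    rfl
  have h1 := Basic.lat_lin A c (((l : k.K) ^ j)⁻¹) 0 hc (by
    simp only [N, hn, QuadraticAlgebra.norm_zero]
    exact_mod_cast pow_ne_zero 2 (inv_ne_zero (pow_ne_zero j hl0)))
  rw [QuadraticAlgebra.norm_zero, sub_zero, hn, abs_of_nonneg (sq_nonneg _)] at h1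
  have h2 : anc φ ψ j A ≤ A.map (k.lin (((l : k.K) ^ j)⁻¹) 0) := fun x hx =>
    ⟨_, hx.1, by rw [Small.lin_apply]; field_simp; ring⟩
  obtain ⟨c', hc'⟩ := Basic.lat_between _ _ _ _ _ hc h1 (le_anc hA j) h2
  obtain ⟨i, -, hi, -⟩ := Basic.index _ _ _ _ hc hc' (le_anc hA j)
  obtain ⟨i', -, hi', -⟩ := Basic.index _ _ _ _ hc' h1 h2
  have hc0 := (Excl.lat_pos hc).ne'
  have e1 : (l : ℚ) ^ (2 * j) = i * i' := by
    have e2 : c = i * (i' * (((l : ℚ) ^ j)⁻¹ ^ 2 * c)) := by rw [← hi', ← hi]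
    field_simp at e2
    linear_combination e2
  have e3 : l ^ (2 * j) = i * i' := by exact_mod_cast e1
  obtain ⟨a, -, rfl⟩ := (Nat.dvd_prime_pow hl.out).1 ⟨i', e3⟩
  exact ⟨c', a, hc', by exact_mod_cast hi⟩

theorem anc_lat (h : Emb φ ψ) {j e : ℕ} {A : Submodule ℤ k.K} {c : ℚ}
    (hA : Tw φ ψ 1 (j + e) A) (hc : k.Lat A c) : k.Lat (anc φ ψ j A) (c / l ^ j) := by
  obtain ⟨c', a, hc', e1⟩ := anc_lat' hA hc j
  have h1 := tw_cov h hA hc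
  have h2 := tw_cov h (tw_anc hA) hc'
  have hl0 : (l : ℚ) ≠ 0 := Nat.cast_ne_zero.mpr hl.out.ne_zero
  have := lpos (l := l)
  rw [e1] at h1
  push_cast at h1
  rw [norm_mul, h2, Small.norm_l_pow, ← mul_inv, ← pow_add, inv_inj] at h1
  obtain rfl : a = j := by
    have := pow_right_injective₀ this Small.one_lt_l.ne' h1
    omega
  rwa [e1, mul_div_cancel_left₀ _ (pow_ne_zero _ hl0)]

theorem act_anc_le (h : Emb φ ψ) {F : ℕ+} (s : k.SF F) (j : ℕ) (A : Submodule ℤ k.K) :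
    act s (anc φ ψ j A) ≤ anc φ ψ j (act s A) := by
  intro x hx
  have key : ∀ q ∈ k.O, ∀ y ∈ anc φ ψ j A, q * ((l : k.K) ^ j * y) ∈ act s A →
      1 * (q * y) ∈ anc φ ψ j (act s A) := fun q hq y hy h1 => by
    rw [one_mul]
    exact ⟨by rwa [mul_left_comm], by rw [map_mul]; exact nmul (h.le_O hq) hy.2.1,
      by rw [map_mul]; exact nmul (h.symm.le_O hq) hy.2.2⟩
  simpa using Small.act_ind s 1
    (fun y hy => key _ (Basic.lift_mem s) y hy (Small.lift_mul_mem s hy.1))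
    (fun y hy => key _ (Coll.nat_mem_O _) y hy (Small.F_mul_mem s hy.1))
    (fun y hy => key _ (Small.mul_mem_O (Coll.nat_mem_O _) Small.om_mem_O) y hy
      (Small.Fom_mul_mem s hy.1)) x hx

theorem act_anc (h : Emb φ ψ) {F : ℕ+} (s : k.SF F) (j : ℕ) {A : Submodule ℤ k.K}
    (hA : k.Adm F A) : act s (anc φ ψ j A) = anc φ ψ j (act s A) := by
  refine le_antisymm (act_anc_le h s j A) ?_
  have h1 := act_anc_le h s⁻¹ j (act s A)
  rw [← Basic.act_mul, inv_mul_cancel, Basic.act_one hA] at h1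
  have h2 := act_mono s h1
  rwa [← Basic.act_mul, mul_inv_cancel, Basic.act_one (anc_adm h (act_adm s hA))] at h2

theorem nrm_of_tw (h : Emb φ ψ) {M : Submodule ℤ k.K} {c : ℚ} (hM : Tw φ ψ 1 0 M)
    (hc : k.Lat M c) : k.Nrm l M := by
  have hO : ∀ x ∈ k.O, Loc φ ψ 1 0 x := fun x hx => ⟨h.le_O hx, h.symm.le_O hx, by
    simpa using Small.norm_sub_le_of (h.le_O hx) (h.symm.le_O hx)⟩
  have hO' : k.Ord (l ^ 0) = k.O := by simp [Fld.Ord, O]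
  obtain ⟨x, y, rfl, -⟩ := hc
  obtain ⟨u₁, hu₁, h1⟩ := hM.2 _ (hO _ Small.one_mem_O)
  obtain ⟨u₂, hu₂, h2⟩ := hM.2 _ (hO _ Small.om_mem_O)
  obtain ⟨u₃, hu₃, h3⟩ := (tw_ord h 0).2 _ (hM.1 x (Basic.left_mem x y))
  obtain ⟨u₄, hu₄, h4⟩ := (tw_ord h 0).2 _ (hM.1 y (Basic.right_mem x y))
  rw [hO'] at h3 h4
  refine ⟨u₁ * u₂ * (u₃ * u₄), ndvd_mul (ndvd_mul hu₁ hu₂) (ndvd_mul hu₃ hu₄), fun z hz => ?_,
    fun z hz => ?_⟩
  · obtain ⟨a, b, rfl⟩ := Basic.mem_O.1 hz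
    convert Submodule.add_mem _ (Excl.int_mem (a * (u₂ * (u₃ * u₄) : ℕ)) h1)
      (Excl.int_mem (b * (u₁ * (u₃ * u₄) : ℕ)) h2) using 1
    push_cast
    ring
  · obtain ⟨a, b, rfl⟩ := Basic.mem_pair.1 hz
    convert Submodule.add_mem _ (Excl.int_mem (a * (u₁ * u₂ * u₄ : ℕ)) h3)
      (Excl.int_mem (b * (u₁ * u₂ * u₃ : ℕ)) h4) using 1
    push_cast
    ring

end Pool.Agent.Lib.MP_9177b7_ag.J.ExclU
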