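import Pool.Agent.Lib.MP_9177b7_ag.J.ExclU1
import Pool.Agent.Lib.MP_9177b7_ag.J.Rep

/-! Lattices which are deep at a split prime: maps between them, counting, averaging. -/

open Pointwise

noncomputable section

namespace Pool.Agent.Lib.MP_9177b7_ag.J.ExclU

open Fld

variable {k : Fld} {l : ℕ} [hl : Fact l.Prime] {φ ψ : k.K →+* ℚ_[l]}

theorem lin_nat (α β x : k.K) (n : ℕ) : k.lin α β (n * x) = n * k.lin α β x := by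
  simp only [Small.lin_apply, star_mul', star_natCast]
  ring

theorem lin_pow (α β x : k.K) (n j : ℕ) :
    k.lin α β ((n : k.K) ^ j * x) = (n : k.K) ^ j * k.lin α β x := by
  exact_mod_cast lin_nat α β x (n ^ j)

section maps

variable {σ α β : k.K} {e₁ e₂ : ℕ} {A₁ A₂ : Submodule ℤ k.K}

theorem map_loc (t1 : Tw φ ψ σ e₁ A₁) (t2 : Tw φ ψ σ e₂ A₂) (hB : A₁.map (k.lin α β) ≤ A₂)
    {x : k.K} (hx : Loc φ ψ σ e₁ x) : Loc φ ψ σ e₂ (k.lin α β x) := by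
  obtain ⟨u, hu, h1⟩ := t1.2 x hx
  have h2 := t2.1 _ (hB (Submodule.mem_map_of_mem h1))
  rwa [lin_nat, loc_unit hu] at h2

theorem gap_two (h : Emb φ ψ) (hσ : σ ∈ k.O) (s1 : ‖φ σ‖ = 1) (t1 : Tw φ ψ σ e₁ A₁)
    (t2 : Tw φ ψ σ e₂ A₂) (hB : A₁.map (k.lin α β) ≤ A₂) {m : ℕ} (m1 : m ≤ e₁) (m2 : m ≤ e₂)
    (hβ : ‖(l : ℚ_[l]) ^ e₁ * φ β‖ ≤ ((l : ℝ) ^ m)⁻¹) :
    ‖(l : ℚ_[l]) ^ e₁ * ψ β‖ ≤ ((l : ℝ) ^ m)⁻¹ := by
  have hn : ‖((l ^ e₁ : ℕ) : ℚ_[l])‖ ≤ ((l : ℝ) ^ e₁)⁻¹ := by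
    push_cast; exact (Small.norm_l_pow e₁).le
  have h1 := (map_loc t1 t2 hB (loc_deep h hσ (x := 1) hn (by simp) (by simp))).2.2.trans
    (Small.inv_pow_anti m2)
  have h2 := (map_loc t1 t2 hB (loc_deep h hσ hn h.l1 h.l2)).2.2.trans (Small.inv_pow_anti m2)
  have h3 := (map_loc t1 t2 hB (loc_self h hσ e₁)).2.1
  rw [h.symm.lin1] at h3
  rw [h.lin1, h.symm.lin1] at h1 h2
  simp only [map_mul, map_natCast, Nat.cast_pow, map_pow, mul_one] at h1 h2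
  have h4 : ‖(l : ℚ_[l]) ^ e₁ * (φ β * ψ σ - ψ α * φ σ)‖ ≤ ((l : ℝ) ^ m)⁻¹ := by
    rw [← mul_one ‖_‖, ← h.sep, ← norm_mul]
    convert Small.norm_sub_le_of (nmul h.l1 h1) h2 using 2
    ring
  have h5 : ‖(l : ℚ_[l]) ^ e₁ * ψ α‖ ≤ ((l : ℝ) ^ m)⁻¹ := by
    rw [← mul_one ‖_‖, ← s1, ← norm_mul]
    convert Small.norm_sub_le_of (nmul' hβ (h.symm.le_O hσ)) h4 using 2
    ring
  rw [← mul_one ‖_‖, ← s1, ← norm_mul]
  convert Small.norm_sub_le_of (nmul' ((Small.norm_l_pow e₁).le.trans (Small.inv_pow_anti m1)) h3)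
    (nmul' h5 (h.symm.le_O hσ)) using 2
  ring

theorem int_aux {a b s t A B : ℚ_[l]} {e : ℕ} (hs : ‖s‖ = 1) (ha : ‖a‖ ≤ 1)
    (h1 : ‖A * s + B * t‖ ≤ 1) (h2 : ‖a * t - b * s‖ ≤ ((l : ℝ) ^ e)⁻¹)
    (h3 : ‖(l : ℚ_[l]) ^ e * B‖ ≤ 1) : ‖A * a + B * b‖ ≤ 1 := by
  have h4 : ‖B * (a * t - b * s)‖ ≤ 1 := by
    rw [norm_mul, Small.norm_l_pow, mul_comm] at h3
    rw [norm_mul]
    exact (mul_le_mul_of_nonneg_left h2 (norm_nonneg _)).trans h3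
  rw [← mul_one ‖_‖, ← hs, ← norm_mul, hs]
  convert Small.norm_sub_le_of (nmul ha h1) h4 using 2
  ring

theorem map_int (h : Emb φ ψ) (hσ : σ ∈ k.O) (s1 : ‖φ σ‖ = 1) (s2 : ‖ψ σ‖ = 1)
    (t1 : Tw φ ψ σ e₁ A₁) (t2 : Tw φ ψ σ e₂ A₂) (hB : A₁.map (k.lin α β) ≤ A₂) {e : ℕ}
    (b1 : ‖(l : ℚ_[l]) ^ e * φ β‖ ≤ 1) (b2 : ‖(l : ℚ_[l]) ^ e * ψ β‖ ≤ 1) {x : k.K}
    (hx : Loc φ ψ σ e x) : ‖φ (k.lin α β x)‖ ≤ 1 ∧ ‖ψ (k.lin α β x)‖ ≤ 1 := by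
  obtain ⟨h1, h2, -⟩ := map_loc t1 t2 hB (loc_self h hσ e₁)
  rw [h.lin1] at h1 ⊢
  rw [h.symm.lin1] at h2 ⊢
  exact ⟨int_aux s1 hx.1 h1 hx.2.2 b1,
    int_aux s2 hx.2.1 h2 (by rw [norm_sub_rev]; exact hx.2.2) b2⟩

theorem map_anc (h : Emb φ ψ) (hσ : σ ∈ k.O) (s1 : ‖φ σ‖ = 1) (s2 : ‖ψ σ‖ = 1)
    (t1 : Tw φ ψ σ e₁ A₁) (t2 : Tw φ ψ σ e₂ A₂) (hB : A₁.map (k.lin α β) ≤ A₂) {j : ℕ}
    (hj : j ≤ e₁) (b1 : ‖(l : ℚ_[l]) ^ e₁ * φ β‖ ≤ ((l : ℝ) ^ j)⁻¹)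
    (b2 : ‖(l : ℚ_[l]) ^ e₁ * ψ β‖ ≤ ((l : ℝ) ^ j)⁻¹) :
    (anc φ ψ j A₁).map (k.lin α β) ≤ anc φ ψ j A₂ := by
  obtain ⟨e, rfl⟩ := Nat.exists_eq_add_of_le hj
  have key : ∀ z : ℚ_[l], ‖(l : ℚ_[l]) ^ (j + e) * z‖ ≤ ((l : ℝ) ^ j)⁻¹ →
      ‖(l : ℚ_[l]) ^ e * z‖ ≤ 1 := fun z hz => by
    rw [pow_add, mul_assoc] at hz
    simpa using (pow_mul_le (j := j) (e := 0)).1 hz
  rintro _ ⟨x, hx, rfl⟩
  refine ⟨?_, map_int h hσ s1 s2 t1 t2 hB (key _ b1) (key _ b2) ((tw_anc t1).1 x hx)⟩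
  rw [← lin_pow]
  exact hB (Submodule.mem_map_of_mem hx.1)

theorem map_top (h : Emb φ ψ) (hσ : σ ∈ k.O) (s1 : ‖φ σ‖ = 1) (s2 : ‖ψ σ‖ = 1)
    (t1 : Tw φ ψ σ e₁ A₁) (t2 : Tw φ ψ σ e₂ A₂) (hB : A₁.map (k.lin α β) ≤ A₂)
    (b1 : ‖φ β‖ ≤ 1) (b2 : ‖ψ β‖ ≤ 1) :
    (anc φ ψ e₁ A₁).map (k.lin α β) ≤ anc φ ψ e₂ A₂ := by
  rintro _ ⟨x, hx, rfl⟩
  have h1 := map_int h hσ s1 s2 t1 t2 hB (e := 0) (by simpa using b1) (by simpa using b2)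
    ((tw_anc (j := e₁) (e := 0) t1).1 x hx)
  refine ⟨t2.mem (a := e₁) ?_ ?_, h1⟩
  · rw [mul_left_comm, ← lin_pow]
    exact_mod_cast Excl.nat_mem (l ^ e₂) (hB (Submodule.mem_map_of_mem hx.1))
  · exact_mod_cast loc_deep h hσ (n := l ^ e₂) (e := e₂)
      (by push_cast; exact (Small.norm_l_pow e₂).le) h1.1 h1.2

end maps

theorem three {A B C p₀ p₁ p₂ q₀ q₁ q₂ : ℚ_[l]} {δ ρ : ℝ} (hρ : 0 < ρ) (a0 : ‖p₀‖ ≤ 1)
    (a1 : ‖p₁‖ ≤ 1) (a2 : ‖p₂‖ ≤ 1) (f0 : ‖A * p₀ * q₀ + B * q₀ ^ 2 - C * p₀ ^ 2‖ ≤ δ)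
    (f1 : ‖A * p₁ * q₁ + B * q₁ ^ 2 - C * p₁ ^ 2‖ ≤ δ)
    (f2 : ‖A * p₂ * q₂ + B * q₂ ^ 2 - C * p₂ ^ 2‖ ≤ δ) (d01 : ρ ≤ ‖p₀ * q₁ - p₁ * q₀‖)
    (d02 : ρ ≤ ‖p₀ * q₂ - p₂ * q₀‖) (d12 : ρ ≤ ‖p₁ * q₂ - p₂ * q₁‖) : ‖B‖ ≤ δ / ρ ^ 2 := by
  have key : ∀ f p q d d' : ℚ_[l], ‖f‖ ≤ δ → ‖p‖ ≤ 1 → ‖q‖ ≤ 1 → ρ ≤ ‖d‖ → ρ ≤ ‖d'‖ →
      ‖f * p * q / (d * d')‖ ≤ δ / ρ ^ 2 := fun f p q d d' hf hp hq hd hd' => by
    rw [norm_div, norm_mul d, sq]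
    exact div_le_div₀ ((norm_nonneg f).trans hf) (nmul' (nmul' hf hp) hq) (by positivity)
      (mul_le_mul hd hd' hρ.le (norm_nonneg _))
  have n01 := norm_pos_iff.1 (hρ.trans_le d01)
  have n02 := norm_pos_iff.1 (hρ.trans_le d02)
  have n12 := norm_pos_iff.1 (hρ.trans_le d12)
  convert Small.norm_add_le_of (Small.norm_sub_le_of (key _ _ _ _ _ f0 a1 a2 d01 d02)
    (key _ _ _ _ _ f1 a0 a2 d01 d12)) (key _ _ _ _ _ f2 a0 a1 d02 d12) using 2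
  generalize hd : p₀ * q₁ - p₁ * q₀ = d₁ at *
  generalize hd' : p₀ * q₂ - p₂ * q₀ = d₂ at *
  generalize hd'' : p₁ * q₂ - p₂ * q₁ = d₃ at *
  field_simp
  rw [← hd, ← hd', ← hd'']
  ring

omit hl in
theorem exists_t {F : ℕ+} {v κ F' : ℕ} (hF : (F : ℕ) = l ^ v * F') (hκ : 0 < κ) (a : ℕ) :
    ∃ τ : k.SF F, ∃ o ∈ k.O,
      lift τ = 1 + ((a * (l ^ κ * F') : ℕ) : k.K) * k.om + ((F : ℕ) : k.K) * o := by
  set n := a * (l ^ κ * F') with hn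
  have h1 : IsNilpotent ((n : Basic.RF k F) * ⟨0, 1⟩) := by
    refine (Commute.all _ _).isNilpotent_mul_right ⟨v + 1, ?_⟩
    have h2 : (F : ℕ) ∣ n ^ (v + 1) := by
      rw [hF, hn, mul_pow, mul_pow, ← pow_mul]
      exact Dvd.dvd.mul_left (mul_dvd_mul (pow_dvd_pow _ (by nlinarith))
        (dvd_pow_self _ (by omega))) _
    rw [← Nat.cast_pow, ← map_natCast (algebraMap (ZMod F) (Basic.RF k F)),
      (ZMod.natCast_eq_zero_iff _ _).2 h2, map_zero]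
  refine ⟨h1.isUnit_one_add.unit, (Basic.red_lift _).diff ⟨1, n, by simp, ?_, ?_⟩⟩ <;>
    simp [QuadraticAlgebra.re_one, QuadraticAlgebra.im_one]

theorem act_t {F : ℕ+} {n a : ℕ} {M : Submodule ℤ k.K} {c : ℚ} (hM : k.Lat M c)
    (a1 : k.Adm F M) (a2 : k.Adm n M) {τ : k.SF F} {o : k.K} (ho : o ∈ k.O)
    (hτ : lift τ = 1 + ((a * n : ℕ) : k.K) * k.om + ((F : ℕ) : k.K) * o) : act τ M = M := by
  refine Basic.eq_of_le_cov (Basic.lat_act τ hM a1) hM fun x hx => ?_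
  simpa using Small.act_ind τ 1 (M := M) (fun y hy => by
      convert M.add_mem (M.add_mem hy (Excl.nat_mem a (a2 y hy))) (Small.adm_mul a1 ho hy) using 1
      rw [hτ]
      push_cast
      ring)
    (fun y hy => by rw [one_mul]; exact Excl.nat_mem _ hy)
    (fun y hy => by rw [one_mul]; exact a1 y hy) x hx

theorem lin_ext {x y α β α' β' : k.K} (h : k.det2 x y ≠ 0) (h1 : k.lin α β x = k.lin α' β' x)
    (h2 : k.lin α β y = k.lin α' β' y) : α = α' ∧ β = β' := by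
  have e : star x * y - x * star y = ((k.det2 x y : ℚ) : k.K) * Coll.del k := by
    have h : ∀ q : ℚ, (q : k.K) = algebraMap ℚ k.K q := fun q => rfl
    rw [h]
    ext <;> simp [Coll.del, om, det2] <;> ring
  have h0 : star x * y - x * star y ≠ 0 :=
    e ▸ mul_ne_zero (Rat.cast_ne_zero.mpr h) Coll.del_ne
  simp only [Small.lin_apply] at h1 h2
  exact ⟨mul_right_cancel₀ h0 (by linear_combination star x * h2 - star y * h1),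
    mul_right_cancel₀ h0 (by linear_combination y * h1 - x * h2)⟩

theorem count {M₁ M₂ : Submodule ℤ k.K} {c₁ c₂ : ℚ} (l1 : k.Lat M₁ c₁) (l2 : k.Lat M₂ c₂)
    {ε R : ℝ} (hε : 0 < ε) (hR : 0 ≤ R) (n1 : ¬ ∃ v ∈ M₁, v ≠ 0 ∧ k.N v ≤ ε * c₁)
    (n2 : ¬ ∃ v ∈ M₂, v ≠ 0 ∧ k.N v ≤ ε * c₂) : ∃ (x y : k.K) (T : Finset k.K), k.det2 x y ≠ 0 ∧
      (T.card : ℝ) ≤ 144 * R * |(k.D : ℝ)| / ε ^ 2 ∧ ∀ α β, M₁.map (k.lin α β) ≤ M₂ →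
        k.N α ≠ k.N β → k.N α * c₁ ≤ R * c₂ → k.N β * c₁ ≤ R * c₂ →
        k.lin α β x ∈ T ∧ k.lin α β y ∈ T := by
  have p1 : (0 : ℝ) < c₁ := Rat.cast_pos.mpr (Excl.lat_pos l1)
  have p2 : (0 : ℝ) < c₂ := Rat.cast_pos.mpr (Excl.lat_pos l2)
  have hD := Small.absD_pos (k := k)
  obtain ⟨x, y, hL, hd, -, h1, h2⟩ := Basic.reduced M₁ c₁ l1
  have hd0 : k.det2 x y ≠ 0 := hd ▸ (Excl.lat_pos l1).ne'
  have hx : x ∈ M₁ := hL ▸ Basic.left_mem x y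
  have hy : y ∈ M₁ := hL ▸ Basic.right_mem x y
  have h3 : ε * c₁ < k.N x := not_le.1 fun h => n1 ⟨x, hx, Basic.ne_zero_of_det hd0, h⟩
  have h4 : k.N y ≤ |(k.D : ℝ)| * c₁ / ε := by
    rw [le_div_iff₀ hε]
    refine le_of_mul_le_mul_right ?_ p1
    nlinarith [Small.N_nonneg y]
  obtain ⟨hf, hc⟩ := Rep.pack k M₂ (ε * c₂) (4 * R * |(k.D : ℝ)| * c₂ / ε) (by positivity)
    (by positivity) fun v hv h0 => (not_le.1 fun h => n2 ⟨v, hv, h0, h⟩).le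
  refine ⟨x, y, hf.toFinset, hd0, ?_, fun α β hB hne b1 b2 => ?_⟩
  · rw [← Set.ncard_eq_toFinset_card _ hf]
    refine hc.trans_eq ?_
    field_simp
    ring
  · have h5 : k.det2 (k.lin α β x) (k.lin α β y) ≠ 0 := by
      rw [Small.det_lin]
      exact mul_ne_zero (fun h => hne (by rw [N, N, sub_eq_zero.1 h])) hd0
    have key : ∀ z, k.N z ≤ k.N y → k.N (k.lin α β z) ≤ 4 * R * |(k.D : ℝ)| * c₂ / ε := by
      intro z hz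
      have h6 : 0 ≤ k.N α + k.N β := add_nonneg (Small.N_nonneg α) (Small.N_nonneg β)
      calc k.N (k.lin α β z) ≤ 2 * (k.N α + k.N β) * k.N z := Small.N_lin_le α β z
        _ ≤ 2 * (k.N α + k.N β) * (|(k.D : ℝ)| * c₁ / ε) := by gcongr; exact hz.trans h4
        _ = 2 * (k.N α * c₁ + k.N β * c₁) * (|(k.D : ℝ)| / ε) := by ring
        _ ≤ 2 * (R * c₂ + R * c₂) * (|(k.D : ℝ)| / ε) := by gcongr
        _ = _ := by ring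
    simp only [Set.Finite.mem_toFinset, Set.mem_ofPred_eq]
    refine ⟨⟨hB (Submodule.mem_map_of_mem hx), Basic.ne_zero_of_det h5, key x h1⟩,
      hB (Submodule.mem_map_of_mem hy), fun h => h5 ?_, key y le_rfl⟩
    rw [h]
    simp [det2]

theorem pr_or {F : ℕ+} {P Q₁ Q₂ : k.SF F → Prop} (h : ∀ s, P s → Q₁ s ∨ Q₂ s) :
    k.pr F P ≤ k.pr F Q₁ + k.pr F Q₂ := by
  simpa using Excl.pr_union (Finset.univ : Finset Bool) (fun b => cond b Q₁ Q₂) (P := P)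
    fun s hs => by simpa [or_comm] using h s hs

theorem pr_avg {F : ℕ+} (t : ℕ → k.SF F) {n : ℕ} (hn : 0 < n) {P Q : k.SF F → Prop} {C : ℝ}
    (hC : 0 ≤ C)
    (h : ∀ s, ¬ Q s → ∀ S : Finset ℕ, (∀ a ∈ S, a < n ∧ P (s * t a)) → (S.card : ℝ) ≤ C) :
    k.pr F P ≤ k.pr F Q + C / n := by
  classical
  have hn' : (0 : ℝ) < n := Nat.cast_pos.mpr hn
  have hc : (0 : ℝ) < Fintype.card (k.SF F) := Nat.cast_pos.mpr Fintype.card_pos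
  have h1 : ∀ a, ∑ s, (if P s then (1 : ℝ) else 0) = ∑ s, if P (s * t a) then 1 else 0 :=
    fun a => (Equiv.sum_comp (Equiv.mulRight (t a)) fun s => if P s then (1 : ℝ) else 0).symm
  have h2 : n * ∑ s, (if P s then (1 : ℝ) else 0) ≤ ∑ s, (n * (if Q s then 1 else 0) + C) := by
    calc _ = ∑ a ∈ Finset.range n, ∑ s, if P (s * t a) then (1 : ℝ) else 0 := by
          rw [← Finset.sum_congr rfl fun a _ => h1 a, Finset.sum_const, Finset.card_range,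
            nsmul_eq_mul]
      _ = ∑ s, (((Finset.range n).filter fun a => P (s * t a)).card : ℝ) := by
          rw [Finset.sum_comm]
          simp only [Finset.sum_boole]
      _ ≤ _ := Finset.sum_le_sum fun s _ => by
          by_cases hs : Q s
          · rw [if_pos hs, mul_one]
            have : (((Finset.range n).filter fun a => P (s * t a)).card : ℝ) ≤ n := by
              exact_mod_cast (Finset.card_filter_le _ _).trans_eq (Finset.card_range n)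
            linarith
          · rw [if_neg hs, mul_zero, zero_add]
            exact h s hs _ fun a ha => by simpa using ha
  rw [Finset.sum_add_distrib, ← Finset.mul_sum, Finset.sum_const, Finset.card_univ,
    nsmul_eq_mul] at h2
  simp only [pr, avg]
  rw [div_add_div _ _ hc.ne' hn'.ne', div_le_div_iff₀ hc (by positivity)]
  nlinarith

end Pool.Agent.Lib.MP_9177b7_ag.J.ExclU
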