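import Pool.Agent.Lib.MP_9177b7_ag.J.ExclU2

/-! Lattices which are deep at a split prime: the inductive step and the end of the argument. -/

open Pointwise

noncomputable section

namespace Pool.Agent.Lib.MP_9177b7_ag.J.ExclU

open Fld

variable {k : Fld} {l : ℕ} [hl : Fact l.Prime] {φ ψ : k.K →+* ℚ_[l]}

variable (φ ψ) in
/-- A bounded map which respects the first `g` ancestors. -/
def Mp (Nn : ℕ) (R : ℝ) (c₁ c₂ : ℚ) (e g : ℕ) (A₁ A₂ : Submodule ℤ k.K) (α β : k.K) : Prop :=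
  A₁.map (k.lin α β) ≤ A₂ ∧ |k.N α - k.N β| * c₁ = Nn * c₂ ∧ k.N α * c₁ ≤ R * c₂ ∧
    k.N β * c₁ ≤ R * c₂ ∧ β ≠ 0 ∧ ‖(l : ℚ_[l]) ^ e * φ β‖ ≤ ((l : ℝ) ^ g)⁻¹ ∧
    ‖(l : ℚ_[l]) ^ e * ψ β‖ ≤ ((l : ℝ) ^ g)⁻¹

variable (φ ψ) in
/-- There is such a map. -/
def Gp (Nn : ℕ) (R : ℝ) (c₁ c₂ : ℚ) (e g : ℕ) (A₁ A₂ : Submodule ℤ k.K) : Prop :=
  ∃ α β, Mp φ ψ Nn R c₁ c₂ e g A₁ A₂ α β

theorem Gp.mono {Nn : ℕ} {R : ℝ} {c₁ c₂ : ℚ} {e g g' : ℕ} {A₁ A₂ : Submodule ℤ k.K} (hg : g ≤ g')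
    (h : Gp φ ψ Nn R c₁ c₂ e g' A₁ A₂) : Gp φ ψ Nn R c₁ c₂ e g A₁ A₂ := by
  obtain ⟨α, β, h1, h2, h3, h4, h5, h6, h7⟩ := h
  exact ⟨α, β, h1, h2, h3, h4, h5, h6.trans (Small.inv_pow_anti hg),
    h7.trans (Small.inv_pow_anti hg)⟩

theorem det_ne {α β : k.K} {Nn : ℕ} {c₁ c₂ : ℚ} (hN : 0 < Nn) (hc : 0 < c₂)
    (h : |k.N α - k.N β| * c₁ = Nn * c₂) : k.N α ≠ k.N β := fun e => by
  rw [e, sub_self, abs_zero, zero_mul] at h
  have : (0 : ℝ) < Nn * c₂ := by positivity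
  exact this.ne h

theorem tw_act_one (h : Emb φ ψ) {F : ℕ+} (hF : l ∣ F) {L : Submodule ℤ k.K} {e : ℕ}
    (a1 : k.Adm F L) (t1 : Tw φ ψ 1 e L) (s : k.SF F) : Tw φ ψ (lift s) e (act s L) := by
  simpa using tw_act h t1 Small.one_mem_O (Basic.lift_mem s) k.O.zero_mem s (by simp)
    (tw_F h t1 a1) (h.unit_lift hF s) (h.symm.unit_lift hF s)

theorem one_add_unit {z : ℚ_[l]} {a F' κ : ℕ} (hκ : 0 < κ) (hz : ‖z‖ ≤ 1) :
    ‖1 + ((a * (l ^ κ * F') : ℕ) : ℚ_[l]) * z‖ = 1 := by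
  have h1 : ‖((a * (l ^ κ * F') : ℕ) : ℚ_[l]) * z‖ < 1 := by
    push_cast
    exact (nmul' (nmul (nnat a) (nmul' (Small.norm_l_pow κ).le (nnat F'))) hz).trans_lt
      (inv_lt_one_of_one_lt₀ (one_lt_pow₀ Small.one_lt_l hκ.ne'))
  rw [IsUltrametricDist.norm_add_eq_max_of_norm_ne_norm (by rw [norm_one]; exact h1.ne'),
    norm_one, max_eq_left h1.le]

theorem sep_nat {a b E : ℕ} (ha : a < l ^ E) (hb : b < l ^ E) (hab : a ≠ b) :
    ((l : ℝ) ^ E)⁻¹ ≤ ‖(b : ℚ_[l]) - a‖ := by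
  refine (not_le.1 fun h => hab ?_).le
  have h1 : (l : ℤ) ^ E ∣ (b : ℤ) - a := (Small.norm_int_le_iff _ _).1 (by exact_mod_cast h)
  have ha' : (a : ℤ) < (l : ℤ) ^ E := by exact_mod_cast ha
  have hb' : (b : ℤ) < (l : ℤ) ^ E := by exact_mod_cast hb
  have := Int.eq_zero_of_abs_lt_dvd h1 (abs_lt.2 ⟨by omega, by omega⟩)
  omega

theorem step (h : Emb φ ψ) {F : ℕ+} (hF : l ∣ F) {L₁ L₂ : Submodule ℤ k.K} {c₁ c₂ : ℚ}
    {e₁ e₂ Nn : ℕ} {R : ℝ} (l1 : k.Lat L₁ c₁) (l2 : k.Lat L₂ c₂) (a1 : k.Adm F L₁)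
    (a2 : k.Adm F L₂) (t1 : Tw φ ψ 1 e₁ L₁) (t2 : Tw φ ψ 1 e₂ L₂) (hN : 0 < Nn) (hR : 0 ≤ R)
    {j κ E g : ℕ} (j1 : j ≤ e₁) (j2 : j ≤ e₂) (hκ : 0 < κ) (k1 : e₁ ≤ j + κ) (k2 : e₂ ≤ j + κ)
    (hg : g + 2 * κ + 2 * E ≤ e₁ + e₂) {ε : ℝ} (hε : 0 < ε) :
    k.pr F (fun s => Gp φ ψ Nn R c₁ c₂ e₁ j (act s L₁) (act s L₂)) ≤
      k.pr F (fun s => Gp φ ψ Nn R c₁ c₂ e₁ g (act s L₁) (act s L₂)) +
      (k.pr F (fun s => ∃ v ∈ act s (anc φ ψ j L₁), v ≠ 0 ∧ k.N v ≤ ε * (c₁ / l ^ j : ℚ)) +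
      k.pr F (fun s => ∃ v ∈ act s (anc φ ψ j L₂), v ≠ 0 ∧ k.N v ≤ ε * (c₂ / l ^ j : ℚ)) +
      2 * (144 * R * |(k.D : ℝ)| / ε ^ 2) ^ 2 / (l ^ E : ℕ)) := by
  classical
  have hl0 := lpos (l := l)
  obtain ⟨v, F', hF', eF⟩ := Nat.exists_eq_pow_mul_and_not_dvd F.ne_zero l hl.out.ne_one
  choose τ o ho hτ using exists_t (k := k) eF hκ
  have anc1 : ∀ {L : Submodule ℤ k.K} {c : ℚ} {e : ℕ}, k.Lat L c → k.Adm F L → Tw φ ψ 1 e L →
      j ≤ e → e ≤ j + κ → k.Lat (anc φ ψ j L) (c / l ^ j) ∧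
        ∀ s a, anc φ ψ j (act (s * τ a) L) = act s (anc φ ψ j L) := by
    intro L c e hc ha ht h1 h2
    obtain ⟨e', rfl⟩ := Nat.exists_eq_add_of_le h1
    have h3 := anc_lat h ht hc
    have h4 : k.Adm F (anc φ ψ j L) := anc_adm h ha
    refine ⟨h3, fun s a => ?_⟩
    rw [← act_anc h _ j ha, Basic.act_mul, act_t h3 h4
      ((tw_anc ht).adm h Small.one_mem_O (v := v) (eF ▸ h4) (by omega)) (ho a) (hτ a)]
  obtain ⟨m1, r1⟩ := anc1 l1 a1 t1 j1 k1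
  obtain ⟨m2, r2⟩ := anc1 l2 a2 t2 j2 k2
  refine (pr_or (Q₂ := fun s => Gp φ ψ Nn R c₁ c₂ e₁ j (act s L₁) (act s L₂) ∧
    ¬ Gp φ ψ Nn R c₁ c₂ e₁ g (act s L₁) (act s L₂)) fun s hs => by tauto).trans
    (add_le_add le_rfl ((pr_avg τ (pow_pos hl.out.pos E) (by positivity) ?_).trans
      (add_le_add (pr_or fun s hs => hs) le_rfl)))
  intro s hs S hS'
  obtain ⟨x, y, T, hd, hT, H⟩ := count (Basic.lat_act s m1 (anc_adm h a1))
    (Basic.lat_act s m2 (anc_adm h a2)) hε hR (fun h => hs (Or.inl h)) fun h => hs (Or.inr h)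
  choose! α β hB using fun a ha => (hS' a ha).2.1
  have hσ := Basic.lift_mem s
  have s1 := h.unit_lift hF s
  have s2 := h.symm.unit_lift hF s
  set q : ℕ → k.K := fun a => 1 + ((a * (l ^ κ * F') : ℕ) : k.K) * k.om with hq
  have q0 : ∀ a, q a ∈ k.O := fun a => k.O.add_mem Small.one_mem_O (Excl.nat_mem _ Small.om_mem_O)
  have q1 : ∀ a, ‖φ (q a)‖ = 1 := fun a => by
    simp only [hq, map_add, map_one, map_mul, map_natCast]
    exact one_add_unit hκ h.l1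
  have q2 : ∀ a, ‖ψ (q a)‖ = 1 := fun a => by
    simp only [hq, map_add, map_one, map_mul, map_natCast]
    exact one_add_unit hκ h.l2
  have tw : ∀ {L : Submodule ℤ k.K} {e : ℕ}, k.Adm F L → Tw φ ψ 1 e L → ∀ a,
      Tw φ ψ (q a * lift s) e (act (s * τ a) L) := fun ha ht a => by
    rw [mul_comm s, Basic.act_mul]
    exact tw_act h (tw_act_one h hF ha ht s) hσ (q0 a) (ho a) (τ a) (hτ a) (tw_F h ht ha)
      (q1 a) (q2 a)
  have u0 : ∀ a, q a * lift s ∈ k.O := fun a => Small.mul_mem_O (q0 a) hσ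
  have u1 : ∀ a, ‖φ (q a * lift s)‖ = 1 := fun a => by rw [map_mul, norm_mul, q1, s1, mul_one]
  have u2 : ∀ a, ‖ψ (q a * lift s)‖ = 1 := fun a => by rw [map_mul, norm_mul, q2, s2, mul_one]
  have hcard : S.card ≤ 2 * (T ×ˢ T).card := by
    refine Finset.card_le_mul_card_image_of_maps_to
      (f := fun a => (k.lin (α a) (β a) x, k.lin (α a) (β a) y)) (fun a ha => ?_) 2 ?_
    · obtain ⟨b1, b2, b3, b4, -, b6, b7⟩ := hB a ha
      have h1 := map_anc h (u0 a) (u1 a) (u2 a) (tw a1 t1 a) (tw a2 t2 a) b1 j1 b6 b7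
      rw [r1, r2] at h1
      refine Finset.mem_product.2 (H _ _ h1 (det_ne hN (Excl.lat_pos l2) b2) ?_ ?_)
      · push_cast
        rw [← mul_div_assoc, ← mul_div_assoc]
        gcongr
      · push_cast
        rw [← mul_div_assoc, ← mul_div_assoc]
        gcongr
    · intro p _
      by_contra hc
      obtain ⟨a, b, c, ha, hb, hc, hab, hac, hbc⟩ := Finset.two_lt_card_iff.1 (not_le.1 hc)
      obtain ⟨ha, ea⟩ := Finset.mem_filter.1 ha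
      obtain ⟨hb, eb⟩ := Finset.mem_filter.1 hb
      obtain ⟨hc, ec⟩ := Finset.mem_filter.1 hc
      have f : ∀ b ∈ S, (k.lin (α b) (β b) x, k.lin (α b) (β b) y) = p →
          ‖(φ (α a) - ψ (α a)) * φ (q b * lift s) * ψ (q b * lift s) +
            φ (β a) * ψ (q b * lift s) ^ 2 - ψ (β a) * φ (q b * lift s) ^ 2‖ ≤
            ((l : ℝ) ^ e₂)⁻¹ := fun b hb eb => by
        obtain ⟨e1, e2⟩ := Prod.mk.inj (ea.trans eb.symm)
        obtain ⟨e3, e4⟩ := lin_ext hd e1 e2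
        have h1 := (map_loc (tw a1 t1 b) (tw a2 t2 b) (hB b hb).1 (loc_self h (u0 b) e₁)).2.2
        rw [h.lin1, h.symm.lin1, ← e3, ← e4] at h1
        convert h1 using 2
        ring
      have f' : ∀ b ∈ S, (k.lin (α b) (β b) x, k.lin (α b) (β b) y) = p →
          ‖(ψ (α a) - φ (α a)) * ψ (q b * lift s) * φ (q b * lift s) +
            ψ (β a) * φ (q b * lift s) ^ 2 - φ (β a) * ψ (q b * lift s) ^ 2‖ ≤
            ((l : ℝ) ^ e₂)⁻¹ := fun b hb eb => by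
        refine ((norm_neg _).symm.trans (congrArg _ ?_)).trans_le (f b hb eb)
        ring
      have d : ∀ a ∈ S, ∀ b ∈ S, a ≠ b → ((l : ℝ) ^ (κ + E))⁻¹ ≤
          ‖φ (q a * lift s) * ψ (q b * lift s) - φ (q b * lift s) * ψ (q a * lift s)‖ := by
        intro a ha b hb hab
        have e1 : φ (q a * lift s) * ψ (q b * lift s) - φ (q b * lift s) * ψ (q a * lift s) =
            F' * (l ^ κ * (((a : ℚ_[l]) - b) * (φ (lift s) * (ψ (lift s) *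
              (φ k.om - ψ k.om))))) := by
          simp only [hq, map_add, map_one, map_mul, map_natCast]
          push_cast
          ring
        rw [e1, unit_mul hF', norm_mul, norm_mul, norm_mul, norm_mul, s1, s2, h.sep, mul_one,
          mul_one, mul_one, Small.norm_l_pow, pow_add, mul_inv]
        gcongr
        exact sep_nat (hS' b hb).1 (hS' a ha).1 hab.symm
      have d' : ∀ a ∈ S, ∀ b ∈ S, a ≠ b → ((l : ℝ) ^ (κ + E))⁻¹ ≤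
          ‖ψ (q a * lift s) * φ (q b * lift s) - ψ (q b * lift s) * φ (q a * lift s)‖ := by
        intro a ha b hb hab
        convert d b hb a ha hab.symm using 2
        ring
      have fin : ∀ z : ℚ_[l], ‖z‖ ≤ ((l : ℝ) ^ e₂)⁻¹ / ((l : ℝ) ^ (κ + E))⁻¹ ^ 2 →
          ‖(l : ℚ_[l]) ^ e₁ * z‖ ≤ ((l : ℝ) ^ g)⁻¹ := fun z hz => by
        rw [norm_mul, Small.norm_l_pow]
        refine (mul_le_mul_of_nonneg_left hz (by positivity)).trans ?_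
        have h1 : (l : ℝ) ^ (g + 2 * κ + 2 * E) ≤ (l : ℝ) ^ (e₁ + e₂) :=
          pow_le_pow_right₀ Small.one_lt_l.le hg
        field_simp
        convert h1 using 1 <;> ring
      obtain ⟨b1, b2, b3, b4, b5, -⟩ := hB a ha
      exact (hS' a ha).2.2 ⟨α a, β a, b1, b2, b3, b4, b5,
        fin _ (three (by positivity) (u1 a).le (u1 b).le (u1 c).le (f a ha ea) (f b hb eb)
          (f c hc ec) (d a ha b hb hab) (d a ha c hc hac) (d b hb c hc hbc)),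
        fin _ (three (by positivity) (u2 a).le (u2 b).le (u2 c).le (f' a ha ea) (f' b hb eb)
          (f' c hc ec) (d' a ha b hb hab) (d' a ha c hc hac) (d' b hb c hc hbc))⟩
  rw [Finset.card_product] at hcard
  calc (S.card : ℝ) ≤ 2 * (T.card * T.card) := by exact_mod_cast hcard
    _ ≤ _ := by
      rw [sq (_ / _)]
      gcongr

theorem ev_symm {r : ℚ_[l]} (hr : k.Root r) {Nn m : ℕ} {R : ℝ} {c₁ c₂ : ℚ}
    {A₁ A₂ : Submodule ℤ k.K} (l1 : k.Lat A₁ c₁) (l2 : k.Lat A₂ c₂) (hN : 0 < Nn)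
    (u1 : ‖(c₁ : ℚ_[l])‖ = 1) (u2 : ‖(c₂ : ℚ_[l])‖ = 1) (h : k.Ev l r Nn R m c₁ c₂ A₁ A₂) :
    k.Ev l r Nn R m c₂ c₁ A₂ A₁ := by
  obtain ⟨α, β, g1, g2, g3, g4, g5, g6, g7⟩ := h
  have p1 := Excl.lat_pos l1
  have p2 := Excl.lat_pos l2
  have p1' : (0 : ℝ) < c₁ := Rat.cast_pos.mpr p1
  have p2' : (0 : ℝ) < c₂ := Rat.cast_pos.mpr p2
  have hN' : (0 : ℚ) < Nn := Nat.cast_pos.mpr hN
  have hne := det_ne hN p2 g2
  set δ := QuadraticAlgebra.norm α - QuadraticAlgebra.norm β with hδ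
  have hδ0 : δ ≠ 0 := fun h => hne (by rw [N, N, sub_eq_zero.1 h])
  have e1 : |δ| * c₁ = Nn * c₂ := by
    simp only [N] at g2
    rw [hδ]
    exact_mod_cast g2
  obtain ⟨j, -, hj, hj2, -⟩ := Basic.index _ _ _ _ (Basic.lat_lin _ _ α β l1 hne) l2 g1
  obtain rfl : Nn = j := Nat.cast_injective (mul_right_cancel₀ p2.ne' (e1.symm.trans hj))
  set q : ℚ := Nn / δ with hq
  have hq1 : |q| = c₁ / c₂ := by
    have := abs_pos.2 hδ0
    rw [hq, abs_div, abs_of_pos hN', div_eq_div_iff this.ne' p2.ne', ← e1, mul_comm]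
  have hq2 : (q : ℝ) ^ 2 = ((c₁ : ℝ) / c₂) ^ 2 := by
    rw [← sq_abs, ← Rat.cast_abs, hq1]
    push_cast
    rfl
  have hq3 : ‖(q : ℚ_[l])‖ = 1 := by
    have h1 : ‖((|q| : ℚ) : ℚ_[l])‖ = 1 := by rw [hq1, Rat.cast_div, norm_div, u1, u2, div_one]
    rcases abs_choice q with h2 | h2
    · rwa [h2] at h1
    · rwa [h2, Rat.cast_neg, norm_neg] at h1
  have hNq : ∀ x, k.N ((q : k.K) * x) = ((c₁ : ℝ) / c₂) ^ 2 * k.N x := fun x => by
    rw [Small.N_mul, N, norm_rat, Rat.cast_pow, hq2]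
  have hneg : k.N (-β) = k.N β := by simp [N]
  have hio : ∀ ρ : ℚ_[l], k.Root ρ → ‖k.io ρ ((q : k.K) * -β)‖ = ‖k.io ρ β‖ := fun ρ hρ => by
    change ‖Small.hom hρ _‖ = ‖Small.hom hρ _‖
    rw [map_mul, map_ratCast, map_neg, norm_mul, hq3, norm_neg, one_mul]
  have hb : ∀ z : ℝ, z * c₁ ≤ R * c₂ → ((c₁ : ℝ) / c₂) ^ 2 * z * c₂ ≤ R * c₁ := fun z hz => by
    calc ((c₁ : ℝ) / c₂) ^ 2 * z * c₂ = z * c₁ * (c₁ / c₂) := by field_simp
      _ ≤ R * c₂ * (c₁ / c₂) := by gcongr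
      _ = _ := by field_simp
  refine ⟨q * star α, q * -β, ?_, ?_, ?_, ?_, ?_, (hio _ hr).trans_le g6,
    (hio _ (Small.root_conj hr)).trans_le g7⟩
  · rintro _ ⟨y, hy, rfl⟩
    obtain ⟨z, hz, e2⟩ := hj2 y hy
    have e3 : (q : k.K) * (α * star α - β * star β) = Nn := by
      rw [Small.mul_star_eq, Small.mul_star_eq, ← Rat.cast_sub, ← hδ, ← Rat.cast_mul, hq,
        div_mul_cancel₀ _ hδ0, Rat.cast_natCast]
    have e4 := congrArg star e2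
    simp only [Small.lin_apply, star_add, star_mul', star_star, star_natCast] at e2 e4
    have e5 : k.lin (q * star α) (q * -β) y = z := by
      refine mul_left_cancel₀ (Nat.cast_ne_zero.mpr hN.ne' : (Nn : k.K) ≠ 0) ?_
      rw [Small.lin_apply]
      linear_combination -(q * star α) * e2 + (q * β) * e4 + z * e3
    rw [e5]
    exact hz
  · rw [hNq, hNq, Small.N_star, hneg, ← mul_sub, abs_mul, abs_of_nonneg (sq_nonneg _)]
    calc ((c₁ : ℝ) / c₂) ^ 2 * |k.N α - k.N β| * c₂ = |k.N α - k.N β| * c₁ * (c₁ / c₂) := by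
          field_simp
      _ = _ := by rw [g2]; field_simp
  · rw [hNq, Small.N_star]; exact hb _ g3
  · rw [hNq, hneg]; exact hb _ g4
  · exact mul_ne_zero (Rat.cast_ne_zero.mpr (div_ne_zero hN'.ne' hδ0)) (neg_ne_zero.2 g5)

theorem ev_small {r : ℚ_[l]} (hr : k.Root r) {Nn m f₁ f₂ : ℕ} {R : ℝ} {c₁ c₂ : ℚ}
    {A₁ A₂ : Submodule ℤ k.K} (l1 : k.Lat A₁ c₁) (l2 : k.Lat A₂ c₂) (hf₁ : 0 < f₁) (hf₂ : 0 < f₂)
    (a1 : k.Adm f₁ A₁) (a2 : k.Adm f₂ A₂) (u1 : ‖(c₁ : ℚ_[l])‖ = 1) (u2 : ‖(c₂ : ℚ_[l])‖ = 1)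
    (h : k.Ev l r Nn R m c₁ c₂ A₁ A₂) :
    (l : ℝ) ^ m ≤ ((f₁ * f₂ : ℕ) : ℝ) ^ 2 * |(k.D : ℝ)| * R := by
  obtain ⟨α, β, g1, -, -, g4, g5, g6, g7⟩ := h
  have p1 : (0 : ℝ) < c₁ := Rat.cast_pos.mpr (Excl.lat_pos l1)
  have p2 : (0 : ℝ) < c₂ := Rat.cast_pos.mpr (Excl.lat_pos l2)
  set V := ((f₁ * f₂ : ℕ) : k.K) * (Coll.del k * β) with hV
  have h1 : ∀ x ∈ A₁, k.lin 0 V x ∈ A₂ := fun x hx => by
    convert A₂.sub_mem (Excl.nat_mem f₁ (a2 _ (g1 (Submodule.mem_map_of_mem hx))))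
      (Excl.nat_mem f₂ (g1 (Submodule.mem_map_of_mem (a1 x hx)))) using 1
    simp only [Small.lin_apply, hV, Coll.del, star_mul', star_natCast]
    push_cast
    ring
  obtain ⟨x, y, rfl, hd, -⟩ := l1
  obtain ⟨n, hn⟩ := Coll.det_mem l2 (h1 x (Basic.left_mem x y)) (h1 y (Basic.right_mem x y))
  rw [Small.det_lin, hd, QuadraticAlgebra.norm_zero, hV, map_mul, map_mul, Coll.norm_del,
    QuadraticAlgebra.norm_natCast] at hn
  have e1 : (((f₁ * f₂ : ℕ) : ℝ) ^ 2 * |(k.D : ℝ)|) * (k.N β * c₁) = (-n : ℤ) * c₂ := by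
    have := congrArg (Rat.cast : ℚ → ℝ) hn
    rw [abs_of_neg Small.D_neg, N]
    push_cast at this ⊢
    linear_combination -this
  have h2 : (0 : ℝ) < ((f₁ * f₂ : ℕ) : ℝ) ^ 2 * |(k.D : ℝ)| := by
    have := Small.absD_pos (k := k)
    positivity
  have h3 : 0 < -n := by
    have := mul_pos h2 (mul_pos (Small.N_pos g5) p1)
    rw [e1] at this
    exact_mod_cast (mul_pos_iff_of_pos_right p2).1 this
  have h4 : ‖((-n : ℤ) : ℚ_[l])‖ ≤ ((l : ℝ) ^ m)⁻¹ := by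
    have e2 : ((-n : ℤ) : ℚ_[l]) * c₂ = (((f₁ * f₂) ^ 2 * -k.D : ℤ) : ℚ_[l]) *
        (k.io r β * k.io ((k.t : ℚ_[l]) - r) β * c₁) := by
      have := congrArg (Rat.cast : ℚ → ℚ_[l]) hn
      rw [Small.io_mul_io hr]
      push_cast at this ⊢
      linear_combination this
    rw [← mul_one ‖_‖, ← u2, ← norm_mul, e2]
    exact nmul (Padic.norm_int_le_one _)
      (nmul' (nmul' g6 (g7.trans (Small.inv_pow_le_one m))) u1.le)
  have h5 : ((l : ℝ)) ^ m ≤ (-n : ℤ) := by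
    exact_mod_cast Int.le_of_dvd h3 ((Small.norm_int_le_iff _ _).1 h4)
  refine h5.trans (le_of_mul_le_mul_right ?_ p2)
  rw [← e1, mul_assoc _ R]
  gcongr

end Pool.Agent.Lib.MP_9177b7_ag.J.ExclU
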