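import Pool.Agent.Lib.MP_9177b7_ag.J.DefsF
import Pool.Agent.Lib.MP_9177b7_ag.CM.Main

/-!
Isogenies of bounded degree lie on finitely many modular curves.
-/

open Set Filter Pointwise
open scoped UpperHalfPlane

noncomputable section

namespace Pool.Agent.Lib.MP_9177b7_ag.J.Fin

open CM

theorem im_mob (τ : ℍ) (a b c d : ℤ) :
    (((a : ℂ) * τ + b) * starRingEnd ℂ ((c : ℂ) * τ + d)).im = (a * d - b * c : ℤ) * τ.im := by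
  simp
  ring

/-- The row lattice of an integral matrix. -/
def rows (p : ℤ × ℤ × ℤ × ℤ) : Set (ℤ × ℤ) :=
  {v | ∃ m n : ℤ, v = (m * p.1 + n * p.2.2.1, m * p.2.1 + n * p.2.2.2)}

theorem sp_rows (τ : ℍ) (p : ℤ × ℤ × ℤ × ℤ) (z : ℂ) :
    z ∈ CM.sp ((p.1 : ℂ) * τ + p.2.1) ((p.2.2.1 : ℂ) * τ + p.2.2.2) ↔
      ∃ v ∈ rows p, z = v.1 * τ + v.2 := by
  rw [mem_sp]
  constructor
  · rintro ⟨m, n, rfl⟩
    exact ⟨_, ⟨m, n, rfl⟩, by push_cast; ring⟩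
  · rintro ⟨_, ⟨m, n, rfl⟩, rfl⟩
    exact ⟨m, n, by push_cast; ring⟩

theorem iso_fin {N : ℕ} (hN : 0 < N) : ∃ G : Set (Matrix (Fin 2) (Fin 2) ℚ), G.Finite ∧
    (∀ g ∈ G, 0 < g.det) ∧ ∀ (τ₁ τ₂ : ℍ) (c : ℂ), c ≠ 0 → (N : ℂ) • CM.sp τ₁ 1 ≤ c • CM.sp τ₂ 1 →
      c • CM.sp τ₂ 1 ≤ CM.sp τ₁ 1 → ∃ g ∈ G, (jH τ₁, jH τ₂) ∈ modCurve g := by
  have : NeZero N := ⟨hN.ne'⟩
  let S : Set (ℤ × ℤ × ℤ × ℤ) := {p | 0 < p.1 * p.2.2.2 - p.2.1 * p.2.2.1 ∧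
    ((N : ℤ), (0 : ℤ)) ∈ rows p ∧ ((0 : ℤ), (N : ℤ)) ∈ rows p}
  let key : ℤ × ℤ × ℤ × ℤ → Set (ZMod N × ZMod N) := fun p =>
    {q | ∃ v ∈ rows p, q = ((v.1 : ZMod N), (v.2 : ZMod N))}
  have hkey : ∀ p ∈ S, ∀ p', key p' = key p → rows p' ⊆ rows p := by
    rintro p ⟨-, ⟨m₁, n₁, h₁⟩, ⟨m₂, n₂, h₂⟩⟩ p' e v hv
    obtain ⟨_, ⟨m, n, rfl⟩, h⟩ : ((v.1 : ZMod N), (v.2 : ZMod N)) ∈ key p := e ▸ ⟨v, hv, rfl⟩
    simp only [Prod.mk.injEq] at h h₁ h₂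
    obtain ⟨a, ha⟩ := (ZMod.intCast_eq_intCast_iff_dvd_sub _ _ _).1 h.1.symm
    obtain ⟨b, hb⟩ := (ZMod.intCast_eq_intCast_iff_dvd_sub _ _ _).1 h.2.symm
    refine ⟨m + a * m₁ + b * m₂, n + a * n₁ + b * n₂, Prod.ext ?_ ?_⟩
    · linear_combination ha + a * h₁.1 + b * h₂.1
    · linear_combination hb + a * h₁.2 + b * h₂.2
  choose rep hrep using fun X : key '' S => X.2
  let mat : ℤ × ℤ × ℤ × ℤ → Matrix (Fin 2) (Fin 2) ℚ := fun p => !![p.1, p.2.1; p.2.2.1, p.2.2.2]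
  refine ⟨range fun X => mat (rep X), finite_range _, ?_, fun τ₁ τ₂ c hc h1 h2 => ?_⟩
  · rintro _ ⟨X, rfl⟩
    simp only [mat, Matrix.det_fin_two_of]
    exact_mod_cast (hrep X).1.1
  rw [smul_sp] at h1 h2
  rw [smul_sp] at h1
  obtain ⟨a, b, hab⟩ := mem_sp.1 (sp_le.1 h2).1
  obtain ⟨c', d, hcd⟩ := mem_sp.1 (sp_le.1 h2).2
  rw [mul_one] at hab hcd
  have hp : (a, b, c', d) ∈ S := by
    refine ⟨?_, ?_, ?_⟩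
    · have h3 := im_mob τ₁ a b c' d
      rw [hab, hcd, mul_one, mul_right_comm, Complex.mul_conj, Complex.im_ofReal_mul] at h3
      have h4 : 0 < Complex.normSq c * (τ₂ : ℂ).im := mul_pos (Complex.normSq_pos.2 hc) τ₂.im_pos
      rw [h3] at h4
      exact_mod_cast (mul_pos_iff_of_pos_right τ₁.im_pos).1 h4
    · rw [← hab, ← hcd] at h1
      obtain ⟨v, hv, e⟩ := (sp_rows τ₁ (a, b, c', d) _).1 (sp_le.1 h1).1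
      obtain ⟨e1, e2⟩ := Lat.int_indep τ₁ N 0 v.1 v.2 (by simpa using e)
      exact (show ((N : ℤ), (0 : ℤ)) = v from Prod.ext e1 e2) ▸ hv
    · rw [← hab, ← hcd] at h1
      obtain ⟨v, hv, e⟩ := (sp_rows τ₁ (a, b, c', d) _).1 (sp_le.1 h1).2
      obtain ⟨e1, e2⟩ := Lat.int_indep τ₁ 0 N v.1 v.2 (by simpa using e)
      exact (show ((0 : ℤ), (N : ℤ)) = v from Prod.ext e1 e2) ▸ hv
  obtain ⟨q1, q2⟩ := hrep ⟨_, _, hp, rfl⟩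
  set q := rep ⟨_, _, hp, rfl⟩
  have hr : rows q = rows (a, b, c', d) := (hkey _ hp _ q2).antisymm (hkey _ q1 _ q2.symm)
  have h3 := im_mob τ₁ q.1 q.2.1 q.2.2.1 q.2.2.2
  have h4 : (0 : ℝ) < (q.1 * q.2.2.2 - q.2.1 * q.2.2.1 : ℤ) * τ₁.im :=
    mul_pos (by exact_mod_cast q1.1) τ₁.im_pos
  have hden : (q.2.2.1 : ℂ) * τ₁ + q.2.2.2 ≠ 0 := by
    intro h0
    rw [h0] at h3
    simp only [map_zero, mul_zero, Complex.zero_im] at h3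
    exact h4.ne h3
  let z' : ℍ := ⟨((q.1 : ℂ) * τ₁ + q.2.1) / ((q.2.2.1 : ℂ) * τ₁ + q.2.2.2), by
    rw [div_eq_mul_inv, Complex.inv_def, ← mul_assoc, Complex.im_mul_ofReal, h3]
    exact mul_pos h4 (inv_pos.2 (Complex.normSq_pos.2 hden))⟩
  refine ⟨mat q, ⟨_, rfl⟩, τ₁, z', by simp [mat, z'], ?_⟩
  congr 1
  have e : ((q.2.2.1 : ℂ) * τ₁ + q.2.2.2) • CM.sp z' 1 = c • CM.sp τ₂ 1 := by
    rw [smul_sp, smul_sp, ← hab, ← hcd, mul_one]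
    change CM.sp (_ * (_ / _)) _ = _
    rw [mul_div_cancel₀ _ hden]
    ext z
    rw [sp_rows, hr]
    exact (sp_rows τ₁ (a, b, c', d) z).symm
  rw [← hyp.jL_sp, ← hyp.jL_sp, ← hyp.jL_smul _ hc, ← e, hyp.jL_smul _ hden]

/-- Isogenies of bounded degree between conjugates. -/
theorem iso_conj {N : ℕ} (hN : 0 < N) : ∃ G : Set (Matrix (Fin 2) (Fin 2) ℚ), G.Finite ∧
    (∀ g ∈ G, 0 < g.det) ∧ ∀ (τ₁ τ₂ : ℍ) (σ : ℂ ≃+* ℂ) (M₁ M₂ : Submodule ℤ ℂ), IsLat M₁ →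
      IsLat M₂ → σ (jH τ₁) = jL M₁ → σ (jH τ₂) = jL M₂ → (N : ℂ) • M₂ ≤ M₁ → M₁ ≤ M₂ →
      ∃ g ∈ G, (jH τ₁, jH τ₂) ∈ modCurve g := by
  obtain ⟨G, h1, h2, h3⟩ := iso_fin hN
  refine ⟨G, h1, h2, fun τ₁ τ₂ σ M₁ M₂ l₁ l₂ e₁ e₂ a b => ?_⟩
  have hN' : (N : ℂ) ≠ 0 := by exact_mod_cast hN.ne'
  obtain ⟨M₁', c₁⟩ := hyp.exists_conj (σ.symm : ℂ →+* ℂ) l₁
  obtain ⟨M₂', c₂⟩ := hyp.exists_conj (σ.symm : ℂ →+* ℂ) l₂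
  have a' := hyp.conj_mono (hyp.conj_smul c₂ hN') c₁ a
  have b' := hyp.conj_mono c₁ c₂ b
  rw [map_natCast] at a'
  have j₁ := c₁.jL
  have j₂ := c₂.jL
  rw [← e₁] at j₁
  rw [← e₂] at j₂
  obtain ⟨d₁, hd₁, rfl⟩ := hyp.eq_smul_of_jL_eq (hyp.isLat_sp τ₁) c₁.2.1
    (by rw [hyp.jL_sp, ← j₁]; simp)
  obtain ⟨d₂, hd₂, rfl⟩ := hyp.eq_smul_of_jL_eq (hyp.isLat_sp τ₂) c₂.2.1
    (by rw [hyp.jL_sp, ← j₂]; simp)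
  refine h3 τ₁ τ₂ (d₁⁻¹ * N * d₂) (mul_ne_zero (mul_ne_zero (inv_ne_zero hd₁) hN') hd₂) ?_ ?_
  · have := smul_le_smul (d₁⁻¹ * N) b'
    rwa [smul_smul, smul_smul, show d₁⁻¹ * N * d₁ = N by field_simp] at this
  · have := smul_le_smul d₁⁻¹ a'
    rwa [smul_smul, smul_smul, smul_smul, inv_mul_cancel₀ hd₁, one_smul] at this

theorem cm_of_Jset {ω : ℂ} (him : ω.im ≠ 0) {x : ℂ} (hx : x ∈ Jset ω) :
    ∃ z : ℍ, IsCM z ∧ x = jH z := by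
  obtain ⟨L, hL, hω, rfl⟩ := hx
  obtain ⟨τ, c, hc, -, rfl⟩ := hyp.exists_fd hL
  refine ⟨τ, ?_, by rw [hyp.jL_smul _ hc, hyp.jL_sp]⟩
  have := smul_le_smul c⁻¹ hω
  rw [smul_smul, smul_smul, smul_smul, inv_mul_cancel₀ hc, one_smul,
    show c⁻¹ * ω * c = ω by field_simp, smul_sp] at this
  obtain ⟨a, b, h1⟩ := mem_sp.1 (sp_le.1 this).1
  obtain ⟨a', b', h2⟩ := mem_sp.1 (sp_le.1 this).2
  refine ⟨a', b' - a, -b, ?_, ?_⟩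
  · rintro rfl
    have := congrArg Complex.im h2
    simp at this
    exact him this.symm
  · push_cast
    linear_combination (τ : ℂ) * h2 - h1

end Pool.Agent.Lib.MP_9177b7_ag.J.Fin
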