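import Pool.Agent.Lib.MP_9177b7_ag.J.Fin1
import Pool.Agent.Lib.MP_9177b7_ag.J.DynD
import Pool.Agent.Lib.MP_9177b7_ag.J.Excl

/-!
From orbits of `(O / F O)ˣ` to Galois orbits.
-/

open MeasureTheory Set Filter Topology Pointwise
open scoped UpperHalfPlane BoundedContinuousFunction

noncomputable section

namespace Pool.Agent.Lib.MP_9177b7_ag.J.Fin

open CM Fld Dyn

variable (k : Fld) {w : ℂ}

/-- The embedding as an algebra homomorphism. -/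
def ioA (hw : k.Root w) : k.K →ₐ[ℤ] ℂ :=
  AlgHom.ofLinearMap (k.ioL w) (io_one k w) (io_mul k hw)

theorem map_mul' (hw : k.Root w) (A B : Submodule ℤ k.K) :
    (A * B).map (k.ioL w) = A.map (k.ioL w) * B.map (k.ioL w) :=
  Submodule.map_mul A B (ioA k hw)

theorem map_smul' (hw : k.Root w) (α : k.K) (L : Submodule ℤ k.K) :
    (α • L).map (k.ioL w) = k.io w α • L.map (k.ioL w) := by
  ext z
  simp only [Submodule.mem_map, Submodule.mem_smul_pointwise_iff_exists]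
  constructor
  · rintro ⟨_, ⟨v, hv, rfl⟩, rfl⟩
    exact ⟨_, ⟨v, hv, rfl⟩, (io_mul k hw α v).symm⟩
  · rintro ⟨_, ⟨v, hv, rfl⟩, rfl⟩
    exact ⟨_, ⟨v, hv, rfl⟩, io_mul k hw α v⟩

theorem map_span2 (x y : k.K) :
    (Submodule.span ℤ {x, y}).map (k.ioL w) = CM.sp (k.io w x) (k.io w y) := by
  rw [Submodule.map_span, Set.image_pair]
  rfl

theorem io_inj (hw : k.Root w) : Function.Injective (k.ioL w) := (ioA k hw).toRingHom.injective

theorem io_Fom (c : ℕ) : k.io w ((c : k.K) * k.om) = c * w := by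
  rw [natCast_mul, io_qsmul]
  simp [Fld.io, Fld.om]

theorem adm_iff (hw : k.Root w) (c : ℕ) (L : Submodule ℤ k.K) :
    k.Adm c L ↔ ((c : ℂ) * w) • L.map (k.ioL w) ≤ L.map (k.ioL w) := by
  rw [← io_Fom k, ← map_smul' k hw, Submodule.map_le_map_iff_of_injective (io_inj k hw)]
  constructor
  · rintro h _ ⟨v, hv, rfl⟩
    exact h v hv
  · exact fun h v hv => h ⟨v, hv, rfl⟩

theorem lat_isLat (hw : k.Root w) {L : Submodule ℤ k.K} {c : ℚ} (hL : k.Lat L c) :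
    IsLat (L.map (k.ioL w)) := by
  obtain ⟨x, y, rfl, hd, hc⟩ := hL
  rw [map_span2]
  refine Lat.isLat_sp (LinearIndependent.pair_iff.2 fun s t hst => ?_)
  have h1 := congrArg Complex.re hst
  have h2 := congrArg Complex.im hst
  have him := (conj_root k hw).2
  simp [Fld.io] at h1 h2
  have hd' : (x.re : ℝ) * y.im - x.im * y.re ≠ 0 := by
    have : k.det2 x y ≠ 0 := by rw [hd]; exact hc.ne'
    unfold Fld.det2 at this
    exact_mod_cast this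
  have h3 : s * x.im + t * y.im = 0 := by
    apply mul_right_cancel₀ him
    linarith
  have h4 : s * x.re + t * y.re = 0 := by linear_combination h1 - w.re * h3
  constructor
  · apply mul_right_cancel₀ hd'
    linear_combination (y.im : ℝ) * h4 - y.re * h3
  · apply mul_right_cancel₀ hd'
    linear_combination (x.re : ℝ) * h3 - x.im * h4

theorem exists_K {M : Submodule ℤ ℂ} (hM : IsLat M) (h : M ≤ (⊤ : Submodule ℤ k.K).map (k.ioL w)) :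
    ∃ L c, k.Lat L c ∧ L.map (k.ioL w) = M := by
  obtain ⟨x, y, rfl, hxy⟩ := hM.exists_sp
  obtain ⟨x, -, rfl⟩ := (sp_le.1 h).1
  obtain ⟨y, -, rfl⟩ := (sp_le.1 h).2
  have hd : k.det2 x y ≠ 0 := by
    intro h0
    have h0' : (x.re : ℂ) * y.im - x.im * y.re = 0 := by
      unfold Fld.det2 at h0
      exact_mod_cast h0
    obtain ⟨a1, a2⟩ := hxy y.re (-x.re) (by
      change _ * k.io w x + _ * k.io w y = 0
      simp only [Fld.io]
      push_cast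
      linear_combination -w * h0')
    obtain ⟨a3, a4⟩ := hxy y.im (-x.im) (by
      change _ * k.io w x + _ * k.io w y = 0
      simp only [Fld.io]
      push_cast
      linear_combination h0')
    have a1' : y.re = 0 := by exact_mod_cast a1
    have a3' : y.im = 0 := by exact_mod_cast a3
    simpa using (hxy 0 1 (by
      change _ * k.io w x + _ * k.io w y = 0
      simp [Fld.io, a1', a3'])).2
  rcases hd.lt_or_gt with h0 | h0
  · refine ⟨_, _, ⟨x, -y, rfl, rfl, by rw [det2_neg]; linarith⟩, ?_⟩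
    rw [span_neg, map_span2]
    rfl
  · exact ⟨_, _, ⟨x, y, rfl, rfl, h0⟩, map_span2 k x y⟩

theorem om_eq (hw : k.Root w) (c : ℕ) :
    ((c : ℂ) * w) ^ 2 = ((c * k.t : ℤ) : ℂ) * (c * w) - ((c ^ 2 * k.n : ℤ) : ℂ) := by
  unfold Fld.Root at hw
  push_cast
  linear_combination (c : ℂ) ^ 2 * hw

theorem om_im (hw : k.Root w) {c : ℕ} (hc : 0 < c) : ((c : ℂ) * w).im ≠ 0 := by
  simpa using ⟨hc.ne', (conj_root k hw).2⟩

theorem exists_aut (hB : BasicStmt) (hw : k.Root w) (F : ℕ+) (s : k.SF F) : ∃ σ : ℂ ≃+* ℂ,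
    ∀ L c, k.Lat L c → k.Adm F L → σ (jL (L.map (k.ioL w))) = jL ((act s L).map (k.ioL w)) := by
  let O : Submodule ℤ k.K := Submodule.span ℤ {1, ((F : ℕ) : k.K) * k.om}
  have hO : O.map (k.ioL w) = CM.sp 1 (((F : ℕ) : ℂ) * w) := by
    rw [map_span2, io_one, io_Fom k]
  have hL : k.Lat O F := ⟨_, _, rfl, by simp [Fld.det2, Fld.om, QuadraticAlgebra.re_one],
    by exact_mod_cast F.pos⟩
  have hA : k.Adm F O := by
    rw [adm_iff k hw, hO]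
    exact smul_ord_le (om_eq k hw F)
  have hact := (hB k).2.2.2.2.2.2.2.1 F O F hL hA
  have hmul : ∀ (s : k.SF F) L, k.Adm F L → act s O * L = act s L := by
    intro s L h
    have : O * L = L := by
      apply Submodule.map_injective_of_injective (io_inj k hw)
      rw [map_mul' k hw, hO, ord_mul_eq_iff]
      exact (adm_iff k hw _ _).1 h
    rw [act, act, mul_assoc, this]
  obtain ⟨σ, -, hσ⟩ := hyp.cm_surj (om_eq k hw F) (om_im k hw F.pos) ((act s O).map (k.ioL w))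
    ((act s⁻¹ O).map (k.ioL w)) (by
      rw [← map_mul' k hw, hmul _ _ (hact.2 _).2.1, ← (hact.2 s).2.2.2.2.2.1, mul_inv_cancel,
        hact.1, hO]) (ord_mul_eq_iff.2 ((adm_iff k hw _ _).1 (hact.2 _).2.1))
  refine ⟨σ, fun L c h h' => ?_⟩
  rw [(hσ _ (lat_isLat k hw h) (ord_mul_eq_iff.2 ((adm_iff k hw _ _).1 h'))).2, ← map_mul' k hw,
    hmul _ _ h']

theorem exists_rep (hw : k.Root w) {F : ℕ} (hF : 0 < F) {τ : ℍ}
    (h : ((F : ℂ) * w) • CM.sp τ 1 ≤ CM.sp τ 1) (σ : ℂ ≃+* ℂ) :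
    ∃ L c, k.Lat L c ∧ k.Adm F L ∧ σ (jH τ) = jL (L.map (k.ioL w)) := by
  set T := (⊤ : Submodule ℤ k.K).map (k.ioL w) with hT
  have hTT : T * T ≤ T := by
    rw [← map_mul' k hw]
    exact Submodule.map_mono le_top
  have mem : ∀ a b : ℚ, (a : ℂ) + b * w ∈ T := fun a b => ⟨⟨a, b⟩, trivial, rfl⟩
  have hO : CM.sp 1 ((F : ℂ) * w) ≤ T :=
    sp_le.2 ⟨by simpa using mem 1 0, by simpa using mem 0 F⟩
  obtain ⟨a, b, hab⟩ := mem_sp.1 (h (mem_smul_iff.2 ⟨1, right_mem_sp _ _, rfl⟩))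
  have ha : (a : ℂ) ≠ 0 := by
    intro h0
    have := congrArg Complex.im hab
    rw [h0, mul_one (_ * w)] at this
    exact om_im k hw hF (by simpa using this.symm)
  have hτ : (τ : ℂ) = ((-b / a : ℚ) : ℂ) + ((F / a : ℚ) : ℂ) * w := by
    push_cast
    field_simp
    linear_combination hab
  have h1 : CM.sp τ 1 ≤ T := sp_le.2 ⟨hτ ▸ mem _ _, by simpa using mem 1 0⟩
  have h2 : bar (CM.sp τ 1) ≤ T := by
    rw [bar_sp, map_one]
    refine sp_le.2 ⟨?_, by simpa using mem 1 0⟩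
    have := mem (-b / a + F / a * k.t) (-(F / a))
    rw [hτ, map_add, map_mul, ← (conj_root k hw).1, map_ratCast, map_ratCast]
    convert this using 1
    push_cast
    ring
  have key : ∀ A M : Submodule ℤ ℂ, A ≤ CM.sp 1 ((F : ℂ) * w) → CM.sp 1 ((F : ℂ) * w) * A = A →
      M ≤ T → IsLat (A * M) → ∃ L c, k.Lat L c ∧ k.Adm F L ∧ jL (A * M) = jL (L.map (k.ioL w)) := by
    intro A M hA hA' hM hl
    obtain ⟨L, c, hL, e⟩ := exists_K k hl ((mul_le_mul' (hA.trans hO) hM).trans hTT)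
    refine ⟨L, c, hL, ?_, by rw [e]⟩
    rw [adm_iff k hw, e, ← ord_mul_eq_iff, ← mul_assoc, hA']
  rw [← hyp.jL_sp]
  rcases map_omega (om_eq k hw F) (σ : ℂ →+* ℂ) with e | e
  · obtain ⟨A, B, a1, -, -, a4, a5⟩ := hyp.cm_of_aut (om_eq k hw F) (om_im k hw hF) σ e
    obtain ⟨b1, b2⟩ := a5 _ (hyp.isLat_sp τ) (ord_mul_eq_iff.2 h)
    rw [b2]
    exact key _ _ a1 a4 h1 b1
  · obtain ⟨A, B, a1, -, -, a4, a5⟩ := hyp.cm_of_aut' (om_eq k hw F) (om_im k hw hF) σ e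
    obtain ⟨b1, b2⟩ := a5 _ (hyp.isLat_sp τ) (ord_mul_eq_iff.2 h)
    rw [b2]
    exact key _ _ a1 a4 h2 b1

theorem self_mem (x : ℂ × ℂ) : x ∈ galOrbit x := ⟨RingEquiv.refl ℂ, rfl⟩

theorem orbit_finite (hw : k.Root w) {F : ℕ} (hF : 0 < F) {τ₁ τ₂ : ℍ}
    (h₁ : ((F : ℂ) * w) • CM.sp τ₁ 1 ≤ CM.sp τ₁ 1) (h₂ : ((F : ℂ) * w) • CM.sp τ₂ 1 ≤ CM.sp τ₂ 1) :
    (galOrbit (jH τ₁, jH τ₂)).Finite := by
  have hf := hyp.finite_Jset (om_im k hw hF)
  refine (hf.prod hf).subset ?_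
  rintro _ ⟨σ, rfl⟩
  exact ⟨hyp.map_mem_Jset (om_eq k hw F) (om_im k hw hF) (σ : ℂ →+* ℂ)
      ⟨_, hyp.isLat_sp τ₁, h₁, (hyp.jL_sp τ₁).symm⟩,
    hyp.map_mem_Jset (om_eq k hw F) (om_im k hw hF) (σ : ℂ →+* ℂ)
      ⟨_, hyp.isLat_sp τ₂, h₂, (hyp.jL_sp τ₂).symm⟩⟩

/-- The mean over an orbit is a mean of averages over any finite family of automorphisms. -/
theorem mean_le {x : ℂ × ℂ} (hx : (galOrbit x).Finite) {ι : Type} [Fintype ι] [Nonempty ι]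
    (σ : ι → ℂ ≃+* ℂ) (φ : ℂ × ℂ → ℝ) (I : ℝ) : ∃ y ∈ galOrbit x, |orbitMean x φ - I| ≤
      |(∑ s, φ (σ s y.1, σ s y.2)) / Fintype.card ι - I| := by
  set T := hx.toFinset with hT
  have hne : T.Nonempty := ⟨x, hx.mem_toFinset.2 (self_mem x)⟩
  let a : ℂ × ℂ → ℝ := fun y => (∑ s, φ (σ s y.1, σ s y.2)) / Fintype.card ι
  obtain ⟨y, hy, hmax⟩ := T.exists_max_image (fun y => |a y - I|) hne
  refine ⟨y, hx.mem_toFinset.1 hy, ?_⟩
  have hc : (0 : ℝ) < T.card := by exact_mod_cast hne.card_pos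
  have hι : (0 : ℝ) < Fintype.card ι := by exact_mod_cast Fintype.card_pos
  have h1 : ∀ s, ∑ y ∈ T, φ (σ s y.1, σ s y.2) = ∑ y ∈ T, φ y := by
    intro s
    refine Finset.sum_equiv (Equiv.prodCongr (σ s).toEquiv (σ s).toEquiv) (fun y => ?_)
      fun y _ => rfl
    simp only [hT, hx.mem_toFinset]
    constructor
    · rintro ⟨ρ, rfl⟩
      exact ⟨ρ.trans (σ s), rfl⟩
    · rintro ⟨ρ, e⟩
      refine ⟨ρ.trans (σ s).symm, Prod.ext ?_ ?_⟩
      · exact (σ s).eq_symm_apply.2 (congrArg Prod.fst e)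
      · exact (σ s).eq_symm_apply.2 (congrArg Prod.snd e)
  have h2 : orbitMean x φ - I = (∑ y ∈ T, (a y - I)) / T.card := by
    rw [orbitMean, finsum_mem_eq_finite_toFinset_sum _ hx, Set.ncard_eq_toFinset_card _ hx, ← hT,
      Finset.sum_sub_distrib, ← Finset.sum_div, Finset.sum_comm]
    simp only [h1, Finset.sum_const, Finset.card_univ, nsmul_eq_mul]
    field_simp
  rw [h2, abs_div, abs_of_pos hc, div_le_iff₀ hc]
  refine (Finset.abs_sum_le_sum_abs _ _).trans ((Finset.sum_le_card_nsmul _ _ _ hmax).trans ?_)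
  rw [nsmul_eq_mul, mul_comm]

theorem not_Jset {x : ℕ → ℂ} (h : ∀ z : ℍ, IsCM z → ∀ᶠ n in atTop, x n ≠ jH z) {ω : ℂ}
    (him : ω.im ≠ 0) : ∀ᶠ n in atTop, x n ∉ Jset ω := by
  have := (eventually_all_finite (l := atTop) (p := fun y n => x n ≠ y) (hyp.finite_Jset him)).2
    fun y hy => by
      obtain ⟨z, hz, rfl⟩ := cm_of_Jset him hy
      exact h z hz
  exact this.mono fun n hn hx => hn _ hx rfl

theorem not_adm (hw : k.Root w) {x : ℂ} {σ : ℂ ≃+* ℂ} {L : Submodule ℤ k.K} {c₀ : ℚ}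
    (hL : k.Lat L c₀) (e : σ x = jL (L.map (k.ioL w))) {c : ℕ} (hc : 0 < c)
    (h : x ∉ Jset ((c : ℂ) * w)) : ¬ k.Adm c L := fun hA => h (by
  have := hyp.map_mem_Jset (om_eq k hw c) (om_im k hw hc) (σ.symm : ℂ →+* ℂ)
    ⟨_, lat_isLat k hw hL, (adm_iff k hw _ _).1 hA, e⟩
  simpa using this)

variable (w) in
/-- Equidistribution of the orbits of `(O / F O)ˣ` for a class of moduli. -/
def DynFor (ok : ℕ+ → Prop) : Prop :=
  ∀ (F : ℕ → ℕ+) (L₁ L₂ : ℕ → Submodule ℤ k.K) (c₁ c₂ : ℕ → ℚ),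
    (∀ n, ok (F n)) → (∀ n, k.Lat (L₁ n) (c₁ n) ∧ k.Lat (L₂ n) (c₂ n)) →
    (∀ n, k.Adm (F n) (L₁ n) ∧ k.Adm (F n) (L₂ n)) →
    (∀ c : ℕ, 0 < c → ∀ᶠ n in atTop, ¬ k.Adm c (L₁ n) ∧ ¬ k.Adm c (L₂ n)) →
    (∀ B : ℝ, ∀ᶠ n in atTop, ∀ α : k.K, α ≠ 0 → α • L₁ n ≤ L₂ n → B * c₂ n < k.N α * c₁ n) →
    ∀ φ : ℂ × ℂ →ᵇ ℝ, Tendsto (fun n => k.avg (F n) fun s =>
      φ (CM.jL ((act s (L₁ n)).map (k.ioL w)), CM.jL ((act s (L₂ n)).map (k.ioL w)))) atTop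
      (𝓝 (∫ z, φ z ∂(muJ.prod muJ)))

theorem red (hB : BasicStmt) (hw : k.Root w) {ok : ℕ+ → Prop} (hD : DynFor k w ok)
    (τ₁ τ₂ : ℕ → ℍ) (F : ℕ → ℕ+) (hF : ∀ n, ok (F n))
    (h₁ : ∀ n, (((F n : ℕ) : ℂ) * w) • CM.sp (τ₁ n) 1 ≤ CM.sp (τ₁ n) 1)
    (h₂ : ∀ n, (((F n : ℕ) : ℂ) * w) • CM.sp (τ₂ n) 1 ≤ CM.sp (τ₂ n) 1)
    (hs : ∀ Z, SpecialCurve Z → ∀ᶠ n in atTop, (jH (τ₁ n), jH (τ₂ n)) ∉ Z) (φ : ℂ × ℂ →ᵇ ℝ) :
    Tendsto (fun n => orbitMean (jH (τ₁ n), jH (τ₂ n)) φ) atTop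
      (𝓝 (∫ z, φ z ∂(muJ.prod muJ))) := by
  choose σ hσ using exists_aut k hB hw
  choose y hy hle using fun n => mean_le (orbit_finite k hw (F n).pos (h₁ n) (h₂ n)) (σ (F n)) φ
    (∫ z, φ z ∂(muJ.prod muJ))
  choose ρ hρ using hy
  choose L₁ c₁ a₁ b₁ e₁ using fun n => exists_rep k hw (F n).pos (h₁ n) (ρ n)
  choose L₂ c₂ a₂ b₂ e₂ using fun n => exists_rep k hw (F n).pos (h₂ n) (ρ n)
  have hlim := hD F L₁ L₂ c₁ c₂ hF (fun n => ⟨a₁ n, a₂ n⟩) (fun n => ⟨b₁ n, b₂ n⟩) ?_ ?_ φ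
  · rw [tendsto_iff_dist_tendsto_zero] at hlim ⊢
    refine squeeze_zero (fun n => dist_nonneg) (fun n => (hle n).trans (le_of_eq ?_)) hlim
    simp only [hρ n, e₁ n, e₂ n, hσ _ _ _ _ (a₁ n) (b₁ n), hσ _ _ _ _ (a₂ n) (b₂ n)]
    rfl
  · intro c hc
    filter_upwards [not_Jset (x := fun n => jH (τ₁ n)) (fun z hz =>
        (hs _ (Or.inl ⟨z, hz, Or.inl rfl⟩)).mono fun n hn e => hn ⟨e, trivial⟩) (om_im k hw hc),
      not_Jset (x := fun n => jH (τ₂ n)) (fun z hz =>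
        (hs _ (Or.inl ⟨z, hz, Or.inr rfl⟩)).mono fun n hn e => hn ⟨trivial, e⟩) (om_im k hw hc)]
      with n n₁ n₂
    exact ⟨not_adm k hw (a₁ n) (e₁ n) hc n₁, not_adm k hw (a₂ n) (e₂ n) hc n₂⟩
  · intro B
    obtain ⟨G, g1, g2, g3⟩ := iso_conj (Nat.factorial_pos ⌊B⌋₊)
    filter_upwards [(eventually_all_finite (l := atTop)
      (p := fun g n => (jH (τ₁ n), jH (τ₂ n)) ∉ modCurve g) g1).2
      fun g hg => hs _ (Or.inr ⟨g, g2 g hg, rfl⟩)] with n hn α hα hle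
    by_contra hB'
    have hN : QuadraticAlgebra.norm α ≠ 0 := fun h =>
      hα (QuadraticAlgebra.norm_eq_zero_iff_eq_zero.1 h)
    have hlat := (hB k).2.2.1 _ _ α 0 (a₁ n) (by simpa [Fld.N] using hN)
    rw [← Excl.smul_eq_map, QuadraticAlgebra.norm_zero, sub_zero,
      abs_of_nonneg (Excl.norm_nonneg' α)] at hlat
    obtain ⟨j, hj, e, hjm, -⟩ := (hB k).2.2.2.1 _ _ _ _ hlat (a₂ n) hle
    have hc : (0 : ℝ) < c₂ n := by exact_mod_cast Excl.lat_pos (a₂ n)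
    have e' : k.N α * c₁ n = j * c₂ n := by
      unfold Fld.N
      exact_mod_cast e
    have hjB : j ≤ ⌊B⌋₊ := Nat.le_floor (le_of_mul_le_mul_right (e' ▸ not_lt.1 hB') hc)
    obtain ⟨u, hu⟩ := Nat.dvd_factorial hj hjB
    obtain ⟨g, hg, hm⟩ := g3 (τ₁ n) (τ₂ n) (ρ n) ((α • L₁ n).map (k.ioL w)) _ (lat_isLat k hw hlat)
      (lat_isLat k hw (a₂ n)) (by rw [map_smul' k hw, hyp.jL_smul _ (io_ne_zero k hw hα), e₁])
      (e₂ n) (by
        rintro _ ⟨_, ⟨v, hv, rfl⟩, rfl⟩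
        refine ⟨(u : ℤ) • ((j : k.K) * v), Submodule.smul_mem _ _ (hjm v hv), ?_⟩
        rw [map_zsmul, hu]
        change (u : ℤ) • k.io w _ = _ * k.io w v
        rw [natCast_mul, io_qsmul, zsmul_eq_mul]
        push_cast
        ring) (Submodule.map_mono hle)
    exact hn g hg hm

end Pool.Agent.Lib.MP_9177b7_ag.J.Fin
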