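import Pool.Agent.Lib.MP_9177b7_ag.J.FinalN1

/-!
The equidistribution theorem for Galois orbits in a power of the modular curve.
-/

open MeasureTheory Set Filter Topology Pointwise
open scoped UpperHalfPlane BoundedContinuousFunction

noncomputable section

namespace Pool.Agent.Lib.MP_9177b7_ag.J

namespace FinalN

open CM Fld Dyn Pool.Agent.Lib.MP_9177b7_ag.J.Fin

theorem split_fin {D : Type} [Finite D] {P : ℕ → D → Prop} (h : ∀ n, ∃ d, P n d) {x : ℕ → ℝ}
    {I : ℝ} (H : ∀ (d : D) (ns : ℕ → ℕ), Tendsto ns atTop atTop → (∀ n, P (ns n) d) →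
      Tendsto (fun n => x (ns n)) atTop (𝓝 I)) : Tendsto x atTop (𝓝 I) := by
  refine tendsto_of_subseq_tendsto fun ns hns => ?_
  obtain ⟨d, hd⟩ : ∃ d, ∃ᶠ n in atTop, P (ns n) d :=
    frequently_exists.1 (Frequently.of_forall fun n => h (ns n))
  obtain ⟨ms, hms, hP⟩ := extraction_of_frequently_atTop hd
  exact ⟨ms, H d _ (hns.comp hms.tendsto_atTop) hP⟩

theorem mem_J {ω : ℂ} {τ : ℍ} (h : ω • CM.sp τ 1 ≤ CM.sp τ 1) : jH τ ∈ Jset ω :=
  ⟨_, hyp.isLat_sp τ, h, (hyp.jL_sp τ).symm⟩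

theorem orbit_finiteN {ι : Type} [Finite ι] (τ : ι → ℍ) (h : ∀ i, ∃ d, InField d (τ i)) :
    (galOrbitN fun i => jH (τ i)).Finite := by
  have : ∀ i, ∃ S : Set ℂ, S.Finite ∧ ∀ σ : ℂ ≃+* ℂ, σ (jH (τ i)) ∈ S := by
    intro i
    obtain ⟨d, hd⟩ := h i
    obtain ⟨k, w, hw, a, b, e⟩ := exists_fld (pos_of_in hd)
    obtain ⟨x, y, hτ⟩ := in_fld hd e
    obtain ⟨F, hF, h1⟩ := exists_F1 k hw hτ
    exact ⟨_, hyp.finite_Jset (om_im k hw hF), fun σ =>
      hyp.map_mem_Jset (om_eq k hw F) (om_im k hw hF) (σ : ℂ →+* ℂ) (mem_J h1)⟩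
  choose S h1 h2 using this
  refine (Set.Finite.pi' h1).subset ?_
  rintro _ ⟨σ, rfl⟩ i
  exact h2 i σ

theorem step (hD : DynNStmt) {ι : Type} (τ : ℕ → ι → ℍ) (k : Fld) {w : ℂ} (hw : k.Root w)
    (I J : Finset ι) (hI : ∀ n, ∀ i ∈ I, ∃ x y : ℚ, (τ n i : ℂ) = x + y * w) (k' : ι → Fld)
    (w' : ι → ℂ) (hw' : ∀ j, (k' j).Root (w' j))
    (hJ : ∀ n j, ∃ x y : ℚ, (τ n j : ℂ) = x + y * w' j)
    (hne : ∀ j ∈ J, ∀ a b : ℚ, w' j ≠ a + b * w)
    (hfin : ∀ n, (galOrbitN fun i => jH (τ n i)).Finite)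
    (h1 : ∀ i (z : ℍ), IsCM z → ∀ᶠ n in atTop, jH (τ n i) ≠ jH z)
    (h2 : ∀ i j, i ≠ j → ∀ g : Matrix (Fin 2) (Fin 2) ℚ, 0 < g.det →
      ∀ᶠ n in atTop, (jH (τ n i), jH (τ n j)) ∉ modCurve g) (φ : ι → ℂ →ᵇ ℝ) :
    Tendsto (fun n => orbitMeanN (fun i => jH (τ n i)) fun y =>
      (∏ i : I, φ i (y i) - ∏ i : I, ∫ z, φ i z ∂muJ) * ∏ j ∈ J, φ j (y j)) atTop (𝓝 0) := by
  have hF : ∀ n, ∃ F : ℕ+, ∀ i : I,
      (((F : ℕ) : ℂ) * w) • CM.sp (τ n i) 1 ≤ CM.sp (τ n i) 1 := by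
    intro n
    choose x y hxy using fun i : I => hI n i i.2
    choose F hF h using fun i : I => exists_F1 k hw (hxy i)
    refine ⟨⟨∏ i, F i, Finset.prod_pos fun i _ => hF i⟩, fun i => ?_⟩
    obtain ⟨G, hG⟩ := Finset.dvd_prod_of_mem F (Finset.mem_univ i)
    have := mul_le (h i) G
    rwa [← hG] at this
  choose F hF using hF
  choose x' y' hxy' using hJ
  choose G hG hG' using fun n j => exists_F1 (k' j) (hw' j) (hxy' n j)
  set C : ℝ := ∏ j ∈ J, ‖φ j‖ + 1 with hC
  have hC0 : 0 < C := add_pos_of_nonneg_of_pos (Finset.prod_nonneg fun _ _ => norm_nonneg _) one_pos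
  choose H hH1 hH2 hH3 using fun n => exists_cond (hfin n) I (fun y => ∏ j ∈ J, φ j (y j)) hC0.le
    fun y => by
      rw [Finset.abs_prod]
      exact (Finset.prod_le_prod (fun _ _ => abs_nonneg _)
        fun j _ => (φ j).norm_coe_le_norm _).trans (le_add_of_nonneg_right zero_le_one)
  choose σ hσ0 hσ using exists_aut' k hw
  let f : (I → ℂ) → ℝ := fun b => ∏ i : I, φ i (b i) - ∏ i : I, ∫ z, φ i z ∂muJ
  choose y hy hle using fun n => mean_leN (hfin n) (σ (F n))
    fun y => f (fun i => y i) * H n fun i => y i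
  choose ρ hρ using hy
  choose L c a b e using fun (i : I) n => exists_rep k hw (F n).pos (hF n i) (ρ n)
  have hact := fun i n => (basic k).2.2.2.2.2.2.2.1 (F n) _ _ (a i n) (b i n)
  have hlim := hD k w hw I (2 ^ J.card) (by positivity) F L c
    (fun n s => (H n fun i => jL ((act s (L i n)).map (k.ioL w))) / C)
    (fun i n => ⟨a i n, b i n⟩) ?_ ?_ ?_ ?_ ?_ fun i => φ i
  · have h3 := (hlim.const_mul C).abs
    rw [mul_zero, abs_zero] at h3
    rw [tendsto_zero_iff_abs_tendsto_zero]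
    refine squeeze_zero (fun n => abs_nonneg _) (fun n => ?_) h3
    rw [Function.comp_apply, hH2 n f]
    refine (hle n).trans (le_of_eq (congrArg _ ?_))
    have h4 : ∀ s i, σ (F n) s (jL ((L i n).map (k.ioL w))) =
      jL ((act s (L i n)).map (k.ioL w)) := fun s i => hσ _ _ _ _ (a i n) (b i n)
    simp only [hρ n, e, h4, Fld.avg]
    rw [← mul_div_assoc, Finset.mul_sum]
    congr 1
    refine Finset.sum_congr rfl fun s _ => ?_
    simp only [f]
    field_simp
  · intro i c hc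
    filter_upwards [not_Jset (h1 i) (om_im k hw hc)] with n hn
    exact not_adm k hw (a i n) (e i n) hc hn
  · intro i j hij
    exact far k hw _ _ ρ _ _ _ _ (a i) (a j) (e i) (e j) (h2 i j fun h => hij (Subtype.ext h))
  · intro n s
    rw [abs_div, abs_of_pos hC0, div_le_one hC0]
    exact hH1 n _
  · intro n s u
    obtain ⟨σ', -, s1, s2⟩ := exists_pow (om_eq k hw (F n)) (om_im k hw (F n).pos)
      (fun j => (G n j : ℂ) * w' j) _ _ J (fun j _ => om_eq (k' j) (hw' j) (G n j))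
      (fun j _ => om_im (k' j) (hw' j) (hG n j)) (fun j hj p q h => by
        have h0 : (G n j : ℂ) ≠ 0 := by exact_mod_cast (hG n j).ne'
        refine hne j hj (p / G n j) (q * (F n : ℕ) / G n j) ?_
        push_cast
        field_simp
        linear_combination h) (hσ0 (F n) u)
    rw [← hH3 n σ' ?_ fun i => jL ((act s (L i n)).map (k.ioL w))]
    · congr 2
      funext i
      have l1 := ((hact i n).2 s).1
      have l2 := ((hact i n).2 s).2.1
      rw [((hact i n).2 _).2.2.2.2.2.1, s1 _ ⟨_, lat_isLat k hw l1, (adm_iff k hw _ _).1 l2, rfl⟩,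
        iter_act k (hσ (F n) u) l1 l2]
    · rintro _ ⟨ρ', rfl⟩
      exact Finset.prod_congr rfl fun j hj => congrArg _ (s2 j hj _
        (hyp.map_mem_Jset (om_eq (k' j) (hw' j) (G n j)) (om_im (k' j) (hw' j) (hG n j))
          (ρ' : ℂ →+* ℂ) (mem_J (hG' n j))))
  · intro n s z hz
    congr 2
    funext i
    rw [((hact i n).2 _).2.2.2.2.2.1, act_scal k hz ((hact i n).2 s).1 ((hact i n).2 s).2.1]

theorem prod_lim (hD : DynNStmt) {ι : Type} (τ : ℕ → ι → ℍ) (d : ι → ℕ)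
    (hd : ∀ n i, InField (d i) (τ n i)) (hfin : ∀ n, (galOrbitN fun i => jH (τ n i)).Finite)
    (h1 : ∀ i (z : ℍ), IsCM z → ∀ᶠ n in atTop, jH (τ n i) ≠ jH z)
    (h2 : ∀ i j, i ≠ j → ∀ g : Matrix (Fin 2) (Fin 2) ℚ, 0 < g.det →
      ∀ᶠ n in atTop, (jH (τ n i), jH (τ n j)) ∉ modCurve g) (φ : ι → ℂ →ᵇ ℝ) (J : Finset ι) :
    Tendsto (fun n => orbitMeanN (fun i => jH (τ n i)) fun y => ∏ j ∈ J, φ j (y j)) atTop
      (𝓝 (∏ j ∈ J, ∫ z, φ j z ∂muJ)) := by
  classical
  choose k w hw a b e using fun i => exists_fld (pos_of_in (hd 0 i))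
  induction J using Finset.strongInduction with
  | H J ih =>
    rcases J.eq_empty_or_nonempty with rfl | ⟨i₀, hi₀⟩
    · refine tendsto_const_nhds.congr fun n => ?_
      rw [mean_eq (hfin n)]
      simp only [Finset.prod_empty, Finset.sum_const, nsmul_eq_mul, mul_one]
      exact (div_self (card_pos (hfin n)).ne').symm
    let p : ι → Prop := fun i => ∃ x y : ℚ, w i = x + y * w i₀
    have hsub : J.filter (fun i => ¬ p i) ⊂ J :=
      Finset.filter_ssubset.2 ⟨i₀, hi₀, not_not.2 ⟨0, 1, by simp⟩⟩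
    have hs := step hD τ (k i₀) (hw i₀) (J.filter p) (J.filter fun i => ¬ p i)
      (fun n i hi => by
        obtain ⟨x, y, h⟩ := in_fld (hd n i) (e i)
        obtain ⟨x', y', h'⟩ := (Finset.mem_filter.1 hi).2
        exact ⟨x + y * x', y * y', by rw [h, h']; push_cast; ring⟩)
      k w hw (fun n j => in_fld (hd n j) (e j))
      (fun j hj x y h => (Finset.mem_filter.1 hj).2 ⟨x, y, h⟩) hfin h1 h2 φ
    have h3 := hs.add ((ih _ hsub).const_mul (∏ i ∈ J.filter p, ∫ z, φ i z ∂muJ))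
    rw [zero_add, Finset.prod_filter_mul_prod_filter_not] at h3
    refine h3.congr fun n => ?_
    rw [mean_eq (hfin n), mean_eq (hfin n), mean_eq (hfin n), ← mul_div_assoc, ← add_div,
      Finset.mul_sum, ← Finset.sum_add_distrib]
    congr 1
    refine Finset.sum_congr rfl fun y _ => ?_
    rw [Finset.prod_coe_sort (f := fun i => φ i (y i)),
      Finset.prod_coe_sort (f := fun i => ∫ z, φ i z ∂muJ),
      ← Finset.prod_filter_mul_prod_filter_not J p]
    ring

/-- The uniform measure on an orbit. -/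
theorem exists_meas {ι : Type} [Fintype ι] {x : ι → ℂ} (hx : (galOrbitN x).Finite) :
    ∃ ν : Measure (ι → ℂ), IsProbabilityMeasure ν ∧
      ∀ φ : (ι → ℂ) → ℝ, ∫ z, φ z ∂ν = orbitMeanN x φ := by
  have hc := card_pos hx
  refine ⟨(hx.toFinset.card : ENNReal)⁻¹ • ∑ y ∈ hx.toFinset, Measure.dirac y, ⟨?_⟩, fun φ => ?_⟩
  · simp only [Measure.smul_apply, Measure.coe_finsetSum, Finset.sum_apply, measure_univ,
      Finset.sum_const, nsmul_eq_mul, mul_one, smul_eq_mul]
    exact ENNReal.inv_mul_cancel (by exact_mod_cast hc.ne') (ENNReal.natCast_ne_top _)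
  · rw [integral_smul_measure, integral_finsetSum_measure fun y _ => integrable_dirac (by simp),
      mean_eq hx]
    simp [div_eq_inv_mul]

end FinalN

open FinalN in
theorem finalN : DynNStmt → WeakStmt → FinalNStmt := by
  intro hD hW ι _ B τ hK h1 h2
  have hfin : ∀ n, (galOrbitN fun i => CM.jH (τ n i)).Finite := fun n =>
    orbit_finiteN (τ n) fun i => (hK n i).imp fun _ h => h.2
  refine ⟨hfin, fun φ => ?_⟩
  have key : ∀ (ψ : ι → ℂ →ᵇ ℝ) (J : Finset ι), Tendsto (fun n =>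
      orbitMeanN (fun i => CM.jH (τ n i)) fun y => ∏ j ∈ J, ψ j (y j)) atTop
      (𝓝 (∏ j ∈ J, ∫ z, ψ j z ∂muJ)) := by
    intro ψ J
    refine split_fin (D := ι → Set.Iic B) (P := fun n d => ∀ i, InField (d i) (τ n i))
      (fun n => ?_) fun d ns hns hP => ?_
    · choose d hd hd' using hK n
      exact ⟨fun i => ⟨d i, hd i⟩, hd'⟩
    · exact prod_lim hD (fun n => τ (ns n)) (fun i => d i) hP (fun n => hfin _)
        (fun i z hz => hns.eventually (h1 i z hz))
        (fun i j hij g hg => hns.eventually (h2 i j hij g hg)) ψ J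
  choose ν hν hν' using fun n => exists_meas (hfin n)
  rcases isEmpty_or_nonempty ι with hι | ⟨⟨i⟩⟩
  · refine tendsto_const_nhds.congr fun n => ?_
    have := hν n
    rw [← hν', Measure.pi_of_empty _ fun i => isEmptyElim i, integral_dirac,
      show (φ : (ι → ℂ) → ℝ) = fun _ => φ fun i => isEmptyElim i from
        funext fun z => congrArg _ (Subsingleton.elim _ _)]
    simp
  have hμ : IsProbabilityMeasure muJ := by
    have h3 := key (fun _ => 1) {i}
    have h4 := key (fun _ => 1) ∅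
    simp only [Finset.prod_singleton, Finset.prod_empty, BoundedContinuousFunction.coe_one,
      Pi.one_apply, integral_const, smul_eq_mul, mul_one] at h3 h4
    exact isProbabilityMeasure_iff_real.2 (tendsto_nhds_unique h3 h4)
  simpa only [hν'] using hW ι ℂ muJ ν hμ hν (fun ψ => by simpa only [hν'] using key ψ _) φ

end Pool.Agent.Lib.MP_9177b7_ag.J
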