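import Pool.Agent.Lib.MP_9177b7_ag.J.Fin3
import Pool.Agent.Lib.MP_9177b7_ag.J.Basic
import Pool.Agent.Lib.MP_9177b7_ag.J.DefsU

/-!
Automorphisms that act on the invariants of one field and fix those of finitely many others;
means over finite orbits.
-/

open MeasureTheory Set Filter Topology Pointwise
open scoped UpperHalfPlane BoundedContinuousFunction

noncomputable section

namespace Pool.Agent.Lib.MP_9177b7_ag.J.FinalN

open CM Fld Dyn Pool.Agent.Lib.MP_9177b7_ag.J.Fin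

theorem comm_Jset {ω : ℂ} {t n : ℤ} (hω : ω ^ 2 = t * ω - n) (him : ω.im ≠ 0) {σ τ : ℂ ≃+* ℂ}
    (hσ : σ ω = ω) (hτ : τ ω = ω) {x : ℂ} (hx : x ∈ Jset ω) : σ (τ x) = τ (σ x) := by
  obtain ⟨L, hL, hL', rfl⟩ := hx
  rw [← ord_mul_eq_iff] at hL'
  obtain ⟨S, -, -, -, -, -, hS⟩ := hyp.cm_of_aut hω him σ hσ
  obtain ⟨T, -, -, -, -, -, hT⟩ := hyp.cm_of_aut hω him τ hτ
  have hmul : ∀ X : Submodule ℤ ℂ, CM.sp 1 ω * (X * L) = X * L :=
    fun X => by rw [mul_left_comm, hL']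
  rw [(hT L hL hL').2, (hS _ (hT L hL hL').1 (hmul _)).2, (hS L hL hL').2,
    (hT _ (hS L hL hL').1 (hmul _)).2, mul_left_comm]

theorem map_J {ω : ℂ} {t n : ℤ} (hω : ω ^ 2 = t * ω - n) (him : ω.im ≠ 0) (σ : ℂ ≃+* ℂ)
    {x : ℂ} (hx : x ∈ Jset ω) : σ x ∈ Jset ω :=
  hyp.map_mem_Jset hω him (σ : ℂ →+* ℂ) hx

theorem sq_Jset {ω : ℂ} {t n : ℤ} (hω : ω ^ 2 = t * ω - n) (him : ω.im ≠ 0) {σ : ℂ ≃+* ℂ}
    (hσ : σ ω = t - ω) {x : ℂ} (hx : x ∈ Jset ω) : σ (σ x) = x := by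
  obtain ⟨L, hL, hL', rfl⟩ := hx
  exact hyp.sq_fix hω him σ hσ hL (ord_mul_eq_iff.2 hL')

/-- A power of an automorphism on the invariants of one order is realised by an automorphism that
fixes the invariants of finitely many orders in other fields. -/
theorem exists_pow {ω : ℂ} {t n : ℤ} (hω : ω ^ 2 = t * ω - n) (him : ω.im ≠ 0) {κ : Type}
    (ω' : κ → ℂ) (t' n' : κ → ℤ) (s : Finset κ)
    (hω' : ∀ j ∈ s, ω' j ^ 2 = t' j * ω' j - n' j) (him' : ∀ j ∈ s, (ω' j).im ≠ 0)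
    (hne : ∀ j ∈ s, ∀ a b : ℚ, ω' j ≠ a + b * ω) {σ₀ : ℂ ≃+* ℂ} (h₀ : σ₀ ω = ω) :
    ∃ σ : ℂ ≃+* ℂ, σ ω = ω ∧ (∀ x ∈ Jset ω, σ x = σ₀^[2 ^ s.card] x) ∧
      ∀ j ∈ s, ∀ x ∈ Jset (ω' j), σ x = x := by
  classical
  induction s using Finset.induction_on with
  | empty => exact ⟨σ₀, h₀, fun x _ => by simp, by simp⟩
  | insert j s hj ih =>
    obtain ⟨σ, h1, h2, h3⟩ := ih (fun i hi => hω' i (Finset.mem_insert_of_mem hi))
      (fun i hi => him' i (Finset.mem_insert_of_mem hi))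
      fun i hi => hne i (Finset.mem_insert_of_mem hi)
    have a1 := hω' j (Finset.mem_insert_self _ _)
    have a2 := him' j (Finset.mem_insert_self _ _)
    have hsq : ∀ x ∈ Jset ω, σ (σ x) = σ₀^[2 ^ (insert j s).card] x := by
      intro x hx
      rw [h2 _ (map_J hω him σ hx), Finset.card_insert_of_notMem hj,
        pow_succ, mul_two, Function.iterate_add_apply]
      exact congrArg _ (h2 x hx)
    rcases map_omega a1 (σ : ℂ →+* ℂ) with e | e
    · obtain ⟨τ, hτ, hτ'⟩ := hyp.exists_fix_conj hω him a1 (hne j (Finset.mem_insert_self _ _))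
      have e' : σ (ω' j) = ω' j := e
      have hτs : τ.symm ω = ω := by rw [RingEquiv.symm_apply_eq, hτ]
      refine ⟨τ.symm.trans (τ.symm.trans ((τ.trans σ).trans (τ.trans σ))), ?_, fun x hx => ?_,
        fun i hi x hx => ?_⟩
      · simp [hτs, hτ, h1]
      · simp only [RingEquiv.trans_apply, RingEquiv.apply_symm_apply]
        rw [← comm_Jset hω him h1 hτ (map_J hω him τ.symm hx), ← hsq x hx]
        simp
      · rcases Finset.mem_insert.1 hi with rfl | hi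
        · have d1 : (τ.trans σ) (ω' i) = t' i - ω' i := by simp [hτ', e']
          have d2 : τ.symm (ω' i) = t' i - ω' i := by
            rw [RingEquiv.symm_apply_eq, map_sub, map_intCast, hτ']; ring
          show (τ.trans σ) ((τ.trans σ) (τ.symm (τ.symm x))) = x
          rw [sq_Jset a1 a2 d2 hx, sq_Jset a1 a2 d1 hx]
        · simp only [RingEquiv.trans_apply, RingEquiv.apply_symm_apply]
          have b1 : σ (τ.symm x) = τ.symm x := h3 i hi _ (hyp.map_mem_Jset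
            (hω' i (Finset.mem_insert_of_mem hi)) (him' i (Finset.mem_insert_of_mem hi))
            (τ.symm : ℂ →+* ℂ) hx)
          rw [b1, RingEquiv.apply_symm_apply, h3 i hi x hx]
    · refine ⟨σ.trans σ, by simp [h1], hsq, fun i hi x hx => ?_⟩
      rcases Finset.mem_insert.1 hi with rfl | hi
      · exact sq_Jset a1 a2 e hx
      · rw [RingEquiv.trans_apply, h3 i hi x hx, h3 i hi x hx]

variable (k : Fld) {w : ℂ}

theorem exists_aut' (hw : k.Root w) (F : ℕ+) (s : k.SF F) : ∃ σ : ℂ ≃+* ℂ,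
    σ (((F : ℕ) : ℂ) * w) = ((F : ℕ) : ℂ) * w ∧
    ∀ L c, k.Lat L c → k.Adm F L → σ (jL (L.map (k.ioL w))) = jL ((act s L).map (k.ioL w)) := by
  let O : Submodule ℤ k.K := Submodule.span ℤ {1, ((F : ℕ) : k.K) * k.om}
  have hO : O.map (k.ioL w) = CM.sp 1 (((F : ℕ) : ℂ) * w) := by
    rw [map_span2, io_one, io_Fom k]
  have hL : k.Lat O F := ⟨_, _, rfl, by simp [Fld.det2, Fld.om, QuadraticAlgebra.re_one],
    by exact_mod_cast F.pos⟩
  have hA : k.Adm F O := by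
    rw [adm_iff k hw, hO]
    exact smul_ord_le (om_eq k hw F)
  have hact := (basic k).2.2.2.2.2.2.2.1 F O F hL hA
  have hmul : ∀ (s : k.SF F) L, k.Adm F L → act s O * L = act s L := by
    intro s L h
    have : O * L = L := by
      apply Submodule.map_injective_of_injective (io_inj k hw)
      rw [map_mul' k hw, hO, ord_mul_eq_iff]
      exact (adm_iff k hw _ _).1 h
    rw [act, act, mul_assoc, this]
  obtain ⟨σ, h0, hσ⟩ := hyp.cm_surj (om_eq k hw F) (om_im k hw F.pos) ((act s O).map (k.ioL w))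
    ((act s⁻¹ O).map (k.ioL w)) (by
      rw [← map_mul' k hw, hmul _ _ (hact.2 _).2.1, ← (hact.2 s).2.2.2.2.2.1, mul_inv_cancel,
        hact.1, hO]) (ord_mul_eq_iff.2 ((adm_iff k hw _ _).1 (hact.2 _).2.1))
  refine ⟨σ, h0, fun L c h h' => ?_⟩
  rw [(hσ _ (lat_isLat k hw h) (ord_mul_eq_iff.2 ((adm_iff k hw _ _).1 h'))).2, ← map_mul' k hw,
    hmul _ _ h']

theorem iter_act {F : ℕ+} {s : k.SF F} {σ : ℂ ≃+* ℂ}
    (hσ : ∀ L c, k.Lat L c → k.Adm F L → σ (jL (L.map (k.ioL w))) = jL ((act s L).map (k.ioL w)))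
    {L : Submodule ℤ k.K} {c : ℚ} (hL : k.Lat L c) (hA : k.Adm F L) (m : ℕ) :
    σ^[m] (jL (L.map (k.ioL w))) = jL ((act (s ^ m) L).map (k.ioL w)) := by
  have hact := (basic k).2.2.2.2.2.2.2.1 F L c hL hA
  induction m with
  | zero => rw [pow_zero, hact.1]; rfl
  | succ m ih =>
    rw [Function.iterate_succ_apply', ih, hσ _ c (hact.2 _).1 (hact.2 _).2.1, pow_succ',
      (hact.2 s).2.2.2.2.2.1]

theorem act_scal {F : ℕ+} {z : k.SF F} (hz : Scal z) {L : Submodule ℤ k.K} {c : ℚ}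
    (hL : k.Lat L c) (hA : k.Adm F L) : act z L = L := by
  have h1 : act z L ≤ L := by
    rw [act, Submodule.mul_le]
    intro x hx y hy
    induction hx using Submodule.span_induction with
    | mem x hx =>
      rcases hx with rfl | rfl | rfl
      · have : lift z = ((z.val.re.val : ℕ) : k.K) := by
          have h0 : z.val.im = 0 := hz
          ext
          · rw [QuadraticAlgebra.re_natCast]; rfl
          · rw [QuadraticAlgebra.im_natCast]; simp [lift, h0]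
        rw [this, ← nsmul_eq_mul]
        exact nsmul_mem hy _
      · rw [← nsmul_eq_mul]
        exact nsmul_mem hy _
      · exact hA y hy
    | zero => simp
    | add a b _ _ ha hb => rw [add_mul]; exact L.add_mem ha hb
    | smul a b _ hb => rw [smul_mul_assoc]; exact L.smul_mem _ hb
  obtain ⟨j, -, e, -, h2⟩ := (basic k).2.2.2.1 _ _ _ _
    (((basic k).2.2.2.2.2.2.2.1 F L c hL hA).2 z).1 hL h1
  refine h2 ?_
  have hc := Excl.lat_pos hL
  have : (j : ℚ) = 1 := mul_right_cancel₀ hc.ne' (by rw [← e, one_mul])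
  exact_mod_cast this

theorem exists_den (τ : ℂ) (p q : ℚ) :
    ∃ F : ℕ, 0 < F ∧ ∀ G : ℕ, ((F * G : ℕ) : ℂ) * (p * τ + q) ∈ CM.sp τ 1 := by
  refine ⟨p.den * q.den, Nat.mul_pos p.pos q.pos, fun G => mem_sp.2
    ⟨G * q.den * p.num, G * p.den * q.num, ?_⟩⟩
  have h1 : (p.num : ℂ) = p * p.den := by exact_mod_cast (Rat.mul_den_eq_num p).symm
  have h2 : (q.num : ℂ) = q * q.den := by exact_mod_cast (Rat.mul_den_eq_num q).symm
  push_cast
  rw [h1, h2]
  ring

theorem exists_F1 (hw : k.Root w) {τ : ℍ} {x y : ℚ} (hτ : (τ : ℂ) = x + y * w) :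
    ∃ F : ℕ, 0 < F ∧ ((F : ℂ) * w) • CM.sp τ 1 ≤ CM.sp τ 1 := by
  have hy : (y : ℂ) ≠ 0 := by
    intro h
    have := τ.im_pos
    rw [← UpperHalfPlane.coe_im, hτ, h] at this
    simp at this
  obtain ⟨F, hF, h1⟩ := exists_den τ (1 / y) (-x / y)
  obtain ⟨G, hG, h2⟩ := exists_den τ (x / y + k.t) (-(x ^ 2 / y + k.t * x + k.n * y))
  unfold Fld.Root at hw
  refine ⟨F * G, Nat.mul_pos hF hG, ?_⟩
  rw [smul_sp, sp_le]
  have e1 : w = ((1 / y : ℚ) : ℂ) * τ + ((-x / y : ℚ) : ℂ) := by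
    rw [hτ]
    push_cast
    field_simp
    ring
  have e2 : w * τ = ((x / y + k.t : ℚ) : ℂ) * τ +
      ((-(x ^ 2 / y + k.t * x + k.n * y) : ℚ) : ℂ) := by
    rw [hτ]
    push_cast
    field_simp
    linear_combination (y : ℂ) ^ 2 * hw
  constructor
  · rw [mul_assoc, e2, mul_comm F]
    exact h2 F
  · rw [mul_one]
    exact e1 ▸ h1 G

/-- Isogenies between the lattices have large degree. -/
theorem far (hw : k.Root w) (τ₁ τ₂ : ℕ → ℍ) (ρ : ℕ → ℂ ≃+* ℂ) (L₁ L₂ : ℕ → Submodule ℤ k.K)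
    (c₁ c₂ : ℕ → ℚ) (a₁ : ∀ n, k.Lat (L₁ n) (c₁ n)) (a₂ : ∀ n, k.Lat (L₂ n) (c₂ n))
    (e₁ : ∀ n, ρ n (jH (τ₁ n)) = jL ((L₁ n).map (k.ioL w)))
    (e₂ : ∀ n, ρ n (jH (τ₂ n)) = jL ((L₂ n).map (k.ioL w)))
    (hs : ∀ g : Matrix (Fin 2) (Fin 2) ℚ, 0 < g.det →
      ∀ᶠ n in atTop, (jH (τ₁ n), jH (τ₂ n)) ∉ modCurve g) (B : ℝ) :
    ∀ᶠ n in atTop, ∀ α : k.K, α ≠ 0 → α • L₁ n ≤ L₂ n → B * c₂ n < k.N α * c₁ n := by
  obtain ⟨G, g1, g2, g3⟩ := iso_conj (Nat.factorial_pos ⌊B⌋₊)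
  filter_upwards [(eventually_all_finite (l := atTop)
    (p := fun g n => (jH (τ₁ n), jH (τ₂ n)) ∉ modCurve g) g1).2
    fun g hg => hs _ (g2 g hg)] with n hn α hα hle
  by_contra hB'
  have hN : QuadraticAlgebra.norm α ≠ 0 := fun h =>
    hα (QuadraticAlgebra.norm_eq_zero_iff_eq_zero.1 h)
  have hlat := (basic k).2.2.1 _ _ α 0 (a₁ n) (by simpa [Fld.N] using hN)
  rw [← Excl.smul_eq_map, QuadraticAlgebra.norm_zero, sub_zero,
    abs_of_nonneg (Excl.norm_nonneg' α)] at hlat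
  obtain ⟨j, hj, e, hjm, -⟩ := (basic k).2.2.2.1 _ _ _ _ hlat (a₂ n) hle
  have hc : (0 : ℝ) < c₂ n := by exact_mod_cast Excl.lat_pos (a₂ n)
  have e' : k.N α * c₁ n = j * c₂ n := by
    unfold Fld.N
    exact_mod_cast e
  have hjB : j ≤ ⌊B⌋₊ := Nat.le_floor (le_of_mul_le_mul_right (e' ▸ not_lt.1 hB') hc)
  obtain ⟨u, hu⟩ := Nat.dvd_factorial hj hjB
  obtain ⟨g, hg, hm⟩ := g3 (τ₁ n) (τ₂ n) (ρ n) ((α • L₁ n).map (k.ioL w)) _ (lat_isLat k hw hlat)
    (lat_isLat k hw (a₂ n)) (by rw [map_smul' k hw, hyp.jL_smul _ (io_ne_zero k hw hα), e₁])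
    (e₂ n) (by
      rintro _ ⟨_, ⟨v, hv, rfl⟩, rfl⟩
      refine ⟨(u : ℤ) • ((j : k.K) * v), Submodule.smul_mem _ _ (hjm v hv), ?_⟩
      rw [map_zsmul, hu]
      change (u : ℤ) • k.io w _ = _ * k.io w v
      rw [natCast_mul, io_qsmul, zsmul_eq_mul]
      push_cast
      ring) (Submodule.map_mono hle)
  exact hn g hg hm

section Mean

variable {ι : Type} {x : ι → ℂ}

theorem self_memN (x : ι → ℂ) : x ∈ galOrbitN x := ⟨RingEquiv.refl ℂ, rfl⟩

theorem map_mem_iff (σ : ℂ ≃+* ℂ) (y : ι → ℂ) :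
    (fun i => σ (y i)) ∈ galOrbitN x ↔ y ∈ galOrbitN x := by
  constructor
  · rintro ⟨ρ, e⟩
    exact ⟨ρ.trans σ.symm, funext fun i => σ.eq_symm_apply.2 (congrFun e i)⟩
  · rintro ⟨ρ, rfl⟩
    exact ⟨ρ.trans σ, rfl⟩

theorem mean_eq (hx : (galOrbitN x).Finite) (φ : (ι → ℂ) → ℝ) :
    orbitMeanN x φ = (∑ y ∈ hx.toFinset, φ y) / hx.toFinset.card := by
  rw [orbitMeanN, finsum_mem_eq_finite_toFinset_sum _ hx, Set.ncard_eq_toFinset_card _ hx]

theorem card_pos (hx : (galOrbitN x).Finite) : (0 : ℝ) < hx.toFinset.card := by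
  exact_mod_cast Finset.card_pos.2 ⟨x, hx.mem_toFinset.2 (self_memN x)⟩

theorem mean_leN (hx : (galOrbitN x).Finite) {S : Type} [Fintype S] [Nonempty S]
    (σ : S → ℂ ≃+* ℂ) (φ : (ι → ℂ) → ℝ) : ∃ y ∈ galOrbitN x, |orbitMeanN x φ| ≤
      |(∑ s, φ fun i => σ s (y i)) / Fintype.card S| := by
  have hc := card_pos hx
  set T := hx.toFinset with hT
  have hne : T.Nonempty := ⟨x, hx.mem_toFinset.2 (self_memN x)⟩
  let a : (ι → ℂ) → ℝ := fun y => (∑ s, φ fun i => σ s (y i)) / Fintype.card S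
  obtain ⟨y, hy, hmax⟩ := T.exists_max_image (fun y => |a y|) hne
  refine ⟨y, hx.mem_toFinset.1 hy, ?_⟩
  have hι : (0 : ℝ) < Fintype.card S := by exact_mod_cast Fintype.card_pos
  have h1 : ∀ s, ∑ y ∈ T, (φ fun i => σ s (y i)) = ∑ y ∈ T, φ y := by
    intro s
    refine Finset.sum_equiv (Equiv.piCongrRight fun _ => (σ s).toEquiv) (fun y => ?_)
      fun y _ => rfl
    simp only [hT, hx.mem_toFinset]
    exact (map_mem_iff (σ s) y).symm
  have h2 : orbitMeanN x φ = (∑ y ∈ T, a y) / T.card := by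
    rw [mean_eq hx, ← hT, ← Finset.sum_div, Finset.sum_comm]
    simp only [h1, Finset.sum_const, Finset.card_univ, nsmul_eq_mul]
    field_simp
  rw [h2, abs_div, abs_of_pos hc, div_le_iff₀ hc]
  refine (Finset.abs_sum_le_sum_abs _ _).trans ((Finset.sum_le_card_nsmul _ _ _ hmax).trans ?_)
  rw [nsmul_eq_mul, mul_comm]

/-- Conditional expectation with respect to some of the coordinates. -/
theorem exists_cond (hx : (galOrbitN x).Finite) (I : Finset ι) (g : (ι → ℂ) → ℝ) {C : ℝ}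
    (hC : 0 ≤ C) (hg : ∀ y, |g y| ≤ C) : ∃ H : (I → ℂ) → ℝ, (∀ b, |H b| ≤ C) ∧
      (∀ f : (I → ℂ) → ℝ, (orbitMeanN x fun y => f (fun i => y i) * g y) =
        orbitMeanN x fun y => f (fun i => y i) * H fun i => y i) ∧
      ∀ σ : ℂ ≃+* ℂ, (∀ y ∈ galOrbitN x, (g fun i => σ (y i)) = g y) →
        ∀ b, (H fun i => σ (b i)) = H b := by
  classical
  set T := hx.toFinset with hT
  let r : (ι → ℂ) → I → ℂ := fun y i => y i
  refine ⟨fun b => (∑ y ∈ T with r y = b, g y) / (T.filter fun y => r y = b).card, fun b => ?_,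
    fun f => ?_, fun σ hσ b => ?_⟩
  · rw [abs_div, Nat.abs_cast]
    refine div_le_of_le_mul₀ (Nat.cast_nonneg _) hC ?_
    refine (Finset.abs_sum_le_sum_abs _ _).trans
      ((Finset.sum_le_card_nsmul _ _ _ fun y _ => hg y).trans ?_)
    rw [nsmul_eq_mul, mul_comm]
  · rw [mean_eq hx, mean_eq hx, ← hT]
    congr 1
    rw [← Finset.sum_fiberwise_of_maps_to (g := r) (t := T.image r)
        fun y hy => Finset.mem_image_of_mem r hy,
      ← Finset.sum_fiberwise_of_maps_to (g := r) (t := T.image r) (s := T)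
        fun y hy => Finset.mem_image_of_mem r hy]
    refine Finset.sum_congr rfl fun b hb => ?_
    have hc : ((T.filter fun y => r y = b).card : ℝ) ≠ 0 := by
      obtain ⟨y, hy, rfl⟩ := Finset.mem_image.1 hb
      exact Nat.cast_ne_zero.2 (Finset.card_ne_zero.2 ⟨y, Finset.mem_filter.2 ⟨hy, rfl⟩⟩)
    have e1 : ∑ y ∈ T with r y = b, f (r y) * g y = f b * ∑ y ∈ T with r y = b, g y := by
      rw [Finset.mul_sum]
      exact Finset.sum_congr rfl fun y hy => by rw [(Finset.mem_filter.1 hy).2]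
    have e2 : ∀ H : (I → ℂ) → ℝ, ∑ y ∈ T with r y = b, f (r y) * H (r y) =
        (T.filter fun y => r y = b).card * (f b * H b) := fun H => by
      rw [← nsmul_eq_mul, ← Finset.sum_const]
      exact Finset.sum_congr rfl fun y hy => by rw [(Finset.mem_filter.1 hy).2]
    refine e1.trans (Eq.trans ?_ (e2 fun b =>
      (∑ y ∈ T with r y = b, g y) / (T.filter fun y => r y = b).card).symm)
    field_simp
  · have key : ∀ y, y ∈ T.filter (fun y => r y = b) ↔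
        (Equiv.piCongrRight fun _ => σ.toEquiv) y ∈ T.filter fun y => r y = fun i => σ (b i) := by
      intro y
      simp only [Finset.mem_filter, hT, hx.mem_toFinset]
      refine and_congr (map_mem_iff σ y).symm ⟨?_, fun h => funext fun i => ?_⟩
      · rintro rfl
        rfl
      · exact σ.injective (congrFun h i)
    beta_reduce
    rw [← Finset.card_equiv _ key, ← Finset.sum_equiv _ key (f := g) fun y hy =>
      (hσ y (hx.mem_toFinset.1 (Finset.mem_filter.1 hy).1)).symm]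

end Mean

end Pool.Agent.Lib.MP_9177b7_ag.J.FinalN
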