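import Pool.Agent.Lib.MP_9177b7_ag.J.DefsN

/-! The Haar measure of the group of related pairs. -/

open MeasureTheory Filter Topology Set
open scoped ENNReal

noncomputable section

namespace Pool.Agent.Lib.MP_9177b7_ag.J

open Fld Dyn

namespace Kap

section abstract

variable {M S : Type} [Group M] [MeasurableSpace M] [MeasurableMul M] [CommGroup S] [Fintype S]
  [MeasurableSpace S] [DiscreteMeasurableSpace S]

omit [Group M] [MeasurableMul M] [CommGroup S] in
lemma meas_set {B : M × S → Prop} (h : ∀ s, MeasurableSet {m | B (m, s)}) :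
    MeasurableSet {q | B q} :=
  measurableSet_setOfPred.2
    (measurable_from_prod_countable_left fun s => measurableSet_setOfPred.1 (h s))

omit [Fintype S] in
lemma meas_mul (g : M × S) : Measurable fun q : M × S => g * q :=
  ((measurable_const_mul g.1).comp measurable_fst).prodMk
    ((measurable_const_mul g.2).comp measurable_snd)

lemma exists_meas (μ : Measure M) [IsProbabilityMeasure μ] [μ.IsMulLeftInvariant]
    (R : Subgroup (M × S)) (hR : MeasurableSet (R : Set (M × S))) (h : ∀ m, ∃ s, (m, s) ∈ R) :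
    ∃ κ : Measure (M × S), IsProbabilityMeasure κ ∧ (∀ᵐ q ∂κ, q ∈ R) ∧
      ∀ g ∈ R, κ.map (g * ·) = κ := by
  have h0 : μ.prod Measure.count (R : Set (M × S)) ≠ 0 := fun h0 => by
    have h1 := Measure.measure_ae_null_of_prod_null h0
    obtain ⟨m, hm⟩ := h1.exists
    obtain ⟨s, hs⟩ := h m
    exact absurd (Measure.count_eq_zero_iff.1 hm) (Set.Nonempty.ne_empty ⟨s, hs⟩)
  refine ⟨ProbabilityTheory.cond (μ.prod Measure.count) R,
    ProbabilityTheory.cond_isProbabilityMeasure h0, ProbabilityTheory.ae_cond_mem hR,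
    fun g hg => ?_⟩
  have e : (fun q => g * q) ⁻¹' (R : Set (M × S)) = R := by
    ext q
    exact R.mul_mem_cancel_left hg
  have hν : (μ.prod Measure.count).map (g * ·) = μ.prod (Measure.count : Measure S) := by
    have := Measure.map_prod_map μ (Measure.count : Measure S) (measurable_const_mul g.1)
      (show Measurable fun s : S => g.2 * s from Measurable.of_discrete)
    rw [map_mul_left_eq_self, map_mul_left_eq_self] at this
    exact this.symm
  rw [ProbabilityTheory.cond, Measure.map_smul]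
  congr 1
  conv_lhs => rw [← e]
  rw [← Measure.restrict_map (meas_mul g) hR, hν]

open Classical in
lemma snd_le {κ : Measure (M × S)} [IsProbabilityMeasure κ] {R : Subgroup (M × S)}
    (hae : ∀ᵐ q ∂κ, q ∈ R) (hinv : ∀ g ∈ R, κ.map (g * ·) = κ) {U : Finset S} (hU : U.card ≤ 4)
    (h : ∀ s, ∃ u ∈ U, ∃ m, (m, u * s) ∈ R) (E : S → Prop) :
    κ {q | E q.2} ≤ 4 * ((Fintype.card S : ℝ≥0∞)⁻¹ * ∑ s, if E s then 1 else 0) := by
  have hm : ∀ A : Set S, MeasurableSet (Prod.snd ⁻¹' A : Set (M × S)) :=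
    fun A => measurable_snd (MeasurableSet.of_discrete)
  have h1 : ∀ s, (∃ m, (m, s) ∈ R) → κ (Prod.snd ⁻¹' {s}) = κ (Prod.snd ⁻¹' {1}) := by
    rintro s ⟨m, hs⟩
    conv_lhs => rw [← hinv _ hs]
    rw [Measure.map_apply (meas_mul _) (hm _)]
    congr 1
    ext q
    simp
  have h2 : ∀ s, κ (Prod.snd ⁻¹' {s}) ≤ κ (Prod.snd ⁻¹' {1}) := fun s => by
    by_cases hs : ∃ m, (m, s) ∈ R
    · exact (h1 s hs).le
    · refine le_of_eq_of_le (measure_mono_null (t := {q | ¬ q ∈ R})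
        (fun q hq hq' => hs ⟨q.1, ?_⟩) (ae_iff.1 hae)) zero_le
      rw [← show q.2 = s from hq]
      exact hq'
  have h3 : ∀ T : Finset S, κ (Prod.snd ⁻¹' (T : Set S)) = ∑ s ∈ T, κ (Prod.snd ⁻¹' {s}) :=
    fun T => (sum_measure_preimage_singleton T fun s _ => hm _).symm
  generalize κ (Prod.snd ⁻¹' {1}) = a at h1 h2
  obtain ⟨H, hH⟩ : ∃ H : Finset S, ∀ s, s ∈ H ↔ ∃ m, (m, s) ∈ R :=
    ⟨Finset.univ.filter fun s => ∃ m, (m, s) ∈ R, by simp⟩
  have h4 : (H.card : ℝ≥0∞) * a ≤ 1 := by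
    have := h3 H
    rw [Finset.sum_congr rfl fun s hs => h1 s ((hH s).1 hs), Finset.sum_const, nsmul_eq_mul] at this
    rw [← this]
    exact prob_le_one
  have h5 : Fintype.card S ≤ 4 * H.card := by
    have : (Finset.univ : Finset S) ⊆ U.biUnion fun u => H.image (u⁻¹ * ·) := fun s _ => by
      obtain ⟨u, hu, hs⟩ := h s
      exact Finset.mem_biUnion.2 ⟨u, hu, Finset.mem_image.2 ⟨u * s, (hH _).2 hs, by simp⟩⟩
    exact (Finset.card_le_card this).trans ((Finset.card_biUnion_le_card_mul _ _ _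
      fun u _ => Finset.card_image_le).trans (Nat.mul_le_mul_right _ hU))
  have h6 : a ≤ 4 * (Fintype.card S : ℝ≥0∞)⁻¹ := by
    rw [← div_eq_mul_inv, ENNReal.le_div_iff_mul_le (Or.inl (by simp)) (Or.inl (by simp))]
    calc a * Fintype.card S ≤ a * (4 * H.card : ℕ) := by gcongr
      _ = 4 * (H.card * a) := by push_cast; ring
      _ ≤ 4 * 1 := by gcongr
      _ = 4 := mul_one _
  have h7 : {q : M × S | E q.2} = Prod.snd ⁻¹' ((Finset.univ.filter E : Finset S) : Set S) := by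
    ext q
    simp
  rw [h7, h3, Finset.sum_filter, ← mul_assoc, Finset.mul_sum]
  refine Finset.sum_le_sum fun s _ => ?_
  split_ifs
  · rw [mul_one]; exact (h2 s).trans h6
  · exact zero_le

lemma map_eq {κ : Measure (M × S)} {R : Subgroup (M × S)} (hinv : ∀ g ∈ R, κ.map (g * ·) = κ)
    {Y : Type} [MeasurableSpace Y] {Φ : M → S → Y} (hΦ : ∀ s, Measurable fun m => Φ m s)
    (h : ∀ s₀, ∃ u, (1, u) ∈ R ∧ ∀ m s, Φ m (u * s) = Φ m (s₀ * s)) :
    κ.map (fun q => Φ q.1 q.2) =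
      (Fintype.card S : ℝ≥0∞)⁻¹ • ∑ s, (κ.map Prod.fst).map fun m => Φ m s := by
  classical
  have hm : ∀ s₀, Measurable fun q : M × S => Φ q.1 (s₀ * q.2) := fun s₀ =>
    measurable_from_prod_countable_left fun s => hΦ (s₀ * s)
  have hm1 : Measurable fun q : M × S => Φ q.1 q.2 :=
    measurable_from_prod_countable_left fun s => hΦ s
  have hm2 : ∀ s₀, Measurable fun q : M × S => Φ q.1 s₀ := fun s₀ => (hΦ s₀).comp measurable_fst
  have h1 : ∀ s₀, κ.map (fun q => Φ q.1 q.2) = κ.map fun q => Φ q.1 (s₀ * q.2) := fun s₀ => by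
    obtain ⟨u, hu, e⟩ := h s₀
    conv_lhs => rw [← hinv _ hu]
    rw [Measure.map_map hm1 (meas_mul _)]
    congr 1
    funext q
    simp [e]
  ext A hA
  have h2 : ∑ s₀, κ.map (fun q => Φ q.1 (s₀ * q.2)) A = ∑ s, κ.map (fun q => Φ q.1 s) A := by
    simp_rw [Measure.map_apply (hm _) hA, Measure.map_apply (hm2 _) hA,
      ← lintegral_indicator_one (hm _ hA), ← lintegral_indicator_one (hm2 _ hA)]
    rw [← lintegral_finsetSum _ fun s _ => measurable_one.indicator (hm s hA),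
      ← lintegral_finsetSum _ fun s _ => measurable_one.indicator (hm2 s hA)]
    refine lintegral_congr fun q => ?_
    exact Fintype.sum_equiv (Equiv.mulRight q.2) _ _ fun s => rfl
  simp_rw [← h1, Finset.sum_const, Finset.card_univ, nsmul_eq_mul] at h2
  simp_rw [Measure.smul_apply, Measure.finsetSum_apply, Measure.map_map (hΦ _) measurable_fst,
    Function.comp_def, ← h2, smul_eq_mul]
  rw [← mul_assoc, ENNReal.inv_mul_cancel (by simp) (by simp), one_mul]

end abstract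

lemma closed_Rl {k : Fld} {F : ℕ+} {l : ℕ} [Fact l.Prime] (r : ℚ_[l]) (s : k.SF F) {X : Type}
    [TopologicalSpace X] {c : X → ℚ_[l]} (hc : Continuous c) : IsClosed {x | Rl r (c x) s} :=
  isClosed_le (continuous_const.sub ((hc.pow 2).mul continuous_const)).norm continuous_const

lemma meas_RR (k : Fld) {l₁ l₂ : ℕ} [Fact l₁.Prime] [Fact l₂.Prime] (r₁ : ℚ_[l₁]) (r₂ : ℚ_[l₂])
    {F : ℕ+} (s : k.SF F) : MeasurableSet {m : MM l₁ l₂ | RR k r₁ r₂ (m : GG l₁ l₂) s} := by
  have c1 : Continuous fun m : MM l₁ l₂ => (m : GG l₁ l₂).1 0 0 :=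
    (Disc.continuous_entry 0 0).comp (continuous_fst.comp continuous_subtype_val)
  have c2 : Continuous fun m : MM l₁ l₂ => (m : GG l₁ l₂).2.1 0 0 :=
    (Disc.continuous_entry 0 0).comp
      (continuous_fst.comp (continuous_snd.comp continuous_subtype_val))
  exact ((closed_Rl r₁ s c1).inter (closed_Rl r₂ s c2)).measurableSet

end Kap

theorem kap : LocStmt → KapStmt := by
  intro hL k l₁ l₂ _ _ r₁ r₂ h0 h1 h2 g₁ g₂ F
  obtain ⟨L1, L2, L3, L4, -, U, hU, L6⟩ := hL k l₁ l₂ r₁ r₂ h0 h1 h2 g₁ g₂ F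
  have : DiscreteMeasurableSpace (k.SF F) := ⟨fun _ => trivial⟩
  let R : Subgroup (MM l₁ l₂ × k.SF F) :=
    { carrier := {q | RR k r₁ r₂ (q.1 : GG l₁ l₂) q.2}
      mul_mem' := fun {a b} ha hb => L2 _ a.1.2 _ b.1.2 _ _ ha hb
      one_mem' := L1
      inv_mem' := fun {a} ha => L3 _ a.1.2 _ ha }
  have hR : MeasurableSet (R : Set (MM l₁ l₂ × k.SF F)) :=
    Kap.meas_set (B := fun q : MM l₁ l₂ × k.SF F => RR k r₁ r₂ (q.1 : GG l₁ l₂) q.2)
      fun s => Kap.meas_RR k r₁ r₂ s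
  have hs : ∀ m : MM l₁ l₂, ∃ s, (m, s) ∈ R := fun m => by
    obtain ⟨t, -, ht⟩ := L4 m m.2 1
    exact ⟨t * 1, ht⟩
  obtain ⟨κ, hκ, hae, hinv⟩ := Kap.exists_meas (hM l₁ l₂) R hR hs
  have hfst : κ.map Prod.fst = hM l₁ l₂ := by
    have : IsProbabilityMeasure (κ.map Prod.fst) :=
      Measure.isProbabilityMeasure_map measurable_fst.aemeasurable
    have : (κ.map Prod.fst).IsMulLeftInvariant := ⟨fun m => by
      obtain ⟨s, h⟩ := hs m
      conv_rhs => rw [← hinv _ h]
      rw [Measure.map_map (measurable_const_mul m) measurable_fst,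
        Measure.map_map measurable_fst (Kap.meas_mul _)]
      rfl⟩
    have : (hM l₁ l₂).IsHaarMeasure := by unfold hM; infer_instance
    have e := Measure.isMulInvariant_eq_smul_of_compactSpace (κ.map Prod.fst) (hM l₁ l₂)
    have e1 := congrArg (fun μ : Measure (MM l₁ l₂) => μ univ) e
    simp only [measure_univ, Measure.smul_apply, ENNReal.smul_def, smul_eq_mul, mul_one] at e1
    rw [e, ENNReal.coe_eq_one.1 e1.symm, one_smul]
  refine ⟨κ, hκ, hae, hinv, fun E => ?_, fun Y _ _ _ _ _ P hP => ?_⟩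
  · refine (Kap.snd_le hae hinv hU (fun s => ?_) E).trans_eq ?_
    · obtain ⟨u, hu, m, hm, h⟩ := L6 s
      exact ⟨u, hu, ⟨m, hm⟩, h⟩
    · rw [ENNReal.ofReal_mul (by norm_num), Fld.pr, ofReal_avg k F fun s => by
        split_ifs <;> norm_num]
      simp only [apply_ite ENNReal.ofReal, ENNReal.ofReal_one, ENNReal.ofReal_zero,
        ENNReal.ofReal_ofNat]
  · rw [Kap.map_eq hinv (Φ := fun m s => (m : GG l₁ l₂) • P s)
      (fun s => (om_cont (P s)).measurable) fun s₀ => ?_, hfst]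
    · rfl
    · obtain ⟨t, ht, h⟩ := L4 1 (MM l₁ l₂).one_mem s₀
      exact ⟨t * s₀, h, fun m s => by rw [mul_assoc, hP t _ ht]⟩

end Pool.Agent.Lib.MP_9177b7_ag.J
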