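import Pool.Agent.Lib.MP_9177b7_ag.J.LargeD

/-!
Application of the Shiu type bound to the integer model.
-/

noncomputable section

namespace Pool.Agent.Lib.MP_9177b7_ag.J.Large

open Finset

lemma geo_le {b : ℝ} (h0 : 0 < b) (h1 : b < 1) (M : ℕ) (s : Finset ℕ) :
    ∑ j ∈ s, (if M ≤ j then b ^ j else 0) ≤ b ^ M * (1 - b)⁻¹ := by
  rw [← sum_filter]
  have e : ∑ j ∈ s.filter (M ≤ ·), b ^ j = b ^ M * ∑ i ∈ (s.filter (M ≤ ·)).image (· - M), b ^ i := by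
    rw [sum_image, mul_sum]
    · refine sum_congr rfl fun j hj => ?_
      rw [← pow_add, Nat.add_sub_cancel' (mem_filter.1 hj).2]
    · intro i hi j hj h
      have h1 := (mem_filter.1 hi).2
      have h2 := (mem_filter.1 hj).2
      simp only at h
      omega
  rw [e]
  refine mul_le_mul_of_nonneg_left ?_ (by positivity)
  rw [← tsum_geometric_of_lt_one h0.le h1]
  exact (summable_geometric_of_lt_one h0.le h1).sum_le_tsum _ fun _ _ => by positivity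

lemma succ_mul_pow {b : ℝ} (h0 : 0 < b) (h1 : b < 1) (j : ℕ) :
    ((j : ℝ) + 1) * b ^ j ≤ (1 - b)⁻¹ := by
  have h := geo_le h0 h1 0 (range (j + 1))
  simp only [zero_le, if_true, pow_zero, one_mul] at h
  refine le_trans ?_ h
  have : ∑ _i ∈ range (j + 1), b ^ j ≤ ∑ i ∈ range (j + 1), b ^ i :=
    sum_le_sum fun i hi => pow_le_pow_of_le_one h0.le h1.le (by have := mem_range.1 hi; omega)
  simpa using this

lemma geo : ∃ κ b : ℝ, 0 < κ ∧ 0 < b ∧ b < 1 ∧ ∀ (q M J : ℕ), 2 ≤ q →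
    ∑ j ∈ Icc 2 J, (if M ≤ j then ((j : ℝ) + 1) * (q : ℝ) ^ (-1 - (1 / 8 : ℝ) * j) else 0) ≤
      κ * b ^ M * (q : ℝ) ^ (-(5 / 4 : ℝ)) := by
  set b : ℝ := (2 : ℝ) ^ (-(1 / 16 : ℝ)) with hb
  have h0 : 0 < b := by positivity
  have h1 : b < 1 := Real.rpow_lt_one_of_one_lt_of_neg (by norm_num) (by norm_num)
  have h2 : 0 < (1 - b)⁻¹ := inv_pos.2 (by linarith)
  refine ⟨2 * (1 - b)⁻¹ * (1 - b)⁻¹, b, by positivity, h0, h1, fun q M J hq => ?_⟩
  have hq' : (2 : ℝ) ≤ q := by exact_mod_cast hq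
  have hq0 : (0 : ℝ) < q := by linarith
  have key : ∀ j ∈ Icc 2 J, (if M ≤ j then ((j : ℝ) + 1) * (q : ℝ) ^ (-1 - (1 / 8 : ℝ) * j) else 0) ≤
      (2 * (1 - b)⁻¹ * (q : ℝ) ^ (-(5 / 4 : ℝ))) * if M ≤ j then b ^ j else 0 := by
    intro j hj
    have hj2 : (2 : ℝ) ≤ j := by exact_mod_cast (mem_Icc.1 hj).1
    split_ifs
    · have e1 : (q : ℝ) ^ (-1 - (1 / 8 : ℝ) * j) =
          (q : ℝ) ^ (-(5 / 4 : ℝ)) * (q : ℝ) ^ (1 / 4 - (1 / 8 : ℝ) * j) := by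
        rw [← Real.rpow_add hq0]; congr 1; ring
      have e2 : (q : ℝ) ^ (1 / 4 - (1 / 8 : ℝ) * j) ≤ (2 : ℝ) ^ (1 / 4 - (1 / 8 : ℝ) * j) :=
        Real.rpow_le_rpow_of_nonpos (by norm_num) hq' (by linarith)
      have e3 : (2 : ℝ) ^ (1 / 4 - (1 / 8 : ℝ) * j) ≤ (2 : ℝ) ^ (1 - (1 / 8 : ℝ) * j) :=
        Real.rpow_le_rpow_of_exponent_le (by norm_num) (by linarith)
      have e4 : (2 : ℝ) ^ (1 - (1 / 8 : ℝ) * j) = 2 * (b ^ j * b ^ j) := by
        rw [hb, ← Real.rpow_natCast, ← Real.rpow_mul (by norm_num), ← Real.rpow_add (by norm_num),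
          sub_eq_add_neg, Real.rpow_add (by norm_num), Real.rpow_one]
        congr 2; ring
      have e5 := succ_mul_pow h0 h1 j
      have e6 : 0 < (q : ℝ) ^ (-(5 / 4 : ℝ)) := by positivity
      have e7 : 0 < b ^ j := by positivity
      calc ((j : ℝ) + 1) * (q : ℝ) ^ (-1 - (1 / 8 : ℝ) * j)
          ≤ ((j : ℝ) + 1) * ((q : ℝ) ^ (-(5 / 4 : ℝ)) * (2 * (b ^ j * b ^ j))) := by
            rw [e1, ← e4]; gcongr; exact e2.trans e3
        _ = 2 * (((j : ℝ) + 1) * b ^ j) * (q : ℝ) ^ (-(5 / 4 : ℝ)) * b ^ j := by ring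
        _ ≤ _ := by gcongr
    · simp
  refine (sum_le_sum key).trans ?_
  rw [← mul_sum]
  have := geo_le h0 h1 M (Icc 2 J)
  calc _ ≤ (2 * (1 - b)⁻¹ * (q : ℝ) ^ (-(5 / 4 : ℝ))) * (b ^ M * (1 - b)⁻¹) := by gcongr
    _ = _ := by ring

lemma den_mono (M : ℕ) {h h' : ℤ × ℤ → ℝ} (hh : ∀ u, h u ≤ h' u) : den M h ≤ den M h' :=
  div_le_div_of_nonneg_right (sum_le_sum fun u _ => hh u) (by positivity)

lemma den_zero (M : ℕ) : den M (fun _ => 0) = 0 := by simp [den]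

lemma den_nonneg (M : ℕ) {h : ℤ × ℤ → ℝ} (hh : ∀ u, 0 ≤ h u) : 0 ≤ den M h :=
  (den_zero M).symm.le.trans (den_mono M hh)

lemma mem_prs {T q : ℕ} : q ∈ prs T ↔ q.Prime ∧ q ≤ T := by
  simp only [prs, mem_filter, mem_range, Nat.lt_succ_iff, and_comm]

lemma r_zero {l f : ℕ} (h : ¬ l ∣ f) : padicValNat l f = 0 := padicValNat.eq_zero_of_not_dvd h

theorem core (hP : PackStmt) (hW : WtStmt) (hS : ShiuStmt) (k : Fld)
    (hχ : ∀ q : ℕ, q.Prime → |k.chi q| ≤ 1) (l : ℕ) (hl : l.Prime) (E : ℝ) :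
    ∃ κ b δ₀ ε₀ : ℝ, 0 < κ ∧ 0 < b ∧ b < 1 ∧ 0 < δ₀ ∧ 0 < ε₀ ∧ ∀ δ : ℝ, 0 < δ → δ ≤ δ₀ →
      ∃ C : ℝ, 0 < C ∧ ∀ (P : Par) (T m : ℕ) (γ : (ℤ × ℤ) × (ℤ × ℤ)) (y : ℝ) (b₀ : ℤ × ℤ)
        (A B : ℕ) (S : Finset (ℤ × ℤ)), 1 ≤ m → (∀ q ∈ prs T, P.Ok q ∧ ¬ (q : ℤ) ∣ dt γ) → l ≤ T →
        (l : ℝ) ≤ y ^ δ → ¬ l ∣ P.f₁ * P.f₂ → 1 ≤ y → y ≤ A → y ≤ B →
        (∀ p ∈ S, (∃ u ∈ box b₀ A B, p = app γ u) ∧ (∃ n : ℕ, 0 < n ∧ P.nh k p = n * |P.u| ∧
          ((P.g * n : ℕ) : ℝ) ≤ y ^ E) ∧ (l : ℤ) ^ (2 * m) ∣ P.nh k p ∧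
          (P.E₁ (prs T) p : ℝ) < y ^ δ ∧
          ∏ q ∈ prs T, P.gw k q (P.lev k q p) p ≤ y ^ ε₀) →
        ∑ p ∈ S, ∏ q ∈ prs T, P.wt k q p ≤ C * A * B *
          (Real.exp (∑ q ∈ (prs T \ {l}).filter (fun q : ℕ => (q : ℝ) ≤ y ^ δ),
            ((if q ∣ P.f₁ * P.f₂ then 0 else (k.chi q : ℝ) / q) + κ * (q : ℝ) ^ (-(5 / 4 : ℝ)))) *
            (κ * b ^ m) + y ^ (-ε₀)) := by
  classical
  obtain ⟨κ, hκ, hP⟩ := hP k
  obtain ⟨κ₀, b, hκ₀, hb0, hb1, hg⟩ := geo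
  obtain ⟨Cw, -, hW⟩ := hW k 1 one_pos
  set K : ℝ := 2 * κ + 2 + κ * κ₀ with hK
  have hkk : 0 < κ * κ₀ := by positivity
  have hK1 : 1 ≤ K := by linarith
  have hKK : K ≤ K ^ 2 := by nlinarith
  obtain ⟨δ₀, ε₀, hδ₀, hε₀, hS⟩ := hS K E (1 / 8) 2 hK1 (by norm_num) (by norm_num)
  refine ⟨κ + κ * κ₀, b ^ 2, δ₀, ε₀, by positivity, by positivity, by nlinarith, hδ₀, hε₀,
    fun δ hδ hδ' => ?_⟩
  obtain ⟨C, hS⟩ := hS δ hδ hδ'
  refine ⟨max C 1, by positivity, fun P T m γ y b₀ A B S hm hok hlT hly hlf hy hA hB hSS => ?_⟩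
  have hlP : l ∈ prs T := mem_prs.2 ⟨hl, hlT⟩
  have hf₁ := (hok l hlP).1.2.2.2.1
  have hf₂ := (hok l hlP).1.2.2.2.2
  have hpk := fun q hq => hP P q γ (hok q hq).1 (hok q hq).2
  set x : ℕ → ℝ := fun q => if q ∣ P.f₁ * P.f₂ then 0 else (k.chi q : ℝ) / q with hx
  set Lv : ℕ → ℕ → ℤ × ℤ → Prop := fun q j u => P.Lv k q j (app γ u) with hLv
  set g : ℕ → ℕ → ℤ × ℤ → ℝ := fun q j u =>
    if q = l ∧ j < 2 * m then 0 else P.gw k q j (app γ u) with hgd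
  set ρ : ℕ → ℝ := fun q => den q fun u => if Lv q 1 u then 1 else 0 with hρ
  have hgle : ∀ q ∈ prs T, ∀ j u, 0 ≤ g q j u ∧ g q j u ≤ P.gw k q j (app γ u) := by
    intro q hq j u
    have := (hpk q hq).2.2.2.2.1 j u
    simp only [hgd]
    split_ifs
    exacts [⟨le_rfl, this⟩, ⟨this, le_rfl⟩]
  have hq2 : ∀ q ∈ prs T, (2 : ℝ) ≤ q := fun q hq => by exact_mod_cast (mem_prs.1 hq).1.two_le
  have hpw : ∀ q ∈ prs T, (q : ℝ) ^ (-(5 / 4 : ℝ)) ≤ 1 / q ∧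
      1 / (q : ℝ) ^ 2 ≤ (q : ℝ) ^ (-(5 / 4 : ℝ)) := by
    intro q hq
    have h2 := hq2 q hq
    constructor
    · rw [one_div, ← Real.rpow_neg_one]
      exact Real.rpow_le_rpow_of_exponent_le (by linarith) (by norm_num)
    · rw [one_div, ← Real.rpow_natCast, ← Real.rpow_neg (by linarith)]
      exact Real.rpow_le_rpow_of_exponent_le (by linarith) (by norm_num)
  have hWp : ∀ p ∈ S, (∀ q ∈ prs T, P.Lv k q (P.lev k q p) p ∧ ¬ P.Lv k q (P.lev k q p + 1) p ∧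
      0 ≤ P.wt k q p ∧ P.wt k q p ≤ P.gw k q (P.lev k q p) p ∧
      (P.ci q p = 0 → P.gw k q (P.lev k q p) p ≤ 2 ^ P.lev k q p)) ∧
      ∏ q ∈ prs T, (q : ℝ) ^ P.lev k q p ≤ y ^ E := by
    intro p hp
    obtain ⟨n, hn, hnh, hgn⟩ := (hSS p hp).2.1
    have h := hW P (prs T) p n (fun q hq => (hok q hq).1) hf₁ hf₂ hn hnh
    exact ⟨h.1, le_trans (by exact_mod_cast h.2.1) hgn⟩
  have hlev : ∀ p ∈ S, 2 * m ≤ P.lev k l p := by
    intro p hp
    by_contra hlt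
    refine ((hWp p hp).1 l hlP).2.1 ?_
    have h1 : P.r₁ l = 0 := r_zero fun h => hlf (h.mul_right _)
    have h2 : P.r₂ l = 0 := r_zero fun h => hlf (h.mul_left _)
    simp only [Par.Lv, h1, h2, ne_eq, not_true, if_false, if_true]
    exact (pow_dvd_pow _ (by omega)).trans (hSS p hp).2.2.1
  have hgeq : ∀ p ∈ S, ∀ u, p = app γ u → ∀ q, g q (P.lev k q p) u = P.gw k q (P.lev k q p) p := by
    rintro p hp u rfl q
    simp only [hgd]
    rw [if_neg]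
    rintro ⟨rfl, h⟩
    exact absurd (hlev _ hp) (by omega)
  set Us := (box b₀ A B).filter fun u => app γ u ∈ S with hUs
  have hUS : ∀ u ∈ Us, app γ u ∈ S := fun u hu => (mem_filter.1 hu).2
  have main := hS y b₀ A B (prs T) {l} Us Lv g (fun u q => P.lev k q (app γ u))
    (fun q => ρ q + x q + κ / (q : ℝ) ^ 2)
    (fun q => κ * (κ₀ * b ^ (if q = l then 2 * m else 0) * (q : ℝ) ^ (-(5 / 4 : ℝ))))
    hy hA hB (filter_subset _ _) (fun q hq => (mem_prs.1 hq).1) (by simpa using hlP)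
    (by simpa using hly) (fun q hq => (hpk q hq).1) (fun q hq => (hpk q hq).2.1)
    (fun q hq => (hpk q hq).2.2.1)
    (fun q hq j u v h => by
      have h' : P.gw k q j (app γ u) = P.gw k q j (app γ v) := (hpk q hq).2.2.2.1 j u v h
      simp only [hgd, h'])
    (fun q hq j u => (hgle q hq j u).1)
    (fun q hq u => (hgle q hq 0 u).2.trans ((hpk q hq).2.2.2.2.2.1 u))
    (fun q hq u => ((hgle q hq 1 u).2.trans ((hpk q hq).2.2.2.2.2.2.1 u)).trans (by linarith))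
    (fun q hq => (hpk q hq).2.2.2.2.2.2.2.1.trans
      (div_le_div_of_nonneg_right (by linarith) (by positivity)))
    (fun q hq j hj => ((hpk q hq).2.2.2.2.2.2.2.2.1 j hj).trans
      (mul_le_mul_of_nonneg_right (by linarith) (by positivity)))
    (fun q hq => le_trans (den_mono _ fun u => by
      split_ifs
      exacts [(hgle q hq 1 u).2, le_rfl]) (hpk q hq).2.2.2.2.2.2.2.2.2.1)
    (fun q hq => by
      have h2 := hq2 q hq
      have h3 := hpw q hq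
      have h4 : ρ q ≤ κ / q := (hpk q hq).2.2.2.2.2.2.2.1
      have h5 : x q ≤ 1 / q := by
        simp only [hx]
        split_ifs
        · positivity
        · refine div_le_div_of_nonneg_right ?_ (by positivity)
          exact_mod_cast (abs_le.1 (hχ q (mem_prs.1 hq).1)).2
      have h6 : κ / (q : ℝ) ^ 2 ≤ κ / q :=
        div_le_div_of_nonneg_left (by linarith) (by linarith) (by nlinarith)
      have h7 : K / q ≤ K ^ 2 / q := div_le_div_of_nonneg_right hKK (by positivity)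
      have h8 : K / q = κ / q + κ / q + 1 / q + (1 + κ * κ₀) / q := by rw [hK]; ring
      have h9 : 0 ≤ (1 + κ * κ₀) / q := by positivity
      refine ⟨by linarith, le_trans ?_ h7⟩
      have h10 : b ^ (if q = l then 2 * m else 0) ≤ 1 := pow_le_one₀ hb0.le hb1.le
      calc _ ≤ κ * (κ₀ * 1 * (1 / q)) := by gcongr; exact h3.1
        _ = κ * κ₀ / q := by ring
        _ ≤ K / q := div_le_div_of_nonneg_right (by linarith) (by positivity))
    (fun q hq J => by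
      refine le_trans ?_ (mul_le_mul_of_nonneg_left
        (hg q (if q = l then 2 * m else 0) J (mem_prs.1 hq).1.two_le) (by linarith))
      rw [mul_sum]
      refine sum_le_sum fun j hj => ?_
      by_cases hc : (if q = l then 2 * m else 0) ≤ j
      · rw [if_pos hc, ← mul_assoc]
        refine le_trans (den_mono _ fun u => ?_) ((hpk q hq).2.2.2.2.2.2.2.2.2.2 j (mem_Icc.1 hj).1)
        split_ifs
        exacts [(hgle q hq j u).2, le_rfl]
      · rw [if_neg hc, mul_zero]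
        have h1 : q = l ∧ j < 2 * m := by
          by_cases h : q = l
          · rw [if_pos h] at hc; exact ⟨h, by omega⟩
          · rw [if_neg h] at hc; omega
        refine le_trans (den_mono _ fun u => ?_) (den_zero _).le
        simp only [hgd, if_pos h1, ite_self, le_refl])
    (fun u hu q hq => ⟨Or.inr ((hWp _ (hUS u hu)).1 q hq).1, ((hWp _ (hUS u hu)).1 q hq).2.1⟩)
    (fun u hu q hq => by
      rw [mem_singleton.1 hq]
      exact le_trans (by omega) (hlev _ (hUS u hu)))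
    (fun u hu => (hWp _ (hUS u hu)).2)
    (fun u hu q hq hyq => by
      have hp := hUS u hu
      refine (hgle q hq _ u).2.trans ((((hWp _ hp).1 q hq).2.2.2.2 ?_).trans
        (pow_le_pow_left₀ (by norm_num) (by linarith) _))
      by_contra hne
      have h1 : q ∣ P.E₁ (prs T) (app γ u) :=
        (dvd_pow_self q hne).trans (dvd_prod_of_mem (fun q => q ^ P.ci q (app γ u)) hq)
      have h2 : 0 < P.E₁ (prs T) (app γ u) :=
        prod_pos fun q hq => pow_pos (mem_prs.1 hq).1.pos _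
      have h3 : (q : ℝ) ≤ P.E₁ (prs T) (app γ u) := by exact_mod_cast Nat.le_of_dvd h2 h1
      linarith [(hSS _ hp).2.2.2.1])
    (fun u hu => by
      have hp := hUS u hu
      rw [prod_congr rfl fun q _ => hgeq _ hp u rfl q]
      exact (hSS _ hp).2.2.2.2)
  have hsub : S = Us.image (app γ) := by
    ext p
    rw [mem_image]
    constructor
    · intro hp
      obtain ⟨u, hu, rfl⟩ := (hSS p hp).1
      exact ⟨u, mem_filter.2 ⟨hu, hp⟩, rfl⟩
    · rintro ⟨u, hu, rfl⟩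
      exact hUS u hu
  have h1 : ∑ p ∈ S, ∏ q ∈ prs T, P.wt k q p ≤ ∑ u ∈ Us, ∏ q ∈ prs T, P.wt k q (app γ u) := by
    conv_lhs => rw [hsub]
    exact sum_image_le_of_nonneg fun p hp => prod_nonneg fun q hq =>
      ((hWp p (hsub ▸ hp)).1 q hq).2.2.1
  have h2 : ∑ u ∈ Us, ∏ q ∈ prs T, P.wt k q (app γ u) ≤
      ∑ u ∈ Us, ∏ q ∈ prs T, g q (P.lev k q (app γ u)) u :=
    sum_le_sum fun u hu => prod_le_prod (fun q hq => ((hWp _ (hUS u hu)).1 q hq).2.2.1)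
      fun q hq => by
        rw [hgeq _ (hUS u hu) u rfl q]
        exact ((hWp _ (hUS u hu)).1 q hq).2.2.2.1
  refine (h1.trans h2).trans (main.trans ?_)
  rw [prod_singleton, if_pos rfl]
  have hl2 := hq2 l hlP
  have h3 : κ * (κ₀ * b ^ (2 * m) * (l : ℝ) ^ (-(5 / 4 : ℝ))) ≤ (κ + κ * κ₀) * (b ^ 2) ^ m := by
    have h4 : (l : ℝ) ^ (-(5 / 4 : ℝ)) ≤ 1 :=
      Real.rpow_le_one_of_one_le_of_nonpos (by linarith) (by norm_num)
    rw [← pow_mul]
    calc _ ≤ κ * (κ₀ * b ^ (2 * m) * 1) := by gcongr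
      _ = κ * κ₀ * b ^ (2 * m) := by ring
      _ ≤ _ := by gcongr; linarith
  gcongr with q hq
  · exact le_max_left _ _
  · have hq' := mem_sdiff.1 (mem_filter.1 hq).1
    have h5 := (hpw q hq'.1).2
    have h6 : κ / (q : ℝ) ^ 2 ≤ κ * (q : ℝ) ^ (-(5 / 4 : ℝ)) := by
      rw [div_eq_mul_one_div]; gcongr
    rw [if_neg (by simpa using hq'.2), pow_zero]
    change ρ q + x q + _ + _ - ρ q ≤ x q + _
    linarith

end Pool.Agent.Lib.MP_9177b7_ag.J.Large
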