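import Pool.Agent.Lib.MP_9177b7_ag.J.Large1
import Pool.Agent.Lib.MP_9177b7_ag.J.Coll

/-!
The assembly of the pieces.
-/

noncomputable section

namespace Pool.Agent.Lib.MP_9177b7_ag.J.Large

open Finset Fld

lemma ev (C s : ℝ) (hs : 0 < s) : ∃ f₀ : ℕ, ∀ H : ℝ, f₀ ≤ H → C ≤ H ^ s := by
  obtain ⟨x, hx⟩ := Filter.eventually_atTop.1 ((tendsto_rpow_atTop hs).eventually_ge_atTop C)
  exact ⟨⌈x⌉₊, fun H h => hx H ((Nat.le_ceil x).trans h)⟩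

lemma exists_n {k : Fld} {P : Par} {Pr : Finset ℕ} {W : Submodule ℤ (ℤ × ℤ)} {X : ℝ} {p : ℤ × ℤ}
    (hs : P.Std k Pr W) (hg : P.Good k W X p) :
    ∃ n : ℕ, 0 < n ∧ P.nh k p = n * |P.u| ∧ (n : ℝ) ≤ X := by
  have h1 : |P.u| ∣ P.nh k p :=
    (abs_dvd _ _).2 (dvd_add (hs.2.2.2.2.2.2 _ hg.1) (Dvd.intro_left _ rfl))
  obtain ⟨c, hc⟩ := h1
  have hu : 0 < |P.u| := abs_pos.2 hs.2.2.2.1
  have hc0 : 0 < c := by
    have := hg.2.2.1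
    rw [hc] at this
    exact (pos_iff_pos_of_mul_pos this).1 hu
  lift c to ℕ using hc0.le
  refine ⟨c, by exact_mod_cast hc0, by rw [hc, mul_comm], ?_⟩
  have h2 := hg.2.2.2
  rw [hc] at h2
  push_cast at h2
  have hu' : (0 : ℝ) < |(P.u : ℝ)| := by exact_mod_cast hu
  nlinarith

/-- The estimate for one sign. -/
theorem one_sign (hB : BoxStmt) (hG : GlobStmt) (hP : PackStmt) (hW : WtStmt) (hBig : BigStmt)
    (hE : ExpStmt) (hPsi : PsiStmt) (hS : ShiuStmt) (k : Fld) (l : ℕ) (hl : l.Prime)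
    (R η₀ s : ℝ) (hR : 1 ≤ R) (hη₀ : 0 < η₀) (hs : 0 < s) (hs' : s ≤ 1 / 4) :
    ∃ m f₀ : ℕ, ∀ (F : ℕ+) (f₁ f₂ : ℕ) (a u κ e : ℤ) (W₁ W₂ : Submodule ℤ (ℤ × ℤ)), 0 < f₁ →
      0 < f₂ → f₀ ≤ f₁ * f₂ → f₁ ∣ F → f₂ ∣ F → ¬ l ∣ F → 0 < a → 0 < u → κ ≠ 0 →
      (e = 1 ∨ e = -1) →
      (∀ q : ℕ, q.Prime → q ≤ (f₁ * f₂) ^ 2 + l → ¬ (q : ℤ) ∣ a ∧ ¬ (q : ℤ) ∣ u ∧ ¬ (q : ℤ) ∣ κ) →
      (∀ x ∈ W₁, u ∣ a * nm k x) → (∀ x ∈ W₂, u ∣ a * nm k x) → (∀ x, κ • x ∈ W₁) →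
      (∀ p : ℤ × ℤ, p ≠ 0 → Par.U ⟨f₁, f₂, a, u⟩ p ∈ W₁ →
        (((f₁ * f₂ : ℕ) : ℝ) ^ s) ^ 2 * u * (Nat.gcd f₁ f₂ : ℝ) ^ 2 ≤
          ((a * nm k (Par.U ⟨f₁, f₂, a, u⟩ p) : ℤ) : ℝ) * f₁ * f₂) →
      k.pr F (fun σ => ∃ (p : ℤ × ℤ) (c : Cf k ⟨f₁, f₂, a, e * u⟩ p), c.σ = sg σ ∧ c.V ∈ W₂ ∧
        Par.Good k ⟨f₁, f₂, a, e * u⟩ W₁ (R * f₁ * f₂) p ∧
        (l : ℤ) ^ (2 * m) ∣ Par.nh k ⟨f₁, f₂, a, e * u⟩ p) ≤ η₀ := by
  classical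
  obtain ⟨hχ, -, hφ, hφ'⟩ := hPsi k
  obtain ⟨CB, hCB, hB⟩ := hB k R hR
  obtain ⟨CG, hCG, hG⟩ := hG k
  obtain ⟨κ₂, b, δ₀, ε₀, hκ₂, hb0, hb1, hδ₀, hε₀, hc⟩ := core hP hW hS k hχ l hl (3 / s)
  set δ := min δ₀ (min (ε₀ / 4) 1) with hδd
  have hδ : 0 < δ := by positivity
  have hδ1 : δ ≤ ε₀ / 4 := (min_le_right _ _).trans (min_le_left _ _)
  have hδ2 : δ ≤ 1 := (min_le_right _ _).trans (min_le_right _ _)
  obtain ⟨CS, hCS, hc⟩ := hc δ hδ (min_le_left _ _)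
  obtain ⟨CE, hCE, hE⟩ := hE k κ₂ (s * δ) hκ₂.le (by positivity)
  obtain ⟨CW, hCW, hW⟩ := hW k (s * ε₀ / 12) (by positivity)
  obtain ⟨C₄, hC₄, hBig⟩ := hBig k R (s * δ / 8) hR (by positivity)
  obtain ⟨C₅, hφ₅⟩ := hφ' (s * δ / 8) (by positivity)
  obtain ⟨C₆, hφ₆⟩ := hφ' (s * ε₀ / 2) (by positivity)
  obtain ⟨m₀, hm₀⟩ := exists_pow_lt_of_lt_one
    (show 0 < η₀ / 3 / (CG * CS * CB * CE * κ₂) by positivity) hb1
  obtain ⟨g₁, hg₁⟩ := ev l (s * δ) (by positivity)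
  obtain ⟨g₂, hg₂⟩ := ev R 1 one_pos
  obtain ⟨g₃, hg₃⟩ := ev CW (s * ε₀ / 4) (by positivity)
  obtain ⟨g₄, hg₄⟩ := ev (CG * C₄ * C₅ / (η₀ / 3)) (s * δ / 4) (by positivity)
  obtain ⟨g₅, hg₅⟩ := ev (CG * CS * CB * C₆ / (η₀ / 3)) (s * ε₀ / 2) (by positivity)
  refine ⟨m₀ + 1, g₁ + g₂ + g₃ + g₄ + g₅, fun F f₁ f₂ a u κ e W₁ W₂ hf₁ hf₂ hf₀ hF₁ hF₂ hlF ha hu
    hκ he hq hW₁ hW₂ hκW hiso => ?_⟩
  set m := m₀ + 1 with hm
  set T := (f₁ * f₂) ^ 2 + l with hT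
  set H : ℝ := ((f₁ * f₂ : ℕ) : ℝ) with hH
  have hHn : 1 ≤ f₁ * f₂ := Nat.mul_pos hf₁ hf₂
  have hH1 : 1 ≤ H := by rw [hH]; exact_mod_cast hHn
  have hH0 : 0 < H := by linarith
  have hHe : H = (f₁ : ℝ) * f₂ := by rw [hH]; push_cast; ring
  replace hg₁ := hg₁ H (by rw [hH]; exact_mod_cast (by omega))
  replace hg₂ := hg₂ H (by rw [hH]; exact_mod_cast (by omega))
  replace hg₃ := hg₃ H (by rw [hH]; exact_mod_cast (by omega))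
  replace hg₄ := hg₄ H (by rw [hH]; exact_mod_cast (by omega))
  replace hg₅ := hg₅ H (by rw [hH]; exact_mod_cast (by omega))
  rw [Real.rpow_one] at hg₂
  set y := H ^ s with hy
  have hyp : ∀ t : ℝ, y ^ t = H ^ (s * t) := fun t => by rw [hy, ← Real.rpow_mul hH0.le]
  have hy1 : 1 ≤ y := Real.one_le_rpow hH1 hs.le
  set P : Par := ⟨f₁, f₂, a, e * u⟩ with hPd
  set h : ℕ := Nat.lcm f₁ f₂ with hh
  have hh0 : 0 < h := Nat.lcm_pos hf₁ hf₂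
  have hh0' : (0 : ℝ) < h := by exact_mod_cast hh0
  have hhH : (h : ℝ) ≤ H := by
    rw [hH]; exact_mod_cast Nat.le_of_dvd hHn (Nat.lcm_dvd_mul _ _)
  have hHh : H ≤ (h : ℝ) ^ 2 := by
    rw [hH, sq]
    exact_mod_cast Nat.mul_le_mul (Nat.le_of_dvd hh0 (Nat.dvd_lcm_left _ _))
      (Nat.le_of_dvd hh0 (Nat.dvd_lcm_right _ _))
  have hgH : Nat.gcd f₁ f₂ ≤ f₁ * f₂ :=
    Nat.le_of_dvd hHn ((Nat.gcd_dvd_left _ _).mul_right _)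
  have hHT : f₁ * f₂ ≤ T := (Nat.le_self_pow two_ne_zero _).trans (Nat.le_add_right _ _)
  have hy2 : y ^ 2 ≤ h := by
    refine le_of_pow_le_pow_left₀ two_ne_zero hh0'.le (le_trans ?_ hHh)
    rw [← pow_mul, ← Real.rpow_natCast, hyp]
    conv_rhs => rw [← Real.rpow_one H]
    exact Real.rpow_le_rpow_of_exponent_le hH1 (by push_cast; linarith)
  have habs : |e * u| = u := by rcases he with rfl | rfl <;> simp [abs_of_pos hu]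
  have habs' : |((e * u : ℤ) : ℝ)| = u := by exact_mod_cast habs
  have hdv : ∀ z : ℤ, e * u ∣ z ↔ u ∣ z := fun z => by rw [← abs_dvd, habs]
  have hok : ∀ q ∈ prs T, P.Ok q := fun q hq' => by
    obtain ⟨h1, h2⟩ := mem_prs.1 hq'
    refine ⟨h1, (hq q h1 h2).1, fun h => (hq q h1 h2).2.1 ?_, hf₁, hf₂⟩
    rw [← habs]
    exact (dvd_abs _ _).2 h
  have hstd : ∀ W : Submodule ℤ (ℤ × ℤ), (∀ x ∈ W, u ∣ a * nm k x) → P.Std k (prs T) W :=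
    fun W hW => ⟨hf₁, hf₂, ha, fun h => by
      have : e * u = 0 := h
      rw [this, abs_zero] at habs; omega, hok,
      fun q h1 h2 => mem_prs.2 ⟨h1, (Nat.le_of_dvd hHn h2).trans hHT⟩,
      fun x hx => (hdv _).2 (hW x hx)⟩
  have hcop : IsCoprime u (Nat.gcd f₁ f₂ : ℤ) := by
    rw [Int.isCoprime_iff_gcd_eq_one]
    by_contra hne
    obtain ⟨q, hq1, hq2⟩ := Nat.exists_prime_and_dvd hne
    have h1 : (q : ℤ) ∣ u := (Int.natCast_dvd_natCast.2 hq2).trans (Int.gcd_dvd_left _ _)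
    have h2 : (q : ℤ) ∣ (Nat.gcd f₁ f₂ : ℤ) :=
      (Int.natCast_dvd_natCast.2 hq2).trans (Int.gcd_dvd_right _ _)
    exact (hq q hq1 (((Nat.le_of_dvd (Nat.gcd_pos_of_pos_left _ hf₁)
      (Int.natCast_dvd_natCast.1 h2)).trans hgH).trans hHT)).2.1 h1
  obtain ⟨γ, b₀, A, B, hγ, hA, hB', hAB, hbox⟩ :=
    hB ⟨f₁, f₂, a, u⟩ W₁ κ y hf₁ hf₂ ha hu hκ hW₁ hcop hκW hy1 hy2 hiso
  have hlf : ¬ l ∣ f₁ * f₂ := fun h =>
    ((Nat.Prime.dvd_mul hl).1 h).elim (fun h => hlF (h.trans hF₁)) fun h => hlF (h.trans hF₂)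
  set S := ((box b₀ A B).image (app γ)).filter fun p => P.Good k W₁ (R * f₁ * f₂) p ∧
    (l : ℤ) ^ (2 * m) ∣ P.nh k p with hSd
  have hRH : R * f₁ * f₂ ≤ H ^ 2 := by
    rw [mul_assoc, ← hHe, sq]; exact mul_le_mul_of_nonneg_right hg₂ hH0.le
  have hn : ∀ p ∈ S, ∃ n : ℕ, 0 < n ∧ P.nh k p = n * |P.u| ∧ (n : ℝ) ≤ H ^ 2 := fun p hp => by
    obtain ⟨n, h1, h2, h3⟩ := exists_n (hstd W₁ hW₁) (mem_filter.1 hp).2.1
    exact ⟨n, h1, h2, h3.trans hRH⟩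
  have hψ : 0 < k.psi h := lt_of_lt_of_le (by exact_mod_cast Nat.totient_pos.2 hh0) (hφ h)
  have step1 : k.pr F (fun σ => ∃ (p : ℤ × ℤ) (c : Cf k P p), c.σ = sg σ ∧ c.V ∈ W₂ ∧
      P.Good k W₁ (R * f₁ * f₂) p ∧ (l : ℤ) ^ (2 * m) ∣ P.nh k p) ≤
      CG * (∑ p ∈ S, ∏ q ∈ prs T, P.wt k q p) / k.psi h := by
    refine (Coll.pr_mono (Q := fun σ => ∃ p ∈ S, ∃ c : Cf k P p, c.σ = sg σ ∧ c.V ∈ W₂) ?_).trans
      ((Coll.pr_exists _ _).trans ?_)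
    · rintro σ ⟨p, c, h1, h2, h3, h4⟩
      obtain ⟨v, hv, rfl⟩ := hbox p h3.1 (by have := h3.2.1; rwa [show |((P.u : ℤ) : ℝ)| = u from habs'] at this)
      exact ⟨_, mem_filter.2 ⟨mem_image_of_mem _ hv, h3, h4⟩, c, h1, h2⟩
    · rw [mul_sum, sum_div]
      refine sum_le_sum fun p hp => hG F P (prs T) W₂ p (hstd W₂ hW₂) hF₁ hF₂
        (mem_filter.1 hp).2.1.2.2.1.ne' fun q h1 h2 => mem_prs.2 ⟨h1, ?_⟩
      obtain ⟨n, hn0, hn1, hn2⟩ := hn p hp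
      have hu0 : |P.u| ≠ 0 := abs_ne_zero.2 (hstd W₁ hW₁).2.2.2.1
      have h3 : (q : ℤ) * |P.u| ∣ n * |P.u| := by
        rw [← hn1, ← Nat.abs_cast (R := ℤ) q, ← abs_mul, abs_dvd]; exact h2
      have h4 := Nat.le_of_dvd hn0 (Int.natCast_dvd_natCast.1 ((mul_dvd_mul_iff_right hu0).1 h3))
      have h5 : n ≤ (f₁ * f₂) ^ 2 := by rw [hH] at hn2; exact_mod_cast hn2
      omega
  refine step1.trans ?_
  have hz : y ^ δ = H ^ (s * δ) := hyp δ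
  have hz0 : 0 < y ^ δ := by positivity
  rw [← sum_filter_add_sum_filter_not S fun p => y ^ δ ≤ P.E₁ (prs T) p]
  have big : ∑ p ∈ S.filter (fun p => y ^ δ ≤ P.E₁ (prs T) p), ∏ q ∈ prs T, P.wt k q p ≤
      C₄ * H ^ (s * δ / 8) * h / √(y ^ δ) :=
    hBig P (prs T) W₁ _ (y ^ δ) (hstd W₁ hW₁) hz0 fun p hp =>
      ⟨(mem_filter.1 (mem_filter.1 hp).1).2.1, (mem_filter.1 hp).2⟩
  have hgn : ∀ n : ℕ, (n : ℝ) ≤ H ^ 2 → ((P.g * n : ℕ) : ℝ) ≤ H ^ (3 : ℝ) := fun n hn => by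
    have h1 : (P.g : ℝ) ≤ H := by rw [hH]; exact_mod_cast hgH
    rw [show (3 : ℝ) = (3 : ℕ) by norm_num, Real.rpow_natCast]
    push_cast
    calc (P.g : ℝ) * n ≤ H * H ^ 2 := by gcongr
      _ = _ := by ring
  have small := hc P T m γ y b₀ A B (S.filter fun p => ¬ y ^ δ ≤ P.E₁ (prs T) p) (by omega)
    (fun q hq' => ⟨hok q hq', fun hd => (hq q (mem_prs.1 hq').1 (mem_prs.1 hq').2).2.2
      ((Nat.prime_iff_prime_int.1 (mem_prs.1 hq').1).dvd_of_dvd_pow (hd.trans hγ))⟩)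
    (by omega) (by rw [hz]; exact hg₁) hlf hy1 hA hB' (fun p hp => by
      obtain ⟨hp, hlt⟩ := mem_filter.1 hp
      obtain ⟨n, hn0, hn1, hn2⟩ := hn p hp
      obtain ⟨hp1, -, hp2⟩ := mem_filter.1 hp
      obtain ⟨v, hv, hv'⟩ := mem_image.1 hp1
      have h3 := hgn n hn2
      refine ⟨⟨v, hv, hv'.symm⟩, ⟨n, hn0, hn1, ?_⟩, hp2, not_le.1 hlt, ?_⟩
      · rwa [hyp, mul_div_cancel₀ _ hs.ne']
      · refine (hW P (prs T) p n hok hf₁ hf₂ hn0 hn1).2.2.2.2.2.trans ?_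
        calc _ ≤ H ^ (s * ε₀ / 4) * (H ^ (3 : ℝ)) ^ (s * ε₀ / 12) * (y ^ δ) ^ 2 := by
              gcongr
              exact (not_le.1 hlt).le
          _ = H ^ (s * ε₀ / 4 + 3 * (s * ε₀ / 12) + s * δ * 2) := by
              rw [hz, ← Real.rpow_natCast, ← Real.rpow_mul hH0.le, ← Real.rpow_mul hH0.le,
                ← Real.rpow_add hH0, ← Real.rpow_add hH0]
              norm_num
          _ ≤ _ := by
              rw [hyp]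
              exact Real.rpow_le_rpow_of_exponent_le hH1
                (by linarith only [mul_le_mul_of_nonneg_left hδ1 hs.le]))
  have hex := hE f₁ f₂ T l (y ^ δ) hf₁ hf₂ hz.ge (by
    rw [hz]
    refine le_trans ?_ (show H ≤ T by rw [hH]; exact_mod_cast hHT)
    conv_rhs => rw [← Real.rpow_one H]
    exact Real.rpow_le_rpow_of_exponent_le hH1
      (by linarith only [mul_le_mul_of_nonneg_left hδ2 hs.le, hs'])) hl hlf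
  set X := Real.exp (∑ q ∈ (prs T \ {l}).filter (fun q : ℕ => (q : ℝ) ≤ y ^ δ),
    ((if q ∣ f₁ * f₂ then 0 else (k.chi q : ℝ) / q) + κ₂ * (q : ℝ) ^ (-(5 / 4 : ℝ)))) with hX
  have hX0 : 0 < X := Real.exp_pos _
  have hAB' : (A : ℝ) * B ≤ CB * h := hAB
  have small' : ∑ p ∈ S.filter (fun p => ¬ y ^ δ ≤ P.E₁ (prs T) p), ∏ q ∈ prs T, P.wt k q p ≤
      CS * (CB * h) * (X * (κ₂ * b ^ m) + y ^ (-ε₀)) := by
    refine small.trans ?_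
    rw [mul_assoc CS]
    gcongr
  have hrat : ∀ {C t : ℝ}, 0 < t → (∀ c : ℕ, 0 < c → (c : ℝ) ≤ C * (c : ℝ) ^ t * Nat.totient c) →
      (h : ℝ) ≤ C * H ^ t * k.psi h := by
    intro C t ht hC
    have h1 := hC h hh0
    have h2 : 0 ≤ C := by
      by_contra hneg
      have : C * (h : ℝ) ^ t * Nat.totient h ≤ 0 :=
        mul_nonpos_of_nonpos_of_nonneg (mul_nonpos_of_nonpos_of_nonneg (by linarith)
          (by positivity)) (by positivity)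
      linarith
    refine h1.trans ?_
    gcongr
    exact hφ h
  have h5 := hrat (by positivity) hφ₅
  have h6 := hrat (by positivity) hφ₆
  rw [div_le_iff₀ hψ]
  have t1 : CG * (C₄ * H ^ (s * δ / 8) * h / √(y ^ δ)) ≤ η₀ / 3 * k.psi h := by
    have e1 : √(y ^ δ) = H ^ (s * δ / 4) * (H ^ (s * δ / 8) * H ^ (s * δ / 8)) := by
      rw [hz, Real.sqrt_eq_rpow, ← Real.rpow_mul hH0.le, ← Real.rpow_add hH0, ← Real.rpow_add hH0]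
      congr 1; ring
    rw [div_le_iff₀ (by positivity)] at hg₄
    rw [← mul_div_assoc, div_le_iff₀ (by positivity), e1]
    calc _ ≤ CG * (C₄ * H ^ (s * δ / 8) * (C₅ * H ^ (s * δ / 8) * k.psi h)) := by gcongr
      _ = CG * C₄ * C₅ * (H ^ (s * δ / 8) * H ^ (s * δ / 8) * k.psi h) := by ring
      _ ≤ H ^ (s * δ / 4) * (η₀ / 3) * (H ^ (s * δ / 8) * H ^ (s * δ / 8) * k.psi h) := by gcongr
      _ = _ := by ring
  have t2 : CG * (CS * (CB * h) * (X * (κ₂ * b ^ m))) ≤ η₀ / 3 * k.psi h := by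
    have e1 : b ^ m ≤ b ^ m₀ := pow_le_pow_of_le_one hb0.le hb1.le (by omega)
    rw [lt_div_iff₀ (by positivity)] at hm₀
    calc _ = CG * CS * CB * κ₂ * b ^ m * (X * h) := by ring
      _ ≤ CG * CS * CB * κ₂ * b ^ m₀ * (CE * k.psi h) := by gcongr
      _ = b ^ m₀ * (CG * CS * CB * CE * κ₂) * k.psi h := by ring
      _ ≤ _ := by gcongr
  have t3 : CG * (CS * (CB * h) * y ^ (-ε₀)) ≤ η₀ / 3 * k.psi h := by
    have e1 : H ^ (s * ε₀ / 2) * H ^ (s * ε₀ / 2) * y ^ (-ε₀) = 1 := by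
      rw [hyp, ← Real.rpow_add hH0, ← Real.rpow_add hH0, ← Real.rpow_zero H]
      congr 1; ring
    rw [div_le_iff₀ (by positivity)] at hg₅
    calc _ ≤ CG * (CS * (CB * (C₆ * H ^ (s * ε₀ / 2) * k.psi h)) * y ^ (-ε₀)) := by gcongr
      _ = CG * CS * CB * C₆ * (H ^ (s * ε₀ / 2) * y ^ (-ε₀) * k.psi h) := by ring
      _ ≤ H ^ (s * ε₀ / 2) * (η₀ / 3) * (H ^ (s * ε₀ / 2) * y ^ (-ε₀) * k.psi h) := by gcongr
      _ = η₀ / 3 * (H ^ (s * ε₀ / 2) * H ^ (s * ε₀ / 2) * y ^ (-ε₀)) * k.psi h := by ring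
      _ = _ := by rw [e1, mul_one]
  have t4 := mul_le_mul_of_nonneg_left (add_le_add big small') hCG.le
  refine t4.trans ?_
  linarith only [t1, t2, t3]

theorem main (hR : RedStmt) (hB : BoxStmt) (hG : GlobStmt) (hP : PackStmt) (hW : WtStmt)
    (hBig : BigStmt) (hE : ExpStmt) (hPsi : PsiStmt) (hS : ShiuStmt) : LargeStmt := by
  intro k l hl r hr _ R η₀ η hη₀ hη
  have hη' : 0 < min η 1 := by positivity
  obtain ⟨m, f₀, h⟩ := one_sign hB hG hP hW hBig hE hPsi hS k l hl.out (max 1 (|(k.D : ℝ)| * R))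
    (η₀ / 2) (min η 1 / 6) (le_max_left _ _) (by positivity) (by positivity)
    (by linarith [min_le_right η 1])
  refine ⟨m, f₀, fun F L₁ L₂ c₁ c₂ f₁ hlF h1 h2 h3 h4 h5 h6 h7 hf hiso => ?_⟩
  obtain ⟨f₂, hf₁, hf₂, hF₁, hF₂, hR⟩ :=
    hR k l r hr R ((f₁ : ℝ) ^ η) m F L₁ L₂ c₁ c₂ f₁ hlF h1 h2 h3 h4 h5 h6 h7 hiso
  obtain ⟨a, u, κ, W₁, W₂, ha, hu, hκ, hq, hW₁, hW₂, hκW, hi, hev⟩ :=
    hR ((f₁ * f₂) ^ 2 + l) (by omega)
  have h1f : (1 : ℝ) ≤ f₁ := by exact_mod_cast hf₁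
  have h2f : (1 : ℝ) ≤ f₂ := by exact_mod_cast hf₂
  have hu' : (0 : ℝ) < u := by exact_mod_cast hu
  have key := fun e he => h F f₁ f₂ a u κ e W₁ W₂ hf₁ hf₂
    (hf.trans (Nat.le_mul_of_pos_right _ hf₂)) hF₁ hF₂ hlF ha hu hκ he hq hW₁ hW₂ hκW
    (fun p hp hpW => by
      have hH : (1 : ℝ) ≤ f₁ * f₂ := by nlinarith
      have e1 : (((f₁ * f₂ : ℕ) : ℝ) ^ (min η 1 / 6)) ^ 2 = ((f₁ : ℝ) * f₂) ^ (min η 1 / 3) := by
        push_cast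
        rw [← Real.rpow_natCast, ← Real.rpow_mul (by positivity)]
        congr 1; push_cast; ring
      rw [e1]
      by_cases hc : (f₂ : ℝ) ≤ f₁ ^ 2
      · refine le_trans ?_ (hi p hp hpW).le
        have e2 : ((f₁ : ℝ) * f₂) ^ (min η 1 / 3) ≤ (f₁ : ℝ) ^ η :=
          calc _ ≤ ((f₁ : ℝ) ^ (3 : ℝ)) ^ (min η 1 / 3) := by
                refine Real.rpow_le_rpow (by positivity) ?_ (by positivity)
                rw [show (3 : ℝ) = (3 : ℕ) by norm_num, Real.rpow_natCast]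
                nlinarith
            _ = (f₁ : ℝ) ^ min η 1 := by
                rw [← Real.rpow_mul (by positivity)]; congr 1; ring
            _ ≤ _ := Real.rpow_le_rpow_of_exponent_le h1f (min_le_left _ _)
        gcongr
      · have hU : Par.U ⟨f₁, f₂, a, u⟩ p ≠ 0 := fun h0 => hp (by
          have hg : ((Par.g ⟨f₁, f₂, a, u⟩ : ℕ) : ℤ) ≠ 0 := by
            exact_mod_cast (Nat.gcd_pos_of_pos_left f₂ hf₁).ne'
          have h1 : p.1 = 0 := (Prod.ext_iff.1 h0).1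
          have h2 : ((Par.g ⟨f₁, f₂, a, u⟩ : ℕ) : ℤ) * p.2 = 0 := (Prod.ext_iff.1 h0).2
          exact Prod.ext h1 ((mul_eq_zero.1 h2).resolve_left hg))
        have e3 : (u : ℝ) ≤ ((a * nm k (Par.U ⟨f₁, f₂, a, u⟩ p) : ℤ) : ℝ) := by
          exact_mod_cast Int.le_of_dvd (mul_pos ha (nm_pos k hU)) (hW₁ _ hpW)
        have e4 : (Nat.gcd f₁ f₂ : ℝ) ≤ f₁ := by exact_mod_cast Nat.gcd_le_left f₂ hf₁
        have e5 : ((f₁ : ℝ) * f₂) ^ (min η 1 / 3) ≤ ((f₁ : ℝ) * f₂) ^ (1 / 3 : ℝ) :=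
          Real.rpow_le_rpow_of_exponent_le hH (by linarith [min_le_right η 1])
        have e6 : ((f₁ : ℝ) * f₂) ^ (1 / 3 : ℝ) * f₁ ≤ f₂ := by
          refine le_of_pow_le_pow_left₀ (n := 3) (by norm_num) (by positivity) ?_
          rw [mul_pow, ← Real.rpow_natCast, ← Real.rpow_mul (by positivity)]
          norm_num
          have : (f₁ : ℝ) ^ 2 * f₁ ^ 2 ≤ f₂ * f₂ := by
            have := (not_le.1 hc).le
            gcongr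
          nlinarith
        calc _ ≤ ((f₁ : ℝ) * f₂) ^ (1 / 3 : ℝ) * u * (f₁ : ℝ) ^ 2 := by gcongr
          _ = u * f₁ * (((f₁ : ℝ) * f₂) ^ (1 / 3 : ℝ) * f₁) := by ring
          _ ≤ u * f₁ * f₂ := by gcongr
          _ ≤ _ := by gcongr)
  refine le_trans (Coll.pr_mono fun s hs => ?_)
    ((Coll.pr_or _ _).trans ((add_le_add (key 1 (Or.inl rfl)) (key (-1) (Or.inr rfl))).trans
      (by linarith)))
  obtain ⟨e, he, p, c, hc1, hc2, hc3, hc4⟩ := hev s hs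
  have hX : |(k.D : ℝ)| * R * f₁ * f₂ ≤ max 1 (|(k.D : ℝ)| * R) * f₁ * f₂ := by
    gcongr; exact le_max_right _ _
  have hgood : Par.Good k ⟨f₁, f₂, a, e * u⟩ W₁ (max 1 (|(k.D : ℝ)| * R) * f₁ * f₂) p :=
    ⟨hc3.1, hc3.2.1.trans (mul_le_mul_of_nonneg_right hX (abs_nonneg _)), hc3.2.2.1,
      hc3.2.2.2.trans (mul_le_mul_of_nonneg_right hX (abs_nonneg _))⟩
  rcases he with rfl | rfl
  exacts [Or.inl ⟨p, c, hc1, hc2, hgood, hc4⟩, Or.inr ⟨p, c, hc1, hc2, hgood, hc4⟩]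

end Pool.Agent.Lib.MP_9177b7_ag.J.Large
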