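import Pool.Agent.Lib.MP_9177b7_ag.J.DefsA

/-!
Integer model for the exclusion of graph components when all isogenies have large degree:
definitions and the statements of the pieces.
-/

noncomputable section

namespace Pool.Agent.Lib.MP_9177b7_ag.J.Large

open Fld Pointwise

/-- The norm of `v.1 + v.2 ω`. -/
def nm (k : Fld) (v : ℤ × ℤ) : ℤ := v.1 ^ 2 + k.t * v.1 * v.2 + k.n * v.2 ^ 2

/-- The product of `v` with the conjugate of `w`. -/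
def mc (k : Fld) (v w : ℤ × ℤ) : ℤ × ℤ :=
  (v.1 * w.1 + k.t * v.1 * w.2 + k.n * v.2 * w.2, v.2 * w.1 - v.1 * w.2)

/-- The coordinates of the lift of a residue class. -/
def sg {k : Fld} {F : ℕ+} (s : k.SF F) : ℤ × ℤ := ((s.val.re.val : ℤ), (s.val.im.val : ℤ))

/-- The point with coordinates `u` in the basis `γ`. -/
def app (γ : (ℤ × ℤ) × (ℤ × ℤ)) (u : ℤ × ℤ) : ℤ × ℤ :=
  (u.1 * γ.1.1 + u.2 * γ.2.1, u.1 * γ.1.2 + u.2 * γ.2.2)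

/-- The determinant of the basis `γ`. -/
def dt (γ : (ℤ × ℤ) × (ℤ × ℤ)) : ℤ := γ.1.1 * γ.2.2 - γ.1.2 * γ.2.1

/-- The primes up to `T`. -/
def prs (T : ℕ) : Finset ℕ := (Finset.range (T + 1)).filter Nat.Prime

/-- Two conductors and two scaling parameters. -/
structure Par where
  f₁ : ℕ
  f₂ : ℕ
  a : ℤ
  u : ℤ

namespace Par

variable (k : Fld) (P : Par)

/-- The greatest common divisor of the conductors. -/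
def g : ℕ := Nat.gcd P.f₁ P.f₂

/-- The least common multiple of the conductors. -/
def h : ℕ := Nat.lcm P.f₁ P.f₂

/-- The element of the order of conductor `g` with coordinates `p`. -/
def U (p : ℤ × ℤ) : ℤ × ℤ := (p.1, P.g * p.2)

/-- The norm of the antilinear part, as a function of the linear part. -/
def nh (p : ℤ × ℤ) : ℤ := P.a * nm k (P.U p) + k.D * P.f₁ * P.f₂ * P.u

/-- The exponent of `q` in the first conductor. -/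
def r₁ (q : ℕ) : ℕ := padicValNat q P.f₁

/-- The exponent of `q` in the second conductor. -/
def r₂ (q : ℕ) : ℕ := padicValNat q P.f₂

/-- The exponent of `q` in `nh p`. -/
def v (q : ℕ) (p : ℤ × ℤ) : ℕ := padicValInt q (P.nh k p)

/-- `q` is a prime which does not divide the scaling parameters. -/
def Ok (q : ℕ) : Prop := q.Prime ∧ ¬ (q : ℤ) ∣ P.a ∧ ¬ (q : ℤ) ∣ P.u ∧ 0 < P.f₁ ∧ 0 < P.f₂

/-- The number of roots modulo `q ^ i` of a quadratic congruence (written without division by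
`q ^ (2 r)`). -/
def NS (q i : ℕ) (b : ℤ) : ℕ :=
  ((Finset.range (q ^ i)).filter fun W : ℕ => (q : ℤ) ^ (i + 2 * P.r₁ q) ∣
    P.a * (P.g * b - (q : ℤ) ^ P.r₁ q * W) * ((q : ℤ) ^ P.r₁ q * W) - P.u * P.f₁ * P.f₂).card

open Classical in
/-- First content exponent. -/
def ci (q : ℕ) (p : ℤ × ℤ) : ℕ :=
  if P.r₁ q = P.r₂ q then Nat.findGreatest (fun j => (q : ℤ) ^ j ∣ p.1) (P.r₁ q) else 0

/-- `U p / q ^ r` is an integer multiple of `2 ω - t` modulo `q ^ j`. -/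
def J2 (q : ℕ) (p : ℤ × ℤ) (j : ℕ) : Prop :=
  (∃ c : ℤ, (q : ℤ) ^ (P.r₁ q + j) ∣ p.1 + k.t * c * (q : ℤ) ^ P.r₁ q ∧
    (q : ℤ) ^ (P.r₁ q + j) ∣ P.g * p.2 - 2 * c * (q : ℤ) ^ P.r₁ q) ∧
  (q : ℤ) ^ (2 * P.r₁ q + 2 * j) ∣ P.nh k p

open Classical in
/-- Second content exponent. -/
def cj (q : ℕ) (p : ℤ × ℤ) : ℕ :=
  if P.r₁ q = P.r₂ q then Nat.findGreatest (P.J2 k q p) (P.r₁ q) else 0

/-- First content. -/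
def E₁ (Pr : Finset ℕ) (p : ℤ × ℤ) : ℕ := ∏ q ∈ Pr, q ^ P.ci q p

/-- Second content. -/
def E₂ (Pr : Finset ℕ) (p : ℤ × ℤ) : ℕ := ∏ q ∈ Pr, q ^ P.cj k q p

end Par

/-- The weight at a prime which does not divide the conductors. -/
def gb (k : Fld) (q j : ℕ) : ℝ := if j = 0 then 1 else if j = 1 then 1 + (k.chi q : ℝ) else j + 2

namespace Par

variable (k : Fld) (P : Par)

/-- The local weight of `p`. -/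
def wt (q : ℕ) (p : ℤ × ℤ) : ℝ :=
  if P.r₁ q ≠ P.r₂ q then 1 else if P.r₁ q = 0 then gb k q (P.v k q p) else
    (P.NS q (P.ci q p) p.2 : ℝ) * if P.cj k q p = 0 then 1 else
      1 + 4 * ((P.v k q p - 2 * P.r₁ q : ℕ) : ℝ) * (q : ℝ) ^ P.cj k q p

/-- The level of `p` at `q` is at least `j`. -/
def Lv (q j : ℕ) (p : ℤ × ℤ) : Prop :=
  if P.r₁ q ≠ P.r₂ q then j = 0 else if P.r₁ q = 0 then (q : ℤ) ^ j ∣ P.nh k p else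
    (q : ℤ) ^ min j (P.r₁ q) ∣ p.1 ∧ (P.r₁ q < j → (q : ℤ) ^ (j + P.r₁ q + 1) ∣ P.nh k p)

/-- The weight of a point of level `j`. -/
def gw (q j : ℕ) (p : ℤ × ℤ) : ℝ :=
  if P.r₁ q ≠ P.r₂ q then 1 else if P.r₁ q = 0 then gb k q j else
    (P.NS q (min j (P.r₁ q)) p.2 : ℝ) * if j ≤ P.r₁ q then 1 else
      1 + 4 * ((j - P.r₁ q + 1 : ℕ) : ℝ) * (q : ℝ) ^ min ((j - P.r₁ q + 1) / 2) (P.r₁ q)

/-- The level of `p` at `q`. -/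
def lev (q : ℕ) (p : ℤ × ℤ) : ℕ :=
  if P.r₁ q ≠ P.r₂ q then 0 else if P.r₁ q = 0 then P.v k q p else
    if P.ci q p < P.r₁ q then P.ci q p else
      if P.v k q p ≤ 2 * P.r₁ q + 1 then P.r₁ q else P.v k q p - P.r₁ q - 1

/-- The points which are counted. -/
def Good (W : Submodule ℤ (ℤ × ℤ)) (X : ℝ) (p : ℤ × ℤ) : Prop :=
  P.U p ∈ W ∧ ((P.a * nm k (P.U p) : ℤ) : ℝ) ≤ X * |(P.u : ℝ)| ∧ 0 < P.nh k p ∧
    ((P.nh k p : ℤ) : ℝ) ≤ X * |(P.u : ℝ)|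

/-- Standing hypotheses on the parameters, a set of primes and a group of points. -/
def Std (Pr : Finset ℕ) (W : Submodule ℤ (ℤ × ℤ)) : Prop :=
  0 < P.f₁ ∧ 0 < P.f₂ ∧ 0 < P.a ∧ P.u ≠ 0 ∧ (∀ q ∈ Pr, P.Ok q) ∧
    (∀ q : ℕ, q.Prime → q ∣ P.f₁ * P.f₂ → q ∈ Pr) ∧ ∀ x ∈ W, P.u ∣ P.a * nm k x

end Par

/-- A configuration: `σ` is the lift of a unit, `P.U p` and `V` are the linear and the antilinear
part of a map, `x, y, z, w` its matrix. -/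
structure Cf (k : Fld) (P : Par) (p : ℤ × ℤ) where
  σ : ℤ × ℤ
  V : ℤ × ℤ
  x : ℤ
  y : ℤ
  z : ℤ
  w : ℤ
  cop : IsCoprime (nm k σ) ((P.f₁ : ℤ) * P.f₂)
  e₁ : nm k σ * p.1 = y - P.f₁ * k.t * x - P.f₁ * P.f₂ * k.n * z
  e₂ : nm k σ * (P.g * p.2) = P.f₁ * x + P.f₂ * w
  e₃ : mc k (mc k V σ) σ =
    (-y - P.f₁ * P.f₂ * k.n * z, P.f₁ * x - P.f₂ * w + P.f₁ * P.f₂ * k.t * z)
  e₄ : P.a * (x * w - y * z) = nm k σ ^ 2 * P.u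
  e₅ : P.a * nm k V = P.nh k p

/-- Reduction of the event to the integer model. -/
def RedStmt : Prop :=
  ∀ (k : Fld) (l : ℕ) [Fact l.Prime] (r : ℚ_[l]), k.Root r →
    ∀ (R Nb : ℝ) (m : ℕ) (F : ℕ+) (L₁ L₂ : Submodule ℤ k.K) (c₁ c₂ : ℚ) (f₁ : ℕ),
      ¬ l ∣ F → k.Lat L₁ c₁ → k.Lat L₂ c₂ → k.Adm F L₁ → k.Adm F L₂ → k.Nrm l L₁ → k.Nrm l L₂ →
      k.Cond L₁ f₁ → (∀ α : k.K, α ≠ 0 → α • L₁ ≤ L₂ → Nb * c₂ < k.N α * c₁) →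
      ∃ f₂ : ℕ, 0 < f₁ ∧ 0 < f₂ ∧ f₁ ∣ F ∧ f₂ ∣ F ∧ ∀ T : ℕ, l ≤ T →
        ∃ (a u κ : ℤ) (W₁ W₂ : Submodule ℤ (ℤ × ℤ)), 0 < a ∧ 0 < u ∧ κ ≠ 0 ∧
          (∀ q : ℕ, q.Prime → q ≤ T → ¬ (q : ℤ) ∣ a ∧ ¬ (q : ℤ) ∣ u ∧ ¬ (q : ℤ) ∣ κ) ∧
          (∀ x ∈ W₁, u ∣ a * nm k x) ∧ (∀ x ∈ W₂, u ∣ a * nm k x) ∧ (∀ x, κ • x ∈ W₁) ∧
          (∀ p : ℤ × ℤ, p ≠ 0 → Par.U ⟨f₁, f₂, a, u⟩ p ∈ W₁ →
            Nb * u * (Nat.gcd f₁ f₂ : ℝ) ^ 2 <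
              ((a * nm k (Par.U ⟨f₁, f₂, a, u⟩ p) : ℤ) : ℝ) * f₁ * f₂) ∧
          ∀ s : k.SF F, k.Ev l r 1 R m c₁ c₂ (act s L₁) (act s L₂) →
            ∃ e : ℤ, (e = 1 ∨ e = -1) ∧ ∃ (p : ℤ × ℤ) (c : Cf k ⟨f₁, f₂, a, e * u⟩ p),
              c.σ = sg s ∧ c.V ∈ W₂ ∧
              Par.Good k ⟨f₁, f₂, a, e * u⟩ W₁ (|(k.D : ℝ)| * R * f₁ * f₂) p ∧
              (l : ℤ) ^ (2 * m) ∣ Par.nh k ⟨f₁, f₂, a, e * u⟩ p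

/-- Two primitive elements which are proportional modulo `q` and have norm divisible by `q ^ e`
lie in the same ideal of norm `q ^ e`. -/
def TypeStmt : Prop :=
  ∀ (k : Fld) (q e : ℕ) (V V' : ℤ × ℤ), q.Prime → ¬ ((q : ℤ) ∣ V.1 ∧ (q : ℤ) ∣ V.2) →
    ¬ ((q : ℤ) ∣ V'.1 ∧ (q : ℤ) ∣ V'.2) → (q : ℤ) ^ e ∣ nm k V → (q : ℤ) ^ e ∣ nm k V' →
    (q : ℤ) ∣ (mc k V' V).2 → (q : ℤ) ^ e ∣ (mc k V' V).1 ∧ (q : ℤ) ^ e ∣ (mc k V' V).2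

/-- Local classification of the configurations over a fixed point `p`. -/
def LocAt (k : Fld) (P : Par) (q : ℕ) (p : ℤ × ℤ) : Prop :=
  ∃ (T : Finset (ℕ × ℕ × ℕ)) (τ : Cf k P p → ℕ × ℕ × ℕ) (κ : ℕ × ℕ × ℕ → ℕ),
    (∀ c, τ c ∈ T) ∧
    (∀ c c', τ c = τ c' → (q : ℤ) ^ P.v k q p ∣ (mc k c'.V c.V).1 ∧
      (q : ℤ) ^ P.v k q p ∣ (mc k c'.V c.V).2) ∧
    (∀ c c', τ c = τ c' → c.V = c'.V → (q : ℤ) ^ κ (τ c) ∣ (mc k c.σ c'.σ).2) ∧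
    (∀ t ∈ T, κ t ≤ max (P.r₁ q) (P.r₂ q)) ∧
    ∑ t ∈ T, 1 / k.psi (q ^ κ t) ≤ P.wt k q p / k.psi (q ^ max (P.r₁ q) (P.r₂ q))

/-- Different exponents. -/
def LocAStmt : Prop :=
  ∀ (k : Fld) (P : Par) (q : ℕ) (p : ℤ × ℤ), P.Ok q → P.nh k p ≠ 0 → P.r₁ q ≠ P.r₂ q →
    LocAt k P q p

/-- Primes which do not divide the conductors. -/
def LocBStmt : Prop :=
  ∀ (k : Fld) (P : Par) (q : ℕ) (p : ℤ × ℤ), P.Ok q → P.nh k p ≠ 0 → P.r₁ q = 0 → P.r₂ q = 0 →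
    LocAt k P q p

/-- Equal positive exponents. -/
def LocCStmt : Prop :=
  ∀ (k : Fld) (P : Par) (q : ℕ) (p : ℤ × ℤ), P.Ok q → P.nh k p ≠ 0 → P.r₁ q = P.r₂ q →
    0 < P.r₁ q → LocAt k P q p

/-- The probability that there is a configuration over a fixed point. -/
def GlobStmt : Prop :=
  ∀ k : Fld, ∃ C : ℝ, 0 < C ∧ ∀ (F : ℕ+) (P : Par) (Pr : Finset ℕ) (W : Submodule ℤ (ℤ × ℤ))
    (p : ℤ × ℤ), P.Std k Pr W → P.f₁ ∣ F → P.f₂ ∣ F → P.nh k p ≠ 0 →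
    (∀ q : ℕ, q.Prime → (q : ℤ) * P.u ∣ P.nh k p → q ∈ Pr) →
    k.pr F (fun s => ∃ c : Cf k P p, c.σ = sg s ∧ c.V ∈ W) ≤
      C * (∏ q ∈ Pr, P.wt k q p) / k.psi P.h

/-- Roots of a quadratic polynomial modulo a prime power. -/
def RootStmt : Prop :=
  ∀ (q e : ℕ) (a b c : ℤ), q.Prime → ¬ (q : ℤ) ∣ a →
    ((Finset.range (q ^ e)).filter fun x : ℕ => (q : ℤ) ^ e ∣ a * x ^ 2 + b * x + c).card ≤
      2 * q ^ (e / 2) ∧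
    (¬ (q : ℤ) ∣ b ^ 2 - 4 * a * c →
      ((Finset.range (q ^ e)).filter fun x : ℕ => (q : ℤ) ^ e ∣ a * x ^ 2 + b * x + c).card ≤ 2)

open Classical in
/-- The local hypotheses of the Shiu type bound. -/
def Pack (κ : ℝ) (q : ℕ) (Lv : ℕ → ℤ × ℤ → Prop) (g : ℕ → ℤ × ℤ → ℝ) (x : ℝ) : Prop :=
  (∀ j u, Lv (j + 1) u → Lv j u) ∧ (∀ u v, Cg q u v → Lv 1 u → Lv 1 v) ∧
  (∀ j u v, Cg (q ^ (2 * j)) u v → Lv j u → Lv j v) ∧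
  (∀ j u v, Cg (q ^ (2 * (j + 1))) u v → g j u = g j v) ∧
  (∀ j u, 0 ≤ g j u) ∧ (∀ u, g 0 u ≤ 1) ∧ (∀ u, g 1 u ≤ κ) ∧
  den q (fun u => if Lv 1 u then 1 else 0) ≤ κ / q ∧
  (∀ j, 2 ≤ j → den (q ^ (2 * j)) (fun u => if Lv j u then 1 else 0) ≤
    κ * (q : ℝ) ^ (-1 - (1 / 8 : ℝ) * j)) ∧
  den (q ^ (2 * 2)) (fun u => if Lv 1 u ∧ ¬ Lv 2 u then g 1 u else 0) ≤
    den q (fun u => if Lv 1 u then 1 else 0) + x + κ / (q : ℝ) ^ 2 ∧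
  ∀ j, 2 ≤ j → den (q ^ (2 * (j + 1))) (fun u => if Lv j u ∧ ¬ Lv (j + 1) u then g j u else 0) ≤
    κ * (j + 1) * (q : ℝ) ^ (-1 - (1 / 8 : ℝ) * j)

/-- Densities at primes which do not divide the conductors. -/
def PackBStmt : Prop :=
  ∀ k : Fld, ∃ κ : ℝ, ∀ (P : Par) (q : ℕ), P.Ok q → P.r₁ q = 0 → P.r₂ q = 0 →
    Pack κ q (P.Lv k q) (P.gw k q) ((k.chi q : ℝ) / q)

/-- Densities at primes with equal positive exponents. -/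
def PackCStmt : Prop :=
  ∀ k : Fld, ∃ κ : ℝ, ∀ (P : Par) (q : ℕ), P.Ok q → P.r₁ q = P.r₂ q → 0 < P.r₁ q →
    Pack κ q (P.Lv k q) (P.gw k q) 0

/-- Densities at all primes, in the coordinates of a basis. -/
def PackStmt : Prop :=
  ∀ k : Fld, ∃ κ : ℝ, 1 ≤ κ ∧ ∀ (P : Par) (q : ℕ) (γ : (ℤ × ℤ) × (ℤ × ℤ)), P.Ok q →
    ¬ (q : ℤ) ∣ dt γ → Pack κ q (fun j u => P.Lv k q j (app γ u))
      (fun j u => P.gw k q j (app γ u)) (if q ∣ P.f₁ * P.f₂ then 0 else (k.chi q : ℝ) / q)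

/-- Levels and sizes of the weights. -/
def WtStmt : Prop :=
  ∀ (k : Fld) (ε : ℝ), 0 < ε → ∃ C : ℝ, 0 < C ∧ ∀ (P : Par) (Pr : Finset ℕ) (p : ℤ × ℤ) (n : ℕ),
    (∀ q ∈ Pr, P.Ok q) → 0 < P.f₁ → 0 < P.f₂ → 0 < n → P.nh k p = n * |P.u| →
    (∀ q ∈ Pr, P.Lv k q (P.lev k q p) p ∧ ¬ P.Lv k q (P.lev k q p + 1) p ∧ 0 ≤ P.wt k q p ∧
      P.wt k q p ≤ P.gw k q (P.lev k q p) p ∧
      (P.ci q p = 0 → P.gw k q (P.lev k q p) p ≤ 2 ^ P.lev k q p)) ∧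
    ∏ q ∈ Pr, q ^ P.lev k q p ≤ P.g * n ∧ P.E₁ Pr p ∣ P.g ∧ P.E₂ k Pr p ∣ P.E₁ Pr p ∧
    ∏ q ∈ Pr, P.wt k q p ≤ C * ((P.g * n : ℕ) : ℝ) ^ ε * √(P.E₁ Pr p) * P.E₂ k Pr p ∧
    ∏ q ∈ Pr, P.gw k q (P.lev k q p) p ≤ C * ((P.g * n : ℕ) : ℝ) ^ ε * (P.E₁ Pr p : ℝ) ^ 2

/-- Points whose mutual determinants lie in a fixed lattice and are not all zero. -/
def PlaneStmt : Prop :=
  ∀ k : Fld, ∃ C : ℝ, 0 < C ∧ ∀ (S : Finset (ℤ × ℤ)) (a d : ℤ) (Y : ℝ), 0 < a → 0 < d →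
    (∀ x ∈ S, (nm k x : ℝ) ≤ Y) → (∀ x ∈ S, ∀ y ∈ S, d ∣ a * (mc k x y).2) →
    (∃ x ∈ S, ∃ y ∈ S, (mc k x y).2 ≠ 0) → (S.card : ℝ) ≤ C * Y * a / d

/-- The number of points with given contents. -/
def CntStmt : Prop :=
  ∀ (k : Fld) (ε : ℝ), 0 < ε → ∃ C : ℝ, 0 < C ∧ ∀ (P : Par) (Pr : Finset ℕ)
    (W : Submodule ℤ (ℤ × ℤ)) (X : ℝ) (S : Finset (ℤ × ℤ)) (e₁ e₂ : ℕ), P.Std k Pr W → 0 ≤ X →
    (∀ p ∈ S, P.Good k W X p ∧ P.E₁ Pr p = e₁ ∧ P.E₂ k Pr p = e₂) →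
    (S.card : ℝ) ≤ C * (e₂ : ℝ) ^ ε * (X / P.g + √X) / (e₁ * e₂)

/-- The total weight of the points with large content. -/
def BigStmt : Prop :=
  ∀ (k : Fld) (R ε : ℝ), 1 ≤ R → 0 < ε → ∃ C : ℝ, 0 < C ∧ ∀ (P : Par) (Pr : Finset ℕ)
    (W : Submodule ℤ (ℤ × ℤ)) (S : Finset (ℤ × ℤ)) (z : ℝ), P.Std k Pr W → 0 < z →
    (∀ p ∈ S, P.Good k W (R * P.f₁ * P.f₂) p ∧ z ≤ P.E₁ Pr p) →
    ∑ p ∈ S, ∏ q ∈ Pr, P.wt k q p ≤ C * ((P.f₁ * P.f₂ : ℕ) : ℝ) ^ ε * P.h / √z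

/-- The points lie in a box whose sides are not too short. -/
def BoxStmt : Prop :=
  ∀ (k : Fld) (R : ℝ), 1 ≤ R → ∃ C : ℝ, 0 < C ∧ ∀ (P : Par) (W : Submodule ℤ (ℤ × ℤ)) (κ : ℤ)
    (y : ℝ), 0 < P.f₁ → 0 < P.f₂ → 0 < P.a → 0 < P.u → κ ≠ 0 → (∀ x ∈ W, P.u ∣ P.a * nm k x) →
    IsCoprime P.u P.g → (∀ x, κ • x ∈ W) → 1 ≤ y → y ^ 2 ≤ P.h →
    (∀ p : ℤ × ℤ, p ≠ 0 → P.U p ∈ W →
      y ^ 2 * P.u * (P.g : ℝ) ^ 2 ≤ ((P.a * nm k (P.U p) : ℤ) : ℝ) * P.f₁ * P.f₂) →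
    ∃ (γ : (ℤ × ℤ) × (ℤ × ℤ)) (b : ℤ × ℤ) (A B : ℕ), dt γ ∣ κ ^ 2 ∧ y ≤ A ∧ y ≤ B ∧
      (A : ℝ) * B ≤ C * P.h ∧ ∀ p : ℤ × ℤ, P.U p ∈ W →
        ((P.a * nm k (P.U p) : ℤ) : ℝ) ≤ R * P.f₁ * P.f₂ * P.u → ∃ u ∈ box b A B, p = app γ u

/-- The Euler product is bounded. -/
def ExpStmt : Prop :=
  ∀ (k : Fld) (κ s : ℝ), 0 ≤ κ → 0 < s → ∃ C : ℝ, 0 < C ∧ ∀ (f₁ f₂ T l : ℕ) (z : ℝ), 0 < f₁ →
    0 < f₂ → ((f₁ * f₂ : ℕ) : ℝ) ^ s ≤ z → z ≤ T → l.Prime → ¬ l ∣ f₁ * f₂ →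
    Real.exp (∑ q ∈ (prs T \ {l}).filter (fun q : ℕ => (q : ℝ) ≤ z),
      ((if q ∣ f₁ * f₂ then 0 else (k.chi q : ℝ) / q) + κ * (q : ℝ) ^ (-(5 / 4 : ℝ)))) *
      (Nat.lcm f₁ f₂ : ℝ) ≤ C * k.psi (Nat.lcm f₁ f₂)

lemma nm_mc (k : Fld) (x y : ℤ × ℤ) : nm k (mc k x y) = nm k x * nm k y := by
  simp only [nm, mc]; ring

lemma four_nm (k : Fld) (x : ℤ × ℤ) : 4 * nm k x = (2 * x.1 + k.t * x.2) ^ 2 - k.D * x.2 ^ 2 := by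
  simp only [nm, Fld.D]; ring

lemma D_neg (k : Fld) : k.D < 0 := k.neg

lemma nm_nonneg (k : Fld) (x : ℤ × ℤ) : 0 ≤ nm k x := by
  have h := four_nm k x
  have := D_neg k
  nlinarith [sq_nonneg (2 * x.1 + k.t * x.2), sq_nonneg x.2]

lemma nm_pos (k : Fld) {x : ℤ × ℤ} (hx : x ≠ 0) : 0 < nm k x := by
  have h := four_nm k x
  have hD := D_neg k
  by_cases h2 : x.2 = 0
  · have h1 : x.1 ≠ 0 := fun h1 => hx (Prod.ext h1 h2)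
    have := sq_pos_of_ne_zero h1
    simp only [nm, h2]; nlinarith
  · have := sq_pos_of_ne_zero h2
    nlinarith [sq_nonneg (2 * x.1 + k.t * x.2)]

/-- An element whose trace is divisible by `d` and whose norm is divisible by `d ^ 2` is divisible
by `d`. -/
lemma dvd_of_tr_nm (k : Fld) {d : ℤ} (hd : d ≠ 0) {x : ℤ × ℤ} (h1 : d ∣ 2 * x.1 + k.t * x.2)
    (h2 : d ^ 2 ∣ nm k x) : d ∣ x.1 ∧ d ∣ x.2 := by
  obtain ⟨a, ha⟩ := h1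
  obtain ⟨b, hb⟩ := h2
  have hd' : (d : ℚ) ≠ 0 := by exact_mod_cast hd
  have ha' : (2 * x.1 + k.t * x.2 : ℚ) = d * a := by exact_mod_cast ha
  have hb' : (x.1 ^ 2 + k.t * x.1 * x.2 + k.n * x.2 ^ 2 : ℚ) = d ^ 2 * b := by
    simp only [nm] at hb; exact_mod_cast hb
  obtain ⟨⟨c, hc⟩, e, he⟩ := k.max (x.1 / d) (x.2 / d) ⟨a, by field_simp; linear_combination ha'⟩
    ⟨b, by field_simp; linear_combination hb'⟩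
  refine ⟨⟨c, ?_⟩, e, ?_⟩
  · have : (x.1 : ℚ) = d * c := by rw [← hc]; field_simp
    exact_mod_cast this
  · have : (x.2 : ℚ) = d * e := by rw [← he]; field_simp
    exact_mod_cast this

/-- In a group whose norms lie in `(u / a) ℤ` all products `x * conj y` lie in `(u / a) O`. -/
lemma dvd_mc (k : Fld) {a u : ℤ} (hu : u ≠ 0) {W : Submodule ℤ (ℤ × ℤ)}
    (hW : ∀ x ∈ W, u ∣ a * nm k x) {x y : ℤ × ℤ} (hx : x ∈ W) (hy : y ∈ W) :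
    u ∣ a * (mc k x y).1 ∧ u ∣ a * (mc k x y).2 := by
  refine dvd_of_tr_nm k hu (x := (a * (mc k x y).1, a * (mc k x y).2)) ?_ ?_
  · have h := dvd_sub (dvd_sub (hW _ (W.add_mem hx hy)) (hW _ hx)) (hW _ hy)
    have e : 2 * (a * (mc k x y).1) + k.t * (a * (mc k x y).2) =
        a * nm k (x + y) - a * nm k x - a * nm k y := by
      simp only [nm, mc, Prod.fst_add, Prod.snd_add]; ring
    show u ∣ 2 * (a * (mc k x y).1) + k.t * (a * (mc k x y).2)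
    rw [e]; exact h
  · have h := mul_dvd_mul (hW _ hx) (hW _ hy)
    rw [← sq] at h
    have e : nm k (a * (mc k x y).1, a * (mc k x y).2) = a * nm k x * (a * nm k y) := by
      simp only [nm, mc]; ring
    rw [e]; exact h

end Pool.Agent.Lib.MP_9177b7_ag.J.Large
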