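import Pool.Agent.Lib.MP_9177b7_ag.J.LargeD
import Pool.Agent.Lib.MP_9177b7_ag.J.Shiu1

/-!
Roots of quadratic congruences; local densities in the coordinates of a basis.
-/

noncomputable section

namespace Pool.Agent.Lib.MP_9177b7_ag.J.Large

namespace Root

open Finset Shiu

lemma lin_card {q e c : ℕ} (hq : q.Prime) (hc : c ≤ e) {a : ℤ} (ha : ¬ (q : ℤ) ∣ a) (b : ℤ) :
    ((range (q ^ e)).filter fun x : ℕ => (q : ℤ) ^ c ∣ a * x + b).card ≤ q ^ (e - c) := by
  have h0 : 0 < q ^ c := pow_pos hq.pos c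
  refine le_trans (card_le_card_of_injOn (fun x => x / q ^ c) (t := range (q ^ (e - c)))
    (fun x hx => ?_) fun x hx y hy h => ?_) (card_range _).le
  · refine mem_coe.2 (mem_range.2 ((Nat.div_lt_iff_lt_mul h0).2 ?_))
    rw [← pow_add, Nat.sub_add_cancel hc]
    exact mem_range.1 (mem_filter.1 hx).1
  · have h1 := dvd_sub (mem_filter.1 hy).2 (mem_filter.1 hx).2
    rw [show a * y + b - (a * x + b) = a * (y - x) by ring] at h1
    have h2 : x ≡ y [MOD q ^ c] := Nat.modEq_iff_dvd.2 (by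
      exact_mod_cast (Nat.prime_iff_prime_int.1 hq).pow_dvd_of_dvd_mul_left c ha h1)
    rw [← Nat.div_add_mod x (q ^ c), ← Nat.div_add_mod y (q ^ c), show x / q ^ c = y / q ^ c from h,
      show x % q ^ c = y % q ^ c from h2]

lemma split {q A B : ℤ} (hq : Prime q) {e : ℕ} (h : q ^ e ∣ A * B) :
    q ^ (e - e / 2) ∣ A ∨ q ^ (e - e / 2) ∣ B := by
  by_cases h0 : A = 0
  · exact Or.inl (h0 ▸ dvd_zero _)
  obtain ⟨i, A', h1, rfl⟩ := WfDvdMonoid.max_power_factor h0 hq.irreducible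
  by_cases h2 : e - e / 2 ≤ i
  · exact Or.inl ((pow_dvd_pow q h2).mul_right _)
  refine Or.inr (hq.pow_dvd_of_dvd_mul_left _ h1
    ((mul_dvd_mul_iff_left (pow_ne_zero i hq.ne_zero)).1 ?_))
  rw [← pow_add, ← mul_assoc]
  exact (pow_dvd_pow q (by omega)).trans h

lemma two_card {q e c : ℕ} (hq : q.Prime) (hc : c ≤ e) {a : ℤ} (ha : ¬ (q : ℤ) ∣ a) (b b' : ℤ)
    {S : Finset ℕ} (hS : S ⊆ range (q ^ e))
    (h : ∀ x ∈ S, (q : ℤ) ^ c ∣ 1 * x + b ∨ (q : ℤ) ^ c ∣ a * x + b') :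
    S.card ≤ 2 * q ^ (e - c) := by
  refine le_trans (card_le_card fun x hx => ?_) ((card_union_le _ _).trans ((add_le_add
    (lin_card hq hc (Nat.prime_iff_prime_int.1 hq).not_dvd_one b)
    (lin_card hq hc ha b')).trans (two_mul _).ge))
  exact mem_union.2 ((h x hx).imp (fun k => mem_filter.2 ⟨hS hx, k⟩)
    fun k => mem_filter.2 ⟨hS hx, k⟩)

lemma cg_app {M : ℕ} (γ : (ℤ × ℤ) × (ℤ × ℤ)) {u v : ℤ × ℤ} (h : Cg M u v) :
    Cg M (app γ u) (app γ v) := by
  refine ⟨?_, ?_⟩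
  · refine (dvd_add (h.1.mul_right γ.1.1) (h.2.mul_right γ.2.1)).trans (dvd_of_eq ?_)
    simp only [app]
    ring
  · refine (dvd_add (h.1.mul_right γ.1.2) (h.2.mul_right γ.2.2)).trans (dvd_of_eq ?_)
    simp only [app]
    ring

lemma den_app {N : ℕ} (hN : 0 < N) {γ : (ℤ × ℤ) × (ℤ × ℤ)} (hc : IsCoprime (N : ℤ) (dt γ))
    {h : ℤ × ℤ → ℝ} (hp : Per N h) : den N (fun u => h (app γ u)) = den N h := by
  have hN' : (0 : ℤ) < N := by exact_mod_cast hN
  let r : ℤ × ℤ → ℤ × ℤ := fun u => ((app γ u).1 % N, (app γ u).2 % N)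
  have hr : ∀ u, Cg N (app γ u) (r u) := fun u =>
    ⟨Int.dvd_self_sub_emod, Int.dvd_self_sub_emod⟩
  have hmem : ∀ u, r u ∈ box 0 N N := fun u => by
    rw [mem_box]
    simp only [Prod.fst_zero, Prod.snd_zero, zero_add, r]
    exact ⟨⟨Int.emod_nonneg _ hN'.ne', Int.emod_lt_of_pos _ hN'⟩,
      Int.emod_nonneg _ hN'.ne', Int.emod_lt_of_pos _ hN'⟩
  have hinj : ∀ u ∈ box 0 N N, ∀ v ∈ box 0 N N, r u = r v → u = v := by
    intro u hu v hv huv
    have h1 := hr u
    have h2 := hr v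
    rw [huv] at h1
    have k1 := dvd_sub h1.1 h2.1
    have k2 := dvd_sub h1.2 h2.2
    refine eq_of_cg hu hv ⟨hc.dvd_of_dvd_mul_left ?_, hc.dvd_of_dvd_mul_left ?_⟩
    · convert dvd_sub (k1.mul_right γ.2.2) (k2.mul_right γ.2.1) using 1
      simp only [app, dt]
      ring
    · convert dvd_sub (k2.mul_right γ.1.1) (k1.mul_right γ.1.2) using 1
      simp only [app, dt]
      ring
  unfold den
  congr 1
  refine sum_bij (fun u _ => r u) (fun u _ => hmem u) (fun u hu v hv => hinj u hu v hv) ?_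
    (fun u _ => hp _ _ (hr u))
  intro b hb
  obtain ⟨u, hu, rfl⟩ := surj_on_of_inj_on_of_card_le (fun u _ => r u) (fun u _ => hmem u)
    (fun u v hu hv => hinj u hu v hv) le_rfl b hb
  exact ⟨u, hu, rfl⟩

variable {κ κ' x : ℝ} {q : ℕ} {Lv : ℕ → ℤ × ℤ → Prop} {g : ℕ → ℤ × ℤ → ℝ}

lemma mono (h : Pack κ q Lv g x) (hκ : κ ≤ κ') : Pack κ' q Lv g x := by
  obtain ⟨h1, h2, h3, h4, h5, h6, h7, h8, h9, h10, h11⟩ := h
  exact ⟨h1, h2, h3, h4, h5, h6, fun u => (h7 u).trans hκ, h8.trans (by gcongr),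
    fun j hj => (h9 j hj).trans (by gcongr), h10.trans (by gcongr),
    fun j hj => (h11 j hj).trans (by gcongr)⟩

open Classical in
lemma transfer (h : Pack κ q Lv g x) (hq : q.Prime) {γ : (ℤ × ℤ) × (ℤ × ℤ)}
    (hγ : ¬ (q : ℤ) ∣ dt γ) :
    Pack κ q (fun j u => Lv j (app γ u)) (fun j u => g j (app γ u)) x := by
  obtain ⟨h1, h2, h3, h4, h5, h6, h7, h8, h9, h10, h11⟩ := h
  have c1 : IsCoprime (q : ℤ) (dt γ) :=
    (Nat.prime_iff_prime_int.1 hq).irreducible.coprime_iff_not_dvd.2 hγ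
  have c2 : ∀ n : ℕ, IsCoprime ((q ^ n : ℕ) : ℤ) (dt γ) := fun n => by
    rw [Nat.cast_pow]
    exact c1.pow_left
  have l : ∀ j u v, Cg (q ^ (2 * j)) u v → (Lv j u ↔ Lv j v) := fun j u v h =>
    ⟨h3 j u v h, h3 j v u (Cg.symm h)⟩
  have e1 := den_app hq.pos c1 (h := fun u => if Lv 1 u then 1 else 0) fun u v h =>
    if_congr ⟨h2 u v h, h2 v u (Cg.symm h)⟩ rfl rfl
  have e2 := fun j => den_app (pow_pos hq.pos (2 * j)) (c2 _)
    (h := fun u => if Lv j u then 1 else 0) fun u v h => if_congr (l j u v h) rfl rfl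
  have e3 := fun j => den_app (pow_pos hq.pos (2 * (j + 1))) (c2 _)
    (h := fun u => if Lv j u ∧ ¬ Lv (j + 1) u then g j u else 0) fun u v h =>
      if_congr (and_congr (l j u v (Cg.of_dvd (pow_dvd_pow q (by omega)) h))
        (l (j + 1) u v h).not) (h4 j u v h) rfl
  exact ⟨fun j u => h1 j _, fun u v h => h2 _ _ (cg_app γ h), fun j u v h => h3 j _ _ (cg_app γ h),
    fun j u v h => h4 j _ _ (cg_app γ h), fun j u => h5 j _, fun u => h6 _, fun u => h7 _,
    e1.trans_le h8, fun j hj => (e2 j).trans_le (h9 j hj),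
    (e3 1).trans_le (h10.trans_eq (congrArg (· + x + κ / (q : ℝ) ^ 2) e1.symm)),
    fun j hj => (e3 j).trans_le (h11 j hj)⟩

lemma triv (q : ℕ) : Pack 1 q (fun j _ => j = 0) (fun _ _ => 1) 0 := by
  refine ⟨fun j u h => absurd h j.succ_ne_zero, fun _ _ _ h => h, fun _ _ _ _ h => h,
    fun _ _ _ _ => rfl, fun _ _ => zero_le_one, fun _ => le_rfl, fun _ => le_rfl, ?_,
    fun j hj => ?_, ?_, fun j hj => ?_⟩
  · simp [den]
  · simp only [den, show j ≠ 0 by omega, if_false, sum_const_zero, zero_div]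
    positivity
  · simp [den]
  · simp only [den, show j ≠ 0 by omega, false_and, if_false, sum_const_zero, zero_div]
    positivity

end Root

theorem root_stmt : RootStmt := by
  intro q e a b c hq ha
  have hp := Nat.prime_iff_prime_int.1 hq
  rcases ((Finset.range (q ^ e)).filter fun x : ℕ =>
    (q : ℤ) ^ e ∣ a * x ^ 2 + b * x + c).eq_empty_or_nonempty with h | ⟨y, hy⟩
  · simp [h]
  have hy := (Finset.mem_filter.1 hy).2
  have k : ∀ x ∈ (Finset.range (q ^ e)).filter fun x : ℕ => (q : ℤ) ^ e ∣ a * x ^ 2 + b * x + c,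
      (q : ℤ) ^ e ∣ (1 * x + -y) * (a * x + (a * y + b)) := fun x hx => by
    refine (dvd_sub (Finset.mem_filter.1 hx).2 hy).trans (dvd_of_eq ?_)
    ring
  refine ⟨?_, fun hd => ?_⟩
  · have h := Root.two_card hq (Nat.sub_le e (e / 2)) ha _ _ (Finset.filter_subset _ _)
      fun x hx => Root.split hp (k x hx)
    rwa [Nat.sub_sub_self (Nat.div_le_self e 2)] at h
  have h := Root.two_card hq (le_refl e) ha (-y) (a * y + b) (Finset.filter_subset _ _)
    fun x hx => (by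
      rcases Nat.eq_zero_or_pos e with rfl | he
      · simp
      by_cases c1 : (q : ℤ) ∣ 1 * x + -y
      · refine Or.inl (hp.pow_dvd_of_dvd_mul_right e (fun c2 => hd ?_) (k x hx))
        have c3 := dvd_sub c2 (c1.mul_left a)
        refine (dvd_sub (c3.mul_right (2 * a * y + b))
          (((dvd_pow_self _ he.ne').trans hy).mul_left (4 * a))).trans (dvd_of_eq ?_)
        ring
      · exact Or.inr (hp.pow_dvd_of_dvd_mul_left e c1 (k x hx)))
  simpa using h

theorem pack : PackBStmt → PackCStmt → PackStmt := by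
  intro hB hC k
  obtain ⟨κ₁, hB⟩ := hB k
  obtain ⟨κ₂, hC⟩ := hC k
  refine ⟨max 1 (max κ₁ κ₂), le_max_left _ _, fun P q γ h hγ => Root.transfer ?_ h.1 hγ⟩
  have d1 : P.r₁ q ≠ 0 → q ∣ P.f₁ * P.f₂ := fun c =>
    (dvd_of_one_le_padicValNat (Nat.pos_of_ne_zero c)).mul_right _
  have d2 : P.r₂ q ≠ 0 → q ∣ P.f₁ * P.f₂ := fun c =>
    (dvd_of_one_le_padicValNat (Nat.pos_of_ne_zero c)).mul_left _
  by_cases c : P.r₁ q = P.r₂ q
  · rcases Nat.eq_zero_or_pos (P.r₁ q) with c1 | c1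
    · rw [if_neg]
      · exact Root.mono (hB P q h c1 (c ▸ c1)) ((le_max_left _ _).trans (le_max_right _ _))
      · have := Fact.mk h.1
        intro c2
        rcases (Nat.Prime.dvd_mul h.1).1 c2 with c3 | c3
        · exact (one_le_padicValNat_of_dvd h.2.2.2.1.ne' c3).not_gt (c1.trans_lt one_pos)
        · exact (one_le_padicValNat_of_dvd h.2.2.2.2.ne' c3).not_gt ((c ▸ c1 :
            P.r₂ q = 0).trans_lt one_pos)
    · rw [if_pos (d1 c1.ne')]
      exact Root.mono (hC P q h c c1) ((le_max_right _ _).trans (le_max_right _ _))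
  · rw [if_pos (by
        by_cases c1 : P.r₁ q = 0
        · exact d2 fun c2 => c (c1.trans c2.symm)
        · exact d1 c1),
      show P.Lv k q = fun j _ => j = 0 from funext fun _ => funext fun _ => if_pos c,
      show P.gw k q = fun _ _ => 1 from funext fun _ => funext fun _ => if_pos c]
    exact Root.mono (Root.triv q) (le_max_left _ _)

end Pool.Agent.Lib.MP_9177b7_ag.J.Large
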