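import Pool.Agent.Lib.MP_9177b7_ag.J.Line1

/-!
A line of unipotents, second part: counting balls, tubes, and the action of the diagonal element.
-/

open MeasureTheory ProbabilityTheory Filter Topology Set
open scoped MatrixGroups ENNReal NNReal Pointwise

noncomputable section

namespace Pool.Agent.Lib.MP_9177b7_ag.J.Line

variable {l : ℕ} [Fact l.Prime]

open Classical in
/-- The number of bad times. -/
def cnt {ι : Type} (bad : ℕ → ι → Prop) (k : ℕ) (w : ι) : ℕ :=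
  ∑ i ∈ Finset.range k, if bad i w then 1 else 0

theorem cover {ι V : Type} [PseudoMetricSpace V] [IsUltrametricDist V] (T : Set ι) (v : ι → V)
    (bad : ℕ → ι → Prop) (r : ℕ → ℝ) (N : ℕ)
    (h0 : ∀ w ∈ T, ∀ w' ∈ T, dist (v w) (v w') ≤ r 0)
    (hg : ∀ i, ∀ w ∈ T, ∀ w' ∈ T, ¬ bad i w → ¬ bad i w' → dist (v w) (v w') ≤ r i →
      dist (v w) (v w') ≤ r (i + 1))
    (hc : ∀ i c, ∃ F : Finset V, F.card ≤ N ∧ ∀ y, dist y c ≤ r i → ∃ c' ∈ F, dist y c' ≤ r (i + 1))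
    (k x : ℕ) : ∃ F : Finset V, (F.card : ℝ) ≤ (3 / 2) ^ k * (2 * N + 1) ^ x ∧
      ∀ w ∈ T, cnt bad k w ≤ x → ∃ c ∈ F, dist (v w) c ≤ r k := by
  classical
  have hN : (1 : ℝ) ≤ 2 * N + 1 := by have := Nat.cast_nonneg (α := ℝ) N; linarith
  induction k generalizing x with
  | zero =>
    rcases T.eq_empty_or_nonempty with rfl | ⟨w₀, hw₀⟩
    · exact ⟨∅, by simp; positivity, by simp⟩
    · refine ⟨{v w₀}, by simpa using one_le_pow₀ hN, fun w hw _ => ⟨v w₀, by simp, h0 _ hw _ hw₀⟩⟩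
  | succ k ih =>
    obtain ⟨F, hF, hF'⟩ := ih x
    have hpick : ∀ c : V, ∃ c' : V, ∀ w ∈ T, ¬ bad k w → dist (v w) c ≤ r k →
        dist (v w) c' ≤ r (k + 1) := by
      intro c
      by_cases h : ∃ w ∈ T, ¬ bad k w ∧ dist (v w) c ≤ r k
      · obtain ⟨w₀, a, b, d⟩ := h
        refine ⟨v w₀, fun w hw hb hd => hg k w hw w₀ a hb b ?_⟩
        exact (IsUltrametricDist.dist_triangle_max _ c _).trans
          (max_le hd (by rwa [dist_comm]))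
      · exact ⟨c, fun w hw hb hd => absurd ⟨w, hw, hb, hd⟩ h⟩
    choose g hg' using hpick
    choose G hG hG' using hc k
    have hcnt : ∀ w, cnt bad (k + 1) w = cnt bad k w + if bad k w then 1 else 0 := fun w =>
      Finset.sum_range_succ _ _
    have hp : (0 : ℝ) < (3 / 2) ^ k := by positivity
    rcases x with _ | x
    · refine ⟨F.image g, ?_, fun w hw hx => ?_⟩
      · refine (Nat.cast_le.2 Finset.card_image_le).trans (hF.trans ?_)
        rw [pow_succ]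
        simp only [pow_zero, mul_one]
        linarith
      · rw [hcnt] at hx
        have hb : ¬ bad k w := fun h => by simp [h] at hx
        obtain ⟨c, a, b⟩ := hF' w hw (by omega)
        exact ⟨g c, Finset.mem_image_of_mem _ a, hg' c w hw hb b⟩
    · obtain ⟨F₁, hF₁, hF₁'⟩ := ih x
      refine ⟨F.image g ∪ F₁.biUnion G, ?_, fun w hw hx => ?_⟩
      · have a1 : (F.image g ∪ F₁.biUnion G).card ≤ F.card + F₁.card * N :=
          (Finset.card_union_le _ _).trans (add_le_add Finset.card_image_le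
            (Finset.card_biUnion_le_card_mul _ _ _ fun c _ => hG c))
        have a2 : ((F.image g ∪ F₁.biUnion G).card : ℝ) ≤ F.card + F₁.card * N := by
          exact_mod_cast a1
        have a3 : (F₁.card : ℝ) * N ≤ (3 / 2) ^ k * (2 * N + 1) ^ x * N :=
          mul_le_mul_of_nonneg_right hF₁ (Nat.cast_nonneg _)
        have a4 : (0 : ℝ) < (3 / 2) ^ k * (2 * N + 1) ^ x := by positivity
        rw [pow_succ (2 * (N : ℝ) + 1), ← mul_assoc] at hF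
        rw [pow_succ, pow_succ (2 * (N : ℝ) + 1)]
        nlinarith
      · rw [hcnt] at hx
        by_cases hb : bad k w
        · rw [if_pos hb] at hx
          obtain ⟨c, a, b⟩ := hF₁' w hw (by omega)
          obtain ⟨c', a', b'⟩ := hG' c _ b
          exact ⟨c', Finset.mem_union_right _ (Finset.mem_biUnion.2 ⟨c, a, a'⟩), b'⟩
        · obtain ⟨c, a, b⟩ := hF' w hw (by omega)
          exact ⟨g c, Finset.mem_union_left _ (Finset.mem_image_of_mem _ a), hg' c w hw hb b⟩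

theorem balls {τ : ℚ_[l]} (hτ : 1 < ‖τ‖) : ∃ N : ℕ, ∀ u : ℚ_[l], u ≠ 0 →
    ∀ c : ℚ_[l] × ℚ_[l], ∃ F : Finset (ℚ_[l] × ℚ_[l]), F.card ≤ N ∧
      ∀ y, dist y c ≤ ‖u‖ → ∃ c' ∈ F, dist y c' ≤ ‖u‖ / ‖τ‖ := by
  classical
  have h0 : 0 < ‖τ‖⁻¹ := inv_pos.2 (one_pos.trans hτ)
  obtain ⟨t, -, ht, hcov⟩ := finite_cover_balls_of_compact
    (isCompact_closedBall (0 : ℚ_[l] × ℚ_[l]) 1) h0
  refine ⟨ht.toFinset.card, fun u hu c => ⟨ht.toFinset.image fun y => c + u • y,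
    Finset.card_image_le, fun y hy => ?_⟩⟩
  have hu' : 0 < ‖u‖ := norm_pos_iff.2 hu
  have h1 : u⁻¹ • (y - c) ∈ Metric.closedBall (0 : ℚ_[l] × ℚ_[l]) 1 := by
    rw [mem_closedBall_zero_iff, norm_smul, norm_inv, ← dist_eq_norm]
    exact (mul_le_mul_of_nonneg_left hy (inv_nonneg.2 hu'.le)).trans (inv_mul_cancel₀ hu'.ne').le
  obtain ⟨x, hx, hx'⟩ := mem_iUnion₂.1 (hcov h1)
  refine ⟨c + u • x, Finset.mem_image_of_mem _ (ht.mem_toFinset.2 hx), ?_⟩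
  have e : y - (c + u • x) = u • (u⁻¹ • (y - c) - x) := by
    rw [smul_sub, smul_smul, mul_inv_cancel₀ hu, one_smul]
    abel
  rw [dist_eq_norm, e, norm_smul, div_eq_mul_inv, ← dist_eq_norm]
  exact mul_le_mul_of_nonneg_left (le_of_lt hx') hu'.le

variable (S : Sp l)

/-- Tubes in the group. -/
def Tb (Cd : Set S.C) (v : ℚ_[l]) (ρ : ℝ) : Set S.G :=
  {g | ‖g.1 0 0 - 1‖ < 1 ∧ ‖g.1 1 0‖ < 1 ∧ ‖g.1 0 1 - v * g.1 0 0‖ ≤ ρ ∧ g.2 ∈ Cd}

omit S in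
theorem norm_one_of {a : ℚ_[l]} (h : ‖a - 1‖ < 1) : ‖a‖ = 1 := by
  have h2 := IsUltrametricDist.norm_add_eq_max_of_norm_ne_norm (x := a - 1) (y := (1 : ℚ_[l]))
    (by rw [norm_one]; exact h.ne)
  rwa [sub_add_cancel, norm_one, max_eq_right h.le] at h2

theorem isOpen_Tb {Cd : Set S.C} (hC : IsOpen Cd) (v : ℚ_[l]) {ρ : ℝ} (hρ : 0 < ρ) :
    IsOpen (Tb S Cd v ρ) := by
  have c : ∀ i j, Continuous fun g : S.G => g.1 i j := fun i j =>
    (Marg.cont_entry i j).comp continuous_fst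
  refine (isOpen_lt ((c 0 0).sub continuous_const).norm continuous_const).inter
    ((isOpen_lt (c 1 0).norm continuous_const).inter (IsOpen.inter ?_ (hC.preimage continuous_snd)))
  have := (IsUltrametricDist.isOpen_closedBall (0 : ℚ_[l]) hρ.ne').preimage
    (f := fun g : S.G => g.1 0 1 - v * g.1 0 0) ((c 0 1).sub (continuous_const.mul (c 0 0)))
  have e : (fun g : S.G => g.1 0 1 - v * g.1 0 0) ⁻¹' Metric.closedBall 0 ρ =
      {g : S.G | ‖g.1 0 1 - v * g.1 0 0‖ ≤ ρ} := by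
    ext g
    exact mem_closedBall_zero_iff
  rw [e] at this
  exact this

omit S in
theorem mul_up (h : HH l) (v : ℚ_[l]) : (h * up (-v)) 0 0 = h 0 0 ∧ (h * up (-v)) 1 0 = h 1 0 ∧
    (h * up (-v)) 0 1 = h 0 1 - v * h 0 0 := by
  have e : ∀ i j, (h * up (-v)) i j =
      (h.1 * (!![1, -v; 0, 1] : Matrix (Fin 2) (Fin 2) ℚ_[l])) i j := fun _ _ => rfl
  refine ⟨?_, ?_, ?_⟩ <;> rw [e] <;> simp [Matrix.mul_apply, Fin.sum_univ_two]
  ring

theorem Tb_shift (Cd : Set S.C) (v : ℚ_[l]) (ρ : ℝ) :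
    Tb S Cd v ρ = (fun g : S.G => g * (up (-v), 1)) ⁻¹' Tb S Cd 0 ρ := by
  ext g
  obtain ⟨e0, e1, e2⟩ := mul_up g.1 v
  simp only [Tb, mem_preimage, mem_ofPred_eq, Prod.fst_mul, Prod.snd_mul, mul_one, e0, e1, e2,
    zero_mul, sub_zero]

theorem Tb_fin (m : Measure S.G) [IsFiniteMeasureOnCompacts m] {Cd Kc : Set S.C}
    (hK : IsCompact Kc) (hC : Cd ⊆ Kc) {ρ : ℝ} (hρ : 1 ≤ ρ) : m (Tb S Cd 0 ρ) < ∞ := by
  have h1 : IsCompact (univ.pi fun _ : Fin 2 => univ.pi fun _ : Fin 2 =>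
      Metric.closedBall (0 : ℚ_[l]) ρ) :=
    isCompact_univ_pi fun _ => isCompact_univ_pi fun _ => isCompact_closedBall _ _
  have h2 : IsCompact {h : HH l | h.1 ∈ univ.pi fun _ : Fin 2 => univ.pi fun _ : Fin 2 =>
      Metric.closedBall (0 : ℚ_[l]) ρ} := (Matrix.SpecialLinearGroup.isClosedEmbedding_val
    (n := Fin 2) (R := ℚ_[l])).isCompact_preimage h1
  refine (measure_mono ?_).trans_lt (h2.prod hK).measure_lt_top
  rintro g ⟨a, b, c, d⟩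
  refine ⟨fun i _ j _ => mem_closedBall_zero_iff.2 ?_, hC d⟩
  have ha := norm_one_of a
  rw [zero_mul, sub_zero] at c
  have hd : ‖g.1 1 1‖ ≤ ρ := by
    have e := g.1.det_coe
    rw [Matrix.det_fin_two] at e
    have e' : g.1 0 0 * g.1 1 1 = 1 + g.1 0 1 * g.1 1 0 := by linear_combination e
    have := IsUltrametricDist.norm_add_le_max (1 : ℚ_[l]) (g.1 0 1 * g.1 1 0)
    rw [← e', norm_mul, ha, one_mul, norm_one, norm_mul] at this
    exact this.trans (max_le hρ ((mul_le_of_le_one_right (norm_nonneg _) b.le).trans c))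
  fin_cases i <;> fin_cases j
  · exact ha.le.trans hρ
  · exact c
  · exact b.le.trans hρ
  · exact hd

theorem Tb_half (m : Measure S.G) [m.IsMulRightInvariant] {Cd : Set S.C} (hC : IsOpen Cd)
    {u : ℚ_[l]} {ρ : ℝ} (hρ : 0 < ρ) (hu : ρ < ‖u‖) :
    2 * m (Tb S Cd 0 ρ) ≤ m (Tb S Cd 0 ‖u‖) := by
  have h1 : m (Tb S Cd u ρ) = m (Tb S Cd 0 ρ) := by
    rw [Tb_shift, measure_preimage_mul_right]
  have h2 : Disjoint (Tb S Cd 0 ρ) (Tb S Cd u ρ) := by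
    rw [Set.disjoint_left]
    rintro g ⟨a, -, c, -⟩ ⟨-, -, c', -⟩
    have e : u * g.1 0 0 = (g.1 0 1 - 0 * g.1 0 0) + -(g.1 0 1 - u * g.1 0 0) := by ring
    have := IsUltrametricDist.norm_add_le_max (g.1 0 1 - 0 * g.1 0 0) (-(g.1 0 1 - u * g.1 0 0))
    rw [← e, norm_mul, norm_one_of a, mul_one, norm_neg] at this
    exact absurd (this.trans (max_le c c')) (not_le.2 hu)
  rw [two_mul]
  nth_rewrite 2 [← h1]
  rw [← measure_union h2 (isOpen_Tb S hC u hρ).measurableSet]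
  refine measure_mono (union_subset ?_ ?_)
  · rintro g ⟨a, b, c, d⟩
    exact ⟨a, b, c.trans hu.le, d⟩
  · rintro g ⟨a, b, c, d⟩
    refine ⟨a, b, ?_, d⟩
    have e : g.1 0 1 - 0 * g.1 0 0 = (g.1 0 1 - u * g.1 0 0) + u * g.1 0 0 := by ring
    rw [e]
    refine (IsUltrametricDist.norm_add_le_max _ _).trans (max_le (c.trans hu.le) ?_)
    rw [norm_mul, norm_one_of a, mul_one]

theorem Tb_pow (m : Measure S.G) [m.IsMulRightInvariant] {Cd : Set S.C} (hC : IsOpen Cd)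
    {τ u : ℚ_[l]} (hτ : 1 < ‖τ‖) (hu : u ≠ 0) (k : ℕ) :
    2 ^ k * m (Tb S Cd 0 ‖u / τ ^ k‖) ≤ m (Tb S Cd 0 ‖u‖) := by
  have h0 : τ ≠ 0 := norm_pos_iff.1 (one_pos.trans hτ)
  induction k with
  | zero => simp
  | succ k ih =>
    refine le_trans ?_ ih
    rw [pow_succ, mul_assoc]
    refine mul_le_mul_right (Tb_half S m hC (norm_pos_iff.2 (div_ne_zero hu (pow_ne_zero _ h0))) ?_) _
    rw [pow_succ, ← div_div, norm_div]
    exact div_lt_self (norm_pos_iff.2 (div_ne_zero hu (pow_ne_zero _ h0))) hτ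

theorem iter_hT (t : ℚ_[l]ˣ) (v : ℚ_[l]) (x : S.X) (i : ℕ) :
    (S.hs (dg t))^[i] (S.hs (up v) x) =
      S.hs (up (((t : ℚ_[l]) ^ 2) ^ i * v)) ((S.hs (dg t))^[i] x) := by
  induction i with
  | zero => simp
  | succ i ih =>
    rw [Function.iterate_succ_apply', Function.iterate_succ_apply', ih, Marg.hT,
      pow_succ' ((t : ℚ_[l]) ^ 2), mul_assoc]

theorem iter_h2 (a : HH l) (z : S.X × S.X) (i : ℕ) :
    (S.h2 (a, a))^[i] z = ((S.hs a)^[i] z.1, (S.hs a)^[i] z.2) := by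
  induction i with
  | zero => rfl
  | succ i ih =>
    rw [Function.iterate_succ_apply', Function.iterate_succ_apply', Function.iterate_succ_apply',
      ih]
    rfl

theorem iter_pow (a : HH l × HH l) (i : ℕ) : (S.h2 a)^[i] = S.h2 (a ^ i) := by
  induction i with
  | zero => rw [pow_zero, Join.h2_one, Function.iterate_zero]
  | succ i ih => rw [pow_succ, Join.h2_mul, Function.iterate_succ, ih]

theorem iter_U (t : ℚ_[l]ˣ) (v : ℚ_[l] × ℚ_[l]) (z : S.X × S.X) (i : ℕ) :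
    (S.h2 (dg t, dg t))^[i] (U S v z) =
      U S (((t : ℚ_[l]) ^ 2) ^ i • v) ((S.h2 (dg t, dg t))^[i] z) := by
  rw [iter_h2, iter_h2]
  simp only [U, Sp.h2, iter_hT, Prod.smul_fst, Prod.smul_snd, smul_eq_mul]

theorem W_iter (t : ℚ_[l]ˣ) (θ : Measure (S.X × S.X)) (i : ℕ) {v : ℚ_[l] × ℚ_[l]}
    (hv : ((t : ℚ_[l]) ^ 2) ^ i • v ∈ W S (θ.map (S.h2 ((dg t, dg t) ^ i)))) : v ∈ W S θ := by
  rw [mem_W] at hv ⊢
  have e : U S (((t : ℚ_[l]) ^ 2) ^ i • v) ∘ S.h2 ((dg t, dg t) ^ i) =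
      S.h2 ((dg t, dg t) ^ i) ∘ U S v := by
    funext z
    simp only [Function.comp, ← iter_pow, iter_U]
  rw [Measure.map_map (cont_U' S _).measurable (Join.h2_meas S _), e,
    ← Measure.map_map (Join.h2_meas S _) (cont_U' S _).measurable] at hv
  have := congrArg (Measure.map (S.h2 ((dg t, dg t) ^ i)⁻¹)) hv
  rwa [Measure.map_map (Join.h2_meas S _) (Join.h2_meas S _),
    Measure.map_map (Join.h2_meas S _) (Join.h2_meas S _), ← Join.h2_mul, inv_mul_cancel,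
    Join.h2_one, Measure.map_id, Measure.map_id] at this

/-- The unstable coordinate of a pair of group elements. -/
def vc (η : S.G × S.G) : ℚ_[l] × ℚ_[l] := (η.1.1 0 1 / η.1.1 0 0, η.2.1 0 1 / η.2.1 0 0)

theorem two_pts {r : ℝ} (hr : r ≤ 1) {t : ℚ_[l]ˣ} (ht : 1 < ‖(t : ℚ_[l])‖) {Cd : Set S.C}
    {η η' : S.G × S.G} (h : η ∈ (Marg.Nb r ×ˢ Cd) ×ˢ (Marg.Nb r ×ˢ Cd))
    (h' : η' ∈ (Marg.Nb r ×ˢ Cd) ×ˢ (Marg.Nb r ×ˢ Cd)) (z : S.X × S.X) (i : ℕ) :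
    ∃ ζ ∈ (Marg.Nb r ×ˢ Cd) ×ˢ (Marg.Nb r ×ˢ Cd), ∃ ζ' ∈ (Marg.Nb r ×ˢ Cd) ×ˢ (Marg.Nb r ×ˢ Cd),
      (S.h2 (dg t, dg t))^[i] (S.g2 η z) = S.g2 ζ (U S (((t : ℚ_[l]) ^ 2) ^ i • (vc S η - vc S η'))
        (S.g2 ζ'⁻¹ ((S.h2 (dg t, dg t))^[i] (S.g2 η' z)))) := by
  obtain ⟨p₁, a₁, -, b₁⟩ := Marg.shadow S hr ht h.1.1 η.1.2 z.1 i
  obtain ⟨p₂, a₂, -, b₂⟩ := Marg.shadow S hr ht h.2.1 η.2.2 z.2 i
  obtain ⟨q₁, c₁, -, d₁⟩ := Marg.shadow S hr ht h'.1.1 η'.1.2 z.1 i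
  obtain ⟨q₂, c₂, -, d₂⟩ := Marg.shadow S hr ht h'.2.1 η'.2.2 z.2 i
  refine ⟨((p₁, η.1.2), (p₂, η.2.2)), ⟨⟨a₁, h.1.2⟩, a₂, h.2.2⟩,
    ((q₁, η'.1.2), (q₂, η'.2.2)), ⟨⟨c₁, h'.1.2⟩, c₂, h'.2.2⟩, ?_⟩
  rw [iter_h2, iter_h2]
  simp only [Prod.mk.eta] at b₁ b₂ d₁ d₂
  simp only [Sp.g2, U, Sp.h2, b₁, b₂, d₁, d₂, Prod.fst_inv, Prod.snd_inv, inv_smul_smul, iter_hT,
    ← Marg.hU, vc, Prod.smul_fst, Prod.smul_snd, Prod.fst_sub, Prod.snd_sub, smul_eq_mul, mul_sub,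
    sub_add_cancel]

end Pool.Agent.Lib.MP_9177b7_ag.J.Line
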