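import Pool.Agent.Lib.MP_9177b7_ag.J.DefsU
import Pool.Agent.Lib.MP_9177b7_ag.J.Line2

/-!
A line of unipotents with frozen coordinates, first part: stabilisers and the compactness claim.
-/

open MeasureTheory ProbabilityTheory Filter Topology Set
open scoped MatrixGroups ENNReal NNReal Pointwise

noncomputable section

namespace Pool.Agent.Lib.MP_9177b7_ag.J.LineN

variable {l : ℕ} [Fact l.Prime] (S : Sp l) {ι : Type}

theorem hN_mul (v v' : ι → HH l) : S.hN (v * v') = S.hN v ∘ S.hN v' := by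
  funext z i
  simp only [Sp.hN, Pi.mul_apply, Marg.hs_mul, Function.comp]

theorem hN_one : S.hN (1 : ι → HH l) = id := by
  funext z i
  simp only [Sp.hN, Pi.one_apply, Marg.hs_one, id]

theorem hN_cont (v : ι → HH l) : Continuous (S.hN v) :=
  continuous_pi fun i => (Marg.cont_hs S (v i)).comp (continuous_apply i)

/-- The action of tuples of unipotents. -/
def U (v : ι → ℚ_[l]) : (ι → S.X) → ι → S.X := S.hN fun i => up (v i)

/-- The action of tuples of group elements. -/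
def gN (η : ι → S.G) (z : ι → S.X) : ι → S.X := fun i => η i • z i

theorem U_add (v w : ι → ℚ_[l]) (z : ι → S.X) : U S (v + w) z = U S v (U S w z) := by
  funext i
  simp only [U, Sp.hN, Pi.add_apply, Marg.hU]

theorem U_zero (z : ι → S.X) : U S 0 z = z := by
  funext i
  simp only [U, Sp.hN, Pi.zero_apply, Marg.up_zero, Marg.hs_one]

theorem cont_U : Continuous fun p : (ι → ℚ_[l]) × (ι → S.X) => U S p.1 p.2 := by
  refine continuous_pi fun i => ?_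
  have h : Continuous fun p : (ι → ℚ_[l]) × (ι → S.X) => (p.2 i, p.1 i) := by fun_prop
  exact (Marg.cont_U S).comp h

theorem cont_U' (v : ι → ℚ_[l]) : Continuous (U S v) := hN_cont S _

theorem cont_gN : Continuous fun p : (ι → S.G) × (ι → S.X) => gN S p.1 p.2 :=
  continuous_pi fun i =>
    ((continuous_apply i).comp continuous_fst).smul ((continuous_apply i).comp continuous_snd)

theorem cs_U {φ : (ι → S.X) → ℝ} (hc : HasCompactSupport φ) (v : ι → ℚ_[l]) :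
    HasCompactSupport fun z => φ (U S v z) :=
  hc.comp_homeomorph (Homeomorph.piCongrRight fun i => Homeomorph.smul ((up (v i), 1) : S.G))

theorem unifU {φ : (ι → S.X) → ℝ} (hφ : Continuous φ) (hc : HasCompactSupport φ)
    (v₀ : ι → ℚ_[l]) {η : ℝ} (hη : 0 < η) :
    ∀ᶠ v in 𝓝 v₀, ∀ z, |φ (U S v z) - φ (U S v₀ z)| ≤ η := by
  have h1 : ∀ᶠ v in 𝓝 (0 : ι → ℚ_[l]), ∀ x ∈ tsupport φ, |φ (U S v x) - φ x| < η := by
    refine hc.isCompact.eventually_forall_of_forall_eventually fun x _ => ?_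
    have : Continuous fun p : (ι → ℚ_[l]) × (ι → S.X) => |φ (U S p.1 p.2) - φ p.2| :=
      ((hφ.comp (cont_U S)).sub (hφ.comp continuous_snd)).abs
    exact this.continuousAt.eventually_lt continuousAt_const (by simpa [U_zero] using hη)
  have t1 : Tendsto (fun v : ι → ℚ_[l] => v - v₀) (𝓝 v₀) (𝓝 0) := by
    simpa using (continuous_sub_right v₀).tendsto v₀
  have t2 : Tendsto (fun v : ι → ℚ_[l] => v₀ - v) (𝓝 v₀) (𝓝 0) := by
    simpa using (continuous_sub_left v₀).tendsto v₀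
  filter_upwards [t1.eventually h1, t2.eventually h1] with v a b z
  by_cases hx : U S v₀ z ∈ tsupport φ
  · have := a _ hx
    rw [← U_add, sub_add_cancel] at this
    exact this.le
  · by_cases hy : U S v z ∈ tsupport φ
    · have := b _ hy
      rw [← U_add, sub_add_cancel, abs_sub_comm] at this
      exact this.le
    · rw [image_eq_zero_of_notMem_tsupport hx, image_eq_zero_of_notMem_tsupport hy]
      simpa using hη.le

variable [Fintype ι]

theorem hN_meas (v : ι → HH l) : Measurable (S.hN v) := (hN_cont S v).measurable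

theorem ext_cc {θ θ' : Measure (ι → S.X)} [IsProbabilityMeasure θ] [IsProbabilityMeasure θ']
    (h : ∀ φ : (ι → S.X) → ℝ, Continuous φ → HasCompactSupport φ →
      ∫ w, φ w ∂θ = ∫ w, φ w ∂θ') : θ = θ' :=
  Measure.ext_of_integral_eq_on_compactlySupported fun f =>
    h f (map_continuous f) f.hasCompactSupport

theorem closedW {P : Type} [TopologicalSpace P] (θ : P → Measure (ι → S.X))
    [∀ p, IsProbabilityMeasure (θ p)] {Q : Set P} (hQ : IsClosed Q)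
    (hc : ∀ φ : (ι → S.X) → ℝ, Continuous φ → HasCompactSupport φ →
      ContinuousOn (fun p => ∫ w, φ w ∂θ p) Q) :
    IsClosed {q : P × (ι → ℚ_[l]) | q.1 ∈ Q ∧ (θ q.1).map (U S q.2) = θ q.1} := by
  have hcl : IsClosed (Q ×ˢ (univ : Set (ι → ℚ_[l]))) := hQ.prod isClosed_univ
  have key : ∀ φ : (ι → S.X) → ℝ, Continuous φ → HasCompactSupport φ →
      ContinuousOn (fun q : P × (ι → ℚ_[l]) => ∫ w, φ (U S q.2 w) ∂θ q.1) (Q ×ˢ univ) := by
    intro φ hφ hs q₀ hq₀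
    have hint : ∀ v p, Integrable (fun w => φ (U S v w)) (θ p) := fun v p =>
      (hφ.comp (cont_U' S v)).integrable_of_hasCompactSupport (cs_U S hs v)
    rw [ContinuousWithinAt, Metric.tendsto_nhds]
    intro ε hε
    have h1 := (hc _ (hφ.comp (cont_U' S q₀.2)) (cs_U S hs q₀.2) q₀.1 hq₀.1)
    have h2 : ContinuousWithinAt (fun q : P × (ι → ℚ_[l]) => ∫ w, φ (U S q₀.2 w) ∂θ q.1)
        (Q ×ˢ univ) q₀ :=
      ContinuousWithinAt.comp (f := Prod.fst) h1 continuousWithinAt_fst fun q hq => hq.1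
    have h3 := Metric.tendsto_nhds.1 h2 (ε / 2) (half_pos hε)
    have h4 : ∀ᶠ q in 𝓝[Q ×ˢ univ] q₀, ∀ z, |φ (U S q.2 z) - φ (U S q₀.2 z)| ≤ ε / 2 :=
      ((continuous_snd.tendsto q₀).eventually (unifU S hφ hs q₀.2 (half_pos hε))).filter_mono
        nhdsWithin_le_nhds
    filter_upwards [h3, h4] with q a b
    have h5 : dist (∫ w, φ (U S q.2 w) ∂θ q.1) (∫ w, φ (U S q₀.2 w) ∂θ q.1) ≤ ε / 2 := by
      rw [dist_eq_norm, ← integral_sub (hint _ _) (hint _ _)]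
      have := norm_integral_le_of_norm_le_const (μ := θ q.1) (C := ε / 2)
        (f := fun w => φ (U S q.2 w) - φ (U S q₀.2 w)) (Eventually.of_forall b)
      simpa using this
    calc _ ≤ _ := dist_triangle _ (∫ w, φ (U S q₀.2 w) ∂θ q.1) _
      _ < ε / 2 + ε / 2 := add_lt_add_of_le_of_lt h5 a
      _ = ε := add_halves ε
  have e : {q : P × (ι → ℚ_[l]) | q.1 ∈ Q ∧ (θ q.1).map (U S q.2) = θ q.1} =
      Q ×ˢ univ ∩ ⋂ φ : {φ : (ι → S.X) → ℝ // Continuous φ ∧ HasCompactSupport φ},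
        (Q ×ˢ univ ∩ (fun q : P × (ι → ℚ_[l]) =>
          ∫ w, φ.1 (U S q.2 w) ∂θ q.1 - ∫ w, φ.1 w ∂θ q.1) ⁻¹' {0}) := by
    ext q
    simp only [mem_inter_iff, mem_iInter, mem_preimage, mem_singleton_iff, mem_prod, mem_univ,
      and_true, sub_eq_zero]
    have hm := (cont_U' S q.2).measurable.aemeasurable (μ := θ q.1)
    constructor
    · rintro ⟨h1, h2⟩
      refine ⟨h1, fun φ => ⟨h1, ?_⟩⟩
      rw [← integral_map hm φ.2.1.aestronglyMeasurable, h2]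
    · rintro ⟨h1, h2⟩
      refine ⟨h1, ?_⟩
      have := Measure.isProbabilityMeasure_map hm
      refine ext_cc S fun φ a b => ?_
      rw [integral_map hm a.aestronglyMeasurable]
      exact (h2 ⟨φ, a, b⟩).2
  rw [e]
  refine hcl.inter (isClosed_iInter fun φ => ?_)
  refine ContinuousOn.preimage_isClosed_of_isClosed ?_ hcl isClosed_singleton
  exact (key _ φ.2.1 φ.2.2).sub ((hc _ φ.2.1 φ.2.2).comp continuousOn_fst fun q hq => hq.1)

/-- The unipotent stabiliser of a measure, with the coordinates in `A` frozen. -/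
def W (A : Set ι) (θ : Measure (ι → S.X)) : AddSubgroup (ι → ℚ_[l]) where
  carrier := {v | (∀ i ∈ A, v i = 0) ∧ θ.map (U S v) = θ}
  zero_mem' := by
    refine ⟨fun _ _ => rfl, ?_⟩
    rw [show U S (0 : ι → ℚ_[l]) = id from funext (U_zero S), Measure.map_id]
  add_mem' {v w} h h' := by
    refine ⟨fun i hi => by rw [Pi.add_apply, h.1 i hi, h'.1 i hi, add_zero], ?_⟩
    rw [show U S (v + w) = U S v ∘ U S w from funext (U_add S v w),
      ← Measure.map_map (cont_U' S v).measurable (cont_U' S w).measurable, h'.2, h.2]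
  neg_mem' {v} h := by
    refine ⟨fun i hi => by rw [Pi.neg_apply, h.1 i hi, neg_zero], ?_⟩
    conv_lhs => rw [← h.2]
    rw [Measure.map_map (cont_U' S _).measurable (cont_U' S _).measurable,
      show U S (-v) ∘ U S v = id from funext fun z => by
        simp only [Function.comp, ← U_add, neg_add_cancel, U_zero, id], Measure.map_id]

theorem mem_W {A : Set ι} {θ : Measure (ι → S.X)} {v : ι → ℚ_[l]} :
    v ∈ W S A θ ↔ (∀ i ∈ A, v i = 0) ∧ θ.map (U S v) = θ := Iff.rfl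

omit S [Fintype ι] in
theorem closed_zero (A : Set ι) : IsClosed {v : ι → ℚ_[l] | ∀ i ∈ A, v i = 0} := by
  have e : {v : ι → ℚ_[l] | ∀ i ∈ A, v i = 0} = ⋂ i ∈ A, {v : ι → ℚ_[l] | v i = 0} := by
    ext v
    simp
  rw [e]
  exact isClosed_biInter fun i _ => isClosed_eq (continuous_apply i) continuous_const

theorem closed_W (A : Set ι) (θ : Measure (ι → S.X)) [IsProbabilityMeasure θ] :
    IsClosed (W S A θ : Set (ι → ℚ_[l])) := by
  have := closedW S (fun _ : Unit => θ) isClosed_univ fun _ _ _ => continuousOn_const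
  have h2 := (closed_zero A).inter (this.preimage (Continuous.prodMk_right ()))
  convert h2 using 1
  ext v
  simp [mem_W]

omit S in
theorem line_of_unbdd (N : AddSubgroup (ι → ℚ_[l])) (hN : IsClosed (N : Set (ι → ℚ_[l])))
    (hu : ∀ R : ℝ, ∃ v ∈ N, R < ‖v‖) : ∃ e : ι → ℚ_[l], e ≠ 0 ∧ ∀ s : ℚ_[l], s • e ∈ N := by
  have h1 : ∀ v ∈ N, ∀ s : ℚ_[l], ‖s‖ ≤ 1 → s • v ∈ N := by
    intro v hv s hs
    have hcl : IsClosed {x : ℤ_[l] | (x : ℚ_[l]) • v ∈ N} :=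
      hN.preimage (f := fun x : ℤ_[l] => (x : ℚ_[l]) • v)
        (continuous_subtype_val.smul continuous_const)
    refine PadicInt.denseRange_intCast.induction_on (p := fun x : ℤ_[l] => (x : ℚ_[l]) • v ∈ N)
      (⟨s, hs⟩ : ℤ_[l]) hcl fun n => ?_
    rw [PadicInt.coe_intCast, Int.cast_smul_eq_zsmul]
    exact N.zsmul_mem hv n
  choose v hv hv' using fun n : ℕ => hu n
  have h2 : ∀ n, ∃ c : ℚ_[l], ‖c‖ * ‖v n‖ = 1 := by
    intro n
    have h0 : 0 < ‖v n‖ := (Nat.cast_nonneg n).trans_lt (hv' n)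
    obtain ⟨i, hi⟩ : ∃ i, ‖v n‖ ≤ ‖v n i‖ := by
      by_contra h
      push Not at h
      exact lt_irrefl _ ((pi_norm_lt_iff h0).2 h)
    have e : ‖v n‖ = ‖v n i‖ := le_antisymm hi (norm_le_pi_norm _ i)
    refine ⟨(v n i)⁻¹, ?_⟩
    rw [norm_inv, ← e, inv_mul_cancel₀ h0.ne']
  choose c hc using h2
  obtain ⟨e, he, φ, hφ, hlim⟩ := (isCompact_sphere (0 : ι → ℚ_[l]) 1).tendsto_subseq
    (x := fun n => c n • v n) fun n => by simp [norm_smul, hc]
  refine ⟨e, ?_, fun s => ?_⟩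
  · rintro rfl
    simp at he
  · refine hN.mem_of_tendsto (hlim.const_smul s) ?_
    filter_upwards [eventually_ge_atTop ⌈‖s‖⌉₊] with n hn
    simp only [Function.comp, smul_smul]
    refine h1 _ (hv _) _ ?_
    have a1 : ‖s‖ ≤ ‖v (φ n)‖ :=
      ((Nat.le_ceil _).trans (Nat.cast_le.2 (hn.trans (hφ.id_le n)))).trans (hv' _).le
    rw [norm_mul, ← hc (φ n), mul_comm]
    exact mul_le_mul_of_nonneg_left a1 (norm_nonneg _)

theorem closedP {Θ : Kernel (ι → S.X) (ι → S.X)} [IsMarkovKernel Θ] {Q : Set (ι → S.X)}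
    (hQ : IsClosed Q)
    (hc : ∀ φ : (ι → S.X) → ℝ, Continuous φ → HasCompactSupport φ →
      ContinuousOn (fun z => ∫ w, φ w ∂Θ z) Q) :
    IsClosed {p : (ι → S.X) × (ι → S.X) | p.1 ∈ Q ∧ p.2 ∈ Q ∧ Θ p.2 = Θ p.1} := by
  have hcl : IsClosed (Q ×ˢ Q) := hQ.prod hQ
  have e : {p : (ι → S.X) × (ι → S.X) | p.1 ∈ Q ∧ p.2 ∈ Q ∧ Θ p.2 = Θ p.1} =
      Q ×ˢ Q ∩ ⋂ φ : {φ : (ι → S.X) → ℝ // Continuous φ ∧ HasCompactSupport φ},
      (Q ×ˢ Q ∩ (fun q : (ι → S.X) × (ι → S.X) =>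
        ∫ w, φ.1 w ∂Θ q.2 - ∫ w, φ.1 w ∂Θ q.1) ⁻¹' {0}) := by
    ext q
    simp only [mem_ofPred_eq, mem_inter_iff, mem_iInter, mem_preimage, mem_singleton_iff, mem_prod,
      sub_eq_zero]
    constructor
    · rintro ⟨h1, h2, h3⟩
      exact ⟨⟨h1, h2⟩, fun φ => ⟨⟨h1, h2⟩, by rw [h3]⟩⟩
    · rintro ⟨h1, h2⟩
      exact ⟨h1.1, h1.2, ext_cc S fun φ a b => (h2 ⟨φ, a, b⟩).2⟩
  rw [e]
  refine hcl.inter (isClosed_iInter fun φ => ?_)
  refine ContinuousOn.preimage_isClosed_of_isClosed ?_ hcl isClosed_singleton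
  exact ((hc _ φ.2.1 φ.2.2).comp continuousOn_snd fun q hq => hq.2).sub
    ((hc _ φ.2.1 φ.2.2).comp continuousOn_fst fun q hq => hq.1)

/-- The compactness claim. -/
theorem claim {A : Set ι} {Θ : Kernel (ι → S.X) (ι → S.X)} [IsMarkovKernel Θ]
    {Z Q : Set (ι → S.X)}
    (equi : ∀ v z, z ∈ Z → S.hN v z ∈ Z → Θ (S.hN v z) = (Θ z).map (S.hN v))
    (hQ : IsCompact Q) (hZ : Q ⊆ Z)
    (hc : ∀ φ : (ι → S.X) → ℝ, Continuous φ → HasCompactSupport φ →
      ContinuousOn (fun z => ∫ w, φ w ∂Θ z) Q) {R R' : ℝ} (hR : 0 < R)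
    (hW : ∀ z ∈ Q, ∀ v ∈ W S A (Θ z), ‖v‖ ≤ R) :
    ∀ᶠ η in 𝓝 (1 : (ι → S.G) × (ι → S.G)), ∀ w ∈ Q, ∀ v : ι → ℚ_[l], (∀ i ∈ A, v i = 0) →
      ‖v‖ ≤ R' → gN S η.1 (U S v (gN S η.2⁻¹ w)) ∈ Q →
      Θ (gN S η.1 (U S v (gN S η.2⁻¹ w))) = Θ w → ‖v‖ ≤ R := by
  let K : Set (ι → ℚ_[l]) :=
    (Metric.closedBall 0 R' \ Metric.closedBall 0 R) ∩ {v | ∀ i ∈ A, v i = 0}
  have hK : IsCompact K :=
    ((isCompact_closedBall _ _).diff (IsUltrametricDist.isOpen_closedBall _ hR.ne')).inter_right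
      (closed_zero A)
  let P : Set ((ι → S.X) × (ι → S.X)) := {p | p.1 ∈ Q ∧ p.2 ∈ Q ∧ Θ p.2 = Θ p.1}
  have hP : IsClosed P := closedP S hQ.isClosed hc
  have cg := cont_gN S (ι := ι)
  let F : ((ι → S.G) × (ι → S.G)) × ((ι → S.X) × (ι → ℚ_[l])) → (ι → S.X) × (ι → S.X) :=
    fun p => (p.2.1, gN S p.1.1 (U S p.2.2 (gN S p.1.2⁻¹ p.2.1)))
  have hF : Continuous F :=
    continuous_snd.fst.prodMk (cg.comp (continuous_fst.fst.prodMk ((cont_U S).comp
      (continuous_snd.snd.prodMk (cg.comp (continuous_fst.snd.inv.prodMk continuous_snd.fst))))))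
  have h1 : ∀ᶠ η in 𝓝 (1 : (ι → S.G) × (ι → S.G)), ∀ y ∈ Q ×ˢ K, F (η, y) ∉ P := by
    refine (hQ.prod hK).eventually_forall_of_forall_eventually fun y hy => ?_
    refine (hP.isOpen_compl.preimage hF).mem_nhds ?_
    rintro ⟨a, b, c⟩
    have g1 : ∀ z : ι → S.X, gN S 1 z = z := fun z => funext fun i => by simp [gN]
    simp only [F, Prod.fst_one, Prod.snd_one, inv_one, g1] at a b c
    have d := equi (fun i => up (y.2 i)) y.1 (hZ a) (hZ b)
    refine hy.2.1.2 (mem_closedBall_zero_iff.2 (hW _ a _ ⟨hy.2.2, ?_⟩))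
    exact d.symm.trans c
  filter_upwards [h1] with η h w hw v hA hv a b
  by_contra hlt
  exact h (w, v)
    ⟨hw, ⟨mem_closedBall_zero_iff.2 hv, fun h' => hlt (mem_closedBall_zero_iff.1 h')⟩, hA⟩
    ⟨hw, a, b⟩

/-- Measurability of the sets with bounded stabiliser inside a Lusin set. -/
theorem meas_bdd {A : Set ι} {Θ : Kernel (ι → S.X) (ι → S.X)} [IsMarkovKernel Θ]
    {Q : Set (ι → S.X)} (hQ : IsCompact Q)
    (hc : ∀ φ : (ι → S.X) → ℝ, Continuous φ → HasCompactSupport φ →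
      ContinuousOn (fun z => ∫ w, φ w ∂Θ z) Q) {R : ℝ} (hR : 0 < R) :
    MeasurableSet {z | z ∈ Q ∧ ∀ v ∈ W S A (Θ z), ‖v‖ ≤ R} := by
  have h1 := closedW S (fun z => Θ z) hQ.isClosed hc
  have e : {z | z ∈ Q ∧ ∀ v ∈ W S A (Θ z), ‖v‖ ≤ R} = Q \ ⋃ n : ℕ, Prod.fst ''
      (Q ×ˢ ((Metric.closedBall (0 : ι → ℚ_[l]) n \ Metric.closedBall 0 R) ∩
          {v | ∀ i ∈ A, v i = 0}) ∩
        {q | q.1 ∈ Q ∧ (Θ q.1).map (U S q.2) = Θ q.1}) := by
    ext z
    constructor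
    · rintro ⟨a, b⟩
      refine ⟨a, fun h => ?_⟩
      obtain ⟨n, q, ⟨c, d⟩, rfl⟩ := mem_iUnion.1 h
      exact c.2.1.2 (mem_closedBall_zero_iff.2 (b _ ⟨c.2.2, d.2⟩))
    · rintro ⟨a, b⟩
      refine ⟨a, fun v hv => ?_⟩
      by_contra hlt
      exact b (mem_iUnion.2 ⟨⌈‖v‖⌉₊, (z, v), ⟨⟨a, ⟨mem_closedBall_zero_iff.2 (Nat.le_ceil _),
        fun h' => hlt (mem_closedBall_zero_iff.1 h')⟩, hv.1⟩, a, hv.2⟩, rfl⟩)
  rw [e]
  refine hQ.measurableSet.diff (MeasurableSet.iUnion fun n => IsCompact.measurableSet ?_)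
  exact ((hQ.prod (((isCompact_closedBall _ _).diff
    (IsUltrametricDist.isOpen_closedBall _ hR.ne')).inter_right (closed_zero A))).inter_right
      h1).image continuous_fst

theorem approx {A : Set ι} {ν : Measure (ι → S.X)} [IsProbabilityMeasure ν]
    {Θ : Kernel (ι → S.X) (ι → S.X)} [IsMarkovKernel Θ] {Z : Set (ι → S.X)}
    (lusin : ∀ ε : ℝ≥0∞, 0 < ε → ∃ Q : Set (ι → S.X), IsCompact Q ∧ Q ⊆ Z ∧ ν Qᶜ < ε ∧
      ∀ φ : (ι → S.X) → ℝ, Continuous φ → HasCompactSupport φ →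
        ContinuousOn (fun z => ∫ w, φ w ∂Θ z) Q) {τ : ℚ_[l]} (hτ : 1 < ‖τ‖) {ε : ℝ≥0∞}
    (hε : 0 < ε) :
    ∃ (Q : Set (ι → S.X)) (u : ℚ_[l]), IsCompact Q ∧ Q ⊆ Z ∧
      (∀ φ : (ι → S.X) → ℝ, Continuous φ → HasCompactSupport φ →
        ContinuousOn (fun z => ∫ w, φ w ∂Θ z) Q) ∧ 1 ≤ ‖u‖ ∧
      (∀ z ∈ Q, ∀ v ∈ W S A (Θ z), ‖v‖ ≤ ‖u‖) ∧
      ν ({z | ∃ R : ℝ, ∀ v ∈ W S A (Θ z), ‖v‖ ≤ R} \ Q) < ε + ε + ε := by
  obtain ⟨L, hL, hLZ, hLε, hLc⟩ := lusin ε hε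
  let D : ℕ → Set (ι → S.X) := fun n => {z | z ∈ L ∧ ∀ v ∈ W S A (Θ z), ‖v‖ ≤ ‖τ‖ ^ n}
  have hD : ∀ n, MeasurableSet (D n) := fun n =>
    meas_bdd S hL hLc (pow_pos (one_pos.trans hτ) n)
  have hanti : Antitone fun n => (⋃ j, D j) \ D n := by
    intro a b hab z hz
    exact ⟨hz.1, fun h => hz.2 ⟨h.1, fun v hv => (h.2 v hv).trans (pow_le_pow_right₀ hτ.le hab)⟩⟩
  have hlim := tendsto_measure_iInter_atTop (μ := ν)
    (fun n => ((MeasurableSet.iUnion hD).diff (hD n)).nullMeasurableSet) hanti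
    ⟨0, measure_ne_top _ _⟩
  have hemp : (⋂ n, (⋃ j, D j) \ D n) = ∅ := by
    refine eq_empty_of_forall_notMem fun z hz => ?_
    obtain ⟨j, hj⟩ := mem_iUnion.1 (mem_iInter.1 hz 0).1
    exact (mem_iInter.1 hz j).2 hj
  rw [hemp, measure_empty] at hlim
  obtain ⟨n, hn⟩ := (hlim.eventually (gt_mem_nhds hε)).exists
  obtain ⟨Q, hQD, hQ, hQε⟩ := (hD n).exists_isCompact_sdiff_lt (μ := ν) (measure_ne_top _ _) hε.ne'
  refine ⟨Q, τ ^ n, hQ, fun z hz => hLZ (hQD hz).1,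
    fun φ a b => (hLc φ a b).mono fun z hz => (hQD hz).1,
    by rw [norm_pow]; exact one_le_pow₀ hτ.le,
    fun z hz v hv => by rw [norm_pow]; exact (hQD hz).2 v hv, ?_⟩
  have hsub : {z | ∃ R : ℝ, ∀ v ∈ W S A (Θ z), ‖v‖ ≤ R} \ Q ⊆
      Lᶜ ∪ ((⋃ j, D j) \ D n) ∪ (D n \ Q) := by
    rintro z ⟨⟨R, hR⟩, hz⟩
    by_cases h1 : z ∈ D n
    · exact Or.inr ⟨h1, hz⟩
    · by_cases h2 : z ∈ L
      · obtain ⟨j, hj⟩ := pow_unbounded_of_one_lt R hτ
        exact Or.inl (Or.inr ⟨mem_iUnion.2 ⟨j, h2, fun v hv => (hR v hv).trans hj.le⟩, h1⟩)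
      · exact Or.inl (Or.inl h2)
  refine ((measure_mono hsub).trans (measure_union_le _ _)).trans_lt (ENNReal.add_lt_add ?_ hQε)
  exact (measure_union_le _ _).trans_lt (ENNReal.add_lt_add hLε hn)

end Pool.Agent.Lib.MP_9177b7_ag.J.LineN
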