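import Pool.Agent.Lib.MP_9177b7_ag.J.DefsE

/-!
Maximal entropy for the marginals, first part: digits, the counting bound, elementary probability.
-/

open MeasureTheory ProbabilityTheory Filter Topology Set
open scoped MatrixGroups ENNReal NNReal

noncomputable section

namespace Pool.Agent.Lib.MP_9177b7_ag.J.Marg

variable {l : ℕ} [Fact l.Prime]

/-- A system of representatives of the unit ball modulo the ball of radius `‖u‖⁻¹`. -/
structure Dig (u : ℚ_[l]) (D : Type) [Fintype D] (ρ : D → ℚ_[l]) : Prop where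
  card : (Fintype.card D : ℝ) = ‖u‖
  le : ∀ d, ‖ρ d‖ ≤ 1
  cov : ∀ s : ℚ_[l], ‖s‖ ≤ 1 → ∃ d, ‖s - ρ d‖ ≤ ‖u‖⁻¹
  perm : ∀ s : ℚ_[l], ‖s‖ ≤ 1 → ∃ σ : D ≃ D, ∀ d, ‖ρ d + s - ρ (σ d)‖ ≤ ‖u‖⁻¹

theorem digits (u : ℚ_[l]) (hu : 1 < ‖u‖) :
    ∃ (D : Type) (_ : Fintype D) (ρ : D → ℚ_[l]), Dig u D ρ := by
  have hl : (1 : ℝ) < l := by exact_mod_cast (Fact.out : l.Prime).one_lt
  have hu0 : u ≠ 0 := by
    rintro rfl
    simp only [norm_zero] at hu
    linarith
  have hn := Padic.norm_eq_zpow_neg_valuation hu0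
  have hv : 0 < -u.valuation := by
    rw [hn] at hu
    exact (one_lt_zpow_iff_right₀ hl).1 hu
  obtain ⟨e, he⟩ : ∃ e : ℕ, -u.valuation = e := ⟨(-u.valuation).toNat, by omega⟩
  rw [he, zpow_natCast] at hn
  have : NeZero (l ^ e) := ⟨pow_ne_zero _ (Fact.out : l.Prime).ne_zero⟩
  have key : ∀ (s : ℤ_[l]) (d : ZMod (l ^ e)),
      ‖((d.val : ℕ) : ℚ_[l]) + s - (((d + PadicInt.toZModPow e s).val : ℕ) : ℚ_[l])‖ ≤ ‖u‖⁻¹ := by
    intro s d
    have h1 : ((d.val : ℕ) : ℤ_[l]) + s - (((d + PadicInt.toZModPow e s).val : ℕ) : ℤ_[l]) ∈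
        Ideal.span {(l : ℤ_[l]) ^ e} := by
      rw [← PadicInt.ker_toZModPow, RingHom.mem_ker]
      simp only [map_sub, map_add, map_natCast, ZMod.natCast_zmod_val, sub_self]
    have h2 := (PadicInt.norm_le_pow_iff_mem_span_pow _ e).2 h1
    rw [zpow_neg, zpow_natCast, ← hn, PadicInt.norm_def] at h2
    simpa only [PadicInt.coe_sub, PadicInt.coe_add, PadicInt.coe_natCast] using h2
  refine ⟨ZMod (l ^ e), inferInstance, fun d => ((d.val : ℕ) : ℚ_[l]), ?_, ?_, ?_, ?_⟩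
  · rw [ZMod.card, hn]
    simp
  · intro d
    exact IsUltrametricDist.norm_natCast_le_one _ _
  · intro s hs
    refine ⟨0 + PadicInt.toZModPow e ⟨s, hs⟩, ?_⟩
    simpa using key ⟨s, hs⟩ 0
  · intro s hs
    exact ⟨Equiv.addRight (PadicInt.toZModPow e ⟨s, hs⟩), fun d => key ⟨s, hs⟩ d⟩

section count

variable {X : Type} {U : ℚ_[l] → X → X} {T : X → X} {u : ℚ_[l]} {F : X → ℝ}

theorem bs_inv (hu : 1 < ‖u‖) (hT : ∀ v x, T (U v x) = U (u * v) (T x))
    (hinv : ∀ v x, ‖v‖ ≤ ‖u‖⁻¹ → F (U v x) = F x) :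
    ∀ (k : ℕ) (v : ℚ_[l]) (x : X), ‖v‖ ≤ (‖u‖ ^ k)⁻¹ →
      birkhoffSum T F k (U v x) = birkhoffSum T F k x := by
  intro k
  induction k with
  | zero => intro v x _; simp
  | succ k ih =>
    intro v x hv
    have h0 : 0 < ‖u‖ := by linarith
    have h1 : 1 ≤ ‖u‖ ^ k := one_le_pow₀ hu.le
    rw [birkhoffSum_succ', birkhoffSum_succ', hT, ih, hinv]
    · refine hv.trans (inv_anti₀ h0 ?_)
      rw [pow_succ]
      nlinarith
    · rw [norm_mul]
      calc ‖u‖ * ‖v‖ ≤ ‖u‖ * (‖u‖ ^ (k + 1))⁻¹ := by gcongr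
        _ = (‖u‖ ^ k)⁻¹ := by field_simp; ring

theorem kraft {D : Type} [Fintype D] {ρ : D → ℚ_[l]} (hD : Dig u D ρ) (hu : 1 < ‖u‖)
    (hU : ∀ v w x, U (v + w) x = U v (U w x)) (hT : ∀ v x, T (U v x) = U (u * v) (T x))
    (hinv : ∀ v x, ‖v‖ ≤ ‖u‖⁻¹ → F (U v x) = F x) (hsum : ∀ x, ∑ d, F (U (ρ d) x) = 0)
    {M ε : ℝ} (hM : ∀ x, |F x| ≤ M) (hε : 0 ≤ ε) (hεM : ε * M ≤ 1) :
    ∀ k : ℕ, ∃ (ι : Type) (_ : Fintype ι) (vv : ι → ℚ_[l]), (∀ i, ‖vv i‖ ≤ 1) ∧
      (∀ v : ℚ_[l], ‖v‖ ≤ 1 → ∃ i, ‖v - vv i‖ ≤ (‖u‖ ^ k)⁻¹) ∧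
      ∀ x, ∑ i, Real.exp (ε * birkhoffSum T F k (U (vv i) x)) ≤
        (‖u‖ * Real.exp (ε ^ 2 * M ^ 2)) ^ k := by
  have h0 : 0 < ‖u‖ := by linarith
  have hu0 : u ≠ 0 := norm_pos_iff.1 h0
  intro k
  induction k with
  | zero =>
    refine ⟨Unit, inferInstance, fun _ => 0, by simp, fun v hv => ⟨(), by simpa using hv⟩, ?_⟩
    intro x
    simp
  | succ k ih =>
    obtain ⟨ι, _, vv, h1, h2, h3⟩ := ih
    have hs : ∀ i, ‖vv i / u‖ ≤ ‖u‖⁻¹ := by
      intro i
      rw [norm_div, div_eq_mul_inv]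
      exact mul_le_of_le_one_left (inv_nonneg.2 h0.le) (h1 i)
    refine ⟨D × ι, inferInstance, fun p => vv p.2 / u + ρ p.1, ?_, ?_, ?_⟩
    · intro p
      refine (IsUltrametricDist.norm_add_le_max _ _).trans (max_le ((hs _).trans ?_) (hD.le _))
      exact inv_le_one_of_one_le₀ hu.le
    · intro v hv
      obtain ⟨d, hd⟩ := hD.cov v hv
      obtain ⟨i, hi⟩ := h2 (u * (v - ρ d)) (by
        rw [norm_mul]
        calc ‖u‖ * ‖v - ρ d‖ ≤ ‖u‖ * ‖u‖⁻¹ := by gcongr
          _ = 1 := mul_inv_cancel₀ h0.ne')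
      refine ⟨(d, i), ?_⟩
      have : v - (vv i / u + ρ d) = (u * (v - ρ d) - vv i) / u := by field_simp; ring
      rw [this, norm_div]
      calc ‖u * (v - ρ d) - vv i‖ / ‖u‖ ≤ (‖u‖ ^ k)⁻¹ / ‖u‖ := by gcongr
        _ = (‖u‖ ^ (k + 1))⁻¹ := by field_simp; ring
    · intro x
      rw [Fintype.sum_prod_type]
      have e1 : ∀ d i, Real.exp (ε * birkhoffSum T F (k + 1) (U (vv i / u + ρ d) x)) =
          Real.exp (ε * F (U (ρ d) x)) *
            Real.exp (ε * birkhoffSum T F k (U (vv i) (T (U (ρ d) x)))) := by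
        intro d i
        rw [birkhoffSum_succ', hU, hinv _ _ (hs i), hT, mul_div_cancel₀ _ hu0, mul_add,
          Real.exp_add]
      have e2 : ∀ d, Real.exp (ε * F (U (ρ d) x)) ≤ ε * F (U (ρ d) x) + (1 + ε ^ 2 * M ^ 2) := by
        intro d
        have a1 : |ε * F (U (ρ d) x)| ≤ ε * M := by
          rw [abs_mul, abs_of_nonneg hε]
          exact mul_le_mul_of_nonneg_left (hM _) hε
        have a2 := (abs_le.1 (Real.abs_exp_sub_one_sub_id_le (a1.trans hεM))).2
        have a3 : (ε * F (U (ρ d) x)) ^ 2 ≤ (ε * M) ^ 2 := by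
          rw [← sq_abs]
          exact pow_le_pow_left₀ (abs_nonneg _) a1 2
        nlinarith
      have e3 : ∑ d, Real.exp (ε * F (U (ρ d) x)) ≤ ‖u‖ * Real.exp (ε ^ 2 * M ^ 2) := by
        refine (Finset.sum_le_sum fun d _ => e2 d).trans ?_
        rw [Finset.sum_add_distrib, ← Finset.mul_sum, hsum, Finset.sum_const, Finset.card_univ,
          nsmul_eq_mul, hD.card, mul_zero, zero_add]
        have := Real.add_one_le_exp (ε ^ 2 * M ^ 2)
        gcongr
        linarith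
      simp only [e1, ← Finset.mul_sum]
      calc ∑ d, Real.exp (ε * F (U (ρ d) x)) *
            ∑ i, Real.exp (ε * birkhoffSum T F k (U (vv i) (T (U (ρ d) x))))
          ≤ ∑ d, Real.exp (ε * F (U (ρ d) x)) * (‖u‖ * Real.exp (ε ^ 2 * M ^ 2)) ^ k :=
            Finset.sum_le_sum fun d _ => mul_le_mul_of_nonneg_left (h3 _) (Real.exp_pos _).le
        _ ≤ (‖u‖ * Real.exp (ε ^ 2 * M ^ 2)) * (‖u‖ * Real.exp (ε ^ 2 * M ^ 2)) ^ k := by
            rw [← Finset.sum_mul]
            gcongr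
        _ = _ := by ring

/-- Few cosets carry a large Birkhoff sum. -/
theorem count {D : Type} [Fintype D] {ρ : D → ℚ_[l]} (hD : Dig u D ρ) (hu : 1 < ‖u‖)
    (hU : ∀ v w x, U (v + w) x = U v (U w x)) (hT : ∀ v x, T (U v x) = U (u * v) (T x))
    (hinv : ∀ v x, ‖v‖ ≤ ‖u‖⁻¹ → F (U v x) = F x) (hsum : ∀ x, ∑ d, F (U (ρ d) x) = 0)
    {M : ℝ} (hM : ∀ x, |F x| ≤ M) {τ : ℝ} (hτ : 0 < τ) :
    ∃ c : ℝ, 0 < c ∧ ∀ (k : ℕ) (x : X), ∃ V : Finset ℚ_[l],
      (V.card : ℝ) ≤ ‖u‖ ^ k * Real.exp (-(c * k)) ∧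
      ∀ v : ℚ_[l], ‖v‖ ≤ 1 → τ * k ≤ birkhoffSum T F k (U v x) →
        ∃ w ∈ V, ‖v - w‖ ≤ (‖u‖ ^ k)⁻¹ := by
  classical
  set M' := |M| + τ with hM'
  have hM1 : ∀ x, |F x| ≤ M' := fun x => (hM x).trans (by have := le_abs_self M; linarith)
  have hM2 : τ ≤ M' := by have := abs_nonneg M; linarith
  have hM0 : 0 < M' := by linarith
  set ε := τ / (2 * M' ^ 2) with hε
  have hε0 : 0 < ε := by positivity
  have hεM : ε * M' ≤ 1 := by
    rw [hε, div_mul_eq_mul_div, div_le_one (by positivity)]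
    nlinarith
  have hc : ε * τ - ε ^ 2 * M' ^ 2 = ε * τ / 2 := by
    rw [hε]
    field_simp
    ring
  refine ⟨ε * τ / 2, by positivity, fun k x => ?_⟩
  obtain ⟨ι, _, vv, -, h2, h3⟩ := kraft hD hu hU hT hinv hsum hM1 hε0.le hεM k
  set I := Finset.univ.filter fun i => τ * k ≤ birkhoffSum T F k (U (vv i) x) with hI
  refine ⟨I.image vv, ?_, ?_⟩
  · have a1 : ((I.image vv).card : ℝ) ≤ I.card := by exact_mod_cast Finset.card_image_le
    have a2 : (I.card : ℝ) * Real.exp (ε * (τ * k)) ≤ (‖u‖ * Real.exp (ε ^ 2 * M' ^ 2)) ^ k := by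
      refine le_trans ?_ (h3 x)
      rw [← nsmul_eq_mul, ← Finset.sum_const]
      refine le_trans (Finset.sum_le_sum fun i hi => ?_)
        (Finset.sum_le_univ_sum_of_nonneg fun i => (Real.exp_pos _).le)
      exact Real.exp_le_exp.2 (mul_le_mul_of_nonneg_left (Finset.mem_filter.1 hi).2 hε0.le)
    refine a1.trans ?_
    rw [← le_div_iff₀ (Real.exp_pos _), mul_pow, ← Real.exp_nat_mul, mul_div_assoc,
      ← Real.exp_sub] at a2
    refine a2.trans (le_of_eq ?_)
    congr 2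
    rw [← hc]
    ring
  · intro v hv hb
    obtain ⟨i, hi⟩ := h2 v hv
    refine ⟨vv i, Finset.mem_image_of_mem _ (Finset.mem_filter.2 ⟨Finset.mem_univ _, ?_⟩), hi⟩
    have : v = (v - vv i) + vv i := by ring
    rwa [this, hU, bs_inv hu hT hinv k _ _ hi] at hb

end count

section prob

variable {X : Type} [MeasurableSpace X]

/-- A positive mean gives a positive probability of a large Birkhoff sum. -/
theorem prob_large (μ : Measure X) [IsProbabilityMeasure μ] {T : X → X}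
    (hT : MeasurePreserving T μ μ) {F : X → ℝ} (hF : Measurable F) {M δ : ℝ} (hM0 : 0 < M)
    (hM : ∀ x, |F x| ≤ M) (hδ0 : 0 < δ) (hδ : δ ≤ ∫ x, F x ∂μ) {k : ℕ} (hk : 1 ≤ k) :
    δ / (2 * M) ≤ μ.real {x | δ / 2 * k ≤ birkhoffSum T F k x} := by
  have hk0 : (0 : ℝ) < k := by exact_mod_cast hk
  have hm : ∀ i : ℕ, Measurable fun x => F (T^[i] x) := fun i =>
    hF.comp (hT.measurable.iterate i)
  have hi : ∀ i : ℕ, Integrable (fun x => F (T^[i] x)) μ := fun i =>
    Integrable.of_bound (hm i).aestronglyMeasurable M (Eventually.of_forall fun x => hM _)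
  have hms : Measurable (birkhoffSum T F k) := Finset.measurable_sum _ fun i _ => hm i
  set A := {x | δ / 2 * k ≤ birkhoffSum T F k x} with hA
  have hAm : MeasurableSet A := measurableSet_le measurable_const hms
  have e1 : ∫ x, birkhoffSum T F k x ∂μ = k * ∫ x, F x ∂μ := by
    simp only [birkhoffSum]
    rw [integral_finsetSum _ fun i _ => hi i]
    have : ∀ i ∈ Finset.range k, ∫ x, F (T^[i] x) ∂μ = ∫ x, F x ∂μ := by
      intro i _
      rw [← integral_map (hT.iterate i).measurable.aemeasurable hF.aestronglyMeasurable,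
        (hT.iterate i).map_eq]
    rw [Finset.sum_congr rfl this]
    simp
  have e2 : ∫ x, birkhoffSum T F k x ∂μ ≤
      ∫ x, (δ / 2 * k + A.indicator (fun _ => M * k) x) ∂μ := by
    refine integral_mono (integrable_finsetSum _ fun i _ => hi i)
      ((integrable_const _).add ((integrable_const _).indicator hAm)) fun x => ?_
    by_cases hx : x ∈ A
    · simp only [indicator_of_mem hx]
      have : birkhoffSum T F k x ≤ ∑ _i ∈ Finset.range k, M :=
        Finset.sum_le_sum fun i _ => (le_abs_self _).trans (hM _)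
      rw [Finset.sum_const, Finset.card_range, nsmul_eq_mul] at this
      have : 0 ≤ δ / 2 * k := by positivity
      linarith
    · simp only [indicator_of_notMem hx, add_zero]
      exact (not_le.1 hx).le
  rw [integral_add (integrable_const _) ((integrable_const _).indicator hAm), integral_const,
    integral_indicator_const _ hAm, e1] at e2
  simp only [probReal_univ, smul_eq_mul, one_mul] at e2
  rw [div_le_iff₀ (by positivity)]
  have : (k : ℝ) * δ ≤ k * (δ / 2 + μ.real A * M) := by nlinarith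
  have := le_of_mul_le_mul_left this hk0
  linarith

/-- Cauchy and Schwarz for collisions. -/
theorem coll {ι : Type} (μ : Measure X) [IsProbabilityMeasure μ] (I : Finset ι) :
    ∀ T : ι → Set X, (∀ i, MeasurableSet (T i)) →
      μ.real (⋃ i ∈ I, T i) ^ 2 ≤ I.card * (μ.prod μ).real (⋃ i ∈ I, T i ×ˢ T i) := by
  classical
  induction I using Finset.induction_on with
  | empty => intro T _; simp
  | insert j I hj ih =>
    intro T hT
    have h1 := ih (fun i => T i \ T j) fun i => (hT i).diff (hT j)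
    have h2 : μ.real (⋃ i ∈ insert j I, T i) ≤ μ.real (T j) + μ.real (⋃ i ∈ I, T i \ T j) := by
      refine le_trans (measureReal_mono ?_ (measure_ne_top _ _)) (measureReal_union_le _ _)
      intro x hx
      simp only [Finset.mem_insert, mem_iUnion, exists_prop, mem_union, Set.mem_sdiff] at hx ⊢
      obtain ⟨i, hi, hx⟩ := hx
      by_cases hxj : x ∈ T j
      · exact Or.inl hxj
      · rcases hi with rfl | hi
        · exact absurd hx hxj
        · exact Or.inr ⟨i, hi, hx, hxj⟩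
    have h3 : μ.real (T j) ^ 2 + (μ.prod μ).real (⋃ i ∈ I, (T i \ T j) ×ˢ (T i \ T j)) ≤
        (μ.prod μ).real (⋃ i ∈ insert j I, T i ×ˢ T i) := by
      rw [sq, ← measureReal_prod_prod,
        ← measureReal_union _ _ (measure_ne_top _ _) (measure_ne_top _ _)]
      · refine measureReal_mono ?_ (measure_ne_top _ _)
        intro p hp
        simp only [Finset.mem_insert, mem_iUnion, exists_prop, mem_union, Set.mem_sdiff,
          mem_prod] at hp ⊢
        rcases hp with hp | ⟨i, hi, hp⟩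
        · exact ⟨j, Or.inl rfl, hp⟩
        · exact ⟨i, Or.inr hi, hp.1.1, hp.2.1⟩
      · rw [Set.disjoint_left]
        intro p hp hq
        simp only [mem_iUnion, exists_prop, Set.mem_sdiff, mem_prod] at hp hq
        obtain ⟨i, -, hq⟩ := hq
        exact hq.1.2 hp.1
      · exact Finset.measurableSet_biUnion _ fun i _ =>
          ((hT i).diff (hT j)).prod ((hT i).diff (hT j))
    rw [Finset.card_insert_of_notMem hj]
    push_cast
    set x := μ.real (T j)
    set y := μ.real (⋃ i ∈ I, T i \ T j)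
    set Q := (μ.prod μ).real (⋃ i ∈ I, (T i \ T j) ×ˢ (T i \ T j))
    set n : ℝ := (I.card : ℝ)
    have hx : 0 ≤ x := measureReal_nonneg
    have hy : 0 ≤ y := measureReal_nonneg
    have hQ : 0 ≤ Q := measureReal_nonneg
    have hn : 0 ≤ n := Nat.cast_nonneg _
    have h4 : 2 * x * y ≤ n * x ^ 2 + Q := by
      refine abs_le_of_sq_le_sq' ?_ (by positivity) |>.2
      have : x ^ 2 * y ^ 2 ≤ x ^ 2 * (n * Q) := by gcongr
      nlinarith [sq_nonneg (n * x ^ 2 - Q)]
    calc μ.real (⋃ i ∈ insert j I, T i) ^ 2 ≤ (x + y) ^ 2 :=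
          pow_le_pow_left₀ measureReal_nonneg h2 2
      _ ≤ (n + 1) * (x ^ 2 + Q) := by nlinarith
      _ ≤ _ := by gcongr

end prob

end Pool.Agent.Lib.MP_9177b7_ag.J.Marg
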