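import Pool.Agent.Lib.MP_9177b7_ag.J.Marg2

/-!
Maximal entropy for the marginals, third part: the key inequality.
-/

open MeasureTheory ProbabilityTheory Filter Topology Set
open scoped MatrixGroups ENNReal NNReal Pointwise

noncomputable section

namespace Pool.Agent.Lib.MP_9177b7_ag.J.Marg

variable {l : ℕ} [Fact l.Prime] (S : Sp l)

/-- Tubes. -/
def Tube (r ρ : ℝ) (Cc : Set S.C) (x : S.X) (w : ℚ_[l]) : Set S.X :=
  (fun g : S.G => g • x) '' {g | g.1 ∈ Nb r ∧ g.2 ∈ interior Cc ∧ ‖g.1 0 1 - w * g.1 0 0‖ ≤ ρ}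

theorem isOpen_Tube (r : ℝ) {ρ : ℝ} (hρ : 0 < ρ) (Cc : Set S.C) (x : S.X) (w : ℚ_[l]) :
    IsOpen (Tube S r ρ Cc x w) := by
  refine isOpen_orbit S ?_ x
  refine ((isOpen_Nb r).preimage continuous_fst).inter
    ((isOpen_interior.preimage continuous_snd).inter ?_)
  have h1 : Continuous fun g : S.G => g.1 0 1 - w * g.1 0 0 :=
    ((cont_entry 0 1).comp continuous_fst).sub
      (continuous_const.mul ((cont_entry 0 0).comp continuous_fst))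
  have h2 := (IsUltrametricDist.isOpen_closedBall (0 : ℚ_[l]) hρ.ne').preimage h1
  convert h2 using 1
  ext g
  simp only [mem_preimage, mem_closedBall_zero_iff]
  rfl

theorem Tube_col {r : ℝ} (hr : r ≤ 1) (ρ : ℝ) {Cc Ω : Set S.C}
    (hΩ : ∀ v ∈ Cc, ∀ w ∈ Cc, v / w ∈ Ω) (x : S.X) (w : ℚ_[l]) :
    Tube S r ρ Cc x w ×ˢ Tube S r ρ Cc x w ⊆ S.Col Ω ρ := by
  rintro ⟨z, z'⟩ ⟨⟨g, ⟨a1, a2, a3⟩, rfl⟩, ⟨g', ⟨b1, b2, b3⟩, rfl⟩⟩
  obtain ⟨h1, h2⟩ := Nb_quot hr a1 b1 a3 b3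
  refine ⟨g' * g⁻¹, h1, h2, ?_, by simp [mul_smul]⟩
  have := hΩ _ (interior_subset b2) _ (interior_subset a2)
  rwa [div_eq_mul_inv] at this

theorem tight (νs : ℕ → ProbabilityMeasure S.X) (ν : ProbabilityMeasure S.X)
    (hlim : Tendsto νs atTop (𝓝 ν)) {W : Set S.G} (hW : IsOpen W) (h1 : (1 : S.G) ∈ W) {η : ℝ}
    (hη : 0 < η) : ∃ J : Finset S.X, ∀ᶠ n in atTop,
      (νs n : Measure S.X).real (⋃ x ∈ J, (fun g : S.G => g • x) '' W)ᶜ ≤ η := by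
  obtain ⟨K, -, hK, hK2⟩ := (MeasurableSet.univ (α := S.X)).exists_isCompact_sdiff_lt
    (μ := (ν : Measure S.X)) (measure_ne_top _ _) (ENNReal.ofReal_pos.2 hη).ne'
  obtain ⟨J, hJ⟩ := hK.elim_finite_subcover (fun x : S.X => (fun g : S.G => g • x) '' W)
    (fun x => isOpen_orbit S hW x) fun x _ => mem_iUnion.2 ⟨x, 1, h1, one_smul _ _⟩
  refine ⟨J, ?_⟩
  have hc : IsClosed (⋃ x ∈ J, (fun g : S.G => g • x) '' W)ᶜ :=
    (isOpen_biUnion fun x _ => isOpen_orbit S hW x).isClosed_compl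
  have h2 := ProbabilityMeasure.limsup_measure_closed_le_of_tendsto hlim hc
  have h3 : (ν : Measure S.X) (⋃ x ∈ J, (fun g : S.G => g • x) '' W)ᶜ < ENNReal.ofReal η := by
    refine lt_of_le_of_lt (measure_mono ?_) hK2
    exact fun y hy => ⟨mem_univ _, fun h => hy (hJ h)⟩
  filter_upwards [eventually_lt_of_limsup_lt (h2.trans_lt h3)] with n hn
  exact ENNReal.toReal_le_of_le_ofReal hη.le hn.le

theorem key (t : ℚ_[l]ˣ) (νs : ℕ → ProbabilityMeasure S.X) (ν : ProbabilityMeasure S.X)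
    (ht : 1 < ‖(t : ℚ_[l])‖) (hlim : Tendsto νs atTop (𝓝 ν))
    (hinv : ∀ n, (νs n : Measure S.X).map (S.hs (dg t)) = νs n)
    {Ω : Set S.C} (hΩ : Ω ∈ 𝓝 (1 : S.C))
    (hcol : ∀ ε : ℝ, 0 < ε → ∀ k₀ : ℕ, ∀ᶠ n in atTop, ∃ k : ℕ,
      k₀ ≤ k ∧ ((νs n : Measure S.X).prod (νs n)) (S.Col Ω ((‖(t : ℚ_[l])‖ ^ (2 * k))⁻¹)) ≤
        ENNReal.ofReal (‖(t : ℚ_[l])‖ ^ (-(2 * (1 - ε) * k) : ℝ)))
    {D : Type} [Fintype D] {ρ : D → ℚ_[l]} (hD : Dig ((t : ℚ_[l]) ^ 2) D ρ) {F : S.X → ℝ}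
    (hF : Continuous F) (hc : HasCompactSupport F)
    (hFi : ∀ v x, ‖v‖ ≤ ‖(t : ℚ_[l]) ^ 2‖⁻¹ → F (S.hs (up v) x) = F x)
    (hsum : ∀ x, ∑ d, F (S.hs (up (ρ d)) x) = 0) : ∫ x, F x ∂(ν : Measure S.X) ≤ 0 := by
  classical
  by_contra hpos
  push Not at hpos
  set δ := (∫ x, F x ∂(ν : Measure S.X)) / 2 with hδ
  have hδ0 : 0 < δ := by positivity
  have hu : 1 < ‖(t : ℚ_[l]) ^ 2‖ := by
    rw [norm_pow]
    exact one_lt_pow₀ ht two_ne_zero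
  obtain ⟨M₀, hM₀⟩ := hF.bounded_above_of_compact_support hc
  set M := |M₀| + 1 with hMd
  have hM0 : 0 < M := by positivity
  have hM : ∀ x, |F x| ≤ M := fun x => (hM₀ x).trans (by have := le_abs_self M₀; linarith)
  have ev1 : ∀ᶠ n in atTop, δ ≤ ∫ x, F x ∂(νs n : Measure S.X) := by
    have := ProbabilityMeasure.tendsto_iff_forall_integral_tendsto.1 hlim
      (BoundedContinuousFunction.ofNormedAddCommGroup F hF M₀ hM₀)
    exact this.eventually_const_le (show δ < ∫ x, F x ∂(ν : Measure S.X) by linarith)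
  obtain ⟨c, hc0, hcount⟩ := count (U := fun v => S.hs (up v)) (T := S.hs (dg t)) hD hu (hU S)
    (hT S t) hFi hsum hM (τ := δ / 4) (by positivity)
  choose V hV1 hV2 using hcount
  obtain ⟨O₁, hO₁, O₂, hO₂, hO⟩ := mem_nhds_prod_iff.1
    (unif S hF hc (η := δ / 4) (by positivity))
  obtain ⟨r, hr0, hr1, hrO⟩ := exists_Nb hO₁
  obtain ⟨Cc, hC1, hC2, hC3⟩ : ∃ Cc ∈ 𝓝 (1 : S.C), Cc ⊆ O₂ ∧ ∀ v ∈ Cc, ∀ w ∈ Cc, v / w ∈ Ω := by
    obtain ⟨Y, hY1, hY2⟩ := exists_nhds_split_inv hΩ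
    exact ⟨Y ∩ O₂, inter_mem hY1 hO₂, inter_subset_right, fun v hv w hw => hY2 v hv.1 w hw.1⟩
  set p := δ / (2 * M) with hp
  have hp0 : 0 < p := by positivity
  obtain ⟨J, ev2⟩ := tight S νs ν hlim (W := {g | g.1 ∈ Nb r ∧ g.2 ∈ interior Cc})
    (((isOpen_Nb r).preimage continuous_fst).inter (isOpen_interior.preimage continuous_snd))
    ⟨one_mem_Nb hr0, mem_interior_iff_mem_nhds.2 hC1⟩ (η := p / 2) (by positivity)
  have hlog : 0 < Real.log ‖(t : ℚ_[l])‖ := Real.log_pos ht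
  have ev4 : ∀ᶠ k : ℕ in atTop, (J.card : ℝ) * Real.exp (-(c / 2 * k)) < (p / 2) ^ 2 := by
    have h1 : Tendsto (fun k : ℕ => (J.card : ℝ) * Real.exp (-(c / 2 * k))) atTop
        (𝓝 (J.card * 0)) :=
      (Real.tendsto_exp_neg_atTop_nhds_zero.comp
        (tendsto_natCast_atTop_atTop.const_mul_atTop (by positivity))).const_mul _
    exact h1.eventually_lt_const (by rw [mul_zero]; positivity)
  obtain ⟨k₀, hk₀⟩ := eventually_atTop.1 (ev4.and (eventually_ge_atTop 1))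
  have ev3 := hcol (c / (4 * Real.log ‖(t : ℚ_[l])‖)) (by positivity) k₀
  obtain ⟨n, e1, e2, k, hk, e3⟩ := (ev1.and (ev2.and ev3)).exists
  obtain ⟨e4, hk1⟩ := hk₀ k hk
  set μ : Measure S.X := (νs n : Measure S.X) with hμ
  have hmp : MeasurePreserving (S.hs (dg t)) μ μ := ⟨(cont_hs S _).measurable, hinv n⟩
  have e5 := prob_large μ hmp hF.measurable hM0 hM hδ0 e1 hk1
  have hrk : ‖(t : ℚ_[l]) ^ 2‖ ^ k = ‖(t : ℚ_[l])‖ ^ (2 * k) := by rw [norm_pow, pow_mul]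
  have ht0 : 0 < ‖(t : ℚ_[l])‖ := by linarith
  set R := (‖(t : ℚ_[l])‖ ^ (2 * k))⁻¹ with hR
  have hR0 : 0 < R := by positivity
  set I : Finset (Σ _ : S.X, ℚ_[l]) := J.sigma fun x => V k x with hI
  set Tb : (Σ _ : S.X, ℚ_[l]) → Set S.X := fun i => Tube S r R Cc i.1 i.2 with hTb
  have e6 := coll μ I Tb fun i => (isOpen_Tube S r hR0 Cc _ _).measurableSet
  have e7 : (μ.prod μ).real (⋃ i ∈ I, Tb i ×ˢ Tb i) ≤
      ‖(t : ℚ_[l])‖ ^ (-(2 * (1 - c / (4 * Real.log ‖(t : ℚ_[l])‖)) * k) : ℝ) := by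
    refine ENNReal.toReal_le_of_le_ofReal (by positivity) (le_trans (measure_mono ?_) e3)
    exact iUnion₂_subset fun i _ => Tube_col S hr1 R hC3 _ _
  have e8 : (I.card : ℝ) ≤ J.card * (‖(t : ℚ_[l])‖ ^ (2 * k) * Real.exp (-(c * k))) := by
    rw [hI, Finset.card_sigma, ← hrk]
    push_cast
    refine (Finset.sum_le_sum fun x _ => hV1 k x).trans (le_of_eq ?_)
    rw [Finset.sum_const, nsmul_eq_mul]
  have e9 : {x | δ / 2 * k ≤ birkhoffSum (S.hs (dg t)) F k x} ⊆ (⋃ i ∈ I, Tb i) ∪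
      (⋃ x ∈ J, (fun g : S.G => g • x) '' {g | g.1 ∈ Nb r ∧ g.2 ∈ interior Cc})ᶜ := by
    intro z hz
    by_cases hz' : z ∈ ⋃ x ∈ J, (fun g : S.G => g • x) '' {g | g.1 ∈ Nb r ∧ g.2 ∈ interior Cc}
    swap
    · exact Or.inr hz'
    left
    simp only [mem_iUnion, exists_prop] at hz' ⊢
    obtain ⟨x, hx, ⟨h, b⟩, ⟨hh, hb⟩, rfl⟩ := hz'
    have h1 := Nb_unit hr1 hh
    have h0 : h 0 0 ≠ 0 := by
      intro h0
      simp [h0] at h1
    have hv : ‖h 0 1 / h 0 0‖ ≤ 1 := by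
      rw [norm_div, h1, div_one]
      exact Nb_le hr1 hh 0 1
    have h2 : birkhoffSum (S.hs (dg t)) F k (((h, b) : S.G) • x) ≤
        birkhoffSum (S.hs (dg t)) F k (S.hs (up (h 0 1 / h 0 0)) x) + δ / 4 * k := by
      have : δ / 4 * k = ∑ _i ∈ Finset.range k, δ / 4 := by
        rw [Finset.sum_const, Finset.card_range, nsmul_eq_mul, mul_comm]
      rw [this, birkhoffSum, birkhoffSum, ← Finset.sum_add_distrib]
      refine Finset.sum_le_sum fun i _ => ?_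
      obtain ⟨q, q1, -, q3⟩ := shadow S hr1 ht hh b x i
      rw [q3]
      have := (abs_le.1 (hO (show ((q, b) : S.G) ∈ O₁ ×ˢ O₂ from
        ⟨hrO q1, hC2 (interior_subset hb)⟩) ((S.hs (dg t))^[i]
          (S.hs (up (h 0 1 / h 0 0)) x)))).2
      linarith
    obtain ⟨w, hw, hw2⟩ := hV2 k x (h 0 1 / h 0 0) hv (by
      have : δ / 2 * k ≤ birkhoffSum (S.hs (dg t)) F k (((h, b) : S.G) • x) := hz
      linarith)
    refine ⟨⟨x, w⟩, Finset.mem_sigma.2 ⟨hx, hw⟩, (h, b), ⟨hh, hb, ?_⟩, rfl⟩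
    have : h 0 1 - w * h 0 0 = (h 0 1 / h 0 0 - w) * h 0 0 := by field_simp
    rw [this, norm_mul, h1, mul_one, hR, ← hrk]
    exact hw2
  have e10 : p / 2 ≤ μ.real (⋃ i ∈ I, Tb i) := by
    have := (e5.trans (measureReal_mono e9 (measure_ne_top _ _))).trans (measureReal_union_le _ _)
    linarith
  have e11 : ‖(t : ℚ_[l])‖ ^ (2 * k) * Real.exp (-(c * k)) *
      ‖(t : ℚ_[l])‖ ^ (-(2 * (1 - c / (4 * Real.log ‖(t : ℚ_[l])‖)) * k) : ℝ) =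
      Real.exp (-(c / 2 * k)) := by
    rw [← Real.rpow_natCast, Real.rpow_def_of_pos ht0, Real.rpow_def_of_pos ht0, ← Real.exp_add,
      ← Real.exp_add]
    congr 1
    push_cast
    field_simp
    ring
  have e12 : (p / 2) ^ 2 ≤ J.card * Real.exp (-(c / 2 * k)) := by
    calc (p / 2) ^ 2 ≤ μ.real (⋃ i ∈ I, Tb i) ^ 2 := by gcongr
      _ ≤ _ := e6
      _ ≤ J.card * (‖(t : ℚ_[l])‖ ^ (2 * k) * Real.exp (-(c * k))) *
          ‖(t : ℚ_[l])‖ ^ (-(2 * (1 - c / (4 * Real.log ‖(t : ℚ_[l])‖)) * k) : ℝ) :=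
        mul_le_mul e8 e7 measureReal_nonneg (by positivity)
      _ = _ := by rw [mul_assoc, e11]
  linarith

end Pool.Agent.Lib.MP_9177b7_ag.J.Marg
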