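import Mathlib

/-!
Combinatorial lemmas for the path count: a one sided covering lemma, a three point lemma for
quadratic congruences, and a count of residues with many restricted blocks of digits.
-/

namespace Pool.Agent.Lib.MP_9177b7_ag.J.Path

open Finset

/-- One sided covering lemma. -/
theorem cover_aux (I H : Finset ℕ) (k : ℕ) (hk : 1 ≤ k)
    (h : ∀ p ∈ I, ∃ s n, s ≤ p ∧ p < s + k * n ∧ ∀ t, s ≤ t → t < s + n → t ∈ H) (y : ℕ) :
    (I.filter (· < y)).card ≤ k * (H.filter (· < y)).card := by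
  induction y using Nat.strong_induction_on with
  | _ y ih =>
    rcases y with _ | y
    · simp
    by_cases hy : y ∈ I
    · obtain ⟨s, n, hs, hn, hH⟩ := h y hy
      have h1 := ih s (by omega)
      have h2 : (I.filter (· < y + 1)).card ≤ (I.filter (· < s)).card + (y + 1 - s) := by
        calc (I.filter (· < y + 1)).card ≤ (I.filter (· < s) ∪ Finset.Ico s (y + 1)).card := by
              apply card_le_card
              intro x hx
              simp only [mem_filter, mem_union, Finset.mem_Ico] at hx ⊢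
              by_cases hxs : x < s
              · exact Or.inl ⟨hx.1, hxs⟩
              · exact Or.inr ⟨by omega, hx.2⟩
          _ ≤ _ := by
              refine (card_union_le _ _).trans ?_
              simp
      have h3 : (H.filter (· < s)).card + min n (y + 1 - s) ≤ (H.filter (· < y + 1)).card := by
        have hd : Disjoint (H.filter (· < s)) (Finset.Ico s (s + min n (y + 1 - s))) := by
          rw [Finset.disjoint_left]
          intro x hx hx'
          simp only [mem_filter, Finset.mem_Ico] at hx hx'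
          omega
        have := card_union_of_disjoint hd
        simp only [Nat.card_Ico, add_tsub_cancel_left] at this
        rw [← this]
        apply card_le_card
        intro x hx
        simp only [mem_filter, mem_union, Finset.mem_Ico] at hx ⊢
        rcases hx with hx | hx
        · exact ⟨hx.1, by omega⟩
        · exact ⟨hH x hx.1 (by omega), by omega⟩
      have h4 : y + 1 - s ≤ k * min n (y + 1 - s) := by
        rcases le_total n (y + 1 - s) with h5 | h5
        · rw [min_eq_left h5]; omega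
        · rw [min_eq_right h5]; exact Nat.le_mul_of_pos_left _ hk
      calc _ ≤ (I.filter (· < s)).card + (y + 1 - s) := h2
        _ ≤ k * (H.filter (· < s)).card + k * min n (y + 1 - s) := add_le_add h1 h4
        _ = k * ((H.filter (· < s)).card + min n (y + 1 - s)) := by ring
        _ ≤ _ := Nat.mul_le_mul_left _ h3
    · have h1 := ih y (by omega)
      have h2 : I.filter (· < y + 1) = I.filter (· < y) := by
        apply filter_congr
        intro x hx
        have : x ≠ y := fun e => hy (e ▸ hx)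
        omega
      rw [h2]
      refine h1.trans (Nat.mul_le_mul_left _ (card_le_card ?_))
      intro x hx
      simp only [mem_filter] at hx ⊢
      exact ⟨hx.1, by omega⟩

theorem cover (I H : Finset ℕ) (k : ℕ) (hk : 1 ≤ k)
    (h : ∀ p ∈ I, ∃ s n, s ≤ p ∧ p < s + k * n ∧ ∀ t, s ≤ t → t < s + n → t ∈ H) :
    I.card ≤ k * H.card := by
  have h1 := cover_aux I H k hk h (I.sup id + 1)
  have h2 : I.filter (· < I.sup id + 1) = I := by
    apply filter_true_of_mem
    intro x hx
    have := Finset.le_sup (f := id) hx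
    simp only [id] at this
    omega
  rw [h2] at h1
  exact h1.trans (Nat.mul_le_mul_left _ (card_le_card (filter_subset _ _)))

theorem pow_dvd_cancel {l : ℤ} (hl : Prime l) (M : ℕ) :
    ∀ (n : ℕ) (f x : ℤ), l ^ (n + M) ∣ f * x → ¬ l ^ M ∣ x → l ^ (n + 1) ∣ f := by
  induction M with
  | zero => intro n f x _ h; simp at h
  | succ M ih =>
    intro n f x h hx
    by_cases h1 : l ∣ x
    · obtain ⟨x', rfl⟩ := h1
      apply ih n f x'
      · have : l * l ^ (n + M) ∣ l * (f * x') := by
          have e1 : l * l ^ (n + M) = l ^ (n + (M + 1)) := by ring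
          have e2 : l * (f * x') = f * (l * x') := by ring
          rw [e1, e2]; exact h
        exact (mul_dvd_mul_iff_left hl.ne_zero).1 this
      · intro h2
        apply hx
        rw [pow_succ']
        exact mul_dvd_mul_left _ h2
    · have h2 : l ^ (n + (M + 1)) ∣ f := hl.pow_dvd_of_dvd_mul_right _ h1 h
      exact (pow_dvd_pow l (by omega)).trans h2

theorem pow_dvd_cancel3 {l : ℤ} (hl : Prime l) (M k : ℕ) (f x y z : ℤ)
    (h : l ^ (k + 3 * M) ∣ f * x * y * z) (hx : ¬ l ^ M ∣ x) (hy : ¬ l ^ M ∣ y)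
    (hz : ¬ l ^ M ∣ z) : l ^ (k + 1) ∣ f := by
  have h1 : l ^ (k + 2 * M + 1) ∣ f * x * y := by
    apply pow_dvd_cancel hl M _ _ z _ hz
    have e : k + 2 * M + M = k + 3 * M := by ring
    rw [e]; exact h
  have h2 : l ^ (k + M + 1) ∣ f * x := by
    apply pow_dvd_cancel hl M _ _ y _ hy
    exact (pow_dvd_pow l (by omega)).trans h1
  apply pow_dvd_cancel hl M _ _ x _ hx
  exact (pow_dvd_pow l (by omega)).trans h2

/-- Three point lemma. -/
theorem three_point {l : ℤ} (hl : Prime l) (M k : ℕ) (f0 f1 f2 x y : ℤ)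
    (h0 : l ^ (k + 3 * M) ∣ f0) (hx : l ^ (k + 3 * M) ∣ f0 + f1 * x + f2 * x ^ 2)
    (hy : l ^ (k + 3 * M) ∣ f0 + f1 * y + f2 * y ^ 2)
    (hn : ¬ (l ^ (k + 1) ∣ f2 ∧ l ^ (k + 1) ∣ f1)) :
    l ^ M ∣ x ∨ l ^ M ∣ y ∨ l ^ M ∣ x - y := by
  by_contra hc
  push Not at hc
  obtain ⟨h1, h2, h3⟩ := hc
  have hx' := dvd_sub hx h0
  have hy' := dvd_sub hy h0
  apply hn
  constructor
  · apply pow_dvd_cancel3 hl M k f2 x y (x - y) _ h1 h2 h3
    have e : f2 * x * y * (x - y) = (f0 + f1 * x + f2 * x ^ 2 - f0) * y -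
      (f0 + f1 * y + f2 * y ^ 2 - f0) * x := by ring
    rw [e]
    exact dvd_sub (hx'.mul_right _) (hy'.mul_right _)
  · apply pow_dvd_cancel3 hl M k f1 x y (x - y) _ h1 h2 h3
    have e : f1 * x * y * (x - y) = (f0 + f1 * y + f2 * y ^ 2 - f0) * x ^ 2 -
      (f0 + f1 * x + f2 * x ^ 2 - f0) * y ^ 2 := by ring
    rw [e]
    exact dvd_sub (hy'.mul_right _) (hx'.mul_right _)

open Classical in
/-- Residues with prescribed restricted blocks. -/
theorem count_blocks (l M K : ℕ) (hl : 0 < l) (E : ℕ → ℕ → Prop)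
    (hper : ∀ q a b, a % l ^ (q + M) = b % l ^ (q + M) → E q a → E q b)
    (hK : ∀ q r, ((range (l ^ (q + M))).filter fun b => b % l ^ q = r ∧ E q b).card ≤ K)
    (J : Finset ℕ) : (∀ q ∈ J, ∀ q' ∈ J, q < q' → q + M ≤ q') → ∀ κ, (∀ q ∈ J, q + M ≤ κ) →
    ((range (l ^ κ)).filter fun a => ∀ q ∈ J, E q a).card * l ^ (M * J.card) ≤
      l ^ κ * K ^ J.card := by
  induction J using Finset.induction_on_max with
  | empty => intro _ κ _; simp
  | insert q J hq ih =>
    intro hsep κ hκ
    have hqJ : q ∉ J := fun h => lt_irrefl _ (hq q h)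
    have hJq : ∀ q' ∈ J, q' + M ≤ q := fun q' h =>
      hsep q' (mem_insert_of_mem h) q (mem_insert_self _ _) (hq q' h)
    have ih' := ih (fun a ha b hb => hsep a (mem_insert_of_mem ha) b (mem_insert_of_mem hb)) q hJq
    have hqκ : q + M ≤ κ := hκ q (mem_insert_self _ _)
    have hmod : ∀ a u v : ℕ, u ≤ v → a % l ^ v % l ^ u = a % l ^ u := fun a u v h =>
      Nat.mod_mod_of_dvd _ (pow_dvd_pow l h)
    -- first reduction
    have h1 : ((range (l ^ κ)).filter fun a => ∀ q' ∈ insert q J, E q' a).card ≤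
        l ^ (κ - (q + M)) *
          ((range (l ^ (q + M))).filter fun a => ∀ q' ∈ insert q J, E q' a).card := by
      apply card_le_mul_card_image_of_maps_to (f := fun a => a % l ^ (q + M))
      · intro a ha
        simp only [mem_filter, mem_range] at ha ⊢
        refine ⟨Nat.mod_lt _ (by positivity), fun q' hq' => hper q' a _ ?_ (ha.2 q' hq')⟩
        rw [hmod]
        rcases mem_insert.1 hq' with h | h
        · omega
        · have := hJq q' h; omega
      · intro b _
        rw [← card_range (l ^ (κ - (q + M)))]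
        apply card_le_card_of_injOn (fun a => a / l ^ (q + M))
        · intro a ha
          simp only [coe_filter, mem_filter, mem_range, Set.mem_ofPred_eq, coe_range,
            Set.mem_Iio] at ha ⊢
          apply Nat.div_lt_of_lt_mul
          rw [← pow_add]
          have e : q + M + (κ - (q + M)) = κ := by omega
          rw [e]; exact ha.1.1
        · intro a ha a' ha' h
          simp only [coe_filter, mem_filter, mem_range, Set.mem_ofPred_eq] at ha ha' h
          rw [← Nat.div_add_mod a (l ^ (q + M)), ← Nat.div_add_mod a' (l ^ (q + M)), h, ha.2,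
            ha'.2]
    have h2 : ((range (l ^ (q + M))).filter fun a => ∀ q' ∈ insert q J, E q' a).card ≤
        K * ((range (l ^ q)).filter fun a => ∀ q' ∈ J, E q' a).card := by
      apply card_le_mul_card_image_of_maps_to (f := fun a => a % l ^ q)
      · intro a ha
        simp only [mem_filter, mem_range] at ha ⊢
        refine ⟨Nat.mod_lt _ (by positivity), fun q' hq' =>
          hper q' a _ ?_ (ha.2 q' (mem_insert_of_mem hq'))⟩
        rw [hmod _ _ _ (hJq q' hq')]
      · intro r _
        refine le_trans (card_le_card ?_) (hK q r)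
        intro a ha
        simp only [mem_filter, mem_range] at ha ⊢
        exact ⟨ha.1.1, ha.2, ha.1.2 q (mem_insert_self _ _)⟩
    rw [card_insert_of_notMem hqJ]
    have e1 : l ^ κ = l ^ (κ - (q + M)) * l ^ M * l ^ q := by
      rw [← pow_add, ← pow_add]; congr 1; omega
    calc _ ≤ l ^ (κ - (q + M)) * (K * ((range (l ^ q)).filter fun a => ∀ q' ∈ J, E q' a).card) *
          l ^ (M * (J.card + 1)) :=
          Nat.mul_le_mul_right _ (h1.trans (Nat.mul_le_mul_left _ h2))
      _ = l ^ (κ - (q + M)) * K * l ^ M *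
          (((range (l ^ q)).filter fun a => ∀ q' ∈ J, E q' a).card * l ^ (M * J.card)) := by ring
      _ ≤ l ^ (κ - (q + M)) * K * l ^ M * (l ^ q * K ^ J.card) := Nat.mul_le_mul_left _ ih'
      _ = _ := by rw [e1]; ring

open Classical in
/-- Residues with many restricted blocks are rare. -/
theorem count_many {C : Type} (l M₀ : ℕ) (hl : 0 < l) (hM : 0 < M₀) (Code : Finset C)
    (hC : 2 * Code.card ≤ l ^ M₀) (E : ℕ → C → ℕ → Prop)
    (h3 : ∀ q cd a₁ a₂ a₃, a₁ % l ^ q = a₂ % l ^ q → a₁ % l ^ q = a₃ % l ^ q →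
      E q cd a₁ → E q cd a₂ → E q cd a₃ → a₁ % l ^ (q + 2 * M₀) = a₂ % l ^ (q + 2 * M₀) ∨
        a₁ % l ^ (q + 2 * M₀) = a₃ % l ^ (q + 2 * M₀) ∨
        a₂ % l ^ (q + 2 * M₀) = a₃ % l ^ (q + 2 * M₀)) (κ n : ℕ) :
    ((range (l ^ κ)).filter fun a => 2 * M₀ * n ≤
      ((range (κ + 1)).filter fun q => q + 2 * M₀ ≤ κ ∧ ∃ cd ∈ Code, E q cd a).card).card *
      l ^ (M₀ * n) ≤ 2 * M₀ * 2 ^ (κ / (2 * M₀) + 1) * l ^ κ := by
  set M := 2 * M₀ with hMdef
  have hMpos : 0 < M := by omega
  obtain ⟨E', hE'⟩ : ∃ E' : ℕ → ℕ → Prop, ∀ q b, E' q b ↔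
    ∃ cd ∈ Code, ∃ a, a % l ^ (q + M) = b % l ^ (q + M) ∧ E q cd a := ⟨_, fun _ _ => Iff.rfl⟩
  have hper : ∀ q a b, a % l ^ (q + M) = b % l ^ (q + M) → E' q a → E' q b := by
    intro q a b h h'
    obtain ⟨cd, hcd, a', h1, h2⟩ := (hE' _ _).1 h'
    exact (hE' _ _).2 ⟨cd, hcd, a', h1.trans h, h2⟩
  have hmod : ∀ a u v : ℕ, u ≤ v → a % l ^ v % l ^ u = a % l ^ u := fun a u v h =>
    Nat.mod_mod_of_dvd _ (pow_dvd_pow l h)
  have hK : ∀ q r, ((range (l ^ (q + M))).filter fun b => b % l ^ q = r ∧ E' q b).card ≤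
      l ^ M₀ := by
    intro q r
    calc _ ≤ (Code.biUnion fun cd => (range (l ^ (q + M))).filter fun b => b % l ^ q = r ∧
          ∃ a, a % l ^ (q + M) = b % l ^ (q + M) ∧ E q cd a).card := by
          apply card_le_card
          intro b hb
          simp only [mem_filter, mem_biUnion, hE'] at hb ⊢
          obtain ⟨h1, h2, cd, hcd, h4⟩ := hb
          exact ⟨cd, hcd, h1, h2, h4⟩
      _ ≤ Code.card * 2 := by
          apply card_biUnion_le_card_mul
          intro cd _
          by_contra hc
          push Not at hc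
          obtain ⟨b₁, h1, b₂, h2, b₃, h3', n12, n13, n23⟩ := two_lt_card.1 hc
          simp only [mem_filter, mem_range] at h1 h2 h3'
          obtain ⟨l1, r1, a₁, e1', E1⟩ := h1
          obtain ⟨l2, r2, a₂, e2', E2⟩ := h2
          obtain ⟨l3, r3, a₃, e3', E3⟩ := h3'
          have e1 := e1'.trans (Nat.mod_eq_of_lt l1)
          have e2 := e2'.trans (Nat.mod_eq_of_lt l2)
          have e3 := e3'.trans (Nat.mod_eq_of_lt l3)
          have m1 : a₁ % l ^ q = r := by rw [← hmod a₁ q (q + M) (by omega), e1, r1]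
          have m2 : a₂ % l ^ q = r := by rw [← hmod a₂ q (q + M) (by omega), e2, r2]
          have m3 : a₃ % l ^ q = r := by rw [← hmod a₃ q (q + M) (by omega), e3, r3]
          have := h3 q cd a₁ a₂ a₃ (m1.trans m2.symm) (m1.trans m3.symm) E1 E2 E3
          omega
      _ ≤ _ := by omega
  let cl : ℕ → Finset ℕ := fun o => (range (κ + 1)).filter fun q => q + M ≤ κ ∧ q % M = o
  have hcl : ∀ o, (cl o).card ≤ κ / M + 1 := by
    intro o
    rw [← card_range (κ / M + 1)]
    apply card_le_card_of_injOn (fun q => q / M)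
    · intro q hq
      simp only [cl, coe_filter, mem_range, Set.mem_ofPred_eq, coe_range, Set.mem_Iio] at hq ⊢
      exact Nat.lt_succ_of_le (Nat.div_le_div_right (by omega))
    · intro a ha a' ha' h
      simp only [cl, coe_filter, mem_range, Set.mem_ofPred_eq] at ha ha' h
      rw [← Nat.div_add_mod a M, ← Nat.div_add_mod a' M, h, ha.2.2, ha'.2.2]
  let JJ : Finset (Finset ℕ) := (range M).biUnion fun o => (cl o).powerset.filter (n ≤ ·.card)
  have hJJ : JJ.card ≤ M * 2 ^ (κ / M + 1) := by
    refine (card_biUnion_le_card_mul _ _ (2 ^ (κ / M + 1)) ?_).trans (by simp)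
    intro o _
    refine (card_filter_le _ _).trans ?_
    rw [card_powerset]
    exact Nat.pow_le_pow_right (by norm_num) (hcl o)
  have hA : ∀ J ∈ JJ, ((range (l ^ κ)).filter fun a => ∀ q ∈ J, E' q a).card * l ^ (M₀ * n) ≤
      l ^ κ := by
    intro J hJ
    simp only [JJ, mem_biUnion, mem_filter, mem_powerset, mem_range] at hJ
    obtain ⟨o, _, hsub, hn⟩ := hJ
    have hmem : ∀ q ∈ J, q + M ≤ κ ∧ q % M = o := fun q hq => (mem_filter.1 (hsub hq)).2
    have h1 := count_blocks l M (l ^ M₀) hl E' hper hK J ?_ κ (fun q hq => (hmem q hq).1)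
    · have e : l ^ (M * J.card) = l ^ (M₀ * J.card) * (l ^ M₀) ^ J.card := by
        rw [← pow_mul, ← pow_add]; congr 1; rw [hMdef]; ring
      rw [e, ← mul_assoc] at h1
      have h2 := Nat.le_of_mul_le_mul_right h1 (by positivity)
      refine le_trans (Nat.mul_le_mul_left _ ?_) h2
      exact Nat.pow_le_pow_right hl (Nat.mul_le_mul_left _ hn)
    · intro q hq q' hq' hlt
      have e : q % M = q' % M := (hmem q hq).2.trans (hmem q' hq').2.symm
      have hd : M ∣ q' - q := (Nat.modEq_iff_dvd' hlt.le).1 e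
      have := Nat.le_of_dvd (by omega) hd
      omega
  calc _ ≤ (JJ.biUnion fun J => (range (l ^ κ)).filter fun a => ∀ q ∈ J, E' q a).card *
        l ^ (M₀ * n) := by
        apply Nat.mul_le_mul_right
        apply card_le_card
        intro a ha
        simp only [mem_filter, mem_biUnion] at ha ⊢
        obtain ⟨o, ho, hfib⟩ := exists_le_card_fiber_of_mul_le_card_of_maps_to
          (s := (range (κ + 1)).filter fun q => q + M ≤ κ ∧ ∃ cd ∈ Code, E q cd a)
          (t := range M) (f := fun q => q % M) (n := n)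
          (fun q _ => mem_range.2 (Nat.mod_lt _ hMpos)) ⟨0, mem_range.2 hMpos⟩
          (by rw [card_range]; exact ha.2)
        refine ⟨((range (κ + 1)).filter fun q => q + M ≤ κ ∧ ∃ cd ∈ Code, E q cd a).filter
            fun q => q % M = o, ?_, ha.1, ?_⟩
        rotate_left
        · intro q hq'
          simp only [mem_filter] at hq'
          obtain ⟨cd, hcd, h⟩ := hq'.1.2.2
          exact (hE' _ _).2 ⟨cd, hcd, a, rfl, h⟩
        · simp only [JJ, mem_biUnion, mem_filter, mem_powerset]
          refine ⟨o, ho, ?_, hfib⟩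
          intro q hq
          simp only [cl, mem_filter] at hq ⊢
          exact ⟨hq.1.1, hq.1.2.1, hq.2⟩
    _ ≤ (∑ J ∈ JJ, ((range (l ^ κ)).filter fun a => ∀ q ∈ J, E' q a).card) * l ^ (M₀ * n) :=
        Nat.mul_le_mul_right _ card_biUnion_le
    _ = ∑ J ∈ JJ, ((range (l ^ κ)).filter fun a => ∀ q ∈ J, E' q a).card * l ^ (M₀ * n) := by
        rw [sum_mul]
    _ ≤ JJ.card * l ^ κ := by
        have := sum_le_card_nsmul JJ _ _ hA
        simpa using this
    _ ≤ _ := Nat.mul_le_mul_right _ hJJ

end Pool.Agent.Lib.MP_9177b7_ag.J.Path
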