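import Mathlib
import Pool.Agent.Lib.MP_9177b7_ag.J.DefsA

/-!
Geometry of numbers for the path count: bounded matrices between two given lattices without short
vectors are determined by boundedly many data; sublattices containing `N ℤ²` are few.
-/

namespace Pool.Agent.Lib.MP_9177b7_ag.J.Path

open Finset

theorem mem_ch {l : ℕ} {φ x : Fin 2 → ℤ} {p : ℕ} :
    x ∈ ch l φ p ↔ (l : ℤ) ^ p ∣ φ 0 * x 0 + φ 1 * x 1 := Iff.rfl

/-- Pigeonhole lemma of Thue. -/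
theorem thue (n : ℕ) (hn : 0 < n) (a b : ℤ) (X Y : ℕ) (h : n < (X + 1) * (Y + 1)) :
    ∃ x y : ℤ, (x ≠ 0 ∨ y ≠ 0) ∧ |x| ≤ X ∧ |y| ≤ Y ∧ (n : ℤ) ∣ a * x + b * y := by
  have : NeZero n := ⟨hn.ne'⟩
  obtain ⟨u, hu, v, hv, huv, he⟩ := exists_ne_map_eq_of_card_lt_of_maps_to
    (s := range (X + 1) ×ˢ range (Y + 1)) (t := (univ : Finset (ZMod n)))
    (f := fun u => ((a * (u.1 : ℤ) + b * (u.2 : ℤ) : ℤ) : ZMod n))
    (by simpa using h) (fun _ _ => by simp)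
  simp only [mem_product, mem_range] at hu hv
  refine ⟨(u.1 : ℤ) - v.1, (u.2 : ℤ) - v.2, ?_, ?_, ?_, ?_⟩
  · by_contra hc
    push Not at hc
    apply huv
    ext <;> omega
  · rw [abs_le]; constructor <;> omega
  · rw [abs_le]; constructor <;> omega
  · have := (ZMod.intCast_eq_intCast_iff_dvd_sub _ _ _).1 he.symm
    convert this using 1
    ring

/-- No short vector at position `t`. -/
def Good (l : ℕ) (φ : Fin 2 → ℤ) (t : ℕ) (ε : ℝ) : Prop :=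
  ∀ x ∈ ch l φ t, x ≠ 0 → ε * (l : ℝ) ^ t ≤ ((x 0 ^ 2 + x 1 ^ 2 : ℤ) : ℝ)

theorem thue_real (n : ℕ) (hn : 0 < n) (a b : ℤ) (δ : ℝ) (hδ : 0 < δ) :
    ∃ x y : ℤ, (x ≠ 0 ∨ y ≠ 0) ∧ (x : ℝ) ^ 2 ≤ δ ^ 2 * n ∧ (y : ℝ) ^ 2 ≤ n / δ ^ 2 ∧
      (n : ℤ) ∣ a * x + b * y := by
  have hn' : (0 : ℝ) < n := by exact_mod_cast hn
  set s := Real.sqrt n with hs
  have hs0 : 0 < s := Real.sqrt_pos.2 hn'
  have hss : s ^ 2 = n := Real.sq_sqrt hn'.le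
  obtain ⟨x, y, h0, hx, hy, hd⟩ := thue n hn a b ⌊δ * s⌋₊ ⌊s / δ⌋₊ (by
    have h1 := Nat.lt_floor_add_one (δ * s)
    have h2 := Nat.lt_floor_add_one (s / δ)
    have h3 : δ * s * (s / δ) < ((⌊δ * s⌋₊ : ℝ) + 1) * ((⌊s / δ⌋₊ : ℝ) + 1) :=
      mul_lt_mul'' h1 h2 (by positivity) (by positivity)
    have h4 : δ * s * (s / δ) = n := by rw [← hss]; field_simp
    rw [h4] at h3
    exact_mod_cast h3)
  refine ⟨x, y, h0, ?_, ?_, hd⟩
  · have h1 : |(x : ℝ)| ≤ δ * s := by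
      have : ((|x| : ℤ) : ℝ) ≤ ((⌊δ * s⌋₊ : ℤ) : ℝ) := by exact_mod_cast hx
      rw [Int.cast_abs, Int.cast_natCast] at this
      exact this.trans (Nat.floor_le (by positivity))
    calc (x : ℝ) ^ 2 = |(x : ℝ)| ^ 2 := (sq_abs _).symm
      _ ≤ (δ * s) ^ 2 := pow_le_pow_left₀ (abs_nonneg _) h1 2
      _ = _ := by rw [mul_pow, hss]
  · have h1 : |(y : ℝ)| ≤ s / δ := by
      have : ((|y| : ℤ) : ℝ) ≤ ((⌊s / δ⌋₊ : ℤ) : ℝ) := by exact_mod_cast hy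
      rw [Int.cast_abs, Int.cast_natCast] at this
      exact this.trans (Nat.floor_le (by positivity))
    calc (y : ℝ) ^ 2 = |(y : ℝ)| ^ 2 := (sq_abs _).symm
      _ ≤ (s / δ) ^ 2 := pow_le_pow_left₀ (abs_nonneg _) h1 2
      _ = _ := by rw [div_pow, hss]

/-- Two independent vectors of comparable length. -/
theorem two_short {l : ℕ} (hl : 0 < l) {φ : Fin 2 → ℤ} {t : ℕ} {ε δ : ℝ} (hδ : 0 < δ)
    (hδ1 : δ ≤ 1) (hδε : 4 * δ ^ 2 ≤ ε) (hG : Good l φ t ε) :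
    ∃ x ∈ ch l φ t, ∃ y ∈ ch l φ t, x 0 * y 1 - x 1 * y 0 ≠ 0 ∧
      (∀ i, (x i : ℝ) ^ 2 ≤ (l : ℝ) ^ t / δ ^ 2) ∧ ∀ i, (y i : ℝ) ^ 2 ≤ (l : ℝ) ^ t / δ ^ 2 := by
  have hn : 0 < l ^ t := by positivity
  have hn' : (0 : ℝ) < (l : ℝ) ^ t := by positivity
  obtain ⟨x0, x1, hx, hx0, hx1, hxd⟩ := thue_real (l ^ t) hn (φ 0) (φ 1) δ hδ
  obtain ⟨y1, y0, hy, hy1, hy0, hyd⟩ := thue_real (l ^ t) hn (φ 1) (φ 0) δ hδ
  push_cast at hx0 hx1 hy0 hy1 hxd hyd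
  have hxm : (![x0, x1] : Fin 2 → ℤ) ∈ ch l φ t := by simpa [mem_ch] using hxd
  have hym : (![y0, y1] : Fin 2 → ℤ) ∈ ch l φ t := by
    rw [add_comm] at hyd
    simpa [mem_ch] using hyd
  have hx' := hG _ hxm (by
    intro h
    have h0 := congrFun h 0
    have h1 := congrFun h 1
    simp at h0 h1
    tauto)
  have hy' := hG _ hym (by
    intro h
    have h0 := congrFun h 0
    have h1 := congrFun h 1
    simp at h0 h1
    tauto)
  simp only [Matrix.cons_val_zero, Matrix.cons_val_one] at hx' hy'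
  push_cast at hx' hy'
  have hδ2 : 0 < δ ^ 2 * (l : ℝ) ^ t := by positivity
  have hεn : 4 * δ ^ 2 * (l : ℝ) ^ t ≤ ε * (l : ℝ) ^ t := mul_le_mul_of_nonneg_right hδε hn'.le
  have hle : δ ^ 2 * (l : ℝ) ^ t ≤ (l : ℝ) ^ t / δ ^ 2 := by
    rw [le_div_iff₀ (by positivity)]
    have h1 : δ ^ 2 ≤ 1 := pow_le_one₀ hδ.le hδ1
    have h2 : δ ^ 2 * δ ^ 2 ≤ 1 := mul_le_one₀ h1 (by positivity) h1
    nlinarith
  refine ⟨_, hxm, _, hym, ?_, ?_, ?_⟩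
  · simp only [Matrix.cons_val_zero, Matrix.cons_val_one]
    intro h
    have h' : (x0 : ℝ) * y1 = x1 * y0 := by exact_mod_cast sub_eq_zero.1 h
    have h1 : (x0 : ℝ) ^ 2 < (x1 : ℝ) ^ 2 := by nlinarith
    have h2 : (y1 : ℝ) ^ 2 < (y0 : ℝ) ^ 2 := by nlinarith
    have h3 : (x0 : ℝ) ^ 2 * (y1 : ℝ) ^ 2 < (x1 : ℝ) ^ 2 * (y0 : ℝ) ^ 2 :=
      mul_lt_mul'' h1 h2 (by positivity) (by positivity)
    rw [← mul_pow, ← mul_pow, h'] at h3
    exact lt_irrefl _ h3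
  · intro i
    fin_cases i
    · simpa using hx0.trans hle
    · simpa using hx1
  · intro i
    fin_cases i
    · simpa using hy0
    · simpa using hy1.trans hle

theorem mulVec_eq {γ : Matrix (Fin 2) (Fin 2) ℚ} {x y : Fin 2 → ℤ} :
    (γ.mulVec (fun i => (x i : ℚ)) = fun i => (y i : ℚ)) ↔
      γ 0 0 * x 0 + γ 0 1 * x 1 = y 0 ∧ γ 1 0 * x 0 + γ 1 1 * x 1 = y 1 := by
  constructor
  · intro h
    have h0 := congrFun h 0
    have h1 := congrFun h 1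
    simp only [Matrix.mulVec, dotProduct, Fin.sum_univ_two] at h0 h1
    exact ⟨h0, h1⟩
  · rintro ⟨h0, h1⟩
    ext i
    fin_cases i
    · simpa [Matrix.mulVec, dotProduct, Fin.sum_univ_two] using h0
    · simpa [Matrix.mulVec, dotProduct, Fin.sum_univ_two] using h1

theorem sq_lin_le (a b x y A X : ℝ) (ha : a ^ 2 ≤ A) (hb : b ^ 2 ≤ A) (hx : x ^ 2 ≤ X)
    (hy : y ^ 2 ≤ X) : (a * x + b * y) ^ 2 ≤ 4 * A * X := by
  have h1 : a ^ 2 * x ^ 2 ≤ A * X := mul_le_mul ha hx (by positivity) ((sq_nonneg _).trans ha)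
  have h2 : b ^ 2 * y ^ 2 ≤ A * X := mul_le_mul hb hy (by positivity) ((sq_nonneg _).trans ha)
  nlinarith [sq_nonneg (a * x - b * y)]

/-- Two close bounded matrices between the same lattices agree on a vector of normal length. -/
theorem agree_on {l : ℕ} (hl : 0 < l) {φ : Fin 2 → ℤ} {t : ℕ} {ε δ R θ N : ℝ} (hδ : 0 < δ)
    (hN : 0 < N) (hθ : 32 * R * θ < ε * δ ^ 2) (hG : Good l φ t ε)
    {γ γ' : Matrix (Fin 2) (Fin 2) ℚ} {Λ : Submodule ℤ (Fin 2 → ℤ)}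
    (hb : ∀ i j, ((γ i j : ℚ) : ℝ) ^ 2 ≤ R * N) (hd : ((|γ.det| : ℚ) : ℝ) = N)
    (hc : ∀ i j, (((γ' i j : ℚ) : ℝ) - ((γ i j : ℚ) : ℝ)) ^ 2 ≤ θ * N)
    (ho : Onto γ (ch l φ t) Λ) (ho' : Onto γ' (ch l φ t) Λ) (x : Fin 2 → ℤ) (hx : x ∈ ch l φ t)
    (hxs : ∀ i, (x i : ℝ) ^ 2 ≤ (l : ℝ) ^ t / δ ^ 2) :
    (γ' 0 0 - γ 0 0) * x 0 + (γ' 0 1 - γ 0 1) * x 1 = 0 ∧
      (γ' 1 0 - γ 1 0) * x 0 + (γ' 1 1 - γ 1 1) * x 1 = 0 := by
  obtain ⟨w, hw, h1⟩ := ho'.1 x hx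
  obtain ⟨y, hy, h2⟩ := ho.2 w hw
  rw [mulVec_eq] at h1 h2
  have hz : y - x ∈ ch l φ t := sub_mem hy hx
  by_cases hz0 : y - x = 0
  · have : y = x := sub_eq_zero.1 hz0
    subst this
    constructor
    · linarith [h1.1, h2.1]
    · linarith [h1.2, h2.2]
  exfalso
  have hg := hG _ hz hz0
  simp only [Pi.sub_apply] at hg
  push_cast at hg
  set X := (l : ℝ) ^ t / δ ^ 2 with hX
  have hv0 := sq_lin_le _ _ _ _ _ _ (hc 0 0) (hc 0 1) (hxs 0) (hxs 1)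
  have hv1 := sq_lin_le _ _ _ _ _ _ (hc 1 0) (hc 1 1) (hxs 0) (hxs 1)
  set v0 := (((γ' 0 0 : ℚ) : ℝ) - ((γ 0 0 : ℚ) : ℝ)) * x 0 +
    (((γ' 0 1 : ℚ) : ℝ) - ((γ 0 1 : ℚ) : ℝ)) * x 1 with hv0d
  set v1 := (((γ' 1 0 : ℚ) : ℝ) - ((γ 1 0 : ℚ) : ℝ)) * x 0 +
    (((γ' 1 1 : ℚ) : ℝ) - ((γ 1 1 : ℚ) : ℝ)) * x 1 with hv1d
  have a1 : ((γ' 0 0 : ℚ) : ℝ) * x 0 + ((γ' 0 1 : ℚ) : ℝ) * x 1 = w 0 := by exact_mod_cast h1.1
  have a2 : ((γ' 1 0 : ℚ) : ℝ) * x 0 + ((γ' 1 1 : ℚ) : ℝ) * x 1 = w 1 := by exact_mod_cast h1.2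
  have a3 : ((γ 0 0 : ℚ) : ℝ) * y 0 + ((γ 0 1 : ℚ) : ℝ) * y 1 = w 0 := by exact_mod_cast h2.1
  have a4 : ((γ 1 0 : ℚ) : ℝ) * y 0 + ((γ 1 1 : ℚ) : ℝ) * y 1 = w 1 := by exact_mod_cast h2.2
  have hdet : (((γ 0 0 : ℚ) : ℝ) * ((γ 1 1 : ℚ) : ℝ) - ((γ 0 1 : ℚ) : ℝ) * ((γ 1 0 : ℚ) : ℝ)) ^ 2 =
      N ^ 2 := by
    rw [← hd, Matrix.det_fin_two]
    push_cast
    rw [sq_abs]
  have e0 : v0 = ((γ 0 0 : ℚ) : ℝ) * ((y 0 : ℝ) - x 0) + ((γ 0 1 : ℚ) : ℝ) * ((y 1 : ℝ) - x 1) := by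
    rw [hv0d]; linarith
  have e1 : v1 = ((γ 1 0 : ℚ) : ℝ) * ((y 0 : ℝ) - x 0) + ((γ 1 1 : ℚ) : ℝ) * ((y 1 : ℝ) - x 1) := by
    rw [hv1d]; linarith
  have hn1 : (-((γ 0 1 : ℚ) : ℝ)) ^ 2 ≤ R * N := by rw [neg_sq]; exact hb 0 1
  have hn2 : (-((γ 1 0 : ℚ) : ℝ)) ^ 2 ≤ R * N := by rw [neg_sq]; exact hb 1 0
  have b0 := sq_lin_le _ _ _ _ _ _ (hb 1 1) hn1 hv0 hv1
  have b1 := sq_lin_le _ _ _ _ _ _ hn2 (hb 0 0) hv0 hv1
  have c0 : (((γ 1 1 : ℚ) : ℝ) * v0 + -((γ 0 1 : ℚ) : ℝ) * v1) ^ 2 =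
      N ^ 2 * ((y 0 : ℝ) - x 0) ^ 2 := by
    rw [← hdet, e0, e1]; ring
  have c1 : (-((γ 1 0 : ℚ) : ℝ) * v0 + ((γ 0 0 : ℚ) : ℝ) * v1) ^ 2 =
      N ^ 2 * ((y 1 : ℝ) - x 1) ^ 2 := by
    rw [← hdet, e0, e1]; ring
  rw [c0] at b0
  rw [c1] at b1
  have hN2 : 0 < N ^ 2 := by positivity
  have d0 : ((y 0 : ℝ) - x 0) ^ 2 + ((y 1 : ℝ) - x 1) ^ 2 ≤ 32 * R * θ * X := by
    apply le_of_mul_le_mul_left _ hN2
    nlinarith
  have hXpos : 0 < X := by positivity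
  have d1 : 32 * R * θ * X < ε * δ ^ 2 * X := mul_lt_mul_of_pos_right hθ hXpos
  have d2 : ε * δ ^ 2 * X = ε * (l : ℝ) ^ t := by rw [hX]; field_simp
  linarith

/-- Bounded matrices between two given lattices are determined by a code of bounded size. -/
theorem code_lemma (R ε : ℝ) (hε : 0 < ε) :
    ∃ (Code : Finset (Fin 2 × Fin 2 → ℤ)) (cd : ℕ → Matrix (Fin 2) (Fin 2) ℚ → Fin 2 × Fin 2 → ℤ),
      (∀ (N : ℕ) (γ : Matrix (Fin 2) (Fin 2) ℚ), 0 < N →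
        (∀ i j, ((γ i j : ℚ) : ℝ) ^ 2 ≤ R * N) → cd N γ ∈ Code) ∧
      ∀ (l : ℕ) (φ : Fin 2 → ℤ) (t N : ℕ) (γ γ' : Matrix (Fin 2) (Fin 2) ℚ)
        (Λ : Submodule ℤ (Fin 2 → ℤ)), 0 < l → 0 < N → Good l φ t ε →
        (∀ i j, ((γ i j : ℚ) : ℝ) ^ 2 ≤ R * N) → |γ.det| = N → Onto γ (ch l φ t) Λ →
        Onto γ' (ch l φ t) Λ → cd N γ = cd N γ' → γ = γ' := by
  set δ : ℝ := min 1 (ε / 4) with hδd
  have hδ : 0 < δ := lt_min one_pos (by positivity)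
  have hδ1 : δ ≤ 1 := min_le_left _ _
  have hδε : 4 * δ ^ 2 ≤ ε := by
    have : δ ≤ ε / 4 := min_le_right _ _
    nlinarith
  set R' : ℝ := |R| + 1 with hR'
  have hR'0 : 0 < R' := by positivity
  have hRR : R ≤ R' := by have := le_abs_self R; linarith
  set θ : ℝ := ε * δ ^ 2 / (64 * R') with hθd
  have hθ0 : 0 < θ := by positivity
  have hθ : 32 * R' * θ < ε * δ ^ 2 := by
    have : 32 * R' * θ = ε * δ ^ 2 / 2 := by rw [hθd]; field_simp; ring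
    rw [this]
    have : 0 < ε * δ ^ 2 := by positivity
    linarith
  set W : ℤ := ⌈Real.sqrt (R' / θ)⌉ + 1 with hW
  refine ⟨Fintype.piFinset fun _ => Finset.Icc (-W) W,
    fun N γ ij => ⌊((γ ij.1 ij.2 : ℚ) : ℝ) / Real.sqrt (θ * N)⌋, ?_, ?_⟩
  · intro N γ hN hb
    have hN' : (0 : ℝ) < N := by exact_mod_cast hN
    rw [Fintype.mem_piFinset]
    rintro ⟨i, j⟩
    have hs : 0 < Real.sqrt (θ * N) := Real.sqrt_pos.2 (by positivity)
    have h1 : |((γ i j : ℚ) : ℝ) / Real.sqrt (θ * N)| ≤ Real.sqrt (R' / θ) := by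
      apply Real.abs_le_sqrt
      rw [div_pow, Real.sq_sqrt (by positivity), div_le_div_iff₀ (by positivity) hθ0]
      have := (hb i j).trans (mul_le_mul_of_nonneg_right hRR hN'.le)
      nlinarith
    have h2 := Int.le_ceil (Real.sqrt (R' / θ))
    rw [abs_le] at h1
    simp only [Finset.mem_Icc]
    constructor
    · rw [Int.le_floor, hW]; push_cast; linarith [h1.1]
    · have h3 := Int.floor_le (((γ i j : ℚ) : ℝ) / Real.sqrt (θ * N))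
      have h4 : ((⌊((γ i j : ℚ) : ℝ) / Real.sqrt (θ * N)⌋ : ℤ) : ℝ) ≤ (W : ℝ) := by
        rw [hW]; push_cast; linarith [h1.2]
      exact_mod_cast h4
  · intro l φ t N γ γ' Λ hl hN hG hb hd ho ho' hcd
    have hN' : (0 : ℝ) < N := by exact_mod_cast hN
    have hs : 0 < Real.sqrt (θ * N) := Real.sqrt_pos.2 (by positivity)
    have hc : ∀ i j, (((γ' i j : ℚ) : ℝ) - ((γ i j : ℚ) : ℝ)) ^ 2 ≤ θ * N := by
      intro i j
      have h1 : ⌊((γ i j : ℚ) : ℝ) / Real.sqrt (θ * N)⌋ = ⌊((γ' i j : ℚ) : ℝ) / Real.sqrt (θ * N)⌋ :=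
        congrFun hcd (i, j)
      have h2 := Int.abs_sub_lt_one_of_floor_eq_floor h1.symm
      rw [← sub_div, abs_div, abs_of_pos hs, div_lt_one hs] at h2
      rw [← sq_abs, ← Real.sq_sqrt (x := θ * N) (by positivity)]
      exact pow_le_pow_left₀ (abs_nonneg _) h2.le 2
    have hb' : ∀ i j, ((γ i j : ℚ) : ℝ) ^ 2 ≤ R' * N := fun i j =>
      (hb i j).trans (mul_le_mul_of_nonneg_right hRR hN'.le)
    obtain ⟨x, hx, y, hy, hxy, hxs, hys⟩ := two_short hl hδ hδ1 hδε hG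
    have hd' : ((|γ.det| : ℚ) : ℝ) = N := by rw [hd]; simp
    obtain ⟨x1, x2⟩ := agree_on hl hδ hN' hθ hG hb' hd' hc ho ho' x hx hxs
    obtain ⟨y1, y2⟩ := agree_on hl hδ hN' hθ hG hb' hd' hc ho ho' y hy hys
    have hxy' : (x 0 : ℚ) * y 1 - x 1 * y 0 ≠ 0 := by exact_mod_cast hxy
    have k00 : γ' 0 0 - γ 0 0 = 0 := by
      apply mul_right_cancel₀ hxy'; linear_combination (y 1 : ℚ) * x1 - (x 1 : ℚ) * y1
    have k01 : γ' 0 1 - γ 0 1 = 0 := by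
      apply mul_right_cancel₀ hxy'; linear_combination (x 0 : ℚ) * y1 - (y 0 : ℚ) * x1
    have k10 : γ' 1 0 - γ 1 0 = 0 := by
      apply mul_right_cancel₀ hxy'; linear_combination (y 1 : ℚ) * x2 - (x 1 : ℚ) * y2
    have k11 : γ' 1 1 - γ 1 1 = 0 := by
      apply mul_right_cancel₀ hxy'; linear_combination (x 0 : ℚ) * y2 - (y 0 : ℚ) * x2
    ext i j
    fin_cases i <;> fin_cases j
    · exact (sub_eq_zero.1 k00).symm
    · exact (sub_eq_zero.1 k01).symm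
    · exact (sub_eq_zero.1 k10).symm
    · exact (sub_eq_zero.1 k11).symm

/-- The sheet with given parameters. -/
def sheet (N g h g' : ℕ) : Submodule ℤ (Fin 2 → ℤ) :=
  Submodule.span ℤ {![(g : ℤ), (h : ℤ)], ![0, (g' : ℤ)], ![(N : ℤ), 0], ![0, (N : ℤ)]}

theorem exists_sheet (N : ℕ) (hN : 0 < N) (S : Submodule ℤ (Fin 2 → ℤ))
    (hS : ∀ x : Fin 2 → ℤ, (N : ℤ) • x ∈ S) :
    ∃ g h g' : ℕ, g < N ∧ h < N ∧ g' < N ∧ S = sheet N g h g' := by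
  have hN' : (0 : ℤ) < N := by exact_mod_cast hN
  obtain ⟨g, hg⟩ := (IsPrincipalIdealRing.principal
    (S.map (LinearMap.proj (R := ℤ) (φ := fun _ : Fin 2 => ℤ) 0))).principal
  obtain ⟨g', hg'⟩ := (IsPrincipalIdealRing.principal
    (S.comap (LinearMap.single ℤ (fun _ : Fin 2 => ℤ) 1))).principal
  have h1 : g ∈ S.map (LinearMap.proj (R := ℤ) (φ := fun _ : Fin 2 => ℤ) 0) := by
    rw [hg]; exact Submodule.mem_span_singleton_self g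
  obtain ⟨u, hu, hug⟩ := h1
  have hug' : u 0 = g := hug
  have h2 : g' ∈ S.comap (LinearMap.single ℤ (fun _ : Fin 2 => ℤ) 1) := by
    rw [hg']; exact Submodule.mem_span_singleton_self g'
  have hv : (Pi.single 1 g' : Fin 2 → ℤ) ∈ S := h2
  have c1 : (((g % N).toNat : ℕ) : ℤ) = g % N := Int.toNat_of_nonneg (Int.emod_nonneg _ hN'.ne')
  have c2 : (((u 1 % N).toNat : ℕ) : ℤ) = u 1 % N := Int.toNat_of_nonneg (Int.emod_nonneg _ hN'.ne')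
  have c3 : (((g' % N).toNat : ℕ) : ℤ) = g' % N := Int.toNat_of_nonneg (Int.emod_nonneg _ hN'.ne')
  have d1 := Int.emod_add_mul_ediv g N
  have d2 := Int.emod_add_mul_ediv (u 1) N
  have d3 := Int.emod_add_mul_ediv g' N
  refine ⟨(g % N).toNat, (u 1 % N).toNat, (g' % N).toNat, ?_, ?_, ?_, ?_⟩
  · have := Int.emod_lt_of_pos g hN'; omega
  · have := Int.emod_lt_of_pos (u 1) hN'; omega
  · have := Int.emod_lt_of_pos g' hN'; omega
  unfold sheet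
  rw [c1, c2, c3]
  apply le_antisymm
  · intro x hx
    have h3 : x 0 ∈ S.map (LinearMap.proj (R := ℤ) (φ := fun _ : Fin 2 => ℤ) 0) := ⟨x, hx, rfl⟩
    rw [hg, Submodule.mem_span_singleton] at h3
    obtain ⟨α, hα⟩ := h3
    have h4 : x 1 - α * u 1 ∈ S.comap (LinearMap.single ℤ (fun _ : Fin 2 => ℤ) 1) := by
      have e : (Pi.single 1 (x 1 - α * u 1) : Fin 2 → ℤ) = x - α • u := by
        ext i
        fin_cases i
        · simp only [smul_eq_mul] at hα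
          simp [hug', hα]
        · simp
      show (Pi.single 1 (x 1 - α * u 1) : Fin 2 → ℤ) ∈ S
      rw [e]
      exact sub_mem hx (S.smul_mem _ hu)
    rw [hg', Submodule.mem_span_singleton] at h4
    obtain ⟨β, hβ⟩ := h4
    simp only [smul_eq_mul] at hα hβ
    have e : x = α • ![g % N, u 1 % N] + β • ![0, g' % N] + (α * (g / N)) • ![(N : ℤ), 0] +
        (α * (u 1 / N) + β * (g' / N)) • ![0, (N : ℤ)] := by
      ext i
      fin_cases i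
      · simp
        linear_combination -hα - α * d1
      · simp
        linear_combination -hβ - α * d2 - β * d3
    rw [e]
    refine add_mem (add_mem (add_mem ?_ ?_) ?_) ?_ <;>
      exact Submodule.smul_mem _ _ (Submodule.subset_span (by simp))
  · rw [Submodule.span_le]
    intro x hx
    simp only [Set.mem_insert_iff, Set.mem_singleton_iff] at hx
    rcases hx with rfl | rfl | rfl | rfl
    · have e : (![g % N, u 1 % N] : Fin 2 → ℤ) = u - (N : ℤ) • ![g / N, u 1 / N] := by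
        ext i
        fin_cases i
        · simp
          linear_combination d1 - hug'
        · simp
          linear_combination d2
      rw [e]
      exact sub_mem hu (hS _)
    · have e : (![0, g' % N] : Fin 2 → ℤ) = Pi.single 1 g' - (N : ℤ) • ![0, g' / N] := by
        ext i
        fin_cases i
        · simp
        · simp
          linear_combination d3
      rw [e]
      exact sub_mem hv (hS _)
    · have e : (![(N : ℤ), 0] : Fin 2 → ℤ) = (N : ℤ) • ![1, 0] := by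
        ext i
        fin_cases i <;> simp
      rw [e]
      exact hS _
    · have e : (![0, (N : ℤ)] : Fin 2 → ℤ) = (N : ℤ) • ![0, 1] := by
        ext i
        fin_cases i <;> simp
      rw [e]
      exact hS _

end Pool.Agent.Lib.MP_9177b7_ag.J.Path
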