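import Mathlib
import Pool.Agent.Lib.MP_9177b7_ag.J.Path1
import Pool.Agent.Lib.MP_9177b7_ag.J.Path2

/-!
Local analysis of a run: the digits of the path are restricted along a fixed proportion of it.
-/

namespace Pool.Agent.Lib.MP_9177b7_ag.J.Path

theorem mem_ca {l : ℕ} {a : ℤ} {x : Fin 2 → ℤ} {p : ℕ} :
    x ∈ ch l ![1, a] p ↔ (l : ℤ) ^ p ∣ x 0 + a * x 1 := by simp [mem_ch]

/-- The block of `M` digits of `a` after position `q` is restricted by `γ`. -/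
def Res (l M : ℕ) (γ : Matrix (Fin 2) (Fin 2) ℚ) (q : ℕ) (a : ℤ) : Prop :=
  ∃ (b d σ : ℤ) (k : ℕ), (b : ℚ) = -γ 1 0 * (a : ℚ) ^ 2 + (γ 1 1 - γ 0 0) * a + γ 0 1 ∧
    (d : ℚ) = γ 1 1 - γ 0 0 - 2 * γ 1 0 * a ∧ (σ : ℚ) = γ 1 0 * (l : ℚ) ^ q ∧
    (l : ℤ) ^ (k + 3 * M) ∣ b ∧
    ¬ ((l : ℤ) ^ (k + 1) ∣ σ * (l : ℤ) ^ q ∧ (l : ℤ) ^ (k + 1) ∣ d * (l : ℤ) ^ q)

theorem res_aux {l : ℕ} (hl : l.Prime) (M q k : ℕ) (γ : Matrix (Fin 2) (Fin 2) ℚ)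
    (a₁ a₂ a₃ b₁ b₂ b₃ d σ : ℤ) (h2 : (l : ℤ) ^ q ∣ a₂ - a₁) (h3 : (l : ℤ) ^ q ∣ a₃ - a₁)
    (e1 : (b₁ : ℚ) = -γ 1 0 * (a₁ : ℚ) ^ 2 + (γ 1 1 - γ 0 0) * a₁ + γ 0 1)
    (e2 : (b₂ : ℚ) = -γ 1 0 * (a₂ : ℚ) ^ 2 + (γ 1 1 - γ 0 0) * a₂ + γ 0 1)
    (e3 : (b₃ : ℚ) = -γ 1 0 * (a₃ : ℚ) ^ 2 + (γ 1 1 - γ 0 0) * a₃ + γ 0 1)
    (ed : (d : ℚ) = γ 1 1 - γ 0 0 - 2 * γ 1 0 * a₁) (eσ : (σ : ℚ) = γ 1 0 * (l : ℚ) ^ q)
    (d1 : (l : ℤ) ^ (k + 3 * M) ∣ b₁) (d2 : (l : ℤ) ^ (k + 3 * M) ∣ b₂)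
    (d3 : (l : ℤ) ^ (k + 3 * M) ∣ b₃)
    (hn : ¬ ((l : ℤ) ^ (k + 1) ∣ σ * (l : ℤ) ^ q ∧ (l : ℤ) ^ (k + 1) ∣ d * (l : ℤ) ^ q)) :
    (l : ℤ) ^ (q + M) ∣ a₂ - a₁ ∨ (l : ℤ) ^ (q + M) ∣ a₃ - a₁ ∨ (l : ℤ) ^ (q + M) ∣ a₃ - a₂ := by
  obtain ⟨x, hx⟩ := h2
  obtain ⟨y, hy⟩ := h3
  have hx' : (a₂ : ℚ) = a₁ + (l : ℚ) ^ q * x := by
    have : a₂ = a₁ + (l : ℤ) ^ q * x := by linarith
    exact_mod_cast this
  have hy' : (a₃ : ℚ) = a₁ + (l : ℚ) ^ q * y := by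
    have : a₃ = a₁ + (l : ℤ) ^ q * y := by linarith
    exact_mod_cast this
  have f2 : b₂ = b₁ + d * (l : ℤ) ^ q * x + -(σ * (l : ℤ) ^ q) * x ^ 2 := by
    have : (b₂ : ℚ) = b₁ + d * (l : ℚ) ^ q * x + -(σ * (l : ℚ) ^ q) * (x : ℚ) ^ 2 := by
      rw [e1, e2, ed, eσ, hx']; ring
    exact_mod_cast this
  have f3 : b₃ = b₁ + d * (l : ℤ) ^ q * y + -(σ * (l : ℤ) ^ q) * y ^ 2 := by
    have : (b₃ : ℚ) = b₁ + d * (l : ℚ) ^ q * y + -(σ * (l : ℚ) ^ q) * (y : ℚ) ^ 2 := by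
      rw [e1, e3, ed, eσ, hy']; ring
    exact_mod_cast this
  rw [f2] at d2
  rw [f3] at d3
  have := three_point (Nat.prime_iff_prime_int.1 hl) M k _ _ _ x y d1 d2 d3
    (by rw [dvd_neg]; exact hn)
  rcases this with h | h | h
  · left; rw [hx, pow_add]; exact mul_dvd_mul_left _ h
  · right; left; rw [hy, pow_add]; exact mul_dvd_mul_left _ h
  · right; right
    have e : a₃ - a₂ = (l : ℤ) ^ q * -(x - y) := by linear_combination hy - hx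
    rw [e, pow_add]
    exact mul_dvd_mul_left _ (dvd_neg.2 h)

theorem res_three {l : ℕ} (hl : l.Prime) (M q : ℕ) (γ : Matrix (Fin 2) (Fin 2) ℚ)
    (a₁ a₂ a₃ : ℤ) (h2 : (l : ℤ) ^ q ∣ a₂ - a₁) (h3 : (l : ℤ) ^ q ∣ a₃ - a₁)
    (r1 : Res l M γ q a₁) (r2 : Res l M γ q a₂) (r3 : Res l M γ q a₃) :
    (l : ℤ) ^ (q + M) ∣ a₂ - a₁ ∨ (l : ℤ) ^ (q + M) ∣ a₃ - a₁ ∨ (l : ℤ) ^ (q + M) ∣ a₃ - a₂ := by
  obtain ⟨b₁, d₁, σ₁, k₁, e1, ed1, es1, v1, n1⟩ := r1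
  obtain ⟨b₂, d₂, σ₂, k₂, e2, ed2, es2, v2, n2⟩ := r2
  obtain ⟨b₃, d₃, σ₃, k₃, e3, ed3, es3, v3, n3⟩ := r3
  have mono : ∀ {k k' : ℕ} {b : ℤ}, k ≤ k' → (l : ℤ) ^ (k' + 3 * M) ∣ b →
      (l : ℤ) ^ (k + 3 * M) ∣ b := fun h h' => (pow_dvd_pow _ (by omega)).trans h'
  have h32 : (l : ℤ) ^ q ∣ a₃ - a₂ := by
    have := dvd_sub h3 h2
    rwa [sub_sub_sub_cancel_right] at this
  by_cases c1 : k₁ ≤ k₂ ∧ k₁ ≤ k₃
  · exact res_aux hl M q k₁ γ a₁ a₂ a₃ b₁ b₂ b₃ d₁ σ₁ h2 h3 e1 e2 e3 ed1 es1 v1 (mono c1.1 v2)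
      (mono c1.2 v3) n1
  by_cases c2 : k₂ ≤ k₁ ∧ k₂ ≤ k₃
  · have := res_aux hl M q k₂ γ a₂ a₁ a₃ b₂ b₁ b₃ d₂ σ₂ (dvd_sub_comm.1 h2) h32 e2 e1 e3 ed2 es2 v2
      (mono c2.1 v1) (mono c2.2 v3) n2
    rcases this with h | h | h
    · exact Or.inl (dvd_sub_comm.1 h)
    · exact Or.inr (Or.inr h)
    · exact Or.inr (Or.inl h)
  · have := res_aux hl M q k₃ γ a₃ a₁ a₂ b₃ b₁ b₂ d₃ σ₃ (dvd_sub_comm.1 h3) (dvd_sub_comm.1 h32)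
      e3 e1 e2 ed3 es3 v3 (mono (by omega) v1) (mono (by omega) v2) n3
    rcases this with h | h | h
    · exact Or.inr (Or.inl (dvd_sub_comm.1 h))
    · exact Or.inr (Or.inr (dvd_sub_comm.1 h))
    · exact Or.inl h

theorem img_e1 {l : ℕ} {a : ℤ} {γ : Matrix (Fin 2) (Fin 2) ℚ} {S : Submodule ℤ (Fin 2 → ℤ)}
    {t t' : ℕ} (h : Onto γ (ch l ![1, a] t) (S ⊓ ch l ![1, a] t')) :
    ∃ z ∈ S, γ 0 0 * (l : ℚ) ^ t = z 0 ∧ γ 1 0 * (l : ℚ) ^ t = z 1 ∧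
      (l : ℤ) ^ t' ∣ z 0 + a * z 1 := by
  obtain ⟨z, hz, he⟩ := h.1 ![(l : ℤ) ^ t, 0] (by simp [mem_ca])
  rw [mulVec_eq] at he
  refine ⟨z, hz.1, ?_, ?_, mem_ca.1 hz.2⟩
  · simpa using he.1
  · simpa using he.2

theorem img_e2 {l : ℕ} {a : ℤ} {γ : Matrix (Fin 2) (Fin 2) ℚ} {S : Submodule ℤ (Fin 2 → ℤ)}
    {t t' : ℕ} (h : Onto γ (ch l ![1, a] t) (S ⊓ ch l ![1, a] t')) :
    ∃ y ∈ S, γ 0 1 - γ 0 0 * a = y 0 ∧ γ 1 1 - γ 1 0 * a = y 1 ∧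
      (l : ℤ) ^ t' ∣ y 0 + a * y 1 := by
  obtain ⟨z, hz, he⟩ := h.1 ![-a, 1] (by simp [mem_ca])
  rw [mulVec_eq] at he
  refine ⟨z, hz.1, ?_, ?_, mem_ca.1 hz.2⟩
  · have := he.1
    simp at this
    linarith
  · have := he.2
    simp at this
    linarith

/-- A run with a shift: simple root. -/
theorem res_shift {l : ℕ} (hl : l.Prime) {a : ℤ} {γ : Matrix (Fin 2) (Fin 2) ℚ}
    {S : Submodule ℤ (Fin 2 → ℤ)} {N' e p m M : ℕ} (hN : ¬ l ∣ N') (he : 1 ≤ e) (hm : 1 ≤ m)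
    (hM : 3 * M ≤ m) (hd : |γ.det| = (N' * l ^ e : ℕ))
    (h1 : Onto γ (ch l ![1, a] p) (S ⊓ ch l ![1, a] (p + e)))
    (h2 : Onto γ (ch l ![1, a] (p + m)) (S ⊓ ch l ![1, a] (p + m + e))) :
    Res l M γ (p + e) a := by
  obtain ⟨z, -, z0, z1, A, hA⟩ := img_e1 h1
  obtain ⟨y, -, y0, y1, b, hb⟩ := img_e2 h2
  have hl0 : (l : ℚ) ≠ 0 := by exact_mod_cast hl.ne_zero
  have hA' : (z 0 : ℚ) + a * z 1 = (l : ℚ) ^ (p + e) * A := by exact_mod_cast hA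
  have hb' : (y 0 : ℚ) + a * y 1 = (l : ℚ) ^ (p + m + e) * b := by exact_mod_cast hb
  have hA2 : γ 0 0 + a * γ 1 0 = (l : ℚ) ^ e * A := by
    apply mul_left_cancel₀ (pow_ne_zero p hl0)
    rw [← z0, ← z1] at hA'
    linear_combination hA'
  refine ⟨y 0 + a * y 1, y 1 - (l : ℤ) ^ e * A, z 1 * (l : ℤ) ^ e, p + e, ?_, ?_, ?_, ?_, ?_⟩
  · push_cast; rw [← y0, ← y1]; ring
  · push_cast; rw [← y1, ← hA2]; ring
  · push_cast; rw [← z1]; ring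
  · rw [hb]; exact Dvd.dvd.mul_right (pow_dvd_pow _ (by omega)) _
  · rintro ⟨-, h⟩
    have hl0' : (l : ℤ) ^ (p + e) ≠ 0 := pow_ne_zero _ (by exact_mod_cast hl.ne_zero)
    rw [pow_succ', mul_dvd_mul_iff_right hl0'] at h
    have hD : (l : ℤ) ∣ y 1 := by
      have : (l : ℤ) ∣ (l : ℤ) ^ e * A := Dvd.dvd.mul_right (dvd_pow_self _ (by omega)) _
      simpa using dvd_add h this
    have hdet : γ.det = (l : ℚ) ^ e * ((A * y 1 - (l : ℤ) ^ m * b * z 1 : ℤ) : ℚ) := by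
      rw [Matrix.det_fin_two]
      push_cast
      have e1 : γ 0 0 * γ 1 1 - γ 0 1 * γ 1 0 =
        (γ 0 0 + a * γ 1 0) * y 1 - ((y 0 : ℚ) + a * y 1) * γ 1 0 := by rw [← y0, ← y1]; ring
      rw [e1, hA2, hb', ← z1]; ring
    rw [hdet, abs_mul, abs_of_pos (by positivity : (0 : ℚ) < (l : ℚ) ^ e)] at hd
    have h3 : |((A * y 1 - (l : ℤ) ^ m * b * z 1 : ℤ) : ℚ)| = N' := by
      apply mul_left_cancel₀ (pow_ne_zero e hl0)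
      rw [hd]; push_cast; ring
    have h4 : |A * y 1 - (l : ℤ) ^ m * b * z 1| = N' := by exact_mod_cast h3
    apply hN
    have h5 : (l : ℤ) ∣ |A * y 1 - (l : ℤ) ^ m * b * z 1| := by
      rw [dvd_abs]
      exact dvd_sub (hD.mul_left _)
        (Dvd.dvd.mul_right (Dvd.dvd.mul_right (dvd_pow_self _ (by omega)) _) _)
    rw [h4] at h5
    exact_mod_cast h5

/-- Extension of a run without shift to the left. -/
theorem onto_left {l : ℕ} (hl : l.Prime) {a : ℤ} {γ : Matrix (Fin 2) (Fin 2) ℚ}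
    {S : Submodule ℤ (Fin 2 → ℤ)} {N' p t : ℕ} (hN : ¬ l ∣ N')
    (hS : ∀ x : Fin 2 → ℤ, (N' : ℤ) • x ∈ S) (hd : |γ.det| = N') (ht : t ≤ p) {σ : ℤ}
    (hσ : γ 1 0 * (l : ℚ) ^ t = σ) (h1 : Onto γ (ch l ![1, a] p) (S ⊓ ch l ![1, a] p)) :
    Onto γ (ch l ![1, a] t) (S ⊓ ch l ![1, a] t) := by
  obtain ⟨z, hzS, z0, z1, A, hA⟩ := img_e1 h1
  obtain ⟨y, hyS, y0, y1, hb⟩ := img_e2 h1
  obtain ⟨j, rfl⟩ := Nat.exists_eq_add_of_le ht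
  have hl0 : (l : ℚ) ≠ 0 := by exact_mod_cast hl.ne_zero
  have hA' : (z 0 : ℚ) + a * z 1 = (l : ℚ) ^ (t + j) * A := by exact_mod_cast hA
  have hA2 : γ 0 0 + a * γ 1 0 = A := by
    apply mul_left_cancel₀ (pow_ne_zero (t + j) hl0)
    rw [← z0, ← z1] at hA'
    linear_combination hA'
  have hcop : IsCoprime ((l : ℤ) ^ j) (N' : ℤ) := by
    apply IsCoprime.pow_left
    exact Nat.isCoprime_iff_coprime.2 ((Nat.Prime.coprime_iff_not_dvd hl).2 hN)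
  obtain ⟨u, v, huv⟩ := hcop
  have huv' : (u : ℚ) * (l : ℚ) ^ j + v * N' = 1 := by exact_mod_cast huv
  let w : Fin 2 → ℤ := ![(l : ℤ) ^ t * A - a * σ, σ]
  have hz1 : z 1 = (l : ℤ) ^ j * σ := by
    have : (z 1 : ℚ) = (l : ℚ) ^ j * σ := by rw [← z1, ← hσ]; ring
    exact_mod_cast this
  have hwS : w ∈ S := by
    have e : w = u • z + v • ((N' : ℤ) • w) := by
      ext i
      fin_cases i
      · simp [w]
        linear_combination (-((l : ℤ) ^ t * A - a * σ)) * huv - u * hA + u * a * hz1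
      · simp [w]
        linear_combination (-σ) * huv - u * hz1
    rw [e]
    exact add_mem (S.smul_mem _ hzS) (S.smul_mem _ (hS _))
  have hin : ∀ x ∈ ch l ![1, a] t, ∃ y ∈ S ⊓ ch l ![1, a] t,
      γ.mulVec (fun i => (x i : ℚ)) = fun i => (y i : ℚ) := by
    intro x hx
    obtain ⟨r, hr⟩ := mem_ca.1 hx
    have hr' : (x 0 : ℚ) = (l : ℚ) ^ t * r - a * x 1 := by
      have : x 0 = (l : ℤ) ^ t * r - a * x 1 := by linarith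
      exact_mod_cast this
    refine ⟨r • w + x 1 • y, ⟨add_mem (S.smul_mem _ hwS) (S.smul_mem _ hyS),
      add_mem (Submodule.smul_mem _ _ ?_) (Submodule.smul_mem _ _ ?_)⟩, ?_⟩
    · rw [mem_ca]; simp [w]
    · rw [mem_ca]; exact (pow_dvd_pow _ (by omega)).trans hb
    · rw [mulVec_eq]
      constructor
      · simp [w]
        rw [hr', ← y0, ← hA2, ← hσ]; ring
      · simp [w]
        rw [hr', ← y1, ← hσ]; ring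
  refine ⟨hin, ?_⟩
  intro x hx
  obtain ⟨x', hx', he'⟩ := h1.2 ((l : ℤ) ^ j • x) ⟨S.smul_mem _ hx.1, by
    have := mem_ca.1 hx.2
    apply mem_ca.2
    simp only [Pi.smul_apply, smul_eq_mul]
    have e : (l : ℤ) ^ j * x 0 + a * ((l : ℤ) ^ j * x 1) = (x 0 + a * x 1) * (l : ℤ) ^ j := by ring
    rw [e, pow_add]
    exact mul_dvd_mul_right this _⟩
  obtain ⟨x'', hx'', he''⟩ := hin x hx.2
  rw [mulVec_eq] at he' he''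
  simp only [Pi.smul_apply, smul_eq_mul] at he'
  push_cast at he'
  have hx1 : x' ∈ ch l ![1, a] t := mem_ca.2 ((pow_dvd_pow _ (by omega)).trans (mem_ca.1 hx'))
  obtain ⟨sg, hsg⟩ : ∃ sg : ℤ, (sg : ℚ) * γ.det = N' := by
    rcases abs_cases γ.det with h | h
    · exact ⟨1, by rw [← hd, h.1]; simp⟩
    · exact ⟨-1, by rw [← hd, h.1]; simp⟩
  rw [Matrix.det_fin_two] at hsg
  have htr : (A : ℚ) + y 1 = γ 0 0 + γ 1 1 := by rw [← hA2, ← y1]; ring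
  refine ⟨u • x' + (v * sg) • ((A + y 1) • x - x''), add_mem (Submodule.smul_mem _ _ hx1)
    (Submodule.smul_mem _ _ (sub_mem (Submodule.smul_mem _ _ hx.2) hx''.2)), ?_⟩
  rw [mulVec_eq]
  simp only [Pi.add_apply, Pi.smul_apply, Pi.sub_apply, smul_eq_mul]
  push_cast
  rw [htr, ← he''.1, ← he''.2]
  constructor
  · linear_combination (u : ℚ) * he'.1 + (x 0 : ℚ) * huv' + (v : ℚ) * (x 0 : ℚ) * hsg
  · linear_combination (u : ℚ) * he'.2 + (x 1 : ℚ) * huv' + (v : ℚ) * (x 1 : ℚ) * hsg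

theorem eq_zero_of_dvd_small {n z : ℤ} (h : n ∣ z) {B : ℝ} (hz : (z : ℝ) ^ 2 ≤ B)
    (hB : B < (n : ℝ) ^ 2) : z = 0 := by
  by_contra h0
  have h1 : |n| ≤ |z| := Int.le_of_dvd (abs_pos.2 h0) ((abs_dvd_abs _ _).2 h)
  have h2 : n ^ 2 ≤ z ^ 2 := sq_le_sq.2 h1
  have h3 : (n : ℝ) ^ 2 ≤ (z : ℝ) ^ 2 := by exact_mod_cast h2
  linarith

/-- Every position of a run is close to a proportionally long stretch of restricted blocks. -/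
theorem run_lemma {l : ℕ} (hl : l.Prime) {a : ℤ} {γ : Matrix (Fin 2) (Fin 2) ℚ}
    {S : Submodule ℤ (Fin 2 → ℤ)} {N' e p m M δ : ℕ} {B : ℝ} (hN : ¬ l ∣ N') (hm : 1 ≤ m)
    (hM : 3 * M ≤ m) (hS : ∀ x : Fin 2 → ℤ, (N' : ℤ) • x ∈ S) (hns : ∀ c : ℚ, γ ≠ c • 1)
    (hb : ∀ i j, ((γ i j : ℚ) : ℝ) ^ 2 ≤ B) (hB : 4 * B < ((l : ℝ) ^ δ) ^ 2) (hδ : 2 * δ ≤ p)
    (hd : |γ.det| = (N' * l ^ e : ℕ))
    (h1 : Onto γ (ch l ![1, a] p) (S ⊓ ch l ![1, a] (p + e)))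
    (h2 : Onto γ (ch l ![1, a] (p + m)) (S ⊓ ch l ![1, a] (p + m + e))) :
    ∃ s n, s ≤ p ∧ p < s + 4 * n ∧ ∀ t, s ≤ t → t < s + n → t ≤ p ∧
      Onto γ (ch l ![1, a] t) (S ⊓ ch l ![1, a] (t + e)) ∧ Res l M γ (t + e) a := by
  classical
  rcases Nat.eq_zero_or_pos e with rfl | he
  swap
  · refine ⟨p, 1, le_rfl, by omega, fun t h3 h4 => ?_⟩
    have : t = p := by omega
    subst this
    exact ⟨le_rfl, h1, res_shift hl hN he hm hM hd h1 h2⟩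
  simp only [add_zero, pow_zero, mul_one] at h1 h2 hd ⊢
  obtain ⟨z, -, z0, z1, A, hA⟩ := img_e1 h1
  obtain ⟨y, -, y0, y1, hy⟩ := img_e2 h2
  have hl0 : (l : ℚ) ≠ 0 := by exact_mod_cast hl.ne_zero
  have hl0' : (l : ℤ) ≠ 0 := by exact_mod_cast hl.ne_zero
  have hA' : (z 0 : ℚ) + a * z 1 = (l : ℚ) ^ p * A := by exact_mod_cast hA
  have hA2 : γ 0 0 + a * γ 1 0 = A := by
    apply mul_left_cancel₀ (pow_ne_zero p hl0)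
    rw [← z0, ← z1] at hA'
    linear_combination hA'
  have hex : ∃ s : ℕ, ∃ σ : ℤ, γ 1 0 * (l : ℚ) ^ s = σ := ⟨p, z 1, z1⟩
  have hsp : Nat.find hex ≤ p := Nat.find_min' hex ⟨z 1, z1⟩
  obtain ⟨σ, hσ⟩ := Nat.find_spec hex
  have hmin : ∀ s' < Nat.find hex, ¬ ∃ σ : ℤ, γ 1 0 * (l : ℚ) ^ s' = σ :=
    fun s' h => Nat.find_min hex h
  generalize Nat.find hex = s at hsp hσ hmin
  have eb : ((y 0 + a * y 1 : ℤ) : ℚ) = -γ 1 0 * (a : ℚ) ^ 2 + (γ 1 1 - γ 0 0) * a + γ 0 1 := by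
    push_cast; rw [← y0, ← y1]; ring
  have ed : ((y 1 - A : ℤ) : ℚ) = γ 1 1 - γ 0 0 - 2 * γ 1 0 * a := by
    push_cast; rw [← y1, ← hA2]; ring
  refine ⟨s, (p - s) / 4 + 1, hsp, by omega, fun t h3 h4 => ?_⟩
  obtain ⟨j, rfl⟩ := Nat.exists_eq_add_of_le h3
  have hσt : γ 1 0 * (l : ℚ) ^ (s + j) = ((σ * (l : ℤ) ^ j : ℤ) : ℚ) := by
    push_cast; rw [← hσ]; ring
  refine ⟨by omega, onto_left hl hN hS hd (by omega) hσt h1, ?_⟩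
  rcases Nat.eq_zero_or_pos s with rfl | hs
  · refine ⟨_, _, _, 2 * j + δ, eb, ed, hσt.symm, (pow_dvd_pow _ (by omega)).trans hy, ?_⟩
    rintro ⟨k1, k2⟩
    simp only [zero_add, pow_zero, mul_one] at k1 k2 hσ
    have k3 : (l : ℤ) ^ δ ∣ σ := by
      have e1 : (l : ℤ) ^ (2 * j + δ + 1) = (l : ℤ) ^ δ * l * (l : ℤ) ^ (2 * j) := by ring
      have e2 : σ * (l : ℤ) ^ j * (l : ℤ) ^ j = σ * (l : ℤ) ^ (2 * j) := by ring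
      rw [e1, e2, mul_dvd_mul_iff_right (pow_ne_zero _ hl0')] at k1
      exact (Dvd.intro _ rfl).trans k1
    have k4 : (l : ℤ) ^ δ ∣ y 1 - A := by
      have e1 : (l : ℤ) ^ (2 * j + δ + 1) = (l : ℤ) ^ δ * (l : ℤ) ^ (j + 1) * (l : ℤ) ^ j := by ring
      rw [e1, mul_dvd_mul_iff_right (pow_ne_zero _ hl0')] at k2
      exact (Dvd.intro _ rfl).trans k2
    have k5 : (l : ℤ) ^ δ ∣ y 0 + a * y 1 := (pow_dvd_pow _ (by omega)).trans hy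
    have hB0 : 0 ≤ B := (sq_nonneg _).trans (hb 0 0)
    have hB' : 4 * B < (((l : ℤ) ^ δ : ℤ) : ℝ) ^ 2 := by push_cast; exact hB
    have r1 : σ = 0 := by
      apply eq_zero_of_dvd_small k3 _ hB'
      have := hb 1 0
      rw [hσ] at this
      push_cast at this
      linarith
    have g10 : γ 1 0 = 0 := by rw [hσ, r1]; simp
    have r2 : y 1 - A = 0 := by
      apply eq_zero_of_dvd_small k4 _ hB'
      have e1 : ((y 1 - A : ℤ) : ℝ) = ((γ 1 1 : ℚ) : ℝ) - ((γ 0 0 : ℚ) : ℝ) := by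
        rw [g10] at ed
        have : ((y 1 - A : ℤ) : ℚ) = γ 1 1 - γ 0 0 := by rw [ed]; ring
        exact_mod_cast congrArg (fun x : ℚ => (x : ℝ)) this
      rw [e1]
      nlinarith [hb 1 1, hb 0 0, sq_nonneg (((γ 1 1 : ℚ) : ℝ) + ((γ 0 0 : ℚ) : ℝ))]
    have g11 : γ 1 1 = γ 0 0 := by
      rw [r2, g10] at ed
      simp at ed
      linarith
    have r3 : y 0 + a * y 1 = 0 := by
      apply eq_zero_of_dvd_small k5 _ hB'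
      have e1 : ((y 0 + a * y 1 : ℤ) : ℝ) = ((γ 0 1 : ℚ) : ℝ) := by
        rw [g10, g11] at eb
        have : ((y 0 + a * y 1 : ℤ) : ℚ) = γ 0 1 := by rw [eb]; ring
        exact_mod_cast congrArg (fun x : ℚ => (x : ℝ)) this
      rw [e1]
      linarith [hb 0 1]
    have g01 : γ 0 1 = 0 := by
      rw [r3, g10, g11] at eb
      simp at eb
      linarith
    apply hns (γ 0 0)
    ext i j
    fin_cases i <;> fin_cases j <;> simp [g10, g11, g01]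
  · refine ⟨_, _, _, s + 2 * j, eb, ed, hσt.symm, (pow_dvd_pow _ (by omega)).trans hy, ?_⟩
    rintro ⟨k1, -⟩
    have e1 : (l : ℤ) ^ (s + 2 * j + 1) = l * (l : ℤ) ^ (s + 2 * j) := by ring
    have e2 : σ * (l : ℤ) ^ j * (l : ℤ) ^ (s + j) = σ * (l : ℤ) ^ (s + 2 * j) := by ring
    rw [e1, e2, mul_dvd_mul_iff_right (pow_ne_zero _ hl0')] at k1
    obtain ⟨σ', rfl⟩ := k1
    obtain ⟨s', rfl⟩ : ∃ s', s = s' + 1 := ⟨s - 1, by omega⟩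
    apply hmin s' (by omega)
    refine ⟨σ', ?_⟩
    apply mul_left_cancel₀ hl0
    push_cast at hσ
    linear_combination hσ

end Pool.Agent.Lib.MP_9177b7_ag.J.Path
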