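import Mathlib
import Pool.Agent.Lib.MP_9177b7_ag.J.Path3

/-!
Paths in the tree which often follow a bounded rational matrix are exponentially rare.
-/

namespace Pool.Agent.Lib.MP_9177b7_ag.J

namespace Path

open Finset

open Classical in
/-- The property `Follows` for an abstract chain of lattices. -/
def Fol (l : ℕ) (R ε₁ ε₀ η : ℝ) (m κ : ℕ) (C : ℕ → Submodule ℤ (Fin 2 → ℤ)) : Prop :=
  (((Finset.range (κ + 1)).filter fun p => ∃ x ∈ C p, x ≠ 0 ∧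
    ((x 0 ^ 2 + x 1 ^ 2 : ℤ) : ℝ) < ε₁ * (l : ℝ) ^ p).card : ℝ) ≤ ε₀ * κ / 100 ∧
  ∃ (N' e : ℕ) (S₀ : Submodule ℤ (Fin 2 → ℤ)) (I : Finset ℕ), ¬ l ∣ N' ∧
    ((N' * l ^ e : ℕ) : ℝ) ≤ (l : ℝ) ^ (η * κ) ∧ (∀ x : Fin 2 → ℤ, (N' : ℤ) • x ∈ S₀) ∧
    ε₀ * κ ≤ I.card ∧ ∀ p ∈ I, p + m + e ≤ κ ∧ ∃ γ : Matrix (Fin 2) (Fin 2) ℚ,
      (∀ a : ℚ, γ ≠ a • 1) ∧ (∀ i j, ((γ i j : ℚ) : ℝ) ^ 2 ≤ R * (N' * l ^ e : ℕ)) ∧
      |γ.det| = (N' * l ^ e : ℕ) ∧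
      ∀ t, p ≤ t → t ≤ p + m → Onto γ (C t) (S₀ ⊓ C (t + e))

theorem fol_congr {l : ℕ} {R ε₁ ε₀ η : ℝ} {m κ : ℕ} {C C' : ℕ → Submodule ℤ (Fin 2 → ℤ)}
    (h : ∀ t ≤ κ, C t = C' t) (hf : Fol l R ε₁ ε₀ η m κ C) : Fol l R ε₁ ε₀ η m κ C' := by
  classical
  obtain ⟨h1, N', e, S, I, h2, h3, h4, h5, h6⟩ := hf
  refine ⟨le_trans (le_of_eq ?_) h1, N', e, S, I, h2, h3, h4, h5, fun p hp => ?_⟩
  · congr 2
    apply filter_congr
    intro p hp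
    rw [h p (by simpa [Nat.lt_succ_iff] using hp)]
  · obtain ⟨k1, γ, k2, k3, k4, k5⟩ := h6 p hp
    refine ⟨k1, γ, k2, k3, k4, fun t t1 t2 => ?_⟩
    rw [← h t (by omega), ← h (t + e) (by omega)]
    exact k5 t t1 t2

/-- Exchange of the two coordinates. -/
def sw : (Fin 2 → ℤ) →ₗ[ℤ] (Fin 2 → ℤ) where
  toFun x := ![x 1, x 0]
  map_add' x y := by ext i; fin_cases i <;> simp
  map_smul' c x := by ext i; fin_cases i <;> simp

theorem sw0 (x : Fin 2 → ℤ) : sw x 0 = x 1 := rfl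
theorem sw1 (x : Fin 2 → ℤ) : sw x 1 = x 0 := rfl
theorem sw_sw (x : Fin 2 → ℤ) : sw (sw x) = x := by ext i; fin_cases i <;> rfl

theorem onto_sw {γ : Matrix (Fin 2) (Fin 2) ℚ} {L L' : Submodule ℤ (Fin 2 → ℤ)}
    (h : Onto γ L L') : Onto !![γ 1 1, γ 1 0; γ 0 1, γ 0 0] (L.comap sw) (L'.comap sw) := by
  constructor
  · intro x hx
    obtain ⟨y, hy, he⟩ := h.1 (sw x) hx
    refine ⟨sw y, by simpa [sw_sw] using hy, ?_⟩
    rw [mulVec_eq] at he ⊢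
    simp only [sw0, sw1] at he ⊢
    constructor
    · simp; linarith [he.2]
    · simp; linarith [he.1]
  · intro y hy
    obtain ⟨x, hx, he⟩ := h.2 (sw y) hy
    refine ⟨sw x, by simpa [sw_sw] using hx, ?_⟩
    rw [mulVec_eq] at he ⊢
    simp only [sw0, sw1] at he ⊢
    constructor
    · simp; linarith [he.2]
    · simp; linarith [he.1]

theorem fol_sw {l : ℕ} {R ε₁ ε₀ η : ℝ} {m κ : ℕ} {C : ℕ → Submodule ℤ (Fin 2 → ℤ)}
    (hf : Fol l R ε₁ ε₀ η m κ C) : Fol l R ε₁ ε₀ η m κ fun t => (C t).comap sw := by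
  obtain ⟨h1, N', e, S, I, h2, h3, h4, h5, h6⟩ := hf
  refine ⟨le_trans ?_ h1, N', e, S.comap sw, I, h2, h3, ?_, h5, fun p hp => ?_⟩
  · apply Nat.cast_le.2
    apply card_le_card
    intro p hp
    simp only [mem_filter] at hp ⊢
    obtain ⟨k1, x, k2, k3, k4⟩ := hp
    refine ⟨k1, sw x, k2, fun h => k3 ?_, ?_⟩
    · rw [← sw_sw x, h, map_zero]
    · rw [sw0, sw1, add_comm]; exact k4
  · intro x
    rw [Submodule.mem_comap, map_smul]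
    exact h4 _
  · obtain ⟨k1, γ, k2, k3, k4, k5⟩ := h6 p hp
    refine ⟨k1, !![γ 1 1, γ 1 0; γ 0 1, γ 0 0], ?_, ?_, ?_, fun t t1 t2 => ?_⟩
    · intro a h
      apply k2 a
      have a00 := congrFun (congrFun h 0) 0
      have a01 := congrFun (congrFun h 0) 1
      have a10 := congrFun (congrFun h 1) 0
      have a11 := congrFun (congrFun h 1) 1
      simp at a00 a01 a10 a11
      ext i j
      fin_cases i <;> fin_cases j <;> simp [a00, a01, a10, a11]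
    · intro i j
      fin_cases i <;> fin_cases j
      · simpa using k3 1 1
      · simpa using k3 1 0
      · simpa using k3 0 1
      · simpa using k3 0 0
    · rw [← k4, Matrix.det_fin_two, Matrix.det_fin_two]
      congr 1
      simp
      ring
    · rw [← Submodule.comap_inf]
      exact onto_sw (k5 t t1 t2)

theorem ch_congr {l q t : ℕ} {a a' : ℤ} (h : (l : ℤ) ^ q ∣ a' - a) (ht : t ≤ q) :
    ch l ![1, a] t = ch l ![1, a'] t := by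
  have h' : (l : ℤ) ^ t ∣ a' - a := (pow_dvd_pow _ ht).trans h
  ext x
  rw [mem_ca, mem_ca]
  have e : x 0 + a' * x 1 = x 0 + a * x 1 + (a' - a) * x 1 := by ring
  rw [e, dvd_add_left (h'.mul_right _)]

theorem exists_a {l : ℕ} (hl : l.Prime) (φ : Fin 2 → ℤ) (h : ¬ (l : ℤ) ∣ φ 0) (κ : ℕ) :
    ∃ a : ℕ, a < l ^ κ ∧ ∀ t ≤ κ, ch l φ t = ch l ![1, (a : ℤ)] t := by
  have hp := Nat.prime_iff_prime_int.1 hl
  have hc : IsCoprime ((l : ℤ) ^ κ) (φ 0) :=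
    IsCoprime.pow_left ((Prime.coprime_iff_not_dvd hp).2 h)
  obtain ⟨u, v, huv⟩ := hc
  have hpos : (0 : ℤ) < (l : ℤ) ^ κ := by have := hl.pos; positivity
  have c1 : ((((v * φ 1) % (l : ℤ) ^ κ).toNat : ℕ) : ℤ) = (v * φ 1) % (l : ℤ) ^ κ :=
    Int.toNat_of_nonneg (Int.emod_nonneg _ hpos.ne')
  refine ⟨((v * φ 1) % (l : ℤ) ^ κ).toNat, ?_, fun t ht => ?_⟩
  · have := Int.emod_lt_of_pos (v * φ 1) hpos
    rw [← c1] at this
    exact_mod_cast this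
  · rw [c1, ch_congr (q := κ) (a' := v * φ 1) _ ht]
    · ext x
      rw [mem_ch, mem_ca]
      have hd : (l : ℤ) ^ t ∣ (l : ℤ) ^ κ := pow_dvd_pow _ ht
      constructor
      · intro hx
        have e : x 0 + v * φ 1 * x 1 = v * (φ 0 * x 0 + φ 1 * x 1) + (l : ℤ) ^ κ * (u * x 0) := by
          linear_combination (-x 0) * huv
        rw [e]
        exact dvd_add (hx.mul_left _) (hd.mul_right _)
      · intro hx
        have e : φ 0 * x 0 + φ 1 * x 1 =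
            φ 0 * (x 0 + v * φ 1 * x 1) + (l : ℤ) ^ κ * (u * φ 1 * x 1) := by
          linear_combination (-φ 1 * x 1) * huv
        rw [e]
        exact dvd_add (hx.mul_left _) (hd.mul_right _)
    · exact Int.dvd_self_sub_emod

/-- A restricted block on a given sheet with a given code. -/
def Blk (l M : ℕ) (R ε₁ : ℝ) (cdf : ℕ → Matrix (Fin 2) (Fin 2) ℚ → Fin 2 × Fin 2 → ℤ)
    (N' e : ℕ) (S : Submodule ℤ (Fin 2 → ℤ)) (q : ℕ) (cd : Fin 2 × Fin 2 → ℤ) (a : ℕ) : Prop :=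
  0 < N' ∧ e ≤ q ∧ Good l ![1, (a : ℤ)] (q - e) ε₁ ∧ ∃ γ : Matrix (Fin 2) (Fin 2) ℚ,
    (∀ i j, ((γ i j : ℚ) : ℝ) ^ 2 ≤ R * (N' * l ^ e : ℕ)) ∧ |γ.det| = (N' * l ^ e : ℕ) ∧
    Onto γ (ch l ![1, (a : ℤ)] (q - e)) (S ⊓ ch l ![1, (a : ℤ)] q) ∧ cdf (N' * l ^ e) γ = cd ∧
    Res l M γ q a

theorem mod_iff (n a b : ℕ) : a % n = b % n ↔ (n : ℤ) ∣ (b : ℤ) - a := Nat.modEq_iff_dvd

theorem blk_three {l M : ℕ} (hl : l.Prime) {R ε₁ : ℝ}
    {cdf : ℕ → Matrix (Fin 2) (Fin 2) ℚ → Fin 2 × Fin 2 → ℤ}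
    (hu : ∀ (l : ℕ) (φ : Fin 2 → ℤ) (t N : ℕ) (γ γ' : Matrix (Fin 2) (Fin 2) ℚ)
        (Λ : Submodule ℤ (Fin 2 → ℤ)), 0 < l → 0 < N → Good l φ t ε₁ →
        (∀ i j, ((γ i j : ℚ) : ℝ) ^ 2 ≤ R * N) → |γ.det| = N → Onto γ (ch l φ t) Λ →
        Onto γ' (ch l φ t) Λ → cdf N γ = cdf N γ' → γ = γ')
    (N' e : ℕ) (S : Submodule ℤ (Fin 2 → ℤ)) (q : ℕ) (cd : Fin 2 × Fin 2 → ℤ) (a₁ a₂ a₃ : ℕ)
    (h2 : a₁ % l ^ q = a₂ % l ^ q) (h3 : a₁ % l ^ q = a₃ % l ^ q)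
    (b1 : Blk l M R ε₁ cdf N' e S q cd a₁) (b2 : Blk l M R ε₁ cdf N' e S q cd a₂)
    (b3 : Blk l M R ε₁ cdf N' e S q cd a₃) :
    a₁ % l ^ (q + M) = a₂ % l ^ (q + M) ∨ a₁ % l ^ (q + M) = a₃ % l ^ (q + M) ∨
      a₂ % l ^ (q + M) = a₃ % l ^ (q + M) := by
  rw [mod_iff] at h2 h3
  rw [mod_iff, mod_iff, mod_iff]
  push_cast at h2 h3 ⊢
  obtain ⟨hN, -, hG, γ₁, k1, k2, o1, c1, r1⟩ := b1
  obtain ⟨-, -, -, γ₂, -, -, o2, c2, r2⟩ := b2
  obtain ⟨-, -, -, γ₃, -, -, o3, c3, r3⟩ := b3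
  rw [← ch_congr h2 (Nat.sub_le _ _), ← ch_congr h2 le_rfl] at o2
  rw [← ch_congr h3 (Nat.sub_le _ _), ← ch_congr h3 le_rfl] at o3
  have hN' : 0 < N' * l ^ e := by have := hl.pos; positivity
  have e2 := hu l _ _ _ γ₁ γ₂ _ hl.pos hN' hG k1 k2 o1 o2 (c1.trans c2.symm)
  have e3 := hu l _ _ _ γ₁ γ₃ _ hl.pos hN' hG k1 k2 o1 o3 (c1.trans c3.symm)
  subst e2 e3
  exact res_three hl M q γ₁ _ _ _ h2 h3 r1 r2 r3

open Classical in
/-- A path which follows has many restricted blocks on one sheet. -/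
theorem many_blocks {l M δ y κ : ℕ} (hl : l.Prime) {R ε₁ ε₀ η : ℝ} (hM : 0 < M)
    {Code : Finset (Fin 2 × Fin 2 → ℤ)} {cdf : ℕ → Matrix (Fin 2) (Fin 2) ℚ → Fin 2 × Fin 2 → ℤ}
    (hc : ∀ (N : ℕ) (γ : Matrix (Fin 2) (Fin 2) ℚ), 0 < N →
        (∀ i j, ((γ i j : ℚ) : ℝ) ^ 2 ≤ R * N) → cdf N γ ∈ Code)
    (hy : η * κ ≤ y) (hδ : 4 * (|R| * (l : ℝ) ^ y) < ((l : ℝ) ^ δ) ^ 2)
    (hδκ : 2 * (δ : ℝ) ≤ ε₀ * κ / 2) (a : ℕ)
    (hf : Fol l R ε₁ ε₀ η (3 * M) κ (ch l ![1, (a : ℤ)])) :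
    ∃ N' e g h g' : ℕ, N' ≤ l ^ y ∧ e ≤ l ^ y ∧ g ≤ l ^ y ∧ h ≤ l ^ y ∧ g' ≤ l ^ y ∧
      ε₀ * κ / 10 ≤ (((range (κ + 1)).filter fun q => q + M ≤ κ ∧
        ∃ cd ∈ Code, Blk l M R ε₁ cdf N' e (sheet N' g h g') q cd a).card : ℝ) := by
  obtain ⟨h1, N', e, S, I, h2, h3, h4, h5, h6⟩ := hf
  have hN : 0 < N' := Nat.pos_of_ne_zero fun h => h2 (h ▸ dvd_zero _)
  have hl1 : (1 : ℝ) ≤ l := by exact_mod_cast hl.one_lt.le
  have h3' : ((N' * l ^ e : ℕ) : ℝ) ≤ (l : ℝ) ^ y := by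
    refine h3.trans ?_
    rw [← Real.rpow_natCast]
    exact Real.rpow_le_rpow_of_exponent_le hl1 hy
  have h3'' : N' * l ^ e ≤ l ^ y := by exact_mod_cast h3'
  have hle : 0 < l ^ e := pow_pos hl.pos _
  have hN1 : N' ≤ l ^ y := (Nat.le_mul_of_pos_right _ hle).trans h3''
  have he1 : e ≤ l ^ y :=
    (Nat.lt_pow_self hl.one_lt).le.trans ((Nat.le_mul_of_pos_left _ hN).trans h3'')
  obtain ⟨g, h, g', k1, k2, k3, rfl⟩ := exists_sheet N' hN S h4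
  refine ⟨N', e, g, h, g', hN1, he1, by omega, by omega, by omega, ?_⟩
  set S := sheet N' g h g'
  let H : Finset ℕ := (range (κ + 1)).filter fun t => t + e + M ≤ κ ∧
    ∃ γ : Matrix (Fin 2) (Fin 2) ℚ, (∀ i j, ((γ i j : ℚ) : ℝ) ^ 2 ≤ R * (N' * l ^ e : ℕ)) ∧
      |γ.det| = (N' * l ^ e : ℕ) ∧
      Onto γ (ch l ![1, (a : ℤ)] t) (S ⊓ ch l ![1, (a : ℤ)] (t + e)) ∧ Res l M γ (t + e) a
  have hB : 4 * (R * (N' * l ^ e : ℕ)) < ((l : ℝ) ^ δ) ^ 2 := by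
    refine lt_of_le_of_lt ?_ hδ
    have := mul_le_mul (le_abs_self R) h3' (Nat.cast_nonneg _) (abs_nonneg _)
    linarith
  have c1 : (I.filter (2 * δ ≤ ·)).card ≤ 4 * H.card := by
    apply cover _ _ _ (by norm_num)
    intro p hp
    rw [mem_filter] at hp
    obtain ⟨j1, γ, j2, j3, j4, j5⟩ := h6 p hp.1
    obtain ⟨s, n, u1, u2, u3⟩ := run_lemma hl (M := M) h2 (by omega : 1 ≤ 3 * M) le_rfl h4 j2 j3 hB
      hp.2 j4 (j5 p le_rfl (by omega)) (j5 (p + 3 * M) (by omega) le_rfl)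
    refine ⟨s, n, u1, u2, fun t t1 t2 => ?_⟩
    obtain ⟨v1, v2, v3⟩ := u3 t t1 t2
    simp only [H, mem_filter, mem_range]
    exact ⟨by omega, by omega, γ, j3, j4, v2, v3⟩
  have c2 : I.card ≤ (I.filter (2 * δ ≤ ·)).card + 2 * δ := by
    calc I.card ≤ (I.filter (2 * δ ≤ ·) ∪ range (2 * δ)).card := by
          apply card_le_card
          intro p hp
          simp only [mem_union, mem_filter, mem_range]
          by_cases hh : 2 * δ ≤ p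
          · exact Or.inl ⟨hp, hh⟩
          · exact Or.inr (by omega)
      _ ≤ _ := (card_union_le _ _).trans (by simp)
  set Bad := (Finset.range (κ + 1)).filter fun p => ∃ x ∈ ch l ![1, (a : ℤ)] p, x ≠ 0 ∧
    ((x 0 ^ 2 + x 1 ^ 2 : ℤ) : ℝ) < ε₁ * (l : ℝ) ^ p with hBad
  have c3 : (H \ Bad).card ≤ ((range (κ + 1)).filter fun q => q + M ≤ κ ∧
        ∃ cd ∈ Code, Blk l M R ε₁ cdf N' e S q cd a).card := by
    apply card_le_card_of_injOn (fun t => t + e)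
    · intro t ht
      simp only [coe_sdiff, Set.mem_sdiff, mem_coe, H, hBad, mem_filter, mem_range] at ht ⊢
      obtain ⟨⟨t1, t2, γ, t3, t4, t5, t6⟩, t7⟩ := ht
      refine ⟨by omega, t2, _, hc _ γ (by positivity) t3, hN, by omega, ?_, γ, t3, t4, ?_, rfl, t6⟩
      · rw [Nat.add_sub_cancel]
        intro x hx hx0
        by_contra hh
        exact t7 ⟨t1, x, hx, hx0, not_le.1 hh⟩
      · rw [Nat.add_sub_cancel]; exact t5
    · intro t _ t' _ h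
      simpa using h
  have c4 : H.card ≤ (H \ Bad).card + Bad.card := card_le_card_sdiff_add_card
  have c1' : (((I.filter (2 * δ ≤ ·)).card : ℕ) : ℝ) ≤ 4 * H.card := by exact_mod_cast c1
  have c2' : (I.card : ℝ) ≤ ((I.filter (2 * δ ≤ ·)).card : ℕ) + 2 * δ := by exact_mod_cast c2
  have c3' := (Nat.cast_le (α := ℝ)).2 c3
  have c4' : (H.card : ℝ) ≤ (H \ Bad).card + Bad.card := by exact_mod_cast c4
  have : (0 : ℝ) ≤ δ := Nat.cast_nonneg _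
  linarith

theorem main_count {l : ℕ} (hl : l.Prime) (R ε₁ ε₀ : ℝ) (hε₁ : 0 < ε₁) (hε₀ : 0 < ε₀) :
    ∃ η c : ℝ, 0 < η ∧ 0 < c ∧ ∃ m κ₀ : ℕ, ∀ κ : ℕ, κ₀ ≤ κ → ∃ A : Finset ℕ,
      2 * (A.card : ℝ) ≤ (l : ℝ) ^ ((1 - c) * κ) ∧
      ∀ a : ℕ, a < l ^ κ → Fol l R ε₁ ε₀ η m κ (ch l ![1, (a : ℤ)]) → a ∈ A := by
  classical
  obtain ⟨Code, cdf, hc, hu⟩ := code_lemma R ε₁ hε₁
  obtain ⟨M₀, hM1, hM2, hM3⟩ : ∃ M₀ : ℕ, 0 < M₀ ∧ 2 * Code.card ≤ M₀ ∧ 40 / ε₀ ≤ M₀ := by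
    refine ⟨2 * Code.card + ⌈40 / ε₀⌉₊ + 1, by omega, by omega, ?_⟩
    push_cast
    have := Nat.le_ceil (40 / ε₀)
    have : (0 : ℝ) ≤ Code.card := Nat.cast_nonneg _
    linarith
  obtain ⟨r, hr⟩ : ∃ r : ℕ, 4 * |R| < r := exists_nat_gt _
  obtain ⟨κ₀, hκ₀⟩ : ∃ κ₀ : ℕ, (80 * (12 + 3 * M₀) + 10 * (1 + r)) / ε₀ ≤ κ₀ := exists_nat_ge _
  refine ⟨ε₀ / 400, ε₀ / 80, by positivity, by positivity, 3 * (2 * M₀), κ₀, fun κ hκ => ?_⟩
  have hl1 : (1 : ℝ) < l := by exact_mod_cast hl.one_lt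
  have hM0 : (0 : ℝ) < M₀ := by exact_mod_cast hM1
  have hκ' : 80 * (12 + 3 * M₀) + 10 * (1 + r) ≤ ε₀ * κ := by
    have h1 : (κ₀ : ℝ) ≤ κ := by exact_mod_cast hκ
    have h2 := hκ₀.trans h1
    rw [div_le_iff₀ hε₀] at h2
    linarith
  have hr0 : (0 : ℝ) ≤ r := Nat.cast_nonneg _
  have hκ0 : (0 : ℝ) ≤ κ := Nat.cast_nonneg _
  set y := ⌈ε₀ / 400 * κ⌉₊ with hyd
  have hy1 : ε₀ / 400 * κ ≤ y := Nat.le_ceil _
  have hy2 : (y : ℝ) < ε₀ / 400 * κ + 1 := Nat.ceil_lt_add_one (by positivity)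
  set n := ⌊ε₀ * κ / 10 / (2 * M₀)⌋₊ with hnd
  have hn1 : 2 * M₀ * (n : ℝ) ≤ ε₀ * κ / 10 := by
    have := Nat.floor_le (a := ε₀ * κ / 10 / (2 * M₀)) (by positivity)
    rw [le_div_iff₀ (by positivity)] at this
    linarith
  have hn2 : ε₀ * κ / 10 < 2 * M₀ * ((n : ℝ) + 1) := by
    have := Nat.lt_floor_add_one (ε₀ * κ / 10 / (2 * M₀))
    rw [div_lt_iff₀ (by positivity)] at this
    linarith
  let Par : Finset (Fin 5 → ℕ) := Fintype.piFinset fun _ => range (l ^ y + 1)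
  let B : (Fin 5 → ℕ) → Finset ℕ := fun v => (range (l ^ κ)).filter fun a => 2 * M₀ * n ≤
      ((range (κ + 1)).filter fun q => q + 2 * M₀ ≤ κ ∧ ∃ cd ∈ Code,
        Blk l (2 * M₀) R ε₁ cdf (v 0) (v 1) (sheet (v 0) (v 2) (v 3) (v 4)) q cd a).card
  have hB : ∀ v ∈ Par, (B v).card * l ^ (M₀ * n) ≤ 2 * M₀ * 2 ^ (κ / (2 * M₀) + 1) * l ^ κ := by
    intro v _
    have := count_many l M₀ hl.pos hM1 Code (hM2.trans (Nat.lt_pow_self hl.one_lt).le)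
      (Blk l (2 * M₀) R ε₁ cdf (v 0) (v 1) (sheet (v 0) (v 2) (v 3) (v 4)))
      (fun q cd a₁ a₂ a₃ => blk_three hl hu _ _ _ q cd a₁ a₂ a₃) κ n
    convert this
  refine ⟨Par.biUnion B, ?_, ?_⟩
  · have h1 : (Par.biUnion B).card * l ^ (M₀ * n) ≤
        Par.card * (2 * M₀ * 2 ^ (κ / (2 * M₀) + 1) * l ^ κ) := by
      refine (Nat.mul_le_mul_right _ card_biUnion_le).trans ?_
      rw [sum_mul]
      simpa using sum_le_card_nsmul Par _ _ hB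
    have h2 : Par.card ≤ (l ^ (y + 1)) ^ 5 := by
      simp only [Par, Fintype.card_piFinset, card_range, prod_const, card_univ, Fintype.card_fin]
      apply Nat.pow_le_pow_left
      have := pow_pos hl.pos y
      have := hl.two_le
      rw [pow_succ]
      nlinarith
    have h3 : 2 * M₀ ≤ l ^ (2 * M₀) := (Nat.lt_pow_self hl.one_lt).le
    have h4 : 2 ^ (κ / (2 * M₀) + 1) ≤ l ^ (κ / (2 * M₀) + 1) := Nat.pow_le_pow_left hl.two_le _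
    have h5 : 2 * (Par.biUnion B).card * l ^ (M₀ * n) ≤
        l ^ (1 + (y + 1) * 5 + 2 * M₀ + (κ / (2 * M₀) + 1) + κ) := by
      calc 2 * (Par.biUnion B).card * l ^ (M₀ * n) = 2 * ((Par.biUnion B).card * l ^ (M₀ * n)) := by
            ring
        _ ≤ l * ((l ^ (y + 1)) ^ 5 * (l ^ (2 * M₀) * l ^ (κ / (2 * M₀) + 1) * l ^ κ)) :=
            Nat.mul_le_mul hl.two_le (h1.trans (Nat.mul_le_mul h2
              (Nat.mul_le_mul_right _ (Nat.mul_le_mul h3 h4))))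
        _ = _ := by ring
    have h6 : 2 * ((Par.biUnion B).card : ℝ) * (l : ℝ) ^ (M₀ * n) ≤
        (l : ℝ) ^ (1 + (y + 1) * 5 + 2 * M₀ + (κ / (2 * M₀) + 1) + κ) := by exact_mod_cast h5
    apply le_of_mul_le_mul_right (h6.trans _) (by positivity : (0 : ℝ) < (l : ℝ) ^ (M₀ * n))
    rw [← Real.rpow_natCast, ← Real.rpow_natCast, ← Real.rpow_add (by positivity)]
    apply Real.rpow_le_rpow_of_exponent_le hl1.le
    have h7 : ((κ / (2 * M₀) : ℕ) : ℝ) ≤ ε₀ * κ / 80 := by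
      refine Nat.cast_div_le.trans ?_
      push_cast
      rw [div_le_iff₀ (by positivity)]
      rw [div_le_iff₀ hε₀] at hM3
      nlinarith
    generalize κ / (2 * M₀) = w at h7
    push_cast
    nlinarith
  · intro a ha hf
    have hδ : 4 * (|R| * (l : ℝ) ^ y) < ((l : ℝ) ^ (y + r)) ^ 2 := by
      have k1 : (r : ℝ) < (l : ℝ) ^ r := by exact_mod_cast Nat.lt_pow_self hl.one_lt
      have k2 : (0 : ℝ) < (l : ℝ) ^ y := by positivity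
      have k3 : (1 : ℝ) ≤ (l : ℝ) ^ (y + r) := one_le_pow₀ hl1.le
      have k4 : 4 * (|R| * (l : ℝ) ^ y) < (l : ℝ) ^ (y + r) := by
        rw [pow_add]; nlinarith
      nlinarith
    obtain ⟨N', e, g, h, g', k1, k2, k3, k4, k5, k6⟩ := many_blocks hl (M := 2 * M₀) (by omega) hc hy1 hδ
      (by push_cast; nlinarith) a hf
    rw [mem_biUnion]
    refine ⟨![N', e, g, h, g'], ?_, ?_⟩
    · simp only [Par, Fintype.mem_piFinset, mem_range]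
      intro i
      fin_cases i <;> simp <;> omega
    · simp only [B, mem_filter, mem_range]
      refine ⟨ha, ?_⟩
      have k7 := hn1.trans k6
      have k8 : ((2 * M₀ * n : ℕ) : ℝ) = 2 * M₀ * (n : ℝ) := by push_cast; ring
      rw [← k8, Nat.cast_le] at k7
      convert k7 <;> rfl

end Path

open Pool.Agent.Lib.MP_9177b7_ag.J.Path in
theorem path : PathStmt := by
  classical
  intro l hl _ R ε₁ ε₀ hε₁ hε₀
  obtain ⟨η, c, hη, hc, m, κ₀, h⟩ := main_count hl R ε₁ ε₀ hε₁ hε₀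
  refine ⟨η, c, hη, hc, m, κ₀, fun κ hκ => ?_⟩
  obtain ⟨A, hA, hmem⟩ := h κ hκ
  refine ⟨A.image (fun a : ℕ => ch l ![1, (a : ℤ)] κ) ∪
    A.image (fun a : ℕ => (ch l ![1, (a : ℤ)] κ).comap sw), le_trans ?_ hA, ?_⟩
  · have h1 := Finset.card_union_le (A.image (fun a : ℕ => ch l ![1, (a : ℤ)] κ))
      (A.image (fun a : ℕ => (ch l ![1, (a : ℤ)] κ).comap sw))
    have h2 := Finset.card_image_le (s := A) (f := fun a : ℕ => ch l ![1, (a : ℤ)] κ)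
    have h3 := Finset.card_image_le (s := A) (f := fun a : ℕ => (ch l ![1, (a : ℤ)] κ).comap sw)
    have h4 := h1.trans (add_le_add h2 h3)
    rw [← two_mul] at h4
    exact_mod_cast h4
  · intro φ hφ
    have hf : Fol l R ε₁ ε₀ η m κ (ch l φ) := hφ.2
    rw [Finset.mem_union]
    rcases hφ.1 with h0 | h1
    · obtain ⟨a, ha, he⟩ := exists_a hl φ h0 κ
      exact Or.inl (Finset.mem_image.2 ⟨a, hmem a ha (fol_congr he hf), (he κ le_rfl).symm⟩)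
    · obtain ⟨a, ha, he⟩ := exists_a hl (sw φ) h1 κ
      have hs : ∀ t, (ch l φ t).comap sw = ch l (sw φ) t := by
        intro t
        ext x
        rw [Submodule.mem_comap, mem_ch, mem_ch, sw0, sw1, sw0, sw1, add_comm]
      refine Or.inr (Finset.mem_image.2 ⟨a, hmem a ha
        (fol_congr (fun t ht => (hs t).trans (he t ht)) (fol_sw hf)), ?_⟩)
      rw [← he κ le_rfl, ← hs]
      ext x
      simp only [Submodule.mem_comap, sw_sw]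

end Pool.Agent.Lib.MP_9177b7_ag.J
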