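import Pool.Agent.Lib.MP_9177b7_ag.J.Shiu1

/-! Sums over patterns, and elementary estimates for sums over primes. -/

noncomputable section

namespace Pool.Agent.Lib.MP_9177b7_ag.J.Shiu

open Finset

lemma mert_nat (N : ℕ) (hN : 1 ≤ N) :
    ∑ p ∈ Nat.primesLE N, Real.log p / p ≤ Real.log N + Real.log 4 := by
  have hN' : (0 : ℝ) < N := by exact_mod_cast hN
  have h1 : Real.log (N.factorial : ℝ) =
      ∑ p ∈ Nat.primesLE N, (N.factorial.factorization p : ℝ) * Real.log p := by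
    rw [Real.log_nat_eq_sum_factorization, Finsupp.sum]
    apply sum_subset
    · intro p hp
      rw [Nat.support_factorization, Nat.mem_primeFactors] at hp
      exact Nat.mem_primesLE.2 ⟨(hp.1.dvd_factorial).1 hp.2.1, hp.1⟩
    · intro p _ hp
      rw [Finsupp.notMem_support_iff.1 hp]
      simp
  have h2 : Real.log (N.factorial : ℝ) ≤ N * Real.log N := by
    rw [← Real.log_pow]
    exact Real.log_le_log (by exact_mod_cast N.factorial_pos)
      (by exact_mod_cast N.factorial_le_pow)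
  have h3 := Chebyshev.theta_le_log4_mul_x hN'.le
  rw [Chebyshev.theta_eq_sum_primesLE_log] at h3
  have h4 : N * ∑ p ∈ Nat.primesLE N, Real.log p / p ≤ Real.log (N.factorial : ℝ) +
      ∑ p ∈ Nat.primesLE N, Real.log p := by
    rw [h1, mul_sum, ← sum_add_distrib]
    refine sum_le_sum fun p hp => ?_
    have hp' := (Nat.mem_primesLE.1 hp).2
    have hp0 : (0 : ℝ) < p := by exact_mod_cast hp'.pos
    have a1 : N / p ≤ N.factorial.factorization p := by
      rw [Nat.factorization_factorial hp' (b := Nat.log p N + 2) (by omega)]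
      simpa using single_le_sum (f := fun i => N / p ^ i) (s := Ico 1 (Nat.log p N + 2))
        (fun i _ => Nat.zero_le _) (a := 1) (by simp)
    have a2 : (N : ℝ) / p ≤ (N.factorial.factorization p : ℝ) + 1 := by
      rw [div_le_iff₀ hp0]
      have := (Nat.lt_div_mul_add (a := N) hp'.pos).le
      have h5 : N ≤ (N.factorial.factorization p + 1) * p := by nlinarith
      exact_mod_cast h5
    have := mul_le_mul_of_nonneg_right a2 (Real.log_natCast_nonneg p)
    calc _ = (N : ℝ) / p * Real.log p := by ring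
      _ ≤ _ := by linarith
  refine le_of_mul_le_mul_left ?_ hN'
  linarith

lemma mert {ι : Type} (s : Finset ι) (p : ι → ℕ) (hi : Function.Injective p)
    (hp : ∀ i, (p i).Prime) {x : ℝ} (hx : 1 ≤ x) (hs : ∀ i ∈ s, (p i : ℝ) ≤ x) :
    ∑ i ∈ s, Real.log (p i) / p i ≤ 3 * Real.log x := by
  classical
  rcases s.eq_empty_or_nonempty with rfl | ⟨i, hi'⟩
  · simpa using Real.log_nonneg hx
  have h2 : (2 : ℝ) ≤ x := le_trans (by exact_mod_cast (hp i).two_le) (hs i hi')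
  have h1 : 1 ≤ ⌊x⌋₊ := Nat.le_floor (by simpa using hx)
  rw [← sum_image (f := fun q : ℕ => Real.log q / q) (hi.injOn (s := s))]
  refine (sum_le_sum_of_subset_of_nonneg (t := Nat.primesLE ⌊x⌋₊) ?_ fun q _ _ =>
    div_nonneg (Real.log_natCast_nonneg q) (Nat.cast_nonneg q)).trans ((mert_nat _ h1).trans ?_)
  · intro q hq
    obtain ⟨j, hj, rfl⟩ := mem_image.1 hq
    exact Nat.mem_primesLE.2 ⟨Nat.le_floor (hs j hj), hp j⟩
  · have a1 : Real.log (⌊x⌋₊ : ℝ) ≤ Real.log x :=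
      Real.log_le_log (by exact_mod_cast h1) (Nat.floor_le (by linarith))
    have a2 : Real.log 4 ≤ 2 * Real.log x := by
      rw [show (4 : ℝ) = 2 ^ 2 by norm_num, Real.log_pow]
      have := Real.log_le_log two_pos h2
      push_cast
      linarith
    linarith

lemma sum_rpow_le {θ : ℝ} (hθ : 0 < θ) : ∃ K : ℝ, ∀ {ι : Type} [Fintype ι] (p : ι → ℕ),
    Function.Injective p → ∑ i, (p i : ℝ) ^ (-1 - θ) ≤ K := by
  have hs : Summable fun n : ℕ => (n : ℝ) ^ (-1 - θ) := Real.summable_nat_rpow.2 (by linarith)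
  refine ⟨∑' n : ℕ, (n : ℝ) ^ (-1 - θ), fun p hi => ?_⟩
  classical
  rw [← sum_image (f := fun q : ℕ => (q : ℝ) ^ (-1 - θ)) (fun _ _ _ _ e => hi e)]
  exact hs.sum_le_tsum _ fun q _ => by positivity

lemma inter {ι : Type} [Fintype ι] [DecidableEq ι] (f : ι → ℕ → ℝ) (hf : ∀ i j, 0 ≤ f i j)
    (Al : ι → ℕ → Prop) (lo : ι → ℕ) {Y Z : ℝ} (hZ : 0 ≤ Z)
    (hs : ∀ i j, Al i j → j ≠ lo i → ∃ j', j' < j ∧ Al i j' ∧ f i j ≤ Z * f i j')
    (hlo : ∏ i, f i (lo i) ≤ Y) (π : ι → ℕ) (hπ : ∀ i, Al i (π i)) (hY : Y < ∏ i, f i (π i)) :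
    ∃ π' : ι → ℕ, (∀ i, Al i (π' i)) ∧ Y < ∏ i, f i (π' i) ∧ ∏ i, f i (π' i) ≤ Z * Y := by
  induction hn : ∑ i, π i using Nat.strong_induction_on generalizing π with
  | _ n ih =>
    by_cases h : ∏ i, f i (π i) ≤ Z * Y
    · exact ⟨π, hπ, hY, h⟩
    have hne : π ≠ lo := by
      rintro rfl
      linarith
    obtain ⟨i, hi⟩ := Function.ne_iff.1 hne
    obtain ⟨j, hj, hA, hle⟩ := hs i _ (hπ i) hi
    have e : ∀ ρ : ι → ℕ, ∏ i, f i (ρ i) = f i (ρ i) * ∏ k ∈ univ.erase i, f k (ρ k) :=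
      fun ρ => (mul_prod_erase _ (fun k => f k (ρ k)) (mem_univ i)).symm
    have e2 : ∏ k ∈ univ.erase i, f k (Function.update π i j k) = ∏ k ∈ univ.erase i, f k (π k) :=
      prod_congr rfl fun k hk => by rw [Function.update_of_ne (ne_of_mem_erase hk)]
    have h0 : 0 ≤ ∏ k ∈ univ.erase i, f k (π k) := prod_nonneg fun k _ => hf _ _
    refine ih _ ?_ (Function.update π i j) (fun k => ?_) ?_ rfl
    · rw [← hn]
      refine sum_lt_sum (fun k _ => ?_) ⟨i, mem_univ i, by simpa using hj⟩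
      by_cases hk : k = i
      · subst hk; simpa using hj.le
      · rw [Function.update_of_ne hk]
    · by_cases hk : k = i
      · subst hk; simpa using hA
      · rw [Function.update_of_ne hk]; exact hπ k
    · by_contra hc
      apply h
      rw [not_lt, e, e2, Function.update_self] at hc
      rw [e]
      calc _ ≤ Z * f i j * ∏ k ∈ univ.erase i, f k (π k) := by gcongr
        _ ≤ _ := by rw [mul_assoc]; gcongr

open Classical in
/-- the local factor of a pattern -/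
def bb (q : ℕ) (m : ℕ → ℕ) (h : ℕ → ℤ × ℤ → ℝ) (w : Prop) (Ω : ℤ × ℤ → Prop) (j : ℕ) : ℝ :=
  if j = 0 then (if w then Real.exp (-den q fun u => if Ω u then 1 else 0) else 1)
  else den (q ^ m j) (h j)

open Classical in
lemma cover {κ δ C : ℝ} (hC : 0 < C) (hs : Sv κ δ C) {y : ℝ} (hy : 1 ≤ y) (a : ℤ × ℤ) {A B : ℕ}
    (hA : y ≤ A) (hB : y ≤ B) {ι : Type} [Fintype ι] (p : ι → ℕ) (hi : Function.Injective p)
    (hp : ∀ i, (p i).Prime) (hz : ∀ i, (p i : ℝ) ≤ √y ^ δ) (m : ℕ → ℕ)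
    (h : ι → ℕ → ℤ × ℤ → ℝ) (h0 : ∀ i j u, 0 ≤ h i j u) (hP : ∀ i j, Per (p i ^ m j) (h i j))
    (w : ι → Prop) (Ω : ℕ → ℤ × ℤ → Prop) (hΩ : ∀ i u v, Cg (p i) u v → Ω (p i) u → Ω (p i) v)
    (hd : ∀ i, den (p i) (fun u => if Ω (p i) u then 1 else 0) ≤ κ / p i)
    (V : Finset (ℤ × ℤ)) (hV : V ⊆ box a A B) (f : ℤ × ℤ → ℝ) {K s : ℝ} (hK : 0 ≤ K) (hs0 : 0 ≤ s)
    (b : ι → ℕ → ℝ) (hb : ∀ i j, 0 ≤ b i j) (J : ℕ)
    (hf : ∀ u ∈ V, ∃ π : ι → ℕ, (∀ i, π i ≤ J) ∧
      ∏ i, (p i : ℝ) ^ (if π i = 0 then 0 else m (π i)) ≤ √y ∧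
      ∏ i, bb (p i) m (h i) (w i) (Ω (p i)) (π i) ≤ s * ∏ i, b i (π i) ∧
      f u ≤ K * ∏ i, (if π i = 0 then 1 else h i (π i) u) ∧ ∀ i, π i = 0 → w i → ¬ Ω (p i) u) :
    ∑ u ∈ V, f u ≤ K * (9 * C * A * B) * s * ∏ i, ∑ j ∈ range (J + 1), b i j := by
  let H : (ι → ℕ) → ℤ × ℤ → ℝ := fun π u => ∏ i, (if π i = 0 then 1 else h i (π i) u)
  have H0 : ∀ π u, 0 ≤ H π u := fun π u => prod_nonneg fun i _ => by
    split_ifs
    · norm_num
    · exact h0 _ _ _
  let W : (ι → ℕ) → Finset ℕ := fun π => (univ.filter fun i => π i = 0 ∧ w i).image p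
  let Φ : (ι → ℕ) → ℤ × ℤ → ℝ := fun π u => H π u * if ∀ q ∈ W π, ¬ Ω q u then 1 else 0
  have Φ0 : ∀ π u, 0 ≤ Φ π u := fun π u => mul_nonneg (H0 π u) (by split_ifs <;> norm_num)
  let Ad : Finset (ι → ℕ) := (Fintype.piFinset fun _ => range (J + 1)).filter fun π =>
    ∏ i, (p i : ℝ) ^ (if π i = 0 then 0 else m (π i)) ≤ √y ∧
      ∏ i, bb (p i) m (h i) (w i) (Ω (p i)) (π i) ≤ s * ∏ i, b i (π i)
  have one : ∀ π ∈ Ad, ∑ u ∈ box a A B, Φ π u ≤ 9 * C * A * B * s * ∏ i, b i (π i) := by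
    intro π hπ
    obtain ⟨-, h1, h2⟩ := mem_filter.1 hπ
    have hper : ∀ i, Per (p i ^ (if π i = 0 then 0 else m (π i)))
        fun u => if π i = 0 then 1 else h i (π i) u := fun i u v huv => by
      split_ifs at huv ⊢
      · rfl
      · exact hP _ _ u v huv
    have hW : ∀ q ∈ W π, ∃ i, π i = 0 ∧ p i = q := fun q hq => by
      obtain ⟨i, hi, rfl⟩ := mem_image.1 hq
      exact ⟨i, (mem_filter.1 hi).2.1, rfl⟩
    have := pb hC hs hy a hA hB (M := ∏ i, p i ^ (if π i = 0 then 0 else m (π i)))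
      (prod_pos fun i _ => pow_pos (hp i).pos _) (by push_cast; exact h1) (H0 π)
      (fun u v huv => prod_congr rfl fun i _ =>
        (hper i).of_dvd (dvd_prod_of_mem (fun i => p i ^ (if π i = 0 then 0 else m (π i)))
          (mem_univ i)) u v huv) (W π) Ω
      (fun q hq => by
        obtain ⟨i, h3, rfl⟩ := hW q hq
        refine ⟨hp i, hz i, Nat.Coprime.prod_left fun k _ => ?_⟩
        split_ifs with hk
        · simp
        · exact Nat.Coprime.pow_left _ ((Nat.coprime_primes (hp k) (hp i)).2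
            fun e => hk (hi e ▸ h3)))
      (fun q hq => by obtain ⟨i, -, rfl⟩ := hW q hq; exact hΩ i)
      (fun q hq => by obtain ⟨i, -, rfl⟩ := hW q hq; exact hd i)
    refine this.trans ?_
    rw [den_prod univ _ (fun i => pow_pos (hp i).pos _) (fun i j hij => Nat.Coprime.pow _ _
      ((Nat.coprime_primes (hp i) (hp j)).2 fun e => hij (hi e))) _ hper,
      sum_image hi.injOn, ← sum_neg_distrib, Real.exp_sum, prod_filter, mul_assoc, mul_assoc _ s,
      ← prod_mul_distrib]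
    refine mul_le_mul_of_nonneg_left ((le_of_eq (prod_congr rfl fun i _ => ?_)).trans h2)
      (by positivity)
    by_cases hk : π i = 0 <;> simp [bb, hk, den_one]
  calc ∑ u ∈ V, f u ≤ ∑ u ∈ V, K * ∑ π ∈ Ad, Φ π u := by
        refine sum_le_sum fun u hu => ?_
        obtain ⟨π, h1, h2, h3, h4, h5⟩ := hf u hu
        refine h4.trans (mul_le_mul_of_nonneg_left ?_ hK)
        refine le_trans (le_of_eq ?_) (single_le_sum (fun π _ => Φ0 π u) (a := π)
          (mem_filter.2 ⟨Fintype.mem_piFinset.2 fun i => mem_range.2 (Nat.lt_succ_of_le (h1 i)),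
            h2, h3⟩))
        simp only [Φ]
        rw [if_pos, mul_one]
        intro q hq
        obtain ⟨i, hi, rfl⟩ := mem_image.1 hq
        exact h5 i (mem_filter.1 hi).2.1 (mem_filter.1 hi).2.2
    _ ≤ ∑ u ∈ box a A B, K * ∑ π ∈ Ad, Φ π u :=
        sum_le_sum_of_subset_of_nonneg hV fun u _ _ => mul_nonneg hK (sum_nonneg fun π _ => Φ0 π u)
    _ ≤ K * ∑ π ∈ Ad, 9 * C * A * B * s * ∏ i, b i (π i) := by
        rw [← mul_sum, sum_comm]
        exact mul_le_mul_of_nonneg_left (sum_le_sum one) hK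
    _ ≤ _ := by
        rw [← mul_sum, prod_univ_sum, mul_assoc K, mul_assoc K]
        gcongr
        · exact fun π _ _ => prod_nonneg fun i _ => hb _ _
        · exact filter_subset _ _

end Pool.Agent.Lib.MP_9177b7_ag.J.Shiu
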