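import Pool.Agent.Lib.MP_9177b7_ag.J.Shiu3

/-! The points of one class. -/

noncomputable section

namespace Pool.Agent.Lib.MP_9177b7_ag.J.Shiu

open Finset

lemma sum_range_le {b : ℕ → ℝ} (hb : ∀ j, 0 ≤ b j) (J : ℕ) :
    ∑ j ∈ range (J + 1), b j ≤ b 0 + (b 1 + ∑ j ∈ Icc 2 J, b j) := by
  rw [← sum_insert (s := Icc 2 J) (a := 1) (by simp), ← sum_insert (a := 0) (by simp)]
  refine sum_le_sum_of_subset_of_nonneg (fun j hj => ?_) fun j _ _ => hb j
  simp only [mem_range, mem_insert, mem_Icc] at hj ⊢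
  omega

open Classical in
lemma cls {κ δ C T : ℝ} (hκ : 1 ≤ κ) (hT : 0 ≤ T) (hC : 0 < C) (hs : Sv κ δ C) : ∃ K : ℝ, 0 ≤ K ∧
    ∀ {y : ℝ} (a : ℤ × ℤ) {A B : ℕ} {ι : Type} [Fintype ι] (p : ι → ℕ) (c J : ℕ)
      (z X Y lo hi σ W : ℝ) (Q : ι → Prop) (Ω : ℕ → ℤ × ℤ → Prop) (h : ι → ℕ → ℤ × ℤ → ℝ)
      (e₁ e₂ : ι → ℝ) (V : Finset (ℤ × ℤ)) (f : ℤ × ℤ → ℝ),
      1 ≤ y → y ≤ A → y ≤ B → Function.Injective p → (∀ i, (p i).Prime) →
      (∀ i, (p i : ℝ) ≤ √y ^ δ) → (∀ i, (p i : ℝ) ≤ z) → 1 ≤ z → 1 < lo → 1 ≤ hi → 0 ≤ σ →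
      σ * Real.log hi ≤ T → 0 < Y → 0 ≤ W → X ^ (2 * c) ≤ √y →
      (∀ i j u, 0 ≤ h i j u) → (∀ i j, Per (p i ^ (c * (j + 1))) (h i j)) →
      (∀ i u v, Cg (p i) u v → Ω (p i) u → Ω (p i) v) →
      (∀ i, den (p i) (fun u => if Ω (p i) u then 1 else 0) ≤ κ / p i) →
      (∀ i, den (p i ^ (c * 2)) (h i 1) ≤ e₁ i) → (∀ i, e₁ i ≤ κ ^ 2 / p i ∧ e₂ i ≤ κ ^ 2 / p i) →
      (∀ i, ∑ j ∈ Icc 2 J, den (p i ^ (c * (j + 1))) (h i j) ≤ e₂ i) → V ⊆ box a A B →
      (∀ u ∈ V, ∃ π : ι → ℕ, (∀ i, π i ≤ J) ∧ ∏ i, (p i : ℝ) ^ π i ≤ X ∧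
        Y ^ σ ≤ (∏ i, if π i = 1 then (p i : ℝ) else 1) ^ σ ∧ (∀ i, Q i → 2 ≤ π i) ∧
        (∀ i, π i = 1 → (p i : ℝ) ≤ hi) ∧ (∀ i, π i = 0 → (p i : ℝ) ≤ lo → ¬ Ω (p i) u) ∧
        f u ≤ W * ∏ i, if π i = 0 then 1 else h i (π i) u) →
      ∑ u ∈ V, f u ≤ K * A * B * (W * Y ^ (-σ) * Real.exp (3 * κ * (Real.log z / Real.log lo))) *
        (Real.exp (∑ i with ¬ Q i, (e₁ i + e₂ i - den (p i) fun u => if Ω (p i) u then 1 else 0)) *
          ∏ i with Q i, e₂ i) := by
  obtain ⟨K₁, hK₁⟩ := sum_rpow_le one_pos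
  set K := κ ^ 2 * (2 + T * Real.exp T) with hK
  have κ0 : 0 ≤ κ := by linarith
  have K0 : 0 ≤ K := by positivity
  refine ⟨9 * C * Real.exp (3 * κ ^ 2 * Real.exp T * T + K * κ * Real.exp κ * K₁), by positivity, ?_⟩
  intro y a A B ι _ p c J z X Y lo hi σ W Q Ω h e₁ e₂ V f hy hA hB hi' hp hz hz' z1 lo1 hi1 σ0 σT Y0
    W0 hX h0 hP hΩ hd he₁ he he₂ hV hf
  have p2 : ∀ i, (2 : ℝ) ≤ p i := fun i => by exact_mod_cast (hp i).two_le
  have p0 : ∀ i, (0 : ℝ) < p i := fun i => by linarith [p2 i]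
  have l0 : 0 < Real.log lo := Real.log_pos lo1
  let β : ι → ℕ → ℝ := fun i j =>
    bb (p i) (fun j => c * (j + 1)) (h i) ((p i : ℝ) ≤ lo) (Ω (p i)) j
  have β0 : ∀ i j, 0 ≤ β i j := fun i j => bb_nonneg _ _ _ _ _ (h0 i)
  let b : ι → ℕ → ℝ := fun i j => if Q i then (if 2 ≤ j then β i j else 0) else
    if j = 1 then (if (p i : ℝ) ≤ hi then β i j * (p i : ℝ) ^ σ else 0) else β i j
  have hb : ∀ i j, 0 ≤ b i j := fun i j => by
    have := β0 i j
    simp only [b]
    split_ifs <;> positivity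
  have e20 : ∀ i, 0 ≤ e₂ i := fun i =>
    (sum_nonneg fun j _ => den_nonneg _ (h0 i j)).trans (he₂ i)
  have hβ : ∀ i, ∑ j ∈ Icc 2 J, β i j ≤ e₂ i := fun i => by
    refine (le_of_eq (sum_congr rfl fun j hj => ?_)).trans (he₂ i)
    simp only [β, bb]
    rw [if_neg (by have := (mem_Icc.1 hj).1; omega)]
  have := cover hC hs hy a hA hB p hi' hp hz (fun j => c * (j + 1)) h h0 hP
    (fun i => (p i : ℝ) ≤ lo) Ω hΩ hd V hV f W0 (s := Y ^ (-σ)) (by positivity) b hb J ?_
  · refine this.trans ?_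
    let er : ι → ℝ := fun i =>
      (if (p i : ℝ) ≤ hi then κ ^ 2 * Real.exp T * σ * (Real.log (p i) / p i) else 0) +
        K * κ * Real.exp κ / (p i : ℝ) ^ 2 + if (p i : ℝ) ≤ lo then 0 else κ / p i
    have er0 : ∀ i, 0 ≤ er i := fun i => by
      have := Real.log_natCast_nonneg (p i)
      simp only [er]
      split_ifs <;> positivity
    have h1 : ∀ i, ∑ j ∈ range (J + 1), b i j ≤ (if Q i then e₂ i else
        Real.exp (e₁ i + e₂ i - den (p i) fun u => if Ω (p i) u then 1 else 0)) *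
          Real.exp (er i) := by
      intro i
      refine (sum_range_le (hb i) J).trans ?_
      by_cases hq : Q i
      · simp only [b, if_pos hq]
        rw [if_neg (by omega), if_neg (by omega), zero_add, zero_add,
          sum_congr rfl fun j hj => if_pos (mem_Icc.1 hj).1]
        exact (hβ i).trans (le_mul_of_one_le_right (e20 i) (Real.one_le_exp (er0 i)))
      · simp only [b, if_neg hq]
        rw [if_neg zero_ne_one, if_pos trivial, sum_congr rfl fun j hj =>
          if_neg (show j ≠ 1 by have := (mem_Icc.1 hj).1; omega), ← Real.exp_add]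
        have b1 : β i 1 ≤ e₁ i := (le_of_eq (by simp only [β, bb]; rw [if_neg one_ne_zero])).trans
          (he₁ i)
        have lg := Real.log_natCast_nonneg (p i)
        have b2 : (if (p i : ℝ) ≤ hi then β i 1 * (p i : ℝ) ^ σ else 0) ≤ e₁ i +
            (if (p i : ℝ) ≤ hi then κ ^ 2 * Real.exp T * σ * (Real.log (p i) / p i) else 0) ∧
            (if (p i : ℝ) ≤ hi then κ ^ 2 * Real.exp T * σ * (Real.log (p i) / p i) else 0) ≤
              κ ^ 2 * (T * Real.exp T) / p i := by
          split_ifs with hh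
          · have a1 : σ * Real.log (p i) ≤ T :=
              (mul_le_mul_of_nonneg_left (Real.log_le_log (p0 i) hh) σ0).trans σT
            have a2 : (p i : ℝ) ^ σ ≤ 1 + σ * Real.log (p i) * Real.exp T := by
              rw [Real.rpow_def_of_pos (p0 i), mul_comm]
              refine (exp_le _).trans ?_
              gcongr
            constructor
            · calc _ ≤ β i 1 * (1 + σ * Real.log (p i) * Real.exp T) :=
                    mul_le_mul_of_nonneg_left a2 (β0 i 1)
                _ = β i 1 + β i 1 * (σ * Real.log (p i) * Real.exp T) := by ring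
                _ ≤ e₁ i + κ ^ 2 / p i * (σ * Real.log (p i) * Real.exp T) := by
                    gcongr
                    exact b1.trans (he i).1
                _ = _ := by ring
            · calc _ = κ ^ 2 * (σ * Real.log (p i) * Real.exp T) / p i := by ring
                _ ≤ _ := by gcongr
          · exact ⟨by linarith [β0 i 1], by have := p0 i; positivity⟩
        have b3 : 0 ≤ (if (p i : ℝ) ≤ hi then κ ^ 2 * Real.exp T * σ * (Real.log (p i) / p i)
            else 0) := by split_ifs <;> positivity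
        have := loc (K := K) ((p i : ℝ) ≤ lo) (den_nonneg _ fun u => by split_ifs <;> norm_num) (hd i)
          (by linarith [p2 i]) κ0 (x := e₁ i + e₂ i +
            if (p i : ℝ) ≤ hi then κ ^ 2 * Real.exp T * σ * (Real.log (p i) / p i) else 0)
          (by linarith [β0 i 1, e20 i]) (by
            have : K / p i = κ ^ 2 / p i + κ ^ 2 / p i + κ ^ 2 * (T * Real.exp T) / p i := by
              rw [hK]; ring
            linarith [(he i).1, (he i).2, b2.2])
        refine le_trans ?_ (this.trans (le_of_eq ?_))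
        · have : β i 0 = if (p i : ℝ) ≤ lo then
              Real.exp (-den (p i) fun u => if Ω (p i) u then 1 else 0) else 1 := by
            simp only [β, bb, if_true]
          linarith [b2.1, hβ i]
        · congr 1
          simp only [er]
          ring
    have h2 : ∑ i, er i ≤ 3 * κ ^ 2 * Real.exp T * T + K * κ * Real.exp κ * K₁ +
        3 * κ * (Real.log z / Real.log lo) := by
      simp only [er, sum_add_distrib]
      gcongr ?_ + ?_ + ?_
      · rw [← sum_filter, ← mul_sum]
        calc _ ≤ κ ^ 2 * Real.exp T * σ * (3 * Real.log hi) := by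
              gcongr
              exact mert _ p hi' hp hi1 fun i hi => (mem_filter.1 hi).2
          _ = 3 * κ ^ 2 * Real.exp T * (σ * Real.log hi) := by ring
          _ ≤ _ := by gcongr
      · refine le_trans (le_of_eq ?_) (mul_le_mul_of_nonneg_left (hK₁ p hi') (by positivity))
        rw [mul_sum]
        refine sum_congr rfl fun i _ => ?_
        rw [show (-1 - 1 : ℝ) = -(2 : ℕ) by norm_num, Real.rpow_neg (p0 i).le, Real.rpow_natCast,
          div_eq_mul_inv]
      · calc _ ≤ ∑ i, κ / Real.log lo * (Real.log (p i) / p i) := by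
              refine sum_le_sum fun i _ => ?_
              have lg := Real.log_natCast_nonneg (p i)
              split_ifs with hh
              · positivity
              · have : Real.log lo ≤ Real.log (p i) := Real.log_le_log (by linarith) (not_le.1 hh).le
                calc _ = κ / Real.log lo * (Real.log lo / p i) := by field_simp
                  _ ≤ _ := by gcongr
          _ ≤ κ / Real.log lo * (3 * Real.log z) := by
              rw [← mul_sum]
              gcongr
              exact mert _ p hi' hp z1 fun i _ => hz' i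
          _ = _ := by ring
    have h3 := prod_le_prod (s := univ) (fun i _ => sum_nonneg fun j _ => hb i j) fun i _ => h1 i
    rw [prod_mul_distrib, prod_ite, ← Real.exp_sum, ← Real.exp_sum] at h3
    have h4 : 0 ≤ ∏ i with Q i, e₂ i := prod_nonneg fun i _ => e20 i
    calc _ ≤ W * (9 * C * A * B) * Y ^ (-σ) * (((∏ i with Q i, e₂ i) * Real.exp (∑ i with ¬ Q i,
          (e₁ i + e₂ i - den (p i) fun u => if Ω (p i) u then 1 else 0))) *
          Real.exp (3 * κ ^ 2 * Real.exp T * T + K * κ * Real.exp κ * K₁ +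
            3 * κ * (Real.log z / Real.log lo))) := by
          gcongr
          exact h3.trans (by gcongr)
      _ = _ := by rw [Real.exp_add]; ring
  intro u hu
  obtain ⟨π, h1, h2, h3, h4, h5, h6, h7⟩ := hf u hu
  refine ⟨π, h1, ?_, ?_, h7, h6⟩
  · refine le_trans ?_ ((pow_le_pow_left₀ (prod_nonneg fun i _ => by positivity) h2 _).trans hX)
    rw [← prod_pow]
    refine prod_le_prod (fun i _ => by positivity) fun i _ => ?_
    rw [← pow_mul]
    refine pow_le_pow_right₀ (by linarith [p2 i]) ?_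
    split_ifs with hh
    · omega
    · have : 1 ≤ π i := by omega
      nlinarith
  · have e : ∏ i, b i (π i) = (∏ i, if π i = 1 then (p i : ℝ) else 1) ^ σ * ∏ i, β i (π i) := by
      rw [← Real.finsetProd_rpow _ _ fun i _ => by split_ifs <;> positivity, ← prod_mul_distrib]
      refine prod_congr rfl fun i _ => ?_
      simp only [b]
      by_cases hq : Q i
      · have := h4 i hq
        rw [if_pos hq, if_pos this, if_neg (by omega), Real.one_rpow, one_mul]
      · rw [if_neg hq]
        by_cases hh : π i = 1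
        · rw [if_pos hh, if_pos hh, if_pos (h5 i hh), mul_comm]
        · rw [if_neg hh, if_neg hh, Real.one_rpow, one_mul]
    rw [e, ← mul_assoc]
    refine le_mul_of_one_le_left (prod_nonneg fun i _ => β0 _ _) ?_
    rw [Real.rpow_neg Y0.le, ← div_eq_inv_mul, one_le_div (by positivity)]
    exact h3

end Pool.Agent.Lib.MP_9177b7_ag.J.Shiu
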