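import Pool.Agent.Lib.MP_9177b7_ag.J.DefsA

/-! Small isogeny regime: algebra in the quadratic field and at the prime `l`. -/

open Pointwise

noncomputable section

namespace Pool.Agent.Lib.MP_9177b7_ag.J.Small

open Fld

variable {k : Fld}

/-- The embedding as a ring homomorphism. -/
def hom {A : Type} [Field A] [CharZero A] {r : A} (hr : k.Root r) : k.K →+* A where
  toFun := k.io r
  map_one' := by simp [io, QuadraticAlgebra.re_one, QuadraticAlgebra.im_one]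
  map_zero' := by simp [io]
  map_add' x y := by simp [io]; ring
  map_mul' x y := by
    have h : r ^ 2 = (k.t : A) * r - (k.n : A) := hr
    simp only [io, QuadraticAlgebra.re_mul, QuadraticAlgebra.im_mul]
    push_cast
    linear_combination (-(x.im : A) * (y.im : A)) * h

section emb

variable {A : Type} [Field A] [CharZero A] {r : A}

omit [CharZero A] in
theorem root_conj (hr : k.Root r) : k.Root ((k.t : A) - r) := by
  have h : r ^ 2 = (k.t : A) * r - (k.n : A) := hr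
  unfold Root
  linear_combination h

theorem io_mul (hr : k.Root r) (x y : k.K) : k.io r (x * y) = k.io r x * k.io r y :=
  map_mul (hom hr) x y

theorem io_add (hr : k.Root r) (x y : k.K) : k.io r (x + y) = k.io r x + k.io r y :=
  map_add (hom hr) x y

theorem io_sub (hr : k.Root r) (x y : k.K) : k.io r (x - y) = k.io r x - k.io r y :=
  map_sub (hom hr) x y

theorem io_pow (hr : k.Root r) (x : k.K) (n : ℕ) : k.io r (x ^ n) = k.io r x ^ n :=
  map_pow (hom hr) x n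

theorem io_div (hr : k.Root r) (x y : k.K) : k.io r (x / y) = k.io r x / k.io r y :=
  map_div₀ (hom hr) x y

theorem io_nat (hr : k.Root r) (n : ℕ) : k.io r (n : k.K) = n := map_natCast (hom hr) n

theorem io_int (hr : k.Root r) (n : ℤ) : k.io r (n : k.K) = n := map_intCast (hom hr) n

theorem io_om : k.io r k.om = r := by simp [io, om]

theorem io_star (x : k.K) : k.io r (star x) = k.io ((k.t : A) - r) x := by
  simp only [io, QuadraticAlgebra.re_star, QuadraticAlgebra.im_star]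
  push_cast
  ring

theorem io_mul_io (hr : k.Root r) (x : k.K) :
    k.io r x * k.io ((k.t : A) - r) x = ((QuadraticAlgebra.norm x : ℚ) : A) := by
  have h : r ^ 2 = (k.t : A) * r - (k.n : A) := hr
  simp only [io, QuadraticAlgebra.norm_def]
  push_cast
  linear_combination (-(x.im : A) * (x.im : A)) * h

theorem io_lin (hr : k.Root r) (α β x : k.K) : k.io r (k.lin α β x) =
    k.io r α * k.io r x + k.io r β * k.io ((k.t : A) - r) x := by
  change k.io r (α * x + β * star x) = _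
  rw [io_add hr, io_mul hr, io_mul hr, io_star]

end emb

theorem lin_apply (α β x : k.K) : k.lin α β x = α * x + β * star x := rfl

theorem N_def (x : k.K) : k.N x = (x.re : ℝ) ^ 2 + k.t * x.re * x.im + k.n * (x.im : ℝ) ^ 2 := by
  simp only [N, QuadraticAlgebra.norm_def]
  push_cast
  ring

theorem D_neg : (k.D : ℝ) < 0 := by exact_mod_cast k.neg

theorem D_def : (k.D : ℝ) = (k.t : ℝ) ^ 2 - 4 * k.n := by simp [D]

theorem absD_pos : 0 < |(k.D : ℝ)| := abs_pos.2 D_neg.ne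

theorem N_nonneg (x : k.K) : 0 ≤ k.N x := by
  have h := @D_neg k
  rw [D_def] at h
  rw [N_def]
  nlinarith [sq_nonneg (2 * (x.re : ℝ) + k.t * x.im), sq_nonneg (x.im : ℝ)]

theorem N_mul (x y : k.K) : k.N (x * y) = k.N x * k.N y := by simp [N]

theorem N_pow (x : k.K) (n : ℕ) : k.N (x ^ n) = k.N x ^ n := by simp [N]

theorem N_star (x : k.K) : k.N (star x) = k.N x := by simp [N]

theorem N_one : k.N 1 = 1 := by simp [N]

theorem N_pos {x : k.K} (hx : x ≠ 0) : 0 < k.N x := by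
  refine lt_of_le_of_ne (N_nonneg x) fun h => hx ?_
  have : QuadraticAlgebra.norm x = 0 := by
    have h2 : ((QuadraticAlgebra.norm x : ℚ) : ℝ) = 0 := h.symm
    exact_mod_cast h2
  exact QuadraticAlgebra.norm_eq_zero_iff_eq_zero.1 this

theorem N_add_le (x y : k.K) : k.N (x + y) ≤ 2 * (k.N x + k.N y) := by
  have h := N_nonneg (x - y)
  simp only [N_def, QuadraticAlgebra.re_add, QuadraticAlgebra.im_add, QuadraticAlgebra.re_sub,
    QuadraticAlgebra.im_sub] at h ⊢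
  push_cast at h ⊢
  nlinarith

theorem N_sub_le (x y : k.K) : k.N (x - y) ≤ 2 * (k.N x + k.N y) := by
  have h := N_nonneg (x + y)
  simp only [N_def, QuadraticAlgebra.re_add, QuadraticAlgebra.im_add, QuadraticAlgebra.re_sub,
    QuadraticAlgebra.im_sub] at h ⊢
  push_cast at h ⊢
  nlinarith

theorem N_smul (q : ℚ) (x : k.K) : k.N (q • x) = (q : ℝ) ^ 2 * k.N x := by
  simp only [N_def, QuadraticAlgebra.re_smul, QuadraticAlgebra.im_smul, smul_eq_mul]
  push_cast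
  ring

theorem N_lin_le (α β x : k.K) : k.N (k.lin α β x) ≤ 2 * (k.N α + k.N β) * k.N x := by
  have := N_add_le (α * x) (β * star x)
  rw [N_mul, N_mul, N_star] at this
  rw [lin_apply]
  linarith

theorem det_sq_le (x y : k.K) : |(k.D : ℝ)| * (k.det2 x y : ℝ) ^ 2 ≤ 4 * (k.N x * k.N y) := by
  rw [abs_of_neg D_neg, D_def, N_def, N_def, det2]
  push_cast
  nlinarith [sq_nonneg (2 * (x.re : ℝ) * y.re + k.t * (x.re * y.im + x.im * y.re) +
    2 * k.n * x.im * y.im)]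

theorem det_lin (α β x y : k.K) : k.det2 (k.lin α β x) (k.lin α β y) =
    (QuadraticAlgebra.norm α - QuadraticAlgebra.norm β) * k.det2 x y := by
  simp only [lin_apply, det2, QuadraticAlgebra.norm_def, QuadraticAlgebra.re_add,
    QuadraticAlgebra.im_add, QuadraticAlgebra.re_mul, QuadraticAlgebra.im_mul,
    QuadraticAlgebra.re_star, QuadraticAlgebra.im_star]
  ring

theorem lin_smul (α β x : k.K) (q : ℚ) : k.lin α β (q • x) = q • k.lin α β x := by
  ext <;> simp [lin_apply]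

theorem mem_O {x : k.K} : x ∈ k.O ↔ ∃ a b : ℤ, x.re = a ∧ x.im = b := by
  rw [O, Submodule.mem_span_pair]
  constructor
  · rintro ⟨a, b, rfl⟩
    exact ⟨a, b, by simp [om], by simp [om]⟩
  · rintro ⟨a, b, h1, h2⟩
    refine ⟨a, b, ?_⟩
    ext
    · simp [om, h1]
    · simp [om, h2]

theorem one_mem_O : (1 : k.K) ∈ k.O := Submodule.subset_span (by simp)

theorem om_mem_O : k.om ∈ k.O := Submodule.subset_span (by simp)

theorem mul_mem_O {x y : k.K} (hx : x ∈ k.O) (hy : y ∈ k.O) : x * y ∈ k.O := by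
  obtain ⟨a, b, h1, h2⟩ := mem_O.1 hx
  obtain ⟨c, d, h3, h4⟩ := mem_O.1 hy
  refine mem_O.2 ⟨a * c - k.n * b * d, a * d + b * c + k.t * b * d, ?_, ?_⟩
  · simp only [QuadraticAlgebra.re_mul, h1, h2, h3, h4]; push_cast; ring
  · simp only [QuadraticAlgebra.im_mul, h1, h2, h3, h4]; push_cast; ring

theorem pow_mem_O {x : k.K} (hx : x ∈ k.O) (n : ℕ) : x ^ n ∈ k.O := by
  induction n with
  | zero => simpa using one_mem_O
  | succ n ih => rw [pow_succ]; exact mul_mem_O ih hx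

theorem star_mem_O {x : k.K} (hx : x ∈ k.O) : star x ∈ k.O := by
  obtain ⟨a, b, h1, h2⟩ := mem_O.1 hx
  refine mem_O.2 ⟨a + k.t * b, -b, ?_, ?_⟩
  · simp [h1, h2]
  · simp [h2]

theorem int_mul_mem {L : Submodule ℤ k.K} {x : k.K} (hx : x ∈ L) (a : ℤ) : (a : k.K) * x ∈ L := by
  rw [← zsmul_eq_mul]
  exact L.smul_mem a hx

theorem nat_mul_mem {L : Submodule ℤ k.K} {x : k.K} (hx : x ∈ L) (a : ℕ) : (a : k.K) * x ∈ L := by
  simpa using int_mul_mem hx a

theorem adm_mul {F : ℕ} {L : Submodule ℤ k.K} (hL : k.Adm F L) {o x : k.K} (ho : o ∈ k.O)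
    (hx : x ∈ L) : (F : k.K) * o * x ∈ L := by
  obtain ⟨a, b, rfl⟩ := Submodule.mem_span_pair.1 ho
  have e : (F : k.K) * (a • (1 : k.K) + b • k.om) * x =
      (a : k.K) * ((F : k.K) * x) + (b : k.K) * ((F : k.K) * k.om * x) := by
    simp only [zsmul_eq_mul]; ring
  rw [e]
  exact L.add_mem (int_mul_mem (nat_mul_mem hx F) a) (int_mul_mem (hL x hx) b)

section loc

variable {l : ℕ} [hl : Fact l.Prime] {r : ℚ_[l]}

theorem norm_add_le_of {x y : ℚ_[l]} {c : ℝ} (hx : ‖x‖ ≤ c) (hy : ‖y‖ ≤ c) : ‖x + y‖ ≤ c :=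
  (IsUltrametricDist.norm_add_le_max x y).trans (max_le hx hy)

theorem norm_sub_le_of {x y : ℚ_[l]} {c : ℝ} (hx : ‖x‖ ≤ c) (hy : ‖y‖ ≤ c) : ‖x - y‖ ≤ c := by
  rw [sub_eq_add_neg]
  exact norm_add_le_of hx (by rwa [norm_neg])

theorem norm_nat_unit {u : ℕ} (hu : ¬ l ∣ u) : ‖(u : ℚ_[l])‖ = 1 :=
  Padic.norm_natCast_eq_one_iff.2 ((Nat.Prime.coprime_iff_not_dvd hl.out).2 hu)

theorem norm_conj_le (h1 : ‖r‖ ≤ 1) : ‖(k.t : ℚ_[l]) - r‖ ≤ 1 :=
  norm_sub_le_of (Padic.norm_int_le_one _) h1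

theorem norm_O_le (h1 : ‖r‖ ≤ 1) {x : k.K} (hx : x ∈ k.O) : ‖k.io r x‖ ≤ 1 := by
  obtain ⟨a, b, h2, h3⟩ := mem_O.1 hx
  rw [io, h2, h3]
  push_cast
  refine norm_add_le_of (Padic.norm_int_le_one _) ?_
  rw [norm_mul]
  exact mul_le_one₀ (Padic.norm_int_le_one _) (norm_nonneg _) h1

theorem norm_le_of_nrm (hr : k.Root r) (h1 : ‖r‖ ≤ 1) {L : Submodule ℤ k.K} (hL : k.Nrm l L)
    {x : k.K} (hx : x ∈ L) : ‖k.io r x‖ ≤ 1 := by
  obtain ⟨u, hu, -, h⟩ := hL
  have := norm_O_le h1 (h x hx)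
  rwa [io_mul hr, io_nat hr, norm_mul, norm_nat_unit hu, one_mul] at this

theorem coords_le (h1 : ‖r‖ ≤ 1) (h2 : ‖(k.t : ℚ_[l]) - r - r‖ = 1) {x : k.K}
    (ha : ‖k.io r x‖ ≤ 1) (hb : ‖k.io ((k.t : ℚ_[l]) - r) x‖ ≤ 1) :
    ‖((x.re : ℚ) : ℚ_[l])‖ ≤ 1 ∧ ‖((x.im : ℚ) : ℚ_[l])‖ ≤ 1 := by
  have e : ((x.im : ℚ) : ℚ_[l]) * ((k.t : ℚ_[l]) - r - r) =
      k.io ((k.t : ℚ_[l]) - r) x - k.io r x := by simp only [io]; ring
  have him : ‖((x.im : ℚ) : ℚ_[l])‖ ≤ 1 := by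
    have := norm_sub_le_of hb ha
    rwa [← e, norm_mul, h2, mul_one] at this
  refine ⟨?_, him⟩
  have e2 : ((x.re : ℚ) : ℚ_[l]) = k.io r x - ((x.im : ℚ) : ℚ_[l]) * r := by simp only [io]; ring
  rw [e2]
  refine norm_sub_le_of ha ?_
  rw [norm_mul]
  exact mul_le_one₀ him (norm_nonneg _) h1

theorem den_coprime {q : ℚ} (hq : ‖(q : ℚ_[l])‖ ≤ 1) : l.Coprime q.den :=
  PadicInt.norm_natCast_eq_one_iff.1 (PadicInt.isUnit_iff.1 (PadicInt.isUnit_den q hq))

theorem norm_l_pow (n : ℕ) : ‖(l : ℚ_[l]) ^ n‖ = ((l : ℝ) ^ n)⁻¹ := by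
  rw [Padic.norm_p_pow, zpow_neg, zpow_natCast]

theorem one_lt_l : (1 : ℝ) < l := by exact_mod_cast hl.out.one_lt

theorem inv_pow_anti {a b : ℕ} (h : a ≤ b) : ((l : ℝ) ^ b)⁻¹ ≤ ((l : ℝ) ^ a)⁻¹ :=
  inv_anti₀ (pow_pos (zero_lt_one.trans one_lt_l) a) (pow_le_pow_right₀ one_lt_l.le h)

theorem inv_pow_le_one (b : ℕ) : ((l : ℝ) ^ b)⁻¹ ≤ 1 := by
  simpa using inv_pow_anti (l := l) (Nat.zero_le b)

/-- Membership in a lattice which is maximal at `l`. -/
theorem loc (h1 : ‖r‖ ≤ 1) (h2 : ‖(k.t : ℚ_[l]) - r - r‖ = 1) {L : Submodule ℤ k.K}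
    (hL : k.Nrm l L) {x : k.K} {a : ℕ} (hx : (l : k.K) ^ a * x ∈ L) (ha : ‖k.io r x‖ ≤ 1)
    (hb : ‖k.io ((k.t : ℚ_[l]) - r) x‖ ≤ 1) : x ∈ L := by
  obtain ⟨u, hu, h, -⟩ := hL
  obtain ⟨hre, him⟩ := coords_le h1 h2 ha hb
  have hO : ((x.re.den * x.im.den : ℕ) : k.K) * x ∈ k.O := by
    refine mem_O.2 ⟨x.re.num * x.im.den, x.im.num * x.re.den, ?_, ?_⟩
    · simp only [QuadraticAlgebra.re_mul, QuadraticAlgebra.re_natCast, QuadraticAlgebra.im_natCast]
      push_cast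
      rw [← Rat.mul_den_eq_num]
      ring
    · simp only [QuadraticAlgebra.im_mul, QuadraticAlgebra.re_natCast, QuadraticAlgebra.im_natCast]
      push_cast
      rw [← Rat.mul_den_eq_num]
      ring
  have hc : (l ^ a).Coprime (u * (x.re.den * x.im.den)) :=
    Nat.Coprime.pow_left a (Nat.Coprime.mul_right ((Nat.Prime.coprime_iff_not_dvd hl.out).2 hu)
      (Nat.Coprime.mul_right (den_coprime hre) (den_coprime him)))
  obtain ⟨v, w, hvw⟩ := Nat.isCoprime_iff_coprime.2 hc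
  have e : x = (v : k.K) * ((l : k.K) ^ a * x) +
      (w : k.K) * ((u : k.K) * (((x.re.den * x.im.den : ℕ) : k.K) * x)) := by
    have h3 := congrArg (fun z : ℤ => (z : k.K)) hvw
    simp only [Int.cast_add, Int.cast_mul, Int.cast_natCast, Int.cast_one, Nat.cast_pow,
      Nat.cast_mul, Int.cast_pow] at h3
    push_cast
    linear_combination (-x) * h3
  rw [e]
  exact L.add_mem (int_mul_mem hx v) (int_mul_mem (h _ hO) w)

theorem cov_unit (hr : k.Root r) (h1 : ‖r‖ ≤ 1) (h2 : ‖(k.t : ℚ_[l]) - r - r‖ = 1)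
    {L : Submodule ℤ k.K} {c : ℚ} (hc : k.Lat L c) (hL : k.Nrm l L) : ‖(c : ℚ_[l])‖ = 1 := by
  obtain ⟨x, y, rfl, hd, -⟩ := hc
  have hx : x ∈ Submodule.span ℤ {x, y} := Submodule.subset_span (by simp)
  have hy : y ∈ Submodule.span ℤ {x, y} := Submodule.subset_span (by simp)
  obtain ⟨x1, x2⟩ := coords_le h1 h2 (norm_le_of_nrm hr h1 hL hx)
    (norm_le_of_nrm (root_conj hr) (norm_conj_le h1) hL hx)
  obtain ⟨y1, y2⟩ := coords_le h1 h2 (norm_le_of_nrm hr h1 hL hy)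
    (norm_le_of_nrm (root_conj hr) (norm_conj_le h1) hL hy)
  have hle : ‖(c : ℚ_[l])‖ ≤ 1 := by
    rw [← hd, det2]
    push_cast
    refine norm_sub_le_of ?_ ?_ <;> rw [norm_mul]
    · exact mul_le_one₀ x1 (norm_nonneg _) y2
    · exact mul_le_one₀ x2 (norm_nonneg _) y1
  obtain ⟨u, hu, h, -⟩ := hL
  obtain ⟨a, b, hab⟩ := Submodule.mem_span_pair.1 (h _ one_mem_O)
  obtain ⟨a', b', hab'⟩ := Submodule.mem_span_pair.1 (h _ om_mem_O)
  have e : (u : ℚ) ^ 2 = ((a * b' - a' * b : ℤ) : ℚ) * c := by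
    have p1 := congrArg QuadraticAlgebra.re hab
    have p2 := congrArg QuadraticAlgebra.im hab
    have p3 := congrArg QuadraticAlgebra.re hab'
    have p4 := congrArg QuadraticAlgebra.im hab'
    simp [om] at p1 p2 p3 p4
    rw [← hd, det2]
    push_cast
    linear_combination (-(u : ℚ)) * p1 - (a * x.re + b * y.re) * p4 + (a * x.im + b * y.im) * p3
  have e2 := congrArg (fun z : ℚ => ‖(z : ℚ_[l])‖) e
  simp only [Rat.cast_mul, Rat.cast_pow, Rat.cast_natCast, Rat.cast_intCast, norm_mul, norm_pow,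
    norm_nat_unit hu, one_pow] at e2
  refine le_antisymm hle ?_
  have := Padic.norm_int_le_one (p := l) (a * b' - a' * b)
  nlinarith [norm_nonneg (c : ℚ_[l])]

theorem exists_appr {z : ℚ_[l]} (hz : ‖z‖ ≤ 1) (n : ℕ) :
    ∃ a : ℤ, ‖z - a‖ ≤ ((l : ℝ) ^ n)⁻¹ := by
  let w : ℤ_[l] := ⟨z, hz⟩
  refine ⟨w.appr n, ?_⟩
  have := (PadicInt.norm_le_pow_iff_mem_span_pow _ n).2 (w.appr_spec n)
  rw [zpow_neg, zpow_natCast, PadicInt.norm_def, PadicInt.coe_sub, PadicInt.coe_natCast] at this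
  rw [Int.cast_natCast]
  exact this

theorem norm_int_le_iff (a : ℤ) (n : ℕ) :
    ‖(a : ℚ_[l])‖ ≤ ((l : ℝ) ^ n)⁻¹ ↔ (l : ℤ) ^ n ∣ a := by
  rw [← Padic.norm_int_le_pow_iff_dvd, zpow_neg, zpow_natCast]

theorem exists_norm_eq {z : ℚ_[l]} (h0 : z ≠ 0) (hz : ‖z‖ ≤ 1) :
    ∃ n : ℕ, ‖z‖ = ((l : ℝ) ^ n)⁻¹ := by
  obtain ⟨n, hn⟩ := Int.eq_ofNat_of_zero_le ((Padic.norm_le_one_iff_val_nonneg z).1 hz)
  exact ⟨n, by rw [Padic.norm_eq_zpow_neg_valuation h0, hn, zpow_neg, zpow_natCast]⟩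

/-- A map between lattices which are maximal at `l` has integral linear part. -/
theorem lin_le_one (hr : k.Root r) (h1 : ‖r‖ ≤ 1) (h2 : ‖(k.t : ℚ_[l]) - r - r‖ = 1)
    {M M' : Submodule ℤ k.K} (hM : k.Nrm l M) (hM' : k.Nrm l M') {α β : k.K}
    (h : ∀ x ∈ M, k.lin α β x ∈ M') : ‖k.io r α‖ ≤ 1 := by
  obtain ⟨u, hu, hO, -⟩ := hM
  have a1 := norm_le_of_nrm hr h1 hM' (h _ (hO _ one_mem_O))
  have a2 := norm_le_of_nrm hr h1 hM' (h _ (hO _ om_mem_O))
  rw [io_lin hr, mul_one, io_nat hr, io_nat (root_conj hr)] at a1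
  rw [io_lin hr, io_mul hr, io_mul (root_conj hr), io_nat hr, io_nat (root_conj hr), io_om,
    io_om] at a2
  have a3 : ‖((k.t : ℚ_[l]) - r) * (k.io r α * u + k.io r β * u)‖ ≤ 1 := by
    rw [norm_mul]
    exact mul_le_one₀ (norm_conj_le h1) (norm_nonneg _) a1
  have a4 := norm_sub_le_of a3 a2
  have e : ((k.t : ℚ_[l]) - r) * (k.io r α * u + k.io r β * u) -
      (k.io r α * (u * r) + k.io r β * (u * ((k.t : ℚ_[l]) - r))) =
      k.io r α * u * ((k.t : ℚ_[l]) - r - r) := by ring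
  rwa [e, norm_mul, norm_mul, h2, norm_nat_unit hu, mul_one, mul_one] at a4

end loc

end Pool.Agent.Lib.MP_9177b7_ag.J.Small
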