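import Pool.Agent.Lib.MP_9177b7_ag.J.Small2

/-! Small isogeny regime: coordinates in a reduced basis, paths and collisions. -/

open Pointwise

noncomputable section

namespace Pool.Agent.Lib.MP_9177b7_ag.J.Small

open Fld

variable {k : Fld}

/-- The point with given coordinates. -/
def pt (x y : k.K) (u : Fin 2 → ℚ) : k.K := u 0 • x + u 1 • y

/-- The point with given integer coordinates. -/
def pz (x y : k.K) (u : Fin 2 → ℤ) : k.K := pt x y fun i => (u i : ℚ)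

/-- Coordinates of a point. -/
def co (x y v : k.K) : Fin 2 → ℚ := ![k.det2 v y / k.det2 x y, k.det2 x v / k.det2 x y]

/-- The matrix of a linear map. -/
def mat (x y α β : k.K) : Matrix (Fin 2) (Fin 2) ℚ :=
  Matrix.of fun i j => co x y (k.lin α β (![x, y] j)) i

theorem pt_co {x y : k.K} (h : k.det2 x y ≠ 0) (v : k.K) : pt x y (co x y v) = v := by
  ext
  · simp only [pt, co, Matrix.cons_val_zero, Matrix.cons_val_one, QuadraticAlgebra.re_add,
      QuadraticAlgebra.re_smul, smul_eq_mul]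
    field_simp
    simp only [det2]
    ring
  · simp only [pt, co, Matrix.cons_val_zero, Matrix.cons_val_one, QuadraticAlgebra.im_add,
      QuadraticAlgebra.im_smul, smul_eq_mul]
    field_simp
    simp only [det2]
    ring

theorem co_pt {x y : k.K} (h : k.det2 x y ≠ 0) (u : Fin 2 → ℚ) : co x y (pt x y u) = u := by
  funext i
  fin_cases i
  · simp only [co, Fin.zero_eta, Matrix.cons_val_zero]
    rw [div_eq_iff h]
    simp [pt, det2]
    ring
  · simp only [co, Fin.mk_one, Matrix.cons_val_one, Matrix.cons_val_zero]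
    rw [div_eq_iff h]
    simp [pt, det2]
    ring

theorem pt_inj {x y : k.K} (h : k.det2 x y ≠ 0) {u v : Fin 2 → ℚ} (e : pt x y u = pt x y v) :
    u = v := by rw [← co_pt h u, e, co_pt h]

theorem lin_pt (x y α β : k.K) (u : Fin 2 → ℚ) :
    k.lin α β (pt x y u) = pt (k.lin α β x) (k.lin α β y) u := by
  simp only [pt, map_add, lin_smul]

theorem pt_mat {x y : k.K} (h : k.det2 x y ≠ 0) (α β : k.K) (u : Fin 2 → ℚ) :
    pt x y ((mat x y α β).mulVec u) = k.lin α β (pt x y u) := by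
  rw [lin_pt]
  conv_rhs => rw [← pt_co h (k.lin α β x), ← pt_co h (k.lin α β y)]
  simp only [pt, mat, Matrix.mulVec, dotProduct, Fin.sum_univ_two, Matrix.of_apply,
    Matrix.cons_val_zero, Matrix.cons_val_one, add_smul, smul_add, smul_smul]
  simp only [mul_comm]
  abel

theorem pz_eq (x y : k.K) (u : Fin 2 → ℤ) : pz x y u = u 0 • x + u 1 • y := by
  simp [pz, pt, Int.cast_smul_eq_zsmul]

theorem mem_pz {x y v : k.K} : v ∈ Submodule.span ℤ {x, y} ↔ ∃ u, pz x y u = v := by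
  rw [Submodule.mem_span_pair]
  constructor
  · rintro ⟨a, b, rfl⟩
    exact ⟨![a, b], by simp [pz_eq]⟩
  · rintro ⟨u, rfl⟩
    exact ⟨u 0, u 1, (pz_eq x y u).symm⟩

theorem pz_mem (x y : k.K) (u : Fin 2 → ℤ) : pz x y u ∈ Submodule.span ℤ {x, y} :=
  mem_pz.2 ⟨u, rfl⟩

theorem N_pt_le {x y : k.K} {X : ℝ} (hx : k.N x ≤ X) (hy : k.N y ≤ X) (u : Fin 2 → ℚ) :
    k.N (pt x y u) ≤ 2 * X * ((u 0 : ℝ) ^ 2 + (u 1 : ℝ) ^ 2) := by
  have h := N_add_le (u 0 • x) (u 1 • y)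
  rw [N_smul, N_smul] at h
  have h1 := mul_le_mul_of_nonneg_left hx (sq_nonneg (u 0 : ℝ))
  have h2 := mul_le_mul_of_nonneg_left hy (sq_nonneg (u 1 : ℝ))
  rw [pt]
  linarith

theorem det_sq_le' {x y : k.K} {X : ℝ} (hy : k.N y ≤ |(k.D : ℝ)| * X) :
    (k.det2 x y : ℝ) ^ 2 ≤ 4 * X * k.N x := by
  have h := det_sq_le x y
  have h2 := mul_le_mul_of_nonneg_left hy (N_nonneg x)
  have h3 : |(k.D : ℝ)| * (k.det2 x y : ℝ) ^ 2 ≤ |(k.D : ℝ)| * (4 * X * k.N x) := by linarith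
  exact le_of_mul_le_mul_left h3 absD_pos

theorem co_sq_le {x y : k.K} {c : ℚ} {ε : ℝ} (hd : k.det2 x y = c) (hc : 0 < c)
    (hx : k.N x ≤ |(k.D : ℝ)| * (c / ε)) (hy : k.N y ≤ |(k.D : ℝ)| * (c / ε)) (v : k.K)
    (i : Fin 2) : (co x y v i : ℝ) ^ 2 ≤ 4 / ε * (k.N v / c) := by
  have hc' : (0 : ℝ) < c := by exact_mod_cast hc
  have e : 4 / ε * (k.N v / c) = 4 * (c / ε) * k.N v / (c : ℝ) ^ 2 := by field_simp
  rw [e, le_div_iff₀ (by positivity)]
  fin_cases i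
  · have := det_sq_le' (x := v) hy
    simp only [co, Fin.zero_eta, Matrix.cons_val_zero, hd]
    push_cast
    rwa [div_pow, div_mul_cancel₀ _ (by positivity)]
  · have := det_sq_le' (x := v) hx
    have e2 : (k.det2 x v : ℝ) ^ 2 = (k.det2 v x : ℝ) ^ 2 := by
      simp only [det2]; push_cast; ring
    simp only [co, Fin.mk_one, Matrix.cons_val_one, Matrix.cons_val_zero, hd]
    push_cast
    rwa [div_pow, div_mul_cancel₀ _ (by positivity), e2]

theorem det_mat {x y : k.K} (h : k.det2 x y ≠ 0) (α β : k.K) :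
    (mat x y α β).det = QuadraticAlgebra.norm α - QuadraticAlgebra.norm β := by
  have h1 := det_lin α β x y
  rw [Matrix.det_fin_two]
  simp only [mat, co, Matrix.of_apply, Matrix.cons_val_zero, Matrix.cons_val_one]
  generalize k.lin α β x = v at h1 ⊢
  generalize k.lin α β y = w at h1 ⊢
  have h2 : k.det2 v y * k.det2 x w - k.det2 w y * k.det2 x v = k.det2 v w * k.det2 x y := by
    simp only [det2]; ring
  rw [div_mul_div_comm, div_mul_div_comm, ← sub_div, h2, h1, div_eq_iff (mul_ne_zero h h)]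
  ring

/-- The square root of the discriminant. -/
def del : k.K := k.om - star k.om

theorem star_del : star (del : k.K) = -del := by simp [del]

theorem del_ne : (del : k.K) ≠ 0 := by
  intro h
  have := congrArg QuadraticAlgebra.im h
  simp [del, om] at this

theorem lin_one (α β : k.K) : k.lin α β 1 = α + β := by simp [lin_apply]

theorem lin_del (α β : k.K) : k.lin α β del = (α - β) * del := by
  rw [lin_apply, star_del]; ring

theorem mat_ne_smul {x y : k.K} (h : k.det2 x y ≠ 0) {α β : k.K} (hβ : β ≠ 0) (a : ℚ) :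
    mat x y α β ≠ a • 1 := by
  intro e
  have key : ∀ v, k.lin α β v = a • v := by
    intro v
    rw [← pt_co h v, ← pt_mat h, e, Matrix.smul_mulVec, Matrix.one_mulVec]
    simp only [pt, Pi.smul_apply, smul_eq_mul, smul_add, smul_smul]
  have h1 := key 1
  have h2 := key del
  rw [lin_one] at h1
  rw [lin_del, ← mul_one (del : k.K), ← mul_smul_comm, ← h1, mul_one, mul_comm] at h2
  have h3 := mul_left_cancel₀ del_ne h2
  exact hβ (by linear_combination (-1 / 2 : k.K) * h3)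

theorem exists_lin {x y : k.K} (h : k.det2 x y ≠ 0) (x' y' : k.K) :
    ∃ α β : k.K, k.lin α β x = x' ∧ k.lin α β y = y' := by
  have hd : x * star y - y * star x ≠ 0 := by
    intro e
    have := congrArg QuadraticAlgebra.im e
    simp at this
    apply h
    rw [det2]
    linarith
  refine ⟨(x' * star y - y' * star x) / (x * star y - y * star x),
    (x * y' - y * x') / (x * star y - y * star x), ?_, ?_⟩ <;>
  · rw [lin_apply, div_mul_eq_mul_div, div_mul_eq_mul_div, ← add_div, div_eq_iff hd]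
    ring

theorem N_le_of_lin {α β : k.K} {C : ℝ} (h : ∀ v, k.N (k.lin α β v) ≤ C * k.N v) :
    k.N α ≤ C ∧ k.N β ≤ C := by
  have h1 := h 1
  have h2 := h del
  rw [lin_one, N_one, mul_one] at h1
  rw [lin_del, N_mul] at h2
  have h3 := le_of_mul_le_mul_right h2 (N_pos del_ne)
  have h4 := N_add_le (α + β) (α - β)
  have h5 := N_sub_le (α + β) (α - β)
  have e1 : α + β + (α - β) = (2 : ℚ) • α := by rw [two_smul]; ring
  have e2 : α + β - (α - β) = (2 : ℚ) • β := by rw [two_smul]; ring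
  rw [e1, N_smul] at h4
  rw [e2, N_smul] at h5
  push_cast at h4 h5
  constructor <;> linarith

/-- A basis of a lattice with bounded norms. -/
def Bas (k : Fld) (M : Submodule ℤ k.K) (c : ℚ) (ε : ℝ) (x y : k.K) : Prop :=
  M = Submodule.span ℤ {x, y} ∧ k.det2 x y = c ∧ 0 < c ∧
    k.N x ≤ |(k.D : ℝ)| * (c / ε) ∧ k.N y ≤ |(k.D : ℝ)| * (c / ε)

/-- The lattice has a short vector. -/
def Short (k : Fld) (M : Submodule ℤ k.K) (c : ℚ) (ε : ℝ) : Prop :=
  ∃ v ∈ M, v ≠ 0 ∧ k.N v ≤ ε * c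

theorem exists_bas (hB : BasicStmt) {M : Submodule ℤ k.K} {c : ℚ} (hM : k.Lat M c) {ε : ℝ}
    (hε : 0 < ε) (hs : ¬ Short k M c ε) : ∃ x y, Bas k M c ε x y := by
  obtain ⟨x, y, h1, h2, -, h3, h4⟩ := (hB k).2.2.2.2.2.1 M c hM
  have hc : 0 < c := by obtain ⟨_, _, _, _, h⟩ := hM; exact h
  have hc' : (0 : ℝ) < c := by exact_mod_cast hc
  have hx0 : x ≠ 0 := by
    rintro rfl
    simp [det2] at h2
    exact hc.ne h2
  have hx : ε * c < k.N x := not_le.1 fun h =>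
    hs ⟨x, h1 ▸ Submodule.subset_span (by simp), hx0, h⟩
  have hy : k.N y ≤ |(k.D : ℝ)| * (c / ε) := by
    rw [← mul_div_assoc, le_div_iff₀ hε]
    have h5 := mul_le_mul_of_nonneg_right hx.le (N_nonneg y)
    have h6 : c * (k.N y * ε) ≤ c * (|(k.D : ℝ)| * c) := by nlinarith
    exact le_of_mul_le_mul_left h6 hc'
  exact ⟨x, y, h1, h2, hc, h3.trans hy, hy⟩

section loc

variable {l : ℕ} [hl : Fact l.Prime] {r : ℚ_[l]}

/-- `φ` approximates the embedding on the basis. -/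
def Appr (r : ℚ_[l]) (κ : ℕ) (x y : k.K) (φ : Fin 2 → ℤ) : Prop :=
  ‖k.io r x - φ 0‖ ≤ ((l : ℝ) ^ κ)⁻¹ ∧ ‖k.io r y - φ 1‖ ≤ ((l : ℝ) ^ κ)⁻¹

theorem exists_apprx (hr : k.Root r) (h1 : ‖r‖ ≤ 1) {M : Submodule ℤ k.K} (hM : k.Nrm l M)
    {c : ℚ} {ε : ℝ} {x y : k.K} (hb : Bas k M c ε x y) (κ : ℕ) : ∃ φ, Appr r κ x y φ := by
  obtain ⟨a, ha⟩ := exists_appr (norm_le_of_nrm hr h1 hM
    (hb.1 ▸ Submodule.subset_span (by simp) : x ∈ M)) κ
  obtain ⟨b, hb⟩ := exists_appr (norm_le_of_nrm hr h1 hM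
    (hb.1 ▸ Submodule.subset_span (by simp) : y ∈ M)) κ
  exact ⟨![a, b], ha, hb⟩

theorem mem_ch (hr : k.Root r) {κ : ℕ} {x y : k.K} {φ : Fin 2 → ℤ} (h : Appr r κ x y φ) {t : ℕ}
    (ht : t ≤ κ) (u : Fin 2 → ℤ) :
    u ∈ ch l φ t ↔ ‖k.io r (pz x y u)‖ ≤ ((l : ℝ) ^ t)⁻¹ := by
  change (l : ℤ) ^ t ∣ φ 0 * u 0 + φ 1 * u 1 ↔ _
  rw [← norm_int_le_iff, pz_eq, zsmul_eq_mul, zsmul_eq_mul, io_add hr, io_mul hr, io_mul hr,
    io_int hr, io_int hr]
  have hs : ‖(u 0 : ℚ_[l]) * (k.io r x - φ 0) + (u 1 : ℚ_[l]) * (k.io r y - φ 1)‖ ≤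
      ((l : ℝ) ^ t)⁻¹ := by
    refine norm_add_le_of ?_ ?_ <;> rw [norm_mul]
    · exact (mul_le_of_le_one_left (norm_nonneg _) (Padic.norm_int_le_one _)).trans
        (h.1.trans (inv_pow_anti ht))
    · exact (mul_le_of_le_one_left (norm_nonneg _) (Padic.norm_int_le_one _)).trans
        (h.2.trans (inv_pow_anti ht))
  constructor
  · intro h2
    convert norm_add_le_of h2 hs using 2
    push_cast
    ring
  · intro h2
    convert norm_sub_le_of h2 hs using 2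
    push_cast
    ring

theorem not_dvd_appr (hr : k.Root r) {M : Submodule ℤ k.K} (hM : k.Nrm l M) {c : ℚ} {ε : ℝ}
    {x y : k.K} (hb : Bas k M c ε x y) {κ : ℕ} (hκ : 1 ≤ κ) {φ : Fin 2 → ℤ}
    (h : Appr r κ x y φ) : ¬ (l : ℤ) ∣ φ 0 ∨ ¬ (l : ℤ) ∣ φ 1 := by
  by_contra hcon
  push Not at hcon
  obtain ⟨u, hu, hO, -⟩ := hM
  have h1 := hO _ one_mem_O
  rw [hb.1] at h1
  obtain ⟨v, hv⟩ := mem_pz.1 h1
  have h2 : v ∈ ch l φ 1 := by
    change (l : ℤ) ^ 1 ∣ φ 0 * v 0 + φ 1 * v 1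
    rw [pow_one]
    exact dvd_add (hcon.1.mul_right _) (hcon.2.mul_right _)
  rw [mem_ch hr h hκ, hv, mul_one, io_nat hr, norm_nat_unit hu, pow_one] at h2
  have := inv_lt_one_of_one_lt₀ (one_lt_l (l := l))
  linarith

theorem collide (hr : k.Root r) (h1 : ‖r‖ ≤ 1) (h2 : ‖(k.t : ℚ_[l]) - r - r‖ = 1)
    {p : k.K} (hp : p ∈ k.O) {h : ℕ} (h0 : 0 < h) (hp1 : ‖k.io r p‖ = ((l : ℝ) ^ h)⁻¹)
    (hp2 : ‖k.io ((k.t : ℚ_[l]) - r) p‖ = 1) {M M' : Submodule ℤ k.K} (hM : k.Nrm l M)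
    (hM' : k.Nrm l M') {c : ℚ} {ε : ℝ} (hε : 0 < ε) {x y x' y' : k.K} (hb : Bas k M c ε x y)
    (hb' : Bas k M' c ε x' y') {κ : ℕ} {φ φ' : Fin 2 → ℤ} (ha : Appr r κ x y φ)
    (ha' : Appr r κ x' y' φ') (e : ch l φ κ = ch l φ' κ) :
    ∃ α β : k.K, M.map (k.lin α β) = M' ∧ k.N α ≤ 16 * |(k.D : ℝ)| / ε ^ 2 ∧
      k.N β ≤ 16 * |(k.D : ℝ)| / ε ^ 2 ∧ ‖k.io r β‖ ≤ ((l : ℝ) ^ κ)⁻¹ := by
  have hd : k.det2 x y ≠ 0 := hb.2.1 ▸ hb.2.2.1.ne'
  have hc' : (0 : ℝ) < c := by exact_mod_cast hb.2.2.1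
  obtain ⟨α, β, e1, e2⟩ := exists_lin hd x' y'
  have hmap : M.map (k.lin α β) = M' := by
    rw [hb.1, hb'.1, Submodule.map_span, Set.image_pair, e1, e2]
  have hN := N_le_of_lin (α := α) (β := β) (C := 16 * |(k.D : ℝ)| / ε ^ 2) fun v => by
    have h3 := N_pt_le hb'.2.2.2.1 hb'.2.2.2.2 (co x y v)
    rw [← e1, ← e2, ← lin_pt, pt_co hd] at h3
    have h4 := co_sq_le hb.2.1 hb.2.2.1 hb.2.2.2.1 hb.2.2.2.2 v 0
    have h5 := co_sq_le hb.2.1 hb.2.2.1 hb.2.2.2.1 hb.2.2.2.2 v 1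
    have h6 := @absD_pos k
    refine h3.trans ((mul_le_mul_of_nonneg_left (add_le_add h4 h5) (by positivity)).trans_eq ?_)
    field_simp
    ring
  refine ⟨α, β, hmap, hN.1, hN.2, ?_⟩
  have hα := lin_le_one hr h1 h2 hM hM' fun v hv => hmap ▸ Submodule.mem_map_of_mem hv
  obtain ⟨u, hu, hO, -⟩ := hM
  have hw := hO _ (pow_mem_O hp κ)
  have hw1 : ‖k.io r ((u : k.K) * p ^ κ)‖ ≤ ((l : ℝ) ^ κ)⁻¹ := by
    rw [io_mul hr, io_nat hr, io_pow hr, norm_mul, norm_nat_unit hu, one_mul, norm_pow, hp1,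
      inv_pow, ← pow_mul]
    exact inv_pow_anti (Nat.le_mul_of_pos_left κ h0)
  have hw2 : ‖k.io ((k.t : ℚ_[l]) - r) ((u : k.K) * p ^ κ)‖ = 1 := by
    rw [io_mul (root_conj hr), io_nat (root_conj hr), io_pow (root_conj hr), norm_mul,
      norm_nat_unit hu, one_mul, norm_pow, hp2, one_pow]
  rw [hb.1] at hw
  obtain ⟨v, hv⟩ := mem_pz.1 hw
  rw [← hv] at hw1 hw2
  have h3 := (mem_ch hr ha le_rfl v).2 hw1
  rw [e, mem_ch hr ha' le_rfl, ← e1, ← e2, pz, ← lin_pt, io_lin hr] at h3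
  have h4 : ‖k.io r α * k.io r (pz x y v)‖ ≤ ((l : ℝ) ^ κ)⁻¹ := by
    rw [norm_mul]
    exact (mul_le_of_le_one_left (norm_nonneg _) hα).trans hw1
  have h5 := norm_sub_le_of h3 h4
  rw [pz] at h5 hw2
  rwa [add_sub_cancel_left, norm_mul, hw2, mul_one] at h5

end loc

end Pool.Agent.Lib.MP_9177b7_ag.J.Small
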