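import Pool.Agent.Lib.MP_9177b7_ag.J.Small3

/-! Small isogeny regime: good orbit points give paths which follow bounded matrices. -/

open Pointwise

noncomputable section

namespace Pool.Agent.Lib.MP_9177b7_ag.J.Small

open Fld

variable {k : Fld}

theorem pz_add (x y : k.K) (u v : Fin 2 → ℤ) : pz x y (u + v) = pz x y u + pz x y v := by
  simp only [pz_eq, Pi.add_apply, add_smul]; abel

theorem pz_smul (x y : k.K) (c : ℤ) (u : Fin 2 → ℤ) : pz x y (c • u) = (c : k.K) * pz x y u := by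
  rw [pz_eq, pz_eq, Pi.smul_apply, Pi.smul_apply, smul_eq_mul, smul_eq_mul]
  simp only [zsmul_eq_mul]
  push_cast
  ring

/-- The sheet: the saturation at `l` of `a M`. -/
def sheet (l : ℕ) (x y a : k.K) (M : Submodule ℤ k.K) : Submodule ℤ (Fin 2 → ℤ) where
  carrier := {u | ∃ b : ℕ, ∃ z ∈ M, (l : k.K) ^ b * pz x y u = a * z}
  zero_mem' := ⟨0, 0, M.zero_mem, by simp [pz_eq]⟩
  add_mem' := by
    rintro u v ⟨b, z, hz, e⟩ ⟨b', z', hz', e'⟩
    refine ⟨b + b', ((l ^ b' : ℕ) : k.K) * z + ((l ^ b : ℕ) : k.K) * z',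
      M.add_mem (nat_mul_mem hz _) (nat_mul_mem hz' _), ?_⟩
    rw [pz_add]
    push_cast
    linear_combination (l : k.K) ^ b' * e + (l : k.K) ^ b * e'
  smul_mem' := by
    rintro c u ⟨b, z, hz, e⟩
    refine ⟨b, (c : k.K) * z, int_mul_mem hz c, ?_⟩
    rw [pz_smul]
    linear_combination (c : k.K) * e

theorem index_mul (hB : BasicStmt) {M₁ M₂ : Submodule ℤ k.K} {c₁ c₂ : ℚ} (h₁ : k.Lat M₁ c₁)
    (h₂ : k.Lat M₂ c₂) {a : k.K} (ha0 : a ≠ 0) (ha : ∀ y ∈ M₂, a * y ∈ M₁) :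
    ∃ j : ℕ, 0 < j ∧ QuadraticAlgebra.norm a * c₂ = j * c₁ ∧
      ∀ x ∈ M₁, ∃ z ∈ M₂, (j : k.K) * x = a * z := by
  have hpos := N_pos ha0
  have hL := (hB k).2.2.1 M₂ c₂ a 0 h₂ (by
    have : k.N 0 = 0 := by simp [N]
    rw [this]; exact hpos.ne')
  have hq : 0 < QuadraticAlgebra.norm a := by
    rw [N] at hpos
    exact_mod_cast hpos
  rw [QuadraticAlgebra.norm_zero, sub_zero, abs_of_pos hq] at hL
  obtain ⟨j, hj, e, h, -⟩ := (hB k).2.2.2.1 _ _ _ _ hL h₁ (by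
    rintro _ ⟨y, hy, rfl⟩
    simpa [lin_apply] using ha y hy)
  refine ⟨j, hj, e, fun x hx => ?_⟩
  obtain ⟨z, hz, e2⟩ := h x hx
  exact ⟨z, hz, by simpa [lin_apply] using e2.symm⟩

variable {l : ℕ} [hl : Fact l.Prime] {r : ℚ_[l]}

theorem ne_zero_of_norm {a : k.K} {e : ℕ} (h : ‖k.io r a‖ = ((l : ℝ) ^ e)⁻¹) : a ≠ 0 := by
  rintro rfl
  have hl0 : (0 : ℝ) < l := zero_lt_one.trans one_lt_l
  have : k.io r (0 : k.K) = 0 := by simp [io]
  rw [this, norm_zero] at h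
  exact absurd h.symm (by positivity)

open Classical in
theorem follows (hB : BasicStmt) (hr : k.Root r) (h1 : ‖r‖ ≤ 1)
    (h2 : ‖(k.t : ℚ_[l]) - r - r‖ = 1) {p : k.K} {h : ℕ} (h0 : 0 < h)
    (hn : QuadraticAlgebra.norm p = (l : ℚ) ^ h) (hp1 : ‖k.io r p‖ = ((l : ℝ) ^ h)⁻¹)
    {M₁ M₂ : Submodule ℤ k.K} {A B : ℕ → Submodule ℤ k.K} {c₁ c₂ : ℚ}
    (hL₁ : k.Lat M₁ c₁) (hL₂ : k.Lat M₂ c₂) (hM₁ : k.Nrm l M₁) (hM₂ : k.Nrm l M₂)
    (hA : ∀ i, k.Lat (A i) c₁ ∧ k.Nrm l (A i)) (hB2 : ∀ i, k.Lat (B i) c₂ ∧ k.Nrm l (B i))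
    (hA' : ∀ i x, x ∈ A i ↔ p ^ i * x ∈ M₁ ∧ ‖k.io r x‖ ≤ 1)
    (hB' : ∀ i x, x ∈ B i ↔ p ^ i * x ∈ M₂ ∧ ‖k.io r x‖ ≤ 1)
    {a : k.K} {N' e : ℕ} (ha : ∀ y ∈ M₂, a * y ∈ M₁) (ha1 : ‖k.io r a‖ = ((l : ℝ) ^ e)⁻¹)
    (ha2 : ‖k.io ((k.t : ℚ_[l]) - r) a‖ = 1)
    (haN : QuadraticAlgebra.norm a * c₂ = (N' * l ^ e : ℕ) * c₁) (hN' : ¬ l ∣ N')
    {R ε ε₀ η : ℝ} {m κ n : ℕ} (hε : 0 < ε) (hκ : 1 ≤ κ)
    (hsm : ((N' * l ^ e : ℕ) : ℝ) ≤ (l : ℝ) ^ (η * κ)) {x y : k.K} (hb : Bas k M₁ c₁ ε x y)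
    {φ : Fin 2 → ℤ} (hφ : Appr r κ x y φ)
    (hbad : (((Finset.range (κ + 1)).filter fun q => Short k (A (q / h)) c₁ ε).card : ℝ) ≤
      ε₀ * κ / 100)
    (hnκ : h * n + m + e ≤ κ)
    (hgood : ε₀ * κ ≤ ((Finset.range n).filter
      fun i => k.Ev l r 1 R (m + 1) c₁ c₂ (A i) (B i)).card) :
    Follows l (16 * R * |(k.D : ℝ)| / ε ^ 2) (ε ^ 2 / (2 * |(k.D : ℝ)| * (l : ℝ) ^ h)) ε₀ η m κ
      φ := by
  have hl0 : (0 : ℝ) < l := zero_lt_one.trans one_lt_l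
  have hD := @absD_pos k
  have hd : k.det2 x y ≠ 0 := hb.2.1 ▸ hb.2.2.1.ne'
  have hc₁ : (0 : ℝ) < c₁ := by exact_mod_cast hb.2.2.1
  have hc₂ : (0 : ℝ) < c₂ := by
    obtain ⟨_, _, _, _, h⟩ := hL₂
    exact_mod_cast h
  have hp0 : p ≠ 0 := ne_zero_of_norm hp1
  have ha0 : a ≠ 0 := ne_zero_of_norm ha1
  have hpi : ∀ i, ‖k.io r (p ^ i)‖ = ((l : ℝ) ^ (h * i))⁻¹ := fun i => by
    rw [io_pow hr, norm_pow, hp1, inv_pow, ← pow_mul]
  have hNp : k.N p = (l : ℝ) ^ h := by rw [N, hn]; push_cast; rfl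
  have hmem : ∀ u, pz x y u ∈ M₁ := fun u => hb.1 ▸ pz_mem x y u
  have hsur : ∀ v ∈ M₁, ∃ u, pz x y u = v := fun v hv => mem_pz.1 (hb.1 ▸ hv)
  refine ⟨not_dvd_appr hr hM₁ hb hκ hφ, le_trans ?_ hbad, N', e, sheet l x y a M₂,
    ((Finset.range n).filter fun i => k.Ev l r 1 R (m + 1) c₁ c₂ (A i) (B i)).image (h * ·),
    hN', hsm, fun u => ?_, ?_, ?_⟩
  · refine Nat.cast_le.2 (Finset.card_le_card fun q hq => ?_)
    rw [Finset.mem_filter] at hq ⊢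
    obtain ⟨hq, u, hu, hu0, hlt⟩ := hq
    refine ⟨hq, ?_⟩
    have hqκ : q ≤ κ := by simpa [Nat.lt_succ_iff] using hq
    rw [mem_ch hr hφ hqκ] at hu
    have hv0 : pz x y u ≠ 0 := by
      intro h3
      have h4 : pt x y (fun i => (u i : ℚ)) = pt x y 0 := by
        rw [← pz, h3]; simp [pt]
      have h5 := pt_inj hd h4
      apply hu0
      funext i
      simpa using congrFun h5 i
    obtain ⟨w, hw⟩ : ∃ w, pz x y u = p ^ (q / h) * w := ⟨pz x y u / p ^ (q / h), by field_simp⟩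
    have hq1 : h * (q / h) ≤ q := Nat.mul_div_le q h
    have hq2 : q ≤ h * (q / h) + h := by
      have := Nat.div_add_mod q h
      have := Nat.mod_lt q h0
      omega
    refine ⟨w, (hA' _ w).2 ⟨hw ▸ hmem u, ?_⟩, ?_, ?_⟩
    · have h3 := hu.trans (inv_pow_anti hq1)
      rw [hw, io_mul hr, norm_mul, hpi] at h3
      exact (mul_le_iff_le_one_right (by positivity)).1 h3
    · rintro rfl
      exact hv0 (by rw [hw, mul_zero])
    · have h3 := N_pt_le hb.2.2.2.1 hb.2.2.2.2 fun i => (u i : ℚ)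
      rw [← pz, hw, N_mul, N_pow, hNp, ← pow_mul] at h3
      push_cast at h3 hlt
      have h4 : (l : ℝ) ^ q ≤ (l : ℝ) ^ (h * (q / h)) * (l : ℝ) ^ h := by
        rw [← pow_add]
        exact pow_le_pow_right₀ one_lt_l.le hq2
      have h5 : (l : ℝ) ^ (h * (q / h)) * k.N w ≤ (l : ℝ) ^ (h * (q / h)) * (ε * c₁) := by
        refine h3.trans ((mul_le_mul_of_nonneg_left (hlt.le.trans
          (mul_le_mul_of_nonneg_left h4 (by positivity))) (by positivity)).trans_eq ?_)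
        field_simp
      exact le_of_mul_le_mul_left h5 (by positivity)
  · obtain ⟨j, -, e1, hj⟩ := index_mul hB hL₁ hL₂ ha0 ha
    have e2 : j = N' * l ^ e := by
      have : (j : ℚ) = (N' * l ^ e : ℕ) := mul_right_cancel₀ hb.2.2.1.ne' (e1.symm.trans haN)
      exact_mod_cast this
    obtain ⟨z, hz, e3⟩ := hj _ (hmem u)
    refine ⟨e, z, hz, ?_⟩
    rw [pz_smul, ← e3, e2]
    push_cast
    ring
  · rw [Finset.card_image_of_injective _ (mul_right_injective₀ h0.ne')]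
    exact hgood
  · intro q hq
    obtain ⟨i, hi, rfl⟩ := Finset.mem_image.1 hq
    obtain ⟨hi, α, β, hle, hdet, hα, hβ, hβ0, hβ1, -⟩ := Finset.mem_filter.1 hi
    have hi' : h * i ≤ h * n := Nat.mul_le_mul_left h (Finset.mem_range.1 hi).le
    have hAB := onto_of_det hB (hA i).1 (hB2 i).1 hle hdet
    have hP0 : p ^ i ≠ 0 := pow_ne_zero i hp0
    have hsP : star (p ^ i) ≠ 0 := star_ne_zero.2 hP0
    have hnβ : QuadraticAlgebra.norm (a * β * p ^ i / star (p ^ i)) =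
        QuadraticAlgebra.norm a * QuadraticAlgebra.norm β := by
      have h3 : QuadraticAlgebra.norm (star (p ^ i)) ≠ 0 := fun h4 =>
        hsP (QuadraticAlgebra.norm_eq_zero_iff_eq_zero.1 h4)
      refine mul_right_cancel₀ h3 ?_
      rw [← map_mul, div_mul_cancel₀ _ hsP, map_mul, map_mul, QuadraticAlgebra.norm_star]
    have haN' : k.N a * c₂ = (N' * l ^ e : ℕ) * c₁ := by
      rw [N]
      exact_mod_cast haN
    have hbd : ∀ z : k.K, k.N z * c₁ ≤ R * c₂ → k.N a * k.N z ≤ R * (N' * l ^ e : ℕ) := by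
      intro z hz
      have h3 := mul_le_mul_of_nonneg_left hz (N_nonneg a)
      have h4 : (k.N a * k.N z) * c₁ ≤ (R * (N' * l ^ e : ℕ)) * c₁ := by
        calc _ = k.N a * (k.N z * c₁) := by ring
          _ ≤ k.N a * (R * c₂) := h3
          _ = R * (k.N a * c₂) := by ring
          _ = _ := by rw [haN']; ring
      exact le_of_mul_le_mul_right h4 hc₁
    refine ⟨by omega, mat x y (a * α) (a * β * p ^ i / star (p ^ i)),
      mat_ne_smul hd (div_ne_zero (mul_ne_zero (mul_ne_zero ha0 hβ0) hP0) hsP), fun i' j => ?_,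
      ?_, fun t ht1 ht2 => ?_⟩
    · have h3 := co_sq_le hb.2.1 hb.2.2.1 hb.2.2.2.1 hb.2.2.2.2
        (k.lin (a * α) (a * β * p ^ i / star (p ^ i)) (![x, y] j)) i'
      have h4 := N_lin_le (a * α) (a * β * p ^ i / star (p ^ i)) (![x, y] j)
      have h5 : k.N (a * β * p ^ i / star (p ^ i)) = k.N a * k.N β := by
        simp only [N, hnβ]; push_cast; rfl
      have h6 : k.N (![x, y] j) ≤ |(k.D : ℝ)| * (c₁ / ε) := by
        fin_cases j
        · exact hb.2.2.2.1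
        · exact hb.2.2.2.2
      rw [h5, N_mul] at h4
      have h7 := hbd α hα
      have h8 := hbd β hβ
      have h9 := mul_nonneg (N_nonneg a) (N_nonneg α)
      have h10 : k.N (k.lin (a * α) (a * β * p ^ i / star (p ^ i)) (![x, y] j)) ≤
          4 * (R * (N' * l ^ e : ℕ)) * (|(k.D : ℝ)| * (c₁ / ε)) :=
        h4.trans (mul_le_mul (by linarith) h6 (N_nonneg _) (by linarith))
      refine h3.trans ((mul_le_mul_of_nonneg_left (div_le_div_of_nonneg_right h10 hc₁.le)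
        (by positivity)).trans_eq ?_)
      field_simp
      ring
    · rw [det_mat hd, hnβ, map_mul, ← mul_sub, abs_mul]
      have h3 : |QuadraticAlgebra.norm α - QuadraticAlgebra.norm β| * c₁ = c₂ := by
        have : ((|QuadraticAlgebra.norm α - QuadraticAlgebra.norm β| * c₁ : ℚ) : ℝ) = c₂ := by
          push_cast
          simpa [N] using hdet
        exact_mod_cast this
      have h4 : 0 ≤ QuadraticAlgebra.norm a := by
        have := N_nonneg a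
        rw [N] at this
        exact_mod_cast this
      rw [abs_of_nonneg h4]
      refine mul_right_cancel₀ hb.2.2.1.ne' ?_
      rw [mul_assoc, h3, haN]
    · obtain ⟨w1, w2⟩ := onto_window hr h1 h2 hM₁ hM₂ (hA i).2 (hB2 i).2 (hpi i) (hA' i) (hB' i)
        ha ha1 ha2 hAB hβ1 ht1 ht2
      have ht : t ≤ κ := by omega
      have hte : t + e ≤ κ := by omega
      constructor
      · intro u hu
        obtain ⟨⟨z, hz, e1⟩, h3⟩ := w1 _ (hmem u) ((mem_ch hr hφ ht u).1 hu)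
        obtain ⟨v, hv⟩ := hsur _ (ha z hz)
        refine ⟨v, ⟨⟨0, z, hz, by rw [pow_zero, one_mul, hv]⟩, ?_⟩, pt_inj hd ?_⟩
        · exact (mem_ch hr hφ hte v).2 (by rwa [hv, ← e1])
        · rw [pt_mat hd]
          exact e1.trans hv.symm
      · rintro v ⟨hv1, hv2⟩
        obtain ⟨z, hz, h3, e1⟩ := w2 _ (hmem v) hv1 ((mem_ch hr hφ hte v).1 hv2)
        obtain ⟨u, rfl⟩ := hsur z hz
        refine ⟨u, (mem_ch hr hφ ht u).2 h3, pt_inj hd ?_⟩
        rw [pt_mat hd]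
        exact e1

end Pool.Agent.Lib.MP_9177b7_ag.J.Small
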