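import Pool.Agent.Lib.MP_9177b7_ag.J.DefsU
import Pool.Agent.Lib.MP_9177b7_ag.J.Basic
import Pool.Agent.Lib.MP_9177b7_ag.J.Psi
import Pool.Agent.Lib.MP_9177b7_ag.J.Rep
import Pool.Agent.Lib.MP_9177b7_ag.J.Sieve
import Pool.Agent.Lib.MP_9177b7_ag.J.Tight

/-!
No escape of mass for the orbits of `(O / F O)ˣ`, with a rate.
-/

noncomputable section

namespace Pool.Agent.Lib.MP_9177b7_ag.J

namespace TightQ

open Finset Fld Tight

lemma pr_le_one {k : Fld} {F : ℕ+} (P : k.SF F → Prop) : k.pr F P ≤ 1 := by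
  unfold pr avg
  refine div_le_one_of_le₀ ?_ (Nat.cast_nonneg _)
  refine (sum_le_card_nsmul _ _ 1 fun s _ => ?_).trans (by simp)
  beta_reduce
  split_ifs <;> norm_num

/-- The quantitative form of the estimate. -/
lemma main (k : Fld) : ∃ C K : ℝ, 0 < C ∧ 0 < K ∧ ∀ ε η T : ℝ, 0 < ε → 0 < η → 1 ≤ T →
    K ≤ η * T → ε ≤ 1 / T ^ 48 → ∀ (F : ℕ+) (L : Submodule ℤ k.K) (c : ℚ), k.Lat L c →
      k.Adm F L → k.pr F (fun s => ∃ v ∈ act s L, v ≠ 0 ∧ k.N v ≤ ε * c) ≤ C * ε + η / 2 := by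
  have hP := psi_stmt
  obtain ⟨C, hC, hcount⟩ := count sieve k (hP k).1
  obtain ⟨C1, hC1⟩ := (hP k).2.2.2 (1 / 12) (by norm_num)
  obtain ⟨C2, hC2⟩ := MP_30b5ba_nt.card_divisors_pow_le 16
  refine ⟨C, max 1 (50 * C1 * (C2 + 1)), hC, lt_of_lt_of_le one_pos (le_max_left _ _),
    fun ε η T hε0 hη hT1 hK hεT F L c hL hF => ?_⟩
  obtain ⟨G, f, hf, hfF, hj, h⟩ := model basic (rep basic) hL hF
  have hf' : (0 : ℝ) < f := by exact_mod_cast hf
  have hτ : (0 : ℝ) < f.divisors.card := by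
    exact_mod_cast card_pos.2 ⟨1, Nat.one_mem_divisors.2 hf.ne'⟩
  have key : ∀ e ∈ f.divisors.filter fun e : ℕ => 1 ≤ ε * e ^ 2 / f,
      k.pr F (fun s => ∃ p ∈ pts G e (ε * e ^ 2 / f), Tight.Ev G e p s) ≤
        C * ε * e.totient / f + η / (2 * f.divisors.card) := by
    intro e he
    obtain ⟨he, hX⟩ := mem_filter.1 he
    have hef := Nat.dvd_of_mem_divisors he
    have he0 : (0 : ℝ) < e := by exact_mod_cast Nat.pos_of_mem_divisors he
    refine (pr_le_sum _ _).trans ((sum_le_card_nsmul _ _ _ fun p _ =>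
      pr_Ev hP G (hef.trans hfF) hj p).trans ?_)
    rw [nsmul_eq_mul, mul_one_div]
    by_cases hb : (f : ℝ) ≤ (ε * e ^ 2 / f) ^ 3
    · have h1 := hcount G e f _ hf hef
        (hj.of_isCoprime_of_dvd_right (by exact_mod_cast hfF)) hX hb
      have h2 : 0 < ∏ q ∈ e.primeFactors, (1 - (k.chi q : ℝ) / q) := prod_pos fun q hq =>
        (rho_bd (Nat.prime_of_mem_primeFactors hq)
          ((hP k).1 q (Nat.prime_of_mem_primeFactors hq))).2.2.2
      have h3 : (e.totient : ℝ) = e * ∏ q ∈ e.primeFactors, (1 - (q : ℝ)⁻¹) := by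
        have := congrArg (Rat.cast : ℚ → ℝ) (Nat.totient_eq_mul_prod_factors e)
        push_cast at this
        exact this
      simp only [rho, sub_sub_cancel, prod_mul_distrib] at h1
      refine le_trans ?_ (le_add_of_nonneg_right (by positivity))
      rw [Fld.psi, div_le_iff₀ (by positivity), h3]
      refine h1.trans_eq ?_
      ring
    · obtain ⟨h1, h2⟩ := small_case (C1 := C1) (C2 := C2) (τ := f.divisors.card) hη hT1
        (Nat.cast_nonneg _) ((le_max_right _ _).trans hK) hε0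
        hεT (by exact_mod_cast hf) he0 (by exact_mod_cast Nat.le_of_dvd hf hef) hτ
        (by exact_mod_cast hC2 f hf.ne') (Nat.cast_nonneg _)
        (hC1 e (Nat.pos_of_mem_divisors he)) rfl hX (not_le.1 hb)
      refine le_trans ?_ (le_add_of_nonneg_left (by positivity))
      exact (div_le_div₀ (by positivity) (card_pts G e hX) h1 ((hP k).2.2.1 e)).trans h2
  refine (pr_mono (h ε)).trans ((pr_le_sum _ _).trans ((sum_le_sum key).trans ?_))
  refine (sum_le_sum_of_subset_of_nonneg (filter_subset _ _) fun _ _ _ => by positivity).trans ?_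
  have e1 : ∑ e ∈ f.divisors, (e.totient : ℝ) = f := by exact_mod_cast Nat.sum_totient f
  rw [sum_add_distrib, ← sum_div, ← mul_sum, e1, sum_const, nsmul_eq_mul]
  have e2 : C * ε * f / f = C * ε := by field_simp
  have e3 : (f.divisors.card : ℝ) * (η / (2 * f.divisors.card)) = η / 2 := by field_simp
  rw [e2, e3]

end TightQ

theorem tightQ : TightQStmt := by
  intro k
  obtain ⟨C, K, hC, hK, h⟩ := TightQ.main k
  refine ⟨C + K + 1, 1 / 48, by positivity, by norm_num, fun ε hε F L c hL hF => ?_⟩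
  set r := ε ^ (1 / 48 : ℝ) with hr
  have hr0 : 0 < r := Real.rpow_pos_of_pos hε _
  have hr48 : r ^ 48 = ε := by
    rw [hr, ← Real.rpow_natCast, ← Real.rpow_mul hε.le]
    norm_num
  by_cases h1 : 1 ≤ r
  · refine (TightQ.pr_le_one _).trans ?_
    nlinarith
  · have h2 : r ≤ 1 := (not_le.1 h1).le
    have h3 : ε ≤ r := by
      rw [← hr48]
      exact pow_le_of_le_one hr0.le h2 (by norm_num)
    refine (h ε (K * r) r⁻¹ hε (by positivity) (one_le_inv₀ hr0 |>.2 h2) ?_ ?_ F L c hL hF).trans ?_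
    · rw [mul_assoc, mul_inv_cancel₀ hr0.ne', mul_one]
    · rw [inv_pow, one_div, inv_inv, hr48]
    · nlinarith [mul_pos hK hr0, mul_le_mul_of_nonneg_left h3 hC.le]

end Pool.Agent.Lib.MP_9177b7_ag.J
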