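import Pool.Agent.Lib.MP_9177b7_ag.J.DefsU
import Pool.Agent.Lib.MP_9177b7_ag.J.Fin3

/-!
Weak convergence to a product measure; existence of split primes.
-/

open MeasureTheory Set Filter Topology
open scoped BoundedContinuousFunction ENNReal

namespace Pool.Agent.Lib.MP_9177b7_ag.J

theorem weak : WeakStmt := by
  intro ι X _ _ _ _ _ μ ν hμ hν h φ
  classical
  let := TopologicalSpace.upgradeIsCompletelyMetrizable X
  let P : ℕ → ProbabilityMeasure (ι → X) := fun n => ⟨ν n, hν n⟩
  have mg : ∀ i, IsTightMeasureSet {((ρ : ProbabilityMeasure X) : Measure X) |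
      ρ ∈ range fun n => (P n).map (measurable_pi_apply i).aemeasurable} := fun i => by
    have h1 : Tendsto (fun n => (P n).map (measurable_pi_apply i).aemeasurable) atTop
        (𝓝 (⟨μ, hμ⟩ : ProbabilityMeasure X)) :=
      ProbabilityMeasure.tendsto_iff_forall_integral_tendsto.2 fun f => by
        have h2 := h (Pi.mulSingle i f)
        have h3 : ∀ z : ι → X, ∏ j, (Pi.mulSingle i f : ι → X →ᵇ ℝ) j (z j) = f (z i) := fun z => by
          rw [Finset.prod_eq_single i (fun j _ hj => by simp [hj]) (by simp), Pi.mulSingle_eq_same]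
        rw [Finset.prod_eq_single i (fun j _ hj => by simp [hj]) (by simp),
          Pi.mulSingle_eq_same] at h2
        refine h2.congr fun n => ?_
        rw [ProbabilityMeasure.toMeasure_map, integral_map (measurable_pi_apply i).aemeasurable
          f.continuous.aestronglyMeasurable]
        simp only [h3]
        rfl
    exact isTightMeasureSet_of_isCompact_closure (h1.isCompact_insert_range.closure_of_subset
      (subset_insert _ _))
  have hK : IsCompact (closure (range P)) := by
    refine isCompact_closure_of_isTightMeasureSet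
      (isTightMeasureSet_iff_exists_isCompact_measure_compl_le.2 fun ε hε => ?_)
    obtain ⟨δ, h1, h2⟩ := ENNReal.exists_pos_sum_of_countable' hε.ne' ι
    choose K h3 h4 using fun i =>
      isTightMeasureSet_iff_exists_isCompact_measure_compl_le.1 (mg i) (δ i) (h1 i)
    refine ⟨univ.pi K, isCompact_univ_pi h3, ?_⟩
    rintro _ ⟨_, ⟨n, rfl⟩, rfl⟩
    refine (measure_mono (t := ⋃ i, (fun z => z i) ⁻¹' (K i)ᶜ) fun z hz => by simpa using hz).trans
      ((measure_iUnion_le _).trans ((ENNReal.tsum_le_tsum fun i => ?_).trans h2.le))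
    exact (Measure.le_map_apply (measurable_pi_apply i).aemeasurable _).trans
      (h4 i _ ⟨_, ⟨n, rfl⟩, rfl⟩)
  have := instMetrizableSpaceProbabilityMeasure (ι → X)
  refine tendsto_of_subseq_tendsto fun ns hns => ?_
  obtain ⟨ρ, -, ms, hms, hρ⟩ := hK.tendsto_subseq (x := fun n => P (ns n))
    fun n => subset_closure ⟨ns n, rfl⟩
  refine ⟨ms, ?_⟩
  have h1 := ProbabilityMeasure.tendsto_iff_forall_integral_tendsto.1 hρ
  have h2 : (ρ : Measure (ι → X)) = Measure.pi fun _ => μ := by
    rw [← (Homeomorph.prodUnique (ι → X) Unit).toMeasurableEquiv.symm.map_measurableEquiv_injective.eq_iff]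
    refine Measure.ext_of_integral_prod_mul_boundedContinuousFunction fun f g => ?_
    rw [integral_map_equiv, integral_map_equiv]
    have h3 := h1 (∏ i, (f i).compContinuous ⟨Function.eval i, by fun_prop⟩)
    simp only [BoundedContinuousFunction.coe_prod, Finset.prod_apply,
      BoundedContinuousFunction.compContinuous_apply, ContinuousMap.coe_mk] at h3
    have h4 := tendsto_nhds_unique h3 ((h f).comp (hns.comp hms.tendsto_atTop))
    rw [← integral_fintype_prod_eq_prod] at h4
    exact (integral_mul_const _ _).trans ((congrArg (· * g ()) h4).trans (integral_mul_const _ _).symm)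
  exact h2 ▸ h1 φ

theorem split_stmt : SplitStmt := by
  intro k M
  have hD : k.D < 0 := k.neg
  obtain ⟨N, hN⟩ : ∃ N : ℕ, (N : ℤ) = -k.D := ⟨(-k.D).toNat, Int.toNat_of_nonneg (by omega)⟩
  have N0 : 0 < N := by omega
  set y := (M + 2).factorial with hy
  have h1 : N * y ^ 2 + 1 ≠ 1 := by have := (M + 2).factorial_pos; simp; omega
  obtain ⟨l, hl, h2⟩ := Nat.exists_prime_and_dvd h1
  have h3 : ¬l ∣ N * y ^ 2 := fun h => hl.one_lt.ne' (Nat.dvd_one.1 ((Nat.dvd_add_right h).1 h2))
  have h4 : M + 2 < l := not_le.1 fun h => h3 (((hl.dvd_factorial.2 h).pow two_ne_zero).mul_left N)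
  have h5 : ¬(l : ℤ) ∣ k.D := fun h => h3 (by
    rw [← dvd_neg, ← hN, Int.natCast_dvd_natCast] at h
    exact h.mul_right _)
  have := Fact.mk hl
  refine ⟨l, this, by omega, h5, Fin.exists_root k (by omega) (v := 1) (u := N * y)
    (by simpa using h5) ?_⟩
  rw [show ((N : ℤ) * y) ^ 2 - 1 ^ 2 * k.D = N * ((N * y ^ 2 + 1 : ℕ) : ℤ) by
    push_cast; linear_combination -hN]
  exact (Int.natCast_dvd_natCast.2 h2).mul_left _

end Pool.Agent.Lib.MP_9177b7_ag.J
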